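import Pool.Agent.MP_99a865_pr.FV.A1b

open MeasureTheory ProbabilityTheory Filter Topology
open scoped ENNReal NNReal

namespace Pool.Agent.BPT

variable {D : Set ℝ} {ρ : Measure ℝ}

/-! **[FV-A1c]** Exit times: elementary, from the Markov property. -/

theorem measurable_ex (hD : Dom D) [IsProbabilityMeasure ρ] : Measurable (ex D ρ) := by
  have hs : MeasurableSet {p : ℝ × ℝ | p.1 + p.2 ∉ D} :=
    (measurable_fst.add measurable_snd) hD.meas.compl
  exact measurable_measure_prodMk_left hs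

/-- the larger `w`, the smaller the exit probability -/
theorem ex_anti (hD : Dom D) : Antitone (ex D ρ) := by
  intro w w' h
  unfold ex
  refine measure_mono fun y hy hy' => hy ?_
  exact hD.up hy' (by linarith)

lemma A1c_meas_hit (hD : Dom D) (m : ℕ) :
    MeasurableSet {p : ℝ × (ℕ → ℝ) | 1 ≤ m ∧ Alive D p.1 (m - 1) p.2 ∧ p.1 + S m p.2 ∉ D} := by
  refine MeasurableSet.inter (MeasurableSet.const _) (MeasurableSet.inter ?_ ?_)
  · exact measurableSet_alive' hD (m - 1)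
  · exact (A1_meas_add' m) hD.meas.compl

theorem measurable_hit (hD : Dom D) [IsProbabilityMeasure ρ] (m : ℕ) : Measurable (hit D ρ m) := by
  exact (measurable_measure_prodMk_left (ν := seqLaw ρ) (A1c_meas_hit hD m)).ennreal_toReal

/-- Markov property at time `k`. -/
lemma A1c_markov (hD : Dom D) [IsProbabilityMeasure ρ] (k : ℕ) (x : ℝ) (B : Set (ℝ × (ℕ → ℝ)))
    (hB : MeasurableSet B) :
    seqLaw ρ {ω | Alive D x k ω ∧ (x + S k ω, shift k ω) ∈ B} =
      ∫⁻ w, seqLaw ρ (Prod.mk w ⁻¹' B) ∂(kap D ρ k x) := by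
  classical
  set H : (ℕ → ℝ) → (ℕ → ℝ) → ℝ≥0∞ := fun ω η =>
    (({ω | Alive D x k ω} : Set (ℕ → ℝ)).indicator (fun _ => (1 : ℝ≥0∞)) ω) *
      (B.indicator (fun _ => (1 : ℝ≥0∞)) (x + S k ω, η)) with hHdef
  have hSk : Measurable fun p : (ℕ → ℝ) × (ℕ → ℝ) => x + S k p.1 :=
    (A1_meas_add k x).comp measurable_fst
  have hBi : Measurable (B.indicator (fun _ => (1 : ℝ≥0∞))) := measurable_const.indicator hB
  have hHm : Measurable (Function.uncurry H) := by
    refine Measurable.mul ?_ ?_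
    · exact (measurable_const.indicator (measurableSet_alive hD x k)).comp measurable_fst
    · exact hBi.comp (hSk.prodMk measurable_snd)
  have hdep : ∀ ω ω' η, (∀ i < k, ω i = ω' i) → H ω η = H ω' η := by
    intro ω ω' η h
    have h1 := A1b_S_congr k h le_rfl
    have h2 := A1b_alive_congr (D := D) k x h
    simp only [hHdef, h1, Set.indicator, Set.mem_setOf_eq, h2]
  have key := lintegral_split ρ k H hHm hdep
  have hms : MeasurableSet {ω : ℕ → ℝ | Alive D x k ω ∧ (x + S k ω, shift k ω) ∈ B} :=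
    (measurableSet_alive hD x k).inter
      (((A1_meas_add k x).prodMk (measurable_shift k)) hB)
  have hL : seqLaw ρ {ω | Alive D x k ω ∧ (x + S k ω, shift k ω) ∈ B} =
      ∫⁻ ω, H ω (shift k ω) ∂(seqLaw ρ) := by
    rw [← lintegral_indicator_one hms]
    refine lintegral_congr fun ω => ?_
    simp only [hHdef, Set.indicator, Set.mem_setOf_eq]
    by_cases h1 : Alive D x k ω
    · by_cases h2 : (x + S k ω, shift k ω) ∈ B
      · rw [if_pos h1, if_pos h2, if_pos (show _ ∧ _ from ⟨h1, h2⟩), one_mul]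
        rfl
      · rw [if_neg h2, if_neg (show ¬ (_ ∧ _) from fun h => h2 h.2), mul_zero]
    · rw [if_neg h1, if_neg (show ¬ (_ ∧ _) from fun h => h1 h.1), zero_mul]
  rw [hL, key]
  have hinner : ∀ ω, ∫⁻ η, H ω η ∂(seqLaw ρ) =
      (({ω | Alive D x k ω} : Set (ℕ → ℝ)).indicator
        (fun ω => seqLaw ρ (Prod.mk (x + S k ω) ⁻¹' B)) ω) := by
    intro ω
    have hη : Measurable fun η : ℕ → ℝ => B.indicator (fun _ => (1 : ℝ≥0∞)) (x + S k ω, η) :=
      hBi.comp measurable_prodMk_left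
    simp only [hHdef]
    rw [lintegral_const_mul _ hη]
    have h4 : ∫⁻ η, B.indicator (fun _ => (1 : ℝ≥0∞)) (x + S k ω, η) ∂(seqLaw ρ) =
        seqLaw ρ (Prod.mk (x + S k ω) ⁻¹' B) := by
      rw [← lintegral_indicator_one (measurable_prodMk_left hB)]
      rfl
    rw [h4]
    by_cases h1 : Alive D x k ω
    · simp [Set.indicator, h1]
    · simp [Set.indicator, h1]
  simp_rw [hinner]
  rw [lintegral_indicator (measurableSet_alive hD x k)]
  unfold kap
  rw [lintegral_map (measurable_measure_prodMk_left hB) (A1_meas_add k x)]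

theorem hit_succ (hD : Dom D) [IsProbabilityMeasure ρ] (k : ℕ) (x : ℝ) :
    ENNReal.ofReal (hit D ρ (k + 1) x) = ∫⁻ w, ex D ρ w ∂(kap D ρ k x) := by
  have hB0 : Measurable fun p : ℝ × (ℕ → ℝ) => p.1 + p.2 0 :=
    measurable_fst.add ((measurable_pi_apply 0).comp measurable_snd)
  have hB : MeasurableSet {p : ℝ × (ℕ → ℝ) | p.1 + p.2 0 ∉ D} := hB0 hD.meas.compl
  have h := A1c_markov hD (ρ := ρ) k x _ hB
  unfold hit
  rw [ofReal_measureReal]
  have h1 : {ω : ℕ → ℝ | 1 ≤ k + 1 ∧ Alive D x (k + 1 - 1) ω ∧ x + S (k + 1) ω ∉ D} =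
      {ω | Alive D x k ω ∧ (x + S k ω, shift k ω) ∈ {p : ℝ × (ℕ → ℝ) | p.1 + p.2 0 ∉ D}} := by
    ext ω
    have h2 : x + S (k + 1) ω = x + S k ω + shift k ω 0 := by
      rw [S_shift]
      simp [S, add_assoc]
    constructor
    · rintro ⟨_, ha, hb⟩
      rw [h2] at hb
      exact ⟨ha, hb⟩
    · rintro ⟨ha, hb⟩
      refine ⟨by omega, ha, ?_⟩
      rw [h2]
      exact hb
  rw [h1, h]
  refine lintegral_congr fun w => ?_
  unfold ex
  have h3 : (seqLaw ρ).map (fun ω : ℕ → ℝ => ω 0) = ρ :=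
    Measure.infinitePi_map_eval (μ := fun _ : ℕ => ρ) 0
  have hm : MeasurableSet {y : ℝ | w + y ∉ D} := (measurable_const_add w) hD.meas.compl
  conv_rhs => rw [← h3]
  rw [Measure.map_apply (measurable_pi_apply 0) hm]
  rfl

theorem hit_add (hD : Dom D) [IsProbabilityMeasure ρ] (k m : ℕ) (hm : 1 ≤ m) (x : ℝ) :
    ENNReal.ofReal (hit D ρ (k + m) x) = ∫⁻ w, ENNReal.ofReal (hit D ρ m w) ∂(kap D ρ k x) := by
  have h := A1c_markov hD (ρ := ρ) k x _ (A1c_meas_hit hD m)
  have h0 : ∀ w, ENNReal.ofReal (hit D ρ m w) = seqLaw ρ (Prod.mk w ⁻¹'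
      {p : ℝ × (ℕ → ℝ) | 1 ≤ m ∧ Alive D p.1 (m - 1) p.2 ∧ p.1 + S m p.2 ∉ D}) := by
    intro w
    unfold hit
    rw [ofReal_measureReal]
    rfl
  simp_rw [h0]
  unfold hit
  rw [ofReal_measureReal]
  have h1 : {ω : ℕ → ℝ | 1 ≤ k + m ∧ Alive D x (k + m - 1) ω ∧ x + S (k + m) ω ∉ D} =
      {ω | Alive D x k ω ∧ (x + S k ω, shift k ω) ∈
        {p : ℝ × (ℕ → ℝ) | 1 ≤ m ∧ Alive D p.1 (m - 1) p.2 ∧ p.1 + S m p.2 ∉ D}} := by
    ext ω
    have h2 : x + S (k + m) ω = x + S k ω + S m (shift k ω) := by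
      rw [S_shift, add_assoc]
    have h3 : k + m - 1 = k + (m - 1) := by omega
    have h4 := alive_add (D := D) x k (m - 1) ω
    constructor
    · rintro ⟨_, ha, hb⟩
      rw [h3] at ha
      rw [h2] at hb
      exact ⟨(h4.mp ha).1, hm, (h4.mp ha).2, hb⟩
    · rintro ⟨ha, _, hb, hc⟩
      refine ⟨by omega, ?_, ?_⟩
      · rw [h3]
        exact h4.mpr ⟨ha, hb⟩
      · rw [h2]
        exact hc
  rw [h1, h]

/-- `hit` is bounded by one, nonnegative -/
theorem hit_nonneg (m : ℕ) (x : ℝ) : 0 ≤ hit D ρ m x := measureReal_nonneg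

theorem hit_le_one [IsProbabilityMeasure ρ] (m : ℕ) (x : ℝ) : hit D ρ m x ≤ 1 := by
  unfold hit
  exact measureReal_le_one

/-- translation of the window together with the starting point upwards -/
theorem kap_shift_le (hD : Dom D) [IsProbabilityMeasure ρ] (k : ℕ) (x s : ℝ) (hs : 0 ≤ s)
    (A B : Set ℝ) (hA : MeasurableSet A) (hB : MeasurableSet B) (hAB : ∀ y ∈ A, y + s ∈ B) :
    kap D ρ k x A ≤ kap D ρ k (x + s) B := by
  unfold kap
  rw [Measure.map_apply (A1_meas_add k x) hA, Measure.map_apply (A1_meas_add k (x + s)) hB,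
    Measure.restrict_apply ((A1_meas_add k x) hA),
    Measure.restrict_apply ((A1_meas_add k (x + s)) hB)]
  refine measure_mono fun ω hω => ⟨?_, ?_⟩
  · have h1 : x + S k ω ∈ A := hω.1
    have := hAB _ h1
    have h2 : x + S k ω + s = x + s + S k ω := by ring
    rw [h2] at this
    exact this
  · intro j h1 h2
    have h3 : x + S j ω ∈ D := hω.2 j h1 h2
    exact hD.up h3 (by linarith)

theorem fre_shift (ρ : Measure ℝ) [IsProbabilityMeasure ρ] (k : ℕ) (x s : ℝ) (A : Set ℝ)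
    (hA : MeasurableSet A) :
    fre ρ k (x + s) A = fre ρ k x {y | y + s ∈ A} := by
  unfold fre
  have hm : MeasurableSet {y : ℝ | y + s ∈ A} := (measurable_add_const s) hA
  rw [Measure.map_apply (A1_meas_add k (x + s)) hA, Measure.map_apply (A1_meas_add k x) hm]
  congr 1
  ext ω
  have h2 : x + S k ω + s = x + s + S k ω := by ring
  change x + s + S k ω ∈ A ↔ x + S k ω + s ∈ A
  rw [h2]

end Pool.Agent.BPT
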