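import Pool.Agent.MP_99a865_pr.FV.F1

open MeasureTheory ProbabilityTheory Filter Topology
open scoped ENNReal NNReal

namespace Pool.Agent.BPT

variable {D : Set ℝ} {μ ν : Measure ℝ} {σ : ℝ}

/-! **[FV-F5]** Deterministic facts on boundaries. -/

theorem F5_Ar_mono {ω : ℕ → ℝ × ℝ} (hnn : NN ω) {a b : ℕ} (h : a ≤ b) : Ar a ω ≤ Ar b ω := by
  unfold Ar
  exact Finset.sum_le_sum_of_subset_of_nonneg (Finset.range_mono h) (fun i _ _ => (hnn i).1)

theorem F5_Dp_mono {ω : ℕ → ℝ × ℝ} (hnn : NN ω) {a b : ℕ} (h : a ≤ b) : Dp a ω ≤ Dp b ω := by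
  unfold Dp
  exact Finset.sum_le_sum_of_subset_of_nonneg (Finset.range_mono h) (fun i _ _ => (hnn i).2)

theorem F5_Ar_congr {ω ω' : ℕ → ℝ × ℝ} {b k : ℕ} (h : ∀ j < b, ω j = ω' j) (hk : k ≤ b) :
    Ar k ω = Ar k ω' := by
  unfold Ar
  exact Finset.sum_congr rfl (fun i hi => by rw [h i (lt_of_lt_of_le (Finset.mem_range.1 hi) hk)])

theorem F5_Dp_congr {ω ω' : ℕ → ℝ × ℝ} {b k : ℕ} (h : ∀ j < b, ω j = ω' j) (hk : k ≤ b) :
    Dp k ω = Dp k ω' := by
  unfold Dp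
  exact Finset.sum_congr rfl (fun i hi => by rw [h i (lt_of_lt_of_le (Finset.mem_range.1 hi) hk)])

/-- the successor relation -/
def F5_Suc (D : Set ℝ) (ω : ℕ → ℝ × ℝ) (a b : ℕ) : Prop :=
  a < b ∧ Dp a ω - Ar (b - 1) ω ∈ D ∧ Dp a ω - Ar b ω ∉ D

theorem F5_cases {D : Set ℝ} {ω : ℕ → ℝ × ℝ} {b : ℕ} (h : Bd D ω b) :
    b = 1 ∨ ∃ b', Bd D ω b' ∧ F5_Suc D ω b' b := by
  cases h with
  | one => exact Or.inl rfl
  | step b' _ hb' hlt h1 h2 => exact Or.inr ⟨b', hb', hlt, h1, h2⟩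

theorem F5_suc_le (hD : Dom D) {ω : ℕ → ℝ × ℝ} (hnn : NN ω) {a a' b b' : ℕ} (haa : a ≤ a')
    (h : F5_Suc D ω a b) (h' : F5_Suc D ω a' b') : b ≤ b' := by
  by_contra hlt
  push Not at hlt
  have h1 : b' ≤ b - 1 := by omega
  have h2 := F5_Ar_mono hnn h1
  have h3 := F5_Dp_mono hnn haa
  exact h'.2.2 (hD.up h.2.1 (by linarith))

theorem F5_pos {D : Set ℝ} {ω : ℕ → ℝ × ℝ} {b : ℕ} (h : Bd D ω b) : 1 ≤ b := by
  rcases F5_cases h with h | ⟨b', _, h⟩
  · omega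
  · have := h.1
    omega

theorem F5_key (hD : Dom D) {ω : ℕ → ℝ × ℝ} (hnn : NN ω) : ∀ b : ℕ, Bd D ω b → ∀ b', F5_Suc D ω b b' →
    ∀ c, Bd D ω c → c ≤ b ∨ b' ≤ c := by
  intro b
  induction b using Nat.strong_induction_on with
  | _ b ih =>
    intro hb b' hs c hc
    induction hc with
    | one => exact Or.inl (F5_pos hb)
    | step c' c hc' hlt h1 h2 ihc =>
      have hsc : F5_Suc D ω c' c := ⟨hlt, h1, h2⟩
      rcases ihc with h | h
      · rcases Nat.eq_or_lt_of_le h with h | h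
        · subst h
          exact Or.inr (F5_suc_le hD hnn le_rfl hs hsc)
        · left
          rcases F5_cases hb with h0 | ⟨b'', hb'', hs''⟩
          · have := F5_pos hc'
            omega
          · rcases ih b'' hs''.1 hb'' b hs'' c' hc' with h' | h'
            · exact F5_suc_le hD hnn h' hsc hs''
            · omega
      · right
        omega

theorem F5_nxt (hD : Dom D) {ω : ℕ → ℝ × ℝ} (hnn : NN ω) {b b' : ℕ} (hb : Bd D ω b)
    (hs : F5_Suc D ω b b') : Nxt D ω b b' := by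
  refine ⟨hb, Bd.step b b' hb hs.1 hs.2.1 hs.2.2, hs.1, ?_⟩
  intro c h1 h2 hc
  rcases F5_key hD hnn b hb b' hs c hc with h | h <;> omega


/-- `Bd D ω b` depends only on the pairs with index `< b` (strong induction on `b`). -/
theorem Bd_dep (b : ℕ) (ω ω' : ℕ → ℝ × ℝ) (h : ∀ j < b, ω j = ω' j) : Bd D ω b ↔ Bd D ω' b := by
  have key : ∀ (ω ω' : ℕ → ℝ × ℝ) (b : ℕ), Bd D ω b → (∀ j < b, ω j = ω' j) → Bd D ω' b := by
    intro ω ω' b hb
    induction hb with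
    | one => intro _; exact Bd.one
    | step b' b hb' hlt h1 h2 ih =>
      intro h
      refine Bd.step b' b (ih (fun j hj => h j (by omega))) hlt ?_ ?_
      · rw [← F5_Dp_congr h hlt.le, ← F5_Ar_congr h (by omega : b - 1 ≤ b)]
        exact h1
      · rw [← F5_Dp_congr h hlt.le, ← F5_Ar_congr h le_rfl]
        exact h2
  exact ⟨fun hb => key ω ω' b hb h, fun hb => key ω' ω b hb (fun j hj => (h j hj).symm)⟩

/-- `Bd D ω b ↔ b = 1 ∨ ∃ b' < b, Bd D ω b' ∧ …`; strong induction, finite unions. -/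
theorem measurableSet_Bd (hD : Dom D) (b : ℕ) : MeasurableSet {ω | Bd D ω b} := by
  induction b using Nat.strong_induction_on with
  | _ b ih =>
    have e : {ω : ℕ → ℝ × ℝ | Bd D ω b} = {ω : ℕ → ℝ × ℝ | b = 1} ∪
        ⋃ b' : Fin b, ({ω : ℕ → ℝ × ℝ | Bd D ω b'} ∩ ({ω : ℕ → ℝ × ℝ | Dp b' ω - Ar (b - 1) ω ∈ D} ∩
          {ω : ℕ → ℝ × ℝ | Dp b' ω - Ar b ω ∈ D}ᶜ)) := by
      ext ω
      simp only [Set.mem_setOf_eq, Set.mem_union, Set.mem_iUnion, Set.mem_inter_iff, Set.mem_compl_iff]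
      constructor
      · intro h
        rcases F5_cases h with h | ⟨b', hb', h⟩
        · exact Or.inl h
        · exact Or.inr ⟨⟨b', h.1⟩, hb', h.2.1, h.2.2⟩
      · rintro (h | ⟨b', hb', h1, h2⟩)
        · subst h
          exact Bd.one
        · exact Bd.step b' b hb' b'.2 h1 h2
    rw [e]
    refine MeasurableSet.union (MeasurableSet.const _) (MeasurableSet.iUnion fun b' => ?_)
    refine (ih b' b'.2).inter (MeasurableSet.inter ?_ (MeasurableSet.compl ?_))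
    · exact ((measurable_Dp _).sub (measurable_Ar _)) hD.meas
    · exact ((measurable_Dp _).sub (measurable_Ar _)) hD.meas

theorem Bd_pos {ω : ℕ → ℝ × ℝ} {b : ℕ} (h : Bd D ω b) : 1 ≤ b := F5_pos h

/-- **[FV-F5]** Existence of the next boundary up to `n` on `{N = n}`.
PROOF. `Ar`, `Dp` are nondecreasing. On `EvN D n`, `Dp k - Ar k ∈ D` for `1 ≤ k < n` and
`Dp n - Ar n ∉ D`, hence `Dp b - Ar n ∉ D` for `b ≤ n` (`Dom.up`). Let `b' ≤ n` be the least index `> b`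
with `Dp b - Ar b' ∉ D`; then `Dp b - Ar (b'-1) ∈ D` (by minimality if `b' - 1 > b`, by aliveness at `b`
if `b' - 1 = b`), so `Bd b'`. Uniqueness: no boundary `c` with `b < c < b'`: by induction along the chain,
a boundary `c > b` obtained from `c' ` satisfies `c' ≥ b` or `c ≤ b` (monotonicity: if `c' < b` are
boundaries then the successor of `c'` is `≤ b`: two successors of the same boundary coincide, since
`Dp c' - Ar (x-1) ∈ D` and `Dp c' - Ar x ∉ D` determine `x` as `Ar` is nondecreasing, and the chain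
`1 = b₀ < b₁ < …` visits every boundary). -/
theorem exists_next (hD : Dom D) {n : ℕ} {ω : ℕ → ℝ × ℝ} (hN : ω ∈ EvN D n) (hnn : NN ω) {b : ℕ}
    (hb : Bd D ω b) (hbn : b < n) : ∃ b', b' ≤ n ∧ Nxt D ω b b' ∧ Dp b ω - Ar (b' - 1) ω ∈ D ∧
      Dp b ω - Ar b' ω ∉ D := by
  classical
  have hn : b < n ∧ Dp b ω - Ar n ω ∉ D := by
    refine ⟨hbn, fun h => hN.2.2 (hD.up h ?_)⟩
    have := F5_Dp_mono hnn hbn.le
    unfold Zw
    linarith
  have hex : ∃ m, b < m ∧ Dp b ω - Ar m ω ∉ D := ⟨n, hn⟩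
  have hb' := Nat.find_spec hex
  have hmin : ∀ m, m < Nat.find hex → ¬ (b < m ∧ Dp b ω - Ar m ω ∉ D) := fun m hm => Nat.find_min hex hm
  have hle : Nat.find hex ≤ n := Nat.find_min' hex hn
  generalize Nat.find hex = b' at hb' hmin hle
  have h1 : Dp b ω - Ar (b' - 1) ω ∈ D := by
    rcases Nat.eq_or_lt_of_le (by omega : b ≤ b' - 1) with h | h
    · rw [← h]
      exact hN.2.1 b (Bd_pos hb) (by omega)
    · by_contra hc
      exact hmin (b' - 1) (by omega) ⟨h, hc⟩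
  exact ⟨b', hle, F5_nxt hD hnn hb ⟨hb'.1, h1, hb'.2⟩, h1, hb'.2⟩

/-- the next boundary is unique and has the two properties -/
theorem Nxt_prop (hD : Dom D) {ω : ℕ → ℝ × ℝ} (hnn : NN ω) {b b' : ℕ} (h : Nxt D ω b b') :
    Dp b ω - Ar (b' - 1) ω ∈ D ∧ Dp b ω - Ar b' ω ∉ D := by
  obtain ⟨hb, hb', hlt, hno⟩ := h
  rcases F5_cases hb' with h0 | ⟨a, ha, hs⟩
  · have := F5_pos hb
    omega
  · have hab : a = b := by
      rcases lt_trichotomy a b with h | h | h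
      · rcases F5_key hD hnn a ha b' hs b hb with h' | h' <;> omega
      · exact h
      · exact absurd ha (hno a h hs.1)
    subst hab
    exact hs.2

/-- every boundary other than 1 has a predecessor -/
theorem exists_prev (hD : Dom D) {ω : ℕ → ℝ × ℝ} (hnn : NN ω) {b : ℕ} (hb : Bd D ω b) (h1 : b ≠ 1) :
    ∃ b', Nxt D ω b' b := by
  rcases F5_cases hb with h0 | ⟨a, ha, hs⟩
  · exact absurd h0 h1
  · exact ⟨a, F5_nxt hD hnn ha hs⟩

/-- `Zw b ≤ Dp b - Dp b'` for consecutive boundaries `b' < b`; so if the gap is at most `w` then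
`Zw b ≤ Dp b - Dp (b - w)` -/
theorem Zw_le_of_gap (hD : Dom D) {ω : ℕ → ℝ × ℝ} (hnn : NN ω) {b : ℕ} (hb : Bd D ω b) {w : ℕ}
    (hw : w < b) (h : ∃ c, b - w ≤ c ∧ c < b ∧ Bd D ω c) : Zw b ω ≤ Dp b ω - Dp (b - w) ω := by
  obtain ⟨c, hc1, hc2, hc⟩ := h
  obtain ⟨a, ha⟩ := exists_prev hD hnn hb (by have := F5_pos hc; omega)
  have hca : c ≤ a := by
    by_contra hlt
    push Not at hlt
    exact ha.2.2.2 c hlt hc2 hc
  have h2 := hD.not_mem (Nxt_prop hD hnn ha).2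
  have h3 := F5_Dp_mono hnn (hc1.trans hca)
  unfold Zw
  linarith

end Pool.Agent.BPT
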