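import Pool.Agent.MP_99a865_pr.FV.A10

open MeasureTheory ProbabilityTheory Filter Topology
open scoped ENNReal NNReal

namespace Pool.Agent.BPT

variable {D : Set ℝ} {ρ : Measure ℝ}

private theorem A11_pt (hD : Dom D) (y : ℝ) :
    ∑' j : ℕ, {y : ℝ | (j : ℝ) + y ∉ D}.indicator (fun _ => ENNReal.ofReal (1 + j)) y ≤
      ENNReal.ofReal (5 / 4 * y ^ 2 + 7 / 4) := by
  rcases lt_or_ge 0 y with hy | hy
  · have h0 : ∀ j : ℕ, {y : ℝ | (j : ℝ) + y ∉ D}.indicator (fun _ => ENNReal.ofReal (1 + j)) y = 0 := by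
      intro j
      apply Set.indicator_of_notMem
      intro h
      apply h
      have : (0 : ℝ) ≤ j := Nat.cast_nonneg j
      exact hD.pos (by linarith)
    simp only [h0, tsum_zero]
    exact bot_le
  · have h0 : ∀ j ∉ Finset.range (⌊-y⌋₊ + 1),
        {y : ℝ | (j : ℝ) + y ∉ D}.indicator (fun _ => ENNReal.ofReal (1 + (j : ℝ))) y = 0 := by
      intro j hj
      rw [Finset.mem_range, not_lt] at hj
      apply Set.indicator_of_notMem
      intro h
      apply h
      have h1 : -y < ⌊-y⌋₊ + 1 := Nat.lt_floor_add_one _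
      have h2 : ((⌊-y⌋₊ + 1 : ℕ) : ℝ) ≤ j := by exact_mod_cast hj
      push_cast at h2
      exact hD.pos (by linarith)
    rw [tsum_eq_sum h0]
    calc ∑ j ∈ Finset.range (⌊-y⌋₊ + 1),
          {y : ℝ | (j : ℝ) + y ∉ D}.indicator (fun _ => ENNReal.ofReal (1 + (j : ℝ))) y
        ≤ ∑ j ∈ Finset.range (⌊-y⌋₊ + 1), ENNReal.ofReal (1 + (j : ℝ)) :=
          Finset.sum_le_sum fun j _ => Set.indicator_le_self' (fun _ _ => bot_le) _
      _ = ENNReal.ofReal (∑ j ∈ Finset.range (⌊-y⌋₊ + 1), (1 + (j : ℝ))) := by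
          rw [ENNReal.ofReal_sum_of_nonneg]
          intro j _
          positivity
      _ ≤ ENNReal.ofReal (5 / 4 * y ^ 2 + 7 / 4) := by
          apply ENNReal.ofReal_le_ofReal
          have hs : ∀ n : ℕ, ∑ j ∈ Finset.range (n + 1), (1 + (j : ℝ)) = (n + 1) * (n + 2) / 2 := by
            intro n
            induction n with
            | zero => norm_num
            | succ n ih =>
              rw [Finset.sum_range_succ, ih]
              push_cast
              ring
          rw [hs]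
          have h1 : (⌊-y⌋₊ : ℝ) ≤ -y := Nat.floor_le (by linarith)
          have h2 : (0 : ℝ) ≤ ⌊-y⌋₊ := Nat.cast_nonneg _
          nlinarith [sq_nonneg (y + 1), mul_nonneg h2 (sub_nonneg.mpr h1),
            mul_nonneg (by linarith : (0 : ℝ) ≤ -y) (sub_nonneg.mpr h1)]

private theorem A11_int (hρ : Std ρ) (a b : ℝ) (ha : 0 ≤ a) (hb : 0 ≤ b) :
    ∫⁻ y, ENNReal.ofReal (a * y ^ 2 + b) ∂ρ = ENNReal.ofReal (a + b) := by
  have := hρ.prob
  have hi : Integrable (fun y : ℝ => a * y ^ 2 + b) ρ :=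
    (hρ.int2.const_mul a).add (integrable_const b)
  rw [← ofReal_integral_eq_lintegral_ofReal hi
    (Filter.Eventually.of_forall fun y => by positivity),
    integral_add (hρ.int2.const_mul a) (integrable_const b), integral_const_mul, hρ.var]
  simp only [integral_const, probReal_univ, smul_eq_mul, mul_one, one_mul]

/-- tail sums of the exit probabilities. `ex D ρ w ≤ ρ (Iic (-w))`, `∑ (1+j) P(X ≤ -j) ≤ E (1+|X|)²`. -/
theorem ex_sum (hD : Dom D) (hρ : Std ρ) :
    ∑' j : ℕ, ENNReal.ofReal (1 + j) * ex D ρ j ≤ 4 := by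
  have := hρ.prob
  have hms : ∀ j : ℕ, MeasurableSet {y : ℝ | (j : ℝ) + y ∉ D} := fun j =>
    ((measurable_const_add (j : ℝ)) hD.meas).compl
  have h1 : ∀ j : ℕ, ENNReal.ofReal (1 + j) * ex D ρ j =
      ∫⁻ y, {y : ℝ | (j : ℝ) + y ∉ D}.indicator (fun _ => ENNReal.ofReal (1 + j)) y ∂ρ := by
    intro j
    rw [lintegral_indicator_const (hms j)]
    rfl
  simp only [h1]
  rw [← lintegral_tsum fun j => (measurable_const.indicator (hms j)).aemeasurable]
  refine (lintegral_mono fun y => A11_pt hD y).trans ?_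
  rw [A11_int hρ _ _ (by norm_num) (by norm_num)]
  have : ENNReal.ofReal (5 / 4 + 7 / 4) = 3 := by norm_num
  rw [this]
  norm_num

theorem ex_cheb (hD : Dom D) (hρ : Std ρ) (w : ℝ) (hw : 0 ≤ w) :
    ex D ρ w ≤ ENNReal.ofReal (4 / (1 + w) ^ 2) := by
  have := hρ.prob
  have hms : MeasurableSet {y : ℝ | w + y ∉ D} := ((measurable_const_add w) hD.meas).compl
  have h1 : ex D ρ w = ∫⁻ y, {y : ℝ | w + y ∉ D}.indicator (fun _ => (1 : ℝ≥0∞)) y ∂ρ := by
    rw [lintegral_indicator_const hms, one_mul]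
    rfl
  have h2 : ∫⁻ y, ENNReal.ofReal (2 / (1 + w) ^ 2 * y ^ 2 + 2 / (1 + w) ^ 2) ∂ρ =
      ENNReal.ofReal (4 / (1 + w) ^ 2) := by
    rw [A11_int hρ _ _ (by positivity) (by positivity)]
    congr 1
    ring
  rw [h1, ← h2]
  refine lintegral_mono fun y => ?_
  by_cases hy : w + y ∉ D
  · rw [Set.indicator_of_mem (by exact hy)]
    have h3 := hD.not_mem hy
    rw [← ENNReal.ofReal_one]
    apply ENNReal.ofReal_le_ofReal
    have h4 : 2 / (1 + w) ^ 2 * y ^ 2 + 2 / (1 + w) ^ 2 = (2 * y ^ 2 + 2) / (1 + w) ^ 2 := by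
      field_simp
    rw [h4, le_div_iff₀ (by positivity)]
    nlinarith [sq_nonneg (1 - w), mul_nonneg hw (by linarith : (0 : ℝ) ≤ -y - w),
      mul_nonneg (by linarith : (0 : ℝ) ≤ -y) (by linarith : (0 : ℝ) ≤ -y - w)]
  · rw [Set.indicator_of_notMem (by exact hy)]
    exact bot_le

private theorem A11_ae_nonneg (hD : Dom D) [IsProbabilityMeasure ρ] (k : ℕ) (x : ℝ) (hx : 0 ≤ x) :
    ∀ᵐ w ∂(kap D ρ k x), 0 ≤ w := by
  rcases Nat.eq_zero_or_pos k with rfl | hk
  · rw [kap_zero, ae_dirac_iff (measurableSet_Ici)]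
    exact hx
  · have h := kap_compl (ρ := ρ) hD k x (Or.inl hk)
    rw [ae_iff]
    refine measure_mono_null ?_ h
    intro w hw
    simp only [Set.mem_ofPred_eq, not_le] at hw
    intro hw'
    exact absurd (hD.nonneg hw') (not_le.mpr hw)

open Classical in
private theorem A11_split (hD : Dom D) (κ : Measure ℝ) (hκ : ∀ᵐ w ∂κ, 0 ≤ w)
    (P : ℕ → Prop) (b : ℝ≥0∞) (hb : ∀ w : ℝ, 0 ≤ w → ¬P ⌊w⌋₊ → ex D ρ w ≤ b) :
    ∫⁻ w, ex D ρ w ∂κ ≤
      ∑' j : ℕ, (if P j then ex D ρ j * κ (Set.Ico (j : ℝ) (j + 1)) else 0) + b * κ Set.univ := by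
  have hp : ∀ᵐ w ∂κ, ex D ρ w ≤ ∑' j : ℕ,
      (Set.Ico (j : ℝ) (j + 1)).indicator (fun _ => if P j then ex D ρ j else 0) w + b := by
    filter_upwards [hκ] with w hw
    by_cases hP : P ⌊w⌋₊
    · refine le_trans ?_ le_self_add
      refine le_trans ?_ (ENNReal.le_tsum ⌊w⌋₊)
      have hmem : w ∈ Set.Ico ((⌊w⌋₊ : ℕ) : ℝ) ((⌊w⌋₊ : ℕ) + 1) :=
        ⟨Nat.floor_le hw, Nat.lt_floor_add_one w⟩
      rw [Set.indicator_of_mem hmem, if_pos hP]
      exact ex_anti hD (Nat.floor_le hw)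
    · exact (hb w hw hP).trans le_add_self
  refine (lintegral_mono_ae hp).trans ?_
  rw [lintegral_add_right _ measurable_const, lintegral_const, lintegral_tsum
    (fun j => (measurable_const.indicator measurableSet_Ico).aemeasurable)]
  refine add_le_add (ENNReal.tsum_le_tsum fun j => ?_) le_rfl
  rw [lintegral_indicator_const measurableSet_Ico]
  split_ifs
  · exact le_rfl
  · simp

open Classical in
private theorem A11_key (hD : Dom D) (hρ : Std ρ) (κ : Measure ℝ) [IsFiniteMeasure κ]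
    (P : ℕ → Prop) (A : ℝ) (hA : 0 ≤ A)
    (h : ∀ j : ℕ, P j → κ.real (Set.Ico (j : ℝ) (j + 1)) ≤ A * (1 + j)) :
    ∑' j : ℕ, (if P j then ex D ρ j * κ (Set.Ico (j : ℝ) (j + 1)) else 0) ≤
      ENNReal.ofReal (4 * A) := by
  calc ∑' j : ℕ, (if P j then ex D ρ j * κ (Set.Ico (j : ℝ) (j + 1)) else 0)
      ≤ ∑' j : ℕ, ENNReal.ofReal A * (ENNReal.ofReal (1 + j) * ex D ρ j) := by
        refine ENNReal.tsum_le_tsum fun j => ?_
        split_ifs with hP
        · have h1 : κ (Set.Ico (j : ℝ) (j + 1)) ≤ ENNReal.ofReal (A * (1 + j)) := by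
            rw [← ENNReal.ofReal_toReal (measure_ne_top κ _)]
            exact ENNReal.ofReal_le_ofReal (h j hP)
          rw [ENNReal.ofReal_mul hA] at h1
          calc ex D ρ j * κ (Set.Ico (j : ℝ) (j + 1))
              ≤ ex D ρ j * (ENNReal.ofReal A * ENNReal.ofReal (1 + j)) := by gcongr
            _ = ENNReal.ofReal A * (ENNReal.ofReal (1 + j) * ex D ρ j) := by ring
        · exact bot_le
    _ = ENNReal.ofReal A * ∑' j : ℕ, (ENNReal.ofReal (1 + j) * ex D ρ j) := ENNReal.tsum_mul_left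
    _ ≤ ENNReal.ofReal A * 4 := by
        gcongr
        exact ex_sum hD hρ
    _ = ENNReal.ofReal (4 * A) := by
        rw [ENNReal.ofReal_mul (by norm_num), mul_comm]
        norm_num

/-- **[FV-A11]** Bounds on `P_y(N = m)`. PROOF. `m = 1`: `hit 1 y = ex y ≤ min(1, 1/y²)`. For
`m = k + 1`, `k ≥ 1`: by `hit_succ` and the monotonicity of `ex`,
`hit m y ≤ ∑_{j∈ℕ} (kap k y).real (Ico j (j+1)) · ex j`. Use the fourth bound of `win` and `ex_sum` for
the first estimate, the third bound of `win` for the second; for the third one use `far_down` for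
`j ≤ y/2` and, for `j > y/2`, `ex j ≤ ex (y/2) ≤ 4/(1+y/2)² ≤ 16/(1+y)²`. -/
theorem hit_bound (hD : Dom D) (hρ : Std ρ) : ∃ C > (0 : ℝ), ∀ m : ℕ, 1 ≤ m → ∀ y : ℝ, 0 ≤ y →
    hit D ρ m y ≤ C * (1 + y) / (m * √m) ∧ hit D ρ m y ≤ C / m ∧ hit D ρ m y ≤ C / (1 + y) ^ 2 := by
  classical
  have := hρ.prob
  obtain ⟨C, hC, hw⟩ := win hD hρ
  obtain ⟨C', hC', hf⟩ := far_down hD hρ
  refine ⟨12 * C + 4 * C' + 16, by positivity, fun m hm y hy => ?_⟩
  have y1 : (1 : ℝ) ≤ 1 + y := by linarith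
  rcases Nat.lt_or_ge m 2 with hm2 | hm2
  · obtain rfl : m = 1 := by omega
    have h1 := hit_le_one (D := D) (ρ := ρ) 1 y
    have h2 : hit D ρ 1 y ≤ 4 / (1 + y) ^ 2 := by
      have h3 := hit_succ hD (ρ := ρ) 0 y
      rw [kap_zero, lintegral_dirac' _ (measurable_ex hD), zero_add] at h3
      have h4 := ex_cheb hD hρ y hy
      rw [← h3] at h4
      exact (ENNReal.ofReal_le_ofReal_iff (by positivity)).mp h4
    refine ⟨?_, ?_, ?_⟩
    · simp only [Nat.cast_one, Real.sqrt_one, mul_one, div_one]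
      nlinarith
    · simp only [Nat.cast_one, div_one]
      linarith
    · refine h2.trans ?_
      gcongr
      linarith
  · obtain ⟨k, rfl⟩ : ∃ k, m = k + 1 := ⟨m - 1, by omega⟩
    have hk : 1 ≤ k := by omega
    have hk0 : (0 : ℝ) < k := by exact_mod_cast hk
    have hk1 : (1 : ℝ) ≤ k := by exact_mod_cast hk
    have hae := A11_ae_nonneg (ρ := ρ) hD k y hy
    have hsucc := hit_succ hD (ρ := ρ) k y
    have hgen : ∀ A : ℝ, 0 ≤ A → (∀ j : ℕ,
        (kap D ρ k y).real (Set.Ico (j : ℝ) (j + 1)) ≤ A * (1 + j)) → hit D ρ (k + 1) y ≤ 4 * A := by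
      intro A hA h
      have h1 := A11_split (ρ := ρ) hD (kap D ρ k y) hae (fun _ => True) 0
        (fun w _ h => absurd trivial h)
      have h2 := A11_key hD hρ (kap D ρ k y) (fun _ => True) A hA (fun j _ => h j)
      rw [zero_mul, add_zero] at h1
      rw [← hsucc] at h1
      exact (ENNReal.ofReal_le_ofReal_iff (by positivity)).mp (h1.trans h2)
    have hsk : 0 < √(k : ℝ) := Real.sqrt_pos.mpr hk0
    have hsq : √((k : ℝ) + 1) ≤ 3 / 2 * √k := by
      rw [Real.sqrt_le_left (by positivity), mul_pow, Real.sq_sqrt hk0.le]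
      linarith
    refine ⟨?_, ?_, ?_⟩
    · have h := hgen (C * (1 + y) / (k * √k)) (by positivity) (fun j => by
        refine (hw k hk y j hy (Nat.cast_nonneg j)).2.2.2.trans_eq ?_
        ring)
      refine h.trans ?_
      push_cast
      rw [← mul_div_assoc, div_le_div_iff₀ (by positivity) (by positivity)]
      have e1 : ((k : ℝ) + 1) * √((k : ℝ) + 1) ≤ 3 * (k * √k) := by
        calc ((k : ℝ) + 1) * √((k : ℝ) + 1) ≤ (2 * k) * (3 / 2 * √k) := by
              gcongr
              linarith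
          _ = 3 * (k * √k) := by ring
      calc 4 * (C * (1 + y)) * (((k : ℝ) + 1) * √((k : ℝ) + 1))
          ≤ 4 * (C * (1 + y)) * (3 * (k * √k)) := by gcongr
        _ = 12 * C * (1 + y) * (k * √k) := by ring
        _ ≤ (12 * C + 4 * C' + 16) * (1 + y) * (k * √k) := by
            gcongr
            linarith
    · have h := hgen (C / k) (by positivity) (fun j => by
        refine (hw k hk y j hy (Nat.cast_nonneg j)).2.2.1.trans_eq ?_
        ring)
      refine h.trans ?_
      push_cast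
      rw [← mul_div_assoc, div_le_div_iff₀ (by positivity) (by positivity)]
      nlinarith [mul_pos hC hk0, mul_pos hC' hk0]
    · have h1 := A11_split (ρ := ρ) hD (kap D ρ k y) hae (fun j => (j : ℝ) ≤ y / 2)
        (ENNReal.ofReal (16 / (1 + y) ^ 2)) (fun w hw0 hP => by
          have h3 : y / 2 ≤ w := (not_le.mp hP).le.trans (Nat.floor_le hw0)
          refine (ex_anti hD h3).trans ((ex_cheb hD hρ (y / 2) (by positivity)).trans ?_)
          apply ENNReal.ofReal_le_ofReal
          rw [div_le_div_iff₀ (by positivity) (by positivity)]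
          nlinarith)
      have h2 := A11_key hD hρ (kap D ρ k y) (fun j => (j : ℝ) ≤ y / 2) (C' / (1 + y) ^ 2)
        (by positivity) (fun j hj => by
          refine (hf k hk y j (Nat.cast_nonneg j) hj).trans_eq ?_
          ring)
      have h3 : ENNReal.ofReal (16 / (1 + y) ^ 2) * kap D ρ k y Set.univ ≤
          ENNReal.ofReal (16 / (1 + y) ^ 2) := by
        calc ENNReal.ofReal (16 / (1 + y) ^ 2) * kap D ρ k y Set.univ
            ≤ ENNReal.ofReal (16 / (1 + y) ^ 2) * 1 := by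
              gcongr
              exact kap_univ_le_one k y
          _ = _ := mul_one _
      rw [← hsucc] at h1
      have h4 := h1.trans (add_le_add h2 h3)
      rw [← ENNReal.ofReal_add (by positivity) (by positivity)] at h4
      have h5 := (ENNReal.ofReal_le_ofReal_iff (by positivity)).mp h4
      refine h5.trans ?_
      rw [← mul_div_assoc, ← add_div]
      gcongr
      linarith

end Pool.Agent.BPT
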