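import Pool.Agent.MP_99a865_pr.FV.A2

open MeasureTheory ProbabilityTheory Filter Topology
open scoped ENNReal NNReal

namespace Pool.Agent.BPT

variable {D : Set ℝ} {ρ : Measure ℝ}

lemma A5_neg (hρ : Std ρ) : ρ (Set.Iio 0) ≠ 0 := by
  have := hρ.prob
  intro h0
  have hae : ∀ᵐ x ∂ρ, 0 ≤ x := by
    rw [ae_iff]
    have : {a : ℝ | ¬ 0 ≤ a} = Set.Iio 0 := by ext a; simp
    rw [this]; exact h0
  have hint : Integrable (fun x : ℝ => x) ρ := by
    have h2 : MemLp (fun x : ℝ => x) 2 ρ :=
      (memLp_two_iff_integrable_sq measurable_id.aestronglyMeasurable).2 hρ.int2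
    exact h2.integrable (by norm_num)
  have h1 := (integral_eq_zero_iff_of_nonneg_ae hae hint).1 hρ.mean
  have h2 : ∫ x, x ^ 2 ∂ρ = 0 := by
    have : (fun x : ℝ => x ^ 2) =ᵐ[ρ] fun _ => 0 := by
      filter_upwards [h1] with x hx
      have hx' : x = 0 := hx
      simp [hx']
    rw [integral_congr_ae this]; simp
  rw [hρ.var] at h2
  exact one_ne_zero h2

lemma A5_eta (hρ : Std ρ) : ∃ η > (0 : ℝ), ρ (Set.Iio (-η)) ≠ 0 := by
  have h := A5_neg hρ
  have hU : (⋃ n : ℕ, Set.Iio (-(1 / ((n : ℝ) + 1)))) = Set.Iio (0 : ℝ) := by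
    ext x
    simp only [Set.mem_iUnion, Set.mem_Iio]
    constructor
    · rintro ⟨n, hn⟩
      have : (0 : ℝ) < 1 / ((n : ℝ) + 1) := by positivity
      linarith
    · intro hx
      obtain ⟨n, hn⟩ := exists_nat_one_div_lt (show (0 : ℝ) < -x by linarith)
      exact ⟨n, by linarith⟩
  rw [← hU] at h
  obtain ⟨n, hn⟩ := exists_measure_pos_of_not_measure_iUnion_null h
  exact ⟨1 / ((n : ℝ) + 1), by positivity, hn.ne'⟩

lemma A5_one (hD : Dom D) [IsProbabilityMeasure ρ] (η L : ℝ) (K : ℕ) (hK : 1 ≤ K)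
    (hKL : L ≤ K * η) (w : ℝ) (hw : w < L) :
    kap D ρ K w Set.univ + ρ (Set.Iio (-η)) ^ K ≤ 1 := by
  rw [kap_univ_eq hD]
  have h1 : seqLaw ρ ((Finset.range K : Set ℕ).pi fun _ => Set.Iio (-η)) = ρ (Set.Iio (-η)) ^ K := by
    unfold seqLaw
    rw [Measure.infinitePi_pi _ fun _ _ => measurableSet_Iio]
    simp
  rw [← h1]
  have hdis : Disjoint {ω | Alive D w K ω} ((Finset.range K : Set ℕ).pi fun _ => Set.Iio (-η)) := by
    rw [Set.disjoint_left]
    intro ω h2 h3
    have h4 := hD.nonneg (h2 K hK le_rfl)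
    have h5 : S K ω ≤ K * (-η) := by
      unfold S
      calc ∑ i ∈ Finset.range K, ω i ≤ ∑ i ∈ Finset.range K, (-η) := by
            refine Finset.sum_le_sum fun i hi => ?_
            exact le_of_lt (h3 i (by simpa using hi))
        _ = K * (-η) := by simp
    linarith
  rw [← measure_union hdis (.pi (Finset.range K).countable_toSet fun _ _ => measurableSet_Iio)]
  exact prob_le_one

/-- **[FV-A5a]** The killed walk visits a bounded neighbourhood of the origin a bounded expected
number of times. -/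
theorem visits (hD : Dom D) (hρ : Std ρ) (L : ℝ) : ∃ C : ℝ≥0, ∀ y : ℝ,
    ∑' k, kap D ρ k y (Set.Ico 0 L) ≤ C := by
  have := hρ.prob
  obtain ⟨η, hη, hp⟩ := A5_eta hρ
  obtain ⟨K, hK⟩ := exists_nat_ge (max 1 (L / η))
  have hK1 : 1 ≤ K := by
    have : (1 : ℝ) ≤ K := (le_max_left _ _).trans hK
    exact_mod_cast this
  have hKL : L ≤ K * η := by
    rw [← div_le_iff₀ hη]; exact (le_max_right _ _).trans hK
  set p : ℝ≥0∞ := ρ (Set.Iio (-η)) ^ K with hpdef
  have hp0 : p ≠ 0 := pow_ne_zero _ hp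
  have hptop : p ≠ ⊤ := ENNReal.pow_ne_top (measure_ne_top _ _)
  have hCtop : (K : ℝ≥0∞) / p ≠ ⊤ := ENNReal.div_ne_top (ENNReal.natCast_ne_top _) hp0
  refine ⟨((K : ℝ≥0∞) / p).toNNReal, fun y => ?_⟩
  rw [ENNReal.coe_toNNReal hCtop]
  refine ENNReal.tsum_le_of_sum_range_le fun T => ?_
  set m : ℕ → ℝ≥0∞ := fun k => kap D ρ k y Set.univ with hm
  have hm1 : ∀ k, m k ≤ 1 := fun k => kap_univ_le_one k y
  have hstep : ∀ k, p * kap D ρ k y (Set.Ico 0 L) + m (k + K) ≤ m k := by
    intro k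
    have e1 : m (k + K) = ∫⁻ w, kap D ρ K w Set.univ ∂(kap D ρ k y) :=
      kap_add_apply hD k K y Set.univ MeasurableSet.univ
    have hmeas : Measurable fun w => kap D ρ K w Set.univ :=
      (Measure.measurable_coe MeasurableSet.univ).comp (measurable_kap hD K)
    have e2 : p * kap D ρ k y (Set.Ico 0 L) =
        ∫⁻ w, (Set.Ico (0 : ℝ) L).indicator (fun _ => p) w ∂(kap D ρ k y) := by
      rw [lintegral_indicator measurableSet_Ico]
      simp
    rw [e1, e2, ← lintegral_add_right _ hmeas]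
    calc ∫⁻ w, (Set.Ico (0 : ℝ) L).indicator (fun _ => p) w + kap D ρ K w Set.univ ∂(kap D ρ k y)
        ≤ ∫⁻ _, 1 ∂(kap D ρ k y) := by
          refine lintegral_mono fun w => ?_
          by_cases hw : w ∈ Set.Ico (0 : ℝ) L
          · rw [Set.indicator_of_mem hw, add_comm]
            exact A5_one hD η L K hK1 hKL w hw.2
          · rw [Set.indicator_of_notMem hw, zero_add]
            exact kap_univ_le_one K w
      _ = m k := by simp [hm]
  have hsum : p * ∑ k ∈ Finset.range T, kap D ρ k y (Set.Ico 0 L) +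
      ∑ k ∈ Finset.range T, m (k + K) ≤ K + ∑ k ∈ Finset.range T, m (k + K) := by
    calc p * ∑ k ∈ Finset.range T, kap D ρ k y (Set.Ico 0 L) + ∑ k ∈ Finset.range T, m (k + K)
        = ∑ k ∈ Finset.range T, (p * kap D ρ k y (Set.Ico 0 L) + m (k + K)) := by
          rw [Finset.sum_add_distrib, Finset.mul_sum]
      _ ≤ ∑ k ∈ Finset.range T, m k := Finset.sum_le_sum fun k _ => hstep k
      _ ≤ ∑ k ∈ Finset.range (K + T), m k :=
          Finset.sum_le_sum_of_subset (Finset.range_mono (by omega))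
      _ = ∑ k ∈ Finset.range K, m k + ∑ k ∈ Finset.range T, m (K + k) := Finset.sum_range_add _ _ _
      _ ≤ K + ∑ k ∈ Finset.range T, m (k + K) := by
          refine add_le_add ?_ (le_of_eq (Finset.sum_congr rfl fun k _ => by rw [add_comm]))
          calc ∑ k ∈ Finset.range K, m k ≤ ∑ k ∈ Finset.range K, (1 : ℝ≥0∞) :=
                Finset.sum_le_sum fun k _ => hm1 k
            _ = K := by simp
  have hfin : ∑ k ∈ Finset.range T, m (k + K) ≠ ⊤ :=
    ENNReal.sum_ne_top.2 fun k _ => ne_top_of_le_ne_top ENNReal.one_ne_top (hm1 _)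
  have h3 := (ENNReal.add_le_add_iff_right hfin).1 hsum
  rw [ENNReal.le_div_iff_mul_le (Or.inl hp0) (Or.inl hptop), mul_comm]
  exact h3

lemma A5_green (hD : Dom D) [IsProbabilityMeasure ρ] (C : ℝ≥0)
    (hC : ∀ y : ℝ, ∑' k, kap D (dual ρ) k y (Set.Ico 0 3) ≤ C) (x : ℝ) (hx0 : 0 ≤ x) (hx1 : x ≤ 1)
    (z : ℝ) : ∑' k, kap D ρ k x (Set.Ico z (z + 1)) ≤ 2 * C := by
  have : IsProbabilityMeasure (dual ρ) := by
    unfold dual
    exact Measure.isProbabilityMeasure_map measurable_neg.aemeasurable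
  have h1 : ∀ k, kap D ρ k x (Set.Ico z (z + 1)) ≤
      ∫⁻ y in Set.Ico z (z + 2), kap D (dual ρ) k y (Set.Ico 0 3) := by
    intro k
    have hmk : Measurable fun x' => kap D ρ k x' (Set.Ico z (z + 2)) :=
      (Measure.measurable_coe measurableSet_Ico).comp (measurable_kap hD k)
    set F : ℝ → ℝ → ℝ≥0∞ := fun x' y =>
      (Set.Ioc (0 : ℝ) 2).indicator (fun _ => (1 : ℝ≥0∞)) x' *
        (Set.Ico z (z + 2)).indicator (fun _ => (1 : ℝ≥0∞)) y with hF
    have hFm : Measurable (Function.uncurry F) :=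
      ((measurable_const.indicator measurableSet_Ioc).comp measurable_fst).mul
        ((measurable_const.indicator measurableSet_Ico).comp measurable_snd)
    calc kap D ρ k x (Set.Ico z (z + 1))
        = ∫⁻ _ in Set.Ioc (0 : ℝ) 1, kap D ρ k x (Set.Ico z (z + 1)) := by simp
      _ ≤ ∫⁻ s in Set.Ioc (0 : ℝ) 1, kap D ρ k (x + s) (Set.Ico z (z + 2)) := by
          refine setLIntegral_mono' measurableSet_Ioc fun s hs => ?_
          refine kap_shift_le hD k x s hs.1.le _ _ measurableSet_Ico measurableSet_Ico ?_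
          intro y hy
          exact ⟨by linarith [hy.1, hs.1], by linarith [hy.2, hs.2]⟩
      _ = ∫⁻ s, (Set.Ioc x (x + 1)).indicator (fun x' => kap D ρ k x' (Set.Ico z (z + 2))) (x + s) := by
          rw [← lintegral_indicator measurableSet_Ioc]
          refine lintegral_congr fun s => ?_
          by_cases hs : s ∈ Set.Ioc (0 : ℝ) 1
          · rw [Set.indicator_of_mem hs, Set.indicator_of_mem (show x + s ∈ Set.Ioc x (x + 1) from
              ⟨by linarith [hs.1], by linarith [hs.2]⟩)]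
          · rw [Set.indicator_of_notMem hs, Set.indicator_of_notMem (fun h => hs
              ⟨by linarith [h.1], by linarith [h.2]⟩)]
      _ = ∫⁻ s, (Set.Ioc x (x + 1)).indicator (fun x' => kap D ρ k x' (Set.Ico z (z + 2))) s :=
          lintegral_add_left_eq_self _ x
      _ = ∫⁻ s in Set.Ioc x (x + 1), kap D ρ k s (Set.Ico z (z + 2)) :=
          lintegral_indicator measurableSet_Ioc _
      _ ≤ ∫⁻ s in Set.Ioc 0 2, kap D ρ k s (Set.Ico z (z + 2)) :=
          lintegral_mono_set (Set.Ioc_subset_Ioc hx0 (by linarith))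
      _ = ∫⁻ x' in D, ∫⁻ y, F x' y ∂(kap D ρ k x') := by
          have e1 : ∀ x', ∫⁻ y, F x' y ∂(kap D ρ k x') =
              (Set.Ioc (0 : ℝ) 2).indicator (fun x' => kap D ρ k x' (Set.Ico z (z + 2))) x' := by
            intro x'
            simp only [hF]
            rw [lintegral_const_mul _ (measurable_const.indicator measurableSet_Ico),
              lintegral_indicator measurableSet_Ico]
            by_cases hx' : x' ∈ Set.Ioc (0 : ℝ) 2
            · simp [Set.indicator_of_mem hx']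
            · simp [Set.indicator_of_notMem hx']
          simp_rw [e1]
          rw [setLIntegral_indicator measurableSet_Ioc]
          congr 2
          symm
          exact Set.inter_eq_left.2 fun y hy => hD.pos hy.1
      _ = ∫⁻ y in D, ∫⁻ x', F x' y ∂(kap D (dual ρ) k y) := duality_vol hD k F hFm
      _ ≤ ∫⁻ y, (Set.Ico z (z + 2)).indicator (fun y => kap D (dual ρ) k y (Set.Ico 0 3)) y := by
          refine (setLIntegral_le_lintegral _ _).trans (lintegral_mono fun y => ?_)
          simp only [hF]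
          rw [lintegral_mul_const _ (measurable_const.indicator measurableSet_Ioc),
            lintegral_indicator measurableSet_Ioc]
          by_cases hy : y ∈ Set.Ico z (z + 2)
          · rw [Set.indicator_of_mem hy, Set.indicator_of_mem hy]
            simp only [lintegral_const, Measure.restrict_apply MeasurableSet.univ, Set.univ_inter,
              one_mul, mul_one]
            exact measure_mono fun w hw => ⟨hw.1.le, by linarith [hw.2]⟩
          · simp [Set.indicator_of_notMem hy]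
      _ = _ := lintegral_indicator measurableSet_Ico _
  calc ∑' k, kap D ρ k x (Set.Ico z (z + 1))
      ≤ ∑' k, ∫⁻ y in Set.Ico z (z + 2), kap D (dual ρ) k y (Set.Ico 0 3) :=
        ENNReal.tsum_le_tsum h1
    _ = ∫⁻ y in Set.Ico z (z + 2), ∑' k, kap D (dual ρ) k y (Set.Ico 0 3) := by
        rw [lintegral_tsum]
        intro k
        exact ((Measure.measurable_coe measurableSet_Ico).comp (measurable_kap hD k)).aemeasurable
    _ ≤ ∫⁻ y in Set.Ico z (z + 2), C := lintegral_mono fun y => hC y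
    _ = 2 * C := by
        rw [setLIntegral_const, Real.volume_Ico]
        have : z + 2 - z = 2 := by ring
        rw [this, mul_comm]
        congr 1
        simp

/-- **[FV-A5b]** Green function of the killed walk started near the origin. -/
theorem green (hD : Dom D) (hρ : Std ρ) : ∃ C : ℝ≥0, ∀ x : ℝ, 0 ≤ x → x ≤ 1 → ∀ z : ℝ,
    ∑' k, kap D ρ k x (Set.Ico z (z + 1)) ≤ C := by
  have := hρ.prob
  obtain ⟨C, hC⟩ := visits hD hρ.dual 3
  refine ⟨2 * C, fun x hx0 hx1 z => ?_⟩
  have := A5_green hD C hC x hx0 hx1 z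
  push_cast
  exact this

/-- for longer intervals -/
theorem green_long (hD : Dom D) (hρ : Std ρ) : ∃ C : ℝ≥0, ∀ x : ℝ, 0 ≤ x → x ≤ 1 → ∀ z L : ℝ, 0 ≤ L →
    ∑' k, kap D ρ k x (Set.Ico z (z + L)) ≤ C * ENNReal.ofReal (1 + L) := by
  have := hρ.prob
  obtain ⟨C, hC⟩ := green hD hρ
  refine ⟨C, fun x hx0 hx1 z L hL => ?_⟩
  set n := ⌈L⌉₊ with hn
  have hcov : Set.Ico z (z + L) ⊆ ⋃ j ∈ Finset.range n, Set.Ico (z + (j : ℝ)) (z + (j : ℝ) + 1) := by
    intro y hy
    simp only [Set.mem_iUnion, Finset.mem_range, exists_prop]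
    have h0 : 0 ≤ y - z := by linarith [hy.1]
    refine ⟨⌊y - z⌋₊, ?_, ?_, ?_⟩
    · rw [Nat.floor_lt h0]
      calc y - z < L := by linarith [hy.2]
        _ ≤ n := Nat.le_ceil _
    · linarith [Nat.floor_le h0]
    · linarith [Nat.lt_floor_add_one (y - z)]
  calc ∑' k, kap D ρ k x (Set.Ico z (z + L))
      ≤ ∑' k, ∑ j ∈ Finset.range n, kap D ρ k x (Set.Ico (z + (j : ℝ)) (z + (j : ℝ) + 1)) := by
        refine ENNReal.tsum_le_tsum fun k => ?_
        exact (measure_mono hcov).trans (measure_biUnion_finset_le _ _)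
    _ = ∑ j ∈ Finset.range n, ∑' k, kap D ρ k x (Set.Ico (z + (j : ℝ)) (z + (j : ℝ) + 1)) :=
        Summable.tsum_finsetSum fun _ _ => ENNReal.summable
    _ ≤ ∑ j ∈ Finset.range n, (C : ℝ≥0∞) := Finset.sum_le_sum fun j _ => hC x hx0 hx1 _
    _ = C * n := by simp [mul_comm]
    _ ≤ C * ENNReal.ofReal (1 + L) := by
        gcongr
        rw [← ENNReal.ofReal_natCast]
        exact ENNReal.ofReal_le_ofReal (by linarith [Nat.ceil_lt_add_one hL])

end Pool.Agent.BPT
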