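import Pool.Agent.MP_99a865_pr.FV.F2
import Pool.Agent.MP_99a865_pr.FV.A11
import Pool.Agent.MP_99a865_pr.FV.A5

open MeasureTheory ProbabilityTheory Filter Topology
open scoped ENNReal NNReal

namespace Pool.Agent.BPT

variable {D : Set ℝ} {μ ν : Measure ℝ} {σ : ℝ}

theorem f4_tel (b m : ℝ) (hb : 1 ≤ b) (hm : 1 ≤ m) :
    2 * b / ((m + 1) * √(m + 1)) ≤ 4 * b / √m - 4 * b / √(m + 1) := by
  have h1 : 0 < √m := Real.sqrt_pos.mpr (by linarith)
  have h2 : 0 < √(m + 1) := Real.sqrt_pos.mpr (by linarith)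
  have h3 : √m ≤ √(m + 1) := Real.sqrt_le_sqrt (by linarith)
  have e1 : √m * √m = m := Real.mul_self_sqrt (by linarith)
  have e2 : √(m + 1) * √(m + 1) = m + 1 := Real.mul_self_sqrt (by linarith)
  have e3 : 4 * b / √m - 4 * b / √(m + 1) = 4 * b * (√(m + 1) - √m) / (√m * √(m + 1)) := by
    field_simp
  rw [e3, div_le_div_iff₀ (by positivity) (by positivity)]
  have e4 : (√(m + 1) - √m) * (√(m + 1) + √m) = 1 := by nlinarith
  have h5 : 0 < √(m + 1) + √m := by positivity
  have e5 : √(m + 1) - √m = 1 / (√(m + 1) + √m) := by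
    rw [eq_div_iff h5.ne']; exact e4
  rw [e5]
  rw [show 4 * b * (1 / (√(m + 1) + √m)) * ((m + 1) * √(m + 1)) =
    (4 * b * ((m + 1) * √(m + 1))) / (√(m + 1) + √m) by ring]
  rw [le_div_iff₀ h5]
  have h6 : √m * (√(m + 1) + √m) ≤ 2 * (m + 1) := by nlinarith
  have h7 : 0 ≤ b * √(m + 1) := by positivity
  nlinarith [mul_le_mul_of_nonneg_left h6 h7]

theorem f4_sum (b : ℕ) (hb : 1 ≤ b) (M : ℕ) :
    (M ≤ b ^ 2 → ∑ m ∈ Finset.Icc 1 M, min (2 * (b : ℝ) / (m * √m)) (1 / (b : ℝ) ^ 2) ≤
      M / (b : ℝ) ^ 2) ∧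
    (b ^ 2 ≤ M → ∑ m ∈ Finset.Icc 1 M, min (2 * (b : ℝ) / (m * √m)) (1 / (b : ℝ) ^ 2) ≤
      5 - 4 * b / √M) := by
  have hb' : (1 : ℝ) ≤ b := by exact_mod_cast hb
  have hkey : ∀ M : ℕ, ∑ m ∈ Finset.Icc 1 M, min (2 * (b : ℝ) / (m * √m)) (1 / (b : ℝ) ^ 2) ≤
      M / (b : ℝ) ^ 2 := by
    intro M
    calc ∑ m ∈ Finset.Icc 1 M, min (2 * (b : ℝ) / (m * √m)) (1 / (b : ℝ) ^ 2)
        ≤ ∑ _m ∈ Finset.Icc 1 M, (1 / (b : ℝ) ^ 2) := Finset.sum_le_sum fun m _ => min_le_right _ _
      _ = M / (b : ℝ) ^ 2 := by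
          rw [Finset.sum_const, Nat.card_Icc, nsmul_eq_mul]
          simp [div_eq_mul_inv]
  refine ⟨fun _ => hkey M, ?_⟩
  induction M with
  | zero =>
    intro h
    have : 1 ≤ b ^ 2 := Nat.one_le_pow _ _ hb
    omega
  | succ M ih =>
    intro h
    rcases Nat.lt_or_ge M (b ^ 2) with hlt | hge
    · have hM : M + 1 = b ^ 2 := by omega
      refine (hkey (M + 1)).trans (le_of_eq ?_)
      rw [hM]
      push_cast
      rw [Real.sqrt_sq (by linarith)]
      field_simp
      norm_num
    · have h1 := ih hge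
      rw [Finset.sum_Icc_succ_top (by omega)]
      have hM1 : (1 : ℝ) ≤ M := by
        have : 1 ≤ M := le_trans (Nat.one_le_pow _ _ hb) hge
        exact_mod_cast this
      have h2 := f4_tel b M hb' hM1
      have h3 : min (2 * (b : ℝ) / (((M + 1 : ℕ) : ℝ) * √((M + 1 : ℕ) : ℝ))) (1 / (b : ℝ) ^ 2) ≤
          2 * (b : ℝ) / ((M + 1) * √(M + 1)) := by
        refine (min_le_left _ _).trans (le_of_eq ?_)
        push_cast
        rfl
      push_cast at h3 ⊢
      linarith

theorem f4_sum' (b : ℕ) (hb : 1 ≤ b) (M : ℕ) :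
    ∑ m ∈ Finset.Icc 1 M, min (2 * (b : ℝ) / (m * √m)) (1 / (b : ℝ) ^ 2) ≤ 5 := by
  have hb' : (1 : ℝ) ≤ b := by exact_mod_cast hb
  rcases le_total M (b ^ 2) with h | h
  · refine ((f4_sum b hb M).1 h).trans ?_
    rw [div_le_iff₀ (by positivity)]
    have : (M : ℝ) ≤ (b : ℝ) ^ 2 := by exact_mod_cast h
    nlinarith
  · refine ((f4_sum b hb M).2 h).trans ?_
    have : 0 ≤ 4 * (b : ℝ) / √M := by positivity
    linarith

theorem f4_pow {n m : ℕ} (hn : 1 ≤ n) (h : n ≤ 2 * m) :
    1 / ((m : ℝ) * √m) ≤ 4 / ((n : ℝ) * √n) := by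
  have hm : 1 ≤ m := by omega
  have hn' : (1 : ℝ) ≤ n := by exact_mod_cast hn
  have hm' : (1 : ℝ) ≤ m := by exact_mod_cast hm
  have h' : (n : ℝ) ≤ 2 * m := by exact_mod_cast h
  have h1 : 0 < √(m : ℝ) := Real.sqrt_pos.mpr (by linarith)
  have h2 : 0 < √(n : ℝ) := Real.sqrt_pos.mpr (by linarith)
  have h3 : √(n : ℝ) ≤ 2 * √(m : ℝ) := by
    rw [show (2 : ℝ) * √(m : ℝ) = √(4 * m) by
      rw [Real.sqrt_mul (by norm_num), show (4 : ℝ) = 2 ^ 2 by norm_num,
        Real.sqrt_sq (by norm_num)]]
    exact Real.sqrt_le_sqrt (by linarith)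
  rw [div_le_div_iff₀ (by positivity) (by positivity)]
  nlinarith [mul_nonneg (sub_nonneg.mpr h') h1.le, mul_nonneg (sub_nonneg.mpr h3) (by linarith : (0:ℝ) ≤ n)]

theorem f4_Iio (hD : Dom D) {ρ : Measure ℝ} [IsProbabilityMeasure ρ] (i : ℕ) :
    kap D ρ i 0 (Set.Iio 0) = 0 := by
  rcases Nat.eq_zero_or_pos i with rfl | hi
  · rw [kap_zero, Measure.dirac_apply' _ measurableSet_Iio]
    simp
  · refine measure_mono_null ?_ (kap_compl hD i 0 (Or.inl hi))
    intro x hx hxD
    rcases hD with rfl | rfl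
    · exact absurd (Set.mem_Iio.mp hx) (not_lt.mpr (Set.mem_Ici.mp hxD))
    · exact absurd (Set.mem_Iio.mp hx) (not_lt.mpr (le_of_lt (Set.mem_Ioi.mp hxD)))

/-- the general term -/
theorem f4_term (hD : Dom D) (hQ : QStd μ ν σ) (n i : ℕ) (hi : i < n) (y : ℝ) :
    ∫⁻ ω in EvN D n, (if nz σ i ω < y then 1 else 0 : ℝ≥0∞) ∂(PQ μ ν) =
      ∫⁻ x, (if x < y then 1 else 0 : ℝ≥0∞) * ENNReal.ofReal (hit D (stepLaw μ ν σ) (n - i) x)
        ∂(kap D (stepLaw μ ν σ) i 0) := by
  have := hQ.probμ
  have := hQ.probν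
  have := hQ.std.prob
  have hn : n = i + (n - i) := by omega
  have hmeas : Measurable fun ω => (if nz σ i ω < y then 1 else 0 : ℝ≥0∞) :=
    Measurable.ite (measurableSet_lt (measurable_nz i) measurable_const) measurable_const
      measurable_const
  have hdep : ∀ ω ω' : ℕ → ℝ × ℝ, (∀ j < i, ω j = ω' j) →
      (if nz σ i ω < y then 1 else 0 : ℝ≥0∞) = (if nz σ i ω' < y then 1 else 0 : ℝ≥0∞) := by
    intro ω ω' h
    have : nz σ i ω = nz σ i ω' := by
      unfold nz Zw Dp Ar
      have h1 : ∑ j ∈ Finset.range i, (ω j).2 = ∑ j ∈ Finset.range i, (ω' j).2 :=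
        Finset.sum_congr rfl fun j hj => by rw [h j (Finset.mem_range.mp hj)]
      have h2 : ∑ j ∈ Finset.range i, (ω j).1 = ∑ j ∈ Finset.range i, (ω' j).1 :=
        Finset.sum_congr rfl fun j hj => by rw [h j (Finset.mem_range.mp hj)]
      rw [h1, h2]
    rw [this]
  have h1 := q_markov hD hQ i (n - i) (by omega) _ hmeas hdep
  rw [← hn] at h1
  rw [h1]
  have hg : Measurable fun x : ℝ => (if x < y then 1 else 0 : ℝ≥0∞) *
      ENNReal.ofReal (hit D (stepLaw μ ν σ) (n - i) x) :=
    (Measurable.ite measurableSet_Iio measurable_const measurable_const).mul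
      (measurable_hit hD (n - i)).ennreal_ofReal
  exact lintegral_alive hD hQ i _ hg

theorem occ (hD : Dom D) (hQ : QStd μ ν σ) : ∃ C > (0 : ℝ), ∀ n : ℕ, 1 ≤ n → ∀ y : ℝ, 0 ≤ y →
    ∫⁻ ω in EvN D n, (cOcc σ n y ω : ℝ≥0∞) ∂(PQ μ ν) ≤
      ENNReal.ofReal (C * (1 + y) ^ 2 / (n * √n)) := by
  have := hQ.probμ
  have := hQ.probν
  have hρ := hQ.std
  have := hρ.prob
  set ρ := stepLaw μ ν σ with hρdef
  obtain ⟨Cw, hCw, win'⟩ := win hD hρ
  obtain ⟨Ch, hCh, hit'⟩ := hit_bound hD hρ
  obtain ⟨Cg, green'⟩ := green_long hD hρ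
  refine ⟨4 * Ch * (Cg + 1) + 20 * Ch * Cw, by positivity, fun n hn y hy => ?_⟩
  have hn' : (1 : ℝ) ≤ n := by exact_mod_cast hn
  have hnn : 0 < (n : ℝ) * √n := by positivity
  have hcount : ∀ ω, (cOcc σ n y ω : ℝ≥0∞) =
      ∑ i ∈ Finset.range n, (if nz σ i ω < y then 1 else 0 : ℝ≥0∞) := by
    intro ω
    unfold cOcc
    rw [Finset.card_filter]
    push_cast
    refine Finset.sum_congr rfl fun i _ => ?_
    congr
  have hmeas : ∀ i, Measurable fun ω => (if nz σ i ω < y then 1 else 0 : ℝ≥0∞) := fun i =>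
    Measurable.ite (measurableSet_lt (measurable_nz i) measurable_const) measurable_const
      measurable_const
  simp_rw [hcount]
  rw [lintegral_finsetSum _ fun i _ => hmeas i]
  rw [Finset.sum_congr rfl fun i hi => f4_term hD hQ n i (Finset.mem_range.mp hi) y]
  rw [← hρdef]
  set T : ℕ → ℝ≥0∞ := fun i => ∫⁻ x, (if x < y then 1 else 0 : ℝ≥0∞) *
    ENNReal.ofReal (hit D ρ (n - i) x) ∂(kap D ρ i 0) with hT
  have hae : ∀ i, ∀ᵐ x ∂(kap D ρ i 0), 0 ≤ x := by
    intro i
    have := f4_Iio (ρ := ρ) hD i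
    rw [ae_iff]
    simpa [not_le, Set.Iio] using this
  -- first half
  have hA : ∑ i ∈ (Finset.range n).filter (fun i => 2 * i ≤ n), T i ≤
      ENNReal.ofReal (4 * Ch * (Cg + 1) * (1 + y) ^ 2 / (n * √n)) := by
    have h1 : ∀ i ∈ (Finset.range n).filter (fun i => 2 * i ≤ n), T i ≤
        ENNReal.ofReal (4 * Ch * (1 + y) / (n * √n)) * kap D ρ i 0 (Set.Ico 0 (0 + y)) := by
      intro i hi
      rw [Finset.mem_filter, Finset.mem_range] at hi
      have h2 : ∀ᵐ x ∂(kap D ρ i 0), (if x < y then 1 else 0 : ℝ≥0∞) *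
          ENNReal.ofReal (hit D ρ (n - i) x) ≤ (Set.Ico 0 (0 + y)).indicator
            (fun _ => ENNReal.ofReal (4 * Ch * (1 + y) / (n * √n))) x := by
        filter_upwards [hae i] with x hx
        by_cases hxy : x < y
        · rw [if_pos hxy, one_mul, Set.indicator_of_mem (show x ∈ Set.Ico 0 (0 + y) from ⟨hx, by linarith⟩)]
          apply ENNReal.ofReal_le_ofReal
          refine ((hit' (n - i) (by omega) x hx).1).trans ?_
          have h3 := f4_pow (n := n) (m := n - i) hn (by omega)
          have h4 : Ch * (1 + x) / (((n - i : ℕ) : ℝ) * √((n - i : ℕ) : ℝ)) =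
              Ch * (1 + x) * (1 / (((n - i : ℕ) : ℝ) * √((n - i : ℕ) : ℝ))) := by ring
          rw [h4]
          calc Ch * (1 + x) * (1 / (((n - i : ℕ) : ℝ) * √((n - i : ℕ) : ℝ)))
              ≤ Ch * (1 + y) * (4 / (n * √n)) := by gcongr
            _ = 4 * Ch * (1 + y) / (n * √n) := by ring
        · rw [if_neg hxy, zero_mul]
          exact bot_le
      calc T i ≤ ∫⁻ x, (Set.Ico 0 (0 + y)).indicator
            (fun _ => ENNReal.ofReal (4 * Ch * (1 + y) / (n * √n))) x ∂(kap D ρ i 0) :=
            lintegral_mono_ae h2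
        _ = _ := by rw [lintegral_indicator_const measurableSet_Ico]
    calc ∑ i ∈ (Finset.range n).filter (fun i => 2 * i ≤ n), T i
        ≤ ∑ i ∈ (Finset.range n).filter (fun i => 2 * i ≤ n),
          ENNReal.ofReal (4 * Ch * (1 + y) / (n * √n)) * kap D ρ i 0 (Set.Ico 0 (0 + y)) :=
          Finset.sum_le_sum h1
      _ = ENNReal.ofReal (4 * Ch * (1 + y) / (n * √n)) *
          ∑ i ∈ (Finset.range n).filter (fun i => 2 * i ≤ n), kap D ρ i 0 (Set.Ico 0 (0 + y)) := by
          rw [Finset.mul_sum]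
      _ ≤ ENNReal.ofReal (4 * Ch * (1 + y) / (n * √n)) *
          (Cg * ENNReal.ofReal (1 + y)) := by
          gcongr
          exact (ENNReal.sum_le_tsum _).trans (green' 0 le_rfl zero_le_one 0 y hy)
      _ ≤ ENNReal.ofReal (4 * Ch * (1 + y) / (n * √n)) *
          (ENNReal.ofReal ((Cg + 1) * (1 + y))) := by
          gcongr
          rw [ENNReal.ofReal_mul (by positivity)]
          gcongr
          rw [← ENNReal.ofReal_coe_nnreal]
          exact ENNReal.ofReal_le_ofReal (by linarith)
      _ = _ := by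
          rw [← ENNReal.ofReal_mul (by positivity)]
          congr 1
          ring
  -- second half
  have hB : ∑ i ∈ (Finset.range n).filter (fun i => ¬ 2 * i ≤ n), T i ≤
      ENNReal.ofReal (20 * Ch * Cw * (1 + y) ^ 2 / (n * √n)) := by
    set A : ℕ := ⌈y⌉₊ with hAdef
    have hA1 : (A : ℝ) ≤ 1 + y := by
      have := Nat.ceil_lt_add_one hy
      linarith
    set g : ℕ → ℕ → ℝ := fun m a => min (2 * ((a + 1 : ℕ) : ℝ) / (m * √m))
      (1 / ((a + 1 : ℕ) : ℝ) ^ 2) with hg
    have hg0 : ∀ m a, 0 ≤ g m a := fun m a => le_min (by positivity) (by positivity)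
    have h1 : ∀ i ∈ (Finset.range n).filter (fun i => ¬ 2 * i ≤ n), T i ≤
        ∑ a ∈ Finset.range A, ENNReal.ofReal (4 * Ch * Cw * (1 + y) / (n * √n) * g (n - i) a) := by
      intro i hi
      rw [Finset.mem_filter, Finset.mem_range] at hi
      have hi1 : 1 ≤ i := by omega
      have h2 : ∀ᵐ x ∂(kap D ρ i 0), (if x < y then 1 else 0 : ℝ≥0∞) *
          ENNReal.ofReal (hit D ρ (n - i) x) ≤ ∑ a ∈ Finset.range A,
            (Set.Ico (a : ℝ) (a + 1)).indicator (fun _ => ENNReal.ofReal (Ch * g (n - i) a)) x := by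
        filter_upwards [hae i] with x hx
        by_cases hxy : x < y
        · rw [if_pos hxy, one_mul]
          have hfl : ⌊x⌋₊ ∈ Finset.range A := by
            rw [Finset.mem_range]
            have h3 : (⌊x⌋₊ : ℝ) ≤ x := Nat.floor_le hx
            have h4 : y ≤ A := Nat.le_ceil y
            have : (⌊x⌋₊ : ℝ) < A := by linarith
            exact_mod_cast this
          refine le_trans ?_ (Finset.single_le_sum (f := fun a : ℕ =>
            (Set.Ico (a : ℝ) (a + 1)).indicator (fun _ => ENNReal.ofReal (Ch * g (n - i) a)) x)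
            (fun _ _ => bot_le) hfl)
          have hmem : x ∈ Set.Ico (⌊x⌋₊ : ℝ) (⌊x⌋₊ + 1) := ⟨Nat.floor_le hx, Nat.lt_floor_add_one x⟩
          show _ ≤ (Set.Ico (⌊x⌋₊ : ℝ) (⌊x⌋₊ + 1)).indicator _ x
          rw [Set.indicator_of_mem hmem]
          apply ENNReal.ofReal_le_ofReal
          obtain ⟨b1, -, b3⟩ := hit' (n - i) (by omega) x hx
          have hm0 : (1 : ℝ) ≤ ((n - i : ℕ) : ℝ) := by
            have : 1 ≤ n - i := by omega
            exact_mod_cast this
          rw [hg]
          show _ ≤ Ch * min _ _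
          rw [mul_min_of_nonneg _ _ hCh.le]
          apply le_min
          · refine b1.trans ?_
            rw [← mul_div_assoc]
            apply div_le_div_of_nonneg_right _ (by positivity)
            apply mul_le_mul_of_nonneg_left _ hCh.le
            push_cast
            have := hmem.2
            have h0 : (0 : ℝ) ≤ (⌊x⌋₊ : ℝ) := by positivity
            linarith
          · refine b3.trans ?_
            rw [mul_one_div]
            apply div_le_div_of_nonneg_left hCh.le (by positivity)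
            push_cast
            have := hmem.1
            have h0 : (0 : ℝ) ≤ (⌊x⌋₊ : ℝ) := by positivity
            nlinarith
        · rw [if_neg hxy, zero_mul]
          exact bot_le
      calc T i ≤ ∫⁻ x, ∑ a ∈ Finset.range A, (Set.Ico (a : ℝ) (a + 1)).indicator
            (fun _ => ENNReal.ofReal (Ch * g (n - i) a)) x ∂(kap D ρ i 0) := lintegral_mono_ae h2
        _ = ∑ a ∈ Finset.range A, ENNReal.ofReal (Ch * g (n - i) a) *
              kap D ρ i 0 (Set.Ico (a : ℝ) (a + 1)) := by
            rw [lintegral_finsetSum]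
            · refine Finset.sum_congr rfl fun a _ => ?_
              rw [lintegral_indicator_const measurableSet_Ico]
            · intro a _
              exact measurable_const.indicator measurableSet_Ico
        _ ≤ ∑ a ∈ Finset.range A, ENNReal.ofReal (4 * Ch * Cw * (1 + y) / (n * √n) * g (n - i) a) := by
            refine Finset.sum_le_sum fun a ha => ?_
            have hay : (a : ℝ) ≤ y := by
              rw [Finset.mem_range] at ha
              have := Nat.lt_ceil.mp ha
              linarith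
            have hfin : kap D ρ i 0 (Set.Ico (a : ℝ) (a + 1)) ≠ ⊤ :=
              ne_top_of_le_ne_top ENNReal.one_ne_top
                ((measure_mono (Set.subset_univ _)).trans (kap_univ_le_one i 0))
            have h5 := (win' i hi1 0 a le_rfl (by positivity)).2.2.2
            have h6 : kap D ρ i 0 (Set.Ico (a : ℝ) (a + 1)) ≤
                ENNReal.ofReal (4 * Cw * (1 + y) / (n * √n)) := by
              rw [← ENNReal.ofReal_toReal hfin]
              apply ENNReal.ofReal_le_ofReal
              refine h5.trans ?_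
              have h7 := f4_pow (n := n) (m := i) hn (by omega)
              have h8 : Cw * (1 + 0) * (1 + (a : ℝ)) / ((i : ℝ) * √i) =
                  Cw * (1 + (a : ℝ)) * (1 / ((i : ℝ) * √i)) := by ring
              rw [h8]
              calc Cw * (1 + (a : ℝ)) * (1 / ((i : ℝ) * √i)) ≤ Cw * (1 + y) * (4 / (n * √n)) := by
                    gcongr
                _ = _ := by ring
            calc ENNReal.ofReal (Ch * g (n - i) a) * kap D ρ i 0 (Set.Ico (a : ℝ) (a + 1))
                ≤ ENNReal.ofReal (Ch * g (n - i) a) *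
                  ENNReal.ofReal (4 * Cw * (1 + y) / (n * √n)) := by gcongr
              _ = _ := by
                  rw [← ENNReal.ofReal_mul (mul_nonneg hCh.le (hg0 _ _))]
                  congr 1
                  ring
    have hc0 : 0 ≤ 4 * Ch * Cw * (1 + y) / (n * √n) := by positivity
    calc ∑ i ∈ (Finset.range n).filter (fun i => ¬ 2 * i ≤ n), T i
        ≤ ∑ i ∈ (Finset.range n).filter (fun i => ¬ 2 * i ≤ n),
          ∑ a ∈ Finset.range A, ENNReal.ofReal (4 * Ch * Cw * (1 + y) / (n * √n) * g (n - i) a) :=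
          Finset.sum_le_sum h1
      _ ≤ ∑ i ∈ Finset.range n,
          ∑ a ∈ Finset.range A, ENNReal.ofReal (4 * Ch * Cw * (1 + y) / (n * √n) * g (n - i) a) :=
          Finset.sum_le_sum_of_subset (Finset.filter_subset _ _)
      _ = ENNReal.ofReal (∑ i ∈ Finset.range n,
          ∑ a ∈ Finset.range A, (4 * Ch * Cw * (1 + y) / (n * √n) * g (n - i) a)) := by
          rw [ENNReal.ofReal_sum_of_nonneg]
          · refine Finset.sum_congr rfl fun i _ => ?_
            rw [ENNReal.ofReal_sum_of_nonneg]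
            intro a _
            exact mul_nonneg hc0 (hg0 _ _)
          · intro i _
            exact Finset.sum_nonneg fun a _ => mul_nonneg hc0 (hg0 _ _)
      _ ≤ ENNReal.ofReal (20 * Ch * Cw * (1 + y) ^ 2 / (n * √n)) := by
          apply ENNReal.ofReal_le_ofReal
          rw [Finset.sum_comm]
          have h9 : ∀ a ∈ Finset.range A, ∑ i ∈ Finset.range n,
              (4 * Ch * Cw * (1 + y) / (n * √n) * g (n - i) a) ≤
              4 * Ch * Cw * (1 + y) / (n * √n) * 5 := by
            intro a _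
            rw [← Finset.mul_sum]
            apply mul_le_mul_of_nonneg_left _ hc0
            have h10 : ∑ i ∈ Finset.range n, g (n - i) a = ∑ m ∈ Finset.Icc 1 n, g m a := by
              apply Finset.sum_nbij' (fun i => n - i) (fun m => n - m)
              · intro i hi
                rw [Finset.mem_range] at hi
                rw [Finset.mem_Icc]
                omega
              · intro m hm
                rw [Finset.mem_Icc] at hm
                rw [Finset.mem_range]
                omega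
              · intro i hi
                rw [Finset.mem_range] at hi
                omega
              · intro m hm
                rw [Finset.mem_Icc] at hm
                omega
              · intro i _
                rfl
            rw [h10]
            exact f4_sum' (a + 1) (by omega) n
          calc ∑ a ∈ Finset.range A, ∑ i ∈ Finset.range n,
              (4 * Ch * Cw * (1 + y) / (n * √n) * g (n - i) a)
              ≤ ∑ _a ∈ Finset.range A, 4 * Ch * Cw * (1 + y) / (n * √n) * 5 :=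
                Finset.sum_le_sum h9
            _ = A * (4 * Ch * Cw * (1 + y) / (n * √n) * 5) := by
                rw [Finset.sum_const, Finset.card_range, nsmul_eq_mul]
            _ ≤ (1 + y) * (4 * Ch * Cw * (1 + y) / (n * √n) * 5) :=
                mul_le_mul_of_nonneg_right hA1 (by positivity)
            _ = _ := by ring
  rw [← Finset.sum_filter_add_sum_filter_not (Finset.range n) (fun i => 2 * i ≤ n)]
  refine (add_le_add hA hB).trans (le_of_eq ?_)
  rw [← ENNReal.ofReal_add (by positivity) (by positivity)]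
  congr 1
  ring

end Pool.Agent.BPT
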