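import Pool.Agent.MP_99a865_pr.FV.Defs

open MeasureTheory ProbabilityTheory Filter Topology
open scoped ENNReal NNReal

namespace Pool.Agent.BPT

variable {E : Type} [MeasurableSpace E]

theorem measurable_shift (k : ℕ) : Measurable (shift k : (ℕ → E) → (ℕ → E)) := by
  refine measurable_pi_lambda _ fun i => ?_
  exact measurable_pi_apply (k + i)

/-- The glueing map. -/
def A0_T (k : ℕ) (p : (ℕ → E) × (ℕ → E)) : ℕ → E :=
  fun i => if i < k then p.1 i else p.2 (i - k)

lemma A0_T_meas (k : ℕ) : Measurable (A0_T k : (ℕ → E) × (ℕ → E) → (ℕ → E)) := by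
  refine measurable_pi_lambda _ fun i => ?_
  by_cases h : i < k
  · simp only [A0_T, if_pos h]
    exact (measurable_pi_apply i).comp measurable_fst
  · simp only [A0_T, if_neg h]
    exact (measurable_pi_apply (i - k)).comp measurable_snd

lemma A0_shift_T (k : ℕ) (p : (ℕ → E) × (ℕ → E)) : shift k (A0_T k p) = p.2 := by
  funext i
  simp [shift, A0_T]

lemma A0_map_T (π : Measure E) [IsProbabilityMeasure π] (k : ℕ) :
    ((seqLaw π).prod (seqLaw π)).map (A0_T k) = seqLaw π := by
  refine Measure.eq_infinitePi _ fun s t ht => ?_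
  rw [Measure.map_apply (A0_T_meas k) (.pi s.countable_toSet fun _ _ => ht _)]
  have h1 : A0_T k ⁻¹' ((s : Set ℕ).pi t) =
      ((s.filter (fun i => i < k) : Finset ℕ) : Set ℕ).pi t ×ˢ
        (((s.filter (fun i => ¬ i < k)).image (fun i => i - k) : Finset ℕ) : Set ℕ).pi
          (fun j => t (j + k)) := by
    ext ⟨a, b⟩
    simp only [Set.mem_preimage, Set.mem_pi, Finset.mem_coe, Set.mem_prod, Finset.mem_filter,
      Finset.mem_image]
    constructor
    · intro h
      refine ⟨?_, ?_⟩
      · rintro i ⟨hi, hik⟩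
        have := h i hi
        simpa [A0_T, hik] using this
      · rintro j ⟨i, ⟨hi, hik⟩, rfl⟩
        have := h i hi
        have h2 : i - k + k = i := by omega
        rw [h2]
        simpa [A0_T, hik] using this
    · rintro ⟨h, h'⟩ i hi
      by_cases hik : i < k
      · have := h i ⟨hi, hik⟩
        simpa [A0_T, hik] using this
      · have := h' (i - k) ⟨i, ⟨hi, hik⟩, rfl⟩
        have h2 : i - k + k = i := by omega
        rw [h2] at this
        simpa [A0_T, hik] using this
  have hinj : Set.InjOn (fun i => i - k) ((s.filter (fun i => ¬ i < k) : Finset ℕ) : Set ℕ) := by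
    intro i hi j hj hij
    simp only [Finset.coe_filter, Set.mem_setOf_eq] at hi hj
    have : i - k = j - k := hij
    omega
  rw [h1, Measure.prod_prod, seqLaw, Measure.infinitePi_pi _ (fun i _ => ht i),
    Measure.infinitePi_pi _ (fun i _ => ht _), Finset.prod_image hinj,
    ← Finset.prod_filter_mul_prod_filter_not s (fun i => i < k)]
  congr 1
  refine Finset.prod_congr rfl fun i hi => ?_
  have h2 : i - k + k = i := by
    have := (Finset.mem_filter.mp hi).2
    omega
  rw [h2]

/-- **[FV-A0]** Splitting an i.i.d. sequence at time `k`.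
PROOF. Let `T (ω, η) i = if i < k then ω i else η (i - k)`. `T` is measurable and pushes
`seqLaw π ⊗ seqLaw π` forward to `seqLaw π`: by `Measure.eq_infinitePi` it is enough to check boxes
`Set.pi s t` (`s` a finset): the preimage is the product of the boxes `{ω | ∀ i ∈ s, i < k → ω i ∈ t i}`
and `{η | ∀ i ∈ s, k ≤ i → η (i - k) ∈ t i}`, whose measures are products (`Measure.infinitePi_pi`).
Then `∫⁻ H ω (shift k ω) = ∫⁻∫⁻ H (T (ω, η)) (shift k (T (ω, η))) = ∫⁻∫⁻ H (T (ω,η)) η = ∫⁻∫⁻ H ω η`
by `hdep`. -/
theorem lintegral_split (π : Measure E) [IsProbabilityMeasure π] (k : ℕ)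
    (H : (ℕ → E) → (ℕ → E) → ℝ≥0∞) (hH : Measurable (Function.uncurry H))
    (hdep : ∀ ω ω' η, (∀ i < k, ω i = ω' i) → H ω η = H ω' η) :
    ∫⁻ ω, H ω (shift k ω) ∂(seqLaw π) = ∫⁻ ω, ∫⁻ η, H ω η ∂(seqLaw π) ∂(seqLaw π) := by
  have hm : Measurable fun ω : ℕ → E => H ω (shift k ω) :=
    hH.comp (measurable_id.prodMk (measurable_shift k))
  conv_lhs => rw [← A0_map_T π k]
  rw [lintegral_map hm (A0_T_meas k)]
  have h2 : ∀ p : (ℕ → E) × (ℕ → E), H (A0_T k p) (shift k (A0_T k p)) = Function.uncurry H p := by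
    intro p
    rw [A0_shift_T]
    exact hdep _ _ _ fun i hi => by simp [A0_T, hi]
  simp_rw [h2]
  rw [lintegral_prod _ hH.aemeasurable]
  rfl

/-- Real version (bounded functions), from `lintegral_split` applied to `H + C` or by the same proof. -/
theorem integral_split (π : Measure E) [IsProbabilityMeasure π] (k : ℕ)
    (H : (ℕ → E) → (ℕ → E) → ℝ) (hH : Measurable (Function.uncurry H)) (C : ℝ)
    (hC : ∀ ω η, |H ω η| ≤ C)
    (hdep : ∀ ω ω' η, (∀ i < k, ω i = ω' i) → H ω η = H ω' η) :
    ∫ ω, H ω (shift k ω) ∂(seqLaw π) = ∫ ω, ∫ η, H ω η ∂(seqLaw π) ∂(seqLaw π) := by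
  have hm : Measurable fun ω : ℕ → E => H ω (shift k ω) :=
    hH.comp (measurable_id.prodMk (measurable_shift k))
  conv_lhs => rw [← A0_map_T π k]
  rw [integral_map (A0_T_meas k).aemeasurable hm.aestronglyMeasurable]
  have h2 : ∀ p : (ℕ → E) × (ℕ → E), H (A0_T k p) (shift k (A0_T k p)) = Function.uncurry H p := by
    intro p
    rw [A0_shift_T]
    exact hdep _ _ _ fun i hi => by simp [A0_T, hi]
  simp_rw [h2]
  rw [integral_prod]
  · rfl
  · exact Integrable.of_bound hH.aestronglyMeasurable C
      (Filter.Eventually.of_forall fun p => by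
        simpa [Function.uncurry] using hC p.1 p.2)

/-- The shift preserves `seqLaw` (special case of `lintegral_split`). -/
theorem map_shift (π : Measure E) [IsProbabilityMeasure π] (k : ℕ) :
    (seqLaw π).map (shift k) = seqLaw π := by
  conv_lhs => rw [← A0_map_T π k]
  rw [Measure.map_map (measurable_shift k) (A0_T_meas k)]
  have : (shift k ∘ A0_T k : (ℕ → E) × (ℕ → E) → (ℕ → E)) = Prod.snd := by
    funext p
    exact A0_shift_T k p
  rw [this, Measure.map_snd_prod]
  simp

/-- `Measure.infinitePi_map_pi`. -/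
theorem map_seqLaw {F : Type} [MeasurableSpace F] (π : Measure E) [IsProbabilityMeasure π]
    (g : E → F) (hg : Measurable g) :
    (seqLaw π).map (fun ω i => g (ω i)) = seqLaw (π.map g) := by
  exact Measure.infinitePi_map_pi (μ := fun _ : ℕ => π) (f := fun _ => g) fun _ => hg

/-- Reversal of the first `k` coordinates preserves `seqLaw` (check boxes as above). -/
theorem map_rev (π : Measure E) [IsProbabilityMeasure π] (k : ℕ) :
    (seqLaw π).map (fun ω i => if i < k then ω (k - 1 - i) else ω i) = seqLaw π := by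
  set e : ℕ → ℕ := fun i => if i < k then k - 1 - i else i with he
  have hee : ∀ i, e (e i) = i := by
    intro i
    simp only [he]
    split_ifs with h1 h2 h2 <;> omega
  have hfun : (fun (ω : ℕ → E) i => if i < k then ω (k - 1 - i) else ω i) =
      fun (ω : ℕ → E) i => ω (e i) := by
    funext ω i
    simp only [he]
    split_ifs <;> rfl
  rw [hfun]
  refine Measure.eq_infinitePi _ fun s t ht => ?_
  have hmeas : Measurable (fun (ω : ℕ → E) i => ω (e i)) :=
    measurable_pi_lambda _ fun i => measurable_pi_apply (e i)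
  rw [Measure.map_apply hmeas (.pi s.countable_toSet fun _ _ => ht _)]
  have h1 : (fun (ω : ℕ → E) i => ω (e i)) ⁻¹' ((s : Set ℕ).pi t) =
      ((s.image e : Finset ℕ) : Set ℕ).pi (fun j => t (e j)) := by
    ext a
    simp only [Set.mem_preimage, Set.mem_pi, Finset.mem_coe, Finset.mem_image]
    constructor
    · rintro h j ⟨i, hi, rfl⟩
      rw [hee]
      exact h i hi
    · intro h i hi
      have := h (e i) ⟨i, hi, rfl⟩
      rwa [hee] at this
  have hinj : Set.InjOn e (s : Set ℕ) := by
    intro i _ j _ hij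
    have := congrArg e hij
    rwa [hee, hee] at this
  rw [h1, seqLaw, Measure.infinitePi_pi _ (fun i _ => ht _), Finset.prod_image hinj]
  refine Finset.prod_congr rfl fun i _ => ?_
  rw [hee]

end Pool.Agent.BPT
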