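import Pool.Agent.MP_99a865_pr.FV.A0

open MeasureTheory ProbabilityTheory Filter Topology
open scoped ENNReal NNReal

namespace Pool.Agent.BPT

variable {D : Set ℝ} {ρ : Measure ℝ}

/-! **[FV-A1]** Basic facts on the killed walk (elementary). -/

lemma Dom.meas (hD : Dom D) : MeasurableSet D := by
  rcases hD with rfl | rfl
  · exact measurableSet_Ici
  · exact measurableSet_Ioi

lemma Dom.nonneg (hD : Dom D) {x : ℝ} (hx : x ∈ D) : 0 ≤ x := by
  rcases hD with rfl | rfl
  · exact hx
  · exact le_of_lt hx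

lemma Dom.pos (hD : Dom D) {x : ℝ} (hx : 0 < x) : x ∈ D := by
  rcases hD with rfl | rfl
  · exact hx.le
  · exact hx

lemma Dom.up (hD : Dom D) {x y : ℝ} (hx : x ∈ D) (h : x ≤ y) : y ∈ D := by
  rcases hD with rfl | rfl
  · exact le_trans hx h
  · exact lt_of_lt_of_le hx h

lemma Dom.not_mem (hD : Dom D) {x : ℝ} (hx : x ∉ D) : x ≤ 0 := by
  by_contra h
  push Not at h
  exact hx (hD.pos h)

lemma Std.dual (h : Std ρ) : Std (dual ρ) := by
  have hm : Measurable (fun x : ℝ => -x) := measurable_neg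
  haveI := h.prob
  refine ⟨?_, ?_, ?_, ?_⟩
  · exact Measure.isProbabilityMeasure_map hm.aemeasurable
  · unfold BPT.dual
    rw [integrable_map_measure (by fun_prop) hm.aemeasurable]
    have : ((fun x : ℝ => x ^ 2) ∘ fun x => -x) = fun x : ℝ => x ^ 2 := by
      funext x; simp
    rw [this]
    exact h.int2
  · unfold BPT.dual
    rw [integral_map hm.aemeasurable (by fun_prop)]
    rw [integral_neg, h.mean, neg_zero]
  · unfold BPT.dual
    rw [integral_map hm.aemeasurable (by fun_prop)]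
    simp only [neg_sq]
    exact h.var

theorem measurable_S (k : ℕ) : Measurable (S k) := by
  unfold S
  exact Finset.measurable_sum _ fun i _ => measurable_pi_apply i

/-- jointly in the starting point -/
theorem measurableSet_alive' (hD : Dom D) (k : ℕ) :
    MeasurableSet {p : ℝ × (ℕ → ℝ) | Alive D p.1 k p.2} := by
  have : {p : ℝ × (ℕ → ℝ) | Alive D p.1 k p.2} =
      ⋂ j : ℕ, ⋂ (_ : 1 ≤ j), ⋂ (_ : j ≤ k), {p : ℝ × (ℕ → ℝ) | p.1 + S j p.2 ∈ D} := by
    ext p
    simp [Alive]
  rw [this]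
  refine MeasurableSet.iInter fun j => MeasurableSet.iInter fun _ => MeasurableSet.iInter fun _ => ?_
  exact (measurable_fst.add ((measurable_S j).comp measurable_snd)) hD.meas

theorem measurableSet_alive (hD : Dom D) (x : ℝ) (k : ℕ) : MeasurableSet {ω | Alive D x k ω} := by
  have h : Measurable fun ω : ℕ → ℝ => (x, ω) := measurable_const.prodMk measurable_id
  exact h (measurableSet_alive' hD k)

theorem S_shift (k l : ℕ) (ω : ℕ → ℝ) : S (k + l) ω = S k ω + S l (shift k ω) := by
  unfold S shift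
  rw [Finset.sum_range_add]

theorem alive_add (x : ℝ) (k l : ℕ) (ω : ℕ → ℝ) :
    Alive D x (k + l) ω ↔ Alive D x k ω ∧ Alive D (x + S k ω) l (shift k ω) := by
  unfold Alive
  constructor
  · intro h
    refine ⟨fun j h1 h2 => h j h1 (by omega), fun j h1 h2 => ?_⟩
    have := h (k + j) (by omega) (by omega)
    rw [S_shift] at this
    rwa [add_assoc]
  · rintro ⟨h, h'⟩ j h1 h2
    by_cases hj : j ≤ k
    · exact h j h1 hj
    · have := h' (j - k) (by omega) (by omega)
      rw [add_assoc, ← S_shift] at this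
      have h3 : k + (j - k) = j := by omega
      rwa [h3] at this

lemma A1_meas_add (k : ℕ) (x : ℝ) : Measurable fun ω : ℕ → ℝ => x + S k ω :=
  (measurable_S k).const_add x

lemma A1_meas_add' (k : ℕ) : Measurable fun p : ℝ × (ℕ → ℝ) => p.1 + S k p.2 :=
  measurable_fst.add ((measurable_S k).comp measurable_snd)

theorem measurable_kap (hD : Dom D) [IsProbabilityMeasure ρ] (k : ℕ) : Measurable (kap D ρ k) := by
  refine Measure.measurable_of_measurable_coe _ fun s hs => ?_
  have h1 : ∀ x, kap D ρ k x s =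
      seqLaw ρ (Prod.mk x ⁻¹' ({p : ℝ × (ℕ → ℝ) | p.1 + S k p.2 ∈ s} ∩
        {p : ℝ × (ℕ → ℝ) | Alive D p.1 k p.2})) := by
    intro x
    unfold kap
    rw [Measure.map_apply (A1_meas_add k x) hs,
      Measure.restrict_apply ((A1_meas_add k x) hs)]
    rfl
  simp_rw [h1]
  exact measurable_measure_prodMk_left
    (((A1_meas_add' k) hs).inter (measurableSet_alive' hD k))

theorem measurable_fre [IsProbabilityMeasure ρ] (k : ℕ) : Measurable (fre ρ k) := by
  refine Measure.measurable_of_measurable_coe _ fun s hs => ?_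
  have h1 : ∀ x, fre ρ k x s =
      seqLaw ρ (Prod.mk x ⁻¹' {p : ℝ × (ℕ → ℝ) | p.1 + S k p.2 ∈ s}) := by
    intro x
    unfold fre
    rw [Measure.map_apply (A1_meas_add k x) hs]
    rfl
  simp_rw [h1]
  exact measurable_measure_prodMk_left ((A1_meas_add' k) hs)

instance [IsProbabilityMeasure ρ] (k : ℕ) (x : ℝ) : IsProbabilityMeasure (fre ρ k x) := by
  unfold fre
  exact Measure.isProbabilityMeasure_map (A1_meas_add k x).aemeasurable

instance [IsProbabilityMeasure ρ] (k : ℕ) (x : ℝ) : IsFiniteMeasure (kap D ρ k x) := by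
  unfold kap
  infer_instance

theorem lintegral_kap_eq (hD : Dom D) [IsProbabilityMeasure ρ] (k : ℕ) (x : ℝ) (f : ℝ → ℝ≥0∞)
    (hf : Measurable f) :
    ∫⁻ y, f y ∂(kap D ρ k x) = ∫⁻ ω in {ω | Alive D x k ω}, f (x + S k ω) ∂(seqLaw ρ) := by
  have _ := hD
  unfold kap
  rw [lintegral_map hf (A1_meas_add k x)]

theorem integral_kap_eq (hD : Dom D) [IsProbabilityMeasure ρ] (k : ℕ) (x : ℝ) (f : ℝ → ℝ)
    (hf : Measurable f) :
    ∫ y, f y ∂(kap D ρ k x) = ∫ ω in {ω | Alive D x k ω}, f (x + S k ω) ∂(seqLaw ρ) := by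
  have _ := hD
  unfold kap
  rw [integral_map (A1_meas_add k x).aemeasurable hf.aestronglyMeasurable]

theorem kap_le_fre (hD : Dom D) [IsProbabilityMeasure ρ] (k : ℕ) (x : ℝ) : kap D ρ k x ≤ fre ρ k x := by
  have _ := hD
  unfold kap fre
  exact Measure.map_mono Measure.restrict_le_self (A1_meas_add k x)

theorem kap_univ_eq (hD : Dom D) [IsProbabilityMeasure ρ] (k : ℕ) (x : ℝ) :
    kap D ρ k x Set.univ = seqLaw ρ {ω | Alive D x k ω} := by
  have _ := hD
  unfold kap
  rw [Measure.map_apply (A1_meas_add k x) MeasurableSet.univ, Set.preimage_univ,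
    Measure.restrict_apply_univ]

theorem kap_univ_le_one [IsProbabilityMeasure ρ] (k : ℕ) (x : ℝ) : kap D ρ k x Set.univ ≤ 1 := by
  unfold kap
  rw [Measure.map_apply (A1_meas_add k x) MeasurableSet.univ, Set.preimage_univ,
    Measure.restrict_apply_univ]
  exact prob_le_one

lemma A1_alive_zero (x : ℝ) (ω : ℕ → ℝ) : Alive D x 0 ω := by
  intro j h1 h2
  omega

lemma A1_S_zero (ω : ℕ → ℝ) : S 0 ω = 0 := by
  simp [S]

theorem fre_zero [IsProbabilityMeasure ρ] (x : ℝ) : fre ρ 0 x = Measure.dirac x := by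
  unfold fre
  have : (fun ω : ℕ → ℝ => x + S 0 ω) = fun _ => x := by
    funext ω
    rw [A1_S_zero, add_zero]
  rw [this, Measure.map_const]
  simp

theorem kap_zero [IsProbabilityMeasure ρ] (x : ℝ) : kap D ρ 0 x = Measure.dirac x := by
  rw [← fre_zero (ρ := ρ) x]
  unfold kap fre
  have : {ω : ℕ → ℝ | Alive D x 0 ω} = Set.univ := by
    ext ω
    simp only [Set.mem_univ, iff_true]
    exact A1_alive_zero x ω
  rw [this, Measure.restrict_univ]

/-- the killed walk lives on `D` (also for `k = 0` if it starts there) -/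
theorem kap_compl (hD : Dom D) [IsProbabilityMeasure ρ] (k : ℕ) (x : ℝ) (h : 1 ≤ k ∨ x ∈ D) :
    kap D ρ k x Dᶜ = 0 := by
  by_cases hk : 1 ≤ k
  · unfold kap
    rw [Measure.map_apply (A1_meas_add k x) hD.meas.compl,
      Measure.restrict_apply ((A1_meas_add k x) hD.meas.compl)]
    have : (fun ω : ℕ → ℝ => x + S k ω) ⁻¹' Dᶜ ∩ {ω | Alive D x k ω} = ∅ := by
      ext ω
      simp only [Set.mem_inter_iff, Set.mem_preimage, Set.mem_compl_iff, Set.mem_empty_iff_false,
        iff_false, not_and, not_not]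
      intro h1 h2
      exact h1 (h2 k hk le_rfl)
    rw [this, measure_empty]
  · have hk0 : k = 0 := by omega
    subst hk0
    have hx : x ∈ D := by
      rcases h with h | h
      · omega
      · exact h
    rw [kap_zero, Measure.dirac_apply' _ hD.meas.compl]
    simp [hx]

end Pool.Agent.BPT
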