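import Pool.Agent.MP_99a865_pr.FV.A1c

open MeasureTheory ProbabilityTheory Filter Topology
open scoped ENNReal NNReal

namespace Pool.Agent.BPT

variable {D : Set ℝ} {ρ : Measure ℝ}

lemma B1_gauss_interval (a b : ℝ) (h : a ≤ b) :
    (gaussianReal 0 1).real (Set.Icc a b) ≤ (b - a) / 2 := by
  have h1 : (gaussianReal 0 1).real (Set.Icc a b) = ∫ x in Set.Icc a b, gaussianPDFReal 0 1 x := by
    rw [measureReal_def, gaussianReal_apply_eq_integral 0 one_ne_zero, ENNReal.toReal_ofReal]
    exact setIntegral_nonneg measurableSet_Icc fun x _ => gaussianPDFReal_nonneg 0 1 x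
  have hpdf : ∀ x, gaussianPDFReal 0 1 x ≤ 1 / 2 := by
    intro x
    rw [gaussianPDFReal_def]
    have h2 : (√(2 * Real.pi * ((1 : ℝ≥0) : ℝ)))⁻¹ ≤ 1 / 2 := by
      rw [one_div]
      apply inv_anti₀ (by norm_num)
      apply Real.le_sqrt_of_sq_le
      have := Real.pi_gt_three
      norm_num
      linarith
    have h3 : Real.exp (-(x - 0) ^ 2 / (2 * ((1 : ℝ≥0) : ℝ))) ≤ 1 := by
      rw [Real.exp_le_one_iff]
      have : 0 ≤ (x - 0) ^ 2 := sq_nonneg _
      norm_num
      linarith [sq_nonneg x]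
    calc (√(2 * Real.pi * ((1 : ℝ≥0) : ℝ)))⁻¹ * Real.exp (-(x - 0) ^ 2 / (2 * ((1 : ℝ≥0) : ℝ)))
        ≤ (1 / 2) * 1 := mul_le_mul h2 h3 (Real.exp_pos _).le (by norm_num)
      _ = 1 / 2 := mul_one _
  rw [h1]
  calc ∫ x in Set.Icc a b, gaussianPDFReal 0 1 x ≤ ∫ _x in Set.Icc a b, (1 / 2 : ℝ) := by
        refine setIntegral_mono (integrable_gaussianPDFReal 0 1).integrableOn ?_ hpdf
        exact integrableOn_const (by simp)
    _ = (b - a) / 2 := by
        rw [setIntegral_const, measureReal_def, Real.volume_Icc, ENNReal.toReal_ofReal (by linarith),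
          smul_eq_mul]
        ring

/-- `x ↦ Φ(x)` is continuous -/
lemma B1_cont : Continuous fun x : ℝ => (gaussianReal 0 1).real (Set.Iic x) := by
  have key : ∀ x y : ℝ, x ≤ y → |(gaussianReal 0 1).real (Set.Iic y) -
      (gaussianReal 0 1).real (Set.Iic x)| ≤ |y - x| := by
    intro x y hxy
    have h1 : (gaussianReal 0 1).real (Set.Iic y) - (gaussianReal 0 1).real (Set.Iic x) =
        (gaussianReal 0 1).real (Set.Iic y \ Set.Iic x) := by
      rw [measureReal_sdiff (Set.Iic_subset_Iic.mpr hxy) measurableSet_Iic]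
    have h2 : (gaussianReal 0 1).real (Set.Iic y \ Set.Iic x) ≤
        (gaussianReal 0 1).real (Set.Icc x y) := by
      refine measureReal_mono ?_ (measure_ne_top _ _)
      intro z hz
      simp only [Set.mem_sdiff, Set.mem_Iic, not_le] at hz
      exact ⟨hz.2.le, hz.1⟩
    have h3 := B1_gauss_interval x y hxy
    rw [h1, abs_of_nonneg measureReal_nonneg, abs_of_nonneg (by linarith)]
    linarith
  apply LipschitzWith.continuous (K := 1)
  apply LipschitzWith.of_dist_le_mul
  intro x y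
  rw [Real.dist_eq, Real.dist_eq, NNReal.coe_one, one_mul]
  rcases le_total x y with h | h
  · rw [abs_sub_comm, abs_sub_comm x y]; exact key x y h
  · exact key y x h

/-- Pólya's theorem -/
lemma B1_polya (F : ℕ → ℝ → ℝ) (Φ : ℝ → ℝ) (hF : ∀ k, Monotone (F k)) (hF0 : ∀ k x, 0 ≤ F k x)
    (hF1 : ∀ k x, F k x ≤ 1) (hΦ : Continuous Φ) (hΦm : Monotone Φ)
    (hbot : Tendsto Φ atBot (𝓝 0)) (htop : Tendsto Φ atTop (𝓝 1))
    (hlim : ∀ x, Tendsto (fun k => F k x) atTop (𝓝 (Φ x))) :
    ∀ ε > (0 : ℝ), ∃ K : ℕ, ∀ k ≥ K, ∀ x : ℝ, |F k x - Φ x| ≤ ε := by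
  intro ε hε
  obtain ⟨m, hm⟩ := exists_nat_gt (3 / ε)
  have hm0 : (0 : ℝ) < m := lt_trans (by positivity) hm
  have hm3 : 3 / (m : ℝ) < ε := by
    rw [div_lt_iff₀ hm0]
    rw [div_lt_iff₀ hε] at hm
    linarith
  have hΦ0 : ∀ x, 0 ≤ Φ x := fun x => ge_of_tendsto (hlim x) (Eventually.of_forall fun k => hF0 k x)
  have hΦ1 : ∀ x, Φ x ≤ 1 := fun x => le_of_tendsto (hlim x) (Eventually.of_forall fun k => hF1 k x)
  have hpt : ∀ i : ℕ, ∃ x, (1 ≤ i ∧ i < m) → Φ x = (i : ℝ) / m := by
    intro i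
    by_cases hi : 1 ≤ i ∧ i < m
    · have h0 : (0 : ℝ) < (i : ℝ) / m := by
        have : (0 : ℝ) < i := by exact_mod_cast hi.1
        positivity
      have h1 : (i : ℝ) / m < 1 := by
        rw [div_lt_one hm0]; exact_mod_cast hi.2
      obtain ⟨a, ha⟩ := (hbot.eventually (eventually_le_nhds h0)).exists
      obtain ⟨b, hb⟩ := (htop.eventually (eventually_ge_nhds h1)).exists
      obtain ⟨x, hx⟩ := mem_range_of_exists_le_of_exists_ge hΦ ⟨a, ha⟩ ⟨b, hb⟩
      exact ⟨x, fun _ => hx⟩
    · exact ⟨0, fun h => absurd h hi⟩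
  choose X hX using hpt
  have hev : ∀ᶠ k in atTop, ∀ i ∈ Finset.range m, |F k (X i) - Φ (X i)| < 1 / m := by
    rw [Filter.eventually_all_finset]
    intro i _
    have := (Metric.tendsto_nhds.mp (hlim (X i))) (1 / m) (by positivity)
    simpa [Real.dist_eq] using this
  obtain ⟨K, hK⟩ := eventually_atTop.mp hev
  refine ⟨K, fun k hk x => ?_⟩
  have hkX : ∀ i, i < m → |F k (X i) - Φ (X i)| < 1 / m := fun i hi =>
    hK k hk i (Finset.mem_range.mpr hi)
  have hrw3 : 3 / (m : ℝ) = 3 * (1 / m) := by ring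
  have hinv : (0 : ℝ) < 1 / m := by positivity
  set u : ℝ := 1 / (m : ℝ) with hu
  have hum : u * m = 1 := by rw [hu]; field_simp
  obtain ⟨i, hi1, hi2⟩ : ∃ i : ℕ, (i : ℝ) * u ≤ Φ x ∧ Φ x < ((i : ℝ) + 1) * u := by
    refine ⟨⌊Φ x * m⌋₊, ?_, ?_⟩
    · have := Nat.floor_le (mul_nonneg (hΦ0 x) hm0.le)
      calc ((⌊Φ x * m⌋₊ : ℕ) : ℝ) * u ≤ (Φ x * m) * u := mul_le_mul_of_nonneg_right this hinv.le
        _ = Φ x * (u * m) := by ring
        _ = Φ x := by rw [hum, mul_one]
    · have := Nat.lt_floor_add_one (Φ x * m)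
      calc Φ x = (Φ x * m) * u := by rw [mul_assoc, mul_comm (m : ℝ) u, hum, mul_one]
        _ < _ := mul_lt_mul_of_pos_right this hinv
  have hXv : ∀ j : ℕ, 1 ≤ j → j < m → Φ (X j) = (j : ℝ) * u := by
    intro j h1 h2
    rw [hX j ⟨h1, h2⟩, hu]; ring
  rw [abs_le]
  constructor
  · -- lower bound
    by_cases h : 2 ≤ i ∧ i - 1 < m
    · have hj : Φ (X (i - 1)) = ((i : ℝ) - 1) * u := by
        rw [hXv (i - 1) (by omega) h.2, Nat.cast_sub (by omega)]; simp
      have hlt : X (i - 1) < x := by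
        by_contra hc
        push Not at hc
        have := hΦm hc
        rw [hj] at this
        nlinarith
      have h1 := hF k hlt.le
      have h2 := (abs_lt.mp (hkX (i - 1) h.2)).1
      nlinarith
    · have him : ((i : ℝ)) ≤ m := by
        have : (i : ℝ) * u ≤ 1 := le_trans hi1 (hΦ1 x)
        by_contra hc
        push Not at hc
        have : (m : ℝ) * u < i * u := mul_lt_mul_of_pos_right hc hinv
        nlinarith
      have him' : i ≤ m := by exact_mod_cast him
      have : i ≤ 1 := by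
        by_contra hc
        apply h
        constructor <;> omega
      have h3 : (i : ℝ) ≤ 1 := by exact_mod_cast this
      have := hF0 k x
      nlinarith
  · -- upper bound
    by_cases h : i + 1 < m
    · have hj : Φ (X (i + 1)) = ((i : ℝ) + 1) * u := by
        rw [hXv (i + 1) (by omega) h]; push_cast; ring
      have hlt : x < X (i + 1) := by
        by_contra hc
        push Not at hc
        have := hΦm hc
        rw [hj] at this
        linarith
      have h1 := hF k hlt.le
      have h2 := (abs_lt.mp (hkX (i + 1) h)).2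
      nlinarith
    · have h3 : (m : ℝ) ≤ i + 1 := by
        have : m ≤ i + 1 := by omega
        exact_mod_cast this
      have := hF1 k x
      nlinarith

lemma B1_tend (hρ : Std ρ) (E : Set ℝ) (hE : MeasurableSet E)
    (hE' : (gaussianReal 0 1) (frontier E) = 0) :
    Tendsto (fun k : ℕ => (seqLaw ρ).real {ω | (√(k : ℝ))⁻¹ * S k ω ∈ E}) atTop
      (𝓝 ((gaussianReal 0 1).real E)) := by
  have := hρ.prob
  have hmp : ∀ i : ℕ, MeasurePreserving (fun ω : ℕ → ℝ => ω i) (seqLaw ρ) ρ := fun i =>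
    measurePreserving_eval_infinitePi (fun _ : ℕ => ρ) i
  have hlaw : HasLaw (id : ℝ → ℝ) (gaussianReal 0 1) (gaussianReal 0 1) :=
    ⟨aemeasurable_id, Measure.map_id⟩
  have hclt := tendstoInDistribution_inv_sqrt_mul_sum (X := fun i (ω : ℕ → ℝ) => ω i)
    (P := seqLaw ρ) hlaw ?_ ?_ ?_ ?_
  · have h := hclt.tendsto
    have h2 := ProbabilityMeasure.tendsto_measure_of_null_frontier_of_tendsto' h (E := E) (by
      show (Measure.map id (gaussianReal 0 1)) (frontier E) = 0
      rw [Measure.map_id]; exact hE')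
    have hfin : (Measure.map (id : ℝ → ℝ) (gaussianReal 0 1)) E ≠ ⊤ := by
      rw [Measure.map_id]; exact measure_ne_top _ _
    have h3 := (ENNReal.tendsto_toReal hfin).comp h2
    have e1 : ((Measure.map (id : ℝ → ℝ) (gaussianReal 0 1)) E).toReal =
        (gaussianReal 0 1).real E := by rw [Measure.map_id]; rfl
    rw [← e1]
    refine Tendsto.congr (fun k => ?_) h3
    show ((Measure.map (fun ω : ℕ → ℝ => (√(k : ℝ))⁻¹ * ∑ i ∈ Finset.range k, ω i)
      (seqLaw ρ)) E).toReal = _
    rw [Measure.map_apply_of_aemeasurable (hclt.forall_aemeasurable k) hE]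
    rfl
  · have h := (hmp 0).map_eq
    show ∫ ω, ω 0 ∂(seqLaw ρ) = 0
    have e := integral_map (μ := seqLaw ρ) (φ := fun ω : ℕ → ℝ => ω 0) (f := fun x : ℝ => x)
      (hmp 0).measurable.aemeasurable (by fun_prop)
    rw [h] at e
    rw [← e]; exact hρ.mean
  · have h := (hmp 0).map_eq
    show ∫ ω, ((fun ω : ℕ → ℝ => ω 0) ^ 2) ω ∂(seqLaw ρ) = 1
    have e := integral_map (μ := seqLaw ρ) (φ := fun ω : ℕ → ℝ => ω 0) (f := fun x : ℝ => x ^ 2)
      (hmp 0).measurable.aemeasurable (by fun_prop)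
    rw [h] at e
    simp only [Pi.pow_apply]
    rw [← e]; exact hρ.var
  · exact iIndepFun_infinitePi (P := fun _ : ℕ => ρ) (X := fun _ x => x) (fun _ => measurable_id)
  · intro i
    exact ⟨(hmp i).measurable.aemeasurable, (hmp 0).measurable.aemeasurable,
      by rw [(hmp i).map_eq, (hmp 0).map_eq]⟩

/-- **[FV-B1]** Uniform convergence of distribution functions in the central limit theorem.
PROOF. The central limit theorem of Mathlib (`tendstoInDistribution_inv_sqrt_mul_sum`, for the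
coordinates of `seqLaw ρ`, which are i.i.d. with mean 0 and second moment 1) gives convergence in
distribution of `S_k/√k` to `N(0,1)`, hence (portmanteau, the gaussian has no atoms) pointwise
convergence of both `P(S_k ≤ x√k)` and `P(S_k < x√k)` to the continuous function `Φ`. Pólya: given
`ε`, choose `x₁ < … < x_r` with `Φ(x₁) ≤ ε/4`, `1 - Φ(x_r) ≤ ε/4`, `Φ(x_{i+1}) - Φ(x_i) ≤ ε/4`; from
some `K` on the distribution functions are within `ε/4` of `Φ` at the `x_i`; conclude by monotonicity. -/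
theorem polya (hρ : Std ρ) : ∀ ε > (0 : ℝ), ∃ K : ℕ, ∀ k ≥ K, ∀ x : ℝ,
    |(seqLaw ρ).real {ω | S k ω ≤ x * √k} - (gaussianReal 0 1).real (Set.Iic x)| ≤ ε ∧
    |(seqLaw ρ).real {ω | S k ω < x * √k} - (gaussianReal 0 1).real (Set.Iic x)| ≤ ε := by
  have := hρ.prob
  have hna : ∀ y : ℝ, (gaussianReal 0 1) {y} = 0 := by
    intro y
    have := nullSingletonClass_gaussianReal (μ := 0) (v := 1) one_ne_zero
    exact measure_singleton y
  have hbot : Tendsto (fun x : ℝ => (gaussianReal 0 1).real (Set.Iic x)) atBot (𝓝 0) := by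
    have h := tendsto_cdf_atBot (gaussianReal 0 1)
    refine h.congr fun x => cdf_eq_real _ _
  have htop : Tendsto (fun x : ℝ => (gaussianReal 0 1).real (Set.Iic x)) atTop (𝓝 1) := by
    have h := tendsto_cdf_atTop (gaussianReal 0 1)
    refine h.congr fun x => cdf_eq_real _ _
  have hmono : Monotone fun x : ℝ => (gaussianReal 0 1).real (Set.Iic x) := fun x y hxy =>
    measureReal_mono (Set.Iic_subset_Iic.mpr hxy) (measure_ne_top _ _)
  have hsq : ∀ k : ℕ, 1 ≤ k → 0 < √(k : ℝ) := fun k hk => Real.sqrt_pos.mpr (by exact_mod_cast hk)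
  have h1 := B1_polya (fun k x => (seqLaw ρ).real {ω | S k ω ≤ x * √k})
    (fun x => (gaussianReal 0 1).real (Set.Iic x))
    (fun k x y hxy => measureReal_mono (fun ω (hω : S k ω ≤ x * √k) =>
      le_trans hω (mul_le_mul_of_nonneg_right hxy (Real.sqrt_nonneg _))) (measure_ne_top _ _))
    (fun k x => measureReal_nonneg) (fun k x => measureReal_le_one) B1_cont hmono hbot htop
    (fun x => by
      have h := B1_tend hρ (Set.Iic x) measurableSet_Iic (by rw [frontier_Iic]; exact hna x)
      refine Tendsto.congr' ?_ h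
      filter_upwards [eventually_ge_atTop 1] with k hk
      congr 1
      ext ω
      simp only [Set.mem_ofPred_eq, Set.mem_Iic]
      rw [inv_mul_le_iff₀ (hsq k hk), mul_comm])
  have h2 := B1_polya (fun k x => (seqLaw ρ).real {ω | S k ω < x * √k})
    (fun x => (gaussianReal 0 1).real (Set.Iic x))
    (fun k x y hxy => measureReal_mono (fun ω (hω : S k ω < x * √k) =>
      lt_of_lt_of_le hω (mul_le_mul_of_nonneg_right hxy (Real.sqrt_nonneg _))) (measure_ne_top _ _))
    (fun k x => measureReal_nonneg) (fun k x => measureReal_le_one) B1_cont hmono hbot htop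
    (fun x => by
      have h := B1_tend hρ (Set.Iio x) measurableSet_Iio (by rw [frontier_Iio]; exact hna x)
      have e : (gaussianReal 0 1).real (Set.Iio x) = (gaussianReal 0 1).real (Set.Iic x) := by
        have : Set.Iic x \ {x} = Set.Iio x := by
          ext y; simp only [Set.mem_sdiff, Set.mem_Iic, Set.mem_singleton_iff, Set.mem_Iio]
          exact (lt_iff_le_and_ne).symm
        rw [← this, measureReal_def, measureReal_def, measure_sdiff_null (hna x)]
      rw [e] at h
      refine Tendsto.congr' ?_ h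
      filter_upwards [eventually_ge_atTop 1] with k hk
      congr 1
      ext ω
      simp only [Set.mem_ofPred_eq, Set.mem_Iio]
      rw [inv_mul_lt_iff₀ (hsq k hk), mul_comm])
  intro ε hε
  obtain ⟨K1, hK1⟩ := h1 ε hε
  obtain ⟨K2, hK2⟩ := h2 ε hε
  exact ⟨max K1 K2, fun k hk x => ⟨hK1 k (le_trans (le_max_left _ _) hk) x,
    hK2 k (le_trans (le_max_right _ _) hk) x⟩⟩

/-- the gaussian puts mass at most `(b - a)/2` on an interval (density ≤ 0.4) -/
theorem gauss_interval (a b : ℝ) (h : a ≤ b) :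
    (gaussianReal 0 1).real (Set.Icc a b) ≤ (b - a) / 2 :=
  B1_gauss_interval a b h

end Pool.Agent.BPT
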