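import Pool.Agent.MP_99a865_pr.FV.A6
import Pool.Agent.MP_99a865_pr.FV.B1

open MeasureTheory ProbabilityTheory Filter Topology
open scoped ENNReal NNReal

namespace Pool.Agent.BPT

variable {D : Set ℝ} {ρ : Measure ℝ}

lemma A7_gauss (a : ℝ) (ha : 0 ≤ a) : (1 - a) / 2 ≤ (gaussianReal 0 1).real (Set.Iic (-a)) := by
  have h1 : (gaussianReal 0 1).real (Set.Ici a) = (gaussianReal 0 1).real (Set.Iic (-a)) := by
    have h := gaussianReal_map_neg (μ := (0 : ℝ)) (v := 1)
    rw [neg_zero] at h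
    rw [Measure.real, ← h, Measure.map_apply measurable_neg measurableSet_Ici, h]
    rw [Measure.real]
    congr 2
    ext x
    simp only [Set.mem_preimage, Set.mem_Ici, Set.mem_Iic]
    constructor <;> intro h <;> linarith
  have h2 := gauss_interval (-a) a (by linarith)
  have h3 : (1 : ℝ) ≤ (gaussianReal 0 1).real (Set.Iic (-a)) +
      (gaussianReal 0 1).real (Set.Icc (-a) a) + (gaussianReal 0 1).real (Set.Ici a) := by
    have h4 : (gaussianReal 0 1).real Set.univ = 1 := by simp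
    rw [← h4]
    have h5 : (Set.univ : Set ℝ) ⊆ (Set.Iic (-a) ∪ Set.Icc (-a) a) ∪ Set.Ici a := by
      intro x _
      rcases le_total x (-a) with h | h
      · exact Or.inl (Or.inl h)
      · rcases le_total x a with h' | h'
        · exact Or.inl (Or.inr ⟨h, h'⟩)
        · exact Or.inr h'
    refine (measureReal_mono h5).trans ((measureReal_union_le _ _).trans ?_)
    gcongr
    exact measureReal_union_le _ _
  linarith

lemma A7_anti (hD : Dom D) [IsProbabilityMeasure ρ] {k l : ℕ} (h : k ≤ l) (x : ℝ) :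
    kap D ρ l x Set.univ ≤ kap D ρ k x Set.univ := by
  rw [kap_univ_eq hD, kap_univ_eq hD]
  exact measure_mono fun ω hω j h1 h2 => hω j h1 (h2.trans h)

lemma A7_low (hD : Dom D) (hρ : Std ρ) : ∃ K : ℕ, 10 ≤ K ∧ ∀ k ≥ K, ∀ w : ℝ, w ≤ √k / 10 →
    kap D ρ k w Set.univ ≤ ENNReal.ofReal (6 / 10) := by
  have := hρ.prob
  obtain ⟨K, hK⟩ := polya hρ (1 / 20) (by norm_num)
  refine ⟨max K 10, le_max_right _ _, fun k hk w hw => ?_⟩
  have hkK : K ≤ k := (le_max_left _ _).trans hk
  have hk1 : 1 ≤ k := by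
    have := (le_max_right K 10).trans hk
    omega
  have h1 := (abs_le.1 (hK k hkK (-(1 / 10))).2).1
  have h2 := A7_gauss (1 / 10) (by norm_num)
  have h3 : (45 : ℝ) / 100 - 1 / 20 ≤ (seqLaw ρ).real {ω | S k ω < -(1 / 10) * √k} := by
    have : ((1 : ℝ) - 1 / 10) / 2 = 45 / 100 := by norm_num
    rw [this] at h2
    linarith
  rw [kap_univ_eq hD]
  have hdis : Disjoint {ω | Alive D w k ω} {ω : ℕ → ℝ | S k ω < -(1 / 10) * √k} := by
    rw [Set.disjoint_left]
    intro ω h4 h5
    have h6 := hD.nonneg (h4 k hk1 le_rfl)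
    have h7 : S k ω < -(1 / 10) * √k := h5
    linarith
  have hm : MeasurableSet {ω : ℕ → ℝ | S k ω < -(1 / 10) * √k} :=
    measurableSet_lt (measurable_S k) measurable_const
  have h4 : (seqLaw ρ).real {ω | Alive D w k ω} +
      (seqLaw ρ).real {ω : ℕ → ℝ | S k ω < -(1 / 10) * √k} ≤ 1 := by
    rw [← measureReal_union hdis hm]
    exact measureReal_le_one
  rw [← ENNReal.ofReal_toReal (measure_ne_top (seqLaw ρ) _)]
  refine ENNReal.ofReal_le_ofReal ?_
  change (seqLaw ρ).real {ω | Alive D w k ω} ≤ _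
  linarith

lemma A7_step (hD : Dom D) (hρ : Std ρ) (C₁ : ℝ≥0)
    (hC : ∀ (k : ℕ) (x : ℝ), 0 ≤ x → ee D ρ k x ≤ C₁ * ENNReal.ofReal (1 + x)) (k : ℕ) (hk : 1 ≤ k)
    (hlow : ∀ w : ℝ, w ≤ √k / 10 → kap D ρ k w Set.univ ≤ ENNReal.ofReal (6 / 10)) (x : ℝ)
    (hx : 0 ≤ x) :
    (kap D ρ (k + k) x).real Set.univ ≤
      10 * C₁ * (1 + x) / √k + 6 / 10 * (kap D ρ k x).real Set.univ := by
  have := hρ.prob
  have hsk : (0 : ℝ) < √k := Real.sqrt_pos.2 (by exact_mod_cast hk)
  set A : Set ℝ := Set.Ici (√k / 10) with hA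
  have h1 : kap D ρ (k + k) x Set.univ ≤
      kap D ρ k x A + ENNReal.ofReal (6 / 10) * kap D ρ k x Set.univ := by
    rw [kap_add_apply hD k k x Set.univ MeasurableSet.univ]
    calc ∫⁻ w, kap D ρ k w Set.univ ∂(kap D ρ k x)
        ≤ ∫⁻ w, A.indicator (fun _ => (1 : ℝ≥0∞)) w + ENNReal.ofReal (6 / 10) ∂(kap D ρ k x) := by
          refine lintegral_mono fun w => ?_
          by_cases hw : w ∈ A
          · rw [Set.indicator_of_mem hw]
            exact (kap_univ_le_one k w).trans le_self_add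
          · rw [Set.indicator_of_notMem hw, zero_add]
            exact hlow w (le_of_lt (not_le.1 hw))
      _ = _ := by
          rw [lintegral_add_right _ measurable_const, lintegral_indicator measurableSet_Ici]
          simp [hA]
  have h2 : ENNReal.ofReal (√k / 10) * kap D ρ k x A ≤ C₁ * ENNReal.ofReal (1 + x) := by
    refine le_trans ?_ (hC k x hx)
    have h3 := mul_meas_ge_le_lintegral (μ := kap D ρ k x) ENNReal.measurable_ofReal
      (ENNReal.ofReal (√k / 10))
    refine le_trans ?_ h3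
    gcongr
    intro w hw
    exact ENNReal.ofReal_le_ofReal hw
  have h3 : (√k / 10) * (kap D ρ k x).real A ≤ C₁ * (1 + x) := by
    have h4 := ENNReal.toReal_mono (ENNReal.mul_ne_top ENNReal.coe_ne_top ENNReal.ofReal_ne_top) h2
    rw [ENNReal.toReal_mul, ENNReal.toReal_mul, ENNReal.toReal_ofReal (by positivity),
      ENNReal.toReal_ofReal (by positivity)] at h4
    exact h4
  have h4 : (kap D ρ k x).real A ≤ 10 * C₁ * (1 + x) / √k := by
    rw [le_div_iff₀ hsk]
    linarith
  have h5 : (kap D ρ (k + k) x).real Set.univ ≤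
      (kap D ρ k x).real A + 6 / 10 * (kap D ρ k x).real Set.univ := by
    have h6 := ENNReal.toReal_mono (ENNReal.add_ne_top.2 ⟨measure_ne_top _ _,
      ENNReal.mul_ne_top ENNReal.ofReal_ne_top (measure_ne_top _ _)⟩) h1
    rw [ENNReal.toReal_add (measure_ne_top _ _) (ENNReal.mul_ne_top ENNReal.ofReal_ne_top
      (measure_ne_top _ _)), ENNReal.toReal_mul, ENNReal.toReal_ofReal (by norm_num)] at h6
    exact h6
  linarith

/-- **[FV-A7]** Survival probability. -/
theorem surv (hD : Dom D) (hρ : Std ρ) : ∃ C > (0 : ℝ), ∀ k : ℕ, 1 ≤ k → ∀ x : ℝ, 0 ≤ x →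
    (kap D ρ k x).real Set.univ ≤ C * (1 + x) / √k := by
  have := hρ.prob
  obtain ⟨C₁, hC₁⟩ := ee_bound hD hρ
  obtain ⟨K, hK10, hK⟩ := A7_low hD hρ
  set C : ℝ := 112 * C₁ + √(2 * K) + 1 with hCdef
  have hC₁0 : (0 : ℝ) ≤ C₁ := C₁.2
  have hCpos : 0 < C := by positivity
  refine ⟨C, hCpos, ?_⟩
  intro k
  induction k using Nat.strong_induction_on with
  | _ k ih =>
    intro hk x hx
    have hkpos : (0 : ℝ) < √k := Real.sqrt_pos.2 (by exact_mod_cast hk)
    rcases Nat.lt_or_ge (2 * K) k with h | h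
    · have hj1 : K ≤ k / 2 := by omega
      set j := k / 2 with hj
      have hjpos : (0 : ℝ) < √j := Real.sqrt_pos.2 (by
        have : 0 < j := by omega
        exact_mod_cast this)
      have h1 := A7_step hD hρ C₁ hC₁ j (by omega) (hK j hj1) x hx
      have h2 := ih j (by omega) (by omega) x hx
      have h3 : (kap D ρ k x).real Set.univ ≤ (kap D ρ (j + j) x).real Set.univ :=
        ENNReal.toReal_mono (measure_ne_top _ _) (A7_anti hD (by omega) x)
      have h4 : √k ≤ 1.45 * √j := by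
        rw [Real.sqrt_le_left (by positivity), mul_pow, Real.sq_sqrt (Nat.cast_nonneg _)]
        have h5 : (k : ℝ) ≤ 2 * j + 1 := by exact_mod_cast (by omega : k ≤ 2 * j + 1)
        have h6 : (10 : ℝ) ≤ j := by exact_mod_cast (by omega : 10 ≤ j)
        norm_num
        linarith
      have h5 : (kap D ρ k x).real Set.univ ≤ (10 * C₁ + 6 / 10 * C) * (1 + x) / √j := by
        calc (kap D ρ k x).real Set.univ
            ≤ 10 * C₁ * (1 + x) / √j + 6 / 10 * (kap D ρ j x).real Set.univ := h3.trans h1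
          _ ≤ 10 * C₁ * (1 + x) / √j + 6 / 10 * (C * (1 + x) / √j) := by gcongr
          _ = _ := by ring
      refine h5.trans ?_
      rw [div_le_div_iff₀ hjpos hkpos]
      have h7 : (10 * C₁ + 6 / 10 * C) * 1.45 ≤ C := by
        have : 0 ≤ √(2 * (K : ℝ)) := Real.sqrt_nonneg _
        have e : (10 * C₁ + 6 / 10 * C) * 1.45 = 14.5 * C₁ + 0.87 * C := by ring
        rw [e]
        have e2 : 14.5 * (C₁ : ℝ) ≤ 0.13 * C := by
          rw [hCdef]
          nlinarith
        linarith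
      have h8 : 0 ≤ (10 * C₁ + 6 / 10 * C) * (1 + x) := by positivity
      calc (10 * C₁ + 6 / 10 * C) * (1 + x) * √k
          ≤ (10 * C₁ + 6 / 10 * C) * (1 + x) * (1.45 * √j) := by gcongr
        _ = ((10 * C₁ + 6 / 10 * C) * 1.45) * (1 + x) * √j := by ring
        _ ≤ C * (1 + x) * √j := by gcongr
    · have h1 : (kap D ρ k x).real Set.univ ≤ 1 := by
        have := ENNReal.toReal_mono ENNReal.one_ne_top (kap_univ_le_one (D := D) (ρ := ρ) k x)
        rw [ENNReal.toReal_one] at this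
        exact this
      refine h1.trans ?_
      rw [le_div_iff₀ hkpos, one_mul]
      have h2 : √k ≤ √(2 * K) := Real.sqrt_le_sqrt (by exact_mod_cast h)
      calc √k ≤ C * 1 := by rw [hCdef]; nlinarith
        _ ≤ C * (1 + x) := by gcongr; linarith

end Pool.Agent.BPT
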