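import Pool.Agent.MP_99a865_pr.FV.A4
import Pool.Agent.MP_99a865_pr.FV.A7

open MeasureTheory ProbabilityTheory Filter Topology
open scoped ENNReal NNReal

namespace Pool.Agent.BPT

variable {D : Set ℝ} {ρ : Measure ℝ}

lemma A9_ae_nonneg (hD : Dom D) [IsProbabilityMeasure ρ] (k : ℕ) (x : ℝ) (hx : 0 ≤ x) :
    ∀ᵐ y ∂(kap D ρ k x), 0 ≤ y := by
  rcases Nat.eq_zero_or_pos k with rfl | hk
  · rw [kap_zero]
    rw [ae_dirac_iff (measurableSet_Ici (a := (0 : ℝ)))]
    exact hx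
  · have hae : ∀ᵐ w ∂(kap D ρ k x), w ∈ D :=
      mem_ae_iff.mpr (kap_compl hD (ρ := ρ) k x (Or.inl hk))
    filter_upwards [hae] with w hw
    exact hD.nonneg hw

lemma A9_real_univ_le [IsProbabilityMeasure ρ] (k : ℕ) (x : ℝ) :
    (kap D ρ k x).real Set.univ ≤ 1 := by
  have := ENNReal.toReal_mono ENNReal.one_ne_top (kap_univ_le_one (D := D) (ρ := ρ) k x)
  simpa [Measure.real] using this

lemma A9_sq (hρ : Std ρ) (y : ℝ) :
    ∫⁻ u, ENNReal.ofReal ((y + u) ^ 2) ∂ρ = ENNReal.ofReal (y ^ 2 + 1) := by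
  haveI := hρ.prob
  have hi1 : Integrable (fun x : ℝ => x) ρ := by
    have h2 : MemLp (fun x : ℝ => x) 2 ρ :=
      (memLp_two_iff_integrable_sq (f := fun x : ℝ => x) (by fun_prop)).mpr hρ.int2
    exact h2.integrable (by norm_num)
  have hi : Integrable (fun u : ℝ => (y + u) ^ 2) ρ := by
    have : (fun u : ℝ => (y + u) ^ 2) = fun u => (y ^ 2 + (2 * y) * u) + u ^ 2 := by
      funext u; ring
    rw [this]
    exact ((integrable_const _).add (hi1.const_mul _)).add hρ.int2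
  rw [← ofReal_integral_eq_lintegral_ofReal hi (Filter.Eventually.of_forall fun u => sq_nonneg _)]
  congr 1
  have : (fun u : ℝ => (y + u) ^ 2) = fun u => (y ^ 2 + (2 * y) * u) + u ^ 2 := by
    funext u; ring
  have e1 := integral_add (μ := ρ) (f := fun u : ℝ => y ^ 2 + (2 * y) * u) (g := fun u : ℝ => u ^ 2)
    ((integrable_const _).add (hi1.const_mul _)) hρ.int2
  have e2 := integral_add (μ := ρ) (f := fun _ : ℝ => y ^ 2) (g := fun u : ℝ => (2 * y) * u)
    (integrable_const _) (hi1.const_mul _)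
  rw [this, e1, e2, integral_const_mul, hρ.mean, hρ.var]
  simp

lemma A9_step (hD : Dom D) (hρ : Std ρ) (k : ℕ) (x : ℝ) :
    ∫⁻ y, ENNReal.ofReal (y ^ 2) ∂(kap D ρ (k + 1) x) ≤
      ∫⁻ y, ENNReal.ofReal (y ^ 2) ∂(kap D ρ k x) + kap D ρ k x Set.univ := by
  haveI := hρ.prob
  have hf : Measurable fun y : ℝ => ENNReal.ofReal (y ^ 2) := by fun_prop
  rw [lintegral_kap_add hD k 1 x _ hf]
  calc ∫⁻ y, ∫⁻ z, ENNReal.ofReal (z ^ 2) ∂(kap D ρ 1 y) ∂(kap D ρ k x)
      ≤ ∫⁻ y, (ENNReal.ofReal (y ^ 2) + 1) ∂(kap D ρ k x) := by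
        refine lintegral_mono fun y => ?_
        rw [lintegral_kap_one hD y _ hf]
        refine (setLIntegral_le_lintegral _ _).trans ?_
        rw [A9_sq hρ y, ENNReal.ofReal_add (sq_nonneg _) zero_le_one, ENNReal.ofReal_one]
    _ = ∫⁻ y, ENNReal.ofReal (y ^ 2) ∂(kap D ρ k x) + kap D ρ k x Set.univ := by
        rw [lintegral_add_right _ measurable_const, lintegral_const, one_mul]

lemma A9_sqrt (k : ℕ) (hk : 1 ≤ k) : 1 / (3 * √(k : ℝ)) ≤ √((k : ℝ) + 1) - √(k : ℝ) := by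
  have hk1 : (1 : ℝ) ≤ k := by exact_mod_cast hk
  have hs : 0 < √(k : ℝ) := Real.sqrt_pos.mpr (by linarith)
  have h1 : √((k : ℝ) + 1) ≤ 2 * √(k : ℝ) := by
    rw [Real.sqrt_le_left (by positivity)]
    rw [mul_pow, Real.sq_sqrt (by linarith)]
    linarith
  have h2 : (√((k : ℝ) + 1) - √(k : ℝ)) * (√((k : ℝ) + 1) + √(k : ℝ)) = 1 := by
    have e1 := Real.sq_sqrt (show (0 : ℝ) ≤ (k : ℝ) + 1 by linarith)
    have e2 := Real.sq_sqrt (show (0 : ℝ) ≤ (k : ℝ) by linarith)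
    nlinarith
  have h3 : 0 < √((k : ℝ) + 1) - √(k : ℝ) := by
    have : √(k : ℝ) < √((k : ℝ) + 1) := Real.sqrt_lt_sqrt (by linarith) (by linarith)
    linarith
  rw [div_le_iff₀ (by positivity)]
  nlinarith

/-- (i) -/
lemma A9_i (hD : Dom D) (hρ : Std ρ) : ∃ A ≥ (1 : ℝ), ∀ (k : ℕ) (x : ℝ), 0 ≤ x →
    ∫⁻ y, ENNReal.ofReal (y ^ 2) ∂(kap D ρ k x) ≤ ENNReal.ofReal (x ^ 2 + A * (1 + x) * √k) := by
  haveI := hρ.prob
  obtain ⟨C1, hC1, hs⟩ := surv hD hρ
  refine ⟨3 * C1 + 1, by linarith, fun k x hx => ?_⟩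
  induction k with
  | zero =>
    rw [kap_zero, lintegral_dirac' _ (by fun_prop)]
    simp
  | succ k ih =>
    refine (A9_step hD hρ k x).trans ?_
    have h1 : kap D ρ k x Set.univ = ENNReal.ofReal ((kap D ρ k x).real Set.univ) := by
      rw [ofReal_measureReal]
    have h2 : (kap D ρ k x).real Set.univ ≤
        (3 * C1 + 1) * (1 + x) * (√((k + 1 : ℕ) : ℝ) - √(k : ℝ)) := by
      push_cast
      rcases Nat.eq_zero_or_pos k with rfl | hk
      · simp only [Nat.cast_zero, zero_add, Real.sqrt_one, Real.sqrt_zero, sub_zero, mul_one]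
        refine (A9_real_univ_le 0 x).trans ?_
        nlinarith
      · refine (hs k hk x hx).trans ?_
        have h3 := A9_sqrt k hk
        have hk1 : (1 : ℝ) ≤ k := by exact_mod_cast hk
        have hsp : 0 < √(k : ℝ) := Real.sqrt_pos.mpr (by linarith)
        calc C1 * (1 + x) / √(k : ℝ) = (3 * C1) * (1 + x) * (1 / (3 * √(k : ℝ))) := by
              field_simp
          _ ≤ (3 * C1 + 1) * (1 + x) * (1 / (3 * √(k : ℝ))) := by
              gcongr
              linarith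
          _ ≤ (3 * C1 + 1) * (1 + x) * (√((k : ℝ) + 1) - √(k : ℝ)) := by
              gcongr
    calc ∫⁻ y, ENNReal.ofReal (y ^ 2) ∂(kap D ρ k x) + kap D ρ k x Set.univ
        ≤ ENNReal.ofReal (x ^ 2 + (3 * C1 + 1) * (1 + x) * √k) +
          ENNReal.ofReal ((3 * C1 + 1) * (1 + x) * (√((k + 1 : ℕ) : ℝ) - √(k : ℝ))) := by
          rw [h1]
          exact add_le_add ih (ENNReal.ofReal_le_ofReal h2)
      _ = ENNReal.ofReal (x ^ 2 + (3 * C1 + 1) * (1 + x) * √((k + 1 : ℕ) : ℝ)) := by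
          rw [← ENNReal.ofReal_add (by positivity) (measureReal_nonneg.trans h2)]
          congr 1
          ring

/-- **[FV-A9]** Second moments. PROOF.
(i) `E_x[S_{k+1}²; N > k+1] ≤ E_x[(S_k + X)²; N > k] = E_x[S_k²; N > k] + p_k(x)`, so
`E_x[S_k²; N > k] ≤ x² + ∑_{i<k} p_i(x) ≤ x² + 1 + ∑_{1≤i<k} C(1+x)/√i ≤ x² + C'(1+x)√k` for `k ≥ 1`
(and `= x²` for `k = 0`).
(ii) expand `(S_k - x)² = S_k² - 2 x S_k + x²` and use (i), `E_x[S_k; N>k] ≥ x` (`le_ee`), `p_k ≤ 1`.
(iii) if `x ≤ s` use `min (y²/s) y ≤ y²/s` and (i) (`min(x²/s, x) = x²/s`); if `x > s` use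
`min (y²/s) y ≤ y`, `ee_bound` and `1 + x ≤ 2x = 2 min(x²/s, x)` (`x > s ≥ 1`). -/
theorem mom2 (hD : Dom D) (hρ : Std ρ) : ∃ C > (0 : ℝ), ∀ (k : ℕ) (x : ℝ), 0 ≤ x →
    (∫⁻ y, ENNReal.ofReal (y ^ 2) ∂(kap D ρ k x) ≤ ENNReal.ofReal (x ^ 2 + C * (1 + x) * √k)) ∧
    (∫⁻ y, ENNReal.ofReal ((y - x) ^ 2) ∂(kap D ρ k x) ≤ ENNReal.ofReal (C * (1 + x) * √k)) ∧
    (∀ s : ℝ, 1 ≤ s → ∫⁻ y, ENNReal.ofReal (min (y ^ 2 / s) y) ∂(kap D ρ k x) ≤
      ENNReal.ofReal (C * (min (x ^ 2 / s) x + (1 + x) * √k / s))) := by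
  haveI := hρ.prob
  obtain ⟨A, hA, hi⟩ := A9_i hD hρ
  obtain ⟨C0, h0⟩ := ee_bound hD hρ
  have hC0 : (0 : ℝ) ≤ C0 := C0.2
  refine ⟨A + 2 * C0, by linarith, fun k x hx => ⟨?_, ?_, ?_⟩⟩
  · refine (hi k x hx).trans (ENNReal.ofReal_le_ofReal ?_)
    have : A * (1 + x) * √(k : ℝ) ≤ (A + 2 * C0) * (1 + x) * √(k : ℝ) := by
      gcongr
      linarith
    linarith
  · have hm1 : Measurable fun y : ℝ => ENNReal.ofReal ((y - x) ^ 2) := by fun_prop
    have hm2 : Measurable fun y : ℝ => ENNReal.ofReal y := by fun_prop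
    have e1 : ∫⁻ y, ENNReal.ofReal ((y - x) ^ 2) ∂(kap D ρ k x) +
        ENNReal.ofReal (2 * x) * ee D ρ k x =
        ∫⁻ y, ENNReal.ofReal (y ^ 2) ∂(kap D ρ k x) +
          ENNReal.ofReal (x ^ 2) * kap D ρ k x Set.univ := by
      unfold ee
      rw [← lintegral_const_mul _ hm2, ← lintegral_const, ← lintegral_add_left hm1,
        ← lintegral_add_right _ measurable_const]
      refine lintegral_congr_ae ?_
      filter_upwards [A9_ae_nonneg hD (ρ := ρ) k x hx] with y hy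
      rw [← ENNReal.ofReal_mul (by positivity), ← ENNReal.ofReal_add (sq_nonneg _) (by positivity),
        ← ENNReal.ofReal_add (sq_nonneg _) (sq_nonneg _)]
      congr 1
      ring
    have e2 : ENNReal.ofReal (2 * x ^ 2) ≤ ENNReal.ofReal (2 * x) * ee D ρ k x := by
      calc ENNReal.ofReal (2 * x ^ 2) = ENNReal.ofReal (2 * x) * ENNReal.ofReal x := by
            rw [← ENNReal.ofReal_mul (by positivity)]
            congr 1
            ring
        _ ≤ _ := mul_le_mul_right (le_ee hD hρ k x hx) _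
    have e3 : ∫⁻ y, ENNReal.ofReal ((y - x) ^ 2) ∂(kap D ρ k x) + ENNReal.ofReal (2 * x ^ 2) ≤
        ENNReal.ofReal (A * (1 + x) * √k) + ENNReal.ofReal (2 * x ^ 2) := by
      calc _ ≤ ∫⁻ y, ENNReal.ofReal ((y - x) ^ 2) ∂(kap D ρ k x) +
            ENNReal.ofReal (2 * x) * ee D ρ k x := add_le_add le_rfl e2
        _ = _ := e1
        _ ≤ ENNReal.ofReal (x ^ 2 + A * (1 + x) * √k) + ENNReal.ofReal (x ^ 2) * 1 :=
            add_le_add (hi k x hx) (mul_le_mul_right (kap_univ_le_one k x) _)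
        _ = ENNReal.ofReal (A * (1 + x) * √k) + ENNReal.ofReal (2 * x ^ 2) := by
            rw [mul_one, ← ENNReal.ofReal_add (by positivity) (by positivity),
              ← ENNReal.ofReal_add (by positivity) (by positivity)]
            congr 1
            ring
    have e4 := (ENNReal.add_le_add_iff_right ENNReal.ofReal_ne_top).mp e3
    refine e4.trans (ENNReal.ofReal_le_ofReal ?_)
    gcongr
    linarith
  · intro s hs
    have hspos : 0 < s := by linarith
    rcases le_or_gt x s with hxs | hxs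
    · have hmin : min (x ^ 2 / s) x = x ^ 2 / s := by
        apply min_eq_left
        rw [div_le_iff₀ hspos]
        nlinarith
      have hm : Measurable fun y : ℝ => ENNReal.ofReal (y ^ 2) := by fun_prop
      calc ∫⁻ y, ENNReal.ofReal (min (y ^ 2 / s) y) ∂(kap D ρ k x)
          ≤ ∫⁻ y, ENNReal.ofReal (1 / s) * ENNReal.ofReal (y ^ 2) ∂(kap D ρ k x) := by
            refine lintegral_mono fun y => ?_
            rw [← ENNReal.ofReal_mul (by positivity)]
            refine ENNReal.ofReal_le_ofReal ((min_le_left _ _).trans (le_of_eq ?_))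
            ring
        _ = ENNReal.ofReal (1 / s) * ∫⁻ y, ENNReal.ofReal (y ^ 2) ∂(kap D ρ k x) :=
            lintegral_const_mul _ hm
        _ ≤ ENNReal.ofReal (1 / s) * ENNReal.ofReal (x ^ 2 + A * (1 + x) * √k) :=
            mul_le_mul_right (hi k x hx) _
        _ = ENNReal.ofReal (x ^ 2 / s + A * ((1 + x) * √k / s)) := by
            rw [← ENNReal.ofReal_mul (by positivity)]
            congr 1
            ring
        _ ≤ ENNReal.ofReal ((A + 2 * C0) * (min (x ^ 2 / s) x + (1 + x) * √k / s)) := by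
            refine ENNReal.ofReal_le_ofReal ?_
            rw [hmin]
            have h1 : 0 ≤ x ^ 2 / s := by positivity
            have h2 : 0 ≤ (1 + x) * √(k : ℝ) / s := by positivity
            nlinarith
    · have hmin : min (x ^ 2 / s) x = x := by
        apply min_eq_right
        rw [le_div_iff₀ hspos]
        nlinarith
      calc ∫⁻ y, ENNReal.ofReal (min (y ^ 2 / s) y) ∂(kap D ρ k x)
          ≤ ee D ρ k x := lintegral_mono fun y => ENNReal.ofReal_le_ofReal (min_le_right _ _)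
        _ ≤ C0 * ENNReal.ofReal (1 + x) := h0 k x hx
        _ = ENNReal.ofReal (C0 * (1 + x)) := by
            rw [ENNReal.ofReal_mul hC0, ENNReal.ofReal_coe_nnreal]
        _ ≤ ENNReal.ofReal ((A + 2 * C0) * (min (x ^ 2 / s) x + (1 + x) * √k / s)) := by
            refine ENNReal.ofReal_le_ofReal ?_
            rw [hmin]
            have h2 : 0 ≤ (1 + x) * √(k : ℝ) / s := by positivity
            have h3 : 0 ≤ (A + 2 * C0) * ((1 + x) * √(k : ℝ) / s) := by positivity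
            nlinarith

end Pool.Agent.BPT
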