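import Pool.Agent.MP_99a865_pr.FV.A8
import Pool.Agent.MP_99a865_pr.FV.A9

open MeasureTheory ProbabilityTheory Filter Topology
open scoped ENNReal NNReal

namespace Pool.Agent.BPT

variable {D : Set ℝ} {ρ : Measure ℝ}

/-- real bound to extended bound -/
lemma A10_ofReal {μ : Measure ℝ} [IsFiniteMeasure μ] {s : Set ℝ} {c : ℝ} (h : μ.real s ≤ c) :
    μ s ≤ ENNReal.ofReal c := by
  rw [← ENNReal.ofReal_toReal (measure_ne_top μ s)]
  exact ENNReal.ofReal_le_ofReal h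

lemma A10_ae_nonneg (hD : Dom D) [IsProbabilityMeasure ρ] (k : ℕ) (hk : 1 ≤ k) (x : ℝ) :
    ∀ᵐ w ∂(kap D ρ k x), 0 ≤ w := by
  have h := kap_compl (ρ := ρ) hD k x (Or.inl hk)
  rw [ae_iff]
  refine measure_mono_null ?_ h
  intro w hw
  simp only [Set.mem_ofPred_eq, not_le] at hw
  intro hw'
  exact absurd (hD.nonneg hw') (not_le.mpr hw)

/-- displacement of the killed walk: Chebyshev -/
lemma A10_cheb (hD : Dom D) (hρ : Std ρ) (k : ℕ) (x a : ℝ) (ha : 0 < a) :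
    kap D ρ k x {w | a ≤ |w - x|} ≤ ENNReal.ofReal (k / a ^ 2) := by
  have := hρ.prob
  have : IsProbabilityMeasure (seqLaw ρ) := by unfold seqLaw; infer_instance
  have hms : MeasurableSet {w : ℝ | a ≤ |w - x|} :=
    measurableSet_le measurable_const ((measurable_id.sub_const x).abs)
  have h1 : kap D ρ k x {w | a ≤ |w - x|} ≤ fre ρ k x {w | a ≤ |w - x|} := kap_le_fre hD k x _
  have h2 : fre ρ k x {w | a ≤ |w - x|} = seqLaw ρ {ω | a ≤ |S k ω|} := by
    unfold fre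
    rw [Measure.map_apply ((measurable_S k).const_add x) hms]
    congr 1
    ext ω
    simp
  rw [h2] at h1
  refine h1.trans ?_
  have h3 := cheb hρ k a ha
  rw [← ENNReal.ofReal_toReal (measure_ne_top (seqLaw ρ) _)]
  exact ENNReal.ofReal_le_ofReal h3

/-- the indicator of the third part -/
noncomputable def A10_G (j b a : ℝ) (z u : ℝ) : ℝ≥0∞ :=
  Set.indicator {p : ℝ × ℝ | p.2 ∈ Set.Ico j b ∧ a ≤ |p.2 - p.1|} (fun _ => 1) (z, u)

lemma A10_G_meas (j b a : ℝ) : Measurable (Function.uncurry (A10_G j b a)) := by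
  have : Function.uncurry (A10_G j b a) =
      Set.indicator {p : ℝ × ℝ | p.2 ∈ Set.Ico j b ∧ a ≤ |p.2 - p.1|} (fun _ => (1 : ℝ≥0∞)) := by
    ext ⟨z, u⟩
    rfl
  rw [this]
  refine measurable_const.indicator ?_
  refine MeasurableSet.inter ?_ ?_
  · exact measurable_snd measurableSet_Ico
  · exact measurableSet_le measurable_const ((measurable_snd.sub measurable_fst).abs)

lemma A10_G_set (j b a z : ℝ) : MeasurableSet {u : ℝ | u ∈ Set.Ico j b ∧ a ≤ |u - z|} := by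
  refine MeasurableSet.inter measurableSet_Ico ?_
  exact measurableSet_le measurable_const ((measurable_id.sub_const z).abs)

lemma A10_G_lint (μ : Measure ℝ) (j b a z : ℝ) :
    ∫⁻ u, A10_G j b a z u ∂μ = μ {u | u ∈ Set.Ico j b ∧ a ≤ |u - z|} := by
  have : (fun u => A10_G j b a z u) =
      Set.indicator {u : ℝ | u ∈ Set.Ico j b ∧ a ≤ |u - z|} (fun _ => (1 : ℝ≥0∞)) := by
    ext u
    unfold A10_G
    simp only [Set.indicator, Set.mem_ofPred_eq]
  rw [this, lintegral_indicator (A10_G_set j b a z)]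
  simp

/-- the third part: integral over all starting points -/
lemma A10_int (hD : Dom D) (hρ : Std ρ) : ∃ C > (0 : ℝ), ∀ (k : ℕ) (j a : ℝ), 0 ≤ j → 0 < a →
    ∫⁻ z in D, kap D ρ k z {u | u ∈ Set.Ico j (j + 2) ∧ a ≤ |u - z|} ≤
      ENNReal.ofReal (C * (3 + j) * √k / a ^ 2) := by
  have := hρ.prob
  have := hρ.dual.prob
  obtain ⟨C, hC, hm⟩ := mom2 hD hρ.dual
  refine ⟨2 * C, by positivity, fun k j a hj ha => ?_⟩
  have e1 : ∫⁻ z in D, kap D ρ k z {u | u ∈ Set.Ico j (j + 2) ∧ a ≤ |u - z|} =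
      ∫⁻ z in D, ∫⁻ u, A10_G j (j + 2) a z u ∂(kap D ρ k z) := by
    refine lintegral_congr fun z => ?_
    rw [A10_G_lint]
  rw [e1, duality_vol hD k _ (A10_G_meas j (j + 2) a)]
  have e2 : ∀ y ∈ D, ∫⁻ x, A10_G j (j + 2) a x y ∂(kap D (dual ρ) k y) ≤
      Set.indicator (Set.Ico j (j + 2)) (fun _ => ENNReal.ofReal (C * (3 + j) * √k / a ^ 2)) y := by
    intro y hy
    by_cases hyj : y ∈ Set.Ico j (j + 2)
    · rw [Set.indicator_of_mem hyj]
      have hy0 : 0 ≤ y := hD.nonneg hy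
      have h1 := (hm k y hy0).2.1
      have h2 : ∫⁻ x, A10_G j (j + 2) a x y ∂(kap D (dual ρ) k y) ≤
          ∫⁻ x, ENNReal.ofReal (1 / a ^ 2) * ENNReal.ofReal ((x - y) ^ 2) ∂(kap D (dual ρ) k y) := by
        refine lintegral_mono fun x => ?_
        unfold A10_G
        rw [← ENNReal.ofReal_mul (by positivity)]
        by_cases hx : (x, y) ∈ {p : ℝ × ℝ | p.2 ∈ Set.Ico j (j + 2) ∧ a ≤ |p.2 - p.1|}
        · simp only
          rw [Set.indicator_of_mem hx]
          have hx2 : a ≤ |y - x| := hx.2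
          have : a ^ 2 ≤ (x - y) ^ 2 := by
            rw [← sq_abs (x - y), abs_sub_comm]
            gcongr
          rw [← ENNReal.ofReal_one]
          apply ENNReal.ofReal_le_ofReal
          rw [one_div, inv_mul_eq_div, le_div_iff₀ (by positivity)]
          linarith
        · simp only
          rw [Set.indicator_of_notMem hx]
          exact zero_le
      refine h2.trans ?_
      rw [lintegral_const_mul' _ _ ENNReal.ofReal_ne_top]
      refine (mul_le_mul_right h1 _).trans ?_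
      rw [← ENNReal.ofReal_mul (by positivity)]
      apply ENNReal.ofReal_le_ofReal
      have hy3 : 1 + y ≤ 3 + j := by linarith [hyj.2]
      have : C * (1 + y) * √k ≤ C * (3 + j) * √k := by gcongr
      calc 1 / a ^ 2 * (C * (1 + y) * √k) ≤ 1 / a ^ 2 * (C * (3 + j) * √k) := by gcongr
        _ = C * (3 + j) * √k / a ^ 2 := by ring
    · rw [Set.indicator_of_notMem hyj]
      have : ∀ x, A10_G j (j + 2) a x y = 0 := by
        intro x
        unfold A10_G
        apply Set.indicator_of_notMem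
        intro h
        exact hyj h.1
      simp [this]
  calc ∫⁻ y in D, ∫⁻ x, A10_G j (j + 2) a x y ∂(kap D (dual ρ) k y)
      ≤ ∫⁻ y in D, Set.indicator (Set.Ico j (j + 2))
          (fun _ => ENNReal.ofReal (C * (3 + j) * √k / a ^ 2)) y := by
        refine setLIntegral_mono' hD.meas e2
    _ ≤ ∫⁻ y, Set.indicator (Set.Ico j (j + 2))
          (fun _ => ENNReal.ofReal (C * (3 + j) * √k / a ^ 2)) y := setLIntegral_le_lintegral _ _
    _ = ENNReal.ofReal (C * (3 + j) * √k / a ^ 2) * ENNReal.ofReal 2 := by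
        rw [lintegral_indicator measurableSet_Ico, setLIntegral_const, Real.volume_Ico]
        congr 2
        ring
    _ = ENNReal.ofReal (2 * C * (3 + j) * √k / a ^ 2) := by
        rw [← ENNReal.ofReal_mul (by positivity)]
        congr 1
        ring

/-- smoothing of the starting point -/
lemma A10_smooth (hD : Dom D) (hρ : Std ρ) (k : ℕ) (j a z : ℝ) (n : ℕ)
    (hz : z ∈ Set.Ico (n : ℝ) (n + 1)) :
    kap D ρ k z {u | u ∈ Set.Ico j (j + 1) ∧ a ≤ |u - z|} ≤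
      ∫⁻ z' in Set.Ico (n : ℝ) (n + 2), kap D ρ k z' {u | u ∈ Set.Ico j (j + 2) ∧ a ≤ |u - z'|} := by
  have := hρ.prob
  have h1 : ∀ z' ∈ Set.Ico z (z + 1), kap D ρ k z {u | u ∈ Set.Ico j (j + 1) ∧ a ≤ |u - z|} ≤
      kap D ρ k z' {u | u ∈ Set.Ico j (j + 2) ∧ a ≤ |u - z'|} := by
    intro z' hz'
    have := kap_shift_le (ρ := ρ) hD k z (z' - z) (by linarith [hz'.1])
      {u | u ∈ Set.Ico j (j + 1) ∧ a ≤ |u - z|} {u | u ∈ Set.Ico j (j + 2) ∧ a ≤ |u - z'|}
      (A10_G_set _ _ _ _) (A10_G_set _ _ _ _) ?_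
    · rwa [add_sub_cancel] at this
    · rintro u ⟨⟨hu1, hu2⟩, hu3⟩
      refine ⟨⟨by linarith [hz'.1], by linarith [hz'.2]⟩, ?_⟩
      have : u + (z' - z) - z' = u - z := by ring
      rw [this]
      exact hu3
  calc kap D ρ k z {u | u ∈ Set.Ico j (j + 1) ∧ a ≤ |u - z|}
      = ∫⁻ _ in Set.Ico z (z + 1), kap D ρ k z {u | u ∈ Set.Ico j (j + 1) ∧ a ≤ |u - z|} := by
        rw [setLIntegral_const, Real.volume_Ico]
        simp
    _ ≤ ∫⁻ z' in Set.Ico z (z + 1), kap D ρ k z' {u | u ∈ Set.Ico j (j + 2) ∧ a ≤ |u - z'|} :=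
        setLIntegral_mono' measurableSet_Ico h1
    _ ≤ _ := by
        apply lintegral_mono_set
        intro w hw
        exact ⟨hz.1.trans hw.1, by linarith [hw.2, hz.2]⟩

/-- the third part -/
lemma A10_third (hD : Dom D) (hρ : Std ρ) : ∃ C > (0 : ℝ), ∀ (k l : ℕ), 1 ≤ k →
    ∀ y j a : ℝ, 0 ≤ y → 0 ≤ j → 0 < a →
    ∫⁻ z, kap D ρ l z {u | u ∈ Set.Ico j (j + 1) ∧ a ≤ |u - z|} ∂(kap D ρ k y) ≤
      ENNReal.ofReal (C * (3 + j) * √l / (√k * a ^ 2)) := by
  have := hρ.prob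
  obtain ⟨C₁, hC₁, hw⟩ := win hD hρ
  obtain ⟨C₂, hC₂, hi⟩ := A10_int hD hρ
  refine ⟨2 * (C₁ * C₂), by positivity, fun k l hk y j a hy hj ha => ?_⟩
  set μ := kap D ρ k y with hμ
  set r : ℝ → ℝ≥0∞ := fun z => kap D ρ l z {u | u ∈ Set.Ico j (j + 1) ∧ a ≤ |u - z|} with hr
  set rp : ℝ → ℝ≥0∞ := fun z => kap D ρ l z {u | u ∈ Set.Ico j (j + 2) ∧ a ≤ |u - z|} with hrp
  have hcov : (⋃ n : ℕ, Set.Ico (n : ℝ) (n + 1)) = Set.Ici 0 := by
    ext w
    simp only [Set.mem_iUnion, Set.mem_Ico, Set.mem_Ici]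
    constructor
    · rintro ⟨n, h1, _⟩
      exact le_trans (Nat.cast_nonneg n) h1
    · intro h
      exact ⟨⌊w⌋₊, Nat.floor_le h, Nat.lt_floor_add_one w⟩
  have hae : ∀ᵐ w ∂μ, w ∈ Set.Ici (0 : ℝ) := A10_ae_nonneg hD k hk y
  have e1 : ∫⁻ z, r z ∂μ = ∫⁻ z in ⋃ n : ℕ, Set.Ico (n : ℝ) (n + 1), r z ∂μ := by
    rw [hcov, Measure.restrict_eq_self_of_ae_mem hae]
  have e2 : ∫⁻ z in ⋃ n : ℕ, Set.Ico (n : ℝ) (n + 1), r z ∂μ ≤
      ∑' n : ℕ, ∫⁻ z in Set.Ico (n : ℝ) (n + 1), r z ∂μ := lintegral_iUnion_le _ _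
  have e3 : ∀ n : ℕ, ∫⁻ z in Set.Ico (n : ℝ) (n + 1), r z ∂μ ≤
      ENNReal.ofReal (C₁ / √k) * ∫⁻ z' in Set.Ico (n : ℝ) (n + 2), rp z' := by
    intro n
    calc ∫⁻ z in Set.Ico (n : ℝ) (n + 1), r z ∂μ
        ≤ ∫⁻ _ in Set.Ico (n : ℝ) (n + 1), (∫⁻ z' in Set.Ico (n : ℝ) (n + 2), rp z') ∂μ :=
          setLIntegral_mono' measurableSet_Ico (fun z hz => A10_smooth hD hρ l j a z n hz)
      _ = (∫⁻ z' in Set.Ico (n : ℝ) (n + 2), rp z') * μ (Set.Ico (n : ℝ) (n + 1)) := by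
          rw [setLIntegral_const]
      _ ≤ (∫⁻ z' in Set.Ico (n : ℝ) (n + 2), rp z') * ENNReal.ofReal (C₁ / √k) := by
          gcongr
          exact A10_ofReal (hw k hk y n hy (Nat.cast_nonneg n)).1
      _ = _ := mul_comm _ _
  have hrpm : Measurable rp := by
    have := measurable_lintegral_kap (ρ := ρ) hD l _ (A10_G_meas j (j + 2) a)
    convert this using 2 with z
    rw [A10_G_lint]
  have e4 : ∑' n : ℕ, ∫⁻ z' in Set.Ico (n : ℝ) (n + 2), rp z' ≤
      ∫⁻ z' in Set.Ici (0 : ℝ), 2 * rp z' := by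
    have h1 : ∀ n : ℕ, ∫⁻ z' in Set.Ico (n : ℝ) (n + 2), rp z' =
        ∫⁻ z', (Set.Ico (n : ℝ) (n + 2)).indicator rp z' :=
      fun n => (lintegral_indicator measurableSet_Ico _).symm
    simp_rw [h1]
    rw [← lintegral_tsum (fun n => (hrpm.indicator measurableSet_Ico).aemeasurable),
      ← lintegral_indicator measurableSet_Ici]
    refine lintegral_mono fun z => ?_
    by_cases hz : 0 ≤ z
    · rw [Set.indicator_of_mem (show z ∈ Set.Ici (0 : ℝ) from hz)]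
      have h2 : ∀ n : ℕ, n ∉ ({⌊z⌋₊, ⌊z⌋₊ - 1} : Finset ℕ) →
          (Set.Ico (n : ℝ) (n + 2)).indicator rp z = 0 := by
        intro n hn
        apply Set.indicator_of_notMem
        rintro ⟨h3, h4⟩
        apply hn
        have h5 : n ≤ ⌊z⌋₊ := Nat.le_floor h3
        have h6 : ⌊z⌋₊ < n + 2 := by
          rw [Nat.floor_lt hz]
          push_cast
          exact h4
        simp only [Finset.mem_insert, Finset.mem_singleton]
        omega
      rw [tsum_eq_sum h2]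
      calc ∑ n ∈ ({⌊z⌋₊, ⌊z⌋₊ - 1} : Finset ℕ), (Set.Ico (n : ℝ) (n + 2)).indicator rp z
          ≤ ∑ n ∈ ({⌊z⌋₊, ⌊z⌋₊ - 1} : Finset ℕ), rp z := by
            refine Finset.sum_le_sum fun n _ => ?_
            exact Set.indicator_le_self _ _ _
        _ = (({⌊z⌋₊, ⌊z⌋₊ - 1} : Finset ℕ).card : ℝ≥0∞) * rp z := by
            rw [Finset.sum_const, nsmul_eq_mul]
        _ ≤ 2 * rp z := by
            gcongr
            exact_mod_cast Finset.card_le_two
    · have h2 : ∀ n : ℕ, (Set.Ico (n : ℝ) (n + 2)).indicator rp z = 0 := by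
        intro n
        apply Set.indicator_of_notMem
        rintro ⟨h3, _⟩
        exact hz (le_trans (Nat.cast_nonneg n) h3)
      simp [h2]
  have e5 : ∫⁻ z' in Set.Ici (0 : ℝ), 2 * rp z' = 2 * ∫⁻ z' in D, rp z' := by
    rw [lintegral_const_mul' _ _ (by norm_num)]
    congr 1
    rcases hD with h | h
    · rw [h]
    · rw [h]
      exact setLIntegral_congr Ioi_ae_eq_Ici.symm
  have e6 := hi l j a hj ha
  calc ∫⁻ z, r z ∂μ ≤ ∑' n : ℕ, ∫⁻ z in Set.Ico (n : ℝ) (n + 1), r z ∂μ := e1.le.trans e2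
    _ ≤ ∑' n : ℕ, ENNReal.ofReal (C₁ / √k) * ∫⁻ z' in Set.Ico (n : ℝ) (n + 2), rp z' :=
        ENNReal.tsum_le_tsum e3
    _ = ENNReal.ofReal (C₁ / √k) * ∑' n : ℕ, ∫⁻ z' in Set.Ico (n : ℝ) (n + 2), rp z' :=
        ENNReal.tsum_mul_left
    _ ≤ ENNReal.ofReal (C₁ / √k) * (2 * ENNReal.ofReal (C₂ * (3 + j) * √l / a ^ 2)) := by
        gcongr
        exact e4.trans (e5.le.trans (by gcongr))
    _ = ENNReal.ofReal (2 * (C₁ * C₂) * (3 + j) * √l / (√k * a ^ 2)) := by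
        rw [show (2 : ℝ≥0∞) = ENNReal.ofReal 2 by simp, ← ENNReal.ofReal_mul (by norm_num),
          ← ENNReal.ofReal_mul (by positivity)]
        congr 1
        have hk0 : (0 : ℝ) < √k := Real.sqrt_pos.mpr (by exact_mod_cast hk)
        field_simp

/-- **[FV-A10]** Descending far: from `y` to `[j, j+1)`, `j ≤ y/2`.
PROOF. If `y < 16` the bound holds with `C = 289` (`(1+y)² ≤ 289`). Let `y ≥ 16`; the displacement is
at least `y - j - 1 ≥ y/2 - 1 ≥ y/4` in absolute value. `k ≤ 2`: Chebyshev, `k/(y/4)² ≤ 32/y²`.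
`k ≥ 3`: write `k = k₁ + k₂ + k₃` with `k₁ = k₂ = ⌊k/3⌋`, `k₃ = k - 2k₁` (all `≥ k/5`). One of the three
partial displacements is at least `y/12` in absolute value. -/
theorem far_down (hD : Dom D) (hρ : Std ρ) : ∃ C > (0 : ℝ), ∀ k : ℕ, 1 ≤ k → ∀ y j : ℝ, 0 ≤ j →
    j ≤ y / 2 → (kap D ρ k y).real (Set.Ico j (j + 1)) ≤ C * (1 + j) / (1 + y) ^ 2 := by
  have := hρ.prob
  obtain ⟨C₁, hC₁, hw⟩ := win hD hρ
  obtain ⟨C₂, hC₂, h3⟩ := A10_third hD hρ
  refine ⟨289 + 288 * (2 * C₁ + 6 * C₂), by positivity, fun k hk y j hj hjy => ?_⟩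
  have hy0 : 0 ≤ y := by linarith
  set C := 289 + 288 * (2 * C₁ + 6 * C₂) with hCdef
  have hC289 : 289 ≤ C := by rw [hCdef]; nlinarith
  have hle1 : (kap D ρ k y).real (Set.Ico j (j + 1)) ≤ 1 := by
    have h1 : kap D ρ k y (Set.Ico j (j + 1)) ≤ 1 :=
      (measure_mono (Set.subset_univ _)).trans (kap_univ_le_one k y)
    rw [measureReal_def]
    exact ENNReal.toReal_le_of_le_ofReal zero_le_one (by simpa using h1)
  by_cases hy16 : y < 16
  · refine hle1.trans ?_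
    rw [le_div_iff₀ (by positivity)]
    nlinarith
  push Not at hy16
  have hya : 0 < y / 12 := by linarith
  have hJ : MeasurableSet (Set.Ico j (j + 1)) := measurableSet_Ico
  -- reduction to the extended inequality
  suffices hmain : kap D ρ k y (Set.Ico j (j + 1)) ≤
      ENNReal.ofReal ((64 + 144 * (2 * C₁ + 6 * C₂)) * (1 + j) / y ^ 2) by
    rw [measureReal_def]
    have h1 := ENNReal.toReal_le_of_le_ofReal (by positivity) hmain
    refine h1.trans ?_
    rw [div_le_div_iff₀ (by positivity) (by positivity)]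
    have h2 : (1 + y) ^ 2 ≤ 2 * y ^ 2 := by nlinarith
    have h5 : (64 + 144 * (2 * C₁ + 6 * C₂)) * 2 ≤ C := by rw [hCdef]; nlinarith
    have h6 : 0 ≤ (64 + 144 * (2 * C₁ + 6 * C₂)) * (1 + j) := by positivity
    calc (64 + 144 * (2 * C₁ + 6 * C₂)) * (1 + j) * (1 + y) ^ 2
        ≤ (64 + 144 * (2 * C₁ + 6 * C₂)) * (1 + j) * (2 * y ^ 2) := by gcongr
      _ = ((64 + 144 * (2 * C₁ + 6 * C₂)) * 2) * (1 + j) * y ^ 2 := by ring
      _ ≤ C * (1 + j) * y ^ 2 := by gcongr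
  by_cases hk2 : k ≤ 2
  · have h1 : kap D ρ k y (Set.Ico j (j + 1)) ≤ kap D ρ k y {w | y / 4 ≤ |w - y|} := by
      apply measure_mono
      rintro w ⟨hw1, hw2⟩
      simp only [Set.mem_ofPred_eq]
      rw [abs_sub_comm]
      refine le_trans ?_ (le_abs_self _)
      linarith
    refine h1.trans ((A10_cheb hD hρ k y (y / 4) (by linarith)).trans ?_)
    apply ENNReal.ofReal_le_ofReal
    have hk2' : (k : ℝ) ≤ 2 := by exact_mod_cast hk2
    rw [div_le_div_iff₀ (by positivity) (by positivity)]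
    have h5 : 0 ≤ 144 * (2 * C₁ + 6 * C₂) := by positivity
    have h6 : 0 ≤ y ^ 2 := by positivity
    have h7 : (4 : ℝ) ≤ (64 + 144 * (2 * C₁ + 6 * C₂)) * (1 + j) / 16 := by
      have : 64 ≤ (64 + 144 * (2 * C₁ + 6 * C₂)) * (1 + j) := by nlinarith
      linarith
    have h8 : (k : ℝ) * y ^ 2 ≤ 2 * y ^ 2 := by gcongr
    have h9 : 4 * y ^ 2 ≤ (64 + 144 * (2 * C₁ + 6 * C₂)) * (1 + j) / 16 * y ^ 2 := by gcongr
    calc (k : ℝ) * y ^ 2 ≤ 4 * y ^ 2 := by nlinarith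
      _ ≤ (64 + 144 * (2 * C₁ + 6 * C₂)) * (1 + j) / 16 * y ^ 2 := h9
      _ = (64 + 144 * (2 * C₁ + 6 * C₂)) * (1 + j) * (y / 4) ^ 2 := by ring
  push Not at hk2
  -- splitting
  obtain ⟨q, hq⟩ : ∃ q, q = k / 3 := ⟨_, rfl⟩
  obtain ⟨k₃, hk₃⟩ : ∃ k₃, k₃ = k - 2 * q := ⟨_, rfl⟩
  have hq1 : 1 ≤ q := by omega
  have hkq : k = q + (q + k₃) := by omega
  have hk3q : q ≤ k₃ := by omega
  have hk3q' : k₃ ≤ 3 * q := by omega
  set a := y / 12 with ha
  set J := Set.Ico j (j + 1) with hJdef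
  -- the three sets
  have hm1 : MeasurableSet {w : ℝ | a ≤ |w - y|} :=
    measurableSet_le measurable_const ((measurable_id.sub_const y).abs)
  have hm2 : ∀ w : ℝ, MeasurableSet {z : ℝ | a ≤ |z - w|} := fun w =>
    measurableSet_le measurable_const ((measurable_id.sub_const w).abs)
  have hkap3 : ∀ z, 0 ≤ z → kap D ρ k₃ z J ≤ ENNReal.ofReal (C₁ * (1 + j) / k₃) := by
    intro z hz
    exact A10_ofReal (hw k₃ (by omega) z j hz hj).2.2.1
  have hkap23 : ∀ z, 0 ≤ z → kap D ρ (q + k₃) z J ≤ ENNReal.ofReal (C₁ * (1 + j) / (q + k₃ : ℕ)) := by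
    intro z hz
    exact A10_ofReal (hw (q + k₃) (by omega) z j hz hj).2.2.1
  -- pointwise inequality after the first step
  have step3 : ∀ w z : ℝ, ¬ a ≤ |w - y| → ¬ a ≤ |z - w| →
      kap D ρ k₃ z J ≤ kap D ρ k₃ z {u | u ∈ Set.Ico j (j + 1) ∧ a ≤ |u - z|} := by
    intro w z h1 h2
    apply measure_mono
    rintro u hu
    refine ⟨hu, ?_⟩
    push Not at h1 h2
    by_contra h4
    push Not at h4
    rw [abs_lt] at h1 h2 h4
    have hu1 := hu.1
    have hu2 := hu.2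
    have : y - u < 3 * a := by linarith [h1.1, h2.1, h4.1]
    rw [ha] at this
    linarith
  have hmeasr : Measurable fun z => kap D ρ k₃ z {u | u ∈ Set.Ico j (j + 1) ∧ a ≤ |u - z|} := by
    have := measurable_lintegral_kap (ρ := ρ) hD k₃ _ (A10_G_meas j (j + 1) a)
    convert this using 2 with z
    rw [A10_G_lint]
  -- second step
  have step2 : ∀ w : ℝ, ¬ a ≤ |w - y| →
      kap D ρ (q + k₃) w J ≤ ENNReal.ofReal (C₁ * (1 + j) / k₃) * ENNReal.ofReal (q / a ^ 2) +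
        ∫⁻ z, kap D ρ k₃ z {u | u ∈ Set.Ico j (j + 1) ∧ a ≤ |u - z|} ∂(kap D ρ q w) := by
    intro w h1
    rw [kap_add_apply hD q k₃ w J hJ]
    have hb : ∀ᵐ z ∂(kap D ρ q w), kap D ρ k₃ z J ≤
        ({z : ℝ | a ≤ |z - w|}).indicator (fun _ => ENNReal.ofReal (C₁ * (1 + j) / k₃)) z +
          kap D ρ k₃ z {u | u ∈ Set.Ico j (j + 1) ∧ a ≤ |u - z|} := by
      filter_upwards [A10_ae_nonneg hD q hq1 w] with z hz
      by_cases h2 : a ≤ |z - w|
      · rw [Set.indicator_of_mem (show z ∈ {z : ℝ | a ≤ |z - w|} from h2)]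
        exact (hkap3 z hz).trans le_self_add
      · rw [Set.indicator_of_notMem (show z ∉ {z : ℝ | a ≤ |z - w|} from h2), zero_add]
        exact step3 w z h1 h2
    refine (lintegral_mono_ae hb).trans ?_
    rw [lintegral_add_right _ hmeasr, lintegral_indicator (hm2 w), setLIntegral_const]
    gcongr
    exact A10_cheb hD hρ q w a hya
  -- first step
  rw [hkq, kap_add_apply hD q (q + k₃) y J hJ]
  have hb : ∀ᵐ w ∂(kap D ρ q y), kap D ρ (q + k₃) w J ≤
      ({w : ℝ | a ≤ |w - y|}).indicator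
        (fun _ => ENNReal.ofReal (C₁ * (1 + j) / (q + k₃ : ℕ))) w +
      (ENNReal.ofReal (C₁ * (1 + j) / k₃) * ENNReal.ofReal (q / a ^ 2) +
        ∫⁻ z, kap D ρ k₃ z {u | u ∈ Set.Ico j (j + 1) ∧ a ≤ |u - z|} ∂(kap D ρ q w)) := by
    filter_upwards [A10_ae_nonneg hD q hq1 y] with w hw0
    by_cases h2 : a ≤ |w - y|
    · rw [Set.indicator_of_mem (show w ∈ {z : ℝ | a ≤ |z - y|} from h2)]
      exact (hkap23 w hw0).trans le_self_add
    · rw [Set.indicator_of_notMem (show w ∉ {z : ℝ | a ≤ |z - y|} from h2), zero_add]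
      exact step2 w h2
  refine (lintegral_mono_ae hb).trans ?_
  rw [lintegral_add_left (measurable_const.indicator hm1), lintegral_indicator hm1,
    setLIntegral_const, lintegral_add_left measurable_const, lintegral_const]
  have hA3 : ∫⁻ w, ∫⁻ z, kap D ρ k₃ z {u | u ∈ Set.Ico j (j + 1) ∧ a ≤ |u - z|} ∂(kap D ρ q w)
      ∂(kap D ρ q y) = ∫⁻ z, kap D ρ k₃ z {u | u ∈ Set.Ico j (j + 1) ∧ a ≤ |u - z|}
        ∂(kap D ρ (q + q) y) := (lintegral_kap_add hD q q y _ hmeasr).symm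
  rw [hA3]
  have hu1 : kap D ρ q y Set.univ ≤ 1 := kap_univ_le_one q y
  have b1 := A10_cheb hD hρ q y a hya
  have b3 := h3 (q + q) k₃ (by omega) y j a hy0 hj hya
  have hqR : (0 : ℝ) < q := by exact_mod_cast hq1
  have hk3R : (q : ℝ) ≤ k₃ := by exact_mod_cast hk3q
  have hk3R' : (k₃ : ℝ) ≤ 3 * q := by exact_mod_cast hk3q'
  calc ENNReal.ofReal (C₁ * (1 + j) / (q + k₃ : ℕ)) * kap D ρ q y {w | a ≤ |w - y|} +
      (ENNReal.ofReal (C₁ * (1 + j) / k₃) * ENNReal.ofReal (q / a ^ 2) * kap D ρ q y Set.univ +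
        ∫⁻ z, kap D ρ k₃ z {u | u ∈ Set.Ico j (j + 1) ∧ a ≤ |u - z|} ∂(kap D ρ (q + q) y))
      ≤ ENNReal.ofReal (C₁ * (1 + j) / (q + k₃ : ℕ)) * ENNReal.ofReal (q / a ^ 2) +
      (ENNReal.ofReal (C₁ * (1 + j) / k₃) * ENNReal.ofReal (q / a ^ 2) * 1 +
        ENNReal.ofReal (C₂ * (3 + j) * √k₃ / (√(q + q : ℕ) * a ^ 2))) := by
        gcongr
    _ = ENNReal.ofReal (C₁ * (1 + j) / (q + k₃ : ℕ) * (q / a ^ 2) +
          (C₁ * (1 + j) / k₃ * (q / a ^ 2) + C₂ * (3 + j) * √k₃ / (√(q + q : ℕ) * a ^ 2))) := by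
        rw [mul_one, ← ENNReal.ofReal_mul (by positivity), ← ENNReal.ofReal_mul (by positivity),
          ← ENNReal.ofReal_add (by positivity) (by positivity),
          ← ENNReal.ofReal_add (by positivity) (by positivity)]
    _ ≤ _ := by
        apply ENNReal.ofReal_le_ofReal
        have t1 : C₁ * (1 + j) / (q + k₃ : ℕ) * (q / a ^ 2) ≤ C₁ * (1 + j) / a ^ 2 := by
          push_cast
          rw [div_mul_div_comm, div_le_div_iff₀ (by positivity) (by positivity)]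
          have : C₁ * (1 + j) * a ^ 2 * q ≤ C₁ * (1 + j) * a ^ 2 * (q + k₃) := by
            gcongr
            linarith
          nlinarith
        have t2 : C₁ * (1 + j) / k₃ * (q / a ^ 2) ≤ C₁ * (1 + j) / a ^ 2 := by
          have hk3pos : (0 : ℝ) < k₃ := lt_of_lt_of_le hqR hk3R
          rw [div_mul_div_comm, div_le_div_iff₀ (by positivity) (by positivity)]
          have : C₁ * (1 + j) * a ^ 2 * q ≤ C₁ * (1 + j) * a ^ 2 * k₃ := by
            gcongr
          nlinarith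
        have t3 : C₂ * (3 + j) * √k₃ / (√(q + q : ℕ) * a ^ 2) ≤ 6 * C₂ * (1 + j) / a ^ 2 := by
          have hs : √(k₃ : ℝ) ≤ 2 * √(q + q : ℕ) := by
            rw [show (2 : ℝ) * √(q + q : ℕ) = √(4 * (q + q : ℕ)) by
              rw [Real.sqrt_mul (by norm_num)]
              congr 1
              rw [show (4 : ℝ) = 2 ^ 2 by norm_num, Real.sqrt_sq (by norm_num)]]
            apply Real.sqrt_le_sqrt
            push_cast
            linarith
          have hqq : 0 < √((q + q : ℕ) : ℝ) := Real.sqrt_pos.mpr (by exact_mod_cast (by omega))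
          rw [div_le_div_iff₀ (by positivity) (by positivity)]
          calc C₂ * (3 + j) * √k₃ * a ^ 2 ≤ C₂ * (3 * (1 + j)) * (2 * √(q + q : ℕ)) * a ^ 2 := by
                gcongr
                linarith
            _ = 6 * C₂ * (1 + j) * (√(q + q : ℕ) * a ^ 2) := by ring
        have t4 : C₁ * (1 + j) / a ^ 2 + (C₁ * (1 + j) / a ^ 2 + 6 * C₂ * (1 + j) / a ^ 2) =
            144 * (2 * C₁ + 6 * C₂) * (1 + j) / y ^ 2 := by
          rw [ha]
          field_simp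
          ring
        have t5 : 144 * (2 * C₁ + 6 * C₂) * (1 + j) / y ^ 2 ≤
            (64 + 144 * (2 * C₁ + 6 * C₂)) * (1 + j) / y ^ 2 := by
          gcongr
          linarith
        linarith

end Pool.Agent.BPT
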