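import Pool.Agent.MP_99a865_pr.FV.A8

open MeasureTheory ProbabilityTheory Filter Topology
open scoped ENNReal NNReal

namespace Pool.Agent.BPT

variable {D : Set ℝ} {ρ : Measure ℝ}

/-! Decomposition used in FV-A10 and FV-A12c: going down from `y` to `[j, j+1)`, `j ≤ y/2`. -/

theorem A10d_meas_far (c x : ℝ) : MeasurableSet {z : ℝ | c ≤ |z - x|} := by
  have h : Measurable (fun z : ℝ => |z - x|) := (measurable_id.sub_const x).abs
  exact measurableSet_le measurable_const h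

/-- distance to the starting point at time `k`, killed walk -/
theorem A10d_far_le (hD : Dom D) [IsProbabilityMeasure ρ] (k : ℕ) (x c : ℝ) :
    kap D ρ k x {z | c ≤ |z - x|} ≤ seqLaw ρ {ω | c ≤ |S k ω|} := by
  refine (kap_le_fre hD k x _).trans ?_
  unfold fre
  rw [Measure.map_apply ((measurable_S k).const_add x) (A10d_meas_far c x)]
  refine measure_mono ?_
  intro ω hω
  have h1 : x + S k ω - x = S k ω := by ring
  have h2 : c ≤ |x + S k ω - x| := hω
  rw [h1] at h2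
  exact h2

theorem A10d_meas_r (hD : Dom D) [IsProbabilityMeasure ρ] (k : ℕ) (c : ℝ) (J : Set ℝ)
    (hJ : MeasurableSet J) : Measurable fun v => kap D ρ k v {z | z ∈ J ∧ c ≤ |z - v|} := by
  have hm : MeasurableSet {q : ℝ × ℝ | q.2 ∈ J ∧ c ≤ |q.2 - q.1|} := by
    have h1 : MeasurableSet {q : ℝ × ℝ | q.2 ∈ J} := measurable_snd hJ
    have h2 : MeasurableSet {q : ℝ × ℝ | c ≤ |q.2 - q.1|} :=
      measurableSet_le measurable_const (measurable_snd.sub measurable_fst).abs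
    exact h1.inter h2
  have h3 : Measurable fun v => ∫⁻ z, {q : ℝ × ℝ | q.2 ∈ J ∧ c ≤ |q.2 - q.1|}.indicator 1 (v, z)
      ∂(kap D ρ k v) :=
    measurable_lintegral_kap hD k
      (fun v z => {q : ℝ × ℝ | q.2 ∈ J ∧ c ≤ |q.2 - q.1|}.indicator (1 : ℝ × ℝ → ℝ≥0∞) (v, z))
      (measurable_one.indicator hm)
  have h4 : (fun v => kap D ρ k v {z | z ∈ J ∧ c ≤ |z - v|}) =
      fun v => ∫⁻ z, {q : ℝ × ℝ | q.2 ∈ J ∧ c ≤ |q.2 - q.1|}.indicator 1 (v, z)
      ∂(kap D ρ k v) := by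
    funext v
    exact (lintegral_indicator_one (μ := kap D ρ k v) (measurable_prodMk_left (x := v) hm)).symm
  rw [h4]
  exact h3

/-- three steps: general splitting of the displacement -/
theorem A10d_split (hD : Dom D) [IsProbabilityMeasure ρ] (k₁ k₂ k₃ : ℕ) (y c : ℝ) (J : Set ℝ)
    (hJ : MeasurableSet J) (hfar : ∀ z ∈ J, 3 * c ≤ |z - y|) :
    kap D ρ (k₁ + k₂ + k₃) y J ≤
      (∫⁻ u in {u | c ≤ |u - y|}, kap D ρ (k₂ + k₃) u J ∂(kap D ρ k₁ y)) +
      (∫⁻ u, ∫⁻ v in {v | c ≤ |v - u|}, kap D ρ k₃ v J ∂(kap D ρ k₂ u) ∂(kap D ρ k₁ y)) +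
      ∫⁻ v, kap D ρ k₃ v {z | z ∈ J ∧ c ≤ |z - v|} ∂(kap D ρ (k₁ + k₂) y) := by
  have hmk : ∀ (k : ℕ) (A : Set ℝ), MeasurableSet A → Measurable fun v => kap D ρ k v A :=
    fun k A hA => (Measure.measurable_coe hA).comp (measurable_kap hD k)
  have hr := A10d_meas_r (ρ := ρ) hD k₃ c J hJ
  rw [add_assoc k₁ k₂ k₃, kap_add_apply hD k₁ (k₂ + k₃) y J hJ,
    lintegral_kap_add hD k₁ k₂ y _ hr]
  have hpt : ∀ u : ℝ, kap D ρ (k₂ + k₃) u J ≤
      ({u | c ≤ |u - y|}.indicator (fun u => kap D ρ (k₂ + k₃) u J) u +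
      ∫⁻ v in {v | c ≤ |v - u|}, kap D ρ k₃ v J ∂(kap D ρ k₂ u)) +
      ∫⁻ v, kap D ρ k₃ v {z | z ∈ J ∧ c ≤ |z - v|} ∂(kap D ρ k₂ u) := by
    intro u
    by_cases hu : c ≤ |u - y|
    · have hu' : u ∈ {u | c ≤ |u - y|} := hu
      rw [Set.indicator_of_mem hu', add_assoc]
      exact le_self_add
    · push Not at hu
      refine le_trans ?_ (add_le_add_left (le_add_self) _)
      rw [kap_add_apply hD k₂ k₃ u J hJ, ← lintegral_indicator (A10d_meas_far c u),
        ← lintegral_add_right _ hr]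
      refine lintegral_mono fun v => ?_
      by_cases hv : c ≤ |v - u|
      · have hv' : v ∈ {v | c ≤ |v - u|} := hv
        show kap D ρ k₃ v J ≤ _
        rw [Set.indicator_of_mem hv']
        exact le_self_add
      · push Not at hv
        show kap D ρ k₃ v J ≤ _
        refine le_trans (measure_mono ?_) le_add_self
        intro z hz
        refine ⟨hz, ?_⟩
        have h1 := hfar z hz
        have h2 : |z - y| ≤ |z - v| + |v - u| + |u - y| := by
          have : z - y = (z - v) + (v - u) + (u - y) := by ring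
          rw [this]
          exact (abs_add_le _ _).trans (add_le_add_left (abs_add_le _ _) _)
        linarith
  refine (lintegral_mono hpt).trans ?_
  have hm3 : Measurable fun u => ∫⁻ v, kap D ρ k₃ v {z | z ∈ J ∧ c ≤ |z - v|} ∂(kap D ρ k₂ u) :=
    measurable_lintegral_kap hD k₂ (fun _ v => kap D ρ k₃ v {z | z ∈ J ∧ c ≤ |z - v|})
      (hr.comp measurable_snd)
  rw [lintegral_add_right _ hm3, lintegral_add_left ((hmk _ J hJ).indicator (A10d_meas_far c y)),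
    lintegral_indicator (A10d_meas_far c y)]

/-- smoothing the last step by duality -/
theorem A10d_smooth (hD : Dom D) (hρ : Std ρ) : ∃ C > (0 : ℝ), ∀ K k₃ : ℕ, 1 ≤ K →
    ∀ y j c : ℝ, 0 ≤ y → 0 ≤ j →
    ∫⁻ v, kap D ρ k₃ v {z | z ∈ Set.Ico j (j + 1) ∧ c ≤ |z - v|} ∂(kap D ρ K y) ≤
      ENNReal.ofReal (C / √K) *
        ∫⁻ z in D ∩ Set.Ico j (j + 2), kap D (dual ρ) k₃ z {x | c ≤ |x - z|} := by
  haveI := hρ.prob
  haveI : IsProbabilityMeasure (dual ρ) := A2_dual_prob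
  obtain ⟨C, hC, hwin⟩ := win hD hρ
  refine ⟨2 * C, by positivity, ?_⟩
  intro K k₃ hK y j c hy hj
  set r : ℝ → ℝ≥0∞ := fun v => kap D ρ k₃ v {z | z ∈ Set.Ico j (j + 1) ∧ c ≤ |z - v|} with hr
  set rp : ℝ → ℝ≥0∞ := fun v => kap D ρ k₃ v {z | z ∈ Set.Ico j (j + 2) ∧ c ≤ |z - v|} with hrp
  have hrpm : Measurable rp := A10d_meas_r hD k₃ c _ measurableSet_Ico
  -- pointwise smoothing
  have h1 : ∀ (a v : ℝ), v ∈ Set.Ico a (a + 1) → r v ≤ ∫⁻ v' in Set.Ico a (a + 2), rp v' := by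
    intro a v hv
    have h2 : ∀ s ∈ Set.Ioc (0 : ℝ) 1, r v ≤ rp (v + s) := by
      intro s hs
      have hA : MeasurableSet {z : ℝ | z ∈ Set.Ico j (j + 1) ∧ c ≤ |z - v|} :=
        measurableSet_Ico.inter (A10d_meas_far c v)
      have hB : MeasurableSet {z : ℝ | z ∈ Set.Ico j (j + 2) ∧ c ≤ |z - (v + s)|} :=
        measurableSet_Ico.inter (A10d_meas_far c (v + s))
      refine kap_shift_le hD k₃ v s hs.1.le _ _ hA hB ?_
      rintro z ⟨⟨h3, h4⟩, h5⟩
      refine ⟨⟨by linarith [hs.1], by linarith [hs.2]⟩, ?_⟩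
      have h6 : z + s - (v + s) = z - v := by ring
      rw [h6]
      exact h5
    calc r v = ∫⁻ s in Set.Ioc (0 : ℝ) 1, r v := by
          rw [setLIntegral_const, Real.volume_Ioc]
          simp
      _ ≤ ∫⁻ s in Set.Ioc (0 : ℝ) 1, rp (v + s) :=
          setLIntegral_mono (hrpm.comp (measurable_const_add v)) h2
      _ = ∫⁻ s, (Set.Ioc v (v + 1)).indicator rp (v + s) := by
          rw [← lintegral_indicator measurableSet_Ioc]
          refine lintegral_congr fun s => ?_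
          by_cases hs : s ∈ Set.Ioc (0 : ℝ) 1
          · have hs' : v + s ∈ Set.Ioc v (v + 1) := ⟨by linarith [hs.1], by linarith [hs.2]⟩
            rw [Set.indicator_of_mem hs, Set.indicator_of_mem hs']
          · have hs' : v + s ∉ Set.Ioc v (v + 1) := fun h => hs ⟨by linarith [h.1], by linarith [h.2]⟩
            rw [Set.indicator_of_notMem hs, Set.indicator_of_notMem hs']
      _ = ∫⁻ v' in Set.Ioc v (v + 1), rp v' := by
          rw [lintegral_add_left_eq_self (fun x => (Set.Ioc v (v + 1)).indicator rp x) v,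
            lintegral_indicator measurableSet_Ioc]
      _ ≤ ∫⁻ v' in Set.Ico a (a + 2), rp v' := by
          refine lintegral_mono_set ?_
          intro x hx
          exact ⟨by linarith [hx.1, hv.1], by linarith [hx.2, hv.2]⟩
  -- sum over the unit intervals
  have hpt : ∀ᵐ v ∂(kap D ρ K y), r v ≤ ∑' a : ℕ, (Set.Ico (a : ℝ) (a + 1)).indicator
      (fun _ => ∫⁻ v' in Set.Ico (a : ℝ) (a + 2), rp v') v := by
    have h3 : ∀ᵐ v ∂(kap D ρ K y), v ∈ D := by
      rw [ae_iff]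
      exact kap_compl hD K y (Or.inl hK)
    filter_upwards [h3] with v hv
    have hv0 := hD.nonneg hv
    have h4 : v ∈ Set.Ico ((⌊v⌋₊ : ℕ) : ℝ) ((⌊v⌋₊ : ℕ) + 1) :=
      ⟨Nat.floor_le hv0, Nat.lt_floor_add_one v⟩
    refine le_trans ?_ (ENNReal.le_tsum ⌊v⌋₊)
    rw [Set.indicator_of_mem h4]
    exact h1 _ v h4
  have hI : ∫⁻ v, r v ∂(kap D ρ K y) ≤ ∑' a : ℕ, ENNReal.ofReal (C / √K) *
      ∫⁻ v' in Set.Ico (a : ℝ) (a + 2), rp v' := by
    refine (lintegral_mono_ae hpt).trans ?_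
    rw [lintegral_tsum (fun a => (measurable_const.indicator measurableSet_Ico).aemeasurable)]
    refine ENNReal.tsum_le_tsum fun a => ?_
    rw [lintegral_indicator_const measurableSet_Ico, mul_comm]
    refine mul_le_mul_left ?_ _
    have h5 := (hwin K hK y a hy (Nat.cast_nonneg a)).1
    unfold Measure.real at h5
    rw [← ENNReal.ofReal_toReal (measure_ne_top (kap D ρ K y) (Set.Ico (a : ℝ) (a + 1)))]
    exact ENNReal.ofReal_le_ofReal h5
  have hP : ∑' a : ℕ, ∫⁻ v' in Set.Ico (a : ℝ) (a + 2), rp v' ≤ 2 * ∫⁻ v' in Set.Ici (0 : ℝ), rp v' := by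
    have h6 : ∑' a : ℕ, ∫⁻ v' in Set.Ico (a : ℝ) (a + 1), rp v' ≤ ∫⁻ v' in Set.Ici (0 : ℝ), rp v' := by
      rw [← lintegral_iUnion (fun a => measurableSet_Ico)]
      · refine lintegral_mono_set ?_
        intro x hx
        rw [Set.mem_iUnion] at hx
        obtain ⟨a, ha⟩ := hx
        exact (Nat.cast_nonneg a).trans ha.1
      · intro a b hab
        rw [Function.onFun, Set.disjoint_left]
        intro x hxa hxb
        apply hab
        have h7 : (a : ℝ) < b + 1 := lt_of_le_of_lt hxa.1 hxb.2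
        have h8 : (b : ℝ) < a + 1 := lt_of_le_of_lt hxb.1 hxa.2
        have h9 : a < b + 1 := by exact_mod_cast h7
        have h10 : b < a + 1 := by exact_mod_cast h8
        omega
    have h11 : ∀ a : ℕ, ∫⁻ v' in Set.Ico (a : ℝ) (a + 2), rp v' ≤
        (∫⁻ v' in Set.Ico (a : ℝ) (a + 1), rp v') +
          (∫⁻ v' in Set.Ico ((a + 1 : ℕ) : ℝ) ((a + 1 : ℕ) + 1), rp v') := by
      intro a
      refine le_trans (lintegral_mono_set ?_) (lintegral_union_le rp _ _)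
      intro x hx
      by_cases hx1 : x < a + 1
      · exact Or.inl ⟨hx.1, hx1⟩
      · refine Or.inr ⟨by push_cast; linarith, by push_cast; linarith [hx.2]⟩
    calc ∑' a : ℕ, ∫⁻ v' in Set.Ico (a : ℝ) (a + 2), rp v'
        ≤ ∑' a : ℕ, ((∫⁻ v' in Set.Ico (a : ℝ) (a + 1), rp v') +
          (∫⁻ v' in Set.Ico ((a + 1 : ℕ) : ℝ) ((a + 1 : ℕ) + 1), rp v')) := ENNReal.tsum_le_tsum h11
      _ = (∑' a : ℕ, ∫⁻ v' in Set.Ico (a : ℝ) (a + 1), rp v') +
          (∑' a : ℕ, ∫⁻ v' in Set.Ico ((a + 1 : ℕ) : ℝ) ((a + 1 : ℕ) + 1), rp v') :=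
          ENNReal.tsum_add
      _ ≤ (∑' a : ℕ, ∫⁻ v' in Set.Ico (a : ℝ) (a + 1), rp v') +
          (∑' a : ℕ, ∫⁻ v' in Set.Ico (a : ℝ) (a + 1), rp v') := by
          refine add_le_add_right ?_ _
          exact ENNReal.tsum_comp_le_tsum_of_injective (f := fun a : ℕ => a + 1)
            (add_left_injective 1) (fun a : ℕ => ∫⁻ v' in Set.Ico (a : ℝ) (a + 1), rp v')
      _ ≤ (∫⁻ v' in Set.Ici (0 : ℝ), rp v') + (∫⁻ v' in Set.Ici (0 : ℝ), rp v') :=
          add_le_add h6 h6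
      _ = 2 * ∫⁻ v' in Set.Ici (0 : ℝ), rp v' := (two_mul _).symm
  have hdual : ∫⁻ v' in Set.Ici (0 : ℝ), rp v' =
      ∫⁻ z in D ∩ Set.Ico j (j + 2), kap D (dual ρ) k₃ z {x | c ≤ |x - z|} := by
    have hDI : ∫⁻ v' in Set.Ici (0 : ℝ), rp v' = ∫⁻ v' in D, rp v' := by
      rcases hD with rfl | rfl
      · rfl
      · rw [restrict_Ioi_eq_restrict_Ici]
    have hm : MeasurableSet {q : ℝ × ℝ | q.2 ∈ Set.Ico j (j + 2) ∧ c ≤ |q.2 - q.1|} := by
      have h1 : MeasurableSet {q : ℝ × ℝ | q.2 ∈ Set.Ico j (j + 2)} := measurable_snd measurableSet_Ico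
      have h2 : MeasurableSet {q : ℝ × ℝ | c ≤ |q.2 - q.1|} :=
        measurableSet_le measurable_const (measurable_snd.sub measurable_fst).abs
      exact h1.inter h2
    have hd := duality_vol (ρ := ρ) hD k₃ (fun v z =>
      {q : ℝ × ℝ | q.2 ∈ Set.Ico j (j + 2) ∧ c ≤ |q.2 - q.1|}.indicator (1 : ℝ × ℝ → ℝ≥0∞) (v, z))
      (measurable_one.indicator hm)
    have hL : ∀ v : ℝ, ∫⁻ z, {q : ℝ × ℝ | q.2 ∈ Set.Ico j (j + 2) ∧ c ≤ |q.2 - q.1|}.indicator
        (1 : ℝ × ℝ → ℝ≥0∞) (v, z) ∂(kap D ρ k₃ v) = rp v := by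
      intro v
      have := lintegral_indicator_one (μ := kap D ρ k₃ v)
        (measurable_prodMk_left (x := v) hm)
      rw [hrp]
      exact this
    have hR : ∀ z : ℝ, ∫⁻ v, {q : ℝ × ℝ | q.2 ∈ Set.Ico j (j + 2) ∧ c ≤ |q.2 - q.1|}.indicator
        (1 : ℝ × ℝ → ℝ≥0∞) (v, z) ∂(kap D (dual ρ) k₃ z) =
        (Set.Ico j (j + 2)).indicator (fun z => kap D (dual ρ) k₃ z {x | c ≤ |x - z|}) z := by
      intro z
      have h1 := lintegral_indicator_one (μ := kap D (dual ρ) k₃ z)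
        (measurable_prodMk_right (y := z) hm)
      have h2 : ∫⁻ v, {q : ℝ × ℝ | q.2 ∈ Set.Ico j (j + 2) ∧ c ≤ |q.2 - q.1|}.indicator
        (1 : ℝ × ℝ → ℝ≥0∞) (v, z) ∂(kap D (dual ρ) k₃ z) =
        kap D (dual ρ) k₃ z {v | z ∈ Set.Ico j (j + 2) ∧ c ≤ |z - v|} := h1
      rw [h2]
      by_cases hz : z ∈ Set.Ico j (j + 2)
      · rw [Set.indicator_of_mem hz]
        congr 1
        ext v
        simp only [Set.mem_setOf_eq, hz, true_and, abs_sub_comm z v]
      · rw [Set.indicator_of_notMem hz]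
        have : {v | z ∈ Set.Ico j (j + 2) ∧ c ≤ |z - v|} = ∅ := by
          rw [Set.eq_empty_iff_forall_notMem]
          rintro v ⟨h, _⟩
          exact hz h
        rw [this, measure_empty]
    simp only [hL, hR] at hd
    rw [hDI, hd, lintegral_indicator measurableSet_Ico, Measure.restrict_restrict measurableSet_Ico,
      Set.inter_comm]
  calc ∫⁻ v, r v ∂(kap D ρ K y)
      ≤ ∑' a : ℕ, ENNReal.ofReal (C / √K) * ∫⁻ v' in Set.Ico (a : ℝ) (a + 2), rp v' := hI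
    _ = ENNReal.ofReal (C / √K) * ∑' a : ℕ, ∫⁻ v' in Set.Ico (a : ℝ) (a + 2), rp v' :=
        ENNReal.tsum_mul_left
    _ ≤ ENNReal.ofReal (C / √K) * (2 * ∫⁻ v' in Set.Ici (0 : ℝ), rp v') := by gcongr
    _ = ENNReal.ofReal (2 * C / √K) *
        ∫⁻ z in D ∩ Set.Ico j (j + 2), kap D (dual ρ) k₃ z {x | c ≤ |x - z|} := by
        rw [hdual, ← mul_assoc]
        congr 1
        rw [mul_div_assoc, ENNReal.ofReal_mul (by norm_num), mul_comm]
        congr 1
        simp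

end Pool.Agent.BPT
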