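import Pool.Agent.MP_99a865_pr.FV.A4

open MeasureTheory ProbabilityTheory Filter Topology
open scoped ENNReal NNReal

namespace Pool.Agent.BPT

variable {D : Set ℝ} {ρ : Measure ℝ}

/-- sum of a function of the steps -/
noncomputable def A12a_T (Z : ℝ → ℝ) (k : ℕ) (ω : ℕ → ℝ) : ℝ := ∑ i ∈ Finset.range k, Z (ω i)

lemma A12a_meas {Z : ℝ → ℝ} (hZ : Measurable Z) (k : ℕ) : Measurable (A12a_T Z k) := by
  unfold A12a_T
  exact Finset.measurable_sum _ fun i _ => hZ.comp (measurable_pi_apply i)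

lemma A12a_bd {Z : ℝ → ℝ} {B : ℝ} (hB : ∀ x, |Z x| ≤ B) (k : ℕ) (ω : ℕ → ℝ) :
    |A12a_T Z k ω| ≤ k * B := by
  unfold A12a_T
  calc |∑ i ∈ Finset.range k, Z (ω i)| ≤ ∑ i ∈ Finset.range k, |Z (ω i)| :=
        Finset.abs_sum_le_sum_abs _ _
    _ ≤ ∑ _i ∈ Finset.range k, B := Finset.sum_le_sum fun i _ => hB _
    _ = k * B := by simp

lemma A12a_eval [IsProbabilityMeasure ρ] (g : ℝ → ℝ) (hg : Measurable g) (k : ℕ) :
    ∫ ω, g (ω k) ∂(seqLaw ρ) = ∫ x, g x ∂ρ := by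
  have h := measurePreserving_eval_infinitePi (fun _ : ℕ => ρ) k
  have h2 : (seqLaw ρ).map (fun ω => ω k) = ρ := h.map_eq
  conv_rhs => rw [← h2]
  rw [integral_map (measurable_pi_apply k).aemeasurable hg.aestronglyMeasurable]

lemma A12a_int {α : Type*} [MeasurableSpace α] (μ : Measure α) [IsProbabilityMeasure μ]
    (f : α → ℝ) (hf : Measurable f) (C : ℝ) (hC : ∀ x, |f x| ≤ C) : Integrable f μ :=
  Integrable.of_bound hf.aestronglyMeasurable C (ae_of_all _ hC)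

lemma A12a_iadd {α : Type*} [MeasurableSpace α] {μ : Measure α} {f g : α → ℝ}
    (hf : Integrable f μ) (hg : Integrable g μ) : Integrable (fun x => f x + g x) μ := hf.add hg

lemma A12a_icm {α : Type*} [MeasurableSpace α] {μ : Measure α} {f : α → ℝ} (c : ℝ)
    (hf : Integrable f μ) : Integrable (fun x => c * f x) μ := hf.const_mul c

lemma A12a_ind [IsProbabilityMeasure ρ] {Z : ℝ → ℝ} (hZ : Measurable Z) {B : ℝ}
    (hB : ∀ x, |Z x| ≤ B) (k p q : ℕ) :
    ∫ ω, (A12a_T Z k ω) ^ p * (Z (ω k)) ^ q ∂(seqLaw ρ) =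
      (∫ ω, (A12a_T Z k ω) ^ p ∂(seqLaw ρ)) * ∫ x, (Z x) ^ q ∂ρ := by
  have hB0 : 0 ≤ B := (abs_nonneg _).trans (hB 0)
  have key := integral_split ρ k
    (fun ω η : ℕ → ℝ => (A12a_T Z k ω) ^ p * (Z (η 0)) ^ q)
    (by
      apply Measurable.mul
      · exact ((A12a_meas hZ k).comp measurable_fst).pow_const p
      · exact (hZ.comp ((measurable_pi_apply 0).comp measurable_snd)).pow_const q)
    ((k * B) ^ p * B ^ q)
    (by
      intro ω η
      rw [abs_mul, abs_pow, abs_pow]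
      exact mul_le_mul (pow_le_pow_left₀ (abs_nonneg _) (A12a_bd hB k ω) p)
        (pow_le_pow_left₀ (abs_nonneg _) (hB _) q) (by positivity) (by positivity))
    (by
      intro ω ω' η h
      have : A12a_T Z k ω = A12a_T Z k ω' := by
        unfold A12a_T
        exact Finset.sum_congr rfl fun i hi => by rw [h i (Finset.mem_range.1 hi)]
      simp only [this])
  have e1 : ∀ ω : ℕ → ℝ, shift k ω 0 = ω k := fun ω => by simp [shift]
  simp only [e1] at key
  rw [key]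
  have e2 : ∀ ω : ℕ → ℝ, ∫ η, (A12a_T Z k ω) ^ p * (Z (η 0)) ^ q ∂(seqLaw ρ) =
      (A12a_T Z k ω) ^ p * ∫ x, (Z x) ^ q ∂ρ := by
    intro ω
    rw [integral_const_mul]
    congr 1
    exact A12a_eval (fun x => (Z x) ^ q) (hZ.pow_const q) 0
  simp only [e2]
  rw [integral_mul_const]

lemma A12a_mom [IsProbabilityMeasure ρ] {Z : ℝ → ℝ} (hZ : Measurable Z) {B : ℝ}
    (hB : ∀ x, |Z x| ≤ B) (h0 : ∫ x, Z x ∂ρ = 0) (h2 : ∫ x, (Z x) ^ 2 ∂ρ ≤ 1) (k : ℕ) :
    ∫ ω, A12a_T Z k ω ∂(seqLaw ρ) = 0 ∧ ∫ ω, (A12a_T Z k ω) ^ 2 ∂(seqLaw ρ) ≤ k ∧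
      ∫ ω, (A12a_T Z k ω) ^ 4 ∂(seqLaw ρ) ≤ 3 * (k : ℝ) ^ 2 + k * B ^ 2 := by
  have hB0 : 0 ≤ B := (abs_nonneg _).trans (hB 0)
  have h4 : ∫ x, (Z x) ^ 4 ∂ρ ≤ B ^ 2 := by
    have i2 : Integrable (fun x => (Z x) ^ 2) ρ := A12a_int ρ _ (hZ.pow_const 2) (B ^ 2)
      (fun x => by rw [abs_pow]; exact pow_le_pow_left₀ (abs_nonneg _) (hB x) 2)
    have i4 : Integrable (fun x => (Z x) ^ 4) ρ := A12a_int ρ _ (hZ.pow_const 4) (B ^ 4)
      (fun x => by rw [abs_pow]; exact pow_le_pow_left₀ (abs_nonneg _) (hB x) 4)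
    calc ∫ x, (Z x) ^ 4 ∂ρ ≤ ∫ x, B ^ 2 * (Z x) ^ 2 ∂ρ := by
          apply integral_mono i4 (i2.const_mul _)
          intro x
          have : (Z x) ^ 2 ≤ B ^ 2 := by
            rw [← sq_abs (Z x)]; exact pow_le_pow_left₀ (abs_nonneg _) (hB x) 2
          have h' : (Z x) ^ 4 = (Z x) ^ 2 * (Z x) ^ 2 := by ring
          show (Z x) ^ 4 ≤ B ^ 2 * (Z x) ^ 2
          rw [h']
          exact mul_le_mul_of_nonneg_right this (sq_nonneg _)
      _ = B ^ 2 * ∫ x, (Z x) ^ 2 ∂ρ := integral_const_mul _ _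
      _ ≤ B ^ 2 * 1 := mul_le_mul_of_nonneg_left h2 (sq_nonneg _)
      _ = B ^ 2 := mul_one _
  have hint : ∀ (k p q : ℕ), Integrable (fun ω => (A12a_T Z k ω) ^ p * (Z (ω k)) ^ q)
      (seqLaw ρ) := by
    intro k p q
    refine A12a_int _ _ (((A12a_meas hZ k).pow_const p).mul
      ((hZ.comp (measurable_pi_apply k)).pow_const q)) ((k * B) ^ p * B ^ q) ?_
    intro ω
    rw [abs_mul, abs_pow, abs_pow]
    exact mul_le_mul (pow_le_pow_left₀ (abs_nonneg _) (A12a_bd hB k ω) p)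
      (pow_le_pow_left₀ (abs_nonneg _) (hB _) q) (by positivity) (by positivity)
  have v0 : 0 ≤ ∫ x, (Z x) ^ 2 ∂ρ := integral_nonneg fun x => sq_nonneg _
  induction k with
  | zero => simp [A12a_T]
  | succ k ih =>
    obtain ⟨i1, i2, i3⟩ := ih
    have hT : ∀ ω : ℕ → ℝ, A12a_T Z (k + 1) ω = A12a_T Z k ω + Z (ω k) := fun ω => by
      simp [A12a_T, Finset.sum_range_succ]
    have w0 : 0 ≤ ∫ ω, (A12a_T Z k ω) ^ 2 ∂(seqLaw ρ) := integral_nonneg fun x => sq_nonneg _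
    refine ⟨?_, ?_, ?_⟩
    · have e : ∀ ω, A12a_T Z (k + 1) ω = (A12a_T Z k ω) ^ 1 * (Z (ω k)) ^ 0 +
          (A12a_T Z k ω) ^ 0 * (Z (ω k)) ^ 1 := fun ω => by rw [hT]; ring
      simp only [e]
      rw [integral_add (hint k 1 0) (hint k 0 1), A12a_ind hZ hB, A12a_ind hZ hB]
      simp only [pow_one, pow_zero, i1, h0]
      simp
    · have e : ∀ ω, (A12a_T Z (k + 1) ω) ^ 2 = (A12a_T Z k ω) ^ 2 * (Z (ω k)) ^ 0 +
          (2 * ((A12a_T Z k ω) ^ 1 * (Z (ω k)) ^ 1) + (A12a_T Z k ω) ^ 0 * (Z (ω k)) ^ 2) :=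
        fun ω => by rw [hT]; ring
      simp only [e]
      rw [integral_add (hint k 2 0) (A12a_iadd (A12a_icm 2 (hint k 1 1)) (hint k 0 2)),
        integral_add (A12a_icm 2 (hint k 1 1)) (hint k 0 2), integral_const_mul,
        A12a_ind hZ hB, A12a_ind hZ hB, A12a_ind hZ hB]
      simp only [pow_one, pow_zero, i1, h0, integral_const, probReal_univ, smul_eq_mul]
      push_cast
      linarith
    · have e : ∀ ω, (A12a_T Z (k + 1) ω) ^ 4 = (A12a_T Z k ω) ^ 4 * (Z (ω k)) ^ 0 +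
          (4 * ((A12a_T Z k ω) ^ 3 * (Z (ω k)) ^ 1) + (6 * ((A12a_T Z k ω) ^ 2 * (Z (ω k)) ^ 2) +
          (4 * ((A12a_T Z k ω) ^ 1 * (Z (ω k)) ^ 3) + (A12a_T Z k ω) ^ 0 * (Z (ω k)) ^ 4))) :=
        fun ω => by rw [hT]; ring
      simp only [e]
      have j1 := A12a_icm 4 (hint k 3 1)
      have j2 := A12a_icm 6 (hint k 2 2)
      have j3 := A12a_icm 4 (hint k 1 3)
      have j4 := A12a_iadd j3 (hint k 0 4)
      have j5 := A12a_iadd j2 j4
      rw [integral_add (hint k 4 0) (A12a_iadd j1 j5), integral_add j1 j5, integral_add j2 j4,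
        integral_add j3 (hint k 0 4),
        integral_const_mul, integral_const_mul, integral_const_mul,
        A12a_ind hZ hB, A12a_ind hZ hB, A12a_ind hZ hB, A12a_ind hZ hB, A12a_ind hZ hB]
      simp only [pow_one, pow_zero, i1, h0, integral_const, probReal_univ, smul_eq_mul]
      have h6 : (∫ ω, (A12a_T Z k ω) ^ 2 ∂(seqLaw ρ)) * (∫ x, (Z x) ^ 2 ∂ρ) ≤ k * 1 :=
        mul_le_mul i2 h2 v0 (Nat.cast_nonneg _)
      push_cast
      nlinarith

/-- truncated second moment of one step, `a² P(|X| ≥ a) → 0` -/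
theorem tail_small (hρ : Std ρ) : ∀ ε > (0 : ℝ), ∃ a₀ > (0 : ℝ), ∀ a ≥ a₀,
    (∫ x in {x | a ≤ |x|}, x ^ 2 ∂ρ ≤ ε) ∧ a ^ 2 * ρ.real {x | a ≤ |x|} ≤ ε ∧
      a * ∫ x in {x | a ≤ |x|}, |x| ∂ρ ≤ ε := by
  have := hρ.prob
  intro ε hε
  have hms : ∀ a : ℝ, MeasurableSet {x : ℝ | a ≤ |x|} := fun a =>
    measurableSet_le measurable_const continuous_abs.measurable
  have htend : Tendsto (fun a : ℝ => ∫ x in {x | a ≤ |x|}, x ^ 2 ∂ρ) atTop (𝓝 0) := by
    have h1 : ∀ a : ℝ, ∫ x in {x | a ≤ |x|}, x ^ 2 ∂ρ =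
        ∫ x, ({x : ℝ | a ≤ |x|}).indicator (fun x => x ^ 2) x ∂ρ := fun a =>
      (integral_indicator (hms a)).symm
    simp only [h1]
    have h2 : (0 : ℝ) = ∫ _x, (0 : ℝ) ∂ρ := by simp
    rw [h2]
    refine tendsto_integral_filter_of_dominated_convergence (fun x : ℝ => x ^ 2) ?_ ?_ hρ.int2 ?_
    · exact Eventually.of_forall fun a =>
        ((measurable_id.pow_const 2).indicator (hms a)).aestronglyMeasurable
    · refine Eventually.of_forall fun a => ae_of_all _ fun x => ?_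
      rw [Real.norm_eq_abs]
      by_cases hx : x ∈ {x : ℝ | a ≤ |x|}
      · rw [Set.indicator_of_mem hx, abs_of_nonneg (sq_nonneg x)]
      · rw [Set.indicator_of_notMem hx, abs_zero]; positivity
    · refine ae_of_all _ fun x => ?_
      apply tendsto_const_nhds.congr'
      filter_upwards [eventually_gt_atTop |x|] with a ha
      rw [Set.indicator_of_notMem]
      simp only [Set.mem_ofPred_eq, not_le]
      exact ha
  obtain ⟨a₁, ha₁⟩ := (Filter.eventually_atTop.1 (htend.eventually (gt_mem_nhds hε)))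
  refine ⟨max a₁ 1, lt_of_lt_of_le one_pos (le_max_right _ _), ?_⟩
  intro a ha
  have hapos : 0 < a := lt_of_lt_of_le one_pos ((le_max_right _ _).trans ha)
  have h0 := (ha₁ a ((le_max_left _ _).trans ha)).le
  refine ⟨h0, ?_, ?_⟩
  · calc a ^ 2 * ρ.real {x | a ≤ |x|} = ∫ _x in {x | a ≤ |x|}, a ^ 2 ∂ρ := by
          rw [setIntegral_const, smul_eq_mul, mul_comm]
      _ ≤ ∫ x in {x | a ≤ |x|}, x ^ 2 ∂ρ := by
          apply setIntegral_mono_on (integrable_const _).integrableOn hρ.int2.integrableOn (hms a)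
          intro x hx
          rw [← sq_abs x]
          exact pow_le_pow_left₀ hapos.le hx 2
      _ ≤ ε := h0
  · have hi : Integrable (fun x : ℝ => |x|) ρ := by
      have : Integrable (fun x : ℝ => x ^ 2 + 1) ρ := hρ.int2.add (integrable_const 1)
      refine this.mono' continuous_abs.measurable.aestronglyMeasurable (ae_of_all _ fun x => ?_)
      rw [Real.norm_eq_abs, abs_abs]
      nlinarith [sq_nonneg (|x| - 1), sq_abs x]
    calc a * ∫ x in {x | a ≤ |x|}, |x| ∂ρ = ∫ x in {x | a ≤ |x|}, a * |x| ∂ρ := by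
          rw [integral_const_mul]
      _ ≤ ∫ x in {x | a ≤ |x|}, x ^ 2 ∂ρ := by
          apply setIntegral_mono_on (hi.const_mul a).integrableOn hρ.int2.integrableOn (hms a)
          intro x hx
          rw [← sq_abs x, sq]
          exact mul_le_mul_of_nonneg_right hx (abs_nonneg _)
      _ ≤ ε := h0

/-- **[FV-A12a]** Refined Chebyshev inequality.
PROOF. Let `ω(b) = E[X²; |X| > b]`, which tends to 0 as `b → ∞`. Fix `η > 0` small and truncate:
`Y_i = X_i 1(|X_i| ≤ ηa)`, `c = E Y_i`, `|c| = |E[X; |X| > ηa]| ≤ ω(ηa)/(ηa)`.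
`P(|S_k| ≥ a) ≤ k P(|X| > ηa) + P(|∑ (Y_i - c)| ≥ a - k|c|)`. First term `≤ (k/a²) ω(ηa)/η²`.
If `k ≤ δ a²` (`δ ≤ 1`) then `k|c| ≤ a ω(ηa)/η ≤ a/2` for large `a`. Fourth moment:
`E (∑ (Y_i - c))⁴ ≤ k E(Y-c)⁴ + 3k² (E(Y-c)²)² ≤ k (2ηa)² + 3k²`, so the second term is at most
`16 (4 k η² a² + 3 k²)/a⁴ = (k/a²)(64 η² + 48 k/a²) ≤ (k/a²)(64 η² + 48 δ)`.
Choose `η`, then `δ`, then `a₀`. -/
theorem refined_cheb (hρ : Std ρ) : ∀ ε > (0 : ℝ), ∃ δ > (0 : ℝ), ∃ a₀ > (0 : ℝ), ∀ a ≥ a₀, ∀ k : ℕ,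
    (k : ℝ) ≤ δ * a ^ 2 → (seqLaw ρ).real {ω | a ≤ |S k ω|} ≤ ε * (k / a ^ 2) := by
  have := hρ.prob
  intro ε hε
  -- parameters
  obtain ⟨η, hη0, hη1, hη2⟩ : ∃ η : ℝ, 0 < η ∧ η ≤ 1 ∧ 64 * η ^ 2 ≤ ε / 3 := by
    refine ⟨min 1 (ε / 192), lt_min one_pos (by positivity), min_le_left _ _, ?_⟩
    have h1 : min 1 (ε / 192) ≤ 1 := min_le_left _ _
    have h2 : min 1 (ε / 192) ≤ ε / 192 := min_le_right _ _
    have h3 : 0 < min 1 (ε / 192) := lt_min one_pos (by positivity)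
    nlinarith
  obtain ⟨δ, hδ0, hδ1, hδ2⟩ : ∃ δ : ℝ, 0 < δ ∧ δ ≤ 1 ∧ 48 * δ ≤ ε / 3 := by
    refine ⟨min 1 (ε / 144), lt_min one_pos (by positivity), min_le_left _ _, ?_⟩
    have h2 : min 1 (ε / 144) ≤ ε / 144 := min_le_right _ _
    linarith
  obtain ⟨b₀, hb₀, hb⟩ := tail_small hρ (min (η / 2) (ε * η ^ 2 / 3))
    (lt_min (by positivity) (by positivity))
  refine ⟨δ, hδ0, b₀ / η, div_pos hb₀ hη0, ?_⟩
  intro a ha k hk
  have ha0 : 0 < a := lt_of_lt_of_le (div_pos hb₀ hη0) ha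
  set b := η * a with hbdef
  have hb0 : 0 < b := mul_pos hη0 ha0
  have hbb : b₀ ≤ b := by
    rw [hbdef]
    rw [ge_iff_le, div_le_iff₀ hη0] at ha
    linarith
  obtain ⟨-, t2, t3⟩ := hb b hbb
  have t2' := t2.trans (min_le_right _ _)
  have t3' := t3.trans (min_le_left _ _)
  have hk0 : (0 : ℝ) ≤ k := Nat.cast_nonneg _
  have hms : MeasurableSet {x : ℝ | b ≤ |x|} :=
    measurableSet_le measurable_const continuous_abs.measurable
  -- truncation
  set Y : ℝ → ℝ := fun x => if |x| < b then x else 0 with hY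
  have hYm : Measurable Y := by
    apply Measurable.ite _ measurable_id measurable_const
    exact measurableSet_lt continuous_abs.measurable measurable_const
  have hYb : ∀ x, |Y x| ≤ b := by
    intro x
    simp only [hY]
    split_ifs with h
    · exact h.le
    · simp [hb0.le]
  have hYi : Integrable Y ρ := A12a_int ρ Y hYm b hYb
  set c := ∫ x, Y x ∂ρ with hc
  have hxi : Integrable (fun x : ℝ => x) ρ := by
    have : Integrable (fun x : ℝ => x ^ 2 + 1) ρ := hρ.int2.add (integrable_const 1)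
    refine this.mono' measurable_id.aestronglyMeasurable (ae_of_all _ fun x => ?_)
    rw [Real.norm_eq_abs]
    nlinarith [sq_nonneg (|x| - 1), sq_abs x]
  have hcb : |c| ≤ b := by
    calc |c| ≤ ∫ x, |Y x| ∂ρ := abs_integral_le_integral_abs
      _ ≤ ∫ _x, b ∂ρ := integral_mono hYi.abs (integrable_const _) hYb
      _ = b := by simp
  have hcs : b * |c| ≤ η / 2 := by
    have e1 : c = -∫ x in {x : ℝ | b ≤ |x|}, x ∂ρ := by
      have e2 : ∀ x : ℝ, x = Y x + ({x : ℝ | b ≤ |x|}).indicator (fun x => x) x := by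
        intro x
        simp only [hY]
        by_cases h : |x| < b
        · rw [if_pos h, Set.indicator_of_notMem (by simpa using h)]; ring
        · rw [if_neg h, Set.indicator_of_mem (by simpa using h)]; ring
      have e3 : ∫ x, x ∂ρ = ∫ x, Y x ∂ρ + ∫ x, ({x : ℝ | b ≤ |x|}).indicator (fun x => x) x ∂ρ := by
        rw [← integral_add hYi (hxi.indicator hms)]
        exact integral_congr_ae (ae_of_all _ e2)
      rw [hρ.mean, integral_indicator hms] at e3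
      linarith
    have e4 : |c| ≤ ∫ x in {x : ℝ | b ≤ |x|}, |x| ∂ρ := by
      rw [e1, abs_neg]
      exact abs_integral_le_integral_abs
    exact (mul_le_mul_of_nonneg_left e4 hb0.le).trans t3'
  have hkc : k * |c| ≤ a / 2 := by
    -- k |c| ≤ δ a² |c| ≤ a² |c|, b |c| = η a |c| ≤ η/2
    have h1 : a * |c| ≤ 1 / 2 := by
      have : η * (a * |c|) ≤ η * (1 / 2) := by
        calc η * (a * |c|) = b * |c| := by rw [hbdef]; ring
          _ ≤ η / 2 := hcs
          _ = η * (1 / 2) := by ring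
      exact le_of_mul_le_mul_left this hη0
    have h2 : (k : ℝ) ≤ a ^ 2 := hk.trans (by nlinarith [sq_nonneg a])
    calc k * |c| ≤ a ^ 2 * |c| := mul_le_mul_of_nonneg_right h2 (abs_nonneg _)
      _ = a * (a * |c|) := by ring
      _ ≤ a * (1 / 2) := mul_le_mul_of_nonneg_left h1 ha0.le
      _ = a / 2 := by ring
  -- centred variables
  set Z : ℝ → ℝ := fun x => Y x - c with hZ
  have hZm : Measurable Z := hYm.sub_const c
  have hZb : ∀ x, |Z x| ≤ 2 * b := by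
    intro x
    have := abs_sub (Y x) c
    simp only [hZ]
    linarith [hYb x]
  have hZ0 : ∫ x, Z x ∂ρ = 0 := by
    simp only [hZ]
    rw [integral_sub hYi (integrable_const _)]
    simp [hc]
  have hZ2 : ∫ x, (Z x) ^ 2 ∂ρ ≤ 1 := by
    have iY2 : Integrable (fun x => (Y x) ^ 2) ρ := A12a_int ρ _ (hYm.pow_const 2) (b ^ 2)
      (fun x => by rw [abs_pow]; exact pow_le_pow_left₀ (abs_nonneg _) (hYb x) 2)
    have e : ∀ x, (Z x) ^ 2 = (Y x) ^ 2 + ((-(2 * c)) * Y x + c ^ 2) := fun x => by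
      simp only [hZ]; ring
    simp only [e]
    have j1 := A12a_icm (-(2 * c)) hYi
    have j2 : Integrable (fun _ : ℝ => c ^ 2) ρ := integrable_const _
    rw [integral_add iY2 (A12a_iadd j1 j2), integral_add j1 j2, integral_const_mul, ← hc]
    simp only [integral_const, probReal_univ, smul_eq_mul, one_mul]
    have h1 : ∫ x, (Y x) ^ 2 ∂ρ ≤ 1 := by
      rw [← hρ.var]
      apply integral_mono iY2 hρ.int2
      intro x
      simp only [hY]
      split_ifs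
      · exact le_rfl
      · simpa using sq_nonneg x
    nlinarith [sq_nonneg c]
  obtain ⟨-, -, m4⟩ := A12a_mom hZm hZb hZ0 hZ2 k
  -- decomposition of the event
  have hsub : {ω : ℕ → ℝ | a ≤ |S k ω|} ⊆
      (⋃ i ∈ Finset.range k, (fun ω : ℕ → ℝ => ω i) ⁻¹' {x : ℝ | b ≤ |x|}) ∪
        {ω | (a / 2) ^ 4 ≤ (A12a_T Z k ω) ^ 4} := by
    intro ω hω
    by_cases hex : ∃ i ∈ Finset.range k, b ≤ |ω i|
    · left
      obtain ⟨i, hi, h⟩ := hex
      exact Set.mem_biUnion hi h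
    · right
      push Not at hex
      have hS : S k ω = A12a_T Z k ω + k * c := by
        unfold S A12a_T
        simp only [hZ]
        rw [Finset.sum_sub_distrib]
        have : ∑ i ∈ Finset.range k, Y (ω i) = ∑ i ∈ Finset.range k, ω i := by
          apply Finset.sum_congr rfl
          intro i hi
          simp only [hY]
          rw [if_pos (hex i hi)]
        rw [this]
        simp
      have h1 : a ≤ |S k ω| := hω
      have h2 : |S k ω| ≤ |A12a_T Z k ω| + k * |c| := by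
        rw [hS]
        refine (abs_add_le _ _).trans ?_
        rw [abs_mul, abs_of_nonneg hk0]
      have h3 : a / 2 ≤ |A12a_T Z k ω| := by linarith
      show (a / 2) ^ 4 ≤ (A12a_T Z k ω) ^ 4
      rw [← (show Even 4 by decide).pow_abs (A12a_T Z k ω)]
      exact pow_le_pow_left₀ (by positivity) h3 4
  have p1 : (seqLaw ρ).real (⋃ i ∈ Finset.range k, (fun ω : ℕ → ℝ => ω i) ⁻¹' {x : ℝ | b ≤ |x|})
      ≤ k * ρ.real {x | b ≤ |x|} := by
    refine (measureReal_biUnion_finset_le _ _).trans ?_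
    have : ∀ i ∈ Finset.range k, (seqLaw ρ).real ((fun ω : ℕ → ℝ => ω i) ⁻¹' {x : ℝ | b ≤ |x|}) =
        ρ.real {x | b ≤ |x|} := by
      intro i _
      have h := measurePreserving_eval_infinitePi (fun _ : ℕ => ρ) i
      have := h.measure_preimage hms.nullMeasurableSet
      simp only [measureReal_def]
      exact congrArg ENNReal.toReal this
    rw [Finset.sum_congr rfl this]
    simp
  have p1' : (k : ℝ) * ρ.real {x | b ≤ |x|} ≤ ε / 3 * (k / a ^ 2) := by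
    have h1 : η ^ 2 * (a ^ 2 * ρ.real {x | b ≤ |x|}) ≤ η ^ 2 * (ε / 3) := by
      calc η ^ 2 * (a ^ 2 * ρ.real {x | b ≤ |x|}) = b ^ 2 * ρ.real {x | b ≤ |x|} := by
            rw [hbdef]; ring
        _ ≤ ε * η ^ 2 / 3 := t2'
        _ = η ^ 2 * (ε / 3) := by ring
    have h2 : a ^ 2 * ρ.real {x | b ≤ |x|} ≤ ε / 3 := le_of_mul_le_mul_left h1 (by positivity)
    have h3 : ρ.real {x | b ≤ |x|} ≤ ε / 3 / a ^ 2 := by
      rw [le_div_iff₀ (by positivity)]
      linarith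
    calc (k : ℝ) * ρ.real {x | b ≤ |x|} ≤ k * (ε / 3 / a ^ 2) := mul_le_mul_of_nonneg_left h3 hk0
      _ = ε / 3 * (k / a ^ 2) := by ring
  have p2 : (seqLaw ρ).real {ω | (a / 2) ^ 4 ≤ (A12a_T Z k ω) ^ 4} ≤ (2 * ε / 3) * (k / a ^ 2) := by
    have hi : Integrable (fun ω => (A12a_T Z k ω) ^ 4) (seqLaw ρ) :=
      A12a_int _ _ ((A12a_meas hZm k).pow_const 4) ((k * (2 * b)) ^ 4) (fun ω => by
        rw [abs_pow]; exact pow_le_pow_left₀ (abs_nonneg _) (A12a_bd hZb k ω) 4)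
    have hmk := mul_meas_ge_le_integral_of_nonneg (μ := seqLaw ρ)
      (f := fun ω => (A12a_T Z k ω) ^ 4) (ae_of_all _ fun ω => by positivity) hi ((a / 2) ^ 4)
    have h1 : (a / 2) ^ 4 * (seqLaw ρ).real {ω | (a / 2) ^ 4 ≤ (A12a_T Z k ω) ^ 4} ≤
        3 * (k : ℝ) ^ 2 + k * (2 * b) ^ 2 := hmk.trans m4
    have h2 : 3 * (k : ℝ) ^ 2 + k * (2 * b) ^ 2 ≤ (a / 2) ^ 4 * ((2 * ε / 3) * (k / a ^ 2)) := by
      have e1 : (a / 2) ^ 4 * ((2 * ε / 3) * (k / a ^ 2)) = (2 * ε / 3) / 16 * k * a ^ 2 := by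
        field_simp
        ring
      rw [e1]
      have e0 : (0 : ℝ) ≤ k * a ^ 2 := by positivity
      have e2 : 3 * (k : ℝ) ^ 2 ≤ 3 * (k * (δ * a ^ 2)) := by
        have := mul_le_mul_of_nonneg_left hk hk0
        linarith
      have e3 : 3 * (k * (δ * a ^ 2)) ≤ ε / 3 / 16 * k * a ^ 2 := by
        have := mul_le_mul_of_nonneg_right hδ2 e0
        linarith
      have e4 : (k : ℝ) * (2 * b) ^ 2 ≤ ε / 3 / 16 * k * a ^ 2 := by
        have := mul_le_mul_of_nonneg_right hη2 e0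
        rw [hbdef]
        linarith
      linarith
    exact le_of_mul_le_mul_left (h1.trans h2) (by positivity)
  calc (seqLaw ρ).real {ω | a ≤ |S k ω|} ≤ _ := measureReal_mono hsub
    _ ≤ _ := measureReal_union_le _ _
    _ ≤ ε / 3 * (k / a ^ 2) + (2 * ε / 3) * (k / a ^ 2) := add_le_add (p1.trans p1') p2
    _ = ε * (k / a ^ 2) := by ring

end Pool.Agent.BPT
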