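import Pool.Agent.MP_99a865_pr.FV.A12a
import Pool.Agent.MP_99a865_pr.FV.A9

open MeasureTheory ProbabilityTheory Filter Topology
open scoped ENNReal NNReal

namespace Pool.Agent.BPT

variable {D : Set ℝ} {ρ : Measure ℝ}

/-- first passage over `ℓ` at time `i` while alive -/
def A12b_E (D : Set ℝ) (x ℓ : ℝ) (i : ℕ) : Set (ℕ → ℝ) :=
  {ω | Alive D x i ω ∧ (∀ j, 1 ≤ j → j < i → x + S j ω < ℓ) ∧ ℓ ≤ x + S i ω}

lemma A12b_E_meas (hD : Dom D) (x ℓ : ℝ) (i : ℕ) : MeasurableSet (A12b_E D x ℓ i) := by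
  have e : A12b_E D x ℓ i = {ω | Alive D x i ω} ∩
      ((⋂ j : ℕ, {ω | 1 ≤ j → j < i → x + S j ω < ℓ}) ∩ {ω | ℓ ≤ x + S i ω}) := by
    ext ω
    simp [A12b_E]
  rw [e]
  refine (measurableSet_alive hD x i).inter (MeasurableSet.inter ?_ ?_)
  · refine MeasurableSet.iInter fun j => ?_
    by_cases h1 : 1 ≤ j
    · by_cases h2 : j < i
      · simp only [h1, h2, forall_true_left]
        exact measurableSet_lt ((measurable_S j).const_add x) measurable_const
      · simp [h2]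
    · simp [h1]
  · exact measurableSet_le measurable_const ((measurable_S i).const_add x)

lemma A12b_S_dep {i : ℕ} {ω ω' : ℕ → ℝ} (h : ∀ j < i, ω j = ω' j) {j : ℕ} (hj : j ≤ i) :
    S j ω = S j ω' := by
  unfold S
  exact Finset.sum_congr rfl fun l hl => h l (lt_of_lt_of_le (Finset.mem_range.1 hl) hj)

lemma A12b_alive_dep (x : ℝ) {i : ℕ} {ω ω' : ℕ → ℝ} (h : ∀ j < i, ω j = ω' j) :
    Alive D x i ω ↔ Alive D x i ω' := by
  unfold Alive
  constructor
  · intro H j h1 h2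
    rw [← A12b_S_dep h h2]; exact H j h1 h2
  · intro H j h1 h2
    rw [A12b_S_dep h h2]; exact H j h1 h2

lemma A12b_E_dep (x ℓ : ℝ) {i : ℕ} {ω ω' : ℕ → ℝ} (h : ∀ j < i, ω j = ω' j) :
    ω ∈ A12b_E D x ℓ i ↔ ω' ∈ A12b_E D x ℓ i := by
  unfold A12b_E
  simp only [Set.mem_ofPred_eq]
  rw [A12b_alive_dep x h, A12b_S_dep h le_rfl]
  constructor
  · rintro ⟨h1, h2, h3⟩
    refine ⟨h1, fun j a b => ?_, h3⟩
    rw [← A12b_S_dep h b.le]; exact h2 j a b
  · rintro ⟨h1, h2, h3⟩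
    refine ⟨h1, fun j a b => ?_, h3⟩
    rw [A12b_S_dep h b.le]; exact h2 j a b

lemma A12b_E_disj (x ℓ : ℝ) {i j : ℕ} (hi : 1 ≤ i) (hj : 1 ≤ j) (hij : i ≠ j) :
    Disjoint (A12b_E D x ℓ i) (A12b_E D x ℓ j) := by
  rw [Set.disjoint_left]
  rintro ω ⟨-, a2, a3⟩ ⟨-, b2, b3⟩
  rcases lt_or_gt_of_ne hij with h | h
  · exact absurd a3 (not_le.2 (b2 i hi h))
  · exact absurd b3 (not_le.2 (a2 j hj h))

/-- existence of the first passage -/
lemma A12b_first (x ℓ : ℝ) {k : ℕ} {ω : ℕ → ℝ} (hal : Alive D x k ω) {j : ℕ} (hj1 : 1 ≤ j)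
    (hjk : j ≤ k) (hj : ℓ ≤ x + S j ω) : ∃ i, 1 ≤ i ∧ i ≤ j ∧ ω ∈ A12b_E D x ℓ i := by
  classical
  have hex : ∃ i, 1 ≤ i ∧ ℓ ≤ x + S i ω := ⟨j, hj1, hj⟩
  obtain ⟨h1, h2⟩ := Nat.find_spec hex
  have h3 : Nat.find hex ≤ j := Nat.find_min' hex ⟨hj1, hj⟩
  refine ⟨Nat.find hex, h1, h3, ?_, ?_, h2⟩
  · intro l l1 l2
    exact hal l l1 (l2.trans (h3.trans hjk))
  · intro l l1 l2
    have := Nat.find_min hex l2
    push Not at this
    exact this l1

lemma A12b_markov [IsProbabilityMeasure ρ] (i : ℕ) (x : ℝ) (A : Set (ℕ → ℝ))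
    (hA : MeasurableSet A)
    (hdep : ∀ ω ω' : ℕ → ℝ, (∀ j < i, ω j = ω' j) → (ω ∈ A ↔ ω' ∈ A))
    (G : ℝ → (ℕ → ℝ) → ℝ≥0∞) (hG : Measurable (Function.uncurry G)) :
    ∫⁻ ω in A, G (x + S i ω) (shift i ω) ∂(seqLaw ρ) =
      ∫⁻ ω in A, ∫⁻ η, G (x + S i ω) η ∂(seqLaw ρ) ∂(seqLaw ρ) := by
  have key := lintegral_split ρ i
    (fun ω η => A.indicator (fun _ => (1 : ℝ≥0∞)) ω * G (x + S i ω) η)
    (by
      apply Measurable.mul
      · exact (measurable_const.indicator hA).comp measurable_fst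
      · exact hG.comp ((((measurable_S i).const_add x).comp measurable_fst).prodMk measurable_snd))
    (by
      intro ω ω' η h
      have h1 : A.indicator (fun _ => (1 : ℝ≥0∞)) ω = A.indicator (fun _ => (1 : ℝ≥0∞)) ω' := by
        by_cases hω : ω ∈ A
        · rw [Set.indicator_of_mem hω, Set.indicator_of_mem ((hdep _ _ h).1 hω)]
        · rw [Set.indicator_of_notMem hω, Set.indicator_of_notMem (fun h' => hω ((hdep _ _ h).2 h'))]
      simp only [h1, A12b_S_dep h le_rfl])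
  have e : ∀ g : (ℕ → ℝ) → ℝ≥0∞, ∀ ω, A.indicator (fun _ => (1 : ℝ≥0∞)) ω * g ω =
      A.indicator g ω := by
    intro g ω
    by_cases hω : ω ∈ A
    · rw [Set.indicator_of_mem hω, Set.indicator_of_mem hω, one_mul]
    · rw [Set.indicator_of_notMem hω, Set.indicator_of_notMem hω, zero_mul]
  have e1 : ∀ ω : ℕ → ℝ, A.indicator (fun _ => (1 : ℝ≥0∞)) ω * G (x + S i ω) (shift i ω) =
      A.indicator (fun ω => G (x + S i ω) (shift i ω)) ω := fun ω =>
    e (fun ω => G (x + S i ω) (shift i ω)) ω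
  have e2 : ∀ ω : ℕ → ℝ, ∫⁻ η, A.indicator (fun _ => (1 : ℝ≥0∞)) ω * G (x + S i ω) η ∂(seqLaw ρ) =
      A.indicator (fun ω => ∫⁻ η, G (x + S i ω) η ∂(seqLaw ρ)) ω := by
    intro ω
    have hm : Measurable fun η => G (x + S i ω) η := hG.comp measurable_prodMk_left
    rw [lintegral_const_mul _ hm]
    exact e (fun ω => ∫⁻ η, G (x + S i ω) η ∂(seqLaw ρ)) ω
  simp only [e1, e2] at key
  rw [lintegral_indicator hA, lintegral_indicator hA] at key
  exact key

lemma A12b_ind [IsProbabilityMeasure ρ] (i : ℕ) (A B : Set (ℕ → ℝ))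
    (hA : MeasurableSet A) (hB : MeasurableSet B)
    (hdep : ∀ ω ω' : ℕ → ℝ, (∀ j < i, ω j = ω' j) → (ω ∈ A ↔ ω' ∈ A)) :
    seqLaw ρ (A ∩ shift i ⁻¹' B) = seqLaw ρ A * seqLaw ρ B := by
  have key := A12b_markov (ρ := ρ) i 0 A hA hdep (fun _ η => B.indicator (fun _ => 1) η)
    ((measurable_const.indicator hB).comp measurable_snd)
  have e1 : ∀ ω : ℕ → ℝ, B.indicator (fun _ => (1 : ℝ≥0∞)) (shift i ω) =
      (shift i ⁻¹' B).indicator (fun _ => (1 : ℝ≥0∞)) ω := fun ω => rfl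
  simp only [e1] at key
  rw [lintegral_indicator (measurable_shift i hB), lintegral_indicator hB] at key
  simp only [lintegral_const, one_mul, MeasurableSet.univ, Measure.restrict_apply,
    Set.univ_inter] at key
  rw [Measure.restrict_apply (measurable_shift i hB)] at key
  rw [Set.inter_comm, key, mul_comm]

/-- **[FV-A12b]** First passage over a level for the killed walk. `τ` is the first time `i ≥ 1` with
`x + S_i ≥ ℓ`; the left side is `E_x[x + S_τ; τ ≤ k, τ < N]`.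
PROOF. By the Markov property at time `i`, `E_x[x+S_k; N > k, τ = i] = E_x[ee (k-i) (x+S_i); N > i, τ = i]
≥ E_x[x + S_i; N > i, τ = i]` (`le_ee`); sum over `i`: the total is at most `ee k x`. -/
theorem cross (hD : Dom D) (hρ : Std ρ) (k : ℕ) (x ℓ : ℝ) (hx : 0 ≤ x) :
    ∑ i ∈ Finset.Icc 1 k, ∫⁻ ω in {ω | Alive D x i ω ∧ (∀ j, 1 ≤ j → j < i → x + S j ω < ℓ) ∧
      ℓ ≤ x + S i ω}, ENNReal.ofReal (x + S i ω) ∂(seqLaw ρ) ≤ ee D ρ k x := by
  classical
  have := hρ.prob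
  change ∑ i ∈ Finset.Icc 1 k, ∫⁻ ω in A12b_E D x ℓ i, ENNReal.ofReal (x + S i ω) ∂(seqLaw ρ) ≤ _
  have step : ∀ i ∈ Finset.Icc 1 k,
      ∫⁻ ω in A12b_E D x ℓ i, ENNReal.ofReal (x + S i ω) ∂(seqLaw ρ) ≤
      ∫⁻ ω in A12b_E D x ℓ i ∩ {ω | Alive D x k ω}, ENNReal.ofReal (x + S k ω) ∂(seqLaw ρ) := by
    intro i hi
    obtain ⟨hi1, hik⟩ := Finset.mem_Icc.1 hi
    have hGm : Measurable (Function.uncurry (fun (y : ℝ) (η : ℕ → ℝ) =>
        ({p : ℝ × (ℕ → ℝ) | Alive D p.1 (k - i) p.2}).indicator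
          (fun p => ENNReal.ofReal (p.1 + S (k - i) p.2)) (y, η))) := by
      apply Measurable.indicator _ (measurableSet_alive' hD (k - i))
      exact (measurable_fst.add ((measurable_S (k - i)).comp measurable_snd)).ennreal_ofReal
    have key := A12b_markov (ρ := ρ) i x (A12b_E D x ℓ i) (A12b_E_meas hD x ℓ i)
      (fun ω ω' h => A12b_E_dep x ℓ h) _ hGm
    have hki : k = i + (k - i) := by omega
    have e1 : ∀ ω : ℕ → ℝ, ({p : ℝ × (ℕ → ℝ) | Alive D p.1 (k - i) p.2}).indicator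
          (fun p => ENNReal.ofReal (p.1 + S (k - i) p.2)) (x + S i ω, shift i ω) =
        if Alive D (x + S i ω) (k - i) (shift i ω) then ENNReal.ofReal (x + S k ω) else 0 := by
      intro ω
      have hs : x + S k ω = x + S i ω + S (k - i) (shift i ω) := by
        conv_lhs => rw [hki, S_shift]
        ring
      simp only [Set.indicator, Set.mem_ofPred_eq, hs]
    have e2 : ∫⁻ ω in A12b_E D x ℓ i ∩ {ω | Alive D x k ω}, ENNReal.ofReal (x + S k ω) ∂(seqLaw ρ)
        = ∫⁻ ω in A12b_E D x ℓ i, ({p : ℝ × (ℕ → ℝ) | Alive D p.1 (k - i) p.2}).indicator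
          (fun p => ENNReal.ofReal (p.1 + S (k - i) p.2)) (x + S i ω, shift i ω) ∂(seqLaw ρ) := by
      rw [Set.inter_comm, ← Measure.restrict_restrict (measurableSet_alive hD x k),
        ← lintegral_indicator (measurableSet_alive hD x k)]
      apply setLIntegral_congr_fun (A12b_E_meas hD x ℓ i)
      intro ω hω
      simp only [e1]
      simp only [Set.indicator, Set.mem_ofPred_eq]
      have hiff : Alive D x k ω ↔ Alive D (x + S i ω) (k - i) (shift i ω) := by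
        conv_lhs => rw [hki, alive_add]
        exact and_iff_right hω.1
      by_cases hal : Alive D x k ω
      · rw [if_pos hal, if_pos (hiff.1 hal)]
      · rw [if_neg hal, if_neg (fun h => hal (hiff.2 h))]
    rw [e2, key]
    apply setLIntegral_mono' (A12b_E_meas hD x ℓ i)
    intro ω hω
    have hnn : 0 ≤ x + S i ω := by
      have := hω.1 i hi1 le_rfl
      exact hD.nonneg this
    refine (le_ee hD hρ (k - i) (x + S i ω) hnn).trans (le_of_eq ?_)
    unfold ee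
    rw [lintegral_kap_eq hD _ _ _ ENNReal.measurable_ofReal,
      ← lintegral_indicator (measurableSet_alive hD _ _)]
    apply lintegral_congr
    intro η
    simp only [Set.indicator, Set.mem_ofPred_eq]
  calc ∑ i ∈ Finset.Icc 1 k, ∫⁻ ω in A12b_E D x ℓ i, ENNReal.ofReal (x + S i ω) ∂(seqLaw ρ)
      ≤ ∑ i ∈ Finset.Icc 1 k, ∫⁻ ω in A12b_E D x ℓ i ∩ {ω | Alive D x k ω},
          ENNReal.ofReal (x + S k ω) ∂(seqLaw ρ) := Finset.sum_le_sum step
    _ = ∫⁻ ω in ⋃ i ∈ Finset.Icc 1 k, (A12b_E D x ℓ i ∩ {ω | Alive D x k ω}),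
          ENNReal.ofReal (x + S k ω) ∂(seqLaw ρ) := by
        rw [lintegral_biUnion_finset]
        · intro i hi j hj hij
          exact (A12b_E_disj x ℓ (Finset.mem_Icc.1 hi).1 (Finset.mem_Icc.1 hj).1 hij).mono
            Set.inter_subset_left Set.inter_subset_left
        · intro i _
          exact (A12b_E_meas hD x ℓ i).inter (measurableSet_alive hD x k)
    _ ≤ ∫⁻ ω in {ω | Alive D x k ω}, ENNReal.ofReal (x + S k ω) ∂(seqLaw ρ) := by
        apply lintegral_mono_set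
        apply Set.iUnion₂_subset
        intro i _
        exact Set.inter_subset_right
    _ = ee D ρ k x := by
        unfold ee
        rw [lintegral_kap_eq hD _ _ _ ENNReal.measurable_ofReal]

lemma A12b_surv_sum (hD : Dom D) (hρ : Std ρ) : ∃ C > (0 : ℝ), ∀ k : ℕ, ∀ x : ℝ, 0 ≤ x →
    ∑ i ∈ Finset.range k, (seqLaw ρ).real {ω | Alive D x i ω} ≤ C * (1 + x) * √k := by
  have := hρ.prob
  obtain ⟨C, hC, h⟩ := surv hD hρ
  refine ⟨1 + 2 * C, by positivity, ?_⟩
  intro k x hx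
  have hp : ∀ i : ℕ, 1 ≤ i → (seqLaw ρ).real {ω | Alive D x i ω} ≤ C * (1 + x) / √i := by
    intro i hi
    have := h i hi x hx
    rwa [measureReal_def, kap_univ_eq hD, ← measureReal_def] at this
  have claim : ∀ m : ℕ, ∑ i ∈ Finset.range (m + 1), (seqLaw ρ).real {ω | Alive D x i ω} ≤
      1 + 2 * C * (1 + x) * √m := by
    intro m
    induction m with
    | zero =>
      simp only [zero_add, Finset.sum_range_one, Nat.cast_zero, Real.sqrt_zero, mul_zero, add_zero]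
      exact measureReal_le_one
    | succ m ih =>
      rw [Finset.sum_range_succ]
      have h1 := hp (m + 1) (by omega)
      set s := √(m : ℝ) with hs
      set t := √((m + 1 : ℕ) : ℝ) with ht
      have hs0 : 0 ≤ s := Real.sqrt_nonneg _
      have ht0 : 0 < t := Real.sqrt_pos.2 (by positivity)
      have hs2 : s ^ 2 = m := Real.sq_sqrt (Nat.cast_nonneg _)
      have ht2 : t ^ 2 = m + 1 := by
        rw [ht, Real.sq_sqrt (Nat.cast_nonneg _)]; push_cast; ring
      have h2 : 1 / t ≤ 2 * (t - s) := by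
        rw [div_le_iff₀ ht0]
        nlinarith [sq_nonneg (t - s)]
      have h3 : C * (1 + x) / t ≤ C * (1 + x) * (2 * (t - s)) := by
        calc C * (1 + x) / t = C * (1 + x) * (1 / t) := by ring
          _ ≤ _ := mul_le_mul_of_nonneg_left h2 (by positivity)
      linarith
  rcases k with _ | m
  · simp
  · refine (claim m).trans ?_
    have h1 : √(m : ℝ) ≤ √((m + 1 : ℕ) : ℝ) := Real.sqrt_le_sqrt (by push_cast; linarith)
    have h2 : 1 ≤ √((m + 1 : ℕ) : ℝ) := by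
      rw [Real.one_le_sqrt]; push_cast; linarith [Nat.cast_nonneg (α := ℝ) m]
    have h3 : 1 ≤ (1 + x) * √((m + 1 : ℕ) : ℝ) := by nlinarith
    have h4 : 2 * C * (1 + x) * √(m : ℝ) ≤ 2 * C * (1 + x) * √((m + 1 : ℕ) : ℝ) :=
      mul_le_mul_of_nonneg_left h1 (by positivity)
    linarith

/-- a large step while alive -/
lemma A12b_jump (hD : Dom D) (hρ : Std ρ) (k : ℕ) (x b : ℝ) :
    (seqLaw ρ).real {ω | ∃ i < k, Alive D x i ω ∧ b ≤ |ω i|} ≤
      (∑ i ∈ Finset.range k, (seqLaw ρ).real {ω | Alive D x i ω}) * ρ.real {y | b ≤ |y|} := by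
  have := hρ.prob
  have hm1 : MeasurableSet {y : ℝ | b ≤ |y|} :=
    measurableSet_le measurable_const continuous_abs.measurable
  have hm : MeasurableSet {η : ℕ → ℝ | b ≤ |η 0|} :=
    (measurable_pi_apply 0 : Measurable fun η : ℕ → ℝ => η 0) hm1
  have hP : seqLaw ρ {η : ℕ → ℝ | b ≤ |η 0|} = ρ {y | b ≤ |y|} :=
    (measurePreserving_eval_infinitePi (fun _ : ℕ => ρ) 0).measure_preimage hm1.nullMeasurableSet
  have hsub : {ω : ℕ → ℝ | ∃ i < k, Alive D x i ω ∧ b ≤ |ω i|} ⊆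
      ⋃ i ∈ Finset.range k, ({ω | Alive D x i ω} ∩ shift i ⁻¹' {η : ℕ → ℝ | b ≤ |η 0|}) := by
    rintro ω ⟨i, hi, h1, h2⟩
    refine Set.mem_biUnion (Finset.mem_range.2 hi) ⟨h1, ?_⟩
    simpa [shift] using h2
  refine (measureReal_mono hsub (measure_ne_top _ _)).trans ((measureReal_biUnion_finset_le _ _).trans ?_)
  rw [Finset.sum_mul]
  apply Finset.sum_le_sum
  intro i _
  apply le_of_eq
  simp only [measureReal_def]
  rw [A12b_ind i _ _ (measurableSet_alive hD x i) hm (fun ω ω' h => A12b_alive_dep x h), hP,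
    ENNReal.toReal_mul]

/-- probability of passing the level -/
lemma A12b_pass (hD : Dom D) (hρ : Std ρ) : ∃ C > (0 : ℝ), ∀ (k : ℕ) (x ℓ : ℝ), 0 ≤ x → 0 < ℓ →
    ∑ i ∈ Finset.Icc 1 k, (seqLaw ρ).real (A12b_E D x ℓ i) ≤ C * (1 + x) / ℓ := by
  have := hρ.prob
  obtain ⟨C, hC⟩ := ee_bound hD hρ
  refine ⟨C + 1, by positivity, ?_⟩
  intro k x ℓ hx hℓ
  have h1 : ∑ i ∈ Finset.Icc 1 k, ENNReal.ofReal ℓ * seqLaw ρ (A12b_E D x ℓ i) ≤
      C * ENNReal.ofReal (1 + x) := by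
    refine le_trans (Finset.sum_le_sum fun i _ => ?_) ((cross hD hρ k x ℓ hx).trans (hC k x hx))
    rw [← setLIntegral_const]
    apply setLIntegral_mono' (A12b_E_meas hD x ℓ i)
    intro ω hω
    exact ENNReal.ofReal_le_ofReal hω.2.2
  have h2 := ENNReal.toReal_mono (by finiteness) h1
  rw [ENNReal.toReal_sum (fun i _ => by finiteness)] at h2
  simp only [ENNReal.toReal_mul, ENNReal.toReal_ofReal hℓ.le, ENNReal.coe_toReal,
    ENNReal.toReal_ofReal (by positivity : 0 ≤ 1 + x)] at h2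
  rw [← Finset.mul_sum] at h2
  rw [le_div_iff₀ hℓ, mul_comm]
  refine h2.trans ?_
  have : (0 : ℝ) ≤ 1 + x := by positivity
  nlinarith

/-- a large displacement after the passage -/
lemma A12b_after (hD : Dom D) (hρ : Std ρ) (k : ℕ) (x ℓ b : ℝ) (hb : 0 < b) :
    (seqLaw ρ).real {ω | ∃ i, 1 ≤ i ∧ i ≤ k ∧ ω ∈ A12b_E D x ℓ i ∧ ∃ j ≤ k, b ≤ |S j (shift i ω)|} ≤
      (∑ i ∈ Finset.Icc 1 k, (seqLaw ρ).real (A12b_E D x ℓ i)) * (k / b ^ 2) := by
  have := hρ.prob
  have hm : MeasurableSet {η : ℕ → ℝ | ∃ j ≤ k, b ≤ |S j η|} := by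
    have e : {η : ℕ → ℝ | ∃ j ≤ k, b ≤ |S j η|} =
        ⋃ j ∈ Finset.range (k + 1), {η : ℕ → ℝ | b ≤ |S j η|} := by
      ext η; simp
    rw [e]
    refine Finset.measurableSet_biUnion _ fun j _ => ?_
    exact measurableSet_le measurable_const (continuous_abs.measurable.comp (measurable_S j))
  have hsub : {ω | ∃ i, 1 ≤ i ∧ i ≤ k ∧ ω ∈ A12b_E D x ℓ i ∧ ∃ j ≤ k, b ≤ |S j (shift i ω)|} ⊆
      ⋃ i ∈ Finset.Icc 1 k, (A12b_E D x ℓ i ∩ shift i ⁻¹' {η : ℕ → ℝ | ∃ j ≤ k, b ≤ |S j η|}) := by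
    rintro ω ⟨i, h1, h2, h3, h4⟩
    exact Set.mem_biUnion (Finset.mem_Icc.2 ⟨h1, h2⟩) ⟨h3, h4⟩
  refine (measureReal_mono hsub (measure_ne_top _ _)).trans ((measureReal_biUnion_finset_le _ _).trans ?_)
  rw [Finset.sum_mul]
  apply Finset.sum_le_sum
  intro i _
  have e : (seqLaw ρ).real (A12b_E D x ℓ i ∩ shift i ⁻¹' {η : ℕ → ℝ | ∃ j ≤ k, b ≤ |S j η|}) =
      (seqLaw ρ).real (A12b_E D x ℓ i) * (seqLaw ρ).real {η : ℕ → ℝ | ∃ j ≤ k, b ≤ |S j η|} := by
    simp only [measureReal_def]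
    rw [A12b_ind i _ _ (A12b_E_meas hD x ℓ i) hm (fun ω ω' h => A12b_E_dep x ℓ h),
      ENNReal.toReal_mul]
  rw [e]
  exact mul_le_mul_of_nonneg_left (kolm hρ k b hb) measureReal_nonneg

/-- the exceptional event: a large step while alive or a large displacement after the passage -/
def A12b_X (D : Set ℝ) (k : ℕ) (x ℓ b : ℝ) : Set (ℕ → ℝ) :=
  {ω | ∃ i < k, Alive D x i ω ∧ b ≤ |ω i|} ∪
    {ω | ∃ i, 1 ≤ i ∧ i ≤ k ∧ ω ∈ A12b_E D x ℓ i ∧ ∃ j ≤ k, b ≤ |S j (shift i ω)|}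

lemma A12b_two (hD : Dom D) (hρ : Std ρ) : ∃ C > (0 : ℝ), ∀ (k : ℕ) (x ℓ b : ℝ), 0 ≤ x → 0 < ℓ →
    0 < b → (seqLaw ρ).real (A12b_X D k x ℓ b) ≤
      C * (1 + x) * √k * ρ.real {y | b ≤ |y|} + C * (1 + x) / ℓ * (k / b ^ 2) := by
  have := hρ.prob
  obtain ⟨C₁, hC₁, h₁⟩ := A12b_surv_sum hD hρ
  obtain ⟨C₂, hC₂, h₂⟩ := A12b_pass hD hρ
  refine ⟨C₁ + C₂, by positivity, ?_⟩
  intro k x ℓ b hx hℓ hb
  refine (measureReal_union_le _ _).trans (add_le_add ?_ ?_)
  · refine (A12b_jump hD hρ k x b).trans ?_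
    apply mul_le_mul_of_nonneg_right _ measureReal_nonneg
    refine (h₁ k x hx).trans ?_
    apply mul_le_mul_of_nonneg_right _ (Real.sqrt_nonneg _)
    apply mul_le_mul_of_nonneg_right _ (by positivity)
    linarith
  · refine (A12b_after hD hρ k x ℓ b hb).trans ?_
    apply mul_le_mul_of_nonneg_right _ (by positivity)
    refine (h₂ k x ℓ hx hℓ).trans ?_
    apply div_le_div_of_nonneg_right _ hℓ.le
    apply mul_le_mul_of_nonneg_right _ (by positivity)
    linarith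

/-- reaching `ℓ + 2b` at time `j ≤ k` while alive implies the exceptional event -/
lemma A12b_incl (k : ℕ) (x ℓ b : ℝ) (hxℓ : x < ℓ) {ω : ℕ → ℝ} {j : ℕ}
    (hj1 : 1 ≤ j) (hjk : j ≤ k) (hal : Alive D x j ω) (hb : 0 < b)
    (hj : ℓ + 2 * b ≤ x + S j ω) : ω ∈ A12b_X D k x ℓ b := by
  obtain ⟨i, hi1, hij, hE⟩ := A12b_first x ℓ hal hj1 le_rfl (by linarith : ℓ ≤ x + S j ω)
  by_cases hjump : b ≤ |ω (i - 1)|
  · left
    refine ⟨i - 1, by omega, ?_, hjump⟩
    intro l l1 l2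
    exact hal l l1 (by omega)
  · right
    push Not at hjump
    refine ⟨i, hi1, hij.trans hjk, hE, j - i, by omega, ?_⟩
    have e1 : S j ω = S i ω + S (j - i) (shift i ω) := by
      rw [← S_shift]; congr 1; omega
    have e2 : S i ω = S (i - 1) ω + ω (i - 1) := by
      have : i = (i - 1) + 1 := by omega
      conv_lhs => rw [this]
      unfold S
      rw [Finset.sum_range_succ]
    have e3 : x + S (i - 1) ω < ℓ := by
      rcases Nat.eq_or_lt_of_le hi1 with h | h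
      · have : i - 1 = 0 := by omega
        rw [this]
        simpa [S] using hxℓ
      · exact hE.2.1 (i - 1) (by omega) (by omega)
    have e4 := (abs_lt.1 hjump).2
    refine le_trans ?_ (le_abs_self _)
    linarith

/-- **[FV-A12b]** Going up by `a ≫ √k` while alive. PROOF.
Case `x ≥ a/2`: by `cheb` the left side is at most `k/a² ≤ √k·√δ/a ≤ √δ √k · 2(1+x)/a²`.
Case `x < a/2`: as `S_k + x ∈ D` is `≥ 0 > x - a`, the walk is above `x + a` at time `k`, so it crosses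
the level `ℓ = x + a/2` at a time `τ ≤ k`, `τ < N`. Either the jump at time `τ` exceeds `a/4`:
probability at most `∑_{i<k} p_i(x) P(|X| ≥ a/4) ≤ C (1+x) √k · 16 ω/a²` (`surv`, `tail_small`).
Or the position at time `τ` is below `ℓ + a/4`, and the walk moves by at least `a/4` during the
remaining time: probability at most `P(τ ≤ k, τ < N) · 16 k/a²` (`kolm`), and
`P(τ ≤ k, τ < N) ≤ ee k x/ℓ ≤ C(1+x)/(a/2)` by `cross`, `ee_bound`; the product is
`C (1+x) k/a³ = C (1+x) (√k/a²)(√k/a) ≤ C √δ (1+x) √k/a²`. -/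
theorem alive_far (hD : Dom D) (hρ : Std ρ) : ∀ ε > (0 : ℝ), ∃ δ > (0 : ℝ), ∃ a₀ > (0 : ℝ),
    ∀ a ≥ a₀, ∀ k : ℕ, (k : ℝ) ≤ δ * a ^ 2 → ∀ x : ℝ, 0 ≤ x →
      (kap D ρ k x).real {z | a ≤ |z - x|} ≤ ε * (1 + x) * √k / a ^ 2 := by
  have := hρ.prob
  intro ε hε
  obtain ⟨C, hC, htwo⟩ := A12b_two hD hρ
  obtain ⟨b₀, hb₀, htail⟩ := tail_small hρ (ε / (32 * C)) (by positivity)
  obtain ⟨s, hs0, hs1, hs2⟩ : ∃ s : ℝ, 0 < s ∧ s ≤ ε / 2 ∧ s ≤ ε / (64 * C) :=
    ⟨min (ε / 2) (ε / (64 * C)), lt_min (by positivity) (by positivity), min_le_left _ _,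
      min_le_right _ _⟩
  refine ⟨s ^ 2, by positivity, 4 * b₀, by positivity, ?_⟩
  intro a ha k hk x hx
  have ha0 : 0 < a := by linarith
  have hsk : √(k : ℝ) ≤ s * a := by
    rw [← Real.sqrt_sq (by positivity : 0 ≤ s * a)]
    apply Real.sqrt_le_sqrt
    rw [mul_pow]; exact hk
  have hk0 : (0 : ℝ) ≤ k := Nat.cast_nonneg _
  have hkk : (k : ℝ) = √k * √k := (Real.mul_self_sqrt hk0).symm
  have hkn := Real.sqrt_nonneg (k : ℝ)
  have hms : MeasurableSet {z : ℝ | a ≤ |z - x|} :=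
    measurableSet_le measurable_const
      (continuous_abs.measurable.comp (measurable_id.sub_const x))
  have hf : Measurable fun ω : ℕ → ℝ => x + S k ω := (measurable_S k).const_add x
  have hkap : (kap D ρ k x).real {z | a ≤ |z - x|} =
      (seqLaw ρ).real {ω | a ≤ |S k ω| ∧ Alive D x k ω} := by
    simp only [measureReal_def, kap]
    rw [Measure.map_apply hf hms, Measure.restrict_apply (hf hms)]
    congr 2
    ext ω
    simp [Set.mem_inter_iff]
  rw [hkap]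
  rcases le_or_gt (a / 2) x with hxa | hxa
  · calc (seqLaw ρ).real {ω | a ≤ |S k ω| ∧ Alive D x k ω} ≤ (seqLaw ρ).real {ω | a ≤ |S k ω|} :=
          measureReal_mono fun ω h => h.1
      _ ≤ k / a ^ 2 := cheb hρ k a ha0
      _ ≤ ε * (1 + x) * √k / a ^ 2 := by
        apply div_le_div_of_nonneg_right _ (by positivity)
        have h1 : s * a ≤ ε * (1 + x) := by
          have : s * a ≤ ε / 2 * a := mul_le_mul_of_nonneg_right hs1 ha0.le
          nlinarith
        calc (k : ℝ) = √k * √k := hkk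
          _ ≤ (ε * (1 + x)) * √k := mul_le_mul_of_nonneg_right (hsk.trans h1) hkn
  · have hb : b₀ ≤ a / 4 := by linarith
    obtain ⟨-, t2, -⟩ := htail (a / 4) hb
    have hℓ : 0 < x + a / 2 := by linarith
    have hsub : {ω : ℕ → ℝ | a ≤ |S k ω| ∧ Alive D x k ω} ⊆ A12b_X D k x (x + a / 2) (a / 4) := by
      rintro ω ⟨h1, h2⟩
      have hk1 : 1 ≤ k := by
        by_contra h
        have : k = 0 := by omega
        subst this
        simp [S] at h1
        linarith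
      have h3 : 0 ≤ x + S k ω := hD.nonneg (h2 k hk1 le_rfl)
      have h4 : a ≤ S k ω := by
        rcases le_abs.1 h1 with h | h
        · exact h
        · linarith
      exact A12b_incl k x (x + a / 2) (a / 4) (by linarith) hk1 le_rfl h2 (by linarith)
        (by linarith)
    refine (measureReal_mono hsub).trans ((htwo k x (x + a / 2) (a / 4) hx hℓ (by linarith)).trans ?_)
    have q1 : ρ.real {y | a / 4 ≤ |y|} ≤ ε / (2 * C) / a ^ 2 := by
      rw [le_div_iff₀ (by positivity)]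
      have : (a / 4) ^ 2 * ρ.real {y | a / 4 ≤ |y|} = ρ.real {y | a / 4 ≤ |y|} * a ^ 2 / 16 := by
        ring
      rw [this] at t2
      have e : ε / (2 * C) = 16 * (ε / (32 * C)) := by field_simp; ring
      rw [e]
      linarith
    have q2 : C * (1 + x) * √k * ρ.real {y | a / 4 ≤ |y|} ≤ ε / 2 * (1 + x) * √k / a ^ 2 := by
      calc C * (1 + x) * √k * ρ.real {y | a / 4 ≤ |y|}
          ≤ C * (1 + x) * √k * (ε / (2 * C) / a ^ 2) :=
            mul_le_mul_of_nonneg_left q1 (by positivity)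
        _ = ε / 2 * (1 + x) * √k / a ^ 2 := by field_simp
    have q3 : C * (1 + x) / (x + a / 2) * (k / (a / 4) ^ 2) ≤ ε / 2 * (1 + x) * √k / a ^ 2 := by
      have e1 : C * (1 + x) / (x + a / 2) ≤ C * (1 + x) / (a / 2) := by
        apply div_le_div_of_nonneg_left (by positivity) (by positivity) (by linarith)
      calc C * (1 + x) / (x + a / 2) * (k / (a / 4) ^ 2)
          ≤ C * (1 + x) / (a / 2) * (k / (a / 4) ^ 2) :=
            mul_le_mul_of_nonneg_right e1 (by positivity)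
        _ = 32 * C * (1 + x) / a ^ 3 * k := by field_simp; ring
        _ = 32 * C * (1 + x) / a ^ 3 * √k * √k := by rw [mul_assoc _ (√(k : ℝ)), ← hkk]
        _ ≤ 32 * C * (1 + x) / a ^ 3 * √k * (s * a) :=
            mul_le_mul_of_nonneg_left hsk (by positivity)
        _ = 32 * C * s * ((1 + x) * √k / a ^ 2) := by field_simp
        _ ≤ ε / 2 * ((1 + x) * √k / a ^ 2) := by
            apply mul_le_mul_of_nonneg_right _ (by positivity)
            rw [le_div_iff₀ (by positivity)] at hs2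
            linarith
        _ = ε / 2 * (1 + x) * √k / a ^ 2 := by ring
    calc _ ≤ ε / 2 * (1 + x) * √k / a ^ 2 + ε / 2 * (1 + x) * √k / a ^ 2 := add_le_add q2 q3
      _ = ε * (1 + x) * √k / a ^ 2 := by ring

end Pool.Agent.BPT
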