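import Pool.Agent.MP_99a865_pr.FV.A12b
import Pool.Agent.MP_99a865_pr.FV.A11
import Pool.Agent.MP_99a865_pr.FV.A10d

open MeasureTheory ProbabilityTheory Filter Topology
open scoped ENNReal NNReal

namespace Pool.Agent.BPT

variable {D : Set ℝ} {ρ : Measure ℝ}

/-- one term of the splitting -/
theorem A12c_term (hD : Dom D) [IsProbabilityMeasure ρ] (k l : ℕ) (u c M : ℝ) (J : Set ℝ)
    (hJ : MeasurableSet J) (hM : 0 ≤ M) (hl : ∀ v, v ∈ D → (kap D ρ l v).real J ≤ M) (hk : 1 ≤ k) :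
    ∫⁻ v in {v | c ≤ |v - u|}, kap D ρ l v J ∂(kap D ρ k u) ≤
      ENNReal.ofReal (M * (seqLaw ρ).real {ω | c ≤ |S k ω|}) := by
  have h1 : ∀ᵐ v ∂((kap D ρ k u).restrict {v | c ≤ |v - u|}), kap D ρ l v J ≤ ENNReal.ofReal M := by
    refine ae_restrict_of_ae ?_
    have h3 : ∀ᵐ v ∂(kap D ρ k u), v ∈ D := by
      rw [ae_iff]
      exact kap_compl hD k u (Or.inl hk)
    filter_upwards [h3] with v hv
    have h4 := hl v hv
    unfold Measure.real at h4
    rw [← ENNReal.ofReal_toReal (measure_ne_top (kap D ρ l v) J)]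
    exact ENNReal.ofReal_le_ofReal h4
  refine (lintegral_mono_ae h1).trans ?_
  rw [lintegral_const, Measure.restrict_apply_univ, ENNReal.ofReal_mul hM]
  refine mul_le_mul_right ?_ _
  refine (A10d_far_le hD k u c).trans ?_
  unfold Measure.real
  rw [ENNReal.ofReal_toReal (measure_ne_top _ _)]

/-- **[FV-A12c]** Refinement of `far_down` when `k ≪ y²`.
PROOF. Same decomposition as in `far_down` (`y` large, displacement `≥ y/4`; `k ≤ 2`:
`refined_cheb` with `a = y/4`; `k ≥ 3`: three parts, one of them with displacement `≥ y/12`).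
(i), (ii): `refined_cheb` (with `a = y/12`) instead of Chebyshev. (iii): as there, with `alive_far`
(for `dual ρ`, `a = y/12`) instead of the second moment bound:
`∫⁻_{[0,∞)} r⁺ ≤ ∫⁻ y' in D ∩ Ico j (j+2), kap D (dual ρ) k₃ y' {x' | y/12 ≤ |x' - y'|}
≤ 2 ε' (3 + j) √k · 144/y²`. -/
theorem far_down_small (hD : Dom D) (hρ : Std ρ) : ∀ ε > (0 : ℝ), ∃ δ > (0 : ℝ), ∃ y₀ > (0 : ℝ),
    ∀ y ≥ y₀, ∀ k : ℕ, 1 ≤ k → (k : ℝ) ≤ δ * y ^ 2 → ∀ j : ℝ, 0 ≤ j → j ≤ y / 2 →
      (kap D ρ k y).real (Set.Ico j (j + 1)) ≤ ε * (1 + j) / y ^ 2 := by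
  haveI := hρ.prob
  haveI : IsProbabilityMeasure (dual ρ) := A2_dual_prob
  intro ε hε
  obtain ⟨C, hC, hwin⟩ := win hD hρ
  obtain ⟨C', hC', hsm⟩ := A10d_smooth hD hρ
  set ε₁ : ℝ := min (ε / 288) (ε / (576 * C)) with hε₁
  set ε₂ : ℝ := ε / (3456 * C') with hε₂
  have hε₁pos : 0 < ε₁ := by positivity
  have hε₂pos : 0 < ε₂ := by positivity
  have hε₁a : ε₁ * 288 ≤ ε := by
    have h4 : ε₁ ≤ ε / 288 := min_le_left _ _
    calc ε₁ * 288 ≤ ε / 288 * 288 := mul_le_mul_of_nonneg_right h4 (by norm_num)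
      _ = ε := by ring
  have hε₁b : 288 * C * ε₁ ≤ ε / 2 := by
    have h4 : ε₁ ≤ ε / (576 * C) := min_le_right _ _
    calc 288 * C * ε₁ ≤ 288 * C * (ε / (576 * C)) := mul_le_mul_of_nonneg_left h4 (by positivity)
      _ = ε / 2 := by field_simp; ring
  have hε₂b : 1728 * C' * ε₂ = ε / 2 := by
    rw [hε₂]
    field_simp
    ring
  obtain ⟨δ₁, hδ₁, a₁, ha₁, hch⟩ := refined_cheb hρ ε₁ hε₁pos
  obtain ⟨δ₂, hδ₂, a₂, ha₂, haf⟩ := alive_far (D := D) hD hρ.dual ε₂ hε₂pos
  refine ⟨min δ₁ δ₂ / 144, by positivity, max (12 * max a₁ a₂) 16, by positivity, ?_⟩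
  intro y hy k hk hky j hj hj2
  have hy16 : 16 ≤ y := le_trans (le_max_right _ _) hy
  have hya₁ : a₁ ≤ y / 12 := by
    have h1 : 12 * max a₁ a₂ ≤ y := le_trans (le_max_left _ _) hy
    have h2 := le_max_left a₁ a₂
    linarith
  have hya₂ : a₂ ≤ y / 12 := by
    have h1 : 12 * max a₁ a₂ ≤ y := le_trans (le_max_left _ _) hy
    have h2 := le_max_right a₁ a₂
    linarith
  have hy0 : 0 < y := by linarith
  have hky1 : (k : ℝ) ≤ δ₁ * (y / 12) ^ 2 := by
    refine hky.trans ?_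
    have h2 := min_le_left δ₁ δ₂
    have : min δ₁ δ₂ / 144 * y ^ 2 = min δ₁ δ₂ * (y / 12) ^ 2 := by ring
    rw [this]
    exact mul_le_mul_of_nonneg_right h2 (by positivity)
  have hky2 : (k : ℝ) ≤ δ₂ * (y / 12) ^ 2 := by
    refine hky.trans ?_
    have h2 := min_le_right δ₁ δ₂
    have : min δ₁ δ₂ / 144 * y ^ 2 = min δ₁ δ₂ * (y / 12) ^ 2 := by ring
    rw [this]
    exact mul_le_mul_of_nonneg_right h2 (by positivity)
  have hkpos : (0 : ℝ) < k := by exact_mod_cast hk
  have hfar : ∀ z ∈ Set.Ico j (j + 1), 3 * (y / 12) ≤ |z - y| := by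
    intro z hz
    rw [abs_sub_comm]
    refine le_trans ?_ (le_abs_self _)
    linarith [hz.2]
  by_cases hk2 : k ≤ 2
  · -- at most two steps
    have h1 : kap D ρ k y (Set.Ico j (j + 1)) ≤ seqLaw ρ {ω | y / 12 ≤ |S k ω|} := by
      refine le_trans (measure_mono ?_) (A10d_far_le hD k y (y / 12))
      intro z hz
      have := hfar z hz
      show y / 12 ≤ |z - y|
      linarith
    have h2 := hch (y / 12) hya₁ k hky1
    have h3 : (kap D ρ k y).real (Set.Ico j (j + 1)) ≤ (seqLaw ρ).real {ω | y / 12 ≤ |S k ω|} :=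
      ENNReal.toReal_mono (measure_ne_top _ _) h1
    have hk2' : (k : ℝ) ≤ 2 := by exact_mod_cast hk2
    calc (kap D ρ k y).real (Set.Ico j (j + 1)) ≤ ε₁ * (k / (y / 12) ^ 2) := h3.trans h2
      _ = ε₁ * 144 * k / y ^ 2 := by
          rw [div_pow]
          field_simp
          norm_num
      _ ≤ ε * (1 + j) / y ^ 2 := by
          apply div_le_div_of_nonneg_right _ (by positivity)
          calc ε₁ * 144 * k ≤ ε₁ * 144 * 2 := mul_le_mul_of_nonneg_left hk2' (by positivity)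
            _ = ε₁ * 288 := by ring
            _ ≤ ε := hε₁a
            _ ≤ ε * (1 + j) := by nlinarith
  · push Not at hk2
    obtain ⟨k₁, hk₁⟩ : ∃ k₁, k₁ = k / 3 := ⟨_, rfl⟩
    obtain ⟨k₃, hk₃⟩ : ∃ k₃, k₃ = k - 2 * (k / 3) := ⟨_, rfl⟩
    have hk₁1 : 1 ≤ k₁ := by omega
    have hk₃1 : 1 ≤ k₃ := by omega
    have hsum : k₁ + k₁ + k₃ = k := by omega
    have hk₁₃ : k₁ ≤ k₃ := by omega
    have hk₃4 : k₃ ≤ 4 * (k₁ + k₁) := by omega
    have hP : (seqLaw ρ).real {ω | y / 12 ≤ |S k₁ ω|} ≤ ε₁ * (k₁ / (y / 12) ^ 2) := by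
      refine hch (y / 12) hya₁ k₁ (le_trans ?_ hky1)
      have : k₁ ≤ k := by omega
      exact_mod_cast this
    -- bound of the first two terms
    have hterm : ∀ l : ℕ, k₁ ≤ l → 1 ≤ l → C * (1 + j) / l * (seqLaw ρ).real {ω | y / 12 ≤ |S k₁ ω|} ≤
        144 * C * ε₁ * (1 + j) / y ^ 2 := by
      intro l hl1 hl
      have hlpos : (0 : ℝ) < l := by exact_mod_cast hl
      have hl' : (k₁ : ℝ) ≤ l := by exact_mod_cast hl1
      calc C * (1 + j) / l * (seqLaw ρ).real {ω | y / 12 ≤ |S k₁ ω|}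
          ≤ C * (1 + j) / l * (ε₁ * (k₁ / (y / 12) ^ 2)) :=
            mul_le_mul_of_nonneg_left hP (by positivity)
        _ = (144 * C * ε₁ * (1 + j) / y ^ 2) * (k₁ / l) := by
            rw [div_pow]
            field_simp
            norm_num
        _ ≤ (144 * C * ε₁ * (1 + j) / y ^ 2) * 1 := by
            refine mul_le_mul_of_nonneg_left ?_ (by positivity)
            rw [div_le_one hlpos]
            exact hl'
        _ = _ := mul_one _
    have hJ : MeasurableSet (Set.Ico j (j + 1)) := measurableSet_Ico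
    have hw3 : ∀ l : ℕ, 1 ≤ l → ∀ v, v ∈ D → (kap D ρ l v).real (Set.Ico j (j + 1)) ≤
        C * (1 + j) / l := fun l hl v hv => (hwin l hl v j (hD.nonneg hv) hj).2.2.1
    have hT1 : ∫⁻ u in {u | y / 12 ≤ |u - y|}, kap D ρ (k₁ + k₃) u (Set.Ico j (j + 1))
        ∂(kap D ρ k₁ y) ≤ ENNReal.ofReal (144 * C * ε₁ * (1 + j) / y ^ 2) := by
      refine (A12c_term hD k₁ (k₁ + k₃) y (y / 12) (C * (1 + j) / (k₁ + k₃ : ℕ)) _ hJ
        (by positivity) (hw3 _ (by omega)) hk₁1).trans ?_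
      exact ENNReal.ofReal_le_ofReal (hterm _ (by omega) (by omega))
    have hT2 : ∫⁻ u, ∫⁻ v in {v | y / 12 ≤ |v - u|}, kap D ρ k₃ v (Set.Ico j (j + 1))
        ∂(kap D ρ k₁ u) ∂(kap D ρ k₁ y) ≤ ENNReal.ofReal (144 * C * ε₁ * (1 + j) / y ^ 2) := by
      have h5 : ∀ u, ∫⁻ v in {v | y / 12 ≤ |v - u|}, kap D ρ k₃ v (Set.Ico j (j + 1))
          ∂(kap D ρ k₁ u) ≤ ENNReal.ofReal (144 * C * ε₁ * (1 + j) / y ^ 2) := fun u =>
        (A12c_term hD k₁ k₃ u (y / 12) (C * (1 + j) / k₃) _ hJ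
          (by positivity) (hw3 _ hk₃1) hk₁1).trans
          (ENNReal.ofReal_le_ofReal (hterm _ hk₁₃ hk₃1))
      refine (lintegral_mono h5).trans ?_
      rw [lintegral_const]
      calc ENNReal.ofReal (144 * C * ε₁ * (1 + j) / y ^ 2) * kap D ρ k₁ y Set.univ
          ≤ ENNReal.ofReal (144 * C * ε₁ * (1 + j) / y ^ 2) * 1 :=
            mul_le_mul_right (kap_univ_le_one k₁ y) _
        _ = _ := mul_one _
    have hT3 : ∫⁻ v, kap D ρ k₃ v {z | z ∈ Set.Ico j (j + 1) ∧ y / 12 ≤ |z - v|}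
        ∂(kap D ρ (k₁ + k₁) y) ≤ ENNReal.ofReal (1728 * C' * ε₂ * (1 + j) / y ^ 2) := by
      refine (hsm (k₁ + k₁) k₃ (by omega) y j (y / 12) hy0.le hj).trans ?_
      have hKpos : (0 : ℝ) < ((k₁ + k₁ : ℕ) : ℝ) := by
        have : 0 < k₁ + k₁ := by omega
        exact_mod_cast this
      have hky3 : (k₃ : ℝ) ≤ δ₂ * (y / 12) ^ 2 := by
        refine le_trans ?_ hky2
        have : k₃ ≤ k := by omega
        exact_mod_cast this
      set m : ℝ := ε₂ * (3 + j) * √k₃ / (y / 12) ^ 2 with hm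
      have h6 : ∀ z ∈ D ∩ Set.Ico j (j + 2), kap D (dual ρ) k₃ z {x | y / 12 ≤ |x - z|} ≤
          ENNReal.ofReal m := by
        intro z hz
        have h7 := haf (y / 12) hya₂ k₃ hky3 z (hD.nonneg hz.1)
        unfold Measure.real at h7
        rw [← ENNReal.ofReal_toReal (measure_ne_top (kap D (dual ρ) k₃ z) {x | y / 12 ≤ |x - z|})]
        refine ENNReal.ofReal_le_ofReal (h7.trans ?_)
        rw [hm]
        apply div_le_div_of_nonneg_right _ (by positivity)
        apply mul_le_mul_of_nonneg_right _ (Real.sqrt_nonneg _)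
        apply mul_le_mul_of_nonneg_left _ hε₂pos.le
        linarith [hz.2.2]
      have h8 : ∫⁻ z in D ∩ Set.Ico j (j + 2), kap D (dual ρ) k₃ z {x | y / 12 ≤ |x - z|} ≤
          ENNReal.ofReal m * 2 := by
        refine (setLIntegral_mono measurable_const h6).trans ?_
        rw [setLIntegral_const]
        refine mul_le_mul_right ?_ _
        calc volume (D ∩ Set.Ico j (j + 2)) ≤ volume (Set.Ico j (j + 2)) :=
              measure_mono Set.inter_subset_right
          _ = 2 := by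
              rw [Real.volume_Ico]
              have : j + 2 - j = 2 := by ring
              rw [this]
              simp
      calc ENNReal.ofReal (C' / √((k₁ + k₁ : ℕ) : ℝ)) *
            ∫⁻ z in D ∩ Set.Ico j (j + 2), kap D (dual ρ) k₃ z {x | y / 12 ≤ |x - z|}
          ≤ ENNReal.ofReal (C' / √((k₁ + k₁ : ℕ) : ℝ)) * (ENNReal.ofReal m * 2) :=
            mul_le_mul_right h8 _
        _ = ENNReal.ofReal (C' / √((k₁ + k₁ : ℕ) : ℝ) * (m * 2)) := by
            rw [ENNReal.ofReal_mul (by positivity), ENNReal.ofReal_mul (by positivity)]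
            simp
        _ ≤ ENNReal.ofReal (1728 * C' * ε₂ * (1 + j) / y ^ 2) := by
            apply ENNReal.ofReal_le_ofReal
            have hsq : √(k₃ : ℝ) ≤ 2 * √((k₁ + k₁ : ℕ) : ℝ) := by
              have h9 : (k₃ : ℝ) ≤ 4 * ((k₁ + k₁ : ℕ) : ℝ) := by exact_mod_cast hk₃4
              calc √(k₃ : ℝ) ≤ √(4 * ((k₁ + k₁ : ℕ) : ℝ)) := Real.sqrt_le_sqrt h9
                _ = 2 * √((k₁ + k₁ : ℕ) : ℝ) := by
                    rw [Real.sqrt_mul (by norm_num)]
                    congr 1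
                    rw [show (4 : ℝ) = 2 ^ 2 by norm_num, Real.sqrt_sq (by norm_num)]
            have hsK : 0 < √((k₁ + k₁ : ℕ) : ℝ) := Real.sqrt_pos.2 hKpos
            have hfrac : √(k₃ : ℝ) / √((k₁ + k₁ : ℕ) : ℝ) ≤ 2 := by
              rw [div_le_iff₀ hsK]
              exact hsq
            have h10 : C' / √((k₁ + k₁ : ℕ) : ℝ) * (m * 2) =
                (288 * C' * ε₂ * (3 + j) / y ^ 2) * (√(k₃ : ℝ) / √((k₁ + k₁ : ℕ) : ℝ)) := by
              rw [hm]
              field_simp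
              ring
            rw [h10]
            calc (288 * C' * ε₂ * (3 + j) / y ^ 2) * (√(k₃ : ℝ) / √((k₁ + k₁ : ℕ) : ℝ))
                ≤ (288 * C' * ε₂ * (3 + j) / y ^ 2) * 2 :=
                  mul_le_mul_of_nonneg_left hfrac (by positivity)
              _ = 576 * C' * ε₂ * (3 + j) / y ^ 2 := by ring
              _ ≤ 1728 * C' * ε₂ * (1 + j) / y ^ 2 := by
                  apply div_le_div_of_nonneg_right _ (by positivity)
                  have h11 : 0 < C' * ε₂ := by positivity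
                  nlinarith
    have hall : kap D ρ k y (Set.Ico j (j + 1)) ≤ ENNReal.ofReal (ε * (1 + j) / y ^ 2) := by
      have h12 := A10d_split (ρ := ρ) hD k₁ k₁ k₃ y (y / 12) _ hJ hfar
      rw [hsum] at h12
      refine h12.trans ((add_le_add (add_le_add hT1 hT2) hT3).trans ?_)
      rw [← ENNReal.ofReal_add (by positivity) (by positivity),
        ← ENNReal.ofReal_add (by positivity) (by positivity)]
      apply ENNReal.ofReal_le_ofReal
      rw [← add_div, ← add_div]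
      apply div_le_div_of_nonneg_right _ (by positivity)
      have h13 : 288 * C * ε₁ * (1 + j) ≤ ε / 2 * (1 + j) :=
        mul_le_mul_of_nonneg_right hε₁b (by positivity)
      have h14 : 1728 * C' * ε₂ * (1 + j) = ε / 2 * (1 + j) := by rw [hε₂b]
      linarith
    exact ENNReal.toReal_le_of_le_ofReal (by positivity) hall

theorem A12c_ex_le (hD : Dom D) (w : ℝ) (hw : 0 ≤ w) : ex D ρ w ≤ ρ {x | w ≤ |x|} := by
  refine measure_mono ?_
  intro x hx
  have h1 := hD.not_mem hx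
  show w ≤ |x|
  rw [abs_of_nonpos (by linarith)]
  linarith

/-- **[FV-A12c]** PROOF. `m = 1`: `ex y ≤ P(|X| ≥ y) ≤ ε/y²` (`tail_small`). `m = k+1`, `k ≥ 1`:
`hit m y ≤ ∑_{j ≤ y/2} (kap k y)(Ico j (j+1)) ex j + ex (y/2)` (`hit_succ`), the first sum is at most
`4 ε'/y²` by `far_down_small` and `ex_sum`, the last term at most `4 ε'/y²` by `tail_small`. -/
theorem hit_small (hD : Dom D) (hρ : Std ρ) : ∀ ε > (0 : ℝ), ∃ δ > (0 : ℝ), ∃ y₀ > (0 : ℝ),
    ∀ y ≥ y₀, ∀ m : ℕ, 1 ≤ m → (m : ℝ) ≤ δ * y ^ 2 → hit D ρ m y ≤ ε / y ^ 2 := by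
  haveI := hρ.prob
  intro ε hε
  obtain ⟨δ, hδ, y₁, hy₁, hfd⟩ := far_down_small hD hρ (ε / 8) (by positivity)
  obtain ⟨a₀, ha₀, htail⟩ := tail_small hρ (ε / 8) (by positivity)
  refine ⟨δ, hδ, max y₁ (2 * a₀), by positivity, ?_⟩
  intro y hy m hm hmy
  have hyy₁ : y₁ ≤ y := le_trans (le_max_left _ _) hy
  have hya₀ : a₀ ≤ y / 2 := by
    have := le_trans (le_max_right _ _) hy
    linarith
  have hy0 : 0 < y := lt_of_lt_of_le hy₁ hyy₁
  have hex : ex D ρ (y / 2) ≤ ENNReal.ofReal (ε / 2 / y ^ 2) := by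
    refine (A12c_ex_le hD (y / 2) (by positivity)).trans ?_
    have h1 := (htail (y / 2) hya₀).2.1
    have h2 : ρ.real {x | y / 2 ≤ |x|} ≤ ε / 2 / y ^ 2 := by
      rw [le_div_iff₀ (by positivity)]
      have h3 : (y / 2) ^ 2 = y ^ 2 / 4 := by ring
      rw [h3] at h1
      linarith
    unfold Measure.real at h2
    rw [← ENNReal.ofReal_toReal (measure_ne_top ρ {x | y / 2 ≤ |x|})]
    exact ENNReal.ofReal_le_ofReal h2
  have hmono := ex_anti (ρ := ρ) hD
  have hmex := measurable_ex (ρ := ρ) hD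
  obtain ⟨k, rfl⟩ : ∃ k, m = k + 1 := ⟨m - 1, by omega⟩
  have hkey : ENNReal.ofReal (hit D ρ (k + 1) y) ≤ ENNReal.ofReal (ε / y ^ 2) := by
    rw [hit_succ hD k y]
    by_cases hk : k = 0
    · subst hk
      rw [kap_zero, lintegral_dirac' _ hmex]
      refine (hmono (by linarith : y / 2 ≤ y)).trans (hex.trans (ENNReal.ofReal_le_ofReal ?_))
      apply div_le_div_of_nonneg_right _ (by positivity)
      linarith
    · have hk1 : 1 ≤ k := Nat.one_le_iff_ne_zero.2 hk
      have hky : (k : ℝ) ≤ δ * y ^ 2 := by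
        refine le_trans ?_ hmy
        push_cast
        linarith
      set g : ℕ → ℝ≥0∞ := fun j => if (j : ℝ) ≤ y / 2 then ex D ρ j else 0 with hg
      have hpt : ∀ᵐ w ∂(kap D ρ k y), ex D ρ w ≤
          (∑' j : ℕ, (Set.Ico (j : ℝ) (j + 1)).indicator (fun _ => g j) w) + ex D ρ (y / 2) := by
        have h3 : ∀ᵐ v ∂(kap D ρ k y), v ∈ D := by
          rw [ae_iff]
          exact kap_compl hD k y (Or.inl hk1)
        filter_upwards [h3] with w hw
        have hw0 := hD.nonneg hw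
        by_cases hw2 : (⌊w⌋₊ : ℝ) ≤ y / 2
        · have h4 : w ∈ Set.Ico ((⌊w⌋₊ : ℕ) : ℝ) ((⌊w⌋₊ : ℕ) + 1) :=
            ⟨Nat.floor_le hw0, Nat.lt_floor_add_one w⟩
          refine le_trans ?_ le_self_add
          refine le_trans ?_ (ENNReal.le_tsum ⌊w⌋₊)
          rw [Set.indicator_of_mem h4, hg]
          beta_reduce
          rw [if_pos hw2]
          exact hmono (Nat.floor_le hw0)
        · push Not at hw2
          refine le_trans (hmono ?_) le_add_self
          exact hw2.le.trans (Nat.floor_le hw0)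
      refine (lintegral_mono_ae hpt).trans ?_
      rw [lintegral_add_right _ measurable_const, lintegral_const,
        lintegral_tsum (fun a => (measurable_const.indicator measurableSet_Ico).aemeasurable)]
      have hfirst : ∑' j : ℕ, ∫⁻ w, (Set.Ico (j : ℝ) (j + 1)).indicator (fun _ => g j) w
          ∂(kap D ρ k y) ≤ ENNReal.ofReal (ε / 2 / y ^ 2) := by
        have h5 : ∀ j : ℕ, ∫⁻ w, (Set.Ico (j : ℝ) (j + 1)).indicator (fun _ => g j) w
            ∂(kap D ρ k y) ≤ ENNReal.ofReal (ε / 8 / y ^ 2) * (ENNReal.ofReal (1 + j) * ex D ρ j) := by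
          intro j
          rw [lintegral_indicator_const measurableSet_Ico, hg]
          beta_reduce
          split_ifs with hj
          · have h6 := hfd y hyy₁ k hk1 hky j (Nat.cast_nonneg j) hj
            unfold Measure.real at h6
            have h7 : kap D ρ k y (Set.Ico (j : ℝ) (j + 1)) ≤
                ENNReal.ofReal (ε / 8 / y ^ 2) * ENNReal.ofReal (1 + j) := by
              rw [← ENNReal.ofReal_toReal (measure_ne_top (kap D ρ k y) (Set.Ico (j : ℝ) (j + 1))),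
                ← ENNReal.ofReal_mul (by positivity)]
              refine ENNReal.ofReal_le_ofReal (h6.trans (le_of_eq ?_))
              ring
            calc ex D ρ j * kap D ρ k y (Set.Ico (j : ℝ) (j + 1))
                ≤ ex D ρ j * (ENNReal.ofReal (ε / 8 / y ^ 2) * ENNReal.ofReal (1 + j)) :=
                  mul_le_mul_right h7 _
              _ = _ := by ring
          · simp
        refine (ENNReal.tsum_le_tsum h5).trans ?_
        rw [ENNReal.tsum_mul_left]
        calc ENNReal.ofReal (ε / 8 / y ^ 2) * ∑' j : ℕ, ENNReal.ofReal (1 + j) * ex D ρ j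
            ≤ ENNReal.ofReal (ε / 8 / y ^ 2) * 4 := mul_le_mul_right (ex_sum hD hρ) _
          _ = ENNReal.ofReal (ε / 8 / y ^ 2) * ENNReal.ofReal 4 := by simp
          _ = ENNReal.ofReal (ε / 2 / y ^ 2) := by
              rw [← ENNReal.ofReal_mul (by positivity)]
              congr 1
              ring
      have hsecond : ex D ρ (y / 2) * kap D ρ k y Set.univ ≤ ENNReal.ofReal (ε / 2 / y ^ 2) := by
        calc ex D ρ (y / 2) * kap D ρ k y Set.univ ≤ ex D ρ (y / 2) * 1 :=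
              mul_le_mul_right (kap_univ_le_one k y) _
          _ ≤ _ := by rw [mul_one]; exact hex
      refine (add_le_add hfirst hsecond).trans ?_
      rw [← ENNReal.ofReal_add (by positivity) (by positivity)]
      apply ENNReal.ofReal_le_ofReal
      apply le_of_eq
      ring
  exact (ENNReal.ofReal_le_ofReal_iff (by positivity)).1 hkey

end Pool.Agent.BPT
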