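import Pool.Agent.MP_99a865_pr.FV.A12b

open MeasureTheory ProbabilityTheory Filter Topology
open scoped ENNReal NNReal

namespace Pool.Agent.BPT

variable {D : Set ℝ} {ρ : Measure ℝ}

/-- **[FV-A12b]** Left edge. With `τ` the first time at which the walk started at 0 is `≥ a`:
`E_0[1 + S_τ; τ ≤ k, τ < N] ≤ ε` if `k ≤ δ a²`, `a ≥ a₀`.
PROOF. Let `τ'` be the first time at which the walk is `≥ a/2`; `P(τ' < N, τ' ≤ k) ≤ 2C/a` by `cross`
and `ee_bound`. Let `J` be the event that some step `X_{i+1}`, `i < k`, with `i < N`, is `≥ a/4` in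
absolute value: `P(J) ≤ ∑_{i<k} p_i(0) P(|X| ≥ a/4) ≤ C √k · ε'/a² ≤ C√δ ε'/a`. Off `J`,
`S_{τ'} < 3a/4`, so the walk moves by at least `a/4` after `τ'` within time `k`: probability
`≤ (2C/a)(16 k/a²) ≤ 32 C δ/a`. So `P(τ ≤ k, τ < N) ≤ (C'δ + C'ε')/a`.
`E[1 + S_τ; τ ≤ k, τ < N] ≤ (1 + 2a) P(τ ≤ k, τ < N) + E[2 X_τ; X_τ ≥ a, τ ≤ k, τ < N]` because
`S_τ > 2a` forces `X_τ ≥ a` (`X_τ` the last step) and then `1 + S_τ ≤ 1 + a + X_τ ≤ 3 X_τ`; the last
term is at most `∑_{i<k} p_i(0) E[3|X|; |X| ≥ a] ≤ C √k ε'/a ≤ C √δ ε'`. -/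
theorem left_edge (hD : Dom D) (hρ : Std ρ) : ∀ ε > (0 : ℝ), ∃ δ > (0 : ℝ), ∃ a₀ > (0 : ℝ),
    ∀ a ≥ a₀, ∀ k : ℕ, (k : ℝ) ≤ δ * a ^ 2 →
    ∑ i ∈ Finset.Icc 1 k, ∫⁻ ω in {ω | Alive D 0 i ω ∧ (∀ j, 1 ≤ j → j < i → S j ω < a) ∧
      a ≤ S i ω}, ENNReal.ofReal (1 + S i ω) ∂(seqLaw ρ) ≤ ENNReal.ofReal ε := by
  have := hρ.prob
  intro ε hε
  obtain ⟨C, hC, htwo⟩ := A12b_two hD hρ
  obtain ⟨C₁, hC₁, hsum⟩ := A12b_surv_sum hD hρ
  set ε' : ℝ := ε / (2 * (48 * C + 3 * C₁)) with hε'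
  have hε'0 : 0 < ε' := by positivity
  obtain ⟨b₀, hb₀, htail⟩ := tail_small hρ ε' hε'0
  obtain ⟨s, hs0, hs1, hs2⟩ : ∃ s : ℝ, 0 < s ∧ s ≤ 1 ∧ s ≤ ε / (192 * C) :=
    ⟨min 1 (ε / (192 * C)), lt_min one_pos (by positivity), min_le_left _ _, min_le_right _ _⟩
  refine ⟨s ^ 2, by positivity, max 1 (4 * b₀), by positivity, ?_⟩
  intro a ha k hk
  have ha1 : 1 ≤ a := (le_max_left _ _).trans ha
  have ha4 : 4 * b₀ ≤ a := (le_max_right _ _).trans ha
  have ha0 : 0 < a := by linarith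
  have hsk : √(k : ℝ) ≤ s * a := by
    rw [← Real.sqrt_sq (by positivity : 0 ≤ s * a)]
    apply Real.sqrt_le_sqrt
    rw [mul_pow]; exact hk
  have hkn := Real.sqrt_nonneg (k : ℝ)
  have hset : ∀ i, {ω : ℕ → ℝ | Alive D 0 i ω ∧ (∀ j, 1 ≤ j → j < i → S j ω < a) ∧ a ≤ S i ω} =
      A12b_E D 0 a i := by
    intro i; ext ω; simp [A12b_E]
  simp only [hset]
  -- the probability of the passage
  have hmE := fun i => A12b_E_meas hD 0 a i
  have hP : ∑ i ∈ Finset.Icc 1 k, (seqLaw ρ).real (A12b_E D 0 a i) ≤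
      (16 * C * ε' + 32 * C * s) / a := by
    have e1 : (seqLaw ρ).real (⋃ i ∈ Finset.Icc 1 k, A12b_E D 0 a i) =
        ∑ i ∈ Finset.Icc 1 k, (seqLaw ρ).real (A12b_E D 0 a i) := by
      refine measureReal_biUnion_finset ?_ ?_ (fun i _ => measure_ne_top _ _)
      · intro i hi j hj hij
        exact A12b_E_disj 0 a (Finset.mem_Icc.1 hi).1 (Finset.mem_Icc.1 hj).1 hij
      · intro i _; exact hmE i
    rw [← e1]
    have hsub : (⋃ i ∈ Finset.Icc 1 k, A12b_E D 0 a i) ⊆ A12b_X D k 0 (a / 2) (a / 4) := by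
      intro ω hω
      simp only [Set.mem_iUnion, Finset.mem_Icc] at hω
      obtain ⟨i, ⟨hi1, hik⟩, hE⟩ := hω
      exact A12b_incl k 0 (a / 2) (a / 4) (by linarith) hi1 hik hE.1 (by linarith)
        (by have := hE.2.2; linarith)
    refine (measureReal_mono hsub (measure_ne_top _ _)).trans
      ((htwo k 0 (a / 2) (a / 4) le_rfl (by linarith) (by linarith)).trans ?_)
    obtain ⟨-, t2, -⟩ := htail (a / 4) (by linarith)
    have q1 : ρ.real {y | a / 4 ≤ |y|} ≤ 16 * ε' / a ^ 2 := by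
      rw [le_div_iff₀ (by positivity)]
      have : (a / 4) ^ 2 * ρ.real {y | a / 4 ≤ |y|} = ρ.real {y | a / 4 ≤ |y|} * a ^ 2 / 16 := by
        ring
      rw [this] at t2
      linarith
    have q2 : C * (1 + 0) * √k * ρ.real {y | a / 4 ≤ |y|} ≤ 16 * C * ε' / a := by
      calc C * (1 + 0) * √k * ρ.real {y | a / 4 ≤ |y|}
          ≤ C * (1 + 0) * (s * a) * (16 * ε' / a ^ 2) := by
            apply mul_le_mul _ q1 measureReal_nonneg (by positivity)
            exact mul_le_mul_of_nonneg_left hsk (by positivity)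
        _ = s * (16 * C * ε' / a) := by field_simp; ring
        _ ≤ 1 * (16 * C * ε' / a) := mul_le_mul_of_nonneg_right hs1 (by positivity)
        _ = 16 * C * ε' / a := one_mul _
    have q3 : C * (1 + 0) / (a / 2) * (k / (a / 4) ^ 2) ≤ 32 * C * s / a := by
      calc C * (1 + 0) / (a / 2) * (k / (a / 4) ^ 2)
          ≤ C * (1 + 0) / (a / 2) * (s ^ 2 * a ^ 2 / (a / 4) ^ 2) := by
            apply mul_le_mul_of_nonneg_left _ (by positivity)
            exact div_le_div_of_nonneg_right hk (by positivity)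
        _ = s * (32 * C * s / a) := by field_simp; ring
        _ ≤ 1 * (32 * C * s / a) := mul_le_mul_of_nonneg_right hs1 (by positivity)
        _ = 32 * C * s / a := one_mul _
    calc _ ≤ 16 * C * ε' / a + 32 * C * s / a := add_le_add q2 q3
      _ = (16 * C * ε' + 32 * C * s) / a := by ring
  -- the last step
  set g : ℝ → ℝ≥0∞ := ({y : ℝ | a ≤ |y|}).indicator (fun y => ENNReal.ofReal (3 * |y|)) with hg
  have hms : MeasurableSet {y : ℝ | a ≤ |y|} :=
    measurableSet_le measurable_const continuous_abs.measurable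
  have hgm : Measurable g :=
    ((continuous_abs.measurable.const_mul 3).ennreal_ofReal).indicator hms
  have hxi : Integrable (fun x : ℝ => |x|) ρ := by
    have : Integrable (fun x : ℝ => x ^ 2 + 1) ρ := hρ.int2.add (integrable_const 1)
    refine this.mono' continuous_abs.measurable.aestronglyMeasurable (ae_of_all _ fun x => ?_)
    rw [Real.norm_eq_abs, abs_abs]
    nlinarith [sq_nonneg (|x| - 1), sq_abs x]
  have hgi : ∫⁻ y, g y ∂ρ ≤ ENNReal.ofReal (3 * (ε' / a)) := by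
    rw [hg, lintegral_indicator hms]
    rw [← ofReal_integral_eq_lintegral_ofReal (hxi.const_mul 3).integrableOn
      (ae_of_all _ fun y => by positivity), integral_const_mul]
    apply ENNReal.ofReal_le_ofReal
    obtain ⟨-, -, t3⟩ := htail a (by linarith)
    apply mul_le_mul_of_nonneg_left _ (by norm_num)
    rw [le_div_iff₀ ha0, mul_comm]
    exact t3
  have hlast : ∀ i : ℕ, ∫⁻ ω in {ω | Alive D 0 i ω}, g (ω i) ∂(seqLaw ρ) =
      seqLaw ρ {ω | Alive D 0 i ω} * ∫⁻ y, g y ∂ρ := by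
    intro i
    have key := A12b_markov (ρ := ρ) i 0 {ω | Alive D 0 i ω} (measurableSet_alive hD 0 i)
      (fun ω ω' h => A12b_alive_dep 0 h) (fun _ η => g (η 0))
      (hgm.comp ((measurable_pi_apply 0).comp measurable_snd))
    have e1 : ∀ ω : ℕ → ℝ, shift i ω 0 = ω i := fun ω => by simp [shift]
    simp only [e1] at key
    have e2 : ∫⁻ η : ℕ → ℝ, g (η 0) ∂(seqLaw ρ) = ∫⁻ y, g y ∂ρ :=
      (measurePreserving_eval_infinitePi (fun _ : ℕ => ρ) 0).lintegral_comp hgm
    rw [key, e2, setLIntegral_const, mul_comm]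
  have hpt : ∀ i ∈ Finset.Icc 1 k,
      ∫⁻ ω in A12b_E D 0 a i, ENNReal.ofReal (1 + S i ω) ∂(seqLaw ρ) ≤
      ENNReal.ofReal (1 + 2 * a) * seqLaw ρ (A12b_E D 0 a i) +
        seqLaw ρ {ω | Alive D 0 (i - 1) ω} * ∫⁻ y, g y ∂ρ := by
    intro i hi
    obtain ⟨hi1, hik⟩ := Finset.mem_Icc.1 hi
    calc ∫⁻ ω in A12b_E D 0 a i, ENNReal.ofReal (1 + S i ω) ∂(seqLaw ρ)
        ≤ ∫⁻ ω in A12b_E D 0 a i, (ENNReal.ofReal (1 + 2 * a) + g (ω (i - 1))) ∂(seqLaw ρ) := by
          apply setLIntegral_mono' (hmE i)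
          intro ω hω
          have e2 : S i ω = S (i - 1) ω + ω (i - 1) := by
            have : i = (i - 1) + 1 := by omega
            conv_lhs => rw [this]
            unfold S
            rw [Finset.sum_range_succ]
          have e3 : S (i - 1) ω < a := by
            rcases Nat.eq_or_lt_of_le hi1 with h | h
            · have : i - 1 = 0 := by omega
              rw [this]
              simpa [S] using ha0
            · have := hω.2.1 (i - 1) (by omega) (by omega)
              linarith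
          rcases le_or_gt (S i ω) (2 * a) with h | h
          · exact (ENNReal.ofReal_le_ofReal (by linarith)).trans le_self_add
          · have h1 : a ≤ ω (i - 1) := by linarith
            have h2 : a ≤ |ω (i - 1)| := h1.trans (le_abs_self _)
            have h3 : g (ω (i - 1)) = ENNReal.ofReal (3 * |ω (i - 1)|) := by
              rw [hg, Set.indicator_of_mem (by exact h2)]
            rw [h3]
            refine le_trans (ENNReal.ofReal_le_ofReal ?_) le_add_self
            have := le_abs_self (ω (i - 1))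
            linarith
      _ = ENNReal.ofReal (1 + 2 * a) * seqLaw ρ (A12b_E D 0 a i) +
          ∫⁻ ω in A12b_E D 0 a i, g (ω (i - 1)) ∂(seqLaw ρ) := by
          rw [lintegral_add_left measurable_const, setLIntegral_const]
      _ ≤ ENNReal.ofReal (1 + 2 * a) * seqLaw ρ (A12b_E D 0 a i) +
          ∫⁻ ω in {ω | Alive D 0 (i - 1) ω}, g (ω (i - 1)) ∂(seqLaw ρ) := by
          apply add_le_add le_rfl
          apply lintegral_mono_set
          intro ω hω l l1 l2
          exact hω.1 l l1 (by omega)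
      _ = _ := by rw [hlast]
  -- summation
  have hA : ∑ i ∈ Finset.Icc 1 k, seqLaw ρ {ω | Alive D 0 (i - 1) ω} =
      ENNReal.ofReal (∑ i ∈ Finset.range k, (seqLaw ρ).real {ω | Alive D 0 i ω}) := by
    rw [ENNReal.ofReal_sum_of_nonneg (fun _ _ => measureReal_nonneg)]
    rw [Finset.range_eq_Ico, Finset.sum_Ico_eq_sum_range, ← Finset.Ico_succ_right_eq_Icc,
      Finset.sum_Ico_eq_sum_range]
    apply Finset.sum_congr (by simp)
    intro i _
    rw [ofReal_measureReal]
    congr 3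
    ext ω
    have : 1 + i - 1 = 0 + i := by omega
    rw [this]
  have hB : ∑ i ∈ Finset.Icc 1 k, seqLaw ρ (A12b_E D 0 a i) =
      ENNReal.ofReal (∑ i ∈ Finset.Icc 1 k, (seqLaw ρ).real (A12b_E D 0 a i)) := by
    rw [ENNReal.ofReal_sum_of_nonneg (fun _ _ => measureReal_nonneg)]
    apply Finset.sum_congr rfl
    intro i _
    rw [ofReal_measureReal]
  refine (Finset.sum_le_sum hpt).trans ?_
  rw [Finset.sum_add_distrib, ← Finset.mul_sum, ← Finset.sum_mul, hA, hB]
  refine (add_le_add (mul_le_mul_right (ENNReal.ofReal_le_ofReal hP) _)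
    (mul_le_mul' (ENNReal.ofReal_le_ofReal (hsum k 0 le_rfl)) hgi)).trans ?_
  rw [← ENNReal.ofReal_mul (by positivity), ← ENNReal.ofReal_mul (by positivity),
    ← ENNReal.ofReal_add (by positivity) (by positivity)]
  apply ENNReal.ofReal_le_ofReal
  have r1 : (1 + 2 * a) * ((16 * C * ε' + 32 * C * s) / a) ≤ 3 * (16 * C * ε' + 32 * C * s) := by
    rw [mul_div_assoc', div_le_iff₀ ha0]
    have : (0 : ℝ) ≤ 16 * C * ε' + 32 * C * s := by positivity
    nlinarith
  have r2 : C₁ * (1 + 0) * √k * (3 * (ε' / a)) ≤ 3 * C₁ * ε' := by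
    calc C₁ * (1 + 0) * √k * (3 * (ε' / a)) ≤ C₁ * (1 + 0) * (s * a) * (3 * (ε' / a)) := by
          apply mul_le_mul_of_nonneg_right _ (by positivity)
          exact mul_le_mul_of_nonneg_left hsk (by positivity)
      _ = s * (3 * C₁ * ε') := by field_simp; ring
      _ ≤ 1 * (3 * C₁ * ε') := mul_le_mul_of_nonneg_right hs1 (by positivity)
      _ = 3 * C₁ * ε' := one_mul _
  have r3 : (48 * C + 3 * C₁) * ε' = ε / 2 := by
    rw [hε']; field_simp
  have r4 : 96 * C * s ≤ ε / 2 := by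
    rw [le_div_iff₀ (by positivity)] at hs2
    linarith
  linarith

end Pool.Agent.BPT
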