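import Pool.Agent.MP_99a865_pr.FV.A8

open MeasureTheory ProbabilityTheory Filter Topology
open scoped ENNReal NNReal

namespace Pool.Agent.BPT

variable {D : Set ℝ} {ρ : Measure ℝ}

/-- `ρ {z | w + z ≤ 2}` -/
noncomputable def A14_G (ρ : Measure ℝ) (w : ℝ) : ℝ≥0∞ := ρ (Set.Iic (2 - w))

/-- the function `u` of the proof -/
noncomputable def A14_u (D : Set ℝ) (ρ : Measure ℝ) (k : ℕ) (y : ℝ) : ℝ≥0∞ :=
  ∫⁻ w, A14_G ρ w ∂(kap D ρ k y)

lemma A14_G_meas (ρ : Measure ℝ) : Measurable (A14_G ρ) := by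
  apply Antitone.measurable
  intro a b h
  exact measure_mono (Set.Iic_subset_Iic.2 (by linarith))

lemma A14_shift (hD : Dom D) [IsProbabilityMeasure ρ] (k : ℕ) (y s : ℝ) (hs : 0 ≤ s)
    (G : ℝ → ℝ≥0∞) (hG : Measurable G) :
    ∫⁻ w, G (w + s) ∂(kap D ρ k y) ≤ ∫⁻ w, G w ∂(kap D ρ k (y + s)) := by
  rw [lintegral_kap_eq hD k y (fun w => G (w + s)) (hG.comp (measurable_id.add_const s)),
    lintegral_kap_eq hD k (y + s) G hG]
  have h1 : (fun ω : ℕ → ℝ => G (y + S k ω + s)) = fun ω => G (y + s + S k ω) := by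
    funext ω
    congr 1
    ring
  rw [h1]
  apply lintegral_mono_set
  intro ω hω j h2 h3
  exact hD.up (hω j h2 h3) (by linarith)

lemma A14_hit_le (hD : Dom D) [IsProbabilityMeasure ρ] (k : ℕ) (y s : ℝ) (hs : 0 ≤ s) (hs2 : s ≤ 2) :
    ENNReal.ofReal (hit D ρ (k + 1) y) ≤ A14_u D ρ k (y + s) := by
  rw [hit_succ hD k y]
  refine le_trans ?_ (A14_shift hD k y s hs (A14_G ρ) (A14_G_meas ρ))
  apply lintegral_mono
  intro w
  apply measure_mono
  intro z hz
  have := hD.not_mem hz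
  simp only [Set.mem_Iic]
  linarith

lemma A14_u_meas (hD : Dom D) [IsProbabilityMeasure ρ] (k : ℕ) : Measurable (A14_u D ρ k) :=
  measurable_lintegral_kap hD k (fun _ w => A14_G ρ w) ((A14_G_meas ρ).comp measurable_snd)

/-- the window integral dominates `hit` -/
lemma A14_win (hD : Dom D) [IsProbabilityMeasure ρ] (k : ℕ) (a : ℕ) (y : ℝ) (h1 : (a : ℝ) ≤ y)
    (h2 : y < a + 1) :
    ENNReal.ofReal (hit D ρ (k + 1) y) ≤
      ∫⁻ y' in Set.Ico ((a : ℝ) + 1) (a + 3), A14_u D ρ k y' := by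
  have hsub : Set.Icc (y + 1) (y + 2) ⊆ Set.Ico ((a : ℝ) + 1) (a + 3) := by
    intro t ht
    exact ⟨by linarith [ht.1], by linarith [ht.2]⟩
  calc ENNReal.ofReal (hit D ρ (k + 1) y)
      = ENNReal.ofReal (hit D ρ (k + 1) y) * volume (Set.Icc (y + 1) (y + 2)) := by
        rw [Real.volume_Icc]
        have : y + 2 - (y + 1) = 1 := by ring
        rw [this, ENNReal.ofReal_one, mul_one]
    _ = ∫⁻ _ in Set.Icc (y + 1) (y + 2), ENNReal.ofReal (hit D ρ (k + 1) y) := by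
        rw [setLIntegral_const]
    _ ≤ ∫⁻ y' in Set.Icc (y + 1) (y + 2), A14_u D ρ k y' := by
        apply setLIntegral_mono (A14_u_meas hD k)
        intro t ht
        have := A14_hit_le (ρ := ρ) hD k y (t - y) (by linarith [ht.1]) (by linarith [ht.2])
        rwa [show y + (t - y) = t by ring] at this
    _ ≤ _ := lintegral_mono_set hsub

/-- sums over unit windows -/
lemma A14_sum_unit (hD : Dom D) (f : ℝ → ℝ≥0∞) (c : ℝ) (hc : 1 ≤ c) (A : Finset ℕ) :
    ∑ a ∈ A, ∫⁻ y in Set.Ico ((a : ℝ) + c) (a + c + 1), f y ≤ ∫⁻ y in D, f y := by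
  rw [← lintegral_biUnion_finset]
  · apply lintegral_mono_set
    intro t ht
    simp only [Set.mem_iUnion] at ht
    obtain ⟨a, _, ha⟩ := ht
    apply hD.pos
    have : (0 : ℝ) ≤ a := Nat.cast_nonneg a
    linarith [ha.1]
  · intro a _ b _ hab
    rw [Function.onFun, Set.disjoint_left]
    intro t ha hb
    apply hab
    have h1 : (a : ℝ) < b + 1 := by linarith [ha.1, hb.2]
    have h2 : (b : ℝ) < a + 1 := by linarith [hb.1, ha.2]
    have h1' : a < b + 1 := by exact_mod_cast h1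
    have h2' : b < a + 1 := by exact_mod_cast h2
    omega
  · intro a _
    exact measurableSet_Ico

lemma A14_sum_win (hD : Dom D) (f : ℝ → ℝ≥0∞) (A : Finset ℕ) :
    ∑ a ∈ A, ∫⁻ y in Set.Ico ((a : ℝ) + 1) (a + 3), f y ≤ 2 * ∫⁻ y in D, f y := by
  have h1 := A14_sum_unit hD f 1 le_rfl A
  have h2 := A14_sum_unit hD f 2 (by norm_num) A
  have h3 : ∀ a ∈ A, ∫⁻ y in Set.Ico ((a : ℝ) + 1) (a + 3), f y ≤
      (∫⁻ y in Set.Ico ((a : ℝ) + 1) (a + 1 + 1), f y) +
        ∫⁻ y in Set.Ico ((a : ℝ) + 2) (a + 2 + 1), f y := by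
    intro a _
    have h4 : Set.Ico ((a : ℝ) + 1) (a + 3) ⊆
        Set.Ico ((a : ℝ) + 1) (a + 1 + 1) ∪ Set.Ico ((a : ℝ) + 2) (a + 2 + 1) := by
      intro t ht
      rcases lt_or_ge t ((a : ℝ) + 1 + 1) with h | h
      · exact Or.inl ⟨ht.1, h⟩
      · exact Or.inr ⟨by linarith, by linarith [ht.2]⟩
    exact le_trans (lintegral_mono_set h4) (lintegral_union_le _ _ _)
  calc ∑ a ∈ A, ∫⁻ y in Set.Ico ((a : ℝ) + 1) (a + 3), f y
      ≤ ∑ a ∈ A, ((∫⁻ y in Set.Ico ((a : ℝ) + 1) (a + 1 + 1), f y) +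
        ∫⁻ y in Set.Ico ((a : ℝ) + 2) (a + 2 + 1), f y) := Finset.sum_le_sum h3
    _ ≤ (∫⁻ y in D, f y) + ∫⁻ y in D, f y := by
        rw [Finset.sum_add_distrib]
        exact add_le_add h1 h2
    _ = 2 * ∫⁻ y in D, f y := by rw [two_mul]

/-- duality -/
lemma A14_dual (hD : Dom D) [IsProbabilityMeasure ρ] (k : ℕ) (F : ℝ → ℝ≥0∞) (hF : Measurable F) :
    ∫⁻ y in D, F y * A14_u D ρ k y =
      ∫⁻ w in D, (∫⁻ y, F y ∂(kap D (dual ρ) k w)) * A14_G ρ w := by
  have h := duality_vol (ρ := ρ) hD k (fun x y => F x * A14_G ρ y)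
    ((hF.comp measurable_fst).mul ((A14_G_meas ρ).comp measurable_snd))
  have h1 : ∀ x, ∫⁻ y, F x * A14_G ρ y ∂(kap D ρ k x) = F x * A14_u D ρ k x := by
    intro x
    rw [lintegral_const_mul _ (A14_G_meas ρ)]
    rfl
  have h2 : ∀ y, ∫⁻ x, F x * A14_G ρ y ∂(kap D (dual ρ) k y) =
      (∫⁻ x, F x ∂(kap D (dual ρ) k y)) * A14_G ρ y := by
    intro y
    rw [lintegral_mul_const _ hF]
  simp only [h1, h2] at h
  exact h

/-- the second moment bound -/
lemma A14_mom (hD : Dom D) (hρ : Std ρ) :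
    ∫⁻ w in D, ENNReal.ofReal (1 + w) * A14_G ρ w < ∞ := by
  have := hρ.prob
  have h1 : ∀ w, A14_G ρ w = ∫⁻ z, (Set.Iic (2 - w)).indicator (fun _ => (1 : ℝ≥0∞)) z ∂ρ := by
    intro w
    rw [lintegral_indicator_const measurableSet_Iic, one_mul]
    rfl
  have hset : MeasurableSet {p : ℝ × ℝ | p.2 ≤ 2 - p.1} :=
    measurableSet_le measurable_snd (measurable_const.sub measurable_fst)
  have hm : Measurable (Function.uncurry fun (w z : ℝ) =>
      ENNReal.ofReal (1 + w) * (Set.Iic (2 - w)).indicator (fun _ => (1 : ℝ≥0∞)) z) := by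
    have h2 : (Function.uncurry fun (w z : ℝ) =>
      ENNReal.ofReal (1 + w) * (Set.Iic (2 - w)).indicator (fun _ => (1 : ℝ≥0∞)) z) =
      fun p : ℝ × ℝ => ENNReal.ofReal (1 + p.1) *
        ({p : ℝ × ℝ | p.2 ≤ 2 - p.1}).indicator (fun _ => (1 : ℝ≥0∞)) p := by
      funext p
      simp only [Function.uncurry, Set.indicator, Set.mem_Iic, Set.mem_ofPred_eq]
    rw [h2]
    exact ((measurable_const.add measurable_fst).ennreal_ofReal).mul
      (measurable_const.indicator hset)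
  calc ∫⁻ w in D, ENNReal.ofReal (1 + w) * A14_G ρ w
      = ∫⁻ w in D, ∫⁻ z, ENNReal.ofReal (1 + w) *
          (Set.Iic (2 - w)).indicator (fun _ => (1 : ℝ≥0∞)) z ∂ρ := by
        apply lintegral_congr
        intro w
        rw [h1 w, lintegral_const_mul _ (measurable_const.indicator measurableSet_Iic)]
    _ = ∫⁻ z, (∫⁻ w in D, ENNReal.ofReal (1 + w) *
          (Set.Iic (2 - w)).indicator (fun _ => (1 : ℝ≥0∞)) z) ∂ρ := by
        rw [lintegral_lintegral_swap hm.aemeasurable]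
    _ ≤ ∫⁻ z, ENNReal.ofReal (18 + 2 * z ^ 2) ∂ρ := by
        apply lintegral_mono
        intro z
        calc ∫⁻ w in D, ENNReal.ofReal (1 + w) *
              (Set.Iic (2 - w)).indicator (fun _ => (1 : ℝ≥0∞)) z
            ≤ ∫⁻ w in D, (Set.Icc (0 : ℝ) (2 - z)).indicator
                (fun _ => ENNReal.ofReal (3 + |z|)) w := by
              apply setLIntegral_mono (measurable_const.indicator measurableSet_Icc)
              intro w hw
              have hw0 := hD.nonneg hw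
              by_cases hz : z ≤ 2 - w
              · rw [Set.indicator_of_mem (show z ∈ Set.Iic (2 - w) from hz),
                  Set.indicator_of_mem (show w ∈ Set.Icc (0 : ℝ) (2 - z) from
                    ⟨hw0, by linarith⟩), mul_one]
                apply ENNReal.ofReal_le_ofReal
                have := neg_abs_le z
                linarith
              · rw [Set.indicator_of_notMem (show z ∉ Set.Iic (2 - w) from hz), mul_zero]
                exact zero_le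
          _ ≤ ∫⁻ w, (Set.Icc (0 : ℝ) (2 - z)).indicator
                (fun _ => ENNReal.ofReal (3 + |z|)) w := setLIntegral_le_lintegral _ _
          _ = ENNReal.ofReal (3 + |z|) * ENNReal.ofReal (2 - z - 0) := by
              rw [lintegral_indicator_const measurableSet_Icc, Real.volume_Icc]
          _ ≤ ENNReal.ofReal (3 + |z|) * ENNReal.ofReal (3 + |z|) := by
              gcongr
              have := neg_abs_le z
              linarith
          _ = ENNReal.ofReal ((3 + |z|) * (3 + |z|)) := by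
              rw [ENNReal.ofReal_mul (by positivity)]
          _ ≤ ENNReal.ofReal (18 + 2 * z ^ 2) := by
              apply ENNReal.ofReal_le_ofReal
              nlinarith [sq_nonneg (3 - |z|), sq_abs z]
    _ < ∞ := by
        apply Integrable.lintegral_lt_top
        exact (integrable_const _).add (hρ.int2.const_mul 2)

lemma A14_ee (hD : Dom D) (hρ : Std ρ) : ∃ C : ℝ≥0, ∀ (k : ℕ) (w : ℝ), 0 ≤ w →
    ∫⁻ y, ENNReal.ofReal (1 + y) ∂(kap D ρ k w) ≤ C * ENNReal.ofReal (1 + w) := by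
  have := hρ.prob
  obtain ⟨C, hC⟩ := ee_bound hD hρ
  refine ⟨C + 1, fun k w hw => ?_⟩
  calc ∫⁻ y, ENNReal.ofReal (1 + y) ∂(kap D ρ k w)
      ≤ ∫⁻ y, (1 + ENNReal.ofReal y) ∂(kap D ρ k w) := by
        apply lintegral_mono
        intro y
        refine le_trans (ENNReal.ofReal_add_le) ?_
        rw [ENNReal.ofReal_one]
    _ = kap D ρ k w Set.univ + ee D ρ k w := by
        rw [lintegral_add_left measurable_const, lintegral_const, one_mul]
        rfl
    _ ≤ 1 + C * ENNReal.ofReal (1 + w) := add_le_add (kap_univ_le_one k w) (hC k w hw)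
    _ ≤ ENNReal.ofReal (1 + w) + C * ENNReal.ofReal (1 + w) := by
        gcongr
        rw [← ENNReal.ofReal_one]
        exact ENNReal.ofReal_le_ofReal (by linarith)
    _ = ((C + 1 : ℝ≥0) : ℝ≥0∞) * ENNReal.ofReal (1 + w) := by
        rw [ENNReal.coe_add, ENNReal.coe_one]
        ring

lemma A14_surv (hD : Dom D) (hρ : Std ρ) : ∃ C : ℝ, 0 < C ∧ ∀ (k : ℕ) (w : ℝ), 0 ≤ w →
    kap D ρ k w Set.univ ≤ ENNReal.ofReal (C / √((k : ℝ) + 1)) * ENNReal.ofReal (1 + w) := by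
  have := hρ.prob
  obtain ⟨C, hC0, hC⟩ := surv hD hρ
  refine ⟨1 + 2 * C, by linarith, fun k w hw => ?_⟩
  rcases Nat.eq_zero_or_pos k with rfl | hk
  · refine le_trans (kap_univ_le_one 0 w) ?_
    rw [← ENNReal.ofReal_mul (by positivity), ← ENNReal.ofReal_one]
    apply ENNReal.ofReal_le_ofReal
    simp only [Nat.cast_zero, zero_add, Real.sqrt_one, div_one]
    nlinarith
  · have h1 := hC k hk w hw
    have h2 : kap D ρ k w Set.univ = ENNReal.ofReal ((kap D ρ k w).real Set.univ) := by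
      rw [Measure.real, ENNReal.ofReal_toReal (measure_ne_top _ _)]
    rw [h2, ← ENNReal.ofReal_mul (by positivity)]
    apply ENNReal.ofReal_le_ofReal
    refine le_trans h1 ?_
    have hk1 : (1 : ℝ) ≤ k := by exact_mod_cast hk
    have hs0 : 0 < √(k : ℝ) := Real.sqrt_pos.2 (by linarith)
    have hs1 : 0 < √((k : ℝ) + 1) := Real.sqrt_pos.2 (by linarith)
    have hs : √((k : ℝ) + 1) ≤ 2 * √(k : ℝ) := by
      rw [Real.sqrt_le_left (by positivity)]
      rw [mul_pow, Real.sq_sqrt (by linarith)]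
      linarith
    rw [div_mul_eq_mul_div, div_le_div_iff₀ hs0 hs1]
    have h3 : C * (1 + w) * √((k : ℝ) + 1) ≤ C * (1 + w) * (2 * √(k : ℝ)) := by gcongr
    have h4 : 0 ≤ (1 + w) * √(k : ℝ) := by positivity
    nlinarith

/-- **[FV-A14]** Sums over unit windows of the supremum of `hit m`.
PROOF. For `y ∈ [a, a+1)` and `s ∈ [1,2]` (`m = k+1`): `hit m y = P_y(alive k, y + S_m ∉ D)
≤ P_{y+s}(alive k, y + s + S_m ≤ 2) =: u(y+s)` since for the walk started at `y + s` survival is easier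
and `y + S_m ≤ 0`. So `g a := ∫⁻ y' in Ico (a+1) (a+3), u y'` (as a real number) dominates
`hit m y` on `[a, a+1)`: `hit m y ≤ ∫_{s ∈ [1,2]} u(y+s) ds ≤ g a`.
`u y' = ∫⁻ w, ρ {z | w + z ≤ 2} ∂(kap k y')`. By `duality_vol`, for every measurable `F ≥ 0`,
`∫⁻ y' in D, F y' u y' = ∫⁻ w in D, ρ {z | w + z ≤ 2} (∫⁻ y', F y' ∂(kap D (dual ρ) k w))`.
With `F y' = 1 + y'`: the inner integral is `≤ C (1 + w)` (`ee_bound`), and
`∫⁻_{w ≥ 0} (1+w) P(X ≤ 2 - w) dw ≤ E (3 + |X|)² < ∞`; so `∑_a (1+a) g a ≤ 2 ∫ (1+y') u y' ≤ C`.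
With `F = 1`: the inner integral is `≤ C (1+w)/√k` for `k ≥ 1` by `surv` (`k ≥ m/2`), and `≤ 1` for
`k = 0`; so `∑_a g a ≤ C/√m`. -/
theorem hit_sum (hD : Dom D) (hρ : Std ρ) : ∃ C > (0 : ℝ), ∀ m : ℕ, 1 ≤ m → ∃ g : ℕ → ℝ,
    (∀ a, 0 ≤ g a) ∧ (∀ (a : ℕ) (y : ℝ), a ≤ y → y < a + 1 → hit D ρ m y ≤ g a) ∧
    (∀ A : Finset ℕ, ∑ a ∈ A, (1 + (a : ℝ)) * g a ≤ C) ∧
    (∀ A : Finset ℕ, ∑ a ∈ A, g a ≤ C / √m) := by
  have := hρ.prob
  obtain ⟨C1, hC1⟩ := A14_ee (D := D) hD hρ.dual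
  obtain ⟨C2, hC20, hC2⟩ := A14_surv (D := D) hD hρ.dual
  set I : ℝ≥0∞ := ∫⁻ w in D, ENNReal.ofReal (1 + w) * A14_G ρ w with hI
  have hItop : I < ∞ := A14_mom hD hρ
  have hGw : Measurable fun w => ENNReal.ofReal (1 + w) * A14_G ρ w :=
    (measurable_const.add measurable_id).ennreal_ofReal.mul (A14_G_meas ρ)
  have hF : Measurable fun y : ℝ => ENNReal.ofReal (1 + y) :=
    (measurable_const.add measurable_id).ennreal_ofReal
  -- the two totals
  have hT1 : ∀ k, ∫⁻ y in D, ENNReal.ofReal (1 + y) * A14_u D ρ k y ≤ C1 * I := by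
    intro k
    rw [A14_dual hD k _ hF, hI, ← lintegral_const_mul _ hGw]
    apply setLIntegral_mono (hGw.const_mul _)
    intro w hw
    rw [← mul_assoc]
    exact mul_le_mul_left (hC1 k w (hD.nonneg hw)) _
  have hT2 : ∀ k : ℕ, ∫⁻ y in D, A14_u D ρ k y ≤ ENNReal.ofReal (C2 / √((k : ℝ) + 1)) * I := by
    intro k
    have h := A14_dual (ρ := ρ) hD k (fun _ => 1) measurable_const
    simp only [one_mul, lintegral_const] at h
    rw [h, hI, ← lintegral_const_mul _ hGw]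
    apply setLIntegral_mono (hGw.const_mul _)
    intro w hw
    rw [← mul_assoc]
    exact mul_le_mul_left (hC2 k w (hD.nonneg hw)) _
  set J : ℝ := I.toReal with hJ
  have hJ0 : 0 ≤ J := ENNReal.toReal_nonneg
  have hIJ : I = ENNReal.ofReal J := (ENNReal.ofReal_toReal hItop.ne).symm
  refine ⟨2 * (C1 + C2) * J + 1, by positivity, fun m hm => ?_⟩
  obtain ⟨k, rfl⟩ : ∃ k, m = k + 1 := ⟨m - 1, by omega⟩
  set G : ℕ → ℝ≥0∞ := fun a => ∫⁻ y' in Set.Ico ((a : ℝ) + 1) (a + 3), A14_u D ρ k y' with hG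
  -- sums of `G`
  have hS2 : ∀ A : Finset ℕ, ∑ a ∈ A, G a ≤ ENNReal.ofReal (2 * C2 * J / √((k : ℝ) + 1)) := by
    intro A
    refine le_trans (A14_sum_win hD _ A) (le_trans (mul_le_mul_right (hT2 k) 2) ?_)
    rw [hIJ, ← ENNReal.ofReal_mul (by positivity),
      show (2 : ℝ≥0∞) = ENNReal.ofReal 2 by simp, ← ENNReal.ofReal_mul (by norm_num)]
    apply ENNReal.ofReal_le_ofReal
    apply le_of_eq
    ring
  have hS1 : ∀ A : Finset ℕ, ∑ a ∈ A, ENNReal.ofReal (1 + (a : ℝ)) * G a ≤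
      ENNReal.ofReal (2 * C1 * J) := by
    intro A
    have h1 : ∀ a ∈ A, ENNReal.ofReal (1 + (a : ℝ)) * G a ≤
        ∫⁻ y' in Set.Ico ((a : ℝ) + 1) (a + 3), ENNReal.ofReal (1 + y') * A14_u D ρ k y' := by
      intro a _
      rw [hG, ← lintegral_const_mul _ (A14_u_meas hD k)]
      apply setLIntegral_mono (hF.mul (A14_u_meas hD k))
      intro y hy
      exact mul_le_mul_left (ENNReal.ofReal_le_ofReal (by linarith [hy.1])) _
    refine le_trans (Finset.sum_le_sum h1) (le_trans (A14_sum_win hD _ A)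
      (le_trans (mul_le_mul_right (hT1 k) 2) ?_))
    rw [hIJ, show (C1 : ℝ≥0∞) = ENNReal.ofReal (C1 : ℝ) by simp,
      ← ENNReal.ofReal_mul (by positivity),
      show (2 : ℝ≥0∞) = ENNReal.ofReal 2 by simp, ← ENNReal.ofReal_mul (by norm_num)]
    apply ENNReal.ofReal_le_ofReal
    apply le_of_eq
    ring
  have hGtop : ∀ a, G a ≠ ∞ := by
    intro a
    have h := hS2 {a}
    rw [Finset.sum_singleton] at h
    exact (lt_of_le_of_lt h ENNReal.ofReal_lt_top).ne
  refine ⟨fun a => (G a).toReal, fun a => ENNReal.toReal_nonneg, ?_, ?_, ?_⟩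
  · intro a y h1 h2
    have h := A14_win (ρ := ρ) hD k a y h1 h2
    exact (ENNReal.ofReal_le_iff_le_toReal (hGtop a)).1 h
  · intro A
    have h := ENNReal.toReal_mono ENNReal.ofReal_ne_top (hS1 A)
    rw [ENNReal.toReal_ofReal (by positivity), ENNReal.toReal_sum
      (fun a _ => ENNReal.mul_ne_top ENNReal.ofReal_ne_top (hGtop a))] at h
    have h2 : ∀ a ∈ A, (ENNReal.ofReal (1 + (a : ℝ)) * G a).toReal =
        (1 + (a : ℝ)) * (G a).toReal := by
      intro a _
      rw [ENNReal.toReal_mul, ENNReal.toReal_ofReal (by positivity)]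
    rw [Finset.sum_congr rfl h2] at h
    have h3 : 0 ≤ 2 * C2 * J := by positivity
    linarith
  · intro A
    have h := ENNReal.toReal_mono ENNReal.ofReal_ne_top (hS2 A)
    rw [ENNReal.toReal_ofReal (by positivity), ENNReal.toReal_sum (fun a _ => hGtop a)] at h
    refine le_trans h ?_
    push_cast
    gcongr
    have h3 : 0 ≤ 2 * (C1 : ℝ) * J := by positivity
    linarith

end Pool.Agent.BPT
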