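import Pool.Agent.MP_99a865_pr.FV.A1

open MeasureTheory ProbabilityTheory Filter Topology
open scoped ENNReal NNReal

namespace Pool.Agent.BPT

variable {D : Set ℝ} {ρ : Measure ℝ}

/-! **[FV-A1b]** Markov property: consequences of `lintegral_split`/`integral_split`, `alive_add`, `S_shift`. -/

lemma A1b_S_congr (k : ℕ) {ω ω' : ℕ → ℝ} (h : ∀ i < k, ω i = ω' i) {j : ℕ} (hj : j ≤ k) :
    S j ω = S j ω' := by
  unfold S
  refine Finset.sum_congr rfl fun i hi => h i ?_
  have := Finset.mem_range.mp hi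
  omega

lemma A1b_alive_congr (k : ℕ) (x : ℝ) {ω ω' : ℕ → ℝ} (h : ∀ i < k, ω i = ω' i) :
    Alive D x k ω ↔ Alive D x k ω' := by
  unfold Alive
  refine forall_congr' fun j => forall_congr' fun _ => forall_congr' fun hj => ?_
  rw [A1b_S_congr k h hj]

theorem lintegral_kap_one (hD : Dom D) [IsProbabilityMeasure ρ] (x : ℝ) (f : ℝ → ℝ≥0∞)
    (hf : Measurable f) :
    ∫⁻ y, f y ∂(kap D ρ 1 x) = ∫⁻ y in {y | x + y ∈ D}, f (x + y) ∂ρ := by
  rw [lintegral_kap_eq hD 1 x f hf]
  have h1 : {ω : ℕ → ℝ | Alive D x 1 ω} = {ω : ℕ → ℝ | x + ω 0 ∈ D} := by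
    ext ω
    simp only [Set.mem_setOf_eq, Alive]
    constructor
    · intro h
      simpa [S] using h 1 le_rfl le_rfl
    · intro h j h1 h2
      have : j = 1 := by omega
      subst this
      simpa [S] using h
  have h2 : ∀ ω : ℕ → ℝ, x + S 1 ω = x + ω 0 := by
    intro ω
    simp [S]
  simp_rw [h2]
  rw [h1]
  have hms : MeasurableSet {y : ℝ | x + y ∈ D} := (measurable_const_add x) hD.meas
  have h3 : (seqLaw ρ).map (fun ω : ℕ → ℝ => ω 0) = ρ :=
    Measure.infinitePi_map_eval (μ := fun _ : ℕ => ρ) 0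
  have hmeas0 : Measurable (fun ω : ℕ → ℝ => ω 0) := measurable_pi_apply 0
  conv_rhs => rw [← h3]
  have h4 := setLIntegral_map (μ := seqLaw ρ) (f := fun y => f (x + y)) hms
    (hf.comp (measurable_const_add x)) hmeas0
  rw [h4]
  rfl

/-- two-variable version (`F` may depend on the intermediate point) -/
theorem lintegral_kap_add' (hD : Dom D) [IsProbabilityMeasure ρ] (k l : ℕ) (x : ℝ)
    (F : ℝ → ℝ≥0∞) (G : ℝ → ℝ → ℝ≥0∞) (hF : Measurable F) (hG : Measurable (Function.uncurry G)) :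
    ∫⁻ ω in {ω | Alive D x (k + l) ω}, F (x + S k ω) * G (x + S k ω) (x + S (k + l) ω) ∂(seqLaw ρ)
      = ∫⁻ y, F y * ∫⁻ z, G y z ∂(kap D ρ l y) ∂(kap D ρ k x) := by
  classical
  set H : (ℕ → ℝ) → (ℕ → ℝ) → ℝ≥0∞ := fun ω η =>
    (({ω | Alive D x k ω} : Set (ℕ → ℝ)).indicator (fun _ => (1 : ℝ≥0∞)) ω) *
      (F (x + S k ω) * (({p : ℝ × (ℕ → ℝ) | Alive D p.1 l p.2} : Set (ℝ × (ℕ → ℝ))).indicator
        (fun p => G p.1 (p.1 + S l p.2)) (x + S k ω, η))) with hHdef
  have hSk : Measurable fun p : (ℕ → ℝ) × (ℕ → ℝ) => x + S k p.1 :=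
    (A1_meas_add k x).comp measurable_fst
  have hGm : Measurable fun p : ℝ × (ℕ → ℝ) => G p.1 (p.1 + S l p.2) :=
    hG.comp (measurable_fst.prodMk (A1_meas_add' l))
  have hind : Measurable (({p : ℝ × (ℕ → ℝ) | Alive D p.1 l p.2} : Set (ℝ × (ℕ → ℝ))).indicator
        (fun p => G p.1 (p.1 + S l p.2))) := hGm.indicator (measurableSet_alive' hD l)
  have hHm : Measurable (Function.uncurry H) := by
    refine Measurable.mul ?_ (Measurable.mul ?_ ?_)
    · exact (measurable_const.indicator (measurableSet_alive hD x k)).comp measurable_fst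
    · exact hF.comp hSk
    · exact hind.comp (hSk.prodMk measurable_snd)
  have hdep : ∀ ω ω' η, (∀ i < k, ω i = ω' i) → H ω η = H ω' η := by
    intro ω ω' η h
    have h1 := A1b_S_congr k h le_rfl
    have h2 := A1b_alive_congr (D := D) k x h
    simp only [hHdef, h1, Set.indicator, Set.mem_setOf_eq, h2]
  have key := lintegral_split ρ k H hHm hdep
  have hL : ∫⁻ ω in {ω | Alive D x (k + l) ω},
      F (x + S k ω) * G (x + S k ω) (x + S (k + l) ω) ∂(seqLaw ρ) =
      ∫⁻ ω, H ω (shift k ω) ∂(seqLaw ρ) := by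
    rw [← lintegral_indicator (measurableSet_alive hD x (k + l))]
    refine lintegral_congr fun ω => ?_
    simp only [hHdef, Set.indicator, Set.mem_setOf_eq]
    by_cases h1 : Alive D x k ω
    · by_cases h2 : Alive D (x + S k ω) l (shift k ω)
      · have h3 : Alive D x (k + l) ω := (alive_add x k l ω).mpr ⟨h1, h2⟩
        rw [if_pos h3, if_pos h1, if_pos h2, one_mul, S_shift, add_assoc]
      · have h3 : ¬ Alive D x (k + l) ω := fun h => h2 ((alive_add x k l ω).mp h).2
        rw [if_neg h3, if_neg h2, mul_zero, mul_zero]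
    · have h3 : ¬ Alive D x (k + l) ω := fun h => h1 ((alive_add x k l ω).mp h).1
      rw [if_neg h3, if_neg h1, zero_mul]
  rw [hL, key]
  have hinner : ∀ ω, ∫⁻ η, H ω η ∂(seqLaw ρ) =
      (({ω | Alive D x k ω} : Set (ℕ → ℝ)).indicator
        (fun ω => F (x + S k ω) * ∫⁻ z, G (x + S k ω) z ∂(kap D ρ l (x + S k ω))) ω) := by
    intro ω
    have hGz : Measurable (G (x + S k ω)) := hG.comp measurable_prodMk_left
    have hη : Measurable fun η : ℕ → ℝ =>
        (({p : ℝ × (ℕ → ℝ) | Alive D p.1 l p.2} : Set (ℝ × (ℕ → ℝ))).indicator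
        (fun p => G p.1 (p.1 + S l p.2)) (x + S k ω, η)) := hind.comp measurable_prodMk_left
    simp only [hHdef]
    rw [lintegral_const_mul _ (hη.const_mul _), lintegral_const_mul _ hη]
    have h4 : ∫⁻ η, (({p : ℝ × (ℕ → ℝ) | Alive D p.1 l p.2} : Set (ℝ × (ℕ → ℝ))).indicator
        (fun p => G p.1 (p.1 + S l p.2)) (x + S k ω, η)) ∂(seqLaw ρ) =
        ∫⁻ z, G (x + S k ω) z ∂(kap D ρ l (x + S k ω)) := by
      rw [lintegral_kap_eq hD l _ _ hGz, ← lintegral_indicator (measurableSet_alive hD _ l)]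
      refine lintegral_congr fun η => ?_
      simp only [Set.indicator, Set.mem_setOf_eq]
    rw [h4]
    by_cases h1 : Alive D x k ω
    · simp [Set.indicator, h1]
    · simp [Set.indicator, h1]
  simp_rw [hinner]
  rw [lintegral_indicator (measurableSet_alive hD x k)]
  unfold kap
  rw [lintegral_map _ (A1_meas_add k x)]
  refine hF.mul ?_
  have h5 : ∀ y, ∫⁻ z, G y z ∂(kap D ρ l y) = ∫⁻ η,
      (({p : ℝ × (ℕ → ℝ) | Alive D p.1 l p.2} : Set (ℝ × (ℕ → ℝ))).indicator
        (fun p => G p.1 (p.1 + S l p.2)) (y, η)) ∂(seqLaw ρ) := by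
    intro y
    have hGz : Measurable (G y) := hG.comp measurable_prodMk_left
    rw [lintegral_kap_eq hD l _ _ hGz, ← lintegral_indicator (measurableSet_alive hD _ l)]
    refine lintegral_congr fun η => ?_
    simp only [Set.indicator, Set.mem_setOf_eq]
  change Measurable fun y => ∫⁻ z, G y z ∂(kap D ρ l y)
  simp_rw [h5]
  exact hind.lintegral_prod_right'

theorem measurable_lintegral_kap (hD : Dom D) [IsProbabilityMeasure ρ] (k : ℕ)
    (G : ℝ → ℝ → ℝ≥0∞) (hG : Measurable (Function.uncurry G)) :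
    Measurable fun y => ∫⁻ z, G y z ∂(kap D ρ k y) := by
  have hGm : Measurable fun p : ℝ × (ℕ → ℝ) => G p.1 (p.1 + S k p.2) :=
    hG.comp (measurable_fst.prodMk (A1_meas_add' k))
  have hind : Measurable (({p : ℝ × (ℕ → ℝ) | Alive D p.1 k p.2} : Set (ℝ × (ℕ → ℝ))).indicator
        (fun p => G p.1 (p.1 + S k p.2))) := hGm.indicator (measurableSet_alive' hD k)
  have h5 : ∀ y, ∫⁻ z, G y z ∂(kap D ρ k y) = ∫⁻ η,
      (({p : ℝ × (ℕ → ℝ) | Alive D p.1 k p.2} : Set (ℝ × (ℕ → ℝ))).indicator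
        (fun p => G p.1 (p.1 + S k p.2)) (y, η)) ∂(seqLaw ρ) := by
    intro y
    have hGz : Measurable (G y) := hG.comp measurable_prodMk_left
    rw [lintegral_kap_eq hD k _ _ hGz, ← lintegral_indicator (measurableSet_alive hD _ k)]
    exact lintegral_congr fun η => rfl
  simp_rw [h5]
  exact hind.lintegral_prod_right'

theorem lintegral_kap_add (hD : Dom D) [IsProbabilityMeasure ρ] (k l : ℕ) (x : ℝ) (f : ℝ → ℝ≥0∞)
    (hf : Measurable f) :
    ∫⁻ z, f z ∂(kap D ρ (k + l) x) = ∫⁻ y, ∫⁻ z, f z ∂(kap D ρ l y) ∂(kap D ρ k x) := by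
  have h := lintegral_kap_add' hD (ρ := ρ) k l x (fun _ => 1) (fun _ z => f z) measurable_const
    (hf.comp measurable_snd)
  simp only [one_mul] at h
  rw [← h, lintegral_kap_eq hD (k + l) x f hf]

theorem kap_add_apply (hD : Dom D) [IsProbabilityMeasure ρ] (k l : ℕ) (x : ℝ) (s : Set ℝ)
    (hs : MeasurableSet s) :
    kap D ρ (k + l) x s = ∫⁻ y, kap D ρ l y s ∂(kap D ρ k x) := by
  have h := lintegral_kap_add hD (ρ := ρ) k l x (s.indicator fun _ => 1)
    (measurable_const.indicator hs)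
  simp only [lintegral_indicator hs, lintegral_const, one_mul, Measure.restrict_apply_univ] at h
  exact h

theorem lintegral_fre_add [IsProbabilityMeasure ρ] (k l : ℕ) (x : ℝ) (f : ℝ → ℝ≥0∞)
    (hf : Measurable f) :
    ∫⁻ z, f z ∂(fre ρ (k + l) x) = ∫⁻ y, ∫⁻ z, f z ∂(fre ρ l y) ∂(fre ρ k x) := by
  set H : (ℕ → ℝ) → (ℕ → ℝ) → ℝ≥0∞ := fun ω η => f ((x + S k ω) + S l η) with hHdef
  have hHm : Measurable (Function.uncurry H) := by
    refine hf.comp (((A1_meas_add k x).comp measurable_fst).add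
      ((measurable_S l).comp measurable_snd))
  have hdep : ∀ ω ω' η, (∀ i < k, ω i = ω' i) → H ω η = H ω' η := by
    intro ω ω' η h
    simp only [hHdef, A1b_S_congr k h le_rfl]
  have key := lintegral_split ρ k H hHm hdep
  unfold fre
  rw [lintegral_map hf (A1_meas_add (k + l) x)]
  have h1 : ∀ ω : ℕ → ℝ, f (x + S (k + l) ω) = H ω (shift k ω) := by
    intro ω
    simp only [hHdef, S_shift, add_assoc]
  simp_rw [h1]
  rw [key]
  have h2 : ∀ y, ∫⁻ z, f z ∂((seqLaw ρ).map fun η => y + S l η) = ∫⁻ η, f (y + S l η) ∂(seqLaw ρ) :=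
    fun y => lintegral_map hf (A1_meas_add l y)
  simp_rw [h2]
  rw [lintegral_map _ (A1_meas_add k x)]
  exact (hf.comp (A1_meas_add' l)).lintegral_prod_right'

theorem A1b_integral_eq (hD : Dom D) [IsProbabilityMeasure ρ] (k : ℕ) (f : ℝ → ℝ)
    (hf : Measurable f) (y : ℝ) :
    ∫ z, f z ∂(kap D ρ k y) = ∫ η,
      (({p : ℝ × (ℕ → ℝ) | Alive D p.1 k p.2} : Set (ℝ × (ℕ → ℝ))).indicator
        (fun p => f (p.1 + S k p.2)) (y, η)) ∂(seqLaw ρ) := by
  rw [integral_kap_eq hD k _ _ hf, ← integral_indicator (measurableSet_alive hD _ k)]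
  exact integral_congr_ae (Filter.Eventually.of_forall fun η => rfl)

theorem measurable_integral_kap (hD : Dom D) [IsProbabilityMeasure ρ] (k : ℕ) (f : ℝ → ℝ)
    (hf : Measurable f) (C : ℝ) (hC : ∀ x, |f x| ≤ C) :
    Measurable fun y => ∫ z, f z ∂(kap D ρ k y) := by
  have _ := hC
  have hind : Measurable (({p : ℝ × (ℕ → ℝ) | Alive D p.1 k p.2} : Set (ℝ × (ℕ → ℝ))).indicator
        (fun p => f (p.1 + S k p.2))) :=
    (hf.comp (A1_meas_add' k)).indicator (measurableSet_alive' hD k)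
  simp_rw [A1b_integral_eq hD k f hf]
  exact (hind.stronglyMeasurable.integral_prod_right' (ν := seqLaw ρ)).measurable

theorem integral_kap_add (hD : Dom D) [IsProbabilityMeasure ρ] (k l : ℕ) (x : ℝ) (f : ℝ → ℝ)
    (hf : Measurable f) (C : ℝ) (hC : ∀ x, |f x| ≤ C) :
    ∫ z, f z ∂(kap D ρ (k + l) x) = ∫ y, ∫ z, f z ∂(kap D ρ l y) ∂(kap D ρ k x) := by
  classical
  have hC0 : 0 ≤ C := le_trans (abs_nonneg _) (hC 0)
  set H : (ℕ → ℝ) → (ℕ → ℝ) → ℝ := fun ω η =>
    (({ω | Alive D x k ω} : Set (ℕ → ℝ)).indicator (fun _ => (1 : ℝ)) ω) *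
      ((({p : ℝ × (ℕ → ℝ) | Alive D p.1 l p.2} : Set (ℝ × (ℕ → ℝ))).indicator
        (fun p => f (p.1 + S l p.2)) (x + S k ω, η))) with hHdef
  have hSk : Measurable fun p : (ℕ → ℝ) × (ℕ → ℝ) => x + S k p.1 :=
    (A1_meas_add k x).comp measurable_fst
  have hind : Measurable (({p : ℝ × (ℕ → ℝ) | Alive D p.1 l p.2} : Set (ℝ × (ℕ → ℝ))).indicator
        (fun p => f (p.1 + S l p.2))) :=
    (hf.comp (A1_meas_add' l)).indicator (measurableSet_alive' hD l)
  have hHm : Measurable (Function.uncurry H) := by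
    refine Measurable.mul ?_ ?_
    · exact (measurable_const.indicator (measurableSet_alive hD x k)).comp measurable_fst
    · exact hind.comp (hSk.prodMk measurable_snd)
  have hdep : ∀ ω ω' η, (∀ i < k, ω i = ω' i) → H ω η = H ω' η := by
    intro ω ω' η h
    have h1 := A1b_S_congr k h le_rfl
    have h2 := A1b_alive_congr (D := D) k x h
    simp only [hHdef, h1, Set.indicator, Set.mem_setOf_eq, h2]
  have hHb : ∀ ω η, |H ω η| ≤ C := by
    intro ω η
    simp only [hHdef, Set.indicator, Set.mem_setOf_eq]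
    split_ifs
    · simpa using hC _
    · simpa using hC0
    · simpa using hC0
    · simpa using hC0
  have key := integral_split ρ k H hHm C hHb hdep
  have hL : ∫ z, f z ∂(kap D ρ (k + l) x) = ∫ ω, H ω (shift k ω) ∂(seqLaw ρ) := by
    rw [integral_kap_eq hD (k + l) x f hf,
      ← integral_indicator (measurableSet_alive hD x (k + l))]
    refine integral_congr_ae (Filter.Eventually.of_forall fun ω => ?_)
    simp only [hHdef, Set.indicator, Set.mem_setOf_eq]
    by_cases h1 : Alive D x k ω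
    · by_cases h2 : Alive D (x + S k ω) l (shift k ω)
      · have h3 : Alive D x (k + l) ω := (alive_add x k l ω).mpr ⟨h1, h2⟩
        rw [if_pos h3, if_pos h1, if_pos h2, one_mul, S_shift, add_assoc]
      · have h3 : ¬ Alive D x (k + l) ω := fun h => h2 ((alive_add x k l ω).mp h).2
        rw [if_neg h3, if_neg h2, mul_zero]
    · have h3 : ¬ Alive D x (k + l) ω := fun h => h1 ((alive_add x k l ω).mp h).1
      rw [if_neg h3, if_neg h1, zero_mul]
  rw [hL, key]
  have hinner : ∀ ω, ∫ η, H ω η ∂(seqLaw ρ) =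
      (({ω | Alive D x k ω} : Set (ℕ → ℝ)).indicator
        (fun ω => ∫ z, f z ∂(kap D ρ l (x + S k ω))) ω) := by
    intro ω
    simp only [hHdef]
    rw [integral_const_mul, ← A1b_integral_eq hD l f hf]
    by_cases h1 : Alive D x k ω
    · simp [Set.indicator, h1]
    · simp [Set.indicator, h1]
  simp_rw [hinner]
  rw [integral_indicator (measurableSet_alive hD x k),
    integral_kap_eq hD k x _ (measurable_integral_kap hD l f hf C hC)]

end Pool.Agent.BPT
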