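import Pool.Agent.MP_99a865_pr.FV.A1c

open MeasureTheory ProbabilityTheory Filter Topology
open scoped ENNReal NNReal

namespace Pool.Agent.BPT

variable {D : Set ℝ} {ρ : Measure ℝ}

instance A2_sFinite_lam (h c : ℝ) : SFinite (lam h c) := by
  unfold lam
  split_ifs <;> infer_instance

theorem A2_dual_prob [IsProbabilityMeasure ρ] : IsProbabilityMeasure (dual ρ) :=
  Measure.isProbabilityMeasure_map measurable_neg.aemeasurable

/-- the killed walk as a kernel -/
noncomputable def A2_ker (D : Set ℝ) (ρ : Measure ℝ) (hD : Dom D) [IsProbabilityMeasure ρ] (k : ℕ) :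
    Kernel ℝ ℝ := ⟨kap D ρ k, measurable_kap hD k⟩

instance A2_ker_finite (hD : Dom D) [IsProbabilityMeasure ρ] (k : ℕ) :
    IsFiniteKernel (A2_ker D ρ hD k) :=
  ⟨⟨1, ENNReal.one_lt_top, fun x => kap_univ_le_one k x⟩⟩

theorem A2_meas (hD : Dom D) [IsProbabilityMeasure ρ] (k : ℕ) (F : ℝ → ℝ → ℝ≥0∞)
    (hF : Measurable (Function.uncurry F)) :
    Measurable (Function.uncurry fun x x' => ∫⁻ y, F x y ∂(kap D ρ k x')) := by
  have h1 : Measurable (fun q : (ℝ × ℝ) × ℝ => F q.1.1 q.2) :=
    hF.comp (measurable_fst.fst.prodMk measurable_snd)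
  have h2 := Measurable.lintegral_kernel_prod_right' (κ := (A2_ker D ρ hD k).comap
    (Prod.snd : ℝ × ℝ → ℝ) measurable_snd) h1
  exact h2

theorem A2_meas' (hD : Dom D) [IsProbabilityMeasure ρ] (k : ℕ) (F : ℝ → ℝ → ℝ≥0∞)
    (hF : Measurable (Function.uncurry F)) :
    Measurable (Function.uncurry fun x' y => ∫⁻ x, F x y ∂(kap D ρ k x')) := by
  have h0 : Measurable (Function.uncurry fun y x => F x y) := hF.comp measurable_swap
  exact (A2_meas hD k (fun y x => F x y) h0).comp measurable_swap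

/-- translation of `lam h c` by a step -/
theorem A2_translate (a h c y : ℝ) (hy : Cos h a y) (g : ℝ → ℝ≥0∞) (hg : Measurable g) :
    ∫⁻ x, g (x + y) ∂(lam h c) = ∫⁻ x, g x ∂(lam h (c + a)) := by
  unfold lam
  split_ifs with h0
  · exact lintegral_add_right_eq_self g y
  · obtain ⟨i, hi⟩ := hy h0
    rw [lintegral_smul_measure, lintegral_smul_measure, lintegral_sum_measure,
      lintegral_sum_measure]
    congr 1
    rw [← Equiv.tsum_eq (Equiv.addLeft i) (fun j : ℤ => ∫⁻ x, g x ∂(Measure.dirac (c + a + h * j)))]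
    refine tsum_congr fun j => ?_
    have hgy : Measurable (fun x => g (x + y)) := hg.comp (measurable_add_const y)
    rw [lintegral_dirac' _ hgy, lintegral_dirac' _ hg]
    congr 1
    simp only [Equiv.coe_addLeft]
    push_cast
    rw [hi]
    ring

/-- the case of one step -/
theorem A2_one (hD : Dom D) [IsProbabilityMeasure ρ] (a h c : ℝ)
    (hstep : ∀ᵐ x ∂ρ, Cos h a x) (F : ℝ → ℝ → ℝ≥0∞) (hF : Measurable (Function.uncurry F)) :
    ∫⁻ x in D, ∫⁻ y, F x y ∂(kap D ρ 1 x) ∂(lam h c) =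
      ∫⁻ y in D, ∫⁻ x, F x y ∂(kap D (dual ρ) 1 y) ∂(lam h (c + a)) := by
  haveI : IsProbabilityMeasure (dual ρ) := A2_dual_prob
  have hDm := hD.meas
  -- indicator of `D`
  let φ : ℝ → ℝ≥0∞ := D.indicator (fun _ => 1)
  have hφ : Measurable φ := measurable_const.indicator hDm
  have hφD : ∀ (g : ℝ → ℝ≥0∞) (m : Measure ℝ), ∫⁻ x in D, g x ∂m = ∫⁻ x, φ x * g x ∂m := by
    intro g m
    rw [← lintegral_indicator hDm]
    refine lintegral_congr fun x => ?_
    simp only [φ]
    by_cases hx : x ∈ D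
    · simp [hx]
    · simp [hx]
  -- the left hand side
  have hL : ∀ x : ℝ, ∫⁻ y, F x y ∂(kap D ρ 1 x) = ∫⁻ y, φ (x + y) * F x (x + y) ∂ρ := by
    intro x
    have hFx : Measurable (F x) := hF.comp measurable_prodMk_left
    rw [lintegral_kap_one hD x (F x) hFx]
    have hm : MeasurableSet {y : ℝ | x + y ∈ D} := (measurable_const_add x) hDm
    rw [← lintegral_indicator hm]
    refine lintegral_congr fun y => ?_
    simp only [φ]
    by_cases hy : x + y ∈ D
    · simp [hy]
    · simp [hy]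
  have hR : ∀ y : ℝ, ∫⁻ x, F x y ∂(kap D (dual ρ) 1 y) = ∫⁻ z, φ (y - z) * F (y - z) y ∂ρ := by
    intro y
    have hFy : Measurable (fun x => F x y) := hF.comp measurable_prodMk_right
    rw [lintegral_kap_one hD y (fun x => F x y) hFy]
    have hm : MeasurableSet {x : ℝ | y + x ∈ D} := (measurable_const_add y) hDm
    rw [← lintegral_indicator hm]
    have hFy' : Measurable (fun z => F (y + z) y) := hFy.comp (measurable_const_add y)
    have hd : dual ρ = ρ.map (fun x => -x) := rfl
    rw [hd, lintegral_map (hFy'.indicator hm) measurable_neg]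
    refine lintegral_congr fun z => ?_
    simp only [φ]
    by_cases hy : y - z ∈ D
    · have hy' : -z ∈ {x : ℝ | y + x ∈ D} := by
        show y + -z ∈ D
        rwa [← sub_eq_add_neg]
      simp [hy, hy', ← sub_eq_add_neg]
    · have hy' : -z ∉ {x : ℝ | y + x ∈ D} := by
        show y + -z ∉ D
        rwa [← sub_eq_add_neg]
      simp [hy, hy']
  rw [hφD, hφD]
  simp only [hL, hR]
  have hm1 : Measurable (Function.uncurry fun x y => φ x * (φ (x + y) * F x (x + y))) := by
    have h1 : Measurable (fun q : ℝ × ℝ => φ (q.1 + q.2)) := hφ.comp (measurable_fst.add measurable_snd)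
    have h2 : Measurable (fun q : ℝ × ℝ => F q.1 (q.1 + q.2)) :=
      hF.comp (measurable_fst.prodMk (measurable_fst.add measurable_snd))
    exact (hφ.comp measurable_fst).mul (h1.mul h2)
  have hm2 : Measurable (Function.uncurry fun y z => φ y * (φ (y - z) * F (y - z) y)) := by
    have h1 : Measurable (fun q : ℝ × ℝ => φ (q.1 - q.2)) := hφ.comp (measurable_fst.sub measurable_snd)
    have h2 : Measurable (fun q : ℝ × ℝ => F (q.1 - q.2) q.1) :=
      hF.comp ((measurable_fst.sub measurable_snd).prodMk measurable_fst)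
    exact (hφ.comp measurable_fst).mul (h1.mul h2)
  calc ∫⁻ x, φ x * ∫⁻ y, φ (x + y) * F x (x + y) ∂ρ ∂(lam h c)
      = ∫⁻ x, ∫⁻ y, φ x * (φ (x + y) * F x (x + y)) ∂ρ ∂(lam h c) := by
        refine lintegral_congr fun x => ?_
        rw [lintegral_const_mul]
        exact (hφ.comp (measurable_const_add x)).mul
          (hF.comp (measurable_const.prodMk (measurable_const_add x)))
    _ = ∫⁻ y, ∫⁻ x, φ x * (φ (x + y) * F x (x + y)) ∂(lam h c) ∂ρ :=
        lintegral_lintegral_swap hm1.aemeasurable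
    _ = ∫⁻ z, ∫⁻ y, φ y * (φ (y - z) * F (y - z) y) ∂(lam h (c + a)) ∂ρ := by
        refine lintegral_congr_ae ?_
        filter_upwards [hstep] with z hz
        have hgm : Measurable (fun y => φ y * (φ (y - z) * F (y - z) y)) :=
          hm2.comp measurable_prodMk_right
        have h1 := A2_translate a h c z hz (fun y => φ y * (φ (y - z) * F (y - z) y)) hgm
        rw [← h1]
        refine lintegral_congr fun x => ?_
        simp only [add_sub_cancel_right]
        ring
    _ = ∫⁻ y, ∫⁻ z, φ y * (φ (y - z) * F (y - z) y) ∂ρ ∂(lam h (c + a)) :=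
        (lintegral_lintegral_swap hm2.aemeasurable).symm
    _ = ∫⁻ y, φ y * ∫⁻ z, φ (y - z) * F (y - z) y ∂ρ ∂(lam h (c + a)) := by
        refine lintegral_congr fun y => ?_
        rw [lintegral_const_mul]
        exact (hφ.comp (measurable_const.sub measurable_id)).mul
          (hF.comp ((measurable_const.sub measurable_id).prodMk measurable_const))

/-- **[FV-A2]** Duality (time reversal) of the killed walk with respect to the measures `lam h c`.
PROOF. Induction on `k`, for all `c` and `F`.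
`k = 0`: `kap D ρ 0 x = dirac x`, both sides are `∫⁻ x in D, F x x ∂(lam h c)`.
`k = 1` for a general function `G`: by `lintegral_kap_one` the left side is
`∫⁻ x, ∫⁻ y, 1_D(x) 1_D(x+y) G(x, x+y) ∂ρ(y) ∂(lam h c)(x)`; exchange the integrals; for ρ-a.e. `y`
one has `Cos h a y`, and translation by such a `y` maps `lam h c` to `lam h (c + a)` (for `h = 0`
Lebesgue measure is translation invariant; for `h ≠ 0`, `c + h j + a + h i = (c + a) + h (i + j)`), so
`∫⁻ x, 1_D(x) 1_D(x+y) G(x,x+y) ∂(lam h c) = ∫⁻ x', 1_D(x'-y) 1_D(x') G(x'-y, x') ∂(lam h (c+a))`;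
exchange the integrals again; this is `∫⁻ x' in D, ∫⁻ x, G x x' ∂(kap D (dual ρ) 1 x') ∂(lam h (c+a))`.
Step `k + 1`: with `kap (1 + k) x = ∫ kap k x' d(kap 1 x)(x')` (`lintegral_kap_add`), the left side is
`∫⁻ x in D, ∫⁻ x', G x x' ∂(kap 1 x)`, `G x x' = ∫⁻ y, F x y ∂(kap k x')`. Apply the case `k = 1`, get
`∫⁻ x' in D, ∫⁻ x, ∫⁻ y, F x y ∂(kap D ρ k x') ∂(kap D (dual ρ) 1 x') ∂(lam h (c+a))`, exchange the two
inner (finite) measures, apply the induction hypothesis to `H x' y = ∫⁻ x, F x y ∂(kap D (dual ρ) 1 x')`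
with `c + a`, and recombine with `lintegral_kap_add` for the dual walk (`k + 1`).
(`lam h c` is σ-finite, s-finite is enough: `Measure.sum` of finite measures, `SFinite`.) -/
theorem duality (hD : Dom D) [IsProbabilityMeasure ρ] (a h c : ℝ) (hh : 0 ≤ h)
    (hstep : ∀ᵐ x ∂ρ, Cos h a x) (k : ℕ) (F : ℝ → ℝ → ℝ≥0∞) (hF : Measurable (Function.uncurry F)) :
    ∫⁻ x in D, ∫⁻ y, F x y ∂(kap D ρ k x) ∂(lam h c) =
      ∫⁻ y in D, ∫⁻ x, F x y ∂(kap D (dual ρ) k y) ∂(lam h (c + k * a)) := by
  haveI : IsProbabilityMeasure (dual ρ) := A2_dual_prob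
  induction k generalizing c F with
  | zero =>
    have h1 : c + ((0 : ℕ) : ℝ) * a = c := by simp
    rw [h1]
    refine lintegral_congr fun x => ?_
    have hFx : Measurable (F x) := hF.comp measurable_prodMk_left
    have hFy : Measurable (fun y => F y x) := hF.comp measurable_prodMk_right
    rw [kap_zero (ρ := ρ) x, kap_zero (ρ := dual ρ) x, lintegral_dirac' _ hFx,
      lintegral_dirac' _ hFy]
  | succ k ih =>
    have hFx : ∀ x, Measurable (F x) := fun x => hF.comp measurable_prodMk_left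
    have hFy : ∀ y, Measurable (fun x => F x y) := fun y => hF.comp measurable_prodMk_right
    have hG := A2_meas (ρ := ρ) hD k F hF
    have hH := A2_meas' (ρ := dual ρ) hD 1 F hF
    calc ∫⁻ x in D, ∫⁻ y, F x y ∂(kap D ρ (k + 1) x) ∂(lam h c)
        = ∫⁻ x in D, ∫⁻ x', ∫⁻ y, F x y ∂(kap D ρ k x') ∂(kap D ρ 1 x) ∂(lam h c) := by
          refine lintegral_congr fun x => ?_
          rw [add_comm k 1]
          exact lintegral_kap_add hD 1 k x (F x) (hFx x)
      _ = ∫⁻ x' in D, ∫⁻ x, ∫⁻ y, F x y ∂(kap D ρ k x') ∂(kap D (dual ρ) 1 x')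
            ∂(lam h (c + a)) := A2_one hD a h c hstep _ hG
      _ = ∫⁻ x' in D, ∫⁻ y, ∫⁻ x, F x y ∂(kap D (dual ρ) 1 x') ∂(kap D ρ k x')
            ∂(lam h (c + a)) := by
          refine lintegral_congr fun x' => ?_
          exact lintegral_lintegral_swap hF.aemeasurable
      _ = ∫⁻ y in D, ∫⁻ x', ∫⁻ x, F x y ∂(kap D (dual ρ) 1 x') ∂(kap D (dual ρ) k y)
            ∂(lam h (c + a + k * a)) := ih (c + a) _ hH
      _ = ∫⁻ y in D, ∫⁻ x, F x y ∂(kap D (dual ρ) (k + 1) y)
            ∂(lam h (c + (k + 1 : ℕ) * a)) := by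
          have h2 : c + a + k * a = c + (k + 1 : ℕ) * a := by push_cast; ring
          rw [h2]
          refine lintegral_congr fun y => ?_
          exact (lintegral_kap_add hD k 1 y (fun x => F x y) (hFy y)).symm

/-- the non-lattice case (Lebesgue measure), `h = 0` in `duality` -/
theorem duality_vol (hD : Dom D) [IsProbabilityMeasure ρ] (k : ℕ)
    (F : ℝ → ℝ → ℝ≥0∞) (hF : Measurable (Function.uncurry F)) :
    ∫⁻ x in D, ∫⁻ y, F x y ∂(kap D ρ k x) = ∫⁻ y in D, ∫⁻ x, F x y ∂(kap D (dual ρ) k y) := by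
  have h1 := duality hD 0 0 0 le_rfl (ρ := ρ)
    (Filter.Eventually.of_forall fun x h0 => absurd rfl h0) k F hF
  have h2 : ∀ c : ℝ, lam 0 c = volume := fun c => by simp [lam]
  rw [h2, h2] at h1
  exact h1

end Pool.Agent.BPT
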