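import Pool.Agent.MP_99a865_pr.FV.A1c

open MeasureTheory ProbabilityTheory Filter Topology
open scoped ENNReal NNReal

namespace Pool.Agent.BPT

variable {D : Set ℝ} {ρ : Measure ℝ}

/-! **[FV-A2b]** Elementary facts on `lam`, `Cos`, `IV` (`lam h c (I) = h · #(points of c + hℤ in I)` for `h > 0`). -/

/-- basic facts on `lam` -/
theorem lam_periodic (h c : ℝ) (j : ℤ) : lam h (c + h * j) = lam h c := by
  unfold lam
  split_ifs with h0
  · rfl
  · congr 1
    ext s hs
    rw [Measure.sum_apply _ hs, Measure.sum_apply _ hs]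
    rw [← Equiv.tsum_eq (Equiv.addLeft j) (fun i : ℤ => (Measure.dirac (c + h * i)) s)]
    refine tsum_congr fun i => ?_
    have h1 : c + h * j + h * i = c + h * (((Equiv.addLeft j) i : ℤ) : ℝ) := by
      simp only [Equiv.coe_addLeft]
      push_cast
      ring
    rw [h1]

theorem lam_zero (c : ℝ) : lam 0 c = volume := by simp [lam]

/-- `lam h c (I) ≤ (w - u) + h` for an interval -/
theorem lam_Icc_le (h c u w : ℝ) (hh : 0 ≤ h) (huw : u ≤ w) :
    lam h c (Set.Icc u w) ≤ ENNReal.ofReal (w - u + h) := by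
  classical
  unfold lam
  split_ifs with h0
  · rw [Real.volume_Icc, h0, add_zero]
  · have hpos : 0 < h := lt_of_le_of_ne hh (Ne.symm h0)
    rw [Measure.smul_apply, smul_eq_mul, Measure.sum_apply _ measurableSet_Icc]
    have h1 : ∀ j ∉ Finset.Icc ⌈(u - c) / h⌉ ⌊(w - c) / h⌋,
        (Measure.dirac (c + h * (j : ℝ))) (Set.Icc u w) = 0 := by
      intro j hj
      rw [Measure.dirac_apply' _ measurableSet_Icc]
      apply Set.indicator_of_notMem
      rintro ⟨h2, h3⟩
      apply hj
      rw [Finset.mem_Icc, Int.ceil_le, Int.le_floor, div_le_iff₀ hpos, le_div_iff₀ hpos]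
      constructor <;> linarith
    rw [tsum_eq_sum h1]
    have h2 : ∑ j ∈ Finset.Icc ⌈(u - c) / h⌉ ⌊(w - c) / h⌋,
        (Measure.dirac (c + h * (j : ℝ))) (Set.Icc u w) ≤
        ((Finset.Icc ⌈(u - c) / h⌉ ⌊(w - c) / h⌋).card : ℝ≥0∞) := by
      refine le_trans (Finset.sum_le_sum (fun j _ => prob_le_one)) ?_
      simp
    refine le_trans (mul_le_mul_right h2 _) ?_
    rw [Int.card_Icc]
    have h3 : (((⌊(w - c) / h⌋ + 1 - ⌈(u - c) / h⌉).toNat : ℕ) : ℝ) ≤ (w - u) / h + 1 := by
      have h4 : (0 : ℝ) ≤ (w - u) / h + 1 := by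
        have : 0 ≤ (w - u) / h := div_nonneg (by linarith) hh
        linarith
      have h5 := Int.floor_le ((w - c) / h)
      have h6 := Int.le_ceil ((u - c) / h)
      have h7 : (w - u) / h = (w - c) / h - (u - c) / h := by ring
      have h8 : ((((⌊(w - c) / h⌋ + 1 - ⌈(u - c) / h⌉).toNat : ℕ) : ℤ) : ℝ) ≤ (w - u) / h + 1 := by
        rw [Int.toNat_eq_max]
        push_cast
        apply max_le
        · rw [h7]
          linarith
        · exact h4
      exact_mod_cast h8
    calc ENNReal.ofReal h * (((⌊(w - c) / h⌋ + 1 - ⌈(u - c) / h⌉).toNat : ℕ) : ℝ≥0∞)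
        = ENNReal.ofReal h * ENNReal.ofReal (((⌊(w - c) / h⌋ + 1 - ⌈(u - c) / h⌉).toNat : ℕ) : ℝ) := by
          rw [ENNReal.ofReal_natCast]
      _ = ENNReal.ofReal (h * (((⌊(w - c) / h⌋ + 1 - ⌈(u - c) / h⌉).toNat : ℕ) : ℝ)) := by
          rw [ENNReal.ofReal_mul hh]
      _ ≤ ENNReal.ofReal (w - u + h) := by
          apply ENNReal.ofReal_le_ofReal
          calc h * (((⌊(w - c) / h⌋ + 1 - ⌈(u - c) / h⌉).toNat : ℕ) : ℝ)
              ≤ h * ((w - u) / h + 1) := mul_le_mul_of_nonneg_left h3 hh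
            _ = w - u + h := by field_simp

theorem A2b_measurableSet_Cos (h c : ℝ) : MeasurableSet {z | Cos h c z} := by
  by_cases h0 : h = 0
  · have : {z | Cos h c z} = Set.univ := by
      ext z
      simp [Cos, h0]
    rw [this]
    exact MeasurableSet.univ
  · have : {z | Cos h c z} = Set.range (fun j : ℤ => c + h * j) := by
      ext z
      simp only [Cos, Set.mem_setOf_eq, Set.mem_range]
      constructor
      · intro h1
        obtain ⟨j, hj⟩ := h1 h0
        exact ⟨j, hj.symm⟩
      · rintro ⟨j, hj⟩ _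
        exact ⟨j, hj.symm⟩
    rw [this]
    exact (Set.countable_range _).measurableSet

theorem ae_lam (h c : ℝ) : ∀ᵐ z ∂(lam h c), Cos h c z := by
  by_cases h0 : h = 0
  · exact Filter.Eventually.of_forall fun z h1 => absurd h0 h1
  · rw [ae_iff]
    unfold lam
    rw [if_neg h0]
    have hm : MeasurableSet {z | ¬ Cos h c z} := (A2b_measurableSet_Cos h c).compl
    rw [Measure.smul_apply, smul_eq_mul, Measure.sum_apply _ hm]
    have : ∀ j : ℤ, (Measure.dirac (c + h * (j : ℝ))) {z | ¬ Cos h c z} = 0 := by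
      intro j
      rw [Measure.dirac_apply' _ hm]
      apply Set.indicator_of_notMem
      intro h1
      exact h1 (fun _ => ⟨j, rfl⟩)
    simp [this]

/-- the walk stays on its lattice -/
theorem ae_kap (hD : Dom D) [IsProbabilityMeasure ρ] (a h : ℝ) (hstep : ∀ᵐ x ∂ρ, Cos h a x) (k : ℕ)
    (x : ℝ) : ∀ᵐ z ∂(kap D ρ k x), Cos h (x + k * a) z := by
  have h1 : ∀ᵐ z ∂(fre ρ k x), Cos h (x + k * a) z := by
    unfold fre
    rw [ae_map_iff ((measurable_S k).const_add x).aemeasurable (A2b_measurableSet_Cos _ _)]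
    have h2 : ∀ᵐ ω ∂(seqLaw ρ), ∀ i : ℕ, Cos h a (ω i) := by
      rw [ae_all_iff]
      intro i
      have h3 := (measurePreserving_eval_infinitePi (fun _ : ℕ => ρ) i).quasiMeasurePreserving.ae
        hstep
      exact h3
    filter_upwards [h2] with ω hω
    intro h0
    have h4 : ∀ i : ℕ, ∃ j : ℤ, ω i = a + h * j := fun i => hω i h0
    choose j hj using h4
    refine ⟨∑ i ∈ Finset.range k, j i, ?_⟩
    unfold S
    rw [Finset.sum_congr rfl (fun i _ => hj i), Finset.sum_add_distrib, Finset.sum_const,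
      Finset.card_range, nsmul_eq_mul, ← Finset.mul_sum]
    push_cast
    ring
  exact (Measure.absolutelyContinuous_of_le (kap_le_fre hD k x)).ae_le h1

/-- facts on `IV` -/
theorem IV_subset (hD : Dom D) (u w : ℝ) : IV D u w ⊆ Set.Icc u w := by
  rintro y ⟨h1, h2⟩
  have h3 := hD.nonneg h1
  have h4 := hD.not_mem h2
  constructor <;> linarith

theorem measurableSet_IV (hD : Dom D) (u w : ℝ) : MeasurableSet (IV D u w) := by
  have h1 : MeasurableSet {y : ℝ | y - u ∈ D} := (measurable_id.sub_const u) hD.meas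
  have h2 : MeasurableSet {y : ℝ | y - w ∈ D} := (measurable_id.sub_const w) hD.meas
  exact h1.inter h2.compl

theorem lam_IV_le (hD : Dom D) (h c : ℝ) (hh : 0 ≤ h) (u w : ℝ) :
    (lam h c).real (IV D u w) ≤ max 0 (w - u) + h := by
  by_cases huw : u ≤ w
  · rw [max_eq_right (by linarith)]
    unfold Measure.real
    refine ENNReal.toReal_le_of_le_ofReal (by linarith) ?_
    exact le_trans (measure_mono (IV_subset hD u w)) (lam_Icc_le h c u w hh huw)
  · have h1 : IV D u w = ∅ := by
      rw [Set.eq_empty_iff_forall_notMem]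
      intro y hy
      have := IV_subset hD u w hy
      exact huw (this.1.trans this.2)
    rw [h1]
    simp only [measureReal_empty]
    positivity

/-- for `z` in the coset of `c`, `lam h z = lam h c` -/
theorem lam_congr (h c z : ℝ) (hz : Cos h c z) : lam h z = lam h c := by
  by_cases h0 : h = 0
  · rw [h0, lam_zero, lam_zero]
  · obtain ⟨j, hj⟩ := hz h0
    rw [hj, lam_periodic]

end Pool.Agent.BPT
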