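import Pool.Agent.MP_99a865_pr.FV.A1c

open MeasureTheory ProbabilityTheory Filter Topology
open scoped ENNReal NNReal

namespace Pool.Agent.BPT

variable {D : Set ℝ} {ρ : Measure ℝ}

/-- the characteristic function of the free walk -/
theorem charFun_fre [IsProbabilityMeasure ρ] (k : ℕ) (x t : ℝ) :
    charFun (fre ρ k x) t = Complex.exp (t * x * Complex.I) * charFun ρ t ^ k := by
  have h1 : fre ρ k x = ((seqLaw ρ).map (fun ω => ∑ i ∈ Finset.range k, ω i)).map (fun y => x + y) := by
    rw [Measure.map_map (measurable_const_add x) (by exact measurable_S k)]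
    rfl
  rw [h1, charFun_map_const_add]
  have hind : iIndepFun (fun i (ω : ℕ → ℝ) => ω i) (seqLaw ρ) :=
    iIndepFun_infinitePi (P := fun _ : ℕ => ρ) (X := fun _ x => x) (fun _ => measurable_id)
  rw [(hind.restrict _).charFun_map_fun_finsetSum_eq_prod
    (fun i _ => (measurable_pi_apply i).aemeasurable)]
  have h2 : ∀ i : ℕ, (seqLaw ρ).map (fun ω => ω i) = ρ := fun i =>
    Measure.infinitePi_map_eval (fun _ : ℕ => ρ) i
  simp only [h2, Finset.prod_const, Finset.card_range]
  simp [mul_comm]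

theorem A3_char_bound (hρ : Std ρ) : ∃ δ > (0 : ℝ), δ ≤ 1 ∧
    ∀ t, |t| ≤ δ → ‖charFun ρ t‖ ≤ Real.exp (-t ^ 2 / 4) := by
  haveI := hρ.prob
  have h1 := taylor_charFun_two (P := ρ) (X := id) aemeasurable_id (by simpa using hρ.mean)
    (by simpa using hρ.var)
  rw [Measure.map_id] at h1
  have h2 := h1.def (c := 1 / 4) (by norm_num)
  rw [Metric.eventually_nhds_iff] at h2
  obtain ⟨ε, hε, h3⟩ := h2
  refine ⟨min (ε / 2) 1, by positivity, min_le_right _ _, ?_⟩
  intro t ht
  have h4 := h3 (y := t) (by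
    rw [Real.dist_eq, sub_zero]
    have := ht.trans (min_le_left _ _)
    linarith)
  have ht1 : |t| ≤ 1 := ht.trans (min_le_right _ _)
  have ht2 : t ^ 2 ≤ 1 := by
    rw [← sq_abs]
    exact pow_le_one₀ (abs_nonneg t) ht1
  have h5 : ‖charFun ρ t‖ ≤ ‖(1 - (t : ℂ) ^ 2 / 2)‖ + 1 / 4 * t ^ 2 := by
    calc ‖charFun ρ t‖ = ‖(charFun ρ t - (1 - (t : ℂ) ^ 2 / 2)) + (1 - (t : ℂ) ^ 2 / 2)‖ := by
          congr 1
          ring
      _ ≤ ‖charFun ρ t - (1 - (t : ℂ) ^ 2 / 2)‖ + ‖(1 - (t : ℂ) ^ 2 / 2)‖ := norm_add_le _ _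
      _ ≤ 1 / 4 * t ^ 2 + ‖(1 - (t : ℂ) ^ 2 / 2)‖ := by
          have h6 : ‖(t : ℝ) ^ 2‖ = t ^ 2 := by
            rw [Real.norm_eq_abs, abs_of_nonneg (sq_nonneg t)]
          rw [h6] at h4
          linarith
      _ = _ := by ring
  have h7 : ‖(1 - (t : ℂ) ^ 2 / 2)‖ = 1 - t ^ 2 / 2 := by
    have h8 : (1 - (t : ℂ) ^ 2 / 2) = ((1 - t ^ 2 / 2 : ℝ) : ℂ) := by push_cast; ring
    rw [h8, Complex.norm_real, Real.norm_eq_abs, abs_of_nonneg (by linarith)]
  rw [h7] at h5
  have h9 := Real.add_one_le_exp (-t ^ 2 / 4)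
  linarith

/-- Esseen's inequality, with the kernel `|∫_0^δ e^{its} dt|²`. -/
theorem A3_main (μ : Measure ℝ) [IsProbabilityMeasure μ] (y δ : ℝ) (hδ : 0 < δ) (hδ1 : δ ≤ 1)
    (b : ℝ) (hb : 0 < b) (hμ : ∀ t, |t| ≤ δ → ‖charFun μ t‖ ≤ Real.exp (-b * t ^ 2)) :
    μ.real (Set.Ico y (y + 1)) ≤ 4 / δ * √(Real.pi / b) := by
  set ν : Measure ℝ := volume.restrict (Set.Ioc 0 δ) with hν
  haveI : IsFiniteMeasure ν := by
    rw [hν]
    exact ⟨by simp⟩
  let A : ℝ → ℂ := fun s => ∫ t, Complex.exp (t * s * Complex.I) ∂ν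
  have hA : ∀ s : ℝ, ((‖A s‖ ^ 2 : ℝ) : ℂ) =
      ∫ p : ℝ × ℝ, Complex.exp ((p.1 - p.2 : ℝ) * s * Complex.I) ∂(ν.prod ν) := by
    intro s
    have h1 : (fun p : ℝ × ℝ => Complex.exp ((p.1 - p.2 : ℝ) * s * Complex.I)) =
        fun p : ℝ × ℝ => Complex.exp (p.1 * s * Complex.I) *
          (starRingEnd ℂ) (Complex.exp (p.2 * s * Complex.I)) := by
      funext p
      rw [← Complex.exp_conj, ← Complex.exp_add]
      congr 1
      simp only [map_mul, Complex.conj_ofReal, Complex.conj_I]
      push_cast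
      ring
    rw [h1, integral_prod_mul (fun t : ℝ => Complex.exp (t * s * Complex.I))
      (fun t : ℝ => (starRingEnd ℂ) (Complex.exp (t * s * Complex.I))), integral_conj,
      Complex.mul_conj, Complex.normSq_eq_norm_sq]
  -- lower bound
  have hlow : ∀ s : ℝ, |s| ≤ 1 → δ / 2 ≤ ‖A s‖ := by
    intro s hs
    have hre : (A s).re = ∫ t, Real.cos (t * s) ∂ν := by
      have hint : Integrable (fun t : ℝ => Complex.exp (t * s * Complex.I)) ν := by
        refine Integrable.of_bound (C := 1) (by fun_prop) ?_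
        refine Filter.Eventually.of_forall fun t => ?_
        have : (t : ℂ) * s * Complex.I = ((t * s : ℝ) : ℂ) * Complex.I := by push_cast; ring
        rw [this, Complex.norm_exp_ofReal_mul_I]
      have h2 := integral_re (𝕜 := ℂ) hint
      have h3 : (A s).re = ∫ t, RCLike.re (Complex.exp ((t : ℂ) * s * Complex.I)) ∂ν := by
        rw [h2]
        rfl
      rw [h3]
      refine integral_congr_ae (Filter.Eventually.of_forall fun t => ?_)
      have : (t : ℂ) * s * Complex.I = ((t * s : ℝ) : ℂ) * Complex.I := by push_cast; ring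
      show RCLike.re (Complex.exp ((t : ℂ) * s * Complex.I)) = _
      rw [this]
      exact Complex.exp_ofReal_mul_I_re _
    have h4 : δ / 2 ≤ ∫ t, Real.cos (t * s) ∂ν := by
      have h5 : ∫ t, (1 / 2 : ℝ) ∂ν = δ / 2 := by
        rw [integral_const, hν, measureReal_restrict_apply_univ, Real.volume_real_Ioc, sub_zero,
          max_eq_left hδ.le, smul_eq_mul]
        ring
      rw [← h5]
      refine integral_mono_ae (integrable_const _) ?_ ?_
      · refine Integrable.of_bound (C := 1) (by fun_prop) ?_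
        exact Filter.Eventually.of_forall fun t => by
          rw [Real.norm_eq_abs]
          exact Real.abs_cos_le_one _
      · rw [hν]
        refine (ae_restrict_iff' measurableSet_Ioc).2 (Filter.Eventually.of_forall fun t ht => ?_)
        have h6 := Real.one_sub_sq_div_two_le_cos (x := t * s)
        have h7 : (t * s) ^ 2 ≤ 1 := by
          rw [← sq_abs, abs_mul]
          refine pow_le_one₀ (by positivity) ?_
          have h8 : |t| ≤ 1 := by
            rw [abs_of_pos ht.1]
            exact ht.2.trans hδ1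
          exact mul_le_one₀ h8 (abs_nonneg s) hs
        show (1 / 2 : ℝ) ≤ Real.cos (t * s)
        linarith
    calc δ / 2 ≤ (A s).re := by rw [hre]; exact h4
      _ ≤ ‖A s‖ := Complex.re_le_norm _
  -- measurability and boundedness of `A`
  have hAint : Integrable (fun x : ℝ => ‖A (x - y)‖ ^ 2) μ := by
    have hAm : StronglyMeasurable A := by
      have : StronglyMeasurable (fun q : ℝ × ℝ => Complex.exp (q.2 * q.1 * Complex.I)) := by
        apply Continuous.stronglyMeasurable
        fun_prop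
      exact this.integral_prod_right
    refine Integrable.of_bound (C := δ ^ 2)
      (((hAm.comp_measurable (measurable_id.sub_const y)).norm.pow 2).aestronglyMeasurable) ?_
    refine Filter.Eventually.of_forall fun x => ?_
    rw [Real.norm_eq_abs, abs_of_nonneg (by positivity)]
    refine pow_le_pow_left₀ (norm_nonneg _) ?_ 2
    have h1 : ‖A (x - y)‖ ≤ 1 * ν.real Set.univ := by
      refine norm_integral_le_of_norm_le_const (Filter.Eventually.of_forall fun t => ?_)
      have : (t : ℂ) * ((x - y : ℝ) : ℂ) * Complex.I = ((t * (x - y) : ℝ) : ℂ) * Complex.I := by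
        push_cast; ring
      rw [this, Complex.norm_exp_ofReal_mul_I]
    rw [hν, measureReal_restrict_apply_univ, Real.volume_real_Ioc, sub_zero,
      max_eq_left hδ.le, one_mul] at h1
    exact h1
  -- the integral
  have hI : ((∫ x, ‖A (x - y)‖ ^ 2 ∂μ : ℝ) : ℂ) =
      ∫ p : ℝ × ℝ, Complex.exp (-((p.1 - p.2 : ℝ) * y * Complex.I)) * charFun μ (p.1 - p.2)
        ∂(ν.prod ν) := by
    rw [← integral_complex_ofReal]
    simp only [hA]
    rw [integral_integral_swap]
    · refine integral_congr_ae (Filter.Eventually.of_forall fun p => ?_)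
      show ∫ x, Complex.exp ((p.1 - p.2 : ℝ) * ((x - y : ℝ) : ℂ) * Complex.I) ∂μ =
        Complex.exp (-((p.1 - p.2 : ℝ) * y * Complex.I)) * charFun μ (p.1 - p.2)
      rw [charFun_apply_real, ← integral_const_mul]
      refine integral_congr_ae (Filter.Eventually.of_forall fun x => ?_)
      beta_reduce
      rw [← Complex.exp_add]
      congr 1
      push_cast
      ring
    · refine Integrable.of_bound (C := 1) ?_ ?_
      · apply Continuous.aestronglyMeasurable
        fun_prop
      · refine Filter.Eventually.of_forall fun q => ?_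
        show ‖Complex.exp ((q.2.1 - q.2.2 : ℝ) * ((q.1 - y : ℝ) : ℂ) * Complex.I)‖ ≤ 1
        rw [← Complex.ofReal_mul, Complex.norm_exp_ofReal_mul_I]
  have hup : ∫ x, ‖A (x - y)‖ ^ 2 ∂μ ≤ δ * √(Real.pi / b) := by
    have h1 : ∫ x, ‖A (x - y)‖ ^ 2 ∂μ = ‖((∫ x, ‖A (x - y)‖ ^ 2 ∂μ : ℝ) : ℂ)‖ := by
      rw [Complex.norm_real, Real.norm_eq_abs, abs_of_nonneg (integral_nonneg fun x => by positivity)]
    rw [h1, hI]
    have hgint : Integrable (fun p : ℝ × ℝ => Real.exp (-b * (p.1 - p.2) ^ 2)) (ν.prod ν) := by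
      refine Integrable.of_bound (C := 1) ?_ ?_
      · apply Continuous.aestronglyMeasurable
        fun_prop
      · refine Filter.Eventually.of_forall fun q => ?_
        rw [Real.norm_eq_abs, abs_of_pos (Real.exp_pos _), Real.exp_le_one_iff]
        have : 0 ≤ b * (q.1 - q.2) ^ 2 := by positivity
        linarith
    calc ‖∫ p : ℝ × ℝ, Complex.exp (-((p.1 - p.2 : ℝ) * y * Complex.I)) *
          charFun μ (p.1 - p.2) ∂(ν.prod ν)‖
        ≤ ∫ p : ℝ × ℝ, Real.exp (-b * (p.1 - p.2) ^ 2) ∂(ν.prod ν) := by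
          refine norm_integral_le_of_norm_le hgint ?_
          rw [hν, Measure.prod_restrict]
          refine (ae_restrict_iff' (measurableSet_Ioc.prod measurableSet_Ioc)).2
            (Filter.Eventually.of_forall fun p hp => ?_)
          have h2 : -((p.1 - p.2 : ℝ) * (y : ℂ) * Complex.I) =
              ((-((p.1 - p.2) * y) : ℝ) : ℂ) * Complex.I := by push_cast; ring
          rw [norm_mul, h2, Complex.norm_exp_ofReal_mul_I, one_mul]
          apply hμ
          obtain ⟨⟨h3, h4⟩, h5, h6⟩ := hp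
          rw [abs_le]
          constructor <;> linarith
      _ = ∫ t, ∫ u, Real.exp (-b * (t - u) ^ 2) ∂ν ∂ν := integral_prod _ hgint
      _ ≤ ∫ t, √(Real.pi / b) ∂ν := by
          refine integral_mono_ae hgint.integral_prod_left (integrable_const _) ?_
          refine Filter.Eventually.of_forall fun t => ?_
          have h7 : ∫ u, Real.exp (-b * (t - u) ^ 2) = √(Real.pi / b) := by
            rw [integral_sub_left_eq_self (fun u => Real.exp (-b * u ^ 2)) volume t]
            exact integral_gaussian b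
          show ∫ u, Real.exp (-b * (t - u) ^ 2) ∂ν ≤ √(Real.pi / b)
          rw [← h7]
          refine setIntegral_le_integral ?_ (Filter.Eventually.of_forall fun u => by positivity)
          exact (integrable_exp_neg_mul_sq hb).comp_sub_left t
      _ = δ * √(Real.pi / b) := by
          rw [integral_const, hν, measureReal_restrict_apply_univ, Real.volume_real_Ioc, sub_zero,
            max_eq_left hδ.le, smul_eq_mul]
  have hfin : δ ^ 2 / 4 * μ.real (Set.Ico y (y + 1)) ≤ ∫ x, ‖A (x - y)‖ ^ 2 ∂μ := by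
    calc δ ^ 2 / 4 * μ.real (Set.Ico y (y + 1))
        = ∫ x in Set.Ico y (y + 1), δ ^ 2 / 4 ∂μ := by
          rw [integral_const, measureReal_restrict_apply_univ, smul_eq_mul]
          ring
      _ ≤ ∫ x in Set.Ico y (y + 1), ‖A (x - y)‖ ^ 2 ∂μ := by
          refine setIntegral_mono_on (integrable_const _).integrableOn hAint.integrableOn
            measurableSet_Ico ?_
          intro x hx
          have h8 := hlow (x - y) (by
            rw [abs_le]
            constructor <;> linarith [hx.1, hx.2])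
          have h9 : δ ^ 2 / 4 = (δ / 2) ^ 2 := by ring
          rw [h9]
          exact pow_le_pow_left₀ (by positivity) h8 2
      _ ≤ ∫ x, ‖A (x - y)‖ ^ 2 ∂μ :=
          setIntegral_le_integral hAint (Filter.Eventually.of_forall fun x => by positivity)
  have h10 : δ ^ 2 / 4 * μ.real (Set.Ico y (y + 1)) ≤ δ * √(Real.pi / b) := hfin.trans hup
  have h11 : μ.real (Set.Ico y (y + 1)) = (4 / δ ^ 2) * (δ ^ 2 / 4 * μ.real (Set.Ico y (y + 1))) := by
    field_simp
  rw [h11]
  calc (4 / δ ^ 2) * (δ ^ 2 / 4 * μ.real (Set.Ico y (y + 1)))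
      ≤ (4 / δ ^ 2) * (δ * √(Real.pi / b)) := mul_le_mul_of_nonneg_left h10 (by positivity)
    _ = 4 / δ * √(Real.pi / b) := by
        field_simp

/-- **[FV-A3]** Concentration bound: a walk with finite variance puts mass at most `C/√k` on an
interval of length one.
PROOF. Let `χ = charFun ρ`. Since `ρ` has mean 0 and variance 1, `χ(t) = 1 - t²/2 + o(t²)`, so there
is `δ ∈ (0, 1]` with `‖χ t‖ ≤ 1 - t²/4 ≤ exp(-t²/4)` for `|t| ≤ δ` (Taylor: Mathlib has
`taylor_charFun_two` or similar, used in its central limit theorem; alternatively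
`|e^{is} - 1 - is + s²/2| ≤ min(|s|³, s²)` and dominated convergence).
Use the test function `g(s) = (δ/(2π)) (sin(δ s/2)/(δ s/2))²`, the Fourier transform of a triangle:
`g(s) = (1/2π) ∫_{-δ}^{δ} (1 - |t|/δ) e^{its} dt`; for a direct argument: for all real `s`,
`∫_{-δ}^{δ} (1 - |t|/δ) e^{its} dt = δ (sin(δs/2)/(δs/2))² ≥ 0`, and it is `≥ c δ` for `|s| ≤ 1`
(as `δ ≤ 1`, `|δ s/2| ≤ 1/2`, `sin z / z ≥ 1 - z²/6`; `c = 9/10` works). Hence
`c δ P(S_k - y ∈ [0,1]) ≤ E ∫_{-δ}^{δ} (1-|t|/δ) e^{it(S_k + x - y)} dt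
  = ∫_{-δ}^{δ} (1-|t|/δ) e^{it(x-y)} χ(t)^k dt ≤ ∫_{-δ}^{δ} exp(-k t²/4) dt ≤ √(4π/k)`.
`charFun` of `S_k` is `χ^k` by independence (`iIndepFun_infinitePi`, `charFun_pow`...; or induction on
`k` with `lintegral_fre_add`/`integral_split`). -/
theorem conc (hρ : Std ρ) : ∃ C > (0 : ℝ), ∀ k : ℕ, 1 ≤ k → ∀ x y : ℝ,
    (fre ρ k x).real (Set.Ico y (y + 1)) ≤ C / √k := by
  haveI := hρ.prob
  obtain ⟨δ, hδ, hδ1, hχ⟩ := A3_char_bound hρ
  refine ⟨4 / δ * √(4 * Real.pi), by positivity, ?_⟩
  intro k hk x y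
  have hk' : (0 : ℝ) < k := by exact_mod_cast hk
  have h1 := A3_main (fre ρ k x) y δ hδ hδ1 ((k : ℝ) / 4) (by positivity) (by
    intro t ht
    rw [charFun_fre, norm_mul, norm_pow]
    have h2 : (t : ℂ) * x * Complex.I = ((t * x : ℝ) : ℂ) * Complex.I := by push_cast; ring
    rw [h2, Complex.norm_exp_ofReal_mul_I, one_mul]
    calc ‖charFun ρ t‖ ^ k ≤ (Real.exp (-t ^ 2 / 4)) ^ k :=
          pow_le_pow_left₀ (norm_nonneg _) (hχ t ht) k
      _ = Real.exp (-(k / 4) * t ^ 2) := by
          rw [← Real.exp_nat_mul]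
          congr 1
          ring)
  refine h1.trans (le_of_eq ?_)
  have h3 : Real.pi / ((k : ℝ) / 4) = (4 * Real.pi) / k := by
    field_simp
  rw [h3, Real.sqrt_div (by positivity), mul_div_assoc]

end Pool.Agent.BPT
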