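import Pool.Agent.MP_99a865_pr.FV.A3

open MeasureTheory ProbabilityTheory Filter Topology
open scoped ENNReal NNReal

namespace Pool.Agent.BPT

variable {D : Set ℝ} {ρ : Measure ℝ}

lemma A4_indep (hρ : Std ρ) :
    iIndepFun (fun i : ℕ => fun ω : ℕ → ℝ => ω i) (seqLaw ρ) := by
  have := hρ.prob
  have := iIndepFun_infinitePi (P := fun _ : ℕ => ρ) (X := fun _ : ℕ => (id : ℝ → ℝ)) (fun i => measurable_id)
  exact this

lemma A4_law (hρ : Std ρ) (i : ℕ) : (seqLaw ρ).map (fun ω : ℕ → ℝ => ω i) = ρ := by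
  have := hρ.prob
  exact (measurePreserving_eval_infinitePi (fun _ : ℕ => ρ) i).map_eq

lemma A4_memLp (hρ : Std ρ) : MemLp (id : ℝ → ℝ) 2 ρ := by
  rw [memLp_two_iff_integrable_sq measurable_id.aestronglyMeasurable]
  exact hρ.int2

lemma A4_memLp_coord (hρ : Std ρ) (i : ℕ) : MemLp (fun ω : ℕ → ℝ => ω i) 2 (seqLaw ρ) := by
  have h := A4_memLp hρ
  rw [← A4_law hρ i] at h
  exact (memLp_map_measure_iff measurable_id.aestronglyMeasurable
    (measurable_pi_apply i).aemeasurable).1 h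

lemma A4_int_coord (hρ : Std ρ) (i : ℕ) : ∫ ω : ℕ → ℝ, ω i ∂(seqLaw ρ) = 0 := by
  have h := integral_map (μ := seqLaw ρ) (φ := fun ω : ℕ → ℝ => ω i) (f := fun x : ℝ => x)
    (measurable_pi_apply i).aemeasurable (by rw [A4_law hρ i]; exact measurable_id.aestronglyMeasurable)
  rw [A4_law hρ i, hρ.mean] at h
  exact h.symm

lemma A4_int2_coord (hρ : Std ρ) (i : ℕ) : ∫ ω : ℕ → ℝ, (ω i) ^ 2 ∂(seqLaw ρ) = 1 := by
  have h := integral_map (μ := seqLaw ρ) (φ := fun ω : ℕ → ℝ => ω i) (f := fun x : ℝ => x ^ 2)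
    (measurable_pi_apply i).aemeasurable
    (by rw [A4_law hρ i]; exact (measurable_id.pow_const 2).aestronglyMeasurable)
  rw [A4_law hρ i, hρ.var] at h
  exact h.symm

lemma A4_memLp_S (hρ : Std ρ) (k : ℕ) : MemLp (S k) 2 (seqLaw ρ) := by
  have : S k = fun ω : ℕ → ℝ => ∑ i ∈ Finset.range k, ω i := by
    funext ω; rfl
  rw [this]
  exact memLp_finsetSum _ fun i _ => A4_memLp_coord hρ i

theorem integrable_S_sq (hρ : Std ρ) (k : ℕ) : Integrable (fun ω => (S k ω) ^ 2) (seqLaw ρ) :=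
  (A4_memLp_S hρ k).integrable_sq

lemma A4_integrable_S (hρ : Std ρ) (k : ℕ) : Integrable (S k) (seqLaw ρ) := by
  have := hρ.prob
  exact (A4_memLp_S hρ k).integrable (by norm_num)

theorem integral_S (hρ : Std ρ) (k : ℕ) : ∫ ω, S k ω ∂(seqLaw ρ) = 0 := by
  have := hρ.prob
  unfold S
  rw [integral_finsetSum]
  · exact Finset.sum_eq_zero fun i _ => A4_int_coord hρ i
  · intro i _
    exact (A4_memLp_coord hρ i).integrable (by norm_num)

/-- second moment of `S_k` (independence) -/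
theorem integral_S_sq (hρ : Std ρ) (k : ℕ) : ∫ ω, (S k ω) ^ 2 ∂(seqLaw ρ) = k := by
  have := hρ.prob
  have h1 : Var[S k; seqLaw ρ] = ∫ ω, (S k ω) ^ 2 ∂(seqLaw ρ) := by
    rw [variance_of_integral_eq_zero (A4_memLp_S hρ k).aestronglyMeasurable.aemeasurable
      (integral_S hρ k)]
  rw [← h1]
  have h2 : S k = ∑ i ∈ Finset.range k, (fun ω : ℕ → ℝ => ω i) := by
    funext ω; simp [S]
  rw [h2, IndepFun.variance_sum (fun i _ => A4_memLp_coord hρ i)
    (fun i _ j _ hij => (A4_indep hρ).indepFun hij)]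
  have h3 : ∀ i ∈ Finset.range k, Var[fun ω : ℕ → ℝ => ω i; seqLaw ρ] = 1 := by
    intro i _
    rw [variance_of_integral_eq_zero (measurable_pi_apply i).aemeasurable (A4_int_coord hρ i)]
    exact A4_int2_coord hρ i
  rw [Finset.sum_congr rfl h3]
  simp

/-- **[FV-A4]** Chebyshev. -/
theorem cheb (hρ : Std ρ) (k : ℕ) (a : ℝ) (ha : 0 < a) :
    (seqLaw ρ).real {ω | a ≤ |S k ω|} ≤ k / a ^ 2 := by
  have := hρ.prob
  have h := mul_meas_ge_le_integral_of_nonneg (μ := seqLaw ρ) (f := fun ω => (S k ω) ^ 2)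
    (Eventually.of_forall fun ω => sq_nonneg _) (integrable_S_sq hρ k) (a ^ 2)
  rw [integral_S_sq hρ k] at h
  have h2 : {ω | a ≤ |S k ω|} = {ω : ℕ → ℝ | a ^ 2 ≤ (S k ω) ^ 2} := by
    ext ω
    simp only [Set.mem_ofPred_eq]
    rw [← sq_abs (S k ω)]
    exact (pow_le_pow_iff_left₀ ha.le (abs_nonneg _) two_ne_zero).symm
  rw [h2, le_div_iff₀ (by positivity), mul_comm]
  exact h


lemma A4_inner (hρ : Std ρ) (l : ℕ) (s : ℝ) :
    ∫⁻ η, ENNReal.ofReal ((s + S l η) ^ 2) ∂(seqLaw ρ) = ENNReal.ofReal (s ^ 2 + l) := by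
  have := hρ.prob
  have h1 : ∀ η, (s + S l η) ^ 2 = s ^ 2 + 2 * s * S l η + (S l η) ^ 2 := fun η => by ring
  have hi : Integrable (fun η => s ^ 2 + 2 * s * S l η) (seqLaw ρ) :=
    (integrable_const _).add ((A4_integrable_S hρ l).const_mul _)
  have hint : Integrable (fun η => s ^ 2 + 2 * s * S l η + (S l η) ^ 2) (seqLaw ρ) :=
    hi.add (integrable_S_sq hρ l)
  simp_rw [h1]
  rw [← ofReal_integral_eq_lintegral_ofReal hint (Eventually.of_forall fun η => by
    show (0 : ℝ) ≤ s ^ 2 + 2 * s * S l η + (S l η) ^ 2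
    rw [← h1 η]; positivity)]
  congr 1
  rw [integral_add hi (integrable_S_sq hρ l), integral_add (integrable_const _)
    ((A4_integrable_S hρ l).const_mul _), integral_const_mul, integral_S hρ l, integral_S_sq hρ l]
  simp

/-- `j` is the first time at which `a ≤ |S j|` -/
def A4_F (a : ℝ) (j : ℕ) : Set (ℕ → ℝ) := {ω | a ≤ |S j ω| ∧ ∀ i < j, |S i ω| < a}

lemma A4_F_meas (a : ℝ) (j : ℕ) : MeasurableSet (A4_F a j) := by
  have h1 : MeasurableSet {ω : ℕ → ℝ | a ≤ |S j ω|} :=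
    measurableSet_le measurable_const (measurable_S j).norm
  have h2 : MeasurableSet {ω : ℕ → ℝ | ∀ i < j, |S i ω| < a} := by
    have : {ω : ℕ → ℝ | ∀ i < j, |S i ω| < a} = ⋂ i, ⋂ (_ : i < j), {ω | |S i ω| < a} := by
      ext ω; simp
    rw [this]
    exact MeasurableSet.iInter fun i => MeasurableSet.iInter fun _ =>
      measurableSet_lt (measurable_S i).norm measurable_const
  exact h1.inter h2

lemma A4_S_dep {j : ℕ} {ω ω' : ℕ → ℝ} (h : ∀ i < j, ω i = ω' i) : S j ω = S j ω' := by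
  unfold S
  exact Finset.sum_congr rfl fun i hi => h i (Finset.mem_range.1 hi)

lemma A4_F_dep {a : ℝ} {j : ℕ} {ω ω' : ℕ → ℝ} (h : ∀ i < j, ω i = ω' i) :
    ω ∈ A4_F a j ↔ ω' ∈ A4_F a j := by
  have e : ∀ i, i ≤ j → S i ω = S i ω' := fun i hi => A4_S_dep fun m hm => h m (by omega)
  unfold A4_F
  simp only [Set.mem_ofPred_eq]
  rw [e j le_rfl]
  refine and_congr_right fun _ => forall_congr' fun i => ?_
  refine forall_congr' fun hi => ?_
  rw [e i hi.le]

lemma A4_step (hρ : Std ρ) (k j : ℕ) (hj : j ≤ k) (a : ℝ) (ha : 0 < a) :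
    ENNReal.ofReal (a ^ 2) * seqLaw ρ (A4_F a j) ≤
      ∫⁻ ω in A4_F a j, ENNReal.ofReal ((S k ω) ^ 2) ∂(seqLaw ρ) := by
  have := hρ.prob
  classical
  obtain ⟨l, rfl⟩ := Nat.exists_eq_add_of_le hj
  set H : (ℕ → ℝ) → (ℕ → ℝ) → ℝ≥0∞ := fun ω η =>
    (A4_F a j).indicator (fun _ => (1 : ℝ≥0∞)) ω * ENNReal.ofReal ((S j ω + S l η) ^ 2) with hH
  have hm : Measurable (Function.uncurry H) := by
    refine Measurable.mul ?_ ?_
    · exact (measurable_const.indicator (A4_F_meas a j)).comp measurable_fst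
    · refine ENNReal.measurable_ofReal.comp ?_
      exact (((measurable_S j).comp measurable_fst).add
        ((measurable_S l).comp measurable_snd)).pow_const 2
  have hs := lintegral_split ρ j H hm (by
    intro ω ω' η h
    simp only [hH]
    rw [A4_S_dep h]
    congr 1
    by_cases h1 : ω ∈ A4_F a j
    · rw [Set.indicator_of_mem h1, Set.indicator_of_mem ((A4_F_dep h).1 h1)]
    · rw [Set.indicator_of_notMem h1, Set.indicator_of_notMem (fun h2 => h1 ((A4_F_dep h).2 h2))])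
  have e1 : ∀ ω, H ω (shift j ω) =
      (A4_F a j).indicator (fun ω => ENNReal.ofReal ((S (j + l) ω) ^ 2)) ω := by
    intro ω
    simp only [hH]
    rw [← S_shift]
    by_cases h1 : ω ∈ A4_F a j
    · simp [Set.indicator_of_mem h1]
    · simp [Set.indicator_of_notMem h1]
  simp_rw [e1] at hs
  rw [lintegral_indicator (A4_F_meas a j)] at hs
  rw [hs]
  have e2 : ∀ ω, ENNReal.ofReal (a ^ 2) * (A4_F a j).indicator (fun _ => (1 : ℝ≥0∞)) ω ≤
      ∫⁻ η, H ω η ∂(seqLaw ρ) := by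
    intro ω
    simp only [hH]
    rw [lintegral_const_mul _ (by
      refine ENNReal.measurable_ofReal.comp ?_
      exact ((measurable_const.add (measurable_S l)).pow_const 2)), A4_inner hρ l (S j ω), mul_comm]
    by_cases h1 : ω ∈ A4_F a j
    · gcongr
      have h2 := pow_le_pow_left₀ ha.le h1.1 2
      rw [sq_abs] at h2
      have : (0 : ℝ) ≤ l := Nat.cast_nonneg _
      linarith
    · simp [Set.indicator_of_notMem h1]
  calc ENNReal.ofReal (a ^ 2) * seqLaw ρ (A4_F a j)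
      = ∫⁻ ω, ENNReal.ofReal (a ^ 2) * (A4_F a j).indicator (fun _ => (1 : ℝ≥0∞)) ω ∂(seqLaw ρ) := by
        rw [lintegral_const_mul _ (measurable_const.indicator (A4_F_meas a j)),
          lintegral_indicator (A4_F_meas a j)]
        simp
    _ ≤ _ := lintegral_mono e2

/-- Kolmogorov's inequality. -/
theorem kolm (hρ : Std ρ) (k : ℕ) (a : ℝ) (ha : 0 < a) :
    (seqLaw ρ).real {ω | ∃ j ≤ k, a ≤ |S j ω|} ≤ k / a ^ 2 := by
  have := hρ.prob
  classical
  have hU : {ω : ℕ → ℝ | ∃ j ≤ k, a ≤ |S j ω|} = ⋃ j ∈ Finset.range (k + 1), A4_F a j := by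
    ext ω
    simp only [Set.mem_ofPred_eq, Set.mem_iUnion, Finset.mem_range, exists_prop]
    constructor
    · rintro ⟨j, hj, h⟩
      have hex : ∃ j, a ≤ |S j ω| := ⟨j, h⟩
      refine ⟨Nat.find hex, ?_, Nat.find_spec hex, fun i hi => not_le.1 (Nat.find_min hex hi)⟩
      have := Nat.find_min' hex h
      omega
    · rintro ⟨j, hj, h⟩
      exact ⟨j, by omega, h.1⟩
  have hdis : Set.PairwiseDisjoint (↑(Finset.range (k + 1))) (A4_F a) := by
    intro i _ j _ hij
    rw [Function.onFun, Set.disjoint_left]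
    intro ω hi hj
    rcases lt_or_gt_of_ne hij with h | h
    · exact absurd (hj.2 i h) (not_lt.2 hi.1)
    · exact absurd (hi.2 j h) (not_lt.2 hj.1)
  have h1 : ENNReal.ofReal (a ^ 2) * seqLaw ρ {ω | ∃ j ≤ k, a ≤ |S j ω|} ≤ ENNReal.ofReal k := by
    rw [hU, measure_biUnion_finset hdis fun j _ => A4_F_meas a j, Finset.mul_sum]
    calc ∑ j ∈ Finset.range (k + 1), ENNReal.ofReal (a ^ 2) * seqLaw ρ (A4_F a j)
        ≤ ∑ j ∈ Finset.range (k + 1), ∫⁻ ω in A4_F a j, ENNReal.ofReal ((S k ω) ^ 2) ∂(seqLaw ρ) :=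
          Finset.sum_le_sum fun j hj => A4_step hρ k j (by
            have := Finset.mem_range.1 hj; omega) a ha
      _ = ∫⁻ ω in ⋃ j ∈ Finset.range (k + 1), A4_F a j, ENNReal.ofReal ((S k ω) ^ 2) ∂(seqLaw ρ) := by
          rw [lintegral_biUnion_finset hdis fun j _ => A4_F_meas a j]
      _ ≤ ∫⁻ ω, ENNReal.ofReal ((S k ω) ^ 2) ∂(seqLaw ρ) := setLIntegral_le_lintegral _ _
      _ = ENNReal.ofReal k := by
          rw [← ofReal_integral_eq_lintegral_ofReal (integrable_S_sq hρ k)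
            (Eventually.of_forall fun ω => sq_nonneg _), integral_S_sq hρ k]
  rw [le_div_iff₀ (by positivity), mul_comm]
  have h2 := ENNReal.toReal_mono ENNReal.ofReal_ne_top h1
  rw [ENNReal.toReal_mul, ENNReal.toReal_ofReal (by positivity),
    ENNReal.toReal_ofReal (Nat.cast_nonneg _)] at h2
  exact h2


lemma A4_fre [IsProbabilityMeasure ρ] (k : ℕ) (x : ℝ) (I : Set ℝ) (hI : MeasurableSet I) :
    fre ρ k x I = seqLaw ρ {ω | x + S k ω ∈ I} := by
  have hm : Measurable fun ω : ℕ → ℝ => x + S k ω := measurable_const.add (measurable_S k)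
  unfold fre
  rw [Measure.map_apply hm hI]
  rfl

lemma A4_meas_S {k : ℕ} {x : ℝ} {I : Set ℝ} (hI : MeasurableSet I) :
    MeasurableSet {ω : ℕ → ℝ | x + S k ω ∈ I} :=
  (measurable_const.add (measurable_S k)) hI

lemma A4_lint {Ω : Type} [MeasurableSpace Ω] (μ : Measure Ω) (P : Ω → Prop) [DecidablePred P]
    (hP : MeasurableSet {ω | P ω}) :
    ∫⁻ ω, (if P ω then (1 : ℝ≥0∞) else 0) ∂μ = μ {ω | P ω} := by
  have : ∀ ω, (if P ω then (1 : ℝ≥0∞) else 0) = ({ω | P ω}).indicator (fun _ => (1 : ℝ≥0∞)) ω := by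
    intro ω
    by_cases h : P ω
    · rw [if_pos h, Set.indicator_of_mem (show ω ∈ {ω | P ω} from h)]
    · rw [if_neg h, Set.indicator_of_notMem (show ω ∉ {ω | P ω} from h)]
  simp_rw [this]
  rw [lintegral_indicator hP]
  simp

lemma A4_mite {Ω : Type} [MeasurableSpace Ω] (P : Ω → Prop) [DecidablePred P] (hP : MeasurableSet {ω | P ω}) :
    Measurable fun ω => (if P ω then (1 : ℝ≥0∞) else 0) :=
  Measurable.ite hP measurable_const measurable_const

open Classical in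
lemma A4_first [IsProbabilityMeasure ρ] (k l : ℕ) (x b : ℝ) (I : Set ℝ) (hI : MeasurableSet I)
    (c : ℝ≥0∞) (hc : ∀ z, fre ρ l z I ≤ c) :
    seqLaw ρ {ω | x + S (k + l) ω ∈ I ∧ b ≤ |S k ω|} ≤ seqLaw ρ {ω | b ≤ |S k ω|} * c := by
  have hA : MeasurableSet {ω : ℕ → ℝ | b ≤ |S k ω|} :=
    measurableSet_le measurable_const (measurable_S k).norm
  set H : (ℕ → ℝ) → (ℕ → ℝ) → ℝ≥0∞ := fun ω η =>
    (if b ≤ |S k ω| then 1 else 0) * (if x + S k ω + S l η ∈ I then 1 else 0) with hH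
  have hm : Measurable (Function.uncurry H) := by
    refine Measurable.mul ?_ ?_
    · exact (A4_mite (fun ω : ℕ → ℝ => b ≤ |S k ω|) hA).comp measurable_fst
    · refine A4_mite (fun p : (ℕ → ℝ) × (ℕ → ℝ) => x + S k p.1 + S l p.2 ∈ I) ?_
      exact ((measurable_const.add ((measurable_S k).comp measurable_fst)).add
        ((measurable_S l).comp measurable_snd)) hI
  have hs := lintegral_split ρ k H hm (by
    intro ω ω' η h
    simp only [hH]
    rw [A4_S_dep h])
  have e1 : ∀ ω, H ω (shift k ω) = if x + S (k + l) ω ∈ I ∧ b ≤ |S k ω| then 1 else 0 := by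
    intro ω
    simp only [hH]
    rw [add_assoc, ← S_shift]
    by_cases h1 : x + S (k + l) ω ∈ I <;> by_cases h2 : b ≤ |S k ω| <;> simp [h1, h2]
  simp_rw [e1] at hs
  have hB : MeasurableSet {ω : ℕ → ℝ | x + S (k + l) ω ∈ I ∧ b ≤ |S k ω|} :=
    (A4_meas_S hI).inter hA
  rw [A4_lint _ (fun ω : ℕ → ℝ => x + S (k + l) ω ∈ I ∧ b ≤ |S k ω|) hB] at hs
  rw [hs]
  calc ∫⁻ ω, ∫⁻ η, H ω η ∂(seqLaw ρ) ∂(seqLaw ρ)
      ≤ ∫⁻ ω, (if b ≤ |S k ω| then 1 else 0) * c ∂(seqLaw ρ) := by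
        refine lintegral_mono fun ω => ?_
        simp only [hH]
        rw [lintegral_const_mul _ (A4_mite (fun η : ℕ → ℝ => x + S k ω + S l η ∈ I) (A4_meas_S hI)),
          A4_lint _ (fun η : ℕ → ℝ => x + S k ω + S l η ∈ I) (A4_meas_S hI), ← A4_fre l _ I hI]
        exact mul_le_mul_right (hc _) _
    _ = seqLaw ρ {ω | b ≤ |S k ω|} * c := by
        rw [lintegral_mul_const _ (A4_mite (fun ω : ℕ → ℝ => b ≤ |S k ω|) hA), A4_lint _ _ hA]

open Classical in
lemma A4_second [IsProbabilityMeasure ρ] (k l : ℕ) (x b : ℝ) (I : Set ℝ) (hI : MeasurableSet I)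
    (c : ℝ≥0∞) (hc : ∀ z, fre ρ k z I ≤ c) :
    seqLaw ρ {ω | x + S (k + l) ω ∈ I ∧ b ≤ |S l (shift k ω)|} ≤ seqLaw ρ {ω | b ≤ |S l ω|} * c := by
  have hA : MeasurableSet {ω : ℕ → ℝ | b ≤ |S l ω|} :=
    measurableSet_le measurable_const (measurable_S l).norm
  set H : (ℕ → ℝ) → (ℕ → ℝ) → ℝ≥0∞ := fun ω η =>
    (if b ≤ |S l η| then 1 else 0) * (if x + S l η + S k ω ∈ I then 1 else 0) with hH
  have hm : Measurable (Function.uncurry H) := by
    refine Measurable.mul ?_ ?_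
    · exact (A4_mite (fun ω : ℕ → ℝ => b ≤ |S l ω|) hA).comp measurable_snd
    · refine A4_mite (fun p : (ℕ → ℝ) × (ℕ → ℝ) => x + S l p.2 + S k p.1 ∈ I) ?_
      exact ((measurable_const.add ((measurable_S l).comp measurable_snd)).add
        ((measurable_S k).comp measurable_fst)) hI
  have hs := lintegral_split ρ k H hm (by
    intro ω ω' η h
    simp only [hH]
    rw [A4_S_dep h])
  have e1 : ∀ ω, H ω (shift k ω) =
      if x + S (k + l) ω ∈ I ∧ b ≤ |S l (shift k ω)| then 1 else 0 := by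
    intro ω
    simp only [hH]
    have e : x + S l (shift k ω) + S k ω = x + S (k + l) ω := by rw [S_shift]; ring
    rw [e]
    by_cases h1 : x + S (k + l) ω ∈ I <;> by_cases h2 : b ≤ |S l (shift k ω)| <;> simp [h1, h2]
  simp_rw [e1] at hs
  have hB : MeasurableSet {ω : ℕ → ℝ | x + S (k + l) ω ∈ I ∧ b ≤ |S l (shift k ω)|} :=
    (A4_meas_S hI).inter (measurableSet_le measurable_const
      ((measurable_S l).comp (measurable_shift k)).norm)
  rw [A4_lint _ (fun ω : ℕ → ℝ => x + S (k + l) ω ∈ I ∧ b ≤ |S l (shift k ω)|) hB] at hs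
  rw [hs, lintegral_lintegral_swap hm.aemeasurable]
  calc ∫⁻ η, ∫⁻ ω, H ω η ∂(seqLaw ρ) ∂(seqLaw ρ)
      ≤ ∫⁻ η, (if b ≤ |S l η| then 1 else 0) * c ∂(seqLaw ρ) := by
        refine lintegral_mono fun η => ?_
        simp only [hH]
        rw [lintegral_const_mul _ (A4_mite (fun ω : ℕ → ℝ => x + S l η + S k ω ∈ I) (A4_meas_S hI)),
          A4_lint _ (fun ω : ℕ → ℝ => x + S l η + S k ω ∈ I) (A4_meas_S hI), ← A4_fre k _ I hI]
        exact mul_le_mul_right (hc _) _
    _ = seqLaw ρ {ω | b ≤ |S l ω|} * c := by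
        rw [lintegral_mul_const _ (A4_mite (fun ω : ℕ → ℝ => b ≤ |S l ω|) hA), A4_lint _ _ hA]

/-- Far windows. -/
theorem far (hρ : Std ρ) : ∃ C > (0 : ℝ), ∀ k : ℕ, 1 ≤ k → ∀ x y : ℝ, x ≠ y →
    (fre ρ k x).real (Set.Ico y (y + 1)) ≤ C * √k / (y - x) ^ 2 := by
  have := hρ.prob
  obtain ⟨C, hC, hc⟩ := conc hρ
  refine ⟨22 * C + 2, by positivity, fun k hk x y hxy => ?_⟩
  set d := |y - x| with hd
  have hdpos : 0 < d := abs_pos.2 (sub_ne_zero.2 hxy.symm)
  have hd2 : (y - x) ^ 2 = d ^ 2 := (sq_abs _).symm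
  have hk1 : (1 : ℝ) ≤ k := by exact_mod_cast hk
  have hsk : (1 : ℝ) ≤ √k := Real.one_le_sqrt.2 hk1
  rw [hd2]
  rcases lt_or_ge d 4 with h4 | h4
  · have h1 := hc k hk x y
    have h2 : C / √k ≤ C := div_le_self hC.le hsk
    have h3 : d ^ 2 ≤ 16 := by nlinarith
    rw [le_div_iff₀ (by positivity)]
    have h5 : 0 ≤ (fre ρ k x).real (Set.Ico y (y + 1)) := measureReal_nonneg
    calc (fre ρ k x).real (Set.Ico y (y + 1)) * d ^ 2 ≤ C * 16 := by
          apply mul_le_mul (h1.trans h2) h3 (by positivity) hC.le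
      _ ≤ (22 * C + 2) * 1 := by linarith
      _ ≤ (22 * C + 2) * √k := by gcongr
  · have key : ∀ s : ℝ, x + s ∈ Set.Ico y (y + 1) → 3 * d / 4 ≤ |s| := by
      intro s hs
      have h6 : |s - (y - x)| ≤ 1 := by
        rw [abs_le]; constructor <;> [linarith [hs.1]; linarith [hs.2.le]]
      have h7 : d ≤ |s - (y - x)| + |s| := by
        rw [hd]
        have := abs_sub_abs_le_abs_sub (y - x) s
        rw [abs_sub_comm (y - x) s] at this
        linarith
      linarith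
    rcases Nat.lt_or_ge k 2 with hk2 | hk2
    · have hk0 : k = 1 := by omega
      subst hk0
      have h8 : (fre ρ 1 x).real (Set.Ico y (y + 1)) ≤ (seqLaw ρ).real {ω | 3 * d / 4 ≤ |S 1 ω|} := by
        rw [Measure.real, A4_fre 1 x _ measurableSet_Ico]
        refine measureReal_mono ?_
        intro ω hω
        exact key _ hω
      refine h8.trans ((cheb hρ 1 _ (by positivity)).trans ?_)
      simp only [Nat.cast_one, Real.sqrt_one, mul_one]
      rw [div_le_div_iff₀ (by positivity) (by positivity)]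
      nlinarith [sq_nonneg d]
    · obtain ⟨k1, k2, hkk, hk11, hk12, hk13⟩ : ∃ k1 k2, k = k1 + k2 ∧ 1 ≤ k1 ∧ k1 ≤ k2 ∧ k ≤ 3 * k1 :=
        ⟨k / 2, k - k / 2, by omega, by omega, by omega, by omega⟩
      have b1 : ∀ z, fre ρ k2 z (Set.Ico y (y + 1)) ≤ ENNReal.ofReal (C / √k2) := fun z => by
        rw [← ENNReal.ofReal_toReal (measure_ne_top (fre ρ k2 z) _)]
        exact ENNReal.ofReal_le_ofReal (hc k2 (by omega) z y)
      have b2 : ∀ z, fre ρ k1 z (Set.Ico y (y + 1)) ≤ ENNReal.ofReal (C / √k1) := fun z => by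
        rw [← ENNReal.ofReal_toReal (measure_ne_top (fre ρ k1 z) _)]
        exact ENNReal.ofReal_le_ofReal (hc k1 (by omega) z y)
      have f1 := A4_first (ρ := ρ) k1 k2 x (3 * d / 8) _ measurableSet_Ico _ b1
      have f2 := A4_second (ρ := ρ) k1 k2 x (3 * d / 8) _ measurableSet_Ico _ b2
      have g1 : (seqLaw ρ).real {ω | x + S (k1 + k2) ω ∈ Set.Ico y (y + 1) ∧ 3 * d / 8 ≤ |S k1 ω|} ≤
          (k1 / (3 * d / 8) ^ 2) * (C / √k2) := by
        have h9 := ENNReal.toReal_mono (ENNReal.mul_ne_top (measure_ne_top _ _)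
          ENNReal.ofReal_ne_top) f1
        rw [ENNReal.toReal_mul, ENNReal.toReal_ofReal (by positivity)] at h9
        refine h9.trans ?_
        gcongr
        exact cheb hρ k1 _ (by positivity)
      have g2 : (seqLaw ρ).real {ω | x + S (k1 + k2) ω ∈ Set.Ico y (y + 1) ∧
          3 * d / 8 ≤ |S k2 (shift k1 ω)|} ≤ (k2 / (3 * d / 8) ^ 2) * (C / √k1) := by
        have h9 := ENNReal.toReal_mono (ENNReal.mul_ne_top (measure_ne_top _ _)
          ENNReal.ofReal_ne_top) f2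
        rw [ENNReal.toReal_mul, ENNReal.toReal_ofReal (by positivity)] at h9
        refine h9.trans ?_
        gcongr
        exact cheb hρ k2 _ (by positivity)
      have g3 : (fre ρ k x).real (Set.Ico y (y + 1)) ≤
          (seqLaw ρ).real {ω | x + S (k1 + k2) ω ∈ Set.Ico y (y + 1) ∧ 3 * d / 8 ≤ |S k1 ω|} +
          (seqLaw ρ).real {ω | x + S (k1 + k2) ω ∈ Set.Ico y (y + 1) ∧
            3 * d / 8 ≤ |S k2 (shift k1 ω)|} := by
        rw [Measure.real, A4_fre k x _ measurableSet_Ico, hkk]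
        refine (measureReal_mono ?_).trans (measureReal_union_le _ _)
        intro ω hω
        have h10 := key _ hω
        rw [S_shift] at h10
        have h11 := abs_add_le (S k1 ω) (S k2 (shift k1 ω))
        rcases le_or_gt (3 * d / 8) |S k1 ω| with h12 | h12
        · exact Or.inl ⟨hω, h12⟩
        · exact Or.inr ⟨hω, by linarith⟩
      refine g3.trans ((add_le_add g1 g2).trans ?_)
      have q1 : (0 : ℝ) < √k1 := Real.sqrt_pos.2 (by exact_mod_cast hk11)
      have q2 : (0 : ℝ) < √k2 := Real.sqrt_pos.2 (by exact_mod_cast (by omega : 0 < k2))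
      have s1 : √k1 ^ 2 = k1 := Real.sq_sqrt (Nat.cast_nonneg _)
      have s2 : √k2 ^ 2 = k2 := Real.sq_sqrt (Nat.cast_nonneg _)
      have s3 : √k ^ 2 = k := Real.sq_sqrt (Nat.cast_nonneg _)
      have r1 : (k1 : ℝ) / √k2 ≤ √k := by
        rw [div_le_iff₀ q2]
        have a1 : √k1 ≤ √k := Real.sqrt_le_sqrt (by rw [hkk]; push_cast; linarith [(Nat.cast_nonneg k2 : (0:ℝ) ≤ k2)])
        have a2 : √k1 ≤ √k2 := Real.sqrt_le_sqrt (by exact_mod_cast hk12)
        rw [← s1, sq]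
        exact mul_le_mul a1 a2 q1.le (by positivity)
      have r2 : (k2 : ℝ) / √k1 ≤ 2 * √k := by
        rw [div_le_iff₀ q1]
        have a3 : √k ≤ 2 * √k1 := by
          rw [Real.sqrt_le_left (by positivity), mul_pow, s1]
          have : (k : ℝ) ≤ 3 * k1 := by exact_mod_cast hk13
          have : (0 : ℝ) ≤ k1 := Nat.cast_nonneg _
          linarith
        have a4 : (k2 : ℝ) ≤ k := by rw [hkk]; push_cast; linarith [(Nat.cast_nonneg k1 : (0:ℝ) ≤ k1)]
        calc (k2 : ℝ) ≤ √k * √k := by rw [← sq, s3]; exact a4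
          _ ≤ √k * (2 * √k1) := by gcongr
          _ = 2 * √k * √k1 := by ring
      have e3 : (k1 : ℝ) / (3 * d / 8) ^ 2 * (C / √k2) + k2 / (3 * d / 8) ^ 2 * (C / √k1) =
          (64 * C / (9 * d ^ 2)) * (k1 / √k2 + k2 / √k1) := by
        field_simp
        ring
      rw [e3]
      calc (64 * C / (9 * d ^ 2)) * (k1 / √k2 + k2 / √k1) ≤ (64 * C / (9 * d ^ 2)) * (√k + 2 * √k) := by
            gcongr
        _ = (64 / 3 * C) * √k / d ^ 2 := by field_simp; ring
        _ ≤ (22 * C + 2) * √k / d ^ 2 := by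
            gcongr
            linarith

end Pool.Agent.BPT
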