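import Pool.Agent.MP_99a865_pr.FV.A5

open MeasureTheory ProbabilityTheory Filter Topology
open scoped ENNReal NNReal

namespace Pool.Agent.BPT

variable {D : Set ℝ} {ρ : Measure ℝ}

/-- expected overshoot of one step from `w` -/
private noncomputable def A6_O (ρ : Measure ℝ) (w : ℝ) : ℝ≥0∞ := ∫⁻ y, ENNReal.ofReal (-(w + y)) ∂ρ

private theorem A6_O_meas [IsProbabilityMeasure ρ] : Measurable (A6_O ρ) := by
  unfold A6_O
  have : Measurable (fun p : ℝ × ℝ => ENNReal.ofReal (-(p.1 + p.2))) := by fun_prop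
  exact this.lintegral_prod_right'

private theorem A6_O_anti {w w' : ℝ} (h : w ≤ w') : A6_O ρ w' ≤ A6_O ρ w := by
  unfold A6_O
  refine lintegral_mono fun y => ENNReal.ofReal_le_ofReal ?_
  linarith

private theorem A6_oo_def (k : ℕ) (x : ℝ) :
    oo D ρ k x = ∑ i ∈ Finset.range k, ∫⁻ w, A6_O ρ w ∂(kap D ρ i x) := rfl

private theorem A6_T_meas (hD : Dom D) [IsProbabilityMeasure ρ] (i : ℕ) :
    Measurable fun x => ∫⁻ w, A6_O ρ w ∂(kap D ρ i x) :=
  (Measure.measurable_lintegral A6_O_meas).comp (measurable_kap hD i)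

private theorem A6_oo_meas (hD : Dom D) [IsProbabilityMeasure ρ] (k : ℕ) :
    Measurable (oo D ρ k) := by
  have : oo D ρ k = fun x => ∑ i ∈ Finset.range k, ∫⁻ w, A6_O ρ w ∂(kap D ρ i x) := by
    funext x
    rw [A6_oo_def]
  rw [this]
  exact Finset.measurable_sum _ fun i _ => A6_T_meas hD i

private theorem A6_ae_nonneg (hD : Dom D) [IsProbabilityMeasure ρ] (k : ℕ) (x : ℝ) (hx : 0 ≤ x) :
    ∀ᵐ w ∂(kap D ρ k x), 0 ≤ w := by
  rcases Nat.eq_zero_or_pos k with rfl | hk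
  · rw [kap_zero, ae_dirac_iff (measurableSet_Ici)]
    exact hx
  · have h := kap_compl (ρ := ρ) hD k x (Or.inl hk)
    rw [ae_iff]
    refine measure_mono_null ?_ h
    intro w hw
    simp only [Set.mem_ofPred_eq, not_le] at hw
    intro hw'
    exact absurd (hD.nonneg hw') (not_le.mpr hw)

private theorem A6_int (hρ : Std ρ) : Integrable (fun x : ℝ => x) ρ := by
  have := hρ.prob
  have h := hρ.int2
  refine Integrable.mono' (h.add (integrable_const 1)) aestronglyMeasurable_id ?_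
  filter_upwards with x
  simp only [Pi.add_apply, Real.norm_eq_abs]
  nlinarith [sq_nonneg (|x| - 1), sq_abs x, abs_nonneg x]

/-- mean-zero step: positive part in terms of the negative part -/
private theorem A6_step (hρ : Std ρ) (w : ℝ) (hw : 0 ≤ w) :
    ∫⁻ y, ENNReal.ofReal (w + y) ∂ρ = ENNReal.ofReal w + A6_O ρ w := by
  have := hρ.prob
  have hi : Integrable (fun y : ℝ => w + y) ρ := (integrable_const w).add (A6_int hρ)
  have h1 : ∫ y, (w + y) ∂ρ = w := by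
    rw [integral_add (integrable_const w) (A6_int hρ), hρ.mean]
    simp
  have h2 := integral_eq_lintegral_pos_part_sub_lintegral_neg_part hi
  rw [h1] at h2
  have hf1 : ∫⁻ y, ENNReal.ofReal (w + y) ∂ρ ≠ ∞ := by
    have := hi.lintegral_lt_top
    exact this.ne
  have hf2 : A6_O ρ w ≠ ∞ := by
    have := hi.neg.lintegral_lt_top
    exact this.ne
  have h3 : (∫⁻ y, ENNReal.ofReal (w + y) ∂ρ).toReal = w + (A6_O ρ w).toReal := by
    have : A6_O ρ w = ∫⁻ y, ENNReal.ofReal (-(w + y)) ∂ρ := rfl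
    rw [this]
    linarith
  rw [← ENNReal.ofReal_toReal hf1, h3, ENNReal.ofReal_add hw ENNReal.toReal_nonneg,
    ENNReal.ofReal_toReal hf2]

theorem ee_eq (hD : Dom D) (hρ : Std ρ) (k : ℕ) (x : ℝ) (hx : 0 ≤ x) :
    ee D ρ k x = ENNReal.ofReal x + oo D ρ k x := by
  have := hρ.prob
  have hm : Measurable fun y : ℝ => ENNReal.ofReal y := by fun_prop
  induction k with
  | zero =>
    unfold ee
    rw [kap_zero, lintegral_dirac' _ hm, A6_oo_def]
    simp
  | succ k ih =>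
    have h1 : ee D ρ (k + 1) x = ∫⁻ w, (ENNReal.ofReal w + A6_O ρ w) ∂(kap D ρ k x) := by
      unfold ee
      rw [lintegral_kap_add hD k 1 x _ hm]
      refine lintegral_congr_ae ?_
      filter_upwards [A6_ae_nonneg hD k x hx] with w hw
      rw [lintegral_kap_one hD w _ hm, ← A6_step hρ w hw]
      have hms : MeasurableSet {y : ℝ | w + y ∈ D} :=
        (measurable_const_add w) hD.meas
      rw [← lintegral_indicator hms]
      refine lintegral_congr fun y => ?_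
      by_cases hy : w + y ∈ D
      · rw [Set.indicator_of_mem (by exact hy)]
      · rw [Set.indicator_of_notMem (by exact hy), ENNReal.ofReal_of_nonpos (hD.not_mem hy)]
    rw [h1, lintegral_add_left hm]
    have h2 : ∫⁻ w, ENNReal.ofReal w ∂(kap D ρ k x) = ee D ρ k x := rfl
    rw [h2, ih, add_assoc, A6_oo_def, A6_oo_def, Finset.sum_range_succ]

theorem ee_mono_time (hD : Dom D) (hρ : Std ρ) {k l : ℕ} (hkl : k ≤ l) (x : ℝ) (hx : 0 ≤ x) :
    ee D ρ k x ≤ ee D ρ l x := by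
  rw [ee_eq hD hρ k x hx, ee_eq hD hρ l x hx]
  gcongr
  rw [A6_oo_def, A6_oo_def]
  exact Finset.sum_le_sum_of_subset (Finset.range_mono hkl)

theorem ee_mono (hD : Dom D) (hρ : Std ρ) (k : ℕ) {x x' : ℝ} (hx : 0 ≤ x) (h : x ≤ x') :
    ee D ρ k x ≤ ee D ρ k x' := by
  have := hρ.prob
  have hm : Measurable fun y : ℝ => ENNReal.ofReal y := by fun_prop
  unfold ee
  rw [lintegral_kap_eq hD k x _ hm, lintegral_kap_eq hD k x' _ hm]
  have hsub : {ω | Alive D x k ω} ⊆ {ω | Alive D x' k ω} := by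
    intro ω hω j h1 h2
    exact hD.up (hω j h1 h2) (by linarith)
  calc ∫⁻ ω in {ω | Alive D x k ω}, ENNReal.ofReal (x + S k ω) ∂(seqLaw ρ)
      ≤ ∫⁻ ω in {ω | Alive D x k ω}, ENNReal.ofReal (x' + S k ω) ∂(seqLaw ρ) := by
        refine lintegral_mono fun ω => ENNReal.ofReal_le_ofReal ?_
        linarith
    _ ≤ ∫⁻ ω in {ω | Alive D x' k ω}, ENNReal.ofReal (x' + S k ω) ∂(seqLaw ρ) :=
        lintegral_mono_set hsub

theorem le_ee (hD : Dom D) (hρ : Std ρ) (k : ℕ) (x : ℝ) (hx : 0 ≤ x) :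
    ENNReal.ofReal x ≤ ee D ρ k x := by
  rw [ee_eq hD hρ k x hx]
  exact le_self_add

theorem ee_one_pos (hD : Dom D) (hρ : Std ρ) : 0 < ee D ρ 1 0 := by
  have := hρ.prob
  rw [ee_eq hD hρ 1 0 le_rfl, A6_oo_def]
  simp only [ENNReal.ofReal_zero, zero_add, Finset.sum_range_one]
  rw [kap_zero, lintegral_dirac' _ A6_O_meas]
  rw [pos_iff_ne_zero]
  intro h
  have h0 : ∀ᵐ y ∂ρ, 0 ≤ y := by
    unfold A6_O at h
    rw [lintegral_eq_zero_iff (by fun_prop)] at h
    filter_upwards [h] with y hy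
    simp only [Pi.zero_apply, ENNReal.ofReal_eq_zero, zero_add] at hy
    linarith
  have h1 : (fun x : ℝ => x) =ᵐ[ρ] 0 :=
    (integral_eq_zero_iff_of_nonneg_ae h0 (A6_int hρ)).mp hρ.mean
  have h2 : ∫ x, x ^ 2 ∂ρ = 0 := by
    rw [integral_eq_zero_of_ae]
    filter_upwards [h1] with y hy
    simp only [Pi.zero_apply] at hy ⊢
    rw [hy]
    ring
  rw [hρ.var] at h2
  exact one_ne_zero h2

private theorem A6_lower (hD : Dom D) (hρ : Std ρ) (k : ℕ) (y d : ℝ) (hd : 0 ≤ d) (hdy : d ≤ y) :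
    oo D ρ k (y - d) ≤ oo D ρ k y + ENNReal.ofReal d := by
  have h := ee_mono hD hρ k (x := y - d) (x' := y) (by linarith) (by linarith)
  rw [ee_eq hD hρ k _ (by linarith), ee_eq hD hρ k _ (by linarith)] at h
  have h2 : ENNReal.ofReal y = ENNReal.ofReal (y - d) + ENNReal.ofReal d := by
    rw [← ENNReal.ofReal_add (by linarith) hd]
    congr 1
    ring
  rw [h2, add_assoc] at h
  have h3 := (ENNReal.add_le_add_iff_left ENNReal.ofReal_ne_top).mp h
  rw [add_comm (oo D ρ k y)]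
  exact h3

open Classical in
/-- one step from the position `u` -/
private noncomputable def A6_Phi (D : Set ℝ) (ρ : Measure ℝ) (k : ℕ) (u : ℝ) : ℝ≥0∞ :=
  (if u ∈ D then oo D ρ k u else 0) + ENNReal.ofReal (-u)

private theorem A6_first (hD : Dom D) [IsProbabilityMeasure ρ] (k : ℕ) (x : ℝ) :
    oo D ρ (k + 1) x = ∫⁻ y, A6_Phi D ρ k (x + y) ∂ρ := by
  have hT : ∀ i, ∫⁻ w, A6_O ρ w ∂(kap D ρ (i + 1) x) =
      ∫⁻ y in {y | x + y ∈ D}, (∫⁻ w, A6_O ρ w ∂(kap D ρ i (x + y))) ∂ρ := by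
    intro i
    rw [add_comm i 1, lintegral_kap_add hD 1 i x _ A6_O_meas,
      lintegral_kap_one hD x _ (A6_T_meas hD i)]
  have hms : MeasurableSet {y : ℝ | x + y ∈ D} := (measurable_const_add x) hD.meas
  rw [A6_oo_def, Finset.sum_range_succ']
  simp only [hT]
  rw [kap_zero, lintegral_dirac' _ A6_O_meas]
  have e0 : ∑ i ∈ Finset.range k, ∫⁻ y in {y | x + y ∈ D}, (∫⁻ w, A6_O ρ w ∂(kap D ρ i (x + y))) ∂ρ
      = ∫⁻ y in {y | x + y ∈ D}, ∑ i ∈ Finset.range k, (∫⁻ w, A6_O ρ w ∂(kap D ρ i (x + y))) ∂ρ :=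
    (lintegral_finsetSum (Finset.range k)
      (fun i _ => (A6_T_meas hD i).comp (measurable_const_add x))).symm
  rw [e0]
  have e1 : ∫⁻ y in {y | x + y ∈ D}, ∑ i ∈ Finset.range k, (∫⁻ w, A6_O ρ w ∂(kap D ρ i (x + y))) ∂ρ
      = ∫⁻ y in {y | x + y ∈ D}, oo D ρ k (x + y) ∂ρ := rfl
  rw [e1, ← lintegral_indicator hms]
  have e2 : A6_O ρ x = ∫⁻ y, ENNReal.ofReal (-(x + y)) ∂ρ := rfl
  rw [e2, ← lintegral_add_right _ (by fun_prop)]
  refine lintegral_congr fun y => ?_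
  unfold A6_Phi
  congr 1

private theorem A6_oo_mono (k : ℕ) (x : ℝ) : oo D ρ k x ≤ oo D ρ (k + 1) x := by
  rw [A6_oo_def, A6_oo_def]
  exact Finset.sum_le_sum_of_subset (Finset.range_mono (Nat.le_succ k))

private theorem A6_sub (hD : Dom D) (hρ : Std ρ) (k : ℕ) : ∀ x z : ℝ, 0 ≤ x → 0 ≤ z →
    oo D ρ k (x + z) ≤ oo D ρ k x + oo D ρ k z := by
  have := hρ.prob
  induction k with
  | zero =>
    intro x z _ _
    rw [A6_oo_def]
    simp
  | succ k ih =>
    intro x z hx hz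
    have key : ∀ X : ℝ, A6_Phi D ρ k (X + z) ≤ A6_Phi D ρ k X + oo D ρ (k + 1) z := by
      intro X
      unfold A6_Phi
      by_cases hX : X ∈ D
      · have hX0 := hD.nonneg hX
        have hXz : X + z ∈ D := hD.up hX (by linarith)
        rw [if_pos hX, if_pos hXz, ENNReal.ofReal_of_nonpos (by linarith : -(X + z) ≤ 0),
          ENNReal.ofReal_of_nonpos (by linarith : -X ≤ 0), add_zero, add_zero]
        exact (ih X z hX0 hz).trans (by gcongr; exact A6_oo_mono k z)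
      · have hX0 := hD.not_mem hX
        rw [if_neg hX, zero_add]
        by_cases hXz : X + z ∈ D
        · have hXz0 := hD.nonneg hXz
          rw [if_pos hXz, ENNReal.ofReal_of_nonpos (by linarith : -(X + z) ≤ 0), add_zero]
          have h := A6_lower hD hρ k z (-X) (by linarith) (by linarith)
          have e : z - -X = X + z := by ring
          rw [e] at h
          rw [add_comm (ENNReal.ofReal (-X))]
          exact h.trans (add_le_add_left (A6_oo_mono k z) _)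
        · rw [if_neg hXz, zero_add]
          refine le_trans (ENNReal.ofReal_le_ofReal ?_) le_self_add
          linarith
    rw [A6_first hD k (x + z), A6_first hD k x]
    calc ∫⁻ y, A6_Phi D ρ k (x + z + y) ∂ρ
        ≤ ∫⁻ y, (A6_Phi D ρ k (x + y) + oo D ρ (k + 1) z) ∂ρ := by
          refine lintegral_mono fun y => ?_
          have h := key (x + y)
          have e : x + z + y = x + y + z := by ring
          rw [e]
          exact h
      _ = ∫⁻ y, A6_Phi D ρ k (x + y) ∂ρ + oo D ρ (k + 1) z := by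
          rw [lintegral_add_right _ measurable_const, lintegral_const, measure_univ, mul_one]

private theorem A6_sumO_aux (y : ℝ) :
    ∑' z : ℕ, ENNReal.ofReal (-((z : ℝ) + y)) ≤ ENNReal.ofReal (2 * y ^ 2 + 1) := by
  have h0 : ∀ z ∉ Finset.range ⌈-y⌉₊, ENNReal.ofReal (-((z : ℝ) + y)) = 0 := by
    intro z hz
    rw [Finset.mem_range, not_lt] at hz
    apply ENNReal.ofReal_of_nonpos
    have : -y ≤ z := (Nat.le_ceil _).trans (by exact_mod_cast hz)
    linarith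
  rw [tsum_eq_sum h0]
  rcases le_or_gt 0 y with hy | hy
  · have : ⌈-y⌉₊ = 0 := by
      rw [Nat.ceil_eq_zero]
      linarith
    rw [this]
    simp
  · calc ∑ z ∈ Finset.range ⌈-y⌉₊, ENNReal.ofReal (-((z : ℝ) + y))
        ≤ ∑ z ∈ Finset.range ⌈-y⌉₊, ENNReal.ofReal (-y) := by
          refine Finset.sum_le_sum fun z _ => ENNReal.ofReal_le_ofReal ?_
          have : (0 : ℝ) ≤ z := Nat.cast_nonneg z
          linarith
      _ = ENNReal.ofReal (⌈-y⌉₊ * (-y)) := by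
          rw [Finset.sum_const, Finset.card_range, nsmul_eq_mul,
            ENNReal.ofReal_mul (Nat.cast_nonneg _), ENNReal.ofReal_natCast]
      _ ≤ ENNReal.ofReal (2 * y ^ 2 + 1) := by
          apply ENNReal.ofReal_le_ofReal
          have h1 : (⌈-y⌉₊ : ℝ) < -y + 1 := Nat.ceil_lt_add_one (by linarith)
          nlinarith [sq_nonneg (y + 1), mul_pos (neg_pos.mpr hy) (sub_pos.mpr h1)]

private theorem A6_sumO (hρ : Std ρ) : ∑' z : ℕ, A6_O ρ z ≤ 3 := by
  have := hρ.prob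
  unfold A6_O
  rw [← lintegral_tsum (fun z => by fun_prop)]
  calc ∫⁻ y, ∑' z : ℕ, ENNReal.ofReal (-((z : ℝ) + y)) ∂ρ
      ≤ ∫⁻ y, ENNReal.ofReal (2 * y ^ 2 + 1) ∂ρ := lintegral_mono fun y => A6_sumO_aux y
    _ = ENNReal.ofReal (∫ y, (2 * y ^ 2 + 1) ∂ρ) := by
        have hi : Integrable (fun y : ℝ => 2 * y ^ 2 + 1) ρ :=
          (hρ.int2.const_mul 2).add (integrable_const 1)
        exact (ofReal_integral_eq_lintegral_ofReal hi
          (Filter.Eventually.of_forall fun y => by positivity)).symm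
    _ = 3 := by
        rw [integral_add (hρ.int2.const_mul 2) (integrable_const 1), integral_const_mul, hρ.var]
        simp only [integral_const, probReal_univ, smul_eq_mul, mul_one]
        norm_num

private theorem A6_small (hD : Dom D) (hρ : Std ρ) : ∃ C : ℝ≥0, ∀ (k : ℕ) (x : ℝ), 0 ≤ x → x ≤ 1 →
    oo D ρ k x ≤ C := by
  have := hρ.prob
  obtain ⟨C, hC⟩ := green hD hρ
  refine ⟨3 * C, fun k x hx hx1 => ?_⟩
  have h1 : ∀ i, ∫⁻ w, A6_O ρ w ∂(kap D ρ i x) ≤
      ∑' z : ℕ, A6_O ρ z * kap D ρ i x (Set.Ico (z : ℝ) (z + 1)) := by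
    intro i
    calc ∫⁻ w, A6_O ρ w ∂(kap D ρ i x)
        ≤ ∫⁻ w, ∑' z : ℕ, (Set.Ico (z : ℝ) (z + 1)).indicator (fun _ => A6_O ρ z) w
            ∂(kap D ρ i x) := by
          refine lintegral_mono_ae ?_
          filter_upwards [A6_ae_nonneg hD i x hx] with w hw
          refine le_trans ?_ (ENNReal.le_tsum ⌊w⌋₊)
          have hmem : w ∈ Set.Ico ((⌊w⌋₊ : ℕ) : ℝ) ((⌊w⌋₊ : ℕ) + 1) :=
            ⟨Nat.floor_le hw, Nat.lt_floor_add_one w⟩
          rw [Set.indicator_of_mem hmem]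
          exact A6_O_anti (Nat.floor_le hw)
      _ = ∑' z : ℕ, A6_O ρ z * kap D ρ i x (Set.Ico (z : ℝ) (z + 1)) := by
          rw [lintegral_tsum (fun z => (measurable_const.indicator measurableSet_Ico).aemeasurable)]
          refine tsum_congr fun z => ?_
          rw [lintegral_indicator_const measurableSet_Ico]
  rw [A6_oo_def]
  calc ∑ i ∈ Finset.range k, ∫⁻ w, A6_O ρ w ∂(kap D ρ i x)
      ≤ ∑' i, ∫⁻ w, A6_O ρ w ∂(kap D ρ i x) := ENNReal.sum_le_tsum _
    _ ≤ ∑' i, ∑' z : ℕ, A6_O ρ z * kap D ρ i x (Set.Ico (z : ℝ) (z + 1)) :=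
        ENNReal.tsum_le_tsum h1
    _ = ∑' z : ℕ, ∑' i, A6_O ρ z * kap D ρ i x (Set.Ico (z : ℝ) (z + 1)) := ENNReal.tsum_comm
    _ ≤ ∑' z : ℕ, A6_O ρ z * C := by
        refine ENNReal.tsum_le_tsum fun z => ?_
        rw [ENNReal.tsum_mul_left]
        gcongr
        exact hC x hx hx1 z
    _ ≤ ((3 * C : ℝ≥0) : ℝ≥0∞) := by
        rw [ENNReal.tsum_mul_right]
        push_cast
        gcongr
        exact A6_sumO hρ

/-- **[FV-A6]** `E_x[S_k; N > k] ≤ C (1 + x)`.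
PROOF.
(1) Martingale identity: `ee k x = ofReal x + oo k x` for `x ≥ 0`. Induction on `k`:
`ee (k+1) x = ∫⁻ w, ∫⁻ y, ofReal (w + y) ∂ρ ∂(kap k x)` (for `w + y ∉ D` the integrand vanishes as
`w + y ≤ 0`), and for `w ≥ 0`, `∫⁻ ofReal (w+y) ∂ρ = ofReal w + ∫⁻ ofReal (-(w+y)) ∂ρ` since
`∫ (w + y) ∂ρ = w`; `kap k x` is concentrated on `w ≥ 0` (for `k = 0` because `x ≥ 0`).
(2) `ee k` is monotone in the starting point on `[0, ∞)`: from `x` to `x' ≥ x` both survival and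
position increase. So `0 ≤ y' ≤ y` implies `y' + oo k y' ≤ y + oo k y`; in particular
`oo k (y - d) ≤ oo k y + ofReal d` for `0 ≤ d ≤ y` (all finite).
(3) First step: `oo (k+1) x = ∫⁻ y in {x+y ∈ D}, oo k (x+y) ∂ρ + ∫⁻ y, ofReal (-(x+y)) ∂ρ`.
(4) Subadditivity: `oo k (x+z) ≤ oo k x + oo k z` for `x, z ≥ 0`, by induction on `k`. With `X = y` the
first step: if `x + X ∈ D` then (IH) `oo k (x+X+z) ≤ oo k (x+X) + oo k z ≤ oo k (x+X) + oo (k+1) z`.
If `x + X ∉ D` put `d = -(x+X) ≥ 0`; if `z - d ∈ D` then by (2) `oo k (z-d) ≤ oo k z + d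
≤ oo (k+1) z + d`, otherwise the overshoot is `d - z ≤ d`. Integrating,
`oo (k+1) (x+z) ≤ [∫⁻_{x+y∈D} oo k (x+y) + ∫⁻ ofReal(-(x+y))] + oo (k+1) z`.
(5) For `x ∈ [0,1]`: `oo k x ≤ ∑_{z∈ℕ} (∑_i kap i x (Ico z (z+1))) · ∫⁻ ofReal (-(z+y)) ∂ρ
≤ C_green · E ∑_{z ≥ 0} (|X| - z)^+ ≤ C_green · E (|X|² + |X|) ≤ 2 C_green`.
(6) For `x ≥ 0` write `x = n + s`, `n = ⌊x⌋`, and use (4): `oo k x ≤ n · oo k 1 + oo k s ≤ (1+x) C`. -/
theorem ee_bound (hD : Dom D) (hρ : Std ρ) : ∃ C : ℝ≥0, ∀ (k : ℕ) (x : ℝ), 0 ≤ x →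
    ee D ρ k x ≤ C * ENNReal.ofReal (1 + x) := by
  obtain ⟨C, hC⟩ := A6_small hD hρ
  have hn : ∀ (k n : ℕ) (s : ℝ), 0 ≤ s → s ≤ 1 → oo D ρ k (n + s) ≤ (n + 1) * C := by
    intro k n s hs hs1
    induction n with
    | zero =>
      simp only [CharP.cast_eq_zero, zero_add, one_mul]
      exact hC k s hs hs1
    | succ n ih =>
      have e : ((n + 1 : ℕ) : ℝ) + s = 1 + (n + s) := by push_cast; ring
      rw [e]
      calc oo D ρ k (1 + (n + s)) ≤ oo D ρ k 1 + oo D ρ k (n + s) :=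
            A6_sub hD hρ k 1 (n + s) zero_le_one (by positivity)
        _ ≤ C + (n + 1) * C := add_le_add (hC k 1 zero_le_one le_rfl) ih
        _ = ((n + 1 : ℕ) + 1) * C := by push_cast; ring
  refine ⟨1 + C, fun k x hx => ?_⟩
  rw [ee_eq hD hρ k x hx]
  have h1 := hn k ⌊x⌋₊ (x - ⌊x⌋₊) (by linarith [Nat.floor_le hx])
    (by linarith [Nat.lt_floor_add_one x])
  rw [add_sub_cancel] at h1
  have h2 : ((⌊x⌋₊ : ℝ≥0∞) + 1) ≤ ENNReal.ofReal (1 + x) := by
    have : ((⌊x⌋₊ : ℝ≥0∞) + 1) = ENNReal.ofReal (1 + ⌊x⌋₊) := by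
      rw [ENNReal.ofReal_add zero_le_one (Nat.cast_nonneg _), ENNReal.ofReal_one,
        ENNReal.ofReal_natCast, add_comm]
    rw [this]
    apply ENNReal.ofReal_le_ofReal
    linarith [Nat.floor_le hx]
  calc ENNReal.ofReal x + oo D ρ k x ≤ ENNReal.ofReal (1 + x) + ENNReal.ofReal (1 + x) * C := by
        refine add_le_add (ENNReal.ofReal_le_ofReal (by linarith)) (h1.trans ?_)
        gcongr
    _ = ((1 + C : ℝ≥0) : ℝ≥0∞) * ENNReal.ofReal (1 + x) := by
        push_cast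
        ring

end Pool.Agent.BPT
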