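import Pool.Agent.MP_99a865_pr.FV.A4
import Pool.Agent.MP_99a865_pr.FV.A7
import Pool.Agent.MP_99a865_pr.FV.A2

open MeasureTheory ProbabilityTheory Filter Topology
open scoped ENNReal NNReal

namespace Pool.Agent.BPT

variable {D : Set ℝ} {ρ : Measure ℝ}

lemma A8_split (hD : Dom D) [IsProbabilityMeasure ρ] (k l : ℕ) (hk : 1 ≤ k) (x : ℝ) (J : Set ℝ)
    (hJ : MeasurableSet J) (B : ℝ) (hB0 : 0 ≤ B) (hB : ∀ w, 0 ≤ w → (kap D ρ l w).real J ≤ B) :
    (kap D ρ (k + l) x).real J ≤ (kap D ρ k x).real Set.univ * B := by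
  have h1 : kap D ρ (k + l) x J ≤ ENNReal.ofReal B * kap D ρ k x Set.univ := by
    rw [kap_add_apply hD k l x J hJ, ← lintegral_const]
    refine lintegral_mono_ae ?_
    have hae : ∀ᵐ w ∂(kap D ρ k x), w ∈ D :=
      mem_ae_iff.mpr (kap_compl hD (ρ := ρ) k x (Or.inl hk))
    filter_upwards [hae] with w hw
    rw [← ofReal_measureReal]
    exact ENNReal.ofReal_le_ofReal (hB w (hD.nonneg hw))
  have hfin : ENNReal.ofReal B * kap D ρ k x Set.univ ≠ ⊤ :=
    ENNReal.mul_ne_top ENNReal.ofReal_ne_top (measure_ne_top _ _)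
  have h2 := ENNReal.toReal_mono hfin h1
  rw [ENNReal.toReal_mul, ENNReal.toReal_ofReal hB0, mul_comm] at h2
  exact h2

lemma A8_le_one [IsProbabilityMeasure ρ] (k : ℕ) (x : ℝ) (J : Set ℝ) :
    (kap D ρ k x).real J ≤ 1 := by
  have h1 : kap D ρ k x J ≤ 1 := (measure_mono (Set.subset_univ J)).trans (kap_univ_le_one k x)
  have := ENNReal.toReal_mono ENNReal.one_ne_top h1
  simpa [Measure.real] using this

lemma A8_fre (hD : Dom D) [IsProbabilityMeasure ρ] (k : ℕ) (x : ℝ) (J : Set ℝ) :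
    (kap D ρ k x).real J ≤ (fre ρ k x).real J :=
  ENNReal.toReal_mono (measure_ne_top _ _) (kap_le_fre hD k x J)

lemma A8_nat (k : ℕ) (hk : 2 ≤ k) : ∃ k₁ k₂ : ℕ, k = k₁ + k₂ ∧ 1 ≤ k₁ ∧ 1 ≤ k₂ ∧
    (k : ℝ) / 3 ≤ k₁ ∧ (k : ℝ) / 2 ≤ k₂ := by
  refine ⟨k / 2, k - k / 2, by omega, by omega, by omega, ?_, ?_⟩
  · have h : k ≤ 3 * (k / 2) := by omega
    have h' : (k : ℝ) ≤ 3 * ((k / 2 : ℕ) : ℝ) := by exact_mod_cast h
    linarith
  · have h : k ≤ 2 * (k - k / 2) := by omega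
    have h' : (k : ℝ) ≤ 2 * ((k - k / 2 : ℕ) : ℝ) := by exact_mod_cast h
    linarith

lemma A8_sqrt (k k₁ k₂ : ℕ) (h1 : (k : ℝ) / 3 ≤ k₁) (h2 : (k : ℝ) / 2 ≤ k₂) :
    (k : ℝ) / 3 ≤ √k₁ * √k₂ ∧ √k / 2 ≤ √k₁ := by
  have hk : (0 : ℝ) ≤ k := Nat.cast_nonneg k
  constructor
  · rw [← Real.sqrt_mul (Nat.cast_nonneg k₁)]
    refine Real.le_sqrt_of_sq_le ?_
    have h3 : (k : ℝ) / 3 ≤ k₂ := by linarith
    calc ((k : ℝ) / 3) ^ 2 = (k : ℝ) / 3 * ((k : ℝ) / 3) := by ring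
      _ ≤ k₁ * k₂ := mul_le_mul h1 h3 (by positivity) (by linarith)
  · refine Real.le_sqrt_of_sq_le ?_
    rw [div_pow, Real.sq_sqrt hk]
    linarith

/-- (ii) -/
lemma A8_ii (hD : Dom D) (hρ : Std ρ) : ∃ C > (0 : ℝ), ∀ k : ℕ, 1 ≤ k → ∀ x y : ℝ, 0 ≤ x →
    (kap D ρ k x).real (Set.Ico y (y + 1)) ≤ C * (1 + x) / k := by
  haveI := hρ.prob
  obtain ⟨C1, hC1, h1⟩ := conc hρ
  obtain ⟨C2, hC2, h2⟩ := surv hD hρ
  refine ⟨3 * C1 * C2 + 1, by positivity, fun k hk x y hx => ?_⟩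
  rcases Nat.lt_or_ge 1 k with hk2 | hk1
  · obtain ⟨k₁, k₂, hkk, hk₁, hk₂, h3, h4⟩ := A8_nat k hk2
    obtain ⟨h5, _⟩ := A8_sqrt k k₁ k₂ h3 h4
    have hkpos : (0 : ℝ) < k := by exact_mod_cast (by omega : 0 < k)
    have hs : (kap D ρ k x).real (Set.Ico y (y + 1)) ≤
        (kap D ρ k₁ x).real Set.univ * (C1 / √k₂) := by
      rw [hkk]
      refine A8_split hD k₁ k₂ hk₁ x _ measurableSet_Ico _ (by positivity) fun w _ => ?_
      exact (A8_fre hD k₂ w _).trans (h1 k₂ hk₂ w y)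
    have h6 := h2 k₁ hk₁ x hx
    have hp : 0 < √(k₁ : ℝ) * √(k₂ : ℝ) := lt_of_lt_of_le (by positivity) h5
    calc (kap D ρ k x).real (Set.Ico y (y + 1)) ≤ (kap D ρ k₁ x).real Set.univ * (C1 / √k₂) := hs
      _ ≤ (C2 * (1 + x) / √k₁) * (C1 / √k₂) := by gcongr
      _ = C1 * C2 * (1 + x) / (√k₁ * √k₂) := by
          rw [div_mul_div_comm]; ring
      _ ≤ C1 * C2 * (1 + x) / ((k : ℝ) / 3) := by
          apply div_le_div_of_nonneg_left _ (by positivity) h5
          positivity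
      _ = 3 * C1 * C2 * (1 + x) / k := by field_simp
      _ ≤ (3 * C1 * C2 + 1) * (1 + x) / k := by gcongr; linarith
  · have hk' : k = 1 := by omega
    subst hk'
    refine (A8_le_one 1 x _).trans ?_
    have h0 : 0 ≤ C1 * C2 := by positivity
    simp only [Nat.cast_one, div_one]
    nlinarith [mul_nonneg h0 hx]

/-- (iii) -/
lemma A8_iii (hD : Dom D) (hρ : Std ρ) : ∃ C > (0 : ℝ), ∀ k : ℕ, 1 ≤ k → ∀ x y : ℝ, 0 ≤ x → 0 ≤ y →
    (kap D ρ k x).real (Set.Ico y (y + 1)) ≤ C * (1 + y) / k := by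
  haveI := hρ.prob
  haveI := hρ.dual.prob
  obtain ⟨C3, hC3, h3⟩ := A8_ii hD hρ.dual
  refine ⟨12 * C3, by positivity, fun k hk x y hx hy => ?_⟩
  have hkpos : (0 : ℝ) < k := by exact_mod_cast (by omega : 0 < k)
  set F : ℝ → ℝ → ℝ≥0∞ := fun x' y' => (Set.Ioc x (x + 1)).indicator (fun _ => (1 : ℝ≥0∞)) x' *
    (Set.Ico y (y + 2)).indicator (fun _ => (1 : ℝ≥0∞)) y' with hFdef
  have hF : Measurable (Function.uncurry F) := by
    refine Measurable.mul ?_ ?_
    · exact (measurable_const.indicator measurableSet_Ioc).comp measurable_fst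
    · exact (measurable_const.indicator measurableSet_Ico).comp measurable_snd
  have hdual := duality_vol hD (ρ := ρ) k F hF
  have hsub : Set.Ioc x (x + 1) ⊆ D := fun z hz => hD.pos (lt_of_le_of_lt hx hz.1)
  have hinner : ∀ x', ∫⁻ y', F x' y' ∂(kap D ρ k x') =
      (Set.Ioc x (x + 1)).indicator (fun x' => kap D ρ k x' (Set.Ico y (y + 2))) x' := by
    intro x'
    simp only [hFdef]
    rw [lintegral_const_mul _ (measurable_const.indicator measurableSet_Ico),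
      lintegral_indicator_const measurableSet_Ico, one_mul]
    by_cases h : x' ∈ Set.Ioc x (x + 1)
    · simp [Set.indicator, h]
    · simp [Set.indicator, h]
  have hL : kap D ρ k x (Set.Ico y (y + 1)) ≤ ∫⁻ x' in D, ∫⁻ y', F x' y' ∂(kap D ρ k x') := by
    simp_rw [hinner]
    rw [lintegral_indicator measurableSet_Ioc, Measure.restrict_restrict measurableSet_Ioc,
      Set.inter_eq_left.mpr hsub]
    have hv : volume (Set.Ioc x (x + 1)) = 1 := by
      rw [Real.volume_Ioc]; simp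
    calc kap D ρ k x (Set.Ico y (y + 1)) =
        ∫⁻ _ in Set.Ioc x (x + 1), kap D ρ k x (Set.Ico y (y + 1)) := by
          rw [setLIntegral_const, hv, mul_one]
      _ ≤ ∫⁻ x' in Set.Ioc x (x + 1), kap D ρ k x' (Set.Ico y (y + 2)) := by
          refine setLIntegral_mono' measurableSet_Ioc fun x' hx' => ?_
          have hh := kap_shift_le hD (ρ := ρ) k x (x' - x) (by linarith [hx'.1])
            (Set.Ico y (y + 1)) (Set.Ico y (y + 2)) measurableSet_Ico measurableSet_Ico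
            (fun z hz => ⟨by linarith [hz.1, hx'.1], by linarith [hz.2, hx'.2]⟩)
          have he : x + (x' - x) = x' := by ring
          rwa [he] at hh
  have hinner2 : ∀ y', ∫⁻ x', F x' y' ∂(kap D (dual ρ) k y') =
      (Set.Ico y (y + 2)).indicator
        (fun y' => kap D (dual ρ) k y' (Set.Ioc x (x + 1))) y' := by
    intro y'
    simp only [hFdef]
    rw [lintegral_mul_const _ (measurable_const.indicator measurableSet_Ioc),
      lintegral_indicator_const measurableSet_Ioc, one_mul]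
    by_cases h : y' ∈ Set.Ico y (y + 2)
    · simp [Set.indicator, h]
    · simp [Set.indicator, h]
  have hR : ∫⁻ y' in D, ∫⁻ x', F x' y' ∂(kap D (dual ρ) k y') ≤
      ENNReal.ofReal (12 * C3 * (1 + y) / k) := by
    simp_rw [hinner2]
    rw [lintegral_indicator measurableSet_Ico, Measure.restrict_restrict measurableSet_Ico]
    have hb : ∀ y' ∈ Set.Ico y (y + 2) ∩ D, kap D (dual ρ) k y' (Set.Ioc x (x + 1)) ≤
        ENNReal.ofReal (2 * (C3 * (3 + y) / k)) := by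
      intro y' hy'
      have hy0 : 0 ≤ y' := hD.nonneg hy'.2
      have hcov : Set.Ioc x (x + 1) ⊆ Set.Ico x (x + 1) ∪ Set.Ico (x + 1) (x + 1 + 1) := by
        intro z hz
        rcases lt_or_ge z (x + 1) with h | h
        · exact Or.inl ⟨hz.1.le, h⟩
        · exact Or.inr ⟨h, by linarith [hz.2]⟩
      have e1 := h3 k hk y' x hy0
      have e2 := h3 k hk y' (x + 1) hy0
      have e3 : (kap D (dual ρ) k y').real (Set.Ioc x (x + 1)) ≤ 2 * (C3 * (3 + y) / k) := by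
        have hm1 : (kap D (dual ρ) k y').real (Set.Ioc x (x + 1)) ≤
            (kap D (dual ρ) k y').real (Set.Ico x (x + 1) ∪ Set.Ico (x + 1) (x + 1 + 1)) :=
          measureReal_mono hcov
        have hm2 := measureReal_union_le (μ := kap D (dual ρ) k y') (Set.Ico x (x + 1))
          (Set.Ico (x + 1) (x + 1 + 1))
        have hm3 : C3 * (1 + y') / k ≤ C3 * (3 + y) / k := by
          have h9 : 1 + y' ≤ 3 + y := by linarith [hy'.1.2]
          exact div_le_div_of_nonneg_right (mul_le_mul_of_nonneg_left h9 hC3.le) hkpos.le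
        linarith
      rw [← ofReal_measureReal]
      exact ENNReal.ofReal_le_ofReal e3
    calc ∫⁻ y' in Set.Ico y (y + 2) ∩ D, kap D (dual ρ) k y' (Set.Ioc x (x + 1)) ≤
        ∫⁻ _ in Set.Ico y (y + 2) ∩ D, ENNReal.ofReal (2 * (C3 * (3 + y) / k)) :=
          setLIntegral_mono' (measurableSet_Ico.inter hD.meas) hb
      _ = ENNReal.ofReal (2 * (C3 * (3 + y) / k)) * volume (Set.Ico y (y + 2) ∩ D) := by
          rw [setLIntegral_const]
      _ ≤ ENNReal.ofReal (2 * (C3 * (3 + y) / k)) * ENNReal.ofReal 2 := by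
          refine mul_le_mul_right ?_ _
          refine (measure_mono Set.inter_subset_left).trans ?_
          rw [Real.volume_Ico, add_sub_cancel_left]
      _ = ENNReal.ofReal (2 * (C3 * (3 + y) / k) * 2) := by
          rw [← ENNReal.ofReal_mul (by positivity)]
      _ ≤ ENNReal.ofReal (12 * C3 * (1 + y) / k) := by
          refine ENNReal.ofReal_le_ofReal ?_
          have : 2 * (C3 * (3 + y) / k) * 2 = 4 * C3 * (3 + y) / k := by ring
          rw [this]
          refine div_le_div_of_nonneg_right ?_ hkpos.le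
          nlinarith
  have hfin := ENNReal.toReal_mono ENNReal.ofReal_ne_top ((hL.trans hdual.le).trans hR)
  rw [ENNReal.toReal_ofReal (by positivity)] at hfin
  exact hfin

/-- **[FV-A8]** Local bounds for the killed walk. PROOF. (i) `kap_le_fre` and `conc`.
(ii) for `k ≥ 2` split `k = k₁ + k₂` with `k₁ = ⌊k/2⌋`, `k₂ = k - k₁` (`kap_add_apply`):
`kap k x J ≤ p_{k₁}(x) · sup_w kap k₂ w J ≤ C(1+x)/√k₁ · C/√k₂` (`surv`, (i)); `k = 1` trivial
(the value is at most one).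
(iii) for `s ∈ [0,1]`, `kap_shift_le` gives `kap k x (Ico y (y+1)) ≤ kap k (x+s) (Ico y (y+2))`;
integrating over `s` and `duality_vol` give
`kap k x (Ico y (y+1)) ≤ ∫⁻ x' in Icc x (x+1), kap k x' (Ico y (y+2))
 = ∫⁻ y' in D ∩ Ico y (y+2), kap D (dual ρ) k y' (Icc x (x+1)) ≤ 2 · 2 · C (3 + y)/k`
by (ii) for `dual ρ` (cover `Icc x (x+1)` by two half-open unit intervals).
(iv) `kap k x J ≤ p_{k₁}(x) sup_w kap k₂ w J ≤ C (1+x)/√k₁ · C (1+y)/k₂`; `k = 1` trivial. -/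
theorem win (hD : Dom D) (hρ : Std ρ) : ∃ C > (0 : ℝ), ∀ k : ℕ, 1 ≤ k → ∀ x y : ℝ, 0 ≤ x → 0 ≤ y →
    (kap D ρ k x).real (Set.Ico y (y + 1)) ≤ C / √k ∧
    (kap D ρ k x).real (Set.Ico y (y + 1)) ≤ C * (1 + x) / k ∧
    (kap D ρ k x).real (Set.Ico y (y + 1)) ≤ C * (1 + y) / k ∧
    (kap D ρ k x).real (Set.Ico y (y + 1)) ≤ C * (1 + x) * (1 + y) / (k * √k) := by
  haveI := hρ.prob
  obtain ⟨C1, hC1, h1⟩ := conc hρ
  obtain ⟨C2, hC2, h2⟩ := surv hD hρ
  obtain ⟨C3, hC3, h3⟩ := A8_ii hD hρ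
  obtain ⟨C4, hC4, h4⟩ := A8_iii hD hρ
  have hp24 : 0 < C2 * C4 := by positivity
  refine ⟨C1 + C3 + C4 + 4 * (C2 * C4) + 1, by positivity, fun k hk x y hx hy => ⟨?_, ?_, ?_, ?_⟩⟩
  · refine ((A8_fre hD k x _).trans (h1 k hk x y)).trans ?_
    gcongr
    linarith
  · refine (h3 k hk x y hx).trans ?_
    gcongr
    linarith
  · refine (h4 k hk x y hx hy).trans ?_
    gcongr
    linarith
  · rcases Nat.lt_or_ge 1 k with hk2 | hk1
    · obtain ⟨k₁, k₂, hkk, hk₁, hk₂, h5, h6⟩ := A8_nat k hk2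
      obtain ⟨_, h7⟩ := A8_sqrt k k₁ k₂ h5 h6
      have hkpos : (0 : ℝ) < k := by exact_mod_cast (by omega : 0 < k)
      have hsk : 0 < √(k : ℝ) := Real.sqrt_pos.mpr hkpos
      have hs : (kap D ρ k x).real (Set.Ico y (y + 1)) ≤
          (kap D ρ k₁ x).real Set.univ * (C4 * (1 + y) / k₂) := by
        conv_lhs => rw [hkk]
        refine A8_split hD k₁ k₂ hk₁ x _ measurableSet_Ico _ (by positivity) fun w hw => ?_
        exact h4 k₂ hk₂ w y hw hy
      have h8 := h2 k₁ hk₁ x hx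
      calc (kap D ρ k x).real (Set.Ico y (y + 1))
          ≤ (kap D ρ k₁ x).real Set.univ * (C4 * (1 + y) / k₂) := hs
        _ ≤ (C2 * (1 + x) / √k₁) * (C4 * (1 + y) / k₂) := by gcongr
        _ ≤ (C2 * (1 + x) / (√k / 2)) * (C4 * (1 + y) / (k / 2)) := by gcongr
        _ = 4 * (C2 * C4) * (1 + x) * (1 + y) / (k * √k) := by field_simp; ring
        _ ≤ (C1 + C3 + C4 + 4 * (C2 * C4) + 1) * (1 + x) * (1 + y) / (k * √k) := by
            gcongr
            linarith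
    · have hk' : k = 1 := by omega
      subst hk'
      refine (A8_le_one 1 x _).trans ?_
      simp only [Nat.cast_one, Real.sqrt_one, mul_one, div_one]
      have e1 : 1 ≤ (1 + x) * (1 + y) := by nlinarith
      have e2 : 1 ≤ C1 + C3 + C4 + 4 * (C2 * C4) + 1 := by linarith
      calc (1 : ℝ) ≤ (C1 + C3 + C4 + 4 * (C2 * C4) + 1) * ((1 + x) * (1 + y)) := by nlinarith
        _ = _ := by ring

end Pool.Agent.BPT
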