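import Pool.Agent.MP_99a865_pr.FV.F5

open MeasureTheory ProbabilityTheory Filter Topology
open scoped ENNReal NNReal

namespace Pool.Agent.BPT

variable {D : Set ℝ} {μ ν : Measure ℝ} {σ : ℝ}

/-! **[FV-F10m]** -/

/-- measurability -/
theorem measurable_HB (hD : Dom D) (n : ℕ) : Measurable (HB D n) ∧ Measurable (TB D n) := by
  classical
  constructor
  · have h : HB D n = fun ω => ∑ b ∈ Finset.range n, if Bd D ω b then 1 else 0 := by
      funext ω
      unfold HB
      rw [Finset.card_filter]
    rw [h]
    refine Finset.measurable_fun_sum _ fun b _ => ?_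
    exact Measurable.ite (measurableSet_Bd hD b) measurable_const measurable_const
  · have h : TB D n = fun ω => ∑ b ∈ Finset.range n, if Bd D ω b then (n - b) else 0 := by
      funext ω
      unfold TB
      rw [Finset.sum_filter]
    rw [h]
    refine Finset.measurable_fun_sum _ fun b _ => ?_
    exact Measurable.ite (measurableSet_Bd hD b) measurable_const measurable_const

theorem measurable_YG (δ η : ℝ) (K n : ℕ) (c : ℕ → ℝ) : Measurable (YG σ δ η K n c) := by
  unfold YG
  refine Finset.measurable_fun_sum _ fun j _ => ?_
  exact measurable_const.div (((measurable_nz _).div_const _).max measurable_const)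

theorem measurable_Mx (n : ℕ) : Measurable (Mx σ n) ∧ ∀ δ K, Measurable (MG σ δ K n) ∧
    Measurable (Area σ n) ∧ ∀ R, Measurable (YA σ δ R K n) := by
  refine ⟨?_, fun δ K => ⟨?_, ?_, fun R => ?_⟩⟩
  · unfold Mx
    exact Measurable.iSup fun i => measurable_nz _
  · unfold MG
    exact Measurable.iSup fun i => measurable_nz _
  · unfold Area
    exact Finset.measurable_fun_sum _ fun i _ => measurable_nz i
  · unfold YA
    refine Finset.measurable_fun_sum _ fun j _ => ?_
    exact measurable_const.mul (((measurable_nz _).div_const _).min measurable_const)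

end Pool.Agent.BPT
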