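import Pool.Agent.MP_99a865_pr.FV.F2
import Pool.Agent.MP_99a865_pr.FV.A11

open MeasureTheory ProbabilityTheory Filter Topology
open scoped ENNReal NNReal

namespace Pool.Agent.BPT

variable {D : Set ℝ} {μ ν : Measure ℝ} {σ : ℝ}

/-- **[FV-F3b]** Windows in the bulk: `hit m ≤ C/m`, `(kap i 0).univ ≤ C/√i`. -/
theorem window_bulk (hD : Dom D) (hQ : QStd μ ν σ) {c : ℝ} (hc : 0 < c) : ∃ C > (0 : ℝ),
    ∀ i w m : ℕ, 1 ≤ w → 1 ≤ m → 1 ≤ i → c * (i + w + m : ℕ) ≤ i → c * (i + w + m : ℕ) ≤ m →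
    ∀ B : Set (ℕ → ℝ × ℝ), MeasurableSet B → (∀ ω ω', (∀ j < w, ω j = ω' j) → (ω ∈ B ↔ ω' ∈ B)) →
    PQ μ ν (EvN D (i + w + m) ∩ {ω | shift i ω ∈ B}) ≤
      ENNReal.ofReal (C / ((i + w + m : ℕ) * √(i + w + m : ℕ))) * PQ μ ν B := by
  have hS : Std (stepLaw μ ν σ) := hQ.std
  have := hS.prob
  have := hQ.probμ
  have := hQ.probν
  obtain ⟨C1, hC1, h1⟩ := hit_bound hD hS
  obtain ⟨C2, hC2, h2⟩ := surv hD hS
  refine ⟨C1 * C2 / (c * √c), by positivity, fun i w m hw hm hi hci hcm B hB hdep => ?_⟩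
  have hn : (0 : ℝ) < (i + w + m : ℕ) := by
    have : 0 < i + w + m := by omega
    exact_mod_cast this
  have hi0 : (0 : ℝ) < i := by exact_mod_cast hi
  have hm0 : (0 : ℝ) < m := by exact_mod_cast hm
  -- the bound of the constants
  have hconst : C1 / m * (C2 / √i) ≤ C1 * C2 / (c * √c) / ((i + w + m : ℕ) * √(i + w + m : ℕ)) := by
    have e1 : C1 / m * (C2 / √i) = C1 * C2 / (m * √i) := by
      rw [div_mul_div_comm]
    rw [e1, div_div]
    apply div_le_div_of_nonneg_left (by positivity) (by positivity)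
    have e2 : c * √c * (((i + w + m : ℕ) : ℝ) * √(i + w + m : ℕ))
        = (c * (i + w + m : ℕ)) * √(c * (i + w + m : ℕ)) := by
      rw [Real.sqrt_mul hc.le]; ring
    rw [e2]
    exact mul_le_mul hcm (Real.sqrt_le_sqrt hci) (Real.sqrt_nonneg _) hm0.le
  have hset : MeasurableSet {ω : ℕ → ℝ × ℝ | shift i ω ∈ B} := (measurable_shift i) hB
  have hG : Measurable (B.indicator (fun _ => (1 : ℝ≥0∞)) : (ℕ → ℝ × ℝ) → ℝ≥0∞) :=
    measurable_const.indicator hB
  have hkey := q_window hD hQ i w m hw hm (B.indicator fun _ => 1) hG (fun _ => 1)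
    measurable_const (fun ω ω' h => by
      by_cases hω : ω ∈ B
      · rw [Set.indicator_of_mem hω, Set.indicator_of_mem ((hdep ω ω' h).1 hω)]
      · rw [Set.indicator_of_notMem hω, Set.indicator_of_notMem (fun h' => hω ((hdep ω ω' h).2 h'))])
  have hleft : ∫⁻ ω in EvN D (i + w + m), (B.indicator (fun _ => (1 : ℝ≥0∞)) (shift i ω)) * 1
      ∂(PQ μ ν) = PQ μ ν (EvN D (i + w + m) ∩ {ω | shift i ω ∈ B}) := by
    have e : (fun ω : ℕ → ℝ × ℝ => B.indicator (fun _ => (1 : ℝ≥0∞)) (shift i ω) * 1)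
        = ({ω : ℕ → ℝ × ℝ | shift i ω ∈ B}).indicator (fun _ => (1 : ℝ≥0∞)) := by
      funext ω
      rw [mul_one]
      by_cases hω : shift i ω ∈ B
      · rw [Set.indicator_of_mem hω, Set.indicator_of_mem (show ω ∈ {ω | shift i ω ∈ B} from hω)]
      · rw [Set.indicator_of_notMem hω,
          Set.indicator_of_notMem (show ω ∉ {ω | shift i ω ∈ B} from hω)]
    rw [e, lintegral_indicator_const hset, one_mul, Measure.restrict_apply hset, Set.inter_comm]
  rw [hleft] at hkey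
  refine le_trans hkey ?_
  -- the inner integral
  have hinner : ∀ η : ℕ → ℝ × ℝ, ∫⁻ y in {y | y + nz σ w η ∈ D}, (1 : ℝ≥0∞) *
      ENNReal.ofReal (hit D (stepLaw μ ν σ) m (y + nz σ w η)) ∂(kap D (stepLaw μ ν σ) i 0)
      ≤ ENNReal.ofReal (C1 * C2 / (c * √c) / ((i + w + m : ℕ) * √(i + w + m : ℕ))) := by
    intro η
    have hms : MeasurableSet {y : ℝ | y + nz σ w η ∈ D} :=
      (measurable_id.add_const _) hD.meas
    have s1 : ∫⁻ y in {y | y + nz σ w η ∈ D}, (1 : ℝ≥0∞) *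
        ENNReal.ofReal (hit D (stepLaw μ ν σ) m (y + nz σ w η)) ∂(kap D (stepLaw μ ν σ) i 0)
        ≤ ∫⁻ _ in {y | y + nz σ w η ∈ D}, ENNReal.ofReal (C1 / m)
          ∂(kap D (stepLaw μ ν σ) i 0) := by
      refine setLIntegral_mono' hms fun y hy => ?_
      rw [one_mul]
      exact ENNReal.ofReal_le_ofReal (h1 m hm _ (hD.nonneg hy)).2.1
    have s2 : ∫⁻ _ in {y | y + nz σ w η ∈ D}, ENNReal.ofReal (C1 / m)
        ∂(kap D (stepLaw μ ν σ) i 0) ≤ ENNReal.ofReal (C1 / m)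
          * kap D (stepLaw μ ν σ) i 0 Set.univ := by
      rw [setLIntegral_const]
      exact mul_le_mul_right (measure_mono (Set.subset_univ _)) _
    have s3 : kap D (stepLaw μ ν σ) i 0 Set.univ ≤ ENNReal.ofReal (C2 / √i) := by
      have := h2 i hi 0 le_rfl
      rw [add_zero, mul_one] at this
      rw [← ENNReal.ofReal_toReal (measure_ne_top (kap D (stepLaw μ ν σ) i 0) Set.univ)]
      exact ENNReal.ofReal_le_ofReal this
    refine le_trans s1 (le_trans s2 (le_trans (mul_le_mul_right s3 _) ?_))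
    rw [← ENNReal.ofReal_mul (by positivity)]
    exact ENNReal.ofReal_le_ofReal hconst
  calc ∫⁻ η, B.indicator (fun _ => (1 : ℝ≥0∞)) η * ∫⁻ y in {y | y + nz σ w η ∈ D}, (1 : ℝ≥0∞) *
        ENNReal.ofReal (hit D (stepLaw μ ν σ) m (y + nz σ w η)) ∂(kap D (stepLaw μ ν σ) i 0)
          ∂(PQ μ ν)
      ≤ ∫⁻ η, B.indicator (fun _ => (1 : ℝ≥0∞)) η *
        ENNReal.ofReal (C1 * C2 / (c * √c) / ((i + w + m : ℕ) * √(i + w + m : ℕ))) ∂(PQ μ ν) :=
        lintegral_mono fun η => mul_le_mul_right (hinner η) _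
    _ = ENNReal.ofReal (C1 * C2 / (c * √c) / ((i + w + m : ℕ) * √(i + w + m : ℕ))) * PQ μ ν B := by
        rw [lintegral_mul_const _ hG, lintegral_indicator_const hB, one_mul, mul_comm]

end Pool.Agent.BPT
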