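import Pool.Agent.MP_99a865_pr.FV.F8a
import Pool.Agent.MP_99a865_pr.FV.F3b

open MeasureTheory ProbabilityTheory Filter Topology
open scoped ENNReal NNReal

namespace Pool.Agent.BPT

variable {D : Set ℝ} {μ ν : Measure ℝ} {σ : ℝ}

/-- bad event of a window -/
def F8b_B (σ a : ℝ) (w : ℕ) : Set (ℕ → ℝ × ℝ) :=
  {η | ∃ j ≤ w, a < |nz σ j η| ∨ a < |Ar j η - j|}

lemma F8b_B_meas (σ a : ℝ) (w : ℕ) : MeasurableSet (F8b_B σ a w) := by
  have : F8b_B σ a w = ⋃ j ∈ Finset.range (w + 1), ({η | a < |nz σ j η|} ∪ {η | a < |Ar j η - j|}) := by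
    ext η
    simp [F8b_B]
  rw [this]
  refine Finset.measurableSet_biUnion _ fun j _ => ?_
  exact (measurableSet_lt measurable_const (measurable_nz j).norm).union
    (measurableSet_lt measurable_const ((measurable_Ar j).sub_const _).norm)

lemma F8b_nz_dep {w j : ℕ} (hj : j ≤ w) {ω ω' : ℕ → ℝ × ℝ} (h : ∀ i < w, ω i = ω' i) :
    nz σ j ω = nz σ j ω' ∧ Ar j ω = Ar j ω' := by
  have h1 : Ar j ω = Ar j ω' := by
    unfold Ar
    exact Finset.sum_congr rfl fun i hi => by rw [h i (by have := Finset.mem_range.1 hi; omega)]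
  have h2 : Dp j ω = Dp j ω' := by
    unfold Dp
    exact Finset.sum_congr rfl fun i hi => by rw [h i (by have := Finset.mem_range.1 hi; omega)]
  refine ⟨?_, h1⟩
  unfold nz Zw
  rw [h1, h2]

lemma F8b_B_dep (σ a : ℝ) (w : ℕ) (ω ω' : ℕ → ℝ × ℝ) (h : ∀ i < w, ω i = ω' i) :
    ω ∈ F8b_B σ a w ↔ ω' ∈ F8b_B σ a w := by
  unfold F8b_B
  simp only [Set.mem_ofPred_eq]
  refine exists_congr fun j => and_congr_right fun hj => ?_
  rw [(F8b_nz_dep (σ := σ) hj h).1, (F8b_nz_dep (σ := σ) hj h).2]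

lemma F8b_Ar_law (hQ : QStd μ ν σ) :
    (PQ μ ν).map (fun η : ℕ → ℝ × ℝ => fun i => (η i).1 - 1) = seqLaw (μ.map fun x => x - 1) := by
  have := hQ.probμ
  have := hQ.probν
  have hm : Measurable fun p : ℝ × ℝ => p.1 - 1 := measurable_fst.sub_const 1
  have h := map_seqLaw (μ.prod ν) (fun p : ℝ × ℝ => p.1 - 1) hm
  unfold PQ
  rw [h]
  congr 1
  have h2 : (fun p : ℝ × ℝ => p.1 - 1) = (fun x : ℝ => x - 1) ∘ Prod.fst := rfl
  have hm3 : Measurable fun x : ℝ => x - 1 := measurable_id.sub_const 1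
  rw [h2, ← Measure.map_map hm3 measurable_fst]
  congr 1
  rw [Measure.map_fst_prod]
  simp

lemma F8b_Ar_eq (j : ℕ) (η : ℕ → ℝ × ℝ) : Ar j η - j = S j (fun i => (η i).1 - 1) := by
  unfold Ar S
  rw [Finset.sum_sub_distrib]
  simp

lemma F8b_prob (hQ : QStd μ ν σ) {a b θ : ℝ} (w : ℕ) (hw : (w : ℝ) ≤ b)
    (h1 : (seqLaw (stepLaw μ ν σ)).real {ω | ∃ j : ℕ, (j : ℝ) ≤ b ∧ a ≤ |S j ω|} ≤ θ)
    (h2 : (seqLaw (μ.map fun x => x - 1)).real {ω | ∃ j : ℕ, (j : ℝ) ≤ b ∧ a ≤ |S j ω|} ≤ θ) :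
    PQ μ ν (F8b_B σ a w) ≤ ENNReal.ofReal (2 * θ) := by
  have := hQ.probμ
  have := hQ.probν
  have : IsProbabilityMeasure (stepLaw μ ν σ) := hQ.std.prob
  have : IsProbabilityMeasure (μ.map fun x : ℝ => x - 1) :=
    Measure.isProbabilityMeasure_map (measurable_id.sub_const 1).aemeasurable
  have hAm : MeasurableSet {ω : ℕ → ℝ | ∃ j : ℕ, (j : ℝ) ≤ b ∧ a ≤ |S j ω|} := by
    have : {ω : ℕ → ℝ | ∃ j : ℕ, (j : ℝ) ≤ b ∧ a ≤ |S j ω|} =
        ⋃ j : ℕ, ⋃ (_ : (j : ℝ) ≤ b), {ω | a ≤ |S j ω|} := by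
      ext ω; simp
    rw [this]
    exact MeasurableSet.iUnion fun j => MeasurableSet.iUnion fun _ =>
      measurableSet_le measurable_const (measurable_S j).norm
  have hm2 : Measurable (fun η : ℕ → ℝ × ℝ => fun i => (η i).1 - 1) :=
    measurable_pi_lambda _ fun i => (measurable_fst.comp (measurable_pi_apply i)).sub_const 1
  have e1 : PQ μ ν (steps σ ⁻¹' {ω : ℕ → ℝ | ∃ j : ℕ, (j : ℝ) ≤ b ∧ a ≤ |S j ω|}) ≤
      ENNReal.ofReal θ := by
    rw [← Measure.map_apply measurable_steps hAm, map_steps hQ,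
      ← ENNReal.ofReal_toReal (measure_ne_top _ _)]
    exact ENNReal.ofReal_le_ofReal h1
  have e2 : PQ μ ν ((fun η : ℕ → ℝ × ℝ => fun i => (η i).1 - 1) ⁻¹'
      {ω : ℕ → ℝ | ∃ j : ℕ, (j : ℝ) ≤ b ∧ a ≤ |S j ω|}) ≤ ENNReal.ofReal θ := by
    rw [← Measure.map_apply hm2 hAm, F8b_Ar_law hQ, ← ENNReal.ofReal_toReal (measure_ne_top _ _)]
    exact ENNReal.ofReal_le_ofReal h2
  have hsub : F8b_B σ a w ⊆ steps σ ⁻¹' {ω : ℕ → ℝ | ∃ j : ℕ, (j : ℝ) ≤ b ∧ a ≤ |S j ω|} ∪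
      (fun η : ℕ → ℝ × ℝ => fun i => (η i).1 - 1) ⁻¹'
        {ω : ℕ → ℝ | ∃ j : ℕ, (j : ℝ) ≤ b ∧ a ≤ |S j ω|} := by
    rintro η ⟨j, hj, h | h⟩
    · left
      refine ⟨j, le_trans (by exact_mod_cast hj) hw, ?_⟩
      rw [← nz_eq]; exact h.le
    · right
      refine ⟨j, le_trans (by exact_mod_cast hj) hw, ?_⟩
      rw [← F8b_Ar_eq]; exact h.le
  have hθ : 0 ≤ θ := measureReal_nonneg.trans h1
  calc PQ μ ν (F8b_B σ a w) ≤ _ := measure_mono hsub
    _ ≤ _ := measure_union_le _ _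
    _ ≤ ENNReal.ofReal θ + ENNReal.ofReal θ := add_le_add e1 e2
    _ = ENNReal.ofReal (2 * θ) := by rw [← ENNReal.ofReal_add hθ hθ]; ring_nf

/-- **[FV-F8b]** -/
theorem good_windows (hD : Dom D) (hQ : QStd μ ν σ) {δ : ℝ} (hδ : 0 < δ) (hδ1 : δ ≤ 1 / 8) :
    ∀ ε > (0 : ℝ), ∀ θ > (0 : ℝ), ∃ K₀ : ℕ, ∀ K ≥ K₀, ∃ n₀ : ℕ, ∀ n ≥ n₀,
      PQ μ ν (EvN D n ∩ {ω | ¬ Gd σ δ ε K n ω}) ≤ ENNReal.ofReal (θ / (n * √n)) := by
  intro ε hε θ hθ
  have := hQ.probμ
  have := hQ.probν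
  have hstd := hQ.std
  have : IsProbabilityMeasure (stepLaw μ ν σ) := hstd.prob
  have hm1 : Measurable fun x : ℝ => x - 1 := measurable_id.sub_const 1
  have : IsProbabilityMeasure (μ.map fun x : ℝ => x - 1) :=
    Measure.isProbabilityMeasure_map hm1.aemeasurable
  obtain ⟨C, hC, hbulk⟩ := window_bulk hD hQ (show 0 < δ / 4 by linarith)
  set θ₁ : ℝ := θ / (4 * C) with hθ₁
  have hθ₁pos : 0 < θ₁ := by positivity
  obtain ⟨κ₁, hκ₁, hmod₁⟩ := modulus (stepLaw μ ν σ) hstd.int2 hstd.mean ε hε θ₁ hθ₁pos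
  have hμ2 : MemLp (fun x : ℝ => x) 2 μ :=
    (memLp_two_iff_integrable_sq measurable_id.aestronglyMeasurable).2 hQ.int2μ
  have hμ1 : Integrable (fun x : ℝ => x) μ := hμ2.integrable (by norm_num)
  have hint2 : Integrable (fun x : ℝ => x ^ 2) (μ.map fun x : ℝ => x - 1) := by
    rw [integrable_map_measure (by fun_prop) hm1.aemeasurable]
    have : (fun x : ℝ => x ^ 2) ∘ (fun x : ℝ => x - 1) = fun x => x ^ 2 - 2 * x + 1 := by
      funext x; simp only [Function.comp]; ring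
    rw [this]
    exact (hQ.int2μ.sub (hμ1.const_mul 2)).add (integrable_const 1)
  have hmean2 : ∫ x, x ∂(μ.map fun x : ℝ => x - 1) = 0 := by
    rw [integral_map hm1.aemeasurable (by fun_prop), integral_sub hμ1 (integrable_const 1), hQ.meanμ]
    simp
  obtain ⟨κ₂, hκ₂, hmod₂⟩ := modulus (μ.map fun x : ℝ => x - 1) hint2 hmean2 ε hε θ₁ hθ₁pos
  obtain ⟨K₀, hK₀⟩ := exists_nat_ge (max (4 / δ) (max (1 / κ₁) (1 / κ₂)))
  refine ⟨max K₀ 1, fun K hK => ?_⟩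
  have hK1 : 1 ≤ K := (le_max_right _ _).trans hK
  have hKpos : (0 : ℝ) < K := by exact_mod_cast hK1
  have hKK₀ : (K₀ : ℝ) ≤ K := by exact_mod_cast (le_max_left K₀ 1).trans hK
  set κ : ℝ := (1 - 2 * δ) / K with hκ
  have hκpos : 0 < κ := div_pos (by linarith) hKpos
  have hκK : κ * K = 1 - 2 * δ := by rw [hκ]; field_simp
  have hκle : κ ≤ 1 / K := by
    rw [hκ]; gcongr; linarith
  have hκδ : κ ≤ δ / 4 := by
    refine hκle.trans ?_
    rw [div_le_iff₀ hKpos]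
    have : 4 / δ ≤ K := ((le_max_left _ _).trans hK₀).trans hKK₀
    rw [div_le_iff₀ hδ] at this
    linarith
  have hκκ₁ : κ ≤ κ₁ := by
    refine hκle.trans ?_
    rw [div_le_iff₀ hKpos]
    have : 1 / κ₁ ≤ K := (((le_max_left _ _).trans (le_max_right _ _)).trans hK₀).trans hKK₀
    rw [div_le_iff₀ hκ₁] at this
    linarith
  have hκκ₂ : κ ≤ κ₂ := by
    refine hκle.trans ?_
    rw [div_le_iff₀ hKpos]
    have : 1 / κ₂ ≤ K := (((le_max_right _ _).trans (le_max_right _ _)).trans hK₀).trans hKK₀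
    rw [div_le_iff₀ hκ₂] at this
    linarith
  obtain ⟨n₁, hn₁⟩ := hmod₁ κ hκpos hκκ₁
  obtain ⟨n₂, hn₂⟩ := hmod₂ κ hκpos hκκ₂
  obtain ⟨n₃, hn₃⟩ := exists_nat_ge (max (2 / κ) (4 / δ))
  refine ⟨max n₁ (max n₂ (max n₃ 1)), fun n hn => ?_⟩
  have hnn₁ : n₁ ≤ n := (le_max_left _ _).trans hn
  have hnn₂ : n₂ ≤ n := ((le_max_left _ _).trans (le_max_right _ _)).trans hn
  have hnn₃ : n₃ ≤ n := (((le_max_left _ _).trans (le_max_right _ _)).trans (le_max_right _ _)).trans hn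
  have hn1 : 1 ≤ n := (((le_max_right _ _).trans (le_max_right _ _)).trans (le_max_right _ _)).trans hn
  have hnpos : (0 : ℝ) < n := by exact_mod_cast hn1
  have hn3r : (n₃ : ℝ) ≤ n := by exact_mod_cast hnn₃
  have hnκ : 2 ≤ κ * n := by
    have : 2 / κ ≤ n := ((le_max_left _ _).trans hn₃).trans hn3r
    rw [div_le_iff₀ hκpos] at this
    linarith
  have hnδ : 4 ≤ δ * n := by
    have : 4 / δ ≤ n := ((le_max_right _ _).trans hn₃).trans hn3r
    rw [div_le_iff₀ hδ] at this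
    linarith
  -- grid facts
  have g1 : ∀ j : ℕ, ((gi n δ K j : ℕ) : ℝ) ≤ (δ + j * κ) * n := by
    intro j
    unfold gi
    rw [← hκ]
    exact Nat.floor_le (by positivity)
  have g2 : ∀ j : ℕ, (δ + j * κ) * n < ((gi n δ K j : ℕ) : ℝ) + 1 := by
    intro j
    unfold gi
    rw [← hκ]
    exact Nat.lt_floor_add_one _
  have hP : ∀ j ∈ Finset.range (K + 1), PQ μ ν (EvN D n ∩
      {ω | shift (gi n δ K j) ω ∈ F8b_B σ (ε * √n) (gi n δ K (j + 1) - gi n δ K j)}) ≤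
        ENNReal.ofReal (C / (n * √n)) * ENNReal.ofReal (2 * (θ₁ * κ)) := by
    intro j hj
    have hjK : (j : ℝ) ≤ K := by
      have := Finset.mem_range.1 hj
      exact_mod_cast Nat.lt_succ_iff.1 this
    have hj0 : (0 : ℝ) ≤ j := Nat.cast_nonneg _
    have a1 := g1 j
    have a2 := g2 j
    have a3 := g1 (j + 1)
    have a4 := g2 (j + 1)
    push_cast at a3 a4
    set i := gi n δ K j with hi
    set i' := gi n δ K (j + 1) with hi'
    have hii' : i < i' := by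
      have : (i : ℝ) < i' := by nlinarith
      exact_mod_cast this
    have hjκ : (j : ℝ) * κ ≤ 1 - 2 * δ := by
      rw [← hκK, mul_comm]; gcongr
    have hi'n : (i' : ℝ) ≤ (1 - 3 * δ / 4) * n := by
      refine a3.trans ?_
      gcongr
      nlinarith
    have hi'lt : i' < n := by
      have : (i' : ℝ) < n := by nlinarith
      exact_mod_cast this
    have hilow : δ / 4 * n ≤ i := by nlinarith [mul_nonneg (mul_nonneg hj0 hκpos.le) hnpos.le]
    have hi1 : 1 ≤ i := by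
      have : (0 : ℝ) < i := by nlinarith
      exact_mod_cast this
    have hsum : i + (i' - i) + (n - i') = n := by omega
    have hwb : (((i' - i : ℕ)) : ℝ) ≤ κ * n + 1 := by
      rw [Nat.cast_sub hii'.le]
      nlinarith
    have hb := hbulk i (i' - i) (n - i') (by omega) (by omega) hi1
      (by rw [hsum]; exact hilow)
      (by
        rw [hsum, Nat.cast_sub hi'lt.le]
        nlinarith)
      (F8b_B σ (ε * √n) (i' - i)) (F8b_B_meas _ _ _) (fun ω ω' h => F8b_B_dep _ _ _ ω ω' h)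
    rw [hsum] at hb
    refine hb.trans ?_
    gcongr
    exact F8b_prob hQ (i' - i) hwb (hn₁ n hnn₁) (hn₂ n hnn₂)
  have hsub : EvN D n ∩ {ω | ¬ Gd σ δ ε K n ω} ⊆ ⋃ j ∈ Finset.range (K + 1), (EvN D n ∩
      {ω | shift (gi n δ K j) ω ∈ F8b_B σ (ε * √n) (gi n δ K (j + 1) - gi n δ K j)}) := by
    rintro ω ⟨h1, h2⟩
    have h2' : ¬ Gd σ δ ε K n ω := h2
    unfold Gd at h2'
    push Not at h2'
    obtain ⟨j, hj, i, hi1, hi2, hi3⟩ := h2'
    simp only [Set.mem_iUnion, Finset.mem_range, exists_prop]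
    refine ⟨j, by omega, h1, ?_⟩
    refine ⟨i - gi n δ K j, by omega, ?_⟩
    have e1 : nz σ (i - gi n δ K j) (shift (gi n δ K j) ω) = nz σ i ω - nz σ (gi n δ K j) ω := by
      have := nz_add (σ := σ) (gi n δ K j) (i - gi n δ K j) ω
      rw [Nat.add_sub_cancel' hi1] at this
      linarith
    have e2 : Ar (i - gi n δ K j) (shift (gi n δ K j) ω) = Ar i ω - Ar (gi n δ K j) ω := by
      have := Ar_add (gi n δ K j) (i - gi n δ K j) ω
      rw [Nat.add_sub_cancel' hi1] at this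
      linarith
    rw [e1, e2, Nat.cast_sub hi1]
    by_cases hc : |nz σ i ω - nz σ (gi n δ K j) ω| ≤ ε * √n
    · exact Or.inr (hi3 hc)
    · exact Or.inl (not_le.1 hc)
  calc PQ μ ν (EvN D n ∩ {ω | ¬ Gd σ δ ε K n ω})
      ≤ ∑ j ∈ Finset.range (K + 1), PQ μ ν (EvN D n ∩
        {ω | shift (gi n δ K j) ω ∈ F8b_B σ (ε * √n) (gi n δ K (j + 1) - gi n δ K j)}) :=
        (measure_mono hsub).trans (measure_biUnion_finset_le _ _)
    _ ≤ ∑ j ∈ Finset.range (K + 1), ENNReal.ofReal (C / (n * √n)) * ENNReal.ofReal (2 * (θ₁ * κ)) :=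
        Finset.sum_le_sum hP
    _ = ENNReal.ofReal (((K + 1 : ℕ) : ℝ) * (C / (n * √n) * (2 * (θ₁ * κ)))) := by
        have hp1 : 0 ≤ C / (n * √n) := by positivity
        rw [Finset.sum_const, Finset.card_range, nsmul_eq_mul,
          ENNReal.ofReal_mul (Nat.cast_nonneg _), ENNReal.ofReal_mul hp1, ENNReal.ofReal_natCast]
    _ ≤ ENNReal.ofReal (θ / (n * √n)) := by
        refine ENNReal.ofReal_le_ofReal ?_
        have hsq : 0 < √(n : ℝ) := Real.sqrt_pos.2 hnpos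
        have e : ((K + 1 : ℕ) : ℝ) * (C / (n * √n) * (2 * (θ₁ * κ))) =
            ((K + 1) * κ) * (2 * C * θ₁) / (n * √n) := by push_cast; ring
        rw [e]
        have h5 : ((K : ℝ) + 1) * κ ≤ 2 := by nlinarith
        have h6 : 2 * C * θ₁ = θ / 2 := by rw [hθ₁]; field_simp; ring
        rw [h6]
        have h7 : ((K : ℝ) + 1) * κ * (θ / 2) ≤ θ := by nlinarith
        gcongr

end Pool.Agent.BPT
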