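import Pool.Agent.MP_99a865_pr.FV.F2
import Pool.Agent.MP_99a865_pr.FV.A11

open MeasureTheory ProbabilityTheory Filter Topology
open scoped ENNReal NNReal

namespace Pool.Agent.BPT

variable {D : Set ℝ} {μ ν : Measure ℝ} {σ : ℝ}

theorem F8c_nz_dep (i : ℕ) (ω ω' : ℕ → ℝ × ℝ) (h : ∀ j < i, ω j = ω' j) :
    nz σ i ω = nz σ i ω' := by
  unfold nz Zw Dp Ar
  have h1 : ∑ j ∈ Finset.range i, (ω j).2 = ∑ j ∈ Finset.range i, (ω' j).2 :=
    Finset.sum_congr rfl fun j hj => by rw [h j (Finset.mem_range.1 hj)]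
  have h2 : ∑ j ∈ Finset.range i, (ω j).1 = ∑ j ∈ Finset.range i, (ω' j).1 :=
    Finset.sum_congr rfl fun j hj => by rw [h j (Finset.mem_range.1 hj)]
  rw [h1, h2]

theorem F8c_markov (hD : Dom D) (hQ : QStd μ ν σ) (i m : ℕ) (hm : 1 ≤ m) (A : Set ℝ)
    (hA : MeasurableSet A) :
    PQ μ ν (EvN D (i + m) ∩ {ω | nz σ i ω ∈ A}) =
      ∫⁻ y in A, ENNReal.ofReal (hit D (stepLaw μ ν σ) m y) ∂(kap D (stepLaw μ ν σ) i 0) := by
  have := hQ.probμ
  have := hQ.probν
  have := hQ.std.prob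
  have hmeas : MeasurableSet {ω : ℕ → ℝ × ℝ | nz σ i ω ∈ A} := measurable_nz i hA
  have hh : Measurable (hit D (stepLaw μ ν σ) m) := measurable_hit hD m
  have h1 := q_markov hD hQ i m hm ({ω : ℕ → ℝ × ℝ | nz σ i ω ∈ A}.indicator fun _ => 1)
    (measurable_const.indicator hmeas) (by
      intro ω ω' h
      have := F8c_nz_dep (σ := σ) i ω ω' h
      by_cases h1 : nz σ i ω ∈ A
      · have h2 : nz σ i ω' ∈ A := by rwa [← this]
        simp [Set.indicator, h1, h2]
      · have h2 : nz σ i ω' ∉ A := by rwa [← this]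
        simp [Set.indicator, h1, h2])
  have h2 := lintegral_alive (σ := σ) hD hQ i
    (A.indicator fun y => ENNReal.ofReal (hit D (stepLaw μ ν σ) m y))
    (hh.ennreal_ofReal.indicator hA)
  rw [lintegral_indicator hA] at h2
  rw [← h2]
  rw [lintegral_indicator hmeas, Measure.restrict_restrict hmeas, setLIntegral_const, one_mul] at h1
  rw [Set.inter_comm, h1]
  refine lintegral_congr fun ω => ?_
  by_cases h1 : nz σ i ω ∈ A <;> simp [Set.indicator, h1]

/-- **[FV-F8c]** The walk at the grid points is `O(√n)`.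
PROOF. For `i = gi j`, `m = n - i`: `∫_{y ≥ R√n} hit m y ∂(kap i 0) ≤ (C/m) ∫ y² ∂(kap i 0)/(R²n)
≤ C_δ √n/(n R² n)` (`q_markov`, `hit_bound`, `mom2`); sum over `j ≤ K`. -/
theorem grid_bounded (hD : Dom D) (hQ : QStd μ ν σ) {δ : ℝ} (hδ : 0 < δ) (hδ1 : δ ≤ 1 / 8) (K : ℕ)
    (hK : 1 ≤ K) : ∀ θ > (0 : ℝ), ∃ R ≥ (1 : ℝ), ∃ n₀ : ℕ, ∀ n ≥ n₀,
      PQ μ ν (EvN D n ∩ {ω | ∃ j ≤ K, R * √n ≤ nz σ (gi n δ K j) ω}) ≤
        ENNReal.ofReal (θ / (n * √n)) := by
  have := hQ.probμ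
  have := hQ.probν
  have := hQ.std.prob
  intro θ hθ
  obtain ⟨C₁, hC₁, hhit⟩ := hit_bound hD hQ.std
  obtain ⟨C₂, hC₂, hmom⟩ := mom2 hD hQ.std
  set R : ℝ := 1 + (K + 1) * C₁ * C₂ / (δ * θ) with hR
  have hRq : 0 ≤ (K + 1) * C₁ * C₂ / (δ * θ) := by positivity
  have hR1 : 1 ≤ R := by linarith
  refine ⟨R, hR1, ⌈1 / δ⌉₊ + 1, fun n hn => ?_⟩
  have hnd : 1 / δ ≤ n := by
    have h1 := Nat.le_ceil (1 / δ)
    have h2 : ((⌈1 / δ⌉₊ : ℕ) : ℝ) ≤ n := by exact_mod_cast (by omega : ⌈1 / δ⌉₊ ≤ n)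
    linarith
  have hn0 : 1 ≤ n := by omega
  have hnr : (1 : ℝ) ≤ n := by exact_mod_cast hn0
  have hδn : 1 ≤ δ * n := by
    rw [div_le_iff₀ hδ] at hnd
    linarith
  have hsq : 0 < √(n : ℝ) := Real.sqrt_pos.2 (by linarith)
  have hKr : (1 : ℝ) ≤ K := by exact_mod_cast hK
  -- one grid point
  have key : ∀ j ≤ K, PQ μ ν (EvN D n ∩ {ω | R * √n ≤ nz σ (gi n δ K j) ω}) ≤
      ENNReal.ofReal (θ / ((K + 1) * (n * √n))) := by
    intro j hj
    have hjr : (j : ℝ) ≤ K := by exact_mod_cast hj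
    have hle : (δ + j * ((1 - 2 * δ) / K)) ≤ 1 - δ := by
      have : j * ((1 - 2 * δ) / K) ≤ 1 - 2 * δ := by
        rw [mul_div_assoc', div_le_iff₀ (by linarith)]
        nlinarith
      linarith
    have hnn : 0 ≤ (δ + j * ((1 - 2 * δ) / K)) := by
      have : 0 ≤ (1 - 2 * δ) / K := div_nonneg (by linarith) (by linarith)
      positivity
    have hgr : ((gi n δ K j : ℕ) : ℝ) ≤ (1 - δ) * n := by
      unfold gi
      refine (Nat.floor_le (by positivity)).trans ?_
      exact mul_le_mul_of_nonneg_right hle (by linarith)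
    generalize gi n δ K j = i at hgr ⊢
    have hin : (i : ℝ) + 1 ≤ n := by nlinarith
    have hin' : i + 1 ≤ n := by exact_mod_cast hin
    obtain ⟨m, rfl⟩ : ∃ m, n = i + m := ⟨n - i, by omega⟩
    have hm : 1 ≤ m := by omega
    have hmr : δ * ((i + m : ℕ) : ℝ) ≤ m := by
      push_cast at hgr ⊢
      linarith
    have hm0 : (0 : ℝ) < m := by exact_mod_cast hm
    have hset : {ω : ℕ → ℝ × ℝ | R * √((i + m : ℕ) : ℝ) ≤ nz σ i ω} =
        {ω | nz σ i ω ∈ Set.Ici (R * √((i + m : ℕ) : ℝ))} := rfl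
    rw [hset, F8c_markov hD hQ i m hm _ measurableSet_Ici]
    have hpos : 0 < R * √((i + m : ℕ) : ℝ) := by positivity
    set n' : ℝ := ((i + m : ℕ) : ℝ) with hn'
    calc ∫⁻ y in Set.Ici (R * √n'), ENNReal.ofReal (hit D (stepLaw μ ν σ) m y)
          ∂(kap D (stepLaw μ ν σ) i 0)
        ≤ ∫⁻ y in Set.Ici (R * √n'), ENNReal.ofReal (C₁ / (m * (R ^ 2 * n'))) *
            ENNReal.ofReal (y ^ 2) ∂(kap D (stepLaw μ ν σ) i 0) := by
          refine setLIntegral_mono' measurableSet_Ici fun y hy => ?_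
          rw [← ENNReal.ofReal_mul (by positivity)]
          apply ENNReal.ofReal_le_ofReal
          have hy0 : R * √n' ≤ y := hy
          have hy1 : 0 ≤ y := hpos.le.trans hy0
          refine ((hhit m hm y hy1).2.1).trans ?_
          have h3 : R ^ 2 * n' ≤ y ^ 2 := by
            have : (R * √n') ^ 2 ≤ y ^ 2 := by
              apply pow_le_pow_left₀ hpos.le hy0
            rwa [mul_pow, Real.sq_sqrt (by linarith)] at this
          have h4 : 0 < R ^ 2 * n' := by positivity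
          rw [div_mul_eq_mul_div, div_le_div_iff₀ hm0 (by positivity)]
          have h5 : C₁ * (m * (R ^ 2 * n')) = (C₁ * m) * (R ^ 2 * n') := by ring
          have h6 : C₁ * y ^ 2 * m = (C₁ * m) * y ^ 2 := by ring
          rw [h5, h6]
          exact mul_le_mul_of_nonneg_left h3 (by positivity)
      _ ≤ ∫⁻ y, ENNReal.ofReal (C₁ / (m * (R ^ 2 * n'))) *
            ENNReal.ofReal (y ^ 2) ∂(kap D (stepLaw μ ν σ) i 0) := setLIntegral_le_lintegral _ _
      _ = ENNReal.ofReal (C₁ / (m * (R ^ 2 * n'))) *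
            ∫⁻ y, ENNReal.ofReal (y ^ 2) ∂(kap D (stepLaw μ ν σ) i 0) := by
          rw [lintegral_const_mul]
          exact (measurable_id.pow_const 2).ennreal_ofReal
      _ ≤ ENNReal.ofReal (C₁ / (m * (R ^ 2 * n'))) *
            ENNReal.ofReal (0 ^ 2 + C₂ * (1 + 0) * √i) := by
          gcongr
          exact (hmom i 0 le_rfl).1
      _ = ENNReal.ofReal (C₁ / (m * (R ^ 2 * n')) * (0 ^ 2 + C₂ * (1 + 0) * √i)) := by
          rw [ENNReal.ofReal_mul (by positivity)]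
      _ ≤ ENNReal.ofReal (θ / ((K + 1) * (n' * √n'))) := by
          apply ENNReal.ofReal_le_ofReal
          have hs : √(i : ℝ) ≤ √n' := Real.sqrt_le_sqrt (by rw [hn']; push_cast; linarith)
          have hn'0 : 0 < n' := by linarith
          have hss : √n' * √n' = n' := Real.mul_self_sqrt hn'0.le
          have h1 : C₁ / (m * (R ^ 2 * n')) ≤ C₁ / (δ * n' * (R ^ 2 * n')) := by
            apply div_le_div_of_nonneg_left hC₁.le (by positivity)
            exact mul_le_mul_of_nonneg_right hmr (by positivity)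
          have h2 : 0 ^ 2 + C₂ * (1 + 0) * √(i : ℝ) ≤ C₂ * √n' := by
            have := mul_le_mul_of_nonneg_left hs hC₂.le
            linarith
          have h3 : C₁ / (m * (R ^ 2 * n')) * (0 ^ 2 + C₂ * (1 + 0) * √(i : ℝ)) ≤
              C₁ / (δ * n' * (R ^ 2 * n')) * (C₂ * √n') :=
            mul_le_mul h1 h2 (by positivity) (by positivity)
          refine h3.trans ?_
          have hR2 : (K + 1) * C₁ * C₂ ≤ R ^ 2 * (δ * θ) := by
            have h4 : (K + 1) * C₁ * C₂ / (δ * θ) ≤ R ^ 2 := by nlinarith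
            rwa [div_le_iff₀ (by positivity)] at h4
          rw [div_mul_eq_mul_div, div_le_div_iff₀ (by positivity) (by positivity)]
          have e1 : C₁ * (C₂ * √n') * ((K + 1) * (n' * √n')) =
              ((K + 1) * C₁ * C₂) * (n' * (√n' * √n')) := by ring
          have e2 : θ * (δ * n' * (R ^ 2 * n')) = (R ^ 2 * (δ * θ)) * (n' * n') := by ring
          rw [e1, e2, hss]
          exact mul_le_mul_of_nonneg_right hR2 (by positivity)
  have hsub : EvN D n ∩ {ω | ∃ j ≤ K, R * √n ≤ nz σ (gi n δ K j) ω} ⊆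
      ⋃ j ∈ Finset.range (K + 1), (EvN D n ∩ {ω | R * √n ≤ nz σ (gi n δ K j) ω}) := by
    rintro ω ⟨h1, j, hj, h2⟩
    simp only [Set.mem_iUnion, Finset.mem_range]
    exact ⟨j, by omega, h1, h2⟩
  refine (measure_mono hsub).trans ?_
  refine (measure_biUnion_finset_le _ _).trans ?_
  refine (Finset.sum_le_sum fun j hj => key j (by
    have := Finset.mem_range.1 hj
    omega)).trans ?_
  rw [Finset.sum_const, Finset.card_range, nsmul_eq_mul,
    show ((K + 1 : ℕ) : ℝ≥0∞) = ENNReal.ofReal ((K : ℝ) + 1) by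
      rw [ENNReal.ofReal_add (by positivity) (by norm_num)]
      simp,
    ← ENNReal.ofReal_mul (by positivity)]
  apply ENNReal.ofReal_le_ofReal
  apply le_of_eq
  field_simp

end Pool.Agent.BPT
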