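import Pool.Agent.MP_99a865_pr.FV.F2
import Pool.Agent.MP_99a865_pr.FV.A12c
import Pool.Agent.MP_99a865_pr.FV.A12d

open MeasureTheory ProbabilityTheory Filter Topology
open scoped ENNReal NNReal

namespace Pool.Agent.BPT

variable {D : Set ℝ} {μ ν : Measure ℝ} {σ : ℝ}

theorem F8d_nz_dep (i : ℕ) (ω ω' : ℕ → ℝ × ℝ) (h : ∀ j < i, ω j = ω' j) :
    nz σ i ω = nz σ i ω' := by
  unfold nz Zw Dp Ar
  have h1 : ∑ j ∈ Finset.range i, (ω j).2 = ∑ j ∈ Finset.range i, (ω' j).2 :=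
    Finset.sum_congr rfl fun j hj => by rw [h j (Finset.mem_range.1 hj)]
  have h2 : ∑ j ∈ Finset.range i, (ω j).1 = ∑ j ∈ Finset.range i, (ω' j).1 :=
    Finset.sum_congr rfl fun j hj => by rw [h j (Finset.mem_range.1 hj)]
  rw [h1, h2]

/-- First time `i ≥ s` with `nz i ≥ a`. -/
def F8d_A (σ a : ℝ) (s i : ℕ) : Set (ℕ → ℝ × ℝ) :=
  {ω | (∀ j, s ≤ j → j < i → nz σ j ω < a) ∧ a ≤ nz σ i ω}

theorem F8d_A_meas (σ a : ℝ) (s i : ℕ) : MeasurableSet (F8d_A σ a s i) := by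
  unfold F8d_A
  rw [Set.ofPred_and]
  refine MeasurableSet.inter ?_ (measurableSet_le measurable_const (measurable_nz i))
  simp only [Set.ofPred_forall]
  refine MeasurableSet.iInter fun j => MeasurableSet.iInter fun _ => MeasurableSet.iInter fun _ => ?_
  exact measurableSet_lt (measurable_nz j) measurable_const

theorem F8d_A_dep (σ a : ℝ) (s i : ℕ) (ω ω' : ℕ → ℝ × ℝ) (h : ∀ j < i, ω j = ω' j) :
    ω ∈ F8d_A σ a s i ↔ ω' ∈ F8d_A σ a s i := by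
  have h1 : ∀ j ≤ i, nz σ j ω = nz σ j ω' := fun j hj =>
    F8d_nz_dep j ω ω' fun l hl => h l (by omega)
  unfold F8d_A
  simp only [Set.mem_ofPred_eq]
  rw [h1 i le_rfl]
  refine and_congr_left fun _ => ?_
  constructor
  · intro H j hj hj'
    rw [← h1 j hj'.le]
    exact H j hj hj'
  · intro H j hj hj'
    rw [h1 j hj'.le]
    exact H j hj hj'

theorem F8d_markov (hD : Dom D) (hQ : QStd μ ν σ) (a : ℝ) (s i m : ℕ) (hm : 1 ≤ m) :
    PQ μ ν (EvN D (i + m) ∩ F8d_A σ a s i) =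
      ∫⁻ ω in {ω | AliveQ D i ω} ∩ F8d_A σ a s i,
        ENNReal.ofReal (hit D (stepLaw μ ν σ) m (nz σ i ω)) ∂(PQ μ ν) := by
  have := hQ.probμ
  have := hQ.probν
  have := hQ.std.prob
  have hmeas := F8d_A_meas σ a s i
  have h1 := q_markov hD hQ i m hm ((F8d_A σ a s i).indicator fun _ => 1)
    (measurable_const.indicator hmeas) (by
      intro ω ω' h
      have := F8d_A_dep σ a s i ω ω' h
      by_cases h1 : ω ∈ F8d_A σ a s i
      · have h2 : ω' ∈ F8d_A σ a s i := by rwa [← this]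
        simp [Set.indicator, h1, h2]
      · have h2 : ω' ∉ F8d_A σ a s i := by rwa [← this]
        simp [Set.indicator, h1, h2])
  rw [lintegral_indicator hmeas, Measure.restrict_restrict hmeas, setLIntegral_const, one_mul] at h1
  rw [Set.inter_comm, h1, Set.inter_comm _ (F8d_A σ a s i), ← Measure.restrict_restrict hmeas,
    ← lintegral_indicator hmeas]
  refine lintegral_congr fun ω => ?_
  by_cases h1 : ω ∈ F8d_A σ a s i <;> simp [Set.indicator, h1]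

theorem F8d_half {n m : ℝ} (hn : 1 ≤ n) (h : n / 2 ≤ m) : n * √n ≤ 3 * (m * √m) := by
  have hm : 0 < m := by linarith
  have h1 : √n ≤ √(2 * m) := Real.sqrt_le_sqrt (by linarith)
  have h2 : √(2 * m) = √2 * √m := Real.sqrt_mul (by norm_num) m
  have h3 : √2 ≤ 3 / 2 := by
    rw [show (3 / 2 : ℝ) = √((3 / 2) ^ 2) by rw [Real.sqrt_sq (by norm_num)]]
    exact Real.sqrt_le_sqrt (by norm_num)
  have hs : 0 ≤ √m := Real.sqrt_nonneg _
  calc n * √n ≤ (2 * m) * (3 / 2 * √m) := by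
        apply mul_le_mul (by linarith) _ (Real.sqrt_nonneg _) (by linarith)
        rw [h2] at h1
        exact h1.trans (mul_le_mul_of_nonneg_right h3 hs)
    _ = 3 * (m * √m) := by ring

theorem F8d_left (hD : Dom D) (hQ : QStd μ ν σ) : ∀ ε > (0 : ℝ), ∀ θ > (0 : ℝ), ∃ δ₀ > (0 : ℝ),
    ∀ δ : ℝ, 0 < δ → δ ≤ δ₀ → ∃ n₀ : ℕ, ∀ n ≥ n₀,
      PQ μ ν (EvN D n ∩ {ω | ∃ i < n, ((i : ℝ) ≤ δ * n) ∧ ε * √n ≤ nz σ i ω}) ≤
        ENNReal.ofReal (θ / (n * √n)) := by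
  have := hQ.probμ
  have := hQ.probν
  have := hQ.std.prob
  intro ε hε θ hθ
  obtain ⟨C, hC, hhit⟩ := hit_bound hD hQ.std
  obtain ⟨δ', hδ', a₀, ha₀, hle⟩ := left_edge hD hQ.std (θ / (3 * C)) (by positivity)
  refine ⟨min (δ' * ε ^ 2) (1 / 2), by positivity, fun δ hδ hδ1 => ⟨⌈(a₀ / ε) ^ 2⌉₊ + 1, fun n hn => ?_⟩⟩
  have hδ2 : δ ≤ δ' * ε ^ 2 := hδ1.trans (min_le_left _ _)
  have hδ3 : δ ≤ 1 / 2 := hδ1.trans (min_le_right _ _)
  have hn1 : 1 ≤ n := by omega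
  have hnr : (1 : ℝ) ≤ n := by exact_mod_cast hn1
  have hna : (a₀ / ε) ^ 2 ≤ n := by
    have h1 := Nat.le_ceil ((a₀ / ε) ^ 2)
    have h2 : ((⌈(a₀ / ε) ^ 2⌉₊ : ℕ) : ℝ) ≤ n := by
      exact_mod_cast (by omega : ⌈(a₀ / ε) ^ 2⌉₊ ≤ n)
    linarith
  have hsn : 0 < √(n : ℝ) := Real.sqrt_pos.2 (by linarith)
  have ha : a₀ ≤ ε * √n := by
    have h1 : a₀ / ε ≤ √n := by
      rw [show a₀ / ε = √((a₀ / ε) ^ 2) by rw [Real.sqrt_sq (by positivity)]]
      exact Real.sqrt_le_sqrt hna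
    rw [div_le_iff₀ hε] at h1
    linarith
  set a : ℝ := ε * √n with hadef
  have ha0 : 0 < a := by positivity
  have ha2 : a ^ 2 = ε ^ 2 * n := by rw [hadef, mul_pow, Real.sq_sqrt (by linarith)]
  set k : ℕ := ⌊δ * n⌋₊ with hk
  have hkr : (k : ℝ) ≤ δ * n := Nat.floor_le (by positivity)
  have hka : (k : ℝ) ≤ δ' * a ^ 2 := by
    rw [ha2]
    nlinarith
  have hmain := hle a ha k hka
  -- one term
  have key : ∀ i ∈ Finset.Icc 1 k, PQ μ ν (EvN D n ∩ F8d_A σ a 1 i) ≤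
      ENNReal.ofReal (3 * C / (n * √n)) * ∫⁻ ω in {ω | Alive D 0 i ω ∧
        (∀ j, 1 ≤ j → j < i → S j ω < a) ∧ a ≤ S i ω}, ENNReal.ofReal (1 + S i ω)
          ∂(seqLaw (stepLaw μ ν σ)) := by
    intro i hi
    rw [Finset.mem_Icc] at hi
    have hir : (i : ℝ) ≤ k := by exact_mod_cast hi.2
    have hin : (i : ℝ) ≤ n / 2 := by nlinarith
    have hin' : i < n := by
      have : (i : ℝ) < n := by linarith
      exact_mod_cast this
    have hset : MeasurableSet {ω : ℕ → ℝ | Alive D 0 i ω ∧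
        (∀ j, 1 ≤ j → j < i → S j ω < a) ∧ a ≤ S i ω} := by
      rw [Set.ofPred_and, Set.ofPred_and]
      refine (measurableSet_alive hD 0 i).inter (MeasurableSet.inter ?_
        (measurableSet_le measurable_const (measurable_S i)))
      simp only [Set.ofPred_forall]
      refine MeasurableSet.iInter fun j => MeasurableSet.iInter fun _ =>
        MeasurableSet.iInter fun _ => ?_
      exact measurableSet_lt (measurable_S j) measurable_const
    have hms : (i : ℝ) ≤ (n : ℝ) / 2 := hin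
    obtain ⟨m, hm⟩ : ∃ m, n = i + m := ⟨n - i, by omega⟩
    have hm1 : 1 ≤ m := by omega
    have hmr : (n : ℝ) / 2 ≤ m := by
      have : (n : ℝ) = i + m := by exact_mod_cast hm
      linarith
    have hm0 : (0 : ℝ) < m := by exact_mod_cast hm1
    have hmf : Measurable fun η : ℕ → ℝ => ENNReal.ofReal (1 + S i η) :=
      ((measurable_S i).const_add 1).ennreal_ofReal
    rw [← map_steps hQ, setLIntegral_map hset hmf measurable_steps]
    have hpre : (steps σ) ⁻¹' {ω : ℕ → ℝ | Alive D 0 i ω ∧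
        (∀ j, 1 ≤ j → j < i → S j ω < a) ∧ a ≤ S i ω} = {ω | AliveQ D i ω} ∩ F8d_A σ a 1 i := by
      ext ω
      simp only [Set.mem_preimage, Set.mem_ofPred_eq, Set.mem_inter_iff, F8d_A,
        aliveQ_iff hD hQ.pos, nz_eq]
    have hmg : Measurable fun x : ℕ → ℝ × ℝ => ENNReal.ofReal (1 + S i (steps σ x)) :=
      hmf.comp measurable_steps
    rw [hpre, hm, F8d_markov hD hQ a 1 i m hm1, ← hm, ← lintegral_const_mul _ hmg]
    refine setLIntegral_mono' ((measurableSet_aliveQ hD i).inter (F8d_A_meas σ a 1 i))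
      fun ω hω => ?_
    have hai : a ≤ nz σ i ω := hω.2.2
    have h0 : 0 ≤ nz σ i ω := ha0.le.trans hai
    rw [← ENNReal.ofReal_mul (by positivity), ← nz_eq]
    apply ENNReal.ofReal_le_ofReal
    refine ((hhit m hm1 _ h0).1).trans ?_
    have h3 := F8d_half hnr hmr
    rw [div_mul_eq_mul_div, div_le_div_iff₀ (by positivity) (by positivity)]
    have h4 : 0 ≤ C * (1 + nz σ i ω) := by positivity
    nlinarith [mul_le_mul_of_nonneg_left h3 h4]
  have hsub : EvN D n ∩ {ω | ∃ i < n, ((i : ℝ) ≤ δ * n) ∧ a ≤ nz σ i ω} ⊆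
      ⋃ i ∈ Finset.Icc 1 k, (EvN D n ∩ F8d_A σ a 1 i) := by
    classical
    rintro ω ⟨h1, i, hi, h2, h3⟩
    simp only [Set.mem_iUnion, Finset.mem_Icc]
    have hex : ∃ l, a ≤ nz σ l ω := ⟨i, h3⟩
    have hf := Nat.find_spec hex
    have hfi : Nat.find hex ≤ i := Nat.find_min' hex h3
    refine ⟨Nat.find hex, ⟨?_, ?_⟩, h1, ?_, hf⟩
    · by_contra h0
      have h0' : Nat.find hex = 0 := by omega
      rw [h0'] at hf
      have : nz σ 0 ω = 0 := by simp [nz, Zw, Dp, Ar]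
      rw [this] at hf
      linarith
    · have h4 : i ≤ k := Nat.le_floor h2
      omega
    · intro j _ hj
      exact not_le.1 (Nat.find_min hex hj)
  refine (measure_mono hsub).trans ?_
  refine (measure_biUnion_finset_le _ _).trans ?_
  refine (Finset.sum_le_sum key).trans ?_
  rw [← Finset.mul_sum]
  refine (mul_le_mul_right hmain _).trans ?_
  rw [← ENNReal.ofReal_mul (by positivity)]
  apply ENNReal.ofReal_le_ofReal
  apply le_of_eq
  field_simp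

theorem F8d_right (hD : Dom D) (hQ : QStd μ ν σ) : ∀ ε > (0 : ℝ), ∀ θ > (0 : ℝ), ∃ δ₀ > (0 : ℝ),
    ∀ δ : ℝ, 0 < δ → δ ≤ δ₀ → ∃ n₀ : ℕ, ∀ n ≥ n₀,
      PQ μ ν (EvN D n ∩ {ω | ∃ i < n, ((1 - δ) * n ≤ i) ∧ ε * √n ≤ nz σ i ω}) ≤
        ENNReal.ofReal (θ / (n * √n)) := by
  have := hQ.probμ
  have := hQ.probν
  have := hQ.std.prob
  intro ε hε θ hθ
  obtain ⟨C, hC, hsurv⟩ := surv hD hQ.std
  obtain ⟨δ', hδ', y₀, hy₀, hsm⟩ := hit_small hD hQ.std (θ * ε ^ 2 / (2 * C)) (by positivity)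
  refine ⟨min (δ' * ε ^ 2) (1 / 2), by positivity, fun δ hδ hδ1 => ⟨⌈(y₀ / ε) ^ 2⌉₊ + 1, fun n hn => ?_⟩⟩
  have hδ2 : δ ≤ δ' * ε ^ 2 := hδ1.trans (min_le_left _ _)
  have hδ3 : δ ≤ 1 / 2 := hδ1.trans (min_le_right _ _)
  have hn1 : 1 ≤ n := by omega
  have hnr : (1 : ℝ) ≤ n := by exact_mod_cast hn1
  have hna : (y₀ / ε) ^ 2 ≤ n := by
    have h1 := Nat.le_ceil ((y₀ / ε) ^ 2)
    have h2 : ((⌈(y₀ / ε) ^ 2⌉₊ : ℕ) : ℝ) ≤ n := by
      exact_mod_cast (by omega : ⌈(y₀ / ε) ^ 2⌉₊ ≤ n)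
    linarith
  have hsn : 0 < √(n : ℝ) := Real.sqrt_pos.2 (by linarith)
  have ha : y₀ ≤ ε * √n := by
    have h1 : y₀ / ε ≤ √n := by
      rw [show y₀ / ε = √((y₀ / ε) ^ 2) by rw [Real.sqrt_sq (by positivity)]]
      exact Real.sqrt_le_sqrt hna
    rw [div_le_iff₀ hε] at h1
    linarith
  set a : ℝ := ε * √n with hadef
  have ha0 : 0 < a := by positivity
  have ha2 : a ^ 2 = ε ^ 2 * n := by rw [hadef, mul_pow, Real.sq_sqrt (by linarith)]
  set s : ℕ := ⌈(1 - δ) * n⌉₊ with hs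
  have hsr : (1 - δ) * n ≤ s := Nat.le_ceil _
  have hs2 : (n : ℝ) / 2 ≤ s := by nlinarith
  have hs1 : 1 ≤ s := by
    by_contra h0
    have h0' : s = 0 := by omega
    rw [h0'] at hs2
    norm_num at hs2
    linarith
  -- one term
  have key : ∀ i ∈ Finset.Ico s n, PQ μ ν (EvN D n ∩ F8d_A σ a s i) ≤
      ENNReal.ofReal (θ / (2 * C * n)) * PQ μ ν ({ω | AliveQ D i ω} ∩ F8d_A σ a s i) := by
    intro i hi
    rw [Finset.mem_Ico] at hi
    have hir : (s : ℝ) ≤ i := by exact_mod_cast hi.1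
    obtain ⟨m, hm⟩ : ∃ m, n = i + m := ⟨n - i, by omega⟩
    have hm1 : 1 ≤ m := by omega
    have hmr : (m : ℝ) ≤ δ * n := by
      have : (n : ℝ) = i + m := by exact_mod_cast hm
      nlinarith
    rw [hm, F8d_markov hD hQ a s i m hm1, ← hm, ← setLIntegral_const]
    refine setLIntegral_mono' ((measurableSet_aliveQ hD i).inter (F8d_A_meas σ a s i))
      fun ω hω => ?_
    have hai : a ≤ nz σ i ω := hω.2.2
    have h0 : 0 < nz σ i ω := ha0.trans_le hai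
    have haa : a ^ 2 ≤ (nz σ i ω) ^ 2 := pow_le_pow_left₀ ha0.le hai 2
    apply ENNReal.ofReal_le_ofReal
    have h5 : (m : ℝ) ≤ δ' * (nz σ i ω) ^ 2 := by
      have h6 : δ * n ≤ δ' * a ^ 2 := by
        rw [ha2]
        nlinarith
      nlinarith [mul_le_mul_of_nonneg_left haa hδ'.le]
    refine (hsm _ (ha.trans hai) m hm1 h5).trans ?_
    have h7 : θ * ε ^ 2 / (2 * C) / (nz σ i ω) ^ 2 ≤ θ * ε ^ 2 / (2 * C) / a ^ 2 := by
      apply div_le_div_of_nonneg_left (by positivity) (by positivity) haa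
    refine h7.trans (le_of_eq ?_)
    rw [ha2]
    field_simp
  have hdisj : Set.PairwiseDisjoint (↑(Finset.Ico s n)) (fun i => F8d_A σ a s i) := by
    intro i hi j hj hij
    simp only [Finset.coe_Ico, Set.mem_Ico] at hi hj
    rw [Function.onFun, Set.disjoint_left]
    intro ω h1 h2
    rcases lt_or_gt_of_ne hij with h | h
    · exact absurd h1.2 (not_le.2 (h2.1 i hi.1 h))
    · exact absurd h2.2 (not_le.2 (h1.1 j hj.1 h))
  have hsum : ∑ i ∈ Finset.Ico s n, PQ μ ν ({ω | AliveQ D i ω} ∩ F8d_A σ a s i) ≤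
      ENNReal.ofReal (C / √s) := by
    have h1 : ∑ i ∈ Finset.Ico s n, PQ μ ν ({ω | AliveQ D i ω} ∩ F8d_A σ a s i) ≤
        ∑ i ∈ Finset.Ico s n, PQ μ ν ({ω | AliveQ D s ω} ∩ F8d_A σ a s i) := by
      refine Finset.sum_le_sum fun i hi => measure_mono ?_
      rw [Finset.mem_Ico] at hi
      refine Set.inter_subset_inter_left _ fun ω hω => ?_
      exact fun j hj1 hj2 => hω j hj1 (hj2.trans hi.1)
    refine h1.trans ?_
    rw [← measure_biUnion_finset (hdisj.mono fun i => Set.inter_subset_right)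
      (fun i _ => (measurableSet_aliveQ hD s).inter (F8d_A_meas σ a s i))]
    refine (measure_mono (Set.iUnion₂_subset fun i _ => Set.inter_subset_left)).trans ?_
    have h2 := lintegral_alive (σ := σ) hD hQ s (fun _ => 1) measurable_const
    rw [setLIntegral_const, one_mul, lintegral_const, one_mul] at h2
    rw [h2]
    have h3 := hsurv s hs1 0 le_rfl
    have h4 : kap D (stepLaw μ ν σ) s 0 Set.univ ≠ ⊤ :=
      ne_top_of_le_ne_top ENNReal.one_ne_top (kap_univ_le_one s 0)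
    rw [← ENNReal.ofReal_toReal h4]
    apply ENNReal.ofReal_le_ofReal
    have h5 : (kap D (stepLaw μ ν σ) s 0 Set.univ).toReal ≤ C * (1 + 0) / √s := h3
    linarith [show C * (1 + 0) / √(s : ℝ) = C / √s by ring]
  have hsub : EvN D n ∩ {ω | ∃ i < n, ((1 - δ) * n ≤ i) ∧ a ≤ nz σ i ω} ⊆
      ⋃ i ∈ Finset.Ico s n, (EvN D n ∩ F8d_A σ a s i) := by
    classical
    rintro ω ⟨h1, i, hi, h2, h3⟩
    simp only [Set.mem_iUnion, Finset.mem_Ico]
    have hsi : s ≤ i := Nat.ceil_le.2 h2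
    have hex : ∃ l, s ≤ l ∧ a ≤ nz σ l ω := ⟨i, hsi, h3⟩
    have hf := Nat.find_spec hex
    have hfi : Nat.find hex ≤ i := Nat.find_min' hex ⟨hsi, h3⟩
    refine ⟨Nat.find hex, ⟨hf.1, by omega⟩, h1, ?_, hf.2⟩
    intro j hj1 hj
    by_contra h5
    exact Nat.find_min hex hj ⟨hj1, not_lt.1 h5⟩
  refine (measure_mono hsub).trans ?_
  refine (measure_biUnion_finset_le _ _).trans ?_
  refine (Finset.sum_le_sum key).trans ?_
  rw [← Finset.mul_sum]
  refine (mul_le_mul_right hsum _).trans ?_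
  rw [← ENNReal.ofReal_mul (by positivity)]
  apply ENNReal.ofReal_le_ofReal
  have hs0 : (0 : ℝ) < s := by exact_mod_cast hs1
  have h6 : √(n : ℝ) ≤ 2 * √(s : ℝ) := by
    rw [show (2 : ℝ) * √(s : ℝ) = √(4 * s) by
      rw [Real.sqrt_mul (by norm_num), show √(4 : ℝ) = 2 by
        rw [show (4 : ℝ) = 2 ^ 2 by norm_num, Real.sqrt_sq (by norm_num)]]]
    exact Real.sqrt_le_sqrt (by linarith)
  have hss : 0 < √(s : ℝ) := Real.sqrt_pos.2 hs0
  rw [div_mul_div_comm, div_le_div_iff₀ (by positivity) (by positivity)]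
  have e1 : θ * C * (n * √(n : ℝ)) = (θ * C * n) * √(n : ℝ) := by ring
  have e2 : θ * (2 * C * n * √(s : ℝ)) = (θ * C * n) * (2 * √(s : ℝ)) := by ring
  rw [e1, e2]
  exact mul_le_mul_of_nonneg_left h6 (by positivity)

/-- **[FV-F8d]** The walk is small near the two ends.
PROOF. Left (`i ≤ δn`): decompose by the first `i ≥ 1` with `nz i ≥ ε√n`; by `q_markov` the
probability is `∑_i ∫ 1(first time is i) hit (n-i) (nz i) ≤ (C/(n√n)) ∑_i E[1 + S_i; first, alive]`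
(`hit_bound`), and `left_edge` (`a = ε√n`, `k = ⌊δn⌋ ≤ δ' a²`) bounds the sum by `ε'`.
Right (`i ≥ (1-δ)n`): decompose by the first such `i` with `nz i ≥ ε√n`; the probability is at most
`P(alive at ⌊(1-δ)n⌋) · sup {hit m y : 1 ≤ m ≤ δn + 1, y ≥ ε√n} ≤ (C/√n) · ε'/(ε²n)` (`surv`, `hit_small`). -/
theorem edge_small (hD : Dom D) (hQ : QStd μ ν σ) : ∀ ε > (0 : ℝ), ∀ θ > (0 : ℝ), ∃ δ₀ > (0 : ℝ),
    ∀ δ : ℝ, 0 < δ → δ ≤ δ₀ → ∃ n₀ : ℕ, ∀ n ≥ n₀,
      PQ μ ν (EvN D n ∩ {ω | ∃ i < n, ((i : ℝ) ≤ δ * n ∨ (1 - δ) * n ≤ i) ∧ ε * √n ≤ nz σ i ω}) ≤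
        ENNReal.ofReal (θ / (n * √n)) := by
  intro ε hε θ hθ
  obtain ⟨δ₁, hδ₁, h1⟩ := F8d_left hD hQ ε hε (θ / 2) (by positivity)
  obtain ⟨δ₂, hδ₂, h2⟩ := F8d_right hD hQ ε hε (θ / 2) (by positivity)
  refine ⟨min δ₁ δ₂, lt_min hδ₁ hδ₂, fun δ hδ hδ0 => ?_⟩
  obtain ⟨n₁, h1⟩ := h1 δ hδ (hδ0.trans (min_le_left _ _))
  obtain ⟨n₂, h2⟩ := h2 δ hδ (hδ0.trans (min_le_right _ _))
  refine ⟨max n₁ n₂, fun n hn => ?_⟩
  have h1 := h1 n ((le_max_left _ _).trans hn)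
  have h2 := h2 n ((le_max_right _ _).trans hn)
  have hsub : EvN D n ∩ {ω | ∃ i < n, ((i : ℝ) ≤ δ * n ∨ (1 - δ) * n ≤ i) ∧ ε * √n ≤ nz σ i ω} ⊆
      (EvN D n ∩ {ω | ∃ i < n, ((i : ℝ) ≤ δ * n) ∧ ε * √n ≤ nz σ i ω}) ∪
        (EvN D n ∩ {ω | ∃ i < n, ((1 - δ) * n ≤ i) ∧ ε * √n ≤ nz σ i ω}) := by
    rintro ω ⟨h3, i, hi, h4 | h4, h5⟩
    · exact Or.inl ⟨h3, i, hi, h4, h5⟩
    · exact Or.inr ⟨h3, i, hi, h4, h5⟩
  refine (measure_mono hsub).trans ((measure_union_le _ _).trans ((add_le_add h1 h2).trans ?_))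
  rw [← ENNReal.ofReal_add (by positivity) (by positivity)]
  apply ENNReal.ofReal_le_ofReal
  apply le_of_eq
  ring

end Pool.Agent.BPT
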