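import Pool.Agent.MP_99a865_pr.FV.F1

open MeasureTheory ProbabilityTheory Filter Topology
open scoped ENNReal NNReal

namespace Pool.Agent.BPT

variable {D : Set ℝ} {μ ν : Measure ℝ} {σ : ℝ}

/-- truncation -/
theorem F8e_trunc (hQ : QStd μ ν σ) : ∃ T : ℝ, 1 ≤ T ∧ 3 / 4 ≤ ∫ x, min (max x 0) T ∂μ := by
  have hprob := hQ.probμ
  have hint : Integrable (fun x : ℝ => x) μ := by
    by_contra h
    have h1 := hQ.meanμ
    rw [integral_undef h] at h1
    exact zero_ne_one h1
  have hmax : ∫ x, max x 0 ∂μ = 1 := by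
    rw [← hQ.meanμ]
    apply integral_congr_ae
    have h0 : ∀ᵐ x ∂μ, ¬ x < 0 := by
      rw [ae_iff]
      simp only [not_not]
      exact hQ.nonnegμ
    filter_upwards [h0] with x hx
    exact max_eq_left (not_lt.mp hx)
  have hlim : Tendsto (fun n : ℕ => ∫ x, min (max x 0) (n : ℝ) ∂μ) atTop (𝓝 (∫ x, max x 0 ∂μ)) := by
    apply tendsto_integral_of_dominated_convergence (fun x => |x|)
    · intro n
      exact ((measurable_id.max measurable_const).min measurable_const).aestronglyMeasurable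
    · exact hint.abs
    · intro n
      refine Eventually.of_forall fun x => ?_
      have h1 : 0 ≤ min (max x 0) (n : ℝ) := le_min (le_max_right _ _) (Nat.cast_nonneg n)
      rw [Real.norm_eq_abs, abs_of_nonneg h1]
      exact (min_le_left _ _).trans (max_le (le_abs_self x) (abs_nonneg x))
    · refine Eventually.of_forall fun x => ?_
      apply tendsto_const_nhds.congr'
      obtain ⟨N, hN⟩ := exists_nat_ge (max x 0)
      filter_upwards [eventually_ge_atTop N] with n hn
      exact (min_eq_left (hN.trans (by exact_mod_cast hn))).symm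
  rw [hmax] at hlim
  have h2 : ∀ᶠ n : ℕ in atTop, (3 / 4 : ℝ) < ∫ x, min (max x 0) (n : ℝ) ∂μ :=
    hlim.eventually (lt_mem_nhds (by norm_num))
  obtain ⟨n, hn1, hn2⟩ := (h2.and (eventually_ge_atTop 1)).exists
  exact ⟨n, by exact_mod_cast hn2, hn1.le⟩

/-- exponential moment of the truncated variable -/
theorem F8e_mgf (hQ : QStd μ ν σ) : ∃ l : ℝ, 0 < l ∧ ∃ g : ℝ → ℝ, Measurable g ∧
    (∀ x, 0 ≤ x → g x ≤ x) ∧ (∀ x, 0 ≤ g x) ∧
    ∫ x, Real.exp (-l * g x) ∂μ ≤ Real.exp (-5 * l / 8) := by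
  have hprob := hQ.probμ
  obtain ⟨T, hT, hm⟩ := F8e_trunc hQ
  have hT0 : 0 < T := by linarith
  set l : ℝ := 1 / (4 * T ^ 2) with hl
  have hl0 : 0 < l := by positivity
  have hmeas : Measurable (fun x : ℝ => min (max x 0) T) :=
    (measurable_id.max measurable_const).min measurable_const
  have hg0 : ∀ x : ℝ, 0 ≤ min (max x 0) T := fun x => le_min (le_max_right _ _) hT0.le
  have hgT : ∀ x : ℝ, min (max x 0) T ≤ T := fun x => min_le_right _ _
  refine ⟨l, hl0, fun x => min (max x 0) T, hmeas, ?_, hg0, ?_⟩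
  · intro x hx
    exact (min_le_left _ _).trans (max_le le_rfl hx)
  · have hintg : Integrable (fun x : ℝ => min (max x 0) T) μ := by
      apply Integrable.of_bound hmeas.aestronglyMeasurable T
      refine Eventually.of_forall fun x => ?_
      rw [Real.norm_eq_abs, abs_of_nonneg (hg0 x)]
      exact hgT x
    have hpt : ∀ x : ℝ, Real.exp (-l * min (max x 0) T) ≤
        1 - l * min (max x 0) T + l / 8 := by
      intro x
      set y := min (max x 0) T with hy
      have hy0 : 0 ≤ y := hg0 x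
      have hyT : y ≤ T := hgT x
      have h1 : 0 ≤ l * y := by positivity
      have h2 : l * y ≤ 1 / 4 := by
        calc l * y ≤ l * T := mul_le_mul_of_nonneg_left hyT hl0.le
          _ = 1 / (4 * T) := by rw [hl]; field_simp
          _ ≤ 1 / 4 := by
            apply one_div_le_one_div_of_le (by norm_num)
            linarith
      have h3 : Real.exp (-(l * y)) ≤ 1 - l * y + (l * y) ^ 2 / 2 := by
        have h4 : (1 + l * y + (l * y) ^ 2 / 2) ≤ Real.exp (l * y) :=
          Real.quadratic_le_exp_of_nonneg h1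
        rw [Real.exp_neg]
        have h5 : 0 < 1 + l * y + (l * y) ^ 2 / 2 := by positivity
        calc (Real.exp (l * y))⁻¹ ≤ (1 + l * y + (l * y) ^ 2 / 2)⁻¹ := inv_anti₀ h5 h4
          _ ≤ 1 - l * y + (l * y) ^ 2 / 2 := by
            rw [inv_le_iff_one_le_mul₀ h5]
            nlinarith [sq_nonneg (l * y), sq_nonneg ((l * y) ^ 2)]
      have h6 : (l * y) ^ 2 / 2 ≤ l / 8 := by
        have h7 : (l * y) ^ 2 ≤ (l * T) ^ 2 := by
          apply pow_le_pow_left₀ h1
          exact mul_le_mul_of_nonneg_left hyT hl0.le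
        have h8 : (l * T) ^ 2 = l / 4 := by
          rw [hl]; field_simp
        linarith
      rw [neg_mul]
      linarith
    calc ∫ x, Real.exp (-l * min (max x 0) T) ∂μ
        ≤ ∫ x, (1 - l * min (max x 0) T + l / 8) ∂μ := by
          apply integral_mono_of_nonneg
          · exact Eventually.of_forall fun x => (Real.exp_pos _).le
          · exact ((integrable_const _).sub (hintg.const_mul l)).add (integrable_const _)
          · exact Eventually.of_forall hpt
      _ = 1 - l * ∫ x, min (max x 0) T ∂μ + l / 8 := by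
          have i1 : Integrable (fun x : ℝ => (1 : ℝ) - l * min (max x 0) T) μ :=
            (integrable_const _).sub (hintg.const_mul l)
          rw [integral_add i1 (integrable_const _),
            integral_sub (integrable_const _) (hintg.const_mul l), integral_const_mul]
          simp
      _ ≤ -5 * l / 8 + 1 := by nlinarith
      _ ≤ Real.exp (-5 * l / 8) := Real.add_one_le_exp _

/-- Chernoff bound for one window -/
theorem F8e_one (hQ : QStd μ ν σ) {l : ℝ} (hl : 0 < l) {g : ℝ → ℝ} (hg : Measurable g)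
    (hgx : ∀ x, 0 ≤ x → g x ≤ x) (hg0 : ∀ x, 0 ≤ g x)
    (hm : ∫ x, Real.exp (-l * g x) ∂μ ≤ Real.exp (-5 * l / 8)) (b q : ℕ) :
    PQ μ ν {ω | Ar (b + q) ω - Ar b ω ≤ q / 2} ≤ ENNReal.ofReal (Real.exp (-l * q / 8)) := by
  have hprob := hQ.probμ
  have hprob' := hQ.probν
  let X : ℕ → (ℕ → ℝ × ℝ) → ℝ := fun i ω => g (ω i).1
  have hX : ∀ i, Measurable (X i) := fun i => hg.comp (measurable_fst.comp (measurable_pi_apply i))
  have hind : iIndepFun X (PQ μ ν) := by
    have := iIndepFun_infinitePi (P := fun _ : ℕ => μ.prod ν) (X := fun _ p => g p.1)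
      (fun _ => hg.comp measurable_fst)
    exact this
  have hmgf : ∀ i, mgf (X i) (PQ μ ν) (-l) ≤ Real.exp (-5 * l / 8) := by
    intro i
    have h1 : mgf (X i) (PQ μ ν) (-l) = ∫ x, Real.exp (-l * g x) ∂μ := by
      have h2 : (PQ μ ν).map (fun ω : ℕ → ℝ × ℝ => ω i) = μ.prod ν :=
        Measure.infinitePi_map_eval (fun _ : ℕ => μ.prod ν) i
      have h3 : (μ.prod ν).map Prod.fst = μ := by
        rw [Measure.map_fst_prod]; simp
      have hme : Measurable (fun x : ℝ => Real.exp (-l * g x)) :=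
        Real.measurable_exp.comp (hg.const_mul (-l))
      rw [mgf]
      conv_rhs => rw [← h3, ← h2]
      rw [integral_map measurable_fst.aemeasurable hme.aestronglyMeasurable,
        integral_map (measurable_pi_apply i).aemeasurable
          (hme.comp measurable_fst).aestronglyMeasurable]
    rw [h1]; exact hm
  have hsum : mgf (∑ i ∈ Finset.Ico b (b + q), X i) (PQ μ ν) (-l) ≤
      Real.exp (-5 * l / 8) ^ q := by
    rw [hind.mgf_sum hX]
    calc ∏ i ∈ Finset.Ico b (b + q), mgf (X i) (PQ μ ν) (-l)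
        ≤ ∏ _i ∈ Finset.Ico b (b + q), Real.exp (-5 * l / 8) :=
          Finset.prod_le_prod (fun i _ => mgf_nonneg) (fun i _ => hmgf i)
      _ = Real.exp (-5 * l / 8) ^ q := by
          rw [Finset.prod_const, Nat.card_Ico]; congr 1; omega
  have hint : Integrable (fun ω => Real.exp (-l * (∑ i ∈ Finset.Ico b (b + q), X i) ω))
      (PQ μ ν) := by
    have hms : Measurable (∑ i ∈ Finset.Ico b (b + q), X i) := by
      have h0 : Measurable (fun ω => ∑ i ∈ Finset.Ico b (b + q), X i ω) :=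
        Finset.measurable_sum _ fun i _ => hX i
      have h1 : (∑ i ∈ Finset.Ico b (b + q), X i) =
          fun ω => ∑ i ∈ Finset.Ico b (b + q), X i ω := by
        ext ω; rw [Finset.sum_apply]
      rw [h1]; exact h0
    refine Integrable.of_bound
      (Real.measurable_exp.comp (hms.const_mul (-l))).aestronglyMeasurable 1 ?_
    refine Eventually.of_forall fun ω => ?_
    rw [Real.norm_eq_abs, abs_of_pos (Real.exp_pos _), Real.exp_le_one_iff, Finset.sum_apply]
    have : 0 ≤ ∑ i ∈ Finset.Ico b (b + q), X i ω := Finset.sum_nonneg fun i _ => hg0 _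
    nlinarith
  have hch := measure_le_le_exp_mul_mgf (μ := PQ μ ν) (X := ∑ i ∈ Finset.Ico b (b + q), X i)
    (t := -l) ((q : ℝ) / 2) (by linarith) hint
  have hle : (PQ μ ν).real {ω | (∑ i ∈ Finset.Ico b (b + q), X i) ω ≤ (q : ℝ) / 2} ≤
      Real.exp (-l * q / 8) := by
    calc _ ≤ Real.exp (- -l * ((q : ℝ) / 2)) *
          mgf (∑ i ∈ Finset.Ico b (b + q), X i) (PQ μ ν) (-l) := hch
      _ ≤ Real.exp (- -l * ((q : ℝ) / 2)) * Real.exp (-5 * l / 8) ^ q :=
          mul_le_mul_of_nonneg_left hsum (Real.exp_pos _).le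
      _ = Real.exp (-l * q / 8) := by
          rw [← Real.exp_nat_mul, ← Real.exp_add]
          congr 1; ring
  calc PQ μ ν {ω | Ar (b + q) ω - Ar b ω ≤ q / 2}
      ≤ PQ μ ν {ω | (∑ i ∈ Finset.Ico b (b + q), X i) ω ≤ (q : ℝ) / 2} := by
        apply measure_mono_ae
        filter_upwards [ae_nonneg hQ] with ω hω
        intro h
        have h1 : Ar (b + q) ω - Ar b ω = ∑ i ∈ Finset.Ico b (b + q), (ω i).1 := by
          rw [Ar, Ar, Finset.sum_Ico_eq_sub _ (Nat.le_add_right b q)]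
        change Ar (b + q) ω - Ar b ω ≤ q / 2 at h
        change (∑ i ∈ Finset.Ico b (b + q), X i) ω ≤ (q : ℝ) / 2
        rw [Finset.sum_apply]
        refine le_trans ?_ (h1 ▸ h)
        exact Finset.sum_le_sum fun i _ => hgx _ (hω i).1
    _ = ENNReal.ofReal ((PQ μ ν).real {ω | (∑ i ∈ Finset.Ico b (b + q), X i) ω ≤ (q : ℝ) / 2}) := by
        rw [ofReal_measureReal]
    _ ≤ ENNReal.ofReal (Real.exp (-l * q / 8)) := ENNReal.ofReal_le_ofReal hle

/-- **[FV-F8e]** Arrivals are never much too fast.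
PROOF. Union bound over `b ≤ n`; `Ar (b+q) - Ar b` has the law of `Ar q`, `q = ⌈ε√n⌉`. Truncate:
`E min(u, T) ≥ 3/4` for some `T ≥ 1`; `E e^{-λ min(u,T)} ≤ 1 - 3λ/4 + λ²T²/2 ≤ e^{-5λ/8}` for
`λ = 1/(4T²)`; so `P(Ar q ≤ q/2) ≤ e^{λq/2} e^{-5λq/8} = e^{-λq/8}`. And `ε√n/2 ≤ q/2`.
Finally `(n+1) e^{-λε√n/8} ≤ θ/(n√n)` for `n` large. -/
theorem arrivals_low (hQ : QStd μ ν σ) : ∀ ε > (0 : ℝ), ∀ θ > (0 : ℝ), ∃ n₀ : ℕ, ∀ n ≥ n₀,
    PQ μ ν {ω | ∃ b ≤ n, Ar (b + ⌈ε * √n⌉₊) ω - Ar b ω ≤ ε * √n / 2} ≤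
      ENNReal.ofReal (θ / (n * √n)) := by
  intro ε hε θ hθ
  obtain ⟨l, hl, g, hg, hgx, hg0, hm⟩ := F8e_mgf hQ
  set c : ℝ := l * ε / 8 with hc
  have hc0 : 0 < c := by positivity
  have hlim : Tendsto (fun x : ℝ => x ^ 5 * Real.exp (-(c * x))) atTop (𝓝 0) := by
    have h1 := (Real.tendsto_pow_mul_exp_neg_atTop_nhds_zero 5).comp
      (tendsto_id.const_mul_atTop hc0)
    have h2 := h1.const_mul ((c ^ 5)⁻¹)
    rw [mul_zero] at h2
    refine h2.congr fun x => ?_
    simp only [Function.comp, id]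
    field_simp
  have hlim2 : Tendsto (fun n : ℕ => √(n : ℝ) ^ 5 * Real.exp (-(c * √(n : ℝ)))) atTop (𝓝 0) :=
    hlim.comp (Real.tendsto_sqrt_atTop.comp tendsto_natCast_atTop_atTop)
  have hev : ∀ᶠ n : ℕ in atTop, √(n : ℝ) ^ 5 * Real.exp (-(c * √(n : ℝ))) < θ / 2 :=
    hlim2.eventually (gt_mem_nhds (by positivity))
  obtain ⟨n₀, hn₀⟩ := eventually_atTop.mp (hev.and (eventually_ge_atTop 1))
  refine ⟨n₀, fun n hn => ?_⟩
  obtain ⟨h1, h2⟩ := hn₀ n hn
  have hn1 : (1 : ℝ) ≤ n := by exact_mod_cast h2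
  have hs0 : 0 < √(n : ℝ) := Real.sqrt_pos.mpr (by linarith)
  have hsq : √(n : ℝ) ^ 2 = n := Real.sq_sqrt (by linarith)
  set q := ⌈ε * √(n : ℝ)⌉₊ with hq
  have hqge : ε * √(n : ℝ) ≤ q := Nat.le_ceil _
  calc PQ μ ν {ω | ∃ b ≤ n, Ar (b + q) ω - Ar b ω ≤ ε * √n / 2}
      ≤ PQ μ ν (⋃ b ∈ Finset.range (n + 1), {ω | Ar (b + q) ω - Ar b ω ≤ q / 2}) := by
        apply measure_mono
        rintro ω ⟨b, hb, h⟩
        simp only [Set.mem_iUnion]
        refine ⟨b, Finset.mem_range.mpr (by omega), ?_⟩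
        change Ar (b + q) ω - Ar b ω ≤ q / 2
        linarith
    _ ≤ ∑ b ∈ Finset.range (n + 1), PQ μ ν {ω | Ar (b + q) ω - Ar b ω ≤ q / 2} :=
        measure_biUnion_finset_le _ _
    _ ≤ ∑ _b ∈ Finset.range (n + 1), ENNReal.ofReal (Real.exp (-l * q / 8)) :=
        Finset.sum_le_sum fun b _ => F8e_one hQ hl hg hgx hg0 hm b q
    _ = ENNReal.ofReal ((n + 1) * Real.exp (-l * q / 8)) := by
        rw [Finset.sum_const, Finset.card_range, nsmul_eq_mul,
          ENNReal.ofReal_mul (by positivity)]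
        congr 1
        rw [ENNReal.ofReal_add (by positivity) (by norm_num)]
        simp
    _ ≤ ENNReal.ofReal (θ / (n * √n)) := by
        apply ENNReal.ofReal_le_ofReal
        have h3 : Real.exp (-l * q / 8) ≤ Real.exp (-(c * √(n : ℝ))) := by
          apply Real.exp_le_exp.mpr
          rw [hc]
          have := mul_le_mul_of_nonneg_left hqge hl.le
          nlinarith
        rw [le_div_iff₀ (by positivity)]
        have h4 : ((n : ℝ) + 1) ≤ 2 * √(n : ℝ) ^ 2 := by rw [hsq]; linarith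
        calc ((n : ℝ) + 1) * Real.exp (-l * q / 8) * (n * √n)
            ≤ (2 * √(n : ℝ) ^ 2) * Real.exp (-(c * √(n : ℝ))) * (√(n : ℝ) ^ 2 * √n) := by
              rw [hsq]
              gcongr
              rw [hsq] at h4; exact h4
          _ = 2 * (√(n : ℝ) ^ 5 * Real.exp (-(c * √(n : ℝ)))) := by ring
          _ ≤ θ := by linarith

end Pool.Agent.BPT
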