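import Pool.Agent.MP_99a865_pr.FV.F1

open MeasureTheory ProbabilityTheory Filter Topology
open scoped ENNReal NNReal

namespace Pool.Agent.BPT

variable {D : Set ℝ} {μ ν : Measure ℝ} {σ : ℝ}

theorem F9c_sum_blocks (f : ℕ → ℝ) (g : ℕ → ℕ) (hg : Monotone g) (m : ℕ) :
    ∑ j ∈ Finset.range m, ∑ i ∈ Finset.Ico (g j) (g (j + 1)), f i = ∑ i ∈ Finset.Ico (g 0) (g m), f i := by
  induction m with
  | zero => simp
  | succ m ih =>
    rw [Finset.sum_range_succ, ih]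
    exact Finset.sum_Ico_consecutive f (hg (Nat.zero_le m)) (hg (Nat.le_succ m))

theorem F9c_sum_split (f : ℕ → ℝ) (g : ℕ → ℕ) (hg : Monotone g) (K n : ℕ) (hn : g K ≤ n) :
    ∑ i ∈ Finset.range n, f i = ∑ i ∈ Finset.Ico 0 (g 0), f i +
      ∑ j ∈ Finset.range K, ∑ i ∈ Finset.Ico (g j) (g (j + 1)), f i + ∑ i ∈ Finset.Ico (g K) n, f i := by
  rw [F9c_sum_blocks f g hg, Finset.sum_Ico_consecutive f (Nat.zero_le _) (hg (Nat.zero_le K)),
    Finset.sum_Ico_consecutive f (Nat.zero_le _) hn, Finset.range_eq_Ico]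

theorem F9c_nz_nonneg (hD : Dom D) (hσ : 0 < σ) {n : ℕ} {ω : ℕ → ℝ × ℝ} (hN : ω ∈ EvN D n) {i : ℕ}
    (hi : i < n) : 0 ≤ nz σ i ω := by
  unfold nz
  apply div_nonneg _ hσ.le
  rcases Nat.eq_zero_or_pos i with h | h
  · subst h
    simp [Zw, Dp, Ar]
  · exact hD.nonneg (hN.2.1 i h (by omega))

theorem F9c_gi_mono (n : ℕ) {δ : ℝ} (hδ : 0 < δ) (hδ1 : δ ≤ 1 / 16) (K : ℕ) : Monotone (gi n δ K) := by
  intro j k hjk
  unfold gi
  apply Nat.floor_mono
  have h1 : (j : ℝ) ≤ k := by exact_mod_cast hjk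
  have h2 : 0 ≤ (1 - 2 * δ) / K := by
    apply div_nonneg (by linarith) (by positivity)
  have h3 : (0 : ℝ) ≤ n := by positivity
  apply mul_le_mul_of_nonneg_right _ h3
  nlinarith

/-- **[FV-F9c]** Area. PROOF. In window `j` all `nz i` are within `ε√n` of `nz g_j < R√n`, and
`|L_j - κn| ≤ 1`; outside `[g_0, g_K)`, `0 ≤ nz i ≤ ε√n`; at most `4δn + 2` indices. So
`|Area/(n√n) - YA| ≤ ε + K(R+1)/n + (4δ + 2/n) ε ≤ 3ε` for `n ≥ n₀`. -/
theorem area_det (hD : Dom D) (hσ : 0 < σ) {δ ε R : ℝ} (hδ : 0 < δ) (hδ1 : δ ≤ 1 / 16)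
    (hε : 0 < ε) (hε1 : ε ≤ 1) (hR : 1 ≤ R) (K : ℕ)
    (hK : 4 / δ ≤ K) : ∃ n₀ : ℕ, ∀ n ≥ n₀, ∀ ω, ω ∈ EvN D n → Gd σ δ ε K n ω →
    (∀ j ≤ K, nz σ (gi n δ K j) ω < R * √n) →
    (∀ i < n, ((i : ℝ) ≤ 2 * δ * n ∨ (1 - 2 * δ) * n ≤ i) → nz σ i ω < ε * √n) →
    |Area σ n ω / (n * √n) - YA σ δ R K n ω| ≤ 3 * ε := by
  have hKr : (0 : ℝ) < K := lt_of_lt_of_le (by positivity) hK
  obtain ⟨n₀, hn₀⟩ := exists_nat_ge (K * R / ε)
  refine ⟨n₀ + 2, ?_⟩
  intro n hn ω hN hG hRb hend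
  have hn2 : (n₀ : ℝ) + 2 ≤ n := by exact_mod_cast hn
  have hn0 : (0 : ℝ) < n := by
    have : (0 : ℝ) ≤ n₀ := by positivity
    linarith
  have hKR : K * R / n ≤ ε := by
    rw [div_le_iff₀ hn0]
    rw [div_le_iff₀ hε] at hn₀
    nlinarith
  have hδn : 4 ≤ δ * n := by
    have h1 : (K : ℝ) ≤ n₀ := by
      refine le_trans ?_ hn₀
      rw [le_div_iff₀ hε]
      nlinarith
    rw [div_le_iff₀ hδ] at hK
    nlinarith
  have hsq : 0 < √(n : ℝ) := Real.sqrt_pos.2 hn0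
  set κ : ℝ := (1 - 2 * δ) / K with hκ
  have hκ0 : 0 ≤ κ := div_nonneg (by linarith) hKr.le
  have hKκ : K * κ = 1 - 2 * δ := by
    rw [hκ]
    field_simp
  have hgm := F9c_gi_mono n hδ hδ1 K
  have hx : ∀ j : ℕ, 0 ≤ (δ + j * κ) * n := fun j => by positivity
  have hg1 : ∀ j : ℕ, (gi n δ K j : ℝ) ≤ (δ + j * κ) * n := fun j => Nat.floor_le (hx j)
  have hg2 : ∀ j : ℕ, (δ + j * κ) * n < gi n δ K j + 1 := fun j => Nat.lt_floor_add_one _
  have hgK : gi n δ K K < n := by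
    have h1 := hg1 K
    have h2 : (δ + K * κ) * n < n := by
      rw [hKκ]
      nlinarith
    exact_mod_cast lt_of_le_of_lt h1 h2
  have hgj : ∀ j ≤ K, gi n δ K j < n := fun j hj => lt_of_le_of_lt (hgm hj) hgK
  have hnn : ∀ i < n, 0 ≤ nz σ i ω := fun i hi => F9c_nz_nonneg hD hσ hN hi
  -- the blocks
  have hblock : ∀ j ∈ Finset.range K,
      |∑ i ∈ Finset.Ico (gi n δ K j) (gi n δ K (j + 1)), nz σ i ω - κ * n * nz σ (gi n δ K j) ω| ≤
        ((gi n δ K (j + 1) : ℝ) - gi n δ K j) * (ε * √n) + R * √n := by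
    intro j hj
    have hjK := Finset.mem_range.1 hj
    have hle := hgm (Nat.le_succ j)
    have hcast : (((gi n δ K (j + 1)) - (gi n δ K j) : ℕ) : ℝ) = (gi n δ K (j + 1) : ℝ) - gi n δ K j := by
      rw [Nat.cast_sub hle]
    have e1 : |∑ i ∈ Finset.Ico (gi n δ K j) (gi n δ K (j + 1)), nz σ i ω -
        ((gi n δ K (j + 1) : ℝ) - gi n δ K j) * nz σ (gi n δ K j) ω| ≤
        ((gi n δ K (j + 1) : ℝ) - gi n δ K j) * (ε * √n) := by
      have e2 : ((gi n δ K (j + 1) : ℝ) - gi n δ K j) * nz σ (gi n δ K j) ω =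
          ∑ i ∈ Finset.Ico (gi n δ K j) (gi n δ K (j + 1)), nz σ (gi n δ K j) ω := by
        rw [Finset.sum_const, Nat.card_Ico, nsmul_eq_mul, hcast]
      rw [e2, ← Finset.sum_sub_distrib]
      refine (Finset.abs_sum_le_sum_abs _ _).trans ?_
      have e3 : ((gi n δ K (j + 1) : ℝ) - gi n δ K j) * (ε * √n) =
          ∑ i ∈ Finset.Ico (gi n δ K j) (gi n δ K (j + 1)), ε * √n := by
        rw [Finset.sum_const, Nat.card_Ico, nsmul_eq_mul, hcast]
      rw [e3]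
      apply Finset.sum_le_sum
      intro i hi
      rw [Finset.mem_Ico] at hi
      exact (hG j hjK.le i hi.1 hi.2.le).1
    have e4 : |((gi n δ K (j + 1) : ℝ) - gi n δ K j) * nz σ (gi n δ K j) ω -
        κ * n * nz σ (gi n δ K j) ω| ≤ R * √n := by
      rw [← sub_mul, abs_mul]
      have h1 : |(gi n δ K (j + 1) : ℝ) - gi n δ K j - κ * n| ≤ 1 := by
        have a1 := hg1 j
        have a2 := hg2 j
        have a3 := hg1 (j + 1)
        have a4 := hg2 (j + 1)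
        push_cast at a3 a4
        rw [abs_le]
        constructor <;> nlinarith
      have h2 : |nz σ (gi n δ K j) ω| ≤ R * √n := by
        rw [abs_of_nonneg (hnn _ (hgj j hjK.le))]
        exact (hRb j hjK.le).le
      calc |(gi n δ K (j + 1) : ℝ) - gi n δ K j - κ * n| * |nz σ (gi n δ K j) ω| ≤ 1 * (R * √n) := by
            apply mul_le_mul h1 h2 (abs_nonneg _) (by norm_num)
        _ = R * √n := one_mul _
    have := abs_sub_le (∑ i ∈ Finset.Ico (gi n δ K j) (gi n δ K (j + 1)), nz σ i ω)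
      (((gi n δ K (j + 1) : ℝ) - gi n δ K j) * nz σ (gi n δ K j) ω) (κ * n * nz σ (gi n δ K j) ω)
    linarith
  have hsum : |∑ j ∈ Finset.range K, ∑ i ∈ Finset.Ico (gi n δ K j) (gi n δ K (j + 1)), nz σ i ω -
      ∑ j ∈ Finset.range K, κ * n * nz σ (gi n δ K j) ω| ≤
      ((gi n δ K K : ℝ) - gi n δ K 0) * (ε * √n) + K * (R * √n) := by
    rw [← Finset.sum_sub_distrib]
    refine (Finset.abs_sum_le_sum_abs _ _).trans ((Finset.sum_le_sum hblock).trans ?_)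
    rw [Finset.sum_add_distrib, ← Finset.sum_mul, Finset.sum_range_sub (fun j => (gi n δ K j : ℝ)),
      Finset.sum_const, Finset.card_range, nsmul_eq_mul]
  -- the ends
  have hg0 := hg1 0
  have hgK2 := hg2 K
  rw [hKκ] at hgK2
  simp only [Nat.cast_zero, zero_mul, add_zero] at hg0
  have hend1 : 0 ≤ ∑ i ∈ Finset.Ico 0 (gi n δ K 0), nz σ i ω ∧
      ∑ i ∈ Finset.Ico 0 (gi n δ K 0), nz σ i ω ≤ (gi n δ K 0) * (ε * √n) := by
    constructor
    · apply Finset.sum_nonneg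
      intro i hi
      rw [Finset.mem_Ico] at hi
      exact hnn i (lt_trans hi.2 (hgj 0 (Nat.zero_le _)))
    · have e3 : (gi n δ K 0 : ℝ) * (ε * √n) = ∑ i ∈ Finset.Ico 0 (gi n δ K 0), ε * √n := by
        rw [Finset.sum_const, Nat.card_Ico, nsmul_eq_mul, Nat.sub_zero]
      rw [e3]
      apply Finset.sum_le_sum
      intro i hi
      rw [Finset.mem_Ico] at hi
      refine (hend i (lt_trans hi.2 (hgj 0 (Nat.zero_le _))) (Or.inl ?_)).le
      have : (i : ℝ) < gi n δ K 0 := by exact_mod_cast hi.2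
      nlinarith
  have hend2 : 0 ≤ ∑ i ∈ Finset.Ico (gi n δ K K) n, nz σ i ω ∧
      ∑ i ∈ Finset.Ico (gi n δ K K) n, nz σ i ω ≤ ((n : ℝ) - gi n δ K K) * (ε * √n) := by
    constructor
    · apply Finset.sum_nonneg
      intro i hi
      rw [Finset.mem_Ico] at hi
      exact hnn i hi.2
    · have e3 : ((n : ℝ) - gi n δ K K) * (ε * √n) = ∑ i ∈ Finset.Ico (gi n δ K K) n, ε * √n := by
        rw [Finset.sum_const, Nat.card_Ico, nsmul_eq_mul, Nat.cast_sub hgK.le]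
      rw [e3]
      apply Finset.sum_le_sum
      intro i hi
      rw [Finset.mem_Ico] at hi
      refine (hend i hi.2 (Or.inr ?_)).le
      have h1 : (gi n δ K K : ℝ) ≤ i := by exact_mod_cast hi.1
      nlinarith
  have hYA : YA σ δ R K n ω = (∑ j ∈ Finset.range K, κ * n * nz σ (gi n δ K j) ω) / (n * √n) := by
    unfold YA
    rw [Finset.sum_div]
    apply Finset.sum_congr rfl
    intro j hj
    have hjK := (Finset.mem_range.1 hj).le
    rw [min_eq_left]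
    · field_simp
      rw [← hKκ]
      ring
    · rw [div_le_iff₀ hsq]
      exact (hRb j hjK).le
  have hA : Area σ n ω = ∑ i ∈ Finset.Ico 0 (gi n δ K 0), nz σ i ω +
      ∑ j ∈ Finset.range K, ∑ i ∈ Finset.Ico (gi n δ K j) (gi n δ K (j + 1)), nz σ i ω +
      ∑ i ∈ Finset.Ico (gi n δ K K) n, nz σ i ω := F9c_sum_split _ _ hgm K n hgK.le
  rw [hYA, ← sub_div, abs_div, abs_of_pos (by positivity : 0 < (n : ℝ) * √n),
    div_le_iff₀ (by positivity), hA]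
  rw [div_le_iff₀ hn0] at hKR
  have h3 : K * (R * √n) ≤ ε * (n * √n) := by
    have := mul_le_mul_of_nonneg_right hKR hsq.le
    linarith
  have h4 : ((gi n δ K K : ℝ) - gi n δ K 0) * (ε * √n) ≤ ε * (n * √n) := by
    have h5 : (gi n δ K K : ℝ) - gi n δ K 0 ≤ n := by
      have : (gi n δ K K : ℝ) ≤ n := by exact_mod_cast hgK.le
      have : (0 : ℝ) ≤ gi n δ K 0 := by positivity
      linarith
    have := mul_le_mul_of_nonneg_right h5 (by positivity : 0 ≤ ε * √(n : ℝ))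
    linarith
  have h6 : (gi n δ K 0) * (ε * √n) + ((n : ℝ) - gi n δ K K) * (ε * √n) ≤ ε * (n * √n) := by
    have h5 : (gi n δ K 0 : ℝ) + ((n : ℝ) - gi n δ K K) ≤ n := by nlinarith
    have := mul_le_mul_of_nonneg_right h5 (by positivity : 0 ≤ ε * √(n : ℝ))
    linarith
  obtain ⟨s1, s2⟩ := abs_le.1 hsum
  obtain ⟨s3, s4⟩ := hend1
  obtain ⟨s5, s6⟩ := hend2
  rw [abs_le]
  constructor <;> nlinarith

end Pool.Agent.BPT
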