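import Pool.Agent.MP_99a865_pr.FV.F9b
import Pool.Agent.MP_99a865_pr.FV.F9c
import Pool.Agent.MP_99a865_pr.FV.F10m
import Pool.Agent.MP_99a865_pr.FV.F8b
import Pool.Agent.MP_99a865_pr.FV.F8c
import Pool.Agent.MP_99a865_pr.FV.F8d
import Pool.Agent.MP_99a865_pr.FV.F8e

open MeasureTheory ProbabilityTheory Filter Topology
open scoped ENNReal NNReal

namespace Pool.Agent.BPT

variable {D : Set ℝ} {μ ν : Measure ℝ} {σ : ℝ}

/-- **[FV-F10b]** Maximum, width and area, in probability given `N = n`.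
PROOF. `W_det`, `area_det` with `η`, `ε` small (`10(σ+1)ε + 2ση ≤ τ`, `3ε ≤ τ`), `edge_small` (for `2δ`),
`good_windows`, `grid_bounded`, `arrivals_low`, each with `θ = τ/8`. In the part on the area `R ≥ R₀`
with `R₀` from `grid_bounded`. -/
theorem MW_approx (hD : Dom D) (hQ : QStd μ ν σ) : ∀ τ > (0 : ℝ), ∃ δ₀ > (0 : ℝ), ∀ δ : ℝ, 0 < δ →
    δ ≤ δ₀ → ∃ K₀ : ℕ, ∀ K ≥ K₀, ∃ R₀ ≥ (1 : ℝ), ∀ R ≥ R₀, ∃ n₀ : ℕ, ∀ n ≥ n₀,
    PQ μ ν (EvN D n ∩ {ω | ¬ (MG σ δ K n ω ≤ Mx σ n ω ∧ Mx σ n ω ≤ MG σ δ K n ω + τ * √n) ∨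
      (∃ W, IsW D n ω W ∧ τ * √n < |(W : ℝ) - σ * Mx σ n ω|) ∨
      τ < |Area σ n ω / (n * √n) - YA σ δ R K n ω|}) ≤ ENNReal.ofReal (τ / (n * √n)) := by
  intro τ hτ
  have hσ : 0 < σ := hQ.pos
  have hprobμ : IsProbabilityMeasure μ := hQ.probμ
  have hprobν : IsProbabilityMeasure ν := hQ.probν
  set η : ℝ := min 1 (τ / (4 * σ)) with hη
  have hηpos : 0 < η := lt_min one_pos (by positivity)
  have hη1 : η ≤ 1 := min_le_left _ _
  have hη2 : 2 * σ * η ≤ τ / 2 := by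
    have : η ≤ τ / (4 * σ) := min_le_right _ _
    rw [le_div_iff₀ (by positivity)] at this
    linarith
  set ε : ℝ := min (min 1 (τ / (20 * (σ + 1)))) (min (η * σ / (50 * (σ + 1))) η) with hε
  have hεpos : 0 < ε := lt_min (lt_min one_pos (by positivity)) (lt_min (by positivity) hηpos)
  have hε1 : ε ≤ 1 := le_trans (min_le_left _ _) (min_le_left _ _)
  have hε2 : 10 * (σ + 1) * ε ≤ τ / 2 := by
    have : ε ≤ τ / (20 * (σ + 1)) := le_trans (min_le_left _ _) (min_le_right _ _)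
    rw [le_div_iff₀ (by positivity)] at this
    linarith
  have hε3 : ε ≤ η * σ / (50 * (σ + 1)) := le_trans (min_le_right _ _) (min_le_left _ _)
  have hε4 : ε ≤ η := le_trans (min_le_right _ _) (min_le_right _ _)
  have hε5 : 3 * ε ≤ τ := by nlinarith
  have hθ : 0 < τ / 8 := by positivity
  obtain ⟨δe, hδe, hedge⟩ := edge_small hD hQ ε hεpos (τ / 8) hθ
  refine ⟨min (1 / 16) (δe / 2), lt_min (by norm_num) (by positivity), ?_⟩
  intro δ hδ hδ0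
  have hδ1 : δ ≤ 1 / 16 := le_trans hδ0 (min_le_left _ _)
  have hδ2 : 2 * δ ≤ δe := by
    have := le_trans hδ0 (min_le_right _ _)
    linarith
  obtain ⟨n1, h1⟩ := hedge (2 * δ) (by positivity) hδ2
  obtain ⟨K1, hK1⟩ := good_windows hD hQ hδ (by linarith) ε hεpos (τ / 8) hθ
  obtain ⟨K2, hK2⟩ := exists_nat_ge (4 / δ)
  refine ⟨max K1 (max K2 1), ?_⟩
  intro K hK
  have hKa : K1 ≤ K := le_trans (le_max_left _ _) hK
  have hKb : K2 ≤ K := le_trans (le_trans (le_max_left _ _) (le_max_right _ _)) hK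
  have hKc : 1 ≤ K := le_trans (le_trans (le_max_right _ _) (le_max_right _ _)) hK
  have hK4 : 4 / δ ≤ K := le_trans hK2 (by exact_mod_cast hKb)
  obtain ⟨n2, h2⟩ := hK1 K hKa
  obtain ⟨R1, hR1, n3, h3⟩ := grid_bounded hD hQ hδ (by linarith) K hKc (τ / 8) hθ
  refine ⟨R1, hR1, ?_⟩
  intro R hR
  have hR' : 1 ≤ R := le_trans hR1 hR
  obtain ⟨n4, h4⟩ := arrivals_low hQ ε hεpos (τ / 8) hθ
  obtain ⟨n5, h5⟩ := W_det (D := D) hD hσ hδ hδ1 hηpos hη1 hεpos hε3 hε4 hR' K hK4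
  obtain ⟨n6, h6⟩ := area_det (D := D) hD hσ hδ hδ1 hεpos hε1 hR' K hK4
  refine ⟨max n1 (max n2 (max n3 (max n4 (max n5 n6)))), ?_⟩
  intro n hn
  have hn1 : n1 ≤ n := le_trans (le_max_left _ _) hn
  have hn' := le_trans (le_max_right _ _) hn
  have hn2 : n2 ≤ n := le_trans (le_max_left _ _) hn'
  have hn'' := le_trans (le_max_right _ _) hn'
  have hn3 : n3 ≤ n := le_trans (le_max_left _ _) hn''
  have hn3' := le_trans (le_max_right _ _) hn''
  have hn4 : n4 ≤ n := le_trans (le_max_left _ _) hn3'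
  have hn4' := le_trans (le_max_right _ _) hn3'
  have hn5 : n5 ≤ n := le_trans (le_max_left _ _) hn4'
  have hn6 : n6 ≤ n := le_trans (le_max_right _ _) hn4'
  have g1 := h1 n hn1
  have g2 := h2 n hn2
  have g3 := h3 n hn3
  have g4 := h4 n hn4
  have g5 := h5 n hn5
  have g6 := h6 n hn6
  have hsn : 0 ≤ √(n : ℝ) := Real.sqrt_nonneg _
  have hNN : PQ μ ν {ω | ¬ NN ω} = 0 := by
    have := ae_nonneg hQ
    rw [ae_iff] at this
    exact this
  have hsub : EvN D n ∩ {ω | ¬ (MG σ δ K n ω ≤ Mx σ n ω ∧ Mx σ n ω ≤ MG σ δ K n ω + τ * √n) ∨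
      (∃ W, IsW D n ω W ∧ τ * √n < |(W : ℝ) - σ * Mx σ n ω|) ∨
      τ < |Area σ n ω / (n * √n) - YA σ δ R K n ω|} ⊆
      (EvN D n ∩ {ω | ∃ i < n, ((i : ℝ) ≤ (2 * δ) * n ∨ (1 - 2 * δ) * n ≤ i) ∧
          ε * √n ≤ nz σ i ω}) ∪
      ((EvN D n ∩ {ω | ¬ Gd σ δ ε K n ω}) ∪
      ((EvN D n ∩ {ω | ∃ j ≤ K, R1 * √n ≤ nz σ (gi n δ K j) ω}) ∪
      ({ω | ∃ b ≤ n, Ar (b + ⌈ε * √n⌉₊) ω - Ar b ω ≤ ε * √n / 2} ∪ {ω | ¬ NN ω}))) := by
    rintro ω ⟨hE, hbad⟩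
    by_contra hcon
    simp only [Set.mem_union, Set.mem_inter_iff, Set.mem_ofPred_eq, not_or, not_and, not_not,
      not_exists, not_le] at hcon
    obtain ⟨c1, c2, c3, c4, c5⟩ := hcon
    have c2' := c2 hE
    have c3' : ∀ j ≤ K, nz σ (gi n δ K j) ω < R * √n := fun j hj =>
      lt_of_lt_of_le (c3 hE j hj) (mul_le_mul_of_nonneg_right hR hsn)
    have c1' : ∀ i < n, ((i : ℝ) ≤ 2 * δ * n ∨ (1 - 2 * δ) * n ≤ i) → nz σ i ω < ε * √n :=
      fun i hi h => c1 hE i hi h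
    have c4' : ∀ b ≤ n, ε * √n / 2 < Ar (b + ⌈ε * √n⌉₊) ω - Ar b ω := fun b hb => c4 b hb
    obtain ⟨⟨w1, w2⟩, w3⟩ := g5 ω hE c5 c2' c3' c1' c4'
    have w4 := g6 ω hE c2' c3' c1'
    rcases hbad with hb | hb | hb
    · apply hb
      refine ⟨w1, le_trans w2 ?_⟩
      have : ε * √(n : ℝ) ≤ τ * √n := mul_le_mul_of_nonneg_right (by linarith) hsn
      linarith
    · obtain ⟨W, hW, hW'⟩ := hb
      have := w3 W hW
      have h7 : (10 * (σ + 1) * ε + 2 * σ * η) * √(n : ℝ) ≤ τ * √n :=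
        mul_le_mul_of_nonneg_right (by linarith) hsn
      linarith
    · linarith
  have hq : 0 ≤ τ / 8 / ((n : ℝ) * √n) := by positivity
  calc PQ μ ν _ ≤ _ := measure_mono hsub
    _ ≤ ENNReal.ofReal (τ / 8 / (n * √n)) + (ENNReal.ofReal (τ / 8 / (n * √n)) +
        (ENNReal.ofReal (τ / 8 / (n * √n)) + (ENNReal.ofReal (τ / 8 / (n * √n)) + 0))) := by
        refine le_trans (measure_union_le _ _) (add_le_add g1 ?_)
        refine le_trans (measure_union_le _ _) (add_le_add g2 ?_)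
        refine le_trans (measure_union_le _ _) (add_le_add g3 ?_)
        exact le_trans (measure_union_le _ _) (add_le_add g4 hNN.le)
    _ = ENNReal.ofReal (τ / 8 / (n * √n) + (τ / 8 / (n * √n) + (τ / 8 / (n * √n) +
        τ / 8 / (n * √n)))) := by
        rw [add_zero, ← ENNReal.ofReal_add hq hq, ← ENNReal.ofReal_add hq (by positivity),
          ← ENNReal.ofReal_add hq (by positivity)]
    _ ≤ ENNReal.ofReal (τ / (n * √n)) := by
        apply ENNReal.ofReal_le_ofReal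
        have : τ / 8 / ((n : ℝ) * √n) = τ / (n * √n) / 8 := by ring
        rw [this]
        have h8 : 0 ≤ τ / ((n : ℝ) * √n) := by positivity
        linarith

end Pool.Agent.BPT
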