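import Pool.Agent.MP_99a865_pr.FV.F11a
import Pool.Agent.MP_99a865_pr.FV.F10b

open MeasureTheory ProbabilityTheory Filter Topology
open scoped ENNReal NNReal

namespace Pool.Agent.BPT

variable {D : Set ℝ} {μ ν : Measure ℝ} {σ : ℝ}

/-- the smoothed indicator -/
noncomputable def F11d_chi (x τ y : ℝ) : ℝ := max 0 (min 1 (1 - (y - x) / (τ / 2)))

theorem F11d_chi_nonneg (x τ y : ℝ) : 0 ≤ F11d_chi x τ y := le_max_left _ _

theorem F11d_chi_le_one (x τ y : ℝ) : F11d_chi x τ y ≤ 1 :=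
  max_le zero_le_one (min_le_left _ _)

theorem F11d_chi_one {x τ y : ℝ} (hτ : 0 < τ) (h : y ≤ x) : F11d_chi x τ y = 1 := by
  unfold F11d_chi
  have h1 : (y - x) / (τ / 2) ≤ 0 := div_nonpos_of_nonpos_of_nonneg (by linarith) (by positivity)
  rw [min_eq_left (by linarith), max_eq_right zero_le_one]

theorem F11d_chi_zero {x τ y : ℝ} (hτ : 0 < τ) (h : x + τ / 2 ≤ y) : F11d_chi x τ y = 0 := by
  unfold F11d_chi
  have h1 : 1 ≤ (y - x) / (τ / 2) := by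
    rw [le_div_iff₀ (by positivity)]
    linarith
  rw [max_eq_left]
  exact (min_le_right _ _).trans (by linarith)

theorem F11d_BL {x τ : ℝ} (hτ : 0 < τ) : BL (1 + 2 / τ) (F11d_chi x τ) := by
  constructor
  · intro y
    rw [abs_of_nonneg (F11d_chi_nonneg _ _ _)]
    have : 0 < 2 / τ := by positivity
    linarith [F11d_chi_le_one x τ y]
  · intro y z
    have h1 : |F11d_chi x τ y - F11d_chi x τ z| ≤ |(1 - (y - x) / (τ / 2)) - (1 - (z - x) / (τ / 2))| := by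
      unfold F11d_chi
      set a := 1 - (y - x) / (τ / 2)
      set b := 1 - (z - x) / (τ / 2)
      rw [abs_le]
      have h2 := le_abs_self (a - b)
      have h3 := neg_abs_le (a - b)
      have h4 := abs_nonneg (a - b)
      simp only [max_def, min_def]
      split_ifs <;> constructor <;> linarith
    have h2 : (1 - (y - x) / (τ / 2)) - (1 - (z - x) / (τ / 2)) = -(2 / τ * (y - z)) := by
      field_simp
      ring
    rw [h2, abs_neg, abs_mul, abs_of_pos (by positivity : (0 : ℝ) < 2 / τ)] at h1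
    have h3 := abs_nonneg (y - z)
    linarith

theorem F11d_meas_chi (x τ : ℝ) : Measurable (F11d_chi x τ) := by
  unfold F11d_chi
  exact measurable_const.max (measurable_const.min
    (measurable_const.sub ((measurable_id.sub_const x).div_const _)))

/-- bad event, one model -/
theorem F11d_bad (hD : Dom D) (hQ : QStd μ ν σ) : ∀ τ > (0 : ℝ), ∃ δ₀ > (0 : ℝ), ∀ δ : ℝ, 0 < δ →
    δ ≤ δ₀ → ∃ K₀ : ℕ, ∀ K ≥ K₀, ∃ n₀ : ℕ, ∀ n ≥ n₀, PQ μ ν (EvN D n) ≠ 0 →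
    (PQ μ ν).real (EvN D n ∩ {ω | ¬ (MG σ δ K n ω ≤ Mx σ n ω ∧ Mx σ n ω ≤ MG σ δ K n ω + τ * √n)}) ≤
      τ * (PQ μ ν).real (EvN D n) := by
  have i1 : IsProbabilityMeasure μ := hQ.probμ
  have i2 : IsProbabilityMeasure ν := hQ.probν
  intro τ hτ
  obtain ⟨c, hc, n1, hn1⟩ := le_hit hD hQ.std
  set τ' := min τ (c * τ) with hτ'
  have hτ'pos : 0 < τ' := lt_min hτ (by positivity)
  obtain ⟨δ₀, hδ₀, h1⟩ := MW_approx hD hQ τ' hτ'pos
  refine ⟨δ₀, hδ₀, fun δ hδ hδ' => ?_⟩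
  obtain ⟨K₀, h2⟩ := h1 δ hδ hδ'
  refine ⟨K₀, fun K hK => ?_⟩
  obtain ⟨R₀, _, h3⟩ := h2 K hK
  obtain ⟨n₀, h4⟩ := h3 R₀ le_rfl
  refine ⟨max (max n₀ n1) 1, fun n hn hne => ?_⟩
  have hn0 : n₀ ≤ n := (le_max_left _ _).trans ((le_max_left _ _).trans hn)
  have hnn1 : n1 ≤ n := (le_max_right _ _).trans ((le_max_left _ _).trans hn)
  have hnpos : 1 ≤ n := (le_max_right _ _).trans hn
  have h5 := h4 n hn0
  have hpos : 0 < (PQ μ ν).real (EvN D n) := by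
    rw [measureReal_def]
    exact ENNReal.toReal_pos hne (measure_ne_top _ _)
  have h6 := hn1 n hnn1 (by rw [← PQ_EvN hD hQ n]; exact hpos)
  rw [← PQ_EvN hD hQ n] at h6
  have hnn : 0 < (n : ℝ) * √n := by
    have : (0 : ℝ) < n := by exact_mod_cast hnpos
    positivity
  have h7 : (PQ μ ν).real (EvN D n ∩
      {ω | ¬ (MG σ δ K n ω ≤ Mx σ n ω ∧ Mx σ n ω ≤ MG σ δ K n ω + τ * √n)}) ≤ τ' / (n * √n) := by
    rw [measureReal_def]
    refine ENNReal.toReal_le_of_le_ofReal (by positivity) ((measure_mono ?_).trans h5)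
    refine Set.inter_subset_inter_right _ fun ω hω => Or.inl fun h8 => hω ⟨h8.1, h8.2.trans ?_⟩
    have : τ' * √n ≤ τ * √n := mul_le_mul_of_nonneg_right (min_le_left _ _) (Real.sqrt_nonneg _)
    linarith
  calc _ ≤ τ' / (n * √n) := h7
    _ ≤ c * τ / (n * √n) := by gcongr; exact min_le_right _ _
    _ = τ * (c / (n * √n)) := by ring
    _ ≤ τ * (PQ μ ν).real (EvN D n) := by gcongr

/-- the product, one model -/
theorem F11d_prod_bounds (x τ : ℝ) (hτ : 0 < τ) (δ : ℝ) (K n : ℕ) (hK : 1 ≤ K) (hn : 1 ≤ n)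
    (ω : ℕ → ℝ × ℝ) :
    (MG σ δ K n ω ≤ x * √n → ∏ j ∈ Finset.range K, F11d_chi x τ (nz σ (gi n δ K j) ω / √n) = 1) ∧
    (¬ MG σ δ K n ω ≤ (x + τ / 2) * √n →
      ∏ j ∈ Finset.range K, F11d_chi x τ (nz σ (gi n δ K j) ω / √n) = 0) ∧
    0 ≤ ∏ j ∈ Finset.range K, F11d_chi x τ (nz σ (gi n δ K j) ω / √n) ∧
    ∏ j ∈ Finset.range K, F11d_chi x τ (nz σ (gi n δ K j) ω / √n) ≤ 1 := by
  have hsq : 0 < √(n : ℝ) := Real.sqrt_pos.mpr (by exact_mod_cast hn)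
  have hbdd : BddAbove (Set.range fun j : Fin K => nz σ (gi n δ K j) ω) := Finite.bddAbove_range _
  refine ⟨fun h => ?_, fun h => ?_, ?_, ?_⟩
  · refine Finset.prod_eq_one fun j hj => F11d_chi_one hτ ?_
    rw [div_le_iff₀ hsq]
    exact (le_ciSup hbdd (⟨j, Finset.mem_range.mp hj⟩ : Fin K)).trans h
  · have : ∃ j : Fin K, (x + τ / 2) * √n < nz σ (gi n δ K j) ω := by
      by_contra hc
      push Not at hc
      apply h
      have : Nonempty (Fin K) := ⟨⟨0, hK⟩⟩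
      exact ciSup_le hc
    obtain ⟨j, hj⟩ := this
    refine Finset.prod_eq_zero (Finset.mem_range.mpr j.2) (F11d_chi_zero hτ ?_)
    rw [le_div_iff₀ hsq]
    exact hj.le
  · exact Finset.prod_nonneg fun j _ => F11d_chi_nonneg _ _ _
  · exact Finset.prod_le_one (fun j _ => F11d_chi_nonneg _ _ _) fun j _ => F11d_chi_le_one _ _ _

theorem F11d_int (hD : Dom D) (hQ : QStd μ ν σ) (x τ : ℝ) (hτ : 0 < τ) (δ : ℝ) (K n : ℕ)
    (hK : 1 ≤ K) (hn : 1 ≤ n) :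
    (PQ μ ν).real (EvN D n ∩ {ω | MG σ δ K n ω ≤ x * √n}) ≤
      ∫ ω in EvN D n, ∏ j ∈ Finset.range K, F11d_chi x τ (nz σ (gi n δ K j) ω / √n) ∂(PQ μ ν) ∧
    ∫ ω in EvN D n, ∏ j ∈ Finset.range K, F11d_chi x τ (nz σ (gi n δ K j) ω / √n) ∂(PQ μ ν) ≤
      (PQ μ ν).real (EvN D n ∩ {ω | MG σ δ K n ω ≤ (x + τ / 2) * √n}) := by
  have i1 : IsProbabilityMeasure μ := hQ.probμ
  have i2 : IsProbabilityMeasure ν := hQ.probν
  have hMG : Measurable (MG σ δ K n) := ((measurable_Mx (σ := σ) n).2 δ K).1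
  have hE := measurableSet_EvN hD n
  have hPm : Measurable fun ω => ∏ j ∈ Finset.range K, F11d_chi x τ (nz σ (gi n δ K j) ω / √n) :=
    Finset.measurable_prod _ fun j _ => (F11d_meas_chi x τ).comp ((measurable_nz _).div_const _)
  have hPi : Integrable (fun ω => ∏ j ∈ Finset.range K, F11d_chi x τ (nz σ (gi n δ K j) ω / √n))
      ((PQ μ ν).restrict (EvN D n)) := by
    refine Integrable.of_bound hPm.aestronglyMeasurable 1 (Filter.Eventually.of_forall fun ω => ?_)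
    obtain ⟨_, _, h3, h4⟩ := F11d_prod_bounds (σ := σ) x τ hτ δ K n hK hn ω
    rw [Real.norm_eq_abs, abs_of_nonneg h3]
    exact h4
  have hA : ∀ y : ℝ, MeasurableSet {ω | MG σ δ K n ω ≤ y} := fun y => hMG measurableSet_Iic
  have hI : ∀ y : ℝ, ∫ ω in EvN D n, {ω | MG σ δ K n ω ≤ y}.indicator (fun _ => (1 : ℝ)) ω ∂(PQ μ ν) =
      (PQ μ ν).real (EvN D n ∩ {ω | MG σ δ K n ω ≤ y}) := by
    intro y
    rw [integral_indicator_const _ (hA y), measureReal_restrict_apply (hA y), smul_eq_mul, mul_one,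
      Set.inter_comm]
  constructor
  · rw [← hI]
    refine integral_mono ((integrable_const _).indicator (hA _)) hPi fun ω => ?_
    obtain ⟨h1, _, h3, _⟩ := F11d_prod_bounds (σ := σ) x τ hτ δ K n hK hn ω
    by_cases h : MG σ δ K n ω ≤ x * √n
    · rw [Set.indicator_of_mem (by exact h), h1 h]
    · rw [Set.indicator_of_notMem (by exact h)]
      exact h3
  · rw [← hI]
    refine integral_mono hPi ((integrable_const _).indicator (hA _)) fun ω => ?_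
    obtain ⟨_, h2, _, h4⟩ := F11d_prod_bounds (σ := σ) x τ hτ δ K n hK hn ω
    by_cases h : MG σ δ K n ω ≤ (x + τ / 2) * √n
    · rw [Set.indicator_of_mem (by exact h)]
      exact h4
    · rw [Set.indicator_of_notMem (by exact h), h2 h]

/-- **[FV-F11d]** Universality of the distribution function of the maximum.
PROOF. Given `x`, `τ` take `χ` (`BL M`) with `1_{(-∞, x + τ/4]} ≤ χ ≤ 1_{(-∞, x + τ/2]}`… `δ, K` as in `MW_approx`
(for a small `τ' ≤ τ/8`, also `≤ cτ/8` with the constant `c` of `le_hit`). The issue that `δ, K` have to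
be chosen before the model is solved as follows: the statement is for two models; choose `δ, K` good for
both; `c` is the constant of `grid_product` for `∏ χ(nz g_j/√n)`. For each of the two models
`P(Mx ≤ x√n | N=n) ≤ P(MG ≤ x√n) ≤ E ∏ χ ≤ c + τ/4` and `c - τ/4 ≤ E ∏ χ ≤ P(MG ≤ (x+τ/2)√n | N=n)
≤ P(Mx ≤ (x+τ)√n | N=n) + τ/4`. So with `n, n'` both large:
`P(Mx ≤ x√n | N=n) ≤ P'(Mx' ≤ (x+τ)√n' | N'=n') + τ`. -/
theorem Mx_universal (D : Set ℝ) (μ ν : Measure ℝ) (σ : ℝ) (hD : Dom D) (hQ : QStd μ ν σ)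
    (D' : Set ℝ) (μ' ν' : Measure ℝ) (σ' : ℝ) (hD' : Dom D') (hQ' : QStd μ' ν' σ') (x : ℝ) :
    ∀ τ > (0 : ℝ), ∃ n₀ : ℕ, ∀ n ≥ n₀, ∀ n' ≥ n₀, PQ μ ν (EvN D n) ≠ 0 → PQ μ' ν' (EvN D' n') ≠ 0 →
    (PQ μ ν).real (EvN D n ∩ {ω | Mx σ n ω ≤ x * √n}) / (PQ μ ν).real (EvN D n) ≤
    (PQ μ' ν').real (EvN D' n' ∩ {ω | Mx σ' n' ω ≤ (x + τ) * √n'}) / (PQ μ' ν').real (EvN D' n') + τ := by
  have i1 : IsProbabilityMeasure μ := hQ.probμ
  have i2 : IsProbabilityMeasure ν := hQ.probν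
  have i3 : IsProbabilityMeasure μ' := hQ'.probμ
  have i4 : IsProbabilityMeasure ν' := hQ'.probν
  intro τ hτ
  obtain ⟨δ₁, hδ₁, a1⟩ := F11d_bad hD hQ (τ / 8) (by positivity)
  obtain ⟨δ₂, hδ₂, b1⟩ := F11d_bad hD' hQ' (τ / 8) (by positivity)
  set δ := min (min δ₁ δ₂) (1 / 8) with hδdef
  have hδ : 0 < δ := lt_min (lt_min hδ₁ hδ₂) (by norm_num)
  obtain ⟨K₁, a2⟩ := a1 δ hδ ((min_le_left _ _).trans (min_le_left _ _))
  obtain ⟨K₂, b2⟩ := b1 δ hδ ((min_le_left _ _).trans (min_le_right _ _))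
  set K := max (max K₁ K₂) 1 with hKdef
  have hK : 1 ≤ K := le_max_right _ _
  obtain ⟨n₁, a3⟩ := a2 K ((le_max_left _ _).trans (le_max_left _ _))
  obtain ⟨n₂, b3⟩ := b2 K ((le_max_right _ _).trans (le_max_left _ _))
  have hM : (0 : ℝ) < 1 + 2 / τ := by positivity
  obtain ⟨n₃, a4⟩ := grid_product δ hδ (min_le_right _ _) K hK (1 + 2 / τ) hM
    (fun _ => F11d_chi x τ) (fun _ => F11d_BL hτ) D μ ν σ hD hQ (τ / 8) (by positivity)
  obtain ⟨n₄, b4⟩ := grid_product δ hδ (min_le_right _ _) K hK (1 + 2 / τ) hM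
    (fun _ => F11d_chi x τ) (fun _ => F11d_BL hτ) D' μ' ν' σ' hD' hQ' (τ / 8) (by positivity)
  refine ⟨max (max (max n₁ n₂) (max n₃ n₄)) 1, fun n hn n' hn' hne hne' => ?_⟩
  simp only [ge_iff_le, max_le_iff] at hn hn'
  obtain ⟨⟨⟨c1, c2⟩, c3, c4⟩, c5⟩ := hn
  obtain ⟨⟨⟨d1, d2⟩, d3, d4⟩, d5⟩ := hn'
  have hp : 0 < (PQ μ ν).real (EvN D n) := by
    rw [measureReal_def]
    exact ENNReal.toReal_pos hne (measure_ne_top _ _)
  have hp' : 0 < (PQ μ' ν').real (EvN D' n') := by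
    rw [measureReal_def]
    exact ENNReal.toReal_pos hne' (measure_ne_top _ _)
  have e1 := a3 n c1 hne
  have e2 := b3 n' d2 hne'
  have e3 := a4 n c3 hne
  have e4 := b4 n' d4 hne'
  set C := val (gts δ K fun _ => F11d_chi x τ) / val1 (gts δ K fun _ => F11d_chi x τ) with hC
  have e5 := (F11d_int hD hQ x τ hτ δ K n hK c5).1
  have e6 := (F11d_int hD' hQ' x τ hτ δ K n' hK d5).2
  have e7 := (abs_le.mp e3).2
  have e8 := (abs_le.mp e4).1
  unfold EN at e7 e8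
  -- first model
  have f1 : (PQ μ ν).real (EvN D n ∩ {ω | Mx σ n ω ≤ x * √n}) ≤
      (PQ μ ν).real (EvN D n ∩ {ω | MG σ δ K n ω ≤ x * √n}) +
      (PQ μ ν).real (EvN D n ∩
        {ω | ¬ (MG σ δ K n ω ≤ Mx σ n ω ∧ Mx σ n ω ≤ MG σ δ K n ω + τ / 8 * √n)}) := by
    refine (measureReal_mono ?_).trans (measureReal_union_le _ _)
    rintro ω ⟨h1, h2⟩
    by_cases h3 : MG σ δ K n ω ≤ Mx σ n ω ∧ Mx σ n ω ≤ MG σ δ K n ω + τ / 8 * √n
    · exact Or.inl ⟨h1, h3.1.trans h2⟩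
    · exact Or.inr ⟨h1, h3⟩
  have f2 : (PQ μ' ν').real (EvN D' n' ∩ {ω | MG σ' δ K n' ω ≤ (x + τ / 2) * √n'}) ≤
      (PQ μ' ν').real (EvN D' n' ∩ {ω | Mx σ' n' ω ≤ (x + τ) * √n'}) +
      (PQ μ' ν').real (EvN D' n' ∩
        {ω | ¬ (MG σ' δ K n' ω ≤ Mx σ' n' ω ∧ Mx σ' n' ω ≤ MG σ' δ K n' ω + τ / 8 * √n')}) := by
    refine (measureReal_mono ?_).trans (measureReal_union_le _ _)
    rintro ω ⟨h1, h2⟩
    by_cases h3 : MG σ' δ K n' ω ≤ Mx σ' n' ω ∧ Mx σ' n' ω ≤ MG σ' δ K n' ω + τ / 8 * √n'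
    · refine Or.inl ⟨h1, h3.2.trans ?_⟩
      have h4 : MG σ' δ K n' ω ≤ (x + τ / 2) * √n' := h2
      have h5 : 0 ≤ τ * √(n' : ℝ) := by positivity
      have : (x + τ) * √(n' : ℝ) = (x + τ / 2) * √n' + τ / 8 * √n' + 3 / 8 * (τ * √n') := by ring
      rw [this]
      linarith
    · exact Or.inr ⟨h1, h3⟩
  have g1 : (PQ μ ν).real (EvN D n ∩ {ω | Mx σ n ω ≤ x * √n}) / (PQ μ ν).real (EvN D n) ≤
      C + τ / 4 := by
    rw [div_le_iff₀ hp]
    have g2 : ∫ ω in EvN D n, ∏ j ∈ Finset.range K, F11d_chi x τ (nz σ (gi n δ K j) ω / √n)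
        ∂(PQ μ ν) ≤ (C + τ / 8) * (PQ μ ν).real (EvN D n) := by
      rw [← div_le_iff₀ hp]
      linarith
    nlinarith
  have g3 : C - τ / 8 ≤ (PQ μ' ν').real (EvN D' n' ∩ {ω | Mx σ' n' ω ≤ (x + τ) * √n'}) /
      (PQ μ' ν').real (EvN D' n') + τ / 8 := by
    have g4 : C - τ / 8 ≤ (∫ ω in EvN D' n', ∏ j ∈ Finset.range K,
        F11d_chi x τ (nz σ' (gi n' δ K j) ω / √n') ∂(PQ μ' ν')) / (PQ μ' ν').real (EvN D' n') := by
      linarith
    refine g4.trans ?_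
    rw [div_le_iff₀ hp', add_mul, div_mul_cancel₀ _ hp'.ne']
    linarith
  linarith

end Pool.Agent.BPT
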