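import Pool.Agent.MP_99a865_pr.FV.E1c

open MeasureTheory ProbabilityTheory Filter Topology
open scoped ENNReal NNReal

namespace Pool.Agent.BPT

variable {D : Set ℝ} {ρ : Measure ℝ}

lemma E1d_hit_add (hD : Dom D) [IsProbabilityMeasure ρ] (k m : ℕ) (hm : 1 ≤ m) (x : ℝ) :
    ∫ w, hit D ρ m w ∂(kap D ρ k x) = hit D ρ (k + m) x := by
  have h1 := hit_add hD (ρ := ρ) k m hm x
  rw [integral_eq_lintegral_of_nonneg_ae (Filter.Eventually.of_forall fun w => hit_nonneg m w)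
    (measurable_hit hD m).aestronglyMeasurable, ← h1, ENNReal.toReal_ofReal (hit_nonneg _ _)]

lemma E1d_IQ_one (hD : Dom D) [IsProbabilityMeasure ρ] (s : ℝ) (l : List (ℕ × (ℝ → ℝ)))
    (hl : ∀ p ∈ l, p.2 = fun _ => (1 : ℝ)) (n : ℕ) (hn : tot l < n) (x : ℝ) :
    IQ D ρ s l (hit D ρ (n - tot l)) x = hit D ρ n x := by
  induction l generalizing n x with
  | nil => simp [tot, IQ]
  | cons q l ih =>
    obtain ⟨k, f⟩ := q
    have hf : f = fun _ => (1 : ℝ) := hl (k, f) List.mem_cons_self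
    have htot : tot ((k, f) :: l) = k + tot l := by simp [tot]
    rw [htot] at hn ⊢
    have h1 : n - (k + tot l) = (n - k) - tot l := by omega
    show ∫ y, f (y / s) * IQ D ρ s l (hit D ρ (n - (k + tot l))) y ∂(kap D ρ k x) = hit D ρ n x
    rw [h1, hf]
    have h2 : ∀ y, (1 : ℝ) * IQ D ρ s l (hit D ρ (n - k - tot l)) y = hit D ρ (n - k) y := fun y => by
      rw [one_mul, ih (fun p hp => hl p (List.mem_cons_of_mem _ hp)) (n - k) (by omega) y]
    simp only [h2]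
    rw [E1d_hit_add hD k (n - k) (by omega) x]
    congr 1
    omega

lemma E1d_match_map {n : ℕ} {l : List (ℕ × (ℝ → ℝ))} {ts : List (ℝ × (ℝ → ℝ))} (h : Match n l ts) :
    Match n (l.map fun p => (p.1, fun _ => (1 : ℝ))) (ts.map fun p => (p.1, fun _ => (1 : ℝ))) := by
  unfold Match at h ⊢
  induction h with
  | nil => exact List.Forall₂.nil
  | cons h1 _ ih => exact List.Forall₂.cons ⟨rfl, h1.2⟩ ih

lemma E1d_tot {n : ℕ} {l : List (ℕ × (ℝ → ℝ))} {ts : List (ℝ × (ℝ → ℝ))} (h : Match n l ts) :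
    (tot l : ℝ) ≤ (ts.map Prod.fst).sum * n + 2 * ts.length := by
  unfold Match at h
  induction h with
  | nil => simp [tot]
  | cons h1 _ ih =>
    rename_i a b l₁ l₂ _
    have h2 := (abs_le.1 h1.2).2
    simp only [tot, List.map_cons, List.sum_cons, List.length_cons] at ih ⊢
    rw [Nat.cast_add, Nat.cast_add, Nat.cast_one]
    linarith [add_mul b.1 (List.map Prod.fst l₂).sum (n : ℝ)]

lemma E1d_tot_map (l : List (ℕ × (ℝ → ℝ))) :
    tot (l.map fun p => (p.1, fun _ => (1 : ℝ))) = tot l := by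
  simp [tot, Function.comp_def]

/-- **[FV-E1c]** lower bound for `P(N = n)` (`fdd_asymp` with `ts = [(1/2, 1)]`, `f = 1`:
`IQ [(k,1)] (hit (n-k)) 0 = hit n 0`). -/
theorem le_hit (hD : Dom D) (hρ : Std ρ) : ∃ c > (0 : ℝ), ∃ n₀ : ℕ, ∀ n ≥ n₀, 0 < hit D ρ n 0 →
    c / (n * √n) ≤ hit D ρ n 0 := by
  have := hρ.prob
  obtain ⟨c₀, hc₀, C₀, hC₀, H⟩ := fdd_asymp hD hρ
  set ts : List (ℝ × (ℝ → ℝ)) := [(1 / 2, fun _ => (1 : ℝ))] with hts
  have hadm : Adm ts := by
    refine ⟨?_, ?_, 1, one_pos, ?_⟩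
    · intro p hp
      simp only [hts, List.mem_singleton] at hp
      rw [hp]; norm_num
    · simp only [hts, List.map_cons, List.map_nil, List.sum_cons, List.sum_nil]; norm_num
    · intro p hp
      simp only [hts, List.mem_singleton] at hp
      rw [hp]
      exact ⟨fun x => by simp, fun x y => by simp⟩
  have hne : ts ≠ [] := by simp [hts]
  have hv := val1_pos ts hadm hne
  obtain ⟨n₀, hn₀⟩ := H ts hadm hne (c₀ * val1 ts / 2) (by positivity)
  refine ⟨c₀ * val1 ts / 2, by positivity, max n₀ 1, fun n hn hpos => ?_⟩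
  have hn1 : n₀ ≤ n := (le_max_left _ _).trans hn
  have hn2 : 1 ≤ n := (le_max_right _ _).trans hn
  have hnpos : (0 : ℝ) < n := by exact_mod_cast hn2
  obtain ⟨B, hB1, -, -, hB2⟩ := hn₀ n hn1 hpos
  have h1 := hB2 [(n / 2, fun _ => (1 : ℝ))] (by
    unfold Match
    simp only [hts, List.map_cons, List.map_nil]
    refine List.Forall₂.cons ⟨rfl, ?_⟩ List.Forall₂.nil
    simp only
    have h2 : ((n / 2 : ℕ) : ℝ) ≤ (n : ℝ) / 2 := Nat.cast_div_le
    have h3 : (n : ℝ) < 2 * ((n / 2 : ℕ) : ℝ) + 2 := by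
      have : n < 2 * (n / 2) + 2 := by omega
      exact_mod_cast this
    rw [abs_le]
    constructor <;> linarith)
  rw [E1d_IQ_one hD (ρ := ρ) (√n) [(n / 2, fun _ => (1 : ℝ))] (by simp) n (by simp [tot]; omega) 0] at h1
  have h4 := (abs_le.1 h1).1
  rw [div_le_iff₀ (by positivity)]
  have h5 : c₀ * val1 ts ≤ B * val1 ts := by gcongr
  linarith [mul_comm (hit D ρ n 0) (n * √n)]

/-- **[FV-E1c]** Finite-dimensional distributions: the limit does not depend on `ρ` nor on `D`.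
PROOF. Ratio of the two parts of `fdd_asymp`; with `f = 1` everywhere `IQ l (hit (n - tot l)) 0 = hit n 0`
(`hit_add`). -/
theorem fdd (hD : Dom D) (hρ : Std ρ) (ts : List (ℝ × (ℝ → ℝ))) (hts : Adm ts) (hne : ts ≠ []) :
    ∀ ε > (0 : ℝ), ∃ n₀ : ℕ, ∀ n ≥ n₀, 0 < hit D ρ n 0 → ∀ l, Match n l ts →
      |IQ D ρ (√n) l (hit D ρ (n - tot l)) 0 / hit D ρ n 0 - val ts / val1 ts| ≤ ε := by
  intro ε hε
  have := hρ.prob
  obtain ⟨c₀, hc₀, C₀, hC₀, H⟩ := fdd_asymp hD hρ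
  have hv := val1_pos ts hts hne
  set v1 := val1 ts with hv1
  set v := val ts with hv0
  have hsv : 0 < v1 + |v| := by positivity
  obtain ⟨n₀, hn₀⟩ := H ts hts hne (min (c₀ * v1 / 2) (ε * (c₀ * v1 ^ 2 / 2) / (v1 + |v|)))
    (lt_min (by positivity) (by positivity))
  set e := min (c₀ * v1 / 2) (ε * (c₀ * v1 ^ 2 / 2) / (v1 + |v|)) with he
  have he1 : e ≤ c₀ * v1 / 2 := min_le_left _ _
  have he2 : e * (v1 + |v|) ≤ ε * (c₀ * v1 ^ 2 / 2) := by
    have := min_le_right (c₀ * v1 / 2) (ε * (c₀ * v1 ^ 2 / 2) / (v1 + |v|))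
    rwa [← he, le_div_iff₀ hsv] at this
  have hsum := hts.2.1
  set T := (ts.map Prod.fst).sum with hT
  refine ⟨max n₀ (⌈2 * (ts.length : ℝ) / (1 - T)⌉₊ + 1), fun n hn hpos l hl => ?_⟩
  have hn1 : n₀ ≤ n := (le_max_left _ _).trans hn
  have hn2 : ⌈2 * (ts.length : ℝ) / (1 - T)⌉₊ + 1 ≤ n := (le_max_right _ _).trans hn
  have hnpos : (0 : ℝ) < n := by
    have : 1 ≤ n := by omega
    exact_mod_cast this
  have htot : tot l < n := by
    have h1 := E1d_tot hl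
    rw [← hT] at h1
    have h2 : 2 * (ts.length : ℝ) / (1 - T) < n := by
      refine lt_of_le_of_lt (Nat.le_ceil _) ?_
      have : ⌈2 * (ts.length : ℝ) / (1 - T)⌉₊ < n := by omega
      exact_mod_cast this
    rw [div_lt_iff₀ (by linarith)] at h2
    have h3 : (tot l : ℝ) < n := by nlinarith
    exact_mod_cast h3
  obtain ⟨B, hB1, -, hB2, hB3⟩ := hn₀ n hn1 hpos
  have a1 := hB2 l hl
  have a2 := hB3 _ (E1d_match_map hl)
  rw [E1d_IQ_one hD (ρ := ρ) (√n) _ (by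
    intro p hp
    obtain ⟨q, -, rfl⟩ := List.mem_map.1 hp
    rfl) n (by rw [E1d_tot_map]; exact htot) 0] at a2
  set X := n * √n * IQ D ρ (√n) l (hit D ρ (n - tot l)) 0 with hX
  set Y := n * √n * hit D ρ n 0 with hY
  have hsn : 0 < (n : ℝ) * √n := by positivity
  have h1 : IQ D ρ (√n) l (hit D ρ (n - tot l)) 0 / hit D ρ n 0 = X / Y := by
    rw [hX, hY, mul_div_mul_left _ _ hsn.ne']
  rw [h1]
  have hY1 : c₀ * v1 / 2 ≤ Y := by
    have h4 := (abs_le.1 a2).1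
    have h5 : c₀ * v1 ≤ B * v1 := by gcongr
    linarith
  have hY0 : 0 < Y := lt_of_lt_of_le (by positivity) hY1
  have h2 : X / Y - v / v1 = ((X - B * v) * v1 - (Y - B * v1) * v) / (Y * v1) := by
    field_simp
    ring
  rw [h2, abs_div, abs_of_pos (show 0 < Y * v1 by positivity), div_le_iff₀ (by positivity)]
  calc |(X - B * v) * v1 - (Y - B * v1) * v| ≤ |(X - B * v) * v1| + |(Y - B * v1) * v| := abs_sub _ _
    _ = |X - B * v| * v1 + |Y - B * v1| * |v| := by rw [abs_mul, abs_mul, abs_of_pos hv]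
    _ ≤ e * v1 + e * |v| := by gcongr
    _ = e * (v1 + |v|) := by ring
    _ ≤ ε * (c₀ * v1 ^ 2 / 2) := he2
    _ = ε * ((c₀ * v1 / 2) * v1) := by ring
    _ ≤ ε * (Y * v1) := by gcongr

end Pool.Agent.BPT
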