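import Pool.Agent.MP_99a865_pr.FV.F10b
import Pool.Agent.MP_99a865_pr.FV.E1d

open MeasureTheory ProbabilityTheory Filter Topology
open scoped ENNReal NNReal

namespace Pool.Agent.BPT

variable {D : Set ℝ} {μ ν : Measure ℝ} {σ : ℝ}

/-- **[FV-F11e]** The width is close to `σ` times the maximum. (`MW_approx`, `le_hit`.) -/
theorem W_close (hD : Dom D) (hQ : QStd μ ν σ) : ∀ τ > (0 : ℝ), ∃ n₀ : ℕ, ∀ n ≥ n₀,
    PQ μ ν (EvN D n) ≠ 0 →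
    (PQ μ ν).real (EvN D n ∩ {ω | ∃ W, IsW D n ω W ∧ τ * √n < |(W : ℝ) - σ * Mx σ n ω|}) ≤
      τ * (PQ μ ν).real (EvN D n) := by
  intro τ hτ
  have := hQ.probμ
  have := hQ.probν
  obtain ⟨c, hc, n₁, hn₁⟩ := le_hit (ρ := stepLaw μ ν σ) hD hQ.std
  obtain ⟨τ', hτ', h1, h2⟩ : ∃ τ' > (0 : ℝ), τ' ≤ τ ∧ τ' ≤ τ * c :=
    ⟨min τ (τ * c), lt_min hτ (mul_pos hτ hc), min_le_left _ _, min_le_right _ _⟩
  obtain ⟨δ, hδ, H1⟩ := MW_approx hD hQ τ' hτ'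
  obtain ⟨K, H2⟩ := H1 δ hδ le_rfl
  obtain ⟨R, hR, H3⟩ := H2 K le_rfl
  obtain ⟨n₂, H4⟩ := H3 R le_rfl
  refine ⟨max n₁ n₂, fun n hn hne => ?_⟩
  have hn1 : n₁ ≤ n := (le_max_left _ _).trans hn
  have hn2 : n₂ ≤ n := (le_max_right _ _).trans hn
  have hpos : 0 < (PQ μ ν).real (EvN D n) := by
    rw [Measure.real, ENNReal.toReal_pos_iff]
    exact ⟨pos_iff_ne_zero.mpr hne, measure_lt_top _ _⟩
  have hlow : c / (n * √n) ≤ (PQ μ ν).real (EvN D n) := by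
    rw [PQ_EvN hD hQ] at hpos ⊢
    exact hn₁ n hn1 hpos
  have hsub : (EvN D n ∩ {ω | ∃ W, IsW D n ω W ∧ τ * √n < |(W : ℝ) - σ * Mx σ n ω|}) ⊆
      (EvN D n ∩ {ω | ¬ (MG σ δ K n ω ≤ Mx σ n ω ∧ Mx σ n ω ≤ MG σ δ K n ω + τ' * √n) ∨
      (∃ W, IsW D n ω W ∧ τ' * √n < |(W : ℝ) - σ * Mx σ n ω|) ∨
      τ' < |Area σ n ω / (n * √n) - YA σ δ R K n ω|}) := by
    rintro ω ⟨h1', W, hW, hW'⟩
    refine ⟨h1', Or.inr (Or.inl ⟨W, hW, ?_⟩)⟩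
    exact (mul_le_mul_of_nonneg_right h1 (Real.sqrt_nonneg _)).trans_lt hW'
  have hm := (measure_mono hsub).trans (H4 n hn2)
  have hnn : (0 : ℝ) ≤ τ' / (n * √n) := by positivity
  have hr : (PQ μ ν).real
      (EvN D n ∩ {ω | ∃ W, IsW D n ω W ∧ τ * √n < |(W : ℝ) - σ * Mx σ n ω|}) ≤ τ' / (n * √n) := by
    rw [Measure.real]
    exact ENNReal.toReal_le_of_le_ofReal hnn hm
  refine hr.trans ?_
  calc τ' / (n * √n) ≤ τ * c / (n * √n) := by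
        apply div_le_div_of_nonneg_right h2; positivity
    _ = τ * (c / (n * √n)) := by ring
    _ ≤ τ * (PQ μ ν).real (EvN D n) := mul_le_mul_of_nonneg_left hlow hτ.le

end Pool.Agent.BPT
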