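import Pool.Agent.MP_99a865_pr.FV.F11b
import Pool.Agent.MP_99a865_pr.FV.F10b
import Pool.Agent.MP_99a865_pr.FV.F10m
import Pool.Agent.MP_99a865_pr.FV.E1d

open MeasureTheory ProbabilityTheory Filter Topology
open scoped ENNReal NNReal

namespace Pool.Agent.BPT

variable {D : Set ℝ} {μ ν : Measure ℝ} {σ : ℝ}

lemma F11f_cont {F : ℝ → ℝ} (hF : BL 1 F) : Continuous F := by
  have h : LipschitzWith 1 F := by
    refine LipschitzWith.of_dist_le_mul fun x y => ?_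
    rw [Real.dist_eq, Real.dist_eq]
    have := hF.lip x y
    simpa using this
  exact h.continuous

lemma F11f_int {Ω : Type} [MeasurableSpace Ω] (P : Measure Ω) [IsFiniteMeasure P]
    {F : ℝ → ℝ} (hF : BL 1 F) {X : Ω → ℝ} (hX : Measurable X) :
    Integrable (fun ω => F (X ω)) P := by
  refine Integrable.of_bound ((F11f_cont hF).measurable.comp hX).aestronglyMeasurable 1 ?_
  exact Filter.Eventually.of_forall fun ω => hF.bd _

lemma F11f_diff {Ω : Type} [MeasurableSpace Ω] (P : Measure Ω) [IsFiniteMeasure P]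
    {F : ℝ → ℝ} (hF : BL 1 F) {X Y : Ω → ℝ} (hX : Measurable X) (hY : Measurable Y)
    {E : Set Ω} {τ : ℝ} (hτ : 0 ≤ τ) :
    |∫ ω in E, F (X ω) ∂P - ∫ ω in E, F (Y ω) ∂P| ≤
      τ * P.real E + 2 * P.real (E ∩ {ω | τ < |X ω - Y ω|}) := by
  have hB : MeasurableSet {ω | τ < |X ω - Y ω|} :=
    measurableSet_lt measurable_const (hX.sub hY).abs
  rw [← integral_sub (F11f_int _ hF hX) (F11f_int _ hF hY)]
  have h1 : |∫ ω in E, (F (X ω) - F (Y ω)) ∂P| ≤ ∫ ω in E, |F (X ω) - F (Y ω)| ∂P :=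
    abs_integral_le_integral_abs
  refine h1.trans ?_
  have h2 : ∫ ω in E, |F (X ω) - F (Y ω)| ∂P ≤
      ∫ ω in E, (τ + {ω | τ < |X ω - Y ω|}.indicator (fun _ => (2 : ℝ)) ω) ∂P := by
    refine integral_mono ((F11f_int _ hF hX).sub (F11f_int _ hF hY)).abs
      ((integrable_const _).add ((integrable_const _).indicator hB)) fun ω => ?_
    by_cases h : τ < |X ω - Y ω|
    · have h3 : |F (X ω) - F (Y ω)| ≤ 2 := by
        have := hF.bd (X ω)
        have := hF.bd (Y ω)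
        calc |F (X ω) - F (Y ω)| ≤ |F (X ω)| + |F (Y ω)| := abs_sub _ _
          _ ≤ 2 := by linarith
      simp only [Set.indicator, Set.mem_ofPred_eq, h, if_true]
      linarith
    · have h3 := hF.lip (X ω) (Y ω)
      rw [one_mul] at h3
      simp only [Set.indicator, Set.mem_ofPred_eq, h, if_false]
      linarith [not_lt.mp h]
  refine h2.trans (le_of_eq ?_)
  rw [integral_add (integrable_const _) ((integrable_const _).indicator hB), integral_indicator hB,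
    Measure.restrict_restrict hB]
  simp only [integral_const, smul_eq_mul, measureReal_restrict_apply_univ]
  rw [Set.inter_comm]
  ring

/-- conditional version -/
lemma F11f_EN (hQ : QStd μ ν σ) (hD : Dom D) {F : ℝ → ℝ} (hF : BL 1 F)
    {X Y : (ℕ → ℝ × ℝ) → ℝ} (hX : Measurable X) (hY : Measurable Y) {τ c : ℝ} (hτ : 0 < τ)
    (hc : 0 < c) {n : ℕ} (hn : 1 ≤ n) (hp : c / (n * √n) ≤ (PQ μ ν).real (EvN D n))
    (hb : PQ μ ν (EvN D n ∩ {ω | τ < |X ω - Y ω|}) ≤ ENNReal.ofReal (τ / (n * √n))) :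
    |EN D μ ν n (fun ω => F (X ω)) - EN D μ ν n (fun ω => F (Y ω))| ≤ τ * (1 + 2 / c) := by
  have := hQ.probμ
  have := hQ.probν
  have hn1 : (0 : ℝ) < n := by exact_mod_cast hn
  have hq : 0 < (n : ℝ) * √n := by positivity
  have hP : 0 < (PQ μ ν).real (EvN D n) := lt_of_lt_of_le (by positivity) hp
  have h1 := F11f_diff (PQ μ ν) (E := EvN D n) hF hX hY hτ.le
  have h2 : (PQ μ ν).real (EvN D n ∩ {ω | τ < |X ω - Y ω|}) ≤ τ / (n * √n) := by
    have := ENNReal.toReal_mono ENNReal.ofReal_ne_top hb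
    rwa [ENNReal.toReal_ofReal (by positivity)] at this
  unfold EN
  rw [← sub_div, abs_div, abs_of_pos hP, div_le_iff₀ hP]
  refine h1.trans ?_
  have h3 : τ / (n * √n) ≤ τ / c * (PQ μ ν).real (EvN D n) := by
    calc τ / (n * √n) = τ / c * (c / (n * √n)) := by field_simp
      _ ≤ _ := by gcongr
  calc τ * (PQ μ ν).real (EvN D n) + 2 * (PQ μ ν).real (EvN D n ∩ {ω | τ < |X ω - Y ω|})
      ≤ τ * (PQ μ ν).real (EvN D n) + 2 * (τ / c * (PQ μ ν).real (EvN D n)) := by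
        gcongr
        exact h2.trans h3
    _ = τ * (1 + 2 / c) * (PQ μ ν).real (EvN D n) := by ring

lemma F11f_gi_lt {n K j : ℕ} {δ : ℝ} (hδ : 0 < δ) (hδ1 : δ ≤ 1 / 8) (hj : j < K) (hn : 1 ≤ n) :
    gi n δ K j < n := by
  unfold gi
  have hn1 : (0 : ℝ) < n := by exact_mod_cast hn
  have hK : (0 : ℝ) < K := by exact_mod_cast (by omega : 0 < K)
  have hjK : (j : ℝ) ≤ K := by exact_mod_cast hj.le
  rw [Nat.floor_lt' (by omega)]
  have h1 : (j : ℝ) * ((1 - 2 * δ) / K) ≤ 1 - 2 * δ := by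
    rw [mul_div_assoc', div_le_iff₀ hK]
    nlinarith
  have h2 : δ + (j : ℝ) * ((1 - 2 * δ) / K) < 1 := by linarith
  nlinarith

/-- **[FV-F11f]** The area has conditional expectations which converge (to a universal constant).
PROOF. As in `HT_universal`, with `MW_approx` and `grid_sum` for `g_j(x) = κ min(|x|, R)`: for every `τ`
there is a constant `c_τ` within `τ` of the conditional expectations for `n` large, for both models. -/
theorem area_universal (D : Set ℝ) (μ ν : Measure ℝ) (σ : ℝ) (hD : Dom D) (hQ : QStd μ ν σ)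
    (D' : Set ℝ) (μ' ν' : Measure ℝ) (σ' : ℝ) (hD' : Dom D') (hQ' : QStd μ' ν' σ')
    (F : ℝ → ℝ) (hF : BL 1 F) : ∀ ε > (0 : ℝ), ∃ n₀ : ℕ, ∀ n ≥ n₀, ∀ n' ≥ n₀, PQ μ ν (EvN D n) ≠ 0 →
    PQ μ' ν' (EvN D' n') ≠ 0 →
    |EN D μ ν n (fun ω => F (Area σ n ω / (n * √n))) -
      EN D' μ' ν' n' (fun ω => F (Area σ' n' ω / (n' * √n')))| ≤ ε := by
  intro ε hε
  obtain ⟨c, hc, N1, h1⟩ := le_hit hD hQ.std
  obtain ⟨c', hc', N1', h1'⟩ := le_hit hD' hQ'.std
  obtain ⟨τ, hτ, hτ1, hτ2⟩ : ∃ τ > (0 : ℝ), τ * (1 + 2 / c) ≤ ε / 4 ∧ τ * (1 + 2 / c') ≤ ε / 4 := by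
    refine ⟨ε / (4 * (1 + 2 / c + 2 / c')), by positivity, ?_, ?_⟩
    · rw [div_mul_eq_mul_div, div_le_div_iff₀ (by positivity) (by positivity)]
      have : 0 < 2 / c' := by positivity
      nlinarith
    · rw [div_mul_eq_mul_div, div_le_div_iff₀ (by positivity) (by positivity)]
      have : 0 < 2 / c := by positivity
      nlinarith
  obtain ⟨δ₀, hδ₀, h2⟩ := MW_approx hD hQ τ hτ
  obtain ⟨δ₀', hδ₀', h2'⟩ := MW_approx hD' hQ' τ hτ
  obtain ⟨δ, hδ, hδa, hδb, hδc⟩ : ∃ δ > (0 : ℝ), δ ≤ δ₀ ∧ δ ≤ δ₀' ∧ δ ≤ 1 / 8 :=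
    ⟨min (min δ₀ δ₀') (1 / 8), by positivity, (min_le_left _ _).trans (min_le_left _ _),
      (min_le_left _ _).trans (min_le_right _ _), min_le_right _ _⟩
  obtain ⟨K₀, h3⟩ := h2 δ hδ hδa
  obtain ⟨K₀', h3'⟩ := h2' δ hδ hδb
  obtain ⟨K, hKa, hKb, hKc⟩ : ∃ K : ℕ, K₀ ≤ K ∧ K₀' ≤ K ∧ 1 ≤ K :=
    ⟨max (max K₀ K₀') 1, (le_max_left _ _).trans (le_max_left _ _),
      (le_max_right _ _).trans (le_max_left _ _), le_max_right _ _⟩
  obtain ⟨R₀, hR₀, h4⟩ := h3 K hKa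
  obtain ⟨R₀', hR₀', h4'⟩ := h3' K hKb
  obtain ⟨R, hRa, hRb, hRc⟩ : ∃ R : ℝ, R₀ ≤ R ∧ R₀' ≤ R ∧ 1 ≤ R :=
    ⟨max R₀ R₀', le_max_left _ _, le_max_right _ _, hR₀.trans (le_max_left _ _)⟩
  obtain ⟨N2, h5⟩ := h4 R hRa
  obtain ⟨N2', h5'⟩ := h4' R hRb
  set κ : ℝ := (1 - 2 * δ) / K with hκ
  have hK1 : (1 : ℝ) ≤ K := by exact_mod_cast hKc
  have hκ0 : 0 ≤ κ := by
    rw [hκ]
    apply div_nonneg _ (by linarith)
    linarith
  have hκ1 : κ ≤ 1 := by
    rw [hκ, div_le_iff₀ (by linarith)]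
    linarith
  have hmin0 : ∀ x : ℝ, 0 ≤ min |x| R := fun x => le_min (abs_nonneg x) (by linarith)
  have hg : ∀ j : ℕ, BL R ((fun _ x => κ * min |x| R : ℕ → ℝ → ℝ) j) := by
    intro j
    refine ⟨fun x => ?_, fun x y => ?_⟩
    · simp only
      rw [abs_of_nonneg (mul_nonneg hκ0 (hmin0 x))]
      calc κ * min |x| R ≤ 1 * R := by
            gcongr
            exact min_le_right _ _
        _ = R := one_mul _
    · simp only
      rw [← mul_sub, abs_mul, abs_of_nonneg hκ0]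
      have h6 : |min |x| R - min |y| R| ≤ |x - y| := by
        refine (abs_min_sub_min_le_max _ _ _ _).trans ?_
        rw [sub_self, abs_zero, max_eq_left (abs_nonneg _)]
        exact abs_abs_sub_abs_le _ _
      calc κ * |min |x| R - min |y| R| ≤ 1 * |x - y| := by gcongr
        _ ≤ R * |x - y| := by gcongr
  have hg0 : ∀ (j : ℕ) (x : ℝ), 0 ≤ (fun _ x => κ * min |x| R : ℕ → ℝ → ℝ) j x := fun j x =>
    mul_nonneg hκ0 (hmin0 x)
  obtain ⟨C, hC, -⟩ := grid_sum δ hδ hδc K hKc R (by linarith) (fun _ x => κ * min |x| R) hg hg0 F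
    (F11f_cont hF)
  obtain ⟨N3, h6⟩ := hC D μ ν σ hD hQ (ε / 4) (by positivity)
  obtain ⟨N3', h6'⟩ := hC D' μ' ν' σ' hD' hQ' (ε / 4) (by positivity)
  -- one model
  have main : ∀ (D : Set ℝ) (μ ν : Measure ℝ) (σ c : ℝ) (N1 N2 N3 : ℕ), Dom D → QStd μ ν σ → 0 < c →
      τ * (1 + 2 / c) ≤ ε / 4 →
      (∀ n ≥ N1, 0 < hit D (stepLaw μ ν σ) n 0 → c / (n * √n) ≤ hit D (stepLaw μ ν σ) n 0) →
      (∀ n ≥ N2, PQ μ ν (EvN D n ∩ {ω | ¬ (MG σ δ K n ω ≤ Mx σ n ω ∧ Mx σ n ω ≤ MG σ δ K n ω + τ * √n) ∨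
      (∃ W, IsW D n ω W ∧ τ * √n < |(W : ℝ) - σ * Mx σ n ω|) ∨
      τ < |Area σ n ω / (n * √n) - YA σ δ R K n ω|}) ≤ ENNReal.ofReal (τ / (n * √n))) →
      (∀ n ≥ N3, PQ μ ν (EvN D n) ≠ 0 →
        |EN D μ ν n (fun ω => F (∑ j ∈ Finset.range K, (fun _ x => κ * min |x| R : ℕ → ℝ → ℝ) j
          (nz σ (gi n δ K j) ω / √n))) - C| ≤ ε / 4) →
      ∀ n ≥ max (max N1 N2) (max N3 1), PQ μ ν (EvN D n) ≠ 0 →
        |EN D μ ν n (fun ω => F (Area σ n ω / (n * √n))) - C| ≤ ε / 2 := by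
    intro D μ ν σ c N1 N2 N3 hD hQ hc hτc hh1 hh2 hh3 n hn hP
    have := hQ.probμ
    have := hQ.probν
    have hn1 : N1 ≤ n := ((le_max_left _ _).trans (le_max_left _ _)).trans hn
    have hn2 : N2 ≤ n := ((le_max_right _ _).trans (le_max_left _ _)).trans hn
    have hn3 : N3 ≤ n := ((le_max_left _ _).trans (le_max_right _ _)).trans hn
    have hn4 : 1 ≤ n := ((le_max_right _ _).trans (le_max_right _ _)).trans hn
    have hPr : 0 < (PQ μ ν).real (EvN D n) := by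
      rw [measureReal_def]
      exact ENNReal.toReal_pos hP (measure_ne_top _ _)
    have hp := hh1 n hn1 (by rw [← PQ_EvN hD hQ]; exact hPr)
    rw [← PQ_EvN hD hQ] at hp
    have hmA : Measurable fun ω => Area σ n ω / ((n : ℝ) * √n) :=
      ((measurable_Mx (σ := σ) n).2 δ K).2.1.div_const _
    have hmY : Measurable fun ω => YA σ δ R K n ω := ((measurable_Mx (σ := σ) n).2 δ K).2.2 R
    have hEN := F11f_EN hQ hD hF hmA hmY hτ hc hn4 hp
      ((measure_mono (Set.inter_subset_inter_right _ fun ω hω => Or.inr (Or.inr hω))).trans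
        (hh2 n hn2))
    have hEq : EN D μ ν n (fun ω => F (YA σ δ R K n ω)) =
        EN D μ ν n (fun ω => F (∑ j ∈ Finset.range K, (fun _ x => κ * min |x| R : ℕ → ℝ → ℝ) j
          (nz σ (gi n δ K j) ω / √n))) := by
      unfold EN
      congr 1
      refine setIntegral_congr_fun (measurableSet_EvN hD n) fun ω hω => ?_
      simp only
      congr 1
      unfold YA
      refine Finset.sum_congr rfl fun j hj => ?_
      have hlt := F11f_gi_lt hδ hδc (Finset.mem_range.mp hj) hn4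
      have h0 : 0 ≤ nz σ (gi n δ K j) ω := by
        rcases Nat.eq_zero_or_pos (gi n δ K j) with h | h
        · rw [h]
          simp [nz, Zw, Dp, Ar]
        · have hz := hω.2.1 (gi n δ K j) h (by omega)
          exact hD.nonneg ((Zw_mem hD hQ.pos _ _).mp hz)
      rw [abs_of_nonneg (by positivity)]
    rw [hEq] at hEN
    have h7 := hh3 n hn3 hP
    calc |EN D μ ν n (fun ω => F (Area σ n ω / (n * √n))) - C|
        ≤ |EN D μ ν n (fun ω => F (Area σ n ω / (n * √n))) -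
          EN D μ ν n (fun ω => F (∑ j ∈ Finset.range K, (fun _ x => κ * min |x| R : ℕ → ℝ → ℝ) j
          (nz σ (gi n δ K j) ω / √n)))| + |EN D μ ν n (fun ω => F (∑ j ∈ Finset.range K,
            (fun _ x => κ * min |x| R : ℕ → ℝ → ℝ) j (nz σ (gi n δ K j) ω / √n))) - C| :=
          abs_sub_le _ _ _
      _ ≤ ε / 2 := by linarith
  refine ⟨max (max (max N1 N2) (max N3 1)) (max (max N1' N2') (max N3' 1)), fun n hn n' hn' hP hP' => ?_⟩
  have ha := main D μ ν σ c N1 N2 N3 hD hQ hc hτ1 h1 h5 h6 n ((le_max_left _ _).trans hn) hP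
  have hb := main D' μ' ν' σ' c' N1' N2' N3' hD' hQ' hc' hτ2 h1' h5' h6' n'
    ((le_max_right _ _).trans hn') hP'
  rw [abs_le] at ha hb ⊢
  constructor <;> linarith [ha.1, ha.2, hb.1, hb.2]

end Pool.Agent.BPT
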