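import Pool.Agent.MP_99a865_pr.FV.F2
import Pool.Agent.MP_99a865_pr.FV.A9
import Pool.Agent.MP_99a865_pr.FV.A11
import Pool.Agent.MP_99a865_pr.FV.A14

open MeasureTheory ProbabilityTheory Filter Topology
open scoped ENNReal NNReal

namespace Pool.Agent.BPT

variable {D : Set ℝ} {μ ν : Measure ℝ} {σ : ℝ}

lemma F11g_ofReal_sum (s : Finset ℕ) (f : ℕ → ℝ) :
    ENNReal.ofReal (∑ i ∈ s, f i) ≤ ∑ i ∈ s, ENNReal.ofReal (f i) := by
  classical
  induction s using Finset.induction_on with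
  | empty => simp
  | insert a s ha ih =>
    rw [Finset.sum_insert ha, Finset.sum_insert ha]
    exact ENNReal.ofReal_add_le.trans (by gcongr)

lemma F11g_ae_nonneg {ρ : Measure ℝ} [IsProbabilityMeasure ρ] (hD : Dom D) (k : ℕ) (x : ℝ)
    (hx : 0 ≤ x) : ∀ᵐ y ∂(kap D ρ k x), 0 ≤ y := by
  rcases Nat.eq_zero_or_pos k with rfl | hk
  · rw [kap_zero]
    rw [ae_dirac_iff (measurableSet_Ici (a := (0 : ℝ)))]
    exact hx
  · have hae : ∀ᵐ w ∂(kap D ρ k x), w ∈ D :=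
      mem_ae_iff.mpr (kap_compl hD (ρ := ρ) k x (Or.inl hk))
    filter_upwards [hae] with w hw
    exact hD.nonneg hw

/-- early times -/
lemma F11g_early {ρ : Measure ℝ} (hD : Dom D) (hρ : Std ρ) : ∃ C > (0 : ℝ), ∀ n i : ℕ, 1 ≤ i →
    2 * i ≤ n → ∫⁻ y, ENNReal.ofReal y * ENNReal.ofReal (hit D ρ (n - i) y) ∂(kap D ρ i 0) ≤
      ENNReal.ofReal (C / n) := by
  have := hρ.prob
  obtain ⟨C1, hC1, hh⟩ := hit_bound hD hρ
  obtain ⟨C2, hC2, hm⟩ := mom2 hD hρ
  obtain ⟨C0, h0⟩ := ee_bound hD hρ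
  refine ⟨3 * C1 * (C0 + C2), by positivity, fun n i hi hin => ?_⟩
  have hi1 : (1 : ℝ) ≤ i := by exact_mod_cast hi
  have hn2 : 2 * (i : ℝ) ≤ n := by exact_mod_cast hin
  have hn : (0 : ℝ) < n := by linarith
  have hsn : 0 < √(n : ℝ) := Real.sqrt_pos.mpr hn
  have hm1 : Measurable fun y : ℝ => ENNReal.ofReal y := by fun_prop
  have hm2 : Measurable fun y : ℝ => ENNReal.ofReal (y ^ 2) := by fun_prop
  have hcast : ((n - i : ℕ) : ℝ) = n - i := by
    rw [Nat.cast_sub (by omega)]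
  have key : ∀ᵐ y ∂(kap D ρ i 0), ENNReal.ofReal y * ENNReal.ofReal (hit D ρ (n - i) y) ≤
      ENNReal.ofReal (3 * C1 / (n * √n)) * (ENNReal.ofReal y + ENNReal.ofReal (y ^ 2)) := by
    filter_upwards [F11g_ae_nonneg hD i 0 le_rfl] with y hy
    have h1 := (hh (n - i) (by omega) y hy).1
    rw [hcast] at h1
    have h2 : hit D ρ (n - i) y ≤ 3 * C1 / (n * √n) * (1 + y) := by
      refine h1.trans ?_
      have e1 : (n : ℝ) / 2 ≤ (n : ℝ) - i := by linarith
      have e2 : √(n : ℝ) * (2 / 3) ≤ √((n : ℝ) - i) := by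
        apply Real.le_sqrt_of_sq_le
        rw [mul_pow, Real.sq_sqrt hn.le]
        linarith
      have e3 : (n : ℝ) * √n / 3 ≤ ((n : ℝ) - i) * √((n : ℝ) - i) := by
        have e0 : (0 : ℝ) ≤ (n : ℝ) - i := by linarith
        calc (n : ℝ) * √n / 3 = (n / 2) * (√(n : ℝ) * (2 / 3)) := by ring
          _ ≤ _ := by gcongr
      calc C1 * (1 + y) / (((n : ℝ) - i) * √((n : ℝ) - i))
          ≤ C1 * (1 + y) / ((n : ℝ) * √n / 3) := by gcongr
        _ = 3 * C1 / (n * √n) * (1 + y) := by field_simp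
    rw [← ENNReal.ofReal_add hy (sq_nonneg y), ← ENNReal.ofReal_mul hy,
      ← ENNReal.ofReal_mul (by positivity)]
    apply ENNReal.ofReal_le_ofReal
    calc y * hit D ρ (n - i) y ≤ y * (3 * C1 / (n * √n) * (1 + y)) := by gcongr
      _ = 3 * C1 / (n * √n) * (y + y ^ 2) := by ring
  refine (lintegral_mono_ae key).trans ?_
  rw [lintegral_const_mul _ (by fun_prop), lintegral_add_left hm1]
  have e1 : ∫⁻ y, ENNReal.ofReal y ∂(kap D ρ i 0) ≤ ENNReal.ofReal C0 := by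
    have := h0 i 0 le_rfl
    unfold ee at this
    simpa using this
  have e2 : ∫⁻ y, ENNReal.ofReal (y ^ 2) ∂(kap D ρ i 0) ≤ ENNReal.ofReal (C2 * √i) := by
    have := (hm i 0 le_rfl).1
    simpa using this
  have hsi : 1 ≤ √(i : ℝ) := by
    rw [Real.one_le_sqrt]; exact hi1
  have hsin : √(i : ℝ) ≤ √(n : ℝ) := Real.sqrt_le_sqrt (by linarith)
  have hC0 : (0 : ℝ) ≤ C0 := C0.2
  calc ENNReal.ofReal (3 * C1 / (n * √n)) * (∫⁻ y, ENNReal.ofReal y ∂(kap D ρ i 0) +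
        ∫⁻ y, ENNReal.ofReal (y ^ 2) ∂(kap D ρ i 0))
      ≤ ENNReal.ofReal (3 * C1 / (n * √n)) * (ENNReal.ofReal C0 + ENNReal.ofReal (C2 * √i)) := by
        gcongr
    _ = ENNReal.ofReal (3 * C1 / (n * √n) * (C0 + C2 * √i)) := by
        rw [← ENNReal.ofReal_add (by positivity) (by positivity), ← ENNReal.ofReal_mul (by positivity)]
    _ ≤ ENNReal.ofReal (3 * C1 * (C0 + C2) / n) := by
        apply ENNReal.ofReal_le_ofReal
        have : (C0 : ℝ) + C2 * √i ≤ (C0 + C2) * √n := by nlinarith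
        calc 3 * C1 / (n * √n) * (C0 + C2 * √i) ≤ 3 * C1 / (n * √n) * ((C0 + C2) * √n) := by gcongr
          _ = 3 * C1 * (C0 + C2) / n := by field_simp

/-- late times -/
lemma F11g_late {ρ : Measure ℝ} (hD : Dom D) (hρ : Std ρ) : ∃ C > (0 : ℝ), ∀ n i : ℕ, 1 ≤ i →
    i < n → n < 2 * i → ∫⁻ y, ENNReal.ofReal y * ENNReal.ofReal (hit D ρ (n - i) y) ∂(kap D ρ i 0) ≤
      ENNReal.ofReal (C / n) := by
  have := hρ.prob
  obtain ⟨C1, hC1, hh⟩ := hit_sum hD hρ
  obtain ⟨C2, hC2, hw⟩ := win hD hρ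
  refine ⟨2 * C1 * C2, by positivity, fun n i hi hin hin2 => ?_⟩
  have hi1 : (1 : ℝ) ≤ i := by exact_mod_cast hi
  have hn2 : (n : ℝ) ≤ 2 * i := by exact_mod_cast hin2.le
  have hn : (0 : ℝ) < n := by exact_mod_cast (by omega : 0 < n)
  obtain ⟨g, hg0, hg1, hg2, hg3⟩ := hh (n - i) (by omega)
  have key : ∀ᵐ y ∂(kap D ρ i 0), ENNReal.ofReal y * ENNReal.ofReal (hit D ρ (n - i) y) ≤
      ∑' a : ℕ, (Set.Ico (a : ℝ) (a + 1)).indicator
        (fun _ => ENNReal.ofReal ((1 + (a : ℝ)) * g a)) y := by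
    filter_upwards [F11g_ae_nonneg hD i 0 le_rfl] with y hy
    have hy1 : (⌊y⌋₊ : ℝ) ≤ y := Nat.floor_le hy
    have hy2 : y < ⌊y⌋₊ + 1 := Nat.lt_floor_add_one y
    refine le_trans ?_ (ENNReal.le_tsum ⌊y⌋₊)
    rw [Set.indicator_of_mem (by exact ⟨hy1, hy2⟩), ← ENNReal.ofReal_mul hy]
    apply ENNReal.ofReal_le_ofReal
    have h1 := hg1 ⌊y⌋₊ y hy1 hy2
    have h2 := hg0 ⌊y⌋₊
    calc y * hit D ρ (n - i) y ≤ y * g ⌊y⌋₊ := by gcongr
      _ ≤ (1 + (⌊y⌋₊ : ℝ)) * g ⌊y⌋₊ := by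
        gcongr
        linarith
  refine (lintegral_mono_ae key).trans ?_
  rw [lintegral_tsum]
  swap
  · intro a
    exact (measurable_const.indicator measurableSet_Ico).aemeasurable
  have hterm : ∀ a : ℕ, ∫⁻ y, (Set.Ico (a : ℝ) (a + 1)).indicator
        (fun _ => ENNReal.ofReal ((1 + (a : ℝ)) * g a)) y ∂(kap D ρ i 0) ≤
      ENNReal.ofReal ((1 + (a : ℝ)) * g a) * ENNReal.ofReal (C2 / i) := by
    intro a
    rw [lintegral_indicator measurableSet_Ico, setLIntegral_const]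
    gcongr
    have h1 := (hw i hi 0 a le_rfl (by positivity)).2.1
    rw [add_zero, mul_one] at h1
    rw [← ofReal_measureReal]
    exact ENNReal.ofReal_le_ofReal h1
  refine (ENNReal.tsum_le_tsum hterm).trans ?_
  rw [ENNReal.tsum_mul_right]
  have hsum : ∑' a : ℕ, ENNReal.ofReal ((1 + (a : ℝ)) * g a) ≤ ENNReal.ofReal C1 := by
    rw [ENNReal.tsum_eq_iSup_sum]
    refine iSup_le fun A => ?_
    rw [← ENNReal.ofReal_sum_of_nonneg (fun a _ => mul_nonneg (by positivity) (hg0 a))]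
    exact ENNReal.ofReal_le_ofReal (hg2 A)
  calc (∑' a : ℕ, ENNReal.ofReal ((1 + (a : ℝ)) * g a)) * ENNReal.ofReal (C2 / i)
      ≤ ENNReal.ofReal C1 * ENNReal.ofReal (C2 / i) := by gcongr
    _ = ENNReal.ofReal (C1 * (C2 / i)) := by rw [← ENNReal.ofReal_mul hC1.le]
    _ ≤ ENNReal.ofReal (2 * C1 * C2 / n) := by
      apply ENNReal.ofReal_le_ofReal
      rw [mul_div_assoc', div_le_div_iff₀ (by linarith) hn]
      have : 0 < C1 * C2 := by positivity
      nlinarith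

/-- **[FV-F11g]** Tightness of the area: `E[Area; N = n] ≤ C`, i.e. conditional expectation `≤ C n√n`.
PROOF. `∑_{i<n} ∫ x hit (n-i) x ∂(kap i 0)` (`q_markov`). `1 ≤ i ≤ n/2`: `hit (n-i) x ≤ C(1+x)/(n√n)` and
`∫ x(1+x) ∂(kap i 0) ≤ C√i` (`ee_bound`, `mom2`); sum over `i`: `C`. `i > n/2`:
`(kap i 0).real (Ico a (a+1)) ≤ C/i` (`win`, `x = 0`) and `hit_sum`: `∑_a (a+1) g a ≤ C`, so each term is
at most `C/n`. -/
theorem area_tight (hD : Dom D) (hQ : QStd μ ν σ) : ∃ C > (0 : ℝ), ∀ n : ℕ, 1 ≤ n →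
    ∫⁻ ω in EvN D n, ENNReal.ofReal (Area σ n ω) ∂(PQ μ ν) ≤ ENNReal.ofReal C := by
  have := hQ.probμ
  have := hQ.probν
  have hρ := hQ.std
  have := hρ.prob
  obtain ⟨C1, hC1, h1⟩ := F11g_early hD hρ
  obtain ⟨C2, hC2, h2⟩ := F11g_late hD hρ
  refine ⟨C1 + C2, by positivity, fun n hn => ?_⟩
  have hn1 : (0 : ℝ) < n := by exact_mod_cast hn
  have hterm : ∀ i ∈ Finset.range n, ∫⁻ ω in EvN D n, ENNReal.ofReal (nz σ i ω) ∂(PQ μ ν) ≤
      ENNReal.ofReal ((C1 + C2) / n) := by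
    intro i hi
    rw [Finset.mem_range] at hi
    have hq := q_markov hD hQ i (n - i) (by omega) (fun ω => ENNReal.ofReal (nz σ i ω))
      (by exact ENNReal.measurable_ofReal.comp (measurable_nz i))
      (by
        intro ω ω' h
        have hA : Ar i ω = Ar i ω' := by
          unfold Ar
          exact Finset.sum_congr rfl fun j hj => by rw [h j (Finset.mem_range.mp hj)]
        have hB : Dp i ω = Dp i ω' := by
          unfold Dp
          exact Finset.sum_congr rfl fun j hj => by rw [h j (Finset.mem_range.mp hj)]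
        simp only [nz, Zw, hA, hB])
    rw [Nat.add_sub_cancel' hi.le] at hq
    rw [hq]
    have hmeas : Measurable fun y : ℝ => ENNReal.ofReal y *
        ENNReal.ofReal (hit D (stepLaw μ ν σ) (n - i) y) := by
      exact ENNReal.measurable_ofReal.mul
        (ENNReal.measurable_ofReal.comp (measurable_hit hD (n - i)))
    rw [lintegral_alive hD hQ i (fun y => ENNReal.ofReal y *
        ENNReal.ofReal (hit D (stepLaw μ ν σ) (n - i) y)) hmeas]
    rcases Nat.eq_zero_or_pos i with rfl | hi0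
    · rw [kap_zero, lintegral_dirac' _ hmeas]
      simp
    · rcases Nat.lt_or_ge n (2 * i) with h | h
      · refine (h2 n i hi0 hi h).trans (ENNReal.ofReal_le_ofReal ?_)
        gcongr
        linarith
      · refine (h1 n i hi0 h).trans (ENNReal.ofReal_le_ofReal ?_)
        gcongr
        linarith
  calc ∫⁻ ω in EvN D n, ENNReal.ofReal (Area σ n ω) ∂(PQ μ ν)
      ≤ ∫⁻ ω in EvN D n, ∑ i ∈ Finset.range n, ENNReal.ofReal (nz σ i ω) ∂(PQ μ ν) := by
        refine lintegral_mono fun ω => ?_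
        exact F11g_ofReal_sum _ _
    _ = ∑ i ∈ Finset.range n, ∫⁻ ω in EvN D n, ENNReal.ofReal (nz σ i ω) ∂(PQ μ ν) := by
        rw [lintegral_finsetSum]
        intro i _
        exact ENNReal.measurable_ofReal.comp (measurable_nz i)
    _ ≤ ∑ i ∈ Finset.range n, ENNReal.ofReal ((C1 + C2) / n) := Finset.sum_le_sum hterm
    _ = ENNReal.ofReal (C1 + C2) := by
        rw [Finset.sum_const, Finset.card_range, nsmul_eq_mul, ← ENNReal.ofReal_natCast,
          ← ENNReal.ofReal_mul (by positivity)]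
        congr 1
        field_simp

end Pool.Agent.BPT
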