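import Pool.Agent.MP_99a865_pr.FV.Defs

open MeasureTheory ProbabilityTheory Filter Topology
open scoped ENNReal NNReal

namespace Pool.Agent.BPT

lemma G1d_central (m : ℕ) (hm : 1 ≤ m) :
    (Nat.centralBinom m : ℝ) * √m / 4 ^ m =
      Stirling.stirlingSeq (2 * m) / Stirling.stirlingSeq m ^ 2 := by
  have hm0 : (0 : ℝ) < m := by exact_mod_cast hm
  have hc : (Nat.centralBinom m : ℝ) = ((2 * m).factorial : ℝ) / (m.factorial : ℝ) ^ 2 := by
    have h1 := Nat.choose_mul_factorial_mul_factorial (n := 2 * m) (k := m) (by omega)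
    rw [← Nat.centralBinom_eq_two_mul_choose, show 2 * m - m = m by omega] at h1
    have h2 : (Nat.centralBinom m : ℝ) * m.factorial * m.factorial = (2 * m).factorial := by
      exact_mod_cast h1
    have h3 : (m.factorial : ℝ) ≠ 0 := by exact_mod_cast m.factorial_ne_zero
    rw [← h2]; field_simp
  have hfac : (m.factorial : ℝ) ≠ 0 := by exact_mod_cast m.factorial_ne_zero
  have hfac2 : ((2 * m).factorial : ℝ) ≠ 0 := by exact_mod_cast (2 * m).factorial_ne_zero
  rw [hc, Stirling.stirlingSeq, Stirling.stirlingSeq]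
  have e1 : √(2 * ((2 * m : ℕ) : ℝ)) = 2 * √m := by
    rw [show (2 * ((2 * m : ℕ) : ℝ)) = 2 ^ 2 * m by push_cast; ring,
      Real.sqrt_mul (by positivity), Real.sqrt_sq (by norm_num)]
  have e2 : √(2 * (m : ℝ)) ^ 2 = 2 * m := Real.sq_sqrt (by positivity)
  have hsm : √(m : ℝ) ^ 2 = m := Real.sq_sqrt hm0.le
  have hsm0 : √(m : ℝ) ≠ 0 := (Real.sqrt_pos.mpr hm0).ne'
  have he : Real.exp 1 ≠ 0 := (Real.exp_pos 1).ne'
  rw [e1]
  have e3 : (((2 * m : ℕ) : ℝ) / Real.exp 1) ^ (2 * m) = 4 ^ m * ((m / Real.exp 1) ^ m) ^ 2 := by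
    push_cast
    rw [mul_div_assoc, mul_pow, pow_mul, ← pow_mul (m / Real.exp 1) m 2, mul_comm m 2]
    norm_num
  rw [e3]
  have hp : (((m : ℝ) / Real.exp 1) ^ m) ≠ 0 := by positivity
  rw [div_pow (m.factorial : ℝ), mul_pow, e2]
  field_simp
  rw [hsm]

/-- **[FV-G1d]** `catalan m ~ 4^m/(√π m^{3/2})` (Wallis/Stirling: Mathlib's `Stirling` file). -/
theorem catalan_asymp :
    Tendsto (fun m : ℕ => (catalan m : ℝ) * √Real.pi * (m * √m) / 4 ^ m) atTop (𝓝 1) := by
  have hpi : √Real.pi ≠ 0 := (Real.sqrt_pos.mpr Real.pi_pos).ne'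
  have h1 : Tendsto (fun m : ℕ => Stirling.stirlingSeq (2 * m) / Stirling.stirlingSeq m ^ 2)
      atTop (𝓝 (√Real.pi / √Real.pi ^ 2)) := by
    refine Tendsto.div ?_ (Stirling.tendsto_stirlingSeq_sqrt_pi.pow 2) (pow_ne_zero 2 hpi)
    exact Stirling.tendsto_stirlingSeq_sqrt_pi.comp
      (tendsto_id.const_mul_atTop' (by norm_num : 0 < 2))
  have h2 : Tendsto (fun m : ℕ => (m : ℝ) / (m + 1)) atTop (𝓝 1) :=
    tendsto_natCast_div_add_atTop (1 : ℝ)
  have h3 := (h1.mul h2).mul_const (√Real.pi)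
  have e : √Real.pi / √Real.pi ^ 2 * 1 * √Real.pi = 1 := by field_simp
  rw [e] at h3
  refine h3.congr' ?_
  filter_upwards [eventually_ge_atTop 1] with m hm
  have hcat : (catalan m : ℝ) = (Nat.centralBinom m : ℝ) / (m + 1) := by
    have h4 := succ_mul_catalan_eq_centralBinom m
    have h5 : ((m : ℝ) + 1) * catalan m = Nat.centralBinom m := by exact_mod_cast h4
    rw [← h5]; field_simp
  rw [hcat, ← G1d_central m hm]
  field_simp

end Pool.Agent.BPT
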