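import Pool.Agent.MP_99a865_pr.FV.G1b

open MeasureTheory ProbabilityTheory Filter Topology
open scoped ENNReal NNReal

namespace Pool.Agent.BPT

lemma G1e_sum (h m : ℕ) (hm : 1 ≤ m) :
    (cw h (2 * m) 0 : ℝ) / 4 ^ m = 4 / (h + 2) * ∑' k : ℕ, (if 2 * (k + 1) < h + 2 then
      Real.sin (Real.pi * ((k : ℝ) + 1) / (h + 2)) ^ 2 *
        Real.cos (Real.pi * ((k : ℝ) + 1) / (h + 2)) ^ (2 * m) else 0) := by
  classical
  have hH : (0 : ℝ) < (h : ℝ) + 2 := by positivity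
  obtain ⟨f, hf⟩ : ∃ f : ℕ → ℝ, f = fun k : ℕ => Real.sin (Real.pi * (k : ℝ) / (h + 2)) ^ 2 *
      Real.cos (Real.pi * (k : ℝ) / (h + 2)) ^ (2 * m) := ⟨_, rfl⟩
  have hf' : ∀ k : ℕ, f k = Real.sin (Real.pi * (k : ℝ) / (h + 2)) ^ 2 *
      Real.cos (Real.pi * (k : ℝ) / (h + 2)) ^ (2 * m) := fun k => by rw [hf]
  have hsym : ∀ k, k ≤ h + 2 → f (h + 2 - k) = f k := by
    intro k hk
    have e : Real.pi * ((h + 2 - k : ℕ) : ℝ) / (h + 2) = Real.pi - Real.pi * k / (h + 2) := by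
      rw [Nat.cast_sub hk]; push_cast; field_simp
    rw [hf', hf', e, Real.sin_pi_sub, Real.cos_pi_sub, Even.neg_pow ⟨m, by ring⟩]
  have hmid : ∀ k, 2 * k = h + 2 → f k = 0 := by
    intro k hk
    have hk0 : (k : ℝ) ≠ 0 := by
      have : k ≠ 0 := by omega
      exact_mod_cast this
    have e : Real.pi * k / (h + 2) = Real.pi / 2 := by
      have h5 : (h : ℝ) + 2 = 2 * k := by exact_mod_cast hk.symm
      rw [h5]; field_simp
    rw [hf', e, Real.cos_pi_div_two, zero_pow (by omega), mul_zero]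
  have h1 : (cw h (2 * m) 0 : ℝ) = 2 / (h + 2) * ∑ k ∈ Finset.Icc 1 (h + 1), 4 ^ m * f k := by
    rw [cw_formula h (2 * m) 0 (Nat.zero_le h)]
    congr 1
    apply Finset.sum_congr rfl
    intro k _
    rw [hf', Nat.cast_zero, zero_add, mul_one, mul_pow, pow_mul (2 : ℝ) 2 m]
    norm_num
    ring
  have h2 : ∑ k ∈ Finset.Icc 1 (h + 1), f k =
      2 * ∑ k ∈ (Finset.Icc 1 (h + 1)).filter (fun k => 2 * k < h + 2), f k := by
    rw [← Finset.sum_filter_add_sum_filter_not (Finset.Icc 1 (h + 1)) (fun k => 2 * k < h + 2),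
      two_mul]
    congr 1
    have h3 : ∑ k ∈ (Finset.Icc 1 (h + 1)).filter (fun k => ¬ 2 * k < h + 2), f k =
        ∑ k ∈ (Finset.Icc 1 (h + 1)).filter (fun k => h + 2 < 2 * k), f k := by
      symm
      apply Finset.sum_subset
      · intro k hk
        rw [Finset.mem_filter] at hk ⊢
        exact ⟨hk.1, by omega⟩
      · intro k hk hk'
        rw [Finset.mem_filter] at hk hk'
        apply hmid
        have h4 : ¬ (h + 2 < 2 * k) := fun h5 => hk' ⟨hk.1, h5⟩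
        have h5 := hk.2
        omega
    rw [h3]
    refine Finset.sum_nbij' (fun k => h + 2 - k) (fun k => h + 2 - k) ?_ ?_ ?_ ?_ ?_
    · intro k hk
      rw [Finset.mem_filter, Finset.mem_Icc] at hk ⊢
      omega
    · intro k hk
      rw [Finset.mem_filter, Finset.mem_Icc] at hk ⊢
      omega
    · intro k hk
      rw [Finset.mem_filter, Finset.mem_Icc] at hk
      show h + 2 - (h + 2 - k) = k
      omega
    · intro k hk
      rw [Finset.mem_filter, Finset.mem_Icc] at hk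
      show h + 2 - (h + 2 - k) = k
      omega
    · intro k hk
      rw [Finset.mem_filter, Finset.mem_Icc] at hk
      exact (hsym k (by omega)).symm
  have h3 : ∑ k ∈ (Finset.Icc 1 (h + 1)).filter (fun k => 2 * k < h + 2), f k =
      ∑' k : ℕ, (if 2 * (k + 1) < h + 2 then
      Real.sin (Real.pi * ((k : ℝ) + 1) / (h + 2)) ^ 2 *
        Real.cos (Real.pi * ((k : ℝ) + 1) / (h + 2)) ^ (2 * m) else 0) := by
    rw [tsum_eq_sum (s := Finset.range (h + 1))]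
    · rw [Finset.sum_filter]
      have e1 : Finset.Icc 1 (h + 1) = Finset.Ico (0 + 1) (h + 1 + 1) := by
        ext x; simp only [Finset.mem_Icc, Finset.mem_Ico]; omega
      rw [e1, ← Finset.sum_Ico_add', Finset.range_eq_Ico]
      apply Finset.sum_congr rfl
      intro k _
      by_cases hk : 2 * (k + 1) < h + 2
      · rw [if_pos hk, if_pos hk, hf']; push_cast; rfl
      · rw [if_neg hk, if_neg hk]
    · intro k hk
      rw [Finset.mem_range] at hk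
      rw [if_neg (by omega)]
  have h4 : (4 : ℝ) ^ m ≠ 0 := by positivity
  rw [h1, ← Finset.mul_sum, h2, h3]
  field_simp
  ring

lemma G1e_sinc (y : ℝ) : Real.sin y = y * Real.sinc y := by
  by_cases h : y = 0
  · rw [h]; simp
  · rw [Real.sinc_of_ne_zero h]; field_simp

lemma G1e_Hlim {x : ℝ} (h : ℕ → ℕ)
    (hh : Tendsto (fun m : ℕ => (h m : ℝ) / √(2 * m)) atTop (𝓝 x)) :
    Tendsto (fun m : ℕ => ((h m : ℝ) + 2) / √(2 * m)) atTop (𝓝 x) := by
  have hs : Tendsto (fun m : ℕ => √(2 * (m : ℝ))) atTop atTop :=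
    Real.tendsto_sqrt_atTop.comp (tendsto_natCast_atTop_atTop.const_mul_atTop (by norm_num))
  have h1 : Tendsto (fun m : ℕ => 2 / √(2 * (m : ℝ))) atTop (𝓝 0) := hs.const_div_atTop 2
  have h2 := hh.add h1
  rw [add_zero] at h2
  refine h2.congr fun m => ?_
  rw [add_div]

/-- the rescaled terms -/
noncomputable def G1e_t (H : ℝ) (m k : ℕ) : ℝ :=
  4 * √Real.pi * (m * √m / H ^ 3) * (H * Real.sin (Real.pi * ((k : ℝ) + 1) / H)) ^ 2 *
    Real.cos (Real.pi * ((k : ℝ) + 1) / H) ^ (2 * m)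

lemma G1e_scale (H : ℝ) (hH : 0 < H) (m : ℕ) : (m * √m / H ^ 3 : ℝ) =
    (√(2 * m) / H) ^ 3 / (2 * √2) := by
  have h1 : √(2 * (m : ℝ)) = √2 * √m := Real.sqrt_mul (by norm_num) _
  have h2 : √(m : ℝ) ^ 2 = m := Real.sq_sqrt (Nat.cast_nonneg m)
  have h3 : √(2 : ℝ) ^ 2 = 2 := Real.sq_sqrt (by norm_num)
  have h4 : √(2 : ℝ) ≠ 0 := by positivity
  rw [h1, div_pow, mul_pow]
  have h5 : √(m : ℝ) ^ 3 = m * √m := by rw [pow_succ, h2]
  have h6 : √(2 : ℝ) ^ 3 = 2 * √2 := by rw [pow_succ, h3]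
  rw [h5, h6]
  field_simp

lemma G1e_scale2 (H : ℝ) (hH : 0 < H) (m : ℕ) : (m / H ^ 2 : ℝ) = (√(2 * m) / H) ^ 2 / 2 := by
  rw [div_pow, Real.sq_sqrt (by positivity)]
  field_simp

lemma G1e_lim {x : ℝ} (hx : 0 < x) (H : ℕ → ℝ) (hH : ∀ m, 0 < H m)
    (hr : Tendsto (fun m : ℕ => √(2 * (m : ℝ)) / H m) atTop (𝓝 (1 / x)))
    (hi : Tendsto H atTop atTop) (k : ℕ) :
    Tendsto (fun m : ℕ => G1e_t (H m) m k) atTop (𝓝 (√2 * Real.pi ^ (5 / 2 : ℝ) / x ^ 3 *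
      (((k : ℝ) + 1) ^ 2 * Real.exp (-Real.pi ^ 2 * ((k : ℝ) + 1) ^ 2 / (2 * x ^ 2))))) := by
  obtain ⟨c, hc⟩ : ∃ c : ℝ, c = Real.pi * ((k : ℝ) + 1) := ⟨_, rfl⟩
  have hc0 : Tendsto (fun m => c / H m) atTop (𝓝 0) := hi.const_div_atTop c
  have hsinc : Tendsto (fun m => Real.sinc (c / H m)) atTop (𝓝 1) := by
    have h1 := (Real.continuous_sinc.tendsto 0).comp hc0
    rw [Real.sinc_zero] at h1
    exact h1
  have hHs : ∀ m, H m * Real.sin (c / H m) = c * Real.sinc (c / H m) := by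
    intro m
    rw [G1e_sinc]
    have := (hH m).ne'
    field_simp
  have hA : Tendsto (fun m => (H m * Real.sin (c / H m)) ^ 2) atTop (𝓝 (c ^ 2)) := by
    have h1 := (hsinc.const_mul c).pow 2
    rw [mul_one] at h1
    refine h1.congr fun m => ?_
    rw [hHs]
  have hB : Tendsto (fun m : ℕ => ((m : ℝ) * √m / H m ^ 3)) atTop
      (𝓝 ((1 / x) ^ 3 / (2 * √2))) := by
    have h1 := (hr.pow 3).div_const (2 * √2)
    refine h1.congr fun m => ?_
    rw [G1e_scale _ (hH m)]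
  have hC : Tendsto (fun m : ℕ => ((m : ℝ) / H m ^ 2)) atTop (𝓝 ((1 / x) ^ 2 / 2)) := by
    have h1 := (hr.pow 2).div_const 2
    refine h1.congr fun m => ?_
    rw [G1e_scale2 _ (hH m)]
  have hD : Tendsto (fun m : ℕ => Real.cos (c / H m) ^ (2 * m)) atTop
      (𝓝 (Real.exp (-((1 / x) ^ 2 / 2 * c ^ 2)))) := by
    have h1 : Tendsto (fun m : ℕ => (m : ℝ) * (-Real.sin (c / H m) ^ 2)) atTop
        (𝓝 (-((1 / x) ^ 2 / 2 * c ^ 2))) := by
      have h2 := (hC.mul hA).neg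
      refine h2.congr fun m => ?_
      have := (hH m).ne'
      field_simp
    have h3 := Real.tendsto_one_add_pow_exp_of_tendsto h1
    refine h3.congr fun m => ?_
    rw [pow_mul, Real.cos_sq', sub_eq_add_neg]
  have hE := ((hB.const_mul (4 * √Real.pi)).mul hA).mul hD
  have hval : 4 * √Real.pi * ((1 / x) ^ 3 / (2 * √2)) * c ^ 2 *
      Real.exp (-((1 / x) ^ 2 / 2 * c ^ 2)) = √2 * Real.pi ^ (5 / 2 : ℝ) / x ^ 3 *
      (((k : ℝ) + 1) ^ 2 * Real.exp (-Real.pi ^ 2 * ((k : ℝ) + 1) ^ 2 / (2 * x ^ 2))) := by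
    have e1 : -((1 / x) ^ 2 / 2 * c ^ 2) = -Real.pi ^ 2 * ((k : ℝ) + 1) ^ 2 / (2 * x ^ 2) := by
      rw [hc]; field_simp
    have e2 : Real.pi ^ (5 / 2 : ℝ) = Real.pi ^ 2 * √Real.pi := by
      rw [show (5 / 2 : ℝ) = 2 + 1 / 2 by norm_num, Real.rpow_add Real.pi_pos,
        Real.sqrt_eq_rpow, Real.rpow_two]
    have e3 : √(2 : ℝ) ^ 2 = 2 := Real.sq_sqrt (by norm_num)
    have e4 : √(2 : ℝ) ≠ 0 := by positivity
    rw [e1, e2, hc]
    generalize Real.exp (-Real.pi ^ 2 * ((k : ℝ) + 1) ^ 2 / (2 * x ^ 2)) = E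
    field_simp
    rw [e3]; ring
  rw [← hval]
  refine hE.congr fun m => ?_
  rw [G1e_t, ← hc]

lemma G1e_bound (H : ℝ) (hH : 0 < H) (m k : ℕ) (x : ℝ) (hx : 0 < x)
    (h1 : √(2 * (m : ℝ)) / H ≤ 2 / x) (h2 : 1 / (2 * x) ≤ √(2 * (m : ℝ)) / H)
    (hk : 2 * ((k : ℝ) + 1) ≤ H) :
    ‖G1e_t H m k‖ ≤ 4 * √Real.pi * ((2 / x) ^ 3 / (2 * √2)) * Real.pi ^ 2 *
      (((k : ℝ) + 1) ^ 2 * Real.exp (-(1 / (2 * x ^ 2)) * ((k : ℝ) + 1))) := by
  have hk1 : (1 : ℝ) ≤ (k : ℝ) + 1 := by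
    have : (0 : ℝ) ≤ k := Nat.cast_nonneg k
    linarith
  obtain ⟨t, ht⟩ : ∃ t : ℝ, t = Real.pi * ((k : ℝ) + 1) / H := ⟨_, rfl⟩
  have hpi := Real.pi_pos
  have ht0 : 0 < t := by rw [ht]; positivity
  have htpi : t ≤ Real.pi / 2 := by
    rw [ht, div_le_div_iff₀ hH (by norm_num)]
    nlinarith
  have hs0 : 0 ≤ Real.sin t := Real.sin_nonneg_of_nonneg_of_le_pi ht0.le (by linarith)
  have hs1 : Real.sin t ≤ t := Real.sin_le ht0.le
  have hs2 : 2 / Real.pi * t ≤ Real.sin t := Real.mul_le_sin ht0.le htpi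
  have hHs : (H * Real.sin t) ^ 2 ≤ (Real.pi * ((k : ℝ) + 1)) ^ 2 := by
    apply pow_le_pow_left₀ (by positivity)
    calc H * Real.sin t ≤ H * t := mul_le_mul_of_nonneg_left hs1 hH.le
      _ = Real.pi * ((k : ℝ) + 1) := by rw [ht]; field_simp
  have hcos : Real.cos t ^ (2 * m) ≤ Real.exp (-(1 / (2 * x ^ 2)) * ((k : ℝ) + 1)) := by
    rw [pow_mul, Real.cos_sq']
    have h3 : 1 - Real.sin t ^ 2 ≤ Real.exp (-(Real.sin t ^ 2)) :=
      Real.one_sub_le_exp_neg _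
    have h4 : 0 ≤ 1 - Real.sin t ^ 2 := by rw [← Real.cos_sq']; positivity
    calc (1 - Real.sin t ^ 2) ^ m ≤ (Real.exp (-(Real.sin t ^ 2))) ^ m :=
          pow_le_pow_left₀ h4 h3 m
      _ = Real.exp (m * (-(Real.sin t ^ 2))) := (Real.exp_nat_mul _ _).symm
      _ ≤ Real.exp (-(1 / (2 * x ^ 2)) * ((k : ℝ) + 1)) := by
          apply Real.exp_le_exp.mpr
          have h5 : (2 / Real.pi * t) ^ 2 ≤ Real.sin t ^ 2 :=
            pow_le_pow_left₀ (by positivity) hs2 2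
          have h6 : (m : ℝ) * (2 / Real.pi * t) ^ 2 = 4 * (m / H ^ 2) * ((k : ℝ) + 1) ^ 2 := by
            rw [ht]; field_simp
            norm_num
          have h7 : (1 / (2 * x)) ^ 2 / 2 ≤ (m / H ^ 2 : ℝ) := by
            rw [G1e_scale2 H hH m]
            have : (1 / (2 * x)) ^ 2 ≤ (√(2 * (m : ℝ)) / H) ^ 2 :=
              pow_le_pow_left₀ (by positivity) h2 2
            linarith
          have h8 : (1 / (2 * x)) ^ 2 / 2 * 4 = 1 / (2 * x ^ 2) := by field_simp; norm_num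
          have h9 : (0 : ℝ) ≤ m := Nat.cast_nonneg m
          have h10 : (m : ℝ) * (2 / Real.pi * t) ^ 2 ≤ m * Real.sin t ^ 2 :=
            mul_le_mul_of_nonneg_left h5 h9
          have h11 : 1 / (2 * x ^ 2) * ((k : ℝ) + 1) ≤ 4 * (m / H ^ 2) * ((k : ℝ) + 1) ^ 2 := by
            have h12 : 1 / (2 * x ^ 2) ≤ 4 * (m / H ^ 2 : ℝ) := by linarith
            have h13 : ((k : ℝ) + 1) ≤ ((k : ℝ) + 1) ^ 2 := by nlinarith
            have h14 : (0 : ℝ) ≤ 1 / (2 * x ^ 2) := by positivity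
            calc 1 / (2 * x ^ 2) * ((k : ℝ) + 1) ≤ 1 / (2 * x ^ 2) * ((k : ℝ) + 1) ^ 2 :=
                  mul_le_mul_of_nonneg_left h13 h14
              _ ≤ _ := mul_le_mul_of_nonneg_right h12 (by positivity)
          linarith
  have hcos0 : 0 ≤ Real.cos t ^ (2 * m) := by rw [pow_mul]; positivity
  have hm3 : (m * √m / H ^ 3 : ℝ) ≤ (2 / x) ^ 3 / (2 * √2) := by
    rw [G1e_scale H hH m]
    apply div_le_div_of_nonneg_right _ (by positivity)
    exact pow_le_pow_left₀ (by positivity) h1 3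
  have hm30 : 0 ≤ (m * √m / H ^ 3 : ℝ) := by positivity
  rw [G1e_t, ← ht, Real.norm_of_nonneg (by positivity)]
  calc 4 * √Real.pi * (m * √m / H ^ 3) * (H * Real.sin t) ^ 2 * Real.cos t ^ (2 * m)
      ≤ 4 * √Real.pi * ((2 / x) ^ 3 / (2 * √2)) * (Real.pi * ((k : ℝ) + 1)) ^ 2 *
        Real.exp (-(1 / (2 * x ^ 2)) * ((k : ℝ) + 1)) := by
        gcongr
    _ = _ := by ring

/-- **[FV-G1e]** Asymptotics of the restricted numbers.
PROOF. `H = h m + 2 ~ x√(2m)`. By symmetry `k ↔ H - k` in `cw_formula` (`j = 0`):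
`cw/4^m = (4/H) ∑_{1 ≤ k < H/2} sin²(πk/H) cos^{2m}(πk/H)` (the term `k = H/2` vanishes for `m ≥ 1`).
Multiply by `√π m^{3/2}`: the `k`-th term is `4√π (m^{3/2}/H³) (H² sin²(πk/H)) cos^{2m}(πk/H)`, which tends to
`4√π (2√2 x³)^{-1} π²k² exp(-π²k²/(2x²))`, dominated by `C k² exp(-m π²k²/H²) ≤ C k² e^{-c k²}`
(`|sin t| ≤ t`, `cos t ≤ e^{-t²/2}` on `[0, π/2]`; `Real.cos_le_exp_neg_sq_div_two` or prove it). Use
`tendsto_tsum_of_dominated_convergence`. -/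
theorem cw_asymp {x : ℝ} (hx : 0 < x) (h : ℕ → ℕ)
    (hh : Tendsto (fun m : ℕ => (h m : ℝ) / √(2 * m)) atTop (𝓝 x)) :
    Tendsto (fun m : ℕ => (cw (h m) (2 * m) 0 : ℝ) * √Real.pi * (m * √m) / 4 ^ m) atTop
      (𝓝 (FF x)) := by
  have hH1 := G1e_Hlim h hh
  have hHpos : ∀ m, (0 : ℝ) < (h m : ℝ) + 2 := fun m => by positivity
  have hr : Tendsto (fun m : ℕ => √(2 * (m : ℝ)) / ((h m : ℝ) + 2)) atTop (𝓝 (1 / x)) := by
    have h1 := hH1.inv₀ hx.ne'
    rw [one_div]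
    refine h1.congr fun m => ?_
    rw [inv_div]
  have hs : Tendsto (fun m : ℕ => √(2 * (m : ℝ))) atTop atTop :=
    Real.tendsto_sqrt_atTop.comp (tendsto_natCast_atTop_atTop.const_mul_atTop (by norm_num))
  have hi : Tendsto (fun m : ℕ => (h m : ℝ) + 2) atTop atTop := by
    have h1 := hH1.pos_mul_atTop hx hs
    refine h1.congr' ?_
    filter_upwards [eventually_ge_atTop 1] with m hm
    have : √(2 * (m : ℝ)) ≠ 0 := by
      have : (0 : ℝ) < m := by exact_mod_cast hm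
      positivity
    field_simp
  have hsumm : Summable (fun k : ℕ => 4 * √Real.pi * ((2 / x) ^ 3 / (2 * √2)) * Real.pi ^ 2 *
      (((k : ℝ) + 1) ^ 2 * Real.exp (-(1 / (2 * x ^ 2)) * ((k : ℝ) + 1)))) := by
    apply Summable.mul_left
    have h1 := Real.summable_pow_mul_exp_neg_nat_mul 2 (r := 1 / (2 * x ^ 2)) (by positivity)
    have h2 := (summable_nat_add_iff 1).mpr h1
    refine h2.congr fun k => ?_
    push_cast; rfl
  have hlim := tendsto_tsum_of_dominated_convergence (𝓕 := atTop)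
    (f := fun m k => if 2 * (k + 1) < h m + 2 then G1e_t ((h m : ℝ) + 2) m k else 0)
    (g := fun k : ℕ => √2 * Real.pi ^ (5 / 2 : ℝ) / x ^ 3 *
      (((k : ℝ) + 1) ^ 2 * Real.exp (-Real.pi ^ 2 * ((k : ℝ) + 1) ^ 2 / (2 * x ^ 2))))
    hsumm ?_ ?_
  · rw [tsum_mul_left] at hlim
    have hFF : FF x = √2 * Real.pi ^ (5 / 2 : ℝ) / x ^ 3 *
      ∑' k : ℕ, ((k : ℝ) + 1) ^ 2 * Real.exp (-Real.pi ^ 2 * ((k : ℝ) + 1) ^ 2 / (2 * x ^ 2)) :=
      rfl
    rw [hFF]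
    refine hlim.congr' ?_
    filter_upwards [eventually_ge_atTop 1] with m hm
    have h1 := G1e_sum (h m) m hm
    have h2 : (cw (h m) (2 * m) 0 : ℝ) * √Real.pi * (m * √m) / 4 ^ m =
        √Real.pi * (m * √m) * ((cw (h m) (2 * m) 0 : ℝ) / 4 ^ m) := by ring
    rw [h2, h1, ← mul_assoc, ← tsum_mul_left]
    apply tsum_congr
    intro k
    by_cases hk : 2 * (k + 1) < h m + 2
    · rw [if_pos hk, if_pos hk, G1e_t]
      have := (hHpos m).ne'
      field_simp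
    · rw [if_neg hk, if_neg hk, mul_zero]
  · intro k
    have h1 := G1e_lim hx (fun m => (h m : ℝ) + 2) hHpos hr hi k
    refine h1.congr' ?_
    filter_upwards [hi.eventually_gt_atTop (2 * ((k : ℝ) + 1))] with m hm
    rw [if_pos]
    exact_mod_cast hm
  · have e1 : ∀ᶠ m : ℕ in atTop, √(2 * (m : ℝ)) / ((h m : ℝ) + 2) < 2 / x :=
      hr.eventually_lt_const (by
        rw [div_lt_div_iff_of_pos_right hx]; norm_num)
    have e2 : ∀ᶠ m : ℕ in atTop, 1 / (2 * x) < √(2 * (m : ℝ)) / ((h m : ℝ) + 2) :=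
      hr.eventually_const_lt (by
        apply one_div_lt_one_div_of_lt hx; linarith)
    filter_upwards [e1, e2] with m h1 h2 k
    by_cases hk : 2 * (k + 1) < h m + 2
    · rw [if_pos hk]
      apply G1e_bound _ (hHpos m) m k x hx h1.le h2.le
      exact_mod_cast hk.le
    · rw [if_neg hk, norm_zero]
      positivity

end Pool.Agent.BPT
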