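import Pool.Agent.MP_99a865_pr.FV.G1c
import Pool.Agent.MP_99a865_pr.FV.G1d
import Pool.Agent.MP_99a865_pr.FV.G1e

open MeasureTheory ProbabilityTheory Filter Topology
open scoped ENNReal NNReal

namespace Pool.Agent.BPT

lemma G1f_floor (m : ℕ) (y : ℝ) (hy : 0 ≤ y) :
    (PQ muS nuS).real (EvN (Set.Ici 0) (2 * m + 1) ∩ {ω | Mx (1 / 2) (2 * m + 1) ω ≤ y}) =
      cw ⌊y⌋₊ (2 * m) 0 / 2 ^ (2 * m + 1) := by
  rw [← srw_max]
  apply measureReal_congr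
  filter_upwards [G1a_parity] with ω hω
  apply propext
  change (ω ∈ EvN (Set.Ici 0) (2 * m + 1) ∧ Mx (1 / 2) (2 * m + 1) ω ≤ y) ↔
    (ω ∈ EvN (Set.Ici 0) (2 * m + 1) ∧ Mx (1 / 2) (2 * m + 1) ω ≤ (⌊y⌋₊ : ℝ))
  refine and_congr_right fun _ => ⟨fun h => ?_, fun h => h.trans (Nat.floor_le hy)⟩
  refine ciSup_le fun i => ?_
  have hbdd : BddAbove (Set.range fun i : Fin (2 * m + 1) => nz (1 / 2) (i : ℕ) ω) :=
    (Set.finite_range _).bddAbove
  have h1 : nz (1 / 2) (i : ℕ) ω ≤ y := le_trans (le_ciSup hbdd i) h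
  obtain ⟨d, hd, -⟩ := hω (i : ℕ)
  rw [hd] at h1 ⊢
  have h2 : (((i : ℕ) : ℤ) - 2 * d) ≤ ⌊y⌋ := by
    rw [Int.le_floor]; push_cast; exact h1
  have h3 : ((⌊y⌋₊ : ℕ) : ℝ) = ((⌊y⌋ : ℤ) : ℝ) := natCast_floor_eq_intCast_floor hy
  rw [h3]
  have h4 : ((((i : ℕ) : ℤ) - 2 * d : ℤ) : ℝ) ≤ ((⌊y⌋ : ℤ) : ℝ) := by exact_mod_cast h2
  push_cast at h4
  exact h4

/-- **[FV-G1f]** The maximum of the simple random walk excursion. -/
theorem srw_limit {x : ℝ} (hx : 0 < x) (y : ℕ → ℝ)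
    (hy : Tendsto (fun m : ℕ => y m / √(2 * m)) atTop (𝓝 x)) :
    Tendsto (fun m : ℕ => (PQ muS nuS).real (EvN (Set.Ici 0) (2 * m + 1) ∩
      {ω | Mx (1 / 2) (2 * m + 1) ω ≤ y m}) / (PQ muS nuS).real (EvN (Set.Ici 0) (2 * m + 1)))
      atTop (𝓝 (FF x)) := by
  have hs : Tendsto (fun m : ℕ => √(2 * (m : ℝ))) atTop atTop :=
    Real.tendsto_sqrt_atTop.comp (tendsto_natCast_atTop_atTop.const_mul_atTop (by norm_num))
  have hpos : ∀ᶠ m : ℕ in atTop, 0 ≤ y m := by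
    filter_upwards [hy.eventually_const_lt hx, hs.eventually_gt_atTop 0] with m h1 h2
    exact ((div_pos_iff_of_pos_right h2).mp h1).le
  have hfl : Tendsto (fun m : ℕ => (⌊y m⌋₊ : ℝ) / √(2 * m)) atTop (𝓝 x) := by
    have h1 : Tendsto (fun m : ℕ => y m / √(2 * (m : ℝ)) - 1 / √(2 * (m : ℝ))) atTop (𝓝 x) := by
      have := hy.sub (hs.const_div_atTop 1)
      rwa [sub_zero] at this
    refine tendsto_of_tendsto_of_tendsto_of_le_of_le' h1 hy ?_ ?_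
    · filter_upwards [hs.eventually_gt_atTop 0] with m h2
      rw [← sub_div]
      exact div_le_div_of_nonneg_right (Nat.sub_one_lt_floor (y m)).le h2.le
    · filter_upwards [hs.eventually_gt_atTop 0, hpos] with m h2 h3
      exact div_le_div_of_nonneg_right (Nat.floor_le h3) h2.le
  have h1 := (cw_asymp hx (fun m => ⌊y m⌋₊) hfl).div catalan_asymp one_ne_zero
  rw [div_one] at h1
  refine h1.congr' ?_
  filter_upwards [hpos, eventually_ge_atTop 1] with m hm hm1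
  show (cw ⌊y m⌋₊ (2 * m) 0 : ℝ) * √Real.pi * (m * √m) / 4 ^ m /
    ((catalan m : ℝ) * √Real.pi * (m * √m) / 4 ^ m) = _
  rw [G1f_floor m (y m) hm, srw_total]
  have hm0 : (0 : ℝ) < m := by exact_mod_cast hm1
  have hc : (catalan m : ℝ) ≠ 0 := by
    have h4 := succ_mul_catalan_eq_centralBinom m
    have h5 := Nat.centralBinom_pos m
    intro h6
    have h7 : catalan m = 0 := by exact_mod_cast h6
    rw [h7] at h4
    omega
  have hpi : √Real.pi ≠ 0 := (Real.sqrt_pos.mpr Real.pi_pos).ne'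
  have hsm : √(m : ℝ) ≠ 0 := (Real.sqrt_pos.mpr hm0).ne'
  field_simp

end Pool.Agent.BPT
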