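import Pool.Agent.MP_99a865_pr.FV.Defs

open MeasureTheory ProbabilityTheory Filter Topology
open scoped ENNReal NNReal

namespace Pool.Agent.BPT

/-- generating function of `dy` -/
noncomputable def G2b_E (w : ℕ → ℝ) : PowerSeries ℝ := PowerSeries.mk fun m => dy m w

/-- the series `w₀ X E(w)` -/
noncomputable def G2b_B (w : ℕ → ℝ) : PowerSeries ℝ :=
  PowerSeries.C (w 0) * (PowerSeries.X * G2b_E w)

theorem G2b_dy_succ (m : ℕ) (w : ℕ → ℝ) :
    dy (m + 1) w = w 1 * ∑ p ∈ Finset.HasAntidiagonal.antidiagonal m, dy p.1 (fun j => w (j + 1)) * dy p.2 w := by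
  rw [dy, Finset.Nat.sum_antidiagonal_eq_sum_range_succ
    (fun i j => dy i (fun j => w (j + 1)) * dy j w) m, Finset.sum_range]

theorem G2b_E_eq (w : ℕ → ℝ) : G2b_E w = 1 + G2b_B (fun j => w (j + 1)) * G2b_E w := by
  ext n
  cases n with
  | zero =>
    simp [G2b_E, G2b_B, dy]
  | succ m =>
    have h1 : G2b_B (fun j => w (j + 1)) * G2b_E w
        = PowerSeries.C (w 1) * (PowerSeries.X * (G2b_E (fun j => w (j + 1)) * G2b_E w)) := by
      simp only [G2b_B, zero_add]
      ring
    rw [map_add, h1, PowerSeries.coeff_C_mul, PowerSeries.coeff_succ_X_mul, PowerSeries.coeff_mul]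
    simp only [G2b_E, PowerSeries.coeff_mk]
    rw [G2b_dy_succ]
    simp [PowerSeries.coeff_one]

theorem G2b_B_order (w : ℕ → ℝ) (k n : ℕ) (h : n < k) :
    PowerSeries.coeff n (G2b_B w ^ k) = 0 := by
  have h1 : G2b_B w ^ k = PowerSeries.X ^ k * (PowerSeries.C (w 0) * G2b_E w) ^ k := by
    rw [← mul_pow]
    congr 1
    simp only [G2b_B]
    ring
  rw [h1, PowerSeries.coeff_X_pow_mul']
  rw [if_neg (by omega)]

/-- truncated negative binomial series -/
noncomputable def G2b_P (B : PowerSeries ℝ) (N z : ℕ) : PowerSeries ℝ :=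
  ∑ j ∈ Finset.range (N + 1), PowerSeries.C ((z + j - 1).choose j : ℝ) * B ^ j

theorem G2b_tele (B : PowerSeries ℝ) (N z : ℕ) :
    (1 - B) * G2b_P B N (z + 1) = G2b_P B N z -
      PowerSeries.C ((z + N).choose N : ℝ) * B ^ (N + 1) := by
  induction N with
  | zero =>
    simp [G2b_P]
  | succ N ih =>
    have h1 : G2b_P B (N + 1) (z + 1) = G2b_P B N (z + 1) +
        PowerSeries.C ((z + (N + 1)).choose (N + 1) : ℝ) * B ^ (N + 1) := by
      have e1 : z + 1 + (N + 1) - 1 = z + (N + 1) := by omega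
      rw [G2b_P, Finset.sum_range_succ, ← G2b_P, e1]
    have h2 : G2b_P B (N + 1) z = G2b_P B N z +
        PowerSeries.C ((z + N).choose (N + 1) : ℝ) * B ^ (N + 1) := by
      rw [G2b_P, Finset.sum_range_succ, ← G2b_P]
      rfl
    have h3 : ((z + (N + 1)).choose (N + 1) : ℝ) = ((z + N).choose N : ℝ)
        + ((z + N).choose (N + 1) : ℝ) := by
      have : (z + (N + 1)).choose (N + 1) = (z + N).choose N + (z + N).choose (N + 1) := by
        rw [← add_assoc, Nat.choose_succ_succ]
      exact_mod_cast this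
    rw [h1, mul_add, ih, h2, h3, map_add]
    ring

theorem G2b_pow (w : ℕ → ℝ) (N z n : ℕ) (hn : n ≤ N) :
    PowerSeries.coeff n (G2b_E w ^ z) =
      PowerSeries.coeff n (G2b_P (G2b_B (fun j => w (j + 1))) N z) := by
  set B := G2b_B (fun j => w (j + 1)) with hB
  have key : ∀ z, ∃ R : PowerSeries ℝ, G2b_E w ^ z = G2b_P B N z + R * B ^ (N + 1) := by
    intro z
    induction z with
    | zero =>
      refine ⟨0, ?_⟩
      rw [G2b_P, Finset.sum_range_succ', zero_mul, add_zero, pow_zero]
      rw [Finset.sum_eq_zero]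
      · simp
      · intro j _
        have : (0 + (j + 1) - 1).choose (j + 1) = 0 := Nat.choose_eq_zero_of_lt (by omega)
        rw [this]
        simp
    | succ z ih =>
      obtain ⟨R, hR⟩ := ih
      have hE : (1 - B) * G2b_E w = 1 := by
        have := G2b_E_eq w
        rw [← hB] at this
        linear_combination this
      refine ⟨G2b_E w * (PowerSeries.C ((z + N).choose N : ℝ) + R), ?_⟩
      have ht := G2b_tele B N z
      rw [pow_succ, hR]
      linear_combination (-G2b_E w) * ht + (G2b_P B N (z + 1)) * hE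
  obtain ⟨R, hR⟩ := key z
  rw [hR, map_add]
  have : PowerSeries.coeff n (R * B ^ (N + 1)) = 0 := by
    rw [PowerSeries.coeff_mul]
    refine Finset.sum_eq_zero fun p hp => ?_
    rw [Finset.HasAntidiagonal.mem_antidiagonal] at hp
    rw [G2b_B_order _ _ _ (by omega), mul_zero]
  rw [this, add_zero]

theorem G2b_gw (n : ℕ) : ∀ (z : ℕ) (w : ℕ → ℝ),
    gw n z w = PowerSeries.coeff n (G2b_B w ^ z) := by
  induction n using Nat.strong_induction_on with
  | _ n ih =>
    intro z w
    cases n with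
    | zero =>
      rw [gw]
      cases z with
      | zero => simp
      | succ z =>
        rw [G2b_B_order _ _ _ (Nat.succ_pos z)]
        simp
    | succ n =>
      rw [gw]
      by_cases hz : 1 ≤ z ∧ z ≤ n + 1
      · rw [if_pos hz]
        have h1 : G2b_B w ^ z = PowerSeries.C (w 0 ^ z) * (PowerSeries.X ^ z * G2b_E w ^ z) := by
          simp only [G2b_B, mul_pow, map_pow]
        rw [h1, PowerSeries.coeff_C_mul, PowerSeries.coeff_X_pow_mul', if_pos hz.2,
          G2b_pow w (n + 1) z (n + 1 - z) (by omega), G2b_P, map_sum]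
        congr 1
        refine Finset.sum_congr rfl fun j _ => ?_
        rw [PowerSeries.coeff_C_mul, ih (n + 1 - z) (by omega) j]
      · rw [if_neg hz]
        rcases Nat.eq_zero_or_pos z with h0 | h0
        · subst h0
          simp [PowerSeries.coeff_one]
        · rw [G2b_B_order _ _ _ (by omega)]

/-- **[FV-G2b]** Plane trees and Dyck paths have the same profiles.
PROOF. For `w : ℕ → ℝ` let `A_z(w)(s) = ∑_n gw n z w s^n`, `E(w)(s) = ∑_m dy m w s^m` (formal power series).
By definition `E(w) = 1 + w₁ s E(θw) E(w)`, `θw j = w (j+1)`, i.e. `E(w) (1 - w₁ s E(θw)) = 1`; and for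
`z ≥ 1`, `A_z(w) = (w₀ s)^z ∑_{z'} C(z+z'-1, z') A_{z'}(θw)`, `A_0 = 1`. CLAIM `A_z(w) = (w₀ s E(w))^z`: both
sides have the same coefficient of `s^n` for all `z, w`, by strong induction on `n`: for `z ≥ 1` the
coefficient of `s^n` in `A_z(w)` is `w₀^z` times the coefficient of `s^{n-z}` in
`∑_{z'} C(z+z'-1,z') (w₁ s E(θw))^{z'} = (1 - w₁ s E(θw))^{-z} = E(w)^z` (IH for `θw`; only `z' ≤ n - z`
matters). Alternatively prove the convolution identity `gw n (z+1) w = ∑_i gw i z w · gw (n-i) 1 w` by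
induction directly, using Vandermonde for `C(z+z'-1, z')`. -/
theorem gw_one (n : ℕ) (w : ℕ → ℝ) : gw (n + 1) 1 w = w 0 * dy n w := by
  rw [G2b_gw, pow_one, G2b_B, PowerSeries.coeff_C_mul, PowerSeries.coeff_succ_X_mul, G2b_E,
    PowerSeries.coeff_mk]

end Pool.Agent.BPT
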