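import Pool.Agent.MP_99a865_pr.FV.G0

open MeasureTheory ProbabilityTheory Filter Topology
open scoped ENNReal NNReal

namespace Pool.Agent.BPT

/-- weighted number of `±1` paths of length `n` from `y` first hitting `0` at time `n` (an up-step from
`y` has the weight `w y`) -/
noncomputable def G2c_p : ℕ → ℕ → (ℕ → ℝ) → ℝ
  | 0, y, _ => if y = 0 then 1 else 0
  | _ + 1, 0, _ => 0
  | n + 1, y + 1, w => w (y + 1) * G2c_p n (y + 2) w + G2c_p n y w

theorem G2c_p_zero (y : ℕ) (w : ℕ → ℝ) : G2c_p 0 y w = if y = 0 then 1 else 0 := by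
  rw [G2c_p]

theorem G2c_p_succ_zero (n : ℕ) (w : ℕ → ℝ) : G2c_p (n + 1) 0 w = 0 := by
  rw [G2c_p]

theorem G2c_p_succ (n y : ℕ) (w : ℕ → ℝ) : G2c_p (n + 1) (y + 1) w =
    w (y + 1) * G2c_p n (y + 2) w + G2c_p n y w := by
  rw [G2c_p]

theorem G2c_conv (n : ℕ) : ∀ (a b : ℕ) (w : ℕ → ℝ), G2c_p n (a + b) w =
    ∑ x ∈ Finset.HasAntidiagonal.antidiagonal n, G2c_p x.1 a (fun k => w (k + b)) * G2c_p x.2 b w := by
  induction n with
  | zero =>
    intro a b w
    rw [Finset.Nat.antidiagonal_zero, Finset.sum_singleton]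
    simp only [G2c_p_zero]
    by_cases ha : a = 0 <;> by_cases hb : b = 0 <;> simp [ha, hb]
  | succ n ih =>
    intro a b w
    rw [Finset.Nat.antidiagonal_succ, Finset.sum_cons, Finset.sum_map]
    simp only [Function.Embedding.prodMap, Function.Embedding.coeFn_mk, Prod.map_fst, Prod.map_snd,
      Function.Embedding.refl_apply, Nat.succ_eq_add_one]
    cases a with
    | zero =>
      have h1 : ∀ x : ℕ × ℕ, G2c_p (x.1 + 1) 0 (fun k => w (k + b)) * G2c_p x.2 b w = 0 := by
        intro x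
        simp [G2c_p]
      rw [Finset.sum_eq_zero fun x _ => h1 x]
      simp [G2c_p]
    | succ a =>
      have e1 : a + 1 + b = (a + b) + 1 := by omega
      have e2 : a + b + 2 = (a + 2) + b := by omega
      rw [e1, G2c_p_succ, e2, ih (a + 2) b w, ih a b w]
      have h0 : G2c_p 0 (a + 1) (fun k => w (k + b)) = 0 := by simp [G2c_p_zero]
      rw [h0, zero_mul, zero_add, Finset.mul_sum, ← Finset.sum_add_distrib]
      refine Finset.sum_congr rfl fun x _ => ?_
      rw [G2c_p_succ]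
      have e3 : a + 1 + b = a + b + 1 := by omega
      rw [e3]
      ring

theorem G2c_parity (n : ℕ) : ∀ (y : ℕ) (w : ℕ → ℝ), (n + y) % 2 = 1 → G2c_p n y w = 0 := by
  induction n with
  | zero =>
    intro y w h
    have : y ≠ 0 := by rintro rfl; simp at h
    simp [G2c_p, this]
  | succ n ih =>
    intro y w h
    cases y with
    | zero => simp [G2c_p]
    | succ y =>
      rw [G2c_p, ih (y + 2) w (by omega), ih y w (by omega)]
      ring

theorem G2c_dy (m : ℕ) : ∀ w : ℕ → ℝ, G2c_p (2 * m + 1) 1 w = dy m w := by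
  induction m using Nat.strong_induction_on with
  | _ m ih =>
    intro w
    cases m with
    | zero => simp [G2c_p, dy]
    | succ m =>
      have e1 : 2 * (m + 1) + 1 = (2 * m + 2) + 1 := by ring
      have h0 : G2c_p (2 * m + 2) 0 w = 0 := by
        rw [G2c_p]
      rw [e1, G2c_p, h0, add_zero, show 0 + 2 = 1 + 1 from rfl, G2c_conv, dy, zero_add]
      congr 1
      rw [Finset.Nat.sum_antidiagonal_eq_sum_range_succ
        (fun i j => G2c_p i 1 (fun k => w (k + 1)) * G2c_p j 1 w) (2 * m + 2),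
        ← Finset.sum_range (fun i => dy i (fun j => w (j + 1)) * dy (m - i) w)]
      -- only odd indices
      symm
      refine Finset.sum_of_injOn (fun i => 2 * i + 1) ?_ ?_ ?_ ?_
      · intro a _ b _ h
        have h' : 2 * a + 1 = 2 * b + 1 := h
        omega
      · intro i hi
        simp only [Finset.coe_range, Set.mem_Iio] at hi ⊢
        omega
      · intro k hk hk2
        have : k % 2 = 0 := by
          by_contra hc
          apply hk2
          refine ⟨(k - 1) / 2, ?_, ?_⟩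
          · simp only [Finset.coe_range, Set.mem_Iio]
            rw [Finset.mem_range] at hk
            omega
          · show 2 * ((k - 1) / 2) + 1 = k
            omega
        rw [G2c_parity k 1 _ (by omega), zero_mul]
      · intro i hi
        rw [Finset.mem_range] at hi
        have e2 : 2 * m + 2 - (2 * i + 1) = 2 * (m - i) + 1 := by omega
        show _ = G2c_p (2 * i + 1) 1 (fun k => w (k + 1)) * G2c_p (2 * m + 2 - (2 * i + 1)) 1 w
        rw [e2, ih i (by omega), ih (m - i) (by omega)]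


/-- the path functional -/
noncomputable def G2c_Phi : ℕ → ℕ → (ℕ → ℝ) → (ℕ → ℝ × ℝ) → ℝ
  | 0, y, _, _ => if y = 0 then 1 else 0
  | _ + 1, 0, _, _ => 0
  | n + 1, y + 1, w, ω => if (ω 0).1 < 1 then w (y + 1) * G2c_Phi n (y + 2) w (shift 1 ω)
      else G2c_Phi n y w (shift 1 ω)

theorem G2c_Phi_zero (y : ℕ) (w : ℕ → ℝ) (ω : ℕ → ℝ × ℝ) :
    G2c_Phi 0 y w ω = if y = 0 then 1 else 0 := by
  rw [G2c_Phi]

theorem G2c_Phi_succ_zero (n : ℕ) (w : ℕ → ℝ) (ω : ℕ → ℝ × ℝ) : G2c_Phi (n + 1) 0 w ω = 0 := by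
  rw [G2c_Phi]

theorem G2c_Phi_succ (n y : ℕ) (w : ℕ → ℝ) (ω : ℕ → ℝ × ℝ) : G2c_Phi (n + 1) (y + 1) w ω =
    if (ω 0).1 < 1 then w (y + 1) * G2c_Phi n (y + 2) w (shift 1 ω)
      else G2c_Phi n y w (shift 1 ω) := by
  rw [G2c_Phi]

theorem G2c_ms : MeasurableSet {ω : ℕ → ℝ × ℝ | (ω 0).1 < 1} :=
  measurableSet_lt (measurable_fst.comp (measurable_pi_apply 0)) measurable_const

theorem G2c_Phi_meas (n : ℕ) : ∀ (y : ℕ) (w : ℕ → ℝ), Measurable (G2c_Phi n y w) := by
  induction n with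
  | zero =>
    intro y w
    have : G2c_Phi 0 y w = fun _ => if y = 0 then 1 else 0 := by
      funext ω; rw [G2c_Phi_zero]
    rw [this]
    exact measurable_const
  | succ n ih =>
    intro y w
    cases y with
    | zero =>
      have : G2c_Phi (n + 1) 0 w = fun _ => 0 := by
        funext ω; rw [G2c_Phi_succ_zero]
      rw [this]
      exact measurable_const
    | succ y =>
      have : G2c_Phi (n + 1) (y + 1) w = fun ω => if (ω 0).1 < 1 then
          w (y + 1) * G2c_Phi n (y + 2) w (shift 1 ω) else G2c_Phi n y w (shift 1 ω) := by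
        funext ω; rw [G2c_Phi_succ]
      rw [this]
      refine Measurable.ite G2c_ms ?_ ?_
      · exact ((ih (y + 2) w).comp (measurable_shift 1)).const_mul _
      · exact (ih y w).comp (measurable_shift 1)

theorem G2c_Phi_bd (n : ℕ) : ∀ (y : ℕ) (w : ℕ → ℝ), (∀ j, |w j| ≤ 1) →
    ∀ ω, |G2c_Phi n y w ω| ≤ 1 := by
  induction n with
  | zero =>
    intro y w _ ω
    rw [G2c_Phi_zero]
    split_ifs <;> simp
  | succ n ih =>
    intro y w hw ω
    cases y with
    | zero => rw [G2c_Phi_succ_zero]; simp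
    | succ y =>
      rw [G2c_Phi_succ]
      split_ifs
      · rw [abs_mul]
        exact mul_le_one₀ (hw _) (abs_nonneg _) (ih _ w hw _)
      · exact ih _ w hw _

theorem G2c_half : (PQ muS nuS).real {ω | (ω 0).1 < 1} = 1 / 2 := by
  have i3 : IsProbabilityMeasure muS := qstd_S.probμ
  have i4 : IsProbabilityMeasure nuS := qstd_S.probν
  have h1 : (PQ muS nuS).map (fun ω => ω 0) = muS.prod nuS := by
    unfold PQ seqLaw
    exact (measurePreserving_eval_infinitePi (fun _ : ℕ => muS.prod nuS) 0).map_eq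
  have h2 : MeasurableSet {p : ℝ × ℝ | p.1 < 1} := measurableSet_lt measurable_fst measurable_const
  have h3 : (PQ muS nuS).real {ω | (ω 0).1 < 1} = (muS.prod nuS).real {p : ℝ × ℝ | p.1 < 1} := by
    rw [← h1, map_measureReal_apply (measurable_pi_apply 0) h2]
    rfl
  have h4 : {p : ℝ × ℝ | p.1 < 1} = Set.Iio 1 ×ˢ Set.univ := by
    ext p; simp
  rw [h3, h4, measureReal_prod_prod, probReal_univ, mul_one]
  rw [measureReal_def, muS]
  simp only [Measure.coe_add, Measure.coe_smul, Pi.add_apply, Pi.smul_apply, smul_eq_mul]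
  rw [Measure.dirac_apply' _ measurableSet_Iio, Measure.dirac_apply' _ measurableSet_Iio]
  rw [Set.indicator_of_mem (by norm_num : (1 / 2 : ℝ) ∈ Set.Iio (1 : ℝ)),
    Set.indicator_of_notMem (by norm_num : (3 / 2 : ℝ) ∉ Set.Iio (1 : ℝ))]
  simp

theorem G2c_int_Phi (n : ℕ) : ∀ (y : ℕ) (w : ℕ → ℝ), (∀ j, |w j| ≤ 1) →
    ∫ ω, G2c_Phi n y w ω ∂(PQ muS nuS) = G2c_p n y w / 2 ^ n := by
  have i3 : IsProbabilityMeasure muS := qstd_S.probμ
  have i4 : IsProbabilityMeasure nuS := qstd_S.probν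
  induction n with
  | zero =>
    intro y w _
    simp only [G2c_Phi_zero, G2c_p_zero]
    split_ifs <;> simp
  | succ n ih =>
    intro y w hw
    cases y with
    | zero =>
      simp [G2c_Phi_succ_zero, G2c_p_succ_zero]
    | succ y =>
      set H : (ℕ → ℝ × ℝ) → (ℕ → ℝ × ℝ) → ℝ := fun ω η =>
        if (ω 0).1 < 1 then w (y + 1) * G2c_Phi n (y + 2) w η else G2c_Phi n y w η with hH
      have hHm : Measurable (Function.uncurry H) := by
        refine Measurable.ite (measurable_fst G2c_ms) ?_ ?_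
        · exact ((G2c_Phi_meas n (y + 2) w).comp measurable_snd).const_mul _
        · exact (G2c_Phi_meas n y w).comp measurable_snd
      have hHb : ∀ ω η, |H ω η| ≤ 1 := by
        intro ω η
        rw [hH]
        simp only
        split_ifs
        · rw [abs_mul]
          exact mul_le_one₀ (hw _) (abs_nonneg _) (G2c_Phi_bd _ _ w hw _)
        · exact G2c_Phi_bd _ _ w hw _
      have hsp := integral_split (muS.prod nuS) 1 H hHm 1 hHb (by
        intro ω ω' η h
        rw [hH]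
        simp only
        rw [h 0 one_pos])
      have e1 : ∀ ω, G2c_Phi (n + 1) (y + 1) w ω = H ω (shift 1 ω) := by
        intro ω
        rw [G2c_Phi_succ]
      simp only [e1]
      unfold PQ at ih ⊢
      rw [hsp]
      have e2 : ∀ ω, ∫ η, H ω η ∂(seqLaw (muS.prod nuS)) =
          ({ω : ℕ → ℝ × ℝ | (ω 0).1 < 1}.indicator
            (fun _ => w (y + 1) * (G2c_p n (y + 2) w / 2 ^ n) - G2c_p n y w / 2 ^ n) ω) +
            G2c_p n y w / 2 ^ n := by
        intro ω
        rw [hH]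
        simp only
        by_cases h : (ω 0).1 < 1
        · rw [Set.indicator_of_mem (by exact h)]
          simp only [if_pos h]
          rw [integral_const_mul, ih _ w hw]
          ring
        · rw [Set.indicator_of_notMem (by exact h)]
          simp only [if_neg h]
          rw [ih _ w hw, zero_add]
      simp only [e2]
      rw [integral_add, integral_indicator_const _ G2c_ms]
      · have h5 := G2c_half
        unfold PQ at h5
        rw [h5, G2c_p_succ]
        simp
        ring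
      · exact (integrable_const _).indicator G2c_ms
      · exact integrable_const _

/-- steps of the simple random walk -/
def G2c_ok (ω : ℕ → ℝ × ℝ) : Prop := ∀ i, (ω i).2 = (1 : ℝ) ∧ ((ω i).1 = 1 / 2 ∨ (ω i).1 = 3 / 2)

theorem G2c_ok_shift {ω : ℕ → ℝ × ℝ} (h : G2c_ok ω) : G2c_ok (shift 1 ω) := fun i => h (1 + i)

theorem G2c_nz_zero (ω : ℕ → ℝ × ℝ) : nz (1 / 2) 0 ω = 0 := by
  simp [nz, Zw, Dp, Ar]

theorem G2c_nz_succ (k : ℕ) (ω : ℕ → ℝ × ℝ) :
    nz (1 / 2) (k + 1) ω = nz (1 / 2) k ω + ((ω k).2 - (ω k).1) / (1 / 2) := by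
  simp only [nz, Zw, Dp, Ar, Finset.sum_range_succ]
  ring

theorem G2c_nz_shift (k : ℕ) (ω : ℕ → ℝ × ℝ) :
    nz (1 / 2) (k + 1) ω = ((ω 0).2 - (ω 0).1) / (1 / 2) + nz (1 / 2) k (shift 1 ω) := by
  induction k with
  | zero => rw [G2c_nz_succ, G2c_nz_zero, G2c_nz_zero]; ring
  | succ k ih =>
    rw [G2c_nz_succ, ih, G2c_nz_succ k (shift 1 ω)]
    have : shift 1 ω k = ω (k + 1) := by
      unfold shift
      rw [add_comm]
    rw [this]
    ring

theorem G2c_up {ω : ℕ → ℝ × ℝ} (h : G2c_ok ω) {i : ℕ} (hi : (ω i).1 < 1) :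
    ((ω i).2 - (ω i).1) / (1 / 2) = 1 := by
  obtain ⟨h1, h2 | h2⟩ := h i
  · rw [h1, h2]; norm_num
  · rw [h2] at hi; norm_num at hi

theorem G2c_down {ω : ℕ → ℝ × ℝ} (h : G2c_ok ω) {i : ℕ} (hi : ¬ (ω i).1 < 1) :
    ((ω i).2 - (ω i).1) / (1 / 2) = -1 := by
  obtain ⟨h1, h2 | h2⟩ := h i
  · rw [h2] at hi; norm_num at hi
  · rw [h1, h2]; norm_num

open Classical in
theorem G2c_Phi_eq (n : ℕ) : ∀ (y : ℕ) (w : ℕ → ℝ) (ω : ℕ → ℝ × ℝ), G2c_ok ω →
    G2c_Phi n y w ω = if (∀ j < n, 0 < (y : ℝ) + nz (1 / 2) j ω) ∧ (y : ℝ) + nz (1 / 2) n ω = 0 then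
      ∏ i ∈ Finset.range n, (if (ω i).1 < 1 then w ⌊(y : ℝ) + nz (1 / 2) i ω⌋₊ else 1) else 0 := by
  induction n with
  | zero =>
    intro y w ω _
    rw [G2c_Phi_zero, G2c_nz_zero]
    by_cases hy : y = 0
    · subst hy
      simp
    · simp [hy]
  | succ n ih =>
    intro y w ω hω
    cases y with
    | zero =>
      rw [G2c_Phi_succ_zero, if_neg]
      rintro ⟨h1, _⟩
      have := h1 0 (Nat.succ_pos n)
      rw [G2c_nz_zero] at this
      simp at this
    | succ y =>
      rw [G2c_Phi_succ, Finset.prod_range_succ']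
      have hfl : ⌊((y + 1 : ℕ) : ℝ) + nz (1 / 2) 0 ω⌋₊ = y + 1 := by
        rw [G2c_nz_zero, add_zero, Nat.floor_natCast]
      rw [hfl]
      have hsh : ∀ i, (shift 1 ω i) = ω (i + 1) := by
        intro i
        unfold shift
        rw [add_comm]
      by_cases h0 : (ω 0).1 < 1
      · rw [if_pos h0, if_pos h0, ih (y + 2) w (shift 1 ω) (G2c_ok_shift hω)]
        have hstep : ∀ j, ((y + 1 : ℕ) : ℝ) + nz (1 / 2) (j + 1) ω =
            ((y + 2 : ℕ) : ℝ) + nz (1 / 2) j (shift 1 ω) := by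
          intro j
          rw [G2c_nz_shift, G2c_up hω h0]
          push_cast
          ring
        have hcond : ((∀ j < n + 1, 0 < ((y + 1 : ℕ) : ℝ) + nz (1 / 2) j ω) ∧
            ((y + 1 : ℕ) : ℝ) + nz (1 / 2) (n + 1) ω = 0) ↔
            ((∀ j < n, 0 < ((y + 2 : ℕ) : ℝ) + nz (1 / 2) j (shift 1 ω)) ∧
            ((y + 2 : ℕ) : ℝ) + nz (1 / 2) n (shift 1 ω) = 0) := by
          rw [hstep n]
          refine and_congr_left fun _ => ?_
          constructor
          · intro h j hj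
            rw [← hstep j]
            exact h (j + 1) (by omega)
          · intro h j hj
            cases j with
            | zero =>
              rw [G2c_nz_zero]
              positivity
            | succ j =>
              rw [hstep j]
              exact h j (by omega)
        simp only [hcond]
        by_cases hc : ((∀ j < n, 0 < ((y + 2 : ℕ) : ℝ) + nz (1 / 2) j (shift 1 ω)) ∧
            ((y + 2 : ℕ) : ℝ) + nz (1 / 2) n (shift 1 ω) = 0)
        · rw [if_pos hc, if_pos hc, mul_comm]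
          congr 1
          refine Finset.prod_congr rfl fun i _ => ?_
          rw [hsh i, hstep i]
        · rw [if_neg hc, if_neg hc, mul_zero]
      · rw [if_neg h0, if_neg h0, ih y w (shift 1 ω) (G2c_ok_shift hω), mul_one]
        have hstep : ∀ j, ((y + 1 : ℕ) : ℝ) + nz (1 / 2) (j + 1) ω =
            (y : ℝ) + nz (1 / 2) j (shift 1 ω) := by
          intro j
          rw [G2c_nz_shift, G2c_down hω h0]
          push_cast
          ring
        have hcond : ((∀ j < n + 1, 0 < ((y + 1 : ℕ) : ℝ) + nz (1 / 2) j ω) ∧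
            ((y + 1 : ℕ) : ℝ) + nz (1 / 2) (n + 1) ω = 0) ↔
            ((∀ j < n, 0 < (y : ℝ) + nz (1 / 2) j (shift 1 ω)) ∧
            (y : ℝ) + nz (1 / 2) n (shift 1 ω) = 0) := by
          rw [hstep n]
          refine and_congr_left fun _ => ?_
          constructor
          · intro h j hj
            rw [← hstep j]
            exact h (j + 1) (by omega)
          · intro h j hj
            cases j with
            | zero =>
              rw [G2c_nz_zero]
              positivity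
            | succ j =>
              rw [hstep j]
              exact h j (by omega)
        simp only [hcond]
        by_cases hc : ((∀ j < n, 0 < (y : ℝ) + nz (1 / 2) j (shift 1 ω)) ∧
            (y : ℝ) + nz (1 / 2) n (shift 1 ω) = 0)
        · rw [if_pos hc, if_pos hc]
          refine Finset.prod_congr rfl fun i _ => ?_
          rw [hsh i, hstep i]
        · rw [if_neg hc, if_neg hc]


theorem G2c_int {ω : ℕ → ℝ × ℝ} (h : G2c_ok ω) (k : ℕ) : ∃ z : ℤ, nz (1 / 2) k ω = z := by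
  induction k with
  | zero => exact ⟨0, by rw [G2c_nz_zero]; simp⟩
  | succ k ih =>
    obtain ⟨z, hz⟩ := ih
    rw [G2c_nz_succ, hz]
    by_cases hu : (ω k).1 < 1
    · exact ⟨z + 1, by rw [G2c_up h hu]; push_cast; ring⟩
    · exact ⟨z - 1, by rw [G2c_down h hu]; push_cast; ring⟩

theorem G2c_EvN_iff {ω : ℕ → ℝ × ℝ} (h : G2c_ok ω) (n : ℕ) :
    ω ∈ EvN (Set.Ici 0) (n + 1) ↔
      ((∀ j < n + 1, 0 < ((1 : ℕ) : ℝ) + nz (1 / 2) j ω) ∧
        ((1 : ℕ) : ℝ) + nz (1 / 2) (n + 1) ω = 0) := by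
  have hZ : ∀ k, Zw k ω ∈ Set.Ici (0 : ℝ) ↔ 0 ≤ nz (1 / 2) k ω := by
    intro k
    unfold nz
    rw [Set.mem_Ici]
    constructor
    · intro h1; positivity
    · intro h1
      have : Zw k ω = (Zw k ω / (1 / 2)) * (1 / 2) := by ring
      rw [this]; positivity
  have hpos : ∀ k, 0 < ((1 : ℕ) : ℝ) + nz (1 / 2) k ω ↔ 0 ≤ nz (1 / 2) k ω := by
    intro k
    obtain ⟨z, hz⟩ := G2c_int h k
    rw [hz]
    have e1 : (0 < ((1 : ℕ) : ℝ) + (z : ℝ)) ↔ 0 < 1 + z := by
      constructor
      · intro h1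
        have : ((0 : ℤ) : ℝ) < ((1 + z : ℤ) : ℝ) := by push_cast; push_cast at h1; linarith
        exact_mod_cast this
      · intro h1
        have : ((0 : ℤ) : ℝ) < ((1 + z : ℤ) : ℝ) := by exact_mod_cast h1
        push_cast at this ⊢
        linarith
    have e2 : (0 : ℝ) ≤ (z : ℝ) ↔ 0 ≤ z := by exact_mod_cast Iff.rfl
    rw [e1, e2]
    omega
  simp only [hpos]
  constructor
  · rintro ⟨_, h2, h3⟩
    have h4 : ∀ j < n + 1, 0 ≤ nz (1 / 2) j ω := by
      intro j hj
      rcases Nat.eq_zero_or_pos j with h0 | h0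
      · rw [h0, G2c_nz_zero]
      · exact (hZ j).mp (h2 j h0 (by omega))
    refine ⟨h4, ?_⟩
    have h5 : ¬ 0 ≤ nz (1 / 2) (n + 1) ω := fun h6 => h3 ((hZ _).mpr h6)
    push Not at h5
    have h6 := h4 n (by omega)
    obtain ⟨z, hz⟩ := G2c_int h (n + 1)
    have h7 : nz (1 / 2) (n + 1) ω ≥ -1 := by
      rw [G2c_nz_succ]
      by_cases hu : (ω n).1 < 1
      · rw [G2c_up h hu]; linarith
      · rw [G2c_down h hu]; linarith
    rw [hz] at h5 h7 ⊢
    have h8 : z < 0 := by exact_mod_cast h5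
    have h9 : (-1 : ℤ) ≤ z := by
      have : ((-1 : ℤ) : ℝ) ≤ (z : ℝ) := by push_cast; linarith
      exact_mod_cast this
    have h10 : z = -1 := by omega
    rw [h10]
    norm_num
  · rintro ⟨h1, h2⟩
    refine ⟨by omega, fun j hj1 hj2 => (hZ j).mpr (h1 j (by omega)), fun h3 => ?_⟩
    have h4 := (hZ _).mp h3
    push_cast at h2
    linarith

open Classical in
/-- number of up steps weighted by heights -/
theorem G2c_area {ω : ℕ → ℝ × ℝ} (h : G2c_ok ω) (n : ℕ) :
    ∑ i ∈ Finset.range n, (if (ω i).1 < 1 then 1 + nz (1 / 2) i ω else 0) =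
      (Area (1 / 2) n ω + nz (1 / 2) n ω + n / 2 + (nz (1 / 2) n ω ^ 2) / 2) / 2 := by
  induction n with
  | zero => simp only [Finset.range_zero, Finset.sum_empty, Area]; rw [G2c_nz_zero]; simp
  | succ n ih =>
    rw [Finset.sum_range_succ, ih]
    have hA : Area (1 / 2) (n + 1) ω = Area (1 / 2) n ω + nz (1 / 2) n ω := by
      unfold Area
      rw [Finset.sum_range_succ]
    rw [hA, G2c_nz_succ]
    by_cases hu : (ω n).1 < 1
    · rw [if_pos hu, G2c_up h hu]
      push_cast
      ring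
    · rw [if_neg hu, G2c_down h hu]
      push_cast
      ring

open Classical in
theorem G2c_area_nat {ω : ℕ → ℝ × ℝ} (h : G2c_ok ω) (m : ℕ)
    (hE : ω ∈ EvN (Set.Ici 0) (2 * m + 1)) :
    (Area (1 / 2) (2 * m + 1) ω + m) / 2 =
      ((∑ i ∈ Finset.range (2 * m + 1), (if (ω i).1 < 1 then ⌊((1 : ℕ) : ℝ) + nz (1 / 2) i ω⌋₊
        else 0) : ℕ) : ℝ) := by
  have hE' := (G2c_EvN_iff h (2 * m)).mp hE
  have h1 := G2c_area h (2 * m + 1)
  have h2 : nz (1 / 2) (2 * m + 1) ω = -1 := by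
    have := hE'.2
    push_cast at this
    linarith
  rw [h2] at h1
  have h3 : ((∑ i ∈ Finset.range (2 * m + 1), (if (ω i).1 < 1 then ⌊((1 : ℕ) : ℝ) + nz (1 / 2) i ω⌋₊
        else 0) : ℕ) : ℝ) = ∑ i ∈ Finset.range (2 * m + 1),
          (if (ω i).1 < 1 then 1 + nz (1 / 2) i ω else 0) := by
    rw [Nat.cast_sum]
    refine Finset.sum_congr rfl fun i hi => ?_
    rw [Finset.mem_range] at hi
    have h4 := hE'.1 i hi
    by_cases hu : (ω i).1 < 1
    · rw [if_pos hu, if_pos hu]
      obtain ⟨z, hz⟩ := G2c_int h i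
      rw [hz] at h4 ⊢
      have h5 : 0 ≤ 1 + z := by
        have : ((0 : ℤ) : ℝ) < ((1 + z : ℤ) : ℝ) := by push_cast at h4 ⊢; linarith
        have : 0 < 1 + z := by exact_mod_cast this
        exact this.le
      obtain ⟨k, hk⟩ := Int.eq_ofNat_of_zero_le h5
      have h6 : ((1 : ℕ) : ℝ) + (z : ℝ) = (k : ℝ) := by
        have : ((1 + z : ℤ) : ℝ) = ((k : ℤ) : ℝ) := by rw [hk]
        push_cast at this ⊢
        exact this
      rw [h6, Nat.floor_natCast, ← h6]
      push_cast
      ring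
    · rw [if_neg hu, if_neg hu]
      simp
  rw [h3, h1]
  push_cast
  ring

open Classical in
theorem G2c_Mx_iff {ω : ℕ → ℝ × ℝ} (h : G2c_ok ω) (m H : ℕ)
    (hE : ω ∈ EvN (Set.Ici 0) (2 * m + 1)) :
    Mx (1 / 2) (2 * m + 1) ω ≤ H ↔ ∀ i ∈ Finset.range (2 * m + 1), (ω i).1 < 1 →
      ⌊((1 : ℕ) : ℝ) + nz (1 / 2) i ω⌋₊ ≤ H := by
  have hE' := (G2c_EvN_iff h (2 * m)).mp hE
  have hMx : Mx (1 / 2) (2 * m + 1) ω ≤ H ↔ ∀ i < 2 * m + 1, nz (1 / 2) i ω ≤ H := by
    unfold Mx
    constructor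
    · intro h1 i hi
      exact (le_ciSup (Finite.bddAbove_range fun i : Fin (2 * m + 1) => nz (1 / 2) (i : ℕ) ω)
        (⟨i, hi⟩ : Fin (2 * m + 1))).trans h1
    · intro h1
      exact ciSup_le fun i => h1 i i.2
  rw [hMx]
  constructor
  · intro h1 i hi hu
    rw [Finset.mem_range] at hi
    have h2 : nz (1 / 2) (i + 1) ω = 1 + nz (1 / 2) i ω := by
      rw [G2c_nz_succ, G2c_up h hu]; ring
    have h3 := hE'.1 i hi
    have h4 : i + 1 < 2 * m + 1 := by
      by_contra hc
      have h5 : i + 1 = 2 * m + 1 := by omega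
      have h6 := hE'.2
      rw [← h5, h2] at h6
      push_cast at h3 h6
      linarith
    have h5 := h1 (i + 1) h4
    rw [h2] at h5
    refine Nat.floor_le_of_le ?_
    push_cast
    exact h5
  · intro h1 i hi
    induction i with
    | zero => rw [G2c_nz_zero]; positivity
    | succ i ih =>
      have h2 := ih (by omega)
      rw [G2c_nz_succ]
      by_cases hu : (ω i).1 < 1
      · rw [G2c_up h hu]
        have h3 := h1 i (Finset.mem_range.mpr (by omega)) hu
        have h4 := hE'.1 i (by omega)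
        obtain ⟨z, hz⟩ := G2c_int h i
        rw [hz] at h3 h4 ⊢
        have h5 : 0 ≤ 1 + z := by
          have : ((0 : ℤ) : ℝ) < ((1 + z : ℤ) : ℝ) := by push_cast at h4 ⊢; linarith
          have : 0 < 1 + z := by exact_mod_cast this
          exact this.le
        obtain ⟨k, hk⟩ := Int.eq_ofNat_of_zero_le h5
        have h6 : ((1 : ℕ) : ℝ) + (z : ℝ) = (k : ℝ) := by
          have : ((1 + z : ℤ) : ℝ) = ((k : ℤ) : ℝ) := by rw [hk]
          push_cast at this ⊢
          exact this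
        rw [h6, Nat.floor_natCast] at h3
        have h7 : (k : ℝ) ≤ H := by exact_mod_cast h3
        push_cast at h6
        linarith
      · rw [G2c_down h hu]
        linarith

open Classical in
theorem G2c_prod_wt (q : ℝ) (H n : ℕ) (u : ℕ → Prop) (f : ℕ → ℕ) :
    ∏ i ∈ Finset.range n, (if u i then wt q H 0 (f i) else 1) =
      if (∀ i ∈ Finset.range n, u i → f i ≤ H) then
        q ^ (∑ i ∈ Finset.range n, (if u i then f i else 0)) else 0 := by
  by_cases hc : ∀ i ∈ Finset.range n, u i → f i ≤ H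
  · rw [if_pos hc, ← Finset.prod_pow_eq_pow_sum]
    refine Finset.prod_congr rfl fun i hi => ?_
    by_cases hu : u i
    · rw [if_pos hu, if_pos hu, wt, zero_add, if_pos (hc i hi hu)]
    · rw [if_neg hu, if_neg hu, pow_zero]
  · rw [if_neg hc]
    push Not at hc
    obtain ⟨i, hi, hu, hlt⟩ := hc
    refine Finset.prod_eq_zero hi ?_
    rw [if_pos hu, wt, zero_add, if_neg (by omega)]

theorem G2c_wt_abs {q : ℝ} (hq : 0 ≤ q) (hq1 : q ≤ 1) (h ℓ j : ℕ) : |wt q h ℓ j| ≤ 1 := by
  unfold wt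
  split_ifs
  · rw [abs_of_nonneg (pow_nonneg hq _)]
    exact pow_le_one₀ hq hq1
  · simp

/-- **[FV-G2c]** The simple random walk.
PROOF. First passage decomposition. On `EvN (2m+1)` with `m ≥ 1`: the first step is `+1`; let `2i + 2` be
the first return time to `0` (`i < m`); the piece between the times `1` and `2i+2`, relative to level 1,
is an element of the event `N = 2i+1`; the piece after it one of the event `N = 2(m-1-i)+1`.
`Area = (Area₁ + (2i+1)) + Area₂`, `Mx = max (1 + Mx₁) Mx₂`, so with `e(ω) = (Area + m)/2` one gets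
`e = (e₁ + i + 1) + e₂`. CLAIM: for `ℓ ≤ h`: `E[1{N = 2m+1, ℓ + Mx ≤ h} q^{ℓ m + e}] =
2^{-2m-1} dy m (wt q h ℓ)`, by strong induction on `m` (for `ℓ = h`, `m ≥ 1` both sides are `0`).
`srwE m ω` is the natural number `(Area + m)/2`, here written with `⌊·⌋₊` (it is an integer a.s. on
`EvN (2m+1)`). -/
theorem srw_weight (m h : ℕ) (q : ℝ) (hq : 0 ≤ q) (hq1 : q ≤ 1) :
    ∫ ω in EvN (Set.Ici 0) (2 * m + 1),
      (if Mx (1 / 2) (2 * m + 1) ω ≤ h then
        q ^ ⌊(Area (1 / 2) (2 * m + 1) ω + m) / 2⌋₊ else 0) ∂(PQ muS nuS) =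
      dy m (wt q h 0) / 2 ^ (2 * m + 1) := by
  classical
  have i3 : IsProbabilityMeasure muS := qstd_S.probμ
  have i4 : IsProbabilityMeasure nuS := qstd_S.probν
  have hD : Dom (Set.Ici (0 : ℝ)) := Or.inl rfl
  rw [← integral_indicator (measurableSet_EvN hD _), ← G2c_dy,
    ← G2c_int_Phi (2 * m + 1) 1 (wt q h 0) (fun j => G2c_wt_abs hq hq1 h 0 j)]
  refine integral_congr_ae ?_
  filter_upwards [ae_S] with ω hω
  have hok : G2c_ok ω := hω
  rw [G2c_Phi_eq (2 * m + 1) 1 (wt q h 0) ω hok]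
  by_cases hE : ω ∈ EvN (Set.Ici 0) (2 * m + 1)
  · rw [Set.indicator_of_mem hE, if_pos ((G2c_EvN_iff hok (2 * m)).mp hE), G2c_prod_wt,
      G2c_area_nat hok m hE, Nat.floor_natCast]
    simp only [G2c_Mx_iff hok m h hE]
  · rw [Set.indicator_of_notMem hE, if_neg]
    intro hc
    exact hE ((G2c_EvN_iff hok (2 * m)).mpr hc)

/-- a.s. on `EvN (2m+1)`, `Area + m` is an even natural number, at most `2m² + 2m` -/
theorem srw_area_int (m : ℕ) : ∀ᵐ ω ∂(PQ muS nuS), ω ∈ EvN (Set.Ici 0) (2 * m + 1) →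
    ∃ t : ℕ, Area (1 / 2) (2 * m + 1) ω = 2 * t - m := by
  classical
  filter_upwards [ae_S] with ω hω hE
  have hok : G2c_ok ω := hω
  have h1 := G2c_area_nat hok m hE
  refine ⟨∑ i ∈ Finset.range (2 * m + 1), (if (ω i).1 < 1 then ⌊((1 : ℕ) : ℝ) + nz (1 / 2) i ω⌋₊
        else 0), ?_⟩
  rw [← h1]
  ring

end Pool.Agent.BPT
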