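import Pool.Agent.MP_99a865_pr.FV.G2a
import Pool.Agent.MP_99a865_pr.FV.G2b
import Pool.Agent.MP_99a865_pr.FV.G2c
import Pool.Agent.MP_99a865_pr.FV.F10m

open MeasureTheory ProbabilityTheory Filter Topology
open scoped ENNReal NNReal

namespace Pool.Agent.BPT

theorem G2d_expand {Ω : Type} [MeasurableSpace Ω] (P : Measure Ω) [IsProbabilityMeasure P]
    {A H : Set Ω} (hA : MeasurableSet A) (hH : MeasurableSet H) [DecidablePred (· ∈ H)]
    {T : Ω → ℕ} (hT : Measurable T) (N : ℕ) (hN : ∀ᵐ ω ∂P, ω ∈ A → T ω ≤ N) (q : ℝ) :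
    ∫ ω in A, (if ω ∈ H then q ^ T ω else 0) ∂P =
      ∑ t ∈ Finset.range (N + 1), P.real (A ∩ (H ∩ {ω | T ω = t})) * q ^ t := by
  have hms : ∀ t, MeasurableSet (H ∩ {ω | T ω = t}) := fun t =>
    hH.inter (hT (measurableSet_singleton t))
  have h1 : ∫ ω in A, (if ω ∈ H then q ^ T ω else 0) ∂P =
      ∫ ω in A, ∑ t ∈ Finset.range (N + 1),
        (H ∩ {ω | T ω = t}).indicator (fun _ => q ^ t) ω ∂P := by
    refine setIntegral_congr_ae hA ?_
    filter_upwards [hN] with ω hω hωA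
    have hle := hω hωA
    by_cases hωH : ω ∈ H
    · rw [if_pos hωH]
      rw [Finset.sum_eq_single (T ω)]
      · rw [Set.indicator_of_mem]
        exact ⟨hωH, rfl⟩
      · intro t _ hne
        rw [Set.indicator_of_notMem]
        rintro ⟨_, h2⟩
        exact hne h2.symm
      · intro h3
        exact absurd (Finset.mem_range.mpr (by omega)) h3
    · rw [if_neg hωH]
      symm
      refine Finset.sum_eq_zero fun t _ => ?_
      rw [Set.indicator_of_notMem]
      rintro ⟨h2, _⟩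
      exact hωH h2
  rw [h1, integral_finsetSum]
  · refine Finset.sum_congr rfl fun t _ => ?_
    rw [integral_indicator_const _ (hms t), measureReal_restrict_apply (hms t), smul_eq_mul,
      Set.inter_comm (H ∩ {ω | T ω = t}) A]
  · intro t _
    exact (integrable_const _).indicator (hms t)

theorem G2d_poly {N : ℕ} {a b : ℕ → ℝ}
    (h : ∀ q : ℝ, 0 ≤ q → q ≤ 1 → ∑ t ∈ Finset.range (N + 1), a t * q ^ t =
      ∑ t ∈ Finset.range (N + 1), b t * q ^ t) (t : ℕ) (ht : t ≤ N) : a t = b t := by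
  have hpoly : (∑ t ∈ Finset.range (N + 1), Polynomial.C (a t) * Polynomial.X ^ t) =
      ∑ t ∈ Finset.range (N + 1), Polynomial.C (b t) * Polynomial.X ^ t := by
    refine Polynomial.eq_of_infinite_eval_eq _ _ ?_
    refine Set.Infinite.mono (s := Set.Icc (0 : ℝ) 1) ?_ (Set.Icc_infinite zero_lt_one)
    intro q hq
    simp only [Set.mem_ofPred_eq, Polynomial.eval_finsetSum, Polynomial.eval_mul,
      Polynomial.eval_C, Polynomial.eval_pow, Polynomial.eval_X]
    exact h q hq.1 hq.2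
  have hc := congrArg (fun p => Polynomial.coeff p t) hpoly
  simp only [Polynomial.finsetSum_coeff, Polynomial.coeff_C_mul, Polynomial.coeff_X_pow] at hc
  rw [Finset.sum_eq_single t, Finset.sum_eq_single t] at hc
  · simpa using hc
  · intro s _ hs
    rw [if_neg (Ne.symm hs), mul_zero]
  · intro h1
    exact absurd (Finset.mem_range.mpr (by omega)) h1
  · intro s _ hs
    rw [if_neg (Ne.symm hs), mul_zero]
  · intro h1
    exact absurd (Finset.mem_range.mpr (by omega)) h1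

theorem G2d_TB_le (D : Set ℝ) (n : ℕ) (ω : ℕ → ℝ × ℝ) : TB D n ω ≤ n * n := by
  classical
  unfold TB
  calc _ ≤ ∑ b ∈ Finset.range n, (n - b) :=
        Finset.sum_le_sum_of_subset (Finset.filter_subset _ _)
    _ ≤ ∑ b ∈ Finset.range n, n := Finset.sum_le_sum fun b _ => Nat.sub_le _ _
    _ = n * n := by simp

theorem G2d_Area_le (n : ℕ) : ∀ᵐ ω ∂(PQ muS nuS), Area (1 / 2) n ω ≤ n * n := by
  filter_upwards [ae_S] with ω hω
  unfold Area
  have h1 : ∀ i, nz (1 / 2) i ω ≤ i := by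
    intro i
    unfold nz Zw Dp Ar
    rw [div_le_iff₀ (by norm_num), ← Finset.sum_sub_distrib]
    calc ∑ j ∈ Finset.range i, ((ω j).2 - (ω j).1) ≤ ∑ j ∈ Finset.range i, (1 / 2 : ℝ) := by
          refine Finset.sum_le_sum fun j _ => ?_
          obtain ⟨h2, h3⟩ := hω j
          rcases h3 with h3 | h3 <;> rw [h2, h3] <;> norm_num
      _ = i * (1 / 2) := by simp
  calc ∑ i ∈ Finset.range n, nz (1 / 2) i ω ≤ ∑ i ∈ Finset.range n, (n : ℝ) := by
        refine Finset.sum_le_sum fun i hi => (h1 i).trans ?_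
        exact_mod_cast (Finset.mem_range.mp hi).le
    _ = n * n := by simp

/-- **[FV-G2d]** Height and total height of the geometric model have the law of the maximum and of
(half) the area of the simple random walk excursion.
PROOF. By `geo_weight`, `gw_one` (`wt q h 0 0 = 1`) and `srw_weight` the two sides, multiplied by `q^t` and
summed over `t`, agree for all `q ∈ [0,1]`; both are polynomials in `q` (the sums over `t` are finite:
`TB ≤ (n+1)²`, `Area ≤ …`), so the coefficients agree. -/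
theorem geo_srw (n h t : ℕ) :
    (PQ muG nuG).real (EvN (Set.Ici 0) (n + 1) ∩
      {ω | HB (Set.Ici 0) (n + 1) ω ≤ h ∧ TB (Set.Ici 0) (n + 1) ω = t}) =
    (PQ muS nuS).real (EvN (Set.Ici 0) (2 * n + 1) ∩
      {ω | Mx (1 / 2) (2 * n + 1) ω ≤ h ∧ Area (1 / 2) (2 * n + 1) ω = 2 * t - n}) := by
  classical
  have i1 : IsProbabilityMeasure muG := qstd_G.probμ
  have i2 : IsProbabilityMeasure nuG := qstd_G.probν
  have i3 : IsProbabilityMeasure muS := qstd_S.probμ
  have i4 : IsProbabilityMeasure nuS := qstd_S.probν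
  have hD : Dom (Set.Ici (0 : ℝ)) := Or.inl rfl
  set N : ℕ := (n + 1) * (n + 1) + (2 * n + 1) * (2 * n + 1) + n + t with hN
  -- left side
  have hHm : MeasurableSet {ω | HB (Set.Ici 0) (n + 1) ω ≤ h} :=
    (measurable_HB hD (n + 1)).1 measurableSet_Iic
  have hTm := (measurable_HB hD (n + 1)).2
  -- right side
  have hMm : MeasurableSet {ω : ℕ → ℝ × ℝ | Mx (1 / 2) (2 * n + 1) ω ≤ h} :=
    (measurable_Mx (σ := 1 / 2) (2 * n + 1)).1 measurableSet_Iic
  have hAm : Measurable (Area (1 / 2) (2 * n + 1)) :=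
    ((measurable_Mx (σ := 1 / 2) (2 * n + 1)).2 0 0).2.1
  set T' : (ℕ → ℝ × ℝ) → ℕ := fun ω => ⌊(Area (1 / 2) (2 * n + 1) ω + n) / 2⌋₊ with hT'
  have hT'm : Measurable T' := ((hAm.add_const (n : ℝ)).div_const 2).nat_floor
  have hT'N : ∀ᵐ ω ∂(PQ muS nuS), ω ∈ EvN (Set.Ici 0) (2 * n + 1) → T' ω ≤ N := by
    filter_upwards [G2d_Area_le (2 * n + 1)] with ω hω _
    have h1 : (Area (1 / 2) (2 * n + 1) ω + n) / 2 ≤ (N : ℝ) := by
      have h2 : (N : ℝ) = ((n : ℝ) + 1) * (n + 1) + (2 * n + 1) * (2 * n + 1) + n + t := by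
        rw [hN]; push_cast; ring
      push_cast at hω
      rw [h2]
      have h3 : (0 : ℝ) ≤ n := Nat.cast_nonneg n
      have h4 : (0 : ℝ) ≤ t := Nat.cast_nonneg t
      nlinarith
    exact Nat.floor_le_of_le h1
  have hpoly := G2d_poly (N := N)
    (a := fun s => (PQ muG nuG).real (EvN (Set.Ici 0) (n + 1) ∩
      ({ω | HB (Set.Ici 0) (n + 1) ω ≤ h} ∩ {ω | TB (Set.Ici 0) (n + 1) ω = s})))
    (b := fun s => (PQ muS nuS).real (EvN (Set.Ici 0) (2 * n + 1) ∩
      ({ω | Mx (1 / 2) (2 * n + 1) ω ≤ h} ∩ {ω | T' ω = s}))) ?_ t (by omega)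
  · have e1 : EvN (Set.Ici 0) (n + 1) ∩
      {ω | HB (Set.Ici 0) (n + 1) ω ≤ h ∧ TB (Set.Ici 0) (n + 1) ω = t} =
      EvN (Set.Ici 0) (n + 1) ∩
      ({ω | HB (Set.Ici 0) (n + 1) ω ≤ h} ∩ {ω | TB (Set.Ici 0) (n + 1) ω = t}) := rfl
    rw [e1]
    refine hpoly.trans ?_
    refine measureReal_congr ?_
    filter_upwards [srw_area_int n] with ω hω
    apply propext
    show (ω ∈ EvN (Set.Ici 0) (2 * n + 1) ∧ (Mx (1 / 2) (2 * n + 1) ω ≤ h ∧ T' ω = t)) ↔
      (ω ∈ EvN (Set.Ici 0) (2 * n + 1) ∧ (Mx (1 / 2) (2 * n + 1) ω ≤ h ∧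
        Area (1 / 2) (2 * n + 1) ω = 2 * t - n))
    refine and_congr_right fun hE => and_congr_right fun _ => ?_
    obtain ⟨t', ht'⟩ := hω hE
    have h1 : T' ω = t' := by
      rw [hT']
      simp only
      rw [ht']
      have : (2 * (t' : ℝ) - n + n) / 2 = t' := by ring
      rw [this, Nat.floor_natCast]
    rw [h1, ht']
    constructor
    · rintro rfl; rfl
    · intro h2
      have : (t' : ℝ) = t := by linarith
      exact_mod_cast this
  · intro q hq0 hq1
    have hG := geo_weight n h q hq0 hq1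
    have hS := srw_weight n h q hq0 hq1
    have hG2 := G2d_expand (PQ muG nuG) (A := EvN (Set.Ici 0) (n + 1))
      (measurableSet_EvN hD (n + 1)) hHm hTm N
      (Filter.Eventually.of_forall fun ω _ => (G2d_TB_le _ (n + 1) ω).trans (by omega)) q
    have hS2 := G2d_expand (PQ muS nuS) (A := EvN (Set.Ici 0) (2 * n + 1))
      (measurableSet_EvN hD (2 * n + 1)) hMm hT'm N hT'N q
    refine (hG2.symm.trans ?_).trans hS2
    have e2 : ∫ ω in EvN (Set.Ici 0) (n + 1),
        (if ω ∈ {ω | HB (Set.Ici 0) (n + 1) ω ≤ h} then q ^ TB (Set.Ici 0) (n + 1) ω else 0)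
          ∂(PQ muG nuG) =
        ∫ ω in EvN (Set.Ici 0) (n + 1),
        (if HB (Set.Ici 0) (n + 1) ω ≤ h then q ^ TB (Set.Ici 0) (n + 1) ω else 0)
          ∂(PQ muG nuG) := rfl
    have e3 : ∫ ω in EvN (Set.Ici 0) (2 * n + 1),
        (if ω ∈ {ω : ℕ → ℝ × ℝ | Mx (1 / 2) (2 * n + 1) ω ≤ h} then q ^ T' ω else 0)
          ∂(PQ muS nuS) =
        ∫ ω in EvN (Set.Ici 0) (2 * n + 1),
        (if Mx (1 / 2) (2 * n + 1) ω ≤ h then
          q ^ ⌊(Area (1 / 2) (2 * n + 1) ω + n) / 2⌋₊ else 0) ∂(PQ muS nuS) := rfl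
    rw [e2, e3, hG, hS, gw_one]
    congr 1
    simp [wt]

end Pool.Agent.BPT
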