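import Pool.Agent.MP_99a865_pr.FV.T0b

open MeasureTheory ProbabilityTheory Filter Topology
open scoped ENNReal NNReal

namespace Pool.Agent.BPT

theorem measurable_zip : Measurable (fun p : (ℕ → ℝ) × (ℕ → ℝ) => zip p.1 p.2) := by
  unfold zip
  fun_prop

/-- square cylinders span -/
noncomputable def T1a_span (π : Measure ℝ) [IsProbabilityMeasure π] :
    (Measure.infinitePi fun _ : ℕ => π).FiniteSpanningSetsIn
      (squareCylinders fun _ : ℕ => {s : Set ℝ | MeasurableSet s}) where
  set := fun _ => Set.univ
  set_mem := fun _ => ⟨∅, fun _ => Set.univ, by simp, by simp⟩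
  finite := fun _ => measure_lt_top _ _
  spanning := Set.iUnion_const _

theorem T1a_unzip (μ ν : Measure ℝ) [IsProbabilityMeasure μ] [IsProbabilityMeasure ν] :
    queueLaw μ ν = (PQ μ ν).map
      (fun ω : ℕ → ℝ × ℝ => ((fun i => (ω i).1), (fun i => (ω i).2))) := by
  have hm : Measurable
      (fun ω : ℕ → ℝ × ℝ => ((fun i => (ω i).1), (fun i => (ω i).2))) := by fun_prop
  unfold queueLaw
  refine Measure.prod_eq_generateFrom generateFrom_squareCylinders generateFrom_squareCylinders
    (isPiSystem_squareCylinders (fun _ => MeasurableSpace.isPiSystem_measurableSet) (by simp))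
    (isPiSystem_squareCylinders (fun _ => MeasurableSpace.isPiSystem_measurableSet) (by simp))
    (T1a_span μ) (T1a_span ν) ?_
  rintro _ ⟨s, t, ht, rfl⟩ _ ⟨s', t', ht', rfl⟩
  classical
  have ht1 : ∀ i, MeasurableSet (t i) := fun i => ht i (Set.mem_univ i)
  have ht2 : ∀ i, MeasurableSet (t' i) := fun i => ht' i (Set.mem_univ i)
  have hA : MeasurableSet ((s : Set ℕ).pi t) :=
    MeasurableSet.pi s.countable_toSet fun i _ => ht1 i
  have hB : MeasurableSet ((s' : Set ℕ).pi t') :=
    MeasurableSet.pi s'.countable_toSet fun i _ => ht2 i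
  rw [Measure.map_apply hm (hA.prod hB)]
  have hset : ((fun ω : ℕ → ℝ × ℝ => ((fun i => (ω i).1), (fun i => (ω i).2))) ⁻¹'
      ((s : Set ℕ).pi t ×ˢ (s' : Set ℕ).pi t')) =
      ((s ∪ s' : Finset ℕ) : Set ℕ).pi
        (fun i => (if i ∈ s then t i else Set.univ) ×ˢ (if i ∈ s' then t' i else Set.univ)) := by
    ext ω
    simp only [Set.mem_preimage, Set.mem_prod, Set.mem_pi, Finset.mem_coe, Finset.mem_union]
    constructor
    · rintro ⟨h1, h2⟩ i _
      refine ⟨?_, ?_⟩
      · split_ifs with h
        · exact h1 i h
        · trivial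
      · split_ifs with h
        · exact h2 i h
        · trivial
    · intro h
      refine ⟨fun i hi => ?_, fun i hi => ?_⟩
      · have := (h i (Or.inl hi)).1
        rwa [if_pos hi] at this
      · have := (h i (Or.inr hi)).2
        rwa [if_pos hi] at this
  rw [hset]
  unfold PQ seqLaw
  rw [Measure.infinitePi_pi, Measure.infinitePi_pi, Measure.infinitePi_pi]
  · simp only [Measure.prod_prod]
    rw [Finset.prod_mul_distrib]
    congr 1
    · rw [← Finset.prod_subset (Finset.subset_union_left (s₁ := s) (s₂ := s'))]
      · exact Finset.prod_congr rfl fun i hi => by rw [if_pos hi]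
      · intro i _ hi
        rw [if_neg hi, measure_univ]
    · rw [← Finset.prod_subset (Finset.subset_union_right (s₁ := s) (s₂ := s'))]
      · exact Finset.prod_congr rfl fun i hi => by rw [if_pos hi]
      · intro i _ hi
        rw [if_neg hi, measure_univ]
  · exact fun i _ => ht2 i
  · exact fun i _ => ht1 i
  · intro i _
    refine MeasurableSet.prod ?_ ?_
    · split_ifs
      · exact ht1 i
      · exact MeasurableSet.univ
    · split_ifs
      · exact ht2 i
      · exact MeasurableSet.univ

/-- **[FV-T1a]** The law of the pairs. PROOF. `(queueLaw μ ν).map (fun p i => (p.1 i, p.2 i))` is the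
infinite product of `μ.prod ν` (`Measure.eq_infinitePi`: on a box `∏ (s_i ×ˢ t_i)`... general measurable
sets of pairs need `infinitePi` of products: check the identity on boxes of rectangles, which form a
π-system generating the product σ-algebra; or use `Measure.infinitePi` uniqueness for the inverse map
`τ ↦ (fun i => (τ i).1, fun i => (τ i).2)` from `PQ μ ν` to the product of the two infinite products,
checking boxes × boxes with `Measure.prod_eq_generateFrom` or `Measure.ext_prod`). -/
theorem map_zip (μ ν : Measure ℝ) [IsProbabilityMeasure μ] [IsProbabilityMeasure ν] :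
    (queueLaw μ ν).map (fun p => zip p.1 p.2) = PQ μ ν := by
  have hm : Measurable
      (fun ω : ℕ → ℝ × ℝ => ((fun i => (ω i).1), (fun i => (ω i).2))) := by fun_prop
  rw [T1a_unzip, Measure.map_map measurable_zip hm]
  have : ((fun p : (ℕ → ℝ) × (ℕ → ℝ) => zip p.1 p.2) ∘
      (fun ω : ℕ → ℝ × ℝ => ((fun i => (ω i).1), (fun i => (ω i).2)))) = id := by
    funext ω
    rfl
  rw [this, Measure.map_id]

end Pool.Agent.BPT
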