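import Pool.Agent.MP_99a865_pr.FV.T1c

open MeasureTheory ProbabilityTheory Filter Topology
open scoped ENNReal NNReal

namespace Pool.Agent.BPT

theorem T1d_cB_mono (D : Set ℝ) (ω : ℕ → ℝ × ℝ) {s s' : ℕ} (h : s ≤ s') : cB D 0 s ω ≤ cB D 0 s' ω := by
  classical
  unfold cB
  exact Finset.card_le_card (Finset.filter_subset_filter _ (Finset.Ico_subset_Ico_right h))

theorem T1d_cB_succ_of (D : Set ℝ) (ω : ℕ → ℝ × ℝ) {s : ℕ} (h : Bd D ω s) :
    cB D 0 (s + 1) ω = cB D 0 s ω + 1 := by
  classical
  unfold cB
  rw [← Finset.range_eq_Ico, ← Finset.range_eq_Ico, Finset.range_add_one, Finset.filter_insert,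
    if_pos h, Finset.card_insert_of_notMem]
  simp

theorem T1d_cB_succ_not (D : Set ℝ) (ω : ℕ → ℝ × ℝ) {s : ℕ} (h : ¬ Bd D ω s) :
    cB D 0 (s + 1) ω = cB D 0 s ω := by
  classical
  unfold cB
  rw [← Finset.range_eq_Ico, ← Finset.range_eq_Ico, Finset.range_add_one, Finset.filter_insert,
    if_neg h]

/-- a boundary strictly increases the number -/
theorem T1d_cB_lt (D : Set ℝ) (ω : ℕ → ℝ × ℝ) {s s' b : ℕ} (hb : Bd D ω b) (h1 : s ≤ b)
    (h2 : b < s') : cB D 0 s ω < cB D 0 s' ω := by
  have h3 := T1d_cB_mono D ω h1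
  have h4 := T1d_cB_succ_of D ω hb
  have h5 := T1d_cB_mono D ω (show b + 1 ≤ s' from h2)
  omega

/-- no boundary in between: same number -/
theorem T1d_cB_eq (D : Set ℝ) (ω : ℕ → ℝ × ℝ) {s s' : ℕ} (h : s ≤ s')
    (hn : ∀ b, s ≤ b → b < s' → ¬ Bd D ω b) : cB D 0 s' ω = cB D 0 s ω := by
  induction s', h using Nat.le_induction with
  | base => rfl
  | succ k hk ih =>
    rw [T1d_cB_succ_not D ω (hn k hk (Nat.lt_succ_self k))]
    exact ih fun b hb1 hb2 => hn b hb1 (by omega)

theorem T1d_cB_zero (D : Set ℝ) (ω : ℕ → ℝ × ℝ) : cB D 0 1 ω = 0 := by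
  classical
  unfold cB
  rw [Finset.card_eq_zero, Finset.filter_eq_empty_iff]
  intro b hb hB
  have := Bd_pos hB
  rw [Finset.mem_Ico] at hb
  omega

/-- the level set of a label `s ≥ 1` -/
theorem T1d_level {D : Set ℝ} (hD : Dom D) {n : ℕ} {ω : ℕ → ℝ × ℝ} (hN : ω ∈ EvN D n) (hnn : NN ω)
    {s : ℕ} (hs1 : 1 ≤ s) (hsn : s < n) : ∃ b b', Nxt D ω b b' ∧ b' ≤ n ∧
      ∀ s' < n, cB D 0 (s' + 1) ω = cB D 0 (s + 1) ω ↔ b ≤ s' ∧ s' < b' := by
  classical
  -- the largest boundary up to s
  have hne : ((Finset.range (s + 1)).filter fun b => Bd D ω b).Nonempty :=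
    ⟨1, by rw [Finset.mem_filter, Finset.mem_range]; exact ⟨by omega, Bd.one⟩⟩
  set b := ((Finset.range (s + 1)).filter fun b => Bd D ω b).max' hne with hb
  have hbmem := Finset.max'_mem _ hne
  rw [← hb, Finset.mem_filter, Finset.mem_range] at hbmem
  have hbmax : ∀ c, c ≤ s → Bd D ω c → c ≤ b := fun c hc hB =>
    Finset.le_max' _ _ (by rw [Finset.mem_filter, Finset.mem_range]; exact ⟨by omega, hB⟩)
  obtain ⟨b', hb'n, hnxt, -, -⟩ := exists_next hD hN hnn hbmem.2 (by omega)
  have hsb' : s < b' := by
    by_contra hc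
    push Not at hc
    have := hbmax b' hc hnxt.2.1
    have := hnxt.2.2.1
    omega
  refine ⟨b, b', hnxt, hb'n, fun s' hs' => ?_⟩
  have hbs : cB D 0 (s + 1) ω = cB D 0 (b + 1) ω :=
    T1d_cB_eq D ω (by omega) fun c hc1 hc2 hB => by
      have := hbmax c (by omega) hB
      omega
  constructor
  · intro heq
    constructor
    · by_contra hc
      push Not at hc
      have := T1d_cB_lt D ω hbmem.2 (show s' + 1 ≤ b by omega) (show b < s + 1 by omega)
      omega
    · by_contra hc
      push Not at hc
      have := T1d_cB_lt D ω hnxt.2.1 (show s + 1 ≤ b' by omega) (show b' < s' + 1 by omega)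
      omega
  · rintro ⟨h1, h2⟩
    rw [hbs]
    exact T1d_cB_eq D ω (by omega) fun c hc1 hc2 => hnxt.2.2.2 c (by omega) (by omega)

/-- **[FV-T1d]** Height, total height and width through the boundaries.
PROOF. Height: `cB D 0 (s+1)` is nondecreasing in `s`, maximal for `s = n - 1`. Total height:
`∑_{s<n} #{b ≤ s : Bd b} = ∑_{b<n, Bd b} (n - b)`. Width: the customers of depth `0` are `{0}`; those of
depth `i + 1` have labels in `[b_i, b_{i+1})` (`exists_next`: the successor of a boundary `< n` exists and
is `≤ n`; the largest one is `n`). -/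
theorem height_eq (c : Bool) (u v : ℕ → ℝ) (hu : ∀ k, 0 < u k) (hv : ∀ k, 0 < v k) (n : ℕ)
    (h : BusyLength c u v n) : height c u v n = HB (DD' c) n (zip u v) ∧
      totalHeight c u v n = TB (DD' c) n (zip u v) ∧ IsW (DD' c) n (zip u v) (width c u v n) := by
  classical
  have hn : 1 ≤ n := h.1
  have hdep := depth_eq c u v hu hv n h
  have hN : zip u v ∈ EvN (DD' c) n := (busy_iff c u v n).mp h
  have hD := dom_DD' c
  have hnn : NN (zip u v) := fun k => ⟨(hu k).le, (hv k).le⟩
  set D := DD' c
  set ω := zip u v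
  refine ⟨?_, ?_, ?_⟩
  · -- height
    have h1 : HB D n ω = cB D 0 n ω := by
      unfold HB cB
      rw [Finset.range_eq_Ico]
    rw [h1]
    unfold height
    apply le_antisymm
    · refine Finset.sup_le fun s _ => ?_
      rw [hdep s]
      exact T1d_cB_mono D ω s.2
    · have h2 := Finset.le_sup (f := depth c u v n)
        (Finset.mem_univ (⟨n - 1, by omega⟩ : Fin n))
      rw [hdep] at h2
      have h3 : n - 1 + 1 = n := by omega
      simp only [h3] at h2
      exact h2
  · -- total height
    unfold totalHeight TB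
    have h1 : ∀ s : Fin n, depth c u v n s =
        ∑ b ∈ (Finset.range n).filter (fun b => Bd D ω b), if b ≤ s then 1 else 0 := by
      intro s
      rw [hdep s, cB, ← Finset.range_eq_Ico, ← Finset.card_filter, Finset.filter_filter]
      congr 1
      ext b
      simp only [Finset.mem_filter, Finset.mem_range]
      have := s.2
      constructor
      · rintro ⟨h1, h2⟩
        exact ⟨by omega, h2, by omega⟩
      · rintro ⟨h1, h2, h3⟩
        exact ⟨by omega, h2⟩
    rw [Finset.sum_congr rfl fun s _ => h1 s, Finset.sum_comm]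
    refine Finset.sum_congr rfl fun b hb => ?_
    rw [Finset.mem_filter, Finset.mem_range] at hb
    rw [Fin.sum_univ_eq_sum_range (fun s => if b ≤ s then 1 else 0) n, ← Finset.card_filter]
    have h2 : (Finset.range n).filter (fun s => b ≤ s) = Finset.Ico b n := by
      ext s
      simp only [Finset.mem_filter, Finset.mem_range, Finset.mem_Ico]
      omega
    rw [h2, Nat.card_Ico]
  · -- width
    have hcard : ∀ k, (Finset.univ.filter fun s : Fin n => depth c u v n s = k).card ≤ n := by
      intro k
      refine (Finset.card_le_univ _).trans ?_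
      rw [Fintype.card_fin]
    have hbdd : BddAbove (Set.range fun k : ℕ =>
        (Finset.univ.filter fun s : Fin n => depth c u v n s = k).card) := by
      refine ⟨n, ?_⟩
      rintro _ ⟨k, rfl⟩
      exact hcard k
    have hle : ∀ k, (Finset.univ.filter fun s : Fin n => depth c u v n s = k).card ≤
        width c u v n := fun k => le_ciSup hbdd k
    obtain ⟨k, hk⟩ : ∃ k, (Finset.univ.filter fun s : Fin n => depth c u v n s = k).card =
        width c u v n := Nat.sSup_mem (Set.range_nonempty _) hbdd
    have hW1 : 1 ≤ width c u v n := by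
      refine le_trans ?_ (hle (depth c u v n ⟨0, by omega⟩))
      rw [Nat.one_le_iff_ne_zero, Finset.card_ne_zero]
      exact ⟨⟨0, by omega⟩, by simp⟩
    refine ⟨hW1, fun b b' hnxt hb' => ?_, ?_⟩
    · -- lower bound for W
      have hb1 := Bd_pos hnxt.1
      have hlt := hnxt.2.2.1
      refine le_trans ?_ (hle (cB D 0 (b + 1) ω))
      have h2 : (Finset.Ico b b').card ≤ (Finset.univ.filter fun s : Fin n =>
          depth c u v n s = cB D 0 (b + 1) ω).card := by
        refine Finset.card_le_card_of_injOn (fun s => if h : s < n then (⟨s, h⟩ : Fin n) else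
          ⟨0, by omega⟩) ?_ ?_
        · intro s hs
          rw [Finset.mem_coe, Finset.mem_Ico] at hs
          have hsn : s < n := by omega
          rw [Finset.mem_coe, Finset.mem_filter]
          refine ⟨Finset.mem_univ _, ?_⟩
          rw [hdep]
          simp only [hsn, dif_pos]
          exact T1d_cB_eq D ω (by omega) fun c hc1 hc2 => hnxt.2.2.2 c (by omega) (by omega)
        · intro s hs s' hs' heq
          rw [Finset.mem_coe, Finset.mem_Ico] at hs hs'
          have hsn : s < n := by omega
          have hsn' : s' < n := by omega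
          simp only [hsn, hsn', dif_pos] at heq
          simpa using heq
      rw [Nat.card_Ico] at h2
      exact h2
    · -- attained
      have hne : (Finset.univ.filter fun s : Fin n => depth c u v n s = k).Nonempty := by
        rw [← Finset.card_pos, hk]
        exact hW1
      obtain ⟨s, hs⟩ := hne
      rw [Finset.mem_filter] at hs
      have hsk := hs.2
      rcases Nat.eq_zero_or_pos (s : ℕ) with h0 | h0
      · left
        rw [← hk]
        have h2 : (Finset.univ.filter fun s' : Fin n => depth c u v n s' = k) = {s} := by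
          ext s'
          rw [Finset.mem_filter, Finset.mem_singleton]
          constructor
          · rintro ⟨_, h3⟩
            by_contra hc
            have h4 : 1 ≤ (s' : ℕ) := by
              rcases Nat.eq_zero_or_pos (s' : ℕ) with h5 | h5
              · exact absurd (Fin.ext (h5.trans h0.symm)) hc
              · exact h5
            rw [hdep] at h3 hsk
            rw [h0] at hsk
            have h6 := T1d_cB_lt D ω (Bd.one (D := D) (ω := ω)) (show 0 + 1 ≤ 1 by omega)
              (show 1 < (s' : ℕ) + 1 by omega)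
            omega
          · rintro rfl
            exact ⟨Finset.mem_univ _, hsk⟩
        rw [h2, Finset.card_singleton]
      · right
        obtain ⟨b, b', hnxt, hb'n, hlev⟩ := T1d_level hD hN hnn h0 s.2
        refine ⟨b, b', hnxt, hb'n, ?_⟩
        rw [← hk]
        have h2 : ((Finset.univ.filter fun s' : Fin n => depth c u v n s' = k).map
            Fin.valEmbedding) = Finset.Ico b b' := by
          ext s'
          rw [Finset.mem_map, Finset.mem_Ico]
          constructor
          · rintro ⟨t, ht, rfl⟩
            rw [Finset.mem_filter, hdep, ← hsk, hdep] at ht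
            exact (hlev t t.2).mp ht.2
          · rintro ⟨h3, h4⟩
            refine ⟨⟨s', by omega⟩, ?_, rfl⟩
            rw [Finset.mem_filter, hdep, ← hsk, hdep]
            exact ⟨Finset.mem_univ _, (hlev s' (by omega)).mpr ⟨h3, h4⟩⟩
        rw [← Finset.card_map Fin.valEmbedding, h2, Nat.card_Ico]

/-- **[FV-T1e]** `IsW` determines the number. -/
theorem IsW_unique {D : Set ℝ} {n : ℕ} {ω : ℕ → ℝ × ℝ} {W W' : ℕ} (h : IsW D n ω W)
    (h' : IsW D n ω W') : W = W' := by
  have key : ∀ {W W' : ℕ}, IsW D n ω W → IsW D n ω W' → W ≤ W' := by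
    intro W W' h h'
    rcases h.2.2 with h1 | ⟨b, b', h1, h2, h3⟩
    · rw [h1]
      exact h'.1
    · rw [← h3]
      exact h'.2.1 b b' h1 h2
  exact le_antisymm (key h h') (key h' h)

end Pool.Agent.BPT
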