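import Pool.Agent.MP_99a865_pr.FV.T0b

open MeasureTheory ProbabilityTheory Filter Topology
open scoped ENNReal NNReal

namespace Pool.Agent.BPT

theorem T1e_arrival (k : ℕ) : Measurable (fun p : (ℕ → ℝ) × (ℕ → ℝ) => arrival p.1 k) := by
  unfold arrival
  fun_prop

theorem T1e_depart (k : ℕ) : Measurable (fun p : (ℕ → ℝ) × (ℕ → ℝ) => depart p.1 p.2 k) := by
  induction k with
  | zero => simp only [depart]; fun_prop
  | succ k ih =>
    simp only [depart]
    exact (ih.max (T1e_arrival (k + 1))).add (by fun_prop)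

theorem T1e_By (c : Bool) {f g : (ℕ → ℝ) × (ℕ → ℝ) → ℝ} (hf : Measurable f) (hg : Measurable g) :
    MeasurableSet {p | By c (f p) (g p)} := by
  unfold By
  exact (measurableSet_lt hf hg).union ((MeasurableSet.const _).inter (measurableSet_eq_fun hf hg))

theorem T1e_rel (c : Bool) (n : ℕ) (r s : Fin n) :
    MeasurableSet {p : (ℕ → ℝ) × (ℕ → ℝ) |
      r < s ∧ ¬ By c (arrival p.1 s) (depart p.1 p.2 r - p.2 r) ∧
        By c (arrival p.1 s) (depart p.1 p.2 r)} := by
  refine (MeasurableSet.const _).inter (MeasurableSet.inter ?_ ?_)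
  · refine (T1e_By c (T1e_arrival _) ?_).compl
    exact (T1e_depart _).sub (by fun_prop)
  · exact T1e_By c (T1e_arrival _) (T1e_depart _)

theorem T1e_adj (c : Bool) (n : ℕ) (r s : Fin n) :
    MeasurableSet {p : (ℕ → ℝ) × (ℕ → ℝ) | (tree c p.1 p.2 n).Adj r s} := by
  unfold tree
  simp only [SimpleGraph.fromRel_adj]
  exact (MeasurableSet.const _).inter ((T1e_rel c n r s).union (T1e_rel c n s r))

theorem T1e_tree (c : Bool) (n : ℕ) (G : SimpleGraph (Fin n)) :
    MeasurableSet {p : (ℕ → ℝ) × (ℕ → ℝ) | tree c p.1 p.2 n = G} := by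
  have : {p : (ℕ → ℝ) × (ℕ → ℝ) | tree c p.1 p.2 n = G} =
      ⋂ r : Fin n, ⋂ s : Fin n, {p | (tree c p.1 p.2 n).Adj r s ↔ G.Adj r s} := by
    ext p
    simp only [Set.mem_ofPred_eq, Set.mem_iInter]
    constructor
    · rintro rfl r s
      exact Iff.rfl
    · intro h
      ext r s
      exact h r s
  rw [this]
  refine MeasurableSet.iInter fun r => MeasurableSet.iInter fun s => ?_
  by_cases hG : G.Adj r s
  · simp only [hG, iff_true]
    exact T1e_adj c n r s
  · simp only [hG, iff_false]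
    exact (T1e_adj c n r s).compl

theorem T1e_comp (c : Bool) (n : ℕ) (F : SimpleGraph (Fin n) → ℕ) :
    Measurable (fun p : (ℕ → ℝ) × (ℕ → ℝ) => F (tree c p.1 p.2 n)) := by
  refine measurable_to_countable' fun m => ?_
  have : (fun p : (ℕ → ℝ) × (ℕ → ℝ) => F (tree c p.1 p.2 n)) ⁻¹' {m} =
      ⋃ G ∈ {G : SimpleGraph (Fin n) | F G = m}, {p | tree c p.1 p.2 n = G} := by
    ext p
    simp
  rw [this]
  exact MeasurableSet.biUnion (Set.toFinite _).countable fun G _ => T1e_tree c n G

/-- measurability of the three functionals (finitely many values, measurable level sets; the tree only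
depends on finitely many comparisons) -/
theorem measurable_height (c : Bool) (n : ℕ) :
    Measurable (fun p : (ℕ → ℝ) × (ℕ → ℝ) => height c p.1 p.2 n) ∧
    Measurable (fun p : (ℕ → ℝ) × (ℕ → ℝ) => width c p.1 p.2 n) ∧
    Measurable (fun p : (ℕ → ℝ) × (ℕ → ℝ) => totalHeight c p.1 p.2 n) := by
  refine ⟨?_, ?_, ?_⟩
  · exact T1e_comp c n (fun G => Finset.univ.sup fun s : Fin n => G.dist ⟨0, s.pos⟩ s)
  · classical
    exact T1e_comp c n (fun G => ⨆ k : ℕ, (Finset.univ.filter fun s : Fin n =>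
      G.dist ⟨0, s.pos⟩ s = k).card)
  · exact T1e_comp c n (fun G => ∑ s : Fin n, G.dist ⟨0, s.pos⟩ s)

end Pool.Agent.BPT
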