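import Pool.Agent.MP_99a865_pr.FV.F1

open MeasureTheory ProbabilityTheory Filter Topology
open scoped ENNReal NNReal

namespace Pool.Agent.BPT

/-! **[FV-G0]** Two reference models. -/

/-! ### the law `muS` -/

theorem G0_muS_apply (s : Set ℝ) (hs : MeasurableSet s) :
    muS s = (1 / 2 : ℝ≥0∞) * s.indicator 1 (1 / 2 : ℝ) + (1 / 2 : ℝ≥0∞) * s.indicator 1 (3 / 2 : ℝ) := by
  unfold muS
  rw [Measure.add_apply, Measure.smul_apply, Measure.smul_apply, Measure.dirac_apply' _ hs,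
    Measure.dirac_apply' _ hs, smul_eq_mul, smul_eq_mul]

instance G0_muS_prob : IsProbabilityMeasure muS := by
  constructor
  rw [G0_muS_apply _ MeasurableSet.univ]
  simp only [Set.indicator_univ, Pi.one_apply, mul_one]
  exact ENNReal.add_halves 1

theorem G0_muS_int (f : ℝ → ℝ) :
    Integrable f muS ∧ ∫ x, f x ∂muS = (f (1 / 2) + f (3 / 2)) / 2 := by
  have hd : ∀ a : ℝ, Integrable f (Measure.dirac a) := fun a => by
    refine ⟨?_, ?_⟩
    · exact ⟨fun _ => f a, stronglyMeasurable_const, by rw [ae_dirac_eq]; rfl⟩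
    · unfold HasFiniteIntegral
      rw [lintegral_dirac]
      exact enorm_lt_top
  have h1 : Integrable f ((1 / 2 : ℝ≥0∞) • Measure.dirac (1 / 2 : ℝ)) :=
    (hd _).smul_measure (by simp)
  have h2 : Integrable f ((1 / 2 : ℝ≥0∞) • Measure.dirac (3 / 2 : ℝ)) :=
    (hd _).smul_measure (by simp)
  refine ⟨h1.add_measure h2, ?_⟩
  unfold muS
  rw [integral_add_measure h1 h2, integral_smul_measure, integral_smul_measure, integral_dirac,
    integral_dirac]
  simp only [one_div, ENNReal.toReal_inv, ENNReal.toReal_ofNat, smul_eq_mul]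
  ring

instance G0_nuS_prob : IsProbabilityMeasure nuS := by
  unfold nuS
  infer_instance

theorem G0_nuS_int (f : ℝ → ℝ) : Integrable f nuS ∧ ∫ x, f x ∂nuS = f 1 := by
  unfold nuS
  refine ⟨⟨?_, ?_⟩, integral_dirac f 1⟩
  · exact ⟨fun _ => f 1, stronglyMeasurable_const, by rw [ae_dirac_eq]; rfl⟩
  · unfold HasFiniteIntegral
    rw [lintegral_dirac]
    exact enorm_lt_top

theorem qstd_S : QStd muS nuS (1 / 2) where
  probμ := G0_muS_prob
  probν := G0_nuS_prob
  nonnegμ := by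
    rw [G0_muS_apply _ measurableSet_Iio]
    have h1 : (1 / 2 : ℝ) ∉ Set.Iio (0 : ℝ) := by
      simp only [Set.mem_Iio, not_lt]
      norm_num
    have h2 : (3 / 2 : ℝ) ∉ Set.Iio (0 : ℝ) := by
      simp only [Set.mem_Iio, not_lt]
      norm_num
    rw [Set.indicator_of_notMem h1, Set.indicator_of_notMem h2]
    simp
  nonnegν := by
    unfold nuS
    rw [Measure.dirac_apply' _ measurableSet_Iio]
    apply Set.indicator_of_notMem
    simp only [Set.mem_Iio, not_lt]
    norm_num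
  int2μ := (G0_muS_int _).1
  int2ν := (G0_nuS_int _).1
  meanμ := by
    rw [(G0_muS_int fun x => x).2]
    norm_num
  meanν := by rw [(G0_nuS_int fun x => x).2]
  pos := by norm_num
  var := by
    rw [(G0_muS_int fun x => (x - 1) ^ 2).2, (G0_nuS_int fun x => (x - 1) ^ 2).2]
    norm_num

/-! ### the law `nuG` -/

theorem G0_sum0 : HasSum (fun k : ℕ => (1 / 2 : ℝ) ^ (k + 1)) 1 := by
  have h := hasSum_geometric_two.mul_left (1 / 2 : ℝ)
  convert! h using 2
  · rw [pow_succ, mul_comm]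
  · norm_num

theorem G0_sum1 : HasSum (fun k : ℕ => (1 / 2 : ℝ) ^ (k + 1) * (k : ℝ)) 1 := by
  have h := (hasSum_coe_mul_geometric_of_norm_lt_one (r := (1 / 2 : ℝ)) (by
    rw [Real.norm_eq_abs, abs_of_pos] <;> norm_num)).mul_left (1 / 2 : ℝ)
  convert! h using 2
  · rw [pow_succ]
    ring
  · norm_num

theorem G0_sum2 : HasSum (fun k : ℕ => (1 / 2 : ℝ) ^ (k + 1) * (k : ℝ) ^ 2) 3 := by
  have h := (hasSum_choose_mul_geometric_of_norm_lt_one (r := (1 / 2 : ℝ)) 2 (by
    rw [Real.norm_eq_abs, abs_of_pos] <;> norm_num))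
  have h3 := (h.sub ((G0_sum1.mul_left 3).add (G0_sum0.mul_left 2)))
  convert! h3 using 2 with k
  · have h4 : (((k + 2).choose 2 : ℕ) : ℝ) = ((k : ℝ) + 2) * (k + 1) / 2 := by
      rw [Nat.cast_choose_two]
      push_cast
      ring
    rw [h4, pow_succ]
    ring
  · norm_num

theorem G0_nuG_apply (s : Set ℝ) (hs : MeasurableSet s) :
    nuG s = ∑' k : ℕ, ENNReal.ofReal ((1 / 2 : ℝ) ^ (k + 1)) * s.indicator 1 (k : ℝ) := by
  unfold nuG
  rw [Measure.sum_apply _ hs]
  refine tsum_congr fun k => ?_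
  rw [Measure.smul_apply, Measure.dirac_apply' _ hs, smul_eq_mul]

instance G0_nuG_prob : IsProbabilityMeasure nuG := by
  constructor
  rw [G0_nuG_apply _ MeasurableSet.univ]
  simp only [Set.indicator_univ, Pi.one_apply, mul_one]
  rw [← ENNReal.ofReal_tsum_of_nonneg (fun k => by positivity) G0_sum0.summable, G0_sum0.tsum_eq]
  simp

theorem G0_nuG_ae (p : ℝ → Prop) (hp : MeasurableSet {x | p x}) (h : ∀ k : ℕ, p k) :
    ∀ᵐ x ∂nuG, p x := by
  have hp' : MeasurableSet {x | ¬ p x} := hp.compl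
  rw [ae_iff, G0_nuG_apply _ hp']
  rw [ENNReal.tsum_eq_zero]
  intro k
  rw [Set.indicator_of_notMem, mul_zero]
  intro h1
  exact h1 (h k)

theorem G0_nuG_int (f : ℝ → ℝ) (hf : Measurable f) (h0 : ∀ k : ℕ, 0 ≤ f k) {s : ℝ}
    (hs : HasSum (fun k : ℕ => (1 / 2 : ℝ) ^ (k + 1) * f k) s) :
    Integrable f nuG ∧ ∫ x, f x ∂nuG = s := by
  have hae : 0 ≤ᵐ[nuG] f := G0_nuG_ae (fun x => 0 ≤ f x) (measurableSet_le measurable_const hf) h0
  have hl : ∫⁻ x, ENNReal.ofReal (f x) ∂nuG = ENNReal.ofReal s := by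
    unfold nuG
    rw [lintegral_sum_measure]
    have h1 : ∀ k : ℕ, ∫⁻ x, ENNReal.ofReal (f x)
        ∂((ENNReal.ofReal ((1 / 2 : ℝ) ^ (k + 1))) • Measure.dirac (k : ℝ)) =
        ENNReal.ofReal ((1 / 2 : ℝ) ^ (k + 1) * f k) := by
      intro k
      rw [lintegral_smul_measure, lintegral_dirac' _ hf.ennreal_ofReal, smul_eq_mul,
        ENNReal.ofReal_mul (by positivity)]
    simp only [h1]
    rw [← ENNReal.ofReal_tsum_of_nonneg (fun k => mul_nonneg (by positivity) (h0 k)) hs.summable,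
      hs.tsum_eq]
  refine ⟨⟨hf.aestronglyMeasurable, ?_⟩, ?_⟩
  · rw [hasFiniteIntegral_iff_ofReal hae, hl]
    exact ENNReal.ofReal_lt_top
  · rw [integral_eq_lintegral_of_nonneg_ae hae hf.aestronglyMeasurable, hl,
      ENNReal.toReal_ofReal (hs.nonneg fun k => mul_nonneg (by positivity) (h0 k))]

instance G0_muG_prob : IsProbabilityMeasure muG := by
  unfold muG
  infer_instance

theorem qstd_G : QStd muG nuG √2 where
  probμ := G0_muG_prob
  probν := G0_nuG_prob
  nonnegμ := by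
    unfold muG
    rw [Measure.dirac_apply' _ measurableSet_Iio]
    apply Set.indicator_of_notMem
    simp only [Set.mem_Iio, not_lt]
    norm_num
  nonnegν := by
    have h := G0_nuG_ae (fun x => ¬ x < 0) measurableSet_Iio.compl (fun k => by
      have : (0 : ℝ) ≤ k := Nat.cast_nonneg k
      exact not_lt.2 this)
    rw [ae_iff] at h
    simp only [not_not] at h
    exact h
  int2μ := (G0_nuS_int _).1
  int2ν := (G0_nuG_int (fun x => x ^ 2) (by fun_prop) (fun k => by positivity) G0_sum2).1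
  meanμ := (G0_nuS_int fun x => x).2
  meanν := (G0_nuG_int (fun x => x) measurable_id (fun k => by positivity) G0_sum1).2
  pos := by positivity
  var := by
    have h1 : ∫ x, (x - 1) ^ 2 ∂muG = 0 := by
      have := (G0_nuS_int fun x => (x - 1) ^ 2).2
      simp only [sub_self] at this
      unfold nuS at this
      unfold muG
      rw [this]
      norm_num
    have h2 : HasSum (fun k : ℕ => (1 / 2 : ℝ) ^ (k + 1) * ((k : ℝ) - 1) ^ 2) 2 := by
      have h3 := (G0_sum2.sub (G0_sum1.mul_left 2)).add G0_sum0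
      convert! h3 using 2 with k
      · ring
      · norm_num
    rw [h1, (G0_nuG_int (fun x => (x - 1) ^ 2) (by fun_prop) (fun k => by positivity) h2).2,
      Real.sq_sqrt (by norm_num)]
    norm_num

/-- **[FV-G0]** In the simple random walk model, a.s. every step of the normalised walk is `±1` -/
theorem ae_S : ∀ᵐ ω ∂(PQ muS nuS), ∀ i, (ω i).2 = (1 : ℝ) ∧ ((ω i).1 = 1 / 2 ∨ (ω i).1 = 3 / 2) := by
  rw [ae_all_iff]
  intro i
  have hS : ∀ᵐ x ∂muS, x = 1 / 2 ∨ x = 3 / 2 := by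
    have hm : MeasurableSet {x : ℝ | ¬ (x = 1 / 2 ∨ x = 3 / 2)} := by
      have : {x : ℝ | ¬ (x = 1 / 2 ∨ x = 3 / 2)} = ({1 / 2, 3 / 2} : Set ℝ)ᶜ := by
        ext x
        simp
      rw [this]
      exact (Set.Finite.measurableSet (Set.toFinite _)).compl
    rw [ae_iff, G0_muS_apply _ hm, Set.indicator_of_notMem, Set.indicator_of_notMem]
    · simp
    · simp
    · simp
  have hN : ∀ᵐ y ∂nuS, y = (1 : ℝ) := by
    unfold nuS
    rw [ae_dirac_eq]
    exact rfl
  have h1 : ∀ᵐ p ∂(muS.prod nuS), p.2 = (1 : ℝ) ∧ (p.1 = 1 / 2 ∨ p.1 = 3 / 2) := by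
    have h2 := (Measure.quasiMeasurePreserving_fst (μ := muS) (ν := nuS)).ae hS
    have h3 := (Measure.quasiMeasurePreserving_snd (μ := muS) (ν := nuS)).ae hN
    filter_upwards [h2, h3] with p hp2 hp3
    exact ⟨hp3, hp2⟩
  exact (measurePreserving_eval_infinitePi (fun _ : ℕ => muS.prod nuS)
    i).quasiMeasurePreserving.ae h1

theorem ae_G : ∀ᵐ ω ∂(PQ muG nuG), ∀ i, (ω i).1 = 1 ∧ ∃ k : ℕ, (ω i).2 = (k : ℝ) := by
  rw [ae_all_iff]
  intro i
  have hN : ∀ᵐ y ∂nuG, ∃ k : ℕ, y = (k : ℝ) := by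
    refine G0_nuG_ae _ ?_ (fun k => ⟨k, rfl⟩)
    have : {x : ℝ | ∃ k : ℕ, x = (k : ℝ)} = Set.range (fun k : ℕ => (k : ℝ)) := by
      ext x
      constructor
      · rintro ⟨k, rfl⟩
        exact ⟨k, rfl⟩
      · rintro ⟨k, rfl⟩
        exact ⟨k, rfl⟩
    rw [this]
    exact (Set.countable_range _).measurableSet
  have hS : ∀ᵐ y ∂muG, y = (1 : ℝ) := by
    unfold muG
    rw [ae_dirac_eq]
    exact rfl
  have h1 : ∀ᵐ p ∂(muG.prod nuG), p.1 = (1 : ℝ) ∧ ∃ k : ℕ, p.2 = (k : ℝ) := by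
    have h2 := (Measure.quasiMeasurePreserving_fst (μ := muG) (ν := nuG)).ae hS
    have h3 := (Measure.quasiMeasurePreserving_snd (μ := muG) (ν := nuG)).ae hN
    filter_upwards [h2, h3] with p hp2 hp3
    exact ⟨hp2, hp3⟩
  exact (measurePreserving_eval_infinitePi (fun _ : ℕ => muG.prod nuG)
    i).quasiMeasurePreserving.ae h1

/-- **[FV-G0]** (locally uniform convergence of the series on `(0,∞)`) -/
theorem continuousAt_FF {x : ℝ} (hx : 0 < x) : ContinuousAt FF x := by
  set R : ℝ := x + 1 with hR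
  have hRpos : 0 < R := by positivity
  set c : ℝ := Real.pi ^ 2 / (2 * R ^ 2) with hc
  have hcpos : 0 < c := by positivity
  have hsum : Summable fun k : ℕ => ((k : ℝ) + 1) ^ 2 * Real.exp (-c * ((k : ℝ) + 1)) := by
    have h := Real.summable_pow_mul_exp_neg_nat_mul 2 hcpos
    have h2 := (summable_nat_add_iff 1).2 h
    convert! h2 using 2 with k
    push_cast
    rfl
  have hcont : ContinuousOn (fun y : ℝ => ∑' k : ℕ, ((k : ℝ) + 1) ^ 2 *
      Real.exp (-Real.pi ^ 2 * ((k : ℝ) + 1) ^ 2 / (2 * y ^ 2))) (Set.Ioo 0 R) := by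
    refine continuousOn_tsum (u := fun k : ℕ => ((k : ℝ) + 1) ^ 2 * Real.exp (-c * ((k : ℝ) + 1)))
      ?_ hsum ?_
    · intro k
      refine ContinuousOn.mul continuousOn_const (Real.continuous_exp.comp_continuousOn ?_)
      refine ContinuousOn.div continuousOn_const (by fun_prop) ?_
      intro y hy
      have := hy.1
      positivity
    · intro k y hy
      rw [Real.norm_eq_abs, abs_of_nonneg (by positivity)]
      refine mul_le_mul_of_nonneg_left (Real.exp_le_exp.2 ?_) (by positivity)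
      have hy0 := hy.1
      have hyR := hy.2.le
      have hk : (1 : ℝ) ≤ (k : ℝ) + 1 := by
        have : (0 : ℝ) ≤ k := Nat.cast_nonneg k
        linarith
      have h1 : c ≤ Real.pi ^ 2 / (2 * y ^ 2) := by
        rw [hc]
        apply div_le_div_of_nonneg_left (by positivity) (by positivity)
        have : y ^ 2 ≤ R ^ 2 := pow_le_pow_left₀ hy0.le hyR 2
        linarith
      have h2 : -Real.pi ^ 2 * ((k : ℝ) + 1) ^ 2 / (2 * y ^ 2) =
          -(Real.pi ^ 2 / (2 * y ^ 2) * ((k : ℝ) + 1) ^ 2) := by ring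
      rw [h2]
      have h3 : c * ((k : ℝ) + 1) ≤ Real.pi ^ 2 / (2 * y ^ 2) * ((k : ℝ) + 1) ^ 2 := by
        refine mul_le_mul h1 ?_ (by positivity) (by positivity)
        nlinarith
      linarith
  have hxin : Set.Ioo 0 R ∈ 𝓝 x := Ioo_mem_nhds hx (by rw [hR]; linarith)
  have h1 := hcont.continuousAt hxin
  unfold FF
  refine ContinuousAt.mul ?_ h1
  refine ContinuousAt.div continuousAt_const (by fun_prop) (by positivity)

end Pool.Agent.BPT
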