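import Pool.Agent.MP_99a865_pr.FV.S0
import Pool.Agent.MP_99a865_pr.FV.G0

open MeasureTheory ProbabilityTheory Filter Topology
open scoped ENNReal NNReal

namespace Pool.Agent.BPT

theorem X1_height_zero {m : ℕ} (s : Fin (2 * m) → Bool) : pathHeight s 0 = 0 := by
  unfold pathHeight
  simp

theorem X1_height_succ {m : ℕ} (s : Fin (2 * m) → Bool) (k : ℕ) (hk : k < 2 * m) :
    pathHeight s (k + 1) = pathHeight s k + (if s ⟨k, hk⟩ then 1 else -1) := by
  unfold pathHeight
  have h : ∀ i : Fin (2 * m), (if (i : ℕ) < k + 1 then (if s i then (1 : ℤ) else -1) else 0) =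
      (if (i : ℕ) < k then (if s i then (1 : ℤ) else -1) else 0) +
      (if i = ⟨k, hk⟩ then (if s i then (1 : ℤ) else -1) else 0) := by
    intro i
    by_cases h1 : (i : ℕ) < k
    · have h2 : i ≠ ⟨k, hk⟩ := fun h => by rw [h] at h1; simp at h1
      rw [if_pos (by omega), if_pos h1, if_neg h2, add_zero]
    · by_cases h2 : i = ⟨k, hk⟩
      · rw [if_pos (by rw [h2]; simp), if_neg h1, if_pos h2, zero_add]
      · have h3 : (i : ℕ) ≠ k := fun h => h2 (Fin.ext h)
        rw [if_neg (by omega), if_neg h1, if_neg h2, add_zero]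
  rw [Finset.sum_congr rfl fun i _ => h i, Finset.sum_add_distrib, Finset.sum_ite_eq']
  simp

/-- the pattern of a sequence -/
noncomputable def X1pat (m : ℕ) (ω : ℕ → ℝ × ℝ) : Fin (2 * m) → Bool := fun i => decide ((ω i).1 = 1 / 2)

theorem X1_Zw_succ (k : ℕ) (ω : ℕ → ℝ × ℝ) : Zw (k + 1) ω = Zw k ω + ((ω k).2 - (ω k).1) := by
  unfold Zw Dp Ar
  rw [Finset.sum_range_succ, Finset.sum_range_succ]
  ring

theorem X1_Zw_zero (ω : ℕ → ℝ × ℝ) : Zw 0 ω = 0 := by
  simp [Zw, Dp, Ar]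

theorem X1_Zw {m : ℕ} {ω : ℕ → ℝ × ℝ} (hω : ∀ i, (ω i).2 = (1 : ℝ) ∧ ((ω i).1 = 1 / 2 ∨ (ω i).1 = 3 / 2))
    (k : ℕ) (hk : k ≤ 2 * m) : Zw k ω = (pathHeight (X1pat m ω) k : ℝ) / 2 := by
  induction k with
  | zero => rw [X1_Zw_zero, X1_height_zero]; simp
  | succ k ih =>
    rw [X1_Zw_succ, ih (by omega), X1_height_succ _ k (by omega)]
    obtain ⟨h1, h2⟩ := hω k
    rcases h2 with h2 | h2
    · have h3 : X1pat m ω ⟨k, by omega⟩ = true := by simp [X1pat, h2]
      rw [h1, h2, h3]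
      push_cast
      norm_num
      ring
    · have h3 : X1pat m ω ⟨k, by omega⟩ = false := by
        simp only [X1pat, h2, decide_eq_false_iff_not]
        norm_num
      rw [h1, h2, h3]
      push_cast
      norm_num
      ring

theorem X1_mem {m : ℕ} {ω : ℕ → ℝ × ℝ}
    (hω : ∀ i, (ω i).2 = (1 : ℝ) ∧ ((ω i).1 = 1 / 2 ∨ (ω i).1 = 3 / 2)) :
    ω ∈ EvN (Set.Ici 0) (2 * m + 1) ↔ X1pat m ω ∈ dyckPaths m ∧ (ω (2 * m)).1 = 3 / 2 := by
  unfold EvN AliveQ dyckPaths
  rw [Set.mem_ofPred_eq, Finset.mem_filter]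
  simp only [Finset.mem_univ, true_and, Set.mem_Ici, not_le, Nat.add_sub_cancel]
  obtain ⟨h1, h2⟩ := hω (2 * m)
  have hZ := X1_Zw (m := m) hω
  constructor
  · rintro ⟨-, ha, hb⟩
    have hc : ∀ k ≤ 2 * m, 0 ≤ pathHeight (X1pat m ω) k := by
      intro k hk
      rcases Nat.eq_zero_or_pos k with h0 | h0
      · rw [h0, X1_height_zero]
      · have := ha k h0 hk
        rw [hZ k hk] at this
        have h3 : (0 : ℝ) ≤ (pathHeight (X1pat m ω) k : ℝ) := by linarith
        exact_mod_cast h3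
    rw [X1_Zw_succ, hZ (2 * m) le_rfl, h1] at hb
    have hd : (0 : ℝ) ≤ (pathHeight (X1pat m ω) (2 * m) : ℝ) := by exact_mod_cast hc (2 * m) le_rfl
    rcases h2 with h2 | h2
    · rw [h2] at hb
      linarith
    · rw [h2] at hb
      have he : (pathHeight (X1pat m ω) (2 * m) : ℝ) < 1 := by linarith
      have hf : pathHeight (X1pat m ω) (2 * m) < 1 := by exact_mod_cast he
      have hg := hc (2 * m) le_rfl
      exact ⟨⟨hc, by omega⟩, h2⟩
  · rintro ⟨⟨hc, hd⟩, he⟩
    refine ⟨by omega, fun j hj1 hj2 => ?_, ?_⟩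
    · rw [hZ j hj2]
      have : (0 : ℝ) ≤ (pathHeight (X1pat m ω) j : ℝ) := by exact_mod_cast hc j hj2
      linarith
    · rw [X1_Zw_succ, hZ (2 * m) le_rfl, h1, he, hd]
      norm_num

theorem X1_Area {m : ℕ} {ω : ℕ → ℝ × ℝ}
    (hω : ∀ i, (ω i).2 = (1 : ℝ) ∧ ((ω i).1 = 1 / 2 ∨ (ω i).1 = 3 / 2)) :
    Area (1 / 2) (2 * m + 1) ω = (pathArea (X1pat m ω) : ℝ) := by
  unfold Area pathArea
  push_cast
  refine Finset.sum_congr rfl fun k hk => ?_
  unfold nz
  rw [X1_Zw (m := m) hω k (by have := Finset.mem_range.1 hk; omega)]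
  ring

/-- the cylinder of a pattern -/
def X1cyl {m : ℕ} (s : Fin (2 * m) → Bool) : Set (ℕ → ℝ × ℝ) :=
  Set.pi (Finset.range (2 * m + 1)) fun i =>
    {p : ℝ × ℝ | p.1 = if h : i < 2 * m then (if s ⟨i, h⟩ then 1 / 2 else 3 / 2) else 3 / 2}

theorem X1_meas1 (c : ℝ) : MeasurableSet {p : ℝ × ℝ | p.1 = c} :=
  measurableSet_eq_fun measurable_fst measurable_const

theorem X1_meas {m : ℕ} (s : Fin (2 * m) → Bool) : MeasurableSet (X1cyl s) := by
  unfold X1cyl
  exact MeasurableSet.pi (Finset.countable_toSet _) fun i _ => X1_meas1 _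

theorem X1_half (c : ℝ) (hc : c = 1 / 2 ∨ c = 3 / 2) : (muS.prod nuS) {p : ℝ × ℝ | p.1 = c} = 1 / 2 := by
  have := qstd_S.probμ
  have := qstd_S.probν
  have h1 : {p : ℝ × ℝ | p.1 = c} = {c} ×ˢ Set.univ := by
    ext p
    simp [Set.mem_prod]
  rw [h1, Measure.prod_prod, measure_univ, mul_one]
  unfold muS
  rw [Measure.add_apply, Measure.smul_apply, Measure.smul_apply, Measure.dirac_apply, Measure.dirac_apply]
  rcases hc with rfl | rfl
  · have h2 : (3 / 2 : ℝ) ∉ ({1 / 2} : Set ℝ) := by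
      rw [Set.mem_singleton_iff]; norm_num
    rw [Set.indicator_of_mem (Set.mem_singleton _), Set.indicator_of_notMem h2]
    simp
  · have h2 : (1 / 2 : ℝ) ∉ ({3 / 2} : Set ℝ) := by
      rw [Set.mem_singleton_iff]; norm_num
    rw [Set.indicator_of_mem (Set.mem_singleton _), Set.indicator_of_notMem h2]
    simp

theorem X1_prob {m : ℕ} (s : Fin (2 * m) → Bool) :
    (PQ muS nuS).real (X1cyl s) = 1 / 2 ^ (2 * m + 1) := by
  have := qstd_S.probμ
  have := qstd_S.probν
  unfold Measure.real PQ seqLaw X1cyl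
  rw [Measure.infinitePi_pi _ (fun i _ => X1_meas1 _)]
  rw [Finset.prod_congr rfl (g := fun _ => (1 / 2 : ℝ≥0∞))]
  · rw [Finset.prod_const, Finset.card_range, ENNReal.toReal_pow]
    simp
  · intro i _
    apply X1_half
    split_ifs
    · left; rfl
    · right; rfl
    · right; rfl

theorem X1_cyl_iff {m : ℕ} {ω : ℕ → ℝ × ℝ}
    (hω : ∀ i, (ω i).2 = (1 : ℝ) ∧ ((ω i).1 = 1 / 2 ∨ (ω i).1 = 3 / 2)) (s : Fin (2 * m) → Bool) :
    ω ∈ X1cyl s ↔ s = X1pat m ω ∧ (ω (2 * m)).1 = 3 / 2 := by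
  unfold X1cyl
  rw [Set.mem_pi]
  constructor
  · intro h
    constructor
    · funext i
      have h1 := h i (by simp)
      rw [Set.mem_ofPred_eq, dif_pos i.isLt] at h1
      unfold X1pat
      rw [h1]
      cases hs : s i
      · simp [hs]; norm_num
      · simp [hs]
    · have h1 := h (2 * m) (by simp)
      rw [Set.mem_ofPred_eq, dif_neg (lt_irrefl _)] at h1
      exact h1
  · rintro ⟨rfl, h2⟩ i hi
    rw [Set.mem_ofPred_eq]
    by_cases h : i < 2 * m
    · rw [dif_pos h]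
      unfold X1pat
      rcases (hω i).2 with h3 | h3
      · simp [h3]
      · rw [h3]; norm_num
    · rw [dif_neg h]
      have : i = 2 * m := by
        have := Finset.mem_range.1 (Finset.mem_coe.1 hi)
        omega
      rw [this]
      exact h2

/-- **[FV-X1]** The simple random walk on `{N = 2m+1}` is a uniform Dyck path of length `2m`, followed by a
down-step. PROOF. Almost surely the steps are `±1` (`ae_S`: `u = 1/2` is an up-step). On `EvN (2m+1)` the
walk is `≥ 0` up to time `2m`, and `< 0` at time `2m+1`, so it is `0` at time `2m` (parity), and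
`Area = pathArea` of the first `2m` steps (`nz 0 = 0`). Each pattern `s` of the first `2m` steps together
with a down-step has probability `2^{-2m-1}` (`Measure.infinitePi_pi` on the coordinates `< 2m+1`; the
`(μS.prod νS)`-measure of `{p | p.1 = 1/2}` is `1/2`). Sum over `s ∈ dyckPaths m`. -/
theorem dyck_srw (m : ℕ) (F : ℝ → ℝ) (hF : Measurable F) :
    ∫ ω in EvN (Set.Ici 0) (2 * m + 1), F (Area (1 / 2) (2 * m + 1) ω) ∂(PQ muS nuS) =
      (∑ s ∈ dyckPaths m, F (pathArea s)) / 2 ^ (2 * m + 1) := by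
  have := qstd_S.probμ
  have := qstd_S.probν
  have hE : MeasurableSet (EvN (Set.Ici 0) (2 * m + 1)) := measurableSet_EvN (Or.inl rfl) _
  rw [← integral_indicator hE]
  have hae : (EvN (Set.Ici 0) (2 * m + 1)).indicator
      (fun ω : ℕ → ℝ × ℝ => F (Area (1 / 2) (2 * m + 1) ω)) =ᵐ[PQ muS nuS]
      fun ω => ∑ s ∈ dyckPaths m, (X1cyl s).indicator (fun _ => F (pathArea s)) ω := by
    filter_upwards [ae_S] with ω hω
    by_cases hmem : ω ∈ EvN (Set.Ici 0) (2 * m + 1)
    · obtain ⟨h1, h2⟩ := (X1_mem hω).1 hmem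
      rw [Set.indicator_of_mem hmem, X1_Area hω, Finset.sum_eq_single (X1pat m ω)]
      · rw [Set.indicator_of_mem ((X1_cyl_iff hω _).2 ⟨rfl, h2⟩)]
      · intro s _ hs
        rw [Set.indicator_of_notMem]
        intro h
        exact hs ((X1_cyl_iff hω _).1 h).1
      · intro h
        exact absurd h1 h
    · rw [Set.indicator_of_notMem hmem, Finset.sum_eq_zero]
      intro s hs
      rw [Set.indicator_of_notMem]
      intro h
      obtain ⟨h1, h2⟩ := (X1_cyl_iff hω _).1 h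
      rw [h1] at hs
      exact hmem ((X1_mem hω).2 ⟨hs, h2⟩)
  rw [integral_congr_ae hae, integral_finsetSum]
  · rw [Finset.sum_div]
    refine Finset.sum_congr rfl fun s _ => ?_
    rw [integral_indicator (X1_meas s), setIntegral_const, X1_prob, smul_eq_mul]
    ring
  · intro s _
    exact (integrable_const _).indicator (X1_meas s)

theorem dyckPaths_nonempty (m : ℕ) : (dyckPaths m).Nonempty := by
  let s : Fin (2 * m) → Bool := fun i => decide ((i : ℕ) % 2 = 0)
  have h : ∀ k ≤ 2 * m, pathHeight s k = ((k % 2 : ℕ) : ℤ) := by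
    intro k
    induction k with
    | zero => intro _; rw [X1_height_zero]; simp
    | succ k ih =>
      intro hk
      rw [X1_height_succ s k (by omega), ih (by omega)]
      by_cases h1 : k % 2 = 0
      · have h2 : s ⟨k, by omega⟩ = true := by simp [s, h1]
        rw [h2, if_pos rfl]
        omega
      · have h2 : s ⟨k, by omega⟩ = false := by simp [s, h1]
        rw [h2]
        simp only [Bool.false_eq_true, if_false]
        omega
  refine ⟨s, ?_⟩
  unfold dyckPaths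
  rw [Finset.mem_filter]
  refine ⟨Finset.mem_univ _, fun k hk => ?_, ?_⟩
  · rw [h k hk]; positivity
  · rw [h _ le_rfl]; simp

/-- `PQ muS nuS (EvN (2m+1)) = #dyckPaths/2^{2m+1} ≠ 0` (take `F = 1`) -/
theorem srw_EvN (m : ℕ) : (PQ muS nuS).real (EvN (Set.Ici 0) (2 * m + 1)) =
    ((dyckPaths m).card : ℝ) / 2 ^ (2 * m + 1) ∧ PQ muS nuS (EvN (Set.Ici 0) (2 * m + 1)) ≠ 0 := by
  have := qstd_S.probμ
  have := qstd_S.probν
  have h := dyck_srw m (fun _ => 1) measurable_const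
  rw [setIntegral_const, smul_eq_mul, mul_one, Finset.sum_const, nsmul_eq_mul, mul_one] at h
  refine ⟨h, fun h0 => ?_⟩
  have h1 : (PQ muS nuS).real (EvN (Set.Ici 0) (2 * m + 1)) = 0 := by
    unfold Measure.real
    rw [h0]; simp
  rw [h1] at h
  have h2 : (0 : ℝ) < ((dyckPaths m).card : ℝ) := by
    exact_mod_cast Finset.card_pos.2 (dyckPaths_nonempty m)
  have h3 : (0 : ℝ) < ((dyckPaths m).card : ℝ) / 2 ^ (2 * m + 1) := by positivity
  linarith

/-- in the simple random walk model, no exit at even times -/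
theorem srw_EvN_even (n : ℕ) (h : PQ muS nuS (EvN (Set.Ici 0) n) ≠ 0) : ∃ m, n = 2 * m + 1 := by
  have h1 : ∃ᵐ ω ∂(PQ muS nuS), ω ∈ EvN (Set.Ici 0) n := by
    intro hcon
    apply h
    rw [← nonpos_iff_eq_zero]
    have h2 := hcon
    rw [ae_iff] at h2
    simpa using h2.le
  obtain ⟨ω, hmem, hω⟩ := (h1.and_eventually ae_S).exists
  -- parity
  have hpar : ∀ k : ℕ, ∃ z : ℤ, Zw k ω = (z : ℝ) / 2 ∧ (z - k) % 2 = 0 := by
    intro k
    induction k with
    | zero => exact ⟨0, by rw [X1_Zw_zero]; simp, by simp⟩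
    | succ k ih =>
      obtain ⟨z, hz, hp⟩ := ih
      obtain ⟨h3, h4⟩ := hω k
      rcases h4 with h4 | h4
      · refine ⟨z + 1, ?_, ?_⟩
        · rw [X1_Zw_succ, hz, h3, h4]; push_cast; ring
        · push_cast; omega
      · refine ⟨z - 1, ?_, ?_⟩
        · rw [X1_Zw_succ, hz, h3, h4]; push_cast; ring
        · push_cast; omega
  obtain ⟨hn1, hal, hex⟩ := hmem
  obtain ⟨k, rfl⟩ : ∃ k, n = k + 1 := ⟨n - 1, by omega⟩
  obtain ⟨z, hz, hp⟩ := hpar k
  have h5 : 0 ≤ Zw k ω := by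
    rcases Nat.eq_zero_or_pos k with h0 | h0
    · rw [h0, X1_Zw_zero]
    · exact hal k h0 (by omega)
  rw [Set.mem_Ici, not_le, X1_Zw_succ] at hex
  obtain ⟨h3, h4⟩ := hω k
  rw [hz] at h5 hex
  have h6 : (0 : ℤ) ≤ z := by
    have : (0 : ℝ) ≤ z := by linarith
    exact_mod_cast this
  have h7 : z < 1 := by
    have : (z : ℝ) < 1 := by
      rcases h4 with h4 | h4 <;> rw [h3, h4] at hex <;> linarith
    exact_mod_cast this
  have h8 : z = 0 := by omega
  rw [h8] at hp
  exact ⟨k / 2, by omega⟩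

end Pool.Agent.BPT
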