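import Pool.Agent.MP_99a865_pr.FV.X2
import Pool.Agent.MP_99a865_pr.FV.X1
import Pool.Agent.MP_99a865_pr.FV.G1f
import Pool.Agent.MP_99a865_pr.FV.F10b

open MeasureTheory ProbabilityTheory Filter Topology
open scoped ENNReal NNReal

namespace Pool.Agent.BPT

/-- auxiliary: cut-off function -/
noncomputable def X3a_chi (a b y : ℝ) : ℝ := max 0 (min 1 ((b - y) / (b - a)))

theorem X3a_chi_nonneg (a b y : ℝ) : 0 ≤ X3a_chi a b y := le_max_left _ _

theorem X3a_chi_le_one (a b y : ℝ) : X3a_chi a b y ≤ 1 :=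
  max_le zero_le_one (min_le_left _ _)

theorem X3a_chi_one {a b y : ℝ} (hab : a < b) (hy : y ≤ a) : X3a_chi a b y = 1 := by
  have h : 1 ≤ (b - y) / (b - a) := by
    rw [le_div_iff₀ (by linarith)]
    linarith
  rw [X3a_chi, min_eq_left h, max_eq_right zero_le_one]

theorem X3a_chi_zero {a b y : ℝ} (hab : a < b) (hy : b ≤ y) : X3a_chi a b y = 0 := by
  have h : (b - y) / (b - a) ≤ 0 := div_nonpos_of_nonpos_of_nonneg (by linarith) (by linarith)
  rw [X3a_chi]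
  exact max_eq_left ((min_le_right _ _).trans h)

theorem X3a_chi_BL {a b : ℝ} (hab : a < b) : BL (1 + 1 / (b - a)) (X3a_chi a b) := by
  have h0 : 0 < b - a := by linarith
  have h1 : 0 ≤ 1 / (b - a) := by positivity
  constructor
  · intro y
    rw [abs_of_nonneg (X3a_chi_nonneg a b y)]
    linarith [X3a_chi_le_one a b y]
  · intro y z
    have h2 : |X3a_chi a b y - X3a_chi a b z| ≤ |(b - y) / (b - a) - (b - z) / (b - a)| := by
      unfold X3a_chi
      refine (abs_max_sub_max_le_max _ _ _ _).trans ?_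
      rw [sub_self, abs_zero]
      refine max_le (abs_nonneg _) ((abs_min_sub_min_le_max _ _ _ _).trans ?_)
      rw [sub_self, abs_zero]
      exact max_le (abs_nonneg _) le_rfl
    have h3 : (b - y) / (b - a) - (b - z) / (b - a) = -(y - z) * (1 / (b - a)) := by ring
    rw [h3, abs_mul, abs_neg, abs_of_nonneg h1] at h2
    nlinarith [abs_nonneg (y - z)]

theorem X3a_chi_cont (a b : ℝ) : Continuous (X3a_chi a b) := by
  unfold X3a_chi
  fun_prop

/-- auxiliary: products of values of the cut-off function -/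
theorem X3a_prod_bounds (a b : ℝ) (K : ℕ) (v : ℕ → ℝ) :
    0 ≤ ∏ j ∈ Finset.range K, X3a_chi a b (v j) ∧
      ∏ j ∈ Finset.range K, X3a_chi a b (v j) ≤ 1 :=
  ⟨Finset.prod_nonneg fun _ _ => X3a_chi_nonneg a b _,
    Finset.prod_le_one (fun _ _ => X3a_chi_nonneg a b _) fun _ _ => X3a_chi_le_one a b _⟩

theorem X3a_prod_one {a b : ℝ} (hab : a < b) (K : ℕ) (v : ℕ → ℝ)
    (h : ∀ j < K, v j ≤ a) : ∏ j ∈ Finset.range K, X3a_chi a b (v j) = 1 :=
  Finset.prod_eq_one fun j hj => X3a_chi_one hab (h j (Finset.mem_range.1 hj))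

theorem X3a_prod_zero {a b : ℝ} (hab : a < b) (K : ℕ) (v : ℕ → ℝ)
    (h : ¬ ∀ j < K, v j ≤ b) : ∏ j ∈ Finset.range K, X3a_chi a b (v j) = 0 := by
  push Not at h
  obtain ⟨j, hj, hb⟩ := h
  exact Finset.prod_eq_zero (Finset.mem_range.2 hj) (X3a_chi_zero hab hb.le)

/-- auxiliary: comparison of integrals over `E` with the measure of `E ∩ A` -/
theorem X3a_int_le {Ω : Type} [MeasurableSpace Ω] (P : Measure Ω) [IsProbabilityMeasure P]
    (E A : Set Ω) (hA : MeasurableSet A) (F : Ω → ℝ) (hF : Measurable F)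
    (h0 : ∀ ω, 0 ≤ F ω) (h1 : ∀ ω, F ω ≤ 1) (hout : ∀ ω, ω ∉ A → F ω = 0) :
    ∫ ω in E, F ω ∂P ≤ P.real (E ∩ A) := by
  have h2 : ∫ ω in E, F ω ∂P ≤ ∫ ω in E, A.indicator (fun _ => (1 : ℝ)) ω ∂P := by
    refine integral_mono_of_nonneg (Eventually.of_forall h0) ?_ (Eventually.of_forall fun ω => ?_)
    · exact (integrable_const (1 : ℝ)).indicator hA
    · by_cases h : ω ∈ A
      · rw [Set.indicator_of_mem h]; exact h1 ω
      · rw [Set.indicator_of_notMem h, hout ω h]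
  rw [integral_indicator hA, integral_const, smul_eq_mul, mul_one, measureReal_restrict_apply_univ,
    measureReal_restrict_apply hA, Set.inter_comm] at h2
  exact h2

theorem X3a_le_int {Ω : Type} [MeasurableSpace Ω] (P : Measure Ω) [IsProbabilityMeasure P]
    (E A : Set Ω) (hA : MeasurableSet A) (F : Ω → ℝ) (hF : Measurable F)
    (h0 : ∀ ω, 0 ≤ F ω) (h1 : ∀ ω, F ω ≤ 1) (hin : ∀ ω, ω ∈ A → F ω = 1) :
    P.real (E ∩ A) ≤ ∫ ω in E, F ω ∂P := by
  have h2 : ∫ ω in E, A.indicator (fun _ => (1 : ℝ)) ω ∂P ≤ ∫ ω in E, F ω ∂P := by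
    refine integral_mono_of_nonneg (Eventually.of_forall fun ω =>
      Set.indicator_nonneg (fun _ _ => zero_le_one) ω) ?_ (Eventually.of_forall fun ω => ?_)
    · exact Integrable.of_bound hF.aestronglyMeasurable 1 (Eventually.of_forall fun ω => by
        rw [Real.norm_eq_abs, abs_of_nonneg (h0 ω)]; exact h1 ω)
    · by_cases h : ω ∈ A
      · rw [Set.indicator_of_mem h, hin ω h]
      · rw [Set.indicator_of_notMem h]; exact h0 ω
  rw [integral_indicator hA, integral_const, smul_eq_mul, mul_one, measureReal_restrict_apply_univ,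
    measureReal_restrict_apply hA, Set.inter_comm] at h2
  exact h2

/-- auxiliary: `MG ≤ c` -/
theorem X3a_MG_le {σ δ : ℝ} {K n : ℕ} (hK : 1 ≤ K) (ω : ℕ → ℝ × ℝ) (c : ℝ) :
    MG σ δ K n ω ≤ c ↔ ∀ j < K, nz σ (gi n δ K j) ω ≤ c := by
  have : Nonempty (Fin K) := ⟨⟨0, hK⟩⟩
  unfold MG
  constructor
  · intro h j hj
    exact (le_ciSup (f := fun j : Fin K => nz σ (gi n δ K j) ω)
      (Set.finite_range _).bddAbove ⟨j, hj⟩).trans h
  · intro h
    exact ciSup_le fun j => h j j.2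

theorem X3a_grid_lt {δ : ℝ} (hδ : 0 < δ) (hδ1 : δ ≤ 1 / 8) {K : ℕ} {j : ℕ}
    (hj : j < K) : 0 < δ + j * ((1 - 2 * δ) / K) ∧ δ + j * ((1 - 2 * δ) / K) < 1 := by
  have hK0 : (0 : ℝ) < K := by
    have : 0 < K := by omega
    exact_mod_cast this
  have hj1 : (j : ℝ) < K := by exact_mod_cast hj
  have h1 : 0 < 1 - 2 * δ := by linarith
  have h2 : 0 ≤ (j : ℝ) * ((1 - 2 * δ) / K) := by positivity
  have h3 : (j : ℝ) * ((1 - 2 * δ) / K) < 1 - 2 * δ := by
    rw [← mul_div_assoc, div_lt_iff₀ hK0]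
    nlinarith
  constructor <;> linarith

theorem X3a_MG_le_Mx {σ δ : ℝ} (hδ : 0 < δ) (hδ1 : δ ≤ 1 / 8) {K n : ℕ} (hK : 1 ≤ K) (hn : 1 ≤ n)
    (ω : ℕ → ℝ × ℝ) : MG σ δ K n ω ≤ Mx σ n ω := by
  have : Nonempty (Fin n) := ⟨⟨0, hn⟩⟩
  rw [X3a_MG_le hK]
  intro j hj
  obtain ⟨h1, h2⟩ := X3a_grid_lt hδ hδ1 hj
  have hn0 : (0 : ℝ) < n := by exact_mod_cast hn
  have h3 : gi n δ K j < n := by
    unfold gi
    rw [Nat.floor_lt (by positivity)]
    nlinarith
  exact le_ciSup (f := fun i : Fin n => nz σ i ω) (Set.finite_range _).bddAbove ⟨_, h3⟩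

/-- auxiliary: conditional probabilities in the simple random walk model -/
noncomputable def X3a_Pn (n : ℕ) (A : Set (ℕ → ℝ × ℝ)) : ℝ :=
  (PQ muS nuS).real (EvN (Set.Ici 0) n ∩ A) / (PQ muS nuS).real (EvN (Set.Ici 0) n)

theorem X3a_EN_le (a b : ℝ) (hab : a < b) (δ : ℝ) (K n : ℕ) (hK : 1 ≤ K) (hn : 1 ≤ n) :
    EN (Set.Ici 0) muS nuS n (fun ω => ∏ j ∈ Finset.range K,
      X3a_chi a b (nz (1 / 2) (gi n δ K j) ω / √n)) ≤ X3a_Pn n {ω | MG (1 / 2) δ K n ω ≤ b * √n} := by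
  have := qstd_S.probμ
  have := qstd_S.probν
  have hn0 : (0 : ℝ) < √n := Real.sqrt_pos.2 (by exact_mod_cast hn)
  unfold EN X3a_Pn
  refine div_le_div_of_nonneg_right ?_ measureReal_nonneg
  refine X3a_int_le _ _ _ ?_ _ ?_ (fun ω => (X3a_prod_bounds a b K _).1)
    (fun ω => (X3a_prod_bounds a b K _).2) fun ω hω => ?_
  · exact measurableSet_le ((measurable_Mx n).2 δ K).1 measurable_const
  · refine Finset.measurable_prod _ fun j _ => ?_
    exact (X3a_chi_cont a b).measurable.comp ((measurable_nz _).div_const _)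
  · refine X3a_prod_zero hab K _ fun h => hω ?_
    show MG (1 / 2) δ K n ω ≤ b * √n
    rw [X3a_MG_le hK]
    intro j hj
    exact (div_le_iff₀ hn0).1 (h j hj)

theorem X3a_le_EN (a b : ℝ) (hab : a < b) (δ : ℝ) (K n : ℕ) (hK : 1 ≤ K) (hn : 1 ≤ n) :
    X3a_Pn n {ω | MG (1 / 2) δ K n ω ≤ a * √n} ≤
    EN (Set.Ici 0) muS nuS n (fun ω => ∏ j ∈ Finset.range K,
      X3a_chi a b (nz (1 / 2) (gi n δ K j) ω / √n)) := by
  have := qstd_S.probμ
  have := qstd_S.probν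
  have hn0 : (0 : ℝ) < √n := Real.sqrt_pos.2 (by exact_mod_cast hn)
  unfold EN X3a_Pn
  refine div_le_div_of_nonneg_right ?_ measureReal_nonneg
  refine X3a_le_int _ _ _ ?_ _ ?_ (fun ω => (X3a_prod_bounds a b K _).1)
    (fun ω => (X3a_prod_bounds a b K _).2) fun ω hω => ?_
  · exact measurableSet_le ((measurable_Mx n).2 δ K).1 measurable_const
  · refine Finset.measurable_prod _ fun j _ => ?_
    exact (X3a_chi_cont a b).measurable.comp ((measurable_nz _).div_const _)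
  · refine X3a_prod_one hab K _ fun j hj => ?_
    rw [div_le_iff₀ hn0]
    exact (X3a_MG_le hK ω _).1 hω j hj

theorem X3a_Pn_mono (n : ℕ) {A B : Set (ℕ → ℝ × ℝ)} (h : A ⊆ B) : X3a_Pn n A ≤ X3a_Pn n B := by
  have := qstd_S.probμ
  have := qstd_S.probν
  exact div_le_div_of_nonneg_right (measureReal_mono (Set.inter_subset_inter_right _ h))
    measureReal_nonneg

theorem X3a_Pn_union (n : ℕ) (A B : Set (ℕ → ℝ × ℝ)) :
    X3a_Pn n (A ∪ B) ≤ X3a_Pn n A + X3a_Pn n B := by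
  have := qstd_S.probμ
  have := qstd_S.probν
  unfold X3a_Pn
  rw [← add_div, Set.inter_union_distrib_left]
  exact div_le_div_of_nonneg_right (measureReal_union_le _ _) measureReal_nonneg

/-- auxiliary: the limit of the law of the maximum -/
theorem X3a_Mx_limit {x : ℝ} (hx : 0 < x) :
    Tendsto (fun m : ℕ => X3a_Pn (2 * m + 1)
      {ω | Mx (1 / 2) (2 * m + 1) ω ≤ x * √((2 * m + 1 : ℕ) : ℝ)}) atTop (𝓝 (FF x)) := by
  refine srw_limit hx (fun m => x * √((2 * m + 1 : ℕ) : ℝ)) ?_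
  have h1 : Tendsto (fun m : ℕ => x * √(1 + 1 / (2 * (m : ℝ)))) atTop (𝓝 (x * √(1 + 0))) := by
    refine Tendsto.const_mul _ ((Real.continuous_sqrt.tendsto _).comp (tendsto_const_nhds.add ?_))
    have h2 : Tendsto (fun m : ℕ => (1 / 2 : ℝ) * (1 / (m : ℝ))) atTop (𝓝 ((1 / 2 : ℝ) * 0)) :=
      tendsto_one_div_atTop_nhds_zero_nat.const_mul _
    rw [mul_zero] at h2
    refine h2.congr fun m => ?_
    rw [one_div, one_div, one_div, mul_inv]
  rw [add_zero, Real.sqrt_one, mul_one] at h1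
  refine h1.congr' ?_
  filter_upwards [eventually_gt_atTop 0] with m hm
  have hm0 : (0 : ℝ) < m := by exact_mod_cast hm
  have h3 : (1 + 1 / (2 * (m : ℝ))) = ((2 * m + 1 : ℕ) : ℝ) / (2 * m) := by
    push_cast
    field_simp
  rw [h3, Real.sqrt_div (by positivity), mul_div_assoc]

/-- auxiliary: values of the grid constants -/
theorem X3a_const {Ω : Type} [MeasurableSpace Ω] (P : Measure Ω) (e : ℝ → Ω → ℝ)
    (he : IsBrownianExcursion P e) {a b : ℝ} (hab : a < b) (δ : ℝ) (hδ : 0 < δ) (hδ1 : δ ≤ 1 / 8)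
    (K : ℕ) (hK : 1 ≤ K) : ∀ ε > (0 : ℝ), ∃ m₀ : ℕ, ∀ m ≥ m₀,
      |EN (Set.Ici 0) muS nuS (2 * m + 1) (fun ω => ∏ j ∈ Finset.range K,
        X3a_chi a b (nz (1 / 2) (gi (2 * m + 1) δ K j) ω / √((2 * m + 1 : ℕ) : ℝ))) -
        ∫ ω, ∏ j ∈ Finset.range K, X3a_chi a b (e (δ + j * ((1 - 2 * δ) / K)) ω) ∂P| ≤ ε := by
  have hM : (0 : ℝ) < 1 + 1 / (b - a) := by
    have : 0 < b - a := by linarith
    positivity
  intro ε hε
  obtain ⟨n₀, hn₀⟩ := grid_product δ hδ hδ1 K hK _ hM (fun _ => X3a_chi a b)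
    (fun _ => X3a_chi_BL hab) (Set.Ici 0) muS nuS (1 / 2) (Or.inl rfl) qstd_S ε hε
  refine ⟨n₀, fun m hm => ?_⟩
  have h1 := hn₀ (2 * m + 1) (by omega) (srw_EvN m).2
  have h2 := (exc_grid P e he δ hδ hδ1 K hK).2 _ hM (fun _ => X3a_chi a b)
    (fun _ => X3a_chi_BL hab)
  rw [← h2] at h1
  exact h1

/-- auxiliary: grid events for the excursion, lower bound -/
theorem X3a_lower {Ω : Type} [MeasurableSpace Ω] (P : Measure Ω) (e : ℝ → Ω → ℝ)
    (he : IsBrownianExcursion P e) {x : ℝ} (hx : 0 < x) (δ : ℝ) (hδ : 0 < δ) (hδ1 : δ ≤ 1 / 8)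
    (K : ℕ) (hK : 1 ≤ K) :
    FF x ≤ P.real {ω | ∀ j < K, e (δ + j * ((1 - 2 * δ) / K)) ω ≤ x} := by
  have := he.prob
  have hmeas : MeasurableSet {ω | ∀ j < K, e (δ + j * ((1 - 2 * δ) / K)) ω ≤ x} := by
    have h1 : {ω | ∀ j < K, e (δ + j * ((1 - 2 * δ) / K)) ω ≤ x} =
        ⋂ j : Fin K, {ω | e (δ + (j : ℕ) * ((1 - 2 * δ) / K)) ω ≤ x} := by
      ext ω
      simp only [Set.mem_ofPred_eq, Set.mem_iInter]
      exact ⟨fun h j => h j j.2, fun h j hj => h ⟨j, hj⟩⟩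
    rw [h1]
    exact MeasurableSet.iInter fun j => measurableSet_le (he.meas _) measurable_const
  have key : ∀ τ : ℝ, 0 < τ → τ < x → FF (x - τ) ≤
      P.real {ω | ∀ j < K, e (δ + j * ((1 - 2 * δ) / K)) ω ≤ x} := by
    intro τ hτ hτx
    have hab : x - τ < x := by linarith
    have h1 : ∫ ω, ∏ j ∈ Finset.range K, X3a_chi (x - τ) x (e (δ + j * ((1 - 2 * δ) / K)) ω) ∂P ≤
        P.real {ω | ∀ j < K, e (δ + j * ((1 - 2 * δ) / K)) ω ≤ x} := by
      have h2 := X3a_int_le P Set.univ _ hmeas (fun ω => ∏ j ∈ Finset.range K,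
        X3a_chi (x - τ) x (e (δ + j * ((1 - 2 * δ) / K)) ω))
        (Finset.measurable_prod _ fun j _ =>
          (X3a_chi_cont _ _).measurable.comp (he.meas _))
        (fun ω => (X3a_prod_bounds _ _ K _).1) (fun ω => (X3a_prod_bounds _ _ K _).2)
        (fun ω hω => X3a_prod_zero hab K _ hω)
      rwa [setIntegral_univ, Set.univ_inter] at h2
    refine le_of_forall_pos_le_add fun ε hε => ?_
    obtain ⟨m₀, hm₀⟩ := X3a_const P e he hab δ hδ hδ1 K hK ε hε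
    refine le_of_tendsto (X3a_Mx_limit (x := x - τ) (by linarith)) ?_
    filter_upwards [eventually_ge_atTop m₀] with m hm
    have h3 := (abs_le.1 (hm₀ m hm)).2
    have h4 := X3a_le_EN (x - τ) x hab δ K (2 * m + 1) hK (by omega)
    have h5 : X3a_Pn (2 * m + 1) {ω | Mx (1 / 2) (2 * m + 1) ω ≤
        (x - τ) * √((2 * m + 1 : ℕ) : ℝ)} ≤ X3a_Pn (2 * m + 1)
        {ω | MG (1 / 2) δ K (2 * m + 1) ω ≤ (x - τ) * √((2 * m + 1 : ℕ) : ℝ)} :=
      X3a_Pn_mono _ fun ω hω => (X3a_MG_le_Mx hδ hδ1 hK (by omega) ω).trans hω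
    linarith
  have hcont : Tendsto (fun τ : ℝ => FF (x - τ)) (𝓝[>] 0) (𝓝 (FF x)) := by
    have h1 : Tendsto (fun τ : ℝ => x - τ) (𝓝[>] 0) (𝓝 (x - 0)) :=
      ((continuous_const.sub continuous_id).tendsto 0).mono_left nhdsWithin_le_nhds
    rw [sub_zero] at h1
    exact (continuousAt_FF hx).tendsto.comp h1
  refine le_of_tendsto hcont ?_
  filter_upwards [Ioo_mem_nhdsGT hx] with τ hτ
  exact key τ hτ.1 hτ.2

/-- auxiliary: upper bound -/
theorem X3a_upper {Ω : Type} [MeasurableSpace Ω] (P : Measure Ω) (e : ℝ → Ω → ℝ)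
    (he : IsBrownianExcursion P e) {x : ℝ} (hx : 0 < x) :
    P.real {ω | ∀ t ∈ Set.Icc (0 : ℝ) 1, e t ω ≤ x} ≤ FF x := by
  have := he.prob
  have := qstd_S.probμ
  have := qstd_S.probν
  have key : ∀ τ : ℝ, 0 < τ → P.real {ω | ∀ t ∈ Set.Icc (0 : ℝ) 1, e t ω ≤ x} ≤
      FF (x + 2 * τ) + 2 * τ := by
    intro τ hτ
    have hab : x < x + τ := by linarith
    obtain ⟨c, hc, n₁, hn₁⟩ := le_hit (D := Set.Ici 0) (Or.inl rfl) (qstd_S.std)
    set τ' := min τ (τ * c) with hτ'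
    have hτ'0 : 0 < τ' := lt_min hτ (by positivity)
    obtain ⟨δ₀, hδ₀, hδ₀'⟩ := MW_approx (D := Set.Ici 0) (Or.inl rfl) qstd_S τ' hτ'0
    set δ := min δ₀ (1 / 8) with hδdef
    have hδ : 0 < δ := lt_min hδ₀ (by norm_num)
    have hδ1 : δ ≤ 1 / 8 := min_le_right _ _
    obtain ⟨K₀, hK₀⟩ := hδ₀' δ hδ (min_le_left _ _)
    set K := max K₀ 1 with hKdef
    have hK : 1 ≤ K := le_max_right _ _
    obtain ⟨R₀, hR₀1, hR₀⟩ := hK₀ K (le_max_left _ _)
    obtain ⟨n₀, hn₀⟩ := hR₀ R₀ le_rfl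
    obtain ⟨m₀, hm₀⟩ := X3a_const P e he hab δ hδ hδ1 K hK τ hτ
    have hmeas : MeasurableSet {ω | ∀ j < K, e (δ + j * ((1 - 2 * δ) / K)) ω ≤ x} := by
      have h1 : {ω | ∀ j < K, e (δ + j * ((1 - 2 * δ) / K)) ω ≤ x} =
          ⋂ j : Fin K, {ω | e (δ + (j : ℕ) * ((1 - 2 * δ) / K)) ω ≤ x} := by
        ext ω
        simp only [Set.mem_ofPred_eq, Set.mem_iInter]
        exact ⟨fun h j => h j j.2, fun h j hj => h ⟨j, hj⟩⟩
      rw [h1]
      exact MeasurableSet.iInter fun j => measurableSet_le (he.meas _) measurable_const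
    have h1 : P.real {ω | ∀ t ∈ Set.Icc (0 : ℝ) 1, e t ω ≤ x} ≤
        ∫ ω, ∏ j ∈ Finset.range K, X3a_chi x (x + τ) (e (δ + j * ((1 - 2 * δ) / K)) ω) ∂P := by
      have h2 := X3a_le_int P Set.univ _ hmeas (fun ω => ∏ j ∈ Finset.range K,
        X3a_chi x (x + τ) (e (δ + j * ((1 - 2 * δ) / K)) ω))
        (Finset.measurable_prod _ fun j _ =>
          (X3a_chi_cont _ _).measurable.comp (he.meas _))
        (fun ω => (X3a_prod_bounds _ _ K _).1) (fun ω => (X3a_prod_bounds _ _ K _).2)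
        (fun ω hω => X3a_prod_one hab K _ hω)
      rw [setIntegral_univ, Set.univ_inter] at h2
      refine le_trans (measureReal_mono ?_) h2
      intro ω hω j hj
      obtain ⟨h3, h4⟩ := X3a_grid_lt hδ hδ1 hj
      exact hω _ ⟨h3.le, h4.le⟩
    refine ge_of_tendsto ((X3a_Mx_limit (x := x + 2 * τ) (by linarith)).add_const (2 * τ)) ?_
    filter_upwards [eventually_ge_atTop m₀, eventually_ge_atTop n₀, eventually_ge_atTop n₁]
      with m hm hm0 hm1
    have h3 := (abs_le.1 (hm₀ m hm)).1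
    have h4 := X3a_EN_le x (x + τ) hab δ K (2 * m + 1) hK (by omega)
    set n := 2 * m + 1 with hn
    have hn1 : 1 ≤ n := by omega
    have hnr : (0 : ℝ) < n := by exact_mod_cast hn1
    have hsq : (0 : ℝ) < √(n : ℝ) := Real.sqrt_pos.2 hnr
    have hPE : PQ muS nuS (EvN (Set.Ici 0) n) ≠ 0 := (srw_EvN m).2
    have hPE0 : 0 < (PQ muS nuS).real (EvN (Set.Ici 0) n) := by
      refine lt_of_le_of_ne measureReal_nonneg fun h => hPE ?_
      exact (measureReal_eq_zero_iff).1 h.symm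
    have hcE : c / (n * √n) ≤ (PQ muS nuS).real (EvN (Set.Ici 0) n) := by
      have h5 := PQ_EvN (D := Set.Ici 0) (Or.inl rfl) qstd_S n
      rw [h5] at hPE0 ⊢
      exact hn₁ n (by omega) hPE0
    -- the bad event
    have hbad : X3a_Pn n {ω | ¬ Mx (1 / 2) n ω ≤ MG (1 / 2) δ K n ω + τ' * √n} ≤ τ := by
      have h6 := hn₀ n (by omega)
      have h7 : (PQ muS nuS).real (EvN (Set.Ici 0) n ∩
          {ω | ¬ Mx (1 / 2) n ω ≤ MG (1 / 2) δ K n ω + τ' * √n}) ≤ τ' / (n * √n) := by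
        refine ENNReal.toReal_le_of_le_ofReal (by positivity) (le_trans (measure_mono ?_) h6)
        rintro ω ⟨hω1, hω2⟩
        exact ⟨hω1, Or.inl fun h => hω2 h.2⟩
      unfold X3a_Pn
      rw [div_le_iff₀ hPE0]
      refine h7.trans ?_
      have h8 : τ' / (n * √n) ≤ τ * (c / (n * √n)) := by
        rw [← mul_div_assoc]
        exact div_le_div_of_nonneg_right (min_le_right _ _) (by positivity)
      exact h8.trans (mul_le_mul_of_nonneg_left hcE hτ.le)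
    have h9 : X3a_Pn n {ω | MG (1 / 2) δ K n ω ≤ (x + τ) * √n} ≤
        X3a_Pn n {ω | Mx (1 / 2) n ω ≤ (x + 2 * τ) * √n} + τ := by
      refine le_trans ((X3a_Pn_mono n ?_).trans (X3a_Pn_union n
        {ω | Mx (1 / 2) n ω ≤ (x + 2 * τ) * √n}
        {ω | ¬ Mx (1 / 2) n ω ≤ MG (1 / 2) δ K n ω + τ' * √n})) (add_le_add le_rfl hbad)
      intro ω hω
      have hω' : MG (1 / 2) δ K n ω ≤ (x + τ) * √n := hω
      by_cases h10 : Mx (1 / 2) n ω ≤ MG (1 / 2) δ K n ω + τ' * √n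
      · left
        show Mx (1 / 2) n ω ≤ (x + 2 * τ) * √n
        have h11 : τ' * √n ≤ τ * √n := mul_le_mul_of_nonneg_right (min_le_left _ _) hsq.le
        nlinarith
      · right
        exact h10
    show _ ≤ X3a_Pn n {ω | Mx (1 / 2) n ω ≤ (x + 2 * τ) * √(n : ℝ)} + 2 * τ
    linarith
  have hcont : Tendsto (fun τ : ℝ => FF (x + 2 * τ) + 2 * τ) (𝓝[>] 0) (𝓝 (FF x + 2 * 0)) := by
    have h1 : Tendsto (fun τ : ℝ => x + 2 * τ) (𝓝[>] 0) (𝓝 (x + 2 * 0)) :=
      ((continuous_const.add (continuous_const.mul continuous_id)).tendsto 0).mono_left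
        nhdsWithin_le_nhds
    have h2 : Tendsto (fun τ : ℝ => 2 * τ) (𝓝[>] 0) (𝓝 (2 * 0)) :=
      ((continuous_const.mul continuous_id).tendsto 0).mono_left nhdsWithin_le_nhds
    rw [mul_zero, add_zero] at h1
    exact ((continuousAt_FF hx).tendsto.comp h1).add h2
  rw [mul_zero, add_zero] at hcont
  refine ge_of_tendsto hcont ?_
  filter_upwards [self_mem_nhdsWithin] with τ hτ
  exact key τ hτ

/-- **[FV-X3a]** The maximum of a Brownian excursion.
PROOF. Let `χ = χ_{a,b}` (`a < b`) be the function equal to 1 on `(-∞, a]`, 0 on `[b, ∞)`, linear between; it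
is `BL M`, `M = 1 + 1/(b-a)`. For a grid `(δ, K)`, `E_P ∏_j χ(e(t_j)) = c(χ) = val (gts δ K χ)/val1 (…)`
(`exc_grid`), and along the odd `n` `E_n ∏_j χ(nz g_j/√n) → c(χ)` for the simple random walk (`grid_product`,
`qstd_S`, `srw_EvN`). Let `τ > 0`.
Upper bound: `P(∀ t, e t ≤ x) ≤ E_P ∏ χ_{x,x+τ}(e(t_j)) = c(χ) ≤ limsup P_n(MG ≤ (x+τ)√n | N = n)
≤ limsup P_n(Mx ≤ (x+2τ)√n | N=n) + τ` if `δ ≤ δ₀(τ')`, `K ≥ K₀` (`MW_approx` with a small `τ'`, and `le_hit`),
and this is `FF (x + 2τ) + τ` by `srw_limit`.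
Lower bound: for every grid `P(max_j e(t_j) ≤ x) ≥ E_P ∏ χ_{x-τ,x}(e(t_j)) = c(χ) ≥ liminf P_n(MG ≤ (x-τ)√n)
≥ liminf P_n(Mx ≤ (x-τ)√n) = FF (x-τ)` (`MG ≤ Mx` for `n` large: pointwise, since the grid points are `< n`).
Take grids `δ_i = 1/(8i)`, `K_i = i`: if `e(t_j) ≤ x` for all points of infinitely many of these grids,
then `e ≤ x` on `[0,1]` by continuity; so (reverse Fatou) `P(∀ t ∈ [0,1], e t ≤ x) ≥ limsup_i P(max over
grid i ≤ x) ≥ FF (x-τ)`. Let `τ → 0` (`continuousAt_FF`). (The event is measurable: rational times.) -/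
theorem exc_max {Ω : Type} [MeasurableSpace Ω] (P : Measure Ω) (e : ℝ → Ω → ℝ)
    (he : IsBrownianExcursion P e) {x : ℝ} (hx : 0 < x) :
    P.real {ω | ∀ t ∈ Set.Icc (0 : ℝ) 1, e t ω ≤ x} = excMax x := by
  have := he.prob
  show P.real {ω | ∀ t ∈ Set.Icc (0 : ℝ) 1, e t ω ≤ x} = FF x
  refine le_antisymm (X3a_upper P e he hx) ?_
  -- grids
  let δ : ℕ → ℝ := fun i => 1 / (8 * ((i : ℝ) + 1))
  have hδ0 : ∀ i, 0 < δ i := fun i => by positivity
  have hδ1 : ∀ i, δ i ≤ 1 / 8 := fun i => by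
    show 1 / (8 * ((i : ℝ) + 1)) ≤ 1 / 8
    refine one_div_le_one_div_of_le (by norm_num) ?_
    have : (0 : ℝ) ≤ i := Nat.cast_nonneg i
    linarith
  let A : ℕ → Set Ω := fun i => {ω | ∀ j < i + 1,
    e (δ i + j * ((1 - 2 * δ i) / ((i + 1 : ℕ) : ℝ))) ω ≤ x}
  have hA : ∀ i, FF x ≤ P.real (A i) := fun i =>
    X3a_lower P e he hx (δ i) (hδ0 i) (hδ1 i) (i + 1) (by omega)
  have hAm : ∀ i, MeasurableSet (A i) := by
    intro i
    have h1 : A i = ⋂ j : Fin (i + 1),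
        {ω | e (δ i + (j : ℕ) * ((1 - 2 * δ i) / ((i + 1 : ℕ) : ℝ))) ω ≤ x} := by
      ext ω
      simp only [A, Set.mem_ofPred_eq, Set.mem_iInter]
      exact ⟨fun h j => h j j.2, fun h j hj => h ⟨j, hj⟩⟩
    rw [h1]
    exact MeasurableSet.iInter fun j => measurableSet_le (he.meas _) measurable_const
  let B : ℕ → Set Ω := fun i => ⋃ k, A (i + k)
  have hBm : ∀ i, MeasurableSet (B i) := fun i => MeasurableSet.iUnion fun k => hAm _
  have hBanti : Antitone B := by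
    intro i i' hii ω hω
    obtain ⟨k, hk⟩ := Set.mem_iUnion.1 hω
    refine Set.mem_iUnion.2 ⟨i' - i + k, ?_⟩
    have e1 : i + (i' - i + k) = i' + k := by omega
    rw [e1]
    exact hk
  have hlim := tendsto_measure_iInter_atTop (μ := P) (fun i => (hBm i).nullMeasurableSet)
    hBanti ⟨0, measure_ne_top P _⟩
  have hge : FF x ≤ P.real (⋂ i, B i) := by
    have h1 : Tendsto (fun i => P.real (B i)) atTop (𝓝 (P.real (⋂ i, B i))) :=
      (ENNReal.tendsto_toReal (measure_ne_top P _)).comp hlim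
    refine ge_of_tendsto h1 (Eventually.of_forall fun i => (hA i).trans (measureReal_mono ?_))
    intro ω hω
    exact Set.mem_iUnion.2 ⟨0, hω⟩
  refine hge.trans (measureReal_mono ?_)
  intro ω hω
  by_contra hcon
  have hcon' : ¬ ∀ t ∈ Set.Icc (0 : ℝ) 1, e t ω ≤ x := hcon
  push Not at hcon'
  obtain ⟨t, ht, htx⟩ := hcon'
  have ht0 : 0 < t := by
    refine lt_of_le_of_ne ht.1 fun h => ?_
    rw [← h, (he.zero ω).1] at htx
    linarith
  have ht1 : t < 1 := by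
    refine lt_of_le_of_ne ht.2 fun h => ?_
    rw [h, (he.zero ω).2] at htx
    linarith
  have hc : ContinuousAt (fun t => e t ω) t :=
    (he.cont ω).continuousAt (Icc_mem_nhds ht0 ht1)
  have hev : ∀ᶠ s in 𝓝 t, x < e s ω := hc.eventually_const_lt htx
  obtain ⟨η, hη, hball⟩ := Metric.eventually_nhds_iff.1 hev
  -- a fine grid
  obtain ⟨N, hN⟩ := exists_nat_gt (max (1 / η) (max (1 / t) (1 / (1 - t))))
  obtain ⟨k, hk⟩ := Set.mem_iUnion.1 (Set.mem_iInter.1 hω N)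
  set i := N + k with hi
  have hiN : (N : ℝ) ≤ i := by exact_mod_cast (by omega : N ≤ i)
  have hi0 : (0 : ℝ) ≤ i := Nat.cast_nonneg i
  have hin : 1 / η < (i : ℝ) + 1 := by linarith [le_max_left (1 / η) (max (1 / t) (1 / (1 - t)))]
  have hit : 1 / t < (i : ℝ) + 1 := by
    linarith [(le_max_left (1 / t) (1 / (1 - t))).trans
      (le_max_right (1 / η) (max (1 / t) (1 / (1 - t))))]
  have hit' : 1 / (1 - t) < (i : ℝ) + 1 := by
    linarith [(le_max_right (1 / t) (1 / (1 - t))).trans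
      (le_max_right (1 / η) (max (1 / t) (1 / (1 - t))))]
  have hipos : (0 : ℝ) < (i : ℝ) + 1 := by positivity
  have hη' : 1 / ((i : ℝ) + 1) < η := by
    rw [div_lt_iff₀ hη] at hin
    rw [div_lt_iff₀ hipos]
    linarith
  have hδt : δ i < t := by
    show 1 / (8 * ((i : ℝ) + 1)) < t
    rw [div_lt_iff₀ ht0] at hit
    rw [div_lt_iff₀ (by positivity)]
    nlinarith
  have hδt' : δ i < 1 - t := by
    show 1 / (8 * ((i : ℝ) + 1)) < 1 - t
    have h1t : 0 < 1 - t := by linarith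
    rw [div_lt_iff₀ h1t] at hit'
    rw [div_lt_iff₀ (by positivity)]
    nlinarith
  set κ : ℝ := (1 - 2 * δ i) / ((i + 1 : ℕ) : ℝ) with hκ
  have hcast : ((i + 1 : ℕ) : ℝ) = (i : ℝ) + 1 := by push_cast; ring
  have h2δ : 0 < 1 - 2 * δ i := by linarith [hδ1 i]
  have hκ0 : 0 < κ := by
    rw [hκ, hcast]
    positivity
  have hκη : κ < η := by
    refine lt_of_le_of_lt ?_ hη'
    rw [hκ, hcast]
    exact div_le_div_of_nonneg_right (by linarith [hδ0 i]) hipos.le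
  set j := ⌊(t - δ i) / κ⌋₊ with hj
  have hq0 : 0 ≤ (t - δ i) / κ := div_nonneg (by linarith) hκ0.le
  have hj1 : (j : ℝ) ≤ (t - δ i) / κ := Nat.floor_le hq0
  have hj2 : (t - δ i) / κ < (j : ℝ) + 1 := Nat.lt_floor_add_one _
  rw [le_div_iff₀ hκ0] at hj1
  rw [div_lt_iff₀ hκ0] at hj2
  have hjlt : j < i + 1 := by
    have h5 : (j : ℝ) * κ < ((i : ℝ) + 1) * κ := by
      have h6 : ((i : ℝ) + 1) * κ = 1 - 2 * δ i := by
        rw [hκ, hcast, mul_div_assoc', mul_div_cancel_left₀ _ hipos.ne']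
      rw [h6]
      linarith
    have h7 := lt_of_mul_lt_mul_right h5 hκ0.le
    exact_mod_cast h7
  have h8 := hk j hjlt
  have h9 : dist (δ i + j * κ) t < η := by
    rw [Real.dist_eq, abs_lt]
    constructor <;> nlinarith
  have h10 := hball h9
  exact absurd h8 (not_le.2 h10)

end Pool.Agent.BPT
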