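import Pool.Agent.MP_99a865_pr.FV.X1
import Pool.Agent.MP_99a865_pr.FV.F11f
import Pool.Agent.MP_99a865_pr.FV.F11g
import Pool.Agent.MP_99a865_pr.FV.F10m

open MeasureTheory ProbabilityTheory Filter Topology
open scoped ENNReal NNReal

namespace Pool.Agent.BPT

theorem X4_area_nonneg {σ : ℝ} (hσ : 0 < σ) (n : ℕ) (ω : ℕ → ℝ × ℝ) (h : ω ∈ EvN (Set.Ici 0) n) :
    0 ≤ Area σ n ω := by
  unfold Area
  refine Finset.sum_nonneg fun i hi => ?_
  unfold nz
  refine div_nonneg ?_ hσ.le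
  rcases Nat.eq_zero_or_pos i with h0 | h0
  · rw [h0]; simp [Zw, Dp, Ar]
  · exact h.2.1 i h0 (by have := Finset.mem_range.1 hi; omega)

/-- the law of the area, given `N = n` -/
noncomputable def X4law (m : ℕ) : Measure ℝ :=
  (ProbabilityTheory.cond (PQ muS nuS) (EvN (Set.Ici 0) (2 * m + 1))).map
    (fun ω => Area (1 / 2) (2 * m + 1) ω / (((2 * m + 1 : ℕ) : ℝ) * √((2 * m + 1 : ℕ) : ℝ)))

theorem X4_meas (m : ℕ) : Measurable
    (fun ω : ℕ → ℝ × ℝ => Area (1 / 2) (2 * m + 1) ω /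
      (((2 * m + 1 : ℕ) : ℝ) * √((2 * m + 1 : ℕ) : ℝ))) := by
  have := ((measurable_Mx (σ := 1 / 2) (2 * m + 1)).2 0 0).2.1
  exact this.div_const _

theorem X4_prob (m : ℕ) : IsProbabilityMeasure (X4law m) := by
  have := qstd_S.probμ
  have := qstd_S.probν
  have : IsProbabilityMeasure (ProbabilityTheory.cond (PQ muS nuS) (EvN (Set.Ici 0) (2 * m + 1))) :=
    ProbabilityTheory.cond_isProbabilityMeasure (srw_EvN m).2
  exact Measure.isProbabilityMeasure_map (X4_meas m).aemeasurable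

theorem X4_integral (m : ℕ) (F : ℝ → ℝ) (hF : Continuous F) :
    ∫ x, F x ∂(X4law m) = EN (Set.Ici 0) muS nuS (2 * m + 1)
      (fun ω => F (Area (1 / 2) (2 * m + 1) ω /
        (((2 * m + 1 : ℕ) : ℝ) * √((2 * m + 1 : ℕ) : ℝ)))) := by
  unfold X4law EN
  rw [integral_map (X4_meas m).aemeasurable hF.aestronglyMeasurable, ProbabilityTheory.cond,
    integral_smul_measure, ENNReal.toReal_inv, smul_eq_mul, inv_mul_eq_div]
  rfl

theorem X4_tail : ∃ C > (0 : ℝ), ∃ m₀ : ℕ, ∀ m ≥ m₀, ∀ r > (0 : ℝ),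
    X4law m {x | r < ‖x‖} ≤ ENNReal.ofReal (C / r) := by
  have := qstd_S.probμ
  have := qstd_S.probν
  have hD : Dom (Set.Ici 0) := Or.inl rfl
  obtain ⟨C, hC, hC2⟩ := area_tight hD qstd_S
  obtain ⟨c, hc, n₀, hn₀⟩ := le_hit hD (qstd_S.std)
  refine ⟨C / c, by positivity, n₀, fun m hm r hr => ?_⟩
  set n := 2 * m + 1 with hn
  set E := EvN (Set.Ici 0) n with hE
  set P := PQ muS nuS with hP
  have hE0 : P E ≠ 0 := (srw_EvN m).2
  have hEfin : P E ≠ ⊤ := measure_ne_top _ _
  have hn1 : (1 : ℝ) ≤ (n : ℝ) := by rw [hn]; push_cast; linarith [Nat.cast_nonneg (α := ℝ) m]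
  have hs : 0 < √(n : ℝ) := Real.sqrt_pos.2 (by linarith)
  have hnn : 0 < (n : ℝ) * √(n : ℝ) := by positivity
  have hhit : c / (n * √n) ≤ P.real E := by
    rw [PQ_EvN hD qstd_S]
    refine hn₀ n (by omega) ?_
    rw [← PQ_EvN hD qstd_S]
    exact ENNReal.toReal_pos hE0 hEfin
  have hmeas := X4_meas m
  have hset : MeasurableSet {x : ℝ | r < ‖x‖} :=
    measurableSet_lt measurable_const measurable_norm
  have hEm : MeasurableSet E := measurableSet_EvN hD n
  rw [X4law, Measure.map_apply hmeas hset, ProbabilityTheory.cond_apply hEm]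
  -- Markov
  have h1 : P (E ∩ (fun ω : ℕ → ℝ × ℝ => Area (1 / 2) (2 * m + 1) ω /
      (((2 * m + 1 : ℕ) : ℝ) * √((2 * m + 1 : ℕ) : ℝ))) ⁻¹' {x | r < ‖x‖}) ≤
      ENNReal.ofReal (C / (r * (n * √n))) := by
    have hsub : E ∩ (fun ω : ℕ → ℝ × ℝ => Area (1 / 2) (2 * m + 1) ω /
        (((2 * m + 1 : ℕ) : ℝ) * √((2 * m + 1 : ℕ) : ℝ))) ⁻¹' {x | r < ‖x‖} ⊆
        {ω | ENNReal.ofReal (r * (n * √n)) ≤ E.indicator (fun ω => ENNReal.ofReal (Area (1 / 2) n ω)) ω} := by
      rintro ω ⟨h1, h2⟩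
      have h3 : r < |Area (1 / 2) n ω / ((n : ℝ) * √(n : ℝ))| := h2
      have h4 : 0 ≤ Area (1 / 2) n ω := X4_area_nonneg (by norm_num) n ω h1
      rw [abs_of_nonneg (by positivity), lt_div_iff₀ hnn] at h3
      rw [Set.mem_ofPred_eq, Set.indicator_of_mem h1]
      exact ENNReal.ofReal_le_ofReal h3.le
    refine (measure_mono hsub).trans ?_
    have hpos : 0 < r * (n * √n) := by positivity
    have h2 := meas_ge_le_lintegral_div (μ := P)
      (f := E.indicator (fun ω => ENNReal.ofReal (Area (1 / 2) n ω)))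
      (((((measurable_Mx (σ := 1 / 2) n).2 0 0).2.1).ennreal_ofReal.indicator hEm).aemeasurable)
      (ε := ENNReal.ofReal (r * (n * √n))) (by simpa using hpos) ENNReal.ofReal_ne_top
    refine h2.trans ?_
    rw [lintegral_indicator hEm, ENNReal.ofReal_div_of_pos hpos]
    gcongr
    exact hC2 n (by omega)
  calc (P E)⁻¹ * _ ≤ (P E)⁻¹ * ENNReal.ofReal (C / (r * (n * √n))) := by gcongr
    _ ≤ ENNReal.ofReal (n * √n / c) * ENNReal.ofReal (C / (r * (n * √n))) := by
        gcongr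
        rw [ENNReal.inv_le_iff_inv_le]
        rw [← ENNReal.ofReal_inv_of_pos (by positivity), inv_div]
        rw [← ENNReal.ofReal_toReal hEfin]
        exact ENNReal.ofReal_le_ofReal hhit
    _ = ENNReal.ofReal (C / c / r) := by
        rw [← ENNReal.ofReal_mul (by positivity)]
        congr 1
        field_simp

/-- **[FV-X4]** The limit law of the area.
PROOF. Let `P_m` be the law of `Area/(n√n)`, `n = 2m+1`, given `N = n`, for the simple random walk model
(`srw_EvN`). It is a probability measure on `[0,∞)` with mean at most `C'` (`area_tight` and `le_hit`: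
`E[Area; N=n]/(n√n P(N=n)) ≤ C/c`; the areas are nonnegative), so the sequence is tight (Markov) and by
Prokhorov's theorem (Mathlib: `isCompact_closure_of_isTightMeasureSet` or similar in
`Mathlib/MeasureTheory/Measure/Prokhorov.lean`) a subsequence converges weakly to a probability measure `W`.
By `area_universal` (with both models equal to the simple random walk) `∫ F dP_m` is a Cauchy sequence for
every `F` with `BL 1 F` (hence for every bounded Lipschitz `F`), so `∫ F dP_m → ∫ F dW`; by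
`area_universal` again the same holds for every model. -/
theorem area_law : ∃ W : Measure ℝ, IsProbabilityMeasure W ∧ W (Set.Iio 0) = 0 ∧
    ∀ (D : Set ℝ) (μ ν : Measure ℝ) (σ : ℝ), Dom D → QStd μ ν σ → ∀ F : ℝ → ℝ, BL 1 F →
      ∀ ε > (0 : ℝ), ∃ n₀ : ℕ, ∀ n ≥ n₀, PQ μ ν (EvN D n) ≠ 0 →
        |EN D μ ν n (fun ω => F (Area σ n ω / (n * √n))) - ∫ x, F x ∂W| ≤ ε := by
  have := qstd_S.probμ
  have := qstd_S.probν
  have hDS : Dom (Set.Ici 0) := Or.inl rfl
  obtain ⟨C, hC, m₀, htail⟩ := X4_tail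
  let Q : ℕ → ProbabilityMeasure ℝ := fun k => ⟨X4law (m₀ + k), X4_prob (m₀ + k)⟩
  have htight : IsTightMeasureSet {((μ : ProbabilityMeasure ℝ) : Measure ℝ) | μ ∈ Set.range Q} := by
    refine isTightMeasureSet_of_tendsto_measure_norm_gt ?_
    have hlim : Tendsto (fun r : ℝ => ENNReal.ofReal (C / r)) atTop (𝓝 0) := by
      have h1 : Tendsto (fun r : ℝ => C / r) atTop (𝓝 0) := tendsto_const_nhds.div_atTop tendsto_id
      simpa using ENNReal.tendsto_ofReal h1
    refine tendsto_of_tendsto_of_tendsto_of_le_of_le' tendsto_const_nhds hlim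
      (Filter.Eventually.of_forall fun _ => bot_le) ?_
    filter_upwards [Filter.eventually_gt_atTop (0 : ℝ)] with r hr
    refine iSup₂_le fun μ hμ => ?_
    obtain ⟨μ', ⟨k, rfl⟩, rfl⟩ := hμ
    exact htail (m₀ + k) (by omega) r hr
  have hcomp := isCompact_closure_of_isTightMeasureSet htight
  obtain ⟨W, -, φ, hφ, hW⟩ := hcomp.tendsto_subseq (x := Q) fun k => subset_closure ⟨k, rfl⟩
  refine ⟨W, inferInstance, ?_, ?_⟩
  · have h1 := ProbabilityMeasure.le_liminf_measure_open_of_tendsto hW (isOpen_Iio (a := (0 : ℝ)))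
    have h2 : ∀ k, ((Q ∘ φ) k : Measure ℝ) (Set.Iio 0) = 0 := by
      intro k
      change X4law (m₀ + φ k) (Set.Iio 0) = 0
      rw [X4law, Measure.map_apply (X4_meas _) measurableSet_Iio,
        ProbabilityTheory.cond_apply (measurableSet_EvN hDS _)]
      have h3 : EvN (Set.Ici 0) (2 * (m₀ + φ k) + 1) ∩
          (fun ω : ℕ → ℝ × ℝ => Area (1 / 2) (2 * (m₀ + φ k) + 1) ω /
            (((2 * (m₀ + φ k) + 1 : ℕ) : ℝ) * √((2 * (m₀ + φ k) + 1 : ℕ) : ℝ))) ⁻¹' (Set.Iio 0) = ∅ := by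
        ext ω
        simp only [Set.mem_inter_iff, Set.mem_preimage, Set.mem_Iio, Set.mem_empty_iff_false,
          iff_false, not_and, not_lt]
        intro h
        have := X4_area_nonneg (σ := 1 / 2) (by norm_num) _ ω h
        positivity
      rw [h3]; simp
    simp only [h2] at h1
    simpa using h1
  · intro D μ ν σ hD hQ F hF ε hε
    obtain ⟨n₀, hn₀⟩ := area_universal D μ ν σ hD hQ (Set.Ici 0) muS nuS (1 / 2) hDS qstd_S F hF ε hε
    refine ⟨n₀, fun n hn hne => ?_⟩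
    have hcont : Continuous F := by
      have : LipschitzWith 1 F := LipschitzWith.of_dist_le_mul fun x y => by
        rw [Real.dist_eq, Real.dist_eq]
        simpa using hF.lip x y
      exact this.continuous
    let G : BoundedContinuousFunction ℝ ℝ :=
      BoundedContinuousFunction.ofNormedAddCommGroup F hcont 1 fun x => hF.bd x
    have h1 := (ProbabilityMeasure.tendsto_iff_forall_integral_tendsto.1 hW) G
    have h2 : Tendsto (fun k => |EN D μ ν n (fun ω => F (Area σ n ω / (n * √n))) -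
        ∫ x, F x ∂((Q ∘ φ) k : Measure ℝ)|) atTop
        (𝓝 |EN D μ ν n (fun ω => F (Area σ n ω / (n * √n))) - ∫ x, F x ∂(W : Measure ℝ)|) :=
      (tendsto_const_nhds.sub h1).abs
    refine le_of_tendsto h2 ?_
    filter_upwards [Filter.eventually_ge_atTop n₀] with k hk
    have h3 : k ≤ φ k := hφ.id_le k
    have h4 := hn₀ n hn (2 * (m₀ + φ k) + 1) (by omega) hne (srw_EvN (m₀ + φ k)).2
    have h5 := X4_integral (m₀ + φ k) F hcont
    change |_ - ∫ x, F x ∂(X4law (m₀ + φ k))| ≤ ε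
    rw [h5]
    exact h4

end Pool.Agent.BPT
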