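import Pool.Agent.MP_99a865_pr.FV.X2
import Pool.Agent.MP_99a865_pr.FV.X4
import Pool.Agent.MP_99a865_pr.FV.F10b

open MeasureTheory ProbabilityTheory Filter Topology
open scoped ENNReal NNReal

namespace Pool.Agent.BPT

/-! ### generalities -/

theorem X3b_cont {M : ℝ} {F : ℝ → ℝ} (hF : BL M F) : Continuous F := by
  have hM : 0 ≤ M := (abs_nonneg _).trans (hF.bd 0)
  have h : LipschitzWith ⟨M, hM⟩ F := by
    refine LipschitzWith.of_dist_le_mul fun x y => ?_
    rw [Real.dist_eq, Real.dist_eq]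
    exact hF.lip x y
  exact h.continuous

theorem X3b_min (a b c : ℝ) : |min a c - min b c| ≤ |a - b| := by
  have h := abs_min_sub_min_le_max a c b c
  rwa [sub_self, abs_zero, max_eq_left (abs_nonneg _)] at h

theorem X3b_clamp (a b : ℝ) : |max 0 (min 1 a) - max 0 (min 1 b)| ≤ |a - b| := by
  rw [max_comm 0, max_comm 0, min_comm 1, min_comm 1]
  exact (abs_max_sub_max_le_abs _ _ _).trans (X3b_min _ _ _)

/-- continuous approximations of the indicator of `Iic a` -/
noncomputable def X3b_F (a : ℝ) (n : ℕ) (x : ℝ) : ℝ := max 0 (min 1 (1 - n * (x - a)))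

theorem X3b_F_BL (a : ℝ) (n : ℕ) : BL ((n : ℝ) + 1) (X3b_F a n) := by
  have hn : (0 : ℝ) ≤ n := Nat.cast_nonneg n
  constructor
  · intro x
    unfold X3b_F
    rw [abs_of_nonneg (le_max_left _ _)]
    refine max_le (by linarith) ((min_le_left _ _).trans (by linarith))
  · intro x y
    unfold X3b_F
    have h1 : |max 0 (min 1 (1 - n * (x - a))) - max 0 (min 1 (1 - n * (y - a)))| ≤
        |(1 - n * (x - a)) - (1 - n * (y - a))| := X3b_clamp _ _
    refine h1.trans ?_
    have h2 : (1 - n * (x - a)) - (1 - n * (y - a)) = (n : ℝ) * (y - x) := by ring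
    rw [h2, abs_mul, abs_of_nonneg hn, abs_sub_comm y x]
    nlinarith [abs_nonneg (x - y)]

theorem X3b_F_lim (a x : ℝ) :
    Tendsto (fun n : ℕ => X3b_F a n x) atTop (𝓝 ((Set.Iic a).indicator (fun _ => (1 : ℝ)) x)) := by
  by_cases hx : x ≤ a
  · rw [Set.indicator_of_mem (show x ∈ Set.Iic a from hx)]
    refine tendsto_const_nhds.congr fun n => ?_
    unfold X3b_F
    have hn : (0 : ℝ) ≤ n := Nat.cast_nonneg n
    have h1 : (1 : ℝ) ≤ 1 - n * (x - a) := by nlinarith
    rw [min_eq_left h1, max_eq_right zero_le_one]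
  · rw [Set.indicator_of_notMem (show x ∉ Set.Iic a from hx)]
    push Not at hx
    obtain ⟨N, hN⟩ := exists_nat_gt (1 / (x - a))
    refine tendsto_const_nhds.congr' ?_
    filter_upwards [eventually_ge_atTop N] with n hn
    have hn' : (N : ℝ) ≤ n := by exact_mod_cast hn
    have hxa : 0 < x - a := by linarith
    have h1 : 1 < (n : ℝ) * (x - a) := by
      have h2 : 1 / (x - a) < (n : ℝ) := lt_of_lt_of_le hN hn'
      rwa [div_lt_iff₀ hxa] at h2
    unfold X3b_F
    rw [max_eq_left]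
    exact (min_le_right _ _).trans (by linarith)

theorem X3b_ext (P Q : Measure ℝ) [IsProbabilityMeasure P] [IsProbabilityMeasure Q]
    (h : ∀ F : ℝ → ℝ, BL 1 F → ∫ x, F x ∂P = ∫ x, F x ∂Q) : P = Q := by
  have hBL : ∀ a n, ∫ x, X3b_F a n x ∂P = ∫ x, X3b_F a n x ∂Q := by
    intro a n
    have hn : (0 : ℝ) < (n : ℝ) + 1 := by positivity
    have h1 : BL 1 (fun x => ((n : ℝ) + 1)⁻¹ * X3b_F a n x) := by
      have hb := X3b_F_BL a n
      constructor
      · intro x
        rw [abs_mul, abs_of_pos (inv_pos.2 hn)]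
        calc ((n : ℝ) + 1)⁻¹ * |X3b_F a n x| ≤ ((n : ℝ) + 1)⁻¹ * ((n : ℝ) + 1) :=
              mul_le_mul_of_nonneg_left (hb.bd x) (inv_pos.2 hn).le
          _ = 1 := inv_mul_cancel₀ hn.ne'
      · intro x y
        rw [← mul_sub, abs_mul, abs_of_pos (inv_pos.2 hn)]
        calc ((n : ℝ) + 1)⁻¹ * |X3b_F a n x - X3b_F a n y|
            ≤ ((n : ℝ) + 1)⁻¹ * (((n : ℝ) + 1) * |x - y|) :=
              mul_le_mul_of_nonneg_left (hb.lip x y) (inv_pos.2 hn).le
          _ = 1 * |x - y| := by rw [← mul_assoc, inv_mul_cancel₀ hn.ne']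
    have h2 := h _ h1
    rw [integral_const_mul, integral_const_mul] at h2
    exact mul_left_cancel₀ (inv_ne_zero hn.ne') h2
  have hlim : ∀ (V : Measure ℝ) [IsProbabilityMeasure V] (a : ℝ),
      Tendsto (fun n : ℕ => ∫ x, X3b_F a n x ∂V) atTop (𝓝 (V.real (Set.Iic a))) := by
    intro V _ a
    have h1 : V.real (Set.Iic a) = ∫ x, (Set.Iic a).indicator (fun _ => (1 : ℝ)) x ∂V := by
      rw [integral_indicator_const _ measurableSet_Iic, smul_eq_mul, mul_one]
    rw [h1]
    refine tendsto_integral_of_dominated_convergence (fun _ => (1 : ℝ)) ?_ (integrable_const _)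
      ?_ (Filter.Eventually.of_forall fun x => X3b_F_lim a x)
    · exact fun n => (X3b_cont (X3b_F_BL a n)).aestronglyMeasurable
    · intro n
      refine Filter.Eventually.of_forall fun x => ?_
      unfold X3b_F
      rw [Real.norm_eq_abs, abs_of_nonneg (le_max_left _ _)]
      exact max_le zero_le_one (min_le_left _ _)
  refine Measure.ext_of_Iic P Q fun a => ?_
  have h3 := tendsto_nhds_unique ((hlim P a).congr fun n => hBL a n) (hlim Q a)
  exact (measureReal_eq_measureReal_iff).1 h3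

/-- Riemann sums -/
theorem X3b_riemann {f : ℝ → ℝ} {a b : ℝ} (hab : a ≤ b) (hf : ContinuousOn f (Set.Icc a b)) :
    Tendsto (fun K : ℕ => ∑ j ∈ Finset.range K, (b - a) / K * f (a + j * ((b - a) / K))) atTop
      (𝓝 (∫ t in a..b, f t)) := by
  rw [Metric.tendsto_atTop]
  intro ε hε
  have hba : 0 ≤ b - a := by linarith
  have huc := isCompact_Icc.uniformContinuousOn_of_continuous hf
  rw [Metric.uniformContinuousOn_iff] at huc
  obtain ⟨δ, hδ, huc⟩ := huc (ε / (b - a + 1)) (by positivity)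
  obtain ⟨K₀, hK₀⟩ := exists_nat_gt ((b - a) / δ)
  refine ⟨max K₀ 1, fun K hK => ?_⟩
  have hK1 : 1 ≤ K := (le_max_right _ _).trans hK
  have hKpos : (0 : ℝ) < K := by exact_mod_cast hK1
  set κ : ℝ := (b - a) / K with hκ
  have hκ0 : 0 ≤ κ := by positivity
  have hκδ : κ < δ := by
    have h1 : (b - a) / δ < K := lt_of_lt_of_le hK₀ (by exact_mod_cast (le_max_left _ _).trans hK)
    rw [hκ, div_lt_iff₀ hKpos]
    rwa [div_lt_iff₀ hδ, mul_comm] at h1
  have hKκ : (K : ℝ) * κ = b - a := by rw [hκ]; field_simp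
  set x : ℕ → ℝ := fun j => a + j * κ with hx
  have hxK : x K = b := by
    simp only [hx]
    rw [hKκ]
    ring
  have hx0 : x 0 = a := by simp [hx]
  have hxs : ∀ j, x (j + 1) = x j + κ := by
    intro j
    simp only [hx]
    push_cast
    ring
  have hmem : ∀ j, j < K → ∀ t ∈ Set.Icc (x j) (x (j + 1)), t ∈ Set.Icc a b := by
    intro j hj t ht
    have h1 : a ≤ x j := by
      simp only [hx]
      have : (0 : ℝ) ≤ j := Nat.cast_nonneg j
      nlinarith
    have h2 : x (j + 1) ≤ b := by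
      rw [← hxK]
      simp only [hx]
      have h3 : ((j + 1 : ℕ) : ℝ) ≤ K := by exact_mod_cast hj
      nlinarith
    exact ⟨h1.trans ht.1, ht.2.trans h2⟩
  have hle : ∀ j, x j ≤ x (j + 1) := fun j => by rw [hxs]; linarith
  have hint : ∀ j < K, IntervalIntegrable f volume (x j) (x (j + 1)) := by
    intro j hj
    refine ContinuousOn.intervalIntegrable ?_
    rw [Set.uIcc_of_le (hle j)]
    exact hf.mono (hmem j hj)
  have hsum := intervalIntegral.sum_integral_adjacent_intervals hint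
  rw [hx0, hxK] at hsum
  rw [← hsum, Real.dist_eq, ← Finset.sum_sub_distrib]
  refine lt_of_le_of_lt (Finset.abs_sum_le_sum_abs _ _) ?_
  have hterm : ∀ j ∈ Finset.range K, |κ * f (a + j * κ) - ∫ t in x j..x (j + 1), f t| ≤
      ε / (b - a + 1) * κ := by
    intro j hj
    have hj' := Finset.mem_range.1 hj
    have h1 : κ * f (a + j * κ) - ∫ t in x j..x (j + 1), f t =
        ∫ t in x j..x (j + 1), (f (x j) - f t) := by
      rw [intervalIntegral.integral_sub intervalIntegrable_const (hint j hj'),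
        intervalIntegral.integral_const, hxs, smul_eq_mul]
      simp only [hx]
      ring
    rw [h1]
    have h2 := intervalIntegral.norm_integral_le_of_norm_le_const (a := x j) (b := x (j + 1))
      (f := fun t => f (x j) - f t) (C := ε / (b - a + 1)) (fun t ht => by
        rw [Set.uIoc_of_le (hle j)] at ht
        have h3 := huc (x j) (hmem j hj' _ (Set.left_mem_Icc.2 (hle j))) t
          (hmem j hj' _ (Set.Ioc_subset_Icc_self ht)) (by
            rw [Real.dist_eq, abs_sub_comm, abs_of_nonneg (by linarith [ht.1])]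
            have h4 := ht.2
            rw [hxs] at h4
            linarith)
        rw [Real.norm_eq_abs, ← Real.dist_eq]
        exact h3.le)
    rw [Real.norm_eq_abs] at h2
    refine h2.trans (le_of_eq ?_)
    rw [hxs, add_sub_cancel_left, abs_of_nonneg hκ0]
  refine lt_of_le_of_lt (Finset.sum_le_sum hterm) ?_
  rw [Finset.sum_const, Finset.card_range, nsmul_eq_mul]
  have h5 : (K : ℝ) * (ε / (b - a + 1) * κ) = ε * ((b - a) / (b - a + 1)) := by
    rw [← hKκ]
    ring
  rw [h5]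
  have h6 : (b - a) / (b - a + 1) < 1 := by
    rw [div_lt_one (by positivity)]
    linarith
  nlinarith

/-- dominated convergence for `F ∘ X_i` -/
theorem X3b_dom {Ω : Type} [MeasurableSpace Ω] (P : Measure Ω) [IsProbabilityMeasure P]
    {F : ℝ → ℝ} (hF : BL 1 F) {X : ℕ → Ω → ℝ} {Y : Ω → ℝ} (hX : ∀ i, Measurable (X i))
    (hlim : ∀ ω, Tendsto (fun i => X i ω) atTop (𝓝 (Y ω))) :
    Tendsto (fun i => ∫ ω, F (X i ω) ∂P) atTop (𝓝 (∫ ω, F (Y ω) ∂P)) := by
  refine tendsto_integral_of_dominated_convergence (fun _ => (1 : ℝ)) ?_ (integrable_const _)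
    ?_ (Filter.Eventually.of_forall fun ω => ((X3b_cont hF).tendsto _).comp (hlim ω))
  · exact fun i => ((X3b_cont hF).measurable.comp (hX i)).aestronglyMeasurable
  · exact fun i => Filter.Eventually.of_forall fun ω => hF.bd _

/-! ### the discrete side -/

/-- area and truncated grid sum, given `N = n` -/
theorem X3b_approx {D : Set ℝ} {μ ν : Measure ℝ} {σ : ℝ} (hD : Dom D) (hQ : QStd μ ν σ)
    {F : ℝ → ℝ} (hF : BL 1 F) : ∀ τ > (0 : ℝ), ∃ δ₀ > (0 : ℝ), ∀ δ : ℝ, 0 < δ →
    δ ≤ δ₀ → ∃ K₀ : ℕ, ∀ K ≥ K₀, ∃ R₀ ≥ (1 : ℝ), ∀ R ≥ R₀, ∃ n₀ : ℕ, ∀ n ≥ n₀,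
    PQ μ ν (EvN D n) ≠ 0 → |EN D μ ν n (fun ω => F (Area σ n ω / (n * √n))) -
      EN D μ ν n (fun ω => F (YA σ δ R K n ω))| ≤ τ := by
  intro τ hτ
  have := hQ.probμ
  have := hQ.probν
  obtain ⟨c, hc, n₁, hn₁⟩ := le_hit hD hQ.std
  set τ' : ℝ := min (τ / 2) (τ * c / 4) with hτ'
  have hτ'0 : 0 < τ' := lt_min (by positivity) (by positivity)
  have hτ'1 : τ' ≤ τ / 2 := min_le_left _ _
  have hτ'2 : τ' ≤ τ * c / 4 := min_le_right _ _
  obtain ⟨δ₀, hδ₀, H1⟩ := MW_approx hD hQ τ' hτ'0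
  refine ⟨δ₀, hδ₀, fun δ hδ hδ' => ?_⟩
  obtain ⟨K₀, H2⟩ := H1 δ hδ hδ'
  refine ⟨K₀, fun K hK => ?_⟩
  obtain ⟨R₀, hR₀, H3⟩ := H2 K hK
  refine ⟨R₀, hR₀, fun R hR => ?_⟩
  obtain ⟨n₀, H4⟩ := H3 R hR
  refine ⟨max (max n₀ n₁) 1, fun n hn hne => ?_⟩
  have hn0 : n₀ ≤ n := (le_max_left _ _).trans ((le_max_left _ _).trans hn)
  have hn1 : n₁ ≤ n := (le_max_right _ _).trans ((le_max_left _ _).trans hn)
  have hn2 : 1 ≤ n := (le_max_right _ _).trans hn
  have hnpos : (0 : ℝ) < n := by exact_mod_cast hn2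
  have hnn : (0 : ℝ) < n * √n := by positivity
  set p : ℝ := (PQ μ ν).real (EvN D n) with hp
  have hp0 : 0 < p := by
    rw [hp, measureReal_def]
    exact ENNReal.toReal_pos hne (measure_ne_top _ _)
  have hpc : c / (n * √n) ≤ p := by
    have h1 := hn₁ n hn1 (by rw [← PQ_EvN hD hQ]; exact hp0)
    rwa [← PQ_EvN hD hQ] at h1
  have hms := measurableSet_EvN (D := D) hD n
  have hmA : Measurable (fun ω => Area σ n ω / (n * √n)) :=
    (((measurable_Mx (σ := σ) n).2 δ K).2.1).div_const _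
  have hmY : Measurable (YA σ δ R K n) := ((measurable_Mx (σ := σ) n).2 δ K).2.2 R
  have hFc := X3b_cont hF
  set B : Set (ℕ → ℝ × ℝ) := {ω | τ' < |Area σ n ω / (n * √n) - YA σ δ R K n ω|} with hB
  have hBm : MeasurableSet B := measurableSet_lt measurable_const ((hmA.sub hmY).abs)
  have hBb : (PQ μ ν).real (EvN D n ∩ B) ≤ τ' / (n * √n) := by
    have h1 := H4 n hn0
    have h2 : PQ μ ν (EvN D n ∩ B) ≤ ENNReal.ofReal (τ' / (n * √n)) := by
      refine (measure_mono ?_).trans h1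
      rintro ω ⟨h3, h4⟩
      exact ⟨h3, Or.inr (Or.inr h4)⟩
    rw [measureReal_def]
    exact ENNReal.toReal_le_of_le_ofReal (by positivity) h2
  have hi1 : Integrable (fun ω => F (Area σ n ω / (n * √n))) ((PQ μ ν).restrict (EvN D n)) := by
    refine Integrable.of_bound (C := 1) (hFc.measurable.comp hmA).aestronglyMeasurable
      (Filter.Eventually.of_forall fun ω => hF.bd _)
  have hi2 : Integrable (fun ω => F (YA σ δ R K n ω)) ((PQ μ ν).restrict (EvN D n)) := by
    refine Integrable.of_bound (C := 1) (hFc.measurable.comp hmY).aestronglyMeasurable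
      (Filter.Eventually.of_forall fun ω => hF.bd _)
  unfold EN
  rw [← sub_div, ← integral_sub hi1 hi2, abs_div, abs_of_pos hp0, div_le_iff₀ hp0]
  have hbound : ∀ ω, |F (Area σ n ω / (n * √n)) - F (YA σ δ R K n ω)| ≤
      τ' + B.indicator (fun _ => (2 : ℝ)) ω := by
    intro ω
    by_cases hω : ω ∈ B
    · rw [Set.indicator_of_mem hω]
      have h1 := hF.bd (Area σ n ω / (n * √n))
      have h2 := hF.bd (YA σ δ R K n ω)
      have h3 := abs_sub (F (Area σ n ω / (n * √n))) (F (YA σ δ R K n ω))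
      linarith
    · rw [Set.indicator_of_notMem hω, add_zero]
      have h1 : |Area σ n ω / (n * √n) - YA σ δ R K n ω| ≤ τ' := not_lt.1 hω
      have h2 := hF.lip (Area σ n ω / (n * √n)) (YA σ δ R K n ω)
      linarith
  have hi3 : Integrable (fun ω => τ' + B.indicator (fun _ => (2 : ℝ)) ω)
      ((PQ μ ν).restrict (EvN D n)) :=
    (integrable_const _).add ((integrable_const _).indicator hBm)
  have h5 := norm_integral_le_of_norm_le hi3
    (f := fun ω => F (Area σ n ω / (n * √n)) - F (YA σ δ R K n ω))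
    (Filter.Eventually.of_forall fun ω => by
      rw [Real.norm_eq_abs]
      exact hbound ω)
  rw [Real.norm_eq_abs] at h5
  refine h5.trans ?_
  rw [integral_add (integrable_const _) ((integrable_const _).indicator hBm), integral_const,
    integral_indicator_const _ hBm, smul_eq_mul, smul_eq_mul]
  have h6 : ((PQ μ ν).restrict (EvN D n)).real Set.univ = p := by
    rw [measureReal_restrict_apply MeasurableSet.univ, Set.univ_inter]
  have h7 : ((PQ μ ν).restrict (EvN D n)).real B = (PQ μ ν).real (EvN D n ∩ B) := by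
    rw [measureReal_restrict_apply hBm, Set.inter_comm]
  rw [h6, h7]
  have h8 : τ' / (n * √n) ≤ τ / 4 * p := by
    calc τ' / (n * √n) ≤ (τ * c / 4) / (n * √n) := by
          exact div_le_div_of_nonneg_right hτ'2 hnn.le
      _ = τ / 4 * (c / (n * √n)) := by ring
      _ ≤ τ / 4 * p := mul_le_mul_of_nonneg_left hpc (by positivity)
  nlinarith

/-- on `N = n` the walk is nonnegative at the grid times -/
theorem X3b_nz {D : Set ℝ} {σ : ℝ} (hD : Dom D) (hσ : 0 < σ) {n : ℕ} (hn : 1 ≤ n) {ω : ℕ → ℝ × ℝ}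
    (hω : ω ∈ EvN D n) {i : ℕ} (hi : i < n) : 0 ≤ nz σ i ω := by
  have h0 : 0 ≤ Zw i ω := by
    rcases Nat.eq_zero_or_pos i with rfl | hi0
    · simp [Zw, Dp, Ar]
    · have h1 := hω.2.1 i hi0 (by omega)
      rcases hD with rfl | rfl
      · exact h1
      · exact (show 0 < Zw i ω from h1).le
  exact div_nonneg h0 hσ.le

theorem X3b_gi {n K : ℕ} (hn : 1 ≤ n) {δ : ℝ} (hδ : 0 < δ) (hδ1 : δ ≤ 1 / 8) {j : ℕ} (hj : j < K) :
    gi n δ K j < n := by
  unfold gi
  have hnpos : (0 : ℝ) < n := by exact_mod_cast hn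
  have hK : (0 : ℝ) < K := by exact_mod_cast (Nat.zero_lt_of_lt hj)
  have hj' : (j : ℝ) ≤ K := by exact_mod_cast hj.le
  have h1 : (j : ℝ) * ((1 - 2 * δ) / K) ≤ 1 - 2 * δ := by
    rw [mul_div_assoc', div_le_iff₀ hK, mul_comm]
    exact mul_le_mul_of_nonneg_left hj' (by linarith)
  have h2 : (0 : ℝ) ≤ (j : ℝ) * ((1 - 2 * δ) / K) := by
    have : 0 ≤ 1 - 2 * δ := by linarith
    positivity
  rw [Nat.floor_lt (by positivity)]
  have h3 : δ + j * ((1 - 2 * δ) / K) < 1 := by linarith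
  nlinarith

/-- the truncated absolute value -/
noncomputable def X3b_g (δ R : ℝ) (K : ℕ) (_ : ℕ) (x : ℝ) : ℝ := (1 - 2 * δ) / K * min |x| R

theorem X3b_g_BL {δ R : ℝ} (hδ : 0 < δ) (hδ1 : δ ≤ 1 / 8) (hR : 1 ≤ R) {K : ℕ} (hK : 1 ≤ K)
    (j : ℕ) : BL R (X3b_g δ R K j) ∧ ∀ x, 0 ≤ X3b_g δ R K j x := by
  have hKpos : (1 : ℝ) ≤ K := by exact_mod_cast hK
  have hκ0 : 0 ≤ (1 - 2 * δ) / K := div_nonneg (by linarith) (by linarith)
  have hκ1 : (1 - 2 * δ) / K ≤ 1 := by
    rw [div_le_one (by linarith)]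
    linarith
  have hmin : ∀ x : ℝ, 0 ≤ min |x| R := fun x => le_min (abs_nonneg _) (by linarith)
  refine ⟨⟨fun x => ?_, fun x y => ?_⟩, fun x => mul_nonneg hκ0 (hmin x)⟩
  · unfold X3b_g
    rw [abs_of_nonneg (mul_nonneg hκ0 (hmin x))]
    calc (1 - 2 * δ) / K * min |x| R ≤ 1 * R :=
          mul_le_mul hκ1 (min_le_right _ _) (hmin x) zero_le_one
      _ = R := one_mul R
  · unfold X3b_g
    rw [← mul_sub, abs_mul, abs_of_nonneg hκ0]
    have h1 : |min |x| R - min |y| R| ≤ |x - y| :=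
      (X3b_min _ _ _).trans (abs_abs_sub_abs_le_abs_sub x y)
    calc (1 - 2 * δ) / K * |min |x| R - min |y| R| ≤ R * |x - y| :=
          mul_le_mul (hκ1.trans hR) h1 (abs_nonneg _) (by linarith)

/-- **[FV-X3b]** The area of a Brownian excursion.
PROOF. Let `F` be `BL 1`. For a grid `(δ, K)` and `R ≥ 1` let `Y = ∑_j κ min(|e(t_j)|, R)`, and `c(δ,K,R)` the
constant of `grid_sum` for `g_j(x) = κ min(|x|, R)`; `E_P F(Y) = c(δ,K,R)` (`exc_grid`) and
`E_n F(YA) → c(δ,K,R)` for the simple random walk (`nz ≥ 0` on `EvN`, so `YA` is the same sum). By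
`MW_approx` (with `τ` small compared with the constant of `le_hit`), `|E_n F(Area/(n√n)) - E_n F(YA)| ≤ 2τ`
for `δ ≤ δ₀`, `K ≥ K₀`, `R ≥ R₀`, `n ≥ n₀`, so `|c(δ,K,R) - ∫ F dW| ≤ 3τ`. On the other hand `Y` tends to
`∫_0^1 e` pointwise a.s. when first `K → ∞` (Riemann sums of a continuous function on `[δ, 1-δ]`), then
`R → ∞` (`R ≥ max e`), then `δ → 0`; by dominated convergence along suitable sequences
(`|F| ≤ 1`), `E_P F(∫ e) = ∫ F dW` up to `3τ` for every `τ`. (Order of the limits: for every `τ` fix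
`δ ≤ δ₀(τ)` with `|E F(∫_0^1 e) - E F(∫_δ^{1-δ} e)| ≤ τ`, then `R₀, K₀`: choose `R` with
`P(max e > R) ≤ τ`, `R ≥ R₀(K)`; since `R₀` depends on `K`, note that `Y` does not depend on `R` on
`{max e ≤ R}` and take `K` large first, so that `E_P |F(∑ κ |e(t_j)|) - F(∫_δ^{1-δ} e)| ≤ τ`, then `R`.)
Two probability measures with the same integrals of all `BL 1` functions are equal
(`ext_of_forall_integral_eq_of_IsFiniteMeasure` needs bounded continuous functions; bounded Lipschitz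
functions suffice, e.g. by approximating indicators of closed sets with `thickenedIndicator`). -/
theorem exc_area {Ω : Type} [MeasurableSpace Ω] (P : Measure Ω) (e : ℝ → Ω → ℝ)
    (he : IsBrownianExcursion P e) (W : Measure ℝ) (hW : IsProbabilityMeasure W)
    (hlim : ∀ (D : Set ℝ) (μ ν : Measure ℝ) (σ : ℝ), Dom D → QStd μ ν σ → ∀ F : ℝ → ℝ, BL 1 F →
      ∀ ε > (0 : ℝ), ∃ n₀ : ℕ, ∀ n ≥ n₀, PQ μ ν (EvN D n) ≠ 0 →
        |EN D μ ν n (fun ω => F (Area σ n ω / (n * √n))) - ∫ x, F x ∂W| ≤ ε) :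
    P.map (fun ω => ∫ t in (0 : ℝ)..1, e t ω) = W := by
  have := he.prob
  -- measurability of grid sums and of the integrals
  have hmeas : ∀ (a b : ℝ) (K : ℕ), Measurable fun ω => ∑ j ∈ Finset.range K,
      (b - a) / K * e (a + j * ((b - a) / K)) ω := fun a b K =>
    Finset.measurable_sum _ fun j _ => (he.meas _).const_mul _
  have hmeas' : ∀ (a b : ℝ) (K : ℕ), Measurable fun ω => ∑ j ∈ Finset.range K,
      (b - a) / K * |e (a + j * ((b - a) / K)) ω| := fun a b K =>
    Finset.measurable_sum _ fun j _ => ((he.meas _).abs).const_mul _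
  have hA : Measurable fun ω => ∫ t in (0 : ℝ)..1, e t ω := by
    refine measurable_of_tendsto_metrizable (hmeas 0 1) ?_
    rw [tendsto_pi_nhds]
    exact fun ω => X3b_riemann zero_le_one (he.cont ω)
  have hcabs : ∀ ω, ContinuousOn (fun t => |e t ω|) (Set.Icc 0 1) := fun ω => (he.cont ω).abs
  have : IsProbabilityMeasure (P.map fun ω => ∫ t in (0 : ℝ)..1, e t ω) :=
    Measure.isProbabilityMeasure_map hA.aemeasurable
  refine X3b_ext _ W fun F hF => ?_
  have hFc := X3b_cont hF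
  rw [integral_map hA.aemeasurable hFc.aestronglyMeasurable]
  have habs : ∫ ω, F (∫ t in (0 : ℝ)..1, e t ω) ∂P = ∫ ω, F (∫ t in (0 : ℝ)..1, |e t ω|) ∂P := by
    refine integral_congr_ae ?_
    filter_upwards [exc_nonneg P e he] with ω hω
    congr 1
    refine intervalIntegral.integral_congr fun t ht => ?_
    rw [Set.uIcc_of_le zero_le_one] at ht
    exact (abs_of_nonneg (hω t ht)).symm
  rw [habs]
  -- the main estimate
  have key : ∀ τ > (0 : ℝ), |∫ ω, F (∫ t in (0 : ℝ)..1, |e t ω|) ∂P - ∫ x, F x ∂W| ≤ 3 * τ := by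
    intro τ hτ
    have hDom : Dom (Set.Ici (0 : ℝ)) := Or.inl rfl
    obtain ⟨n₁, hn₁⟩ := hlim (Set.Ici 0) muS nuS (1 / 2) hDom qstd_S F hF τ hτ
    obtain ⟨δ₀, hδ₀, H1⟩ := X3b_approx hDom qstd_S hF τ hτ
    -- for a grid
    have hgrid : ∀ δ : ℝ, 0 < δ → δ ≤ min δ₀ (1 / 8) → ∃ K₀ : ℕ, ∀ K ≥ K₀, ∃ R₀ ≥ (1 : ℝ),
        ∀ R ≥ R₀, |∫ ω, F (∑ j ∈ Finset.range K,
          (1 - 2 * δ) / K * min |e (δ + j * ((1 - 2 * δ) / K)) ω| R) ∂P - ∫ x, F x ∂W| ≤ 3 * τ := by
      intro δ hδ hδ'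
      have hδ1 : δ ≤ δ₀ := hδ'.trans (min_le_left _ _)
      have hδ2 : δ ≤ 1 / 8 := hδ'.trans (min_le_right _ _)
      obtain ⟨K₀, H2⟩ := H1 δ hδ hδ1
      refine ⟨max K₀ 1, fun K hK => ?_⟩
      have hK1 : 1 ≤ K := (le_max_right _ _).trans hK
      obtain ⟨R₀, hR₀, H3⟩ := H2 K ((le_max_left _ _).trans hK)
      refine ⟨R₀, hR₀, fun R hR => ?_⟩
      have hR1 : 1 ≤ R := hR₀.trans hR
      obtain ⟨n₂, H4⟩ := H3 R hR
      obtain ⟨c, hc1, hc2⟩ := grid_sum δ hδ hδ2 K hK1 R (by linarith) (X3b_g δ R K)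
        (fun j => (X3b_g_BL hδ hδ2 hR1 hK1 j).1) (fun j => (X3b_g_BL hδ hδ2 hR1 hK1 j).2) F hFc
      obtain ⟨n₃, H5⟩ := hc1 (Set.Ici 0) muS nuS (1 / 2) hDom qstd_S τ hτ
      have hPc := hc2 Ω inferInstance P (fun j ω => e (δ + j * ((1 - 2 * δ) / K)) ω) he.prob
        (exc_grid P e he δ hδ hδ2 K hK1)
      set m : ℕ := max n₁ (max n₂ n₃) with hm
      have hm1 : n₁ ≤ 2 * m + 1 := by
        have := le_max_left n₁ (max n₂ n₃)
        omega
      have hm2 : n₂ ≤ 2 * m + 1 := by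
        have := (le_max_left n₂ n₃).trans (le_max_right n₁ (max n₂ n₃))
        omega
      have hm3 : n₃ ≤ 2 * m + 1 := by
        have := (le_max_right n₂ n₃).trans (le_max_right n₁ (max n₂ n₃))
        omega
      have hne := (srw_EvN m).2
      have e1 := hn₁ (2 * m + 1) hm1 hne
      have e2 := H4 (2 * m + 1) hm2 hne
      have e3 := H5 (2 * m + 1) hm3 hne
      have e4 : EN (Set.Ici 0) muS nuS (2 * m + 1) (fun ω => F (YA (1 / 2) δ R K (2 * m + 1) ω)) =
          EN (Set.Ici 0) muS nuS (2 * m + 1) (fun ω => F (∑ j ∈ Finset.range K,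
            X3b_g δ R K j (nz (1 / 2) (gi (2 * m + 1) δ K j) ω / √((2 * m + 1 : ℕ) : ℝ)))) := by
        unfold EN
        congr 1
        refine setIntegral_congr_fun (measurableSet_EvN hDom _) fun ω hω => ?_
        congr 1
        unfold YA X3b_g
        refine Finset.sum_congr rfl fun j hj => ?_
        have h1 := X3b_nz hDom (by norm_num : (0 : ℝ) < 1 / 2) (by omega) hω
          (X3b_gi (K := K) (by omega) hδ hδ2 (Finset.mem_range.1 hj))
        rw [abs_of_nonneg (div_nonneg h1 (Real.sqrt_nonneg _))]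
      rw [e4] at e2
      have hPc' : ∫ ω, F (∑ j ∈ Finset.range K,
          (1 - 2 * δ) / K * min |e (δ + j * ((1 - 2 * δ) / K)) ω| R) ∂P = c := hPc
      rw [hPc']
      rw [abs_le] at e1 e2 e3 ⊢
      constructor <;> linarith [e1.1, e1.2, e2.1, e2.2, e3.1, e3.2]
    -- `R → ∞`
    have hR : ∀ δ : ℝ, 0 < δ → δ ≤ min δ₀ (1 / 8) → ∃ K₀ : ℕ, ∀ K ≥ K₀,
        |∫ ω, F (∑ j ∈ Finset.range K,
          (1 - 2 * δ) / K * |e (δ + j * ((1 - 2 * δ) / K)) ω|) ∂P - ∫ x, F x ∂W| ≤ 3 * τ := by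
      intro δ hδ hδ'
      obtain ⟨K₀, H2⟩ := hgrid δ hδ hδ'
      refine ⟨K₀, fun K hK => ?_⟩
      obtain ⟨R₀, -, H3⟩ := H2 K hK
      have hl := X3b_dom P hF (X := fun (i : ℕ) ω => ∑ j ∈ Finset.range K,
        (1 - 2 * δ) / K * min |e (δ + j * ((1 - 2 * δ) / K)) ω| (i : ℝ))
        (Y := fun ω => ∑ j ∈ Finset.range K, (1 - 2 * δ) / K * |e (δ + j * ((1 - 2 * δ) / K)) ω|)
        (fun i => Finset.measurable_sum _ fun j _ =>
          (((he.meas _).abs).min measurable_const).const_mul _)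
        (fun ω => tendsto_finsetSum _ fun j _ => by
          refine Tendsto.const_mul _ (tendsto_const_nhds.congr' ?_)
          obtain ⟨N, hN⟩ := exists_nat_ge |e (δ + j * ((1 - 2 * δ) / K)) ω|
          filter_upwards [eventually_ge_atTop N] with i hi
          rw [min_eq_left (hN.trans (by exact_mod_cast hi))])
      refine le_of_tendsto ((hl.sub_const _).abs) ?_
      obtain ⟨N, hN⟩ := exists_nat_ge R₀
      filter_upwards [eventually_ge_atTop N] with i hi
      exact H3 i (hN.trans (by exact_mod_cast hi))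
    -- `K → ∞`
    have hKlim : ∀ δ : ℝ, 0 < δ → δ ≤ min δ₀ (1 / 8) →
        |∫ ω, F (∫ t in δ..(1 - δ), |e t ω|) ∂P - ∫ x, F x ∂W| ≤ 3 * τ := by
      intro δ hδ hδ'
      have hδ2 : δ ≤ 1 / 8 := hδ'.trans (min_le_right _ _)
      obtain ⟨K₀, H2⟩ := hR δ hδ hδ'
      have hl := X3b_dom P hF (hmeas' δ (1 - δ)) (fun ω => X3b_riemann (by linarith)
        ((hcabs ω).mono (Set.Icc_subset_Icc hδ.le (by linarith))))
      refine le_of_tendsto ((hl.sub_const _).abs) ?_
      filter_upwards [eventually_ge_atTop K₀] with K hK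
      have h1 := H2 K hK
      have h2 : 1 - δ - δ = 1 - 2 * δ := by ring
      rw [h2]
      exact h1
    -- `δ → 0`
    set dl : ℕ → ℝ := fun i => 1 / ((i : ℝ) + 8) with hdl
    have hdl0 : ∀ i, 0 < dl i := fun i => by simp only [hdl]; positivity
    have hdl8 : ∀ i, dl i ≤ 1 / 8 := fun i => by
      simp only [hdl]
      have : (0 : ℝ) ≤ i := Nat.cast_nonneg i
      exact one_div_le_one_div_of_le (by norm_num) (by linarith)
    have hdlt : Tendsto dl atTop (𝓝 0) := by
      have h1 : Tendsto (fun i : ℕ => (i : ℝ) + 8) atTop atTop :=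
        tendsto_atTop_add_const_right _ _ tendsto_natCast_atTop_atTop
      simp only [hdl, one_div]
      exact h1.inv_tendsto_atTop
    have hl := X3b_dom P hF (X := fun i ω => ∫ t in dl i..(1 - dl i), |e t ω|)
      (Y := fun ω => ∫ t in (0 : ℝ)..1, |e t ω|)
      (fun i => by
        refine measurable_of_tendsto_metrizable (hmeas' (dl i) (1 - dl i)) ?_
        rw [tendsto_pi_nhds]
        exact fun ω => X3b_riemann (by linarith [hdl8 i])
          ((hcabs ω).mono (Set.Icc_subset_Icc (hdl0 i).le (by linarith [hdl0 i]))))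
      (fun ω => by
        obtain ⟨M, hM⟩ := isCompact_Icc.exists_bound_of_continuousOn (hcabs ω)
        have hii : ∀ a b : ℝ, a ∈ Set.Icc (0 : ℝ) 1 → b ∈ Set.Icc (0 : ℝ) 1 →
            IntervalIntegrable (fun t => |e t ω|) volume a b := fun a b ha hb =>
          ((hcabs ω).mono (Set.uIcc_subset_Icc ha hb)).intervalIntegrable
        rw [tendsto_iff_dist_tendsto_zero]
        have hM0 : Tendsto (fun i => M * dl i + M * dl i) atTop (𝓝 0) := by
          have := (hdlt.const_mul M).add (hdlt.const_mul M)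
          simpa using this
        refine squeeze_zero (fun _ => dist_nonneg) (fun i => ?_) hM0
        have h0 := hdl0 i
        have h8 := hdl8 i
        have m0 : (0 : ℝ) ∈ Set.Icc (0 : ℝ) 1 := ⟨le_rfl, zero_le_one⟩
        have m1 : (1 : ℝ) ∈ Set.Icc (0 : ℝ) 1 := ⟨zero_le_one, le_rfl⟩
        have md : dl i ∈ Set.Icc (0 : ℝ) 1 := ⟨h0.le, by linarith⟩
        have md' : 1 - dl i ∈ Set.Icc (0 : ℝ) 1 := ⟨by linarith, by linarith⟩
        have h1 : ∫ t in (0 : ℝ)..1, |e t ω| = (∫ t in (0 : ℝ)..dl i, |e t ω|) +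
            (∫ t in dl i..(1 - dl i), |e t ω|) + ∫ t in (1 - dl i)..1, |e t ω| := by
          rw [intervalIntegral.integral_add_adjacent_intervals (hii _ _ m0 md) (hii _ _ md md'),
            intervalIntegral.integral_add_adjacent_intervals (hii _ _ m0 md') (hii _ _ md' m1)]
        have h2 := intervalIntegral.norm_integral_le_of_norm_le_const (a := 0) (b := dl i)
          (f := fun t => |e t ω|) (C := M) (fun t ht => by
            rw [Set.uIoc_of_le h0.le] at ht
            exact hM t ⟨ht.1.le, ht.2.trans md.2⟩)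
        have h3 := intervalIntegral.norm_integral_le_of_norm_le_const (a := 1 - dl i) (b := 1)
          (f := fun t => |e t ω|) (C := M) (fun t ht => by
            rw [Set.uIoc_of_le (by linarith)] at ht
            exact hM t ⟨md'.1.trans ht.1.le, ht.2⟩)
        rw [sub_zero, abs_of_pos h0, Real.norm_eq_abs] at h2
        rw [sub_sub_cancel, abs_of_pos h0, Real.norm_eq_abs] at h3
        rw [Real.dist_eq, h1, abs_sub_comm]
        have h4 : (∫ t in (0 : ℝ)..dl i, |e t ω|) + (∫ t in dl i..(1 - dl i), |e t ω|) +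
            (∫ t in (1 - dl i)..1, |e t ω|) - (∫ t in dl i..(1 - dl i), |e t ω|) =
            (∫ t in (0 : ℝ)..dl i, |e t ω|) + ∫ t in (1 - dl i)..1, |e t ω| := by ring
        rw [h4]
        exact (abs_add_le _ _).trans (add_le_add h2 h3))
    refine le_of_tendsto ((hl.sub_const _).abs) ?_
    have hev : ∀ᶠ i in atTop, dl i ≤ min δ₀ (1 / 8) := by
      have h1 : ∀ᶠ i in atTop, dl i < δ₀ := hdlt.eventually (gt_mem_nhds hδ₀)
      filter_upwards [h1] with i hi
      exact le_min hi.le (hdl8 i)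
    filter_upwards [hev] with i hi
    exact hKlim (dl i) (hdl0 i) hi
  have h0 : |∫ ω, F (∫ t in (0 : ℝ)..1, |e t ω|) ∂P - ∫ x, F x ∂W| ≤ 0 := by
    refine le_of_forall_pos_le_add fun ε hε => ?_
    have := key (ε / 3) (by positivity)
    linarith
  exact sub_eq_zero.1 (abs_nonpos_iff.1 h0)

end Pool.Agent.BPT
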