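import Pool.Agent.MP_99a865_pr.FV.F11c
import Pool.Agent.MP_99a865_pr.FV.F11d
import Pool.Agent.MP_99a865_pr.FV.F11e
import Pool.Agent.MP_99a865_pr.FV.F11f
import Pool.Agent.MP_99a865_pr.FV.F11g
import Pool.Agent.MP_99a865_pr.FV.G1f
import Pool.Agent.MP_99a865_pr.FV.G2d
import Pool.Agent.MP_99a865_pr.FV.T1a
import Pool.Agent.MP_99a865_pr.FV.T1d
import Pool.Agent.MP_99a865_pr.FV.T1e
import Pool.Agent.MP_99a865_pr.FV.X3a
import Pool.Agent.MP_99a865_pr.FV.X3b
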