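import Pool.Agent.MP_99a865_pr.FV.B1

open MeasureTheory ProbabilityTheory Filter Topology
open scoped ENNReal NNReal

namespace Pool.Agent.BPT

variable {D : Set ℝ} {ρ : Measure ℝ}

/-- the step function -/
noncomputable def B2_st (g : ℝ → ℝ) (A h : ℝ) (r : ℕ) (x : ℝ) : ℝ :=
  ∑ i ∈ Finset.range r, (Set.Ico (A + i * h) (A + (i + 1) * h)).indicator
    (fun _ => g (A + i * h)) x

lemma B2_st_out (g : ℝ → ℝ) {A h : ℝ} (hh : 0 < h) (r : ℕ) {x : ℝ}
    (hx : x < A ∨ A + r * h ≤ x) : B2_st g A h r x = 0 := by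
  unfold B2_st
  refine Finset.sum_eq_zero fun i hi => ?_
  have hi' : ((i : ℝ) + 1) ≤ r := by exact_mod_cast Finset.mem_range.mp hi
  apply Set.indicator_of_notMem
  rw [Set.mem_Ico, not_and_or]
  rcases hx with hx | hx
  · left
    have : 0 ≤ (i : ℝ) * h := by positivity
    linarith
  · right
    have : ((i : ℝ) + 1) * h ≤ r * h := mul_le_mul_of_nonneg_right hi' hh.le
    linarith

lemma B2_st_in (g : ℝ → ℝ) {A h : ℝ} (hh : 0 < h) (r : ℕ) {x : ℝ}
    (hx1 : A ≤ x) (hx2 : x < A + r * h) : ∃ i < r, x ∈ Set.Ico (A + i * h) (A + ((i : ℝ) + 1) * h) ∧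
      B2_st g A h r x = g (A + i * h) := by
  set i := ⌊(x - A) / h⌋₊ with hi
  have h0 : 0 ≤ (x - A) / h := div_nonneg (by linarith) hh.le
  have h1 : (i : ℝ) ≤ (x - A) / h := Nat.floor_le h0
  have h2 : (x - A) / h < i + 1 := Nat.lt_floor_add_one _
  rw [le_div_iff₀ hh] at h1
  rw [div_lt_iff₀ hh] at h2
  have hir : i < r := by
    have : (i : ℝ) * h < r * h := by linarith
    exact_mod_cast lt_of_mul_lt_mul_right this hh.le
  have hmem : x ∈ Set.Ico (A + i * h) (A + ((i : ℝ) + 1) * h) := ⟨by linarith, by linarith⟩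
  refine ⟨i, hir, hmem, ?_⟩
  unfold B2_st
  rw [Finset.sum_eq_single i]
  · exact Set.indicator_of_mem hmem _
  · intro j _ hji
    apply Set.indicator_of_notMem
    rw [Set.mem_Ico, not_and_or, not_le, not_lt]
    rcases lt_or_gt_of_ne hji with h | h
    · right
      have : ((j : ℝ) + 1) ≤ i := by exact_mod_cast h
      have := mul_le_mul_of_nonneg_right this hh.le
      linarith
    · left
      have : ((i : ℝ) + 1) ≤ j := by exact_mod_cast h
      have := mul_le_mul_of_nonneg_right this hh.le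
      linarith
  · intro h
    exact absurd (Finset.mem_range.mpr hir) h

lemma B2_measurable (g : ℝ → ℝ) (x₀ : ℝ) (h1 : ∀ x y, x < x₀ → y < x₀ → |g x - g y| ≤ |x - y|)
    (h2 : ∀ x y, x₀ ≤ x → x₀ ≤ y → |g x - g y| ≤ |x - y|) : Measurable g := by
  have hc1 : ContinuousOn g (Set.Iio x₀) := by
    apply LipschitzOnWith.continuousOn (K := 1)
    apply LipschitzOnWith.of_dist_le_mul
    intro x hx y hy
    rw [Real.dist_eq, Real.dist_eq, NNReal.coe_one, one_mul]
    exact h1 x y hx hy
  have hc2 : ContinuousOn g (Set.Ici x₀) := by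
    apply LipschitzOnWith.continuousOn (K := 1)
    apply LipschitzOnWith.of_dist_le_mul
    intro x hx y hy
    rw [Real.dist_eq, Real.dist_eq, NNReal.coe_one, one_mul]
    exact h2 x y hx hy
  apply measurable_of_continuousOn_compl_singleton x₀
  intro x hx
  apply ContinuousAt.continuousWithinAt
  rcases lt_or_gt_of_ne hx with h | h
  · exact hc1.continuousAt (Iio_mem_nhds h)
  · exact hc2.continuousAt (Ici_mem_nhds h)

lemma B2_ico (μ : Measure ℝ) [IsProbabilityMeasure μ] {a b : ℝ} (h : a ≤ b) :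
    μ.real (Set.Ico a b) = μ.real (Set.Iio b) - μ.real (Set.Iio a) := by
  rw [← measureReal_sdiff (Set.Iio_subset_Iio h) measurableSet_Iio]
  congr 1
  ext x
  simp only [Set.mem_sdiff, Set.mem_Iio, Set.mem_Ico, not_lt]
  exact and_comm

lemma B2_st_meas (g : ℝ → ℝ) (A h : ℝ) (r : ℕ) : Measurable (B2_st g A h r) := by
  unfold B2_st
  exact Finset.measurable_sum _ fun i _ => measurable_const.indicator measurableSet_Ico

lemma B2_st_int (μ : Measure ℝ) [IsProbabilityMeasure μ] (g : ℝ → ℝ) (A h : ℝ) (r : ℕ) :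
    ∫ x, B2_st g A h r x ∂μ =
      ∑ i ∈ Finset.range r, μ.real (Set.Ico (A + i * h) (A + ((i : ℝ) + 1) * h)) * g (A + i * h) := by
  unfold B2_st
  rw [integral_finsetSum]
  · refine Finset.sum_congr rfl fun i _ => ?_
    rw [integral_indicator measurableSet_Ico, setIntegral_const, smul_eq_mul]
  · intro i _
    exact (integrable_const _).indicator measurableSet_Ico

lemma B2_close (μ : Measure ℝ) [IsProbabilityMeasure μ] (g : ℝ → ℝ) (hg : Measurable g)
    (hb : ∀ x, |g x| ≤ 1) (x₀ : ℝ) (h1 : ∀ x y, x < x₀ → y < x₀ → |g x - g y| ≤ |x - y|)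
    (h2 : ∀ x y, x₀ ≤ x → x₀ ≤ y → |g x - g y| ≤ |x - y|) {A h : ℝ} (hh : 0 < h) (r : ℕ) :
    |∫ x, g x ∂μ - ∫ x, B2_st g A h r x ∂μ| ≤
      h + 2 * μ.real (Set.Ico (x₀ - h) (x₀ + h)) + (μ.real (Set.Iio A) +
        μ.real (Set.Ici (A + r * h))) := by
  have hgi : Integrable g μ := Integrable.of_bound hg.aestronglyMeasurable 1
    (Eventually.of_forall fun x => by rw [Real.norm_eq_abs]; exact hb x)
  have hpt : ∀ x, |g x - B2_st g A h r x| ≤ h + 2 * (Set.Ico (x₀ - h) (x₀ + h)).indicator
      (fun _ => (1 : ℝ)) x + ((Set.Iio A).indicator (fun _ => (1 : ℝ)) x +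
        (Set.Ici (A + r * h)).indicator (fun _ => (1 : ℝ)) x) := by
    intro x
    have n1 : 0 ≤ (Set.Ico (x₀ - h) (x₀ + h)).indicator (fun _ => (1 : ℝ)) x :=
      Set.indicator_nonneg (fun _ _ => zero_le_one) x
    have n2 : 0 ≤ (Set.Iio A).indicator (fun _ => (1 : ℝ)) x :=
      Set.indicator_nonneg (fun _ _ => zero_le_one) x
    have n3 : 0 ≤ (Set.Ici (A + r * h)).indicator (fun _ => (1 : ℝ)) x :=
      Set.indicator_nonneg (fun _ _ => zero_le_one) x
    by_cases hA : x < A
    · rw [B2_st_out g hh r (Or.inl hA), sub_zero,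
        Set.indicator_of_mem (s := Set.Iio A) (Set.mem_Iio.mpr hA)]
      have := hb x
      linarith
    · by_cases hB : A + r * h ≤ x
      · rw [B2_st_out g hh r (Or.inr hB), sub_zero,
          Set.indicator_of_mem (s := Set.Ici (A + r * h)) (Set.mem_Ici.mpr hB)]
        have := hb x
        linarith
      · push Not at hA hB
        obtain ⟨i, hir, hmem, hst⟩ := B2_st_in g hh r hA hB
        rw [hst]
        have hm1 := hmem.1
        have hm2 := hmem.2
        have hxa : |x - (A + i * h)| ≤ h := by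
          rw [abs_of_nonneg (by linarith)]; linarith
        by_cases hc1 : x < x₀
        · have := h1 x (A + i * h) hc1 (by linarith)
          linarith
        · push Not at hc1
          by_cases hc2 : x₀ ≤ A + i * h
          · have := h2 x (A + i * h) hc1 hc2
            linarith
          · push Not at hc2
            rw [Set.indicator_of_mem (s := Set.Ico (x₀ - h) (x₀ + h))
              (Set.mem_Ico.mpr ⟨by linarith, by linarith⟩)]
            have b1 := hb x
            have b2 := hb (A + i * h)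
            have b3 := abs_sub (g x) (g (A + i * h))
            linarith
  have hsti : Integrable (B2_st g A h r) μ := by
    unfold B2_st
    exact integrable_finsetSum _ fun i _ => (integrable_const _).indicator measurableSet_Ico
  have i1 : Integrable ((Set.Ico (x₀ - h) (x₀ + h)).indicator (fun _ => (1 : ℝ))) μ :=
    (integrable_const _).indicator measurableSet_Ico
  have i2 : Integrable ((Set.Iio A).indicator (fun _ => (1 : ℝ))) μ :=
    (integrable_const _).indicator measurableSet_Iio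
  have i3 : Integrable ((Set.Ici (A + r * h)).indicator (fun _ => (1 : ℝ))) μ :=
    (integrable_const _).indicator measurableSet_Ici
  rw [← integral_sub hgi hsti]
  calc |∫ x, (g x - B2_st g A h r x) ∂μ| ≤ ∫ x, |g x - B2_st g A h r x| ∂μ :=
        abs_integral_le_integral_abs
    _ ≤ ∫ x, (h + 2 * (Set.Ico (x₀ - h) (x₀ + h)).indicator
      (fun _ => (1 : ℝ)) x + ((Set.Iio A).indicator (fun _ => (1 : ℝ)) x +
        (Set.Ici (A + r * h)).indicator (fun _ => (1 : ℝ)) x)) ∂μ := by
        refine integral_mono (hgi.sub hsti).abs ?_ hpt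
        exact (((integrable_const _).add (i1.const_mul 2)).add (i2.add i3))
    _ = _ := by
        have ind : ∀ s : Set ℝ, MeasurableSet s →
            ∫ x, s.indicator (fun _ => (1 : ℝ)) x ∂μ = μ.real s := by
          intro s hs
          rw [integral_indicator hs, setIntegral_const, smul_eq_mul, mul_one]
        rw [integral_add (f := fun x => h + 2 * (Set.Ico (x₀ - h) (x₀ + h)).indicator
              (fun _ => (1 : ℝ)) x) (g := fun x => (Set.Iio A).indicator (fun _ => (1 : ℝ)) x +
              (Set.Ici (A + r * h)).indicator (fun _ => (1 : ℝ)) x)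
              ((integrable_const _).add (i1.const_mul 2)) (i2.add i3),
          integral_add (f := fun _ => h) (g := fun x => 2 * (Set.Ico (x₀ - h) (x₀ + h)).indicator
              (fun _ => (1 : ℝ)) x) (integrable_const _) (i1.const_mul 2),
          integral_add i2 i3, integral_const_mul, ind _ measurableSet_Ico, ind _ measurableSet_Iio,
          ind _ measurableSet_Ici, integral_const]
        simp

lemma B2_gen (μ γ : Measure ℝ) [IsProbabilityMeasure μ] [IsProbabilityMeasure γ] (δ τ : ℝ)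
    {A h : ℝ} (hh : 0 < h) (r : ℕ) (hδ : ∀ x, |μ.real (Set.Iio x) - γ.real (Set.Iio x)| ≤ δ)
    (hint : ∀ x, γ.real (Set.Ico (x - h) (x + h)) ≤ h)
    (hout : γ.real (Set.Iio A) + γ.real (Set.Ici (A + r * h)) ≤ τ)
    (g : ℝ → ℝ) (hb : ∀ x, |g x| ≤ 1) (x₀ : ℝ)
    (h1 : ∀ x y, x < x₀ → y < x₀ → |g x - g y| ≤ |x - y|)
    (h2 : ∀ x y, x₀ ≤ x → x₀ ≤ y → |g x - g y| ≤ |x - y|) :
    |∫ x, g x ∂μ - ∫ x, g x ∂γ| ≤ 6 * h + 6 * δ + 2 * τ + 2 * r * δ := by
  have hg := B2_measurable g x₀ h1 h2
  have c1 := B2_close μ g hg hb x₀ h1 h2 (A := A) hh r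
  have c2 := B2_close γ g hg hb x₀ h1 h2 (A := A) hh r
  have hico : ∀ a b : ℝ, a ≤ b → |μ.real (Set.Ico a b) - γ.real (Set.Ico a b)| ≤ 2 * δ := by
    intro a b hab
    rw [B2_ico μ hab, B2_ico γ hab]
    have e1 := abs_le.mp (hδ a)
    have e2 := abs_le.mp (hδ b)
    rw [abs_le]
    constructor <;> linarith [e1.1, e1.2, e2.1, e2.2]
  have hici : μ.real (Set.Ici (A + r * h)) ≤ γ.real (Set.Ici (A + r * h)) + δ := by
    have e : ∀ (ν : Measure ℝ) [IsProbabilityMeasure ν] (x : ℝ),
        ν.real (Set.Ici x) = 1 - ν.real (Set.Iio x) := by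
      intro ν _ x
      rw [← Set.compl_Iio, probReal_compl_eq_one_sub measurableSet_Iio]
    rw [e μ, e γ]
    have e1 := abs_le.mp (hδ (A + r * h))
    linarith [e1.1, e1.2]
  have hiio : μ.real (Set.Iio A) ≤ γ.real (Set.Iio A) + δ := by
    have e1 := abs_le.mp (hδ A)
    linarith [e1.1, e1.2]
  have hbad : μ.real (Set.Ico (x₀ - h) (x₀ + h)) ≤ h + 2 * δ := by
    have e1 := abs_le.mp (hico (x₀ - h) (x₀ + h) (by linarith))
    have := hint x₀
    linarith [e1.1, e1.2]
  have hst : |∫ x, B2_st g A h r x ∂μ - ∫ x, B2_st g A h r x ∂γ| ≤ 2 * r * δ := by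
    rw [B2_st_int μ, B2_st_int γ, ← Finset.sum_sub_distrib]
    refine le_trans (Finset.abs_sum_le_sum_abs _ _) ?_
    calc ∑ i ∈ Finset.range r, |μ.real (Set.Ico (A + i * h) (A + ((i : ℝ) + 1) * h)) * g (A + i * h) -
          γ.real (Set.Ico (A + i * h) (A + ((i : ℝ) + 1) * h)) * g (A + i * h)|
        ≤ ∑ i ∈ Finset.range r, 2 * δ := by
          refine Finset.sum_le_sum fun i _ => ?_
          rw [← sub_mul, abs_mul]
          have e1 := hico (A + i * h) (A + ((i : ℝ) + 1) * h) (by linarith)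
          have e2 := hb (A + i * h)
          calc _ ≤ |μ.real (Set.Ico (A + i * h) (A + ((i : ℝ) + 1) * h)) -
              γ.real (Set.Ico (A + i * h) (A + ((i : ℝ) + 1) * h))| * 1 :=
                mul_le_mul_of_nonneg_left e2 (abs_nonneg _)
            _ ≤ 2 * δ := by rw [mul_one]; exact e1
      _ = 2 * r * δ := by rw [Finset.sum_const, Finset.card_range, nsmul_eq_mul]; ring
  have hint0 := hint x₀
  rw [abs_le] at c1 c2 hst ⊢
  constructor <;> linarith [c1.1, c1.2, c2.1, c2.2, hst.1, hst.2]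

/-- **[FV-B2]** Uniform central limit theorem for functions bounded by 1 and 1-Lipschitz on both sides
of one point. PROOF. Given `ε ≤ 1` take `R` with `P(|N(0,1)| > R) ≤ ε/8` and cut `[-R, R)` into `r`
intervals `[a_i, a_{i+1})` of length `≤ ε/8`. By `polya` (second version), for `k ≥ K` all
`P(S_k/√k ∈ [a_i, a_{i+1}))` are within `ε/(8(r+2))` of their gaussian values, and so is the probability of
`[-R, R)`. Replace `g` by the step function `∑ g(a_i) 1_{[a_i,a_{i+1})}`; the error is at most `ε/8` on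
the intervals not containing `x₀`, at most `2` on the one which does (its probability is at most
`ε/16 + ε/(8(r+2))` under both laws by `gauss_interval`, refine the mesh to `ε/32` if necessary), and at
most `1` outside `[-R, R)`. The step functions have expectations within `r · ε/(8(r+2))`. None of these
bounds depends on `g`. (`g` is measurable: it is continuous on both sides.) -/
theorem uclt (hρ : Std ρ) : ∀ ε > (0 : ℝ), ∃ K : ℕ, ∀ k ≥ K, ∀ g : ℝ → ℝ, (∀ x, |g x| ≤ 1) →
    (∃ x₀ : ℝ, (∀ x y, x < x₀ → y < x₀ → |g x - g y| ≤ |x - y|) ∧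
      (∀ x y, x₀ ≤ x → x₀ ≤ y → |g x - g y| ≤ |x - y|)) →
    |∫ ω, g (S k ω / √k) ∂(seqLaw ρ) - ∫ z, g z ∂(gaussianReal 0 1)| ≤ ε := by
  have := hρ.prob
  intro ε hε
  have htop : Tendsto (fun x : ℝ => (gaussianReal 0 1).real (Set.Iic x)) atTop (𝓝 1) := by
    have h := tendsto_cdf_atTop (gaussianReal 0 1)
    refine h.congr fun x => cdf_eq_real _ _
  have hbot : Tendsto (fun x : ℝ => (gaussianReal 0 1).real (Set.Iic x)) atBot (𝓝 0) := by
    have h := tendsto_cdf_atBot (gaussianReal 0 1)
    refine h.congr fun x => cdf_eq_real _ _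
  have hIio : ∀ x, (gaussianReal 0 1).real (Set.Iio x) = (gaussianReal 0 1).real (Set.Iic x) := by
    intro x
    have hna : (gaussianReal 0 1) {x} = 0 := by
      have := nullSingletonClass_gaussianReal (μ := 0) (v := 1) one_ne_zero
      exact measure_singleton x
    have : Set.Iic x \ {x} = Set.Iio x := by
      ext y; simp only [Set.mem_sdiff, Set.mem_Iic, Set.mem_singleton_iff, Set.mem_Iio]
      exact (lt_iff_le_and_ne).symm
    rw [← this, measureReal_def, measureReal_def, measure_sdiff_null hna]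
  obtain ⟨A, hA⟩ := (hbot.eventually (eventually_le_nhds (show (0 : ℝ) < ε / 16 by positivity))).exists
  obtain ⟨B, hB, hAB⟩ := ((htop.eventually (eventually_ge_nhds
    (show (1 - ε / 16 : ℝ) < 1 by linarith))).and (eventually_ge_atTop A)).exists
  set h : ℝ := ε / 24 with hh
  have hh0 : 0 < h := by positivity
  obtain ⟨r, hr⟩ := exists_nat_ge ((B - A) / h)
  have hr' : B ≤ A + r * h := by
    rw [div_le_iff₀ hh0] at hr
    linarith
  set δ : ℝ := ε / (4 * (6 + 2 * r)) with hδ
  have hr0 : (0 : ℝ) ≤ r := Nat.cast_nonneg r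
  have hδ0 : 0 < δ := by positivity
  obtain ⟨K, hK⟩ := polya hρ δ hδ0
  refine ⟨max K 1, fun k hk g hb ⟨x₀, h1, h2⟩ => ?_⟩
  have hk1 : 1 ≤ k := le_trans (le_max_right _ _) hk
  have hkK : K ≤ k := le_trans (le_max_left _ _) hk
  have hsq : 0 < √(k : ℝ) := Real.sqrt_pos.mpr (by exact_mod_cast hk1)
  have hmS : Measurable fun ω : ℕ → ℝ => S k ω / √(k : ℝ) := (measurable_S k).div_const _
  have hg := B2_measurable g x₀ h1 h2
  have e1 : ∫ ω, g (S k ω / √k) ∂(seqLaw ρ) =
      ∫ x, g x ∂((seqLaw ρ).map fun ω => S k ω / √(k : ℝ)) := by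
    rw [integral_map hmS.aemeasurable hg.aestronglyMeasurable]
  have hp : IsProbabilityMeasure ((seqLaw ρ).map fun ω => S k ω / √(k : ℝ)) :=
    Measure.isProbabilityMeasure_map hmS.aemeasurable
  rw [e1]
  refine le_trans (B2_gen _ (gaussianReal 0 1) δ (ε / 8) (A := A) hh0 r ?_ ?_ ?_ g hb x₀ h1 h2) ?_
  · intro x
    have e2 : ((seqLaw ρ).map fun ω => S k ω / √(k : ℝ)).real (Set.Iio x) =
        (seqLaw ρ).real {ω | S k ω < x * √k} := by
      rw [measureReal_def, measureReal_def, Measure.map_apply hmS measurableSet_Iio]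
      congr 2
      ext ω
      simp only [Set.mem_preimage, Set.mem_Iio, Set.mem_ofPred_eq]
      exact div_lt_iff₀ hsq
    rw [e2, hIio]
    exact (hK k hkK x).2
  · intro x
    have e3 := gauss_interval (x - h) (x + h) (by linarith)
    have e4 : (gaussianReal 0 1).real (Set.Ico (x - h) (x + h)) ≤
        (gaussianReal 0 1).real (Set.Icc (x - h) (x + h)) :=
      measureReal_mono Set.Ico_subset_Icc_self (measure_ne_top _ _)
    linarith
  · have e5 : (gaussianReal 0 1).real (Set.Ici (A + r * h)) ≤ ε / 16 := by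
      rw [← Set.compl_Iio, probReal_compl_eq_one_sub measurableSet_Iio, hIio]
      have : (gaussianReal 0 1).real (Set.Iic B) ≤ (gaussianReal 0 1).real (Set.Iic (A + r * h)) :=
        measureReal_mono (Set.Iic_subset_Iic.mpr hr') (measure_ne_top _ _)
      linarith
    rw [hIio]
    linarith
  · have e6 : δ * (6 + 2 * r) = ε / 4 := by
      rw [hδ]; field_simp
    have e7 : 6 * h = ε / 4 := by rw [hh]; ring
    nlinarith

end Pool.Agent.BPT
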