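import Pool.Agent.MP_99a865_pr.FV.A1c

open MeasureTheory ProbabilityTheory Filter Topology
open scoped ENNReal NNReal

namespace Pool.Agent.BPT

variable {D : Set ℝ} {ρ : Measure ℝ}

lemma B3_meas_set (hD : Dom D) (w : ℝ) : MeasurableSet {y : ℝ | w + y ∈ D} :=
  (measurable_const_add w) hD.meas

lemma B3_mp (ρ : Measure ℝ) [IsProbabilityMeasure ρ] :
    MeasurePreserving (fun ω : ℕ → ℝ => ω 0) (seqLaw ρ) ρ :=
  measurePreserving_eval_infinitePi (fun _ : ℕ => ρ) 0

lemma B3_S_one (ω : ℕ → ℝ) : S 1 ω = ω 0 := by simp [S]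

lemma B3_fre_one [IsProbabilityMeasure ρ] (w : ℝ) (f : ℝ → ℝ≥0∞) (hf : Measurable f) :
    ∫⁻ y, f y ∂(fre ρ 1 w) = ∫⁻ y, f (w + y) ∂ρ := by
  unfold fre
  rw [lintegral_map hf ((measurable_S 1).const_add w)]
  have h := lintegral_map (μ := seqLaw ρ) (f := fun y => f (w + y)) (g := fun ω : ℕ → ℝ => ω 0)
    (hf.comp (measurable_const_add w)) (B3_mp ρ).measurable
  rw [(B3_mp ρ).map_eq] at h
  rw [h]
  simp only [B3_S_one]

lemma B3_meas_fre [IsProbabilityMeasure ρ] (m : ℕ) (g : ℝ → ℝ≥0∞) (hg : Measurable g) :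
    Measurable fun y => ∫⁻ z, g z ∂(fre ρ m y) :=
  (Measure.measurable_lintegral hg).comp (measurable_fre m)

lemma B3_meas_kap (hD : Dom D) [IsProbabilityMeasure ρ] (m : ℕ) (g : ℝ → ℝ≥0∞)
    (hg : Measurable g) : Measurable fun y => ∫⁻ z, g z ∂(kap D ρ m y) :=
  (Measure.measurable_lintegral hg).comp (measurable_kap hD m)

lemma B3_tele (hD : Dom D) [IsProbabilityMeasure ρ] (k : ℕ) (x : ℝ) (g : ℝ → ℝ≥0∞)
    (hg : Measurable g) (j : ℕ) (hj : j ≤ k) :
    ∫⁻ z, g z ∂(fre ρ k x) = ∫⁻ w, (∫⁻ z, g z ∂(fre ρ (k - j) w)) ∂(kap D ρ j x) +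
      ∑ i ∈ Finset.range j, ∫⁻ w, (∫⁻ y in {y | w + y ∉ D}, (∫⁻ z, g z ∂(fre ρ (k - 1 - i) (w + y))) ∂ρ)
        ∂(kap D ρ i x) := by
  induction j with
  | zero =>
    rw [Finset.range_zero, Finset.sum_empty, add_zero, Nat.sub_zero, kap_zero,
      lintegral_dirac' _ (B3_meas_fre k g hg)]
  | succ j ih =>
    rw [ih (by omega), Finset.sum_range_succ, ← add_assoc, add_right_comm]
    congr 1
    obtain ⟨m, hm⟩ : ∃ m, k - j = 1 + m := ⟨k - j - 1, by omega⟩
    have hm1 : k - (j + 1) = m := by omega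
    have hm2 : k - 1 - j = m := by omega
    rw [hm, hm1, hm2]
    have hG := B3_meas_fre (ρ := ρ) m g hg
    have e1 : ∀ w, ∫⁻ z, g z ∂(fre ρ (1 + m) w) = ∫⁻ y, (∫⁻ z, g z ∂(fre ρ m y)) ∂(kap D ρ 1 w) +
        ∫⁻ y in {y | w + y ∉ D}, (∫⁻ z, g z ∂(fre ρ m (w + y))) ∂ρ := by
      intro w
      rw [lintegral_fre_add 1 m w g hg, B3_fre_one w _ hG, lintegral_kap_one hD w _ hG]
      exact (lintegral_add_compl _ (B3_meas_set hD w)).symm
    simp only [e1]
    rw [lintegral_add_left (B3_meas_kap hD 1 _ hG), ← lintegral_kap_add hD j 1 x _ hG]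

/-! real version -/

lemma B3_bd (μ : Measure ℝ) [IsProbabilityMeasure μ] (g : ℝ → ℝ) (C : ℝ) (hC : ∀ y, |g y| ≤ C) :
    |∫ z, g z ∂μ| ≤ C := by
  have := norm_integral_le_of_norm_le_const (μ := μ) (f := g) (C := C)
    (Eventually.of_forall fun x => by rw [Real.norm_eq_abs]; exact hC x)
  rw [Real.norm_eq_abs, probReal_univ, mul_one] at this
  exact this

lemma B3_bd' (μ : Measure ℝ) (hμ : μ Set.univ ≤ 1) (g : ℝ → ℝ) (C : ℝ) (hC : ∀ y, |g y| ≤ C) :
    |∫ z, g z ∂μ| ≤ C := by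
  have : IsFiniteMeasure μ := ⟨lt_of_le_of_lt hμ ENNReal.one_lt_top⟩
  have h := norm_integral_le_of_norm_le_const (μ := μ) (f := g) (C := C)
    (Eventually.of_forall fun x => by rw [Real.norm_eq_abs]; exact hC x)
  rw [Real.norm_eq_abs] at h
  have hC0 : 0 ≤ C := le_trans (abs_nonneg _) (hC 0)
  have h1 : μ.real Set.univ ≤ 1 := by
    rw [measureReal_def]
    exact ENNReal.toReal_le_of_le_ofReal zero_le_one (by simpa using hμ)
  exact le_trans h (mul_le_of_le_one_right hC0 h1)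

lemma B3_meas_fre_real [IsProbabilityMeasure ρ] (m : ℕ) (g : ℝ → ℝ) (hg : Measurable g) (C : ℝ)
    (hC : ∀ y, |g y| ≤ C) : Measurable fun y => ∫ z, g z ∂(fre ρ m y) := by
  have e : (fun y => ∫ z, g z ∂(fre ρ m y)) = fun y =>
      (∫⁻ z, ENNReal.ofReal (g z) ∂(fre ρ m y)).toReal -
      (∫⁻ z, ENNReal.ofReal (-g z) ∂(fre ρ m y)).toReal := by
    funext y
    refine integral_eq_lintegral_pos_part_sub_lintegral_neg_part ?_
    exact Integrable.of_bound hg.aestronglyMeasurable C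
      (Eventually.of_forall fun x => by rw [Real.norm_eq_abs]; exact hC x)
  rw [e]
  exact ((B3_meas_fre m _ hg.ennreal_ofReal).ennreal_toReal).sub
    ((B3_meas_fre m _ hg.neg.ennreal_ofReal).ennreal_toReal)

lemma B3_fre_succ [IsProbabilityMeasure ρ] (m : ℕ) (w : ℝ) (g : ℝ → ℝ) (hg : Measurable g) (C : ℝ)
    (hC : ∀ y, |g y| ≤ C) :
    ∫ z, g z ∂(fre ρ (1 + m) w) = ∫ y, (∫ z, g z ∂(fre ρ m (w + y))) ∂ρ := by
  have e1 : ∫ z, g z ∂(fre ρ (1 + m) w) = ∫ ω, g (w + S (1 + m) ω) ∂(seqLaw ρ) := by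
    unfold fre
    rw [integral_map ((measurable_S _).const_add w).aemeasurable hg.aestronglyMeasurable]
  have e2 : ∀ ω : ℕ → ℝ, g (w + S (1 + m) ω) = (fun (ω η : ℕ → ℝ) => g (w + ω 0 + S m η)) ω
      (shift 1 ω) := by
    intro ω
    rw [S_shift, B3_S_one, ← add_assoc]
  have e3 := integral_split (E := ℝ) ρ 1 (fun (ω η : ℕ → ℝ) => g (w + ω 0 + S m η)) (by
      apply hg.comp
      exact ((measurable_const_add w).comp ((measurable_pi_apply 0).comp measurable_fst)).add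
        ((measurable_S m).comp measurable_snd)) C (fun ω η => hC _) (by
      intro ω ω' η h
      rw [h 0 (by norm_num)])
  rw [e1, integral_congr_ae (Eventually.of_forall e2), e3]
  have e4 : ∀ y : ℝ, ∫ z, g z ∂(fre ρ m (w + y)) = ∫ η, g (w + y + S m η) ∂(seqLaw ρ) := by
    intro y
    unfold fre
    rw [integral_map ((measurable_S _).const_add _).aemeasurable hg.aestronglyMeasurable]
  have e5 := integral_map (μ := seqLaw ρ) (φ := fun ω : ℕ → ℝ => ω 0)
    (f := fun y => ∫ z, g z ∂(fre ρ m (w + y))) (B3_mp ρ).measurable.aemeasurable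
    ((B3_meas_fre_real m g hg C hC).comp (measurable_const_add w)).aestronglyMeasurable
  rw [(B3_mp ρ).map_eq] at e5
  rw [e5]
  simp only [e4]

lemma B3_kap_one (hD : Dom D) [IsProbabilityMeasure ρ] (w : ℝ) (g : ℝ → ℝ) (hg : Measurable g) :
    ∫ y, g y ∂(kap D ρ 1 w) = ∫ y in {y | w + y ∈ D}, g (w + y) ∂ρ := by
  rw [integral_kap_eq hD 1 w g hg]
  have e : {ω : ℕ → ℝ | Alive D w 1 ω} = (fun ω : ℕ → ℝ => ω 0) ⁻¹' {y | w + y ∈ D} := by
    ext ω
    simp only [Set.mem_ofPred_eq, Set.mem_preimage]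
    constructor
    · intro h
      have := h 1 le_rfl le_rfl
      rwa [B3_S_one] at this
    · intro h j h1 h2
      have : j = 1 := le_antisymm h2 h1
      rw [this, B3_S_one]; exact h
  rw [e]
  have e5 := setIntegral_map (μ := seqLaw ρ) (g := fun ω : ℕ → ℝ => ω 0)
    (f := fun y => g (w + y)) (B3_meas_set hD w)
    (hg.comp (measurable_const_add w)).aestronglyMeasurable (B3_mp ρ).measurable.aemeasurable
  rw [(B3_mp ρ).map_eq] at e5
  rw [e5]
  simp only [B3_S_one]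

lemma B3_tele_real (hD : Dom D) [IsProbabilityMeasure ρ] (k : ℕ) (x : ℝ) (g : ℝ → ℝ)
    (hg : Measurable g) (C : ℝ) (hC : ∀ y, |g y| ≤ C) (j : ℕ) (hj : j ≤ k) :
    ∫ z, g z ∂(fre ρ k x) = ∫ w, (∫ z, g z ∂(fre ρ (k - j) w)) ∂(kap D ρ j x) +
      ∑ i ∈ Finset.range j, ∫ w, (∫ y in {y | w + y ∉ D}, (∫ z, g z ∂(fre ρ (k - 1 - i) (w + y))) ∂ρ)
        ∂(kap D ρ i x) := by
  induction j with
  | zero =>
    rw [Finset.range_zero, Finset.sum_empty, add_zero, Nat.sub_zero, kap_zero,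
      integral_dirac' _ _ (B3_meas_fre_real k g hg C hC).stronglyMeasurable]
  | succ j ih =>
    rw [ih (by omega), Finset.sum_range_succ, ← add_assoc, add_right_comm]
    congr 1
    obtain ⟨m, hm⟩ : ∃ m, k - j = 1 + m := ⟨k - j - 1, by omega⟩
    have hm1 : k - (j + 1) = m := by omega
    have hm2 : k - 1 - j = m := by omega
    rw [hm, hm1, hm2]
    have hG := B3_meas_fre_real (ρ := ρ) m g hg C hC
    have hGC : ∀ y, |∫ z, g z ∂(fre ρ m y)| ≤ C := fun y => B3_bd _ g C hC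
    have e1 : ∀ w, ∫ z, g z ∂(fre ρ (1 + m) w) = ∫ y, (∫ z, g z ∂(fre ρ m y)) ∂(kap D ρ 1 w) +
        ∫ y in {y | w + y ∉ D}, (∫ z, g z ∂(fre ρ m (w + y))) ∂ρ := by
      intro w
      rw [B3_fre_succ m w g hg C hC, B3_kap_one hD w _ hG]
      refine (integral_add_compl (B3_meas_set hD w) ?_).symm
      exact Integrable.of_bound (hG.comp (measurable_const_add w)).aestronglyMeasurable C
        (Eventually.of_forall fun y => by rw [Real.norm_eq_abs]; exact hGC _)
    have hi1 : Integrable (fun w => ∫ y, (∫ z, g z ∂(fre ρ m y)) ∂(kap D ρ 1 w)) (kap D ρ j x) :=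
      Integrable.of_bound (measurable_integral_kap hD 1 _ hG C hGC).aestronglyMeasurable C
        (Eventually.of_forall fun y => by
          rw [Real.norm_eq_abs]; exact B3_bd' _ (kap_univ_le_one 1 y) _ C hGC)
    have hi2 : Integrable (fun w => ∫ y in {y | w + y ∉ D}, (∫ z, g z ∂(fre ρ m (w + y))) ∂ρ)
        (kap D ρ j x) := by
      have e2 : (fun w => ∫ y in {y | w + y ∉ D}, (∫ z, g z ∂(fre ρ m (w + y))) ∂ρ) =
          fun w => ∫ z, g z ∂(fre ρ (1 + m) w) -
            ∫ y, (∫ z, g z ∂(fre ρ m y)) ∂(kap D ρ 1 w) := by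
        funext w
        rw [e1 w]; ring
      rw [e2]
      refine Integrable.sub ?_ hi1
      exact Integrable.of_bound (B3_meas_fre_real (1 + m) g hg C hC).aestronglyMeasurable C
        (Eventually.of_forall fun y => by rw [Real.norm_eq_abs]; exact B3_bd _ g C hC)
    simp only [e1]
    rw [integral_add hi1 hi2, ← integral_kap_add hD j 1 x _ hG C hGC]

/-- **[FV-B3]** First exit decomposition.
PROOF. Induction on `k` is possible; more directly: split according to the first time `i + 1 ≤ k` at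
which the walk is outside `D` (`i < k`), and apply the Markov property (`integral_split` or
`integral_kap_add`): on this event the walk is alive at time `i`, at position `w` (law `kap i x`), makes
the step `y` with `w + y ∉ D` and then performs `k - 1 - i` free steps.
Telescoping version: with `P`, `Q` the one-step free and killed operators,
`P^k g - Q^k g = ∑_{i<k} Q^i (P - Q) P^{k-1-i} g`. -/
theorem exit_decomp (hD : Dom D) [IsProbabilityMeasure ρ] (k : ℕ) (x : ℝ) (g : ℝ → ℝ)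
    (hg : Measurable g) (C : ℝ) (hC : ∀ y, |g y| ≤ C) :
    ∫ z, g z ∂(fre ρ k x) = ∫ z, g z ∂(kap D ρ k x) +
      ∑ i ∈ Finset.range k, ∫ w, (∫ y in {y | w + y ∉ D}, (∫ z, g z ∂(fre ρ (k - 1 - i) (w + y))) ∂ρ)
        ∂(kap D ρ i x) := by
  have h := B3_tele_real (ρ := ρ) hD k x g hg C hC k le_rfl
  rw [h, Nat.sub_self]
  congr 1
  refine integral_congr_ae (Eventually.of_forall fun w => ?_)
  show ∫ z, g z ∂(fre ρ 0 w) = g w
  rw [fre_zero (ρ := ρ), integral_dirac' _ _ hg.stronglyMeasurable]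

/-- nonnegative version -/
theorem exit_decomp_lintegral (hD : Dom D) [IsProbabilityMeasure ρ] (k : ℕ) (x : ℝ) (g : ℝ → ℝ≥0∞)
    (hg : Measurable g) :
    ∫⁻ z, g z ∂(fre ρ k x) = ∫⁻ z, g z ∂(kap D ρ k x) +
      ∑ i ∈ Finset.range k, ∫⁻ w, (∫⁻ y in {y | w + y ∉ D}, (∫⁻ z, g z ∂(fre ρ (k - 1 - i) (w + y))) ∂ρ)
        ∂(kap D ρ i x) := by
  rw [B3_tele hD k x g hg k le_rfl, Nat.sub_self]
  congr 1
  refine lintegral_congr fun w => ?_
  rw [fre_zero (ρ := ρ), lintegral_dirac' _ hg]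

/-- mass balance: the exit probabilities sum up to one minus the surviving mass -/
theorem exit_mass (hD : Dom D) [IsProbabilityMeasure ρ] (k l : ℕ) (hkl : k ≤ l) (x : ℝ) :
    ∑ i ∈ Finset.Ico k l, ∫⁻ w, ex D ρ w ∂(kap D ρ i x) + kap D ρ l x Set.univ = kap D ρ k x Set.univ := by
  induction l, hkl using Nat.le_induction with
  | base => rw [Finset.Ico_self, Finset.sum_empty, zero_add]
  | succ l hkl ih =>
    rw [Finset.sum_Ico_succ_top hkl, add_assoc, ← ih]
    congr 1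
    rw [kap_add_apply hD l 1 x Set.univ MeasurableSet.univ,
      ← lintegral_add_left (measurable_ex hD)]
    have e : ∀ w, ex D ρ w + kap D ρ 1 w Set.univ = 1 := by
      intro w
      have h1 : kap D ρ 1 w Set.univ = ρ {y | w + y ∈ D} := by
        have := lintegral_kap_one hD (ρ := ρ) w (fun _ => 1) measurable_const
        rw [lintegral_one, lintegral_one, Measure.restrict_apply_univ] at this
        exact this
      rw [h1]
      unfold ex
      rw [add_comm]
      have h2 := measure_add_measure_compl (μ := ρ) (B3_meas_set hD w)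
      rw [measure_univ] at h2
      exact h2
    simp only [e]
    rw [lintegral_one]

end Pool.Agent.BPT
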