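import Pool.Agent.MP_99a865_pr.FV.Defs

open MeasureTheory ProbabilityTheory Filter Topology
open scoped ENNReal NNReal

namespace Pool.Agent.BPT

/-! **[FV-B4a]** Elementary facts on the gaussian density and the kernels `qq`, `psi`.
`gau t x = t^{-1/2} φ(x/√t)`; with `u = x/√t`: `|∂_x gau| ≤ 1/t`, `|∂_x² gau| ≤ t^{-3/2}`,
`|∂_x³ gau| ≤ 2 t^{-2}` (as `(|u| + 1)^3 e^{-u²/2}/√(2π)` is small), `|∂_t gau| = |∂_x² gau|/2`. -/

theorem gau_pos {t : ℝ} (ht : 0 < t) (x : ℝ) : 0 < gau t x := by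
  unfold gau
  have : 0 < 2 * Real.pi * t := by have := Real.pi_pos; positivity
  exact div_pos (Real.exp_pos _) (Real.sqrt_pos.mpr this)

theorem gau_le {t : ℝ} (ht : 0 < t) (x : ℝ) : gau t x ≤ 1 / √t := by
  unfold gau
  have hpi := Real.pi_gt_three
  have h1 : √t ≤ √(2 * Real.pi * t) := Real.sqrt_le_sqrt (by nlinarith)
  have h2 : 0 < √t := Real.sqrt_pos.mpr ht
  apply div_le_div₀ zero_le_one _ h2 h1
  rw [Real.exp_le_one_iff, div_nonpos_iff]
  right
  exact ⟨by nlinarith [sq_nonneg x], by linarith⟩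

theorem gau_neg (t x : ℝ) : gau t (-x) = gau t x := by
  unfold gau
  rw [neg_sq]

lemma B4a_pdf {t : ℝ} (ht : 0 < t) (x : ℝ) : gau t x = gaussianPDFReal 0 t.toNNReal x := by
  rw [gaussianPDFReal_def, gau, Real.coe_toNNReal t ht.le]
  show _ = (√(2 * Real.pi * t))⁻¹ * Real.exp (-(x - 0) ^ 2 / (2 * t))
  rw [sub_zero, div_eq_inv_mul]

theorem integral_gau {t : ℝ} (ht : 0 < t) : ∫ x, gau t x = 1 := by
  simp only [B4a_pdf ht]
  exact integral_gaussianPDFReal_eq_one 0 (by rw [Ne, Real.toNNReal_eq_zero, not_le]; exact ht)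

theorem integrable_gau {t : ℝ} (ht : 0 < t) : Integrable (gau t) := by
  have : gau t = gaussianPDFReal 0 t.toNNReal := funext fun x => B4a_pdf ht x
  rw [this]
  exact integrable_gaussianPDFReal _ _

theorem continuous_gau (t : ℝ) : Continuous (gau t) := by
  unfold gau
  exact (Real.continuous_exp.comp (by fun_prop)).div_const _

/-- tail of the gaussian density -/
theorem integral_gau_tail {t : ℝ} (ht : 0 < t) {u : ℝ} (hu : 0 ≤ u) :
    ∫ x in Set.Ioi u, gau t x ≤ Real.exp (-u ^ 2 / (2 * t)) := by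
  have h1 : ∀ x ∈ Set.Ioi u, gau t x ≤ Real.exp (-u ^ 2 / (2 * t)) * gau t (x - u) := by
    intro x hx
    have hx' : u < x := hx
    unfold gau
    rw [mul_div_assoc', ← Real.exp_add]
    apply div_le_div_of_nonneg_right _ (Real.sqrt_nonneg _)
    apply Real.exp_le_exp.mpr
    rw [← add_div]
    apply div_le_div_of_nonneg_right _ (by linarith)
    nlinarith [mul_nonneg hu (sub_nonneg.mpr hx'.le)]
  have hi : Integrable (fun x => Real.exp (-u ^ 2 / (2 * t)) * gau t (x - u)) :=
    ((integrable_gau ht).comp_sub_right u).const_mul _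
  calc ∫ x in Set.Ioi u, gau t x
      ≤ ∫ x in Set.Ioi u, Real.exp (-u ^ 2 / (2 * t)) * gau t (x - u) :=
        setIntegral_mono_on (integrable_gau ht).integrableOn hi.integrableOn measurableSet_Ioi h1
    _ ≤ ∫ x, Real.exp (-u ^ 2 / (2 * t)) * gau t (x - u) := by
        refine setIntegral_le_integral hi (Eventually.of_forall fun x => ?_)
        exact mul_nonneg (Real.exp_pos _).le (gau_pos ht _).le
    _ = Real.exp (-u ^ 2 / (2 * t)) := by
        rw [integral_const_mul, integral_sub_right_eq_self (fun x => gau t x) u, integral_gau ht,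
          mul_one]

lemma B4a_hasDeriv {t : ℝ} (ht : 0 < t) (x : ℝ) : HasDerivAt (gau t) (-x / t * gau t x) x := by
  have h1 : HasDerivAt (fun x : ℝ => -x ^ 2 / (2 * t)) (-x / t) x := by
    have h := ((hasDerivAt_pow 2 x).neg).div_const (2 * t)
    have e : -(((2 : ℕ) : ℝ) * x ^ (2 - 1)) / (2 * t) = -x / t := by
      norm_num
      field_simp
    rw [e] at h
    exact h
  have h2 := (h1.exp).div_const (√(2 * Real.pi * t))
  exact h2.congr_deriv (by unfold gau; ring)

lemma B4a_u1 (u : ℝ) : |u| * Real.exp (-u ^ 2 / 2) ≤ 1 := by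
  have h1 : Real.exp (-u ^ 2 / 2) * Real.exp (u ^ 2 / 2) = 1 := by
    rw [← Real.exp_add, ← Real.exp_zero]; congr 1; ring
  have h2 : 1 + u ^ 2 / 2 ≤ Real.exp (u ^ 2 / 2) := by
    have := Real.add_one_le_exp (u ^ 2 / 2); linarith
  have h3 : |u| ≤ Real.exp (u ^ 2 / 2) := by
    have : |u| ≤ 1 + u ^ 2 / 2 := by nlinarith [sq_nonneg (|u| - 1), sq_abs u]
    linarith
  calc |u| * Real.exp (-u ^ 2 / 2) ≤ Real.exp (u ^ 2 / 2) * Real.exp (-u ^ 2 / 2) :=
        mul_le_mul_of_nonneg_right h3 (Real.exp_pos _).le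
    _ = 1 := by rw [mul_comm]; exact h1

lemma B4a_eq {t : ℝ} (ht : 0 < t) (x : ℝ) :
    gau t x = Real.exp (-(x / √t) ^ 2 / 2) / (√(2 * Real.pi) * √t) := by
  unfold gau
  have hpi := Real.pi_pos
  rw [Real.sqrt_mul (by positivity)]
  congr 2
  rw [div_pow, Real.sq_sqrt ht.le]
  field_simp

lemma B4a_sqrt2pi : 2 ≤ √(2 * Real.pi) := by
  apply Real.le_sqrt_of_sq_le
  have := Real.pi_gt_three
  linarith

lemma B4a_abs_mul {t : ℝ} (ht : 0 < t) (z : ℝ) : |z| * gau t z ≤ 1 := by
  rw [B4a_eq ht]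
  have h2 : 0 < √t := Real.sqrt_pos.mpr ht
  have h3 := B4a_sqrt2pi
  have h4 := B4a_u1 (z / √t)
  have h5 : |z| * (Real.exp (-(z / √t) ^ 2 / 2) / (√(2 * Real.pi) * √t)) =
      (|z / √t| * Real.exp (-(z / √t) ^ 2 / 2)) / √(2 * Real.pi) := by
    rw [abs_div, abs_of_pos h2]
    field_simp
  rw [h5, div_le_one (by linarith)]
  linarith

theorem gau_lip {t : ℝ} (ht : 0 < t) (x y : ℝ) : |gau t x - gau t y| ≤ |x - y| / t := by
  have h1 : ∀ z ∈ (Set.univ : Set ℝ), ‖deriv (gau t) z‖ ≤ 1 / t := by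
    intro z _
    rw [(B4a_hasDeriv ht z).deriv, Real.norm_eq_abs, abs_mul, abs_div, abs_neg, abs_of_pos ht,
      abs_of_pos (gau_pos ht z), div_mul_eq_mul_div]
    apply div_le_div_of_nonneg_right _ ht.le
    exact B4a_abs_mul ht z
  have h := Convex.norm_image_sub_le_of_norm_deriv_le (f := gau t) (s := Set.univ) (x := y) (y := x)
    (C := 1 / t) (fun z _ => (B4a_hasDeriv ht z).differentiableAt) h1 convex_univ (Set.mem_univ _)
    (Set.mem_univ _)
  rw [Real.norm_eq_abs, Real.norm_eq_abs] at h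
  rw [div_eq_inv_mul, ← one_div]
  exact h

/-- continuity in time, in `L¹`: `gau t ≥ √(s/t) gau s` pointwise, so
`∫ |gau t - gau s| = 2 ∫ (gau s - gau t)⁺ ≤ 2 (1 - √(s/t)) ≤ 2 (1 - s/t)`. -/
theorem integral_gau_time {s t : ℝ} (hs : 0 < s) (hst : s ≤ t) :
    ∫ x, |gau t x - gau s x| ≤ 2 * (t - s) / s := by
  have ht : 0 < t := lt_of_lt_of_le hs hst
  set c : ℝ := √(s / t) with hc
  have hst1 : s / t ≤ 1 := (div_le_one ht).mpr hst
  have hst0 : 0 < s / t := div_pos hs ht
  have hc1 : c ≤ 1 := by rw [hc]; exact Real.sqrt_le_one.mpr hst1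
  have hc2 : s / t ≤ c := by
    rw [hc]; apply Real.le_sqrt_of_sq_le; nlinarith
  have hge : ∀ x, c * gau s x ≤ gau t x := by
    intro x
    unfold gau
    have hpi := Real.pi_pos
    have e1 : c * (Real.exp (-x ^ 2 / (2 * s)) / √(2 * Real.pi * s)) =
        Real.exp (-x ^ 2 / (2 * s)) / √(2 * Real.pi * t) := by
      rw [hc, Real.sqrt_div hs.le, Real.sqrt_mul (by positivity) s, Real.sqrt_mul (by positivity) t]
      have a1 : √s ≠ 0 := (Real.sqrt_pos.mpr hs).ne'
      have a2 : √t ≠ 0 := (Real.sqrt_pos.mpr ht).ne'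
      have a3 : √(2 * Real.pi) ≠ 0 := (Real.sqrt_pos.mpr (by positivity)).ne'
      field_simp
    rw [e1]
    apply div_le_div_of_nonneg_right _ (Real.sqrt_nonneg _)
    apply Real.exp_le_exp.mpr
    rw [neg_div, neg_div, neg_le_neg_iff]
    exact div_le_div_of_nonneg_left (sq_nonneg x) (by linarith) (by linarith)
  have hit := integrable_gau ht
  have his := integrable_gau hs
  have hpt : ∀ x, |gau t x - gau s x| ≤ (gau t x - c * gau s x) + (1 - c) * gau s x := by
    intro x
    have h1 := hge x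
    have h2 : 0 ≤ (1 - c) * gau s x := mul_nonneg (by linarith) (gau_pos hs x).le
    rw [abs_le]
    constructor <;> linarith
  calc ∫ x, |gau t x - gau s x| ≤ ∫ x, ((gau t x - c * gau s x) + (1 - c) * gau s x) :=
        integral_mono (hit.sub his).abs ((hit.sub (his.const_mul c)).add (his.const_mul (1 - c))) hpt
    _ = 2 * (1 - c) := by
        rw [integral_add (f := fun x => gau t x - c * gau s x) (g := fun x => (1 - c) * gau s x)
          (hit.sub (his.const_mul c)) (his.const_mul (1 - c)),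
          integral_sub (f := gau t) (g := fun x => c * gau s x) hit (his.const_mul c),
          integral_const_mul, integral_const_mul, integral_gau ht, integral_gau hs]
        ring
    _ ≤ 2 * (t - s) / s := by
        have h3 : 2 * (1 - c) ≤ 2 * (1 - s / t) := by linarith
        have h4 : 2 * (1 - s / t) = 2 * (t - s) / t := by field_simp
        have h5 : 2 * (t - s) / t ≤ 2 * (t - s) / s :=
          div_le_div_of_nonneg_left (by linarith) hs hst
        linarith

/-- Chapman–Kolmogorov -/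
theorem gau_conv {s t : ℝ} (hs : 0 < s) (ht : 0 < t) (x z : ℝ) :
    ∫ y, gau s (y - x) * gau t (z - y) = gau (s + t) (z - x) := by
  have hst : 0 < s + t := by linarith
  set v : ℝ := s * t / (s + t) with hv
  have hv0 : 0 < v := by positivity
  set m : ℝ := (t * x + s * z) / (s + t) with hm
  have hpi := Real.pi_pos
  have key : ∀ y, gau s (y - x) * gau t (z - y) = gau v (y - m) * gau (s + t) (z - x) := by
    intro y
    unfold gau
    rw [div_mul_div_comm, div_mul_div_comm, ← Real.exp_add, ← Real.exp_add,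
      ← Real.sqrt_mul (by positivity), ← Real.sqrt_mul (by positivity)]
    congr 2
    · rw [hv, hm]
      field_simp
      ring
    · rw [hv]
      field_simp
  simp only [key]
  rw [integral_mul_const, integral_sub_right_eq_self (fun y => gau v y) m, integral_gau hv0, one_mul]

theorem gau_scale {t c : ℝ} (ht : 0 < t) (hc : 0 < c) (x : ℝ) :
    gau (t * c ^ 2) (x * c) = gau t x / c := by
  unfold gau
  have hpi := Real.pi_pos
  have e1 : √(2 * Real.pi * (t * c ^ 2)) = √(2 * Real.pi * t) * c := by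
    rw [← mul_assoc, Real.sqrt_mul (by positivity), Real.sqrt_sq hc.le]
  have e2 : -(x * c) ^ 2 / (2 * (t * c ^ 2)) = -x ^ 2 / (2 * t) := by
    field_simp
  rw [e1, e2, div_div]

/-- expectations under `gaussianReal 0 1` -/
theorem integral_gaussian_scale {t : ℝ} (ht : 0 < t) (x : ℝ) (g : ℝ → ℝ) :
    ∫ z, g (x + √t * z) ∂(gaussianReal 0 1) = ∫ y, gau t (y - x) * g y := by
  have h2 : 0 < √t := Real.sqrt_pos.mpr ht
  rw [integral_gaussianReal_eq_integral_smul one_ne_zero]
  have e1 : ∀ z, gaussianPDFReal 0 1 z • g (x + √t * z) =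
      √t * (fun w => gau t w * g (x + w)) (√t * z) := by
    intro z
    simp only [smul_eq_mul]
    rw [← mul_assoc]
    congr 1
    rw [gaussianPDFReal_def, B4a_eq ht]
    have e2 : √t * z / √t = z := by field_simp
    show (√(2 * Real.pi * ((1 : ℝ≥0) : ℝ)))⁻¹ *
      Real.exp (-(z - 0) ^ 2 / (2 * ((1 : ℝ≥0) : ℝ))) = _
    rw [e2, sub_zero, NNReal.coe_one, mul_one, mul_one]
    field_simp
  simp only [e1]
  rw [integral_const_mul, Measure.integral_comp_mul_left (fun w => gau t w * g (x + w)) (√t),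
    abs_of_pos (inv_pos.mpr h2), smul_eq_mul, ← mul_assoc, mul_inv_cancel₀ h2.ne', one_mul]
  have e3 := integral_sub_right_eq_self (μ := volume) (fun w : ℝ => gau t w * g (x + w)) x
  rw [← e3]
  refine integral_congr_ae (Eventually.of_forall fun y => ?_)
  show gau t (y - x) * g (x + (y - x)) = gau t (y - x) * g y
  rw [add_sub_cancel]

end Pool.Agent.BPT
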