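import Pool.Agent.MP_99a865_pr.FV.B4c

open MeasureTheory ProbabilityTheory Filter Topology
open scoped ENNReal NNReal

namespace Pool.Agent.BPT

/-! **[FV-B4b]** The killed heat semigroup. All statements are consequences of
`AA t f x = ∫_{y>0} (gau t (y-x) - gau t (y+x)) f y` and of the estimates of `B4a`. -/

lemma B4b_refl_meas (f : ℝ → ℝ) (hf : Measurable f) : Measurable (refl f) := by
  unfold refl
  exact Measurable.ite measurableSet_Ici hf (hf.comp measurable_neg).neg

lemma B4b_refl_le (f : ℝ → ℝ) (M : ℝ) (hM : ∀ x, |f x| ≤ M) (x : ℝ) : |refl f x| ≤ M := by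
  unfold refl
  split_ifs
  · exact hM _
  · rw [abs_neg]; exact hM _

lemma B4b_int (K h : ℝ → ℝ) (hh : Measurable h) (M : ℝ) (hM : ∀ x, |h x| ≤ M) (μ : Measure ℝ)
    (hK : Integrable K μ) : Integrable (fun y => K y * h y) μ := by
  refine Integrable.mono' (hK.norm.mul_const M) (hK.aestronglyMeasurable.mul
    hh.aestronglyMeasurable) (Eventually.of_forall fun y => ?_)
  rw [norm_mul, Real.norm_eq_abs (h y)]
  exact mul_le_mul_of_nonneg_left (hM y) (norm_nonneg _)

lemma B4b_fold (K f : ℝ → ℝ) (hf : Measurable f) (M : ℝ) (hM : ∀ x, |f x| ≤ M)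
    (hK : Integrable K) :
    ∫ y, K y * refl f y = ∫ y in Set.Ioi (0 : ℝ), (K y - K (-y)) * f y := by
  have hint := B4b_int K (refl f) (B4b_refl_meas f hf) M (B4b_refl_le f M hM) volume hK
  have hK' : Integrable (fun y => K (-y)) := hK.comp_neg
  have i1 := B4b_int K f hf M hM volume hK
  have i2 := B4b_int (fun y => -K (-y)) f hf M hM volume hK'.neg
  rw [← integral_add_compl measurableSet_Ioi (s := Set.Ioi (0 : ℝ)) hint, Set.compl_Ioi]
  have e1 : ∫ y in Set.Iic (0 : ℝ), K y * refl f y = ∫ y in Set.Ioi (0 : ℝ), -K (-y) * f y := by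
    have h := integral_comp_neg_Ioi (0 : ℝ) (fun y => K y * refl f y)
    rw [neg_zero] at h
    rw [← h]
    refine setIntegral_congr_fun measurableSet_Ioi fun y hy => ?_
    have hy0 : (0 : ℝ) < y := hy
    try simp only
    unfold refl
    rw [if_neg (by linarith), neg_neg]
    ring
  have e2 : ∫ y in Set.Ioi (0 : ℝ), K y * refl f y = ∫ y in Set.Ioi (0 : ℝ), K y * f y := by
    refine setIntegral_congr_fun measurableSet_Ioi fun y hy => ?_
    have hy0 : (0 : ℝ) < y := hy
    try simp only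
    unfold refl
    rw [if_pos hy0.le]
  rw [e1, e2, ← integral_add i1.integrableOn i2.integrableOn]
  refine setIntegral_congr_fun measurableSet_Ioi fun y _ => ?_
  try simp only
  ring

/-- `AA t f x = E refl f (x + √t G)` -/
theorem AA_eq {t : ℝ} (ht : 0 < t) (f : ℝ → ℝ) (hf : Measurable f) (M : ℝ) (hM : ∀ x, |f x| ≤ M)
    (x : ℝ) : AA t f x = ∫ z, refl f (x + √t * z) ∂(gaussianReal 0 1) := by
  rw [integral_gaussian_scale ht, B4b_fold (fun y => gau t (y - x)) f hf M hM
    ((integrable_gau ht).comp_sub_right x)]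
  unfold AA qq
  refine setIntegral_congr_fun measurableSet_Ioi fun y _ => ?_
  try simp only
  rw [show -y - x = -(y + x) by ring, gau_neg]

theorem measurable_AA {t : ℝ} (ht : 0 < t) (f : ℝ → ℝ) (hf : Measurable f) : Measurable (AA t f) := by
  unfold AA
  have h : Measurable (Function.uncurry fun x y : ℝ => qq t x y * f y) := by
    unfold qq
    refine Measurable.mul ?_ (hf.comp measurable_snd)
    exact (((continuous_gau t).measurable.comp (measurable_snd.sub measurable_fst))).sub
      ((continuous_gau t).measurable.comp (measurable_snd.add measurable_fst))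
  exact (h.stronglyMeasurable.integral_prod_right).measurable

lemma B4b_zero (t : ℝ) (f : ℝ → ℝ) : AA t f 0 = 0 := by
  unfold AA qq
  simp

lemma B4b_half {t : ℝ} (ht : 0 < t) {e : ℝ} (he : 0 ≤ e) :
    ∫ y in Set.Ioi (0 : ℝ), (gau t (y - e) - gau t (y + e)) ≤ e / √t := by
  have i1 : Integrable (fun y => gau t (y - e)) := (integrable_gau ht).comp_sub_right e
  have i2 : Integrable (fun y => gau t (y + e)) := (integrable_gau ht).comp_add_right e
  have e1 : ∫ y in Set.Ioi (0 : ℝ), gau t (y - e) = ∫ w in Set.Ioi (-e), gau t w := by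
    rw [← integral_indicator measurableSet_Ioi, ← integral_indicator measurableSet_Ioi,
      ← integral_sub_right_eq_self (μ := volume) ((Set.Ioi (-e)).indicator fun w => gau t w) e]
    refine integral_congr_ae (Eventually.of_forall fun y => ?_)
    simp only [Set.indicator, Set.mem_Ioi]
    by_cases hy : 0 < y
    · rw [if_pos hy, if_pos (by linarith)]
    · rw [if_neg hy, if_neg (by linarith)]
  have e2 : ∫ y in Set.Ioi (0 : ℝ), gau t (y + e) = ∫ w in Set.Ioi e, gau t w := by
    rw [← integral_indicator measurableSet_Ioi, ← integral_indicator measurableSet_Ioi,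
      ← integral_add_right_eq_self (μ := volume) ((Set.Ioi e).indicator fun w => gau t w) e]
    refine integral_congr_ae (Eventually.of_forall fun y => ?_)
    simp only [Set.indicator, Set.mem_Ioi]
    by_cases hy : 0 < y
    · rw [if_pos hy, if_pos (by linarith)]
    · rw [if_neg hy, if_neg (by linarith)]
  rw [integral_sub i1.integrableOn i2.integrableOn, e1, e2]
  have e3 : Set.Ioi (-e) = Set.Ioc (-e) e ∪ Set.Ioi e := by
    rw [Set.Ioc_union_Ioi_eq_Ioi (by linarith)]
  have e4 : ∫ w in Set.Ioi (-e), gau t w = (∫ w in Set.Ioc (-e) e, gau t w) +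
      ∫ w in Set.Ioi e, gau t w := by
    rw [e3, setIntegral_union (Set.Ioc_disjoint_Ioi le_rfl) measurableSet_Ioi
      (integrable_gau ht).integrableOn (integrable_gau ht).integrableOn]
  rw [e4, add_sub_cancel_right]
  have h2 : 0 < √t := Real.sqrt_pos.mpr ht
  have hb : ∀ w, gau t w ≤ 1 / (2 * √t) := by
    intro w
    rw [B4a_eq ht]
    have h3 := B4a_sqrt2pi
    have h4 : Real.exp (-(w / √t) ^ 2 / 2) ≤ 1 := by
      rw [Real.exp_le_one_iff]; nlinarith [sq_nonneg (w / √t)]
    exact div_le_div₀ zero_le_one h4 (by positivity) (mul_le_mul_of_nonneg_right h3 h2.le)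
  calc ∫ w in Set.Ioc (-e) e, gau t w ≤ ∫ _w in Set.Ioc (-e) e, 1 / (2 * √t) := by
        refine setIntegral_mono (integrable_gau ht).integrableOn ?_ hb
        exact integrableOn_const (by simp)
    _ = e / √t := by
        rw [setIntegral_const, measureReal_def, Real.volume_Ioc, ENNReal.toReal_ofReal (by linarith),
          smul_eq_mul]
        field_simp
        ring

lemma B4b_tv' {t : ℝ} (ht : 0 < t) {e : ℝ} (he : 0 ≤ e) :
    ∫ y, |gau t (y - e) - gau t (y + e)| ≤ 2 * e / √t := by
  have i1 : Integrable (fun y => gau t (y - e)) := (integrable_gau ht).comp_sub_right e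
  have i2 : Integrable (fun y => gau t (y + e)) := (integrable_gau ht).comp_add_right e
  have i3 : Integrable (fun y => |gau t (y - e) - gau t (y + e)|) := (i1.sub i2).abs
  rw [← integral_add_compl measurableSet_Ioi (s := Set.Ioi (0 : ℝ)) i3, Set.compl_Ioi]
  have h := integral_comp_neg_Ioi (0 : ℝ) (fun y => |gau t (y - e) - gau t (y + e)|)
  rw [neg_zero] at h
  rw [← h]
  have e1 : ∫ y in Set.Ioi (0 : ℝ), |gau t (-y - e) - gau t (-y + e)| =
      ∫ y in Set.Ioi (0 : ℝ), |gau t (y - e) - gau t (y + e)| := by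
    refine setIntegral_congr_fun measurableSet_Ioi fun y _ => ?_
    try simp only
    rw [show -y - e = -(y + e) by ring, show -y + e = -(y - e) by ring, gau_neg, gau_neg,
      abs_sub_comm]
  have e2 : ∫ y in Set.Ioi (0 : ℝ), |gau t (y - e) - gau t (y + e)| =
      ∫ y in Set.Ioi (0 : ℝ), (gau t (y - e) - gau t (y + e)) := by
    refine setIntegral_congr_fun measurableSet_Ioi fun y hy => ?_
    have hy0 : (0 : ℝ) < y := hy
    try simp only
    apply abs_of_nonneg
    rw [sub_nonneg]
    exact B4c_anti ht (by nlinarith [mul_nonneg he hy0.le])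
  rw [e1, e2]
  have h3 := B4b_half ht he
  have e3 : 2 * e / √t = e / √t + e / √t := by ring
  rw [e3]
  exact add_le_add h3 h3

lemma B4b_tv {t : ℝ} (ht : 0 < t) (x x' : ℝ) :
    ∫ y, |gau t (y - x) - gau t (y - x')| ≤ |x - x'| / √t := by
  have key : ∀ x x' : ℝ, x' ≤ x → ∫ y, |gau t (y - x) - gau t (y - x')| ≤ (x - x') / √t := by
    intro x x' h
    have h1 := B4b_tv' ht (e := (x - x') / 2) (by linarith)
    have h2 := integral_sub_right_eq_self (μ := volume)
      (fun y => |gau t (y - (x - x') / 2) - gau t (y + (x - x') / 2)|) ((x + x') / 2)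
    rw [← h2] at h1
    have e1 : 2 * ((x - x') / 2) / √t = (x - x') / √t := by ring
    rw [e1] at h1
    refine le_trans (le_of_eq ?_) h1
    refine integral_congr_ae (Eventually.of_forall fun y => ?_)
    try simp only
    rw [show y - (x + x') / 2 - (x - x') / 2 = y - x by ring,
      show y - (x + x') / 2 + (x - x') / 2 = y - x' by ring]
  rcases le_total x' x with h | h
  · rw [abs_of_nonneg (by linarith)]; exact key x x' h
  · rw [abs_sub_comm, abs_of_nonneg (by linarith)]
    refine le_trans (le_of_eq ?_) (key x' x h)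
    refine integral_congr_ae (Eventually.of_forall fun y => ?_)
    try simp only
    rw [abs_sub_comm]

lemma B4b_AA_gau {t : ℝ} (ht : 0 < t) (f : ℝ → ℝ) (hf : Measurable f) (M : ℝ) (hM : ∀ x, |f x| ≤ M)
    (x : ℝ) : AA t f x = ∫ y, gau t (y - x) * refl f y := by
  rw [AA_eq ht f hf M hM, integral_gaussian_scale ht]

lemma B4b_lip {t : ℝ} (ht : 0 < t) (f : ℝ → ℝ) (hf : Measurable f) (M : ℝ) (hM : ∀ x, |f x| ≤ M)
    (x x' : ℝ) : |AA t f x - AA t f x'| ≤ M * |x - x'| / √t := by
  have hM0 : 0 ≤ M := le_trans (abs_nonneg _) (hM 0)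
  have i1 : Integrable (fun y => gau t (y - x)) := (integrable_gau ht).comp_sub_right x
  have i2 : Integrable (fun y => gau t (y - x')) := (integrable_gau ht).comp_sub_right x'
  have hr := B4b_refl_meas f hf
  have hrM := B4b_refl_le f M hM
  rw [B4b_AA_gau ht f hf M hM, B4b_AA_gau ht f hf M hM, ← integral_sub
    (B4b_int _ _ hr M hrM _ i1) (B4b_int _ _ hr M hrM _ i2)]
  calc |∫ y, (gau t (y - x) * refl f y - gau t (y - x') * refl f y)|
      ≤ ∫ y, |gau t (y - x) * refl f y - gau t (y - x') * refl f y| := abs_integral_le_integral_abs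
    _ ≤ ∫ y, |gau t (y - x) - gau t (y - x')| * M := by
        refine integral_mono ((B4b_int _ _ hr M hrM _ i1).sub (B4b_int _ _ hr M hrM _ i2)).abs
          ((i1.sub i2).abs.mul_const M) fun y => ?_
        simp only
        rw [← sub_mul, abs_mul]
        exact mul_le_mul_of_nonneg_left (hrM y) (abs_nonneg _)
    _ = M * ∫ y, |gau t (y - x) - gau t (y - x')| := by rw [integral_mul_const, mul_comm]
    _ ≤ M * (|x - x'| / √t) := mul_le_mul_of_nonneg_left (B4b_tv ht x x') hM0
    _ = M * |x - x'| / √t := by ring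

theorem abs_AA_le {t : ℝ} (ht : 0 < t) (f : ℝ → ℝ) (hf : Measurable f) (M : ℝ) (hM : ∀ x, |f x| ≤ M)
    (x : ℝ) : |AA t f x| ≤ M ∧ |AA t f x| ≤ M * |x| / √t := by
  constructor
  · rw [AA_eq ht f hf M hM]
    have h := norm_integral_le_of_norm_le_const (μ := gaussianReal 0 1)
      (f := fun z => refl f (x + √t * z)) (C := M)
      (Eventually.of_forall fun z => by rw [Real.norm_eq_abs]; exact B4b_refl_le f M hM _)
    rw [Real.norm_eq_abs, probReal_univ, mul_one] at h
    exact h
  · have h := B4b_lip ht f hf M hM x 0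
    have h0 : AA t f 0 = 0 := B4b_zero t f
    rw [h0, sub_zero, sub_zero] at h
    exact h

/-- smoothing -/
theorem AA_lip {t : ℝ} (ht : 0 < t) (f : ℝ → ℝ) (hf : Measurable f) (M : ℝ) (hM : ∀ x, |f x| ≤ M)
    (x x' : ℝ) : |AA t f x - AA t f x'| ≤ M * |x - x'| / √t := by
  exact B4b_lip ht f hf M hM x x'

/-- comparison; only the values on `(0, ∞)` matter -/
theorem AA_sub_le {t : ℝ} (ht : 0 < t) (f g : ℝ → ℝ) (hf : Measurable f) (hg : Measurable g)
    (M : ℝ) (hM : ∀ x, |f x| ≤ M) (hM' : ∀ x, |g x| ≤ M) (ε : ℝ) (h : ∀ x > 0, |f x - g x| ≤ ε)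
    (x : ℝ) : |AA t f x - AA t g x| ≤ ε := by
  have hε : 0 ≤ ε := le_trans (abs_nonneg _) (h 1 one_pos)
  have hk : Measurable fun y : ℝ => if 0 < y then f y - g y else 0 :=
    Measurable.ite measurableSet_Ioi (hf.sub hg) measurable_const
  have hkb : ∀ y : ℝ, |if 0 < y then f y - g y else 0| ≤ ε := by
    intro y
    split_ifs with hy
    · exact h y hy
    · rw [abs_zero]; exact hε
  have e : AA t f x - AA t g x = AA t (fun y => if 0 < y then f y - g y else 0) x := by
    unfold AA
    have i1 : Integrable (fun y => gau t (y - x)) := (integrable_gau ht).comp_sub_right x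
    have i2 : Integrable (fun y => gau t (y + x)) := (integrable_gau ht).comp_add_right x
    have iq : Integrable (fun y => qq t x y) := i1.sub i2
    rw [← integral_sub (B4b_int _ f hf M hM _ iq).integrableOn (B4b_int _ g hg M hM' _ iq).integrableOn]
    refine setIntegral_congr_fun measurableSet_Ioi fun y hy => ?_
    try simp only
    rw [if_pos (show 0 < y from hy)]
    ring
  rw [e]
  exact (abs_AA_le ht _ hk ε hkb x).1

lemma B4b_iz : Integrable (fun z : ℝ => z) (gaussianReal 0 1) :=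
  (memLp_id_gaussianReal 1).integrable le_rfl

lemma B4b_iz2 : Integrable (fun z : ℝ => z ^ 2) (gaussianReal 0 1) :=
  (memLp_id_gaussianReal 2).integrable_sq

lemma B4b_z2 : ∫ z, z ^ 2 ∂(gaussianReal 0 1) = 1 := by
  have h := variance_fun_id_gaussianReal (μ := 0) (v := 1)
  rw [variance_eq_integral (by fun_prop)] at h
  simpa using h

lemma B4b_DD {t : ℝ} (ht : 0 < t) (f : ℝ → ℝ) (hf : Measurable f) (M : ℝ) (hM : ∀ x, |f x| ≤ M) :
    DD t f = ∫ z, z / √t * refl f (√t * z) ∂(gaussianReal 0 1) := by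
  have h2 : 0 < √t := Real.sqrt_pos.mpr ht
  have hi : Integrable (fun y : ℝ => y / t * gau t y) := by
    have h : Integrable (fun y : ℝ => y * Real.exp (-(1 / (2 * t)) * y ^ 2)) :=
      integrable_mul_exp_neg_mul_sq (by positivity)
    have h' := h.const_mul (1 / t / √(2 * Real.pi * t))
    refine h'.congr (Eventually.of_forall fun y => ?_)
    try simp only
    unfold gau
    have e : -(1 / (2 * t)) * y ^ 2 = -y ^ 2 / (2 * t) := by ring
    rw [e]
    ring
  have h1 := integral_gaussian_scale ht 0 (fun y => y / t * refl f y)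
  have e1 : ∫ z, z / √t * refl f (√t * z) ∂(gaussianReal 0 1) =
      ∫ z, (fun y => y / t * refl f y) (0 + √t * z) ∂(gaussianReal 0 1) := by
    refine integral_congr_ae (Eventually.of_forall fun z => ?_)
    try simp only
    rw [zero_add]
    congr 1
    have : √t * √t = t := Real.mul_self_sqrt ht.le
    rw [div_eq_div_iff h2.ne' ht.ne']
    nth_rewrite 1 [← this]
    ring
  have e2 : ∫ y, gau t (y - 0) * (fun y => y / t * refl f y) y =
      ∫ y, (y / t * gau t y) * refl f y := by
    refine integral_congr_ae (Eventually.of_forall fun y => ?_)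
    try simp only
    rw [sub_zero]
    ring
  rw [e1, h1, e2, B4b_fold _ f hf M hM hi]
  unfold DD psi
  refine setIntegral_congr_fun measurableSet_Ioi fun y _ => ?_
  try simp only
  rw [gau_neg]
  ring

lemma B4b_AA_exp {t : ℝ} (ht : 0 < t) (f : ℝ → ℝ) (hf : Measurable f) (M : ℝ) (hM : ∀ x, |f x| ≤ M)
    (x : ℝ) : AA t f x = ∫ z, Real.exp (x / √t * z - (x / √t) ^ 2 / 2) * refl f (√t * z)
      ∂(gaussianReal 0 1) := by
  have h2 : 0 < √t := Real.sqrt_pos.mpr ht
  rw [B4b_AA_gau ht f hf M hM]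
  have h1 := integral_gaussian_scale ht 0
    (fun y => Real.exp (x / √t * (y / √t) - (x / √t) ^ 2 / 2) * refl f y)
  have e1 : ∫ z, Real.exp (x / √t * z - (x / √t) ^ 2 / 2) * refl f (√t * z)
      ∂(gaussianReal 0 1) = ∫ z, (fun y => Real.exp (x / √t * (y / √t) - (x / √t) ^ 2 / 2) *
        refl f y) (0 + √t * z) ∂(gaussianReal 0 1) := by
    refine integral_congr_ae (Eventually.of_forall fun z => ?_)
    try simp only
    rw [zero_add, mul_div_cancel_left₀ z h2.ne']
  rw [e1, h1]
  refine integral_congr_ae (Eventually.of_forall fun y => ?_)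
  try simp only
  rw [← mul_assoc]
  congr 1
  unfold gau
  rw [div_mul_eq_mul_div, ← Real.exp_add]
  congr 2
  have : √t * √t = t := Real.mul_self_sqrt ht.le
  have e3 : x / √t * (y / √t) = x * y / t := by rw [div_mul_div_comm, this]
  have e4 : (x / √t) ^ 2 = x ^ 2 / t := by rw [div_pow, Real.sq_sqrt ht.le]
  rw [e3, e4]
  field_simp
  ring

lemma B4b_shift (a : ℝ) (F : ℝ → ℝ) :
    ∫ z, Real.exp (a * z - a ^ 2 / 2) * F z ∂(gaussianReal 0 1) = ∫ z, F (a + z) ∂(gaussianReal 0 1) := by
  have h1 := integral_gaussian_scale one_pos a F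
  have h2 := integral_gaussian_scale one_pos 0 (fun z => Real.exp (a * z - a ^ 2 / 2) * F z)
  simp only [Real.sqrt_one, one_mul, zero_add, sub_zero] at h1 h2
  rw [h1, h2]
  refine integral_congr_ae (Eventually.of_forall fun y => ?_)
  try simp only
  rw [← mul_assoc]
  congr 1
  unfold gau
  rw [div_mul_eq_mul_div, ← Real.exp_add]
  congr 2
  ring

lemma B4b_iX (a : ℝ) : Integrable (fun z : ℝ => Real.exp (a * z - a ^ 2 / 2)) (gaussianReal 0 1) := by
  have h := (integrable_exp_mul_gaussianReal (μ := 0) (v := 1) a).mul_const (Real.exp (-(a ^ 2 / 2)))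
  refine h.congr (Eventually.of_forall fun z => ?_)
  try simp only
  rw [← Real.exp_add]
  congr 1

lemma B4b_iX2 (a : ℝ) : Integrable (fun z : ℝ => Real.exp (a * z - a ^ 2 / 2) ^ 2)
    (gaussianReal 0 1) := by
  have h := (integrable_exp_mul_gaussianReal (μ := 0) (v := 1) (2 * a)).mul_const
    (Real.exp (-(a ^ 2)))
  refine h.congr (Eventually.of_forall fun z => ?_)
  try simp only
  rw [← Real.exp_add, ← Real.exp_nat_mul]
  congr 1
  push_cast
  ring

lemma B4b_iXz (a : ℝ) : Integrable (fun z : ℝ => Real.exp (a * z - a ^ 2 / 2) * z)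
    (gaussianReal 0 1) := by
  refine Integrable.mono' ((B4b_iX2 a).add B4b_iz2) ?_ (Eventually.of_forall fun z => ?_)
  · exact ((by fun_prop : Measurable fun z : ℝ => Real.exp (a * z - a ^ 2 / 2) * z)).aestronglyMeasurable
  · rw [Real.norm_eq_abs, abs_mul, abs_of_pos (Real.exp_pos _)]
    simp only [Pi.add_apply]
    have h0 := Real.exp_pos (a * z - a ^ 2 / 2)
    nlinarith [sq_nonneg (Real.exp (a * z - a ^ 2 / 2) - |z|), sq_abs z, abs_nonneg z]

lemma B4b_X1 (a : ℝ) : ∫ z, Real.exp (a * z - a ^ 2 / 2) ∂(gaussianReal 0 1) = 1 := by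
  have h := B4b_shift a (fun _ => 1)
  simpa using h

lemma B4b_z1 : ∫ z, z ∂(gaussianReal 0 1) = 0 := integral_id_gaussianReal

lemma B4b_Xz (a : ℝ) : ∫ z, Real.exp (a * z - a ^ 2 / 2) * z ∂(gaussianReal 0 1) = a := by
  rw [B4b_shift a (fun z => z), integral_add (integrable_const _) B4b_iz, B4b_z1, integral_const]
  simp

lemma B4b_X2 (a : ℝ) : ∫ z, Real.exp (a * z - a ^ 2 / 2) ^ 2 ∂(gaussianReal 0 1) =
    Real.exp (a ^ 2) := by
  have h := B4b_shift a (fun z => Real.exp (a * z - a ^ 2 / 2))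
  have e1 : ∫ z, Real.exp (a * z - a ^ 2 / 2) ^ 2 ∂(gaussianReal 0 1) =
      ∫ z, Real.exp (a * z - a ^ 2 / 2) * Real.exp (a * z - a ^ 2 / 2) ∂(gaussianReal 0 1) := by
    simp only [sq]
  have e2 : ∀ z, Real.exp (a * (a + z) - a ^ 2 / 2) = Real.exp (a ^ 2) *
      Real.exp (a * z - a ^ 2 / 2) := by
    intro z
    rw [← Real.exp_add]
    congr 1
    ring
  rw [e1, h]
  simp only [e2]
  rw [integral_const_mul, B4b_X1, mul_one]

lemma B4b_Y (a : ℝ) (ha : 0 ≤ a) (ha1 : a ≤ 1) :
    ∫ z, |Real.exp (a * z - a ^ 2 / 2) - 1 - a * z| ∂(gaussianReal 0 1) ≤ a ^ 2 := by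
  rcases ha.eq_or_lt with h0 | h0
  · rw [← h0]; simp
  have iX := B4b_iX a
  have iX2 := B4b_iX2 a
  have iXz := B4b_iXz a
  have iz := B4b_iz
  have iz2 := B4b_iz2
  have i1 : Integrable (fun _ : ℝ => (1 : ℝ)) (gaussianReal 0 1) := integrable_const _
  have eY : ∫ z, (Real.exp (a * z - a ^ 2 / 2) - 1 - a * z) ^ 2 ∂(gaussianReal 0 1) =
      Real.exp (a ^ 2) - 1 - a ^ 2 := by
    have e1 : ∀ z, (Real.exp (a * z - a ^ 2 / 2) - 1 - a * z) ^ 2 =
        (Real.exp (a * z - a ^ 2 / 2) ^ 2 + 1 + a ^ 2 * z ^ 2) +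
        ((-2) * Real.exp (a * z - a ^ 2 / 2) + (-2 * a) * (Real.exp (a * z - a ^ 2 / 2) * z) +
          (2 * a) * z) := by
      intro z; ring
    simp only [e1]
    have j1 : Integrable (fun z => Real.exp (a * z - a ^ 2 / 2) ^ 2 + 1) (gaussianReal 0 1) :=
      iX2.add i1
    have j2 : Integrable (fun z => Real.exp (a * z - a ^ 2 / 2) ^ 2 + 1 + a ^ 2 * z ^ 2)
        (gaussianReal 0 1) := j1.add (iz2.const_mul _)
    have j3 : Integrable (fun z => (-2) * Real.exp (a * z - a ^ 2 / 2) +
        (-2 * a) * (Real.exp (a * z - a ^ 2 / 2) * z)) (gaussianReal 0 1) :=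
      (iX.const_mul _).add (iXz.const_mul _)
    have j4 : Integrable (fun z : ℝ => (2 * a) * z) (gaussianReal 0 1) := iz.const_mul _
    have j5 : Integrable (fun z => (-2) * Real.exp (a * z - a ^ 2 / 2) +
        (-2 * a) * (Real.exp (a * z - a ^ 2 / 2) * z) + (2 * a) * z) (gaussianReal 0 1) :=
      j3.add j4
    rw [integral_add j2 j5, integral_add j1 (iz2.const_mul _),
      integral_add iX2 i1, integral_add j3 j4,
      integral_add (iX.const_mul _) (iXz.const_mul _), integral_const_mul, integral_const_mul,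
      integral_const_mul, integral_const_mul, B4b_X2, B4b_X1, B4b_Xz, B4b_z2, B4b_z1,
      integral_const]
    simp
    ring
  have ha2 : 0 < a ^ 2 := by positivity
  have iY : Integrable (fun z : ℝ => Real.exp (a * z - a ^ 2 / 2) - 1 - a * z)
      (gaussianReal 0 1) := (iX.sub i1).sub (iz.const_mul a)
  have iY2 : Integrable (fun z : ℝ => (Real.exp (a * z - a ^ 2 / 2) - 1 - a * z) ^ 2)
      (gaussianReal 0 1) := by
    have j1 : Integrable (fun z => 3 * (Real.exp (a * z - a ^ 2 / 2) ^ 2 + 1 + a ^ 2 * z ^ 2))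
        (gaussianReal 0 1) := (((iX2.add i1).add (iz2.const_mul _)).const_mul 3)
    refine Integrable.mono' j1 ?_ (Eventually.of_forall fun z => ?_)
    · exact ((by fun_prop : Measurable fun z : ℝ =>
        (Real.exp (a * z - a ^ 2 / 2) - 1 - a * z) ^ 2)).aestronglyMeasurable
    · rw [Real.norm_eq_abs, abs_of_nonneg (sq_nonneg _)]
      set X := Real.exp (a * z - a ^ 2 / 2)
      nlinarith [sq_nonneg (X + 1), sq_nonneg (X + a * z), sq_nonneg (1 - a * z)]
  have hpt : ∀ z : ℝ, |Real.exp (a * z - a ^ 2 / 2) - 1 - a * z| ≤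
      a ^ 2 / 2 + (Real.exp (a * z - a ^ 2 / 2) - 1 - a * z) ^ 2 * (1 / (2 * a ^ 2)) := by
    intro z
    set Y := Real.exp (a * z - a ^ 2 / 2) - 1 - a * z
    have h := sq_nonneg (|Y| - a ^ 2)
    have e1 : a ^ 2 / 2 + Y ^ 2 * (1 / (2 * a ^ 2)) - |Y| = (|Y| - a ^ 2) ^ 2 / (2 * a ^ 2) := by
      rw [← sq_abs Y]
      field_simp
      ring
    have : 0 ≤ (|Y| - a ^ 2) ^ 2 / (2 * a ^ 2) := by positivity
    linarith
  calc ∫ z, |Real.exp (a * z - a ^ 2 / 2) - 1 - a * z| ∂(gaussianReal 0 1)
      ≤ ∫ z, (a ^ 2 / 2 + (Real.exp (a * z - a ^ 2 / 2) - 1 - a * z) ^ 2 * (1 / (2 * a ^ 2)))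
          ∂(gaussianReal 0 1) :=
        integral_mono iY.abs ((integrable_const _).add (iY2.mul_const _)) hpt
    _ = a ^ 2 / 2 + (Real.exp (a ^ 2) - 1 - a ^ 2) * (1 / (2 * a ^ 2)) := by
        rw [integral_add (integrable_const _) (iY2.mul_const _), integral_mul_const, eY,
          integral_const, probReal_univ, smul_eq_mul, one_mul]
    _ ≤ a ^ 2 := by
        have h3 := Real.abs_exp_sub_one_sub_id_le (x := a ^ 2) (by
          rw [abs_of_pos ha2]; nlinarith)
        have h4 := le_of_abs_le h3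
        have h5 : (Real.exp (a ^ 2) - 1 - a ^ 2) * (1 / (2 * a ^ 2)) ≤
            (a ^ 2) ^ 2 * (1 / (2 * a ^ 2)) := mul_le_mul_of_nonneg_right h4 (by positivity)
        have h6 : (a ^ 2) ^ 2 * (1 / (2 * a ^ 2)) = a ^ 2 / 2 := by
          field_simp
        linarith

/-- first order expansion at zero: `AA t f 0 = 0`, derivative `DD t f`, second derivative bounded by
`2 M/t` (`∫ |∂_x² gau| ≤ 1/t`) -/
theorem AA_expand {t : ℝ} (ht : 0 < t) (f : ℝ → ℝ) (hf : Measurable f) (M : ℝ) (hM : ∀ x, |f x| ≤ M)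
    {x : ℝ} (hx : 0 ≤ x) : |AA t f x - x * DD t f| ≤ 2 * M * x ^ 2 / t := by
  have hM0 : 0 ≤ M := le_trans (abs_nonneg _) (hM 0)
  have h2 : 0 < √t := Real.sqrt_pos.mpr ht
  set a : ℝ := x / √t with ha
  have ha0 : 0 ≤ a := div_nonneg hx h2.le
  have hxa : x ^ 2 / t = a ^ 2 := by rw [ha, div_pow, Real.sq_sqrt ht.le]
  have hgoal : 2 * M * x ^ 2 / t = 2 * M * a ^ 2 := by rw [← hxa]; ring
  rw [hgoal]
  have hdd : x * DD t f = ∫ z, (a * z) * refl f (√t * z) ∂(gaussianReal 0 1) := by
    rw [B4b_DD ht f hf M hM, ← integral_const_mul]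
    refine integral_congr_ae (Eventually.of_forall fun z => ?_)
    try simp only
    rw [ha]
    field_simp
  have hr : Measurable fun z => refl f (√t * z) :=
    (B4b_refl_meas f hf).comp (measurable_const_mul _)
  have hrM : ∀ z, |refl f (√t * z)| ≤ M := fun z => B4b_refl_le f M hM _
  rcases le_or_gt a 1 with h1 | h1
  · rw [B4b_AA_exp ht f hf M hM x, hdd, ← ha]
    have h0 : ∫ z, refl f (√t * z) ∂(gaussianReal 0 1) = 0 := by
      have := B4b_zero t f
      rw [AA_eq ht f hf M hM] at this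
      simpa using this
    have iX := B4b_iX a
    have iz : Integrable (fun z : ℝ => a * z) (gaussianReal 0 1) := B4b_iz.const_mul a
    have j1 := B4b_int _ _ hr M hrM _ iX
    have j2 := B4b_int _ _ hr M hrM _ iz
    have j3 := B4b_int _ _ hr M hrM _ (integrable_const (μ := gaussianReal 0 1) (1 : ℝ))
    have e1 : ∫ z, Real.exp (a * z - a ^ 2 / 2) * refl f (√t * z) ∂(gaussianReal 0 1) -
        ∫ z, (a * z) * refl f (√t * z) ∂(gaussianReal 0 1) =
        ∫ z, (Real.exp (a * z - a ^ 2 / 2) - 1 - a * z) * refl f (√t * z) ∂(gaussianReal 0 1) := by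
      have e2 : ∫ z, (1 : ℝ) * refl f (√t * z) ∂(gaussianReal 0 1) = 0 := by
        simpa using h0
      have j12 : Integrable (fun z => Real.exp (a * z - a ^ 2 / 2) * refl f (√t * z) -
        (a * z) * refl f (√t * z)) (gaussianReal 0 1) := j1.sub j2
      rw [← integral_sub j1 j2]
      have e3 : ∫ z, (Real.exp (a * z - a ^ 2 / 2) * refl f (√t * z) -
          (a * z) * refl f (√t * z)) ∂(gaussianReal 0 1) =
          (∫ z, (Real.exp (a * z - a ^ 2 / 2) * refl f (√t * z) -
          (a * z) * refl f (√t * z)) ∂(gaussianReal 0 1)) -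
          ∫ z, (1 : ℝ) * refl f (√t * z) ∂(gaussianReal 0 1) := by
        rw [e2, sub_zero]
      rw [e3, ← integral_sub j12 j3]
      refine integral_congr_ae (Eventually.of_forall fun z => ?_)
      simp only
      ring
    rw [e1]
    have iY : Integrable (fun z : ℝ => Real.exp (a * z - a ^ 2 / 2) - 1 - a * z)
        (gaussianReal 0 1) := (iX.sub (integrable_const _)).sub iz
    calc |∫ z, (Real.exp (a * z - a ^ 2 / 2) - 1 - a * z) * refl f (√t * z) ∂(gaussianReal 0 1)|
        ≤ ∫ z, |(Real.exp (a * z - a ^ 2 / 2) - 1 - a * z) * refl f (√t * z)|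
            ∂(gaussianReal 0 1) := abs_integral_le_integral_abs
      _ ≤ ∫ z, |Real.exp (a * z - a ^ 2 / 2) - 1 - a * z| * M ∂(gaussianReal 0 1) := by
          refine integral_mono (B4b_int _ _ hr M hrM _ iY).abs (iY.abs.mul_const M) fun z => ?_
          simp only
          rw [abs_mul]
          exact mul_le_mul_of_nonneg_left (hrM z) (abs_nonneg _)
      _ = M * ∫ z, |Real.exp (a * z - a ^ 2 / 2) - 1 - a * z| ∂(gaussianReal 0 1) := by
          rw [integral_mul_const, mul_comm]
      _ ≤ M * a ^ 2 := mul_le_mul_of_nonneg_left (B4b_Y a ha0 h1) hM0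
      _ ≤ 2 * M * a ^ 2 := by nlinarith [mul_nonneg hM0 (sq_nonneg a)]
  · have b1 := (abs_AA_le ht f hf M hM x).1
    have b2 : |x * DD t f| ≤ M * a := by
      rw [hdd]
      have iz : Integrable (fun z : ℝ => a * z) (gaussianReal 0 1) := B4b_iz.const_mul a
      calc |∫ z, (a * z) * refl f (√t * z) ∂(gaussianReal 0 1)|
          ≤ ∫ z, |(a * z) * refl f (√t * z)| ∂(gaussianReal 0 1) := abs_integral_le_integral_abs
        _ ≤ ∫ z, (a * M) * ((1 + z ^ 2) / 2) ∂(gaussianReal 0 1) := by
            refine integral_mono (B4b_int _ _ hr M hrM _ iz).abs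
              ((((integrable_const _).add B4b_iz2).div_const 2).const_mul _) fun z => ?_
            simp only
            rw [abs_mul, abs_mul, abs_of_nonneg ha0]
            have h3 : |z| ≤ (1 + z ^ 2) / 2 := by nlinarith [sq_nonneg (|z| - 1), sq_abs z]
            have h4 := hrM z
            calc a * |z| * |refl f (√t * z)| ≤ a * ((1 + z ^ 2) / 2) * M :=
                  mul_le_mul (mul_le_mul_of_nonneg_left h3 ha0) h4 (abs_nonneg _) (by positivity)
              _ = a * M * ((1 + z ^ 2) / 2) := by ring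
        _ = M * a := by
            rw [integral_const_mul, integral_div, integral_add (integrable_const _) B4b_iz2,
              B4b_z2, integral_const, probReal_univ, smul_eq_mul]
            ring
    have b3 := abs_sub (AA t f x) (x * DD t f)
    have b4 : M + M * a ≤ 2 * M * a ^ 2 := by nlinarith [mul_nonneg hM0 ha0]
    linarith

end Pool.Agent.BPT
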