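import Pool.Agent.MP_99a865_pr.FV.B4a

open MeasureTheory ProbabilityTheory Filter Topology
open scoped ENNReal NNReal

namespace Pool.Agent.BPT

/-! **[FV-B4c]** see the header of `B4a` for the derivatives of `gau`. -/

/-! The kernels. `c ∈ (0, 1]` is a lower bound for the times. -/

/-- `gau t` decreases in `|x|` -/
lemma B4c_anti {t a b : ℝ} (ht : 0 < t) (h : a ^ 2 ≤ b ^ 2) : gau t b ≤ gau t a := by
  unfold gau
  apply div_le_div_of_nonneg_right _ (Real.sqrt_nonneg _)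
  apply Real.exp_le_exp.mpr
  exact div_le_div_of_nonneg_right (by linarith) (by linarith)

lemma B4c_anti_lt {t a b : ℝ} (ht : 0 < t) (h : a ^ 2 < b ^ 2) : gau t b < gau t a := by
  unfold gau
  have hpi := Real.pi_pos
  apply div_lt_div_of_pos_right _ (Real.sqrt_pos.mpr (by positivity))
  apply Real.exp_lt_exp.mpr
  exact div_lt_div_of_pos_right (by linarith) (by linarith)

lemma B4c_e (u : ℝ) (P : ℝ) (hP : P ≤ 1 + u ^ 2 / 2 + u ^ 4 / 8) : P * Real.exp (-u ^ 2 / 2) ≤ 1 := by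
  have h1 : Real.exp (u ^ 2 / 2) * Real.exp (-u ^ 2 / 2) = 1 := by
    rw [← Real.exp_add, ← Real.exp_zero]; congr 1; ring
  have h2 : 1 + u ^ 2 / 2 + u ^ 4 / 8 ≤ Real.exp (u ^ 2 / 2) := by
    have := Real.quadratic_le_exp_of_nonneg (show 0 ≤ u ^ 2 / 2 by positivity)
    have e : (u ^ 2 / 2) ^ 2 / 2 = u ^ 4 / 8 := by ring
    rw [e] at this
    exact this
  calc P * Real.exp (-u ^ 2 / 2) ≤ Real.exp (u ^ 2 / 2) * Real.exp (-u ^ 2 / 2) :=
        mul_le_mul_of_nonneg_right (le_trans hP h2) (Real.exp_pos _).le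
    _ = 1 := h1

lemma B4c_u2 (u : ℝ) : u ^ 2 * Real.exp (-u ^ 2 / 2) ≤ 1 := by
  apply B4c_e
  nlinarith [sq_nonneg (u ^ 2 - 2), sq_nonneg u]

lemma B4c_u3 (u : ℝ) : |u| ^ 3 * Real.exp (-u ^ 2 / 2) ≤ 2 := by
  have h := B4c_e u (|u| ^ 3 / 2) (by
    have h0 := abs_nonneg u
    have h2 : u ^ 2 = |u| ^ 2 := (sq_abs u).symm
    have h4 : u ^ 4 = |u| ^ 4 := by
      have : u ^ 4 = (u ^ 2) ^ 2 := by ring
      rw [this, h2]; ring
    rw [h2, h4]
    nlinarith [mul_nonneg (sq_nonneg (|u|)) (sq_nonneg (|u| / 2 - 1))])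
  linarith

lemma B4c_inv {c t : ℝ} (hc : 0 < c) (hc1 : c ≤ 1) (ht : c ≤ t) :
    1 / (t * √t) ≤ 1 / c ^ 2 := by
  have ht0 : 0 < t := lt_of_lt_of_le hc ht
  apply one_div_le_one_div_of_le (by positivity)
  have h1 : c ≤ √t := by
    apply Real.le_sqrt_of_sq_le
    nlinarith
  calc c ^ 2 = c * c := sq c
    _ ≤ t * √t := mul_le_mul ht h1 hc.le ht0.le

lemma B4c_inv1 {c t : ℝ} (hc : 0 < c) (hc1 : c ≤ 1) (ht : c ≤ t) : 1 / t ≤ 1 / c ^ 2 := by
  apply one_div_le_one_div_of_le (by positivity)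
  nlinarith

lemma B4c_inv2 {c t : ℝ} (hc : 0 < c) (ht : c ≤ t) : 1 / t ^ 2 ≤ 1 / c ^ 2 := by
  apply one_div_le_one_div_of_le (by positivity)
  nlinarith

/-- `∂_x² gau` -/
lemma B4c_dd {t : ℝ} (ht : 0 < t) (x : ℝ) :
    |(x ^ 2 / t ^ 2 - 1 / t) * gau t x| ≤ 1 / (t * √t) := by
  rw [B4a_eq ht]
  have h2 : 0 < √t := Real.sqrt_pos.mpr ht
  have h3 := B4a_sqrt2pi
  have hu := B4c_u2 (x / √t)
  have hx : x ^ 2 / t ^ 2 = (x / √t) ^ 2 / t := by
    rw [div_pow, Real.sq_sqrt ht.le]; field_simp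
  set u := x / √t with hu'
  set E := Real.exp (-u ^ 2 / 2) with hE
  have hE0 : 0 < E := Real.exp_pos _
  have hE1 : E ≤ 1 := by
    rw [hE, Real.exp_le_one_iff]; nlinarith [sq_nonneg u]
  have e1 : (x ^ 2 / t ^ 2 - 1 / t) * (E / (√(2 * Real.pi) * √t)) =
      ((u ^ 2 * E - E) / √(2 * Real.pi)) * (1 / (t * √t)) := by
    rw [hx]; field_simp
  rw [e1, abs_mul, abs_of_pos (show 0 < 1 / (t * √t) by positivity)]
  have h5 : |(u ^ 2 * E - E) / √(2 * Real.pi)| ≤ 1 := by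
    rw [abs_div, abs_of_pos (show 0 < √(2 * Real.pi) by linarith), div_le_one (by linarith), abs_le]
    have : 0 ≤ u ^ 2 * E := by positivity
    constructor <;> linarith
  exact mul_le_of_le_one_left (by positivity) h5

/-- `∂_x gau` is Lipschitz -/
lemma B4c_dlip {t : ℝ} (ht : 0 < t) (x y : ℝ) :
    |(-x / t * gau t x) - (-y / t * gau t y)| ≤ 1 / (t * √t) * |x - y| := by
  have hd : ∀ z : ℝ, HasDerivAt (fun z => -z / t * gau t z) ((z ^ 2 / t ^ 2 - 1 / t) * gau t z) z := by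
    intro z
    have h1 : HasDerivAt (fun z : ℝ => -z / t) (-1 / t) z := ((hasDerivAt_id z).neg).div_const t
    exact (h1.mul (B4a_hasDeriv ht z)).congr_deriv (by field_simp; ring)
  have h := Convex.norm_image_sub_le_of_norm_deriv_le (f := fun z => -z / t * gau t z)
    (s := Set.univ) (x := y) (y := x) (C := 1 / (t * √t))
    (fun z _ => (hd z).differentiableAt) (fun z _ => by
      rw [(hd z).deriv, Real.norm_eq_abs]; exact B4c_dd ht z) convex_univ (Set.mem_univ _)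
    (Set.mem_univ _)
  rw [Real.norm_eq_abs, Real.norm_eq_abs] at h
  exact h

/-- `∂_t gau` -/
lemma B4c_dt {t : ℝ} (ht : 0 < t) (x : ℝ) :
    HasDerivAt (fun t => gau t x) ((x ^ 2 / (2 * t ^ 2) - 1 / (2 * t)) * gau t x) t := by
  have hpi := Real.pi_pos
  have h1 : HasDerivAt (fun t : ℝ => -x ^ 2 / (2 * t)) (x ^ 2 / (2 * t ^ 2)) t := by
    have h := ((hasDerivAt_id t).const_mul 2).inv (by simpa using ht.ne')
    have h' := h.const_mul (-x ^ 2)
    refine (h'.congr_deriv ?_)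
    simp only [id]
    field_simp
  have h2 : HasDerivAt (fun t : ℝ => √(2 * Real.pi * t)) (Real.pi / √(2 * Real.pi * t)) t := by
    have h := ((hasDerivAt_id t).const_mul (2 * Real.pi)).sqrt (by simp only [id]; positivity)
    refine h.congr_deriv ?_
    simp only [id]
    field_simp
  have hs : 0 < √(2 * Real.pi * t) := Real.sqrt_pos.mpr (by positivity)
  have h3 := (h1.exp).div h2 hs.ne'
  refine h3.congr_deriv ?_
  unfold gau
  have hs2 : √(2 * Real.pi * t) ^ 2 = 2 * Real.pi * t := Real.sq_sqrt (by positivity)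
  set r := √(2 * Real.pi * t) with hr
  have e1 : Real.exp (-x ^ 2 / (2 * t)) * (Real.pi / r) =
      Real.exp (-x ^ 2 / (2 * t)) * r * (1 / (2 * t)) := by
    have : Real.pi / r = r * (1 / (2 * t)) := by
      rw [div_eq_iff hs.ne']
      have : r * (1 / (2 * t)) * r = r ^ 2 * (1 / (2 * t)) := by ring
      rw [this, hs2]
      field_simp
    rw [this]; ring
  rw [e1]
  field_simp

theorem qq_symm (t x y : ℝ) : qq t x y = qq t y x := by
  unfold qq
  rw [← gau_neg t (y - x), neg_sub, add_comm]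

theorem qq_nonneg {t x y : ℝ} (ht : 0 < t) (hx : 0 ≤ x) (hy : 0 ≤ y) : 0 ≤ qq t x y := by
  unfold qq
  rw [sub_nonneg]
  exact B4c_anti ht (by nlinarith [mul_nonneg hx hy])

theorem qq_pos {t x y : ℝ} (ht : 0 < t) (hx : 0 < x) (hy : 0 < y) : 0 < qq t x y := by
  unfold qq
  rw [sub_pos]
  exact B4c_anti_lt ht (by nlinarith [mul_pos hx hy])

theorem abs_qq_le {t : ℝ} (ht : 0 < t) (x y : ℝ) : |qq t x y| ≤ 1 / √t := by
  unfold qq
  have h1 := gau_pos ht (y - x)
  have h2 := gau_pos ht (y + x)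
  have h3 := gau_le ht (y - x)
  have h4 := gau_le ht (y + x)
  rw [abs_le]
  constructor <;> linarith

theorem qq_lip {t : ℝ} (ht : 0 < t) (x y y' : ℝ) : |qq t x y - qq t x y'| ≤ 2 * |y - y'| / t := by
  unfold qq
  have h1 := gau_lip ht (y - x) (y' - x)
  have h2 := gau_lip ht (y + x) (y' + x)
  have e1 : y - x - (y' - x) = y - y' := by ring
  have e2 : y + x - (y' + x) = y - y' := by ring
  rw [e1] at h1
  rw [e2] at h2
  have e3 : 2 * |y - y'| / t = |y - y'| / t + |y - y'| / t := by ring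
  rw [e3]
  rw [abs_le] at h1 h2 ⊢
  constructor <;> linarith [h1.1, h1.2, h2.1, h2.2]

theorem qq_le_mul {t : ℝ} (ht : 0 < t) (x : ℝ) {y : ℝ} (hy : 0 ≤ y) : |qq t x y| ≤ 2 * y / t := by
  unfold qq
  have h := gau_lip ht (y - x) (-(y + x))
  rw [gau_neg] at h
  have e : y - x - -(y + x) = 2 * y := by ring
  rw [e, abs_of_nonneg (show 0 ≤ 2 * y by linarith)] at h
  exact h

lemma B4c_psi_le {t : ℝ} (ht : 0 < t) (x : ℝ) : |psi t x| ≤ 2 / t := by
  unfold psi
  have h := B4a_abs_mul ht x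
  have e : |2 * x / t * gau t x| = 2 / t * (|x| * gau t x) := by
    rw [abs_mul, abs_div, abs_mul, abs_of_pos ht, abs_of_pos (gau_pos ht x), abs_two]
    ring
  rw [e]
  exact mul_le_of_le_one_right (by positivity) h

/-- first order expansion at `y = 0`; `qq t x 0 = 0`, `∂_y qq t x 0 = psi t x` and
`|∂_y² qq| ≤ 2 t^{-3/2}` -/
theorem qq_expand {c t : ℝ} (hc : 0 < c) (hc1 : c ≤ 1) (ht : c ≤ t) (x : ℝ) {y : ℝ} (hy : 0 ≤ y) :
    |qq t x y - y * psi t x| ≤ 4 / c ^ 2 * min (y ^ 2) y := by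
  have ht0 : 0 < t := lt_of_lt_of_le hc ht
  have hc2 : 0 < 1 / c ^ 2 := by positivity
  rw [mul_min_of_nonneg _ _ (by positivity), le_min_iff]
  constructor
  · set K : ℝ := 1 / (t * √t) with hK
    have hK1 : K ≤ 1 / c ^ 2 := B4c_inv hc hc1 ht
    have hK0 : 0 ≤ K := by rw [hK]; positivity
    have hd : ∀ z : ℝ, HasDerivAt (fun z => qq t x z - z * psi t x)
        ((-(z - x) / t * gau t (z - x)) - (-(z + x) / t * gau t (z + x)) - psi t x) z := by
      intro z
      have h1 : HasDerivAt (fun z => gau t (z - x)) (-(z - x) / t * gau t (z - x)) z := by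
        have h := (B4a_hasDeriv ht0 (z - x)).comp z ((hasDerivAt_id z).sub_const x)
        rw [mul_one] at h
        exact h
      have h2 : HasDerivAt (fun z => gau t (z + x)) (-(z + x) / t * gau t (z + x)) z := by
        have h := (B4a_hasDeriv ht0 (z + x)).comp z ((hasDerivAt_id z).add_const x)
        rw [mul_one] at h
        exact h
      have h3 : HasDerivAt (fun z => z * psi t x) (psi t x) z := by
        simpa using (hasDerivAt_id z).mul_const (psi t x)
      exact (h1.sub h2).sub h3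
    have hpsi : psi t x = (-(0 - x) / t * gau t (0 - x)) - (-(0 + x) / t * gau t (0 + x)) := by
      unfold psi
      rw [zero_sub, gau_neg, zero_add]
      ring
    have hb : ∀ z ∈ Set.Icc 0 y, ‖deriv (fun z => qq t x z - z * psi t x) z‖ ≤ 2 * K * y := by
      intro z hz
      rw [(hd z).deriv, Real.norm_eq_abs, hpsi]
      have h1 := B4c_dlip ht0 (z - x) (0 - x)
      have h2 := B4c_dlip ht0 (z + x) (0 + x)
      have e1 : z - x - (0 - x) = z := by ring
      have e2 : z + x - (0 + x) = z := by ring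
      rw [e1, abs_of_nonneg hz.1] at h1
      rw [e2, abs_of_nonneg hz.1] at h2
      have h3 : K * z ≤ K * y := mul_le_mul_of_nonneg_left hz.2 hK0
      rw [abs_le] at h1 h2 ⊢
      constructor <;> linarith [h1.1, h1.2, h2.1, h2.2]
    have h := Convex.norm_image_sub_le_of_norm_deriv_le (f := fun z => qq t x z - z * psi t x)
      (s := Set.Icc 0 y) (x := 0) (y := y) (C := 2 * K * y)
      (fun z _ => (hd z).differentiableAt) hb (convex_Icc _ _) ⟨le_rfl, hy⟩ ⟨hy, le_rfl⟩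
    have hq0 : qq t x 0 = 0 := by
      unfold qq
      rw [zero_sub, gau_neg, zero_add, sub_self]
    simp only [hq0, Real.norm_eq_abs, zero_mul, sub_zero] at h
    rw [abs_of_nonneg hy] at h
    have e3 : 4 / c ^ 2 * y ^ 2 = 4 * (1 / c ^ 2 * y ^ 2) := by ring
    have h4 : K * y ^ 2 ≤ 1 / c ^ 2 * y ^ 2 := mul_le_mul_of_nonneg_right hK1 (sq_nonneg y)
    have h5 : 0 ≤ 1 / c ^ 2 * y ^ 2 := by positivity
    rw [e3]
    nlinarith
  · have h1 := qq_le_mul ht0 x hy
    have h2 : |psi t x| ≤ 2 / t := B4c_psi_le ht0 x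
    have h3 : 1 / t ≤ 1 / c ^ 2 := B4c_inv1 hc hc1 ht
    have h4 : |y * psi t x| ≤ y * (2 / t) := by
      rw [abs_mul, abs_of_nonneg hy]
      exact mul_le_mul_of_nonneg_left h2 hy
    have h5 := abs_sub (qq t x y) (y * psi t x)
    have h6 : y * (1 / t) ≤ y * (1 / c ^ 2) := mul_le_mul_of_nonneg_left h3 hy
    have e1 : 2 * y / t = 2 * (y * (1 / t)) := by ring
    have e2 : y * (2 / t) = 2 * (y * (1 / t)) := by ring
    have e3 : 4 / c ^ 2 * y = 4 * (y * (1 / c ^ 2)) := by ring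
    rw [e1] at h1
    rw [e2] at h4
    rw [e3]
    linarith

theorem psi_nonneg {t x : ℝ} (ht : 0 < t) (hx : 0 ≤ x) : 0 ≤ psi t x := by
  unfold psi
  have := gau_pos ht x
  positivity

theorem psi_pos {t x : ℝ} (ht : 0 < t) (hx : 0 < x) : 0 < psi t x := by
  unfold psi
  have := gau_pos ht x
  positivity

theorem abs_psi_le {t : ℝ} (ht : 0 < t) (x : ℝ) : |psi t x| ≤ 2 / t := by
  exact B4c_psi_le ht x

theorem psi_lip {c t : ℝ} (hc : 0 < c) (hc1 : c ≤ 1) (ht : c ≤ t) (x y : ℝ) :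
    |psi t x - psi t y| ≤ 4 / c ^ 2 * |x - y| := by
  have ht0 : 0 < t := lt_of_lt_of_le hc ht
  have h := B4c_dlip ht0 x y
  have e : psi t x - psi t y = -2 * ((-x / t * gau t x) - (-y / t * gau t y)) := by
    unfold psi; ring
  rw [e, abs_mul, abs_neg, abs_two]
  have h1 := B4c_inv hc hc1 ht
  have h2 : 1 / (t * √t) * |x - y| ≤ 1 / c ^ 2 * |x - y| :=
    mul_le_mul_of_nonneg_right h1 (abs_nonneg _)
  have h3 : 0 ≤ 1 / c ^ 2 * |x - y| := by positivity
  have e2 : 4 / c ^ 2 * |x - y| = 4 * (1 / c ^ 2 * |x - y|) := by ring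
  rw [e2]
  linarith

theorem psi_time {c s t : ℝ} (hc : 0 < c) (hc1 : c ≤ 1) (hs : c ≤ s) (ht : c ≤ t) (x : ℝ) :
    |psi t x - psi s x| ≤ 8 / c ^ 2 * |t - s| := by
  have hd : ∀ z ∈ Set.Ici c, HasDerivAt (fun z => psi z x)
      (2 * x / z * gau z x * (x ^ 2 / (2 * z ^ 2) - 3 / (2 * z))) z := by
    intro z hz
    have hz0 : 0 < z := lt_of_lt_of_le hc hz
    have h1 : HasDerivAt (fun z : ℝ => 2 * x / z) (-(2 * x) / z ^ 2) z := by
      have h := (hasDerivAt_inv hz0.ne').const_mul (2 * x)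
      refine h.congr_deriv ?_
      field_simp
    exact (h1.mul (B4c_dt hz0 x)).congr_deriv (by field_simp; ring)
  have hb : ∀ z ∈ Set.Ici c, ‖deriv (fun z => psi z x) z‖ ≤ 8 / c ^ 2 := by
    intro z hz
    have hz0 : 0 < z := lt_of_lt_of_le hc hz
    rw [(hd z hz).deriv, Real.norm_eq_abs, B4a_eq hz0]
    have h2 : 0 < √z := Real.sqrt_pos.mpr hz0
    have h3 := B4a_sqrt2pi
    have hzz : √z * √z = z := Real.mul_self_sqrt hz0.le
    set u := x / √z with hu
    have hx : x = u * √z := by rw [hu]; field_simp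
    have hu1 := B4a_u1 u
    have hu3 := B4c_u3 u
    set E := Real.exp (-u ^ 2 / 2) with hE
    have hE0 : 0 < E := Real.exp_pos _
    have hx2 : x ^ 2 = u ^ 2 * z := by rw [hx, mul_pow, Real.sq_sqrt hz0.le]
    have e1 : 2 * x / z * (E / (√(2 * Real.pi) * √z)) * (x ^ 2 / (2 * z ^ 2) - 3 / (2 * z)) =
        ((u ^ 3 * E - 3 * (u * E)) / √(2 * Real.pi)) * (1 / z ^ 2) := by
      rw [hx2]
      nth_rewrite 1 [hx]
      field_simp
    rw [e1, abs_mul, abs_of_pos (show 0 < 1 / z ^ 2 by positivity)]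
    have h5 : |(u ^ 3 * E - 3 * (u * E)) / √(2 * Real.pi)| ≤ 5 / 2 := by
      rw [abs_div, abs_of_pos (show 0 < √(2 * Real.pi) by linarith), div_le_iff₀ (by linarith)]
      have a1 : |u ^ 3 * E| ≤ 2 := by
        rw [abs_mul, abs_pow, abs_of_pos hE0]; exact hu3
      have a2 : |u * E| ≤ 1 := by rw [abs_mul, abs_of_pos hE0]; exact hu1
      have a3 : |u ^ 3 * E - 3 * (u * E)| ≤ 5 := by
        rw [abs_le] at a1 a2 ⊢
        constructor <;> linarith [a1.1, a1.2, a2.1, a2.2]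
      linarith
    have h6 := B4c_inv2 hc hz
    have e2 : 8 / c ^ 2 = 8 * (1 / c ^ 2) := by ring
    rw [e2]
    have h7 : 0 < 1 / c ^ 2 := by positivity
    have h8 : 0 < 1 / z ^ 2 := by positivity
    nlinarith
  have h := Convex.norm_image_sub_le_of_norm_deriv_le (f := fun z => psi z x) (s := Set.Ici c)
    (x := s) (y := t) (C := 8 / c ^ 2) (fun z hz => (hd z hz).differentiableAt) hb
    (convex_Ici c) hs ht
  rw [Real.norm_eq_abs, Real.norm_eq_abs] at h
  exact h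

lemma B4c_gau_time {c s t : ℝ} (hc : 0 < c) (hc1 : c ≤ 1) (hs : c ≤ s) (ht : c ≤ t) (x : ℝ) :
    |gau t x - gau s x| ≤ 1 / c ^ 2 * |t - s| := by
  have h := Convex.norm_image_sub_le_of_norm_deriv_le (f := fun z => gau z x) (s := Set.Ici c)
    (x := s) (y := t) (C := 1 / c ^ 2)
    (fun z hz => (B4c_dt (lt_of_lt_of_le hc hz) x).differentiableAt) (fun z hz => by
      have hz0 : 0 < z := lt_of_lt_of_le hc hz
      rw [(B4c_dt hz0 x).deriv, Real.norm_eq_abs]
      have h1 := B4c_dd hz0 x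
      have h2 := B4c_inv hc hc1 hz
      have e : (x ^ 2 / (2 * z ^ 2) - 1 / (2 * z)) * gau z x =
          1 / 2 * ((x ^ 2 / z ^ 2 - 1 / z) * gau z x) := by
        field_simp
      rw [e, abs_mul, abs_of_pos (show (0 : ℝ) < 1 / 2 by norm_num)]
      have h3 : 0 < 1 / c ^ 2 := by positivity
      linarith)
    (convex_Ici c) hs ht
  rw [Real.norm_eq_abs, Real.norm_eq_abs] at h
  exact h

theorem qq_time {c s t : ℝ} (hc : 0 < c) (hc1 : c ≤ 1) (hs : c ≤ s) (ht : c ≤ t) (x y : ℝ) :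
    |qq t x y - qq s x y| ≤ 4 / c ^ 2 * |t - s| := by
  have h := B4c_gau_time hc hc1 hs ht
  unfold qq
  have h1 := h (y - x)
  have h2 := h (y + x)
  have h3 : 0 ≤ 1 / c ^ 2 * |t - s| := by positivity
  have e2 : 4 / c ^ 2 * |t - s| = 4 * (1 / c ^ 2 * |t - s|) := by ring
  rw [e2]
  rw [abs_le] at h1 h2 ⊢
  constructor <;> linarith [h1.1, h1.2, h2.1, h2.2]

end Pool.Agent.BPT
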