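import Pool.Agent.MP_99a865_pr.FV.B4b

open MeasureTheory ProbabilityTheory Filter Topology
open scoped ENNReal NNReal

namespace Pool.Agent.BPT

/-! **[FV-B4d]** -/

theorem B4d_hasDeriv {t : ℝ} (ht : 0 < t) (x : ℝ) :
    HasDerivAt (fun y => -2 * gau t y) (psi t x) x := by
  have h1 : HasDerivAt (fun y : ℝ => -y ^ 2 / (2 * t)) (-(2 * x) / (2 * t)) x := by
    have h0 : HasDerivAt (fun y : ℝ => y ^ 2) (2 * x) x := by
      simpa using hasDerivAt_pow 2 x
    exact (h0.neg).div_const _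
  have h2 := ((h1.exp).div_const (√(2 * Real.pi * t))).const_mul (-2)
  have h3 : psi t x = -2 * (Real.exp (-x ^ 2 / (2 * t)) * (-(2 * x) / (2 * t)) / √(2 * Real.pi * t)) := by
    unfold psi gau
    field_simp
  rw [h3]
  exact h2

theorem B4d_tendsto {t : ℝ} (ht : 0 < t) : Tendsto (fun y => -2 * gau t y) atTop (𝓝 0) := by
  have h1 : Tendsto (fun y : ℝ => -y ^ 2 / (2 * t)) atTop atBot := by
    have h2 : Tendsto (fun y : ℝ => y ^ 2 / (2 * t)) atTop atTop :=
      (tendsto_pow_atTop (two_ne_zero)).atTop_div_const (by positivity)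
    have h3 := tendsto_neg_atTop_atBot.comp h2
    refine h3.congr fun y => ?_
    simp only [Function.comp]
    ring
  have h4 := (Real.tendsto_exp_atBot.comp h1)
  have h5 : Tendsto (fun y => -2 * gau t y) atTop (𝓝 (-2 * (0 / √(2 * Real.pi * t)))) :=
    (h4.div_const (√(2 * Real.pi * t))).const_mul (-2)
  simpa using h5

theorem B4d_psi_integrable {t : ℝ} (ht : 0 < t) : IntegrableOn (psi t) (Set.Ioi 0) :=
  integrableOn_Ioi_deriv_of_nonneg' (g := fun y => -2 * gau t y) (l := 0)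
    (fun x _ => B4d_hasDeriv ht x) (fun _ hx => psi_nonneg ht (le_of_lt hx)) (B4d_tendsto ht)

theorem B4d_psi_integral {t : ℝ} (ht : 0 < t) : ∫ y in Set.Ioi (0 : ℝ), psi t y = 2 * gau t 0 := by
  rw [integral_Ioi_of_hasDerivAt_of_nonneg' (g := fun y => -2 * gau t y) (l := 0)
    (fun x _ => B4d_hasDeriv ht x) (fun _ hx => psi_nonneg ht (le_of_lt hx)) (B4d_tendsto ht)]
  ring

theorem B4d_gau0 {t : ℝ} (ht : 0 < t) : 2 * gau t 0 ≤ 1 / √t := by
  unfold gau
  have hpi := Real.pi_gt_three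
  have h1 : √(2 * Real.pi * t) = √(2 * Real.pi) * √t := Real.sqrt_mul (by positivity) t
  have h2 : (2 : ℝ) ≤ √(2 * Real.pi) := by
    rw [Real.le_sqrt' (by norm_num)]
    linarith
  have h3 : 0 < √t := Real.sqrt_pos.2 ht
  rw [h1]
  simp only [ne_eq, OfNat.ofNat_ne_zero, not_false_eq_true, zero_pow, neg_zero, zero_div,
    Real.exp_zero]
  rw [mul_one_div, div_le_div_iff₀ (by positivity) h3, one_mul]
  exact mul_le_mul_of_nonneg_right h2 h3.le

theorem B4d_int {μ : Measure ℝ} {g f : ℝ → ℝ} (hg : Integrable g μ) (hf : Measurable f) {M : ℝ}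
    (hM : ∀ x, |f x| ≤ M) : Integrable (fun y => g y * f y) μ := by
  refine (hg.norm.mul_const M).mono' (hg.aestronglyMeasurable.mul hf.aestronglyMeasurable)
    (ae_of_all _ fun y => ?_)
  rw [norm_mul]
  exact mul_le_mul_of_nonneg_left (hM y) (norm_nonneg _)

theorem B4d_qq_int {t : ℝ} (ht : 0 < t) (x : ℝ) : Integrable (fun y => qq t x y) :=
  ((integrable_gau ht).comp_sub_right x).sub ((integrable_gau ht).comp_add_right x)

theorem DD_sub_le {t : ℝ} (ht : 0 < t) (f g : ℝ → ℝ) (hf : Measurable f) (hg : Measurable g)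
    (M : ℝ) (hM : ∀ x, |f x| ≤ M) (hM' : ∀ x, |g x| ≤ M) (ε : ℝ) (h : ∀ x > 0, |f x - g x| ≤ ε) :
    |DD t f - DD t g| ≤ ε / √t := by
  have hε : 0 ≤ ε := (abs_nonneg _).trans (h 1 one_pos)
  have h1 : DD t f - DD t g = ∫ y in Set.Ioi (0 : ℝ), psi t y * (f y - g y) := by
    unfold DD
    rw [← integral_sub (B4d_int (B4d_psi_integrable ht) hf hM) (B4d_int (B4d_psi_integrable ht) hg hM')]
    refine integral_congr_ae (ae_of_all _ fun y => ?_)
    simp only
    ring
  rw [h1]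
  have h2 : ‖∫ y in Set.Ioi (0 : ℝ), psi t y * (f y - g y)‖ ≤
      ∫ y in Set.Ioi (0 : ℝ), psi t y * ε := by
    refine norm_integral_le_of_norm_le ((B4d_psi_integrable ht).mul_const ε) ?_
    rw [ae_restrict_iff' measurableSet_Ioi]
    refine ae_of_all _ fun y hy => ?_
    rw [norm_mul, Real.norm_eq_abs, Real.norm_eq_abs, abs_of_nonneg (psi_nonneg ht (le_of_lt hy))]
    exact mul_le_mul_of_nonneg_left (h y hy) (psi_nonneg ht (le_of_lt hy))
  rw [Real.norm_eq_abs, integral_mul_const, B4d_psi_integral ht] at h2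
  refine h2.trans ?_
  calc 2 * gau t 0 * ε ≤ 1 / √t * ε := mul_le_mul_of_nonneg_right (B4d_gau0 ht) hε
    _ = ε / √t := by ring

theorem abs_DD_le {t : ℝ} (ht : 0 < t) (f : ℝ → ℝ) (hf : Measurable f) (M : ℝ) (hM : ∀ x, |f x| ≤ M) :
    |DD t f| ≤ M / √t := by
  have hM0 : 0 ≤ M := (abs_nonneg _).trans (hM 0)
  have h := DD_sub_le ht f (fun _ => 0) hf measurable_const M hM (fun x => by simpa using hM0) M
    (fun x _ => by simpa using hM x)
  have h0 : DD t (fun _ => 0) = 0 := by simp [DD]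
  rwa [h0, sub_zero] at h

theorem B4d_AA_time {s t : ℝ} (hs : 0 < s) (hst : s ≤ t) (f : ℝ → ℝ) (hf : Measurable f)
    (M : ℝ) (hM : ∀ x, |f x| ≤ M) (x : ℝ) : |AA t f x - AA s f x| ≤ 4 * M * (t - s) / s := by
  have ht : 0 < t := hs.trans_le hst
  have hM0 : 0 ≤ M := (abs_nonneg _).trans (hM 0)
  have hd : Integrable (fun y => gau t y - gau s y) := (integrable_gau ht).sub (integrable_gau hs)
  have hd1 : Integrable (fun y => |gau t (y - x) - gau s (y - x)|) := (hd.comp_sub_right x).abs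
  have hd2 : Integrable (fun y => |gau t (y + x) - gau s (y + x)|) := (hd.comp_add_right x).abs
  have h1 : AA t f x - AA s f x = ∫ y in Set.Ioi (0 : ℝ), (qq t x y - qq s x y) * f y := by
    unfold AA
    rw [← integral_sub (B4d_int (B4d_qq_int ht x).integrableOn hf hM)
      (B4d_int (B4d_qq_int hs x).integrableOn hf hM)]
    refine integral_congr_ae (ae_of_all _ fun y => ?_)
    simp only
    ring
  have h2 : ‖∫ y in Set.Ioi (0 : ℝ), (qq t x y - qq s x y) * f y‖ ≤
      ∫ y in Set.Ioi (0 : ℝ), (|gau t (y - x) - gau s (y - x)| + |gau t (y + x) - gau s (y + x)|) * M := by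
    refine norm_integral_le_of_norm_le (((hd1.add hd2).mul_const M).integrableOn) (ae_of_all _ fun y => ?_)
    rw [norm_mul, Real.norm_eq_abs, Real.norm_eq_abs]
    refine mul_le_mul ?_ (hM y) (abs_nonneg _) (by positivity)
    have : qq t x y - qq s x y = (gau t (y - x) - gau s (y - x)) - (gau t (y + x) - gau s (y + x)) := by
      unfold qq; ring
    rw [this]
    exact abs_sub _ _
  have h3 : ∫ y in Set.Ioi (0 : ℝ), (|gau t (y - x) - gau s (y - x)| + |gau t (y + x) - gau s (y + x)|) * M ≤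
      ∫ y, (|gau t (y - x) - gau s (y - x)| + |gau t (y + x) - gau s (y + x)|) * M :=
    setIntegral_le_integral ((hd1.add hd2).mul_const M) (ae_of_all _ fun y => by positivity)
  have h4 : ∫ y, (|gau t (y - x) - gau s (y - x)| + |gau t (y + x) - gau s (y + x)|) * M =
      2 * (∫ y, |gau t y - gau s y|) * M := by
    rw [integral_mul_const, integral_add hd1 hd2,
      integral_sub_right_eq_self (fun y => |gau t y - gau s y|) x,
      integral_add_right_eq_self (fun y => |gau t y - gau s y|) x]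
    ring
  have h5 := integral_gau_time hs hst
  rw [h1, ← Real.norm_eq_abs]
  refine (h2.trans h3).trans ?_
  rw [h4]
  calc 2 * (∫ y, |gau t y - gau s y|) * M ≤ 2 * (2 * (t - s) / s) * M := by gcongr
    _ = 4 * M * (t - s) / s := by ring

/-- continuity in time (`∫ |gau t - gau s| ≤ 2|t-s|/min`) -/
theorem AA_time {c s t : ℝ} (hc : 0 < c) (hs : c ≤ s) (ht : c ≤ t) (f : ℝ → ℝ) (hf : Measurable f)
    (M : ℝ) (hM : ∀ x, |f x| ≤ M) (x : ℝ) : |AA t f x - AA s f x| ≤ 4 * M * |t - s| / c := by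
  have hM0 : 0 ≤ M := (abs_nonneg _).trans (hM 0)
  rcases le_total s t with hst | hst
  · refine (B4d_AA_time (hc.trans_le hs) hst f hf M hM x).trans ?_
    rw [abs_of_nonneg (sub_nonneg.2 hst)]
    exact div_le_div_of_nonneg_left (mul_nonneg (by positivity) (sub_nonneg.2 hst)) hc hs
  · rw [abs_sub_comm]
    refine (B4d_AA_time (hc.trans_le ht) hst f hf M hM x).trans ?_
    rw [abs_sub_comm, abs_of_nonneg (sub_nonneg.2 hst)]
    exact div_le_div_of_nonneg_left (mul_nonneg (by positivity) (sub_nonneg.2 hst)) hc ht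

theorem B4d_psi_ge {s t : ℝ} (hs : 0 < s) (hst : s ≤ t) {y : ℝ} (hy : 0 ≤ y) :
    (s / t) ^ 2 * psi s y ≤ psi t y := by
  have ht : 0 < t := hs.trans_le hst
  have hst0 : 0 < √s := Real.sqrt_pos.2 hs
  have htt0 : 0 < √t := Real.sqrt_pos.2 ht
  have hpi : 0 < √(2 * Real.pi) := Real.sqrt_pos.2 (by positivity)
  have h1 : √(2 * Real.pi * t) = √(2 * Real.pi) * √t := Real.sqrt_mul (by positivity) t
  have h1' : √(2 * Real.pi * s) = √(2 * Real.pi) * √s := Real.sqrt_mul (by positivity) s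
  have h2 : Real.exp (-y ^ 2 / (2 * s)) ≤ Real.exp (-y ^ 2 / (2 * t)) := by
    rw [Real.exp_le_exp, div_le_div_iff₀ (by positivity) (by positivity)]
    nlinarith [sq_nonneg y]
  have h3 : (s / t) ^ 2 / (s * √s) ≤ 1 / (t * √t) := by
    rw [div_pow, div_div, div_le_div_iff₀ (by positivity) (by positivity)]
    have h4 : √s ≤ √t := Real.sqrt_le_sqrt hst
    have h5 : √s * √s = s := Real.mul_self_sqrt hs.le
    have h6 : √t * √t = t := Real.mul_self_sqrt ht.le
    have h7 : s * √t ≤ t * √s := by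
      calc s * √t = √s * √s * √t := by rw [h5]
        _ ≤ √s * √t * √t := by gcongr
        _ = √t * √t * √s := by ring
        _ = t * √s := by rw [h6]
    calc s ^ 2 * (t * √t) = s * t * (s * √t) := by ring
      _ ≤ s * t * (t * √s) := by gcongr
      _ = 1 * (t ^ 2 * (s * √s)) := by ring
  unfold psi gau
  rw [h1, h1']
  calc (s / t) ^ 2 * (2 * y / s * (Real.exp (-y ^ 2 / (2 * s)) / (√(2 * Real.pi) * √s)))
      = (s / t) ^ 2 / (s * √s) * (2 * y * Real.exp (-y ^ 2 / (2 * s)) / √(2 * Real.pi)) := by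
        field_simp
    _ ≤ 1 / (t * √t) * (2 * y * Real.exp (-y ^ 2 / (2 * t)) / √(2 * Real.pi)) := by
        gcongr
    _ = 2 * y / t * (Real.exp (-y ^ 2 / (2 * t)) / (√(2 * Real.pi) * √t)) := by
        field_simp

theorem B4d_DD_time {c s t : ℝ} (hc : 0 < c) (hc1 : c ≤ 1) (hs : c ≤ s) (hst : s ≤ t) (f : ℝ → ℝ)
    (hf : Measurable f) (M : ℝ) (hM : ∀ x, |f x| ≤ M) :
    |DD t f - DD s f| ≤ 8 * M * (t - s) / c ^ 2 := by
  have hs0 : 0 < s := hc.trans_le hs
  have ht : 0 < t := hs0.trans_le hst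
  have hM0 : 0 ≤ M := (abs_nonneg _).trans (hM 0)
  have his := B4d_psi_integrable hs0
  have hit := B4d_psi_integrable ht
  have h1 : DD t f - DD s f = ∫ y in Set.Ioi (0 : ℝ), (psi t y - psi s y) * f y := by
    unfold DD
    rw [← integral_sub (B4d_int hit hf hM) (B4d_int his hf hM)]
    refine integral_congr_ae (ae_of_all _ fun y => ?_)
    simp only
    ring
  have h2 : ‖∫ y in Set.Ioi (0 : ℝ), (psi t y - psi s y) * f y‖ ≤
      ∫ y in Set.Ioi (0 : ℝ), (2 * (1 - (s / t) ^ 2) * psi s y - psi s y + psi t y) * M := by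
    refine norm_integral_le_of_norm_le ((((his.const_mul _).sub his).add hit).mul_const M) ?_
    rw [ae_restrict_iff' measurableSet_Ioi]
    refine ae_of_all _ fun y hy => ?_
    rw [norm_mul, Real.norm_eq_abs, Real.norm_eq_abs]
    refine mul_le_mul ?_ (hM y) (abs_nonneg _) ?_
    · have h3 := B4d_psi_ge hs0 hst (le_of_lt hy)
      have h4 := psi_nonneg hs0 (le_of_lt hy)
      rw [abs_le]
      have h5 : (s / t) ^ 2 ≤ 1 := by
        have : s / t ≤ 1 := (div_le_one ht).2 hst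
        have h0 : 0 ≤ s / t := by positivity
        nlinarith
      constructor
      · nlinarith
      · nlinarith
    · have h3 := B4d_psi_ge hs0 hst (le_of_lt hy)
      have h4 := psi_nonneg hs0 (le_of_lt hy)
      have h5 : (s / t) ^ 2 ≤ 1 := by
        have : s / t ≤ 1 := (div_le_one ht).2 hst
        have h0 : 0 ≤ s / t := by positivity
        nlinarith
      nlinarith
  rw [integral_mul_const] at h2
  have h6 : ∫ y in Set.Ioi (0 : ℝ), (2 * (1 - (s / t) ^ 2) * psi s y - psi s y + psi t y) =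
      2 * (1 - (s / t) ^ 2) * (2 * gau s 0) - 2 * gau s 0 + 2 * gau t 0 := by
    have hI0 : IntegrableOn (fun y => 2 * (1 - (s / t) ^ 2) * psi s y) (Set.Ioi 0) :=
      his.const_mul _
    have hI1 : IntegrableOn (fun y => 2 * (1 - (s / t) ^ 2) * psi s y - psi s y) (Set.Ioi 0) :=
      hI0.sub his
    rw [integral_add hI1 hit, integral_sub hI0 his,
      integral_const_mul, B4d_psi_integral hs0, B4d_psi_integral ht]
  have h7 : gau t 0 ≤ gau s 0 := by
    unfold gau
    simp only [ne_eq, OfNat.ofNat_ne_zero, not_false_eq_true, zero_pow, neg_zero, zero_div,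
      Real.exp_zero]
    exact one_div_le_one_div_of_le (Real.sqrt_pos.2 (by positivity))
      (Real.sqrt_le_sqrt (by gcongr))
  have h8 : 2 * gau s 0 ≤ 1 / c := by
    refine (B4d_gau0 hs0).trans (one_div_le_one_div_of_le hc ?_)
    rw [Real.le_sqrt' hc]
    nlinarith
  have h9 : 1 - (s / t) ^ 2 ≤ 2 * (t - s) / c := by
    have h10 : 1 - s / t = (t - s) / t := by field_simp
    have h11 : (t - s) / t ≤ (t - s) / c :=
      div_le_div_of_nonneg_left (sub_nonneg.2 hst) hc (hs.trans hst)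
    have h12 : 0 ≤ 1 - s / t := by rw [h10]; exact div_nonneg (sub_nonneg.2 hst) ht.le
    have h13 : 0 ≤ s / t := by positivity
    calc 1 - (s / t) ^ 2 ≤ 2 * (1 - s / t) := by nlinarith
      _ = 2 * ((t - s) / t) := by rw [h10]
      _ ≤ 2 * ((t - s) / c) := by gcongr
      _ = 2 * (t - s) / c := by ring
  have h14 : 0 ≤ 1 - (s / t) ^ 2 := by
    have : s / t ≤ 1 := (div_le_one ht).2 hst
    have h0 : 0 ≤ s / t := by positivity
    nlinarith
  have h15 : 0 ≤ 2 * gau s 0 := by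
    have := gau_pos hs0 0
    linarith
  rw [h1, ← Real.norm_eq_abs]
  refine h2.trans ?_
  rw [h6]
  calc (2 * (1 - (s / t) ^ 2) * (2 * gau s 0) - 2 * gau s 0 + 2 * gau t 0) * M
      ≤ (2 * (1 - (s / t) ^ 2) * (2 * gau s 0)) * M := by
        refine mul_le_mul_of_nonneg_right ?_ hM0
        linarith
    _ ≤ (2 * (2 * (t - s) / c) * (1 / c)) * M := by gcongr
    _ = 4 * M * (t - s) / c ^ 2 := by field_simp; ring
    _ ≤ 8 * M * (t - s) / c ^ 2 := by
        have : 0 ≤ t - s := sub_nonneg.2 hst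
        gcongr
        norm_num

/-- `∫_{y>0} |psi t y - psi s y| dy ≤ 8 |t-s|/c²` for `c ≤ s, t`, `c ≤ 1` -/
theorem DD_time {c s t : ℝ} (hc : 0 < c) (hc1 : c ≤ 1) (hs : c ≤ s) (ht : c ≤ t) (f : ℝ → ℝ)
    (hf : Measurable f) (M : ℝ) (hM : ∀ x, |f x| ≤ M) :
    |DD t f - DD s f| ≤ 8 * M * |t - s| / c ^ 2 := by
  rcases le_total s t with hst | hst
  · rw [abs_of_nonneg (sub_nonneg.2 hst)]
    exact B4d_DD_time hc hc1 hs hst f hf M hM
  · rw [abs_sub_comm, abs_sub_comm t s, abs_of_nonneg (sub_nonneg.2 hst)]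
    exact B4d_DD_time hc hc1 ht hst f hf M hM

/-- positivity -/
theorem AA_nonneg {t : ℝ} (ht : 0 < t) (f : ℝ → ℝ) (h : ∀ x > 0, 0 ≤ f x) {x : ℝ} (hx : 0 ≤ x) :
    0 ≤ AA t f x := by
  unfold AA
  exact setIntegral_nonneg measurableSet_Ioi fun y hy =>
    mul_nonneg (qq_nonneg ht hx (le_of_lt hy)) (h y hy)

theorem B4d_pos {g : ℝ → ℝ} (hg : IntegrableOn g (Set.Ioi 0)) (h : ∀ y > 0, 0 < g y) :
    0 < ∫ y in Set.Ioi (0 : ℝ), g y := by
  rw [setIntegral_pos_iff_support_of_nonneg_ae ?_ hg]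
  · have : Function.support g ∩ Set.Ioi (0 : ℝ) = Set.Ioi 0 := by
      rw [Set.inter_eq_right]
      intro y hy
      exact (h y hy).ne'
    rw [this]
    simp
  · rw [Filter.EventuallyLE, ae_restrict_iff' measurableSet_Ioi]
    exact ae_of_all _ fun y hy => (h y hy).le

theorem AA_pos {t : ℝ} (ht : 0 < t) (f : ℝ → ℝ) (hf : Measurable f) (M : ℝ) (hM : ∀ x, |f x| ≤ M)
    (h : ∀ x > 0, 0 < f x) {x : ℝ} (hx : 0 < x) : 0 < AA t f x :=
  B4d_pos (B4d_int (B4d_qq_int ht x).integrableOn hf hM) fun y hy => mul_pos (qq_pos ht hx hy) (h y hy)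

theorem DD_pos {t : ℝ} (ht : 0 < t) (f : ℝ → ℝ) (hf : Measurable f) (M : ℝ) (hM : ∀ x, |f x| ≤ M)
    (h : ∀ x > 0, 0 < f x) : 0 < DD t f :=
  B4d_pos (B4d_int (B4d_psi_integrable ht) hf hM) fun y hy => mul_pos (psi_pos ht hy) (h y hy)

/-- the bump `f y = gau t₂ (u - y)`: `∫_ℝ qq t₁ x y gau t₂ (u-y) dy = qq (t₁+t₂) x u` (Chapman–Kolmogorov
for both gaussians) and the part `y < 0` is at most `(1/√t₁) ∫_{y<0} gau t₂ (u-y) dy`. -/
theorem AA_gau {t₁ t₂ : ℝ} (h1 : 0 < t₁) (h2 : 0 < t₂) (x : ℝ) {u : ℝ} (hu : 0 ≤ u) :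
    |AA t₁ (fun y => gau t₂ (u - y)) x - qq (t₁ + t₂) x u| ≤
      1 / √t₁ * Real.exp (-u ^ 2 / (2 * t₂)) := by
  have hg2 : Measurable (fun y => gau t₂ (u - y)) :=
    ((continuous_gau t₂).comp (continuous_const.sub continuous_id)).measurable
  have hb2 : ∀ y, |gau t₂ (u - y)| ≤ 1 / √t₂ := fun y => by
    rw [abs_of_pos (gau_pos h2 _)]
    exact gau_le h2 _
  have hi : Integrable (fun y => qq t₁ x y * gau t₂ (u - y)) := B4d_int (B4d_qq_int h1 x) hg2 hb2
  have hia : Integrable (fun y => gau t₁ (y - x) * gau t₂ (u - y)) :=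
    B4d_int ((integrable_gau h1).comp_sub_right x) hg2 hb2
  have hib : Integrable (fun y => gau t₁ (y + x) * gau t₂ (u - y)) :=
    B4d_int ((integrable_gau h1).comp_add_right x) hg2 hb2
  have hfull : ∫ y, qq t₁ x y * gau t₂ (u - y) = qq (t₁ + t₂) x u := by
    have e1 : (fun y => qq t₁ x y * gau t₂ (u - y)) =
        fun y => gau t₁ (y - x) * gau t₂ (u - y) - gau t₁ (y + x) * gau t₂ (u - y) := by
      funext y
      unfold qq
      ring
    have e2 : ∫ y, gau t₁ (y + x) * gau t₂ (u - y) = gau (t₁ + t₂) (u + x) := by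
      have := gau_conv h1 h2 (-x) u
      simpa only [sub_neg_eq_add] using this
    rw [e1, integral_sub hia hib, gau_conv h1 h2 x u, e2]
    rfl
  have hsplit : ∫ y in Set.Ioi (0 : ℝ), qq t₁ x y * gau t₂ (u - y) =
      qq (t₁ + t₂) x u - ∫ y in Set.Iic (0 : ℝ), qq t₁ x y * gau t₂ (u - y) := by
    rw [← hfull, ← intervalIntegral.integral_Iic_add_Ioi hi.integrableOn hi.integrableOn (b := 0)]
    ring
  unfold AA
  rw [hsplit]
  have e3 : qq (t₁ + t₂) x u - (∫ y in Set.Iic (0 : ℝ), qq t₁ x y * gau t₂ (u - y)) -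
      qq (t₁ + t₂) x u = -∫ y in Set.Iic (0 : ℝ), qq t₁ x y * gau t₂ (u - y) := by ring
  rw [e3, abs_neg, ← Real.norm_eq_abs]
  have hsh : Integrable (fun y => gau t₂ (u - y)) := (integrable_gau h2).comp_sub_left u
  have h4 : ‖∫ y in Set.Iic (0 : ℝ), qq t₁ x y * gau t₂ (u - y)‖ ≤
      ∫ y in Set.Iic (0 : ℝ), 1 / √t₁ * gau t₂ (u - y) := by
    refine norm_integral_le_of_norm_le ((hsh.const_mul _).integrableOn) (ae_of_all _ fun y => ?_)
    rw [norm_mul, Real.norm_eq_abs, Real.norm_eq_abs, abs_of_pos (gau_pos h2 _)]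
    exact mul_le_mul_of_nonneg_right (abs_qq_le h1 x y) (gau_pos h2 _).le
  refine h4.trans ?_
  rw [integral_const_mul]
  refine mul_le_mul_of_nonneg_left ?_ (by positivity)
  have h5 : ∫ y in Set.Iic (0 : ℝ), gau t₂ (u - y) = ∫ z in Set.Ioi u, gau t₂ z := by
    have e4 : ∫ y in Set.Iic (0 : ℝ), gau t₂ (u - y) = ∫ y in Set.Iic (0 : ℝ), gau t₂ (y - u) := by
      refine integral_congr_ae (ae_of_all _ fun y => ?_)
      simp only
      rw [← gau_neg t₂ (y - u), neg_sub]
    have e5 : ∫ y in Set.Iic (0 : ℝ), gau t₂ (y - u) = ∫ y in Set.Iic (-u), gau t₂ y := by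
      rw [← integral_indicator measurableSet_Iic, ← integral_indicator measurableSet_Iic,
        ← integral_sub_right_eq_self (fun y => (Set.Iic (-u)).indicator (fun y => gau t₂ y) y) u]
      refine integral_congr_ae (ae_of_all _ fun y => ?_)
      simp only [Set.indicator, Set.mem_Iic]
      by_cases hy : y ≤ 0
      · rw [if_pos hy, if_pos (by linarith)]
      · rw [if_neg hy, if_neg (by linarith)]
    rw [e4, e5, ← neg_neg u, ← integral_comp_neg_Iic, neg_neg]
    refine integral_congr_ae (ae_of_all _ fun y => ?_)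
    simp only
    exact (gau_neg t₂ y).symm
  rw [h5]
  exact integral_gau_tail h2 hu

end Pool.Agent.BPT
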