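import Pool.Agent.MP_99a865_pr.FV.A4
import Pool.Agent.MP_99a865_pr.FV.B1

open MeasureTheory ProbabilityTheory Filter Topology
open scoped ENNReal NNReal

namespace Pool.Agent.BPT

variable {D : Set ℝ} {ρ : Measure ℝ}

/-- **[FV-B5]** The exit time is not in a short macroscopic interval `(k - m, k]`.
PROOF. Let `b > 0`. If the walk from `x` is alive at time `k - m` and not at time `k`, then either
`0 ≤ x + S_{k-m} ≤ b√n` or the walk moves by at least `b√n` during the `m` steps after `k - m`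
(`kolm`: probability `≤ m/(b²n) ≤ η/b²`). With `k' = k - m ≥ cn/2`: by `polya` (both versions; choose `n`
large) and `gauss_interval`, `P(0 ≤ x + S_{k'} ≤ b√n) ≤ b√n/(2√k') + 2ε/8 ≤ b/√(2c) + ε/4`. Choose
`b`, then `η ≤ c/2`. -/
theorem late_exit (hD : Dom D) (hρ : Std ρ) {c : ℝ} (hc : 0 < c) : ∀ ε > (0 : ℝ), ∃ η > (0 : ℝ),
    ∃ n₀ : ℕ, ∀ n ≥ n₀, ∀ k m : ℕ, c * n ≤ k → (m : ℝ) ≤ η * n → m ≤ k → ∀ x : ℝ, 0 ≤ x →
      (kap D ρ (k - m) x).real Set.univ - (kap D ρ k x).real Set.univ ≤ ε := by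
  intro ε hε
  have hprob : IsProbabilityMeasure ρ := hρ.prob
  obtain ⟨K, hK⟩ := polya hρ (ε / 8) (by positivity)
  have h2c : 0 < √(2 * c) := Real.sqrt_pos.2 (by positivity)
  set b : ℝ := ε / 4 * √(2 * c) with hb
  have hbpos : 0 < b := by positivity
  set η : ℝ := min (c / 2) (ε * b ^ 2 / 2) with hη
  have hηpos : 0 < η := lt_min (by positivity) (by positivity)
  obtain ⟨n1, hn1⟩ := exists_nat_ge (2 * (K : ℝ) / c)
  refine ⟨η, hηpos, max n1 1, ?_⟩
  intro n hn k m hk hm hmk x hx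
  have hn1' : n1 ≤ n := le_trans (le_max_left _ _) hn
  have hn2 : 1 ≤ n := le_trans (le_max_right _ _) hn
  have hnpos : (0 : ℝ) < n := by exact_mod_cast hn2
  obtain ⟨k', rfl⟩ : ∃ k', k = k' + m := ⟨k - m, by omega⟩
  have hkm : k' + m - m = k' := by omega
  rw [hkm]
  have hk' : c / 2 * n ≤ k' := by
    have h1 : (m : ℝ) ≤ c / 2 * n :=
      le_trans hm (mul_le_mul_of_nonneg_right (min_le_left _ _) hnpos.le)
    push_cast at hk
    linarith
  have hKk' : K ≤ k' := by
    have h1 : 2 * (K : ℝ) / c ≤ n := le_trans hn1 (by exact_mod_cast hn1')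
    rw [div_le_iff₀ hc] at h1
    have h2 : (K : ℝ) ≤ k' := by nlinarith
    exact_mod_cast h2
  have hk'pos : (0 : ℝ) < k' := lt_of_lt_of_le (by positivity) hk'
  have hsk : 0 < √(k' : ℝ) := Real.sqrt_pos.2 hk'pos
  have hsn : 0 < √(n : ℝ) := Real.sqrt_pos.2 hnpos
  -- events
  let A : Set (ℕ → ℝ) := {ω | Alive D x k' ω}
  let B : Set (ℕ → ℝ) := {ω | Alive D x (k' + m) ω}
  have hA : MeasurableSet A := measurableSet_alive hD x k'
  have hB : MeasurableSet B := measurableSet_alive hD x (k' + m)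
  have hBA : B ⊆ A := fun ω hω j hj1 hj2 => hω j hj1 (by omega)
  let E1 : Set (ℕ → ℝ) := {ω | -x ≤ S k' ω ∧ S k' ω ≤ b * √n - x}
  let F2 : Set (ℕ → ℝ) := {ω | ∃ j ≤ m, b * √n ≤ |S j ω|}
  let E2 : Set (ℕ → ℝ) := shift k' ⁻¹' F2
  have hsub : A \ B ⊆ E1 ∪ E2 := by
    rintro ω ⟨hωA, hωB⟩
    have hpos : 0 ≤ x + S k' ω := by
      rcases Nat.eq_zero_or_pos k' with h0 | h0
      · subst h0
        simpa [S] using hx
      · exact hD.nonneg (hωA k' h0 le_rfl)
    by_cases hle : x + S k' ω ≤ b * √n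
    · left
      exact ⟨by linarith, by linarith⟩
    · right
      push Not at hle
      have hB' : ¬ Alive D (x + S k' ω) m (shift k' ω) := by
        intro h
        exact hωB ((alive_add x k' m ω).2 ⟨hωA, h⟩)
      unfold Alive at hB'
      push Not at hB'
      obtain ⟨j, hj1, hj2, hj3⟩ := hB'
      refine ⟨j, hj2, ?_⟩
      have := hD.not_mem hj3
      rw [le_abs]
      right
      linarith
  have hF2 : MeasurableSet F2 := by
    have : F2 = ⋃ j ∈ Finset.range (m + 1), {ω | b * √n ≤ |S j ω|} := by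
      ext ω
      simp only [F2, Set.mem_ofPred_eq, Set.mem_iUnion, Finset.mem_range]
      constructor
      · rintro ⟨j, hj, h⟩
        exact ⟨j, by omega, h⟩
      · rintro ⟨j, hj, h⟩
        exact ⟨j, by omega, h⟩
    rw [this]
    apply Finset.measurableSet_biUnion
    intro j _
    exact measurableSet_le measurable_const (measurable_S j).abs
  have hE2 : (seqLaw ρ).real E2 ≤ ε / 2 := by
    have h1 : (seqLaw ρ).real E2 = (seqLaw ρ).real F2 := by
      rw [measureReal_def, measureReal_def]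
      congr 1
      conv_rhs => rw [← map_shift ρ k']
      rw [Measure.map_apply (measurable_shift k') hF2]
    rw [h1]
    refine le_trans (kolm hρ m (b * √n) (by positivity)) ?_
    rw [mul_pow, Real.sq_sqrt hnpos.le, div_le_iff₀ (by positivity)]
    have h2 : (m : ℝ) ≤ ε * b ^ 2 / 2 * n :=
      le_trans hm (mul_le_mul_of_nonneg_right (min_le_right _ _) hnpos.le)
    linarith
  have hE1 : (seqLaw ρ).real E1 ≤ ε / 2 := by
    set y1 : ℝ := -x / √k' with hy1
    set y2 : ℝ := (b * √n - x) / √k' with hy2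
    have hyy : y1 ≤ y2 := by
      rw [hy1, hy2]
      apply div_le_div_of_nonneg_right _ hsk.le
      have : 0 < b * √n := by positivity
      linarith
    obtain ⟨hp2, _⟩ := hK k' hKk' y2
    obtain ⟨_, hp1⟩ := hK k' hKk' y1
    have he1 : {ω | S k' ω < y1 * √k'} ⊆ {ω | S k' ω ≤ y2 * √k'} := by
      intro ω hω
      exact le_trans (le_of_lt hω) (mul_le_mul_of_nonneg_right hyy hsk.le)
    have he2 : E1 = {ω | S k' ω ≤ y2 * √k'} \ {ω | S k' ω < y1 * √k'} := by
      ext ω
      simp only [E1, Set.mem_ofPred_eq, Set.mem_sdiff, not_lt, hy1, hy2]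
      rw [div_mul_cancel₀ _ hsk.ne', div_mul_cancel₀ _ hsk.ne']
      exact and_comm
    have hm1 : MeasurableSet {ω | S k' ω < y1 * √k'} :=
      measurableSet_lt (measurable_S k') measurable_const
    rw [he2, measureReal_sdiff he1 hm1]
    have hg : (gaussianReal 0 1).real (Set.Iic y2) - (gaussianReal 0 1).real (Set.Iic y1)
        ≤ (y2 - y1) / 2 := by
      refine le_trans ?_ (gauss_interval y1 y2 hyy)
      rw [← measureReal_sdiff (Set.Iic_subset_Iic.2 hyy) measurableSet_Iic]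
      apply measureReal_mono _ (by finiteness)
      intro z hz
      simp only [Set.mem_sdiff, Set.mem_Iic, not_le] at hz
      exact ⟨hz.2.le, hz.1⟩
    have hdiff : y2 - y1 = b * √n / √k' := by
      rw [hy1, hy2, ← sub_div]
      congr 1
      ring
    have hratio : √(n : ℝ) / √k' ≤ 2 / √(2 * c) := by
      rw [div_le_div_iff₀ hsk h2c]
      rw [← Real.sqrt_mul hnpos.le, show (2 : ℝ) * √k' = √(4 * k') by
        rw [Real.sqrt_mul (by norm_num)]
        congr 1
        rw [show (4 : ℝ) = 2 ^ 2 by norm_num, Real.sqrt_sq (by norm_num)]]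
      apply Real.sqrt_le_sqrt
      nlinarith
    have hfin : (y2 - y1) / 2 ≤ ε / 4 := by
      rw [hdiff]
      calc b * √n / √k' / 2 = b * (√n / √k') / 2 := by ring
        _ ≤ b * (2 / √(2 * c)) / 2 := by
            apply div_le_div_of_nonneg_right _ (by norm_num)
            exact mul_le_mul_of_nonneg_left hratio hbpos.le
        _ = ε / 4 := by
            rw [hb]
            field_simp
    have a1 := abs_le.1 hp2
    have a2 := abs_le.1 hp1
    linarith [a1.2, a2.1]
  have hA' : (kap D ρ k' x).real Set.univ = (seqLaw ρ).real A := by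
    rw [measureReal_def, measureReal_def, kap_univ_eq hD]
  have hB' : (kap D ρ (k' + m) x).real Set.univ = (seqLaw ρ).real B := by
    rw [measureReal_def, measureReal_def, kap_univ_eq hD]
  rw [hA', hB', ← measureReal_sdiff hBA hB]
  calc (seqLaw ρ).real (A \ B) ≤ (seqLaw ρ).real (E1 ∪ E2) :=
        measureReal_mono hsub (by finiteness)
    _ ≤ (seqLaw ρ).real E1 + (seqLaw ρ).real E2 := measureReal_union_le _ _
    _ ≤ ε := by linarith

/-- overshoots are small: `∑_{i<k} P(N = i+1, overshoot > b√n) ≤ k ρ(|X| ≥ b√n) → 0`, `k ≤ n`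
(PROOF: at most `n · ρ(|X| ≥ b√n) ≤ (1/b²) E[X²; |X| ≥ b√n] → 0`). -/
theorem overshoot_small (hρ : Std ρ) {b : ℝ} (hb : 0 < b) : ∀ ε > (0 : ℝ), ∃ n₀ : ℕ, ∀ n ≥ n₀,
    n * ρ.real {y | b * √n ≤ |y|} ≤ ε := by
  intro ε hε
  have hprob : IsProbabilityMeasure ρ := hρ.prob
  have hms : ∀ n : ℕ, MeasurableSet {y : ℝ | b * √(n : ℝ) ≤ |y|} := fun n =>
    measurableSet_le measurable_const measurable_id.abs
  have hlim : Tendsto (fun n : ℕ => ∫ y, ({y : ℝ | b * √(n : ℝ) ≤ |y|}.indicator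
      (fun y : ℝ => y ^ 2)) y ∂ρ) atTop (𝓝 (∫ _, (0 : ℝ) ∂ρ)) := by
    apply tendsto_integral_of_dominated_convergence (fun y : ℝ => y ^ 2)
    · intro n
      exact ((measurable_id.pow_const 2).indicator (hms n)).aestronglyMeasurable
    · exact hρ.int2
    · intro n
      filter_upwards with y
      rw [Real.norm_eq_abs]
      by_cases h : y ∈ {y : ℝ | b * √(n : ℝ) ≤ |y|}
      · rw [Set.indicator_of_mem h, abs_of_nonneg (sq_nonneg y)]
      · rw [Set.indicator_of_notMem h, abs_zero]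
        exact sq_nonneg y
    · filter_upwards with y
      apply tendsto_const_nhds.congr'
      have h1 : Tendsto (fun n : ℕ => b * √(n : ℝ)) atTop atTop :=
        (Real.tendsto_sqrt_atTop.comp tendsto_natCast_atTop_atTop).const_mul_atTop hb
      filter_upwards [h1.eventually_gt_atTop |y|] with n hn
      rw [Set.indicator_of_notMem]
      simp only [Set.mem_ofPred_eq, not_le]
      exact hn
  rw [integral_zero] at hlim
  have hev := hlim.eventually (gt_mem_nhds (show (0 : ℝ) < ε * b ^ 2 by positivity))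
  obtain ⟨n₀, hn₀⟩ := eventually_atTop.1 hev
  refine ⟨n₀, fun n hn => ?_⟩
  have h1 := hn₀ n hn
  have h2 : (b ^ 2 * n) * ρ.real {y : ℝ | b * √(n : ℝ) ≤ |y|}
      ≤ ∫ y, ({y : ℝ | b * √(n : ℝ) ≤ |y|}.indicator (fun y : ℝ => y ^ 2)) y ∂ρ := by
    rw [integral_indicator (hms n)]
    have h3 : (b ^ 2 * n) * ρ.real {y : ℝ | b * √(n : ℝ) ≤ |y|}
        = ∫ _ in {y : ℝ | b * √(n : ℝ) ≤ |y|}, (b ^ 2 * n : ℝ) ∂ρ := by
      rw [setIntegral_const, smul_eq_mul, mul_comm]
    rw [h3]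
    apply setIntegral_mono_on (integrable_const _).integrableOn hρ.int2.integrableOn (hms n)
    intro y hy
    have hy' : b * √(n : ℝ) ≤ |y| := hy
    calc (b ^ 2 * n : ℝ) = (b * √(n : ℝ)) ^ 2 := by
          rw [mul_pow, Real.sq_sqrt (Nat.cast_nonneg n)]
      _ ≤ |y| ^ 2 := pow_le_pow_left₀ (by positivity) hy' 2
      _ = y ^ 2 := sq_abs y
  have h4 : b ^ 2 * (n * ρ.real {y : ℝ | b * √(n : ℝ) ≤ |y|}) ≤ b ^ 2 * ε := by
    calc b ^ 2 * (n * ρ.real {y : ℝ | b * √(n : ℝ) ≤ |y|})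
        = (b ^ 2 * n) * ρ.real {y : ℝ | b * √(n : ℝ) ≤ |y|} := by ring
      _ ≤ _ := h2
      _ ≤ ε * b ^ 2 := h1.le
      _ = b ^ 2 * ε := by ring
  exact le_of_mul_le_mul_left h4 (by positivity)

end Pool.Agent.BPT
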