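import Pool.Agent.MP_99a865_pr.FV.B6a
import Pool.Agent.MP_99a865_pr.FV.B3
import Pool.Agent.MP_99a865_pr.FV.B4d
import Pool.Agent.MP_99a865_pr.FV.B5

open MeasureTheory ProbabilityTheory Filter Topology
open scoped ENNReal NNReal

namespace Pool.Agent.BPT

variable {D : Set ℝ} {ρ : Measure ℝ}

theorem B6_cont {M : ℝ} {f : ℝ → ℝ} (hf : BL M f) : Continuous f := by
  rw [Metric.continuous_iff]
  intro x ε hε
  have hM : 0 ≤ M := (abs_nonneg _).trans (hf.bd 0)
  refine ⟨ε / (M + 1), by positivity, fun y hy => ?_⟩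
  rw [Real.dist_eq] at hy ⊢
  have h1 := hf.lip y x
  rw [lt_div_iff₀ (by positivity)] at hy
  nlinarith [abs_nonneg (y - x)]

theorem B6_refl_meas {f : ℝ → ℝ} (hf : Measurable f) : Measurable (refl f) := by
  unfold refl
  exact Measurable.ite measurableSet_Ici hf (hf.comp measurable_neg).neg

theorem B6_refl_bd {f : ℝ → ℝ} {M : ℝ} (hf : ∀ x, |f x| ≤ M) (x : ℝ) : |refl f x| ≤ M := by
  unfold refl
  split_ifs
  · exact hf x
  · rw [abs_neg]; exact hf _

/-- the expected exit mass at time `i + 1` -/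
noncomputable def B6_e (D : Set ℝ) (ρ : Measure ℝ) (x : ℝ) (i : ℕ) : ℝ :=
  (∫⁻ w, ex D ρ w ∂(kap D ρ i x)).toReal

theorem B6_e_eq (hD : Dom D) [IsProbabilityMeasure ρ] (x : ℝ) (i : ℕ) :
    B6_e D ρ x i = ∫ w, (ex D ρ w).toReal ∂(kap D ρ i x) := by
  rw [B6_e, integral_toReal (measurable_ex hD).aemeasurable]
  exact Eventually.of_forall fun w => measure_lt_top _ _

theorem B6_ex_int (hD : Dom D) [IsProbabilityMeasure ρ] (x : ℝ) (i : ℕ) :
    Integrable (fun w => (ex D ρ w).toReal) (kap D ρ i x) := by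
  refine Integrable.of_bound (measurable_ex hD).ennreal_toReal.aestronglyMeasurable 1 ?_
  refine Eventually.of_forall fun w => ?_
  rw [Real.norm_eq_abs, abs_of_nonneg ENNReal.toReal_nonneg]
  exact ENNReal.toReal_le_of_le_ofReal zero_le_one (by
    rw [ENNReal.ofReal_one]; exact prob_le_one)

theorem B6_e_nonneg (x : ℝ) (i : ℕ) : 0 ≤ B6_e D ρ x i := ENNReal.toReal_nonneg

theorem B6_mass (hD : Dom D) [IsProbabilityMeasure ρ] (k l : ℕ) (hkl : k ≤ l) (x : ℝ) :
    ∑ i ∈ Finset.Ico k l, B6_e D ρ x i =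
      (kap D ρ k x).real Set.univ - (kap D ρ l x).real Set.univ := by
  have h := exit_mass hD k l hkl x (ρ := ρ)
  have hfin : ∀ i ∈ Finset.Ico k l, ∫⁻ w, ex D ρ w ∂(kap D ρ i x) ≠ ∞ := by
    intro i hi hcon
    have : ∑ i ∈ Finset.Ico k l, ∫⁻ w, ex D ρ w ∂(kap D ρ i x) = ∞ :=
      ENNReal.sum_eq_top.mpr ⟨i, hi, hcon⟩
    rw [this, top_add] at h
    exact (measure_ne_top (kap D ρ k x) Set.univ) h.symm
  rw [measureReal_def, measureReal_def, ← h, ENNReal.toReal_add
    (ENNReal.sum_ne_top.mpr hfin) (measure_ne_top _ _), ENNReal.toReal_sum hfin]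
  unfold B6_e
  ring

theorem B6_kap_real_le [IsProbabilityMeasure ρ] (k : ℕ) (x : ℝ) :
    (kap D ρ k x).real Set.univ ≤ 1 := by
  rw [measureReal_def]
  exact ENNReal.toReal_le_of_le_ofReal zero_le_one (by
    rw [ENNReal.ofReal_one]; exact kap_univ_le_one k x)

/-- bound for one exit term -/
theorem B6_term (hD : Dom D) [IsProbabilityMeasure ρ] (i : ℕ) {x : ℝ} (hx : 0 ≤ x) (G : ℝ → ℝ)
    (A r : ℝ) (hA : 0 ≤ A) (B : Set ℝ) (hB : MeasurableSet B) (hr : r = 0 ∨ r = 1)
    (hG : ∀ w y, 0 ≤ w → w + y ∉ D → |G (w + y)| ≤ A + r * B.indicator 1 y) :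
    |∫ w, (∫ y in {y | w + y ∉ D}, G (w + y) ∂ρ) ∂(kap D ρ i x)| ≤
      A * B6_e D ρ x i + r * ρ.real B := by
  have hr0 : 0 ≤ r := by rcases hr with h | h <;> rw [h] <;> norm_num
  have hind : Integrable (fun y => A + r * B.indicator (1 : ℝ → ℝ) y) ρ := by
    apply (integrable_const _).add
    apply Integrable.const_mul
    exact (integrable_const (1 : ℝ)).indicator hB
  have hbd : ∀ᵐ w ∂(kap D ρ i x), 0 ≤ w := by
    rcases Nat.eq_zero_or_pos i with h0 | h0
    · rw [h0, kap_zero]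
      exact (ae_dirac_iff measurableSet_Ici).mpr hx
    · have h1 := kap_compl hD i x (ρ := ρ) (Or.inl h0)
      have h2 : ∀ᵐ w ∂(kap D ρ i x), w ∈ D := by
        rw [ae_iff]; exact h1
      filter_upwards [h2] with w hw
      exact hD.nonneg hw
  have hmain : ∀ᵐ w ∂(kap D ρ i x), ‖∫ y in {y | w + y ∉ D}, G (w + y) ∂ρ‖ ≤
      A * (ex D ρ w).toReal + r * ρ.real B := by
    filter_upwards [hbd] with w hw
    have hms : MeasurableSet {y | w + y ∉ D} := (hD.meas.preimage (measurable_const_add w)).compl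
    calc ‖∫ y in {y | w + y ∉ D}, G (w + y) ∂ρ‖
        ≤ ∫ y in {y | w + y ∉ D}, (A + r * B.indicator (1 : ℝ → ℝ) y) ∂ρ := by
          apply norm_integral_le_of_norm_le hind.integrableOn
          rw [ae_restrict_iff' hms]
          exact Eventually.of_forall fun y hy => hG w y hw hy
      _ = A * (ex D ρ w).toReal +
          r * ∫ y in {y | w + y ∉ D}, B.indicator (1 : ℝ → ℝ) y ∂ρ := by
          have i2 : Integrable (fun y => r * B.indicator (1 : ℝ → ℝ) y)
              (ρ.restrict {y | w + y ∉ D}) :=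
            Integrable.integrableOn (Integrable.const_mul
              (f := fun y => B.indicator (1 : ℝ → ℝ) y)
              ((integrable_const (1 : ℝ)).indicator hB) r)
          rw [integral_add (integrable_const _) i2, integral_const_mul]
          congr 1
          rw [setIntegral_const, smul_eq_mul, mul_comm]
          rfl
      _ ≤ A * (ex D ρ w).toReal + r * ρ.real B := by
          have h1 : ∫ y in {y | w + y ∉ D}, B.indicator (1 : ℝ → ℝ) y ∂ρ ≤
              ∫ y, B.indicator (1 : ℝ → ℝ) y ∂ρ := by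
            apply setIntegral_le_integral
            · exact (integrable_const (1 : ℝ)).indicator hB
            · exact Eventually.of_forall fun y => Set.indicator_nonneg (fun _ _ => zero_le_one) y
          have h2 : ∫ y, B.indicator (1 : ℝ → ℝ) y ∂ρ = ρ.real B := integral_indicator_one hB
          rw [h2] at h1
          have := mul_le_mul_of_nonneg_left h1 hr0
          linarith
  have hint : Integrable (fun w => A * (ex D ρ w).toReal + r * ρ.real B) (kap D ρ i x) :=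
    ((B6_ex_int hD x i).const_mul A).add (integrable_const _)
  calc |∫ w, (∫ y in {y | w + y ∉ D}, G (w + y) ∂ρ) ∂(kap D ρ i x)|
      ≤ ∫ w, (A * (ex D ρ w).toReal + r * ρ.real B) ∂(kap D ρ i x) := by
        rw [← Real.norm_eq_abs]
        exact norm_integral_le_of_norm_le hint hmain
    _ = A * B6_e D ρ x i + (kap D ρ i x).real Set.univ * (r * ρ.real B) := by
        rw [integral_add ((B6_ex_int hD x i).const_mul A) (integrable_const _),
          integral_const_mul, ← B6_e_eq hD, integral_const, smul_eq_mul]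
    _ ≤ A * B6_e D ρ x i + r * ρ.real B := by
        have h1 := B6_kap_real_le (D := D) (ρ := ρ) i x
        have h2 : 0 ≤ r * ρ.real B := mul_nonneg hr0 measureReal_nonneg
        have h3 : (kap D ρ i x).real Set.univ * (r * ρ.real B) ≤ 1 * (r * ρ.real B) :=
          mul_le_mul_of_nonneg_right h1 h2
        linarith

/-- **[FV-B6b]** Approximate reflection principle. -/
theorem killed_refl (hD : Dom D) (hρ : Std ρ) {c : ℝ} (hc : 0 < c) : ∀ ε > (0 : ℝ), ∃ n₀ : ℕ,
    ∀ n ≥ n₀, ∀ k : ℕ, c * n ≤ k → k ≤ n → ∀ f : ℝ → ℝ, BL 1 f → ∀ x : ℝ, 0 ≤ x →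
      |∫ y, f (y / √n) ∂(kap D ρ k x) - AA (k / n) f (x / √n)| ≤ ε := by
  intro ε hε
  have hprob := hρ.prob
  obtain ⟨η₀, hη₀, n₁, hn₁⟩ := late_exit hD hρ hc (ε / 8) (by positivity)
  set η := min η₀ c with hη
  have hη0 : 0 < η := lt_min hη₀ hc
  set b := ε * √(η / 2) / 8 with hb
  have hb0 : 0 < b := by positivity
  obtain ⟨n₂, hn₂⟩ := overshoot_small hρ hb0 (ε / 8) (by positivity)
  obtain ⟨n₃, hn₃⟩ := free_refl hρ (half_pos hη0) (ε / 8) (by positivity)
  obtain ⟨n₄, hn₄⟩ := exists_nat_ge (2 / η)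
  refine ⟨max (max n₁ n₂) (max n₃ (max n₄ 1)), fun n hn k hck hkn f hf x hx => ?_⟩
  simp only [ge_iff_le, max_le_iff] at hn
  obtain ⟨⟨h1, h2⟩, h3, h4, h5⟩ := hn
  have hnpos : (0 : ℝ) < n := by exact_mod_cast h5
  have hsn : 0 < √(n : ℝ) := Real.sqrt_pos.mpr hnpos
  have hηn : 2 ≤ η * n := by
    have : (n₄ : ℝ) ≤ n := by exact_mod_cast h4
    have h6 : 2 / η ≤ n := hn₄.trans this
    rw [div_le_iff₀ hη0] at h6
    linarith
  have hfm : Measurable f := (B6_cont hf).measurable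
  set g : ℝ → ℝ := fun y => refl f (y / √n) with hg
  have hgm : Measurable g := (B6_refl_meas hfm).comp (measurable_id.div_const _)
  have hgb : ∀ y, |g y| ≤ 1 := fun y => B6_refl_bd hf.bd _
  set m₀ := ⌊η * n⌋₊ with hm₀
  have hm₀le : (m₀ : ℝ) ≤ η * n := Nat.floor_le (by positivity)
  have hm₀ge : η / 2 * n ≤ m₀ := by
    have := Nat.lt_floor_add_one (η * (n : ℝ))
    rw [← hm₀] at this
    linarith
  have hkc : η * n ≤ k := by
    have : η ≤ c := min_le_right _ _
    calc η * n ≤ c * n := mul_le_mul_of_nonneg_right this hnpos.le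
      _ ≤ k := hck
  have hm₀k : m₀ ≤ k := by exact_mod_cast hm₀le.trans hkc
  have hk1 : 1 ≤ k := by
    have : (0 : ℝ) < k := lt_of_lt_of_le (by positivity) hkc
    exact_mod_cast this
  -- the killed walk lives on D
  have hkap : ∫ y, f (y / √n) ∂(kap D ρ k x) = ∫ y, g y ∂(kap D ρ k x) := by
    apply integral_congr_ae
    have h6 : ∀ᵐ w ∂(kap D ρ k x), w ∈ D := by
      rw [ae_iff]; exact kap_compl hD k x (Or.inl hk1)
    filter_upwards [h6] with w hw
    have hw0 : 0 ≤ w / √n := div_nonneg (hD.nonneg hw) hsn.le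
    rw [hg]
    simp only [refl, if_pos hw0]
  have hdec := exit_decomp hD k x g hgm 1 hgb (ρ := ρ)
  have hfree := hn₃ n h3 k (by linarith [hkc, hηn]) hkn f hf x
  set G : ℕ → ℝ → ℝ := fun m y' => ∫ z, g z ∂(fre ρ m y') with hG
  have hG1 : ∀ m y', |G m y'| ≤ 1 := by
    intro m y'
    have : ‖∫ z, g z ∂(fre ρ m y')‖ ≤ 1 * (fre ρ m y').real Set.univ :=
      norm_integral_le_of_norm_le_const (Eventually.of_forall hgb)
    simpa using this
  set T : ℕ → ℝ := fun i => ∫ w, (∫ y in {y | w + y ∉ D}, G (k - 1 - i) (w + y) ∂ρ)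
        ∂(kap D ρ i x) with hT
  -- late terms
  have hlate : ∀ i, |T i| ≤ B6_e D ρ x i := by
    intro i
    have := B6_term hD i hx (G (k - 1 - i)) 1 0 zero_le_one ∅ MeasurableSet.empty (Or.inl rfl)
      (ρ := ρ) (fun w y _ _ => by simpa using hG1 _ _)
    simpa using this
  -- early terms
  have hearly : ∀ i, i < k - m₀ → |T i| ≤ ε / 4 * B6_e D ρ x i + ρ.real {y | b * √n ≤ |y|} := by
    intro i hi
    have hmk : m₀ ≤ k - 1 - i := by omega
    have hmn : k - 1 - i ≤ n := by omega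
    have hBm : MeasurableSet {y : ℝ | b * √n ≤ |y|} :=
      measurableSet_le measurable_const measurable_id.abs
    have := B6_term hD i hx (G (k - 1 - i)) (ε / 4) 1 (by positivity) {y | b * √n ≤ |y|} hBm
      (Or.inr rfl) (ρ := ρ) ?_
    · simpa using this
    · intro w y hw hy
      have hy0 : w + y ≤ 0 := hD.not_mem hy
      by_cases hbig : b * √n ≤ |y|
      · have h6 : ({y : ℝ | b * √n ≤ |y|}).indicator (1 : ℝ → ℝ) y = 1 :=
          Set.indicator_of_mem (s := {y : ℝ | b * √n ≤ |y|}) hbig 1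
        rw [h6]
        have := hG1 (k - 1 - i) (w + y)
        linarith
      · have h6 : ({y : ℝ | b * √n ≤ |y|}).indicator (1 : ℝ → ℝ) y = 0 :=
          Set.indicator_of_notMem (s := {y : ℝ | b * √n ≤ |y|}) hbig 1
        rw [h6, mul_zero, add_zero]
        push Not at hbig
        have h7 : |w + y| ≤ b * √n := by
          have h8 : |w + y| = -(w + y) := abs_of_nonpos hy0
          have h9 : -y ≤ |y| := neg_le_abs y
          rw [h8]; linarith
        have hmreal : η / 2 * n ≤ ((k - 1 - i : ℕ) : ℝ) :=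
          hm₀ge.trans (by exact_mod_cast hmk)
        have hfr := hn₃ n h3 (k - 1 - i) hmreal hmn f hf (w + y)
        have ht : η / 2 ≤ ((k - 1 - i : ℕ) : ℝ) / n := by
          rw [le_div_iff₀ hnpos]; exact hmreal
        have ht0 : 0 < ((k - 1 - i : ℕ) : ℝ) / n := lt_of_lt_of_le (half_pos hη0) ht
        have hAA := (abs_AA_le ht0 f hfm 1 hf.bd ((w + y) / √n)).2
        have hsq : √(η / 2) ≤ √(((k - 1 - i : ℕ) : ℝ) / n) := Real.sqrt_le_sqrt ht
        have hsq0 : 0 < √(η / 2) := Real.sqrt_pos.mpr (half_pos hη0)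
        have h8 : |(w + y) / √n| ≤ b := by
          rw [abs_div, abs_of_pos hsn, div_le_iff₀ hsn]
          exact h7
        have h9 : 1 * |(w + y) / √n| / √(((k - 1 - i : ℕ) : ℝ) / n) ≤ ε / 8 := by
          rw [one_mul]
          calc |(w + y) / √n| / √(((k - 1 - i : ℕ) : ℝ) / n) ≤ b / √(η / 2) :=
                div_le_div₀ hb0.le h8 hsq0 hsq
            _ = ε / 8 := by rw [hb]; field_simp
        have h10 : |G (k - 1 - i) (w + y)| ≤ |G (k - 1 - i) (w + y) -
            AA (((k - 1 - i : ℕ) : ℝ) / n) f ((w + y) / √n)| +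
            |AA (((k - 1 - i : ℕ) : ℝ) / n) f ((w + y) / √n)| := by
          have := abs_add_le (G (k - 1 - i) (w + y) -
            AA (((k - 1 - i : ℕ) : ℝ) / n) f ((w + y) / √n))
            (AA (((k - 1 - i : ℕ) : ℝ) / n) f ((w + y) / √n))
          simpa using this
        have h11 : |G (k - 1 - i) (w + y) -
            AA (((k - 1 - i : ℕ) : ℝ) / n) f ((w + y) / √n)| ≤ ε / 8 := hfr
        linarith
  -- total
  have hsplit : ∑ i ∈ Finset.range k, T i =
      ∑ i ∈ Finset.Ico 0 (k - m₀), T i + ∑ i ∈ Finset.Ico (k - m₀) k, T i := by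
    rw [Finset.range_eq_Ico, Finset.sum_Ico_consecutive T (Nat.zero_le _) (Nat.sub_le k m₀)]
  have hS1 : |∑ i ∈ Finset.Ico 0 (k - m₀), T i| ≤ ε / 4 + ε / 8 := by
    have hp0 : 0 ≤ ρ.real {y : ℝ | b * √n ≤ |y|} := measureReal_nonneg
    calc |∑ i ∈ Finset.Ico 0 (k - m₀), T i| ≤ ∑ i ∈ Finset.Ico 0 (k - m₀), |T i| :=
          Finset.abs_sum_le_sum_abs _ _
      _ ≤ ∑ i ∈ Finset.Ico 0 (k - m₀),
          (ε / 4 * B6_e D ρ x i + ρ.real {y | b * √n ≤ |y|}) :=
          Finset.sum_le_sum fun i hi => hearly i (Finset.mem_Ico.mp hi).2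
      _ = ε / 4 * ∑ i ∈ Finset.Ico 0 (k - m₀), B6_e D ρ x i +
          ((k - m₀ : ℕ) : ℝ) * ρ.real {y | b * √n ≤ |y|} := by
          rw [Finset.sum_add_distrib, Finset.mul_sum, Finset.sum_const, Nat.card_Ico,
            nsmul_eq_mul, Nat.sub_zero]
      _ ≤ ε / 4 * 1 + n * ρ.real {y | b * √n ≤ |y|} := by
          have h6 : ∑ i ∈ Finset.Ico 0 (k - m₀), B6_e D ρ x i ≤ 1 := by
            rw [B6_mass hD 0 (k - m₀) (Nat.zero_le _) x]
            have := B6_kap_real_le (D := D) (ρ := ρ) 0 x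
            have h7 : 0 ≤ (kap D ρ (k - m₀) x).real Set.univ := measureReal_nonneg
            linarith
          have h8 : ((k - m₀ : ℕ) : ℝ) ≤ n := by exact_mod_cast (by omega : k - m₀ ≤ n)
          have h9 := mul_le_mul_of_nonneg_left h6 (by positivity : 0 ≤ ε / 4)
          have h10 := mul_le_mul_of_nonneg_right h8 hp0
          linarith
      _ ≤ ε / 4 + ε / 8 := by
          have := hn₂ n h2
          linarith
  have hS2 : |∑ i ∈ Finset.Ico (k - m₀) k, T i| ≤ ε / 8 := by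
    calc |∑ i ∈ Finset.Ico (k - m₀) k, T i| ≤ ∑ i ∈ Finset.Ico (k - m₀) k, |T i| :=
          Finset.abs_sum_le_sum_abs _ _
      _ ≤ ∑ i ∈ Finset.Ico (k - m₀) k, B6_e D ρ x i :=
          Finset.sum_le_sum fun i _ => hlate i
      _ = (kap D ρ (k - m₀) x).real Set.univ - (kap D ρ k x).real Set.univ :=
          B6_mass hD (k - m₀) k (Nat.sub_le _ _) x
      _ ≤ ε / 8 := hn₁ n h1 k m₀ hck
          (hm₀le.trans (mul_le_mul_of_nonneg_right (min_le_left _ _) hnpos.le)) hm₀k x hx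
  have hR : |∑ i ∈ Finset.range k, T i| ≤ ε / 4 + ε / 8 + ε / 8 := by
    rw [hsplit]
    exact (abs_add_le _ _).trans (add_le_add hS1 hS2)
  have hdec' : ∫ z, g z ∂(fre ρ k x) = ∫ z, g z ∂(kap D ρ k x) + ∑ i ∈ Finset.range k, T i := hdec
  have hfree' : |∫ z, g z ∂(fre ρ k x) - AA (k / n) f (x / √n)| ≤ ε / 8 := hfree
  rw [hkap]
  have h6 : ∫ z, g z ∂(kap D ρ k x) - AA (k / n) f (x / √n) =
      (∫ z, g z ∂(fre ρ k x) - AA (k / n) f (x / √n)) - ∑ i ∈ Finset.range k, T i := by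
    rw [hdec']; ring
  rw [h6]
  have h7 := abs_sub (∫ z, g z ∂(fre ρ k x) - AA (k / n) f (x / √n))
    (∑ i ∈ Finset.range k, T i)
  linarith

/-- scaled version -/
theorem killed_refl_BL (hD : Dom D) (hρ : Std ρ) {c : ℝ} (hc : 0 < c) {M : ℝ} (hM : 0 < M) :
    ∀ ε > (0 : ℝ), ∃ n₀ : ℕ,
    ∀ n ≥ n₀, ∀ k : ℕ, c * n ≤ k → k ≤ n → ∀ f : ℝ → ℝ, BL M f → ∀ x : ℝ, 0 ≤ x →
      |∫ y, f (y / √n) ∂(kap D ρ k x) - AA (k / n) f (x / √n)| ≤ ε := by
  intro ε hε
  obtain ⟨n₀, hn₀⟩ := killed_refl hD hρ hc (ε / M) (by positivity)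
  refine ⟨n₀, fun n hn k hck hkn f hf x hx => ?_⟩
  have hf1 : BL 1 (fun y => M⁻¹ * f y) := by
    constructor
    · intro y
      rw [abs_mul, abs_of_pos (inv_pos.mpr hM), inv_mul_le_iff₀ hM, mul_one]
      exact hf.bd y
    · intro y z
      rw [← mul_sub, abs_mul, abs_of_pos (inv_pos.mpr hM), inv_mul_le_iff₀ hM, one_mul]
      exact hf.lip y z
  have h := hn₀ n hn k hck hkn _ hf1 x hx
  have h1 : ∫ y, M⁻¹ * f (y / √n) ∂(kap D ρ k x) = M⁻¹ * ∫ y, f (y / √n) ∂(kap D ρ k x) :=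
    integral_const_mul _ _
  have h2 : AA (k / n) (fun y => M⁻¹ * f y) (x / √n) = M⁻¹ * AA (k / n) f (x / √n) := by
    unfold AA
    rw [← integral_const_mul]
    congr 1
    ext y
    ring
  rw [h1, h2, ← mul_sub, abs_mul, abs_of_pos (inv_pos.mpr hM), inv_mul_le_iff₀ hM] at h
  calc _ ≤ M * (ε / M) := h
    _ = ε := by field_simp

end Pool.Agent.BPT
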