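import Pool.Agent.MP_99a865_pr.FV.B2
import Pool.Agent.MP_99a865_pr.FV.B4b

open MeasureTheory ProbabilityTheory Filter Topology
open scoped ENNReal NNReal

namespace Pool.Agent.BPT

variable {D : Set ℝ} {ρ : Measure ℝ}

theorem B6a_cont {f : ℝ → ℝ} {M : ℝ} (hf : BL M f) : Continuous f := by
  have hM : 0 ≤ M := (abs_nonneg _).trans (hf.bd 0)
  have h : LipschitzWith ⟨M, hM⟩ f := LipschitzWith.of_dist_le_mul fun x y => by
    rw [Real.dist_eq, Real.dist_eq]
    exact hf.lip x y
  exact h.continuous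

theorem B6a_meas {f : ℝ → ℝ} {M : ℝ} (hf : BL M f) : Measurable (refl f) := by
  unfold refl
  exact Measurable.ite measurableSet_Ici (B6a_cont hf).measurable
    ((B6a_cont hf).comp continuous_neg).neg.measurable

theorem B6a_bd {f : ℝ → ℝ} {M : ℝ} (hf : BL M f) (x : ℝ) : |refl f x| ≤ M := by
  unfold refl
  split_ifs
  · exact hf.bd x
  · rw [abs_neg]
    exact hf.bd _

theorem B6a_S (k : ℕ) : Measurable (S k) := by
  unfold S
  exact Finset.measurable_sum _ fun i _ => measurable_pi_apply i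

/-- **[FV-B6a]** The free walk and the odd extension: from `uclt`.
PROOF. `∫ g(y/√n) ∂(fre ρ k x) = E g(x/√n + √(k/n) (S_k/√k))`, `g = refl f`; the function
`z ↦ refl f (x' + s z)` with `0 < s = √(k/n) ≤ 1` is bounded by 1 and 1-Lipschitz on both sides of
`-x'/s` (left of it it is `-f(-(x'+sz))`); `E refl f (x' + sG) = AA (s²) f x'` (`AA_eq`), and
`k ≥ K` follows from `k ≥ ηn` for `n` large. -/
theorem free_refl (hρ : Std ρ) {η : ℝ} (hη : 0 < η) : ∀ ε > (0 : ℝ), ∃ n₀ : ℕ, ∀ n ≥ n₀, ∀ k : ℕ,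
    η * n ≤ k → k ≤ n → ∀ f : ℝ → ℝ, BL 1 f → ∀ x : ℝ,
      |∫ y, refl f (y / √n) ∂(fre ρ k x) - AA (k / n) f (x / √n)| ≤ ε := by
  intro ε hε
  obtain ⟨K, hK⟩ := uclt hρ ε hε
  refine ⟨max 1 ⌈(K : ℝ) / η⌉₊, ?_⟩
  intro n hn k hk1 hk2 f hf x
  have hn1 : 1 ≤ n := (le_max_left _ _).trans hn
  have hn0 : (0 : ℝ) < n := by exact_mod_cast hn1
  have hk0 : (0 : ℝ) < k := (mul_pos hη hn0).trans_le hk1
  have hKk : K ≤ k := by
    have h1 : (K : ℝ) / η ≤ n := (Nat.le_ceil _).trans (by exact_mod_cast (le_max_right _ _).trans hn)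
    have h2 : (K : ℝ) ≤ η * n := by
      rw [div_le_iff₀ hη] at h1
      linarith
    exact_mod_cast h2.trans hk1
  have ht : 0 < (k : ℝ) / n := div_pos hk0 hn0
  have hs0 : 0 < √((k : ℝ) / n) := Real.sqrt_pos.2 ht
  have hs1 : √((k : ℝ) / n) ≤ 1 := by
    rw [Real.sqrt_le_one]
    rw [div_le_one hn0]
    exact_mod_cast hk2
  have hsn : 0 < √(n : ℝ) := Real.sqrt_pos.2 hn0
  have hsk : 0 < √(k : ℝ) := Real.sqrt_pos.2 hk0
  set s := √((k : ℝ) / n) with hs
  set x' := x / √n with hx'
  let g : ℝ → ℝ := fun z => refl f (x' + s * z)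
  have h1 : ∫ y, refl f (y / √n) ∂(fre ρ k x) = ∫ ω, g (S k ω / √k) ∂(seqLaw ρ) := by
    unfold fre
    rw [integral_map]
    · apply integral_congr_ae
      refine Filter.Eventually.of_forall fun ω => ?_
      simp only [g]
      congr 1
      rw [hx', hs, Real.sqrt_div hk0.le]
      field_simp
    · exact ((B6a_S k).const_add x).aemeasurable
    · exact ((B6a_meas hf).comp (measurable_id.div_const _)).aestronglyMeasurable
  have h2 : AA (k / n) f x' = ∫ z, g z ∂(gaussianReal 0 1) :=
    AA_eq ht f (B6a_cont hf).measurable 1 hf.bd x'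
  rw [h1, h2]
  apply hK k hKk
  · intro z
    exact B6a_bd hf _
  · refine ⟨-x' / s, ?_, ?_⟩
    · intro z w hz hw
      rw [lt_div_iff₀ hs0] at hz hw
      have e1 : g z = -f (-(x' + s * z)) := by
        simp only [g, refl]
        rw [if_neg (by linarith)]
      have e2 : g w = -f (-(x' + s * w)) := by
        simp only [g, refl]
        rw [if_neg (by linarith)]
      rw [e1, e2]
      have e3 : |-f (-(x' + s * z)) - -f (-(x' + s * w))| =
          |f (-(x' + s * z)) - f (-(x' + s * w))| := by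
        rw [← abs_neg]
        congr 1
        ring
      rw [e3]
      refine (hf.lip _ _).trans ?_
      have e4 : -(x' + s * z) - -(x' + s * w) = -(s * (z - w)) := by ring
      rw [e4, abs_neg, abs_mul, abs_of_pos hs0, one_mul]
      exact mul_le_of_le_one_left (abs_nonneg _) hs1
    · intro z w hz hw
      rw [div_le_iff₀ hs0] at hz hw
      have e1 : g z = f (x' + s * z) := by
        simp only [g, refl]
        rw [if_pos (by linarith)]
      have e2 : g w = f (x' + s * w) := by
        simp only [g, refl]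
        rw [if_pos (by linarith)]
      rw [e1, e2]
      refine (hf.lip _ _).trans ?_
      have e4 : x' + s * z - (x' + s * w) = s * (z - w) := by ring
      rw [e4, abs_mul, abs_of_pos hs0, one_mul]
      exact mul_le_of_le_one_left (abs_nonneg _) hs1

end Pool.Agent.BPT
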