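import Pool.Agent.MP_99a865_pr.FV.B6
import Pool.Agent.MP_99a865_pr.FV.A9

open MeasureTheory ProbabilityTheory Filter Topology
open scoped ENNReal NNReal

namespace Pool.Agent.BPT

variable {D : Set ℝ} {ρ : Measure ℝ}

/-- the limit of the expectations of the killed walk -/
theorem B7_lim (hD : Dom D) (hρ : Std ρ) : ∃ v > (0 : ℝ),
    (∀ k, (ee D ρ k 0).toReal ≤ v) ∧ (∀ k, ee D ρ k 0 ≠ ∞) ∧
    Tendsto (fun k => (ee D ρ k 0).toReal) atTop (𝓝 v) := by
  obtain ⟨C, hC⟩ := ee_bound hD hρ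
  have hfin : ∀ k, ee D ρ k 0 ≤ C := by
    intro k
    have := hC k 0 le_rfl
    simpa using this
  have hmono : Monotone fun k => ee D ρ k 0 := fun k l hkl => ee_mono_time hD hρ hkl 0 le_rfl
  set V := ⨆ k, ee D ρ k 0 with hV
  have hVfin : V ≤ C := iSup_le hfin
  have hVtop : V ≠ ∞ := ne_top_of_le_ne_top ENNReal.coe_ne_top hVfin
  have hVpos : 0 < V := lt_of_lt_of_le (ee_one_pos hD hρ) (le_iSup (fun k => ee D ρ k 0) 1)
  refine ⟨V.toReal, ENNReal.toReal_pos hVpos.ne' hVtop, fun k => ?_, fun k => ?_, ?_⟩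
  · exact ENNReal.toReal_mono hVtop (le_iSup (fun k => ee D ρ k 0) k)
  · exact ne_top_of_le_ne_top ENNReal.coe_ne_top (hfin k)
  · exact (ENNReal.tendsto_toReal hVtop).comp (tendsto_atTop_iSup hmono)

/-- **[FV-B7]** Limit law of the walk from 0 conditioned to stay in `D` up to time `k ~ tn`
(Brownian meander), with the unnormalised asymptotics of the survival probability. -/
theorem meander (hD : Dom D) (hρ : Std ρ) : ∃ v > (0 : ℝ), ∀ c : ℝ, 0 < c → c ≤ 1 → ∀ ε > (0 : ℝ),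
    ∃ n₀ : ℕ, ∀ n ≥ n₀, ∀ k : ℕ, c * n ≤ k → k ≤ n → ∀ f : ℝ → ℝ, BL 1 f →
      |√n * ∫ y, f (y / √n) ∂(kap D ρ k 0) - v * DD (k / n) f| ≤ ε := by
  have hprob := hρ.prob
  obtain ⟨v, hv0, hvle, hfin, hvlim⟩ := B7_lim hD hρ
  obtain ⟨C₁, hC₁, hsurv⟩ := surv hD hρ
  obtain ⟨C₂, hC₂, hmom⟩ := mom2 hD hρ
  refine ⟨v, hv0, fun c hc hc1 ε hε => ?_⟩
  -- choice of r
  obtain ⟨r, hr0, hrc, hr1, hr2⟩ : ∃ r : ℝ, 0 < r ∧ r ≤ c / 4 ∧ 4 * C₂ * √r / c ≤ ε / 4 ∧
      32 * r * v / c ^ 2 ≤ ε / 4 := by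
    refine ⟨min (c / 4) (min ((ε * c / (16 * C₂)) ^ 2) (ε * c ^ 2 / (128 * v))), ?_, ?_, ?_, ?_⟩
    · exact lt_min (by positivity) (lt_min (by positivity) (by positivity))
    · exact min_le_left _ _
    · have h1 : √(min (c / 4) (min ((ε * c / (16 * C₂)) ^ 2) (ε * c ^ 2 / (128 * v)))) ≤
          ε * c / (16 * C₂) := by
        rw [Real.sqrt_le_left (by positivity)]
        exact (min_le_right _ _).trans (min_le_left _ _)
      calc 4 * C₂ * √(min (c / 4) (min ((ε * c / (16 * C₂)) ^ 2) (ε * c ^ 2 / (128 * v)))) / c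
          ≤ 4 * C₂ * (ε * c / (16 * C₂)) / c := by gcongr
        _ = ε / 4 := by field_simp; norm_num
    · have h1 : min (c / 4) (min ((ε * c / (16 * C₂)) ^ 2) (ε * c ^ 2 / (128 * v))) ≤
          ε * c ^ 2 / (128 * v) := (min_le_right _ _).trans (min_le_right _ _)
      calc 32 * min (c / 4) (min ((ε * c / (16 * C₂)) ^ 2) (ε * c ^ 2 / (128 * v))) * v / c ^ 2
          ≤ 32 * (ε * c ^ 2 / (128 * v)) * v / c ^ 2 := by gcongr
        _ = ε / 4 := by field_simp; norm_num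
  set ε' : ℝ := ε / (4 * (C₁ * √(2 / r))) with hε'
  have hsr : 0 < √(2 / r) := Real.sqrt_pos.mpr (by positivity)
  have hε'0 : 0 < ε' := by positivity
  obtain ⟨n₁, hn₁⟩ := killed_refl hD hρ (half_pos hc) ε' hε'0
  have hsc : 0 < √c := Real.sqrt_pos.mpr hc
  have hev : ∀ᶠ m : ℕ in atTop, |(ee D ρ m 0).toReal - v| < √c * ε / 4 := by
    have := Metric.tendsto_atTop.mp hvlim (√c * ε / 4) (by positivity)
    obtain ⟨N, hN⟩ := this
    filter_upwards [eventually_ge_atTop N] with m hm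
    have := hN m hm
    rwa [Real.dist_eq] at this
  obtain ⟨K, hK⟩ := eventually_atTop.mp hev
  obtain ⟨n₂, hn₂⟩ := exists_nat_ge (((K : ℝ) + 2) / r)
  refine ⟨max n₁ (max n₂ 1), fun n hn k hck hkn f hf => ?_⟩
  simp only [ge_iff_le, max_le_iff] at hn
  obtain ⟨h1, h2, h3⟩ := hn
  have hnpos : (0 : ℝ) < n := by exact_mod_cast h3
  have hsn : 0 < √(n : ℝ) := Real.sqrt_pos.mpr hnpos
  have hrn : (K : ℝ) + 2 ≤ r * n := by
    have h4 : ((K : ℝ) + 2) / r ≤ n := hn₂.trans (by exact_mod_cast h2)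
    rw [div_le_iff₀ hr0] at h4
    linarith
  set m := ⌊r * n⌋₊ with hm
  have hmle : (m : ℝ) ≤ r * n := Nat.floor_le (by positivity)
  have hmgt : r * n < m + 1 := Nat.lt_floor_add_one _
  have hmhalf : r / 2 * n ≤ m := by
    have : (0 : ℝ) ≤ K := Nat.cast_nonneg K
    linarith
  have hKm : K ≤ m := by
    have : (K : ℝ) < m := by linarith
    exact_mod_cast this.le
  have hm1 : 1 ≤ m := by
    have : (1 : ℝ) ≤ m := by
      have : (0 : ℝ) ≤ K := Nat.cast_nonneg K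
      linarith
    exact_mod_cast this
  have hmk : m ≤ k := by
    have : (m : ℝ) ≤ k := by nlinarith
    exact_mod_cast this
  have hkm : c / 2 * n ≤ ((k - m : ℕ) : ℝ) := by
    rw [Nat.cast_sub hmk]; nlinarith
  have hkmn : k - m ≤ n := by omega
  have hfm : Measurable f := (B6_cont hf).measurable
  set κ := kap D ρ m 0 with hκ
  set A : ℝ → ℝ := fun y => AA (((k - m : ℕ) : ℝ) / n) f (y / √n) with hA
  set h : ℝ → ℝ := fun y => ∫ z, f (z / √n) ∂(kap D ρ (k - m) y) with hh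
  set t' : ℝ := ((k - m : ℕ) : ℝ) / n with ht'
  have ht'c : c / 2 ≤ t' := by rw [ht', le_div_iff₀ hnpos]; exact hkm
  have ht'0 : 0 < t' := lt_of_lt_of_le (half_pos hc) ht'c
  have hf'm : Measurable (fun z : ℝ => f (z / √n)) := hfm.comp (measurable_id.div_const _)
  have hf'b : ∀ z : ℝ, |f (z / √n)| ≤ 1 := fun z => hf.bd _
  have hkapk : ∫ y, f (y / √n) ∂(kap D ρ k 0) = ∫ y, h y ∂κ := by
    have := integral_kap_add hD m (k - m) 0 (fun z => f (z / √n)) hf'm 1 hf'b (ρ := ρ)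
    rw [Nat.add_sub_cancel' hmk] at this
    exact this
  have hhm : Measurable h := measurable_integral_kap hD (k - m) _ hf'm 1 hf'b
  have hhb : ∀ y, |h y| ≤ 1 := by
    intro y
    have h4 : ‖∫ z, f (z / √n) ∂(kap D ρ (k - m) y)‖ ≤ 1 * (kap D ρ (k - m) y).real Set.univ :=
      norm_integral_le_of_norm_le_const (Eventually.of_forall hf'b)
    have h5 := B6_kap_real_le (D := D) (ρ := ρ) (k - m) y
    rw [one_mul] at h4
    exact h4.trans h5
  have hAm : Measurable A := (measurable_AA ht'0 f hfm).comp (measurable_id.div_const _)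
  have hAb : ∀ y, |A y| ≤ 1 := fun y => (abs_AA_le ht'0 f hfm 1 hf.bd _).1
  have hhi : Integrable h κ := Integrable.of_bound hhm.aestronglyMeasurable 1
    (Eventually.of_forall hhb)
  have hAi : Integrable A κ := Integrable.of_bound hAm.aestronglyMeasurable 1
    (Eventually.of_forall hAb)
  have hy0 : ∀ᵐ y ∂κ, 0 ≤ y := by
    have h2 : ∀ᵐ w ∂κ, w ∈ D := by
      rw [ae_iff]; exact kap_compl hD m 0 (Or.inl hm1)
    filter_upwards [h2] with w hw
    exact hD.nonneg hw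
  have hmom' := (hmom m 0 le_rfl).1
  have hmom2 : ∫⁻ y, ENNReal.ofReal (y ^ 2) ∂κ ≤ ENNReal.ofReal (C₂ * √m) := by
    have h4 : (0 : ℝ) ^ 2 + C₂ * (1 + 0) * √(m : ℝ) = C₂ * √m := by ring
    rw [h4] at hmom'
    exact hmom'
  have hsqm : Measurable (fun y : ℝ => y ^ 2) := measurable_id.pow_const 2
  have hsqi : Integrable (fun y : ℝ => y ^ 2) κ := by
    rw [← lintegral_ofReal_ne_top_iff_integrable hsqm.aestronglyMeasurable
      (Eventually.of_forall fun y => sq_nonneg y)]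
    exact ne_top_of_le_ne_top ENNReal.ofReal_ne_top hmom2
  have hsqle : ∫ y, y ^ 2 ∂κ ≤ C₂ * √m := by
    rw [integral_eq_lintegral_of_nonneg_ae (Eventually.of_forall fun y => sq_nonneg y)
      hsqm.aestronglyMeasurable]
    exact ENNReal.toReal_le_of_le_ofReal (by positivity) hmom2
  have hyi : Integrable (fun y : ℝ => y) κ :=
    ((memLp_two_iff_integrable_sq measurable_id'.aestronglyMeasurable).mpr hsqi).integrable
      one_le_two
  have hye : ∫ y, y ∂κ = (ee D ρ m 0).toReal := by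
    rw [integral_eq_lintegral_of_nonneg_ae hy0 measurable_id'.aestronglyMeasurable]
    rfl
  -- step B
  have hB : |√n * ∫ y, (h y - A y) ∂κ| ≤ ε / 4 := by
    have h4 : ‖∫ y, (h y - A y) ∂κ‖ ≤ ε' * κ.real Set.univ := by
      apply norm_integral_le_of_norm_le_const
      filter_upwards [hy0] with y hy
      exact hn₁ n h1 (k - m) hkm hkmn f hf y hy
    have h5 : κ.real Set.univ ≤ C₁ / √m := by
      have := hsurv m hm1 0 le_rfl
      simpa using this
    rw [abs_mul, abs_of_pos hsn]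
    rw [Real.norm_eq_abs] at h4
    have hsm : 0 < √(m : ℝ) := Real.sqrt_pos.mpr (by exact_mod_cast hm1)
    have h6 : √(n : ℝ) / √m ≤ √(2 / r) := by
      rw [← Real.sqrt_div hnpos.le]
      apply Real.sqrt_le_sqrt
      rw [div_le_div_iff₀ (by exact_mod_cast hm1) hr0]
      linarith
    calc √n * |∫ y, (h y - A y) ∂κ| ≤ √n * (ε' * (C₁ / √m)) := by
          apply mul_le_mul_of_nonneg_left _ hsn.le
          exact h4.trans (mul_le_mul_of_nonneg_left h5 hε'0.le)
      _ = ε' * C₁ * (√(n : ℝ) / √m) := by ring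
      _ ≤ ε' * C₁ * √(2 / r) := mul_le_mul_of_nonneg_left h6 (by positivity)
      _ = ε / 4 := by rw [hε']; field_simp
  -- step C
  have hC : |∫ y, (√n * A y - DD t' f * y) ∂κ| ≤ ε / 4 := by
    have h4 : ‖∫ y, (√n * A y - DD t' f * y) ∂κ‖ ≤ ∫ y, (4 / (c * √n)) * y ^ 2 ∂κ := by
      apply norm_integral_le_of_norm_le (hsqi.const_mul _)
      filter_upwards [hy0] with y hy
      have h5 := AA_expand ht'0 f hfm 1 hf.bd (div_nonneg hy hsn.le)
      rw [Real.norm_eq_abs]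
      have h6 : √n * A y - DD t' f * y = √n * (AA t' f (y / √n) - y / √n * DD t' f) := by
        rw [hA]
        field_simp
      rw [h6, abs_mul, abs_of_pos hsn]
      calc √n * |AA t' f (y / √n) - y / √n * DD t' f| ≤ √n * (2 * 1 * (y / √n) ^ 2 / t') :=
            mul_le_mul_of_nonneg_left h5 hsn.le
        _ = 2 * y ^ 2 / √n * (1 / t') := by field_simp
        _ ≤ 2 * y ^ 2 / √n * (1 / (c / 2)) := by
            apply mul_le_mul_of_nonneg_left _ (by positivity)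
            exact one_div_le_one_div_of_le (half_pos hc) ht'c
        _ = (4 / (c * √n)) * y ^ 2 := by field_simp; ring
    rw [Real.norm_eq_abs, integral_const_mul] at h4
    have h6 : √(m : ℝ) ≤ √r * √n := by
      rw [← Real.sqrt_mul hr0.le]
      exact Real.sqrt_le_sqrt hmle
    calc |∫ y, (√n * A y - DD t' f * y) ∂κ| ≤ (4 / (c * √n)) * ∫ y, y ^ 2 ∂κ := h4
      _ ≤ (4 / (c * √n)) * (C₂ * (√r * √n)) := by
          apply mul_le_mul_of_nonneg_left _ (by positivity)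
          exact hsqle.trans (mul_le_mul_of_nonneg_left h6 hC₂.le)
      _ = 4 * C₂ * √r / c := by field_simp
      _ ≤ ε / 4 := hr1
  -- step D
  have hkn' : (0 : ℝ) < (k : ℝ) / n := by
    have : c ≤ (k : ℝ) / n := by rw [le_div_iff₀ hnpos]; exact hck
    linarith
  have hck' : c ≤ (k : ℝ) / n := by rw [le_div_iff₀ hnpos]; exact hck
  have hem0 : 0 ≤ (ee D ρ m 0).toReal := ENNReal.toReal_nonneg
  have hDt : |DD t' f - DD (k / n) f| ≤ 32 * r / c ^ 2 := by
    have h4 := DD_time (half_pos hc) (by linarith) (by linarith : c / 2 ≤ (k : ℝ) / n) ht'c f hfm 1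
      hf.bd
    have h5 : |t' - (k : ℝ) / n| ≤ r := by
      rw [ht', Nat.cast_sub hmk]
      have h7 : ((k : ℝ) - m) / n - k / n = -(m / n) := by ring
      rw [h7, abs_neg, abs_of_nonneg (by positivity), div_le_iff₀ hnpos]
      exact hmle
    calc |DD t' f - DD (k / n) f| ≤ 8 * 1 * |t' - (k : ℝ) / n| / (c / 2) ^ 2 := h4
      _ ≤ 8 * 1 * r / (c / 2) ^ 2 := by gcongr
      _ = 32 * r / c ^ 2 := by field_simp; norm_num
  have hD1 : |(DD t' f - DD (k / n) f) * (ee D ρ m 0).toReal| ≤ ε / 4 := by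
    rw [abs_mul, abs_of_nonneg hem0]
    calc |DD t' f - DD (k / n) f| * (ee D ρ m 0).toReal ≤ 32 * r / c ^ 2 * v :=
          mul_le_mul hDt (hvle m) hem0 (by positivity)
      _ = 32 * r * v / c ^ 2 := by ring
      _ ≤ ε / 4 := hr2
  have hD2 : |DD (k / n) f * ((ee D ρ m 0).toReal - v)| ≤ ε / 4 := by
    rw [abs_mul]
    have h4 := abs_DD_le hkn' f hfm 1 hf.bd
    have h5 : (1 : ℝ) / √((k : ℝ) / n) ≤ 1 / √c :=
      one_div_le_one_div_of_le hsc (Real.sqrt_le_sqrt hck')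
    calc |DD (k / n) f| * |(ee D ρ m 0).toReal - v| ≤ (1 / √c) * (√c * ε / 4) :=
          mul_le_mul (h4.trans h5) (hK m hKm).le (abs_nonneg _) (by positivity)
      _ = ε / 4 := by field_simp
  -- total
  have hsum : √n * ∫ y, f (y / √n) ∂(kap D ρ k 0) - v * DD (k / n) f =
      √n * ∫ y, (h y - A y) ∂κ + ∫ y, (√n * A y - DD t' f * y) ∂κ +
      (DD t' f - DD (k / n) f) * (ee D ρ m 0).toReal +
      DD (k / n) f * ((ee D ρ m 0).toReal - v) := by
    rw [hkapk, integral_sub hhi hAi, integral_sub (hAi.const_mul _) (hyi.const_mul _),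
      integral_const_mul, integral_const_mul, hye]
    ring
  rw [hsum]
  calc _ ≤ |√n * ∫ y, (h y - A y) ∂κ + ∫ y, (√n * A y - DD t' f * y) ∂κ +
        (DD t' f - DD (k / n) f) * (ee D ρ m 0).toReal| +
        |DD (k / n) f * ((ee D ρ m 0).toReal - v)| := abs_add_le _ _
    _ ≤ (|√n * ∫ y, (h y - A y) ∂κ + ∫ y, (√n * A y - DD t' f * y) ∂κ| +
        |(DD t' f - DD (k / n) f) * (ee D ρ m 0).toReal|) +
        |DD (k / n) f * ((ee D ρ m 0).toReal - v)| := by gcongr; exact abs_add_le _ _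
    _ ≤ ((|√n * ∫ y, (h y - A y) ∂κ| + |∫ y, (√n * A y - DD t' f * y) ∂κ|) +
        |(DD t' f - DD (k / n) f) * (ee D ρ m 0).toReal|) +
        |DD (k / n) f * ((ee D ρ m 0).toReal - v)| := by gcongr; exact abs_add_le _ _
    _ ≤ ε := by linarith

end Pool.Agent.BPT
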