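import Pool.Agent.MP_99a865_pr.FV.A1c

open MeasureTheory ProbabilityTheory Filter Topology
open scoped ENNReal NNReal

namespace Pool.Agent.BPT

variable {D : Set ℝ} {ρ : Measure ℝ}

/-- equality case of the triangle inequality -/
theorem C0_ae (hρ : IsProbabilityMeasure ρ) (t : ℝ) :
    (∃ c : ℂ, ∀ᵐ x : ℝ ∂ρ, Complex.exp (t * x * Complex.I) = c) ∨ ‖charFun ρ t‖ < 1 := by
  have h := ae_eq_const_or_norm_integral_lt_of_norm_le_const (μ := ρ)
    (f := fun x : ℝ => Complex.exp (t * x * Complex.I)) (C := 1)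
    (Eventually.of_forall fun x => by
      have : (t : ℂ) * x * Complex.I = ((t * x : ℝ) : ℂ) * Complex.I := by push_cast; ring
      rw [this, Complex.norm_exp_ofReal_mul_I])
  rcases h with h | h
  · left
    exact ⟨_, h⟩
  · right
    rw [charFun_apply_real]
    simpa using h

/-- conversely -/
theorem C0_norm (hρ : IsProbabilityMeasure ρ) (t : ℝ) (c : ℂ)
    (h : ∀ᵐ x : ℝ ∂ρ, Complex.exp (t * x * Complex.I) = c) : ‖charFun ρ t‖ = 1 := by
  rw [charFun_apply_real, integral_congr_ae h]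
  obtain ⟨x, hx⟩ := h.exists
  rw [integral_const, ← hx]
  have : (t : ℂ) * x * Complex.I = ((t * x : ℝ) : ℂ) * Complex.I := by push_cast; ring
  rw [this, norm_smul, Complex.norm_exp_ofReal_mul_I]
  simp

/-- The group of the `t` for which `exp (i t x)` is almost surely constant. -/
noncomputable def C0_T (ρ : Measure ℝ) : AddSubgroup ℝ where
  carrier := {t | ∃ c : ℂ, c ≠ 0 ∧ ∀ᵐ x ∂ρ, Complex.exp ((t : ℝ) * (x : ℝ) * Complex.I) = c}
  zero_mem' := ⟨1, one_ne_zero, Eventually.of_forall fun x => by simp⟩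
  add_mem' := by
    rintro s t ⟨c, hc0, hc⟩ ⟨d, hd0, hd⟩
    refine ⟨c * d, mul_ne_zero hc0 hd0, ?_⟩
    filter_upwards [hc, hd] with x h1 h2
    rw [← h1, ← h2, ← Complex.exp_add]
    congr 1; push_cast; ring
  neg_mem' := by
    rintro t ⟨c, hc0, hc⟩
    refine ⟨c⁻¹, inv_ne_zero hc0, ?_⟩
    filter_upwards [hc] with x h1
    rw [← h1, ← Complex.exp_neg]
    congr 1; push_cast; ring

theorem C0_mem (hρ : IsProbabilityMeasure ρ) (t : ℝ) : t ∈ C0_T ρ ↔ ¬ ‖charFun ρ t‖ < 1 := by
  constructor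
  · rintro ⟨c, hc0, hc⟩ h
    rw [C0_norm hρ t c hc] at h
    exact lt_irrefl _ h
  · intro h
    rcases C0_ae hρ t with ⟨c, hc⟩ | h'
    · refine ⟨c, ?_, hc⟩
      obtain ⟨x, hx⟩ := hc.exists
      rw [← hx]
      exact Complex.exp_ne_zero _
    · exact absurd h' h

theorem C0_eq {s x y : ℝ} (hs : 0 < s) (h : Complex.exp (s * x * Complex.I) =
    Complex.exp (s * y * Complex.I)) (hxy : s * |x - y| < 2 * Real.pi) : x = y := by
  rw [Complex.exp_eq_exp_iff_exists_int] at h
  obtain ⟨n, hn⟩ := h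
  have h1 : s * x = s * y + n * (2 * Real.pi) := by
    have h2 : ((s * x : ℝ) : ℂ) * Complex.I = ((s * y + n * (2 * Real.pi) : ℝ) : ℂ) * Complex.I := by
      push_cast
      rw [hn]; ring
    exact_mod_cast mul_right_cancel₀ Complex.I_ne_zero h2
  have h3 : s * (x - y) = n * (2 * Real.pi) := by linarith
  have h4 : |(n : ℝ)| * (2 * Real.pi) < 2 * Real.pi := by
    have h5 : |s * (x - y)| = s * |x - y| := by rw [abs_mul, abs_of_pos hs]
    rw [h3, abs_mul, abs_of_pos (by positivity : (0 : ℝ) < 2 * Real.pi)] at h5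
    rw [h5]; exact hxy
  have h6 : |(n : ℝ)| < 1 := by
    have hp : (0 : ℝ) < 2 * Real.pi := by positivity
    by_contra hcon
    push Not at hcon
    nlinarith
  have h7 : n = 0 := by
    have : |n| < 1 := by exact_mod_cast h6
    exact Int.abs_lt_one_iff.mp this
  rw [h7] at h3
  simp only [Int.cast_zero, zero_mul] at h3
  rcases mul_eq_zero.mp h3 with h | h
  · exact absurd h hs.ne'
  · linarith

/-- the group is not dense -/
theorem C0_not_dense (hρ : Std ρ) : ¬ Dense (C0_T ρ : Set ℝ) := by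
  intro hd
  have hprob := hρ.prob
  have h1 : ∀ n : ℕ, ∃ t : ℝ, t ∈ C0_T ρ ∧ 0 < t ∧ t < 1 / ((n : ℝ) + 1) := by
    intro n
    have hpos : (0 : ℝ) < 1 / ((n : ℝ) + 1) := by positivity
    obtain ⟨t, ht, h2⟩ := hd.exists_between hpos
    exact ⟨t, ht, h2.1, h2.2⟩
  choose t ht ht0 ht1 using h1
  choose c hc0 hc using ht
  have hall : ∀ᵐ x ∂ρ, ∀ n, Complex.exp ((t n : ℝ) * (x : ℝ) * Complex.I) = c n :=
    ae_all_iff.mpr hc
  obtain ⟨y, hy⟩ := hall.exists
  have hxy : ∀ᵐ x ∂ρ, x = y := by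
    filter_upwards [hall] with x hx
    obtain ⟨n, hn⟩ := exists_nat_ge |x - y|
    apply C0_eq (ht0 n) ((hx n).trans (hy n).symm)
    have hn1 : (0 : ℝ) < (n : ℝ) + 1 := by positivity
    calc t n * |x - y| ≤ 1 / ((n : ℝ) + 1) * |x - y| :=
          mul_le_mul_of_nonneg_right (ht1 n).le (abs_nonneg _)
      _ ≤ 1 / ((n : ℝ) + 1) * ((n : ℝ) + 1) := by
          apply mul_le_mul_of_nonneg_left _ (by positivity)
          linarith
      _ = 1 := by field_simp
      _ < 2 * Real.pi := by have := Real.pi_gt_three; linarith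
  have hmean := hρ.mean
  rw [integral_congr_ae hxy] at hmean
  have hvar := hρ.var
  have hxy2 : ∀ᵐ x ∂ρ, x ^ 2 = y ^ 2 := by
    filter_upwards [hxy] with x hx
    rw [hx]
  rw [integral_congr_ae hxy2] at hvar
  simp at hmean hvar
  rw [hmean] at hvar
  norm_num at hvar

/-- **[FV-C0]** Lattice dichotomy.
PROOF. If `‖charFun ρ t‖ = 1` for some `t ≠ 0` then (equality case of the triangle inequality)
`e^{itX}` is a.s. constant. The set `T = {t | ‖charFun ρ t‖ = 1}` is a
subgroup of `ℝ` and it is not dense. So `T = t₀ℤ` with `t₀ > 0`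
(`AddSubgroup.dense_or_cyclic`). Let `h = 2π/t₀` and let `a` satisfy
`e^{i t₀ X} = e^{i t₀ a}` a.s.; then `X ∈ a + hℤ` a.s., and `‖charFun ρ t‖ < 1` for
`0 < t < 2π/h`. -/
theorem lattice_dichotomy (hρ : Std ρ) :
    (∀ t : ℝ, t ≠ 0 → ‖charFun ρ t‖ < 1) ∨
    (∃ a h : ℝ, 0 < h ∧ (∀ᵐ x ∂ρ, ∃ j : ℤ, x = a + h * j) ∧
      ∀ t : ℝ, 0 < t → t < 2 * Real.pi / h → ‖charFun ρ t‖ < 1) := by
  have hprob := hρ.prob
  rcases AddSubgroup.dense_or_cyclic (C0_T ρ) with hd | ⟨b, hb⟩
  · exact absurd hd (C0_not_dense hρ)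
  · by_cases hb0 : b = 0
    · left
      intro t ht
      by_contra hcon
      have hmem := (C0_mem hprob t).mpr hcon
      rw [hb, hb0, AddSubgroup.mem_closure_singleton] at hmem
      obtain ⟨n, hn⟩ := hmem
      simp at hn
      exact ht hn.symm
    · right
      set s := |b| with hs
      have hs0 : 0 < s := abs_pos.mpr hb0
      have hsT : s ∈ C0_T ρ := by
        have hbT : b ∈ C0_T ρ := by
          rw [hb]; exact AddSubgroup.subset_closure rfl
        rcases abs_choice b with h | h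
        · rw [hs, h]; exact hbT
        · rw [hs, h]; exact (C0_T ρ).neg_mem hbT
      obtain ⟨c, hc0, hc⟩ := hsT
      obtain ⟨y, hy⟩ := hc.exists
      refine ⟨y, 2 * Real.pi / s, by positivity, ?_, ?_⟩
      · filter_upwards [hc] with x hx
        have h1 := hx.trans hy.symm
        rw [Complex.exp_eq_exp_iff_exists_int] at h1
        obtain ⟨n, hn⟩ := h1
        refine ⟨n, ?_⟩
        have h2 : s * x = s * y + n * (2 * Real.pi) := by
          have h3 : ((s * x : ℝ) : ℂ) * Complex.I =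
              ((s * y + n * (2 * Real.pi) : ℝ) : ℂ) * Complex.I := by
            push_cast
            rw [hn]; ring
          exact_mod_cast mul_right_cancel₀ Complex.I_ne_zero h3
        field_simp
        linarith
      · intro t ht0 ht
        by_contra hcon
        have hmem := (C0_mem hprob t).mpr hcon
        rw [hb, AddSubgroup.mem_closure_singleton] at hmem
        obtain ⟨n, hn⟩ := hmem
        have h1 : 2 * Real.pi / (2 * Real.pi / s) = s := by
          field_simp
        rw [h1] at ht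
        rw [zsmul_eq_mul] at hn
        have h2 : |(n : ℝ)| * s = t := by
          rw [hs, ← abs_mul, hn, abs_of_pos ht0]
        have h3 : |(n : ℝ)| < 1 := by
          by_contra h
          push Not at h
          nlinarith
        have h4 : n = 0 := by
          have : |n| < 1 := by exact_mod_cast h3
          exact Int.abs_lt_one_iff.mp this
        rw [h4] at h2
        simp at h2
        linarith

end Pool.Agent.BPT
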