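import Pool.Agent.MP_99a865_pr.FV.A1c

open MeasureTheory ProbabilityTheory Filter Topology
open scoped ENNReal NNReal

namespace Pool.Agent.BPT

variable {D : Set ℝ} {ρ : Measure ℝ}

/-- **[FV-C0]** expansion at zero: there is `δ > 0` with `‖charFun ρ t‖ ≤ exp (-t²/4)` for `|t| ≤ δ` and
for every fixed `t`, `charFun ρ (t/√k)^k → exp (-t²/2)` (this is in Mathlib's central limit theorem:
`tendsto_charFun_inv_sqrt_mul_pow`). -/
theorem charFun_small (hρ : Std ρ) : ∃ δ > (0 : ℝ), ∀ t : ℝ, |t| ≤ δ →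
    ‖charFun ρ t‖ ≤ Real.exp (-t ^ 2 / 4) := by
  haveI := hρ.prob
  have h := taylor_charFun_two (P := ρ) (X := fun x : ℝ => x) aemeasurable_id
    (by simpa using hρ.mean) (by simpa using hρ.var)
  have h2 := h.def (show (0 : ℝ) < 1 / 8 by norm_num)
  rw [Metric.eventually_nhds_iff] at h2
  obtain ⟨ε, hε, h3⟩ := h2
  refine ⟨min (ε / 2) 1, by positivity, fun t ht => ?_⟩
  have ht1 : |t| ≤ 1 := ht.trans (min_le_right _ _)
  have ht2 : |t| < ε := by
    have := ht.trans (min_le_left _ _)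
    linarith
  have h4 := h3 (y := t) (by simpa [Real.dist_eq] using ht2)
  have hid : ρ.map (fun x : ℝ => x) = ρ := Measure.map_id
  rw [hid] at h4
  have ht3 : t ^ 2 ≤ 1 := by
    have := sq_abs t
    nlinarith [abs_nonneg t]
  have h5 : ‖(1 - (t : ℂ) ^ 2 / 2 : ℂ)‖ = 1 - t ^ 2 / 2 := by
    have : (1 - (t : ℂ) ^ 2 / 2 : ℂ) = ((1 - t ^ 2 / 2 : ℝ) : ℂ) := by push_cast; ring
    rw [this, Complex.norm_real, Real.norm_eq_abs, abs_of_nonneg (by linarith)]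
  have h6 : ‖charFun ρ t - (1 - (t : ℂ) ^ 2 / 2)‖ ≤ 1 / 8 * t ^ 2 := by
    refine le_trans (le_of_eq ?_) (h4.trans (le_of_eq ?_))
    · congr 1
    · simp
  have h7 : ‖charFun ρ t‖ ≤ 1 - t ^ 2 / 4 := by
    calc ‖charFun ρ t‖ = ‖(charFun ρ t - (1 - (t : ℂ) ^ 2 / 2)) + (1 - (t : ℂ) ^ 2 / 2)‖ := by
          congr 1; ring
      _ ≤ 1 / 8 * t ^ 2 + (1 - t ^ 2 / 2) := (norm_add_le _ _).trans (by rw [h5]; gcongr)
      _ ≤ 1 - t ^ 2 / 4 := by nlinarith [sq_nonneg t]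
  refine h7.trans ?_
  have := Real.add_one_le_exp (-t ^ 2 / 4)
  linarith

theorem charFun_clt (hρ : Std ρ) (t : ℝ) :
    Tendsto (fun k : ℕ => charFun ρ (t / √k) ^ k) atTop (𝓝 (Complex.exp (-(t : ℂ) ^ 2 / 2))) := by
  haveI := hρ.prob
  have h := tendsto_charFun_inv_sqrt_mul_pow (P := ρ) (X := fun x : ℝ => x) aemeasurable_id
    (by simpa using hρ.mean) (by simpa using hρ.var) t
  have hid : ρ.map (fun x : ℝ => x) = ρ := Measure.map_id
  rw [hid] at h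
  refine h.congr fun n => ?_
  rw [div_eq_inv_mul]

end Pool.Agent.BPT
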