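import Pool.Agent.MP_99a865_pr.FV.C0b
import Pool.Agent.MP_99a865_pr.FV.A3

open MeasureTheory ProbabilityTheory Filter Topology
open scoped ENNReal NNReal

namespace Pool.Agent.BPT

variable {D : Set ℝ} {ρ : Measure ℝ}

/-- uniform gaussian bound for the characteristic function -/
theorem C1_bound (hρ : Std ρ) (A : ℝ) (hA : 0 < A)
    (hap : ∀ t : ℝ, 0 < t → t ≤ A → ‖charFun ρ t‖ < 1) :
    ∃ c > (0 : ℝ), ∀ t, |t| ≤ A → ‖charFun ρ t‖ ≤ Real.exp (-c * t ^ 2) := by
  have := hρ.prob
  obtain ⟨δ, hδ, hsmall⟩ := charFun_small hρ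
  obtain ⟨t0, ht0, hmax⟩ := (isCompact_Icc (a := min δ A) (b := A)).exists_isMaxOn
    ⟨A, min_le_right _ _, le_refl _⟩ (f := fun t => ‖charFun ρ t‖)
    (continuous_charFun.norm.continuousOn)
  have ht0pos : 0 < t0 := lt_of_lt_of_le (lt_min hδ hA) ht0.1
  have hθ0 : ‖charFun ρ t0‖ < 1 := hap t0 ht0pos ht0.2
  set θ : ℝ := max ‖charFun ρ t0‖ (1 / 2) with hθ
  have hθ1 : θ < 1 := max_lt hθ0 (by norm_num)
  have hθp : 0 < θ := lt_of_lt_of_le (by norm_num) (le_max_right _ _)
  have hlog : 0 < -Real.log θ := by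
    have := Real.log_neg hθp hθ1
    linarith
  refine ⟨min (1 / 4) (-Real.log θ / A ^ 2), lt_min (by norm_num) (by positivity), ?_⟩
  intro t ht
  by_cases h : |t| ≤ δ
  · refine (hsmall t h).trans ?_
    rw [Real.exp_le_exp]
    have h1 : min (1 / 4) (-Real.log θ / A ^ 2) * t ^ 2 ≤ 1 / 4 * t ^ 2 :=
      mul_le_mul_of_nonneg_right (min_le_left _ _) (sq_nonneg t)
    linarith
  · push Not at h
    have h1 : ‖charFun ρ t‖ = ‖charFun ρ |t|‖ := by
      rcases abs_cases t with ⟨e, _⟩ | ⟨e, _⟩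
      · rw [e]
      · rw [e, charFun_neg, RCLike.norm_conj]
    have h2 : ‖charFun ρ |t|‖ ≤ θ := by
      refine le_trans ?_ (le_max_left _ _)
      exact hmax (show |t| ∈ Set.Icc (min δ A) A from ⟨(min_le_left _ _).trans h.le, ht⟩)
    rw [h1]
    refine h2.trans ?_
    rw [← Real.log_le_iff_le_exp hθp]
    have h3 : min (1 / 4) (-Real.log θ / A ^ 2) * t ^ 2 ≤ -Real.log θ := by
      have h4 : t ^ 2 ≤ A ^ 2 := by
        rw [← sq_abs t]
        exact pow_le_pow_left₀ (abs_nonneg t) ht 2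
      calc min (1 / 4) (-Real.log θ / A ^ 2) * t ^ 2 ≤ (-Real.log θ / A ^ 2) * A ^ 2 := by
            apply mul_le_mul (min_le_right _ _) h4 (sq_nonneg t)
            positivity
        _ = -Real.log θ := by field_simp
    linarith

/-- the gaussian integral -/
theorem C1_gauss (z : ℝ) :
    ∫ s : ℝ, Complex.exp (-(s * z) * Complex.I) * Complex.exp (-(s : ℂ) ^ 2 / 2) =
      ((√(2 * Real.pi) * Real.exp (-z ^ 2 / 2) : ℝ) : ℂ) := by
  have h := fourierIntegral_gaussian (b := (1 / 2 : ℂ)) (by norm_num) (-(z : ℂ))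
  have e1 : (∫ s : ℝ, Complex.exp (-(s * z) * Complex.I) * Complex.exp (-(s : ℂ) ^ 2 / 2)) =
      ∫ x : ℝ, Complex.exp (Complex.I * (-(z : ℂ)) * x) * Complex.exp (-(1 / 2) * (x : ℂ) ^ 2) := by
    congr 1
    funext s
    congr 2 <;> ring
  rw [e1, h]
  have e2 : ((Real.pi : ℂ) / (1 / 2)) ^ (1 / 2 : ℂ) = ((√(2 * Real.pi) : ℝ) : ℂ) := by
    rw [Real.sqrt_eq_rpow, Complex.ofReal_cpow (by positivity)]
    push_cast
    congr 1
    ring
  rw [e2]
  push_cast
  congr 2
  ring

/-- the triangle weight -/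
noncomputable def C1_W (T t : ℝ) : ℝ := max (1 - |t| / T) 0

theorem C1_W_cont (T : ℝ) : Continuous (C1_W T) := by
  unfold C1_W
  fun_prop

theorem C1_W_le (T t : ℝ) (hT : 0 < T) : |C1_W T t| ≤ 1 := by
  unfold C1_W
  rw [abs_of_nonneg (le_max_right _ _)]
  have : 0 ≤ |t| / T := by positivity
  exact max_le (by linarith) zero_le_one

theorem C1_tri (T : ℝ) (hT : 0 < T) (s : ℝ) :
    ∫ t in (-T)..T, (C1_W T t : ℂ) * Complex.exp (t * s * Complex.I) =
      ((T * (Real.sinc (T * s / 2)) ^ 2 : ℝ) : ℂ) := by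
  have hTc : (T : ℂ) ≠ 0 := by exact_mod_cast hT.ne'
  have hcont : Continuous (fun t : ℝ => (C1_W T t : ℂ) * Complex.exp (t * s * Complex.I)) := by
    have := C1_W_cont T
    fun_prop
  rw [← intervalIntegral.integral_add_adjacent_intervals (b := 0)
    (hcont.intervalIntegrable _ _) (hcont.intervalIntegrable _ _)]
  have hneg : ∫ t in (-T)..0, (C1_W T t : ℂ) * Complex.exp (t * s * Complex.I) =
      ∫ t in (-T)..0, (1 + (t : ℂ) / T) * Complex.exp ((s * Complex.I) * t) := by
    apply intervalIntegral.integral_congr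
    intro t ht
    rw [Set.uIcc_of_le (by linarith)] at ht
    simp only
    have : C1_W T t = 1 + t / T := by
      unfold C1_W
      rw [abs_of_nonpos ht.2, max_eq_left]
      · ring
      · rw [sub_nonneg, div_le_one hT]
        linarith [ht.1]
    rw [this]
    push_cast
    congr 2
    ring
  have hpos : ∫ t in (0)..T, (C1_W T t : ℂ) * Complex.exp (t * s * Complex.I) =
      ∫ t in (0)..T, (1 - (t : ℂ) / T) * Complex.exp ((s * Complex.I) * t) := by
    apply intervalIntegral.integral_congr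
    intro t ht
    rw [Set.uIcc_of_le hT.le] at ht
    simp only
    have : C1_W T t = 1 - t / T := by
      unfold C1_W
      rw [abs_of_nonneg ht.1, max_eq_left]
      · rw [sub_nonneg, div_le_one hT]
        exact ht.2
    rw [this]
    push_cast
    congr 2
    ring
  rw [hneg, hpos]
  by_cases hs : s = 0
  · subst hs
    have e1 : ∀ t : ℝ, HasDerivAt (fun t : ℝ => (t : ℂ) + (t : ℂ) ^ 2 / (2 * T)) (1 + (t : ℂ) / T) t := by
      intro t
      have h1 : HasDerivAt (fun t : ℝ => (t : ℂ)) 1 t := Complex.ofRealCLM.hasDerivAt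
      have h2 := h1.add ((h1.pow 2).div_const (2 * (T : ℂ)))
      refine h2.congr_deriv ?_
      field_simp
      simp
      ring
    have e2 : ∀ t : ℝ, HasDerivAt (fun t : ℝ => (t : ℂ) - (t : ℂ) ^ 2 / (2 * T)) (1 - (t : ℂ) / T) t := by
      intro t
      have h1 : HasDerivAt (fun t : ℝ => (t : ℂ)) 1 t := Complex.ofRealCLM.hasDerivAt
      have h2 := h1.sub ((h1.pow 2).div_const (2 * (T : ℂ)))
      refine h2.congr_deriv ?_
      field_simp
      simp
      ring
    have i1 : ∫ t in (-T)..0, (1 + (t : ℂ) / T) * Complex.exp (((0 : ℝ) * Complex.I) * t) = T / 2 := by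
      have : ∀ t : ℝ, (1 + (t : ℂ) / T) * Complex.exp (((0 : ℝ) * Complex.I) * t) =
        (1 + (t : ℂ) / T) := by intro t; simp
      simp only [this]
      rw [intervalIntegral.integral_eq_sub_of_hasDerivAt (fun t _ => e1 t)
        (by apply Continuous.intervalIntegrable; fun_prop)]
      push_cast
      field_simp
      ring
    have i2 : ∫ t in (0)..T, (1 - (t : ℂ) / T) * Complex.exp (((0 : ℝ) * Complex.I) * t) = T / 2 := by
      have : ∀ t : ℝ, (1 - (t : ℂ) / T) * Complex.exp (((0 : ℝ) * Complex.I) * t) =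
        (1 - (t : ℂ) / T) := by intro t; simp
      simp only [this]
      rw [intervalIntegral.integral_eq_sub_of_hasDerivAt (fun t _ => e2 t)
        (by apply Continuous.intervalIntegrable; fun_prop)]
      push_cast
      field_simp
      ring
    rw [i1, i2]
    simp
  · have hsc : (s : ℂ) ≠ 0 := by exact_mod_cast hs
    have hw : (s : ℂ) * Complex.I ≠ 0 := mul_ne_zero hsc Complex.I_ne_zero
    set w : ℂ := (s : ℂ) * Complex.I with hwdef
    have hE : ∀ t : ℝ, HasDerivAt (fun t : ℝ => Complex.exp (w * t)) (Complex.exp (w * t) * w) t := by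
      intro t
      have h1 : HasDerivAt (fun t : ℝ => (t : ℂ)) 1 t := Complex.ofRealCLM.hasDerivAt
      have h2 := (h1.const_mul w).cexp
      simpa using h2
    have e1 : ∀ t : ℝ, HasDerivAt (fun t : ℝ => (1 + (t : ℂ) / T) * Complex.exp (w * t) / w -
        Complex.exp (w * t) / (T * w ^ 2)) ((1 + (t : ℂ) / T) * Complex.exp (w * t)) t := by
      intro t
      have h1 : HasDerivAt (fun t : ℝ => (t : ℂ)) 1 t := Complex.ofRealCLM.hasDerivAt
      have h2 := ((((h1.div_const (T : ℂ)).const_add 1).mul (hE t)).div_const w).sub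
        ((hE t).div_const ((T : ℂ) * w ^ 2))
      refine h2.congr_deriv ?_
      field_simp
      ring
    have e2 : ∀ t : ℝ, HasDerivAt (fun t : ℝ => (1 - (t : ℂ) / T) * Complex.exp (w * t) / w +
        Complex.exp (w * t) / (T * w ^ 2)) ((1 - (t : ℂ) / T) * Complex.exp (w * t)) t := by
      intro t
      have h1 : HasDerivAt (fun t : ℝ => (t : ℂ)) 1 t := Complex.ofRealCLM.hasDerivAt
      have h2 := ((((h1.div_const (T : ℂ)).const_sub 1).mul (hE t)).div_const w).add
        ((hE t).div_const ((T : ℂ) * w ^ 2))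
      refine h2.congr_deriv ?_
      field_simp
      ring
    rw [intervalIntegral.integral_eq_sub_of_hasDerivAt (fun t _ => e1 t)
        (by apply Continuous.intervalIntegrable; fun_prop),
      intervalIntegral.integral_eq_sub_of_hasDerivAt (fun t _ => e2 t)
        (by apply Continuous.intervalIntegrable; fun_prop)]
    have hTs : T * s / 2 ≠ 0 := by positivity
    have hr : T * (Real.sinc (T * s / 2)) ^ 2 = (2 - 2 * Real.cos (T * s)) / (T * s ^ 2) := by
      rw [Real.sinc_of_ne_zero hTs]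
      have h1 : Real.cos (T * s) = 1 - 2 * Real.sin (T * s / 2) ^ 2 := by
        have h2 := Real.cos_two_mul (T * s / 2)
        have h3 := Real.sin_sq_add_cos_sq (T * s / 2)
        rw [show 2 * (T * s / 2) = T * s by ring] at h2
        rw [h2]
        linarith
      rw [h1]
      field_simp
      ring
    rw [hr]
    have hc : ((Real.cos (T * s) : ℝ) : ℂ) = (Complex.exp (w * T) + Complex.exp (-(w * T))) / 2 := by
      rw [Complex.ofReal_cos, Complex.cos, hwdef]
      push_cast
      congr 3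
      · ring
      · ring
    have hw2 : w ^ 2 = -(s : ℂ) ^ 2 := by
      rw [hwdef, mul_pow, Complex.I_sq]
      ring
    push_cast at hc ⊢
    rw [hc, hw2]
    have e3 : w * -(T : ℂ) = -(w * T) := by ring
    rw [e3]
    simp only [mul_zero, Complex.exp_zero, zero_div]
    field_simp
    ring

/-- the comparison of the Fourier transforms -/
theorem C1_dct (hρ : Std ρ) (A c : ℝ) (hA : 0 < A) (hc : 0 < c)
    (hb : ∀ t, |t| ≤ A → ‖charFun ρ t‖ ≤ Real.exp (-c * t ^ 2)) :
    Tendsto (fun k : ℕ => ∫ s : ℝ, ‖(Set.Ioc (-(A * √k)) (A * √k)).indicator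
      (fun s : ℝ => (C1_W A (s / √k) : ℂ) * charFun ρ (s / √k) ^ k) s -
        Complex.exp (-(s : ℂ) ^ 2 / 2)‖) atTop (𝓝 0) := by
  have := hρ.prob
  have hint : Integrable (fun s : ℝ => Real.exp (-c * s ^ 2) + Real.exp (-(1 / 2) * s ^ 2)) :=
    (integrable_exp_neg_mul_sq hc).add (integrable_exp_neg_mul_sq (by norm_num))
  have hnorm : ∀ s : ℝ, ‖Complex.exp (-(s : ℂ) ^ 2 / 2)‖ = Real.exp (-(1 / 2) * s ^ 2) := by
    intro s
    rw [Complex.norm_exp]
    congr 1
    have : (-(s : ℂ) ^ 2 / 2) = ((-(1 / 2) * s ^ 2 : ℝ) : ℂ) := by push_cast; ring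
    rw [this, Complex.ofReal_re]
  have hWc := C1_W_cont A
  have key := tendsto_integral_of_dominated_convergence (μ := volume)
    (F := fun (k : ℕ) (s : ℝ) => ‖(Set.Ioc (-(A * √k)) (A * √k)).indicator
      (fun s : ℝ => (C1_W A (s / √k) : ℂ) * charFun ρ (s / √k) ^ k) s -
        Complex.exp (-(s : ℂ) ^ 2 / 2)‖)
    (f := fun _ => 0) (fun s : ℝ => Real.exp (-c * s ^ 2) + Real.exp (-(1 / 2) * s ^ 2))
    ?_ hint ?_ ?_
  · simpa using key
  · intro k
    refine AEStronglyMeasurable.norm (AEStronglyMeasurable.sub ?_ ?_)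
    · refine AEStronglyMeasurable.indicator ?_ measurableSet_Ioc
      exact ((Complex.continuous_ofReal.comp (hWc.comp (continuous_id.div_const _))).mul
        ((continuous_charFun.comp (continuous_id.div_const _)).pow k)).aestronglyMeasurable
    · exact (by fun_prop : Continuous fun s : ℝ => Complex.exp (-(s : ℂ) ^ 2 / 2)).aestronglyMeasurable
  · intro k
    refine Eventually.of_forall fun s => ?_
    rw [norm_norm]
    refine (norm_sub_le _ _).trans ?_
    rw [hnorm]
    refine add_le_add ?_ le_rfl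
    by_cases hs : s ∈ Set.Ioc (-(A * √k)) (A * √k)
    · rw [Set.indicator_of_mem hs]
      have hk : 0 < √(k : ℝ) := by
        by_contra hk
        push Not at hk
        have : √(k : ℝ) = 0 := le_antisymm hk (Real.sqrt_nonneg _)
        rw [this] at hs
        simp at hs
      have hs' : |s / √k| ≤ A := by
        rw [abs_div, abs_of_pos hk, div_le_iff₀ hk, abs_le]
        exact ⟨hs.1.le, hs.2⟩
      rw [norm_mul, norm_pow, Complex.norm_real, Real.norm_eq_abs]
      have h0 : ‖charFun ρ (s / √k)‖ ^ k ≤ Real.exp (-c * s ^ 2) := by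
        refine (pow_le_pow_left₀ (norm_nonneg _) (hb _ hs') k).trans ?_
        rw [← Real.exp_nat_mul, Real.exp_le_exp, div_pow, Real.sq_sqrt (Nat.cast_nonneg k)]
        have hk' : (0 : ℝ) < k := by
          rw [Real.sqrt_pos] at hk
          exact hk
        apply le_of_eq
        field_simp
      calc |C1_W A (s / √k)| * ‖charFun ρ (s / √k)‖ ^ k ≤ 1 * Real.exp (-c * s ^ 2) :=
            mul_le_mul (C1_W_le A _ hA) h0 (by positivity) zero_le_one
        _ = _ := one_mul _
    · rw [Set.indicator_of_notMem hs, norm_zero]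
      exact (Real.exp_pos _).le
  · refine Eventually.of_forall fun s => ?_
    have hsq : Tendsto (fun k : ℕ => √(k : ℝ)) atTop atTop :=
      Real.tendsto_sqrt_atTop.comp tendsto_natCast_atTop_atTop
    have h0 : Tendsto (fun k : ℕ => (C1_W A (s / √k) : ℂ)) atTop (𝓝 1) := by
      have h1 : Tendsto (fun k : ℕ => s / √(k : ℝ)) atTop (𝓝 0) := hsq.const_div_atTop s
      have h2 : C1_W A 0 = 1 := by simp [C1_W]
      have h3 := (hWc.tendsto 0).comp h1
      rw [h2] at h3
      have h4 := (Complex.continuous_ofReal.tendsto 1).comp h3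
      rw [Complex.ofReal_one] at h4
      exact h4
    have h1 : Tendsto (fun k : ℕ => (C1_W A (s / √k) : ℂ) * charFun ρ (s / √k) ^ k -
        Complex.exp (-(s : ℂ) ^ 2 / 2)) atTop (𝓝 0) := by
      have := (h0.mul (charFun_clt hρ s)).sub_const (Complex.exp (-(s : ℂ) ^ 2 / 2))
      simpa using this
    have h2 := h1.norm
    rw [norm_zero] at h2
    refine h2.congr' ?_
    have h3 : Tendsto (fun k : ℕ => A * √(k : ℝ)) atTop atTop := hsq.const_mul_atTop hA
    filter_upwards [h3.eventually_gt_atTop |s|] with k hk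
    rw [Set.indicator_of_mem]
    rw [abs_lt] at hk
    exact ⟨hk.1, hk.2.le⟩

/-- Fourier representation -/
theorem C1_inv (hρ : Std ρ) (T : ℝ) (hT : 0 < T) (k : ℕ) (y : ℝ) :
    ((∫ ω, T * (Real.sinc (T * (S k ω - y) / 2)) ^ 2 ∂(seqLaw ρ) : ℝ) : ℂ) =
      ∫ t in (-T)..T, Complex.exp (-(t * y) * Complex.I) * ((C1_W T t : ℂ) * charFun ρ t ^ k) := by
  have := hρ.prob
  have hWc := C1_W_cont T
  have hms := measurable_S k
  have h1 : (∫ ω, T * (Real.sinc (T * (S k ω - y) / 2)) ^ 2 ∂(seqLaw ρ)) =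
      ∫ z, T * (Real.sinc (T * (z - y) / 2)) ^ 2 ∂(fre ρ k 0) := by
    unfold fre
    rw [integral_map]
    · simp only [zero_add]
    · exact (hms.const_add 0).aemeasurable
    · have := Real.continuous_sinc
      exact (by fun_prop : Continuous fun z : ℝ => T * (Real.sinc (T * (z - y) / 2)) ^ 2).aestronglyMeasurable
  rw [h1, ← integral_complex_ofReal]
  have h2 : ∀ z : ℝ, ((T * (Real.sinc (T * (z - y) / 2)) ^ 2 : ℝ) : ℂ) =
      ∫ t in (-T)..T, (C1_W T t : ℂ) * Complex.exp (t * (z - y : ℝ) * Complex.I) := by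
    intro z
    exact (C1_tri T hT (z - y)).symm
  simp only [h2]
  have hsw : ∫ z, (∫ t in (-T)..T, (C1_W T t : ℂ) * Complex.exp (t * (z - y : ℝ) * Complex.I))
        ∂(fre ρ k 0) =
      ∫ t in (-T)..T, (∫ z, (C1_W T t : ℂ) * Complex.exp (t * (z - y : ℝ) * Complex.I)
        ∂(fre ρ k 0)) := by
    simp only [intervalIntegral.integral_of_le (show -T ≤ T by linarith)]
    apply integral_integral_swap
    refine Integrable.of_bound (C := 1) ?_ ?_
    · exact (by fun_prop : Continuous (Function.uncurry fun (z t : ℝ) =>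
        (C1_W T t : ℂ) * Complex.exp (t * (z - y : ℝ) * Complex.I))).aestronglyMeasurable
    · refine Eventually.of_forall fun p => ?_
      simp only [Function.uncurry]
      rw [show ((p.2 : ℂ) * ((p.1 - y : ℝ) : ℂ) * Complex.I) =
        ((p.2 * (p.1 - y) : ℝ) : ℂ) * Complex.I by push_cast; ring, norm_mul,
        Complex.norm_exp_ofReal_mul_I, mul_one, Complex.norm_real, Real.norm_eq_abs]
      exact C1_W_le T _ hT
  rw [hsw]
  congr 1
  funext t
  have e1 : ∀ z : ℝ, (C1_W T t : ℂ) * Complex.exp (t * (z - y : ℝ) * Complex.I) =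
      ((C1_W T t : ℂ) * Complex.exp (-(t * y) * Complex.I)) * Complex.exp (t * z * Complex.I) := by
    intro z
    rw [mul_assoc (C1_W T t : ℂ) (Complex.exp (-(t * y) * Complex.I)), ← Complex.exp_add]
    congr 2
    push_cast
    ring
  simp only [e1]
  rw [integral_const_mul, ← charFun_apply_real, charFun_fre]
  simp
  ring

/-- **[FV-C1a]** Local limit theorem against the Fejér kernel, non-lattice case.
For `T > 0` let `K_T(s) = (1/2π) ∫_{-T}^{T} (1 - |t|/T) e^{its} dt` (`= (T/2π) (sin(Ts/2)/(Ts/2))² ≥ 0`,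
`∫ K_T = 1`). PROOF. For all real `y`: `E K_T(S_k - y) = (1/2π) ∫_{-T}^T (1-|t|/T) e^{-ity} χ(t)^k dt`
(`χ = charFun ρ`). Multiply by `√k` and substitute `t = s/√k`:
`√k E K_T(S_k - y) = (1/2π) ∫_{|s| ≤ T√k} (1 - |s|/(T√k)) e^{-isy/√k} χ(s/√k)^k ds`, to be compared with
`φ(y/√k) = (1/2π) ∫ e^{-isy/√k} e^{-s²/2} ds`. The difference is at most
`(1/2π) ∫_{|s| ≤ δ√k} |(1-|s|/(T√k)) χ(s/√k)^k - e^{-s²/2}| ds + (1/2π) ∫_{δ√k<|s|≤T√k} |χ(s/√k)|^k ds
+ (1/2π) ∫_{|s|>δ√k} e^{-s²/2} ds`, uniformly in `y`. The first integral tends to 0 by dominated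
convergence (`charFun_clt`, `charFun_small`: domination by `2 e^{-s²/4}`), the second one is at most
`2T√k θ^k` with `θ = sup_{δ ≤ |t| ≤ T} |χ(t)| < 1` (continuity, compactness, non-lattice), the third one
tends to 0. -/
theorem fejer_llt (hρ : Std ρ) (hnl : ∀ t : ℝ, t ≠ 0 → ‖charFun ρ t‖ < 1) (T : ℝ) (hT : 0 < T) :
    ∀ ε > (0 : ℝ), ∃ K : ℕ, ∀ k ≥ K, ∀ y : ℝ,
      |√k * ∫ ω, (T / (2 * Real.pi) * (Real.sinc (T * (S k ω - y) / 2)) ^ 2) ∂(seqLaw ρ) -
        Real.exp (-(y / √k) ^ 2 / 2) / √(2 * Real.pi)| ≤ ε := by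
  have := hρ.prob
  intro ε hε
  have hπ := Real.pi_pos
  have hWc := C1_W_cont T
  obtain ⟨c, hc, hb⟩ := C1_bound hρ T hT (fun t ht _ => hnl t ht.ne')
  have hdct := C1_dct hρ T c hT hc hb
  have hev := (hdct.eventually_lt_const (show (0 : ℝ) < ε * (2 * Real.pi) by positivity)).and
    (eventually_ge_atTop 1)
  obtain ⟨K, hK⟩ := eventually_atTop.mp hev
  refine ⟨K, ?_⟩
  intro k hk y
  obtain ⟨hk1, hk2⟩ := hK k hk
  have hkpos : (0 : ℝ) < k := by exact_mod_cast hk2
  set r : ℝ := √(k : ℝ) with hr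
  have hrpos : 0 < r := Real.sqrt_pos.mpr hkpos
  set p : ℝ := ∫ ω, T * (Real.sinc (T * (S k ω - y) / 2)) ^ 2 ∂(seqLaw ρ) with hp
  have hpp : (∫ ω, (T / (2 * Real.pi) * (Real.sinc (T * (S k ω - y) / 2)) ^ 2) ∂(seqLaw ρ)) =
      p / (2 * Real.pi) := by
    rw [hp, ← integral_div]
    congr 1
    funext ω
    ring
  rw [hpp]
  have hinv := C1_inv hρ T hT k y
  rw [← hp] at hinv
  set G : ℝ → ℂ := fun s => (Set.Ioc (-(T * r)) (T * r)).indicator
    (fun s : ℝ => (C1_W T (s / r) : ℂ) * charFun ρ (s / r) ^ k) s with hG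
  have hGint : Integrable G := by
    rw [hG]
    have : IntegrableOn (fun s : ℝ => (C1_W T (s / r) : ℂ) * charFun ρ (s / r) ^ k)
        (Set.Ioc (-(T * r)) (T * r)) := by
      apply Continuous.integrableOn_Ioc
      exact (Complex.continuous_ofReal.comp (hWc.comp (continuous_id.div_const _))).mul
        ((continuous_charFun.comp (continuous_id.div_const _)).pow k)
    exact this.integrable_indicator measurableSet_Ioc
  have hgint : Integrable (fun s : ℝ => Complex.exp (-(s : ℂ) ^ 2 / 2)) := by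
    have := integrable_cexp_neg_mul_sq (b := (1 / 2 : ℂ)) (by norm_num)
    refine this.congr (Eventually.of_forall fun s => ?_)
    simp only
    congr 1
    ring
  have hE : ∀ s : ℝ, ‖Complex.exp (-(s * (y / r : ℝ)) * Complex.I)‖ = 1 := by
    intro s
    rw [show (-((s : ℂ) * ((y / r : ℝ) : ℂ)) * Complex.I) =
      ((-(s * (y / r)) : ℝ) : ℂ) * Complex.I by push_cast; ring, Complex.norm_exp_ofReal_mul_I]
  have hEc : Continuous (fun s : ℝ => Complex.exp (-(s * (y / r : ℝ)) * Complex.I)) := by fun_prop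
  have hEG : Integrable (fun s : ℝ => Complex.exp (-(s * (y / r : ℝ)) * Complex.I) * G s) := by
    refine hGint.bdd_mul (c := 1) hEc.aestronglyMeasurable ?_
    exact Eventually.of_forall fun s => (hE s).le
  have hEg : Integrable (fun s : ℝ => Complex.exp (-(s * (y / r : ℝ)) * Complex.I) *
      Complex.exp (-(s : ℂ) ^ 2 / 2)) := by
    refine hgint.bdd_mul (c := 1) hEc.aestronglyMeasurable ?_
    exact Eventually.of_forall fun s => (hE s).le
  have hcv : (r : ℂ) * (p : ℂ) =
      ∫ s : ℝ, Complex.exp (-(s * (y / r : ℝ)) * Complex.I) * G s := by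
    rw [hinv]
    have h1 := intervalIntegral.integral_comp_div (a := -(T * r)) (b := T * r)
      (fun t : ℝ => Complex.exp (-(t * y) * Complex.I) * ((C1_W T t : ℂ) * charFun ρ t ^ k))
      hrpos.ne'
    rw [show -(T * r) / r = -T by field_simp, show T * r / r = T by field_simp] at h1
    rw [← Complex.real_smul, ← h1, intervalIntegral.integral_of_le
      (show -(T * r) ≤ T * r by nlinarith [mul_pos hT hrpos]), ← integral_indicator measurableSet_Ioc]
    congr 1
    funext s
    rw [hG]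
    simp only
    by_cases hs : s ∈ Set.Ioc (-(T * r)) (T * r)
    · rw [Set.indicator_of_mem hs, Set.indicator_of_mem hs]
      congr 2
      push_cast
      field_simp
    · rw [Set.indicator_of_notMem hs, Set.indicator_of_notMem hs, mul_zero]
  have hgauss := C1_gauss (y / r)
  have hdiff : ‖(r : ℂ) * (p : ℂ) -
      ((√(2 * Real.pi) * Real.exp (-(y / r) ^ 2 / 2) : ℝ) : ℂ)‖ ≤ ε * (2 * Real.pi) := by
    rw [hcv, ← hgauss, ← integral_sub hEG hEg]
    refine (norm_integral_le_integral_norm _).trans ?_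
    refine le_trans (le_of_eq ?_) hk1.le
    congr 1
    funext s
    rw [← mul_sub, norm_mul, hE, one_mul]
  have hreal : |r * p - √(2 * Real.pi) * Real.exp (-(y / r) ^ 2 / 2)| ≤ ε * (2 * Real.pi) := by
    rw [← Real.norm_eq_abs, ← Complex.norm_real]
    refine le_trans (le_of_eq ?_) hdiff
    congr 1
    push_cast
    ring
  have hsq : √(2 * Real.pi) * √(2 * Real.pi) = 2 * Real.pi := Real.mul_self_sqrt (by positivity)
  have hsp : 0 < √(2 * Real.pi) := Real.sqrt_pos.mpr (by positivity)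
  have hfin : r * (p / (2 * Real.pi)) - Real.exp (-(y / r) ^ 2 / 2) / √(2 * Real.pi) =
      (r * p - √(2 * Real.pi) * Real.exp (-(y / r) ^ 2 / 2)) / (2 * Real.pi) := by
    have h1 : √(2 * Real.pi) / (2 * Real.pi) = 1 / √(2 * Real.pi) := by
      rw [div_eq_div_iff (by positivity) hsp.ne']
      rw [hsq, one_mul]
    calc r * (p / (2 * Real.pi)) - Real.exp (-(y / r) ^ 2 / 2) / √(2 * Real.pi)
        = r * (p / (2 * Real.pi)) - Real.exp (-(y / r) ^ 2 / 2) * (1 / √(2 * Real.pi)) := by ring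
      _ = r * (p / (2 * Real.pi)) - Real.exp (-(y / r) ^ 2 / 2) *
          (√(2 * Real.pi) / (2 * Real.pi)) := by rw [h1]
      _ = _ := by ring
  rw [hfin, abs_div, abs_of_pos (show 0 < 2 * Real.pi by positivity), div_le_iff₀ (by positivity)]
  exact hreal

end Pool.Agent.BPT
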