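import Pool.Agent.MP_99a865_pr.FV.C1
import Pool.Agent.MP_99a865_pr.FV.A2b

open MeasureTheory ProbabilityTheory Filter Topology
open scoped ENNReal NNReal FourierTransform

namespace Pool.Agent.BPT

variable {D : Set ℝ} {ρ : Measure ℝ}

/-- sinc squared is at most `1 / x ^ 2` -/
theorem C1b_sinc_sq_le (x : ℝ) (hx : x ≠ 0) : Real.sinc x ^ 2 ≤ 1 / x ^ 2 := by
  rw [Real.sinc_of_ne_zero hx, div_pow]
  have h := Real.sin_sq_le_one x
  have hx2 : 0 < x ^ 2 := by positivity
  exact div_le_div_of_nonneg_right h hx2.le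

theorem C1b_sinc_sq_le' (x : ℝ) : Real.sinc x ^ 2 ≤ 2 / (1 + x ^ 2) := by
  by_cases hx : 1 ≤ x ^ 2
  · have hx0 : x ≠ 0 := by
      rintro rfl; norm_num at hx
    refine (C1b_sinc_sq_le x hx0).trans ?_
    rw [div_le_div_iff₀ (by positivity) (by positivity)]
    linarith
  · push Not at hx
    have h1 : Real.sinc x ^ 2 ≤ 1 := by
      rw [sq_le_one_iff_abs_le_one]; exact Real.abs_sinc_le_one x
    refine h1.trans ?_
    rw [le_div_iff₀ (by positivity)]
    linarith

theorem C1b_integrable_sinc_sq : Integrable (fun x : ℝ => Real.sinc x ^ 2) := by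
  refine Integrable.mono' ((integrable_inv_one_add_sq).const_mul 2)
    ((Real.measurable_sinc.pow_const 2).aestronglyMeasurable) (Eventually.of_forall fun x => ?_)
  rw [Real.norm_of_nonneg (by positivity)]
  simpa [div_eq_mul_inv] using C1b_sinc_sq_le' x

/-- the triangle function -/
noncomputable def C1b_tri (t : ℝ) : ℂ := ((max 0 (1 - |t|) : ℝ) : ℂ)

theorem C1b_tri_cont : Continuous C1b_tri := by
  unfold C1b_tri; fun_prop

theorem C1b_tri_integrable : Integrable C1b_tri := by
  refine C1b_tri_cont.integrable_of_hasCompactSupport ?_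
  refine HasCompactSupport.intro (isCompact_Icc (a := (-1 : ℝ)) (b := 1)) fun x hx => ?_
  unfold C1b_tri
  have : 1 - |x| ≤ 0 := by
    by_contra h
    push Not at h
    apply hx
    have := abs_lt.1 (by linarith : |x| < 1)
    exact ⟨this.1.le, this.2.le⟩
  simp [max_eq_left this]

theorem C1b_int_cos (a : ℝ) (ha : a ≠ 0) :
    ∫ t in (0 : ℝ)..1, (1 - t) * Real.cos (a * t) = (1 - Real.cos a) / a ^ 2 := by
  have h : ∀ t ∈ Set.uIcc (0 : ℝ) 1, HasDerivAt
      (fun t : ℝ => (1 - t) * Real.sin (a * t) / a - Real.cos (a * t) / a ^ 2)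
      ((1 - t) * Real.cos (a * t)) t := by
    intro t _
    have h1 : HasDerivAt (fun t : ℝ => a * t) a t := by
      simpa using (hasDerivAt_id t).const_mul a
    have h2 : HasDerivAt (fun t : ℝ => (1 : ℝ) - t) (-1) t := by
      simpa using (hasDerivAt_id t).const_sub 1
    have h3 := ((h2.mul h1.sin).div_const a).sub (h1.cos.div_const (a ^ 2))
    refine h3.congr_deriv ?_
    field_simp
    ring
  rw [intervalIntegral.integral_eq_sub_of_hasDerivAt h]
  · simp only [sub_self, zero_mul, zero_div, mul_one, mul_zero, Real.sin_zero, Real.cos_zero]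
    ring
  · apply Continuous.intervalIntegrable
    fun_prop

theorem C1b_real_tri (a : ℝ) :
    ∫ v : ℝ, Real.cos (a * v) * max 0 (1 - |v|) = Real.sinc (a / 2) ^ 2 := by
  have h1 : ∀ v : ℝ, Real.cos (a * v) * max 0 (1 - |v|) =
      (fun x => Real.cos (a * x) * max 0 (1 - x)) |v| := by
    intro v
    rcases abs_cases v with ⟨h, -⟩ | ⟨h, -⟩
    · simp [h]
    · simp only [h, mul_neg, Real.cos_neg]
  simp_rw [h1]
  rw [integral_comp_abs (f := fun x => Real.cos (a * x) * max 0 (1 - x))]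
  have h2 : ∫ x in Set.Ioi (0 : ℝ), Real.cos (a * x) * max 0 (1 - x) =
      ∫ x in Set.Ioc (0 : ℝ) 1, (1 - x) * Real.cos (a * x) := by
    rw [← integral_indicator measurableSet_Ioi, ← integral_indicator measurableSet_Ioc]
    congr 1
    funext x
    by_cases h0 : 0 < x
    · by_cases hx1 : x ≤ 1
      · rw [Set.indicator_of_mem (Set.mem_Ioi.2 h0), Set.indicator_of_mem (Set.mem_Ioc.2 ⟨h0, hx1⟩),
          max_eq_right (by linarith)]
        ring
      · rw [Set.indicator_of_mem (Set.mem_Ioi.2 h0), Set.indicator_of_notMem (by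
          rintro ⟨-, h⟩; exact hx1 h), max_eq_left (by linarith), mul_zero]
    · rw [Set.indicator_of_notMem (by simpa using h0), Set.indicator_of_notMem (by
        rintro ⟨h, -⟩; exact h0 h)]
  rw [h2, ← intervalIntegral.integral_of_le zero_le_one]
  by_cases ha : a = 0
  · subst ha
    simp only [zero_mul, Real.cos_zero, mul_one, zero_div, Real.sinc_zero, one_pow]
    rw [intervalIntegral.integral_sub (by simp) (by simp)]
    simp
    norm_num
  · rw [C1b_int_cos a ha, Real.sinc_of_ne_zero (by positivity)]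
    have hc : Real.cos a = 1 - 2 * Real.sin (a / 2) ^ 2 := by
      have := Real.cos_two_mul (a / 2)
      have h3 := Real.sin_sq_add_cos_sq (a / 2)
      rw [show 2 * (a / 2) = a by ring] at this
      linarith
    rw [hc]
    field_simp
    ring

theorem C1b_fourier_tri (w : ℝ) : 𝓕 C1b_tri w = ((Real.sinc (Real.pi * w) ^ 2 : ℝ) : ℂ) := by
  rw [Real.fourier_real_eq_integral_exp_smul]
  have hi : Integrable (fun v : ℝ => Complex.exp (↑(-2 * Real.pi * v * w) * Complex.I) •
      C1b_tri v) := by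
    refine (C1b_tri_integrable.norm).mono' ?_ (Eventually.of_forall fun v => ?_)
    · exact (by have := C1b_tri_cont; fun_prop : Continuous _).aestronglyMeasurable
    · rw [norm_smul, Complex.norm_exp_ofReal_mul_I, one_mul]
  have h1 : ∫ v : ℝ, Complex.exp (↑(-2 * Real.pi * v * w) * Complex.I) • C1b_tri v =
      ∫ v : ℝ, Complex.exp (↑(2 * Real.pi * v * w) * Complex.I) • C1b_tri v := by
    rw [← integral_neg_eq_self]
    congr 1
    funext v
    have : C1b_tri (-v) = C1b_tri v := by simp [C1b_tri]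
    rw [this]
    congr 3
    push_cast
    ring
  have hi' : Integrable (fun v : ℝ => Complex.exp (↑(2 * Real.pi * v * w) * Complex.I) •
      C1b_tri v) := by
    refine (C1b_tri_integrable.norm).mono' ?_ (Eventually.of_forall fun v => ?_)
    · exact (by have := C1b_tri_cont; fun_prop : Continuous _).aestronglyMeasurable
    · rw [norm_smul, Complex.norm_exp_ofReal_mul_I, one_mul]
  have h2 : ∫ v : ℝ, Complex.exp (↑(-2 * Real.pi * v * w) * Complex.I) • C1b_tri v =
      ∫ v : ℝ, ((Real.cos ((2 * Real.pi * w) * v) * max 0 (1 - |v|) : ℝ) : ℂ) := by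
    have h3 : (2 : ℂ) * ∫ v : ℝ, Complex.exp (↑(-2 * Real.pi * v * w) * Complex.I) • C1b_tri v =
        2 * ∫ v : ℝ, ((Real.cos ((2 * Real.pi * w) * v) * max 0 (1 - |v|) : ℝ) : ℂ) := by
      rw [two_mul]
      nth_rewrite 2 [h1]
      rw [← integral_add hi hi', ← integral_const_mul]
      congr 1
      funext v
      simp only [smul_eq_mul]
      rw [← add_mul]
      have h4 : Complex.exp (↑(-2 * Real.pi * v * w) * Complex.I) +
          Complex.exp (↑(2 * Real.pi * v * w) * Complex.I) =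
          2 * Complex.cos ((2 * Real.pi * w * v : ℝ) : ℂ) := by
        rw [Complex.two_cos, add_comm]
        congr 2 <;> (push_cast; ring)
      rw [h4]
      unfold C1b_tri
      push_cast
      ring
    exact mul_left_cancel₀ two_ne_zero h3
  rw [h2, integral_complex_ofReal, C1b_real_tri]
  congr 3
  ring

theorem C1b_integral_sinc_sq : ∫ x : ℝ, Real.sinc x ^ 2 = Real.pi := by
  have hF : 𝓕 C1b_tri = fun w => ((Real.sinc (Real.pi * w) ^ 2 : ℝ) : ℂ) := by
    funext w; exact C1b_fourier_tri w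
  have hint : Integrable (fun w : ℝ => Real.sinc (Real.pi * w) ^ 2) :=
    C1b_integrable_sinc_sq.comp_mul_left' Real.pi_ne_zero
  have h := C1b_tri_integrable.fourierInv_fourier_eq (by rw [hF]; exact hint.ofReal)
    (C1b_tri_cont.continuousAt (x := 0))
  rw [Real.fourierInv_eq'] at h
  simp only [hF] at h
  have h0 : C1b_tri 0 = 1 := by simp [C1b_tri]
  rw [h0] at h
  simp only [inner_zero_right, mul_zero, Complex.ofReal_zero, zero_mul, Complex.exp_zero,
    one_smul] at h
  rw [integral_complex_ofReal] at h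
  have h2 : ∫ w : ℝ, Real.sinc (Real.pi * w) ^ 2 = 1 := by exact_mod_cast h
  have h3 := Measure.integral_comp_mul_left (fun x : ℝ => Real.sinc x ^ 2) Real.pi
  rw [h2] at h3
  rw [abs_of_pos (by positivity), smul_eq_mul] at h3
  field_simp at h3
  linarith

noncomputable def C1b_K (T s : ℝ) : ℝ := T / (2 * Real.pi) * Real.sinc (T * s / 2) ^ 2

theorem C1b_K_nonneg {T : ℝ} (hT : 0 < T) (s : ℝ) : 0 ≤ C1b_K T s := by
  unfold C1b_K; positivity

theorem C1b_K_neg (T s : ℝ) : C1b_K T (-s) = C1b_K T s := by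
  unfold C1b_K
  rw [show T * -s / 2 = -(T * s / 2) by ring, Real.sinc_neg]

theorem C1b_K_cont (T : ℝ) : Continuous (C1b_K T) := by
  unfold C1b_K
  have := Real.continuous_sinc
  fun_prop

theorem C1b_K_le {T : ℝ} (hT : 0 < T) (s : ℝ) (hs : s ≠ 0) :
    C1b_K T s ≤ 2 / (Real.pi * T * s ^ 2) := by
  unfold C1b_K
  have h := C1b_sinc_sq_le (T * s / 2) (by positivity)
  calc T / (2 * Real.pi) * Real.sinc (T * s / 2) ^ 2
      ≤ T / (2 * Real.pi) * (1 / (T * s / 2) ^ 2) := by gcongr
    _ = 2 / (Real.pi * T * s ^ 2) := by field_simp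

theorem C1b_K_le' {T : ℝ} (hT : 0 < T) (s : ℝ) : C1b_K T s ≤ T / (2 * Real.pi) := by
  unfold C1b_K
  have h1 : Real.sinc (T * s / 2) ^ 2 ≤ 1 := by
    rw [sq_le_one_iff_abs_le_one]; exact Real.abs_sinc_le_one _
  calc T / (2 * Real.pi) * Real.sinc (T * s / 2) ^ 2 ≤ T / (2 * Real.pi) * 1 := by gcongr
    _ = _ := mul_one _

theorem C1b_K_integrable {T : ℝ} (hT : 0 < T) : Integrable (C1b_K T) := by
  unfold C1b_K
  have h := (C1b_integrable_sinc_sq.comp_mul_left' (show T / 2 ≠ 0 by positivity)).const_mul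
    (T / (2 * Real.pi))
  refine h.congr (Eventually.of_forall fun s => ?_)
  simp only
  rw [show T / 2 * s = T * s / 2 by ring]

theorem C1b_K_integral {T : ℝ} (hT : 0 < T) : ∫ s, C1b_K T s = 1 := by
  unfold C1b_K
  rw [integral_const_mul]
  have h := Measure.integral_comp_mul_left (fun x : ℝ => Real.sinc x ^ 2) (T / 2)
  rw [C1b_integral_sinc_sq, abs_of_pos (by positivity), smul_eq_mul] at h
  have h2 : ∫ s : ℝ, Real.sinc (T * s / 2) ^ 2 = ∫ s : ℝ, Real.sinc (T / 2 * s) ^ 2 := by
    congr 1; funext s; rw [show T / 2 * s = T * s / 2 by ring]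
  rw [h2, h]
  field_simp

theorem C1b_tail {T η : ℝ} (hT : 0 < T) (hη : 0 < η) :
    ∫ s in Set.Ioi η, C1b_K T s ≤ 2 / (Real.pi * T * η) := by
  have h1 : ∫ s in Set.Ioi η, (2 / (Real.pi * T)) * s ^ (-2 : ℝ) = 2 / (Real.pi * T * η) := by
    rw [integral_const_mul, integral_Ioi_rpow_of_lt (by norm_num) hη]
    rw [show (-2 : ℝ) + 1 = -1 by norm_num, Real.rpow_neg_one]
    field_simp
  rw [← h1]
  refine setIntegral_mono_on (C1b_K_integrable hT).integrableOn ?_ measurableSet_Ioi ?_
  · exact (integrableOn_Ioi_rpow_of_lt (by norm_num) hη).const_mul _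
  · intro s hs
    have hs0 : 0 < s := lt_trans hη hs
    refine (C1b_K_le hT s hs0.ne').trans (le_of_eq ?_)
    rw [Real.rpow_neg hs0.le, show ((2 : ℝ)) = ((2 : ℕ) : ℝ) by norm_num, Real.rpow_natCast]
    field_simp

theorem C1b_center {T η : ℝ} (hT : 0 < T) (hη : 0 < η) :
    1 - 4 / (Real.pi * T * η) ≤ ∫ s in (-η)..η, C1b_K T s := by
  have hi := C1b_K_integrable hT
  have h1 : ∫ s in Set.Iic (-η), C1b_K T s = ∫ s in Set.Ioi η, C1b_K T s := by
    have h := integral_comp_neg_Ioi (c := η) (f := C1b_K T)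
    rw [← h]
    congr 1
    funext s
    exact C1b_K_neg T s
  have h2 : (∫ s in Set.Iic (-η), C1b_K T s) + (∫ s in (-η)..η, C1b_K T s) =
      ∫ s in Set.Iic η, C1b_K T s := by
    have := intervalIntegral.integral_Iic_sub_Iic (μ := volume) (f := C1b_K T) (a := -η) (b := η)
      hi.integrableOn hi.integrableOn
    linarith
  have h3 : (∫ s in Set.Iic η, C1b_K T s) + (∫ s in Set.Ioi η, C1b_K T s) = 1 := by
    rw [← C1b_K_integral hT]
    exact intervalIntegral.integral_Iic_add_Ioi hi.integrableOn hi.integrableOn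
  have h4 := C1b_tail hT hη
  have h5 : 4 / (Real.pi * T * η) = 2 / (Real.pi * T * η) + 2 / (Real.pi * T * η) := by ring
  linarith

/-- smoothing of a measure -/
noncomputable def C1b_g (μ : Measure ℝ) (T y : ℝ) : ℝ := ∫ s, C1b_K T (s - y) ∂μ

theorem C1b_K_bdd {T : ℝ} (hT : 0 < T) (s : ℝ) : ‖C1b_K T s‖ ≤ T / (2 * Real.pi) := by
  rw [Real.norm_of_nonneg (C1b_K_nonneg hT s)]
  exact C1b_K_le' hT s

theorem C1b_int_s (μ : Measure ℝ) [IsProbabilityMeasure μ] {T : ℝ} (hT : 0 < T) (y : ℝ) :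
    Integrable (fun s => C1b_K T (s - y)) μ :=
  Integrable.of_bound ((C1b_K_cont T).comp (by fun_prop)).aestronglyMeasurable (T / (2 * Real.pi))
    (Eventually.of_forall fun s => C1b_K_bdd hT _)

theorem C1b_swap (μ : Measure ℝ) [IsProbabilityMeasure μ] {T : ℝ} (hT : 0 < T) {a b : ℝ}
    (hab : a ≤ b) : ∫ y in a..b, C1b_g μ T y = ∫ s, (∫ y in a..b, C1b_K T (s - y)) ∂μ := by
  unfold C1b_g
  simp_rw [intervalIntegral.integral_of_le hab]
  rw [integral_integral_swap]
  refine Integrable.of_bound (C := T / (2 * Real.pi)) ?_ (Eventually.of_forall fun p => ?_)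
  · exact (by have := C1b_K_cont T; fun_prop :
      Continuous (Function.uncurry fun (y s : ℝ) => C1b_K T (s - y))).aestronglyMeasurable
  · exact C1b_K_bdd hT _

theorem C1b_inner_le {T : ℝ} (hT : 0 < T) {a b : ℝ} (hab : a ≤ b) (s : ℝ) :
    ∫ y in a..b, C1b_K T (s - y) ≤ 1 := by
  rw [intervalIntegral.integral_comp_sub_left (fun x => C1b_K T x) s,
    intervalIntegral.integral_of_le (by linarith), ← C1b_K_integral hT]
  exact setIntegral_le_integral (C1b_K_integrable hT) (Eventually.of_forall (C1b_K_nonneg hT))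

theorem C1b_inner_nonneg {T : ℝ} (hT : 0 < T) {a b : ℝ} (hab : a ≤ b) (s : ℝ) :
    0 ≤ ∫ y in a..b, C1b_K T (s - y) :=
  intervalIntegral.integral_nonneg hab fun _ _ => C1b_K_nonneg hT _

theorem C1b_inner_int (μ : Measure ℝ) [IsProbabilityMeasure μ] {T : ℝ} (hT : 0 < T) {a b : ℝ}
    (hab : a ≤ b) : Integrable (fun s => ∫ y in a..b, C1b_K T (s - y)) μ := by
  refine Integrable.of_bound (C := 1) ?_ (Eventually.of_forall fun s => ?_)
  · have : (fun s => ∫ y in a..b, C1b_K T (s - y)) = fun s => ∫ x in (s - b)..(s - a), C1b_K T x := by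
      funext s
      rw [intervalIntegral.integral_comp_sub_left (fun x => C1b_K T x) s]
    rw [this]
    have h1 : (fun s => ∫ x in (s - b)..(s - a), C1b_K T x) =
        fun s => (∫ x in (0 : ℝ)..(s - a), C1b_K T x) - ∫ x in (0 : ℝ)..(s - b), C1b_K T x := by
      funext s
      rw [intervalIntegral.integral_interval_sub_left]
      · exact (C1b_K_cont T).intervalIntegrable _ _
      · exact (C1b_K_cont T).intervalIntegrable _ _
    rw [h1]
    have hc : Continuous fun t : ℝ => ∫ x in (0 : ℝ)..t, C1b_K T x :=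
      intervalIntegral.continuous_primitive (fun a b => (C1b_K_cont T).intervalIntegrable _ _) 0
    exact ((hc.comp (by fun_prop)).sub (hc.comp (by fun_prop))).aestronglyMeasurable
  · rw [Real.norm_of_nonneg (C1b_inner_nonneg hT hab s)]
    exact C1b_inner_le hT hab s

theorem C1b_upper (μ : Measure ℝ) [IsProbabilityMeasure μ] {T η u w : ℝ} (hT : 0 < T)
    (hη : 0 < η) (huw : u ≤ w) (A : Set ℝ) (hA : MeasurableSet A) (hAI : A ⊆ Set.Icc u w) :
    (1 - 4 / (Real.pi * T * η)) * μ.real A ≤ ∫ y in (u - η)..(w + η), C1b_g μ T y := by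
  rw [C1b_swap μ hT (by linarith)]
  have h1 : (1 - 4 / (Real.pi * T * η)) * μ.real A =
      ∫ s, A.indicator (fun _ => 1 - 4 / (Real.pi * T * η)) s ∂μ := by
    rw [integral_indicator_const _ hA, smul_eq_mul, mul_comm]
  rw [h1]
  refine integral_mono ((integrable_const _).indicator hA) (C1b_inner_int μ hT (by linarith)) ?_
  intro s
  by_cases hs : s ∈ A
  · simp only [Set.indicator_of_mem hs]
    have hsI := hAI hs
    refine (C1b_center hT hη).trans ?_
    have h2 : ∫ x in (-η)..η, C1b_K T x = ∫ y in (s - η)..(s + η), C1b_K T (s - y) := by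
      rw [intervalIntegral.integral_comp_sub_left (fun x => C1b_K T x) s]
      congr 1 <;> ring
    rw [h2]
    refine intervalIntegral.integral_mono_interval (by linarith [hsI.1]) (by linarith)
      (by linarith [hsI.2]) (Eventually.of_forall fun y => C1b_K_nonneg hT _) ?_
    exact (by have := C1b_K_cont T; fun_prop :
      Continuous fun y => C1b_K T (s - y)).intervalIntegrable _ _
  · simp only [Set.indicator_of_notMem hs]
    exact C1b_inner_nonneg hT (by linarith) s

theorem C1b_lower (μ : Measure ℝ) [IsProbabilityMeasure μ] {T η u w L : ℝ} (hT : 0 < T)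
    (hη : 0 < η) (huw : u + η ≤ w - η) (hL : w - u ≤ L) (A : Set ℝ) (hA : MeasurableSet A)
    (hAI : Set.Ioo u w ⊆ A) :
    ∫ y in (u + η)..(w - η), C1b_g μ T y ≤ μ.real A +
      (2 * L / (Real.pi * T)) * (1 / η ^ 2 + 2 + 2 * L ^ 2 / η ^ 2) *
        ∫ s, 1 / (1 + (s - u) ^ 2) ∂μ := by
  have hL0 : 0 < L := by linarith
  rw [C1b_swap μ hT huw]
  have hI : Integrable (fun s : ℝ => 1 / (1 + (s - u) ^ 2)) μ := by
    refine Integrable.of_bound (C := 1) ?_ (Eventually.of_forall fun s => ?_)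
    · refine Continuous.aestronglyMeasurable ?_
      refine Continuous.div continuous_const (by fun_prop) (fun s => by positivity)
    · rw [Real.norm_of_nonneg (by positivity), div_le_one (by positivity)]
      have : 0 ≤ (s - u) ^ 2 := by positivity
      linarith
  have h1 : μ.real A = ∫ s, A.indicator (fun _ => (1 : ℝ)) s ∂μ := by
    rw [integral_indicator_const _ hA, smul_eq_mul, mul_one]
  rw [h1, ← integral_const_mul, ← integral_add ((integrable_const _).indicator hA)
    (hI.const_mul _)]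
  refine integral_mono (C1b_inner_int μ hT huw) (((integrable_const _).indicator hA).add
    (hI.const_mul _)) ?_
  intro s
  simp only
  have hpos : 0 ≤ (2 * L / (Real.pi * T)) * (1 / η ^ 2 + 2 + 2 * L ^ 2 / η ^ 2) *
      (1 / (1 + (s - u) ^ 2)) := by positivity
  by_cases hs : s ∈ A
  · rw [Set.indicator_of_mem hs]
    have := C1b_inner_le hT huw s
    linarith
  · rw [Set.indicator_of_notMem hs, zero_add]
    have hs' : s ≤ u ∨ w ≤ s := by
      by_contra h
      push Not at h
      exact hs (hAI ⟨h.1, h.2⟩)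
    have hbound : ∀ y ∈ Set.Icc (u + η) (w - η), C1b_K T (s - y) ≤
        (2 / (Real.pi * T)) * (1 / η ^ 2 + 2 + 2 * L ^ 2 / η ^ 2) * (1 / (1 + (s - u) ^ 2)) := by
      intro y hy
      have hd : η ≤ |s - y| := by
        rcases hs' with h | h
        · rw [abs_of_nonpos (by linarith [hy.1])]; linarith [hy.1]
        · rw [abs_of_nonneg (by linarith [hy.2])]; linarith [hy.2]
      have hd0 : 0 < |s - y| := lt_of_lt_of_le hη hd
      have hsu : |s - u| ≤ |s - y| + L := by
        have h3 : |s - u| ≤ |s - y| + |y - u| := by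
          have := abs_add_le (s - y) (y - u)
          simpa using this
        have h4 : |y - u| ≤ L := by
          rw [abs_of_nonneg (by linarith [hy.1])]; linarith [hy.2]
        linarith
      refine (C1b_K_le hT (s - y) (abs_pos.1 hd0)).trans ?_
      have hd2 : (s - y) ^ 2 = |s - y| ^ 2 := (sq_abs _).symm
      have hsu2 : (s - u) ^ 2 ≤ (|s - y| + L) ^ 2 := by
        rw [← sq_abs (s - u)]
        exact pow_le_pow_left₀ (abs_nonneg _) hsu 2
      have hη2 : η ^ 2 ≤ |s - y| ^ 2 := pow_le_pow_left₀ hη.le hd 2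
      have key : 1 + (s - u) ^ 2 ≤ (1 / η ^ 2 + 2 + 2 * L ^ 2 / η ^ 2) * |s - y| ^ 2 := by
        have e1 : 1 ≤ |s - y| ^ 2 / η ^ 2 := by
          rw [le_div_iff₀ (by positivity)]; linarith
        have e2 : 2 * L ^ 2 ≤ 2 * L ^ 2 * (|s - y| ^ 2 / η ^ 2) := by
          have : 0 ≤ 2 * L ^ 2 := by positivity
          nlinarith
        have e3 : (|s - y| + L) ^ 2 ≤ 2 * |s - y| ^ 2 + 2 * L ^ 2 := by
          nlinarith [sq_nonneg (|s - y| - L)]
        have e4 : (1 / η ^ 2 + 2 + 2 * L ^ 2 / η ^ 2) * |s - y| ^ 2 =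
            |s - y| ^ 2 / η ^ 2 + 2 * |s - y| ^ 2 + 2 * L ^ 2 * (|s - y| ^ 2 / η ^ 2) := by
          field_simp
        rw [e4]
        linarith
      rw [hd2]
      have hpi := Real.pi_pos
      rw [div_le_iff₀ (by positivity)]
      have e5 : 2 / (Real.pi * T) * (1 / η ^ 2 + 2 + 2 * L ^ 2 / η ^ 2) * (1 / (1 + (s - u) ^ 2)) *
          (Real.pi * T * |s - y| ^ 2) =
          2 * ((1 / η ^ 2 + 2 + 2 * L ^ 2 / η ^ 2) * |s - y| ^ 2 / (1 + (s - u) ^ 2)) := by
        field_simp
      rw [e5]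
      have : 1 ≤ (1 / η ^ 2 + 2 + 2 * L ^ 2 / η ^ 2) * |s - y| ^ 2 / (1 + (s - u) ^ 2) := by
        rw [le_div_iff₀ (by positivity)]; linarith
      linarith
    have h5 : ∫ y in (u + η)..(w - η), C1b_K T (s - y) ≤ ∫ _y in (u + η)..(w - η),
        ((2 / (Real.pi * T)) * (1 / η ^ 2 + 2 + 2 * L ^ 2 / η ^ 2) * (1 / (1 + (s - u) ^ 2))) := by
      refine intervalIntegral.integral_mono_on huw ?_ (by simp) hbound
      exact (by have := C1b_K_cont T; fun_prop :
        Continuous fun y => C1b_K T (s - y)).intervalIntegrable _ _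
    refine h5.trans ?_
    rw [intervalIntegral.integral_const, smul_eq_mul]
    have h6 : w - η - (u + η) ≤ L := by linarith
    have h7 : 0 ≤ (2 / (Real.pi * T)) * (1 / η ^ 2 + 2 + 2 * L ^ 2 / η ^ 2) *
      (1 / (1 + (s - u) ^ 2)) := by positivity
    calc (w - η - (u + η)) * ((2 / (Real.pi * T)) * (1 / η ^ 2 + 2 + 2 * L ^ 2 / η ^ 2) *
          (1 / (1 + (s - u) ^ 2)))
        ≤ L * ((2 / (Real.pi * T)) * (1 / η ^ 2 + 2 + 2 * L ^ 2 / η ^ 2) *
          (1 / (1 + (s - u) ^ 2))) := by gcongr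
      _ = _ := by ring

theorem C1b_K_ge {v : ℝ} (hv : |v| ≤ 1) : 2 / Real.pi ^ 3 ≤ C1b_K 1 v := by
  unfold C1b_K
  have hpi := Real.pi_pos
  have hpi3 := Real.pi_gt_three
  have h1 : 2 / Real.pi ≤ Real.sinc (1 * v / 2) := by
    have h2 : Real.sinc (1 * v / 2) = Real.sinc (|v| / 2) := by
      rcases abs_cases v with ⟨h, -⟩ | ⟨h, -⟩
      · rw [h, one_mul]
      · rw [h, one_mul, neg_div, Real.sinc_neg]
    rw [h2]
    by_cases h0 : |v| / 2 = 0
    · rw [h0, Real.sinc_zero, div_le_one hpi]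
      linarith
    · rw [Real.sinc_of_ne_zero h0]
      have hpos : 0 < |v| / 2 := lt_of_le_of_ne (by positivity) (Ne.symm h0)
      rw [le_div_iff₀ hpos]
      exact Real.mul_le_sin hpos.le (by linarith)
  have h3 : (2 / Real.pi) ^ 2 ≤ Real.sinc (1 * v / 2) ^ 2 :=
    pow_le_pow_left₀ (by positivity) h1 2
  calc 2 / Real.pi ^ 3 = 1 / (2 * Real.pi) * (2 / Real.pi) ^ 2 := by field_simp
    _ ≤ _ := by gcongr

theorem C1b_cauchy_int (c : ℝ) : Integrable (fun y : ℝ => 1 / (1 + (y - c) ^ 2)) := by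
  have h := (integrable_inv_one_add_sq).comp_sub_right c
  simpa [one_div] using h

theorem C1b_cauchy_integral (c : ℝ) : ∫ y : ℝ, 1 / (1 + (y - c) ^ 2) = Real.pi := by
  have h := integral_sub_right_eq_self (fun y : ℝ => 1 / (1 + y ^ 2)) c (μ := volume)
  rw [h]
  simp only [one_div]
  exact integral_univ_inv_one_add_sq

theorem C1b_moment (μ : Measure ℝ) [IsProbabilityMeasure μ] {B : ℝ}
    (hB : ∀ y, C1b_g μ 1 y ≤ B) (c : ℝ) :
    ∫ s, 1 / (1 + (s - c) ^ 2) ∂μ ≤ 3 * Real.pi ^ 4 / 4 * B := by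
  have hpi := Real.pi_pos
  have hcont : Continuous (fun y : ℝ => 1 / (1 + (y - c) ^ 2)) :=
    Continuous.div continuous_const (by fun_prop) (fun s => by positivity)
  have hI : Integrable (fun s : ℝ => 1 / (1 + (s - c) ^ 2)) μ := by
    refine Integrable.of_bound (C := 1) hcont.aestronglyMeasurable (Eventually.of_forall fun s => ?_)
    rw [Real.norm_of_nonneg (by positivity), div_le_one (by positivity)]
    have : 0 ≤ (s - c) ^ 2 := by positivity
    linarith
  have hprod : Integrable (Function.uncurry fun (s y : ℝ) => 1 / (1 + (y - c) ^ 2) * C1b_K 1 (s - y))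
      (μ.prod volume) := by
    have h1 : Integrable (fun p : ℝ × ℝ => 1 / (1 + (p.2 - c) ^ 2) * (1 / (2 * Real.pi)))
        (μ.prod volume) := ((C1b_cauchy_int c).mul_const _).comp_snd μ
    refine h1.mono' ?_ (Eventually.of_forall fun p => ?_)
    · refine Continuous.aestronglyMeasurable ?_
      have := C1b_K_cont 1
      have h2 : Continuous (fun p : ℝ × ℝ => 1 / (1 + (p.2 - c) ^ 2)) :=
        hcont.comp continuous_snd
      exact h2.mul (this.comp (by fun_prop))
    · obtain ⟨s, y⟩ := p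
      simp only [Function.uncurry]
      rw [norm_mul, Real.norm_of_nonneg (by positivity : 0 ≤ 1 / (1 + (y - c) ^ 2))]
      exact mul_le_mul_of_nonneg_left (C1b_K_bdd one_pos _) (by positivity)
  have hlow : ∀ s, 4 / (3 * Real.pi ^ 3) * (1 / (1 + (s - c) ^ 2)) ≤
      ∫ y, 1 / (1 + (y - c) ^ 2) * C1b_K 1 (s - y) := by
    intro s
    have hint : Integrable (fun y => 1 / (1 + (y - c) ^ 2) * C1b_K 1 (s - y)) := by
      refine ((C1b_cauchy_int c).mul_const (1 / (2 * Real.pi))).mono' ?_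
        (Eventually.of_forall fun y => ?_)
      · exact (hcont.mul ((C1b_K_cont 1).comp (by fun_prop))).aestronglyMeasurable
      · rw [norm_mul, Real.norm_of_nonneg (by positivity : 0 ≤ 1 / (1 + (y - c) ^ 2))]
        exact mul_le_mul_of_nonneg_left (C1b_K_bdd one_pos _) (by positivity)
    have h1 : ∫ y in Set.Icc (s - 1) (s + 1), (1 / (3 * (1 + (s - c) ^ 2))) * (2 / Real.pi ^ 3) ≤
        ∫ y in Set.Icc (s - 1) (s + 1), 1 / (1 + (y - c) ^ 2) * C1b_K 1 (s - y) := by
      refine setIntegral_mono_on continuous_const.integrableOn_Icc hint.integrableOn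
        measurableSet_Icc ?_
      intro y hy
      have hy1 : |s - y| ≤ 1 := by
        rw [abs_le]; constructor <;> linarith [hy.1, hy.2]
      have h2 := C1b_K_ge hy1
      have h3 : 1 + (y - c) ^ 2 ≤ 3 * (1 + (s - c) ^ 2) := by
        have h4 : (y - c) ^ 2 ≤ 2 * (s - c) ^ 2 + 2 * (s - y) ^ 2 := by
          nlinarith [sq_nonneg ((s - c) + (s - y))]
        have h5 : (s - y) ^ 2 ≤ 1 := by
          rw [sq_le_one_iff_abs_le_one]; exact hy1
        nlinarith [sq_nonneg (s - c)]
      have h6 : 1 / (3 * (1 + (s - c) ^ 2)) ≤ 1 / (1 + (y - c) ^ 2) :=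
        one_div_le_one_div_of_le (by positivity) h3
      exact mul_le_mul h6 h2 (by positivity) (by positivity)
    have h7 : ∫ y in Set.Icc (s - 1) (s + 1), (1 / (3 * (1 + (s - c) ^ 2))) * (2 / Real.pi ^ 3) =
        4 / (3 * Real.pi ^ 3) * (1 / (1 + (s - c) ^ 2)) := by
      rw [setIntegral_const, smul_eq_mul, measureReal_def, Real.volume_Icc]
      rw [show s + 1 - (s - 1) = 2 by ring]
      simp only [ENNReal.toReal_ofReal (by norm_num : (0 : ℝ) ≤ 2)]
      field_simp
      ring
    rw [← h7]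
    exact h1.trans (setIntegral_le_integral hint (Eventually.of_forall fun y =>
      mul_nonneg (by positivity) (C1b_K_nonneg one_pos _)))
  have h8 : 4 / (3 * Real.pi ^ 3) * ∫ s, 1 / (1 + (s - c) ^ 2) ∂μ ≤ B * Real.pi := by
    rw [← integral_const_mul]
    calc ∫ s, 4 / (3 * Real.pi ^ 3) * (1 / (1 + (s - c) ^ 2)) ∂μ
        ≤ ∫ s, (∫ y, 1 / (1 + (y - c) ^ 2) * C1b_K 1 (s - y)) ∂μ :=
          integral_mono (hI.const_mul _) hprod.integral_prod_left hlow
      _ = ∫ y, (∫ s, 1 / (1 + (y - c) ^ 2) * C1b_K 1 (s - y) ∂μ) := integral_integral_swap hprod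
      _ ≤ ∫ y : ℝ, 1 / (1 + (y - c) ^ 2) * B := by
          refine integral_mono hprod.integral_prod_right ((C1b_cauchy_int c).mul_const B) ?_
          intro y
          simp only
          rw [integral_const_mul]
          exact mul_le_mul_of_nonneg_left (hB y) (by positivity)
      _ = B * Real.pi := by
          rw [integral_mul_const, C1b_cauchy_integral, mul_comm]
  have h9 : 0 < 4 / (3 * Real.pi ^ 3) := by positivity
  have h10 : ∫ s, 1 / (1 + (s - c) ^ 2) ∂μ ≤ B * Real.pi / (4 / (3 * Real.pi ^ 3)) := by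
    rw [le_div_iff₀ h9, mul_comm]; exact h8
  refine h10.trans (le_of_eq ?_)
  field_simp

/-- gaussian density -/
noncomputable def C1b_phi (r : ℝ) : ℝ := Real.exp (-r ^ 2 / 2) / √(2 * Real.pi)

theorem C1b_sqrt_ge : 1 ≤ √(2 * Real.pi) := by
  rw [Real.one_le_sqrt]
  have := Real.pi_gt_three
  linarith

theorem C1b_phi_nonneg (r : ℝ) : 0 ≤ C1b_phi r := by unfold C1b_phi; positivity

theorem C1b_phi_le (r : ℝ) : C1b_phi r ≤ 1 := by
  unfold C1b_phi
  rw [div_le_one (by have := C1b_sqrt_ge; linarith)]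
  refine le_trans ?_ C1b_sqrt_ge
  rw [Real.exp_le_one_iff]
  have : 0 ≤ r ^ 2 := by positivity
  linarith

theorem C1b_phi_lip (a b : ℝ) : |C1b_phi a - C1b_phi b| ≤ |a - b| := by
  have hd : ∀ r : ℝ, HasDerivAt C1b_phi (-(r * C1b_phi r)) r := by
    intro r
    unfold C1b_phi
    have h1 : HasDerivAt (fun r : ℝ => -r ^ 2 / 2) (-r) r := by
      have := ((hasDerivAt_pow 2 r).neg).div_const 2
      refine this.congr_deriv ?_
      simp
      ring
    refine (h1.exp.div_const _).congr_deriv ?_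
    ring
  have hb : ∀ r : ℝ, ‖-(r * C1b_phi r)‖ ≤ 1 := by
    intro r
    rw [norm_neg, Real.norm_eq_abs, abs_mul, abs_of_nonneg (C1b_phi_nonneg r)]
    unfold C1b_phi
    rw [← mul_div_assoc, div_le_one (by have := C1b_sqrt_ge; linarith)]
    refine le_trans ?_ C1b_sqrt_ge
    have h1 : |r| ≤ Real.exp (r ^ 2 / 2) := by
      have h2 := Real.add_one_le_exp (r ^ 2 / 2)
      have h3 : |r| ≤ (r ^ 2 + 1) / 2 := by
        have : 0 ≤ (|r| - 1) ^ 2 := by positivity
        have h4 : |r| ^ 2 = r ^ 2 := sq_abs r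
        nlinarith
      linarith
    rw [show -r ^ 2 / 2 = -(r ^ 2 / 2) by ring, Real.exp_neg]
    rw [← div_eq_mul_inv, div_le_one (Real.exp_pos _)]
    exact h1
  have := Convex.norm_image_sub_le_of_norm_hasDerivWithin_le (f := C1b_phi)
    (f' := fun r => -(r * C1b_phi r)) (C := 1) (s := Set.univ) (x := b) (y := a)
    (fun r _ => (hd r).hasDerivWithinAt) (fun r _ => hb r) convex_univ (Set.mem_univ _)
    (Set.mem_univ _)
  simpa [Real.norm_eq_abs] using this

theorem C1b_IV (hD : Dom D) (u w : ℝ) :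
    IV D u w ⊆ Set.Icc u w ∧ Set.Ioo u w ⊆ IV D u w ∧ MeasurableSet (IV D u w) ∧
      (u ≤ w → (volume : Measure ℝ).real (IV D u w) = w - u) := by
  rcases hD with rfl | rfl
  · have h : IV (Set.Ici 0) u w = Set.Ico u w := by
      ext y; simp [IV]
    rw [h]
    refine ⟨Set.Ico_subset_Icc_self, Set.Ioo_subset_Ico_self, measurableSet_Ico, fun huw => ?_⟩
    rw [Real.volume_real_Ico_of_le huw]
  · have h : IV (Set.Ioi 0) u w = Set.Ioc u w := by
      ext y; simp [IV]
    rw [h]
    refine ⟨Set.Ioc_subset_Icc_self, Set.Ioo_subset_Ioc_self, measurableSet_Ioc, fun huw => ?_⟩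
    rw [Real.volume_real_Ioc_of_le huw]

/-- the deterministic core -/
theorem C1b_core (μ : Measure ℝ) [IsProbabilityMeasure μ] {T η L δ q : ℝ} (hT : 0 < T)
    (hη : 0 < η) (hη1 : η ≤ 1) (hL : 0 < L) (hδ : 0 < δ) (hδ1 : δ ≤ 1) (hq : 0 < q)
    (hqL : (L + 1) / q ≤ δ / 2)
    (hτ : 4 / (Real.pi * T * η) ≤ 1 / 2)
    (h1 : ∀ y, |q * C1b_g μ T y - C1b_phi (y / q)| ≤ δ / 2)
    (h2 : ∀ y, |q * C1b_g μ 1 y - C1b_phi (y / q)| ≤ 1)
    {u w : ℝ} (huw : u ≤ w) (hwL : w ≤ u + L) (A : Set ℝ) (hA : MeasurableSet A)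
    (hA1 : A ⊆ Set.Icc u w) (hA2 : Set.Ioo u w ⊆ A) :
    |q * μ.real A - (w - u) * C1b_phi (u / q)| ≤ 4 * η + L * δ +
      4 * (4 / (Real.pi * T * η)) * (L + 2) +
      (2 * L / (Real.pi * T)) * (1 / η ^ 2 + 2 + 2 * L ^ 2 / η ^ 2) * (3 * Real.pi ^ 4 / 4 * 2) := by
  have hpi := Real.pi_pos
  set τ := 4 / (Real.pi * T * η) with hτdef
  have hτ0 : 0 < τ := by positivity
  set φ := C1b_phi (u / q) with hφ
  have hφ0 : 0 ≤ φ := C1b_phi_nonneg _
  have hφ1 : φ ≤ 1 := C1b_phi_le _
  have hclose : ∀ y, |y - u| ≤ L + 1 → |q * C1b_g μ T y - φ| ≤ δ := by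
    intro y hy
    have e1 : |C1b_phi (y / q) - φ| ≤ δ / 2 := by
      refine (C1b_phi_lip _ _).trans ?_
      rw [← sub_div, abs_div, abs_of_pos hq]
      exact (div_le_div_of_nonneg_right hy hq.le).trans hqL
    have := abs_sub_le (q * C1b_g μ T y) (C1b_phi (y / q)) φ
    linarith [h1 y]
  have hgcont : ∀ a b : ℝ, IntervalIntegrable (fun y => C1b_g μ T y) volume a b := by
    intro a b
    have hc : Continuous (fun y => C1b_g μ T y) := by
      unfold C1b_g
      refine continuous_of_dominated (bound := fun _ => T / (2 * Real.pi)) ?_ ?_ ?_ ?_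
      · intro y
        exact ((C1b_K_cont T).comp (by fun_prop)).aestronglyMeasurable
      · intro y
        exact Eventually.of_forall fun s => C1b_K_bdd hT _
      · exact integrable_const _
      · exact Eventually.of_forall fun s => (C1b_K_cont T).comp (by fun_prop)
    exact hc.intervalIntegrable _ _
  have hR0 : 0 ≤ (2 * L / (Real.pi * T)) * (1 / η ^ 2 + 2 + 2 * L ^ 2 / η ^ 2) *
      (3 * Real.pi ^ 4 / 4 * 2) := by positivity
  have hP0 : 0 ≤ q * μ.real A := by positivity
  rw [abs_le]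
  constructor
  · -- lower bound
    by_cases hm : w - u < 2 * η
    · have : (w - u) * φ ≤ 2 * η := by
        calc (w - u) * φ ≤ (w - u) * 1 := by
              exact mul_le_mul_of_nonneg_left hφ1 (by linarith)
          _ ≤ 2 * η := by linarith
      have : 0 ≤ 4 * τ * (L + 2) := by positivity
      have : 0 ≤ L * δ := by positivity
      linarith
    · push Not at hm
      have hlow := C1b_lower μ hT hη (by linarith : u + η ≤ w - η) (by linarith : w - u ≤ L) A hA hA2
      have hB : ∀ y, C1b_g μ 1 y ≤ 2 / q := by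
        intro y
        rw [le_div_iff₀ hq]
        have e1 := (abs_le.1 (h2 y)).2
        have e2 := C1b_phi_le (y / q)
        linarith
      have hmom := C1b_moment μ hB u
      have hint : (w - η - (u + η)) * ((φ - δ) / q) ≤ ∫ y in (u + η)..(w - η), C1b_g μ T y := by
        have e1 : ∫ _y in (u + η)..(w - η), ((φ - δ) / q) = (w - η - (u + η)) * ((φ - δ) / q) := by
          rw [intervalIntegral.integral_const, smul_eq_mul]
        rw [← e1]
        refine intervalIntegral.integral_mono_on (by linarith) (by simp) (hgcont _ _) ?_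
        intro y hy
        rw [div_le_iff₀ hq]
        have e2 := hclose y (by rw [abs_of_nonneg (by linarith [hy.1])]; linarith [hy.2])
        have := (abs_le.1 e2).1
        linarith
      have e3 : q * ((w - η - (u + η)) * ((φ - δ) / q)) = (w - u - 2 * η) * (φ - δ) := by
        field_simp
        ring
      have e4 : q * ((2 * L / (Real.pi * T)) * (1 / η ^ 2 + 2 + 2 * L ^ 2 / η ^ 2) *
          (3 * Real.pi ^ 4 / 4 * (2 / q))) = (2 * L / (Real.pi * T)) *
          (1 / η ^ 2 + 2 + 2 * L ^ 2 / η ^ 2) * (3 * Real.pi ^ 4 / 4 * 2) := by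
        field_simp
      have e5 : q * ((w - η - (u + η)) * ((φ - δ) / q)) ≤ q * (μ.real A +
          (2 * L / (Real.pi * T)) * (1 / η ^ 2 + 2 + 2 * L ^ 2 / η ^ 2) *
          (3 * Real.pi ^ 4 / 4 * (2 / q))) := by
        refine mul_le_mul_of_nonneg_left (hint.trans (hlow.trans ?_)) hq.le
        have : 0 ≤ (2 * L / (Real.pi * T)) * (1 / η ^ 2 + 2 + 2 * L ^ 2 / η ^ 2) := by positivity
        have := mul_le_mul_of_nonneg_left hmom this
        linarith
      rw [mul_add, e4, e3] at e5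
      have e6 : (w - u - 2 * η) * (φ - δ) ≥ (w - u) * φ - 2 * η - L * δ := by
        have f1 : (w - u) * δ ≤ L * δ := mul_le_mul_of_nonneg_right (by linarith) hδ.le
        have f2 : 2 * η * φ ≤ 2 * η := by nlinarith
        have f3 : 0 ≤ 2 * η * δ := by positivity
        nlinarith
      have : 0 ≤ 4 * τ * (L + 2) := by positivity
      linarith
  · -- upper bound
    have hup := C1b_upper μ hT hη huw A hA hA1
    have hint : ∫ y in (u - η)..(w + η), C1b_g μ T y ≤ (w + η - (u - η)) * ((φ + δ) / q) := by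
      have e1 : ∫ _y in (u - η)..(w + η), ((φ + δ) / q) = (w + η - (u - η)) * ((φ + δ) / q) := by
        rw [intervalIntegral.integral_const, smul_eq_mul]
      rw [← e1]
      refine intervalIntegral.integral_mono_on (by linarith) (hgcont _ _) (by simp) ?_
      intro y hy
      rw [le_div_iff₀ hq]
      have e2 := hclose y (by
        rw [abs_le]; constructor <;> linarith [hy.1, hy.2])
      have := (abs_le.1 e2).2
      linarith
    have e3 : q * ((w + η - (u - η)) * ((φ + δ) / q)) = (w - u + 2 * η) * (φ + δ) := by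
      field_simp
      ring
    have e5 : q * ((1 - τ) * μ.real A) ≤ (w - u + 2 * η) * (φ + δ) := by
      rw [← e3]
      exact mul_le_mul_of_nonneg_left (hup.trans hint) hq.le
    set P := q * μ.real A with hP
    have e6 : (1 - τ) * P ≤ (w - u + 2 * η) * (φ + δ) := by
      have : q * ((1 - τ) * μ.real A) = (1 - τ) * P := by rw [hP]; ring
      linarith
    have e7 : (w - u + 2 * η) * (φ + δ) ≤ (w - u) * φ + (4 * η + L * δ) := by
      have f1 : (w - u) * δ ≤ L * δ := mul_le_mul_of_nonneg_right (by linarith) hδ.le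
      have f2 : 2 * η * (φ + δ) ≤ 2 * η * 2 := by
        apply mul_le_mul_of_nonneg_left _ (by positivity); linarith
      nlinarith
    have e8 : (w - u + 2 * η) * (φ + δ) ≤ 2 * (L + 2) := by
      have f1 : w - u + 2 * η ≤ L + 2 := by linarith
      have f2 : φ + δ ≤ 2 := by linarith
      have := mul_le_mul f1 f2 (by linarith) (by linarith)
      linarith
    have e9 : P ≤ 4 * (L + 2) := by
      have f1 : 1 / 2 * P ≤ (1 - τ) * P := mul_le_mul_of_nonneg_right (by linarith) hP0
      linarith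
    have e10 : τ * P ≤ 4 * τ * (L + 2) := by
      have := mul_le_mul_of_nonneg_left e9 hτ0.le
      linarith
    have e11 : P = (1 - τ) * P + τ * P := by ring
    linarith

theorem C1b_meas_S (k : ℕ) : Measurable (S k) := by
  unfold S
  exact Finset.measurable_fun_sum _ fun i _ => measurable_pi_apply i

/-- **[FV-C1b]** From the Fejér kernel to intervals: Stone's local limit theorem. -/
theorem lat_nonlattice (hρ : Std ρ) (hnl : ∀ t : ℝ, t ≠ 0 → ‖charFun ρ t‖ < 1) : Lat ρ 0 0 := by
  refine ⟨le_rfl, Eventually.of_forall fun x h => absurd rfl h, ?_⟩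
  intro D hD L hL ε hε
  have := hρ.prob
  have hpi := Real.pi_pos
  obtain ⟨η, hη0, hη1, hηε⟩ : ∃ η : ℝ, 0 < η ∧ η ≤ 1 ∧ 4 * η ≤ ε / 4 :=
    ⟨min 1 (ε / 16), by positivity, min_le_left _ _, by
      have := min_le_right (1 : ℝ) (ε / 16); linarith⟩
  obtain ⟨T, hT0, hT1, hT2, hT3⟩ : ∃ T : ℝ, 0 < T ∧ 4 / (Real.pi * T * η) ≤ 1 / 2 ∧
      4 * (4 / (Real.pi * T * η)) * (L + 2) ≤ ε / 4 ∧
      (2 * L / (Real.pi * T)) * (1 / η ^ 2 + 2 + 2 * L ^ 2 / η ^ 2) *
        (3 * Real.pi ^ 4 / 4 * 2) ≤ ε / 4 := by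
    set a := 4 / (Real.pi * η) with ha
    set b := 4 * (4 / (Real.pi * η)) * (L + 2) with hb
    set c := (2 * L / Real.pi) * (1 / η ^ 2 + 2 + 2 * L ^ 2 / η ^ 2) * (3 * Real.pi ^ 4 / 4 * 2)
      with hc
    have ha0 : 0 < a := by positivity
    have hb0 : 0 < b := by positivity
    have hc0 : 0 < c := by positivity
    refine ⟨2 * a + 4 * b / ε + 4 * c / ε, by positivity, ?_, ?_, ?_⟩
    · set T := 2 * a + 4 * b / ε + 4 * c / ε with hTd
      have hTp : 0 < T := by positivity
      have e1 : 4 / (Real.pi * T * η) = a / T := by rw [ha]; field_simp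
      rw [e1, div_le_iff₀ hTp]
      have : 0 < 4 * b / ε := by positivity
      have : 0 < 4 * c / ε := by positivity
      linarith
    · set T := 2 * a + 4 * b / ε + 4 * c / ε with hTd
      have hTp : 0 < T := by positivity
      have e1 : 4 * (4 / (Real.pi * T * η)) * (L + 2) = b / T := by rw [hb]; field_simp
      rw [e1, div_le_iff₀ hTp]
      have h1 : 0 < 4 * c / ε := by positivity
      have h2 : ε / 4 * (4 * b / ε) = b := by field_simp
      have h3 : ε / 4 * (4 * b / ε) ≤ ε / 4 * T := by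
        apply mul_le_mul_of_nonneg_left _ (by positivity); linarith
      linarith
    · set T := 2 * a + 4 * b / ε + 4 * c / ε with hTd
      have hTp : 0 < T := by positivity
      have e1 : (2 * L / (Real.pi * T)) * (1 / η ^ 2 + 2 + 2 * L ^ 2 / η ^ 2) *
        (3 * Real.pi ^ 4 / 4 * 2) = c / T := by rw [hc]; field_simp
      rw [e1, div_le_iff₀ hTp]
      have h1 : 0 < 4 * b / ε := by positivity
      have h2 : ε / 4 * (4 * c / ε) = c := by field_simp
      have h3 : ε / 4 * (4 * c / ε) ≤ ε / 4 * T := by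
        apply mul_le_mul_of_nonneg_left _ (by positivity); linarith
      linarith
  obtain ⟨δ, hδ0, hδ1, hδε⟩ : ∃ δ : ℝ, 0 < δ ∧ δ ≤ 1 ∧ L * δ ≤ ε / 4 :=
    ⟨min 1 (ε / (4 * L)), by positivity, min_le_left _ _, by
      have := mul_le_mul_of_nonneg_left (min_le_right (1 : ℝ) (ε / (4 * L))) hL.le
      refine this.trans (le_of_eq ?_)
      field_simp⟩
  obtain ⟨K1, hK1⟩ := fejer_llt hρ hnl T hT0 (δ / 2) (by positivity)
  obtain ⟨K2, hK2⟩ := fejer_llt hρ hnl 1 one_pos 1 one_pos
  obtain ⟨K3, hK3⟩ := exists_nat_gt ((2 * (L + 1) / δ) ^ 2)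
  refine ⟨max (max K1 K2) K3, fun k hk x u w huw hwL => ?_⟩
  have hk1 : K1 ≤ k := le_trans (le_trans (le_max_left _ _) (le_max_left _ _)) hk
  have hk2 : K2 ≤ k := le_trans (le_trans (le_max_right _ _) (le_max_left _ _)) hk
  have hk3 : K3 ≤ k := le_trans (le_max_right _ _) hk
  have hkr : (2 * (L + 1) / δ) ^ 2 < k := lt_of_lt_of_le hK3 (by exact_mod_cast hk3)
  have hsq : 2 * (L + 1) / δ < √k := Real.lt_sqrt_of_sq_lt hkr
  have hq : 0 < √(k : ℝ) := lt_trans (by positivity) hsq
  have hqL : (L + 1) / √k ≤ δ / 2 := by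
    rw [div_le_iff₀ hq]
    have := (div_lt_iff₀ hδ0).1 hsq
    linarith
  set μ := (seqLaw ρ).map (S k) with hμ
  have : IsProbabilityMeasure μ := Measure.isProbabilityMeasure_map (C1b_meas_S k).aemeasurable
  have hg : ∀ T y : ℝ, C1b_g μ T y =
      ∫ ω, (T / (2 * Real.pi) * (Real.sinc (T * (S k ω - y) / 2)) ^ 2) ∂(seqLaw ρ) := by
    intro T y
    unfold C1b_g
    have hcy : Continuous (fun s : ℝ => C1b_K T (s - y)) := (C1b_K_cont T).comp (by fun_prop)
    rw [hμ, integral_map (C1b_meas_S k).aemeasurable hcy.aestronglyMeasurable]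
    rfl
  obtain ⟨hI1, hI2, hI3, hI4⟩ := C1b_IV hD (u - x) (w - x)
  have hcore := C1b_core μ hT0 hη0 hη1 hL hδ0 hδ1 hq hqL hT1
    (fun y => by rw [hg]; exact hK1 k hk1 y) (fun y => by rw [hg]; exact hK2 k hk2 y)
    (by linarith : u - x ≤ w - x) (by linarith : w - x ≤ u - x + L) (IV D (u - x) (w - x)) hI3
    hI1 hI2
  have hfre : (fre ρ k x).real (IV D u w) = μ.real (IV D (u - x) (w - x)) := by
    unfold fre
    rw [hμ]
    obtain ⟨-, -, hI3', -⟩ := C1b_IV hD u w
    rw [map_measureReal_apply (by have := C1b_meas_S k; fun_prop) hI3',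
      map_measureReal_apply (C1b_meas_S k) hI3]
    congr 1
    ext ω
    simp only [IV, Set.mem_preimage, Set.mem_ofPred_eq]
    rw [show x + S k ω - u = S k ω - (u - x) by ring, show x + S k ω - w = S k ω - (w - x) by ring]
  have hlam : (lam 0 (x + k * 0)).real (IV D u w) = w - u := by
    unfold lam
    rw [if_pos rfl]
    exact (C1b_IV hD u w).2.2.2 huw
  rw [hfre, hlam]
  have e1 : w - u = (w - x) - (u - x) := by ring
  rw [e1]
  refine le_trans hcore ?_
  linarith

end Pool.Agent.BPT
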