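import Pool.Agent.MP_99a865_pr.FV.C0b
import Pool.Agent.MP_99a865_pr.FV.A3
import Pool.Agent.MP_99a865_pr.FV.A2b

open MeasureTheory ProbabilityTheory Filter Topology
open scoped ENNReal NNReal

namespace Pool.Agent.BPT

variable {D : Set ℝ} {ρ : Measure ℝ}

/-- uniform gaussian bound for the characteristic function -/
theorem C2_bound (hρ : Std ρ) (A : ℝ) (hA : 0 < A)
    (hap : ∀ t : ℝ, 0 < t → t ≤ A → ‖charFun ρ t‖ < 1) :
    ∃ c > (0 : ℝ), ∀ t, |t| ≤ A → ‖charFun ρ t‖ ≤ Real.exp (-c * t ^ 2) := by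
  have := hρ.prob
  obtain ⟨δ, hδ, hsmall⟩ := charFun_small hρ
  obtain ⟨t0, ht0, hmax⟩ := (isCompact_Icc (a := min δ A) (b := A)).exists_isMaxOn
    ⟨A, min_le_right _ _, le_refl _⟩ (f := fun t => ‖charFun ρ t‖)
    (continuous_charFun.norm.continuousOn)
  have ht0pos : 0 < t0 := lt_of_lt_of_le (lt_min hδ hA) ht0.1
  have hθ0 : ‖charFun ρ t0‖ < 1 := hap t0 ht0pos ht0.2
  set θ : ℝ := max ‖charFun ρ t0‖ (1 / 2) with hθ
  have hθ1 : θ < 1 := max_lt hθ0 (by norm_num)
  have hθp : 0 < θ := lt_of_lt_of_le (by norm_num) (le_max_right _ _)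
  have hlog : 0 < -Real.log θ := by
    have := Real.log_neg hθp hθ1
    linarith
  refine ⟨min (1 / 4) (-Real.log θ / A ^ 2), lt_min (by norm_num) (by positivity), ?_⟩
  intro t ht
  by_cases h : |t| ≤ δ
  · refine (hsmall t h).trans ?_
    rw [Real.exp_le_exp]
    have h1 : min (1 / 4) (-Real.log θ / A ^ 2) * t ^ 2 ≤ 1 / 4 * t ^ 2 :=
      mul_le_mul_of_nonneg_right (min_le_left _ _) (sq_nonneg t)
    linarith
  · push Not at h
    have h1 : ‖charFun ρ t‖ = ‖charFun ρ |t|‖ := by
      rcases abs_cases t with ⟨e, _⟩ | ⟨e, _⟩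
      · rw [e]
      · rw [e, charFun_neg, RCLike.norm_conj]
    have h2 : ‖charFun ρ |t|‖ ≤ θ := by
      refine le_trans ?_ (le_max_left _ _)
      exact hmax (show |t| ∈ Set.Icc (min δ A) A from ⟨(min_le_left _ _).trans h.le, ht⟩)
    rw [h1]
    refine h2.trans ?_
    rw [← Real.log_le_iff_le_exp hθp]
    have h3 : min (1 / 4) (-Real.log θ / A ^ 2) * t ^ 2 ≤ -Real.log θ := by
      have h4 : t ^ 2 ≤ A ^ 2 := by
        rw [← sq_abs t]
        exact pow_le_pow_left₀ (abs_nonneg t) ht 2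
      calc min (1 / 4) (-Real.log θ / A ^ 2) * t ^ 2 ≤ (-Real.log θ / A ^ 2) * A ^ 2 := by
            apply mul_le_mul (min_le_right _ _) h4 (sq_nonneg t)
            positivity
        _ = -Real.log θ := by field_simp
    linarith

/-- the comparison of the Fourier transforms -/
theorem C2_dct (hρ : Std ρ) (A c : ℝ) (hA : 0 < A) (hc : 0 < c)
    (hb : ∀ t, |t| ≤ A → ‖charFun ρ t‖ ≤ Real.exp (-c * t ^ 2)) :
    Tendsto (fun k : ℕ => ∫ s : ℝ, ‖(Set.Ioc (-(A * √k)) (A * √k)).indicator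
      (fun s : ℝ => charFun ρ (s / √k) ^ k) s - Complex.exp (-(s : ℂ) ^ 2 / 2)‖) atTop (𝓝 0) := by
  have := hρ.prob
  have hint : Integrable (fun s : ℝ => Real.exp (-c * s ^ 2) + Real.exp (-(1 / 2) * s ^ 2)) :=
    (integrable_exp_neg_mul_sq hc).add (integrable_exp_neg_mul_sq (by norm_num))
  have hnorm : ∀ s : ℝ, ‖Complex.exp (-(s : ℂ) ^ 2 / 2)‖ = Real.exp (-(1 / 2) * s ^ 2) := by
    intro s
    rw [Complex.norm_exp]
    congr 1
    have : (-(s : ℂ) ^ 2 / 2) = ((-(1 / 2) * s ^ 2 : ℝ) : ℂ) := by push_cast; ring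
    rw [this, Complex.ofReal_re]
  have key := tendsto_integral_of_dominated_convergence (μ := volume)
    (F := fun (k : ℕ) (s : ℝ) => ‖(Set.Ioc (-(A * √k)) (A * √k)).indicator
      (fun s : ℝ => charFun ρ (s / √k) ^ k) s - Complex.exp (-(s : ℂ) ^ 2 / 2)‖)
    (f := fun _ => 0) (fun s : ℝ => Real.exp (-c * s ^ 2) + Real.exp (-(1 / 2) * s ^ 2))
    ?_ hint ?_ ?_
  · simpa using key
  · intro k
    refine AEStronglyMeasurable.norm (AEStronglyMeasurable.sub ?_ ?_)
    · refine AEStronglyMeasurable.indicator ?_ measurableSet_Ioc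
      exact ((continuous_charFun.comp (continuous_id.div_const _)).pow k).aestronglyMeasurable
    · exact (by fun_prop : Continuous fun s : ℝ => Complex.exp (-(s : ℂ) ^ 2 / 2)).aestronglyMeasurable
  · intro k
    refine Eventually.of_forall fun s => ?_
    rw [norm_norm]
    refine (norm_sub_le _ _).trans ?_
    rw [hnorm]
    refine add_le_add ?_ le_rfl
    by_cases hs : s ∈ Set.Ioc (-(A * √k)) (A * √k)
    · rw [Set.indicator_of_mem hs]
      have hk : 0 < √(k : ℝ) := by
        by_contra hk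
        push Not at hk
        have : √(k : ℝ) = 0 := le_antisymm hk (Real.sqrt_nonneg _)
        rw [this] at hs
        simp at hs
      have hs' : |s / √k| ≤ A := by
        rw [abs_div, abs_of_pos hk, div_le_iff₀ hk, abs_le]
        exact ⟨hs.1.le, hs.2⟩
      rw [norm_pow]
      refine (pow_le_pow_left₀ (norm_nonneg _) (hb _ hs') k).trans ?_
      rw [← Real.exp_nat_mul, Real.exp_le_exp, div_pow, Real.sq_sqrt (Nat.cast_nonneg k)]
      have hk' : (0 : ℝ) < k := by
        rw [Real.sqrt_pos] at hk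
        exact hk
      apply le_of_eq
      field_simp
    · rw [Set.indicator_of_notMem hs, norm_zero]
      exact (Real.exp_pos _).le
  · refine Eventually.of_forall fun s => ?_
    have h1 : Tendsto (fun k : ℕ => charFun ρ (s / √k) ^ k - Complex.exp (-(s : ℂ) ^ 2 / 2)) atTop
        (𝓝 0) := by
      have := (charFun_clt hρ s).sub_const (Complex.exp (-(s : ℂ) ^ 2 / 2))
      simpa using this
    have h2 := h1.norm
    rw [norm_zero] at h2
    refine h2.congr' ?_
    have h3 : Tendsto (fun k : ℕ => A * √(k : ℝ)) atTop atTop :=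
      (Real.tendsto_sqrt_atTop.comp tendsto_natCast_atTop_atTop).const_mul_atTop hA
    filter_upwards [h3.eventually_gt_atTop |s|] with k hk
    rw [Set.indicator_of_mem]
    rw [abs_lt] at hk
    exact ⟨hk.1, hk.2.le⟩

/-- the gaussian integral -/
theorem C2_gauss (z : ℝ) :
    ∫ s : ℝ, Complex.exp (-(s * z) * Complex.I) * Complex.exp (-(s : ℂ) ^ 2 / 2) =
      ((√(2 * Real.pi) * Real.exp (-z ^ 2 / 2) : ℝ) : ℂ) := by
  have h := fourierIntegral_gaussian (b := (1 / 2 : ℂ)) (by norm_num) (-(z : ℂ))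
  have e1 : (∫ s : ℝ, Complex.exp (-(s * z) * Complex.I) * Complex.exp (-(s : ℂ) ^ 2 / 2)) =
      ∫ x : ℝ, Complex.exp (Complex.I * (-(z : ℂ)) * x) * Complex.exp (-(1 / 2) * (x : ℂ) ^ 2) := by
    congr 1
    funext s
    congr 2 <;> ring
  rw [e1, h]
  have e2 : ((Real.pi : ℂ) / (1 / 2)) ^ (1 / 2 : ℂ) = ((√(2 * Real.pi) : ℝ) : ℂ) := by
    rw [Real.sqrt_eq_rpow, Complex.ofReal_cpow (by positivity)]
    push_cast
    congr 1
    ring
  rw [e2]
  push_cast
  congr 2
  ring

/-- the walk is on its lattice -/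
theorem C2_ae (hρ : Std ρ) (a h : ℝ) (hstep : ∀ᵐ x ∂ρ, ∃ j : ℤ, x = a + h * j) (k : ℕ) (x : ℝ) :
    ∀ᵐ z ∂(fre ρ k x), ∃ j : ℤ, z = x + k * a + h * j := by
  have := hρ.prob
  have hms : MeasurableSet {z : ℝ | ∃ j : ℤ, z = x + k * a + h * j} := by
    have : {z : ℝ | ∃ j : ℤ, z = x + k * a + h * j} =
        Set.range (fun j : ℤ => x + k * a + h * j) := by
      ext z
      constructor
      · rintro ⟨j, hj⟩; exact ⟨j, hj.symm⟩
      · rintro ⟨j, hj⟩; exact ⟨j, hj.symm⟩
    rw [this]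
    exact (Set.countable_range _).measurableSet
  unfold fre
  rw [ae_map_iff ((measurable_S k).const_add x).aemeasurable hms]
  have h1 : ∀ᵐ ω ∂(seqLaw ρ), ∀ i : ℕ, ∃ j : ℤ, ω i = a + h * j := by
    rw [ae_all_iff]
    intro i
    exact (measurePreserving_eval_infinitePi (fun _ : ℕ => ρ) i).quasiMeasurePreserving.ae hstep
  filter_upwards [h1] with ω hω
  choose j hj using hω
  refine ⟨∑ i ∈ Finset.range k, j i, ?_⟩
  unfold S
  simp only [hj, Finset.sum_add_distrib, Finset.sum_const, Finset.card_range, nsmul_eq_mul,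
    ← Finset.mul_sum]
  push_cast
  ring

/-- Fourier inversion -/
theorem C2_inv (hρ : Std ρ) (a h : ℝ) (hh : 0 < h) (hstep : ∀ᵐ x ∂ρ, ∃ j : ℤ, x = a + h * j)
    (k : ℕ) (x : ℝ) (j : ℤ) :
    ((2 * Real.pi / h : ℝ) : ℂ) * (((fre ρ k x).real {x + k * a + h * j} : ℝ) : ℂ) =
      ∫ t in (-(Real.pi / h))..(Real.pi / h),
        Complex.exp (-(t * (k * a + h * j : ℝ)) * Complex.I) * charFun ρ t ^ k := by
  have := hρ.prob
  set A := Real.pi / h with hA
  have hApos : 0 < A := by positivity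
  set y : ℝ := x + k * a + h * j with hy
  have hsw : ∫ z, (∫ t in (-A)..A, Complex.exp (t * (z - y : ℝ) * Complex.I)) ∂(fre ρ k x) =
      ∫ t in (-A)..A, (∫ z, Complex.exp (t * (z - y : ℝ) * Complex.I) ∂(fre ρ k x)) := by
    simp only [intervalIntegral.integral_of_le (show -A ≤ A by linarith)]
    apply integral_integral_swap
    refine Integrable.of_bound (C := 1) ?_ ?_
    · exact (by fun_prop : Continuous (Function.uncurry fun (z t : ℝ) =>
        Complex.exp (t * (z - y : ℝ) * Complex.I))).aestronglyMeasurable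
    · refine Eventually.of_forall fun p => ?_
      simp only [Function.uncurry]
      rw [show ((p.2 : ℂ) * ((p.1 - y : ℝ) : ℂ) * Complex.I) =
        ((p.2 * (p.1 - y) : ℝ) : ℂ) * Complex.I by push_cast; ring, Complex.norm_exp_ofReal_mul_I]
  have hR : ∀ t : ℝ, (∫ z, Complex.exp (t * (z - y : ℝ) * Complex.I) ∂(fre ρ k x)) =
      Complex.exp (-(t * (k * a + h * j : ℝ)) * Complex.I) * charFun ρ t ^ k := by
    intro t
    have e1 : ∀ z : ℝ, Complex.exp (t * (z - y : ℝ) * Complex.I) =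
        Complex.exp (-(t * y) * Complex.I) * Complex.exp (t * z * Complex.I) := by
      intro z
      rw [← Complex.exp_add]
      congr 1
      push_cast
      ring
    simp only [e1]
    rw [integral_const_mul, ← charFun_apply_real, charFun_fre, ← mul_assoc, ← Complex.exp_add]
    congr 2
    rw [hy]
    push_cast
    ring
  have hL : ∀ᵐ z ∂(fre ρ k x), (∫ t in (-A)..A, Complex.exp (t * (z - y : ℝ) * Complex.I)) =
      ({y} : Set ℝ).indicator (fun _ => ((2 * A : ℝ) : ℂ)) z := by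
    filter_upwards [C2_ae hρ a h hstep k x] with z hz
    obtain ⟨m, hm⟩ := hz
    by_cases hzy : z = y
    · rw [Set.indicator_of_mem (by exact hzy), hzy]
      simp
      ring
    · rw [Set.indicator_of_notMem (by exact hzy)]
      have hmj : m ≠ j := by
        rintro rfl
        exact hzy hm
      have hne : ((z - y : ℝ) : ℂ) * Complex.I ≠ 0 := by
        apply mul_ne_zero _ Complex.I_ne_zero
        rw [Complex.ofReal_ne_zero]
        exact sub_ne_zero.mpr hzy
      have e1 : ∀ t : ℝ, Complex.exp (t * (z - y : ℝ) * Complex.I) =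
          Complex.exp (((z - y : ℝ) : ℂ) * Complex.I * t) := by
        intro t
        congr 1
        ring
      simp only [e1]
      rw [integral_exp_mul_complex hne, div_eq_zero_iff]
      left
      rw [sub_eq_zero, Complex.exp_eq_exp_iff_exists_int]
      refine ⟨m - j, ?_⟩
      have e2 : z - y = h * (m - j) := by rw [hm, hy]; ring
      rw [e2, hA]
      push_cast
      have hh' : (h : ℂ) ≠ 0 := by exact_mod_cast hh.ne'
      field_simp
      ring
  rw [integral_congr_ae hL, integral_indicator_const _ (measurableSet_singleton y)] at hsw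
  have hR' : (∫ t in (-A)..A, (∫ z, Complex.exp (t * (z - y : ℝ) * Complex.I) ∂(fre ρ k x))) =
      ∫ t in (-A)..A, Complex.exp (-(t * (k * a + h * j : ℝ)) * Complex.I) * charFun ρ t ^ k := by
    congr 1
    funext t
    exact hR t
  rw [← hR', ← hsw, Complex.real_smul, mul_comm]
  congr 1
  rw [hA]
  push_cast
  ring

/-- the local limit theorem for points -/
theorem C2_point (hρ : Std ρ) (a h : ℝ) (hh : 0 < h) (hstep : ∀ᵐ x ∂ρ, ∃ j : ℤ, x = a + h * j)
    (hap : ∀ t : ℝ, 0 < t → t < 2 * Real.pi / h → ‖charFun ρ t‖ < 1) :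
    ∀ ε > (0 : ℝ), ∃ K : ℕ, 1 ≤ K ∧ ∀ k ≥ K, ∀ (x : ℝ) (j : ℤ),
      |√k * (fre ρ k x).real {x + k * a + h * j} -
        h * (Real.exp (-((k * a + h * j) / √k) ^ 2 / 2) / √(2 * Real.pi))| ≤ ε := by
  have := hρ.prob
  intro ε hε
  set A := Real.pi / h with hA
  have hπ := Real.pi_pos
  have hApos : 0 < A := by positivity
  obtain ⟨c, hc, hb⟩ := C2_bound hρ A hApos (fun t ht htA => hap t ht (lt_of_le_of_lt htA (by
    rw [hA]
    apply div_lt_div_of_pos_right _ hh
    linarith)))
  have hdct := C2_dct hρ A c hApos hc hb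
  have hev := (hdct.eventually_lt_const (show (0 : ℝ) < ε * (2 * Real.pi / h) by positivity)).and
    (eventually_ge_atTop 1)
  obtain ⟨K, hK⟩ := eventually_atTop.mp hev
  refine ⟨max K 1, le_max_right _ _, ?_⟩
  intro k hk x j
  obtain ⟨hk1, hk2⟩ := hK k ((le_max_left _ _).trans hk)
  have hkpos : (0 : ℝ) < k := by exact_mod_cast hk2
  set r : ℝ := √(k : ℝ) with hr
  have hrpos : 0 < r := Real.sqrt_pos.mpr hkpos
  set y : ℝ := k * a + h * j with hy
  set p : ℝ := (fre ρ k x).real {x + k * a + h * j} with hp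
  have hinv := C2_inv hρ a h hh hstep k x j
  rw [← hA, ← hy, ← hp] at hinv
  set G : ℝ → ℂ := fun s => (Set.Ioc (-(A * r)) (A * r)).indicator
    (fun s : ℝ => charFun ρ (s / r) ^ k) s with hG
  have hGint : Integrable G := by
    rw [hG]
    have : IntegrableOn (fun s : ℝ => charFun ρ (s / r) ^ k) (Set.Ioc (-(A * r)) (A * r)) := by
      apply Continuous.integrableOn_Ioc
      exact (continuous_charFun.comp (continuous_id.div_const _)).pow k
    exact this.integrable_indicator measurableSet_Ioc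
  have hgint : Integrable (fun s : ℝ => Complex.exp (-(s : ℂ) ^ 2 / 2)) := by
    have := integrable_cexp_neg_mul_sq (b := (1 / 2 : ℂ)) (by norm_num)
    refine this.congr (Eventually.of_forall fun s => ?_)
    simp only
    congr 1
    ring
  have hE : ∀ s : ℝ, ‖Complex.exp (-(s * (y / r : ℝ)) * Complex.I)‖ = 1 := by
    intro s
    rw [show (-((s : ℂ) * ((y / r : ℝ) : ℂ)) * Complex.I) =
      ((-(s * (y / r)) : ℝ) : ℂ) * Complex.I by push_cast; ring, Complex.norm_exp_ofReal_mul_I]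
  have hEc : Continuous (fun s : ℝ => Complex.exp (-(s * (y / r : ℝ)) * Complex.I)) := by fun_prop
  have hEG : Integrable (fun s : ℝ => Complex.exp (-(s * (y / r : ℝ)) * Complex.I) * G s) := by
    refine hGint.bdd_mul (c := 1) hEc.aestronglyMeasurable ?_
    exact Eventually.of_forall fun s => (hE s).le
  have hEg : Integrable (fun s : ℝ => Complex.exp (-(s * (y / r : ℝ)) * Complex.I) *
      Complex.exp (-(s : ℂ) ^ 2 / 2)) := by
    refine hgint.bdd_mul (c := 1) hEc.aestronglyMeasurable ?_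
    exact Eventually.of_forall fun s => (hE s).le
  have hcv : (r : ℂ) * (((2 * Real.pi / h : ℝ) : ℂ) * (p : ℂ)) =
      ∫ s : ℝ, Complex.exp (-(s * (y / r : ℝ)) * Complex.I) * G s := by
    rw [hinv]
    have h1 := intervalIntegral.integral_comp_div (a := -(A * r)) (b := A * r)
      (fun t : ℝ => Complex.exp (-(t * (y : ℝ)) * Complex.I) * charFun ρ t ^ k) hrpos.ne'
    rw [show -(A * r) / r = -A by field_simp, show A * r / r = A by field_simp] at h1
    rw [← Complex.real_smul, ← h1, intervalIntegral.integral_of_le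
      (show -(A * r) ≤ A * r by nlinarith [mul_pos hApos hrpos]), ← integral_indicator measurableSet_Ioc]
    congr 1
    funext s
    rw [hG]
    simp only
    by_cases hs : s ∈ Set.Ioc (-(A * r)) (A * r)
    · rw [Set.indicator_of_mem hs, Set.indicator_of_mem hs]
      congr 2
      push_cast
      field_simp
    · rw [Set.indicator_of_notMem hs, Set.indicator_of_notMem hs, mul_zero]
  have hgauss := C2_gauss (y / r)
  have hdiff : ‖(r : ℂ) * (((2 * Real.pi / h : ℝ) : ℂ) * (p : ℂ)) -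
      ((√(2 * Real.pi) * Real.exp (-(y / r) ^ 2 / 2) : ℝ) : ℂ)‖ ≤ ε * (2 * Real.pi / h) := by
    rw [hcv, ← hgauss, ← integral_sub hEG hEg]
    refine (norm_integral_le_integral_norm _).trans ?_
    refine le_trans (le_of_eq ?_) hk1.le
    congr 1
    funext s
    rw [← mul_sub, norm_mul, hE, one_mul]
  have hreal : |r * (2 * Real.pi / h * p) - √(2 * Real.pi) * Real.exp (-(y / r) ^ 2 / 2)| ≤
      ε * (2 * Real.pi / h) := by
    rw [← Real.norm_eq_abs, ← Complex.norm_real]
    refine le_trans (le_of_eq ?_) hdiff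
    congr 1
    push_cast
    ring
  have hsq : √(2 * Real.pi) * √(2 * Real.pi) = 2 * Real.pi := Real.mul_self_sqrt (by positivity)
  have hsp : 0 < √(2 * Real.pi) := Real.sqrt_pos.mpr (by positivity)
  have hfin : r * p - h * (Real.exp (-(y / r) ^ 2 / 2) / √(2 * Real.pi)) =
      (r * (2 * Real.pi / h * p) - √(2 * Real.pi) * Real.exp (-(y / r) ^ 2 / 2)) *
        (h / (2 * Real.pi)) := by
    have h1 : √(2 * Real.pi) / (2 * Real.pi) = 1 / √(2 * Real.pi) := by
      rw [div_eq_div_iff (by positivity) hsp.ne']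
      rw [hsq, one_mul]
    calc r * p - h * (Real.exp (-(y / r) ^ 2 / 2) / √(2 * Real.pi))
        = r * p - h * (Real.exp (-(y / r) ^ 2 / 2) * (1 / √(2 * Real.pi))) := by ring
      _ = r * p - h * (Real.exp (-(y / r) ^ 2 / 2) * (√(2 * Real.pi) / (2 * Real.pi))) := by rw [h1]
      _ = _ := by field_simp
  rw [hfin, abs_mul, abs_of_pos (show 0 < h / (2 * Real.pi) by positivity)]
  calc _ ≤ ε * (2 * Real.pi / h) * (h / (2 * Real.pi)) :=
        mul_le_mul_of_nonneg_right hreal (by positivity)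
    _ = ε := by field_simp

theorem C2_lip (z z' : ℝ) : |Real.exp (-z ^ 2 / 2) - Real.exp (-z' ^ 2 / 2)| ≤ |z - z'| := by
  have hd : ∀ x : ℝ, HasDerivAt (fun y : ℝ => Real.exp (-y ^ 2 / 2)) (Real.exp (-x ^ 2 / 2) * (-x)) x := by
    intro x
    have h1 : HasDerivAt (fun y : ℝ => -y ^ 2 / 2) (-x) x := by
      have := ((hasDerivAt_pow 2 x).neg).div_const 2
      refine this.congr_deriv ?_
      ring
    exact h1.exp
  have hb : ∀ x : ℝ, ‖Real.exp (-x ^ 2 / 2) * (-x)‖ ≤ 1 := by
    intro x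
    rw [Real.norm_eq_abs, abs_mul, abs_neg, abs_of_pos (Real.exp_pos _)]
    have h1 : |x| ≤ Real.exp (x ^ 2 / 2) := by
      have h2 := Real.add_one_le_exp (x ^ 2 / 2)
      have h3 : |x| ≤ (x ^ 2 + 1) / 2 := by
        have := sq_nonneg (|x| - 1)
        have h4 : |x| ^ 2 = x ^ 2 := sq_abs x
        nlinarith
      linarith
    calc Real.exp (-x ^ 2 / 2) * |x| ≤ Real.exp (-x ^ 2 / 2) * Real.exp (x ^ 2 / 2) :=
          mul_le_mul_of_nonneg_left h1 (Real.exp_pos _).le
      _ = 1 := by rw [← Real.exp_add, show -x ^ 2 / 2 + x ^ 2 / 2 = 0 by ring, Real.exp_zero]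
  have := Convex.norm_image_sub_le_of_norm_hasDerivWithin_le (s := Set.univ) (C := 1)
    (f := fun y : ℝ => Real.exp (-y ^ 2 / 2)) (x := z') (y := z)
    (fun x _ => (hd x).hasDerivWithinAt) (fun x _ => hb x) convex_univ (Set.mem_univ _)
    (Set.mem_univ _)
  simpa [Real.norm_eq_abs] using this

/-- `lam` counts -/
theorem C2_lam (h c : ℝ) (hh : 0 < h) (J : Set ℝ) (hJ : MeasurableSet J) (F : Finset ℤ)
    (hF : ∀ j : ℤ, j ∈ F ↔ c + h * j ∈ J) : (lam h c).real J = h * F.card := by
  classical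
  unfold lam
  rw [if_neg hh.ne', Measure.real, Measure.smul_apply, Measure.sum_apply _ hJ]
  have h1 : ∑' j : ℤ, (Measure.dirac (c + h * j)) J = (F.card : ℝ≥0∞) := by
    rw [tsum_eq_sum (s := F)]
    · rw [Finset.sum_congr rfl (g := fun _ => (1 : ℝ≥0∞))]
      · simp
      · intro j hj
        rw [Measure.dirac_apply' _ hJ, Set.indicator_of_mem ((hF j).mp hj)]
        rfl
    · intro j hj
      rw [Measure.dirac_apply' _ hJ, Set.indicator_of_notMem (fun h => hj ((hF j).mpr h))]
  rw [h1, smul_eq_mul, ENNReal.toReal_mul, ENNReal.toReal_ofReal hh.le, ENNReal.toReal_natCast]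

theorem C2_sum (μ : Measure ℝ) [IsProbabilityMeasure μ] (h c : ℝ) (hh : 0 < h)
    (hμ : ∀ᵐ z ∂μ, ∃ j : ℤ, z = c + h * j) (J : Set ℝ) (F : Finset ℤ)
    (hF : ∀ j : ℤ, j ∈ F ↔ c + h * j ∈ J) :
    μ.real J = ∑ j ∈ F, μ.real {c + h * (j : ℝ)} := by
  have h1 : J =ᵐ[μ] ⋃ j ∈ F, {c + h * (j : ℝ)} := by
    filter_upwards [hμ] with z hz
    obtain ⟨j, rfl⟩ := hz
    apply propext
    constructor
    · intro hj
      have hj' : j ∈ F := (hF j).mpr hj
      exact Set.mem_iUnion₂.mpr ⟨j, hj', rfl⟩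
    · intro hj
      obtain ⟨i, hi, hij⟩ := Set.mem_iUnion₂.mp hj
      have := (hF i).mp hi
      rw [Set.mem_singleton_iff] at hij
      rw [← hij] at this
      exact this
  rw [measureReal_congr h1, measureReal_biUnion_finset]
  · intro i _ i' _ hne
    rw [Function.onFun, Set.disjoint_singleton]
    intro heq
    apply hne
    have : h * (i : ℝ) = h * i' := by linarith
    exact_mod_cast mul_left_cancel₀ hh.ne' this
  · intro i _
    exact measurableSet_singleton _

theorem C2_fin (h c u w : ℝ) (hh : 0 < h) (J : Set ℝ) (hJ : J ⊆ Set.Icc u w) :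
    ∃ F : Finset ℤ, ∀ j : ℤ, j ∈ F ↔ c + h * j ∈ J := by
  have hfin : {j : ℤ | c + h * j ∈ J}.Finite := by
    refine (Set.finite_Icc ⌊(u - c) / h⌋ ⌈(w - c) / h⌉).subset ?_
    intro j hj
    obtain ⟨h1, h2⟩ := hJ hj
    constructor
    · have : (u - c) / h ≤ j := by rw [div_le_iff₀ hh]; linarith
      exact_mod_cast (Int.floor_le _).trans this
    · have : (j : ℝ) ≤ (w - c) / h := by rw [le_div_iff₀ hh]; linarith
      exact_mod_cast this.trans (Int.le_ceil _)
  exact ⟨hfin.toFinset, fun j => by simp⟩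

/-- **[FV-C2]** Gnedenko's local limit theorem.
PROOF. For `y ∈ ka + hℤ`: `P(S_k = y) = (h/2π) ∫_{-π/h}^{π/h} e^{-ity} χ(t)^k dt` (orthogonality of
`e^{ithj}` on an interval of length `2π/h`; `S_k ∈ ka + hℤ` a.s.). With `t = s/√k`:
`√k P(S_k = y) = (h/2π) ∫_{|s| ≤ π√k/h} e^{-isy/√k} χ(s/√k)^k ds`, compared with
`h φ(y/√k) = (h/2π) ∫ e^{-isy/√k} e^{-s²/2} ds`; the difference tends to 0 uniformly in `y` as in
`fejer_llt` (`θ = sup_{δ ≤ |t| ≤ π/h} |χ(t)| < 1` because `π/h < 2π/h`).
Then for an interval `J` (end points `u ≤ w ≤ u+L`), `x + S_k ∈ J` means `S_k = y` for one of the at most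
`L/h + 1` points `y` of `ka + hℤ` with `x + y ∈ J`, i.e. the points `x + y` of `(x + ka) + hℤ` in `J`; for
each of them `|φ(y/√k) - φ((u-x)/√k)| ≤ L/√k`. Sum up:
`√k P(x + S_k ∈ J) = h · #{…} φ((u-x)/√k) + o(1)`, `h · #{…} = (lam h (x+ka)).real J`. -/
theorem lat_lattice (hρ : Std ρ) (a h : ℝ) (hh : 0 < h) (hstep : ∀ᵐ x ∂ρ, ∃ j : ℤ, x = a + h * j)
    (hap : ∀ t : ℝ, 0 < t → t < 2 * Real.pi / h → ‖charFun ρ t‖ < 1) : Lat ρ a h := by
  have := hρ.prob
  refine ⟨hh.le, ?_, ?_⟩
  · filter_upwards [hstep] with x hx _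
    exact hx
  · intro D hD L hL ε hε
    obtain ⟨K1, hK1, hpt⟩ := C2_point hρ a h hh hstep hap (ε / (2 * (L / h + 1))) (by positivity)
    obtain ⟨K2, hK2⟩ := exists_nat_gt ((2 * h * L * (L / h + 1) / ε) ^ 2)
    refine ⟨max K1 K2, ?_⟩
    intro k hk x u w huw hwL
    have hk1 : K1 ≤ k := (le_max_left _ _).trans hk
    have hk2 : K2 ≤ k := (le_max_right _ _).trans hk
    have hkpos : (0 : ℝ) < k := by exact_mod_cast hK1.trans hk1
    have hrpos : 0 < √(k : ℝ) := Real.sqrt_pos.mpr hkpos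
    have hr : 2 * h * L * (L / h + 1) / ε ≤ √(k : ℝ) := by
      apply Real.le_sqrt_of_sq_le
      have : (K2 : ℝ) ≤ k := by exact_mod_cast hk2
      linarith
    set c : ℝ := x + k * a with hc
    obtain ⟨F, hF⟩ := C2_fin h c u w hh (IV D u w) (IV_subset hD u w)
    have hlam := C2_lam h c hh (IV D u w) (measurableSet_IV hD u w) F hF
    have hsum := C2_sum (fre ρ k x) h c hh (C2_ae hρ a h hstep k x) (IV D u w) F hF
    have hcard : (F.card : ℝ) ≤ L / h + 1 := by
      have h1 := lam_IV_le hD h c hh.le u w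
      rw [hlam] at h1
      have h2 : max 0 (w - u) ≤ L := max_le hL.le (by linarith)
      have h3 : h * (F.card : ℝ) ≤ L + h := by linarith
      have h4 : (F.card : ℝ) ≤ (L + h) / h := by rw [le_div_iff₀ hh]; linarith
      rwa [add_div, div_self hh.ne'] at h4
    set φ0 : ℝ := Real.exp (-((u - x) / √k) ^ 2 / 2) / √(2 * Real.pi) with hφ0
    have hsp : 1 ≤ √(2 * Real.pi) := by
      rw [Real.one_le_sqrt]
      have := Real.pi_gt_three
      linarith
    have hterm : ∀ j ∈ F, |√k * (fre ρ k x).real {c + h * (j : ℝ)} - h * φ0| ≤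
        ε / (2 * (L / h + 1)) + h * (L / √k) := by
      intro j hj
      have h1 := hpt k hk1 x j
      rw [← hc] at h1
      have h2 : |h * (Real.exp (-((k * a + h * j) / √k) ^ 2 / 2) / √(2 * Real.pi)) - h * φ0| ≤
          h * (L / √k) := by
        rw [← mul_sub, abs_mul, abs_of_pos hh]
        apply mul_le_mul_of_nonneg_left _ hh.le
        rw [hφ0, ← sub_div, abs_div, abs_of_pos (show 0 < √(2 * Real.pi) by linarith)]
        have h3 := C2_lip ((k * a + h * j) / √k) ((u - x) / √k)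
        have h4 : |(k * a + h * j) / √(k : ℝ) - (u - x) / √k| ≤ L / √k := by
          rw [← sub_div, abs_div, abs_of_pos hrpos]
          apply div_le_div_of_nonneg_right _ hrpos.le
          have h5 := IV_subset hD u w ((hF j).mp hj)
          rw [abs_le]
          constructor
          · have := h5.1
            rw [hc] at this
            linarith
          · have := h5.2
            rw [hc] at this
            linarith
        refine le_trans ?_ (h3.trans h4)
        apply div_le_self (abs_nonneg _) hsp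
      calc |√k * (fre ρ k x).real {c + h * (j : ℝ)} - h * φ0| =
          |(√k * (fre ρ k x).real {c + h * (j : ℝ)} -
            h * (Real.exp (-((k * a + h * j) / √k) ^ 2 / 2) / √(2 * Real.pi))) +
            (h * (Real.exp (-((k * a + h * j) / √k) ^ 2 / 2) / √(2 * Real.pi)) - h * φ0)| := by
              congr 1; ring
        _ ≤ _ := (abs_add_le _ _).trans (add_le_add h1 h2)
    have hall : √k * (fre ρ k x).real (IV D u w) - (lam h c).real (IV D u w) * φ0 =
        ∑ j ∈ F, (√k * (fre ρ k x).real {c + h * (j : ℝ)} - h * φ0) := by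
      rw [hsum, hlam, Finset.sum_sub_distrib, Finset.mul_sum, Finset.sum_const, nsmul_eq_mul]
      ring
    rw [hall]
    refine (Finset.abs_sum_le_sum_abs _ _).trans ?_
    refine (Finset.sum_le_sum hterm).trans ?_
    rw [Finset.sum_const, nsmul_eq_mul]
    have hLh : 0 < L / h + 1 := by positivity
    have h6 : h * (L / √k) ≤ ε / (2 * (L / h + 1)) := by
      rw [← mul_div_assoc, div_le_div_iff₀ hrpos (by positivity)]
      rw [div_le_iff₀ hε] at hr
      nlinarith
    calc (F.card : ℝ) * (ε / (2 * (L / h + 1)) + h * (L / √k))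
        ≤ (L / h + 1) * (ε / (2 * (L / h + 1)) + ε / (2 * (L / h + 1))) := by
          apply mul_le_mul hcard (by linarith) (by positivity) hLh.le
      _ = ε := by field_simp; ring

end Pool.Agent.BPT
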