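import Pool.Agent.MP_99a865_pr.FV.C0
import Pool.Agent.MP_99a865_pr.FV.C1b
import Pool.Agent.MP_99a865_pr.FV.C2

open MeasureTheory ProbabilityTheory Filter Topology
open scoped ENNReal NNReal

namespace Pool.Agent.BPT

variable {D : Set ℝ} {ρ : Measure ℝ}

theorem exists_lat (hρ : Std ρ) : ∃ a h : ℝ, Lat ρ a h := by
  rcases lattice_dichotomy hρ with h | ⟨a, h, hh, hs, ha⟩
  · exact ⟨0, 0, lat_nonlattice hρ h⟩
  · exact ⟨a, h, lat_lattice hρ a h hh hs ha⟩

end Pool.Agent.BPT
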