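import Pool.Agent.MP_99a865_pr.FV.A8
import Pool.Agent.MP_99a865_pr.FV.B3

open MeasureTheory ProbabilityTheory Filter Topology
open scoped ENNReal NNReal

namespace Pool.Agent.BPT

variable {D : Set ℝ} {ρ : Measure ℝ}

lemma D1a_cover (μ : Measure ℝ) [IsFiniteMeasure μ] (L u b : ℝ) (hL : 0 ≤ L) (J : Set ℝ)
    (hJ : J ⊆ Set.Icc u (u + L)) (hb : 0 ≤ b)
    (h : ∀ i : ℕ, (i : ℝ) ≤ L → μ.real (Set.Ico (u + i) (u + i + 1)) ≤ b) :
    μ.real J ≤ (L + 2) * b := by
  have h1 : J ⊆ ⋃ i ∈ Finset.range (⌊L⌋₊ + 1), Set.Ico (u + (i : ℝ)) (u + i + 1) := by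
    intro y hy
    have hy2 := hJ hy
    have h0 : 0 ≤ y - u := by linarith [hy2.1]
    simp only [Set.mem_iUnion, exists_prop]
    refine ⟨⌊y - u⌋₊, ?_, ?_, ?_⟩
    · rw [Finset.mem_range, Nat.lt_succ_iff]
      exact Nat.floor_le_floor (by linarith [hy2.2])
    · linarith [Nat.floor_le h0]
    · linarith [Nat.lt_floor_add_one (y - u)]
  calc μ.real J ≤ μ.real (⋃ i ∈ Finset.range (⌊L⌋₊ + 1), Set.Ico (u + (i : ℝ)) (u + i + 1)) :=
        measureReal_mono h1 (measure_ne_top _ _)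
    _ ≤ ∑ i ∈ Finset.range (⌊L⌋₊ + 1), μ.real (Set.Ico (u + (i : ℝ)) (u + i + 1)) :=
        measureReal_biUnion_finset_le _ _
    _ ≤ ∑ i ∈ Finset.range (⌊L⌋₊ + 1), b := by
        refine Finset.sum_le_sum fun i hi => h i ?_
        rw [Finset.mem_range, Nat.lt_succ_iff] at hi
        exact (Nat.cast_le.2 hi).trans (Nat.floor_le hL)
    _ = (⌊L⌋₊ + 1 : ℕ) * b := by rw [Finset.sum_const, Finset.card_range, nsmul_eq_mul]
    _ ≤ (L + 2) * b := by
        refine mul_le_mul_of_nonneg_right ?_ hb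
        push_cast
        linarith [Nat.floor_le hL]

/-- **[FV-D1a]** The walk rarely leaves `D` and comes back to a point `u` far from the origin.
PROOF. By `exit_decomp_lintegral` (with `g = 1_{Icc u (u+L)}`) the difference equals
`∑_{i<k} ∫ w ∫_{w+y∉D} fre (k-1-i) (w+y) (Icc u (u+L))`; here `w + y ≤ 0`, so by `far` (cover
`Icc u (u+L)` by at most `L + 2` unit intervals, all at distance `≥ u` from `w + y`) each
`fre m (w+y) (Icc u (u+L)) ≤ (L+2) C√m/u² ≤ (L+2) C √k/u²` for `m ≥ 1`, and it is `0` for `m = 0`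
(`w + y ≤ 0 < u`). The total exit probability is at most one (`exit_mass`). -/
theorem return_small (hD : Dom D) (hρ : Std ρ) : ∃ C > (0 : ℝ), ∀ L : ℝ, 0 ≤ L → ∀ k : ℕ, 1 ≤ k →
    ∀ x u : ℝ, 0 ≤ x → 0 < u → ∀ J : Set ℝ, MeasurableSet J → J ⊆ Set.Icc u (u + L) →
      (kap D ρ k x).real J ≤ (fre ρ k x).real J ∧
      (fre ρ k x).real J - (kap D ρ k x).real J ≤ C * (L + 2) * √k / u ^ 2 := by
  have := hρ.prob
  obtain ⟨C, hC, hfar⟩ := far hρ
  refine ⟨C, hC, fun L hL k hk x u hx hu J hJm hJ => ?_⟩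
  refine ⟨ENNReal.toReal_mono (measure_ne_top _ _) (kap_le_fre hD k x J), ?_⟩
  set c : ℝ := C * (L + 2) * √k / u ^ 2 with hc
  have hc0 : 0 ≤ c := by positivity
  have key : ∀ m : ℕ, m ≤ k → ∀ z : ℝ, z ∉ D → fre ρ m z J ≤ ENNReal.ofReal c := by
    intro m hm z hz
    have hz0 := hD.not_mem hz
    rcases Nat.eq_zero_or_pos m with rfl | hm1
    · rw [fre_zero, Measure.dirac_apply' _ hJm, Set.indicator_of_notMem]
      · exact bot_le
      · intro hzJ
        have := (hJ hzJ).1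
        linarith
    · have h1 : (fre ρ m z).real J ≤ (L + 2) * (C * √k / u ^ 2) := by
        refine D1a_cover _ L u _ hL J hJ (by positivity) fun i hi => ?_
        have hi0 : (0 : ℝ) ≤ i := Nat.cast_nonneg i
        refine (hfar m hm1 z (u + i) (by linarith : z < u + i).ne).trans ?_
        gcongr
        linarith
      have h2 : (L + 2) * (C * √k / u ^ 2) = c := by rw [hc]; ring
      rw [h2] at h1
      rw [← ofReal_measureReal]
      exact ENNReal.ofReal_le_ofReal h1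
  have h1 := exit_decomp_lintegral hD (ρ := ρ) k x (J.indicator fun _ => 1)
    (measurable_const.indicator hJm)
  simp only [lintegral_indicator_const hJm, one_mul] at h1
  have h2 : ∑ i ∈ Finset.range k, ∫⁻ w, (∫⁻ y in {y | w + y ∉ D}, fre ρ (k - 1 - i) (w + y) J ∂ρ)
        ∂(kap D ρ i x) ≤ ENNReal.ofReal c := by
    have h3 := exit_mass hD (ρ := ρ) 0 k (Nat.zero_le _) x
    have h4 : ∑ i ∈ Finset.Ico 0 k, ∫⁻ w, ex D ρ w ∂(kap D ρ i x) ≤ 1 := by
      refine le_trans ?_ (kap_univ_le_one (D := D) (ρ := ρ) 0 x)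
      rw [← h3]
      exact le_self_add
    rw [← Finset.range_eq_Ico] at h4
    calc ∑ i ∈ Finset.range k, ∫⁻ w, (∫⁻ y in {y | w + y ∉ D}, fre ρ (k - 1 - i) (w + y) J ∂ρ)
          ∂(kap D ρ i x)
        ≤ ∑ i ∈ Finset.range k, ∫⁻ w, ENNReal.ofReal c * ex D ρ w ∂(kap D ρ i x) := by
          refine Finset.sum_le_sum fun i hi => lintegral_mono fun w => ?_
          have hset : MeasurableSet {y : ℝ | w + y ∉ D} :=
            (measurable_const_add w) hD.meas.compl
          calc ∫⁻ y in {y | w + y ∉ D}, fre ρ (k - 1 - i) (w + y) J ∂ρ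
              ≤ ∫⁻ y in {y | w + y ∉ D}, ENNReal.ofReal c ∂ρ := by
                refine setLIntegral_mono measurable_const fun y hy => ?_
                exact key _ (by omega) _ hy
            _ = ENNReal.ofReal c * ex D ρ w := by
                rw [setLIntegral_const]; rfl
      _ = ENNReal.ofReal c * ∑ i ∈ Finset.range k, ∫⁻ w, ex D ρ w ∂(kap D ρ i x) := by
          rw [Finset.mul_sum]
          refine Finset.sum_congr rfl fun i _ => ?_
          rw [lintegral_const_mul _ (measurable_ex hD)]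
      _ ≤ ENNReal.ofReal c * 1 := by gcongr
      _ = ENNReal.ofReal c := mul_one _
  have h5 : fre ρ k x J ≤ kap D ρ k x J + ENNReal.ofReal c := by
    rw [h1]; gcongr
  have h6 := ENNReal.toReal_mono (by finiteness) h5
  rw [ENNReal.toReal_add (by finiteness) (by finiteness), ENNReal.toReal_ofReal hc0] at h6
  have h7 : (fre ρ k x).real J ≤ (kap D ρ k x).real J + c := h6
  linarith

/-- unit windows: an interval of length `≤ L` has `kap`-mass at most `(L+2) C (1+u+L)/k`, and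
`≤ (L + 2) C/√k`. From `win`. -/
theorem win_long (hD : Dom D) (hρ : Std ρ) : ∃ C > (0 : ℝ), ∀ L : ℝ, 0 ≤ L → ∀ k : ℕ, 1 ≤ k →
    ∀ x u : ℝ, 0 ≤ x → 0 ≤ u → ∀ J : Set ℝ, MeasurableSet J → J ⊆ Set.Icc u (u + L) →
      (kap D ρ k x).real J ≤ C * (L + 2) * (1 + u + L) / k ∧
      (kap D ρ k x).real J ≤ C * (L + 2) / √k := by
  have := hρ.prob
  obtain ⟨C, hC, hwin⟩ := win hD hρ
  refine ⟨C, hC, fun L hL k hk x u hx hu J hJm hJ => ⟨?_, ?_⟩⟩
  · have h1 : (kap D ρ k x).real J ≤ (L + 2) * (C * (1 + u + L) / k) := by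
      refine D1a_cover _ L u _ hL J hJ (by positivity) fun i hi => ?_
      refine (hwin k hk x (u + i) hx (by positivity)).2.2.1.trans ?_
      have : 1 + (u + (i : ℝ)) ≤ 1 + u + L := by linarith
      gcongr
    refine h1.trans (le_of_eq (by ring))
  · have h1 : (kap D ρ k x).real J ≤ (L + 2) * (C / √k) := by
      refine D1a_cover _ L u _ hL J hJ (by positivity) fun i hi => ?_
      exact (hwin k hk x (u + i) hx (by positivity)).1
    refine h1.trans (le_of_eq (by ring))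

end Pool.Agent.BPT
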