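import Pool.Agent.MP_99a865_pr.FV.D1a
import Pool.Agent.MP_99a865_pr.FV.B6
import Pool.Agent.MP_99a865_pr.FV.A2b

open MeasureTheory ProbabilityTheory Filter Topology
open scoped ENNReal NNReal

namespace Pool.Agent.BPT

variable {D : Set ℝ} {ρ : Measure ℝ}

/-- scaling of the gaussian density -/
theorem D1b_gau {k n : ℝ} (hk : 0 < k) (hn : 0 < n) (x : ℝ) :
    Real.exp (-(x / √k) ^ 2 / 2) / √(2 * Real.pi) = √k / √n * gau (k / n) (x / √n) := by
  unfold gau
  have hsk : 0 < √k := Real.sqrt_pos.mpr hk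
  have hsn : 0 < √n := Real.sqrt_pos.mpr hn
  have h1 : -(x / √n) ^ 2 / (2 * (k / n)) = -(x / √k) ^ 2 / 2 := by
    rw [div_pow, div_pow, Real.sq_sqrt hk.le, Real.sq_sqrt hn.le]
    field_simp
  have h2 : √(2 * Real.pi * (k / n)) = √(2 * Real.pi) * (√k / √n) := by
    rw [Real.sqrt_mul (by positivity), Real.sqrt_div hk.le]
  rw [h1, h2]
  have h3 : 0 < √(2 * Real.pi) := Real.sqrt_pos.mpr (by positivity)
  field_simp

/-- the choice of `δ` -/
theorem D1b_delta {c ε₁ A B ε : ℝ} (hc : 0 < c) (hε₁ : 0 < ε₁) (hA : 0 < A) (hB : 0 < B)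
    (hε : 0 < ε) : ∃ δ > (0 : ℝ), δ ≤ c ∧ A * √δ / ε₁ ^ 2 ≤ ε ∧
      B * Real.exp (-ε₁ ^ 2 / (2 * δ)) ≤ ε := by
  refine ⟨min c (min ((ε * ε₁ ^ 2 / A) ^ 2) (ε * ε₁ ^ 2 / (2 * B))), by positivity,
    min_le_left _ _, ?_, ?_⟩
  · set δ := min c (min ((ε * ε₁ ^ 2 / A) ^ 2) (ε * ε₁ ^ 2 / (2 * B))) with hδ
    have h1 : δ ≤ (ε * ε₁ ^ 2 / A) ^ 2 := (min_le_right _ _).trans (min_le_left _ _)
    have h2 : √δ ≤ ε * ε₁ ^ 2 / A := by
      have := Real.sqrt_le_sqrt h1
      rwa [Real.sqrt_sq (by positivity)] at this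
    rw [div_le_iff₀ (by positivity)]
    calc A * √δ ≤ A * (ε * ε₁ ^ 2 / A) := mul_le_mul_of_nonneg_left h2 hA.le
      _ = ε * ε₁ ^ 2 := by field_simp
  · set δ := min c (min ((ε * ε₁ ^ 2 / A) ^ 2) (ε * ε₁ ^ 2 / (2 * B))) with hδ
    have h0 : 0 < δ := by positivity
    have h1 : δ ≤ ε * ε₁ ^ 2 / (2 * B) := (min_le_right _ _).trans (min_le_right _ _)
    have h2 : Real.exp (-ε₁ ^ 2 / (2 * δ)) ≤ 2 * δ / ε₁ ^ 2 := by
      have h3 : ε₁ ^ 2 / (2 * δ) ≤ Real.exp (ε₁ ^ 2 / (2 * δ)) :=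
        (le_add_of_nonneg_right zero_le_one).trans (Real.add_one_le_exp _)
      have h4 : -ε₁ ^ 2 / (2 * δ) = -(ε₁ ^ 2 / (2 * δ)) := by ring
      rw [h4, Real.exp_neg]
      have h5 : 0 < ε₁ ^ 2 / (2 * δ) := by positivity
      have h6 := inv_anti₀ h5 h3
      rwa [inv_div] at h6
    calc B * Real.exp (-ε₁ ^ 2 / (2 * δ)) ≤ B * (2 * δ / ε₁ ^ 2) :=
          mul_le_mul_of_nonneg_left h2 hB.le
      _ ≤ B * (2 * (ε * ε₁ ^ 2 / (2 * B)) / ε₁ ^ 2) := by gcongr
      _ = ε := by field_simp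

/-- the real Markov property at an interval -/
theorem D1b_markov (hD : Dom D) [IsProbabilityMeasure ρ] (k l : ℕ) (x : ℝ) (s : Set ℝ)
    (hs : MeasurableSet s) :
    (kap D ρ (k + l) x).real s = ∫ y, (kap D ρ l y).real s ∂(kap D ρ k x) := by
  rw [measureReal_def, kap_add_apply hD k l x s hs]
  simp only [measureReal_def]
  rw [integral_toReal]
  · exact ((Measure.measurable_coe hs).comp (measurable_kap hD l)).aemeasurable
  · exact Filter.Eventually.of_forall fun y => measure_lt_top _ _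

/-- **[FV-D1b]** Local limit theorem for the killed walk (uniform in the starting point and in the
location and length of the interval).
PROOF. Let `J = IV D u w`, `t = k/n ∈ [c,1]`, `z' = z/√n`, `u' = u/√n`, `Λ = (lam h (z+ka)).real J ≤ L + h`.
(1) If `u' ≤ ε₁` (small): `√n (kap k z).real J ≤ C (L+2)(1 + u + L)√n/k ≤ (C(L+2)/c)(ε₁ + (1+L)/√n)`
(`win_long`) and `Λ |qq t z' u'| ≤ (L+h) 2 ε₁/c` (`qq_le_mul`, `qq_symm`): both small.
(2) Let `u' > ε₁`. Let `k₂ = ⌊δn⌋` (`δ ≤ c/2` small), `k₁ = k - k₂`, `t_i = k_i/n`, so `t₁ ≥ c/2`. By the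
Markov property `(kap k z).real J = ∫ (kap k₂ y).real J ∂(kap k₁ z)(y)`.
 (2a) `0 ≤ (fre k₂ y).real J - (kap k₂ y).real J ≤ C(L+2)√k₂/u² ≤ C(L+2)√δ/(ε₁²√n)` by `return_small`.
 (2b) `Lat.llt` at time `k₂`: `|√k₂ (fre k₂ y).real J - (lam h (y + k₂a)).real J · φ((u-y)/√k₂)| ≤ ε₂`, and
 `lam h (y + k₂ a) = lam h (z + k a)` for `kap k₁ z`-a.e. `y` (`ae_kap`, `lam_periodic`), so the first
 factor is `Λ`; `φ((u-y)/√k₂)/√k₂ = gau t₂ (u' - y/√n)/√n`.
 Hence `|√n (kap k z).real J - Λ ∫ gau t₂ (u' - y/√n) ∂(kap k₁ z)(y)| ≤ C(L+2)√δ/ε₁² + ε₂/√t₂`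
 (and `t₂ ≥ δ/2` for `n` large).
 (2c) `f(y') = gau t₂ (u' - y')` is `BL M` with `M = 1/√t₂ + 1/t₂` (`gau_le`, `gau_lip`), so by
 `killed_refl_BL` (with `c/2`, `M = 2/√(δ/2) + ..`) the integral is within `ε₃` of `AA t₁ f z'`, which is within
 `(1/√t₁) exp(-ε₁²/(2δ))` of `qq (t₁+t₂) z' u' = qq t z' u'` (`AA_gau`).
Choose `ε₁`, then `δ`, then `ε₂, ε₃`, then `n₀`. -/
theorem killed_llt (hD : Dom D) (hρ : Std ρ) {a h : ℝ} (hL : Lat ρ a h) {c L : ℝ} (hc : 0 < c)
    (hc1 : c ≤ 1) (hL0 : 0 < L) : ∀ ε > (0 : ℝ), ∃ n₀ : ℕ, ∀ n ≥ n₀, ∀ k : ℕ, c * n ≤ k → k ≤ n →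
    ∀ z u w : ℝ, 0 ≤ z → 0 ≤ u → u ≤ w → w ≤ u + L →
      |√n * (kap D ρ k z).real (IV D u w) -
        (lam h (z + k * a)).real (IV D u w) * qq (k / n) (z / √n) (u / √n)| ≤ ε := by
  have := hρ.prob
  intro ε hε
  obtain ⟨C₁, hC₁, hret⟩ := return_small (ρ := ρ) hD hρ
  obtain ⟨C₂, hC₂, hwin⟩ := win_long (ρ := ρ) hD hρ
  have hh := hL.nonneg
  have hΛ0 : 0 < L + h := by linarith
  -- `η` and `ε₁`
  set η : ℝ := ε * c / (8 * (C₂ * (L + 2))) with hη
  have hη0 : 0 < η := by positivity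
  set ε₁ : ℝ := min η (ε * c / (8 * (L + h))) with hε₁
  have hε₁0 : 0 < ε₁ := by positivity
  obtain ⟨δ, hδ0, hδc, hδA, hδB⟩ := D1b_delta (c := c / 2) (ε₁ := ε₁) (A := C₁ * (L + 2))
    (B := (L + h) * (1 / √(c / 2))) (ε := ε / 4) (by positivity) hε₁0 (by positivity)
    (by positivity) (by positivity)
  have hδ2 : 0 < √(δ / 2) := Real.sqrt_pos.mpr (by positivity)
  obtain ⟨K, hK⟩ := hL.llt D hD L hL0 (√(δ / 2) * (ε / 4)) (by positivity)
  obtain ⟨n₃, hn₃⟩ := killed_refl_BL (ρ := ρ) hD hρ (c := c / 2) (by positivity)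
    (M := 1 / √(δ / 2) + 1 / (δ / 2)) (by positivity) (ε / (4 * (L + h))) (by positivity)
  set R : ℝ := (K + 2) / δ + ((1 + L) / η) ^ 2 + 1 with hR
  refine ⟨max n₃ ⌈R⌉₊, ?_⟩
  intro n hn k hk1 hk2 z u w hz hu huw hwL
  have hnn₃ : n₃ ≤ n := (le_max_left _ _).trans hn
  have hnR : R ≤ n := (Nat.le_ceil R).trans (by exact_mod_cast (le_max_right _ _).trans hn)
  have hKδ : (0 : ℝ) ≤ (K + 2) / δ := by positivity
  have hηsq : (0 : ℝ) ≤ ((1 + L) / η) ^ 2 := by positivity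
  have hn1 : (1 : ℝ) ≤ n := by linarith
  have hn0 : (0 : ℝ) < n := by linarith
  have hsn : 0 < √(n : ℝ) := Real.sqrt_pos.mpr hn0
  have hk0 : (0 : ℝ) < k := lt_of_lt_of_le (by positivity) hk1
  have hk1' : 1 ≤ k := by
    have : 0 < k := by exact_mod_cast hk0
    omega
  have hkn : (k : ℝ) ≤ n := by exact_mod_cast hk2
  have hJm : MeasurableSet (IV D u w) := measurableSet_IV hD u w
  have hJs : IV D u w ⊆ Set.Icc u (u + L) := (IV_subset hD u w).trans (Set.Icc_subset_Icc_right hwL)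
  set Λ : ℝ := (lam h (z + k * a)).real (IV D u w) with hΛ
  have hΛ1 : Λ ≤ L + h := by
    refine (lam_IV_le hD h (z + k * a) hh u w).trans ?_
    have : max 0 (w - u) ≤ L := max_le hL0.le (by linarith)
    linarith
  have hΛ2 : 0 ≤ Λ := measureReal_nonneg
  have ht0 : (0 : ℝ) < k / n := by positivity
  have htc : c ≤ k / n := by rwa [le_div_iff₀ hn0]
  have hu' : 0 ≤ u / √n := by positivity
  rcases le_or_gt (u / √n) ε₁ with hcase | hcase
  · -- case 1
    have h1 := (hwin L hL0.le k hk1' z u hz hu _ hJm hJs).1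
    have h2 : √n * (kap D ρ k z).real (IV D u w) ≤ ε / 4 := by
      have hsum : (1 + u + L) / √n ≤ 2 * η := by
        have e1 : (1 + L) / √n ≤ η := by
          rw [div_le_iff₀ hsn]
          have e2 : (1 + L) / η ≤ √n := by
            apply Real.le_sqrt_of_sq_le
            linarith
          rwa [div_le_iff₀ hη0, mul_comm] at e2
        have e3 : (1 + u + L) / √n = (1 + L) / √n + u / √n := by ring
        have e4 : ε₁ ≤ η := min_le_left _ _
        rw [e3]
        linarith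
      calc √n * (kap D ρ k z).real (IV D u w)
          ≤ √n * (C₂ * (L + 2) * (1 + u + L) / k) := mul_le_mul_of_nonneg_left h1 hsn.le
        _ ≤ √n * (C₂ * (L + 2) * (1 + u + L) / (c * n)) := by gcongr
        _ = C₂ * (L + 2) / c * ((1 + u + L) / √n) := by
            have e5 : (n : ℝ) = √n * √n := (Real.mul_self_sqrt hn0.le).symm
            field_simp
            rw [Real.sq_sqrt hn0.le]
        _ ≤ C₂ * (L + 2) / c * (2 * η) := mul_le_mul_of_nonneg_left hsum (by positivity)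
        _ = ε / 4 := by
            rw [hη]
            field_simp
            norm_num
    have h3 : |Λ * qq (k / n) (z / √n) (u / √n)| ≤ ε / 4 := by
      rw [abs_mul, abs_of_nonneg hΛ2]
      have h4 := qq_le_mul ht0 (z / √n) hu'
      have e6 : ε₁ ≤ ε * c / (8 * (L + h)) := min_le_right _ _
      calc Λ * |qq (k / n) (z / √n) (u / √n)| ≤ (L + h) * (2 * (u / √n) / (k / n)) :=
            mul_le_mul hΛ1 h4 (abs_nonneg _) hΛ0.le
        _ ≤ (L + h) * (2 * (ε * c / (8 * (L + h))) / c) := by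
            have e7 : u / √n ≤ ε * c / (8 * (L + h)) := hcase.trans e6
            gcongr
        _ = ε / 4 := by
            field_simp
            norm_num
    have h4 : 0 ≤ √n * (kap D ρ k z).real (IV D u w) :=
      mul_nonneg hsn.le measureReal_nonneg
    have h5 := abs_le.mp h3
    rw [abs_le]
    constructor <;> linarith
  · -- case 2
    have hδn : δ * n ≤ c / 2 * n := mul_le_mul_of_nonneg_right hδc hn0.le
    obtain ⟨k₂, hk₂⟩ : ∃ k₂ : ℕ, k₂ = ⌊δ * n⌋₊ := ⟨_, rfl⟩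
    have hk₂le : (k₂ : ℝ) ≤ δ * n := by
      rw [hk₂]
      exact Nat.floor_le (by positivity)
    have hk₂ge : δ * n - 1 < k₂ := by
      rw [hk₂]
      exact Nat.sub_one_lt_floor _
    have hKn : (K : ℝ) + 2 ≤ δ * n := by
      have : ((K : ℝ) + 2) / δ ≤ n := by linarith
      rwa [div_le_iff₀ hδ0, mul_comm] at this
    have hk₂K : K ≤ k₂ := by
      have : (K : ℝ) ≤ k₂ := by linarith
      exact_mod_cast this
    have hk₂1 : 1 ≤ k₂ := by
      have h1 : (0 : ℝ) ≤ K := Nat.cast_nonneg K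
      have : (1 : ℝ) ≤ k₂ := by linarith
      exact_mod_cast this
    have hk₂0 : (0 : ℝ) < k₂ := by exact_mod_cast hk₂1
    have hk₂k : k₂ ≤ k := by
      have : (k₂ : ℝ) ≤ k := by
        have : c / 2 * n ≤ c * n := by nlinarith
        linarith
      exact_mod_cast this
    obtain ⟨k₁, hk₁⟩ : ∃ k₁ : ℕ, k = k₁ + k₂ := ⟨k - k₂, by omega⟩
    have hk₁' : (k : ℝ) = k₁ + k₂ := by exact_mod_cast hk₁
    have hk₁c : c / 2 * n ≤ k₁ := by linarith
    have hk₁0 : (0 : ℝ) < k₁ := lt_of_lt_of_le (by positivity) hk₁c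
    have hk₁1 : 1 ≤ k₁ := by
      have : 0 < k₁ := by exact_mod_cast hk₁0
      omega
    have hk₁n : k₁ ≤ n := by omega
    have ht₂0 : (0 : ℝ) < k₂ / n := by positivity
    have ht₁0 : (0 : ℝ) < k₁ / n := by positivity
    have ht₂δ : (k₂ : ℝ) / n ≤ δ := by rwa [div_le_iff₀ hn0]
    have ht₂δ' : δ / 2 ≤ (k₂ : ℝ) / n := by
      rw [le_div_iff₀ hn0]
      have h1 : (0 : ℝ) ≤ K := Nat.cast_nonneg K
      linarith
    have ht₁c : c / 2 ≤ (k₁ : ℝ) / n := by rwa [le_div_iff₀ hn0]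
    have htt : (k₁ : ℝ) / n + k₂ / n = k / n := by rw [hk₁', add_div]
    -- the integrand
    set f : ℝ → ℝ := fun y => gau (k₂ / n) (u / √n - y) with hf
    have hfBL : BL (1 / √(δ / 2) + 1 / (δ / 2)) f := by
      have e1 : 1 / √((k₂ : ℝ) / n) ≤ 1 / √(δ / 2) :=
        one_div_le_one_div_of_le hδ2 (Real.sqrt_le_sqrt ht₂δ')
      have e2 : 1 / ((k₂ : ℝ) / n) ≤ 1 / (δ / 2) :=
        one_div_le_one_div_of_le (by positivity) ht₂δ'
      have e3 : 0 < 1 / √(δ / 2) := by positivity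
      have e4 : 0 < 1 / (δ / 2) := by positivity
      constructor
      · intro x
        rw [abs_of_pos (gau_pos ht₂0 _)]
        have := gau_le ht₂0 (u / √n - x)
        linarith
      · intro x y
        have h1 := gau_lip ht₂0 (u / √n - x) (u / √n - y)
        have h2 : |u / √n - x - (u / √n - y)| = |x - y| := by
          rw [abs_sub_comm]
          congr 1
          ring
        rw [h2] at h1
        refine h1.trans ?_
        rw [div_eq_mul_one_div, mul_comm]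
        exact mul_le_mul_of_nonneg_right (by linarith) (abs_nonneg _)
    -- pointwise estimate
    have hu0 : 0 < u := by
      by_contra hcon
      have : u = 0 := le_antisymm (not_lt.mp hcon) hu
      rw [this, zero_div] at hcase
      linarith
    have huε : ε₁ * √n < u := by rwa [lt_div_iff₀ hsn] at hcase
    set Bd : ℝ := C₁ * (L + 2) * √k₂ / u ^ 2 + √(δ / 2) * (ε / 4) / √k₂ with hBd
    have hsk₂ : 0 < √(k₂ : ℝ) := Real.sqrt_pos.mpr hk₂0
    have hpt : ∀ᵐ y ∂(kap D ρ k₁ z),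
        ‖(kap D ρ k₂ y).real (IV D u w) - Λ / √n * f (y / √n)‖ ≤ Bd := by
      have hDa : ∀ᵐ y ∂(kap D ρ k₁ z), y ∈ D := by
        rw [ae_iff]
        exact kap_compl hD k₁ z (Or.inl hk₁1)
      filter_upwards [hDa, ae_kap hD a h hL.step k₁ z] with y hyD hyC
      have hy0 : 0 ≤ y := hD.nonneg hyD
      obtain ⟨r1, r2⟩ := hret L hL0.le k₂ hk₂1 y u hy0 hu0 _ hJm hJs
      have r3 := hK k₂ hk₂K y u w huw hwL
      have hlam : lam h (y + k₂ * a) = lam h (z + k * a) := by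
        apply lam_congr
        intro hh0
        obtain ⟨j, hj⟩ := hyC hh0
        exact ⟨j, by rw [hj, hk₁']; ring⟩
      rw [hlam, ← hΛ, D1b_gau hk₂0 hn0] at r3
      have r4 : |(fre ρ k₂ y).real (IV D u w) - Λ / √n * f (y / √n)| ≤
          √(δ / 2) * (ε / 4) / √k₂ := by
        rw [le_div_iff₀ hsk₂]
        have e1 : |(fre ρ k₂ y).real (IV D u w) - Λ / √n * f (y / √n)| * √k₂ =
            |√k₂ * (fre ρ k₂ y).real (IV D u w) -
              Λ * (√k₂ / √n * gau (k₂ / n) ((u - y) / √n))| := by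
          rw [← abs_of_pos hsk₂, ← abs_mul, abs_of_pos hsk₂]
          congr 1
          rw [hf, sub_div]
          ring
        rw [e1]
        exact r3
      rw [Real.norm_eq_abs]
      have r5 : |(kap D ρ k₂ y).real (IV D u w) - (fre ρ k₂ y).real (IV D u w)| ≤
          C₁ * (L + 2) * √k₂ / u ^ 2 := by
        rw [abs_sub_comm, abs_of_nonneg (by linarith)]
        exact r2
      calc |(kap D ρ k₂ y).real (IV D u w) - Λ / √n * f (y / √n)|
          ≤ |(kap D ρ k₂ y).real (IV D u w) - (fre ρ k₂ y).real (IV D u w)| +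
            |(fre ρ k₂ y).real (IV D u w) - Λ / √n * f (y / √n)| := abs_sub_le _ _ _
        _ ≤ Bd := add_le_add r5 r4
    have hfm : Measurable f := by
      rw [hf]
      exact (continuous_gau _).measurable.comp (measurable_const.sub measurable_id)
    have hG1 : Integrable (fun y => (kap D ρ k₂ y).real (IV D u w)) (kap D ρ k₁ z) := by
      refine Integrable.of_bound ?_ 1 ?_
      · exact (((Measure.measurable_coe hJm).comp (measurable_kap hD k₂)).ennreal_toReal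
          ).aestronglyMeasurable
      · refine Filter.Eventually.of_forall fun y => ?_
        rw [Real.norm_eq_abs, abs_of_nonneg measureReal_nonneg, measureReal_def]
        refine ENNReal.toReal_le_of_le_ofReal zero_le_one ?_
        rw [ENNReal.ofReal_one]
        exact (measure_mono (Set.subset_univ _)).trans (kap_univ_le_one k₂ y)
    have hG2 : Integrable (fun y => Λ / √n * f (y / √n)) (kap D ρ k₁ z) := by
      refine Integrable.const_mul ?_ _
      refine Integrable.of_bound ?_ (1 / √(δ / 2) + 1 / (δ / 2)) ?_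
      · exact (hfm.comp (measurable_id.div_const _)).aestronglyMeasurable
      · exact Filter.Eventually.of_forall fun y => hfBL.bd _
    have hint : |(kap D ρ k z).real (IV D u w) -
        Λ / √n * ∫ y, f (y / √n) ∂(kap D ρ k₁ z)| ≤ Bd := by
      have e1 : (kap D ρ k z).real (IV D u w) -
          Λ / √n * ∫ y, f (y / √n) ∂(kap D ρ k₁ z) =
          ∫ y, ((kap D ρ k₂ y).real (IV D u w) - Λ / √n * f (y / √n)) ∂(kap D ρ k₁ z) := by
        rw [integral_sub hG1 hG2, integral_const_mul, hk₁, D1b_markov hD k₁ k₂ z _ hJm]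
      rw [e1, ← Real.norm_eq_abs]
      refine (norm_integral_le_of_norm_le_const hpt).trans ?_
      have hm : (kap D ρ k₁ z).real Set.univ ≤ 1 := by
        rw [measureReal_def]
        refine ENNReal.toReal_le_of_le_ofReal zero_le_one ?_
        rw [ENNReal.ofReal_one]
        exact kap_univ_le_one k₁ z
      have hBd0 : 0 ≤ Bd := by positivity
      calc Bd * (kap D ρ k₁ z).real Set.univ ≤ Bd * 1 := mul_le_mul_of_nonneg_left hm hBd0
        _ = Bd := mul_one _
    have hrefl := hn₃ n hnn₃ k₁ hk₁c hk₁n f hfBL z hz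
    have hAA := AA_gau ht₁0 ht₂0 (z / √n) hu'
    rw [htt] at hAA
    -- bounds
    have b1 : √n * Bd ≤ ε / 4 + ε / 4 := by
      have e1 : √n * Bd = C₁ * (L + 2) * (√n * √k₂ / u ^ 2) +
          √(δ / 2) * (ε / 4) * (√n / √k₂) := by
        rw [hBd]
        ring
      rw [e1]
      have e2 : √n * √k₂ / u ^ 2 ≤ √δ / ε₁ ^ 2 := by
        rw [div_le_div_iff₀ (by positivity) (by positivity)]
        have e3 : √(k₂ : ℝ) ≤ √δ * √n := by
          rw [← Real.sqrt_mul hδ0.le]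
          exact Real.sqrt_le_sqrt hk₂le
        have e4 : (ε₁ * √n) ^ 2 ≤ u ^ 2 := by
          apply pow_le_pow_left₀ (by positivity) huε.le
        calc √n * √k₂ * ε₁ ^ 2 ≤ √n * (√δ * √n) * ε₁ ^ 2 := by gcongr
          _ = √δ * (ε₁ * √n) ^ 2 := by ring
          _ ≤ √δ * u ^ 2 := mul_le_mul_of_nonneg_left e4 (Real.sqrt_nonneg _)
      have e5 : √(n : ℝ) / √k₂ ≤ 1 / √(δ / 2) := by
        rw [div_le_div_iff₀ hsk₂ hδ2, one_mul, ← Real.sqrt_mul hn0.le]
        apply Real.sqrt_le_sqrt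
        rw [le_div_iff₀ hn0] at ht₂δ'
        linarith
      have e6 : C₁ * (L + 2) * (√n * √k₂ / u ^ 2) ≤ ε / 4 := by
        refine (mul_le_mul_of_nonneg_left e2 (by positivity)).trans ?_
        rw [← mul_div_assoc]
        exact hδA
      have e7 : √(δ / 2) * (ε / 4) * (√n / √k₂) ≤ ε / 4 := by
        calc √(δ / 2) * (ε / 4) * (√n / √k₂) ≤ √(δ / 2) * (ε / 4) * (1 / √(δ / 2)) :=
              mul_le_mul_of_nonneg_left e5 (by positivity)
          _ = ε / 4 := by field_simp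
      linarith
    have b2 : 1 / √((k₁ : ℝ) / n) * Real.exp (-(u / √n) ^ 2 / (2 * (k₂ / n))) ≤
        1 / √(c / 2) * Real.exp (-ε₁ ^ 2 / (2 * δ)) := by
      apply mul_le_mul
      · exact one_div_le_one_div_of_le (Real.sqrt_pos.mpr (by positivity))
          (Real.sqrt_le_sqrt ht₁c)
      · apply Real.exp_le_exp.mpr
        rw [neg_div, neg_div, neg_le_neg_iff]
        apply div_le_div₀ (by positivity)
        · exact pow_le_pow_left₀ hε₁0.le hcase.le 2
        · positivity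
        · linarith
      · positivity
      · positivity
    have b3 : |(∫ y, f (y / √n) ∂(kap D ρ k₁ z)) - qq (k / n) (z / √n) (u / √n)| ≤
        ε / (4 * (L + h)) + 1 / √(c / 2) * Real.exp (-ε₁ ^ 2 / (2 * δ)) := by
      refine (abs_sub_le _ (AA (k₁ / n) f (z / √n)) _).trans ?_
      exact add_le_add hrefl (hAA.trans b2)
    have e1 : √n * (kap D ρ k z).real (IV D u w) - Λ * qq (k / n) (z / √n) (u / √n) =
        √n * ((kap D ρ k z).real (IV D u w) -
          Λ / √n * ∫ y, f (y / √n) ∂(kap D ρ k₁ z)) +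
        Λ * ((∫ y, f (y / √n) ∂(kap D ρ k₁ z)) - qq (k / n) (z / √n) (u / √n)) := by
      field_simp
      ring
    rw [e1]
    refine (abs_add_le _ _).trans ?_
    rw [abs_mul, abs_mul, abs_of_pos hsn, abs_of_nonneg hΛ2]
    have c1 : √n * |(kap D ρ k z).real (IV D u w) -
        Λ / √n * ∫ y, f (y / √n) ∂(kap D ρ k₁ z)| ≤ ε / 4 + ε / 4 :=
      (mul_le_mul_of_nonneg_left hint hsn.le).trans b1
    have c2 : Λ * |(∫ y, f (y / √n) ∂(kap D ρ k₁ z)) - qq (k / n) (z / √n) (u / √n)| ≤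
        ε / 4 + ε / 4 := by
      calc Λ * |(∫ y, f (y / √n) ∂(kap D ρ k₁ z)) - qq (k / n) (z / √n) (u / √n)|
          ≤ (L + h) * (ε / (4 * (L + h)) + 1 / √(c / 2) * Real.exp (-ε₁ ^ 2 / (2 * δ))) :=
            mul_le_mul hΛ1 b3 (abs_nonneg _) hΛ0.le
        _ = ε / 4 + (L + h) * (1 / √(c / 2)) * Real.exp (-ε₁ ^ 2 / (2 * δ)) := by
            field_simp
        _ ≤ ε / 4 + ε / 4 := by linarith
    linarith

end Pool.Agent.BPT
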