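import Pool.Agent.MP_99a865_pr.FV.A2b

open MeasureTheory ProbabilityTheory Filter Topology
open scoped ENNReal NNReal

namespace Pool.Agent.BPT

variable {D : Set ℝ} {ρ : Measure ℝ}

theorem D2a_bdd (l : ℕ) (ω : ℕ → ℝ) : BddAbove (Set.range fun j : Fin l => -S j ω) :=
  (Set.finite_range _).bddAbove

theorem mx_nonneg {l : ℕ} (hl : 1 ≤ l) (ω : ℕ → ℝ) : 0 ≤ mx l ω := by
  have h := le_ciSup (D2a_bdd l ω) (⟨0, by omega⟩ : Fin l)
  have h0 : S 0 ω = 0 := by simp [S]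
  simp only [h0, neg_zero] at h
  exact h

theorem measurable_mx (l : ℕ) : Measurable (mx l) := by
  unfold mx
  exact Measurable.iSup fun j => (measurable_S (j : ℕ)).neg

/-- staying in `D` up to time `l - 1` in terms of the running maximum -/
theorem D2a_mx_mem (hD : Dom D) {l : ℕ} (hl : 1 ≤ l) (ω : ℕ → ℝ) (y : ℝ) :
    y - mx l ω ∈ D ↔ ∀ j < l, y + S j ω ∈ D := by
  have : Nonempty (Fin l) := ⟨⟨0, by omega⟩⟩
  constructor
  · intro h j hj
    have h1 : -S j ω ≤ mx l ω := le_ciSup (D2a_bdd l ω) (⟨j, hj⟩ : Fin l)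
    exact hD.up h (by linarith)
  · intro h
    obtain ⟨i, hi⟩ := exists_eq_ciSup_of_finite (f := fun j : Fin l => -S j ω)
    have h1 : mx l ω = -S i ω := hi.symm
    rw [h1, sub_neg_eq_add]
    exact h i i.2

/-- for `l ≥ 1`: `y ∈ JJ D l ω ↔ y ∈ D`, alive up to `l - 1`, outside at `l` -/
theorem mem_JJ (hD : Dom D) {l : ℕ} (hl : 1 ≤ l) (ω : ℕ → ℝ) (y : ℝ) :
    y ∈ JJ D l ω ↔ y ∈ D ∧ Alive D y (l - 1) ω ∧ y + S l ω ∉ D := by
  have h0 : S 0 ω = 0 := by simp [S]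
  have h1 : y ∈ JJ D l ω ↔ y - mx l ω ∈ D ∧ y - -S l ω ∉ D := Iff.rfl
  rw [h1, D2a_mx_mem hD hl, sub_neg_eq_add, ← and_assoc]
  refine and_congr_left fun _ => ?_
  constructor
  · intro h
    refine ⟨?_, fun j _ hj2 => h j (by omega)⟩
    have := h 0 (by omega)
    rwa [h0, add_zero] at this
  · rintro ⟨ha, hb⟩ j hj
    rcases Nat.eq_zero_or_pos j with hj0 | hj0
    · rw [hj0, h0, add_zero]; exact ha
    · exact hb j hj0 (by omega)

theorem D2a_measurableSet (hD : Dom D) (l : ℕ) :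
    MeasurableSet {p : (ℕ → ℝ) × ℝ | p.2 ∈ JJ D l p.1} := by
  have h1 : Measurable fun p : (ℕ → ℝ) × ℝ => p.2 - mx l p.1 :=
    measurable_snd.sub ((measurable_mx l).comp measurable_fst)
  have h2 : Measurable fun p : (ℕ → ℝ) × ℝ => p.2 - -S l p.1 :=
    measurable_snd.sub ((measurable_S l).comp measurable_fst).neg
  exact (h1 hD.meas).inter (h2 hD.meas).compl

theorem D2a_measurableSet' (hD : Dom D) (l : ℕ) (ω : ℕ → ℝ) : MeasurableSet (JJ D l ω) :=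
  measurableSet_IV hD _ _

/-- `hit` as the probability of the interval, for `y ∈ D` -/
theorem D2a_hit (hD : Dom D) [IsProbabilityMeasure ρ] {l : ℕ} (hl : 1 ≤ l) {y : ℝ} (hy : y ∈ D) :
    ENNReal.ofReal (hit D ρ l y) = seqLaw ρ {ω | y ∈ JJ D l ω} := by
  unfold hit
  rw [measureReal_def, ENNReal.ofReal_toReal (measure_ne_top _ _)]
  congr 1
  ext ω
  change (1 ≤ l ∧ Alive D y (l - 1) ω ∧ y + S l ω ∉ D) ↔ y ∈ JJ D l ω
  rw [mem_JJ hD hl]
  constructor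
  · rintro ⟨_, h2, h3⟩
    exact ⟨hy, h2, h3⟩
  · rintro ⟨_, h2, h3⟩
    exact ⟨hl, h2, h3⟩

theorem D2a_JJ_subset (hD : Dom D) {l : ℕ} (hl : 1 ≤ l) (ω : ℕ → ℝ) : JJ D l ω ⊆ D :=
  fun y hy => ((mem_JJ hD hl ω y).1 hy).1

/-- exchange of the integrals for any s-finite measure -/
theorem D2a_swap (hD : Dom D) [IsProbabilityMeasure ρ] {l : ℕ} (hl : 1 ≤ l) (Λ : Measure ℝ) [SFinite Λ]
    (g : ℝ → ℝ≥0∞) (hg : Measurable g) :
    ∫⁻ ω, ∫⁻ y in JJ D l ω, g y ∂Λ ∂(seqLaw ρ) =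
      ∫⁻ y in D, g y * ENNReal.ofReal (hit D ρ l y) ∂Λ := by
  have h1 : ∀ ω : ℕ → ℝ, ∫⁻ y in JJ D l ω, g y ∂Λ =
      ∫⁻ y, {p : (ℕ → ℝ) × ℝ | p.2 ∈ JJ D l p.1}.indicator (fun p => g p.2) (ω, y) ∂Λ := by
    intro ω
    rw [← lintegral_indicator (D2a_measurableSet' hD l ω)]
    rfl
  simp_rw [h1]
  rw [lintegral_lintegral_swap]
  · rw [← lintegral_indicator hD.meas]
    refine lintegral_congr fun y => ?_
    by_cases hy : y ∈ D
    · rw [Set.indicator_of_mem hy, D2a_hit hD hl hy]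
      have h2 : ∀ ω : ℕ → ℝ,
          {p : (ℕ → ℝ) × ℝ | p.2 ∈ JJ D l p.1}.indicator (fun p => g p.2) (ω, y) =
            {ω | y ∈ JJ D l ω}.indicator (fun _ => g y) ω := fun ω => rfl
      simp_rw [h2]
      rw [lintegral_indicator, setLIntegral_const]
      exact (measurable_prodMk_right (y := y)) (D2a_measurableSet hD l)
    · rw [Set.indicator_of_notMem hy]
      have h2 : ∀ ω : ℕ → ℝ,
          {p : (ℕ → ℝ) × ℝ | p.2 ∈ JJ D l p.1}.indicator (fun p => g p.2) (ω, y) = 0 := by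
        intro ω
        refine Set.indicator_of_notMem ?_ _
        intro h
        exact hy (D2a_JJ_subset hD hl ω h)
      simp_rw [h2]
      exact lintegral_zero
  · exact ((hg.comp measurable_snd).indicator (D2a_measurableSet hD l)).aemeasurable

/-- **[FV-D2a]** PROOF. `hit (k+l) z = ∫ hit l y ∂(kap k z)(y)` (`hit_add`), for `y ∈ D`
`hit l y = (seqLaw ρ).real {ω | y ∈ JJ D l ω}` (`mem_JJ`); exchange the integrals. (`k ≥ 1`, so `kap k z`
lives on `D`.) -/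
theorem hit_eq_JJ (hD : Dom D) [IsProbabilityMeasure ρ] {k l : ℕ} (hk : 1 ≤ k) (hl : 1 ≤ l) (z : ℝ) :
    hit D ρ (k + l) z = ∫ ω, (kap D ρ k z).real (JJ D l ω) ∂(seqLaw ρ) := by
  have h1 : ENNReal.ofReal (hit D ρ (k + l) z) = ∫⁻ ω, kap D ρ k z (JJ D l ω) ∂(seqLaw ρ) := by
    rw [hit_add hD k l hl z]
    have h2 := D2a_swap (ρ := ρ) hD hl (kap D ρ k z) (fun _ => 1) measurable_const
    simp only [one_mul, setLIntegral_one] at h2
    rw [h2]
    have h3 : (kap D ρ k z).restrict D = kap D ρ k z := by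
      refine Measure.restrict_eq_self_of_ae_mem ?_
      rw [ae_iff]
      exact kap_compl hD k z (Or.inl hk)
    rw [h3]
  have hmeas : Measurable fun ω : ℕ → ℝ => kap D ρ k z (JJ D l ω) :=
    measurable_measure_prodMk_left (D2a_measurableSet hD l)
  calc hit D ρ (k + l) z = (ENNReal.ofReal (hit D ρ (k + l) z)).toReal := by
        rw [ENNReal.toReal_ofReal (hit_nonneg _ _)]
    _ = (∫⁻ ω, kap D ρ k z (JJ D l ω) ∂(seqLaw ρ)).toReal := by rw [h1]
    _ = ∫ ω, (kap D ρ k z (JJ D l ω)).toReal ∂(seqLaw ρ) :=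
        (integral_toReal hmeas.aemeasurable (Eventually.of_forall fun ω => measure_lt_top _ _)).symm
    _ = ∫ ω, (kap D ρ k z).real (JJ D l ω) ∂(seqLaw ρ) := rfl

instance D2a_sfinite (h c : ℝ) : SFinite (lam h c) := by
  unfold lam
  split_ifs
  · infer_instance
  · infer_instance

/-- Same Fubini for a measure `Λ = lam h c`. -/
theorem lintegral_JJ (hD : Dom D) [IsProbabilityMeasure ρ] {l : ℕ} (hl : 1 ≤ l) (h c : ℝ)
    (g : ℝ → ℝ≥0∞) (hg : Measurable g) :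
    ∫⁻ ω, ∫⁻ y in JJ D l ω, g y ∂(lam h c) ∂(seqLaw ρ) =
      ∫⁻ y in D, g y * ENNReal.ofReal (hit D ρ l y) ∂(lam h c) :=
  D2a_swap hD hl (lam h c) g hg

end Pool.Agent.BPT
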