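import Pool.Agent.MP_99a865_pr.FV.A11
import Pool.Agent.MP_99a865_pr.FV.A2b

open MeasureTheory ProbabilityTheory Filter Topology
open scoped ENNReal NNReal

namespace Pool.Agent.BPT

variable {D : Set ℝ} {ρ : Measure ℝ}

/-- **[FV-D2b]** duality for `hit`. PROOF: `hit_succ` and `duality` with `F x y = g x * ex D ρ y`,
then `∫⁻ y in D, ex y * ∫⁻ x, g x ∂(kap D (dual ρ) k y) ∂(lam h (c + k a))`. -/
theorem hit_duality (hD : Dom D) [IsProbabilityMeasure ρ] {a h : ℝ} (hh : 0 ≤ h)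
    (hstep : ∀ᵐ x ∂ρ, Cos h a x) (c : ℝ) (k : ℕ) (g : ℝ → ℝ≥0∞) (hg : Measurable g) :
    ∫⁻ y in D, g y * ENNReal.ofReal (hit D ρ (k + 1) y) ∂(lam h c) =
      ∫⁻ w in D, ex D ρ w * ∫⁻ x, g x ∂(kap D (dual ρ) k w) ∂(lam h (c + k * a)) := by
  have hex := measurable_ex (ρ := ρ) hD
  have h1 := duality (ρ := ρ) hD a h c hh hstep k (fun x y => g x * ex D ρ y)
    ((hg.comp measurable_fst).mul (hex.comp measurable_snd))
  have h2 : ∀ y, g y * ENNReal.ofReal (hit D ρ (k + 1) y) =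
      ∫⁻ w, g y * ex D ρ w ∂(kap D ρ k y) := by
    intro y
    rw [hit_succ hD, lintegral_const_mul _ hex]
  have h3 : ∀ w, ex D ρ w * ∫⁻ x, g x ∂(kap D (dual ρ) k w) =
      ∫⁻ x, g x * ex D ρ w ∂(kap D (dual ρ) k w) := by
    intro w
    rw [lintegral_mul_const _ hg, mul_comm]
  simp_rw [h2, h3]
  exact h1

/-- covering by unit windows -/
theorem D2b_cover (hD : Dom D) {h : ℝ} (hh : 0 ≤ h) (c : ℝ) (f : ℝ → ℝ≥0∞) (b : ℕ → ℝ≥0∞)
    (hf : ∀ j : ℕ, ∀ w : ℝ, (j : ℝ) ≤ w → w < (j : ℝ) + 1 → f w ≤ b j) :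
    ∫⁻ w in D, f w ∂(lam h c) ≤ ENNReal.ofReal (1 + h) * ∑' j, b j := by
  have h1 : D ⊆ ⋃ j : ℕ, Set.Ico (j : ℝ) ((j : ℝ) + 1) := by
    intro w hw
    have hw0 := hD.nonneg hw
    rw [Set.mem_iUnion]
    exact ⟨⌊w⌋₊, Nat.floor_le hw0, Nat.lt_floor_add_one w⟩
  refine (lintegral_mono_set h1).trans ((lintegral_iUnion_le _ _).trans ?_)
  rw [← ENNReal.tsum_mul_left]
  refine ENNReal.tsum_le_tsum fun j => ?_
  calc ∫⁻ w in Set.Ico (j : ℝ) ((j : ℝ) + 1), f w ∂(lam h c)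
      ≤ ∫⁻ _ in Set.Ico (j : ℝ) ((j : ℝ) + 1), b j ∂(lam h c) :=
        setLIntegral_mono' measurableSet_Ico fun w hw => hf j w hw.1 hw.2
    _ = b j * lam h c (Set.Ico (j : ℝ) ((j : ℝ) + 1)) := setLIntegral_const _ _
    _ ≤ b j * lam h c (Set.Icc (j : ℝ) ((j : ℝ) + 1)) := by
        gcongr
        exact Set.Ico_subset_Icc_self
    _ ≤ b j * ENNReal.ofReal (((j : ℝ) + 1) - (j : ℝ) + h) := by
        gcongr
        exact lam_Icc_le h c _ _ hh (by linarith)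
    _ = ENNReal.ofReal (1 + h) * b j := by
        rw [mul_comm]
        congr 2
        ring

/-- `∫_{w ≥ 0} (1+w) ex(w) d(lam h c) ≤ C`, uniformly in `c`. PROOF: cover by unit windows,
`lam h c (Icc j (j+1)) ≤ 1 + h`, `ex` is nonincreasing, `ex_sum`. -/
theorem ex_moment (hD : Dom D) (hρ : Std ρ) {h : ℝ} (hh : 0 ≤ h) (c : ℝ) :
    ∫⁻ w in D, ENNReal.ofReal (1 + w) * ex D ρ w ∂(lam h c) ≤ ENNReal.ofReal (16 * (1 + h)) := by
  have hp := hρ.prob
  refine (D2b_cover hD hh c _ (fun j => 2 * (ENNReal.ofReal (1 + j) * ex D ρ j)) ?_).trans ?_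
  · intro j w h1 h2
    rw [← mul_assoc]
    refine mul_le_mul' ?_ (ex_anti hD h1)
    have h3 : (2 : ℝ≥0∞) = ENNReal.ofReal 2 := by norm_num
    rw [h3, ← ENNReal.ofReal_mul (by norm_num)]
    apply ENNReal.ofReal_le_ofReal
    have : (0 : ℝ) ≤ j := by positivity
    linarith
  · rw [ENNReal.tsum_mul_left]
    calc ENNReal.ofReal (1 + h) * (2 * ∑' j : ℕ, ENNReal.ofReal (1 + j) * ex D ρ j)
        ≤ ENNReal.ofReal (1 + h) * (2 * 4) := by
          gcongr
          exact ex_sum hD hρ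
      _ = ENNReal.ofReal (1 + h) * ENNReal.ofReal 8 := by
          congr 1
          norm_num
      _ = ENNReal.ofReal ((1 + h) * 8) := by rw [← ENNReal.ofReal_mul (by linarith)]
      _ ≤ ENNReal.ofReal (16 * (1 + h)) := by
          apply ENNReal.ofReal_le_ofReal
          nlinarith

/-- **[FV-D2b]** Upper bound for `BB`: `hit_duality` with `g = ofReal`, `ee_bound` for the dual walk,
`ex_moment`. -/
theorem BB_le (hD : Dom D) (hρ : Std ρ) {a h : ℝ} (hh : 0 ≤ h) (hstep : ∀ᵐ x ∂ρ, Cos h a x) :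
    ∃ C : ℝ≥0, ∀ (c : ℝ) (l : ℕ), 1 ≤ l → BB D ρ h c l ≤ C := by
  have hp := hρ.prob
  have hd := hρ.dual
  obtain ⟨C, hC⟩ := ee_bound hD hd
  refine ⟨C * Real.toNNReal (16 * (1 + h)), fun c l hl => ?_⟩
  obtain ⟨k, rfl⟩ : ∃ k, l = k + 1 := ⟨l - 1, by omega⟩
  unfold BB
  rw [hit_duality hD hh hstep c k _ ENNReal.measurable_ofReal]
  have h1 : ∀ w ∈ D, ex D ρ w * ∫⁻ x, ENNReal.ofReal x ∂(kap D (dual ρ) k w) ≤
      C * (ENNReal.ofReal (1 + w) * ex D ρ w) := by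
    intro w hw
    have h2 := hC k w (hD.nonneg hw)
    unfold ee at h2
    calc ex D ρ w * ∫⁻ x, ENNReal.ofReal x ∂(kap D (dual ρ) k w)
        ≤ ex D ρ w * (C * ENNReal.ofReal (1 + w)) := by gcongr
      _ = C * (ENNReal.ofReal (1 + w) * ex D ρ w) := by ring
  refine (setLIntegral_mono' hD.meas h1).trans ?_
  rw [lintegral_const_mul' _ _ ENNReal.coe_ne_top, ENNReal.coe_mul]
  gcongr
  exact ex_moment hD hρ hh _

theorem D2b_first (hD : Dom D) (hρ : Std ρ) {h : ℝ} (hh : 0 ≤ h) : ∀ ε > (0 : ℝ), ∃ s₀ ≥ (1 : ℝ),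
    ∀ s ≥ s₀, ∀ c : ℝ,
      ∫⁻ w in D, ENNReal.ofReal (min (w ^ 2 / s) w) * ex D ρ w ∂(lam h c) ≤ ENNReal.ofReal ε := by
  have hp := hρ.prob
  intro ε hε
  have hsum := ex_sum hD hρ
  have hne : ∑' j : ℕ, ENNReal.ofReal (1 + j) * ex D ρ j ≠ ∞ :=
    ne_top_of_le_ne_top (by norm_num) hsum
  have h1h : (0 : ℝ) < 1 + h := by linarith
  have htail := ENNReal.tendsto_sum_nat_add (fun j : ℕ => ENNReal.ofReal (1 + j) * ex D ρ j) hne
  obtain ⟨J, hJ⟩ := (htail.eventually (gt_mem_nhds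
    (ENNReal.ofReal_pos.2 (div_pos hε (mul_pos two_pos h1h))))).exists
  refine ⟨max 1 (8 * (1 + h) * J / ε), le_max_left _ _, fun s hs c => ?_⟩
  have hs1 : 1 ≤ s := (le_max_left _ _).trans hs
  have hs0 : 0 < s := by linarith
  have hs2 : 8 * (1 + h) * J / ε ≤ s := (le_max_right _ _).trans hs
  refine (D2b_cover hD hh c _
    (fun j : ℕ => ENNReal.ofReal (min (((j : ℝ) + 1) ^ 2 / s) ((j : ℝ) + 1)) * ex D ρ j) ?_).trans ?_
  · intro j w h1 h2
    have hj : (0 : ℝ) ≤ j := by positivity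
    have hw0 : 0 ≤ w := hj.trans h1
    refine mul_le_mul' (ENNReal.ofReal_le_ofReal (min_le_min ?_ h2.le)) (ex_anti hD h1)
    gcongr
  · have e1 := (ENNReal.summable (f := fun j : ℕ =>
      ENNReal.ofReal (min ((((j + J : ℕ) : ℝ) + 1) ^ 2 / s) (((j + J : ℕ) : ℝ) + 1)) *
        ex D ρ ((j + J : ℕ) : ℝ))).sum_add_tsum_nat_add' (f := fun j : ℕ =>
      ENNReal.ofReal (min (((j : ℝ) + 1) ^ 2 / s) ((j : ℝ) + 1)) * ex D ρ j)
    rw [← e1]
    have b1 : ∑ j ∈ Finset.range J,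
        ENNReal.ofReal (min (((j : ℝ) + 1) ^ 2 / s) ((j : ℝ) + 1)) * ex D ρ j ≤
        ENNReal.ofReal (J / s) * 4 := by
      calc _ ≤ ∑ j ∈ Finset.range J, ENNReal.ofReal (J / s) * (ENNReal.ofReal (1 + j) * ex D ρ j) := by
            refine Finset.sum_le_sum fun j hj => ?_
            rw [← mul_assoc]
            refine mul_le_mul' ?_ le_rfl
            rw [← ENNReal.ofReal_mul (by positivity)]
            apply ENNReal.ofReal_le_ofReal
            refine (min_le_left _ _).trans ?_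
            have hjJ : (j : ℝ) + 1 ≤ J := by exact_mod_cast Finset.mem_range.1 hj
            have hj0 : (0 : ℝ) ≤ j := by positivity
            rw [div_mul_eq_mul_div, div_le_div_iff_of_pos_right hs0]
            nlinarith
        _ = ENNReal.ofReal (J / s) * ∑ j ∈ Finset.range J, (ENNReal.ofReal (1 + j) * ex D ρ j) := by
            rw [Finset.mul_sum]
        _ ≤ ENNReal.ofReal (J / s) * ∑' j : ℕ, (ENNReal.ofReal (1 + j) * ex D ρ j) := by
            gcongr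
            exact ENNReal.sum_le_tsum _
        _ ≤ _ := by gcongr
    have b2 : ∑' j : ℕ, ENNReal.ofReal (min ((((j + J : ℕ) : ℝ) + 1) ^ 2 / s) (((j + J : ℕ) : ℝ) + 1)) *
        ex D ρ ((j + J : ℕ) : ℝ) ≤ ENNReal.ofReal (ε / (2 * (1 + h))) := by
      refine le_trans ?_ hJ.le
      refine ENNReal.tsum_le_tsum fun j => ?_
      refine mul_le_mul' (ENNReal.ofReal_le_ofReal ((min_le_right _ _).trans ?_)) le_rfl
      rw [add_comm]
    refine (mul_le_mul_right (add_le_add b1 b2) _).trans ?_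
    have h4 : (4 : ℝ≥0∞) = ENNReal.ofReal 4 := by norm_num
    rw [h4, ← ENNReal.ofReal_mul (by positivity), ← ENNReal.ofReal_add (by positivity) (by positivity),
      ← ENNReal.ofReal_mul h1h.le]
    apply ENNReal.ofReal_le_ofReal
    have h5 : (J : ℝ) / s * 4 ≤ ε / (2 * (1 + h)) := by
      rw [div_le_iff₀ hε] at hs2
      rw [div_mul_eq_mul_div, div_le_div_iff₀ hs0 (by positivity)]
      nlinarith
    calc (1 + h) * ((J : ℝ) / s * 4 + ε / (2 * (1 + h)))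
        ≤ (1 + h) * (ε / (2 * (1 + h)) + ε / (2 * (1 + h))) := by gcongr
      _ = ε := by field_simp; ring

/-- **[FV-D2b]** The truncated second moment. PROOF. `hit_duality` with
`g y = ofReal (min (y²/s) y)`, third bound of `mom2` for the dual walk:
`≤ ∫ ex w · C (min(w²/s, w) + (1+w)√l/s) ∂(lam h _)`; the second part is `≤ C'√l/s` by `ex_moment`; the
first part tends to zero as `s → ∞` uniformly in the base point: cover by unit windows,
`≤ (1+h) ∑_j min((j+1)²/s, j+1) ex(j) → 0` (dominated convergence, `ex_sum`). -/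
theorem BB_second (hD : Dom D) (hρ : Std ρ) {a h : ℝ} (hh : 0 ≤ h) (hstep : ∀ᵐ x ∂ρ, Cos h a x) :
    ∃ C > (0 : ℝ), ∀ ε > (0 : ℝ), ∃ s₀ ≥ (1 : ℝ), ∀ s ≥ s₀, ∀ (c : ℝ) (l : ℕ), 1 ≤ l →
      ∫⁻ y in D, ENNReal.ofReal (min (y ^ 2 / s) y) * ENNReal.ofReal (hit D ρ l y) ∂(lam h c) ≤
        ENNReal.ofReal (ε + C * √l / s) := by
  have hp := hρ.prob
  have hd := hρ.dual
  obtain ⟨C, hC, hm⟩ := mom2 hD hd
  refine ⟨C * (16 * (1 + h)), by positivity, fun ε hε => ?_⟩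
  obtain ⟨s₀, hs₀, hfirst⟩ := D2b_first hD hρ hh (ε / C) (div_pos hε hC)
  refine ⟨s₀, hs₀, fun s hs c l hl => ?_⟩
  have hs1 : 1 ≤ s := le_trans hs₀ hs
  have hs0 : 0 < s := by linarith
  obtain ⟨k, rfl⟩ : ∃ k, l = k + 1 := ⟨l - 1, by omega⟩
  rw [hit_duality hD hh hstep c k (fun y => ENNReal.ofReal (min (y ^ 2 / s) y))
    (ENNReal.measurable_ofReal.comp (((measurable_id.pow_const 2).div_const s).min measurable_id))]
  have hex := measurable_ex (ρ := ρ) hD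
  have h1 : ∀ w ∈ D, ex D ρ w * ∫⁻ y, ENNReal.ofReal (min (y ^ 2 / s) y) ∂(kap D (dual ρ) k w) ≤
      ENNReal.ofReal C * (ENNReal.ofReal (min (w ^ 2 / s) w) * ex D ρ w) +
        ENNReal.ofReal (C * (√k / s)) * (ENNReal.ofReal (1 + w) * ex D ρ w) := by
    intro w hw
    have hw0 := hD.nonneg hw
    have h2 := (hm k w hw0).2.2 s hs1
    have hmin : 0 ≤ min (w ^ 2 / s) w := le_min (by positivity) hw0
    calc ex D ρ w * ∫⁻ y, ENNReal.ofReal (min (y ^ 2 / s) y) ∂(kap D (dual ρ) k w)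
        ≤ ex D ρ w * ENNReal.ofReal (C * (min (w ^ 2 / s) w + (1 + w) * √k / s)) := by gcongr
      _ = ex D ρ w * (ENNReal.ofReal C * ENNReal.ofReal (min (w ^ 2 / s) w) +
            ENNReal.ofReal (C * (√k / s)) * ENNReal.ofReal (1 + w)) := by
          rw [← ENNReal.ofReal_mul hC.le, ← ENNReal.ofReal_mul (by positivity),
            ← ENNReal.ofReal_add (by positivity) (by positivity)]
          congr 2
          ring
      _ = _ := by ring
  refine (setLIntegral_mono' hD.meas h1).trans ?_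
  rw [lintegral_add_left, lintegral_const_mul' _ _ ENNReal.ofReal_ne_top,
    lintegral_const_mul' _ _ ENNReal.ofReal_ne_top]
  · refine (add_le_add (mul_le_mul_right (hfirst s hs _) _)
      (mul_le_mul_right (ex_moment hD hρ hh _) _)).trans ?_
    rw [← ENNReal.ofReal_mul hC.le, ← ENNReal.ofReal_mul (by positivity),
      ← ENNReal.ofReal_add (by positivity) (by positivity)]
    apply ENNReal.ofReal_le_ofReal
    have h3 : √(k : ℝ) ≤ √((k + 1 : ℕ) : ℝ) := Real.sqrt_le_sqrt (by push_cast; linarith)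
    have h4 : C * (ε / C) = ε := by field_simp
    rw [h4]
    have h5 : C * (√(k : ℝ) / s) * (16 * (1 + h)) ≤ C * (16 * (1 + h)) * √((k + 1 : ℕ) : ℝ) / s := by
      rw [mul_div_assoc', div_mul_eq_mul_div, div_le_div_iff_of_pos_right hs0]
      calc C * √(k : ℝ) * (16 * (1 + h)) = C * (16 * (1 + h)) * √(k : ℝ) := by ring
        _ ≤ _ := by gcongr
    linarith
  · refine ((Measurable.mul ?_ hex).const_mul _)
    exact ENNReal.measurable_ofReal.comp (((measurable_id.pow_const 2).div_const s).min measurable_id)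

end Pool.Agent.BPT
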