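import Pool.Agent.MP_99a865_pr.FV.D2l
import Pool.Agent.MP_99a865_pr.FV.D2b
import Pool.Agent.MP_99a865_pr.FV.D1b

open MeasureTheory ProbabilityTheory Filter Topology
open scoped ENNReal NNReal

namespace Pool.Agent.BPT

variable {D : Set ℝ} {ρ : Measure ℝ}

/-- joint measurability of `{(ω, y) | y ∈ JJ D l ω}` -/
lemma D2c_meas (hD : Dom D) (l : ℕ) :
    MeasurableSet {p : (ℕ → ℝ) × ℝ | p.2 ∈ JJ D l p.1} := by
  have h1 : Measurable fun p : (ℕ → ℝ) × ℝ => p.2 - mx l p.1 :=
    measurable_snd.sub ((measurable_mx l).comp measurable_fst)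
  have h2 : Measurable fun p : (ℕ → ℝ) × ℝ => p.2 - -S l p.1 :=
    measurable_snd.sub ((measurable_S l).comp measurable_fst).neg
  exact (h1 hD.meas).inter (h2 hD.meas).compl

lemma D2c_empty (hD : Dom D) (l : ℕ) (ω : ℕ → ℝ) (h : -S l ω - mx l ω ≤ 0) : JJ D l ω = ∅ := by
  ext y
  simp only [Set.mem_empty_iff_false, iff_false]
  rintro ⟨h1, h2⟩
  exact h2 (hD.up h1 (by linarith))

/-- **[FV-D2c]** First half of the local asymptotics of the exit time: for `m = k + l`, `l = ⌊rn⌋`,
`n · hit m z` is close to `√n ∫_D qq (k/n) (z/√n) (y/√n) hit_l(y) d(lam h (z + k a))`.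
PROOF. Let `Λ = lam h (z + ka)`, `t = k/n`, `z' = z/√n`. By `hit_eq_JJ`
`n hit (k+l) z = √n ∫ √n (kap k z).real (JJ D l ω) ∂ω`, and by `lintegral_JJ` (with
`g y = ofReal (qq t z' (y/√n))`, nonnegative for `y ≥ 0`) the second quantity is
`√n ∫ (∫_{JJ D l ω} qq t z' (y/√n) ∂Λ) ∂ω`. Both inner quantities vanish if `len = -S_l - mx l ≤ 0`
(then `JJ = ∅`). Given `L`:
* on `{len > L}`: `√n (kap k z).real JJ ≤ √n C (len + 2)/√k ≤ (2C/√c)(len + 1)` (`win_long`), and
  `∫_{JJ} qq ∂Λ ≤ (1/√c)(len + h)` (`abs_qq_le`, `lam_IV_le`); by `long_JJ` the contribution of both is at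
  most `√n · C_{c,h} ε_L/√l ≤ C_{c,h} ε_L · 2/√r`, with `ε_L` as small as we like;
* on `{0 < len ≤ L}`: `killed_llt` (accuracy `ε'`, `u = mx l ω`, `w = -S_l ω`) and
  `|Λ(JJ) qq t z' (u/√n) - ∫_{JJ} qq t z' (y/√n) ∂Λ| ≤ (L + h) · 2 L/(c√n)` (`qq_lip`), times
  `√n P(len > 0) ≤ √n C/√l ≤ 2C/√r` (`prob_JJ`).
Given `r`, choose `L`, then `ε'`, then `n₀`. -/
theorem hit_asymp_aux (hD : Dom D) (hρ : Std ρ) {a h : ℝ} (hL : Lat ρ a h) {c r : ℝ} (hc : 0 < c)
    (hc1 : c ≤ 1) (hr : 0 < r) : ∀ ε > (0 : ℝ), ∃ n₀ : ℕ, ∀ n ≥ n₀, ∀ k l : ℕ, c * n ≤ k → k ≤ n →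
    l = ⌊r * n⌋₊ → ∀ z : ℝ, 0 ≤ z →
      |n * hit D ρ (k + l) z - √n * (∫⁻ y in D, ENNReal.ofReal (qq (k / n) (z / √n) (y / √n)) *
        ENNReal.ofReal (hit D ρ l y) ∂(lam h (z + k * a))).toReal| ≤ ε := by
  intro ε hε
  have hprobρ : IsProbabilityMeasure ρ := hρ.prob
  have hh : 0 ≤ h := hL.nonneg
  obtain ⟨C₁, hC₁, hwin⟩ := win_long hD hρ
  obtain ⟨C₂, hC₂, hprob⟩ := prob_JJ hρ
  have hsc : 0 < √c := Real.sqrt_pos.2 hc
  set M : ℝ := (2 * C₁ + 1 + h) / √c with hM
  have hMpos : 0 < M := by positivity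
  set κ : ℝ := √(2 / r) with hκ
  have hκpos : 0 < κ := Real.sqrt_pos.2 (by positivity)
  set ε₁ : ℝ := ε / (2 * M * κ) with hε₁
  have hε₁pos : 0 < ε₁ := by positivity
  set ε₂ : ℝ := ε / (4 * C₂ * κ) with hε₂
  have hε₂pos : 0 < ε₂ := by positivity
  obtain ⟨L, hL0, hlong⟩ := long_JJ hρ ε₁ hε₁pos
  obtain ⟨n₁, hkill⟩ := killed_llt hD hρ hL hc hc1 hL0 ε₂ hε₂pos
  obtain ⟨n₂, hn₂⟩ := exists_nat_ge (2 / r)
  obtain ⟨n₃, hn₃⟩ := exists_nat_ge (((L + h) * (2 * L) / (c * ε₂)) ^ 2)
  refine ⟨max (max n₁ n₂) (max n₃ 1), ?_⟩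
  intro n hn k l hck hkn hl z hz
  have hn1 : n₁ ≤ n := le_trans (le_trans (le_max_left _ _) (le_max_left _ _)) hn
  have hn2 : n₂ ≤ n := le_trans (le_trans (le_max_right _ _) (le_max_left _ _)) hn
  have hn3 : n₃ ≤ n := le_trans (le_trans (le_max_left _ _) (le_max_right _ _)) hn
  have hn4 : 1 ≤ n := le_trans (le_trans (le_max_right _ _) (le_max_right _ _)) hn
  have hnpos : (0 : ℝ) < n := by exact_mod_cast hn4
  have hsn : 0 < √(n : ℝ) := Real.sqrt_pos.2 hnpos
  have hkpos : (0 : ℝ) < k := lt_of_lt_of_le (by positivity) hck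
  have hk1 : 1 ≤ k := by exact_mod_cast hkpos
  have hrn : 2 ≤ r * n := by
    have h1 : 2 / r ≤ n := le_trans hn₂ (by exact_mod_cast hn2)
    rw [div_le_iff₀ hr] at h1
    linarith
  have hl2 : r * n / 2 ≤ l := by
    have h1 : r * n < (⌊r * n⌋₊ : ℝ) + 1 := Nat.lt_floor_add_one _
    rw [hl]
    linarith
  have hlpos : (0 : ℝ) < l := lt_of_lt_of_le (by positivity) hl2
  have hl1 : 1 ≤ l := by exact_mod_cast hlpos
  have hsl : 0 < √(l : ℝ) := Real.sqrt_pos.2 hlpos
  have hratio : √(n : ℝ) / √(l : ℝ) ≤ κ := by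
    rw [← Real.sqrt_div hnpos.le, hκ]
    apply Real.sqrt_le_sqrt
    rw [div_le_div_iff₀ hlpos hr]
    linarith
  set t : ℝ := (k : ℝ) / n with ht
  have htc : c ≤ t := by rw [ht, le_div_iff₀ hnpos]; exact hck
  have htpos : 0 < t := lt_of_lt_of_le hc htc
  set Λ : Measure ℝ := lam h (z + k * a) with hΛ
  set P : Measure (ℕ → ℝ) := seqLaw ρ with hP
  set g : ℝ → ℝ≥0∞ := fun y => ENNReal.ofReal (qq t (z / √n) (y / √n)) with hg
  have hqcont : Continuous fun y : ℝ => qq t (z / √n) (y / √n) := by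
    unfold qq
    exact ((continuous_gau t).comp (by fun_prop)).sub ((continuous_gau t).comp (by fun_prop))
  have hgm : Measurable g := hqcont.measurable.ennreal_ofReal
  rw [hit_eq_JJ hD hk1 hl1 z, ← lintegral_JJ hD hl1 h (z + k * a) g hgm]
  -- the two functions
  set A : (ℕ → ℝ) → ℝ := fun ω => (kap D ρ k z).real (JJ D l ω) with hA
  set G : (ℕ → ℝ) → ℝ≥0∞ := fun ω => ∫⁻ y in JJ D l ω, g y ∂Λ with hG
  have hAm : Measurable A :=
    (measurable_measure_prodMk_left (ν := kap D ρ k z) (D2c_meas hD l)).ennreal_toReal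
  have hA0 : ∀ ω, 0 ≤ A ω := fun ω => measureReal_nonneg
  have hA1 : ∀ ω, A ω ≤ 1 := by
    intro ω
    have h1 : kap D ρ k z (JJ D l ω) ≤ 1 := le_trans (measure_mono (Set.subset_univ _)) (kap_univ_le_one k z)
    exact ENNReal.toReal_le_of_le_ofReal zero_le_one (by simpa using h1)
  have hlenm : Measurable fun ω : ℕ → ℝ => -S l ω - mx l ω := (measurable_S l).neg.sub (measurable_mx l)
  set δ₁ : ℝ := ε₂ + (L + h) * (2 * L) / (c * √n) with hδ₁
  have hδ₁pos : 0 < δ₁ := by positivity
  have hδ₁le : δ₁ ≤ 2 * ε₂ := by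
    have h1 : (L + h) * (2 * L) / (c * ε₂) ≤ √n := by
      apply Real.le_sqrt_of_sq_le
      exact le_trans hn₃ (by exact_mod_cast hn3)
    have h2 : (L + h) * (2 * L) / (c * √n) ≤ ε₂ := by
      rw [div_le_iff₀ (by positivity)] at h1 ⊢
      nlinarith
    linarith
  set s1 : Set (ℕ → ℝ) := {ω | 0 < -S l ω - mx l ω} with hs1
  set s2 : Set (ℕ → ℝ) := {ω | L < -S l ω - mx l ω} with hs2
  have hs1m : MeasurableSet s1 := measurableSet_lt measurable_const hlenm
  have hs2m : MeasurableSet s2 := measurableSet_lt measurable_const hlenm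
  set E : (ℕ → ℝ) → ℝ≥0∞ := fun ω => s1.indicator (fun _ => ENNReal.ofReal δ₁) ω +
    s2.indicator (fun ω => ENNReal.ofReal M * ENNReal.ofReal (-S l ω - mx l ω + 1)) ω with hE
  have hEm : Measurable E := (measurable_const.indicator hs1m).add
    (((hlenm.add_const 1).ennreal_ofReal.const_mul _).indicator hs2m)
  have hJsub : ∀ ω, JJ D l ω ⊆ Set.Icc (mx l ω) (-S l ω) := fun ω => IV_subset hD _ _
  have hJm : ∀ ω, MeasurableSet (JJ D l ω) := fun ω => measurableSet_IV hD _ _
  have hmx : ∀ ω, 0 ≤ mx l ω := fun ω => mx_nonneg hl1 ω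
  have hΛJ : ∀ ω, 0 < -S l ω - mx l ω → Λ (JJ D l ω) ≤ ENNReal.ofReal (-S l ω - mx l ω + h) := by
    intro ω hω
    exact le_trans (measure_mono (hJsub ω)) (lam_Icc_le h _ _ _ hh (by linarith))
  -- pointwise bounds
  have hpt : ∀ ω, ENNReal.ofReal (√n * A ω) ≤ G ω + E ω ∧ G ω ≤ ENNReal.ofReal (√n * A ω) + E ω := by
    intro ω
    set len : ℝ := -S l ω - mx l ω with hlen
    rcases le_or_gt len 0 with h0 | h0
    · have hJ : JJ D l ω = ∅ := D2c_empty hD l ω h0
      have hA' : A ω = 0 := by simp only [hA, hJ, measureReal_empty]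
      have hG' : G ω = 0 := by simp only [hG, hJ]; simp
      rw [hA', hG']
      simp
    · have hmem1 : ω ∈ s1 := h0
      have hfin : Λ (JJ D l ω) ≠ ∞ := ne_top_of_le_ne_top ENNReal.ofReal_ne_top (hΛJ ω h0)
      rcases le_or_gt len L with h1 | h1
      · -- short interval
        have hmem2 : ω ∉ s2 := not_lt.2 h1
        have hEω : E ω = ENNReal.ofReal δ₁ := by
          simp only [hE, Set.indicator_of_mem hmem1, Set.indicator_of_notMem hmem2, add_zero]
        have hk' := hkill n hn1 k hck hkn z (mx l ω) (-S l ω) hz (hmx ω) (by linarith) (by linarith)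
        set G' : ℝ := ∫ y in JJ D l ω, qq t (z / √n) (y / √n) ∂Λ with hG'
        have hGG' : G ω = ENNReal.ofReal G' := by
          rw [hG', ofReal_integral_eq_lintegral_ofReal]
          · refine Measure.integrableOn_of_bounded (M := 1 / √t) hfin
              hqcont.aestronglyMeasurable (ae_of_all _ fun y => ?_)
            rw [Real.norm_eq_abs]
            exact abs_qq_le htpos _ _
          · refine (ae_restrict_iff' (hJm ω)).2 (ae_of_all _ fun y hy => ?_)
            have hy0 : 0 ≤ y := le_trans (hmx ω) (hJsub ω hy).1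
            exact qq_nonneg htpos (by positivity) (by positivity)
        have hd : |Λ.real (JJ D l ω) * qq t (z / √n) (mx l ω / √n) - G'| ≤
            (L + h) * (2 * L) / (c * √n) := by
          have hint : IntegrableOn (fun y => qq t (z / √n) (y / √n)) (JJ D l ω) Λ :=
            Measure.integrableOn_of_bounded (M := 1 / √t) hfin
              hqcont.aestronglyMeasurable (ae_of_all _ fun y => by
                rw [Real.norm_eq_abs]; exact abs_qq_le htpos _ _)
          have h2 : Λ.real (JJ D l ω) * qq t (z / √n) (mx l ω / √n) =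
              ∫ y in JJ D l ω, qq t (z / √n) (mx l ω / √n) ∂Λ := by
            rw [setIntegral_const, smul_eq_mul]
          have hint0 : IntegrableOn (fun _ : ℝ => qq t (z / √n) (mx l ω / √n)) (JJ D l ω) Λ :=
            Measure.integrableOn_of_bounded (M := 1 / √t) hfin
              aestronglyMeasurable_const (ae_of_all _ fun y => by
                rw [Real.norm_eq_abs]; exact abs_qq_le htpos _ _)
          rw [h2, hG', ← integral_sub hint0 hint]
          have h3 : ∀ y ∈ JJ D l ω, ‖qq t (z / √n) (mx l ω / √n) - qq t (z / √n) (y / √n)‖ ≤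
              2 * (L / √n) / c := by
            intro y hy
            have hy' := hJsub ω hy
            rw [Real.norm_eq_abs]
            refine le_trans (qq_lip htpos _ _ _) ?_
            have h4 : |mx l ω / √n - y / √n| ≤ L / √n := by
              rw [← sub_div, abs_div, abs_of_pos hsn]
              apply div_le_div_of_nonneg_right _ hsn.le
              rw [abs_le]
              constructor
              · have := hy'.2; linarith
              · have := hy'.1; linarith
            apply div_le_div₀ (by positivity) (by linarith) hc htc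
          have h5 := norm_setIntegral_le_of_norm_le_const (lt_top_iff_ne_top.2 hfin) h3
          rw [Real.norm_eq_abs] at h5
          refine le_trans h5 ?_
          have h6 : Λ.real (JJ D l ω) ≤ L + h := by
            refine ENNReal.toReal_le_of_le_ofReal (by linarith) (le_trans (hΛJ ω h0) ?_)
            exact ENNReal.ofReal_le_ofReal (by linarith)
          calc 2 * (L / √n) / c * Λ.real (JJ D l ω) ≤ 2 * (L / √n) / c * (L + h) :=
                mul_le_mul_of_nonneg_left h6 (by positivity)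
            _ = (L + h) * (2 * L) / (c * √n) := by field_simp
        have hdiff : |√n * A ω - G'| ≤ δ₁ := by
          have h7 : √n * A ω - G' = (√n * (kap D ρ k z).real (IV D (mx l ω) (-S l ω)) -
              Λ.real (IV D (mx l ω) (-S l ω)) * qq t (z / √n) (mx l ω / √n)) +
              (Λ.real (JJ D l ω) * qq t (z / √n) (mx l ω / √n) - G') := by
            simp only [hA, JJ]; ring
          rw [h7]
          exact le_trans (abs_add_le _ _) (add_le_add hk' hd)
        have hG'0 : 0 ≤ G' := by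
          rw [hG']
          refine setIntegral_nonneg (hJm ω) fun y hy => ?_
          have hy0 : 0 ≤ y := le_trans (hmx ω) (hJsub ω hy).1
          exact qq_nonneg htpos (by positivity) (by positivity)
        rw [abs_le] at hdiff
        rw [hEω, hGG', ← ENNReal.ofReal_add hG'0 hδ₁pos.le,
          ← ENNReal.ofReal_add (mul_nonneg hsn.le (hA0 ω)) hδ₁pos.le]
        exact ⟨ENNReal.ofReal_le_ofReal (by linarith [hdiff.2]),
          ENNReal.ofReal_le_ofReal (by linarith [hdiff.1])⟩
      · -- long interval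
        have hmem2 : ω ∈ s2 := h1
        have hEω : ENNReal.ofReal (M * (len + 1)) ≤ E ω := by
          simp only [hE, Set.indicator_of_mem hmem1, Set.indicator_of_mem hmem2]
          rw [← ENNReal.ofReal_mul hMpos.le]
          exact le_add_self
        constructor
        · refine le_trans ?_ (le_trans hEω le_add_self)
          apply ENNReal.ofReal_le_ofReal
          have h2 := (hwin len h0.le k hk1 z (mx l ω) hz (hmx ω) (JJ D l ω) (hJm ω)
            (fun y hy => ⟨(hJsub ω hy).1, by have := (hJsub ω hy).2; linarith⟩)).2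
          have h3 : √c * √n ≤ √(k : ℝ) := by
            rw [← Real.sqrt_mul hc.le]
            exact Real.sqrt_le_sqrt hck
          have hsk : 0 < √(k : ℝ) := Real.sqrt_pos.2 hkpos
          calc √n * A ω ≤ √n * (C₁ * (len + 2) / √k) := mul_le_mul_of_nonneg_left h2 hsn.le
            _ ≤ √n * (C₁ * (len + 2) / (√c * √n)) := by
                apply mul_le_mul_of_nonneg_left _ hsn.le
                apply div_le_div_of_nonneg_left (by positivity) (by positivity) h3
            _ = C₁ * (len + 2) / √c := by field_simp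
            _ ≤ M * (len + 1) := by
                rw [hM, div_mul_eq_mul_div]
                apply div_le_div_of_nonneg_right _ hsc.le
                nlinarith
        · refine le_trans ?_ (le_trans hEω le_add_self)
          have h2 : G ω ≤ ENNReal.ofReal (1 / √c) * Λ (JJ D l ω) := by
            rw [← setLIntegral_const]
            refine setLIntegral_mono measurable_const fun y _ => ?_
            apply ENNReal.ofReal_le_ofReal
            refine le_trans (le_abs_self _) (le_trans (abs_qq_le htpos _ _) ?_)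
            exact one_div_le_one_div_of_le hsc (Real.sqrt_le_sqrt htc)
          refine le_trans h2 (le_trans (mul_le_mul_right (hΛJ ω h0) _) ?_)
          rw [← ENNReal.ofReal_mul (by positivity)]
          apply ENNReal.ofReal_le_ofReal
          have h3 : 1 / √c * (-S l ω - mx l ω + h) = (len + h) / √c := by rw [hlen]; ring
          rw [h3, hM, div_mul_eq_mul_div]
          apply div_le_div_of_nonneg_right _ hsc.le
          nlinarith
  -- integrate
  have hEint : ∫⁻ ω, E ω ∂P ≤ ENNReal.ofReal ((δ₁ * C₂ + M * ε₁) / √l) := by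
    rw [lintegral_add_left (measurable_const.indicator hs1m), lintegral_indicator hs1m,
      lintegral_indicator hs2m, setLIntegral_const, lintegral_const_mul' _ _ ENNReal.ofReal_ne_top]
    have h1 : P s1 ≤ ENNReal.ofReal (C₂ / √l) := by
      have := hprob l hl1
      rw [← ENNReal.ofReal_toReal (measure_ne_top P s1)]
      exact ENNReal.ofReal_le_ofReal this
    have h2 := hlong l hl1
    calc ENNReal.ofReal δ₁ * P s1 + ENNReal.ofReal M *
          ∫⁻ ω in s2, ENNReal.ofReal (-S l ω - mx l ω + 1) ∂P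
        ≤ ENNReal.ofReal δ₁ * ENNReal.ofReal (C₂ / √l) + ENNReal.ofReal M * ENNReal.ofReal (ε₁ / √l) :=
          add_le_add (mul_le_mul_right h1 _) (mul_le_mul_right h2 _)
      _ = ENNReal.ofReal ((δ₁ * C₂ + M * ε₁) / √l) := by
          rw [← ENNReal.ofReal_mul hδ₁pos.le, ← ENNReal.ofReal_mul hMpos.le,
            ← ENNReal.ofReal_add (by positivity) (by positivity)]
          congr 1
          ring
  set e : ℝ := (δ₁ * C₂ + M * ε₁) / √l with he
  have he0 : 0 ≤ e := by positivity
  set I : ℝ := ∫ ω, A ω ∂P with hI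
  have hI0 : 0 ≤ I := integral_nonneg hA0
  have hIl : ∫⁻ ω, ENNReal.ofReal (√n * A ω) ∂P = ENNReal.ofReal (√n * I) := by
    rw [hI, ← integral_const_mul, ofReal_integral_eq_lintegral_ofReal]
    · refine Integrable.const_mul ?_ _
      refine Integrable.of_bound hAm.aestronglyMeasurable 1 (ae_of_all _ fun ω => ?_)
      rw [Real.norm_eq_abs, abs_of_nonneg (hA0 ω)]
      exact hA1 ω
    · exact ae_of_all _ fun ω => mul_nonneg hsn.le (hA0 ω)
  have hU1 : ENNReal.ofReal (√n * I) ≤ ∫⁻ ω, G ω ∂P + ENNReal.ofReal e := by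
    rw [← hIl]
    calc ∫⁻ ω, ENNReal.ofReal (√n * A ω) ∂P ≤ ∫⁻ ω, (G ω + E ω) ∂P :=
          lintegral_mono fun ω => (hpt ω).1
      _ = ∫⁻ ω, G ω ∂P + ∫⁻ ω, E ω ∂P := lintegral_add_right _ hEm
      _ ≤ _ := add_le_add_right hEint _
  have hU2 : ∫⁻ ω, G ω ∂P ≤ ENNReal.ofReal (√n * I) + ENNReal.ofReal e := by
    rw [← hIl]
    calc ∫⁻ ω, G ω ∂P ≤ ∫⁻ ω, (ENNReal.ofReal (√n * A ω) + E ω) ∂P :=
          lintegral_mono fun ω => (hpt ω).2
      _ = ∫⁻ ω, ENNReal.ofReal (√n * A ω) ∂P + ∫⁻ ω, E ω ∂P := lintegral_add_right _ hEm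
      _ ≤ _ := add_le_add_right hEint _
  have hGfin : ∫⁻ ω, G ω ∂P ≠ ∞ := ne_top_of_le_ne_top (by finiteness) hU2
  set Y : ℝ := (∫⁻ ω, G ω ∂P).toReal with hY
  have hY0 : 0 ≤ Y := ENNReal.toReal_nonneg
  have hGY : ∫⁻ ω, G ω ∂P = ENNReal.ofReal Y := (ENNReal.ofReal_toReal hGfin).symm
  rw [hGY, ← ENNReal.ofReal_add hY0 he0, ENNReal.ofReal_le_ofReal_iff (by positivity)] at hU1
  rw [hGY, ← ENNReal.ofReal_add (by positivity) he0, ENNReal.ofReal_le_ofReal_iff (by positivity)] at hU2
  have hfinal : |√n * I - Y| ≤ e := by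
    rw [abs_le]; constructor <;> linarith
  have h1 : (n : ℝ) * I - √n * Y = √n * (√n * I - Y) := by
    have : √(n : ℝ) * √(n : ℝ) = n := Real.mul_self_sqrt hnpos.le
    calc (n : ℝ) * I - √n * Y = (√(n : ℝ) * √(n : ℝ)) * I - √n * Y := by rw [this]
      _ = _ := by ring
  rw [h1, abs_mul, abs_of_pos hsn]
  calc √n * |√n * I - Y| ≤ √n * e := mul_le_mul_of_nonneg_left hfinal hsn.le
    _ = (δ₁ * C₂ + M * ε₁) * (√n / √l) := by rw [he]; ring
    _ ≤ (δ₁ * C₂ + M * ε₁) * κ := mul_le_mul_of_nonneg_left hratio (by positivity)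
    _ ≤ (2 * ε₂ * C₂ + M * ε₁) * κ := by
        apply mul_le_mul_of_nonneg_right _ hκpos.le
        have := mul_le_mul_of_nonneg_right hδ₁le hC₂.le
        linarith
    _ = ε := by
        rw [hε₁, hε₂]
        field_simp
        ring

end Pool.Agent.BPT
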