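import Pool.Agent.MP_99a865_pr.FV.D2b

open MeasureTheory ProbabilityTheory Filter Topology
open scoped ENNReal NNReal

namespace Pool.Agent.BPT

variable {D : Set ℝ} {ρ : Measure ℝ}

lemma D2d_neg (hρ : Std ρ) : 0 < ρ (Set.Iio 0) := by
  have := hρ.prob
  by_contra hc
  have h0 : ρ (Set.Iio 0) = 0 := by simpa using hc
  have hae : ∀ᵐ x : ℝ ∂ρ, 0 ≤ x := by
    rw [ae_iff]
    have : {x : ℝ | ¬ 0 ≤ x} = Set.Iio 0 := by
      ext x
      simp
    rw [this]
    exact h0
  have hint : Integrable (fun x : ℝ => x) ρ := by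
    apply Integrable.mono' ((integrable_const (1 : ℝ)).add hρ.int2)
    · exact measurable_id.aestronglyMeasurable
    · refine Eventually.of_forall fun x => ?_
      simp only [Pi.add_apply, Real.norm_eq_abs]
      nlinarith [sq_nonneg (|x| - 1), sq_abs x, abs_nonneg x]
  have h1 : (fun x : ℝ => x) =ᵐ[ρ] 0 := (integral_eq_zero_iff_of_nonneg_ae hae hint).1 hρ.mean
  have h2 : ∫ x, x ^ 2 ∂ρ = 0 := by
    rw [integral_congr_ae (g := fun _ => (0 : ℝ))]
    · simp
    · filter_upwards [h1] with x hx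
      have hx' : x = 0 := hx
      rw [hx']
      norm_num
  rw [hρ.var] at h2
  exact one_ne_zero h2

lemma D2d_ex (hD : Dom D) (hρ : Std ρ) : ∃ δ > (0 : ℝ), 0 < ex D ρ δ := by
  have h := D2d_neg hρ
  have hU : Set.Iio (0 : ℝ) = ⋃ n : ℕ, Set.Iio (-(1 / ((n : ℝ) + 1))) := by
    ext x
    simp only [Set.mem_Iio, Set.mem_iUnion]
    constructor
    · intro hx
      obtain ⟨n, hn⟩ := exists_nat_one_div_lt (show (0 : ℝ) < -x by linarith)
      exact ⟨n, by linarith⟩
    · rintro ⟨n, hn⟩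
      have : (0 : ℝ) < 1 / ((n : ℝ) + 1) := Nat.one_div_pos_of_nat
      linarith
  rw [hU] at h
  obtain ⟨n, hn⟩ := exists_measure_pos_of_not_measure_iUnion_null h.ne'
  refine ⟨1 / ((n : ℝ) + 1), Nat.one_div_pos_of_nat, lt_of_lt_of_le hn (measure_mono ?_)⟩
  intro x hx hmem
  have h1 := hD.nonneg hmem
  have h2 : x < -(1 / ((n : ℝ) + 1)) := hx
  linarith

/-- a positive bound in `ℝ≥0∞` is bounded below by a positive real -/
lemma D2d_real {x : ℝ≥0∞} (hx : 0 < x) : ∃ c > (0 : ℝ), ENNReal.ofReal c ≤ x := by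
  obtain ⟨r, hr0, hr⟩ := ENNReal.lt_iff_exists_nnreal_btwn.1 hx
  refine ⟨r, by exact_mod_cast hr0, ?_⟩
  rw [ENNReal.ofReal_coe_nnreal]
  exact hr.le

/-- positive values are bounded below: `x` if it is positive, otherwise one -/
noncomputable def D2d_q (x : ℝ≥0∞) : ℝ≥0∞ := if x = 0 then 1 else x

lemma D2d_q_pos (x : ℝ≥0∞) : 0 < D2d_q x := by
  unfold D2d_q
  split_ifs with h
  · exact one_pos
  · exact pos_iff_ne_zero.2 h

lemma D2d_q_le {x : ℝ≥0∞} (h : x ≠ 0) : D2d_q x = x := if_neg h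

/-- lower bound for the exit probabilities from lattice points -/
lemma D2d_claim (hD : Dom D) {a h : ℝ} (hh : 0 < h)
    (hstep : ∀ᵐ x ∂ρ, Cos h a x) : ∃ p : ℝ≥0∞, 0 < p ∧ ∀ w : ℝ, w ≤ h → ex D ρ w ≠ 0 → 0 ≤ w →
      p ≤ ex D ρ w := by
  set j₀ : ℤ := ⌊-a / h⌋ with hj₀
  have hj1 : (j₀ : ℝ) ≤ -a / h := Int.floor_le _
  have hj2 : -a / h < j₀ + 1 := Int.lt_floor_add_one _
  refine ⟨min (D2d_q (ex D ρ h)) (min (D2d_q (ρ {a + h * (j₀ : ℝ)}))
    (D2d_q (ρ {a + h * ((j₀ - 1 : ℤ) : ℝ)}))),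
    lt_min (D2d_q_pos _) (lt_min (D2d_q_pos _) (D2d_q_pos _)), ?_⟩
  intro w hwh hex hw0
  by_cases hexh : ex D ρ h = 0
  · -- two possible steps
    have h1 : ex D ρ w ≤ ρ ({y | w + y ∉ D} ∩ {a + h * (j₀ : ℝ), a + h * ((j₀ - 1 : ℤ) : ℝ)}) := by
      apply measure_mono_ae
      have h2 : ∀ᵐ y ∂ρ, h + y ∈ D := by
        rw [ae_iff]
        exact hexh
      filter_upwards [hstep, h2] with y hy1 hy2 hy3
      refine ⟨hy3, ?_⟩
      obtain ⟨j, hj⟩ := hy1 hh.ne'
      have h3 : w + y ≤ 0 := hD.not_mem hy3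
      have h4 : 0 ≤ h + y := hD.nonneg hy2
      have h5 : h * (j : ℝ) ≤ -a := by linarith
      have h6 : -a ≤ h * ((j : ℝ) + 1) := by linarith
      have h7 : (j : ℝ) ≤ -a / h := by
        rw [le_div_iff₀ hh]
        linarith
      have h8 : -a / h ≤ (j : ℝ) + 1 := by
        rw [div_le_iff₀ hh]
        linarith
      have h9 : j < j₀ + 1 := by
        have : (j : ℝ) < (j₀ : ℝ) + 1 := lt_of_le_of_lt h7 hj2
        exact_mod_cast this
      have h10 : j₀ ≤ j + 1 := by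
        have : (j₀ : ℝ) ≤ (j : ℝ) + 1 := le_trans hj1 h8
        exact_mod_cast this
      have h11 : j = j₀ ∨ j = j₀ - 1 := by omega
      rcases h11 with rfl | rfl
      · exact Or.inl hj
      · exact Or.inr hj
    have h12 : ∃ y, w + y ∉ D ∧ ρ {y} ≠ 0 ∧
        (y = a + h * (j₀ : ℝ) ∨ y = a + h * ((j₀ - 1 : ℤ) : ℝ)) := by
      by_contra hcon
      push Not at hcon
      apply hex
      have h13 : ρ ({y | w + y ∉ D} ∩ {a + h * (j₀ : ℝ), a + h * ((j₀ - 1 : ℤ) : ℝ)}) = 0 := by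
        have hfin : ({y | w + y ∉ D} ∩ {a + h * (j₀ : ℝ), a + h * ((j₀ - 1 : ℤ) : ℝ)} :
            Set ℝ).Countable := by
          apply Set.Countable.mono Set.inter_subset_right
          exact (Set.toFinite _).countable
        rw [← Set.biUnion_of_singleton
          ({y | w + y ∉ D} ∩ {a + h * (j₀ : ℝ), a + h * ((j₀ - 1 : ℤ) : ℝ)}),
          measure_biUnion_null_iff hfin]
        intro y hy
        by_contra hne
        rcases hy.2 with h14 | h14
        · exact (hcon y hy.1 hne).1 h14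
        · exact (hcon y hy.1 hne).2 h14
      exact le_antisymm (h13 ▸ h1) zero_le
    obtain ⟨y, hy1, hy2, hy3⟩ := h12
    have h15 : ρ {y} ≤ ex D ρ w := by
      apply measure_mono
      intro z hz
      rw [Set.mem_singleton_iff] at hz
      rw [hz]
      exact hy1
    refine le_trans (min_le_right _ _) (le_trans ?_ h15)
    rcases hy3 with rfl | rfl
    · exact le_trans (min_le_left _ _) (D2d_q_le hy2).le
    · exact le_trans (min_le_right _ _) (D2d_q_le hy2).le
  · refine le_trans (min_le_left _ _) ?_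
    rw [D2d_q_le hexh]
    exact ex_anti hD hwh

/-- **[FV-D2b]** Lower bound for `BB`.
PROOF. `BB D ρ h c (k+1) = ∫⁻ w in D, ex w * ee D (dual ρ) k w ∂(lam h (c+ka))` (`hit_duality`), and for
`k ≥ 1`, `w ≥ 0`: `ee D (dual ρ) k w ≥ ee D (dual ρ) 1 0 =: e₁ > 0` (`ee_mono_time`, `ee_mono`,
`ee_one_pos`).
If `h = 0`: `BB ≥ e₁ ∫_{w>0} ex w dw > 0`, a constant (`ex w > 0` on a neighbourhood of zero in
`(0,∞)` since `ρ (Iio 0) > 0`).
If `h > 0`: let `c' = n a - a`, the point reached at time `n - 1`. Since `hit n 0 > 0` and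
`ofReal (hit n 0) = ∫ ex w ∂(kap (n-1) 0)`, `n ≥ 2`, there is `w* ∈ D`, `Cos h ((n-1)a) w*`, `ex w* > 0`
(`ae_kap`). Let `w₀ ≤ w*` be the smallest element of `D ∩ ((n-1)a + hℤ)`; `0 ≤ w₀ ≤ h` and
`ex w₀ ≥ ex w* > 0`. CLAIM: there is `p > 0` (depending on `ρ, a, h, D` only) with `ex w ≥ p` for all
`w ∈ D ∩ Icc 0 h` with `ex w > 0`. Indeed, if `ex h > 0` (`ex` at the point `h`) take `p = ex h`
(`ex` is nonincreasing). If `ex h = 0`: every atom `-s` of `ρ` (`s ≥ 0`), which is possible with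
`w + X ∉ D`, has `s ≤ h`; the lattice `a + hℤ` has at most two points in `[-h, 0]`, so `ex` takes at most
finitely many values on `[0,h]`; take the smallest positive one.
With `c = (n-l)a`, `l = k+1`: `c + ka = (n-1)a`, so `BB D ρ h ((n-l)a) l ≥ h · ex w₀ · ee k w₀ ≥ h p e₁`. -/
theorem le_BB (hD : Dom D) (hρ : Std ρ) {a h : ℝ} (hh : 0 ≤ h) (hstep : ∀ᵐ x ∂ρ, Cos h a x) :
    ∃ c₀ > (0 : ℝ), ∀ n l : ℕ, 2 ≤ l → l ≤ n → 0 < hit D ρ n 0 →
      ENNReal.ofReal c₀ ≤ BB D ρ h (((n : ℝ) - l) * a) l := by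
  have := hρ.prob
  have := hρ.dual.prob
  set e₁ : ℝ≥0∞ := ee D (dual ρ) 1 0 with he₁
  have he₁0 : 0 < e₁ := ee_one_pos hD hρ.dual
  -- the common part
  have hmain : ∀ n l : ℕ, 2 ≤ l → l ≤ n →
      e₁ * ∫⁻ w in D, ex D ρ w ∂(lam h (((n - 1 : ℕ) : ℝ) * a)) ≤
        BB D ρ h (((n : ℝ) - l) * a) l := by
    intro n l hl hln
    obtain ⟨k, rfl⟩ : ∃ k, l = k + 1 := ⟨l - 1, by omega⟩
    have h1 : BB D ρ h (((n : ℝ) - (k + 1 : ℕ)) * a) (k + 1) =
        ∫⁻ w in D, ex D ρ w * ee D (dual ρ) k w ∂(lam h (((n - 1 : ℕ) : ℝ) * a)) := by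
      have h2 := hit_duality hD hh hstep (((n : ℝ) - (k + 1 : ℕ)) * a) k
        (fun y => ENNReal.ofReal y) ENNReal.measurable_ofReal
      have h3 : ((n : ℝ) - (k + 1 : ℕ)) * a + k * a = ((n - 1 : ℕ) : ℝ) * a := by
        rw [Nat.cast_sub (by omega)]
        push_cast
        ring
      rw [h3] at h2
      exact h2
    rw [h1, ← lintegral_const_mul _ (measurable_ex hD)]
    apply lintegral_mono_ae
    rw [ae_restrict_iff' hD.meas]
    refine Eventually.of_forall fun w hw => ?_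
    rw [mul_comm]
    apply mul_le_mul_right
    exact le_trans (ee_mono hD hρ.dual 1 le_rfl (hD.nonneg hw))
      (ee_mono_time hD hρ.dual (by omega) w (hD.nonneg hw))
  rcases hh.eq_or_lt with rfl | hpos
  · -- non-lattice case
    obtain ⟨δ, hδ, hex⟩ := D2d_ex hD hρ
    have h0 : 0 < e₁ * (ex D ρ δ * ENNReal.ofReal δ) :=
      ENNReal.mul_pos he₁0.ne' (ENNReal.mul_pos hex.ne' (ENNReal.ofReal_pos.2 hδ).ne').ne'
    obtain ⟨c₀, hc₀, hc⟩ := D2d_real h0
    refine ⟨c₀, hc₀, fun n l hl hln _ => ?_⟩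
    refine le_trans hc (le_trans (mul_le_mul_right ?_ e₁) (hmain n l hl hln))
    rw [lam_zero]
    calc ex D ρ δ * ENNReal.ofReal δ = ∫⁻ _ in Set.Ioc 0 δ, ex D ρ δ := by
          rw [setLIntegral_const, Real.volume_Ioc, sub_zero]
      _ ≤ ∫⁻ w in Set.Ioc 0 δ, ex D ρ w := by
          apply setLIntegral_mono (measurable_ex hD)
          intro w hw
          exact ex_anti hD hw.2
      _ ≤ ∫⁻ w in D, ex D ρ w := by
          apply lintegral_mono_set
          intro w hw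
          exact hD.pos hw.1
  · -- lattice case
    obtain ⟨p, hp, hclaim⟩ := D2d_claim (D := D) hD hpos hstep
    have h0 : 0 < e₁ * (p * ENNReal.ofReal h) :=
      ENNReal.mul_pos he₁0.ne' (ENNReal.mul_pos hp.ne' (ENNReal.ofReal_pos.2 hpos).ne').ne'
    obtain ⟨c₀, hc₀, hc⟩ := D2d_real h0
    refine ⟨c₀, hc₀, fun n l hl hln hhit => ?_⟩
    refine le_trans hc (le_trans (mul_le_mul_right ?_ e₁) (hmain n l hl hln))
    set b : ℝ := ((n - 1 : ℕ) : ℝ) * a with hb
    -- a point from which the walk can leave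
    have hw : ∃ w, w ∈ D ∧ Cos h b w ∧ ex D ρ w ≠ 0 := by
      by_contra hcon
      push Not at hcon
      have h1 := hit_succ (ρ := ρ) hD (n - 1) 0
      rw [show n - 1 + 1 = n by omega] at h1
      have h2 : ∫⁻ w, ex D ρ w ∂(kap D ρ (n - 1) 0) = 0 := by
        have h3 : (fun w => ex D ρ w) =ᵐ[kap D ρ (n - 1) 0] fun _ => 0 := by
          have h4 := ae_kap hD a h hstep (n - 1) 0
          have h5 : ∀ᵐ w ∂(kap D ρ (n - 1) 0), w ∈ D := by
            rw [ae_iff]
            exact kap_compl hD (n - 1) 0 (Or.inl (by omega))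
          filter_upwards [h4, h5] with w h6 h7
          rw [zero_add] at h6
          exact hcon w h7 h6
        rw [lintegral_congr_ae h3, lintegral_zero]
      rw [h2] at h1
      have h3 := ENNReal.ofReal_eq_zero.1 h1
      linarith
    obtain ⟨w, hwD, hwC, hwex⟩ := hw
    obtain ⟨j, hj⟩ := hwC hpos.ne'
    obtain ⟨j₀, hj₀, hmin⟩ := Int.exists_least_of_bdd (P := fun i : ℤ => b + h * i ∈ D)
      ⟨⌊-b / h⌋, fun z hz => by
        have h1 := hD.nonneg hz
        have h2 : -b / h ≤ z := by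
          rw [div_le_iff₀ hpos]
          linarith
        have h3 : ((⌊-b / h⌋ : ℤ) : ℝ) ≤ z := le_trans (Int.floor_le _) h2
        exact_mod_cast h3⟩ ⟨j, by simpa [← hj] using hwD⟩
    have hjj : j₀ ≤ j := hmin j (by simpa [← hj] using hwD)
    have hle : b + h * j₀ ≤ w := by
      rw [hj]
      have : (j₀ : ℝ) ≤ j := by exact_mod_cast hjj
      nlinarith
    have hleh : b + h * j₀ ≤ h := by
      have h1 : ¬ (b + h * ((j₀ - 1 : ℤ) : ℝ) ∈ D) := fun hcon => by
        have := hmin (j₀ - 1) hcon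
        omega
      have h2 := hD.not_mem h1
      push_cast at h2
      linarith
    have hex0 : ex D ρ (b + h * j₀) ≠ 0 := by
      intro h1
      apply hwex
      have h2 := ex_anti (ρ := ρ) hD hle
      rw [h1] at h2
      exact le_antisymm h2 zero_le
    have hp0 : p ≤ ex D ρ (b + h * j₀) := hclaim _ hleh hex0 (hD.nonneg hj₀)
    have hlam : ENNReal.ofReal h ≤ lam h b {b + h * (j₀ : ℝ)} := by
      unfold lam
      rw [if_neg hpos.ne', Measure.smul_apply, smul_eq_mul,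
        Measure.sum_apply _ (measurableSet_singleton _)]
      calc ENNReal.ofReal h = ENNReal.ofReal h * 1 := (mul_one _).symm
        _ ≤ _ := by
          apply mul_le_mul_right
          refine le_trans ?_ (ENNReal.le_tsum j₀)
          rw [Measure.dirac_apply' _ (measurableSet_singleton _)]
          simp
    calc p * ENNReal.ofReal h ≤ ex D ρ (b + h * j₀) * lam h b {b + h * (j₀ : ℝ)} :=
          mul_le_mul' hp0 hlam
      _ = ∫⁻ w in {b + h * (j₀ : ℝ)}, ex D ρ w ∂(lam h b) := by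
          rw [lintegral_singleton]
      _ ≤ ∫⁻ w in D, ex D ρ w ∂(lam h b) := by
          apply lintegral_mono_set
          intro z hz
          rw [Set.mem_singleton_iff] at hz
          rw [hz]
          exact hj₀

end Pool.Agent.BPT
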