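import Pool.Agent.MP_99a865_pr.FV.D2c
import Pool.Agent.MP_99a865_pr.FV.D2d

open MeasureTheory ProbabilityTheory Filter Topology
open scoped ENNReal NNReal

namespace Pool.Agent.BPT

variable {D : Set ℝ} {ρ : Measure ℝ}

/-- comparison of the kernel integral with `BB` -/
lemma D2e_cmp (hD : Dom D) [IsProbabilityMeasure ρ] {c t s x h e : ℝ} (hc : 0 < c) (hc1 : c ≤ 1)
    (ht : c ≤ t) (hs : 0 < s) (hx : 0 ≤ x) (l : ℕ) (hB : BB D ρ h e l ≠ ∞)
    (M : ℝ) (hM : 0 ≤ M)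
    (hM2 : ∫⁻ y in D, ENNReal.ofReal (min (y ^ 2 / s) y) * ENNReal.ofReal (hit D ρ l y) ∂(lam h e) ≤
      ENNReal.ofReal M) :
    |s * (∫⁻ y in D, ENNReal.ofReal (qq t x (y / s)) *
        ENNReal.ofReal (hit D ρ l y) ∂(lam h e)).toReal - (BB D ρ h e l).toReal * psi t x| ≤
      4 / c ^ 2 * M := by
  set A := ∫⁻ y in D, ENNReal.ofReal (qq t x (y / s)) * ENNReal.ofReal (hit D ρ l y) ∂(lam h e)
    with hA
  set Mv := ∫⁻ y in D, ENNReal.ofReal (min (y ^ 2 / s) y) * ENNReal.ofReal (hit D ρ l y) ∂(lam h e)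
    with hMv
  have hmh : Measurable fun y => ENNReal.ofReal (hit D ρ l y) := (measurable_hit hD l).ennreal_ofReal
  have hMfin : Mv ≠ ∞ := ne_top_of_le_ne_top ENNReal.ofReal_ne_top hM2
  have ht0 : 0 < t := lt_of_lt_of_le hc ht
  have hpsi : 0 ≤ psi t x := psi_nonneg ht0 hx
  have hp : ∀ y ∈ D, |qq t x (y / s) - y * (psi t x / s)| ≤ 4 / c ^ 2 / s * min (y ^ 2 / s) y := by
    intro y hy
    have hy0 := hD.nonneg hy
    have h1 := qq_expand hc hc1 ht x (y := y / s) (by positivity)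
    have h2 : min ((y / s) ^ 2) (y / s) = 1 / s * min (y ^ 2 / s) y := by
      rw [mul_min_of_nonneg _ _ (by positivity)]
      congr 1
      · field_simp
      · field_simp
    rw [h2] at h1
    have h3 : y / s * psi t x = y * (psi t x / s) := by ring
    rw [h3] at h1
    refine h1.trans (le_of_eq ?_)
    ring
  have hmin : ∀ y ∈ D, 0 ≤ min (y ^ 2 / s) y := by
    intro y hy
    have hy0 := hD.nonneg hy
    exact le_min (by positivity) hy0
  -- the two constant multiples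
  have e1 : ∫⁻ y in D, ENNReal.ofReal (psi t x / s) * (ENNReal.ofReal y * ENNReal.ofReal (hit D ρ l y))
      ∂(lam h e) = ENNReal.ofReal (psi t x / s) * BB D ρ h e l := by
    have hm1 : Measurable fun y : ℝ => ENNReal.ofReal y * ENNReal.ofReal (hit D ρ l y) :=
      ENNReal.measurable_ofReal.mul hmh
    rw [lintegral_const_mul _ hm1]
    rfl
  have hmm : Measurable fun y : ℝ => ENNReal.ofReal (min (y ^ 2 / s) y) * ENNReal.ofReal (hit D ρ l y) := by
    refine Measurable.mul ?_ hmh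
    exact ((measurable_id.pow_const 2).div_const s |>.min measurable_id).ennreal_ofReal
  have e2 : ∫⁻ y in D, ENNReal.ofReal (4 / c ^ 2 / s) *
      (ENNReal.ofReal (min (y ^ 2 / s) y) * ENNReal.ofReal (hit D ρ l y))
      ∂(lam h e) = ENNReal.ofReal (4 / c ^ 2 / s) * Mv := by
    rw [lintegral_const_mul _ hmm]
  have c1 : A ≤ ENNReal.ofReal (psi t x / s) * BB D ρ h e l + ENNReal.ofReal (4 / c ^ 2 / s) * Mv := by
    rw [← e1, ← e2, ← lintegral_add_right _ (hmm.const_mul _)]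
    refine setLIntegral_mono' hD.meas fun y hy => ?_
    have hy0 := hD.nonneg hy
    have h1 := hp y hy
    have h2 := hmin y hy
    rw [← mul_assoc, ← mul_assoc, ← add_mul]
    refine mul_le_mul_left ?_ _
    rw [← ENNReal.ofReal_mul (by positivity), ← ENNReal.ofReal_mul (by positivity),
      ← ENNReal.ofReal_add (by positivity) (by positivity)]
    refine ENNReal.ofReal_le_ofReal ?_
    have := (abs_le.1 h1).2
    linarith [mul_comm y (psi t x / s)]
  have c2 : ENNReal.ofReal (psi t x / s) * BB D ρ h e l ≤ A + ENNReal.ofReal (4 / c ^ 2 / s) * Mv := by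
    rw [← e1, ← e2, ← lintegral_add_right _ (hmm.const_mul _)]
    refine setLIntegral_mono' hD.meas fun y hy => ?_
    have hy0 := hD.nonneg hy
    have h1 := hp y hy
    have h2 := hmin y hy
    have h3 : 0 ≤ qq t x (y / s) := qq_nonneg ht0 hx (by positivity)
    rw [← mul_assoc, ← mul_assoc, ← add_mul]
    refine mul_le_mul_left ?_ _
    rw [← ENNReal.ofReal_mul (by positivity), ← ENNReal.ofReal_mul (by positivity),
      ← ENNReal.ofReal_add (by positivity) (by positivity)]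
    refine ENNReal.ofReal_le_ofReal ?_
    have := (abs_le.1 h1).1
    linarith [mul_comm y (psi t x / s)]
  have hAfin : A ≠ ∞ := ne_top_of_le_ne_top (by finiteness) c1
  have d1 := ENNReal.toReal_mono (by finiteness) c1
  have d2 := ENNReal.toReal_mono (by finiteness) c2
  rw [ENNReal.toReal_add (by finiteness) (by finiteness), ENNReal.toReal_mul, ENNReal.toReal_mul,
    ENNReal.toReal_ofReal (by positivity), ENNReal.toReal_ofReal (by positivity)] at d1
  rw [ENNReal.toReal_add (by finiteness) (by finiteness), ENNReal.toReal_mul, ENNReal.toReal_mul,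
    ENNReal.toReal_ofReal (by positivity), ENNReal.toReal_ofReal (by positivity)] at d2
  have hM3 : Mv.toReal ≤ M := by
    have := ENNReal.toReal_mono ENNReal.ofReal_ne_top hM2
    rwa [ENNReal.toReal_ofReal hM] at this
  have k1 : s * A.toReal ≤ psi t x * (BB D ρ h e l).toReal + 4 / c ^ 2 * Mv.toReal := by
    calc s * A.toReal ≤ s * (psi t x / s * (BB D ρ h e l).toReal + 4 / c ^ 2 / s * Mv.toReal) := by
          gcongr
      _ = _ := by field_simp
  have k2 : psi t x * (BB D ρ h e l).toReal ≤ s * A.toReal + 4 / c ^ 2 * Mv.toReal := by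
    calc psi t x * (BB D ρ h e l).toReal = s * (psi t x / s * (BB D ρ h e l).toReal) := by field_simp
      _ ≤ s * (A.toReal + 4 / c ^ 2 / s * Mv.toReal) := by gcongr
      _ = _ := by field_simp
  have k3 : 4 / c ^ 2 * Mv.toReal ≤ 4 / c ^ 2 * M := by gcongr
  rw [abs_le]
  constructor <;> linarith [mul_comm (psi t x) (BB D ρ h e l).toReal]

/-- **[FV-D2c]** Local asymptotics of the exit time.
PROOF. Fix `c`, `ε`; let `r ≤ c/2` be small, `l = ⌊rn⌋`, `k = m - l ≥ cn/2`, `z ∈ (n-m)a + hℤ`, so that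
`Λ = lam h (z + ka) = lam h ((n-l)a)` (`lam_congr`). `B := (BB D ρ h ((n-l)a) l).toReal`, which does not
depend on `z`, `m`; `c₀ ≤ B ≤ C₀` by `le_BB`, `BB_le` (`l ≥ 2` for `n` large). By `hit_asymp_aux` (constant
`c/2`) `n hit m z` is within `ε'` of `√n ∫_D qq t z' (y/√n) hit_l(y) ∂Λ`, `t = k/n`, `z' = z/√n`; by
`qq_expand` this is within `√n (16/c²)·4 ∫_D min(y²/n, y/√n) hit_l ∂Λ = C_c ∫_D min(y²/√n, y) hit_l ∂Λ` of
`√n ∫_D (y/√n) psi t z' hit_l(y) ∂Λ = psi t z' · B`, and `BB_second` (`s = √n`) bounds the error by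
`C_c (ε'' + C√l/√n) ≤ C_c (ε'' + C√r)`. Finally `|psi t z' - psi (m/n) z'| ≤ (32/c²) r` (`psi_time`).
Choose `r`, then `ε', ε''`, then `n₀`. -/
theorem hit_asymp (hD : Dom D) (hρ : Std ρ) {a h : ℝ} (hL : Lat ρ a h) :
    ∃ c₀ > (0 : ℝ), ∃ C₀ > (0 : ℝ), ∀ c : ℝ, 0 < c → c ≤ 1 → ∀ ε > (0 : ℝ), ∃ n₀ : ℕ, ∀ n ≥ n₀,
    0 < hit D ρ n 0 → ∃ B : ℝ, c₀ ≤ B ∧ B ≤ C₀ ∧ ∀ m : ℕ, c * n ≤ m → m ≤ n → ∀ z : ℝ, 0 ≤ z →
      Cos h (((n : ℝ) - m) * a) z → |n * hit D ρ m z - B * psi (m / n) (z / √n)| ≤ ε := by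
  have := hρ.prob
  obtain ⟨c₀, hc₀, hle⟩ := le_BB hD hρ hL.nonneg hL.step
  obtain ⟨CB, hCB⟩ := BB_le hD hρ hL.nonneg hL.step
  obtain ⟨C, hC, hsec⟩ := BB_second hD hρ hL.nonneg hL.step
  refine ⟨c₀, hc₀, (CB : ℝ) + 1, by positivity, fun c hc hc1 ε hε => ?_⟩
  set C₀ : ℝ := (CB : ℝ) + 1 with hC₀
  have hC₀0 : 0 < C₀ := by positivity
  set c' : ℝ := c / 2 with hc'
  have hc'0 : 0 < c' := by positivity
  have hc'1 : c' ≤ 1 := by rw [hc']; linarith
  set C1 : ℝ := 4 / c' ^ 2 with hC1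
  have hC10 : 0 < C1 := by positivity
  set r : ℝ := min c' (min ((ε / (4 * C1 * C)) ^ 2) (ε / (4 * C₀ * (8 / c' ^ 2)))) with hr
  have hr0 : 0 < r := by
    rw [hr]
    refine lt_min hc'0 (lt_min (by positivity) (by positivity))
  have hr1 : r ≤ c' := min_le_left _ _
  have hr2 : √r ≤ ε / (4 * C1 * C) := by
    rw [Real.sqrt_le_left (by positivity)]
    exact (min_le_right _ _).trans (min_le_left _ _)
  have hr3 : r ≤ ε / (4 * C₀ * (8 / c' ^ 2)) := (min_le_right _ _).trans (min_le_right _ _)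
  obtain ⟨s₀, hs₀, hsec2⟩ := hsec (ε / (4 * C1)) (by positivity)
  obtain ⟨n₁, hn₁⟩ := hit_asymp_aux hD hρ hL hc'0 hc'1 hr0 (ε / 4) (by positivity)
  refine ⟨max n₁ (max ⌈s₀ ^ 2⌉₊ (⌈2 / r⌉₊ + 1)), fun n hn hpos => ?_⟩
  have hn1 : n₁ ≤ n := (le_max_left _ _).trans hn
  have hn2 : ⌈s₀ ^ 2⌉₊ ≤ n := (le_max_left _ _).trans ((le_max_right _ _).trans hn)
  have hn3 : ⌈2 / r⌉₊ + 1 ≤ n := (le_max_right _ _).trans ((le_max_right _ _).trans hn)
  have hnpos : (0 : ℝ) < n := by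
    have : 1 ≤ n := by omega
    exact_mod_cast this
  have hsn : s₀ ≤ √(n : ℝ) := by
    refine Real.le_sqrt_of_sq_le ?_
    exact (Nat.le_ceil _).trans (by exact_mod_cast hn2)
  have hrn : 2 ≤ r * n := by
    have h1 : 2 / r ≤ n := (Nat.le_ceil _).trans (by exact_mod_cast (by omega : ⌈2 / r⌉₊ ≤ n))
    rw [div_le_iff₀ hr0] at h1
    linarith [mul_comm r (n : ℝ)]
  set l : ℕ := ⌊r * n⌋₊ with hl
  have hl2 : 2 ≤ l := by
    rw [hl]
    exact Nat.le_floor (by exact_mod_cast hrn)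
  have hlr : (l : ℝ) ≤ r * n := Nat.floor_le (by positivity)
  have hln : l ≤ n := by
    have : (l : ℝ) ≤ n := by
      refine hlr.trans ?_
      nlinarith
    exact_mod_cast this
  have hB1 := hle n l hl2 hln hpos
  have hB2 := hCB (((n : ℝ) - l) * a) l (by omega)
  have hBfin : BB D ρ h (((n : ℝ) - l) * a) l ≠ ∞ := ne_top_of_le_ne_top ENNReal.coe_ne_top hB2
  set B : ℝ := (BB D ρ h (((n : ℝ) - l) * a) l).toReal with hB
  have hBl : c₀ ≤ B := by
    have := ENNReal.toReal_mono hBfin hB1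
    rwa [ENNReal.toReal_ofReal hc₀.le] at this
  have hBu : B ≤ C₀ := by
    have := ENNReal.toReal_mono ENNReal.coe_ne_top hB2
    rw [ENNReal.coe_toReal] at this
    linarith
  refine ⟨B, hBl, hBu, fun m hm hmn z hz hcos => ?_⟩
  have hlm : l ≤ m := by
    have : (l : ℝ) ≤ m := by
      refine hlr.trans (le_trans ?_ hm)
      have : r ≤ c := by rw [hc'] at hr1; linarith
      gcongr
    exact_mod_cast this
  obtain ⟨k, rfl⟩ : ∃ k, m = k + l := ⟨m - l, by omega⟩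
  have hk1 : c' * n ≤ k := by
    push_cast at hm
    have h2 : c * n = c' * n + c' * n := by rw [hc']; ring
    have : r * n ≤ c' * n := by gcongr
    linarith
  have hkn : k ≤ n := by omega
  have h1 := hn₁ n hn1 k l hk1 hkn rfl z hz
  -- the measure
  have hcos2 : Cos h (((n : ℝ) - l) * a) (z + k * a) := by
    intro hh
    obtain ⟨j, hj⟩ := hcos hh
    refine ⟨j, ?_⟩
    rw [hj]
    push_cast
    ring
  rw [lam_congr _ _ _ hcos2] at h1
  have ht : c' ≤ (k : ℝ) / n := by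
    rw [le_div_iff₀ hnpos]; exact hk1
  have hsec3 := hsec2 (√n) hsn (((n : ℝ) - l) * a) l (by omega)
  have h2 := D2e_cmp hD (ρ := ρ) hc'0 hc'1 ht (Real.sqrt_pos.2 hnpos) (x := z / √n)
    (by positivity) l hBfin _ (by positivity) hsec3
  have h3 : 4 / c' ^ 2 * (ε / (4 * C1) + C * √l / √n) ≤ ε / 2 := by
    have h4 : √(l : ℝ) / √n ≤ √r := by
      rw [div_le_iff₀ (Real.sqrt_pos.2 hnpos), ← Real.sqrt_mul hr0.le]
      exact Real.sqrt_le_sqrt hlr
    have h5 : C1 * (C * √l / √n) ≤ ε / 4 := by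
      calc C1 * (C * √l / √n) = C1 * C * (√l / √n) := by ring
        _ ≤ C1 * C * (ε / (4 * C1 * C)) :=
            mul_le_mul_of_nonneg_left (h4.trans hr2) (by positivity)
        _ = ε / 4 := by field_simp
    have h6 : C1 * (ε / (4 * C1)) = ε / 4 := by field_simp
    rw [← hC1, mul_add, h6]
    linarith
  have h7 : |psi ((k : ℝ) / n) (z / √n) - psi (((k + l : ℕ) : ℝ) / n) (z / √n)| ≤ 8 / c' ^ 2 * r := by
    have ht2 : c' ≤ ((k + l : ℕ) : ℝ) / n := by
      rw [le_div_iff₀ hnpos]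
      push_cast
      have : (0 : ℝ) ≤ l := Nat.cast_nonneg l
      linarith
    refine (psi_time hc'0 hc'1 ht2 ht _).trans ?_
    have h8 : |(k : ℝ) / n - ((k + l : ℕ) : ℝ) / n| = l / n := by
      rw [← sub_div]
      push_cast
      rw [show (k : ℝ) - (k + l) = -l by ring, neg_div, abs_neg, abs_of_nonneg (by positivity)]
    rw [h8]
    have : (l : ℝ) / n ≤ r := by
      rw [div_le_iff₀ hnpos]; exact hlr
    gcongr
  have hB0 : 0 ≤ B := hc₀.le.trans hBl
  have h9 : |B * psi ((k : ℝ) / n) (z / √n) - B * psi (((k + l : ℕ) : ℝ) / n) (z / √n)| ≤ ε / 4 := by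
    rw [← mul_sub, abs_mul, abs_of_nonneg hB0]
    calc B * |psi ((k : ℝ) / n) (z / √n) - psi (((k + l : ℕ) : ℝ) / n) (z / √n)|
        ≤ C₀ * (8 / c' ^ 2 * r) := by gcongr
      _ ≤ C₀ * (8 / c' ^ 2 * (ε / (4 * C₀ * (8 / c' ^ 2)))) := by gcongr
      _ = ε / 4 := by field_simp
  have h10 := h2.trans h3
  have a1 := abs_le.1 h1
  have a2 := abs_le.1 h10
  have a3 := abs_le.1 h9
  rw [abs_le]
  constructor <;> linarith [a1.1, a1.2, a2.1, a2.2, a3.1, a3.2]

end Pool.Agent.BPT
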