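import Pool.Agent.MP_99a865_pr.FV.D2a
import Pool.Agent.MP_99a865_pr.FV.A7

open MeasureTheory ProbabilityTheory Filter Topology
open scoped ENNReal NNReal

namespace Pool.Agent.BPT

variable {D : Set ℝ} {ρ : Measure ℝ}

/-- reversal of the first `l` steps, and change of sign -/
def D2l_R (l : ℕ) (ω : ℕ → ℝ) : ℕ → ℝ := fun i => -(if i < l then ω (l - 1 - i) else ω i)

theorem D2l_meas_rev (l : ℕ) :
    Measurable fun (ω : ℕ → ℝ) (i : ℕ) => if i < l then ω (l - 1 - i) else ω i := by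
  refine measurable_pi_lambda _ fun i => ?_
  by_cases h : i < l
  · simp only [h, if_true]
    exact measurable_pi_apply _
  · simp only [h, if_false]
    exact measurable_pi_apply _

theorem D2l_meas_neg : Measurable fun (ω : ℕ → ℝ) (i : ℕ) => -(ω i) :=
  measurable_pi_lambda _ fun i => (measurable_pi_apply i).neg

theorem D2l_meas (l : ℕ) : Measurable (D2l_R l) := D2l_meas_neg.comp (D2l_meas_rev l)

theorem D2l_map [IsProbabilityMeasure ρ] (l : ℕ) : (seqLaw ρ).map (D2l_R l) = seqLaw (dual ρ) := by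
  have h1 := map_seqLaw ρ (fun x : ℝ => -x) measurable_neg
  have h2 := map_rev ρ l
  have h3 : (seqLaw ρ).map (D2l_R l) = ((seqLaw ρ).map
      (fun ω i => if i < l then ω (l - 1 - i) else ω i)).map (fun ω i => -(ω i)) := by
    rw [Measure.map_map D2l_meas_neg (D2l_meas_rev l)]
    rfl
  rw [h3, h2, h1]
  rfl

theorem D2l_S (l : ℕ) (ω : ℕ → ℝ) : ∀ j ≤ l, S j (D2l_R l ω) = S (l - j) ω - S l ω := by
  intro j
  induction j with
  | zero => intro _; simp [S]
  | succ j ih =>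
    intro hj
    have h1 := ih (by omega)
    have h2 : S (j + 1) (D2l_R l ω) = S j (D2l_R l ω) + D2l_R l ω j := by
      simp only [S]; exact Finset.sum_range_succ _ _
    have h3 : S (l - j) ω = S (l - (j + 1)) ω + ω (l - (j + 1)) := by
      rw [show l - j = (l - (j + 1)) + 1 by omega]
      simp only [S]; exact Finset.sum_range_succ _ _
    have h4 : D2l_R l ω j = -ω (l - (j + 1)) := by
      unfold D2l_R
      rw [if_pos (by omega), show l - 1 - j = l - (j + 1) by omega]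
    rw [h2, h1, h3, h4]
    ring

theorem D2l_alive {l : ℕ} {L : ℝ} (hL : 0 ≤ L) {ω : ℕ → ℝ} (h : L < -S l ω - mx l ω) :
    Alive (Set.Ici 0) 0 l (D2l_R l ω) := by
  intro j hj1 hj2
  have h1 : -S (l - j) ω ≤ mx l ω := le_ciSup (D2a_bdd l ω) (⟨l - j, by omega⟩ : Fin l)
  rw [D2l_S l ω j hj2, Set.mem_Ici]
  linarith

theorem D2l_first {l : ℕ} (hl : 1 ≤ l) {ω : ℕ → ℝ} :
    -S l ω - mx l ω ≤ S 1 (D2l_R l ω) := by
  have h1 : -S (l - 1) ω ≤ mx l ω := le_ciSup (D2a_bdd l ω) (⟨l - 1, by omega⟩ : Fin l)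
  rw [D2l_S l ω 1 hl]
  linarith

theorem D2l_surv (hρ : Std ρ) : ∃ C > (0 : ℝ), ∀ l : ℕ, 1 ≤ l → ∀ y : ℝ, 0 ≤ y →
    kap (Set.Ici 0) ρ (l - 1) y Set.univ ≤ ENNReal.ofReal (C * (1 + y) / √l) := by
  have := hρ.prob
  obtain ⟨C, hC, hs⟩ := surv (D := Set.Ici 0) (Or.inl rfl) hρ
  refine ⟨max 1 (2 * C), lt_of_lt_of_le one_pos (le_max_left _ _), fun l hl y hy => ?_⟩
  rcases Nat.lt_or_ge l 2 with h | h
  · have h1 : l = 1 := by omega
    subst h1
    refine (kap_univ_le_one _ _).trans ?_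
    rw [← ENNReal.ofReal_one]
    apply ENNReal.ofReal_le_ofReal
    rw [Nat.cast_one, Real.sqrt_one, div_one]
    have := le_max_left (1 : ℝ) (2 * C)
    nlinarith
  · have h1 := hs (l - 1) (by omega) y hy
    rw [measureReal_def] at h1
    rw [← ENNReal.ofReal_toReal (measure_ne_top (kap (Set.Ici 0) ρ (l - 1) y) Set.univ)]
    apply ENNReal.ofReal_le_ofReal
    refine h1.trans ?_
    have hl1 : (0 : ℝ) < √((l - 1 : ℕ) : ℝ) := Real.sqrt_pos.2 (by exact_mod_cast (by omega : 0 < l - 1))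
    have hl2 : (0 : ℝ) < √(l : ℝ) := Real.sqrt_pos.2 (by exact_mod_cast (by omega : 0 < l))
    have h3 : √(l : ℝ) ≤ 2 * √((l - 1 : ℕ) : ℝ) := by
      rw [Real.sqrt_le_left (by positivity), mul_pow, Real.sq_sqrt (by positivity)]
      have : (l : ℝ) ≤ 2 * ((l - 1 : ℕ) : ℝ) := by exact_mod_cast (by omega : l ≤ 2 * (l - 1))
      have h0 : (0 : ℝ) ≤ ((l - 1 : ℕ) : ℝ) := by positivity
      linarith
    rw [div_le_div_iff₀ hl1 hl2]
    calc C * (1 + y) * √(l : ℝ) ≤ C * (1 + y) * (2 * √((l - 1 : ℕ) : ℝ)) := by gcongr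
      _ = (2 * C) * (1 + y) * √((l - 1 : ℕ) : ℝ) := by ring
      _ ≤ max 1 (2 * C) * (1 + y) * √((l - 1 : ℕ) : ℝ) := by
          gcongr
          exact le_max_right _ _

theorem D2l_tail (hρ : Std ρ) : Tendsto (fun n : ℕ => ∫⁻ y in Set.Ioi (n : ℝ),
    ENNReal.ofReal ((1 + y) ^ 2) ∂ρ) atTop (𝓝 0) := by
  have := hρ.prob
  apply tendsto_setLIntegral_zero
  · have h1 : Integrable (fun y : ℝ => (1 + y) ^ 2) ρ := by
      have hid : Integrable (fun y : ℝ => y) ρ := by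
        have h2 : MemLp (fun y : ℝ => y) 2 ρ :=
          (memLp_two_iff_integrable_sq measurable_id.aestronglyMeasurable).2 hρ.int2
        exact h2.integrable (by norm_num)
      have h3 : (fun y : ℝ => (1 + y) ^ 2) = fun y => 1 + 2 * y + y ^ 2 := by
        funext y; ring
      rw [h3]
      exact ((integrable_const _).add (hid.const_mul 2)).add hρ.int2
    have h4 := h1.2
    rw [hasFiniteIntegral_iff_ofReal (Eventually.of_forall fun y => by positivity)] at h4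
    exact h4.ne
  · have h2 : (⋂ n : ℕ, Set.Ioi (n : ℝ)) = ∅ := by
      ext x
      simp only [Set.mem_iInter, Set.mem_Ioi, Set.mem_empty_iff_false, iff_false, not_forall, not_lt]
      obtain ⟨n, hn⟩ := exists_nat_ge x
      exact ⟨n, hn⟩
    have h3 := tendsto_measure_iInter_atTop (μ := ρ) (s := fun n : ℕ => Set.Ioi (n : ℝ))
      (fun n => measurableSet_Ioi.nullMeasurableSet)
      (fun m n hmn => Set.Ioi_subset_Ioi (by exact_mod_cast hmn)) ⟨0, measure_ne_top _ _⟩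
    rw [h2, measure_empty] at h3
    exact h3

/-- **[FV-D2a]** Lengths of the intervals. `len = -S_l - mx l` is positive iff time `l` is a new strict
minimum. PROOF. Let `A ≥ 0`. Reverse the first `l` steps (`map_rev`, and the dual walk): with
`Ŝ_j = -(S_l - S_{l-j})`, `-S_l - mx l = min_{1≤j≤l} Ŝ_j`, where `Ŝ` has the law of the dual walk. So
`max(0, -S_l - mx l - A) = vol {x ∈ (-∞, -A) | x + Ŝ_j ≥ 0 for 1 ≤ j ≤ l}` (up to the sign of the end
points) and, with `D' = Ici 0` and one step of the dual walk from `x` to `x + y`,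
`∫ max(0, len - A) = ∫_{x<-A} ∫_{y ≥ -x} (kap D' (dual ρ) (l-1) (x+y)).real univ ∂(dual ρ)(y) dx
≤ ∫ (dual ρ)(dy) ∫_{A<s≤y} min(1, C (1 + y - s)/√(l-1)) ds ≤ (C'/√l) ∫_{y > A} (1+y)² ∂(dual ρ)(y)`.
Then `(len + 1) 1(len > 2A + 1) ≤ 2 max(0, len - A) + …`: for `len > L := 2A + 2`, `len + 1 ≤ 3 (len - A)`.
And `P(len > 0) ≤ P(Ŝ_j > 0, 1 ≤ j ≤ l) ≤ (kap (Ici 0) (dual ρ) l 0).real univ ≤ C/√l`. -/
theorem long_JJ (hρ : Std ρ) : ∀ ε > (0 : ℝ), ∃ L > (0 : ℝ), ∀ l : ℕ, 1 ≤ l →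
    ∫⁻ ω in {ω | L < -S l ω - mx l ω}, ENNReal.ofReal (-S l ω - mx l ω + 1) ∂(seqLaw ρ) ≤
      ENNReal.ofReal (ε / √l) := by
  have hp := hρ.prob
  have hd := hρ.dual
  have hp' := hd.prob
  intro ε hε
  obtain ⟨C, hC, hs⟩ := D2l_surv hd
  have hDm : Dom (Set.Ici (0 : ℝ)) := Or.inl rfl
  obtain ⟨n, hn⟩ : ∃ n : ℕ, ∫⁻ y in Set.Ioi (n : ℝ), ENNReal.ofReal ((1 + y) ^ 2) ∂(dual ρ) ≤
      ENNReal.ofReal (ε / C) := by
    have h1 := (D2l_tail hd).eventually (gt_mem_nhds (ENNReal.ofReal_pos.2 (div_pos hε hC)))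
    obtain ⟨n, hn⟩ := h1.exists
    exact ⟨n, hn.le⟩
  refine ⟨(n : ℝ) + 1, by positivity, fun l hl => ?_⟩
  have hL : (0 : ℝ) ≤ (n : ℝ) + 1 := by positivity
  let F : ℝ → ℝ≥0∞ := (Set.Ioi ((n : ℝ) + 1)).indicator fun w => ENNReal.ofReal (w + 1)
  have hF : Measurable F := (ENNReal.measurable_ofReal.comp (measurable_id.add_const 1)).indicator
    measurableSet_Ioi
  have hlm : 1 + (l - 1) = l := by omega
  have hAm := measurableSet_alive hDm 0 l
  -- pointwise bound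
  have step1 : ∫⁻ ω in {ω | (n : ℝ) + 1 < -S l ω - mx l ω},
      ENNReal.ofReal (-S l ω - mx l ω + 1) ∂(seqLaw ρ) ≤
      ∫⁻ ω, {η | Alive (Set.Ici 0) 0 l η}.indicator (fun η => F (0 + S 1 η)) (D2l_R l ω) ∂(seqLaw ρ) := by
    rw [← lintegral_indicator]
    · refine lintegral_mono fun ω => ?_
      by_cases h : (n : ℝ) + 1 < -S l ω - mx l ω
      · rw [Set.indicator_of_mem (show ω ∈ {ω | (n : ℝ) + 1 < -S l ω - mx l ω} from h),
          Set.indicator_of_mem (show D2l_R l ω ∈ {η | Alive (Set.Ici 0) 0 l η} from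
            D2l_alive hL h)]
        have h2 := D2l_first (ω := ω) hl
        rw [zero_add]
        change _ ≤ (Set.Ioi ((n : ℝ) + 1)).indicator (fun w => ENNReal.ofReal (w + 1)) _
        rw [Set.indicator_of_mem (show S 1 (D2l_R l ω) ∈ Set.Ioi ((n : ℝ) + 1) from
          lt_of_lt_of_le h h2)]
        exact ENNReal.ofReal_le_ofReal (by linarith)
      · rw [Set.indicator_of_notMem (show ω ∉ {ω | (n : ℝ) + 1 < -S l ω - mx l ω} from h)]
        exact zero_le
    · exact measurableSet_lt measurable_const ((measurable_S l).neg.sub (measurable_mx l))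
  have step2 : ∫⁻ ω, {η | Alive (Set.Ici 0) 0 l η}.indicator (fun η => F (0 + S 1 η)) (D2l_R l ω)
      ∂(seqLaw ρ) = ∫⁻ η in {η | Alive (Set.Ici 0) 0 l η}, F (0 + S 1 η) ∂(seqLaw (dual ρ)) := by
    rw [← D2l_map l, ← lintegral_indicator hAm, lintegral_map _ (D2l_meas l)]
    exact (hF.comp (measurable_const.add (measurable_S 1))).indicator hAm
  have step3 : ∫⁻ η in {η | Alive (Set.Ici 0) 0 l η}, F (0 + S 1 η) ∂(seqLaw (dual ρ)) =
      ∫⁻ y, F y * kap (Set.Ici 0) (dual ρ) (l - 1) y Set.univ ∂(kap (Set.Ici 0) (dual ρ) 1 0) := by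
    have h1 := lintegral_kap_add' (ρ := dual ρ) hDm 1 (l - 1) 0 F (fun _ _ => 1) hF measurable_const
    rw [hlm] at h1
    simp only [mul_one, lintegral_const, one_mul] at h1
    exact h1
  have hKm : Measurable fun y => kap (Set.Ici 0) (dual ρ) (l - 1) y Set.univ :=
    (Measure.measurable_coe MeasurableSet.univ).comp (measurable_kap hDm (l - 1))
  have step4 : ∫⁻ y, F y * kap (Set.Ici 0) (dual ρ) (l - 1) y Set.univ
      ∂(kap (Set.Ici 0) (dual ρ) 1 0) ≤
      ∫⁻ y in Set.Ioi (n : ℝ), ENNReal.ofReal (C / √l) * ENNReal.ofReal ((1 + y) ^ 2) ∂(dual ρ) := by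
    rw [lintegral_kap_one hDm 0 (fun y => F y * kap (Set.Ici 0) (dual ρ) (l - 1) y Set.univ)
      (hF.mul hKm), ← lintegral_indicator measurableSet_Ioi]
    refine (setLIntegral_le_lintegral _ _).trans (lintegral_mono fun y => ?_)
    rw [zero_add]
    by_cases h : (n : ℝ) + 1 < y
    · have hy0 : 0 ≤ y := hL.trans h.le
      change (Set.Ioi ((n : ℝ) + 1)).indicator (fun w => ENNReal.ofReal (w + 1)) y * _ ≤ _
      rw [Set.indicator_of_mem (show y ∈ Set.Ioi ((n : ℝ) + 1) from h),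
        Set.indicator_of_mem (show y ∈ Set.Ioi (n : ℝ) from by
          rw [Set.mem_Ioi]; linarith)]
      refine (mul_le_mul_right (hs l hl y hy0) _).trans ?_
      rw [← ENNReal.ofReal_mul (by linarith), ← ENNReal.ofReal_mul (by positivity)]
      apply ENNReal.ofReal_le_ofReal
      apply le_of_eq
      ring
    · change (Set.Ioi ((n : ℝ) + 1)).indicator (fun w => ENNReal.ofReal (w + 1)) y * _ ≤ _
      rw [Set.indicator_of_notMem (show y ∉ Set.Ioi ((n : ℝ) + 1) from h), zero_mul]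
      exact zero_le
  refine step1.trans (step2.le.trans (step3.le.trans (step4.trans ?_)))
  rw [lintegral_const_mul _ (by fun_prop)]
  refine (mul_le_mul_right hn _).trans ?_
  rw [← ENNReal.ofReal_mul (by positivity)]
  apply ENNReal.ofReal_le_ofReal
  apply le_of_eq
  field_simp

theorem prob_JJ (hρ : Std ρ) : ∃ C > (0 : ℝ), ∀ l : ℕ, 1 ≤ l →
    (seqLaw ρ).real {ω | 0 < -S l ω - mx l ω} ≤ C / √l := by
  have hp := hρ.prob
  have hd := hρ.dual
  have hp' := hd.prob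
  have hDm : Dom (Set.Ici (0 : ℝ)) := Or.inl rfl
  obtain ⟨C, hC, hs⟩ := surv (D := Set.Ici 0) hDm hd
  refine ⟨C, hC, fun l hl => ?_⟩
  have h1 := hs l hl 0 le_rfl
  rw [add_zero, mul_one] at h1
  refine le_trans ?_ h1
  rw [measureReal_def, measureReal_def]
  refine ENNReal.toReal_mono (measure_ne_top _ _) ?_
  rw [kap_univ_eq hDm, ← D2l_map l, Measure.map_apply (D2l_meas l) (measurableSet_alive hDm 0 l)]
  exact measure_mono fun ω hω => D2l_alive le_rfl hω

end Pool.Agent.BPT
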