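import Mathlib

/-!
# Busy-period trees: finite variance. Definitions.

`D` is always the set of allowed positions: `Ici 0` (an arrival at the very instant of a service
completion counts as being before it) or `Ioi 0` (it counts as being after it).
-/

open MeasureTheory ProbabilityTheory Filter Topology
open scoped ENNReal NNReal

namespace Pool.Agent.BPT

/-! ## walks -/

/-- The two kinds of allowed half-lines. -/
def Dom (D : Set ℝ) : Prop := D = Set.Ici 0 ∨ D = Set.Ioi 0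

/-- The law of an i.i.d. sequence with common law `π`. -/
noncomputable def seqLaw {E : Type} [MeasurableSpace E] (π : Measure E) : Measure (ℕ → E) :=
  Measure.infinitePi fun _ : ℕ => π

/-- The shift. -/
def shift {E : Type} (k : ℕ) (ω : ℕ → E) : ℕ → E := fun i => ω (k + i)

/-- Partial sums. -/
noncomputable def S (k : ℕ) (ω : ℕ → ℝ) : ℝ := ∑ i ∈ Finset.range k, ω i

/-- The walk started at `x` is in `D` at the times `1, …, k`. -/
def Alive (D : Set ℝ) (x : ℝ) (k : ℕ) (ω : ℕ → ℝ) : Prop := ∀ j, 1 ≤ j → j ≤ k → x + S j ω ∈ D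

/-- Law of the position at time `k` of the walk started at `x`. -/
noncomputable def fre (ρ : Measure ℝ) (k : ℕ) (x : ℝ) : Measure ℝ :=
  (seqLaw ρ).map fun ω => x + S k ω

/-- The same for the walk killed on leaving `D` (a measure of mass at most one). -/
noncomputable def kap (D : Set ℝ) (ρ : Measure ℝ) (k : ℕ) (x : ℝ) : Measure ℝ :=
  ((seqLaw ρ).restrict {ω | Alive D x k ω}).map fun ω => x + S k ω

/-- `P_x(N = m)`: the first time at which the walk is outside `D` is `m` (`m ≥ 1`). -/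
noncomputable def hit (D : Set ℝ) (ρ : Measure ℝ) (m : ℕ) (x : ℝ) : ℝ :=
  (seqLaw ρ).real {ω | 1 ≤ m ∧ Alive D x (m - 1) ω ∧ x + S m ω ∉ D}

/-- One-step exit probability. -/
noncomputable def ex (D : Set ℝ) (ρ : Measure ℝ) (w : ℝ) : ℝ≥0∞ := ρ {y | w + y ∉ D}

/-- `E_x[S_k; N > k]`. -/
noncomputable def ee (D : Set ℝ) (ρ : Measure ℝ) (k : ℕ) (x : ℝ) : ℝ≥0∞ :=
  ∫⁻ y, ENNReal.ofReal y ∂(kap D ρ k x)

/-- The reflected law. -/
noncomputable def dual (ρ : Measure ℝ) : Measure ℝ := ρ.map fun x => -x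

/-- Probability law with mean zero and variance one. -/
structure Std (ρ : Measure ℝ) : Prop where
  prob : IsProbabilityMeasure ρ
  int2 : Integrable (fun x : ℝ => x ^ 2) ρ
  mean : ∫ x, x ∂ρ = 0
  var : ∫ x, x ^ 2 ∂ρ = 1

/-- `[u, w)` if `D = Ici 0` and `(u, w]` if `D = Ioi 0`. -/
def IV (D : Set ℝ) (u w : ℝ) : Set ℝ := {y | y - u ∈ D ∧ y - w ∉ D}

/-- Lebesgue measure if `h = 0`; `h` times counting measure on `c + hℤ` otherwise. -/
noncomputable def lam (h c : ℝ) : Measure ℝ :=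
  if h = 0 then volume else ENNReal.ofReal h • Measure.sum fun j : ℤ => Measure.dirac (c + h * j)

/-- `z ∈ c + hℤ` (no condition if `h = 0`). -/
def Cos (h c z : ℝ) : Prop := h ≠ 0 → ∃ j : ℤ, z = c + h * j

/-- The local limit property with step lattice `a + hℤ` (`h = 0`: non-lattice). -/
structure Lat (ρ : Measure ℝ) (a h : ℝ) : Prop where
  nonneg : 0 ≤ h
  step : ∀ᵐ x ∂ρ, Cos h a x
  llt : ∀ D, Dom D → ∀ L > (0 : ℝ), ∀ ε > (0 : ℝ), ∃ K : ℕ, ∀ k ≥ K, ∀ x u w : ℝ, u ≤ w → w ≤ u + L →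
    |√k * (fre ρ k x).real (IV D u w) -
      (lam h (x + k * a)).real (IV D u w) * (Real.exp (-((u - x) / √k) ^ 2 / 2) / √(2 * Real.pi))| ≤ ε

/-- Bounded by `M` and `M`-Lipschitz. -/
structure BL (M : ℝ) (f : ℝ → ℝ) : Prop where
  bd : ∀ x, |f x| ≤ M
  lip : ∀ x y, |f x - f y| ≤ M * |x - y|

/-! ## Brownian kernels -/

/-- Centred gaussian density of variance `t`. -/
noncomputable def gau (t x : ℝ) : ℝ := Real.exp (-x ^ 2 / (2 * t)) / √(2 * Real.pi * t)

/-- Transition density of Brownian motion killed at zero. -/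
noncomputable def qq (t x y : ℝ) : ℝ := gau t (y - x) - gau t (y + x)

/-- Density of the hitting time of zero (up to the factor 1/2): `∂_y q_t(x, y)` at `y = 0`. -/
noncomputable def psi (t x : ℝ) : ℝ := 2 * x / t * gau t x

/-- Killed heat semigroup. -/
noncomputable def AA (t : ℝ) (f : ℝ → ℝ) (x : ℝ) : ℝ := ∫ y in Set.Ioi (0 : ℝ), qq t x y * f y

/-- Derivative at zero of `AA t f`. -/
noncomputable def DD (t : ℝ) (f : ℝ → ℝ) : ℝ := ∫ y in Set.Ioi (0 : ℝ), psi t y * f y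

/-! ## finite-dimensional distributions -/

/-- `E_x[f₁(S_{k₁}/s) f₂(S_{k₁+k₂}/s) ⋯ g(S_{k₁+⋯+k_K}/s); N > k₁+⋯+k_K]`. -/
noncomputable def IQ (D : Set ℝ) (ρ : Measure ℝ) (s : ℝ) : List (ℕ × (ℝ → ℝ)) → (ℝ → ℝ) → ℝ → ℝ
  | [], g => g
  | (k, f) :: l, g => fun x => ∫ y, f (y / s) * IQ D ρ s l g y ∂(kap D ρ k x)

/-- The Brownian analogue (scaled by nothing). -/
noncomputable def IA : List (ℝ × (ℝ → ℝ)) → (ℝ → ℝ) → ℝ → ℝ
  | [], g => g
  | (t, f) :: l, g => AA t fun y => f y * IA l g y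

/-! ## the queue -/

/-- Arrival time of the customer with label `k` (customer `k + 1` of the problem). -/
noncomputable def Ar (k : ℕ) (ω : ℕ → ℝ × ℝ) : ℝ := ∑ i ∈ Finset.range k, (ω i).1

/-- Total service time of the first `k` customers. -/
noncomputable def Dp (k : ℕ) (ω : ℕ → ℝ × ℝ) : ℝ := ∑ i ∈ Finset.range k, (ω i).2

/-- The random walk of the queue. -/
noncomputable def Zw (k : ℕ) (ω : ℕ → ℝ × ℝ) : ℝ := Dp k ω - Ar k ω

/-- Standard assumptions: nonnegative times with mean one, finite variances with sum `σ² > 0`. -/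
structure QStd (μ ν : Measure ℝ) (σ : ℝ) : Prop where
  probμ : IsProbabilityMeasure μ
  probν : IsProbabilityMeasure ν
  nonnegμ : μ (Set.Iio 0) = 0
  nonnegν : ν (Set.Iio 0) = 0
  int2μ : Integrable (fun x : ℝ => x ^ 2) μ
  int2ν : Integrable (fun x : ℝ => x ^ 2) ν
  meanμ : ∫ x, x ∂μ = 1
  meanν : ∫ x, x ∂ν = 1
  pos : 0 < σ
  var : σ ^ 2 = ∫ x, (x - 1) ^ 2 ∂μ + ∫ x, (x - 1) ^ 2 ∂ν

/-- The law of the pairs (interarrival time, service time). -/
noncomputable def PQ (μ ν : Measure ℝ) : Measure (ℕ → ℝ × ℝ) := seqLaw (μ.prod ν)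

/-- The normalised step law. -/
noncomputable def stepLaw (μ ν : Measure ℝ) (σ : ℝ) : Measure ℝ :=
  (μ.prod ν).map fun p => (p.2 - p.1) / σ

/-- The normalised walk of a queue. -/
noncomputable def nz (σ : ℝ) (k : ℕ) (ω : ℕ → ℝ × ℝ) : ℝ := Zw k ω / σ

/-- The queue is busy at the service completions `1, …, k`. -/
def AliveQ (D : Set ℝ) (k : ℕ) (ω : ℕ → ℝ × ℝ) : Prop := ∀ j, 1 ≤ j → j ≤ k → Zw j ω ∈ D

/-- The event `N = n`. -/
def EvN (D : Set ℝ) (n : ℕ) : Set (ℕ → ℝ × ℝ) := {ω | 1 ≤ n ∧ AliveQ D (n - 1) ω ∧ Zw n ω ∉ D}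

/-- `b` is a boundary between two generations: `b` customers have generation `≤ j` for some `j`. -/
inductive Bd (D : Set ℝ) (ω : ℕ → ℝ × ℝ) : ℕ → Prop
  | one : Bd D ω 1
  | step (b' b : ℕ) (hb' : Bd D ω b') (hlt : b' < b) (h1 : Dp b' ω - Ar (b - 1) ω ∈ D)
      (h2 : Dp b' ω - Ar b ω ∉ D) : Bd D ω b

instance {E : Type} [MeasurableSpace E] (π : Measure E) [IsProbabilityMeasure π] :
    IsProbabilityMeasure (seqLaw π) := by
  unfold seqLaw; infer_instance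

instance (μ ν : Measure ℝ) [IsProbabilityMeasure μ] [IsProbabilityMeasure ν] :
    IsProbabilityMeasure (PQ μ ν) := by
  unfold PQ; infer_instance

/-- Expected overshoot up to time `k`. -/
noncomputable def oo (D : Set ℝ) (ρ : Measure ℝ) (k : ℕ) (x : ℝ) : ℝ≥0∞ :=
  ∑ i ∈ Finset.range k, ∫⁻ w, ∫⁻ y, ENNReal.ofReal (-(w + y)) ∂ρ ∂(kap D ρ i x)

/-- Odd extension. -/
noncomputable def refl (f : ℝ → ℝ) (x : ℝ) : ℝ := if 0 ≤ x then f x else -f (-x)

/-- `max_{0 ≤ j < l} (-S_j)` -/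
noncomputable def mx (l : ℕ) (ω : ℕ → ℝ) : ℝ := ⨆ j : Fin l, -S j ω

/-- The set of heights from which the increments `ω` lead out of `D` exactly at time `l`. -/
def JJ (D : Set ℝ) (l : ℕ) (ω : ℕ → ℝ) : Set ℝ := IV D (mx l ω) (-S l ω)

/-- `∫_D y hit_l(y) d(lam h c)`: the quantity which governs `P_z(N = m)`. -/
noncomputable def BB (D : Set ℝ) (ρ : Measure ℝ) (h c : ℝ) (l : ℕ) : ℝ≥0∞ :=
  ∫⁻ y in D, ENNReal.ofReal y * ENNReal.ofReal (hit D ρ l y) ∂(lam h c)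

/-- Relation between a list of increments of integer times and a list of increments of `[0,1]`-times. -/
def Match (n : ℕ) (l : List (ℕ × (ℝ → ℝ))) (ts : List (ℝ × (ℝ → ℝ))) : Prop :=
  List.Forall₂ (fun p q => p.2 = q.2 ∧ |(p.1 : ℝ) - q.1 * n| ≤ 2) l ts

/-- total time -/
def tot (l : List (ℕ × (ℝ → ℝ))) : ℕ := (l.map Prod.fst).sum

/-- admissible data: increments positive, total `< 1`, bounded Lipschitz functions -/
def Adm (ts : List (ℝ × (ℝ → ℝ))) : Prop :=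
  (∀ p ∈ ts, 0 < p.1) ∧ (ts.map Prod.fst).sum < 1 ∧ ∃ M > (0 : ℝ), ∀ p ∈ ts, BL M p.2

/-- The Brownian value (unnormalised): for `ts = (t₁, f₁) :: l` it is
`DD t₁ (f₁ · IA l (psi (1 - T)))`. -/
noncomputable def val : List (ℝ × (ℝ → ℝ)) → ℝ
  | [] => 0
  | (t, f) :: l => DD t fun y => f y * IA l (psi (1 - (t + (l.map Prod.fst).sum))) y

/-- the same with all functions equal to one -/
noncomputable def val1 (ts : List (ℝ × (ℝ → ℝ))) : ℝ := val (ts.map fun p => (p.1, fun _ => 1))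

/-- the steps of the normalised walk -/
noncomputable def steps (σ : ℝ) (ω : ℕ → ℝ × ℝ) : ℕ → ℝ := fun i => ((ω i).2 - (ω i).1) / σ

/-- all times nonnegative -/
def NN (ω : ℕ → ℝ × ℝ) : Prop := ∀ k, 0 ≤ (ω k).1 ∧ 0 ≤ (ω k).2

/-- `b'` is the boundary following `b` -/
def Nxt (D : Set ℝ) (ω : ℕ → ℝ × ℝ) (b b' : ℕ) : Prop :=
  Bd D ω b ∧ Bd D ω b' ∧ b < b' ∧ ∀ c, b < c → c < b' → ¬ Bd D ω c

open Classical in
/-- boundaries in `[i, i')` -/
noncomputable def cB (D : Set ℝ) (i i' : ℕ) (ω : ℕ → ℝ × ℝ) : ℕ :=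
  ((Finset.Ico i i').filter fun b => Bd D ω b).card

open Classical in
/-- number of times `i < n` at which the normalised walk is below `y` -/
noncomputable def cOcc (σ : ℝ) (n : ℕ) (y : ℝ) (ω : ℕ → ℝ × ℝ) : ℕ :=
  ((Finset.range n).filter fun i => nz σ i ω < y).card

open Classical in
/-- number of boundaries `b < n` with `z ≤ nz b < z'` -/
noncomputable def cBw (D : Set ℝ) (σ : ℝ) (n : ℕ) (z z' : ℝ) (ω : ℕ → ℝ × ℝ) : ℕ :=
  ((Finset.range n).filter fun b => Bd D ω b ∧ z ≤ nz σ b ω ∧ nz σ b ω < z').card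

/-- bad windows of length `w`: the total service time is at least `4w` or the walk moves by `z/4` -/
def BW (σ : ℝ) (w : ℕ) (z : ℝ) : Set (ℕ → ℝ × ℝ) :=
  {η | 4 * (w : ℝ) ≤ Dp w η ∨ ∃ j ≤ w, z / 4 ≤ |nz σ j η|}

open Classical in
/-- number of boundaries `b < n` with `nz b < y` -/
noncomputable def cBl (D : Set ℝ) (σ : ℝ) (n : ℕ) (y : ℝ) (ω : ℕ → ℝ × ℝ) : ℕ :=
  ((Finset.range n).filter fun b => Bd D ω b ∧ nz σ b ω < y).card

open Classical in
/-- number of boundaries `b < n` near the two ends -/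
noncomputable def cBe (D : Set ℝ) (δ : ℝ) (n : ℕ) (ω : ℕ → ℝ × ℝ) : ℕ :=
  ((Finset.range n).filter fun b => Bd D ω b ∧ ((b : ℝ) ≤ δ * n ∨ (1 - δ) * n ≤ b)).card

/-- The grid: `gi n δ K j = ⌊(δ + jκ) n⌋`, `κ = (1-2δ)/K`. -/
noncomputable def gi (n : ℕ) (δ : ℝ) (K j : ℕ) : ℕ := ⌊(δ + j * ((1 - 2 * δ) / K)) * n⌋₊

/-- Good windows: in each window the walk and the arrival process deviate by at most `ε√n`. -/
def Gd (σ δ ε : ℝ) (K n : ℕ) (ω : ℕ → ℝ × ℝ) : Prop :=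
  ∀ j ≤ K, ∀ i, gi n δ K j ≤ i → i ≤ gi n δ K (j + 1) →
    |nz σ i ω - nz σ (gi n δ K j) ω| ≤ ε * √n ∧
    |Ar i ω - Ar (gi n δ K j) ω - ((i : ℝ) - gi n δ K j)| ≤ ε * √n

open Classical in
/-- number of boundaries `< n` (the height) -/
noncomputable def HB (D : Set ℝ) (n : ℕ) (ω : ℕ → ℝ × ℝ) : ℕ :=
  ((Finset.range n).filter fun b => Bd D ω b).card

open Classical in
/-- `∑ (n - b)` over the boundaries `b < n` (the total height) -/
noncomputable def TB (D : Set ℝ) (n : ℕ) (ω : ℕ → ℝ × ℝ) : ℕ :=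
  ∑ b ∈ (Finset.range n).filter (fun b => Bd D ω b), (n - b)

/-- `ψ(1)`-weighted grid sum `∑_{j<K} κ c_j / max (nz_{g_j}/√n) (2η)` -/
noncomputable def YG (σ δ η : ℝ) (K n : ℕ) (c : ℕ → ℝ) (ω : ℕ → ℝ × ℝ) : ℝ :=
  ∑ j ∈ Finset.range K, (1 - 2 * δ) / K * c j / max (nz σ (gi n δ K j) ω / √n) (2 * η)

/-- weights for the total height -/
noncomputable def cT (δ : ℝ) (K j : ℕ) : ℝ := 1 - δ - j * ((1 - 2 * δ) / K)

/-- `W` is the largest gap between consecutive boundaries up to `n` (or one) -/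
def IsW (D : Set ℝ) (n : ℕ) (ω : ℕ → ℝ × ℝ) (W : ℕ) : Prop :=
  1 ≤ W ∧ (∀ b b', Nxt D ω b b' → b' ≤ n → b' - b ≤ W) ∧
    (W = 1 ∨ ∃ b b', Nxt D ω b b' ∧ b' ≤ n ∧ b' - b = W)

/-- maximum of the normalised walk before time `n` -/
noncomputable def Mx (σ : ℝ) (n : ℕ) (ω : ℕ → ℝ × ℝ) : ℝ := ⨆ i : Fin n, nz σ i ω

/-- maximum over the grid -/
noncomputable def MG (σ δ : ℝ) (K n : ℕ) (ω : ℕ → ℝ × ℝ) : ℝ := ⨆ j : Fin K, nz σ (gi n δ K j) ω

/-- area under the normalised walk up to time `n` -/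
noncomputable def Area (σ : ℝ) (n : ℕ) (ω : ℕ → ℝ × ℝ) : ℝ := ∑ i ∈ Finset.range n, nz σ i ω

/-- grid sum for the area, truncated at `R` -/
noncomputable def YA (σ δ R : ℝ) (K n : ℕ) (ω : ℕ → ℝ × ℝ) : ℝ :=
  ∑ j ∈ Finset.range K, (1 - 2 * δ) / K * min (nz σ (gi n δ K j) ω / √n) R

/-- conditional expectation given `N = n` -/
noncomputable def EN (D : Set ℝ) (μ ν : Measure ℝ) (n : ℕ) (F : (ℕ → ℝ × ℝ) → ℝ) : ℝ :=
  (∫ ω in EvN D n, F ω ∂(PQ μ ν)) / (PQ μ ν).real (EvN D n)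

/-- interarrival times `1/2` or `3/2` with probability `1/2` each, service times `1`: the normalised walk
(`σ = 1/2`) is the simple random walk. -/
noncomputable def muS : Measure ℝ :=
  (1 / 2 : ℝ≥0∞) • Measure.dirac (1 / 2 : ℝ) + (1 / 2 : ℝ≥0∞) • Measure.dirac (3 / 2 : ℝ)

noncomputable def nuS : Measure ℝ := Measure.dirac 1

/-- interarrival times `1`, geometric service times: `P(v = k) = 2^{-k-1}`, `k = 0, 1, …`
(critical geometric Galton–Watson tree, i.e. uniform plane trees). -/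
noncomputable def muG : Measure ℝ := Measure.dirac 1

noncomputable def nuG : Measure ℝ :=
  Measure.sum fun k : ℕ => (ENNReal.ofReal ((1 / 2 : ℝ) ^ (k + 1))) • Measure.dirac (k : ℝ)

/-- the limit distribution function -/
noncomputable def FF (x : ℝ) : ℝ :=
  √2 * Real.pi ^ (5 / 2 : ℝ) / x ^ 3 *
    ∑' k : ℕ, ((k : ℝ) + 1) ^ 2 * Real.exp (-Real.pi ^ 2 * ((k : ℝ) + 1) ^ 2 / (2 * x ^ 2))

/-- Number of `±1` paths of length `m` from `j` to `0` with all positions in `[0, h]` (for `j ≤ h`). -/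
def cw (h : ℕ) : ℕ → ℕ → ℕ
  | 0, j => if j = 0 then 1 else 0
  | m + 1, j => (if 1 ≤ j then cw h m (j - 1) else 0) + (if j + 1 ≤ h then cw h m (j + 1) else 0)

/-- Weights: `q^{ℓ+j}` if `ℓ + j ≤ h`, else 0. -/
noncomputable def wt (q : ℝ) (h ℓ j : ℕ) : ℝ := if ℓ + j ≤ h then q ^ (ℓ + j) else 0

/-- Weighted number of Dyck paths of semilength `m` (weight `w j` for an up-step ending at height `j`). -/
noncomputable def dy : ℕ → (ℕ → ℝ) → ℝ
  | 0, _ => 1
  | m + 1, w => w 1 * ∑ i : Fin (m + 1), dy i (fun j => w (j + 1)) * dy (m - i) w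

/-- Weighted number of plane forests with `z` roots and `n` vertices (weight `w j` for a vertex at
height `j`), according to the number `z'` of vertices of height one. -/
noncomputable def gw : ℕ → ℕ → (ℕ → ℝ) → ℝ
  | 0, z, _ => if z = 0 then 1 else 0
  | n + 1, z, w => if 1 ≤ z ∧ z ≤ n + 1 then
      w 0 ^ z * ∑ z' ∈ Finset.range (n + 2), ((z + z' - 1).choose z' : ℝ) *
        gw (n + 1 - z) z' (fun j => w (j + 1)) else 0
termination_by n _ _ => n
decreasing_by omega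

end Pool.Agent.BPT
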