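import Pool.Agent.MP_99a865_pr.FV.B4d

open MeasureTheory ProbabilityTheory Filter Topology
open scoped ENNReal NNReal

namespace Pool.Agent.BPT

variable {D : Set ℝ} {ρ : Measure ℝ}

theorem E1a_BL_measurable {M : ℝ} {f : ℝ → ℝ} (hf : BL M f) : Measurable f := by
  have hM : 0 ≤ M := (abs_nonneg _).trans (hf.bd 0)
  have h : LipschitzWith (Real.toNNReal M) f := by
    refine LipschitzWith.of_dist_le_mul fun x y => ?_
    rw [Real.dist_eq, Real.dist_eq, Real.coe_toNNReal M hM]
    exact hf.lip x y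
  exact h.continuous.measurable

/-- `IA l g` is bounded, Lipschitz if `l = []` or thanks to the smoothing, for admissible data. -/
theorem IA_BL (ts : List (ℝ × (ℝ → ℝ))) (c M : ℝ) (hc : 0 < c) (hts : ∀ p ∈ ts, c ≤ p.1 ∧ BL M p.2)
    (g : ℝ → ℝ) (hg : BL M g) : ∃ M' > 0, BL M' (IA ts g) := by
  induction ts with
  | nil =>
    refine ⟨max M 1, by positivity, ?_⟩
    refine ⟨fun x => (hg.bd x).trans (le_max_left _ _), fun x y => (hg.lip x y).trans ?_⟩
    exact mul_le_mul_of_nonneg_right (le_max_left _ _) (abs_nonneg _)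
  | cons p l ih =>
    obtain ⟨t, f⟩ := p
    obtain ⟨M', hM', hl⟩ := ih (fun q hq => hts q (List.mem_cons_of_mem _ hq))
    obtain ⟨hct, hf⟩ := hts (t, f) List.mem_cons_self
    have ht : 0 < t := lt_of_lt_of_le hc hct
    have hM : 0 ≤ M := (abs_nonneg _).trans (hf.bd 0)
    have hmf : Measurable f := E1a_BL_measurable hf
    have hml : Measurable (IA l g) := E1a_BL_measurable hl
    have hm : Measurable (fun y => f y * IA l g y) := hmf.mul hml
    have hb : ∀ x, |f x * IA l g x| ≤ M * M' := by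
      intro x
      rw [abs_mul]
      exact mul_le_mul (hf.bd x) (hl.bd x) (abs_nonneg _) hM
    have hMM : 0 ≤ M * M' := mul_nonneg hM hM'.le
    refine ⟨M * M' + M * M' / √t + 1, by positivity, ?_⟩
    refine ⟨fun x => ?_, fun x y => ?_⟩
    · show |AA t (fun y => f y * IA l g y) x| ≤ _
      refine (abs_AA_le ht _ hm (M * M') hb x).1.trans ?_
      have : 0 ≤ M * M' / √t := by positivity
      linarith
    · show |AA t (fun y => f y * IA l g y) x - AA t (fun y => f y * IA l g y) y| ≤ _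
      refine (AA_lip ht _ hm (M * M') hb x y).trans ?_
      have h1 : M * M' * |x - y| / √t = M * M' / √t * |x - y| := by ring
      rw [h1]
      refine mul_le_mul_of_nonneg_right ?_ (abs_nonneg _)
      linarith

/-- data equal to one: positivity, boundedness, measurability -/
theorem E1a_one (l : List (ℝ × (ℝ → ℝ))) (hl : ∀ p ∈ l, 0 < p.1) (g : ℝ → ℝ) (hg : Measurable g)
    (M : ℝ) (hM : ∀ x, |g x| ≤ M) (hpos : ∀ x > 0, 0 < g x) :
    Measurable (IA (l.map fun p => (p.1, fun _ => (1 : ℝ))) g) ∧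
      (∀ x, |IA (l.map fun p => (p.1, fun _ => (1 : ℝ))) g x| ≤ M) ∧
      ∀ x > 0, 0 < IA (l.map fun p => (p.1, fun _ => (1 : ℝ))) g x := by
  induction l with
  | nil => exact ⟨hg, hM, hpos⟩
  | cons p l ih =>
    obtain ⟨h1, h2, h3⟩ := ih (fun q hq => hl q (List.mem_cons_of_mem _ hq))
    have ht : 0 < p.1 := hl p List.mem_cons_self
    have he : (fun y => (1 : ℝ) * IA (l.map fun p => (p.1, fun _ => (1 : ℝ))) g y) =
        IA (l.map fun p => (p.1, fun _ => (1 : ℝ))) g := by
      funext y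
      rw [one_mul]
    have he2 : IA ((p :: l).map fun p => (p.1, fun _ => (1 : ℝ))) g =
        AA p.1 (IA (l.map fun p => (p.1, fun _ => (1 : ℝ))) g) := by
      show AA p.1 (fun y => (1 : ℝ) * IA (l.map fun p => (p.1, fun _ => (1 : ℝ))) g y) = _
      rw [he]
    rw [he2]
    exact ⟨measurable_AA ht _ h1, fun x => (abs_AA_le ht _ h1 M h2 x).1,
      fun x hx => AA_pos ht _ h1 M h2 h3 hx⟩

theorem E1a_measurable_psi (t : ℝ) : Measurable (psi t) := by
  unfold psi gau
  fun_prop

theorem val1_pos (ts : List (ℝ × (ℝ → ℝ))) (hts : Adm ts) (hne : ts ≠ []) : 0 < val1 ts := by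
  cases ts with
  | nil => exact absurd rfl hne
  | cons p l =>
    obtain ⟨h1, h2, _⟩ := hts
    have ht : 0 < p.1 := h1 p List.mem_cons_self
    have hs : 0 < 1 - (p.1 + (l.map Prod.fst).sum) := by
      rw [List.map_cons, List.sum_cons] at h2
      linarith
    obtain ⟨h3, h4, h5⟩ := E1a_one l (fun q hq => h1 q (List.mem_cons_of_mem _ hq))
      (psi (1 - (p.1 + (l.map Prod.fst).sum))) (E1a_measurable_psi _) _
      (fun x => abs_psi_le hs x) (fun x hx => psi_pos hs hx)
    have hmap : ((l.map fun p => (p.1, fun _ : ℝ => (1 : ℝ))).map Prod.fst) = l.map Prod.fst := by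
      rw [List.map_map]
      rfl
    have he : val1 (p :: l) = DD p.1 (IA (l.map fun p => (p.1, fun _ => (1 : ℝ)))
        (psi (1 - (p.1 + (l.map Prod.fst).sum)))) := by
      show DD p.1 (fun y => (1 : ℝ) * IA (l.map fun p => (p.1, fun _ => (1 : ℝ)))
        (psi (1 - (p.1 + ((l.map fun p => (p.1, fun _ : ℝ => (1 : ℝ))).map Prod.fst).sum))) y) = _
      rw [hmap]
      congr 1
      funext y
      rw [one_mul]
    rw [he]
    exact DD_pos ht _ h3 _ h4 h5

end Pool.Agent.BPT
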