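import Pool.Agent.MP_99a865_pr.FV.E1a
import Pool.Agent.MP_99a865_pr.FV.B6
import Pool.Agent.MP_99a865_pr.FV.A2b

open MeasureTheory ProbabilityTheory Filter Topology
open scoped ENNReal NNReal

namespace Pool.Agent.BPT

variable {D : Set ℝ} {ρ : Measure ℝ}

lemma E1b_BL_mono {M M' : ℝ} {f : ℝ → ℝ} (h : BL M f) (hM : M ≤ M') : BL M' f :=
  ⟨fun x => (h.bd x).trans hM, fun x y => (h.lip x y).trans (by gcongr)⟩

lemma E1b_BL_nonneg {M : ℝ} {f : ℝ → ℝ} (h : BL M f) : 0 ≤ M := (abs_nonneg _).trans (h.bd 0)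

lemma E1b_BL_cont {M : ℝ} {f : ℝ → ℝ} (h : BL M f) : Continuous f := by
  have : LipschitzWith (Real.toNNReal M) f := by
    refine LipschitzWith.of_dist_le_mul fun x y => ?_
    rw [Real.dist_eq, Real.dist_eq, Real.coe_toNNReal _ (E1b_BL_nonneg h)]
    exact h.lip x y
  exact this.continuous

lemma E1b_BL_meas {M : ℝ} {f : ℝ → ℝ} (h : BL M f) : Measurable f := (E1b_BL_cont h).measurable

lemma E1b_BL_mul {M M' : ℝ} {f g : ℝ → ℝ} (h : BL M f) (h' : BL M' g) :
    BL (2 * (M * M')) fun x => f x * g x := by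
  have hM := E1b_BL_nonneg h
  have hM' := E1b_BL_nonneg h'
  refine ⟨fun x => ?_, fun x y => ?_⟩
  · rw [abs_mul]
    calc |f x| * |g x| ≤ M * M' := mul_le_mul (h.bd x) (h'.bd x) (abs_nonneg _) hM
      _ ≤ 2 * (M * M') := by nlinarith [mul_nonneg hM hM']
  · calc |f x * g x - f y * g y| = |f x * (g x - g y) + (f x - f y) * g y| := by congr 1; ring
      _ ≤ |f x| * |g x - g y| + |f x - f y| * |g y| := by
          rw [← abs_mul, ← abs_mul]; exact abs_add_le _ _
      _ ≤ M * (M' * |x - y|) + (M * |x - y|) * M' := by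
          refine add_le_add (mul_le_mul (h.bd x) (h'.lip x y) (abs_nonneg _) hM) ?_
          exact mul_le_mul (h.lip x y) (h'.bd y) (abs_nonneg _) (by positivity)
      _ = 2 * (M * M') * |x - y| := by ring

lemma E1b_min (ts : List (ℝ × (ℝ → ℝ))) (h : ∀ p ∈ ts, 0 < p.1) : ∃ c > (0 : ℝ), ∀ p ∈ ts, c ≤ p.1 := by
  induction ts with
  | nil => exact ⟨1, one_pos, by simp⟩
  | cons q ts ih =>
    obtain ⟨c, hc, hc2⟩ := ih fun p hp => h p (List.mem_cons_of_mem _ hp)
    refine ⟨min c q.1, lt_min hc (h q List.mem_cons_self), fun p hp => ?_⟩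
    rcases List.mem_cons.1 hp with rfl | hp
    · exact min_le_right _ _
    · exact (min_le_left _ _).trans (hc2 p hp)

lemma E1b_sum_nonneg (ts : List (ℝ × (ℝ → ℝ))) (h : ∀ p ∈ ts, 0 < p.1) :
    0 ≤ (ts.map Prod.fst).sum := by
  refine List.sum_nonneg fun x hx => ?_
  obtain ⟨p, hp, rfl⟩ := List.mem_map.1 hx
  exact (h p hp).le

lemma E1b_tail {q : ℝ × (ℝ → ℝ)} {ts : List (ℝ × (ℝ → ℝ))} (h : Adm (q :: ts)) : Adm ts := by
  obtain ⟨h1, h2, M, hM, h3⟩ := h
  refine ⟨fun p hp => h1 p (List.mem_cons_of_mem _ hp), ?_, M, hM,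
    fun p hp => h3 p (List.mem_cons_of_mem _ hp)⟩
  rw [List.map_cons, List.sum_cons] at h2
  linarith [h1 q List.mem_cons_self]

lemma E1b_mass [IsProbabilityMeasure ρ] (k : ℕ) (x : ℝ) : (kap D ρ k x).real Set.univ ≤ 1 := by
  have := ENNReal.toReal_mono ENNReal.one_ne_top (kap_univ_le_one (D := D) (ρ := ρ) k x)
  rw [ENNReal.toReal_one] at this
  exact this

lemma E1b_forall {n : ℕ} {l : List (ℕ × (ℝ → ℝ))} {ts : List (ℝ × (ℝ → ℝ))} {M : ℝ}
    (h : List.Forall₂ (fun p q => p.2 = q.2 ∧ |(p.1 : ℝ) - q.1 * n| ≤ 2) l ts)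
    (hts : ∀ p ∈ ts, BL M p.2) : ∀ p ∈ l, Measurable p.2 ∧ ∀ x, |p.2 x| ≤ M := by
  induction h with
  | nil => simp
  | cons h1 _ ih =>
    intro p hp
    rcases List.mem_cons.1 hp with rfl | hp
    · rw [h1.1]
      have hb := hts _ List.mem_cons_self
      exact ⟨E1b_BL_meas hb, hb.bd⟩
    · exact ih (fun p hp => hts p (List.mem_cons_of_mem _ hp)) p hp

/-- measurability and boundedness of `IQ` -/
lemma E1b_IQ (hD : Dom D) [IsProbabilityMeasure ρ] (s : ℝ) (l : List (ℕ × (ℝ → ℝ))) (M : ℝ)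
    (hl : ∀ p ∈ l, Measurable p.2 ∧ ∀ x, |p.2 x| ≤ M) (G : ℝ → ℝ) (hG : Measurable G) (C : ℝ)
    (hC : ∀ x, |G x| ≤ C) :
    Measurable (IQ D ρ s l G) ∧ ∃ C' : ℝ, ∀ x, |IQ D ρ s l G x| ≤ C' := by
  induction l with
  | nil => exact ⟨hG, C, hC⟩
  | cons q l ih =>
    obtain ⟨k, f⟩ := q
    obtain ⟨ih1, C', ih2⟩ := ih fun p hp => hl p (List.mem_cons_of_mem _ hp)
    have hf := hl (k, f) List.mem_cons_self
    have hm : Measurable fun y => f (y / s) * IQ D ρ s l G y :=
      (hf.1.comp (measurable_id.div_const s)).mul ih1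
    have hM0 : 0 ≤ M := (abs_nonneg _).trans (hf.2 0)
    have hb : ∀ y, |f (y / s) * IQ D ρ s l G y| ≤ M * C' := fun y => by
      rw [abs_mul]
      exact mul_le_mul (hf.2 _) (ih2 y) (abs_nonneg _) hM0
    have hb0 : 0 ≤ M * C' := (abs_nonneg _).trans (hb 0)
    refine ⟨measurable_integral_kap hD k _ hm _ hb, M * C', fun x => ?_⟩
    show |∫ y, f (y / s) * IQ D ρ s l G y ∂(kap D ρ k x)| ≤ M * C'
    have h1 := norm_integral_le_of_norm_le_const (μ := kap D ρ k x) (C := M * C')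
      (Filter.Eventually.of_forall fun y => (Real.norm_eq_abs _).trans_le (hb y))
    rw [Real.norm_eq_abs] at h1
    refine h1.trans ?_
    have h2 : (kap D ρ k x).real Set.univ ≤ 1 := E1b_mass k x
    nlinarith

/-- **[FV-E1a]** Convergence of the killed expectations started anywhere.
PROOF. Induction on the list. `IQ ((k,f)::l) g_n (x) = ∫ f(y/√n) IQ l g_n y ∂(kap k x)`. By the induction
hypothesis `IQ l g_n y` is within `ε'` of `IA l' g (y/√n)` for all `y ≥ 0` in the coset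
`Cos h (x + k a)`; `f · IA l' g` is `BL M'` (`IA_BL`), so `killed_refl_BL` gives
`|∫ f(y/√n) IA l' g (y/√n) ∂(kap k x) - AA (k/n) (f · IA l' g) (x/√n)| ≤ ε''`; `AA_time` replaces `k/n` by `t`
(`|k/n - t| ≤ 2/n`). Here `g_n` is any sequence of measurable functions, uniformly bounded, with
`|g_n y - g(y/√n)| ≤ ε'` for `y ≥ 0` in the coset of the total time. -/
theorem IQ_asymp (hD : Dom D) (hρ : Std ρ) {a h : ℝ} (hL : Lat ρ a h) (ts : List (ℝ × (ℝ → ℝ)))
    (hts : Adm ts) (g : ℝ → ℝ) (M : ℝ) (hM : 0 < M) (hg : BL M g) : ∀ ε > (0 : ℝ), ∃ η > (0 : ℝ), ∃ n₀ : ℕ,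
    ∀ n ≥ n₀, ∀ l : List (ℕ × (ℝ → ℝ)), Match n l ts → ∀ G : ℝ → ℝ, Measurable G →
      (∀ y, |G y| ≤ M + 1) → ∀ x : ℝ, 0 ≤ x →
      (∀ y : ℝ, 0 ≤ y → Cos h (x + tot l * a) y → |G y - g (y / √n)| ≤ η) →
      |IQ D ρ (√n) l G x - IA ts g (x / √n)| ≤ ε := by
  have := hρ.prob
  induction ts with
  | nil =>
    intro ε hε
    refine ⟨ε, hε, 0, fun n _ l hl G _ _ x hx hy => ?_⟩
    have hl0 : l = [] := by
      unfold Match at hl
      simpa using hl
    subst hl0
    show |G x - g (x / √n)| ≤ ε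
    refine hy x hx fun _ => ⟨0, ?_⟩
    simp [tot]
  | cons q ts ih =>
    obtain ⟨t, f⟩ := q
    intro ε hε
    obtain ⟨hpos, hsum, M₁, hM₁, hBL⟩ := id hts
    have hadm' := E1b_tail hts
    have ht0 : 0 < t := hpos (t, f) List.mem_cons_self
    have hfBL : BL M₁ f := hBL (t, f) List.mem_cons_self
    have ht1 : t < 1 := by
      rw [List.map_cons, List.sum_cons] at hsum
      have := E1b_sum_nonneg ts hadm'.1
      have h3 : (t, f).1 = t := rfl
      rw [h3] at hsum
      linarith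
    obtain ⟨c₁, hc₁, hc₁'⟩ := E1b_min ts hadm'.1
    obtain ⟨M₂, hM₂, hIA⟩ := IA_BL ts c₁ (max M M₁) hc₁ (fun p hp => ⟨hc₁' p hp,
      E1b_BL_mono (hBL p (List.mem_cons_of_mem _ hp)) (le_max_right _ _)⟩) g
      (E1b_BL_mono hg (le_max_left _ _))
    set F : ℝ → ℝ := fun y => f y * IA ts g y with hF
    have hFBL : BL (2 * (M₁ * M₂)) F := E1b_BL_mul hfBL hIA
    set M' : ℝ := 2 * (M₁ * M₂) with hM'
    have hM'0 : 0 < M' := by positivity
    obtain ⟨η, hη, n₁, hn₁⟩ := ih hadm' (ε / (3 * M₁)) (by positivity)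
    set c : ℝ := t / 2 with hc
    have hc0 : 0 < c := by positivity
    obtain ⟨n₂, hn₂⟩ := killed_refl_BL hD hρ hc0 hM'0 (ε / 3) (by positivity)
    refine ⟨η, hη, max (max n₁ n₂) (max (⌈4 / t⌉₊ + 1) (max ⌈2 / (1 - t)⌉₊ ⌈24 * M' / (c * ε)⌉₊)),
      fun n hn l hl G hGm hGb x hx hyG => ?_⟩
    have hn1 : n₁ ≤ n := (le_max_left _ _).trans ((le_max_left _ _).trans hn)
    have hn2 : n₂ ≤ n := (le_max_right _ _).trans ((le_max_left _ _).trans hn)
    have hn3 : ⌈4 / t⌉₊ + 1 ≤ n := (le_max_left _ _).trans ((le_max_right _ _).trans hn)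
    have hn4 : ⌈2 / (1 - t)⌉₊ ≤ n :=
      (le_max_left _ _).trans ((le_max_right _ _).trans ((le_max_right _ _).trans hn))
    have hn5 : ⌈24 * M' / (c * ε)⌉₊ ≤ n :=
      (le_max_right _ _).trans ((le_max_right _ _).trans ((le_max_right _ _).trans hn))
    have hnpos : (0 : ℝ) < n := by
      have : 1 ≤ n := by omega
      exact_mod_cast this
    have hn3' : 4 ≤ t * n := by
      have h1 : 4 / t ≤ n := (Nat.le_ceil _).trans (by exact_mod_cast (by omega : ⌈4 / t⌉₊ ≤ n))
      rw [div_le_iff₀ ht0] at h1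
      linarith [mul_comm t (n : ℝ)]
    have hn4' : 2 ≤ (1 - t) * n := by
      have h1 : 2 / (1 - t) ≤ n := (Nat.le_ceil _).trans (by exact_mod_cast hn4)
      rw [div_le_iff₀ (by linarith)] at h1
      linarith [mul_comm (1 - t) (n : ℝ)]
    have hn5' : 24 * M' ≤ c * ε * n := by
      have h1 : 24 * M' / (c * ε) ≤ n := (Nat.le_ceil _).trans (by exact_mod_cast hn5)
      rw [div_le_iff₀ (by positivity)] at h1
      linarith [mul_comm (c * ε) (n : ℝ)]
    unfold Match at hl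
    cases hl with
    | cons hq hl' =>
    rename_i q l
    obtain ⟨k, f'⟩ := q
    obtain ⟨hq1, hq2⟩ := hq
    simp only at hq1 hq2
    subst hq1
    have habs := abs_le.1 hq2
    have hk1 : c * n ≤ k := by
      have : c * n = t * n / 2 := by rw [hc]; ring
      rw [this]
      linarith [habs.1]
    have hkn : k ≤ n := by
      have : (k : ℝ) ≤ n := by
        have h3 : (1 - t) * n = n - t * n := by ring
        linarith [habs.2]
      exact_mod_cast this
    have hk1' : 1 ≤ k := by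
      have : (0 : ℝ) < k := lt_of_lt_of_le (by positivity) hk1
      exact_mod_cast this
    -- measurability and boundedness of the IQ
    have hlfun : ∀ p ∈ l, Measurable p.2 ∧ ∀ x, |p.2 x| ≤ M₁ :=
      E1b_forall hl' fun p hp => hBL p (List.mem_cons_of_mem _ hp)
    obtain ⟨hIQm, C', hIQb⟩ := E1b_IQ hD (ρ := ρ) (√n) l M₁ hlfun G hGm (M + 1) hGb
    -- the a.e. estimate
    have hae : ∀ᵐ y ∂(kap D ρ k x), |IQ D ρ (√n) l G y - IA ts g (y / √n)| ≤ ε / (3 * M₁) := by
      have h1 := ae_kap hD (ρ := ρ) a h hL.step k x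
      have h2 : ∀ᵐ y ∂(kap D ρ k x), y ∈ D := by
        rw [ae_iff]
        exact kap_compl hD k x (Or.inl hk1')
      filter_upwards [h1, h2] with y hy1 hy2
      refine hn₁ n hn1 l hl' G hGm hGb y (hD.nonneg hy2) fun z hz hcos => hyG z hz fun hh => ?_
      obtain ⟨i, hi⟩ := hy1 hh
      obtain ⟨j, hj⟩ := hcos hh
      refine ⟨i + j, ?_⟩
      rw [hj, hi]
      simp only [tot, List.map_cons, List.sum_cons]
      push_cast
      ring
    have hFm : Measurable F := E1b_BL_meas hFBL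
    have hFi : Integrable (fun y => F (y / √n)) (kap D ρ k x) := by
      refine Integrable.of_bound (hFm.comp (measurable_id.div_const _)).aestronglyMeasurable M' ?_
      exact Filter.Eventually.of_forall fun y => (Real.norm_eq_abs _).trans_le (hFBL.bd _)
    have hIi : Integrable (fun y => f' (y / √n) * IQ D ρ (√n) l G y) (kap D ρ k x) := by
      refine Integrable.of_bound (((E1b_BL_meas hfBL).comp (measurable_id.div_const _)).mul
        hIQm).aestronglyMeasurable (M₁ * C') ?_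
      refine Filter.Eventually.of_forall fun y => (Real.norm_eq_abs _).trans_le ?_
      rw [abs_mul]
      exact mul_le_mul (hfBL.bd _) (hIQb y) (abs_nonneg _) hM₁.le
    have hmass : (kap D ρ k x).real Set.univ ≤ 1 := E1b_mass k x
    have e1 : |IQ D ρ (√n) ((k, f') :: l) G x - ∫ y, F (y / √n) ∂(kap D ρ k x)| ≤ ε / 3 := by
      show |∫ y, f' (y / √n) * IQ D ρ (√n) l G y ∂(kap D ρ k x) - ∫ y, F (y / √n) ∂(kap D ρ k x)| ≤
        ε / 3
      rw [← integral_sub hIi hFi]
      have h1 := norm_integral_le_of_norm_le_const (μ := kap D ρ k x) (C := ε / 3)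
        (f := fun y => f' (y / √n) * IQ D ρ (√n) l G y - F (y / √n)) (by
          filter_upwards [hae] with y hy
          rw [Real.norm_eq_abs, hF]
          simp only
          rw [← mul_sub, abs_mul]
          calc |f' (y / √n)| * |IQ D ρ (√n) l G y - IA ts g (y / √n)| ≤ M₁ * (ε / (3 * M₁)) :=
                mul_le_mul (hfBL.bd _) hy (abs_nonneg _) hM₁.le
            _ = ε / 3 := by field_simp)
      rw [Real.norm_eq_abs] at h1
      refine h1.trans ?_
      have : 0 ≤ ε / 3 := by positivity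
      nlinarith
    have e2 := hn₂ n hn2 k hk1 hkn F hFBL x hx
    have e3 : |AA ((k : ℝ) / n) F (x / √n) - AA t F (x / √n)| ≤ ε / 3 := by
      have hkn' : c ≤ (k : ℝ) / n := by
        rw [le_div_iff₀ hnpos]; exact hk1
      refine (AA_time hc0 (s := t) (t := (k : ℝ) / n) (by rw [hc]; linarith) hkn' F hFm M' hFBL.bd _).trans ?_
      have h1 : |(k : ℝ) / n - t| ≤ 2 / n := by
        have h2 : (k : ℝ) / n - t = ((k : ℝ) - t * n) / n := by field_simp
        rw [h2, abs_div, abs_of_pos hnpos]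
        gcongr
      calc 4 * M' * |(k : ℝ) / n - t| / c ≤ 4 * M' * (2 / n) / c := by gcongr
        _ = 8 * M' / (c * n) := by field_simp; ring
        _ ≤ ε / 3 := by
            rw [div_le_div_iff₀ (by positivity) (by positivity)]
            linarith [show ε * (c * n) = c * ε * n by ring]
    have e4 : IA ((t, f') :: ts) g (x / √n) = AA t F (x / √n) := rfl
    rw [e4]
    have a1 := abs_le.1 e1
    have a2 := abs_le.1 e2
    have a3 := abs_le.1 e3
    rw [abs_le]
    constructor <;> linarith [a1.1, a1.2, a2.1, a2.2, a3.1, a3.2]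

end Pool.Agent.BPT
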