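import Pool.Agent.MP_99a865_pr.FV.E1b
import Pool.Agent.MP_99a865_pr.FV.D2e
import Pool.Agent.MP_99a865_pr.FV.B7
import Pool.Agent.MP_99a865_pr.FV.C3

open MeasureTheory ProbabilityTheory Filter Topology
open scoped ENNReal NNReal

namespace Pool.Agent.BPT

variable {D : Set ℝ} {ρ : Measure ℝ}

private lemma E1c_BL_mono {M M' : ℝ} {f : ℝ → ℝ} (h : BL M f) (hM : M ≤ M') : BL M' f :=
  ⟨fun x => (h.bd x).trans hM, fun x y => (h.lip x y).trans (by gcongr)⟩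

private lemma E1c_BL_nonneg {M : ℝ} {f : ℝ → ℝ} (h : BL M f) : 0 ≤ M := (abs_nonneg _).trans (h.bd 0)

private lemma E1c_BL_cont {M : ℝ} {f : ℝ → ℝ} (h : BL M f) : Continuous f := by
  have : LipschitzWith (Real.toNNReal M) f := by
    refine LipschitzWith.of_dist_le_mul fun x y => ?_
    rw [Real.dist_eq, Real.dist_eq, Real.coe_toNNReal _ (E1c_BL_nonneg h)]
    exact h.lip x y
  exact this.continuous

private lemma E1c_BL_meas {M : ℝ} {f : ℝ → ℝ} (h : BL M f) : Measurable f := (E1c_BL_cont h).measurable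

private lemma E1c_BL_mul {M M' : ℝ} {f g : ℝ → ℝ} (h : BL M f) (h' : BL M' g) :
    BL (2 * (M * M')) fun x => f x * g x := by
  have hM := E1c_BL_nonneg h
  have hM' := E1c_BL_nonneg h'
  refine ⟨fun x => ?_, fun x y => ?_⟩
  · rw [abs_mul]
    calc |f x| * |g x| ≤ M * M' := mul_le_mul (h.bd x) (h'.bd x) (abs_nonneg _) hM
      _ ≤ 2 * (M * M') := by nlinarith [mul_nonneg hM hM']
  · calc |f x * g x - f y * g y| = |f x * (g x - g y) + (f x - f y) * g y| := by congr 1; ring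
      _ ≤ |f x| * |g x - g y| + |f x - f y| * |g y| := by
          rw [← abs_mul, ← abs_mul]; exact abs_add_le _ _
      _ ≤ M * (M' * |x - y|) + (M * |x - y|) * M' := by
          refine add_le_add (mul_le_mul (h.bd x) (h'.lip x y) (abs_nonneg _) hM) ?_
          exact mul_le_mul (h.lip x y) (h'.bd y) (abs_nonneg _) (by positivity)
      _ = 2 * (M * M') * |x - y| := by ring

private lemma E1c_min (ts : List (ℝ × (ℝ → ℝ))) (h : ∀ p ∈ ts, 0 < p.1) : ∃ c > (0 : ℝ), ∀ p ∈ ts, c ≤ p.1 := by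
  induction ts with
  | nil => exact ⟨1, one_pos, by simp⟩
  | cons q ts ih =>
    obtain ⟨c, hc, hc2⟩ := ih fun p hp => h p (List.mem_cons_of_mem _ hp)
    refine ⟨min c q.1, lt_min hc (h q List.mem_cons_self), fun p hp => ?_⟩
    rcases List.mem_cons.1 hp with rfl | hp
    · exact min_le_right _ _
    · exact (min_le_left _ _).trans (hc2 p hp)

private lemma E1c_sum_nonneg (ts : List (ℝ × (ℝ → ℝ))) (h : ∀ p ∈ ts, 0 < p.1) :
    0 ≤ (ts.map Prod.fst).sum := by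
  refine List.sum_nonneg fun x hx => ?_
  obtain ⟨p, hp, rfl⟩ := List.mem_map.1 hx
  exact (h p hp).le

private lemma E1c_tail {q : ℝ × (ℝ → ℝ)} {ts : List (ℝ × (ℝ → ℝ))} (h : Adm (q :: ts)) : Adm ts := by
  obtain ⟨h1, h2, M, hM, h3⟩ := h
  refine ⟨fun p hp => h1 p (List.mem_cons_of_mem _ hp), ?_, M, hM,
    fun p hp => h3 p (List.mem_cons_of_mem _ hp)⟩
  rw [List.map_cons, List.sum_cons] at h2
  linarith [h1 q List.mem_cons_self]

private lemma E1c_mass [IsProbabilityMeasure ρ] (k : ℕ) (x : ℝ) : (kap D ρ k x).real Set.univ ≤ 1 := by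
  have := ENNReal.toReal_mono ENNReal.one_ne_top (kap_univ_le_one (D := D) (ρ := ρ) k x)
  rw [ENNReal.toReal_one] at this
  exact this

private lemma E1c_forall {n : ℕ} {l : List (ℕ × (ℝ → ℝ))} {ts : List (ℝ × (ℝ → ℝ))} {M : ℝ}
    (h : List.Forall₂ (fun p q => p.2 = q.2 ∧ |(p.1 : ℝ) - q.1 * n| ≤ 2) l ts)
    (hts : ∀ p ∈ ts, BL M p.2) : ∀ p ∈ l, Measurable p.2 ∧ ∀ x, |p.2 x| ≤ M := by
  induction h with
  | nil => simp
  | cons h1 _ ih =>
    intro p hp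
    rcases List.mem_cons.1 hp with rfl | hp
    · rw [h1.1]
      have hb := hts _ List.mem_cons_self
      exact ⟨E1c_BL_meas hb, hb.bd⟩
    · exact ih (fun p hp => hts p (List.mem_cons_of_mem _ hp)) p hp

/-- measurability and boundedness of `IQ` -/
private lemma E1c_IQ (hD : Dom D) [IsProbabilityMeasure ρ] (s : ℝ) (l : List (ℕ × (ℝ → ℝ))) (M : ℝ)
    (hl : ∀ p ∈ l, Measurable p.2 ∧ ∀ x, |p.2 x| ≤ M) (G : ℝ → ℝ) (hG : Measurable G) (C : ℝ)
    (hC : ∀ x, |G x| ≤ C) :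
    Measurable (IQ D ρ s l G) ∧ ∃ C' : ℝ, ∀ x, |IQ D ρ s l G x| ≤ C' := by
  induction l with
  | nil => exact ⟨hG, C, hC⟩
  | cons q l ih =>
    obtain ⟨k, f⟩ := q
    obtain ⟨ih1, C', ih2⟩ := ih fun p hp => hl p (List.mem_cons_of_mem _ hp)
    have hf := hl (k, f) List.mem_cons_self
    have hm : Measurable fun y => f (y / s) * IQ D ρ s l G y :=
      (hf.1.comp (measurable_id.div_const s)).mul ih1
    have hM0 : 0 ≤ M := (abs_nonneg _).trans (hf.2 0)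
    have hb : ∀ y, |f (y / s) * IQ D ρ s l G y| ≤ M * C' := fun y => by
      rw [abs_mul]
      exact mul_le_mul (hf.2 _) (ih2 y) (abs_nonneg _) hM0
    have hb0 : 0 ≤ M * C' := (abs_nonneg _).trans (hb 0)
    refine ⟨measurable_integral_kap hD k _ hm _ hb, M * C', fun x => ?_⟩
    show |∫ y, f (y / s) * IQ D ρ s l G y ∂(kap D ρ k x)| ≤ M * C'
    have h1 := norm_integral_le_of_norm_le_const (μ := kap D ρ k x) (C := M * C')
      (Filter.Eventually.of_forall fun y => (Real.norm_eq_abs _).trans_le (hb y))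
    rw [Real.norm_eq_abs] at h1
    refine h1.trans ?_
    have h2 : (kap D ρ k x).real Set.univ ≤ 1 := E1c_mass k x
    nlinarith


private lemma E1c_BL_div {M : ℝ} (hM : 0 < M) {f : ℝ → ℝ} (h : BL M f) : BL 1 fun x => f x / M := by
  refine ⟨fun x => ?_, fun x y => ?_⟩
  · rw [abs_div, abs_of_pos hM, div_le_one hM]
    exact h.bd x
  · rw [← sub_div, abs_div, abs_of_pos hM, div_le_iff₀ hM]
    have := h.lip x y
    linarith

private lemma E1c_tot {n : ℕ} {l : List (ℕ × (ℝ → ℝ))} {ts : List (ℝ × (ℝ → ℝ))}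
    (h : List.Forall₂ (fun p q => p.2 = q.2 ∧ |(p.1 : ℝ) - q.1 * n| ≤ 2) l ts) :
    |(tot l : ℝ) - (ts.map Prod.fst).sum * n| ≤ 2 * ts.length := by
  induction h with
  | nil => simp [tot]
  | @cons p q l ts h1 _ ih =>
    have e : ((tot (p :: l) : ℕ) : ℝ) = p.1 + tot l := by
      simp [tot]
    rw [e, List.map_cons, List.sum_cons, List.length_cons]
    have h2 := abs_le.1 h1.2
    have h3 := abs_le.1 ih
    push_cast
    rw [abs_le]
    constructor <;> nlinarith [h2.1, h2.2, h3.1, h3.2]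

private lemma E1c_ae (hD : Dom D) [IsProbabilityMeasure ρ] {k : ℕ} (hk : 1 ≤ k) (x : ℝ) :
    ∀ᵐ y ∂(kap D ρ k x), 0 ≤ y := by
  have h2 : ∀ᵐ y ∂(kap D ρ k x), y ∈ D := by
    rw [ae_iff]
    exact kap_compl hD k x (Or.inl hk)
  filter_upwards [h2] with y hy
  exact hD.nonneg hy

private lemma E1c_ae' (hD : Dom D) [IsProbabilityMeasure ρ] (k : ℕ) {x : ℝ} (hx : 0 ≤ x) :
    ∀ᵐ y ∂(kap D ρ k x), 0 ≤ y := by
  rcases Nat.eq_zero_or_pos k with rfl | hk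
  · rw [kap_zero, ae_dirac_iff measurableSet_Ici]
    exact hx
  · exact E1c_ae hD hk x

private lemma E1c_smul (s c : ℝ) (l : List (ℕ × (ℝ → ℝ))) (G : ℝ → ℝ) (x : ℝ) :
    IQ D ρ s l (fun y => c * G y) x = c * IQ D ρ s l G x := by
  induction l generalizing x with
  | nil => rfl
  | cons q l ih =>
    obtain ⟨k, f⟩ := q
    show ∫ y, f (y / s) * IQ D ρ s l (fun y => c * G y) y ∂(kap D ρ k x) =
      c * ∫ y, f (y / s) * IQ D ρ s l G y ∂(kap D ρ k x)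
    rw [← integral_const_mul]
    congr 1
    funext y
    rw [ih]
    ring

private lemma E1c_congr (hD : Dom D) [IsProbabilityMeasure ρ] {a h : ℝ}
    (hstep : ∀ᵐ x ∂ρ, Cos h a x) (s : ℝ) (l : List (ℕ × (ℝ → ℝ))) (G G' : ℝ → ℝ) (x : ℝ)
    (hx : 0 ≤ x) (hG : ∀ y : ℝ, 0 ≤ y → Cos h (x + tot l * a) y → G y = G' y) :
    IQ D ρ s l G x = IQ D ρ s l G' x := by
  induction l generalizing x with
  | nil =>
    show G x = G' x
    refine hG x hx fun _ => ⟨0, ?_⟩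
    simp [tot]
  | cons q l ih =>
    obtain ⟨k, f⟩ := q
    show ∫ y, f (y / s) * IQ D ρ s l G y ∂(kap D ρ k x) =
      ∫ y, f (y / s) * IQ D ρ s l G' y ∂(kap D ρ k x)
    refine integral_congr_ae ?_
    have h1 := ae_kap hD (ρ := ρ) a h hstep k x
    have h2 := E1c_ae' hD (ρ := ρ) k hx
    filter_upwards [h1, h2] with y hy1 hy2
    rw [ih y hy2 fun z hz hcos => hG z hz fun hh => ?_]
    obtain ⟨i, hi⟩ := hy1 hh
    obtain ⟨j, hj⟩ := hcos hh
    refine ⟨i + j, ?_⟩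
    rw [hj, hi]
    simp only [tot, List.map_cons, List.sum_cons]
    push_cast
    ring

private lemma E1c_psi_BL {τ : ℝ} (h0 : 0 < τ) (h1 : τ ≤ 1) : BL (4 / τ ^ 2) (psi τ) := by
  refine ⟨fun x => (abs_psi_le h0 x).trans ?_, fun x y => psi_lip h0 h1 le_rfl x y⟩
  rw [div_le_div_iff₀ h0 (by positivity)]
  nlinarith [mul_pos h0 h0]

/-- the core estimate, for one list of functions -/
private lemma E1c_core (hD : Dom D) (hρ : Std ρ) {a h : ℝ} (hL : Lat ρ a h) {v : ℝ} (hv : 0 < v)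
    (hmea : ∀ c : ℝ, 0 < c → c ≤ 1 → ∀ ε > (0 : ℝ),
      ∃ n₀ : ℕ, ∀ n ≥ n₀, ∀ k : ℕ, c * n ≤ k → k ≤ n → ∀ f : ℝ → ℝ, BL 1 f →
        |√n * ∫ y, f (y / √n) ∂(kap D ρ k 0) - v * DD (k / n) f| ≤ ε)
    {c₁ C₁ : ℝ} (hc₁ : 0 < c₁) (hC₁ : 0 < C₁) (t : ℝ) (f : ℝ → ℝ) (ts : List (ℝ × (ℝ → ℝ)))
    (hts : Adm ((t, f) :: ts)) (c : ℝ) (hc : c = (1 - (t + (ts.map Prod.fst).sum)) / 2) :
    ∀ ε > (0 : ℝ), ∃ η > (0 : ℝ), ∃ n₀ : ℕ, ∀ n ≥ n₀, ∀ B : ℝ, c₁ ≤ B → B ≤ C₁ →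
      (∀ m : ℕ, c * n ≤ m → m ≤ n → ∀ z : ℝ, 0 ≤ z →
        Cos h (((n : ℝ) - m) * a) z → |n * hit D ρ m z - B * psi (m / n) (z / √n)| ≤ η) →
      ∀ l, Match n l ((t, f) :: ts) →
        |n * √n * IQ D ρ (√n) l (hit D ρ (n - tot l)) 0 - v * B * val ((t, f) :: ts)| ≤ ε := by
  have hprob := hρ.prob
  intro ε hε
  obtain ⟨hpos, hsum, M₁, hM₁, hBL⟩ := id hts
  have hadm' := E1c_tail hts
  have ht0 : 0 < t := hpos (t, f) List.mem_cons_self
  have hfBL : BL M₁ f := hBL (t, f) List.mem_cons_self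
  have hT0 : 0 ≤ (ts.map Prod.fst).sum := E1c_sum_nonneg ts hadm'.1
  have hsum' : t + (ts.map Prod.fst).sum < 1 := by
    rw [List.map_cons, List.sum_cons] at hsum
    exact hsum
  obtain ⟨T', hT'⟩ : ∃ T', T' = (ts.map Prod.fst).sum := ⟨_, rfl⟩
  rw [← hT'] at hT0 hsum' hc
  obtain ⟨τ, hτ⟩ : ∃ τ, τ = 1 - (t + T') := ⟨_, rfl⟩
  have hτ0 : 0 < τ := by rw [hτ]; linarith
  have hτ1 : τ ≤ 1 := by rw [hτ]; linarith
  have hcτ : c = τ / 2 := by rw [hc, hτ]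
  have hc0 : 0 < c := by rw [hcτ]; positivity
  have hc1 : c ≤ 1 := by rw [hcτ]; linarith
  have ht1 : t < 1 := by linarith
  obtain ⟨g, hg⟩ : ∃ g : ℝ → ℝ, g = psi τ := ⟨_, rfl⟩
  obtain ⟨Mg, hMg⟩ : ∃ Mg : ℝ, Mg = 4 / τ ^ 2 := ⟨_, rfl⟩
  have hMg0 : 0 < Mg := by rw [hMg]; positivity
  have hgBL : BL Mg g := by rw [hg, hMg]; exact E1c_psi_BL hτ0 hτ1
  obtain ⟨c₂, hc₂, hc₂'⟩ := E1c_min ts hadm'.1
  obtain ⟨M₂, hM₂, hIA⟩ := IA_BL ts c₂ (max Mg M₁) hc₂ (fun p hp => ⟨hc₂' p hp,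
    E1c_BL_mono (hBL p (List.mem_cons_of_mem _ hp)) (le_max_right _ _)⟩) g
    (E1c_BL_mono hgBL (le_max_left _ _))
  obtain ⟨F, hF⟩ : ∃ F : ℝ → ℝ, F = fun y => f y * IA ts g y := ⟨_, rfl⟩
  obtain ⟨MF, hMF⟩ : ∃ MF : ℝ, MF = 2 * (M₁ * M₂) := ⟨_, rfl⟩
  have hMF0 : 0 < MF := by rw [hMF]; positivity
  have hFBL : BL MF F := by rw [hF, hMF]; exact E1c_BL_mul hfBL hIA
  have hval : val ((t, f) :: ts) = DD t F := by
    show DD t (fun y => f y * IA ts (psi (1 - (t + (ts.map Prod.fst).sum))) y) = DD t F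
    rw [hF, hg, ← hT', ← hτ]
  obtain ⟨Cs, hCs, hsurv⟩ := surv hD hρ
  -- the constants
  obtain ⟨K₁, hK₁⟩ : ∃ K₁, K₁ = C₁ * M₁ * Cs * √(2 / t) := ⟨_, rfl⟩
  have hK₁0 : 0 < K₁ := by rw [hK₁]; positivity
  obtain ⟨η₁, hη₁, n₁, hn₁⟩ := IQ_asymp hD hρ hL ts hadm' g Mg hMg0 hgBL (ε / (3 * K₁))
    (by positivity)
  have hd0 : 0 < t / 2 := by positivity
  have hd1 : t / 2 ≤ 1 := by linarith
  obtain ⟨n₂, hn₂⟩ := hmea (t / 2) hd0 hd1 (ε / (3 * (C₁ * MF))) (by positivity)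
  obtain ⟨η₂, hη₂⟩ : ∃ η₂, η₂ = min (η₁ / 2) (1 / 2) := ⟨_, rfl⟩
  have hη₂0 : 0 < η₂ := by rw [hη₂]; positivity
  obtain ⟨L, hLdef⟩ : ∃ L : ℝ, L = ((t, f) :: ts).length := ⟨_, rfl⟩
  have hL0 : 0 ≤ L := by rw [hLdef]; positivity
  -- large n
  obtain ⟨n₃, hn₃⟩ := exists_nat_ge (4 / t + 2 / (1 - t) + 2 * L / c + 16 * L / (c ^ 2 * η₂)
    + 48 * C₁ * v * MF / (ε * (t / 2) ^ 2) + 1)
  refine ⟨c₁ * η₂, by positivity, max (max n₁ n₂) n₃, fun n hn B hB1 hB2 hhit l hl => ?_⟩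
  have hn1 : n₁ ≤ n := (le_max_left _ _).trans ((le_max_left _ _).trans hn)
  have hn2 : n₂ ≤ n := (le_max_right _ _).trans ((le_max_left _ _).trans hn)
  have hn3 : (n₃ : ℝ) ≤ n := by exact_mod_cast (le_max_right _ _).trans hn
  have q1 : 0 ≤ 4 / t := by positivity
  have q2 : 0 ≤ 2 / (1 - t) := by
    have : 0 < 1 - t := by linarith
    positivity
  have q3 : 0 ≤ 2 * L / c := by positivity
  have q4 : 0 ≤ 16 * L / (c ^ 2 * η₂) := by positivity
  have q5 : 0 ≤ 48 * C₁ * v * MF / (ε * (t / 2) ^ 2) := by positivity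
  have hnpos : (0 : ℝ) < n := by linarith
  have hB0 : 0 < B := lt_of_lt_of_le hc₁ hB1
  have hn3a : 4 ≤ t * n := by
    have h1 : 4 / t ≤ n := by linarith
    rw [div_le_iff₀ ht0] at h1
    linarith [mul_comm t (n : ℝ)]
  have hn3b : 2 ≤ (1 - t) * n := by
    have h1 : 2 / (1 - t) ≤ n := by linarith
    rw [div_le_iff₀ (by linarith)] at h1
    linarith [mul_comm (1 - t) (n : ℝ)]
  have hn3c : 2 * L ≤ c * n := by
    have h1 : 2 * L / c ≤ n := by linarith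
    rw [div_le_iff₀ hc0] at h1
    linarith [mul_comm c (n : ℝ)]
  have hn3d : 16 * L ≤ c ^ 2 * η₂ * n := by
    have h1 : 16 * L / (c ^ 2 * η₂) ≤ n := by linarith
    rw [div_le_iff₀ (by positivity)] at h1
    linarith [mul_comm (c ^ 2 * η₂) (n : ℝ)]
  have hn3e : 48 * C₁ * v * MF ≤ ε * (t / 2) ^ 2 * n := by
    have h1 : 48 * C₁ * v * MF / (ε * (t / 2) ^ 2) ≤ n := by linarith
    rw [div_le_iff₀ (by positivity)] at h1
    linarith [mul_comm (ε * (t / 2) ^ 2) (n : ℝ)]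
  have hsn : 0 < √(n : ℝ) := Real.sqrt_pos.2 hnpos
  -- the total time
  have htot := E1c_tot hl
  rw [List.map_cons, List.sum_cons, ← hT', ← hLdef] at htot
  have htot' := abs_le.1 htot
  have htn : (tot l : ℝ) ≤ n := by
    have h1 : (t + T') * n = n - τ * n := by rw [hτ]; ring
    have h2 : c * n = τ * n / 2 := by rw [hcτ]; ring
    have h3 : 0 ≤ c * n := by positivity
    have h4 := htot'.2
    simp only at h4
    linarith
  have htn' : tot l ≤ n := by exact_mod_cast htn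
  obtain ⟨m, hm⟩ : ∃ m, m = n - tot l := ⟨_, rfl⟩
  have hmr : (m : ℝ) = n - tot l := by rw [hm, Nat.cast_sub htn']
  have hmn : m ≤ n := by omega
  have hmc : c * n ≤ m := by
    have h1 : (t + T') * n = n - τ * n := by rw [hτ]; ring
    have h2 : c * n = τ * n / 2 := by rw [hcτ]; ring
    have h4 := htot'.2
    simp only at h4
    rw [hmr]
    linarith
  have hmτ : |(m : ℝ) / n - τ| ≤ 2 * L / n := by
    have h2 : (m : ℝ) / n - τ = -(((tot l : ℝ) - (t + T') * n) / n) := by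
      rw [hmr, hτ]; field_simp; ring
    rw [h2, abs_neg, abs_div, abs_of_pos hnpos]
    exact div_le_div_of_nonneg_right htot hnpos.le
  -- the terminal function
  obtain ⟨G', hG'⟩ : ∃ G' : ℝ → ℝ, G' = fun y => n * hit D ρ m y / B := ⟨_, rfl⟩
  obtain ⟨G, hG⟩ : ∃ G : ℝ → ℝ, G = fun y => max (-(Mg + 1)) (min (Mg + 1) (G' y)) := ⟨_, rfl⟩
  have hG'm : Measurable G' := by
    rw [hG']
    exact ((measurable_hit hD m).const_mul _).div_const _
  have hGm : Measurable G := by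
    rw [hG]
    exact measurable_const.max (measurable_const.min hG'm)
  have hGb : ∀ y, |G y| ≤ Mg + 1 := by
    intro y
    rw [hG, abs_le]
    exact ⟨le_max_left _ _, max_le (by linarith) (min_le_left _ _)⟩
  have hG'e : ∀ y : ℝ, 0 ≤ y → Cos h (0 + tot l * a) y → |G' y - g (y / √n)| ≤ 2 * η₂ := by
    intro y hy hcos
    have hcos' : Cos h (((n : ℝ) - m) * a) y := by
      rw [hmr]
      have e : ((n : ℝ) - (n - tot l)) * a = 0 + tot l * a := by ring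
      rw [e]
      exact hcos
    have h1 := hhit m hmc hmn y hy hcos'
    have h2 : |psi ((m : ℝ) / n) (y / √n) - psi τ (y / √n)| ≤ η₂ := by
      have hcm : c ≤ (m : ℝ) / n := by
        rw [le_div_iff₀ hnpos]; exact hmc
      have h3 := psi_time hc0 hc1 (s := τ) (t := (m : ℝ) / n) (by rw [hcτ]; linarith) hcm (y / √n)
      refine h3.trans ?_
      calc 8 / c ^ 2 * |(m : ℝ) / n - τ| ≤ 8 / c ^ 2 * (2 * L / n) := by gcongr
        _ = 16 * L / (c ^ 2 * n) := by field_simp; ring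
        _ ≤ η₂ := by
          rw [div_le_iff₀ (by positivity)]
          linarith [hn3d, mul_comm (c ^ 2 * η₂) (n : ℝ), mul_assoc (c ^ 2) η₂ (n : ℝ),
            mul_comm η₂ (c ^ 2 * (n : ℝ)), mul_assoc (c ^ 2) (n : ℝ) η₂, mul_comm η₂ (n : ℝ)]
    have h3 : |G' y - psi ((m : ℝ) / n) (y / √n)| ≤ η₂ := by
      have e : G' y - psi ((m : ℝ) / n) (y / √n) =
          (n * hit D ρ m y - B * psi ((m : ℝ) / n) (y / √n)) / B := by
        rw [hG']; field_simp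
      rw [e, abs_div, abs_of_pos hB0, div_le_iff₀ hB0]
      refine h1.trans ?_
      calc c₁ * η₂ ≤ B * η₂ := by gcongr
        _ = η₂ * B := mul_comm _ _
    rw [hg]
    have h4 := abs_le.1 h2
    have h5 := abs_le.1 h3
    rw [abs_le]
    constructor <;> linarith [h4.1, h4.2, h5.1, h5.2]
  have hη₂a : 2 * η₂ ≤ η₁ := by rw [hη₂]; linarith [min_le_left (η₁ / 2) (1 / 2)]
  have hη₂b : 2 * η₂ ≤ 1 := by rw [hη₂]; linarith [min_le_right (η₁ / 2) (1 / 2)]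
  have hGG : ∀ y : ℝ, 0 ≤ y → Cos h (0 + tot l * a) y → G' y = G y := by
    intro y hy hcos
    have h1 := abs_le.1 (hG'e y hy hcos)
    have h2 := abs_le.1 (hgBL.bd (y / √n))
    rw [hG]
    simp only
    rw [min_eq_right (by linarith [h1.2, h2.2]), max_eq_right (by linarith [h1.1, h2.1])]
  have hGe : ∀ y : ℝ, 0 ≤ y → Cos h (0 + tot l * a) y → |G y - g (y / √n)| ≤ η₁ := by
    intro y hy hcos
    rw [← hGG y hy hcos]
    exact (hG'e y hy hcos).trans hη₂a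
  -- reduction to `G`
  have e0 : IQ D ρ (√n) l (hit D ρ (n - tot l)) 0 = B / n * IQ D ρ (√n) l G 0 := by
    have h1 : hit D ρ (n - tot l) = fun y => B / n * G' y := by
      rw [← hm, hG']
      funext y
      field_simp
    rw [h1, E1c_smul]
    congr 1
    exact E1c_congr hD hL.step (√n) l G' G 0 le_rfl hGG
  unfold Match at hl
  cases hl with
  | cons hq hl' =>
  rename_i q l
  obtain ⟨k, f'⟩ := q
  obtain ⟨hq1, hq2⟩ := hq
  simp only at hq1 hq2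
  subst hq1
  have habs := abs_le.1 hq2
  have hk1 : t / 2 * n ≤ k := by
    have : t / 2 * n = t * n / 2 := by ring
    rw [this]
    linarith [habs.1]
  have hkn : k ≤ n := by
    have : (k : ℝ) ≤ n := by
      have h3 : (1 - t) * n = n - t * n := by ring
      linarith [habs.2]
    exact_mod_cast this
  have hk0 : (0 : ℝ) < k := lt_of_lt_of_le (by positivity) hk1
  have hk1' : 1 ≤ k := by exact_mod_cast hk0
  have hlfun : ∀ p ∈ l, Measurable p.2 ∧ ∀ x, |p.2 x| ≤ M₁ :=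
    E1c_forall hl' fun p hp => hBL p (List.mem_cons_of_mem _ hp)
  obtain ⟨hIQm, C', hIQb⟩ := E1c_IQ hD (ρ := ρ) (√n) l M₁ hlfun G hGm (Mg + 1) hGb
  have hae : ∀ᵐ y ∂(kap D ρ k 0), |IQ D ρ (√n) l G y - IA ts g (y / √n)| ≤ ε / (3 * K₁) := by
    have h1 := ae_kap hD (ρ := ρ) a h hL.step k 0
    have h2 := E1c_ae hD (ρ := ρ) hk1' 0
    filter_upwards [h1, h2] with y hy1 hy2
    refine hn₁ n hn1 l hl' G hGm hGb y hy2 fun z hz hcos => hGe z hz fun hh => ?_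
    obtain ⟨i, hi⟩ := hy1 hh
    obtain ⟨j, hj⟩ := hcos hh
    refine ⟨i + j, ?_⟩
    rw [hj, hi]
    simp only [tot, List.map_cons, List.sum_cons]
    push_cast
    ring
  have hFm : Measurable F := E1c_BL_meas hFBL
  have hFi : Integrable (fun y => F (y / √n)) (kap D ρ k 0) := by
    refine Integrable.of_bound (hFm.comp (measurable_id.div_const _)).aestronglyMeasurable MF ?_
    exact Filter.Eventually.of_forall fun y => (Real.norm_eq_abs _).trans_le (hFBL.bd _)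
  have hIi : Integrable (fun y => f' (y / √n) * IQ D ρ (√n) l G y) (kap D ρ k 0) := by
    refine Integrable.of_bound (((E1c_BL_meas hfBL).comp (measurable_id.div_const _)).mul
      hIQm).aestronglyMeasurable (M₁ * C') ?_
    refine Filter.Eventually.of_forall fun y => (Real.norm_eq_abs _).trans_le ?_
    rw [abs_mul]
    exact mul_le_mul (hfBL.bd _) (hIQb y) (abs_nonneg _) hM₁.le
  have hmass : (kap D ρ k 0).real Set.univ ≤ Cs / √k := by
    have := hsurv k hk1' 0 le_rfl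
    simpa using this
  have hsk : 0 < √(k : ℝ) := Real.sqrt_pos.2 hk0
  have hratio : √(n : ℝ) / √k ≤ √(2 / t) := by
    rw [← Real.sqrt_div hnpos.le]
    apply Real.sqrt_le_sqrt
    rw [div_le_div_iff₀ hk0 ht0]
    linarith
  -- first error
  have e1 : |IQ D ρ (√n) ((k, f') :: l) G 0 - ∫ y, F (y / √n) ∂(kap D ρ k 0)| ≤
      M₁ * (ε / (3 * K₁)) * (Cs / √k) := by
    show |∫ y, f' (y / √n) * IQ D ρ (√n) l G y ∂(kap D ρ k 0) - ∫ y, F (y / √n) ∂(kap D ρ k 0)| ≤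
      M₁ * (ε / (3 * K₁)) * (Cs / √k)
    rw [← integral_sub hIi hFi]
    have h1 := norm_integral_le_of_norm_le_const (μ := kap D ρ k 0) (C := M₁ * (ε / (3 * K₁)))
      (f := fun y => f' (y / √n) * IQ D ρ (√n) l G y - F (y / √n)) (by
        filter_upwards [hae] with y hy
        rw [Real.norm_eq_abs, hF]
        simp only
        rw [← mul_sub, abs_mul]
        exact mul_le_mul (hfBL.bd _) hy (abs_nonneg _) hM₁.le)
    rw [Real.norm_eq_abs] at h1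
    refine h1.trans ?_
    have h3 : 0 ≤ M₁ * (ε / (3 * K₁)) := by positivity
    exact mul_le_mul_of_nonneg_left hmass h3
  have e1' : √n * B * |IQ D ρ (√n) ((k, f') :: l) G 0 - ∫ y, F (y / √n) ∂(kap D ρ k 0)| ≤ ε / 3 := by
    calc √n * B * |IQ D ρ (√n) ((k, f') :: l) G 0 - ∫ y, F (y / √n) ∂(kap D ρ k 0)|
        ≤ √n * C₁ * (M₁ * (ε / (3 * K₁)) * (Cs / √k)) := by gcongr
      _ = (√n / √k) * (C₁ * M₁ * Cs) * (ε / (3 * K₁)) := by ring
      _ ≤ √(2 / t) * (C₁ * M₁ * Cs) * (ε / (3 * K₁)) := by gcongr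
      _ = K₁ * (ε / (3 * K₁)) := by rw [hK₁]; ring
      _ = ε / 3 := by field_simp
  -- second error
  have e2 : |√n * ∫ y, F (y / √n) ∂(kap D ρ k 0) - v * DD ((k : ℝ) / n) F| ≤
      MF * (ε / (3 * (C₁ * MF))) := by
    have h1 := hn₂ n hn2 k hk1 hkn _ (E1c_BL_div hMF0 hFBL)
    have h2 : ∫ y, F (y / √n) / MF ∂(kap D ρ k 0) = (∫ y, F (y / √n) ∂(kap D ρ k 0)) / MF :=
      integral_div _ _
    have h3 : DD ((k : ℝ) / n) (fun x => F x / MF) = DD ((k : ℝ) / n) F / MF := by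
      unfold DD
      rw [← integral_div]
      congr 1
      funext y
      ring
    rw [h2, h3] at h1
    have h4 : √n * ∫ y, F (y / √n) ∂(kap D ρ k 0) - v * DD ((k : ℝ) / n) F =
        MF * (√n * ((∫ y, F (y / √n) ∂(kap D ρ k 0)) / MF) - v * (DD ((k : ℝ) / n) F / MF)) := by
      field_simp
    rw [h4, abs_mul, abs_of_pos hMF0]
    gcongr
  have e2' : B * |√n * ∫ y, F (y / √n) ∂(kap D ρ k 0) - v * DD ((k : ℝ) / n) F| ≤ ε / 3 := by
    calc B * |√n * ∫ y, F (y / √n) ∂(kap D ρ k 0) - v * DD ((k : ℝ) / n) F|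
        ≤ C₁ * (MF * (ε / (3 * (C₁ * MF)))) := by gcongr
      _ = ε / 3 := by field_simp
  -- third error
  have e3 : |DD ((k : ℝ) / n) F - DD t F| ≤ 8 * MF * (2 / n) / (t / 2) ^ 2 := by
    have hkn' : t / 2 ≤ (k : ℝ) / n := by
      rw [le_div_iff₀ hnpos]; exact hk1
    refine (DD_time hd0 hd1 (s := t) (t := (k : ℝ) / n) (by linarith) hkn' F hFm MF
      hFBL.bd).trans ?_
    have h1 : |(k : ℝ) / n - t| ≤ 2 / n := by
      have h2 : (k : ℝ) / n - t = ((k : ℝ) - t * n) / n := by field_simp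
      rw [h2, abs_div, abs_of_pos hnpos]
      gcongr
    gcongr
  have e3' : v * B * |DD ((k : ℝ) / n) F - DD t F| ≤ ε / 3 := by
    calc v * B * |DD ((k : ℝ) / n) F - DD t F|
        ≤ v * C₁ * (8 * MF * (2 / n) / (t / 2) ^ 2) := by gcongr
      _ = (48 * C₁ * v * MF) / (3 * ((t / 2) ^ 2 * n)) := by field_simp; ring
      _ ≤ (ε * (t / 2) ^ 2 * n) / (3 * ((t / 2) ^ 2 * n)) := by gcongr
      _ = ε / 3 := by field_simp
  -- conclusion
  rw [e0, hval]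
  have e4 : n * √n * (B / n * IQ D ρ (√n) ((k, f') :: l) G 0) - v * B * DD t F =
      √n * B * (IQ D ρ (√n) ((k, f') :: l) G 0 - ∫ y, F (y / √n) ∂(kap D ρ k 0)) +
      B * (√n * ∫ y, F (y / √n) ∂(kap D ρ k 0) - v * DD ((k : ℝ) / n) F) +
      v * B * (DD ((k : ℝ) / n) F - DD t F) := by
    field_simp
    ring
  rw [e4]
  have h5 : 0 < √(n : ℝ) * B := by positivity
  have h6 : 0 < v * B := by positivity
  have a1 : |√n * B * (IQ D ρ (√n) ((k, f') :: l) G 0 - ∫ y, F (y / √n) ∂(kap D ρ k 0))| ≤ ε / 3 := by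
    rw [abs_mul, abs_of_pos h5]; exact e1'
  have a2 : |B * (√n * ∫ y, F (y / √n) ∂(kap D ρ k 0) - v * DD ((k : ℝ) / n) F)| ≤ ε / 3 := by
    rw [abs_mul, abs_of_pos hB0]; exact e2'
  have a3 : |v * B * (DD ((k : ℝ) / n) F - DD t F)| ≤ ε / 3 := by
    rw [abs_mul, abs_of_pos h6]; exact e3'
  refine (abs_add_le _ _).trans ?_
  refine (add_le_add ((abs_add_le _ _).trans (add_le_add a1 a2)) a3).trans ?_
  linarith

/-- **[FV-E1b]** Finite-dimensional distributions given `N = n`, unnormalised.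
PROOF. Let `ts = (t₁, f₁) :: ts'`, `l = (k₁, f₁) :: l'`, `m = n - tot l`, `G = n · hit m` and
`g = B psi (m/n)` (`hit_asymp` with `c = (1 - T)/2`; `|psi (m/n) - psi (1-T)| ≤ C/n`, so take
`g = B psi (1 - T)`, `BL M` with `M` depending on `T, C₀` only; `B ∈ [c₀, C₀]`: replace `g` by
`psi (1-T)` and `G` by `G/B` so that the uniformity in `B` is not an issue). `n√n IQ l (hit m) 0 =
√n ∫ f₁(y/√n) IQ l' G y ∂(kap k₁ 0)`; the function `IQ l' (G/B)` is within `ε'` of `IA ts' (psi (1-T)) (y/√n)`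
on the coset of `k₁ a` (`IQ_asymp`), where `kap k₁ 0` lives (`ae_kap`), and `√n (kap k₁ 0).real univ ≤ C`
(`surv`). By `meander` (scaled to `BL M'`) `√n ∫ f₁ · IA … ∂(kap k₁ 0) → v · DD t₁ (…)`
(`DD_time`). -/
theorem fdd_asymp (hD : Dom D) (hρ : Std ρ) : ∃ c₀ > (0 : ℝ), ∃ C₀ > (0 : ℝ),
    ∀ ts₀ : List (ℝ × (ℝ → ℝ)), Adm ts₀ → ts₀ ≠ [] → ∀ ε > (0 : ℝ), ∃ n₀ : ℕ, ∀ n ≥ n₀, 0 < hit D ρ n 0 →
    ∃ B : ℝ, c₀ ≤ B ∧ B ≤ C₀ ∧
    (∀ l, Match n l ts₀ → |n * √n * IQ D ρ (√n) l (hit D ρ (n - tot l)) 0 - B * val ts₀| ≤ ε) ∧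
    (∀ l, Match n l (ts₀.map fun p => (p.1, fun _ => (1 : ℝ))) →
      |n * √n * IQ D ρ (√n) l (hit D ρ (n - tot l)) 0 - B * val1 ts₀| ≤ ε) := by
  obtain ⟨a, h, hL⟩ := exists_lat hρ
  obtain ⟨v, hv, hmea⟩ := meander hD hρ
  obtain ⟨c₁, hc₁, C₁, hC₁, hhit⟩ := hit_asymp hD hρ hL
  refine ⟨v * c₁, by positivity, v * C₁, by positivity, fun ts₀ hts₀ hne ε hε => ?_⟩
  cases ts₀ with
  | nil => exact absurd rfl hne
  | cons q ts =>
  obtain ⟨t, f⟩ := q
  have hts₁ : Adm ((t, fun _ => (1 : ℝ)) :: ts.map fun p => (p.1, fun _ => (1 : ℝ))) := by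
    obtain ⟨h1, h2, M, hM, h3⟩ := hts₀
    refine ⟨?_, ?_, 1, one_pos, ?_⟩
    · intro p hp
      rcases List.mem_cons.1 hp with rfl | hp
      · exact h1 (t, f) List.mem_cons_self
      · obtain ⟨p', hp', rfl⟩ := List.mem_map.1 hp
        exact h1 p' (List.mem_cons_of_mem _ hp')
    · rw [List.map_cons, List.sum_cons] at h2 ⊢
      rw [List.map_map]
      exact h2
    · have hone : BL 1 fun _ : ℝ => (1 : ℝ) :=
        ⟨fun x => by simp, fun x y => by simp⟩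
      intro p hp
      rcases List.mem_cons.1 hp with rfl | hp
      · exact hone
      · obtain ⟨p', -, rfl⟩ := List.mem_map.1 hp
        exact hone
  obtain ⟨c, hc⟩ : ∃ c, c = (1 - (t + (ts.map Prod.fst).sum)) / 2 := ⟨_, rfl⟩
  have hc' : c = (1 - (t + ((ts.map fun p => (p.1, fun _ : ℝ => (1 : ℝ))).map Prod.fst).sum)) / 2 := by
    rw [hc, List.map_map]
    rfl
  obtain ⟨η₁, hη₁, n₁, hn₁⟩ := E1c_core hD hρ hL hv hmea hc₁ hC₁ t f ts hts₀ c hc ε hε
  obtain ⟨η₂, hη₂, n₂, hn₂⟩ := E1c_core hD hρ hL hv hmea hc₁ hC₁ t (fun _ => (1 : ℝ))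
    (ts.map fun p => (p.1, fun _ => (1 : ℝ))) hts₁ c hc' ε hε
  have hsum' : t + (ts.map Prod.fst).sum < 1 := by
    have h2 := hts₀.2.1
    rw [List.map_cons, List.sum_cons] at h2
    exact h2
  have hpos : 0 < t + (ts.map Prod.fst).sum := by
    have h2 := E1c_sum_nonneg ts (E1c_tail hts₀).1
    have h3 := hts₀.1 (t, f) List.mem_cons_self
    simp only at h3
    linarith
  obtain ⟨n₀, hn₀⟩ := hhit c (by rw [hc]; linarith) (by rw [hc]; linarith) (min η₁ η₂)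
    (lt_min hη₁ hη₂)
  refine ⟨max n₀ (max n₁ n₂), fun n hn hh0 => ?_⟩
  obtain ⟨B, hB1, hB2, hB⟩ := hn₀ n ((le_max_left _ _).trans hn) hh0
  refine ⟨v * B, by gcongr, by gcongr, fun l hl => ?_, fun l hl => ?_⟩
  · exact hn₁ n ((le_max_left _ _).trans ((le_max_right _ _).trans hn)) B hB1 hB2
      (fun m h1 h2 z h3 h4 => (hB m h1 h2 z h3 h4).trans (min_le_left _ _)) l hl
  · exact hn₂ n ((le_max_right _ _).trans ((le_max_right _ _).trans hn)) B hB1 hB2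
      (fun m h1 h2 z h3 h4 => (hB m h1 h2 z h3 h4).trans (min_le_right _ _)) l hl

end Pool.Agent.BPT
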