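import Pool.Agent.MP_99a865_pr.FV.A1c
import Pool.Agent.MP_99a865_pr.FV.A4

open MeasureTheory ProbabilityTheory Filter Topology
open scoped ENNReal NNReal

namespace Pool.Agent.BPT

variable {D : Set ℝ} {μ ν : Measure ℝ} {σ : ℝ}

/-! **[FV-F1]** The queue and its random walk. -/

theorem F1_memLp {τ : Measure ℝ} (h : Integrable (fun x : ℝ => x ^ 2) τ) :
    MemLp (fun x : ℝ => x) 2 τ :=
  (memLp_two_iff_integrable_sq measurable_id.aestronglyMeasurable).mpr h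

theorem F1_stepMeas : Measurable (fun p : ℝ × ℝ => (p.2 - p.1) / σ) :=
  (measurable_snd.sub measurable_fst).div_const σ

/-- mean zero, variance one (`u`, `v` independent) -/
theorem QStd.std (hQ : QStd μ ν σ) : Std (stepLaw μ ν σ) := by
  have hprob := hQ.probμ
  have hprob' := hQ.probν
  have hm1 : MemLp (fun p : ℝ × ℝ => p.1) 2 (μ.prod ν) :=
    (F1_memLp hQ.int2μ).comp_measurePreserving measurePreserving_fst
  have hm2 : MemLp (fun p : ℝ × ℝ => p.2) 2 (μ.prod ν) :=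
    (F1_memLp hQ.int2ν).comp_measurePreserving measurePreserving_snd
  have hi1 : Integrable (fun p : ℝ × ℝ => p.1) (μ.prod ν) := hm1.integrable one_le_two
  have hi2 : Integrable (fun p : ℝ × ℝ => p.2) (μ.prod ν) := hm2.integrable one_le_two
  have hμ : ∫ p : ℝ × ℝ, p.1 ∂(μ.prod ν) = 1 := by
    rw [integral_fun_fst (fun x : ℝ => x)]; simp [hQ.meanμ]
  have hν : ∫ p : ℝ × ℝ, p.2 ∂(μ.prod ν) = 1 := by
    rw [integral_fun_snd (fun x : ℝ => x)]; simp [hQ.meanν]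
  have hσ := hQ.pos
  have hms : MemLp (fun p : ℝ × ℝ => (p.2 - p.1)) 2 (μ.prod ν) := hm2.sub hm1
  have hsq : Integrable (fun p : ℝ × ℝ => (p.2 - p.1) ^ 2) (μ.prod ν) := hms.integrable_sq
  refine ⟨?_, ?_, ?_, ?_⟩
  · exact Measure.isProbabilityMeasure_map F1_stepMeas.aemeasurable
  · have hm2' : Measurable (fun x : ℝ => x ^ 2) := measurable_id.pow_const 2
    rw [stepLaw, integrable_map_measure hm2'.aestronglyMeasurable
      F1_stepMeas.aemeasurable]
    have h1 : ((fun x : ℝ => x ^ 2) ∘ fun p : ℝ × ℝ => (p.2 - p.1) / σ) =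
        fun p : ℝ × ℝ => (p.2 - p.1) ^ 2 / σ ^ 2 := by
      ext p; simp [div_pow]
    rw [h1]
    exact hsq.div_const _
  · rw [stepLaw, integral_map F1_stepMeas.aemeasurable measurable_id'.aestronglyMeasurable,
      integral_div, integral_sub hi2 hi1, hμ, hν]
    simp
  · have hm2' : Measurable (fun x : ℝ => x ^ 2) := measurable_id.pow_const 2
    rw [stepLaw, integral_map F1_stepMeas.aemeasurable hm2'.aestronglyMeasurable]
    have h1 : (fun p : ℝ × ℝ => ((p.2 - p.1) / σ) ^ 2) =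
        fun p : ℝ × ℝ => (((p.2 - 1) ^ 2 + (p.1 - 1) ^ 2) - 2 * ((p.1 - 1) * (p.2 - 1))) / σ ^ 2 := by
      ext p
      rw [div_pow]
      congr 1
      ring
    have hc1 : MemLp (fun p : ℝ × ℝ => p.1 - 1) 2 (μ.prod ν) := hm1.sub (memLp_const 1)
    have hc2 : MemLp (fun p : ℝ × ℝ => p.2 - 1) 2 (μ.prod ν) := hm2.sub (memLp_const 1)
    have hprodint : Integrable (fun p : ℝ × ℝ => (p.1 - 1) * (p.2 - 1)) (μ.prod ν) :=
      hc1.integrable_mul hc2
    have hz : ∫ p : ℝ × ℝ, (p.1 - 1) * (p.2 - 1) ∂(μ.prod ν) = 0 := by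
      rw [integral_prod_mul (fun x : ℝ => x - 1) (fun x : ℝ => x - 1)]
      have h2 : ∫ x, (x - 1) ∂μ = 0 := by
        rw [integral_sub ((F1_memLp hQ.int2μ).integrable one_le_two) (integrable_const _), hQ.meanμ]
        simp
      rw [h2, zero_mul]
    have hv2 : ∫ p : ℝ × ℝ, (p.2 - 1) ^ 2 ∂(μ.prod ν) = ∫ x, (x - 1) ^ 2 ∂ν := by
      rw [integral_fun_snd (fun x : ℝ => (x - 1) ^ 2)]; simp
    have hv1 : ∫ p : ℝ × ℝ, (p.1 - 1) ^ 2 ∂(μ.prod ν) = ∫ x, (x - 1) ^ 2 ∂μ := by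
      rw [integral_fun_fst (fun x : ℝ => (x - 1) ^ 2)]; simp
    have hadd : Integrable (fun p : ℝ × ℝ => (p.2 - 1) ^ 2 + (p.1 - 1) ^ 2) (μ.prod ν) :=
      hc2.integrable_sq.add hc1.integrable_sq
    rw [h1, integral_div, integral_sub hadd
      (hprodint.const_mul 2), integral_const_mul, hz,
      integral_add hc2.integrable_sq hc1.integrable_sq, hv1, hv2, hQ.var]
    have h3 : σ ^ 2 ≠ 0 := by positivity
    rw [hQ.var] at h3
    rw [mul_zero, sub_zero, add_comm, div_self h3]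

theorem map_steps (hQ : QStd μ ν σ) : (PQ μ ν).map (steps σ) = seqLaw (stepLaw μ ν σ) := by
  have hprob := hQ.probμ
  have hprob' := hQ.probν
  exact map_seqLaw (μ.prod ν) (fun p => (p.2 - p.1) / σ) F1_stepMeas

theorem measurable_steps : Measurable (steps σ) :=
  measurable_pi_lambda _ fun i => F1_stepMeas.comp (measurable_pi_apply i)

theorem nz_eq (k : ℕ) (ω : ℕ → ℝ × ℝ) : nz σ k ω = S k (steps σ ω) := by
  unfold nz Zw Dp Ar S steps
  rw [← Finset.sum_sub_distrib, Finset.sum_div]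

theorem Zw_mem (hD : Dom D) (hσ : 0 < σ) (k : ℕ) (ω : ℕ → ℝ × ℝ) : Zw k ω ∈ D ↔ nz σ k ω ∈ D := by
  unfold nz
  rcases hD with rfl | rfl
  · simp only [Set.mem_Ici]
    rw [le_div_iff₀ hσ, zero_mul]
  · simp only [Set.mem_Ioi]
    rw [lt_div_iff₀ hσ, zero_mul]

theorem aliveQ_iff (hD : Dom D) (hσ : 0 < σ) (k : ℕ) (ω : ℕ → ℝ × ℝ) :
    AliveQ D k ω ↔ Alive D 0 k (steps σ ω) := by
  unfold AliveQ Alive
  constructor
  · intro h j h1 h2
    rw [zero_add, ← nz_eq]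
    exact (Zw_mem hD hσ j ω).mp (h j h1 h2)
  · intro h j h1 h2
    have := h j h1 h2
    rw [zero_add, ← nz_eq] at this
    exact (Zw_mem hD hσ j ω).mpr this

theorem Ar_add (k l : ℕ) (ω : ℕ → ℝ × ℝ) : Ar (k + l) ω = Ar k ω + Ar l (shift k ω) := by
  unfold Ar shift
  rw [Finset.sum_range_add]

theorem Dp_add (k l : ℕ) (ω : ℕ → ℝ × ℝ) : Dp (k + l) ω = Dp k ω + Dp l (shift k ω) := by
  unfold Dp shift
  rw [Finset.sum_range_add]

theorem nz_add (k l : ℕ) (ω : ℕ → ℝ × ℝ) : nz σ (k + l) ω = nz σ k ω + nz σ l (shift k ω) := by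
  unfold nz Zw
  rw [Ar_add, Dp_add]
  ring

theorem measurable_Ar (k : ℕ) : Measurable (Ar k) :=
  Finset.measurable_sum _ fun i _ => measurable_fst.comp (measurable_pi_apply i)

theorem measurable_Dp (k : ℕ) : Measurable (Dp k) :=
  Finset.measurable_sum _ fun i _ => measurable_snd.comp (measurable_pi_apply i)

theorem measurable_nz (k : ℕ) : Measurable (nz σ k) :=
  ((measurable_Dp k).sub (measurable_Ar k)).div_const σ

theorem measurableSet_aliveQ (hD : Dom D) (k : ℕ) : MeasurableSet {ω | AliveQ D k ω} := by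
  have h : {ω : ℕ → ℝ × ℝ | AliveQ D k ω} =
      ⋂ j : ℕ, ⋂ _ : 1 ≤ j, ⋂ _ : j ≤ k, {ω | Zw j ω ∈ D} := by
    ext ω
    simp [AliveQ]
  rw [h]
  refine MeasurableSet.iInter fun j => MeasurableSet.iInter fun _ => MeasurableSet.iInter fun _ => ?_
  exact hD.meas.preimage ((measurable_Dp j).sub (measurable_Ar j))

theorem measurableSet_EvN (hD : Dom D) (n : ℕ) : MeasurableSet (EvN D n) := by
  have h : EvN D n = {ω : ℕ → ℝ × ℝ | 1 ≤ n} ∩ ({ω | AliveQ D (n - 1) ω} ∩ {ω | Zw n ω ∉ D}) := by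
    ext ω
    simp [EvN]
  rw [h]
  refine (MeasurableSet.const _).inter ((measurableSet_aliveQ hD _).inter ?_)
  exact (hD.meas.preimage ((measurable_Dp n).sub (measurable_Ar n))).compl

/-- almost surely all times are nonnegative -/
theorem ae_nonneg (hQ : QStd μ ν σ) : ∀ᵐ ω ∂(PQ μ ν), ∀ k, 0 ≤ (ω k).1 ∧ 0 ≤ (ω k).2 := by
  have hprob := hQ.probμ
  have hprob' := hQ.probν
  rw [ae_all_iff]
  intro k
  have h1 : ∀ᵐ x ∂μ, 0 ≤ x := by
    rw [ae_iff]
    have : {a : ℝ | ¬ 0 ≤ a} = Set.Iio 0 := by ext a; simp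
    rw [this]; exact hQ.nonnegμ
  have h2 : ∀ᵐ x ∂ν, 0 ≤ x := by
    rw [ae_iff]
    have : {a : ℝ | ¬ 0 ≤ a} = Set.Iio 0 := by ext a; simp
    rw [this]; exact hQ.nonnegν
  have h3 : ∀ᵐ p ∂(μ.prod ν), 0 ≤ p.1 :=
    measurePreserving_fst.quasiMeasurePreserving.ae h1
  have h4 : ∀ᵐ p ∂(μ.prod ν), 0 ≤ p.2 :=
    measurePreserving_snd.quasiMeasurePreserving.ae h2
  have hev : MeasurePreserving (Function.eval k) (PQ μ ν) (μ.prod ν) :=
    measurePreserving_eval_infinitePi (fun _ : ℕ => μ.prod ν) k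
  exact hev.quasiMeasurePreserving.ae (h3.and h4)

/-- law of the normalised walk when busy up to time `k` -/
theorem lintegral_alive (hD : Dom D) (hQ : QStd μ ν σ) (k : ℕ) (f : ℝ → ℝ≥0∞) (hf : Measurable f) :
    ∫⁻ ω in {ω | AliveQ D k ω}, f (nz σ k ω) ∂(PQ μ ν) = ∫⁻ y, f y ∂(kap D (stepLaw μ ν σ) k 0) := by
  have hprob := hQ.std.prob
  have hfm : Measurable (fun ω : ℕ → ℝ => f (0 + S k ω)) :=
    hf.comp (measurable_const.add (measurable_S k))
  rw [lintegral_kap_eq hD k 0 f hf, ← map_steps hQ,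
    setLIntegral_map (measurableSet_alive hD 0 k) hfm measurable_steps]
  have h1 : {ω : ℕ → ℝ × ℝ | AliveQ D k ω} = steps σ ⁻¹' {ω | Alive D 0 k ω} := by
    ext ω
    exact aliveQ_iff hD hQ.pos k ω
  rw [h1]
  apply lintegral_congr
  intro ω
  rw [nz_eq, zero_add]

theorem PQ_EvN (hD : Dom D) (hQ : QStd μ ν σ) (n : ℕ) :
    (PQ μ ν).real (EvN D n) = hit D (stepLaw μ ν σ) n 0 := by
  have hset : EvN D n = steps σ ⁻¹' {ω | 1 ≤ n ∧ Alive D 0 (n - 1) ω ∧ 0 + S n ω ∉ D} := by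
    ext ω
    simp only [EvN, Set.mem_ofPred_eq, Set.mem_preimage, zero_add]
    rw [aliveQ_iff hD hQ.pos, Zw_mem hD hQ.pos, nz_eq]
  have hmeas : MeasurableSet {ω : ℕ → ℝ | 1 ≤ n ∧ Alive D 0 (n - 1) ω ∧ 0 + S n ω ∉ D} := by
    have h : {ω : ℕ → ℝ | 1 ≤ n ∧ Alive D 0 (n - 1) ω ∧ 0 + S n ω ∉ D} =
        {ω : ℕ → ℝ | 1 ≤ n} ∩ ({ω | Alive D 0 (n - 1) ω} ∩ {ω | 0 + S n ω ∉ D}) := by
      ext ω
      simp
    rw [h]
    exact (MeasurableSet.const _).inter ((measurableSet_alive hD 0 _).inter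
      (hD.meas.preimage (measurable_const.add (measurable_S n))).compl)
  rw [hit, ← map_steps hQ, measureReal_def, measureReal_def,
    Measure.map_apply measurable_steps hmeas, ← hset]

/-- second moments of the partial sums -/
theorem nz_sq (hQ : QStd μ ν σ) (k : ℕ) : ∫⁻ ω, ENNReal.ofReal ((nz σ k ω) ^ 2) ∂(PQ μ ν) = k := by
  have hstd := hQ.std
  have h1 : ∫⁻ ω, ENNReal.ofReal ((nz σ k ω) ^ 2) ∂(PQ μ ν) =
      ∫⁻ ω, ENNReal.ofReal ((S k ω) ^ 2) ∂(seqLaw (stepLaw μ ν σ)) := by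
    rw [← map_steps hQ, lintegral_map ((measurable_S k).pow_const 2).ennreal_ofReal
      measurable_steps]
    apply lintegral_congr
    intro ω
    rw [nz_eq]
  rw [h1, ← ofReal_integral_eq_lintegral_ofReal (integrable_S_sq hstd k)
    (Eventually.of_forall fun ω => sq_nonneg _), integral_S_sq hstd k, ENNReal.ofReal_natCast]

/-- Chebyshev for the service times, `Var v ≤ σ²` -/
theorem Dp_cheb (hQ : QStd μ ν σ) (k : ℕ) (hk : 1 ≤ k) :
    (PQ μ ν).real {ω | 4 * (k : ℝ) ≤ Dp k ω} ≤ σ ^ 2 / (9 * k) := by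
  have hprob := hQ.probμ
  have hprob' := hQ.probν
  have hk0 : (0 : ℝ) < k := by exact_mod_cast hk
  let X : ℕ → (ℕ → ℝ × ℝ) → ℝ := fun i ω => (ω i).2
  have hind : iIndepFun X (PQ μ ν) :=
    iIndepFun_infinitePi (P := fun _ : ℕ => μ.prod ν) (X := fun _ p => p.2)
      (fun _ => measurable_snd)
  have hev : ∀ i, MeasurePreserving (fun ω : ℕ → ℝ × ℝ => (ω i).2) (PQ μ ν) ν := fun i =>
    measurePreserving_snd.comp (measurePreserving_eval_infinitePi (fun _ : ℕ => μ.prod ν) i)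
  have hmem : ∀ i, MemLp (X i) 2 (PQ μ ν) := fun i =>
    (F1_memLp hQ.int2ν).comp_measurePreserving (hev i)
  have hmean : ∀ i, ∫ ω, X i ω ∂(PQ μ ν) = 1 := by
    intro i
    have h1 := integral_map (μ := PQ μ ν) (hev i).measurable.aemeasurable
      (f := fun x : ℝ => x) measurable_id'.aestronglyMeasurable
    rw [(hev i).map_eq, hQ.meanν] at h1
    exact h1.symm
  have hvar : ∀ i, variance (X i) (PQ μ ν) ≤ σ ^ 2 := by
    intro i
    rw [variance_eq_integral (hmem i).1.aemeasurable, hmean i, hQ.var]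
    have h1 : ∫ ω, (X i ω - 1) ^ 2 ∂(PQ μ ν) = ∫ x, (x - 1) ^ 2 ∂ν := by
      have h3 := integral_map (μ := PQ μ ν) (hev i).measurable.aemeasurable
        (f := fun x : ℝ => (x - 1) ^ 2)
        ((measurable_id'.sub_const 1).pow_const 2).aestronglyMeasurable
      rw [(hev i).map_eq] at h3
      exact h3.symm
    rw [h1]
    have h2 : 0 ≤ ∫ x, (x - 1) ^ 2 ∂μ := integral_nonneg fun x => sq_nonneg _
    linarith
  have hsumvar : variance (∑ i ∈ Finset.range k, X i) (PQ μ ν) ≤ k * σ ^ 2 := by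
    rw [IndepFun.variance_sum (fun i _ => hmem i) (fun i _ j _ hij => hind.indepFun hij)]
    calc ∑ i ∈ Finset.range k, variance (X i) (PQ μ ν) ≤ ∑ _i ∈ Finset.range k, σ ^ 2 :=
          Finset.sum_le_sum fun i _ => hvar i
      _ = k * σ ^ 2 := by rw [Finset.sum_const, Finset.card_range, nsmul_eq_mul]
  have hsum : MemLp (∑ i ∈ Finset.range k, X i) 2 (PQ μ ν) := memLp_finsetSum' _ fun i _ => hmem i
  have hDp : ∀ ω, (∑ i ∈ Finset.range k, X i) ω = Dp k ω := by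
    intro ω
    rw [Finset.sum_apply]; rfl
  have hE : ∫ ω, (∑ i ∈ Finset.range k, X i) ω ∂(PQ μ ν) = k := by
    have : (fun ω => (∑ i ∈ Finset.range k, X i) ω) =
        fun ω => ∑ i ∈ Finset.range k, X i ω := by
      ext ω; rw [Finset.sum_apply]
    rw [this, integral_finsetSum _ fun i _ => (hmem i).integrable one_le_two,
      Finset.sum_congr rfl fun i _ => hmean i]
    simp
  have hch := meas_ge_le_variance_div_sq hsum (c := 3 * (k : ℝ)) (by positivity)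
  have h1 : (PQ μ ν) {ω | 4 * (k : ℝ) ≤ Dp k ω} ≤ ENNReal.ofReal (σ ^ 2 / (9 * k)) := by
    calc (PQ μ ν) {ω | 4 * (k : ℝ) ≤ Dp k ω}
        ≤ (PQ μ ν) {ω | 3 * (k : ℝ) ≤ |(∑ i ∈ Finset.range k, X i) ω -
          ∫ ω, (∑ i ∈ Finset.range k, X i) ω ∂(PQ μ ν)|} := by
          apply measure_mono
          intro ω hω
          change 4 * (k : ℝ) ≤ Dp k ω at hω
          change 3 * (k : ℝ) ≤ |(∑ i ∈ Finset.range k, X i) ω -
            ∫ ω, (∑ i ∈ Finset.range k, X i) ω ∂(PQ μ ν)|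
          rw [hE, hDp]
          refine le_trans ?_ (le_abs_self _)
          linarith
      _ ≤ ENNReal.ofReal (variance (∑ i ∈ Finset.range k, X i) (PQ μ ν) / (3 * (k : ℝ)) ^ 2) := hch
      _ ≤ ENNReal.ofReal (σ ^ 2 / (9 * k)) := by
          apply ENNReal.ofReal_le_ofReal
          rw [div_le_div_iff₀ (by positivity) (by positivity)]
          nlinarith [hsumvar, mul_pos hk0 hk0]
  rw [measureReal_def]
  exact ENNReal.toReal_le_of_le_ofReal (by positivity) h1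

end Pool.Agent.BPT
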