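import Pool.Agent.MP_99a865_pr.FV.F2
import Pool.Agent.MP_99a865_pr.FV.A11
import Pool.Agent.MP_99a865_pr.FV.A14

open MeasureTheory ProbabilityTheory Filter Topology
open scoped ENNReal NNReal

namespace Pool.Agent.BPT

variable {D : Set ℝ} {μ ν : Measure ℝ} {σ : ℝ}

theorem F3_tsum_le {f : ℕ → ℝ} (hf : ∀ a, 0 ≤ f a) {C : ℝ} (h : ∀ A : Finset ℕ, ∑ a ∈ A, f a ≤ C) :
    ∑' a, ENNReal.ofReal (f a) ≤ ENNReal.ofReal C := by
  rw [ENNReal.tsum_eq_iSup_sum]
  refine iSup_le fun A => ?_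
  rw [← ENNReal.ofReal_sum_of_nonneg (fun a _ => hf a)]
  exact ENNReal.ofReal_le_ofReal (h A)

/-- the case of a large first time -/
theorem F3_caseA (hD : Dom D) {ρ : Measure ℝ} (hρ : Std ρ) : ∃ C > (0 : ℝ), ∀ i m : ℕ, 1 ≤ i → 1 ≤ m →
    ∀ Δ : ℝ, ∫⁻ y in {y | y + Δ ∈ D}, ENNReal.ofReal (hit D ρ m (y + Δ)) ∂(kap D ρ i 0) ≤
      ENNReal.ofReal (C / (i * √i) * (1 + |Δ| / √m)) := by
  haveI := hρ.prob
  obtain ⟨C₁, hC₁, hwin⟩ := win hD hρ
  obtain ⟨C₂, hC₂, hsum⟩ := hit_sum hD hρ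
  refine ⟨C₁ * C₂, by positivity, ?_⟩
  intro i m hi hm Δ
  have hipos : (0 : ℝ) < i := by exact_mod_cast hi
  have hsi : 0 < √(i : ℝ) := Real.sqrt_pos.2 hipos
  obtain ⟨g, hg0, hgh, hg1, hg2⟩ := hsum m hm
  have hκ : ∀ s : ℝ, kap D ρ i 0 (Set.Ico s (s + 1)) ≤
      ENNReal.ofReal (C₁ * (1 + max s 0) / (i * √i)) := by
    intro s
    have h1 : kap D ρ i 0 (Set.Ico s (s + 1)) ≤
        kap D ρ i 0 (Set.Ico (max s 0) (max s 0 + 1)) := by
      refine measure_mono_ae ?_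
      have h3 : ∀ᵐ v ∂(kap D ρ i 0), v ∈ D := by
        rw [ae_iff]
        exact kap_compl hD i 0 (Or.inl hi)
      filter_upwards [h3] with v hv
      intro h4
      have h5 := hD.nonneg hv
      have h6 := le_max_left s 0
      exact ⟨max_le h4.1 h5, lt_of_lt_of_le h4.2 (by linarith)⟩
    refine h1.trans ?_
    have h2 := (hwin i hi 0 (max s 0) le_rfl (le_max_right _ _)).2.2.2
    unfold Measure.real at h2
    rw [← ENNReal.ofReal_toReal (measure_ne_top (kap D ρ i 0) (Set.Ico (max s 0) (max s 0 + 1)))]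
    refine ENNReal.ofReal_le_ofReal (h2.trans (le_of_eq ?_))
    ring
  have hset : MeasurableSet {y : ℝ | y + Δ ∈ D} := (measurable_add_const _) hD.meas
  have h1 : ∫⁻ y in {y | y + Δ ∈ D}, ENNReal.ofReal (hit D ρ m (y + Δ)) ∂(kap D ρ i 0) ≤
      ∫⁻ y, ∑' c : ℕ, (Set.Ico ((c : ℝ) - Δ) ((c : ℝ) - Δ + 1)).indicator
        (fun _ => ENNReal.ofReal (g c)) y ∂(kap D ρ i 0) := by
    rw [← lintegral_indicator hset]
    refine lintegral_mono fun y => ?_
    by_cases hy : y + Δ ∈ D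
    · rw [Set.indicator_of_mem (show y ∈ {y : ℝ | y + Δ ∈ D} from hy)]
      have hy0 := hD.nonneg hy
      have h4 : y ∈ Set.Ico ((⌊y + Δ⌋₊ : ℝ) - Δ) ((⌊y + Δ⌋₊ : ℝ) - Δ + 1) := by
        have h5 := Nat.floor_le hy0
        have h6 := Nat.lt_floor_add_one (y + Δ)
        constructor <;> linarith
      refine le_trans ?_ (ENNReal.le_tsum ⌊y + Δ⌋₊)
      rw [Set.indicator_of_mem h4]
      exact ENNReal.ofReal_le_ofReal (hgh _ _ (Nat.floor_le hy0) (Nat.lt_floor_add_one _))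
    · rw [Set.indicator_of_notMem (show y ∉ {y : ℝ | y + Δ ∈ D} from hy)]
      exact zero_le
  refine h1.trans ?_
  rw [lintegral_tsum (fun a => (measurable_const.indicator measurableSet_Ico).aemeasurable)]
  have h2 : ∀ c : ℕ, ∫⁻ y, (Set.Ico ((c : ℝ) - Δ) ((c : ℝ) - Δ + 1)).indicator
        (fun _ => ENNReal.ofReal (g c)) y ∂(kap D ρ i 0) ≤
      ENNReal.ofReal (C₁ / (i * √i)) *
        (ENNReal.ofReal ((1 + (c : ℝ)) * g c) + ENNReal.ofReal (|Δ| * g c)) := by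
    intro c
    rw [lintegral_indicator_const measurableSet_Ico]
    have hgc := hg0 c
    calc ENNReal.ofReal (g c) * kap D ρ i 0 (Set.Ico ((c : ℝ) - Δ) ((c : ℝ) - Δ + 1))
        ≤ ENNReal.ofReal (g c) * ENNReal.ofReal (C₁ * (1 + max ((c : ℝ) - Δ) 0) / (i * √i)) :=
          mul_le_mul_right (hκ _) _
      _ = ENNReal.ofReal (g c * (C₁ * (1 + max ((c : ℝ) - Δ) 0) / (i * √i))) := by
          rw [ENNReal.ofReal_mul hgc]
      _ ≤ ENNReal.ofReal (C₁ / (i * √i) * ((1 + (c : ℝ)) * g c + |Δ| * g c)) := by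
          apply ENNReal.ofReal_le_ofReal
          have h7 : max ((c : ℝ) - Δ) 0 ≤ c + |Δ| := by
            have h8 := neg_abs_le Δ
            have h9 : (0 : ℝ) ≤ c := Nat.cast_nonneg c
            exact max_le (by linarith) (by positivity)
          have h10 : g c * (C₁ * (1 + max ((c : ℝ) - Δ) 0) / (i * √i)) =
              C₁ / (i * √i) * ((1 + max ((c : ℝ) - Δ) 0) * g c) := by ring
          rw [h10]
          refine mul_le_mul_of_nonneg_left ?_ (by positivity)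
          rw [← add_mul]
          refine mul_le_mul_of_nonneg_right ?_ hgc
          linarith
      _ = ENNReal.ofReal (C₁ / (i * √i)) *
        (ENNReal.ofReal ((1 + (c : ℝ)) * g c) + ENNReal.ofReal (|Δ| * g c)) := by
          rw [ENNReal.ofReal_mul (by positivity), ENNReal.ofReal_add (by positivity) (by positivity)]
  refine (ENNReal.tsum_le_tsum h2).trans ?_
  rw [ENNReal.tsum_mul_left, ENNReal.tsum_add]
  have h3 : ∑' c : ℕ, ENNReal.ofReal ((1 + (c : ℝ)) * g c) ≤ ENNReal.ofReal C₂ :=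
    F3_tsum_le (fun c => mul_nonneg (by positivity) (hg0 c)) hg1
  have h4 : ∑' c : ℕ, ENNReal.ofReal (|Δ| * g c) ≤ ENNReal.ofReal (|Δ| * (C₂ / √m)) := by
    refine F3_tsum_le (fun c => mul_nonneg (abs_nonneg _) (hg0 c)) fun A => ?_
    rw [← Finset.mul_sum]
    exact mul_le_mul_of_nonneg_left (hg2 A) (abs_nonneg _)
  calc ENNReal.ofReal (C₁ / (i * √i)) * (∑' c : ℕ, ENNReal.ofReal ((1 + (c : ℝ)) * g c) +
        ∑' c : ℕ, ENNReal.ofReal (|Δ| * g c))
      ≤ ENNReal.ofReal (C₁ / (i * √i)) * (ENNReal.ofReal C₂ + ENNReal.ofReal (|Δ| * (C₂ / √m))) :=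
        mul_le_mul_right (add_le_add h3 h4) _
    _ = ENNReal.ofReal (C₁ * C₂ / (i * √i) * (1 + |Δ| / √m)) := by
        rw [← ENNReal.ofReal_add (by positivity) (by positivity), ← ENNReal.ofReal_mul (by positivity)]
        congr 1
        ring

/-- the case of a large last time -/
theorem F3_caseB (hD : Dom D) {ρ : Measure ℝ} (hρ : Std ρ) : ∃ C > (0 : ℝ), ∀ i m : ℕ, 1 ≤ m →
    ∀ Δ : ℝ, ∫⁻ y in {y | y + Δ ∈ D}, ENNReal.ofReal (hit D ρ m (y + Δ)) ∂(kap D ρ i 0) ≤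
      ENNReal.ofReal (C / (m * √m) * (1 + |Δ| / √(i + 1))) := by
  haveI := hρ.prob
  obtain ⟨C₁, hC₁, hhb⟩ := hit_bound hD hρ
  obtain ⟨C₂, hC₂, hsv⟩ := surv hD hρ
  obtain ⟨C₃, hee⟩ := ee_bound hD hρ
  refine ⟨C₁ * (1 + 2 * C₂ + C₃), by positivity, ?_⟩
  intro i m hm Δ
  have hmpos : (0 : ℝ) < m := by exact_mod_cast hm
  have hsm : 0 < √(m : ℝ) := Real.sqrt_pos.2 hmpos
  have hi1 : (0 : ℝ) < √((i : ℝ) + 1) := Real.sqrt_pos.2 (by positivity)
  have hset : MeasurableSet {y : ℝ | y + Δ ∈ D} := (measurable_add_const _) hD.meas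
  have h1 : ∫⁻ y in {y | y + Δ ∈ D}, ENNReal.ofReal (hit D ρ m (y + Δ)) ∂(kap D ρ i 0) ≤
      ∫⁻ y, ENNReal.ofReal (C₁ / (m * √m)) * (ENNReal.ofReal (1 + |Δ|) + ENNReal.ofReal y)
        ∂(kap D ρ i 0) := by
    rw [← lintegral_indicator hset]
    refine lintegral_mono fun y => ?_
    by_cases hy : y + Δ ∈ D
    · rw [Set.indicator_of_mem (show y ∈ {y : ℝ | y + Δ ∈ D} from hy)]
      have hy0 := hD.nonneg hy
      have h2 := (hhb m hm (y + Δ) hy0).1
      refine (ENNReal.ofReal_le_ofReal h2).trans ?_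
      have h3 : C₁ * (1 + (y + Δ)) / (m * √m) = C₁ / (m * √m) * (1 + (y + Δ)) := by ring
      rw [h3, ENNReal.ofReal_mul (by positivity)]
      refine mul_le_mul_right ?_ _
      refine (ENNReal.ofReal_le_ofReal (?_ : _ ≤ (1 + |Δ|) + y)).trans ENNReal.ofReal_add_le
      have := le_abs_self Δ
      linarith
    · rw [Set.indicator_of_notMem (show y ∉ {y : ℝ | y + Δ ∈ D} from hy)]
      exact zero_le
  refine h1.trans ?_
  have hm1 : Measurable (fun y : ℝ => ENNReal.ofReal (1 + |Δ|) + ENNReal.ofReal y) :=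
    measurable_const.add ENNReal.measurable_ofReal
  rw [lintegral_const_mul _ hm1, lintegral_add_left measurable_const, lintegral_const]
  have h2 : kap D ρ i 0 Set.univ ≤ ENNReal.ofReal (min 1 ((1 + 2 * C₂) / √(i + 1))) := by
    rcases Nat.eq_zero_or_pos i with h0 | hi
    · subst h0
      refine (kap_univ_le_one 0 0).trans ?_
      have h3 : min 1 ((1 + 2 * C₂) / √(((0 : ℕ) : ℝ) + 1)) = 1 := by
        apply min_eq_left
        simp only [Nat.cast_zero, zero_add, Real.sqrt_one, div_one]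
        linarith
      rw [h3]
      simp
    · have hipos : (0 : ℝ) < i := by exact_mod_cast hi
      have hi1' : (1 : ℝ) ≤ i := by exact_mod_cast hi
      have h3 := hsv i hi 0 le_rfl
      have h3' : (kap D ρ i 0).real Set.univ ≤ 1 := by
        have := kap_univ_le_one (D := D) (ρ := ρ) i 0
        exact ENNReal.toReal_le_of_le_ofReal (by norm_num) (by simpa using this)
      have h4 : C₂ * (1 + 0) / √(i : ℝ) ≤ (1 + 2 * C₂) / √((i : ℝ) + 1) := by
        have h5 : √((i : ℝ) + 1) ≤ 2 * √(i : ℝ) := by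
          have : √(4 * (i : ℝ)) = 2 * √(i : ℝ) := by
            rw [Real.sqrt_mul (by norm_num), show (4 : ℝ) = 2 ^ 2 by norm_num,
              Real.sqrt_sq (by norm_num)]
          rw [← this]
          exact Real.sqrt_le_sqrt (by linarith)
        rw [div_le_div_iff₀ (Real.sqrt_pos.2 hipos) hi1]
        have h6 : 0 < √(i : ℝ) := Real.sqrt_pos.2 hipos
        nlinarith
      unfold Measure.real at h3 h3'
      rw [← ENNReal.ofReal_toReal (measure_ne_top (kap D ρ i 0) Set.univ)]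
      exact ENNReal.ofReal_le_ofReal (le_min h3' (h3.trans h4))
  have h3 : ∫⁻ y, ENNReal.ofReal y ∂(kap D ρ i 0) ≤ ENNReal.ofReal C₃ := by
    have h4 := hee i 0 le_rfl
    refine h4.trans (le_of_eq ?_)
    simp
  calc ENNReal.ofReal (C₁ / (m * √m)) * (ENNReal.ofReal (1 + |Δ|) * kap D ρ i 0 Set.univ +
        ∫⁻ y, ENNReal.ofReal y ∂(kap D ρ i 0))
      ≤ ENNReal.ofReal (C₁ / (m * √m)) * (ENNReal.ofReal (1 + |Δ|) *
          ENNReal.ofReal (min 1 ((1 + 2 * C₂) / √(i + 1))) + ENNReal.ofReal C₃) :=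
        mul_le_mul_right (add_le_add (mul_le_mul_right h2 _) h3) _
    _ = ENNReal.ofReal (C₁ / (m * √m) * ((1 + |Δ|) * min 1 ((1 + 2 * C₂) / √(i + 1)) + C₃)) := by
        rw [← ENNReal.ofReal_mul (by positivity), ← ENNReal.ofReal_add (by positivity) (by positivity),
          ← ENNReal.ofReal_mul (by positivity)]
    _ ≤ ENNReal.ofReal (C₁ * (1 + 2 * C₂ + C₃) / (m * √m) * (1 + |Δ| / √(i + 1))) := by
        apply ENNReal.ofReal_le_ofReal
        have h5 : (1 + |Δ|) * min 1 ((1 + 2 * C₂) / √((i : ℝ) + 1)) ≤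
            1 + |Δ| * ((1 + 2 * C₂) / √((i : ℝ) + 1)) := by
          have h6 := min_le_left 1 ((1 + 2 * C₂) / √((i : ℝ) + 1))
          have h7 := min_le_right 1 ((1 + 2 * C₂) / √((i : ℝ) + 1))
          have h8 := mul_le_mul_of_nonneg_left h7 (abs_nonneg Δ)
          linarith
        have h9 : (1 + |Δ|) * min 1 ((1 + 2 * C₂) / √((i : ℝ) + 1)) + C₃ ≤
            (1 + 2 * C₂ + C₃) * (1 + |Δ| / √((i : ℝ) + 1)) := by
          have h10 : 0 ≤ |Δ| / √((i : ℝ) + 1) := by positivity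
          have h11 : |Δ| * ((1 + 2 * C₂) / √((i : ℝ) + 1)) = (1 + 2 * C₂) * (|Δ| / √((i : ℝ) + 1)) := by
            ring
          have h12 : 0 ≤ (C₃ : ℝ) * (|Δ| / √((i : ℝ) + 1)) := by positivity
          rw [h11] at h5
          nlinarith
        calc C₁ / (m * √m) * ((1 + |Δ|) * min 1 ((1 + 2 * C₂) / √((i : ℝ) + 1)) + C₃)
            ≤ C₁ / (m * √m) * ((1 + 2 * C₂ + C₃) * (1 + |Δ| / √((i : ℝ) + 1))) :=
              mul_le_mul_of_nonneg_left h9 (by positivity)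
          _ = _ := by ring

theorem F3_key (hD : Dom D) {ρ : Measure ℝ} (hρ : Std ρ) : ∃ C > (0 : ℝ), ∀ i w m : ℕ, 1 ≤ w →
    1 ≤ m → 4 * w ≤ i + w + m →
    ∀ Δ : ℝ, ∫⁻ y in {y | y + Δ ∈ D}, ENNReal.ofReal (hit D ρ m (y + Δ)) ∂(kap D ρ i 0) ≤
      ENNReal.ofReal (C / ((i + w + m : ℕ) * √(i + w + m : ℕ)) *
        (1 + |Δ| * (1 / √(i + 1) + 1 / √m))) := by
  obtain ⟨CA, hCA, hA⟩ := F3_caseA hD hρ
  obtain ⟨CB, hCB, hB⟩ := F3_caseB hD hρ
  refine ⟨8 * (CA + CB), by positivity, ?_⟩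
  intro i w m hw hm h4w Δ
  obtain ⟨n, hn⟩ : ∃ n, n = i + w + m := ⟨_, rfl⟩
  rw [← hn]
  have hmpos : (0 : ℝ) < m := by exact_mod_cast hm
  have hnpos : (0 : ℝ) < n := by
    have : 0 < n := by omega
    exact_mod_cast this
  have hsn : 0 < √(n : ℝ) := Real.sqrt_pos.2 hnpos
  -- general comparison
  have hcomp : ∀ k : ℕ, 1 ≤ k → n ≤ 4 * k → (n : ℝ) * √n ≤ 8 * (k * √k) := by
    intro k hk hnk
    have h1 : (n : ℝ) ≤ 4 * k := by exact_mod_cast hnk
    have hk0 : (0 : ℝ) ≤ k := Nat.cast_nonneg k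
    have h2 : √(n : ℝ) ≤ 2 * √(k : ℝ) := by
      have : √(4 * (k : ℝ)) = 2 * √(k : ℝ) := by
        rw [Real.sqrt_mul (by norm_num), show (4 : ℝ) = 2 ^ 2 by norm_num,
          Real.sqrt_sq (by norm_num)]
      rw [← this]
      exact Real.sqrt_le_sqrt h1
    calc (n : ℝ) * √n ≤ (4 * k) * (2 * √k) := mul_le_mul h1 h2 (Real.sqrt_nonneg _) (by positivity)
      _ = 8 * (k * √k) := by ring
  have hd1 : 0 ≤ |Δ| / √((i : ℝ) + 1) := by positivity
  have hd2 : 0 ≤ |Δ| / √(m : ℝ) := by positivity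
  have hd : |Δ| * (1 / √((i : ℝ) + 1) + 1 / √m) = |Δ| / √((i : ℝ) + 1) + |Δ| / √m := by ring
  by_cases h : n ≤ 4 * i
  · have hi : 1 ≤ i := by omega
    have hipos : (0 : ℝ) < i := by exact_mod_cast hi
    have hsi : 0 < √(i : ℝ) := Real.sqrt_pos.2 hipos
    refine (hA i m hi hm Δ).trans (ENNReal.ofReal_le_ofReal ?_)
    rw [hd]
    have h1 := hcomp i hi h
    have h2 : CA / (i * √i) ≤ 8 * (CA + CB) / (n * √n) := by
      rw [div_le_div_iff₀ (by positivity) (by positivity)]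
      calc CA * (n * √n) ≤ CA * (8 * (i * √i)) := mul_le_mul_of_nonneg_left h1 hCA.le
        _ ≤ 8 * (CA + CB) * (i * √i) := by
            have : 0 ≤ CB * (i * √i) := by positivity
            nlinarith
    refine mul_le_mul h2 ?_ (by positivity) (by positivity)
    linarith
  · have hm4 : n ≤ 4 * m := by omega
    have hsm : 0 < √(m : ℝ) := Real.sqrt_pos.2 hmpos
    refine (hB i m hm Δ).trans (ENNReal.ofReal_le_ofReal ?_)
    rw [hd]
    have h1 := hcomp m hm hm4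
    have h2 : CB / (m * √m) ≤ 8 * (CA + CB) / (n * √n) := by
      rw [div_le_div_iff₀ (by positivity) (by positivity)]
      calc CB * (n * √n) ≤ CB * (8 * (m * √m)) := mul_le_mul_of_nonneg_left h1 hCB.le
        _ ≤ 8 * (CA + CB) * (m * √m) := by
            have : 0 ≤ CA * (m * √m) := by positivity
            nlinarith
    refine mul_le_mul h2 ?_ (by positivity) (by positivity)
    linarith

/-- **[FV-F3a]** Window transfer. PROOF. Let `n = i+w+m`, `B` an event of the first `w` pairs; by `q_window`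
(`f = 1`, `G = 1_B`) it is enough to show, with `Δ = nz w η`,
`∫⁻ y in {y + Δ ∈ D}, hit m (y+Δ) ∂(kap i 0) ≤ C/(n√n) (1 + |Δ| (1/√(i+1) + 1/√m))`.
Case `4i ≥ n`: cut into unit windows `[a, a+1)`, `a ∈ ℕ`: `(kap i 0).real (Ico a (a+1)) ≤ C(1+a)/(i√i)`
(`win`, `x = 0`), and for `y ∈ [a,a+1)` with `y + Δ ≥ 0`, `hit m (y+Δ) ≤ g b + g (b+1)` with
`b = ⌊(a : ℝ) + Δ⌋` (or `g 0` if `b < 0`), `g` from `hit_sum`; as `1 + a ≤ 2 + b + |Δ|`, the sum over `a` is at
most `C/(n√n) ∑_b (2 + b + |Δ|) · 2 (g b + g (b+1)) ≤ C/(n√n) (C' + |Δ| C'/√m)`.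
Case `4i < n`: then `m = n - i - w ≥ n/2` (as `4w ≤ n`), `hit m (y+Δ) ≤ C (1 + y + |Δ|)/(n√n)`
(`hit_bound`) and `∫ (1 + y + |Δ|) ∂(kap i 0) ≤ 1 + ee i 0 + |Δ| C/√(i+1)` (`surv`, `ee_bound`). -/
theorem window_transfer (hD : Dom D) (hQ : QStd μ ν σ) : ∃ C > (0 : ℝ), ∀ i w m : ℕ, 1 ≤ w → 1 ≤ m →
    4 * w ≤ i + w + m → ∀ B : Set (ℕ → ℝ × ℝ), MeasurableSet B →
    (∀ ω ω', (∀ j < w, ω j = ω' j) → (ω ∈ B ↔ ω' ∈ B)) →
    PQ μ ν (EvN D (i + w + m) ∩ {ω | shift i ω ∈ B}) ≤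
      ENNReal.ofReal (C / ((i + w + m : ℕ) * √(i + w + m : ℕ))) *
        ∫⁻ η in B, ENNReal.ofReal (1 + |nz σ w η| * (1 / √(i + 1) + 1 / √m)) ∂(PQ μ ν) := by
  classical
  haveI := hQ.probμ
  haveI := hQ.probν
  obtain ⟨C, hC, hkey⟩ := F3_key hD hQ.std
  refine ⟨C, hC, ?_⟩
  intro i w m hw hm h4w B hB hdep
  have hG : Measurable (B.indicator (1 : (ℕ → ℝ × ℝ) → ℝ≥0∞)) := measurable_one.indicator hB
  have h1 := q_window hD hQ i w m hw hm (B.indicator 1) hG (fun _ => 1) measurable_const (by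
    intro ω ω' h
    by_cases h2 : ω ∈ B
    · rw [Set.indicator_of_mem h2, Set.indicator_of_mem ((hdep ω ω' h).1 h2)]
      rfl
    · rw [Set.indicator_of_notMem h2, Set.indicator_of_notMem (fun h3 => h2 ((hdep ω ω' h).2 h3))])
  have h2 : PQ μ ν (EvN D (i + w + m) ∩ {ω | shift i ω ∈ B}) =
      ∫⁻ ω in EvN D (i + w + m), B.indicator 1 (shift i ω) * (fun _ => (1 : ℝ≥0∞)) (nz σ (i + w) ω)
        ∂(PQ μ ν) := by
    have hms : MeasurableSet {ω : ℕ → ℝ × ℝ | shift i ω ∈ B} := (measurable_shift i) hB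
    have h3 : ∀ ω : ℕ → ℝ × ℝ, B.indicator (1 : (ℕ → ℝ × ℝ) → ℝ≥0∞) (shift i ω) *
        (fun _ => (1 : ℝ≥0∞)) (nz σ (i + w) ω) = {ω | shift i ω ∈ B}.indicator 1 ω := by
      intro ω
      rw [mul_one]
      rfl
    simp only [h3]
    rw [lintegral_indicator_one hms, Measure.restrict_apply hms, Set.inter_comm]
  rw [h2]
  refine h1.trans ?_
  have hmeas : Measurable fun η => ENNReal.ofReal (1 + |nz σ w η| * (1 / √((i : ℝ) + 1) + 1 / √m)) :=
    ((((measurable_nz w).abs).mul_const _).const_add _).ennreal_ofReal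
  rw [← lintegral_const_mul _ hmeas, ← lintegral_indicator hB]
  refine lintegral_mono fun η => ?_
  by_cases hη : η ∈ B
  · have h5 := hkey i w m hw hm h4w (nz σ w η)
    show B.indicator 1 η * ∫⁻ y in {y | y + nz σ w η ∈ D}, 1 *
        ENNReal.ofReal (hit D (stepLaw μ ν σ) m (y + nz σ w η)) ∂(kap D (stepLaw μ ν σ) i 0) ≤
      B.indicator (fun η => ENNReal.ofReal (C / ((i + w + m : ℕ) * √(i + w + m : ℕ))) *
        ENNReal.ofReal (1 + |nz σ w η| * (1 / √((i : ℝ) + 1) + 1 / √m))) η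
    rw [Set.indicator_of_mem hη, Set.indicator_of_mem hη]
    simp only [Pi.one_apply, one_mul]
    rw [← ENNReal.ofReal_mul (by positivity)]
    exact h5
  · show B.indicator 1 η * _ ≤ _
    rw [Set.indicator_of_notMem hη, zero_mul]
    exact zero_le

end Pool.Agent.BPT
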