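import Pool.Agent.MP_99a865_pr.FV.F6d
import Pool.Agent.MP_99a865_pr.FV.F3

open MeasureTheory ProbabilityTheory Filter Topology
open scoped ENNReal NNReal

namespace Pool.Agent.BPT

variable {D : Set ℝ} {μ ν : Measure ℝ} {σ : ℝ}

theorem F7_nz_dep (j : ℕ) (ω ω' : ℕ → ℝ × ℝ) (h : ∀ i < j, ω i = ω' i) :
    nz σ j ω = nz σ j ω' ∧ Dp j ω = Dp j ω' := by
  have h1 : Dp j ω = Dp j ω' := by
    unfold Dp
    refine Finset.sum_congr rfl fun i hi => ?_
    rw [h i (Finset.mem_range.mp hi)]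
  have h2 : Ar j ω = Ar j ω' := by
    unfold Ar
    refine Finset.sum_congr rfl fun i hi => ?_
    rw [h i (Finset.mem_range.mp hi)]
  refine ⟨?_, h1⟩
  rw [nz, nz, Zw, Zw, h1, h2]

theorem F7_half (n m : ℕ) (hm : n ≤ 2 * m) (hn : 1 ≤ n) :
    (n : ℝ) * √(n : ℝ) ≤ 4 * ((m : ℝ) * √(m : ℝ)) := by
  have hm' : (n : ℝ) ≤ 2 * m := by exact_mod_cast hm
  have hn0 : (0 : ℝ) < n := by exact_mod_cast hn
  have h1 : √(n : ℝ) ≤ 2 * √(m : ℝ) := by
    refine Real.sqrt_le_iff.mpr ⟨by positivity, ?_⟩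
    rw [mul_pow, Real.sq_sqrt (Nat.cast_nonneg m)]
    linarith [Nat.cast_nonneg (α := ℝ) m]
  calc (n : ℝ) * √(n : ℝ) ≤ (2 * m) * (2 * √(m : ℝ)) :=
        mul_le_mul hm' h1 (Real.sqrt_nonneg _) (by positivity)
    _ = _ := by ring

theorem F7_inv_sqrt (n m : ℕ) (hm : n ≤ 4 * m) (hn : 1 ≤ n) :
    1 / √(m : ℝ) ≤ 2 / √(n : ℝ) := by
  have hm' : (n : ℝ) ≤ 4 * m := by exact_mod_cast hm
  have hn0 : (0 : ℝ) < n := by exact_mod_cast hn
  have hm0 : (0 : ℝ) < m := by linarith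
  have hsm : 0 < √(m : ℝ) := Real.sqrt_pos.mpr hm0
  have hsn : 0 < √(n : ℝ) := Real.sqrt_pos.mpr hn0
  have h1 : √(n : ℝ) ≤ 2 * √(m : ℝ) := by
    refine Real.sqrt_le_iff.mpr ⟨by positivity, ?_⟩
    rw [mul_pow, Real.sq_sqrt (Nat.cast_nonneg m)]
    linarith [Nat.cast_nonneg (α := ℝ) m]
  rw [div_le_div_iff₀ hsm hsn]
  linarith

theorem F7_sum_inv_sqrt (k : ℕ) :
    ∑ i ∈ Finset.range k, 1 / √((i + 1 : ℕ) : ℝ) ≤ 2 * √(k : ℝ) := by
  induction k with
  | zero => simp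
  | succ k ih =>
    rw [Finset.sum_range_succ]
    have hk : (0 : ℝ) ≤ k := Nat.cast_nonneg k
    set a := √(k : ℝ) with ha
    set b := √((k + 1 : ℕ) : ℝ) with hb
    have ha0 : 0 ≤ a := Real.sqrt_nonneg _
    have hb0 : 0 < b := Real.sqrt_pos.mpr (by positivity)
    have ha2 : a * a = k := Real.mul_self_sqrt hk
    have hb2 : b * b = ((k + 1 : ℕ) : ℝ) := Real.mul_self_sqrt (by positivity)
    have hab : a ≤ b := Real.sqrt_le_sqrt (by push_cast; linarith)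
    have h1 : b * b - a * a = 1 := by rw [ha2, hb2]; push_cast; ring
    have h2 : 1 / b ≤ 2 * (b - a) := by
      rw [div_le_iff₀ hb0]
      have h3 : (b - a) * (b + a) = 1 := by linarith [mul_comm a b]
      have h4 : (b - a) * (b + a) ≤ (b - a) * (2 * b) :=
        mul_le_mul_of_nonneg_left (by linarith) (by linarith)
      linarith
    linarith

/-- the good boundaries near the ends are few -/
theorem F7_good (hD : Dom D) (hσ : 0 < σ) {n : ℕ} {ω : ℕ → ℝ × ℝ} (hnn : NN ω)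
    {y δ : ℝ} {w : ℕ} (hw4 : 4 * (w : ℝ) ≤ σ * y) (hδ : 0 ≤ δ) (s : Finset ℕ)
    (hs : ∀ b ∈ s, w ≤ b ∧ b < n ∧ Bd D ω b ∧ ((b : ℝ) ≤ δ * n ∨ (1 - δ) * n ≤ b) ∧
      y ≤ nz σ b ω ∧ Dp w (shift (b - w) ω) < 4 * w) :
    (w : ℝ) * s.card ≤ 2 * δ * n + w + 1 := by
  classical
  have hgap : ∀ b ∈ s, ∀ b' ∈ s, b < b' → b < b' - w := by
    intro b hb b' hb' hlt
    by_contra hcon
    have h1 := hs b hb
    have h2 := hs b' hb'
    have h3 := Zw_le_of_gap hD hnn h2.2.2.1 (w := w) (by omega) ⟨b, by omega, hlt, h1.2.2.1⟩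
    have h4 : Dp b' ω - Dp (b' - w) ω = Dp w (shift (b' - w) ω) := by
      have := Dp_add (b' - w) w ω
      rw [Nat.sub_add_cancel (by omega)] at this
      linarith
    have h5 : Zw b' ω = σ * nz σ b' ω := by rw [nz]; field_simp
    have h6 := h2.2.2.2.2.2
    have h7 : σ * y ≤ σ * nz σ b' ω := mul_le_mul_of_nonneg_left h2.2.2.2.2.1 hσ.le
    rw [h4, h5] at h3
    linarith
  have hdisj : ∀ b ∈ s, ∀ b' ∈ s, b ≠ b' →
      Disjoint (Finset.Ico (b - w) b) (Finset.Ico (b' - w) b') := by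
    intro b hb b' hb' hne
    rw [Finset.disjoint_left]
    intro x hx hx'
    rw [Finset.mem_Ico] at hx hx'
    rcases lt_or_gt_of_ne hne with h | h
    · have := hgap b hb b' hb' h
      omega
    · have := hgap b' hb' b hb h
      omega
  have hcard := Finset.card_biUnion hdisj
  have h1 : ∑ b ∈ s, (Finset.Ico (b - w) b).card = w * s.card := by
    rw [Finset.sum_congr rfl (fun b hb => by
      rw [Nat.card_Ico, Nat.sub_sub_self (hs b hb).1]), Finset.sum_const, smul_eq_mul, mul_comm]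
  rw [h1] at hcard
  have hn0 : (0 : ℝ) ≤ n := Nat.cast_nonneg n
  have h2 : s.biUnion (fun b => Finset.Ico (b - w) b) ⊆
      Finset.range (⌊δ * n⌋₊) ∪ Finset.Ico (⌈(1 - δ) * n⌉₊ - w) n := by
    intro x hx
    obtain ⟨b, hb, hxb⟩ := Finset.mem_biUnion.mp hx
    rw [Finset.mem_Ico] at hxb
    have h3 := hs b hb
    rcases h3.2.2.2.1 with h4 | h4
    · refine Finset.mem_union_left _ (Finset.mem_range.mpr ?_)
      exact lt_of_lt_of_le hxb.2 (Nat.le_floor h4)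
    · refine Finset.mem_union_right _ (Finset.mem_Ico.mpr ⟨?_, by omega⟩)
      have h5 : ⌈(1 - δ) * n⌉₊ ≤ b := Nat.ceil_le.mpr h4
      omega
  have h3 := Finset.card_le_card h2
  rw [hcard] at h3
  have h4 := h3.trans (Finset.card_union_le _ _)
  rw [Finset.card_range, Nat.card_Ico] at h4
  have h5 : ((⌊δ * n⌋₊ : ℕ) : ℝ) ≤ δ * n := Nat.floor_le (by positivity)
  have h6 : (1 - δ) * n ≤ ((⌈(1 - δ) * n⌉₊ : ℕ) : ℝ) := Nat.le_ceil _
  have h7 : ((n - (⌈(1 - δ) * n⌉₊ - w) : ℕ) : ℝ) ≤ n - (1 - δ) * n + w := by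
    have h8 : n - (⌈(1 - δ) * n⌉₊ - w) ≤ n - ⌈(1 - δ) * n⌉₊ + w := by omega
    have h9 : ⌈(1 - δ) * (n : ℝ)⌉₊ ≤ n := Nat.ceil_le.mpr (by nlinarith)
    have h10 : ((n - (⌈(1 - δ) * n⌉₊ - w) : ℕ) : ℝ) ≤ ((n - ⌈(1 - δ) * n⌉₊ + w : ℕ) : ℝ) := by
      exact_mod_cast h8
    refine h10.trans ?_
    push_cast [Nat.cast_sub h9]
    linarith
  have h8 : ((w * s.card : ℕ) : ℝ) ≤ ((⌊δ * n⌋₊ + (n - (⌈(1 - δ) * n⌉₊ - w)) : ℕ) : ℝ) := by
    exact_mod_cast h4
  push_cast at h8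
  linarith

/-- boundaries before `w` -/
theorem F7_a (hD : Dom D) (hQ : QStd μ ν σ) : ∃ C > (0 : ℝ), ∀ (n w : ℕ) (y : ℝ), 1 ≤ n →
    1 ≤ y → (w : ℝ) ≤ σ * y / 4 → 4 * w ≤ n →
    ∑ b ∈ Finset.range w, ∫⁻ ω in EvN D n, (Set.Ici y).indicator 1 (nz σ b ω) ∂(PQ μ ν) ≤
      ENNReal.ofReal (C * y / (n * √n)) := by
  have hρ := hQ.std
  have := hρ.prob
  have := hQ.probμ
  have := hQ.probν
  obtain ⟨C, hC, hhit⟩ := hit_bound hD hρ
  have hσ := hQ.pos
  refine ⟨8 * C * σ ^ 2 / 16, by positivity, fun n w y hn hy hw h4w => ?_⟩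
  have hn0 : (0 : ℝ) < n := by exact_mod_cast hn
  have hsn : 0 < √(n : ℝ) := Real.sqrt_pos.mpr hn0
  have hy0 : 0 < y := by linarith
  have hterm : ∀ b ∈ Finset.range w,
      ∫⁻ ω in EvN D n, (Set.Ici y).indicator 1 (nz σ b ω) ∂(PQ μ ν) ≤
      ENNReal.ofReal (8 * C / (y * (n * √n)) * w) := by
    intro b hb
    have hbw := Finset.mem_range.mp hb
    obtain ⟨m, hm⟩ : ∃ m, n = b + m := ⟨n - b, by omega⟩
    have hm1 : 1 ≤ m := by omega
    have hmeas : Measurable fun ω : ℕ → ℝ × ℝ =>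
        (Set.Ici y).indicator (1 : ℝ → ℝ≥0∞) (nz σ b ω) :=
      (measurable_one.indicator measurableSet_Ici).comp (measurable_nz b)
    have hmk := q_markov hD hQ b m hm1
      (fun ω => (Set.Ici y).indicator (1 : ℝ → ℝ≥0∞) (nz σ b ω)) hmeas (by
        intro ω ω' h
        rw [(F7_nz_dep (σ := σ) b ω ω' h).1])
    rw [← hm] at hmk
    rw [hmk]
    have hhm : (n : ℝ) * √(n : ℝ) ≤ 4 * ((m : ℝ) * √(m : ℝ)) := F7_half n m (by omega) hn
    have hm0 : (0 : ℝ) < m := by exact_mod_cast hm1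
    have hsm : 0 < √(m : ℝ) := Real.sqrt_pos.mpr hm0
    calc ∫⁻ ω in {ω | AliveQ D b ω}, (Set.Ici y).indicator 1 (nz σ b ω) *
          ENNReal.ofReal (hit D (stepLaw μ ν σ) m (nz σ b ω)) ∂(PQ μ ν)
        ≤ ∫⁻ ω, (Set.Ici y).indicator 1 (nz σ b ω) *
          ENNReal.ofReal (hit D (stepLaw μ ν σ) m (nz σ b ω)) ∂(PQ μ ν) :=
          setLIntegral_le_lintegral _ _
      _ ≤ ∫⁻ ω, ENNReal.ofReal (8 * C / (y * (n * √n))) *
            ENNReal.ofReal ((nz σ b ω) ^ 2) ∂(PQ μ ν) := by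
          refine lintegral_mono fun ω => ?_
          by_cases hmem : nz σ b ω ∈ Set.Ici y
          · rw [Set.indicator_of_mem hmem]
            simp only [Pi.one_apply, one_mul]
            rw [← ENNReal.ofReal_mul (by positivity)]
            refine ENNReal.ofReal_le_ofReal ?_
            set x := nz σ b ω with hx
            have hxy : y ≤ x := hmem
            refine (hhit m hm1 x (hy0.le.trans hxy)).1.trans ?_
            have h1 : 1 + x ≤ 2 * x := by linarith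
            have h2 : (1 + x) * y ≤ 2 * x ^ 2 := by
              calc (1 + x) * y ≤ (2 * x) * x := mul_le_mul h1 hxy hy0.le (by linarith)
                _ = _ := by ring
            rw [div_mul_eq_mul_div, div_le_div_iff₀ (by positivity) (by positivity)]
            calc C * (1 + x) * (y * (n * √n)) = C * ((1 + x) * y) * (n * √n) := by ring
              _ ≤ C * (2 * x ^ 2) * (4 * (m * √m)) :=
                mul_le_mul (mul_le_mul_of_nonneg_left h2 hC.le) hhm (by positivity) (by positivity)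
              _ = _ := by ring
          · rw [Set.indicator_of_notMem hmem, zero_mul]
            exact zero_le
      _ = ENNReal.ofReal (8 * C / (y * (n * √n))) * b := by
          rw [lintegral_const_mul' _ _ ENNReal.ofReal_ne_top, nz_sq hQ]
      _ ≤ _ := by
          rw [← ENNReal.ofReal_natCast, ← ENNReal.ofReal_mul (by positivity)]
          refine ENNReal.ofReal_le_ofReal ?_
          have : (b : ℝ) ≤ w := by exact_mod_cast hbw.le
          exact mul_le_mul_of_nonneg_left this (by positivity)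
  refine (Finset.sum_le_sum hterm).trans ?_
  rw [Finset.sum_const, Finset.card_range, nsmul_eq_mul, ← ENNReal.ofReal_natCast,
    ← ENNReal.ofReal_mul (Nat.cast_nonneg _)]
  refine ENNReal.ofReal_le_ofReal ?_
  have hw0 : (0 : ℝ) ≤ w := Nat.cast_nonneg w
  have h2 : (w : ℝ) * w ≤ (σ * y / 4) * (σ * y / 4) := mul_le_mul hw hw hw0 (by positivity)
  calc (w : ℝ) * (8 * C / (y * (n * √n)) * w) = 8 * C / (y * (n * √n)) * (w * w) := by ring
    _ ≤ 8 * C / (y * (n * √n)) * ((σ * y / 4) * (σ * y / 4)) :=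
        mul_le_mul_of_nonneg_left h2 (by positivity)
    _ = _ := by field_simp; norm_num

/-- one bad window -/
theorem F7_c (hD : Dom D) (hQ : QStd μ ν σ) : ∃ C > (0 : ℝ), ∀ (i w m : ℕ) (y : ℝ), 1 ≤ m →
    1 ≤ y → w = ⌊σ * y / 4⌋₊ → 1 ≤ w → 4 * w ≤ i + w + m →
    PQ μ ν (EvN D (i + w + m) ∩ {ω | shift i ω ∈ {η | 4 * (w : ℝ) ≤ Dp w η}}) ≤
      ENNReal.ofReal (C / ((i + w + m : ℕ) * √(i + w + m : ℕ)) *
        (1 / y + (1 / √((i + 1 : ℕ) : ℝ) + 1 / √(m : ℝ)))) := by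
  have hρ := hQ.std
  have := hρ.prob
  have := hQ.probμ
  have := hQ.probν
  obtain ⟨C, hC, hwt⟩ := window_transfer hD hQ
  obtain ⟨C₄, hC₄, hBW⟩ := prob_BW hQ
  refine ⟨C * C₄, by positivity, fun i w m y hm hy hw hw1 h4w => ?_⟩
  have hy0 : 0 < y := by linarith
  set B : Set (ℕ → ℝ × ℝ) := {η | 4 * (w : ℝ) ≤ Dp w η} with hB
  have hBm : MeasurableSet B := measurableSet_le measurable_const (measurable_Dp w)
  have h1 := hwt i w m hw1 hm h4w B hBm (by
    intro ω ω' h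
    simp only [hB, Set.mem_ofPred_eq]
    rw [(F7_nz_dep (σ := σ) w ω ω' h).2])
  refine h1.trans ?_
  set c : ℝ := 1 / √((i : ℝ) + 1) + 1 / √(m : ℝ) with hc
  have hc0 : 0 ≤ c := by positivity
  have hcc : c = 1 / √((i + 1 : ℕ) : ℝ) + 1 / √(m : ℝ) := by
    rw [hc]; push_cast; rfl
  rw [← hcc]
  have hBsub : B ⊆ BW σ w y := fun η hη => Or.inl hη
  have hBW' := hBW y hy0 w hw hw1
  have hP : PQ μ ν (BW σ w y) ≤ ENNReal.ofReal (C₄ / y) := by
    have h2 := hBW'.1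
    rw [Measure.real] at h2
    rwa [ENNReal.le_ofReal_iff_toReal_le (measure_ne_top _ _) (by positivity)]
  have hI : ∫⁻ η in B, ENNReal.ofReal (1 + |nz σ w η| * c) ∂(PQ μ ν) ≤
      ENNReal.ofReal (C₄ * (1 / y + c)) := by
    calc _ ≤ ∫⁻ η in BW σ w y, ENNReal.ofReal (1 + |nz σ w η| * c) ∂(PQ μ ν) :=
          lintegral_mono_set hBsub
      _ = ∫⁻ η in BW σ w y, (1 + ENNReal.ofReal c * ENNReal.ofReal |nz σ w η|) ∂(PQ μ ν) := by
          refine lintegral_congr fun η => ?_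
          rw [ENNReal.ofReal_add zero_le_one (by positivity), ENNReal.ofReal_one,
            mul_comm |nz σ w η| c, ENNReal.ofReal_mul hc0]
      _ = PQ μ ν (BW σ w y) + ENNReal.ofReal c *
            ∫⁻ η in BW σ w y, ENNReal.ofReal |nz σ w η| ∂(PQ μ ν) := by
          rw [lintegral_add_left measurable_const, lintegral_const, Measure.restrict_apply_univ,
            one_mul, lintegral_const_mul' _ _ ENNReal.ofReal_ne_top]
      _ ≤ ENNReal.ofReal (C₄ / y) + ENNReal.ofReal c * ENNReal.ofReal C₄ :=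
          add_le_add hP (mul_le_mul_right hBW'.2 _)
      _ = _ := by
          rw [← ENNReal.ofReal_mul hc0, ← ENNReal.ofReal_add (by positivity) (by positivity)]
          congr 1
          ring
  refine (mul_le_mul_right hI _).trans ?_
  rw [← ENNReal.ofReal_mul (by positivity)]
  refine ENNReal.ofReal_le_ofReal (le_of_eq ?_)
  ring

open Classical in
/-- pointwise decomposition -/
theorem F7_pt (hD : Dom D) (hσ : 0 < σ) {n : ℕ} {ω : ℕ → ℝ × ℝ} (hnn : NN ω)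
    {y δ : ℝ} {w : ℕ} (hw4 : 4 * (w : ℝ) ≤ σ * y) (hw1 : 1 ≤ w) (hδ : 0 ≤ δ) :
    (cBe D δ n ω : ℝ≥0∞) ≤ ((∑ b ∈ Finset.range w, (Set.Ici y).indicator 1 (nz σ b ω)) +
      (ENNReal.ofReal ((2 * δ * n + w + 1) / w) +
      ∑ b ∈ (Finset.range n).filter (fun b => w ≤ b ∧ ((b : ℝ) ≤ δ * n ∨ (1 - δ) * n ≤ b)),
        ({η | 4 * (w : ℝ) ≤ Dp w η} : Set (ℕ → ℝ × ℝ)).indicator 1 (shift (b - w) ω))) +
      (cBl D σ n y ω : ℝ≥0∞) := by
  have hw0 : (0 : ℝ) < w := by exact_mod_cast hw1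
  set s : Finset ℕ := (Finset.range n).filter (fun b => w ≤ b ∧ Bd D ω b ∧
    ((b : ℝ) ≤ δ * n ∨ (1 - δ) * n ≤ b) ∧ y ≤ nz σ b ω ∧ Dp w (shift (b - w) ω) < 4 * w) with hs
  have hgood := F7_good hD hσ (n := n) hnn hw4 hδ s (by
    intro b hb
    obtain ⟨h1, h2⟩ := Finset.mem_filter.mp hb
    exact ⟨h2.1, Finset.mem_range.mp h1, h2.2⟩)
  have hgood' : (s.card : ℝ≥0∞) ≤ ENNReal.ofReal ((2 * δ * n + w + 1) / w) := by
    rw [← ENNReal.ofReal_natCast]
    refine ENNReal.ofReal_le_ofReal ?_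
    rw [le_div_iff₀ hw0, mul_comm]
    exact hgood
  have hcard : cBe D δ n ω ≤ ((Finset.range w).filter (fun b => y ≤ nz σ b ω)).card +
      (s.card + (((Finset.range n).filter
        (fun b => w ≤ b ∧ ((b : ℝ) ≤ δ * n ∨ (1 - δ) * n ≤ b))).filter
        (fun b => 4 * (w : ℝ) ≤ Dp w (shift (b - w) ω))).card) + cBl D σ n y ω := by
    unfold cBe cBl
    refine (Finset.card_le_card (t := (((Finset.range w).filter (fun b => y ≤ nz σ b ω)) ∪
      (s ∪ (((Finset.range n).filter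
        (fun b => w ≤ b ∧ ((b : ℝ) ≤ δ * n ∨ (1 - δ) * n ≤ b))).filter
        (fun b => 4 * (w : ℝ) ≤ Dp w (shift (b - w) ω))))) ∪
      ((Finset.range n).filter fun b => Bd D ω b ∧ nz σ b ω < y)) ?_).trans ?_
    · intro b hb
      obtain ⟨h1, h2, h3⟩ := Finset.mem_filter.mp hb
      rw [Finset.mem_union, Finset.mem_union, Finset.mem_union]
      by_cases h4 : nz σ b ω < y
      · right
        exact Finset.mem_filter.mpr ⟨h1, h2, h4⟩
      · rw [not_lt] at h4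
        left
        by_cases h5 : b < w
        · left
          exact Finset.mem_filter.mpr ⟨Finset.mem_range.mpr h5, h4⟩
        · rw [not_lt] at h5
          right
          by_cases h6 : Dp w (shift (b - w) ω) < 4 * w
          · left
            exact Finset.mem_filter.mpr ⟨h1, h5, h2, h3, h4, h6⟩
          · rw [not_lt] at h6
            right
            exact Finset.mem_filter.mpr ⟨Finset.mem_filter.mpr ⟨h1, h5, h3⟩, h6⟩
    · refine (Finset.card_union_le _ _).trans (Nat.add_le_add_right ?_ _)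
      refine (Finset.card_union_le _ _).trans (Nat.add_le_add_left ?_ _)
      exact Finset.card_union_le _ _
  have hcard' : (cBe D δ n ω : ℝ≥0∞) ≤
      ((((Finset.range w).filter (fun b => y ≤ nz σ b ω)).card : ℕ) : ℝ≥0∞) +
      ((s.card : ℝ≥0∞) + (((((Finset.range n).filter
        (fun b => w ≤ b ∧ ((b : ℝ) ≤ δ * n ∨ (1 - δ) * n ≤ b))).filter
        (fun b => 4 * (w : ℝ) ≤ Dp w (shift (b - w) ω))).card : ℕ) : ℝ≥0∞)) +
      (cBl D σ n y ω : ℝ≥0∞) := by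
    exact_mod_cast hcard
  refine hcard'.trans ?_
  refine add_le_add (add_le_add (le_of_eq ?_) (add_le_add hgood' (le_of_eq ?_))) le_rfl
  · rw [← Finset.sum_boole]
    refine Finset.sum_congr rfl fun b _ => ?_
    split_ifs with h
    · rw [Set.indicator_of_mem (show nz σ b ω ∈ Set.Ici y from h)]; rfl
    · rw [Set.indicator_of_notMem (show nz σ b ω ∉ Set.Ici y from h)]
  · rw [← Finset.sum_boole]
    refine Finset.sum_congr rfl fun b _ => ?_
    split_ifs with h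
    · rw [Set.indicator_of_mem (show shift (b - w) ω ∈ {η | 4 * (w : ℝ) ≤ Dp w η} from h)]; rfl
    · rw [Set.indicator_of_notMem (show shift (b - w) ω ∉ {η | 4 * (w : ℝ) ≤ Dp w η} from h)]

open Classical in
/-- the sum over the end zones -/
theorem F7_zone (n w : ℕ) (δ y : ℝ) (hn : 1 ≤ n) (hδ : 0 < δ) (hδ1 : δ ≤ 1 / 8)
    (hy : y = √(δ * n)) (hy1 : 1 ≤ y) (h4w : 4 * w ≤ n) :
    ∑ b ∈ (Finset.range n).filter (fun b => w ≤ b ∧ ((b : ℝ) ≤ δ * n ∨ (1 - δ) * n ≤ b)),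
      (1 / y + (1 / √((b - w + 1 : ℕ) : ℝ) + 1 / √((n - b : ℕ) : ℝ))) ≤ 20 * y := by
  have hn0 : (0 : ℝ) < n := by exact_mod_cast hn
  have hsn : 0 < √(n : ℝ) := Real.sqrt_pos.mpr hn0
  have hy0 : 0 < y := by linarith
  have hδn0 : 0 ≤ δ * n := by positivity
  have hy2 : y * y = δ * n := by rw [hy]; exact Real.mul_self_sqrt hδn0
  have hδn1 : 1 ≤ δ * n := by nlinarith
  have hyn : y ≤ √(n : ℝ) := by
    rw [hy]; exact Real.sqrt_le_sqrt (by nlinarith)
  -- the two zones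
  set f : ℕ → ℝ := fun b => 1 / y + (1 / √((b - w + 1 : ℕ) : ℝ) + 1 / √((n - b : ℕ) : ℝ)) with hf
  have hf0 : ∀ b, 0 ≤ f b := fun b => by
    simp only [hf]; positivity
  set A : ℕ := ⌊δ * n⌋₊ with hA
  set B : ℕ := ⌈(1 - δ) * n⌉₊ with hB
  have hA1 : (A : ℝ) ≤ δ * n := Nat.floor_le hδn0
  have hB1 : (1 - δ) * n ≤ (B : ℝ) := Nat.le_ceil _
  have hBn : B ≤ n := Nat.ceil_le.mpr (by nlinarith)
  have hsub : (Finset.range n).filter (fun b => w ≤ b ∧ ((b : ℝ) ≤ δ * n ∨ (1 - δ) * n ≤ b)) ⊆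
      Finset.Ico w (A + 1) ∪ Finset.Ico B n := by
    intro b hb
    obtain ⟨h1, h2, h3⟩ := Finset.mem_filter.mp hb
    rw [Finset.mem_union, Finset.mem_Ico, Finset.mem_Ico]
    rcases h3 with h3 | h3
    · left
      exact ⟨h2, Nat.lt_succ_of_le (Nat.le_floor h3)⟩
    · right
      exact ⟨Nat.ceil_le.mpr h3, Finset.mem_range.mp h1⟩
  have h1 : ∑ b ∈ (Finset.range n).filter (fun b => w ≤ b ∧ ((b : ℝ) ≤ δ * n ∨ (1 - δ) * n ≤ b)),
      f b ≤ ∑ b ∈ Finset.Ico w (A + 1), f b + ∑ b ∈ Finset.Ico B n, f b := by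
    refine (Finset.sum_le_sum_of_subset_of_nonneg hsub fun b _ _ => hf0 b).trans ?_
    have h2 := Finset.sum_union_inter (s₁ := Finset.Ico w (A + 1)) (s₂ := Finset.Ico B n) (f := f)
    have h3 : 0 ≤ ∑ b ∈ Finset.Ico w (A + 1) ∩ Finset.Ico B n, f b :=
      Finset.sum_nonneg fun b _ => hf0 b
    linarith
  refine h1.trans ?_
  -- bound of sums with k terms
  have hbound : ∀ k : ℕ, (k : ℝ) ≤ 2 * (y * y) →
      ∑ i ∈ Finset.range k, (1 / y + (1 / √((i + 1 : ℕ) : ℝ) + 2 / √(n : ℝ))) ≤ 9 * y := by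
    intro k hk
    rw [Finset.sum_add_distrib, Finset.sum_add_distrib, Finset.sum_const, Finset.sum_const,
      Finset.card_range, nsmul_eq_mul, nsmul_eq_mul]
    have e1 : (k : ℝ) * (1 / y) ≤ 2 * y := by
      rw [mul_one_div, div_le_iff₀ hy0]; linarith
    have e2 : ∑ i ∈ Finset.range k, 1 / √((i + 1 : ℕ) : ℝ) ≤ 3 * y := by
      refine (F7_sum_inv_sqrt k).trans ?_
      have h5 : √(k : ℝ) ≤ 3 / 2 * y := by
        refine Real.sqrt_le_iff.mpr ⟨by positivity, ?_⟩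
        nlinarith
      linarith
    have e3 : (k : ℝ) * (2 / √(n : ℝ)) ≤ 4 * y := by
      rw [mul_div_assoc', div_le_iff₀ hsn]
      nlinarith
    linarith
  have hz1 : ∑ b ∈ Finset.Ico w (A + 1), f b ≤ 9 * y := by
    rw [Finset.sum_Ico_eq_sum_range]
    have h5 : ((A + 1 - w : ℕ) : ℝ) ≤ 2 * (y * y) := by
      have h6 : ((A + 1 - w : ℕ) : ℝ) ≤ ((A + 1 : ℕ) : ℝ) := by exact_mod_cast Nat.sub_le _ _
      push_cast at h6
      rw [hy2]
      linarith
    refine le_trans (Finset.sum_le_sum fun i hi => ?_) (hbound _ h5)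
    have hi' := Finset.mem_range.mp hi
    simp only [hf]
    rw [Nat.add_sub_cancel_left]
    have h6 : ((w + i : ℕ) : ℝ) ≤ δ * n := by
      have : ((w + i : ℕ) : ℝ) ≤ (A : ℝ) := by exact_mod_cast (by omega : w + i ≤ A)
      linarith
    have h7 : 4 * (w + i) ≤ n := by
      have : ((4 * (w + i) : ℕ) : ℝ) ≤ (n : ℝ) := by
        push_cast at h6 ⊢
        nlinarith
      exact_mod_cast this
    have h8 := F7_inv_sqrt n (n - (w + i)) (by omega) hn
    linarith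
  have hz2 : ∑ b ∈ Finset.Ico B n, f b ≤ 9 * y := by
    have h5 : ((n - B : ℕ) : ℝ) ≤ 2 * (y * y) := by
      rw [Nat.cast_sub hBn, hy2]
      nlinarith
    have h6 : ∑ b ∈ Finset.Ico B n, f b = ∑ j ∈ Finset.range (n - B), f (n - 1 - j) := by
      rw [Finset.sum_Ico_eq_sum_range, ← Finset.sum_range_reflect]
      refine Finset.sum_congr rfl fun j hj => ?_
      have := Finset.mem_range.mp hj
      congr 1
      omega
    rw [h6]
    refine le_trans (Finset.sum_le_sum fun j hj => ?_) (hbound _ h5)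
    have hj' := Finset.mem_range.mp hj
    simp only [hf]
    have h7 : n - (n - 1 - j) = j + 1 := by omega
    rw [h7]
    have h9 : ((B : ℕ) : ℝ) ≤ ((n - 1 - j : ℕ) : ℝ) := by
      exact_mod_cast (by omega : B ≤ n - 1 - j)
    have h10 : 7 * n ≤ 8 * (n - 1 - j) := by
      have : ((7 * n : ℕ) : ℝ) ≤ ((8 * (n - 1 - j) : ℕ) : ℝ) := by
        push_cast at h9 ⊢
        nlinarith
      exact_mod_cast this
    have h8 := F7_inv_sqrt n (n - 1 - j - w + 1) (by omega) hn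
    linarith
  linarith

open Classical in
/-- **[FV-F7]** Boundaries near the ends.
PROOF. Let `y₀ = √(δn)`, `w = ⌊σy₀/4⌋` (`≥ 1`, `4w ≤ n`, `y₀ ≥ 1` for `n ≥ n₀`). Boundaries with
`nz b < y₀`: `bd_low`. Boundaries with `nz b ≥ y₀`:
* `b < w`: `∑_{b<w} ∫_{y ≥ y₀} hit (n-b) y ∂(kap b 0) ≤ (C/(n√n)) ∑_{b<w} E[(1+|S_b|); |S_b| ≥ y₀]
 ≤ (C/(n√n)) ∑_{b<w} 2b/y₀ ≤ (C/(n√n)) w²/y₀ ≤ C y₀/(n√n)`;
* `b ≥ w` and `Dp w (shift (b-w) ω) < 4w`: there is no boundary in `[b-w, b)` (`Zw_le_of_gap`: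
 otherwise `4w ≤ σy₀ ≤ Zw b ≤ Dp b - Dp (b-w) < 4w`), so any two of them are at distance `> w`, hence
 their number in the two end intervals is at most `2((δn + 1)/w + 1) ≤ C y₀` (`n ≥ n₀`); multiply by
 `PQ (EvN n) ≤ C/(n√n)`;
* `b ≥ w` and `Dp w (shift (b-w) ω) ≥ 4w`: `window_transfer` with `B = {4w ≤ Dp w}`, `P(B) ≤ σ²/(9w)`
 (`Dp_cheb`), `∫_B |nz w| ≤ √(w P(B)) ≤ C`: sum over the `≤ 2(δn+2)` values of `b`, with `i = b - w`,
 `m = n - b`: `(C/(n√n)) [2(δn+2)/w + C ∑ (1/√(i+1) + 1/√m)] ≤ (C/(n√n)) (√(δn) + …) `, since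
 `∑_{i ≤ δn} 1/√(i+1) ≤ 2√(δn) + 1`, `∑_{1≤m≤δn} 1/√m ≤ 2√(δn)`, and the other cross sums are
 `≤ 2(δn+2) · 2/√n ≤ C √(δn)`. -/
theorem bd_edge (hD : Dom D) (hQ : QStd μ ν σ) : ∃ C > (0 : ℝ), ∀ δ : ℝ, 0 < δ → δ ≤ 1 / 8 →
    ∃ n₀ : ℕ, ∀ n ≥ n₀, ∫⁻ ω in EvN D n, (cBe D δ n ω : ℝ≥0∞) ∂(PQ μ ν) ≤
      ENNReal.ofReal (C * √δ / n) := by
  have hρ := hQ.std
  have := hρ.prob
  have := hQ.probμ
  have := hQ.probν
  have hσ := hQ.pos
  obtain ⟨Ca, hCa, ha⟩ := F7_a hD hQ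
  obtain ⟨Cc, hCc, hc⟩ := F7_c hD hQ
  obtain ⟨Ch, hCh, hhit⟩ := hit_bound hD hρ
  obtain ⟨Cl, hCl, hlow⟩ := bd_low hD hQ
  refine ⟨Ca + Ch * (16 / σ + 2) + 20 * Cc + 2 * Cl, by positivity, fun δ hδ hδ1 => ?_⟩
  have hsδ : 0 < √δ := Real.sqrt_pos.mpr hδ
  have hev : ∀ᶠ n : ℕ in atTop, (1 + 8 / σ) / √δ + σ * √δ + 1 ≤ √(n : ℝ) :=
    (Real.tendsto_sqrt_atTop.comp tendsto_natCast_atTop_atTop).eventually_ge_atTop _
  obtain ⟨n₀, hn₀⟩ := eventually_atTop.mp hev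
  refine ⟨n₀, fun n hn => ?_⟩
  have hM := hn₀ n hn
  have q1 : 0 < (1 + 8 / σ) / √δ := by positivity
  have q2 : 0 < σ * √δ := by positivity
  have hsn : 0 < √(n : ℝ) := by linarith
  have hn0 : (0 : ℝ) < n := Real.sqrt_pos.mp hsn
  have hn1 : 1 ≤ n := by exact_mod_cast hn0
  have hs2 : √(n : ℝ) * √(n : ℝ) = n := Real.mul_self_sqrt hn0.le
  set y : ℝ := √(δ * n) with hy
  have hy' : y = √δ * √(n : ℝ) := Real.sqrt_mul hδ.le _
  have hy18 : 1 + 8 / σ ≤ y := by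
    have h1 : (1 + 8 / σ) / √δ ≤ √(n : ℝ) := by linarith
    rw [div_le_iff₀ hsδ] at h1
    rw [hy']
    linarith
  have h8σ : 0 < 8 / σ := by positivity
  have hy1 : 1 ≤ y := by linarith
  have hy0 : 0 < y := by linarith
  have hσy : 8 ≤ σ * y := by
    have h1 : 8 / σ ≤ y := by linarith
    rw [div_le_iff₀ hσ] at h1
    linarith
  have hδ1' : √δ ≤ 1 := Real.sqrt_le_iff.mpr ⟨zero_le_one, by linarith⟩
  have hyn : y ≤ √(n : ℝ) := by
    rw [hy']
    exact mul_le_of_le_one_left hsn.le hδ1'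
  have hδn0 : 0 ≤ δ * n := by positivity
  have hy2 : y * y = δ * n := Real.mul_self_sqrt hδn0
  set w : ℕ := ⌊σ * y / 4⌋₊ with hw
  have hwle : (w : ℝ) ≤ σ * y / 4 := Nat.floor_le (by positivity)
  have hwlt : σ * y / 4 < (w : ℝ) + 1 := Nat.lt_floor_add_one _
  have hw8 : σ * y / 8 ≤ w := by linarith
  have hw1 : 1 ≤ w := by
    have : (0 : ℝ) < w := by linarith
    exact_mod_cast this
  have hw0 : (0 : ℝ) < w := by exact_mod_cast hw1
  have hw4 : 4 * (w : ℝ) ≤ σ * y := by linarith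
  have h4w : 4 * w ≤ n := by
    have : ((4 * w : ℕ) : ℝ) ≤ (n : ℝ) := by
      push_cast
      have h1 : σ * √δ ≤ √(n : ℝ) := by linarith
      calc 4 * (w : ℝ) ≤ σ * y := hw4
        _ = (σ * √δ) * √(n : ℝ) := by rw [hy']; ring
        _ ≤ √(n : ℝ) * √(n : ℝ) := mul_le_mul_of_nonneg_right h1 hsn.le
        _ = n := hs2
    exact_mod_cast this
  set N : ℝ := n * √(n : ℝ) with hN
  have hN0 : 0 < N := by positivity
  -- pointwise bound
  have hae : ∀ᵐ ω ∂((PQ μ ν).restrict (EvN D n)), (cBe D δ n ω : ℝ≥0∞) ≤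
      ((∑ b ∈ Finset.range w, (Set.Ici y).indicator 1 (nz σ b ω)) +
      (ENNReal.ofReal ((2 * δ * n + w + 1) / w) +
      ∑ b ∈ (Finset.range n).filter (fun b => w ≤ b ∧ ((b : ℝ) ≤ δ * n ∨ (1 - δ) * n ≤ b)),
        ({η | 4 * (w : ℝ) ≤ Dp w η} : Set (ℕ → ℝ × ℝ)).indicator 1 (shift (b - w) ω))) +
      (cBl D σ n y ω : ℝ≥0∞) := by
    refine ae_restrict_of_ae ?_
    filter_upwards [ae_nonneg hQ] with ω hnn
    exact F7_pt hD hσ hnn hw4 hw1 hδ.le
  refine (lintegral_mono_ae hae).trans ?_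
  have hBm : MeasurableSet ({η | 4 * (w : ℝ) ≤ Dp w η} : Set (ℕ → ℝ × ℝ)) :=
    measurableSet_le measurable_const (measurable_Dp w)
  have m1 : ∀ b, Measurable fun ω : ℕ → ℝ × ℝ =>
      (Set.Ici y).indicator (1 : ℝ → ℝ≥0∞) (nz σ b ω) := fun b =>
    (measurable_one.indicator measurableSet_Ici).comp (measurable_nz b)
  have m2 : ∀ b, Measurable fun ω : ℕ → ℝ × ℝ =>
      ({η | 4 * (w : ℝ) ≤ Dp w η} : Set (ℕ → ℝ × ℝ)).indicator (1 : (ℕ → ℝ × ℝ) → ℝ≥0∞)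
        (shift (b - w) ω) := fun b =>
    (measurable_one.indicator hBm).comp (measurable_shift _)
  have m3 : Measurable fun ω : ℕ → ℝ × ℝ =>
      ∑ b ∈ Finset.range w, (Set.Ici y).indicator (1 : ℝ → ℝ≥0∞) (nz σ b ω) :=
    Finset.measurable_fun_sum _ fun b _ => m1 b
  have m4 : Measurable fun ω : ℕ → ℝ × ℝ =>
      ∑ b ∈ (Finset.range n).filter (fun b => w ≤ b ∧ ((b : ℝ) ≤ δ * n ∨ (1 - δ) * n ≤ b)),
        ({η | 4 * (w : ℝ) ≤ Dp w η} : Set (ℕ → ℝ × ℝ)).indicator (1 : (ℕ → ℝ × ℝ) → ℝ≥0∞)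
        (shift (b - w) ω) :=
    Finset.measurable_fun_sum _ fun b _ => m2 b
  have m5 : Measurable fun ω : ℕ → ℝ × ℝ =>
      (∑ b ∈ Finset.range w, (Set.Ici y).indicator (1 : ℝ → ℝ≥0∞) (nz σ b ω)) +
      (ENNReal.ofReal ((2 * δ * n + w + 1) / w) +
      ∑ b ∈ (Finset.range n).filter (fun b => w ≤ b ∧ ((b : ℝ) ≤ δ * n ∨ (1 - δ) * n ≤ b)),
        ({η | 4 * (w : ℝ) ≤ Dp w η} : Set (ℕ → ℝ × ℝ)).indicator (1 : (ℕ → ℝ × ℝ) → ℝ≥0∞)
        (shift (b - w) ω)) := m3.add (measurable_const.add m4)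
  rw [lintegral_add_left m5, lintegral_add_left m3,
    lintegral_add_left measurable_const, lintegral_const, Measure.restrict_apply_univ,
    lintegral_finsetSum _ (fun b _ => m1 b), lintegral_finsetSum _ (fun b _ => m2 b)]
  -- the parts
  have p1 := ha n w y hn1 hy1 hwle h4w
  have hEv : PQ μ ν (EvN D n) ≤ ENNReal.ofReal (Ch / N) := by
    have h1 := (hhit n hn1 0 le_rfl).1
    rw [add_zero, mul_one, ← PQ_EvN hD hQ n, Measure.real] at h1
    rwa [ENNReal.le_ofReal_iff_toReal_le (measure_ne_top _ _) (by positivity)]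
  have p2 : ENNReal.ofReal ((2 * δ * n + w + 1) / w) * PQ μ ν (EvN D n) ≤
      ENNReal.ofReal (Ch * (16 / σ + 2) * y / N) := by
    refine (mul_le_mul_right hEv _).trans ?_
    rw [← ENNReal.ofReal_mul (by positivity)]
    refine ENNReal.ofReal_le_ofReal ?_
    have h1 : (2 * δ * n + w + 1) / w ≤ (16 / σ + 2) * y := by
      rw [div_le_iff₀ hw0]
      have h2 : 2 * δ * n = 2 * (y * y) := by rw [hy2]; ring
      have h3 : 2 * (y * y) ≤ 16 / σ * y * w := by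
        have h4 : 16 / σ * y * (σ * y / 8) ≤ 16 / σ * y * w :=
          mul_le_mul_of_nonneg_left hw8 (by positivity)
        have h5 : 16 / σ * y * (σ * y / 8) = 2 * (y * y) := by field_simp; norm_num
        linarith
      have h6 : (w : ℝ) ≤ y * w := le_mul_of_one_le_left hw0.le hy1
      have h7 : (1 : ℝ) ≤ w := by exact_mod_cast hw1
      rw [h2]
      nlinarith
    calc (2 * δ * n + w + 1) / w * (Ch / N) ≤ (16 / σ + 2) * y * (Ch / N) :=
          mul_le_mul_of_nonneg_right h1 (by positivity)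
      _ = _ := by ring
  have p3 : ∑ b ∈ (Finset.range n).filter (fun b => w ≤ b ∧ ((b : ℝ) ≤ δ * n ∨ (1 - δ) * n ≤ b)),
      ∫⁻ ω in EvN D n, ({η | 4 * (w : ℝ) ≤ Dp w η} : Set (ℕ → ℝ × ℝ)).indicator 1
        (shift (b - w) ω) ∂(PQ μ ν) ≤ ENNReal.ofReal (20 * Cc * y / N) := by
    have hterm : ∀ b ∈ (Finset.range n).filter
        (fun b => w ≤ b ∧ ((b : ℝ) ≤ δ * n ∨ (1 - δ) * n ≤ b)),
        ∫⁻ ω in EvN D n, ({η | 4 * (w : ℝ) ≤ Dp w η} : Set (ℕ → ℝ × ℝ)).indicator 1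
        (shift (b - w) ω) ∂(PQ μ ν) ≤ ENNReal.ofReal (Cc / N *
          (1 / y + (1 / √((b - w + 1 : ℕ) : ℝ) + 1 / √((n - b : ℕ) : ℝ)))) := by
      intro b hb
      obtain ⟨h1, h2, -⟩ := Finset.mem_filter.mp hb
      have h1' := Finset.mem_range.mp h1
      have h3 := hc (b - w) w (n - b) y (by omega) hy1 hw hw1 (by omega)
      have h4 : b - w + w + (n - b) = n := by omega
      rw [h4] at h3
      refine le_trans (le_of_eq ?_) h3
      have h5 : ∀ ω : ℕ → ℝ × ℝ,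
          ({η | 4 * (w : ℝ) ≤ Dp w η} : Set (ℕ → ℝ × ℝ)).indicator (1 : (ℕ → ℝ × ℝ) → ℝ≥0∞)
            (shift (b - w) ω) =
          ({ω | shift (b - w) ω ∈ {η | 4 * (w : ℝ) ≤ Dp w η}} : Set (ℕ → ℝ × ℝ)).indicator
            (1 : (ℕ → ℝ × ℝ) → ℝ≥0∞) ω := by
        intro ω
        by_cases h6 : shift (b - w) ω ∈ {η | 4 * (w : ℝ) ≤ Dp w η}
        · rw [Set.indicator_of_mem h6, Set.indicator_of_mem (by exact h6)]; rfl
        · rw [Set.indicator_of_notMem h6, Set.indicator_of_notMem (by exact h6)]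
      simp_rw [h5]
      have h7 : MeasurableSet ({ω | shift (b - w) ω ∈ {η | 4 * (w : ℝ) ≤ Dp w η}} :
          Set (ℕ → ℝ × ℝ)) := measurable_shift _ hBm
      rw [lintegral_indicator_one h7, Measure.restrict_apply h7, Set.inter_comm]
    refine (Finset.sum_le_sum hterm).trans ?_
    rw [← ENNReal.ofReal_sum_of_nonneg fun b _ => by positivity, ← Finset.mul_sum]
    refine ENNReal.ofReal_le_ofReal ?_
    have h8 := F7_zone n w δ y hn1 hδ hδ1 hy hy1 h4w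
    calc _ ≤ Cc / N * (20 * y) := mul_le_mul_of_nonneg_left h8 (by positivity)
      _ = _ := by ring
  have p4 := hlow n hn1 y hy0.le hyn
  refine (add_le_add (add_le_add p1 (add_le_add p2 p3)) p4).trans ?_
  rw [← ENNReal.ofReal_add (by positivity) (by positivity),
    ← ENNReal.ofReal_add (by positivity) (by positivity),
    ← ENNReal.ofReal_add (by positivity) (by positivity)]
  refine ENNReal.ofReal_le_ofReal ?_
  have hfin : √δ / n = y / N := by
    rw [hy', hN]; field_simp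
  calc _ ≤ Ca * y / N + (Ch * (16 / σ + 2) * y / N + 20 * Cc * y / N) +
        Cl * (2 * y) / N := by
        have h9 : Cl * (1 + y) / N ≤ Cl * (2 * y) / N :=
          div_le_div_of_nonneg_right (mul_le_mul_of_nonneg_left (by linarith) hCl.le) hN0.le
        linarith
    _ = (Ca + Ch * (16 / σ + 2) + 20 * Cc + 2 * Cl) * (y / N) := by ring
    _ = _ := by rw [← hfin]; ring

end Pool.Agent.BPT
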