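import Pool.Agent.MP_99a865_pr.FV.F9a
import Pool.Agent.MP_99a865_pr.FV.F10m
import Pool.Agent.MP_99a865_pr.FV.F8b
import Pool.Agent.MP_99a865_pr.FV.F8c
import Pool.Agent.MP_99a865_pr.FV.F7
import Pool.Agent.MP_99a865_pr.FV.F4
import Pool.Agent.MP_99a865_pr.FV.F5

open MeasureTheory ProbabilityTheory Filter Topology
open scoped ENNReal NNReal

namespace Pool.Agent.BPT

variable {D : Set ℝ} {μ ν : Measure ℝ} {σ : ℝ}

open Classical in
theorem F10a_count (s : Finset ℕ) (p : (ℕ → ℝ × ℝ) → ℕ → Prop)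
    (h : ∀ i, MeasurableSet {ω | p ω i}) :
    Measurable fun ω => (((s.filter (p ω)).card : ℕ) : ℝ≥0∞) := by
  have h1 : (fun ω => (((s.filter (p ω)).card : ℕ) : ℝ≥0∞)) =
      fun ω => ∑ i ∈ s, if p ω i then (1 : ℝ≥0∞) else 0 := by
    funext ω
    rw [Finset.card_filter]
    push_cast
    rfl
  rw [h1]
  refine Finset.measurable_sum _ fun i _ => ?_
  exact Measurable.ite (h i) measurable_const measurable_const

theorem F10a_meas_cBe (hD : Dom D) (δ : ℝ) (n : ℕ) :
    Measurable fun ω => (cBe D δ n ω : ℝ≥0∞) := by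
  classical
  have := F10a_count (Finset.range n)
    (fun ω b => Bd D ω b ∧ ((b : ℝ) ≤ δ * n ∨ (1 - δ) * n ≤ b))
    (fun b => (measurableSet_Bd hD b).inter (MeasurableSet.const _))
  unfold cBe
  convert this

theorem F10a_meas_cBl (hD : Dom D) (n : ℕ) (y : ℝ) :
    Measurable fun ω => (cBl D σ n y ω : ℝ≥0∞) := by
  classical
  have := F10a_count (Finset.range n)
    (fun ω b => Bd D ω b ∧ nz σ b ω < y)
    (fun b => (measurableSet_Bd hD b).inter (measurableSet_lt (measurable_nz b) measurable_const))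
  unfold cBl
  convert this

theorem F10a_meas_cOcc (n : ℕ) (y : ℝ) :
    Measurable fun ω => (cOcc σ n y ω : ℝ≥0∞) := by
  classical
  have := F10a_count (Finset.range n)
    (fun ω b => nz σ b ω < y)
    (fun b => measurableSet_lt (measurable_nz b) measurable_const)
  unfold cOcc
  convert this

/-- the integration step -/
theorem F10a_int (hD : Dom D) (hQ : QStd μ ν σ) (n : ℕ) {X : (ℕ → ℝ × ℝ) → ℝ}
    {Bad : Set (ℕ → ℝ × ℝ)} {c a b y δ' : ℝ} (hc : 0 ≤ c) (ha : 0 ≤ a) (hb : 0 ≤ b)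
    (hX : ∀ ω, ω ∈ EvN D n → NN ω → ω ∉ Bad → |X ω| ≤ c + a * cBe D δ' n ω + a * cBl D σ n y ω +
      b * cOcc σ n y ω) :
    ∫⁻ ω in EvN D n, ENNReal.ofReal (min 1 |X ω|) ∂(PQ μ ν) ≤ PQ μ ν (EvN D n ∩ Bad) +
      (ENNReal.ofReal c * PQ μ ν (EvN D n) +
        ENNReal.ofReal a * ∫⁻ ω in EvN D n, (cBe D δ' n ω : ℝ≥0∞) ∂(PQ μ ν) +
        ENNReal.ofReal a * ∫⁻ ω in EvN D n, (cBl D σ n y ω : ℝ≥0∞) ∂(PQ μ ν) +
        ENNReal.ofReal b * ∫⁻ ω in EvN D n, (cOcc σ n y ω : ℝ≥0∞) ∂(PQ μ ν)) := by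
  have hE := measurableSet_EvN hD n
  have m1 := F10a_meas_cBe hD δ' n
  have m2 := F10a_meas_cBl (σ := σ) hD n y
  have m3 := F10a_meas_cOcc (σ := σ) n y
  have key : ∀ᵐ ω ∂((PQ μ ν).restrict (EvN D n)), ENNReal.ofReal (min 1 |X ω|) ≤
      Bad.indicator 1 ω + (ENNReal.ofReal c + ENNReal.ofReal a * (cBe D δ' n ω : ℝ≥0∞) +
        ENNReal.ofReal a * (cBl D σ n y ω : ℝ≥0∞) + ENNReal.ofReal b * (cOcc σ n y ω : ℝ≥0∞)) := by
    rw [ae_restrict_iff' hE]
    filter_upwards [ae_nonneg hQ] with ω hω hmem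
    by_cases hbad : ω ∈ Bad
    · rw [Set.indicator_of_mem hbad]
      calc ENNReal.ofReal (min 1 |X ω|) ≤ ENNReal.ofReal 1 :=
            ENNReal.ofReal_le_ofReal (min_le_left _ _)
        _ = 1 := ENNReal.ofReal_one
        _ ≤ _ := le_self_add
    · rw [Set.indicator_of_notMem hbad, zero_add]
      have h1 := hX ω hmem hω hbad
      calc ENNReal.ofReal (min 1 |X ω|) ≤ ENNReal.ofReal (c + a * cBe D δ' n ω +
            a * cBl D σ n y ω + b * cOcc σ n y ω) :=
            ENNReal.ofReal_le_ofReal ((min_le_right _ _).trans h1)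
        _ = _ := by
          rw [ENNReal.ofReal_add (by positivity) (by positivity),
            ENNReal.ofReal_add (by positivity) (by positivity),
            ENNReal.ofReal_add (by positivity) (by positivity),
            ENNReal.ofReal_mul ha, ENNReal.ofReal_mul ha, ENNReal.ofReal_mul hb,
            ENNReal.ofReal_natCast, ENNReal.ofReal_natCast, ENNReal.ofReal_natCast]
  refine (lintegral_mono_ae key).trans ?_
  rw [lintegral_add_right _ (by fun_prop)]
  refine add_le_add ?_ (le_of_eq ?_)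
  · refine (lintegral_indicator_one_le _).trans ?_
    rw [Measure.restrict_apply' hE, Set.inter_comm]
  · rw [lintegral_add_right _ (by fun_prop), lintegral_add_right _ (by fun_prop),
      lintegral_add_right _ (by fun_prop), lintegral_const_mul _ m1, lintegral_const_mul _ m2,
      lintegral_const_mul _ m3, lintegral_const, Measure.restrict_apply MeasurableSet.univ,
      Set.univ_inter]

/-- `P(N = n) = O(n^{-3/2})` -/
theorem F10a_EvN {C : ℝ} {n : ℕ} (hn : 1 ≤ n)
    (hC : ∫⁻ ω in EvN D n, (cOcc σ n 1 ω : ℝ≥0∞) ∂(PQ μ ν) ≤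
      ENNReal.ofReal (C * (1 + 1) ^ 2 / (n * √n))) :
    PQ μ ν (EvN D n) ≤ ENNReal.ofReal (4 * C / (n * √n)) := by
  classical
  have h1 : PQ μ ν (EvN D n) = ∫⁻ ω in EvN D n, 1 ∂(PQ μ ν) := by
    rw [lintegral_one, Measure.restrict_apply MeasurableSet.univ, Set.univ_inter]
  rw [h1]
  refine le_trans (lintegral_mono fun ω => ?_) (hC.trans (le_of_eq ?_))
  · have h2 : 1 ≤ cOcc σ n 1 ω := by
      unfold cOcc
      refine Finset.card_pos.mpr ⟨0, ?_⟩
      rw [Finset.mem_filter, Finset.mem_range]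
      refine ⟨by omega, ?_⟩
      have : nz σ 0 ω = 0 := by simp [nz, Zw, Dp, Ar]
      rw [this]
      norm_num
    have h3 : ((1 : ℕ) : ℝ≥0∞) ≤ (cOcc σ n 1 ω : ℝ≥0∞) := Nat.cast_le.mpr h2
    rw [Nat.cast_one] at h3
    exact h3
  · congr 1
    ring

/-- the bound on the grid sum -/
theorem F10a_YG {δ η : ℝ} (hδ : 0 < δ) (hδ1 : δ ≤ 1 / 16) (hη : 0 < η) {K : ℕ} (hK : 1 ≤ K) (n : ℕ)
    (ω : ℕ → ℝ × ℝ) : YG σ δ η K n (fun _ => 1) ω ≤ 1 / (2 * η) := by
  unfold YG
  have hK' : (0 : ℝ) < K := by exact_mod_cast hK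
  have : ∀ j ∈ Finset.range K, (1 - 2 * δ) / K * 1 / max (nz σ (gi n δ K j) ω / √n) (2 * η) ≤
      (1 - 2 * δ) / K / (2 * η) := by
    intro j _
    rw [mul_one]
    apply div_le_div_of_nonneg_left
    · apply div_nonneg <;> linarith
    · positivity
    · exact le_max_right _ _
  refine (Finset.sum_le_sum this).trans ?_
  rw [Finset.sum_const, Finset.card_range, nsmul_eq_mul]
  have h2 : (K : ℝ) * ((1 - 2 * δ) / K / (2 * η)) = (1 - 2 * δ) / (2 * η) := by
    field_simp
  rw [h2]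
  gcongr
  linarith

/-- **[FV-F10a]** Approximation of height and total height by grid sums, in probability given `N = n`.
PROOF. Given `τ ≤ 1` and `δ ≤ δ₀`, `η ≤ η₀ ≤ 1/16` let `ε` be so small that
`12(σ+1)/σ · ε/η² + ε ≤ τ'`, `ε ≤ ησ/(50(σ+1))`, `ε ≤ η`; `K₀` from `good_windows` (with `θ = τ'`) and
`≥ 4/δ`, `≥ 8/(ητ')`; `R` from `grid_bounded` (`θ = τ'`). On `EvN D n`, off the bad events (probability
`≤ 2τ'/(n√n)`) and the null set where `NN` fails (`ae_nonneg`), `HT_det` holds. Integrate over `EvN D n`: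
the constant term: `τ' PQ(EvN) ≤ τ' C/(n√n)` (`PQ_EvN`, `hit_bound`); `bd_edge` (with `2δ`):
`(σ/√n) C√(2δ)/n`; `bd_low` (`y = 3η√n ≤ √n`): `(σ/√n) C(1+3η√n)/(n√n) ≤ 4σCη/(n√n)` for `n` large;
`occ`: `C(1+3η√n)²/(ηn · n√n) ≤ 16Cη/(n√n)` for `n` large.
For the total height the additional term is `2/K · σHB/√n`, where (first estimate, on the same event)
`σHB/√n ≤ YG + (error) ≤ 1/(2η) + (error)`, the integral of the error being `≤ τ/(n√n)`; and
`2/K · 1/(2η) ≤ τ'`. -/
theorem HT_approx (hD : Dom D) (hQ : QStd μ ν σ) : ∀ τ > (0 : ℝ), ∃ δ₀ > (0 : ℝ), ∀ δ : ℝ, 0 < δ →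
    δ ≤ δ₀ → ∃ η₀ > (0 : ℝ), ∀ η : ℝ, 0 < η → η ≤ η₀ → ∃ K₀ : ℕ, ∀ K ≥ K₀, ∃ n₀ : ℕ, ∀ n ≥ n₀,
    ∫⁻ ω in EvN D n, ENNReal.ofReal (min 1 |σ * HB D n ω / √n - YG σ δ η K n (fun _ => 1) ω|)
      ∂(PQ μ ν) ≤ ENNReal.ofReal (τ / (n * √n)) ∧
    ∫⁻ ω in EvN D n, ENNReal.ofReal (min 1 |σ * TB D n ω / (n * √n) - YG σ δ η K n (cT δ K) ω|)
      ∂(PQ μ ν) ≤ ENNReal.ofReal (τ / (n * √n)) := by
  intro τ hτ
  have hσ : 0 < σ := hQ.pos
  obtain ⟨C1, hC1, hedge⟩ := bd_edge hD hQ
  obtain ⟨C2, hC2, hlow⟩ := bd_low hD hQ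
  obtain ⟨C3, hC3, hocc⟩ := occ hD hQ
  -- δ₀
  refine ⟨min (1 / 16) ((τ / (10 * σ * C1)) ^ 2 / 2), by positivity, ?_⟩
  intro δ hδ hδ0
  have hδ1 : δ ≤ 1 / 16 := hδ0.trans (min_le_left _ _)
  have hδ2 : δ ≤ (τ / (10 * σ * C1)) ^ 2 / 2 := hδ0.trans (min_le_right _ _)
  have hs2δ : 2 * σ * C1 * √(2 * δ) ≤ τ / 5 := by
    have h1 : √(2 * δ) ≤ τ / (10 * σ * C1) := by
      apply Real.sqrt_le_iff.mpr
      constructor
      · positivity
      · linarith
    calc 2 * σ * C1 * √(2 * δ) ≤ 2 * σ * C1 * (τ / (10 * σ * C1)) := by gcongr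
      _ = τ / 5 := by field_simp; norm_num
  -- η₀
  refine ⟨min (1 / 3) (τ / 5 / (8 * σ * C2 + 32 * C3)), by positivity, ?_⟩
  intro η hη hη0
  have hη1 : η ≤ 1 / 3 := hη0.trans (min_le_left _ _)
  have hη2 : (8 * σ * C2 + 32 * C3) * η ≤ τ / 5 := by
    have := hη0.trans (min_le_right _ _)
    rw [le_div_iff₀ (by positivity)] at this
    linarith
  -- ε
  set A : ℝ := 12 * (σ + 1) / σ / η ^ 2 + 1 with hA
  have hA0 : 0 < A := by positivity
  set ε : ℝ := min (min (η * σ / (50 * (σ + 1))) η) (τ / (40 * C3) / A) with hεdef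
  have hε : 0 < ε := by positivity
  have hε1 : ε ≤ η * σ / (50 * (σ + 1)) := (min_le_left _ _).trans (min_le_left _ _)
  have hε2 : ε ≤ η := (min_le_left _ _).trans (min_le_right _ _)
  have hε3 : 12 * (σ + 1) / σ * ε / η ^ 2 + ε ≤ τ / (40 * C3) := by
    have h1 : ε ≤ τ / (40 * C3) / A := min_le_right _ _
    rw [le_div_iff₀ hA0] at h1
    calc 12 * (σ + 1) / σ * ε / η ^ 2 + ε = ε * A := by rw [hA]; ring
      _ ≤ _ := h1
  obtain ⟨K1, hK1⟩ := good_windows hD hQ hδ (by linarith : δ ≤ 1 / 8) ε hε (τ / 10) (by positivity)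
  refine ⟨max K1 (max ⌈4 / δ⌉₊ (max 2 ⌈20 * C3 / (η * τ)⌉₊)), ?_⟩
  intro K hK
  have hKa : K1 ≤ K := (le_max_left _ _).trans hK
  have hKb : 4 / δ ≤ K := by
    have : ⌈4 / δ⌉₊ ≤ K := ((le_max_left _ _).trans (le_max_right _ _)).trans hK
    exact (Nat.le_ceil _).trans (by exact_mod_cast this)
  have hKc : 2 ≤ K :=
    (((le_max_left _ _).trans (le_max_right _ _)).trans (le_max_right _ _)).trans hK
  have hKd : 20 * C3 / (η * τ) ≤ K := by
    have : ⌈20 * C3 / (η * τ)⌉₊ ≤ K :=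
      (((le_max_right _ _).trans (le_max_right _ _)).trans (le_max_right _ _)).trans hK
    exact (Nat.le_ceil _).trans (by exact_mod_cast this)
  have hKc' : (2 : ℝ) ≤ K := by exact_mod_cast hKc
  have hKpos : (0 : ℝ) < K := by linarith
  obtain ⟨n1, hn1⟩ := hK1 K hKa
  obtain ⟨R, hR, n2, hn2⟩ := grid_bounded hD hQ hδ (by linarith : δ ≤ 1 / 8) K (by omega) (τ / 10)
    (by positivity)
  obtain ⟨n3, hn3⟩ := hedge (2 * δ) (by positivity) (by linarith)
  obtain ⟨n4, hn4⟩ := HT_det hD hσ hδ hδ1 hη (by linarith : η ≤ 1) hε hε1 hε2 hR K hKb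
  refine ⟨max n1 (max n2 (max n3 (max n4 (max 1 ⌈(1 / η) ^ 2⌉₊)))), ?_⟩
  intro n hn
  have hna : n1 ≤ n := (le_max_left _ _).trans hn
  have hnb : n2 ≤ n := ((le_max_left _ _).trans (le_max_right _ _)).trans hn
  have hnc : n3 ≤ n := (((le_max_left _ _).trans (le_max_right _ _)).trans (le_max_right _ _)).trans hn
  have hnd : n4 ≤ n := ((((le_max_left _ _).trans (le_max_right _ _)).trans
    (le_max_right _ _)).trans (le_max_right _ _)).trans hn
  have hne : 1 ≤ n := (((((le_max_left _ _).trans (le_max_right _ _)).trans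
    (le_max_right _ _)).trans (le_max_right _ _)).trans (le_max_right _ _)).trans hn
  have hnf : (1 / η) ^ 2 ≤ n := by
    have : ⌈(1 / η) ^ 2⌉₊ ≤ n := (((((le_max_right _ _).trans (le_max_right _ _)).trans
      (le_max_right _ _)).trans (le_max_right _ _)).trans (le_max_right _ _)).trans hn
    exact (Nat.le_ceil _).trans (by exact_mod_cast this)
  have hnpos : (0 : ℝ) < n := by exact_mod_cast hne
  have hsn : 0 < √(n : ℝ) := Real.sqrt_pos.mpr hnpos
  have hsn2 : √(n : ℝ) ^ 2 = n := Real.sq_sqrt hnpos.le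
  have hηn : 1 ≤ η * √n := by
    have h1 : 1 / η ≤ √n := by
      apply Real.le_sqrt_of_sq_le
      exact hnf
    rw [div_le_iff₀ hη] at h1
    linarith
  -- the bad event
  set Bad : Set (ℕ → ℝ × ℝ) := {ω | ¬ Gd σ δ ε K n ω} ∪
    {ω | ∃ j ≤ K, R * √n ≤ nz σ (gi n δ K j) ω} with hBad
  have hPBad : PQ μ ν (EvN D n ∩ Bad) ≤ ENNReal.ofReal (τ / 5 / (n * √n)) := by
    rw [hBad, Set.inter_union_distrib_left]
    refine (measure_union_le _ _).trans ?_
    refine (add_le_add (hn1 n hna) (hn2 n hnb)).trans (le_of_eq ?_)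
    rw [← ENNReal.ofReal_add (by positivity) (by positivity)]
    congr 1
    ring
  have hPE := F10a_EvN (D := D) (μ := μ) (ν := ν) (σ := σ) hne (hocc n hne 1 (by norm_num))
  set c0 : ℝ := 12 * (σ + 1) / σ * ε / η ^ 2 + ε with hc0
  have hc0pos : 0 ≤ c0 := by positivity
  -- general bound
  have main : ∀ X : (ℕ → ℝ × ℝ) → ℝ, (∀ ω, ω ∈ EvN D n → NN ω → ω ∉ Bad → |X ω| ≤
      2 * (c0 + σ * ((cBe D (2 * δ) n ω : ℝ) + cBl D σ n (3 * η * √n) ω) / √n +
      cOcc σ n (3 * η * √n) ω / (η * n)) + 1 / (K * η)) →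
      ∫⁻ ω in EvN D n, ENNReal.ofReal (min 1 |X ω|) ∂(PQ μ ν) ≤ ENNReal.ofReal (τ / (n * √n)) := by
    intro X hX
    have hcc : 0 ≤ 2 * c0 + 1 / (K * η) := by positivity
    have haa : 0 ≤ 2 * σ / √n := by positivity
    have hbb : 0 ≤ 2 / (η * n) := by positivity
    refine (F10a_int hD hQ n (X := X) (Bad := Bad) (c := 2 * c0 + 1 / (K * η)) (a := 2 * σ / √n)
      (b := 2 / (η * n)) (y := 3 * η * √n) (δ' := 2 * δ) hcc haa hbb ?_).trans ?_
    · intro ω h1 h2 h3
      refine (hX ω h1 h2 h3).trans (le_of_eq ?_)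
      ring
    · have e1 := hn3 n hnc
      have e2 := hlow n hne (3 * η * √n) (by positivity) (by nlinarith)
      have e3 := hocc n hne (3 * η * √n) (by positivity)
      calc _ ≤ ENNReal.ofReal (τ / 5 / (n * √n)) +
          (ENNReal.ofReal (2 * c0 + 1 / (K * η)) * ENNReal.ofReal (4 * C3 / (n * √n)) +
            ENNReal.ofReal (2 * σ / √n) * ENNReal.ofReal (C1 * √(2 * δ) / n) +
            ENNReal.ofReal (2 * σ / √n) * ENNReal.ofReal (C2 * (1 + 3 * η * √n) / (n * √n)) +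
            ENNReal.ofReal (2 / (η * n)) *
              ENNReal.ofReal (C3 * (1 + 3 * η * √n) ^ 2 / (n * √n))) := by gcongr
        _ = ENNReal.ofReal (τ / 5 / (n * √n) + ((2 * c0 + 1 / (K * η)) * (4 * C3 / (n * √n)) +
            (2 * σ / √n) * (C1 * √(2 * δ) / n) +
            (2 * σ / √n) * (C2 * (1 + 3 * η * √n) / (n * √n)) +
            (2 / (η * n)) * (C3 * (1 + 3 * η * √n) ^ 2 / (n * √n)))) := by
          rw [← ENNReal.ofReal_mul hcc, ← ENNReal.ofReal_mul haa, ← ENNReal.ofReal_mul haa,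
            ← ENNReal.ofReal_mul hbb, ← ENNReal.ofReal_add (by positivity) (by positivity),
            ← ENNReal.ofReal_add (by positivity) (by positivity),
            ← ENNReal.ofReal_add (by positivity) (by positivity),
            ← ENNReal.ofReal_add (by positivity) (by positivity)]
        _ ≤ ENNReal.ofReal (τ / (n * √n)) := by
          apply ENNReal.ofReal_le_ofReal
          -- each term
          have t1 : 8 * C3 * c0 ≤ τ / 5 := by
            have : c0 * (40 * C3) ≤ τ := by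
              have := hε3
              rw [le_div_iff₀ (by positivity)] at this
              exact this
            linarith
          have t2 : 4 * C3 / (K * η) ≤ τ / 5 := by
            rw [div_le_iff₀ (by positivity)] at hKd
            rw [div_le_iff₀ (by positivity)]
            linarith
          have t3 : C2 * (1 + 3 * η * √n) ≤ C2 * (4 * η * √n) := by
            apply mul_le_mul_of_nonneg_left _ hC2.le
            linarith
          have t4 : C3 * (1 + 3 * η * √n) ^ 2 ≤ C3 * (16 * η ^ 2 * n) := by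
            apply mul_le_mul_of_nonneg_left _ hC3.le
            calc (1 + 3 * η * √n) ^ 2 ≤ (4 * (η * √n)) ^ 2 := by
                  apply pow_le_pow_left₀ (by positivity)
                  linarith
              _ = 16 * η ^ 2 * n := by rw [mul_pow, mul_pow, hsn2]; ring
          have u3 : (2 * σ / √n) * (C2 * (1 + 3 * η * √n) / (n * √n)) ≤
              8 * σ * C2 * η / (n * √n) := by
            calc (2 * σ / √n) * (C2 * (1 + 3 * η * √n) / (n * √n)) ≤
                (2 * σ / √n) * (C2 * (4 * η * √n) / (n * √n)) := by gcongr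
              _ = 8 * σ * C2 * η / (n * √n) := by
                field_simp
                norm_num
          have u4 : (2 / (η * n)) * (C3 * (1 + 3 * η * √n) ^ 2 / (n * √n)) ≤
              32 * C3 * η / (n * √n) := by
            calc (2 / (η * n)) * (C3 * (1 + 3 * η * √n) ^ 2 / (n * √n)) ≤
                (2 / (η * n)) * (C3 * (16 * η ^ 2 * n) / (n * √n)) := by gcongr
              _ = 32 * C3 * η / (n * √n) := by
                field_simp
                norm_num
          have u2 : (2 * σ / √n) * (C1 * √(2 * δ) / n) = 2 * σ * C1 * √(2 * δ) / (n * √n) := by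
            field_simp
          have u1 : (2 * c0 + 1 / (K * η)) * (4 * C3 / (n * √n)) =
              (8 * C3 * c0 + 4 * C3 / (K * η)) / (n * √n) := by
            field_simp
            ring
          rw [u1, u2]
          calc _ ≤ τ / 5 / (n * √n) + ((8 * C3 * c0 + 4 * C3 / (K * η)) / (n * √n) +
                2 * σ * C1 * √(2 * δ) / (n * √n) + 8 * σ * C2 * η / (n * √n) +
                32 * C3 * η / (n * √n)) := by gcongr
            _ = (τ / 5 + 8 * C3 * c0 + 4 * C3 / (K * η) + 2 * σ * C1 * √(2 * δ) +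
                (8 * σ * C2 + 32 * C3) * η) / (n * √n) := by ring
            _ ≤ τ / (n * √n) := by
              gcongr
              linarith
  constructor
  · refine main _ fun ω h1 h2 h3 => ?_
    have hG : Gd σ δ ε K n ω := by
      by_contra h
      exact h3 (Or.inl h)
    have hB : ∀ j ≤ K, nz σ (gi n δ K j) ω < R * √n := by
      intro j hj
      by_contra h
      exact h3 (Or.inr ⟨j, hj, not_lt.mp h⟩)
    have h4 := (hn4 n hnd ω h1 h2 hG hB).1
    refine h4.trans ?_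
    have h5 : 0 ≤ c0 + σ * ((cBe D (2 * δ) n ω : ℝ) + cBl D σ n (3 * η * √n) ω) / √n +
      cOcc σ n (3 * η * √n) ω / (η * n) := by positivity
    have h6 : (0 : ℝ) ≤ 1 / (K * η) := by positivity
    linarith
  · refine main _ fun ω h1 h2 h3 => ?_
    have hG : Gd σ δ ε K n ω := by
      by_contra h
      exact h3 (Or.inl h)
    have hB : ∀ j ≤ K, nz σ (gi n δ K j) ω < R * √n := by
      intro j hj
      by_contra h
      exact h3 (Or.inr ⟨j, hj, not_lt.mp h⟩)
    obtain ⟨h4, h4'⟩ := hn4 n hnd ω h1 h2 hG hB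
    refine h4'.trans ?_
    have h5 : 0 ≤ c0 + σ * ((cBe D (2 * δ) n ω : ℝ) + cBl D σ n (3 * η * √n) ω) / √n +
      cOcc σ n (3 * η * √n) ω / (η * n) := by positivity
    set err : ℝ := c0 + σ * ((cBe D (2 * δ) n ω : ℝ) + cBl D σ n (3 * η * √n) ω) / √n +
      cOcc σ n (3 * η * √n) ω / (η * n) with herr
    have h6 : σ * HB D n ω / √n ≤ err + 1 / (2 * η) := by
      have h7 := F10a_YG (σ := σ) hδ hδ1 hη (by omega : 1 ≤ K) n ω
      have h8 := (abs_le.mp h4).2
      linarith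
    have h7 : 2 / K * (σ * HB D n ω / √n) ≤ 2 / K * (err + 1 / (2 * η)) := by gcongr
    have h8 : 2 / K * (err + 1 / (2 * η)) = 2 / K * err + 1 / (K * η) := by
      field_simp
    have h9 : 2 / K * err ≤ 1 * err := by
      apply mul_le_mul_of_nonneg_right _ h5
      rw [div_le_one hKpos]
      exact hKc'
    linarith

end Pool.Agent.BPT
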