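import Pool.Agent.MP_99a865_pr.FV.F2
import Pool.Agent.MP_99a865_pr.FV.E1d

open MeasureTheory ProbabilityTheory Filter Topology
open scoped ENNReal NNReal

namespace Pool.Agent.BPT

variable {D : Set ℝ} {μ ν : Measure ℝ} {σ : ℝ}

/-- the grid data `(δ, f 0), (κ, f 1), …, (κ, f (K-1))`, `κ = (1 - 2δ)/K` -/
noncomputable def gts (δ : ℝ) (K : ℕ) (f : ℕ → ℝ → ℝ) : List (ℝ × (ℝ → ℝ)) :=
  (δ, f 0) :: (List.range (K - 1)).map fun j => ((1 - 2 * δ) / K, f (j + 1))

/-! ### auxiliary: peeling off the grid times -/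

/-- exit of `D` at time `n` -/
def F11a_E (D : Set ℝ) (n : ℕ) : Set (ℝ × (ℕ → ℝ)) :=
  {p | Alive D p.1 (n - 1) p.2 ∧ p.1 + S n p.2 ∉ D}

/-- the product functional -/
noncomputable def F11a_P (s : ℝ) : List (ℕ × (ℝ → ℝ)) → ℝ × (ℕ → ℝ) → ℝ
  | [], _ => 1
  | (k, f) :: l, p => f ((p.1 + S k p.2) / s) * F11a_P s l (p.1 + S k p.2, shift k p.2)

theorem F11a_meas_pair (k : ℕ) : Measurable fun p : ℝ × (ℕ → ℝ) => p.1 + S k p.2 :=
  measurable_fst.add ((measurable_S k).comp measurable_snd)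

theorem F11a_meas_E (hD : Dom D) (n : ℕ) : MeasurableSet (F11a_E D n) :=
  (measurableSet_alive' hD (n - 1)).inter ((F11a_meas_pair n) hD.meas.compl)

theorem F11a_meas_P (s : ℝ) (l : List (ℕ × (ℝ → ℝ))) (hl : ∀ p ∈ l, Measurable p.2) :
    Measurable (F11a_P s l) := by
  induction l with
  | nil => exact measurable_const
  | cons q l ih =>
    obtain ⟨k, f⟩ := q
    have h1 : Measurable f := hl (k, f) List.mem_cons_self
    have h2 := ih fun p hp => hl p (List.mem_cons_of_mem _ hp)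
    have h3 := F11a_meas_pair k
    exact (h1.comp (h3.div_const s)).mul
      (h2.comp (h3.prodMk ((measurable_shift k).comp measurable_snd)))

theorem F11a_bd_P (s : ℝ) (l : List (ℕ × (ℝ → ℝ))) (hl : ∀ p ∈ l, ∃ C, ∀ x, |p.2 x| ≤ C) :
    ∃ C, ∀ p, |F11a_P s l p| ≤ C := by
  induction l with
  | nil => exact ⟨1, fun p => by simp [F11a_P]⟩
  | cons q l ih =>
    obtain ⟨k, f⟩ := q
    obtain ⟨C, hC⟩ := hl (k, f) List.mem_cons_self
    obtain ⟨C', hC'⟩ := ih fun p hp => hl p (List.mem_cons_of_mem _ hp)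
    refine ⟨C * C', fun p => ?_⟩
    rw [F11a_P, abs_mul]
    exact mul_le_mul (hC _) (hC' _) (abs_nonneg _) ((abs_nonneg _).trans (hC 0))

theorem F11a_E_add (x : ℝ) (k n : ℕ) (hn : 1 ≤ n) (ω : ℕ → ℝ) :
    (x, ω) ∈ F11a_E D (k + n) ↔ Alive D x k ω ∧ (x + S k ω, shift k ω) ∈ F11a_E D n := by
  have h1 : k + n - 1 = k + (n - 1) := by omega
  simp only [F11a_E, Set.mem_ofPred_eq, h1, alive_add, S_shift, and_assoc, add_assoc]

theorem F11a_S_congr {ω ω' : ℕ → ℝ} {k : ℕ} (h : ∀ i < k, ω i = ω' i) {j : ℕ} (hj : j ≤ k) :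
    S j ω = S j ω' := by
  unfold S
  refine Finset.sum_congr rfl (fun i hi => h i ?_)
  have := Finset.mem_range.1 hi
  omega

theorem F11a_alive_congr {ω ω' : ℕ → ℝ} {k : ℕ} (h : ∀ i < k, ω i = ω' i) (x : ℝ) :
    Alive D x k ω ↔ Alive D x k ω' := by
  unfold Alive
  refine forall_congr' fun j => forall_congr' fun _ => forall_congr' fun hj => ?_
  rw [F11a_S_congr h hj]

theorem F11a_IQ (hD : Dom D) {ρ : Measure ℝ} [IsProbabilityMeasure ρ] (s : ℝ) (m : ℕ) (hm : 1 ≤ m)
    (l : List (ℕ × (ℝ → ℝ))) (hl : ∀ p ∈ l, Measurable p.2) (hb : ∀ p ∈ l, ∃ C, ∀ x, |p.2 x| ≤ C) :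
    Measurable (IQ D ρ s l (hit D ρ m)) ∧ ∀ x, ∫ ω in {ω | (x, ω) ∈ F11a_E D (tot l + m)},
      F11a_P s l (x, ω) ∂(seqLaw ρ) = IQ D ρ s l (hit D ρ m) x := by
  induction l with
  | nil =>
    refine ⟨measurable_hit hD m, fun x => ?_⟩
    simp only [F11a_P, IQ, tot, List.map_nil, List.sum_nil, zero_add, integral_const,
      MeasurableSet.univ, measureReal_restrict_apply, Set.univ_inter, smul_eq_mul, mul_one]
    unfold hit F11a_E
    congr 1
    ext ω
    simp [hm]
  | cons q l ih =>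
    obtain ⟨k, f⟩ := q
    have hf : Measurable f := hl (k, f) List.mem_cons_self
    obtain ⟨C, hC⟩ := hb (k, f) List.mem_cons_self
    have hl' : ∀ p ∈ l, Measurable p.2 := fun p hp => hl p (List.mem_cons_of_mem _ hp)
    have hb' : ∀ p ∈ l, ∃ C, ∀ x, |p.2 x| ≤ C := fun p hp => hb p (List.mem_cons_of_mem _ hp)
    obtain ⟨h1, h2⟩ := ih hl' hb'
    obtain ⟨C', hC'⟩ := F11a_bd_P s l hb'
    have hC'0 : 0 ≤ C' := (abs_nonneg _).trans (hC' (0, fun _ => 0))
    have hC0 : 0 ≤ C := (abs_nonneg _).trans (hC 0)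
    have h3 : ∀ x, |IQ D ρ s l (hit D ρ m) x| ≤ C' := by
      intro x
      rw [← h2 x]
      have := norm_setIntegral_le_of_norm_le_const (μ := seqLaw ρ)
        (s := {ω | (x, ω) ∈ F11a_E D (tot l + m)}) (f := fun ω => F11a_P s l (x, ω)) (C := C')
        (measure_lt_top _ _) (fun ω _ => by rw [Real.norm_eq_abs]; exact hC' _)
      rw [Real.norm_eq_abs] at this
      refine this.trans ?_
      exact mul_le_of_le_one_right hC'0 measureReal_le_one
    have h4 : Measurable fun y => f (y / s) * IQ D ρ s l (hit D ρ m) y :=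
      (hf.comp (measurable_id.div_const s)).mul h1
    refine ⟨?_, fun x => ?_⟩
    · refine measurable_integral_kap hD k _ h4 (C * C') (fun y => ?_)
      rw [abs_mul]
      exact mul_le_mul (hC _) (h3 _) (abs_nonneg _) hC0
    · have e1 : tot ((k, f) :: l) + m = k + (tot l + m) := by
        simp only [tot, List.map_cons, List.sum_cons]
        omega
      have hE := F11a_meas_E hD (tot l + m)
      have hA := measurableSet_alive hD x k
      have hE' : MeasurableSet {ω : ℕ → ℝ | (x, ω) ∈ F11a_E D (k + (tot l + m))} :=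
        measurable_prodMk_left (F11a_meas_E hD (k + (tot l + m)))
      rw [e1, ← integral_indicator hE']
      set H : (ℕ → ℝ) → (ℕ → ℝ) → ℝ := fun ω η =>
        ({ω | Alive D x k ω} : Set (ℕ → ℝ)).indicator (fun ω => f ((x + S k ω) / s)) ω *
        (F11a_E D (tot l + m)).indicator (F11a_P s l) (x + S k ω, η) with hH
      have hHm : Measurable (Function.uncurry H) := by
        have m1 : Measurable (({ω | Alive D x k ω} : Set (ℕ → ℝ)).indicator
            (fun ω => f ((x + S k ω) / s))) :=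
          (hf.comp ((measurable_const.add (measurable_S k)).div_const s)).indicator hA
        have m2 : Measurable ((F11a_E D (tot l + m)).indicator (F11a_P s l)) :=
          (F11a_meas_P s l hl').indicator hE
        refine (m1.comp measurable_fst).mul (m2.comp ?_)
        exact ((measurable_const.add ((measurable_S k).comp measurable_fst))).prodMk measurable_snd
      have hHb : ∀ ω η, |H ω η| ≤ C * C' := by
        intro ω η
        rw [hH]
        simp only [abs_mul]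
        refine mul_le_mul ?_ ?_ (abs_nonneg _) hC0
        · by_cases h : ω ∈ {ω | Alive D x k ω}
          · rw [Set.indicator_of_mem h]
            exact hC _
          · rw [Set.indicator_of_notMem h, abs_zero]
            exact hC0
        · by_cases h : (x + S k ω, η) ∈ F11a_E D (tot l + m)
          · rw [Set.indicator_of_mem h]
            exact hC' _
          · rw [Set.indicator_of_notMem h, abs_zero]
            exact hC'0
      have hHd : ∀ ω ω' η, (∀ i < k, ω i = ω' i) → H ω η = H ω' η := by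
        intro ω ω' η h
        have a1 := F11a_S_congr h le_rfl
        have a2 := F11a_alive_congr (D := D) h x
        rw [hH]
        simp only [a1]
        congr 1
        by_cases h' : Alive D x k ω
        · rw [Set.indicator_of_mem (show ω ∈ {ω | Alive D x k ω} from h'),
            Set.indicator_of_mem (show ω' ∈ {ω | Alive D x k ω} from a2.1 h'), a1]
        · rw [Set.indicator_of_notMem (show ω ∉ {ω | Alive D x k ω} from h'),
            Set.indicator_of_notMem (show ω' ∉ {ω | Alive D x k ω} from fun h => h' (a2.2 h))]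
      have e2 : ∀ ω, ({ω : ℕ → ℝ | (x, ω) ∈ F11a_E D (k + (tot l + m))} : Set (ℕ → ℝ)).indicator
          (fun ω => F11a_P s ((k, f) :: l) (x, ω)) ω = H ω (shift k ω) := by
        intro ω
        have b1 := F11a_E_add (D := D) x k (tot l + m) (by omega) ω
        by_cases h : (x, ω) ∈ F11a_E D (k + (tot l + m))
        · obtain ⟨b2, b3⟩ := b1.1 h
          rw [Set.indicator_of_mem (show ω ∈ {ω : ℕ → ℝ | (x, ω) ∈ F11a_E D (k + (tot l + m))} from h), hH]
          simp only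
          rw [Set.indicator_of_mem (show ω ∈ {ω | Alive D x k ω} from b2),
            Set.indicator_of_mem b3]
          rfl
        · rw [Set.indicator_of_notMem
            (show ω ∉ {ω : ℕ → ℝ | (x, ω) ∈ F11a_E D (k + (tot l + m))} from h), hH]
          simp only
          by_cases b2 : Alive D x k ω
          · rw [Set.indicator_of_notMem (fun b3 => h (b1.2 ⟨b2, b3⟩)), mul_zero]
          · rw [Set.indicator_of_notMem (show ω ∉ {ω | Alive D x k ω} from b2), zero_mul]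
      rw [integral_congr_ae (Filter.Eventually.of_forall e2),
        integral_split ρ k H hHm (C * C') hHb hHd]
      have e3 : ∀ ω, ∫ η, H ω η ∂(seqLaw ρ) = ({ω | Alive D x k ω} : Set (ℕ → ℝ)).indicator
          (fun ω => f ((x + S k ω) / s) * IQ D ρ s l (hit D ρ m) (x + S k ω)) ω := by
        intro ω
        rw [hH]
        simp only
        rw [integral_const_mul]
        have c1 : ∫ η, (F11a_E D (tot l + m)).indicator (F11a_P s l) (x + S k ω, η) ∂(seqLaw ρ) =
            IQ D ρ s l (hit D ρ m) (x + S k ω) := by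
          have hE2 : MeasurableSet {η : ℕ → ℝ | (x + S k ω, η) ∈ F11a_E D (tot l + m)} :=
            measurable_prodMk_left hE
          rw [← h2, ← integral_indicator hE2]
          rfl
        rw [c1]
        by_cases h : ω ∈ {ω | Alive D x k ω}
        · rw [Set.indicator_of_mem h, Set.indicator_of_mem h]
        · rw [Set.indicator_of_notMem h, Set.indicator_of_notMem h, zero_mul]
      rw [integral_congr_ae (Filter.Eventually.of_forall e3), integral_indicator hA,
        ← integral_kap_eq hD k x _ h4]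
      rfl

/-- the list of gaps -/
def F11a_L (g : ℕ → ℕ) (f : ℕ → ℝ → ℝ) (j₀ r : ℕ) : List (ℕ × (ℝ → ℝ)) :=
  (List.range r).map fun j => (g (j₀ + j + 1) - g (j₀ + j), f (j₀ + j + 1))

theorem F11a_L_succ (g : ℕ → ℕ) (f : ℕ → ℝ → ℝ) (j₀ r : ℕ) :
    F11a_L g f j₀ (r + 1) = (g (j₀ + 1) - g j₀, f (j₀ + 1)) :: F11a_L g f (j₀ + 1) r := by
  unfold F11a_L
  rw [List.range_succ_eq_map, List.map_cons, List.map_map]
  congr 1
  refine List.map_congr_left fun j _ => ?_
  simp only [Function.comp, Nat.succ_eq_add_one]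
  rw [show j₀ + (j + 1) = j₀ + 1 + j by omega]

theorem F11a_shift_add {E : Type} (k l : ℕ) (ω : ℕ → E) :
    shift l (shift k ω) = shift (k + l) ω := by
  funext i
  simp [shift, add_assoc]

theorem F11a_P_L (s : ℝ) (g : ℕ → ℕ) (hg : Monotone g) (f : ℕ → ℝ → ℝ) (ω : ℕ → ℝ) (r : ℕ) :
    ∀ j₀, F11a_P s (F11a_L g f j₀ r) (S (g j₀) ω, shift (g j₀) ω) =
      ∏ j ∈ Finset.range r, f (j₀ + j + 1) (S (g (j₀ + j + 1)) ω / s) := by
  induction r with
  | zero => intro j₀; simp [F11a_L, F11a_P]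
  | succ r ih =>
    intro j₀
    have h1 : g j₀ + (g (j₀ + 1) - g j₀) = g (j₀ + 1) := by
      have := hg (Nat.le_succ j₀)
      simp only [Nat.succ_eq_add_one] at this
      omega
    rw [F11a_L_succ, F11a_P, F11a_shift_add, ← S_shift, h1, ih (j₀ + 1), Finset.prod_range_succ']
    simp only [add_zero]
    rw [mul_comm]
    congr 1
    refine Finset.prod_congr rfl fun j _ => ?_
    rw [show j₀ + (j + 1) + 1 = j₀ + 1 + j + 1 by omega]

theorem F11a_tot_L (g : ℕ → ℕ) (hg : Monotone g) (f : ℕ → ℝ → ℝ) (r : ℕ) :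
    ∀ j₀, g j₀ + tot (F11a_L g f j₀ r) = g (j₀ + r) := by
  induction r with
  | zero => intro j₀; simp [F11a_L, tot]
  | succ r ih =>
    intro j₀
    have h1 : g j₀ + (g (j₀ + 1) - g j₀) = g (j₀ + 1) := by
      have := hg (Nat.le_succ j₀)
      simp only [Nat.succ_eq_add_one] at this
      omega
    have h2 := ih (j₀ + 1)
    rw [F11a_L_succ]
    unfold tot at *
    rw [List.map_cons, List.sum_cons, ← add_assoc, h1, h2]
    congr 1
    omega

theorem F11a_gi_mono (n : ℕ) {δ : ℝ} (hδ1 : δ ≤ 1 / 8) (K : ℕ) : Monotone (gi n δ K) := by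
  intro i j hij
  unfold gi
  refine Nat.floor_mono ?_
  refine mul_le_mul_of_nonneg_right ?_ (Nat.cast_nonneg n)
  have h1 : (0 : ℝ) ≤ (1 - 2 * δ) / K := div_nonneg (by linarith) (Nat.cast_nonneg K)
  have h2 : (i : ℝ) ≤ j := by exact_mod_cast hij
  have := mul_le_mul_of_nonneg_right h2 h1
  linarith

theorem F11a_match (n : ℕ) {δ : ℝ} (hδ : 0 < δ) (hδ1 : δ ≤ 1 / 8) (K : ℕ) (hK : 1 ≤ K)
    (f : ℕ → ℝ → ℝ) :
    Match n ((gi n δ K 0, f 0) :: F11a_L (gi n δ K) f 0 (K - 1)) (gts δ K f) := by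
  have hk0 : (0 : ℝ) ≤ (1 - 2 * δ) / K := div_nonneg (by linarith) (Nat.cast_nonneg K)
  have hn0 : (0 : ℝ) ≤ n := Nat.cast_nonneg n
  have hfl : ∀ j : ℕ, |(gi n δ K j : ℝ) - (δ + j * ((1 - 2 * δ) / K)) * n| ≤ 1 := by
    intro j
    have h0 : (0 : ℝ) ≤ (δ + j * ((1 - 2 * δ) / K)) * n := by positivity
    have h1 := Nat.floor_le h0
    have h2 := Nat.lt_floor_add_one ((δ + j * ((1 - 2 * δ) / K)) * n)
    unfold gi
    rw [abs_le]
    constructor <;> linarith
  refine List.Forall₂.cons ⟨rfl, ?_⟩ ?_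
  · have := hfl 0
    simp only [Nat.cast_zero, zero_mul, add_zero] at this
    simp only
    linarith
  · unfold F11a_L
    rw [List.forall₂_map_left_iff, List.forall₂_map_right_iff, List.forall₂_same]
    intro j _
    refine ⟨by simp, ?_⟩
    simp only [zero_add]
    have h1 := hfl j
    have h2 := hfl (j + 1)
    have h3 := F11a_gi_mono n hδ1 K (Nat.le_succ j)
    rw [Nat.cast_sub h3]
    push_cast at h2 ⊢
    rw [abs_le] at *
    constructor <;> nlinarith [h1.1, h1.2, h2.1, h2.2]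

theorem F11a_sum (δ : ℝ) (K : ℕ) (hK : 1 ≤ K) (f : ℕ → ℝ → ℝ) :
    ((gts δ K f).map Prod.fst).sum = δ + (K - 1) * ((1 - 2 * δ) / K) := by
  unfold gts
  rw [List.map_cons, List.sum_cons, List.map_map]
  congr 1
  have h1 : (Prod.fst ∘ fun j : ℕ => ((1 - 2 * δ) / K, f (j + 1))) = fun _ => (1 - 2 * δ) / K := rfl
  rw [h1, List.map_const', List.sum_replicate, List.length_range, nsmul_eq_mul, Nat.cast_sub hK,
    Nat.cast_one]

theorem F11a_adm {δ : ℝ} (hδ : 0 < δ) (hδ1 : δ ≤ 1 / 8) (K : ℕ) (hK : 1 ≤ K) {M : ℝ} (hM : 0 < M)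
    (f : ℕ → ℝ → ℝ) (hf : ∀ j, BL M (f j)) : Adm (gts δ K f) := by
  have hK0 : (0 : ℝ) < K := by exact_mod_cast hK
  have hk0 : (0 : ℝ) < (1 - 2 * δ) / K := div_pos (by linarith) hK0
  refine ⟨?_, ?_, M, hM, ?_⟩
  · intro p hp
    unfold gts at hp
    rcases List.mem_cons.1 hp with rfl | hp
    · exact hδ
    · obtain ⟨j, _, rfl⟩ := List.mem_map.1 hp
      exact hk0
  · rw [F11a_sum δ K hK f]
    have : (K - 1 : ℝ) * ((1 - 2 * δ) / K) = (1 - 2 * δ) - (1 - 2 * δ) / K := by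
      field_simp
    rw [this]
    linarith
  · intro p hp
    unfold gts at hp
    rcases List.mem_cons.1 hp with rfl | hp
    · exact hf 0
    · obtain ⟨j, _, rfl⟩ := List.mem_map.1 hp
      exact hf (j + 1)

theorem F11a_BL_meas {M : ℝ} {f : ℝ → ℝ} (hf : BL M f) : Measurable f := by
  have hM : 0 ≤ M := (abs_nonneg _).trans (hf.bd 0)
  have h : LipschitzWith (Real.toNNReal M) f := by
    refine LipschitzWith.of_dist_le_mul fun x y => ?_
    rw [Real.dist_eq, Real.dist_eq, Real.coe_toNNReal M hM]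
    exact hf.lip x y
  exact h.continuous.measurable

theorem F11a_gi_lt (n : ℕ) (hn : 1 ≤ n) {δ : ℝ} (hδ : 0 < δ) (hδ1 : δ ≤ 1 / 8) (K : ℕ)
    (hK : 1 ≤ K) : gi n δ K (K - 1) < n := by
  have hK0 : (0 : ℝ) < K := by exact_mod_cast hK
  have hk0 : (0 : ℝ) < (1 - 2 * δ) / K := div_pos (by linarith) hK0
  have hn0 : (0 : ℝ) < n := by exact_mod_cast hn
  unfold gi
  rw [Nat.cast_sub hK, Nat.cast_one]
  have h1 : (K - 1 : ℝ) * ((1 - 2 * δ) / K) = (1 - 2 * δ) - (1 - 2 * δ) / K := by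
    field_simp
  rw [h1, Nat.floor_lt' (by omega)]
  have h2 : (δ + (1 - 2 * δ - (1 - 2 * δ) / K)) < 1 := by linarith
  calc (δ + (1 - 2 * δ - (1 - 2 * δ) / K)) * (n : ℝ) < 1 * n := mul_lt_mul_of_pos_right h2 hn0
    _ = n := one_mul _

/-- transfer to the normalised walk -/
theorem F11a_transfer (hD : Dom D) (hQ : QStd μ ν σ) (n : ℕ) (hn : 1 ≤ n) (F : (ℕ → ℝ) → ℝ)
    (hF : Measurable F) : ∫ ω in EvN D n, F (steps σ ω) ∂(PQ μ ν) =
      ∫ ω in {ω | ((0 : ℝ), ω) ∈ F11a_E D n}, F ω ∂(seqLaw (stepLaw μ ν σ)) := by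
  have hE : MeasurableSet {ω : ℕ → ℝ | ((0 : ℝ), ω) ∈ F11a_E D n} :=
    measurable_prodMk_left (F11a_meas_E hD n)
  have h1 : EvN D n = steps σ ⁻¹' {ω : ℕ → ℝ | ((0 : ℝ), ω) ∈ F11a_E D n} := by
    ext ω
    have a1 := aliveQ_iff hD hQ.pos (n - 1) ω
    have a2 := Zw_mem hD hQ.pos n ω
    rw [nz_eq] at a2
    simp only [EvN, F11a_E, Set.mem_ofPred_eq, Set.mem_preimage, zero_add, a1, a2, hn, true_and]
  rw [← map_steps hQ, h1, setIntegral_map hE hF.aestronglyMeasurable measurable_steps.aemeasurable]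

/-- **[FV-F11a]** Products over the grid.
PROOF. With `l = [(g_0, f_0), (g_1 - g_0, f_1), …, (g_{K-1} - g_{K-2}, f_{K-1})]`:
`∫ ω in EvN D n, ∏_{j<K} f_j(nz g_j/√n) = IQ D (stepLaw μ ν σ) √n l (hit (n - g_{K-1})) 0`: peel off the grid
times from the left with `integral_split`/`q_markov_real` and `lintegral_alive`-type identities (induction
on the list, with a general starting point; for the peeling it may be convenient to transfer everything
to `seqLaw (stepLaw μ ν σ)` by `map_steps` first). `l` matches `gts δ K f`, whose total is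
`1 - δ - κ < 1`. Use `fdd` and `PQ_EvN`. -/
theorem grid_product (δ : ℝ) (hδ : 0 < δ) (hδ1 : δ ≤ 1 / 8) (K : ℕ) (hK : 1 ≤ K) (M : ℝ) (hM : 0 < M)
    (f : ℕ → ℝ → ℝ) (hf : ∀ j, BL M (f j)) (D : Set ℝ) (μ ν : Measure ℝ) (σ : ℝ) (hD : Dom D)
    (hQ : QStd μ ν σ) : ∀ ε > (0 : ℝ), ∃ n₀ : ℕ, ∀ n ≥ n₀, PQ μ ν (EvN D n) ≠ 0 →
      |EN D μ ν n (fun ω => ∏ j ∈ Finset.range K, f j (nz σ (gi n δ K j) ω / √n)) -
        val (gts δ K f) / val1 (gts δ K f)| ≤ ε := by
  intro ε hε
  have hρ := hQ.std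
  have := hρ.prob
  have := hQ.probμ
  have := hQ.probν
  obtain ⟨n₀, hn₀⟩ := fdd hD hρ (gts δ K f) (F11a_adm hδ hδ1 K hK hM f hf) (by simp [gts]) ε hε
  refine ⟨max n₀ 1, fun n hn hne => ?_⟩
  have hn1 : 1 ≤ n := (le_max_right _ _).trans hn
  have hpos : 0 < hit D (stepLaw μ ν σ) n 0 := by
    rw [← PQ_EvN hD hQ n]
    exact ENNReal.toReal_pos hne (measure_ne_top _ _)
  have h1 := hn₀ n ((le_max_left _ _).trans hn) hpos _ (F11a_match n hδ hδ1 K hK f)
  have hmono := F11a_gi_mono n hδ1 K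
  have hlt := F11a_gi_lt n hn1 hδ hδ1 K hK
  set l := (gi n δ K 0, f 0) :: F11a_L (gi n δ K) f 0 (K - 1) with hl
  have htot : tot l = gi n δ K (K - 1) := by
    have := F11a_tot_L (gi n δ K) hmono f (K - 1) 0
    rw [zero_add] at this
    rw [← this, hl]
    simp [tot]
  have hmem : ∀ p ∈ l, ∃ j, p.2 = f j := by
    intro p hp
    rcases List.mem_cons.1 hp with rfl | hp
    · exact ⟨0, rfl⟩
    · obtain ⟨j, _, rfl⟩ := List.mem_map.1 hp
      exact ⟨_, rfl⟩
  have hmeas : ∀ p ∈ l, Measurable p.2 := by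
    intro p hp
    obtain ⟨j, hj⟩ := hmem p hp
    rw [hj]
    exact F11a_BL_meas (hf j)
  have hbd : ∀ p ∈ l, ∃ C, ∀ x, |p.2 x| ≤ C := by
    intro p hp
    obtain ⟨j, hj⟩ := hmem p hp
    rw [hj]
    exact ⟨M, (hf j).bd⟩
  have h2 := (F11a_IQ hD (ρ := stepLaw μ ν σ) (√n) (n - tot l) (by omega) l hmeas hbd).2 0
  have h3 : tot l + (n - tot l) = n := by omega
  rw [h3] at h2
  have h4 : ∀ ω : ℕ → ℝ × ℝ, ∏ j ∈ Finset.range K, f j (nz σ (gi n δ K j) ω / √n) =
      F11a_P (√n) l (0, steps σ ω) := by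
    intro ω
    rw [hl, F11a_P, zero_add, F11a_P_L _ _ hmono, mul_comm]
    have hK' : K = (K - 1) + 1 := by omega
    rw [hK', Finset.prod_range_succ']
    simp only [nz_eq, zero_add, Nat.add_sub_cancel]
  have h5 : EN D μ ν n (fun ω => ∏ j ∈ Finset.range K, f j (nz σ (gi n δ K j) ω / √n)) =
      IQ D (stepLaw μ ν σ) (√n) l (hit D (stepLaw μ ν σ) (n - tot l)) 0 /
        hit D (stepLaw μ ν σ) n 0 := by
    unfold EN
    rw [PQ_EvN hD hQ n, ← h2]
    congr 1
    rw [← F11a_transfer hD hQ n hn1 (fun ω => F11a_P (√n) l (0, ω))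
      ((F11a_meas_P (√n) l hmeas).comp measurable_prodMk_left)]
    exact integral_congr_ae (Filter.Eventually.of_forall h4)
  rw [h5]
  exact h1

end Pool.Agent.BPT
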