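import Pool.Agent.MP_99a865_pr.FV.F11a

open MeasureTheory ProbabilityTheory Filter Topology
open scoped ENNReal NNReal

namespace Pool.Agent.BPT

variable {D : Set ℝ} {μ ν : Measure ℝ} {σ : ℝ}

/-- `X 0, …, X (K-1)` have the finite-dimensional distributions of the Brownian excursion at the grid
times `δ, δ + κ, …`. -/
def HasGridLaw {Ω : Type} [MeasurableSpace Ω] (P : Measure Ω) (X : ℕ → Ω → ℝ) (δ : ℝ) (K : ℕ) : Prop :=
  (∀ j, Measurable (X j)) ∧ ∀ M > (0 : ℝ), ∀ f : ℕ → ℝ → ℝ, (∀ j, BL M (f j)) →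
    ∫ ω, ∏ j ∈ Finset.range K, f j (X j ω) ∂P = val (gts δ K f) / val1 (gts δ K f)

theorem F11b_exp_lip (u v : ℝ) (hu : 0 ≤ u) (hv : 0 ≤ v) :
    |Real.exp (-u) - Real.exp (-v)| ≤ |u - v| := by
  wlog h : u ≤ v generalizing u v with H
  · rw [abs_sub_comm, abs_sub_comm u v]
    exact H v u hv hu (not_le.mp h).le
  have h1 : Real.exp (-v) ≤ Real.exp (-u) := Real.exp_le_exp.mpr (by linarith)
  rw [abs_of_nonneg (by linarith), abs_sub_comm, abs_of_nonneg (by linarith)]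
  have h2 : Real.exp (-v) = Real.exp (-u) * Real.exp (-(v - u)) := by
    rw [← Real.exp_add]; ring_nf
  have h3 := Real.add_one_le_exp (-(v - u))
  have h4 : Real.exp (-u) ≤ 1 := Real.exp_le_one_iff.mpr (by linarith)
  have h5 : 0 < Real.exp (-u) := Real.exp_pos _
  rw [h2]
  nlinarith

theorem F11b_BL_cont {M : ℝ} {f : ℝ → ℝ} (h : BL M f) : Continuous f := by
  have hM : 0 ≤ M := (abs_nonneg _).trans (h.bd 0)
  have : LipschitzWith (Real.toNNReal M) f := by
    apply LipschitzWith.of_dist_le_mul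
    intro x y
    rw [Real.dist_eq, Real.dist_eq, Real.coe_toNNReal _ hM]
    exact h.lip x y
  exact this.continuous

theorem F11b_BL_exp {M : ℝ} {f : ℝ → ℝ} (h : BL M f) (h0 : ∀ x, 0 ≤ f x) (p : ℕ) :
    BL (1 + p * M) (fun x => Real.exp (-((p : ℝ) * f x))) := by
  have hM : 0 ≤ M := (abs_nonneg _).trans (h.bd 0)
  constructor
  · intro x
    rw [abs_of_nonneg (Real.exp_pos _).le]
    have h1 : 0 ≤ (p : ℝ) * f x := mul_nonneg (Nat.cast_nonneg _) (h0 x)
    have h2 : Real.exp (-((p : ℝ) * f x)) ≤ 1 := Real.exp_le_one_iff.mpr (by linarith)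
    have h3 : 0 ≤ (p : ℝ) * M := by positivity
    linarith
  · intro x y
    refine (F11b_exp_lip _ _ (mul_nonneg (Nat.cast_nonneg _) (h0 x))
      (mul_nonneg (Nat.cast_nonneg _) (h0 y))).trans ?_
    rw [← mul_sub, abs_mul, abs_of_nonneg (Nat.cast_nonneg p : (0 : ℝ) ≤ p)]
    have h1 := h.lip x y
    have h2 : (p : ℝ) * |f x - f y| ≤ p * (M * |x - y|) :=
      mul_le_mul_of_nonneg_left h1 (Nat.cast_nonneg _)
    have h3 : 0 ≤ |x - y| := abs_nonneg _
    nlinarith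

/-- the constant `c_p` -/
noncomputable def F11b_c (δ : ℝ) (K : ℕ) (g : ℕ → ℝ → ℝ) (p : ℕ) : ℝ :=
  val (gts δ K fun j x => Real.exp (-((p : ℝ) * g j x))) /
    val1 (gts δ K fun j x => Real.exp (-((p : ℝ) * g j x)))

/-- the constant of a polynomial -/
noncomputable def F11b_C (δ : ℝ) (K : ℕ) (g : ℕ → ℝ → ℝ) (P : Polynomial ℝ) : ℝ :=
  ∑ i ∈ Finset.range (P.natDegree + 1), P.coeff i * F11b_c δ K g i

/-- the deterministic/probabilistic comparison -/
theorem F11b_poly {Ω : Type} [MeasurableSpace Ω] (Q : Measure Ω) [IsProbabilityMeasure Q]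
    (K : ℕ) (M : ℝ) (hM : 0 < M) (g : ℕ → ℝ → ℝ) (hg : ∀ j, BL M (g j)) (hg0 : ∀ j x, 0 ≤ g j x)
    (F : ℝ → ℝ) (hF : Continuous F) (X : ℕ → Ω → ℝ) (hX : ∀ j, Measurable (X j))
    (P : Polynomial ℝ) (e : ℝ)
    (hP : ∀ s ∈ Set.Icc (Real.exp (-(K * M))) 1, |P.eval s - F (-Real.log s)| ≤ e) :
    |∫ ω, F (∑ j ∈ Finset.range K, g j (X j ω)) ∂Q -
      ∑ i ∈ Finset.range (P.natDegree + 1), P.coeff i *
        ∫ ω, ∏ j ∈ Finset.range K, Real.exp (-((i : ℝ) * g j (X j ω))) ∂Q| ≤ e := by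
  have hgc : ∀ j, Continuous (g j) := fun j => F11b_BL_cont (hg j)
  set Y : Ω → ℝ := fun ω => ∑ j ∈ Finset.range K, g j (X j ω) with hY
  have hYm : Measurable Y := by
    apply Finset.measurable_sum
    intro j _
    exact (hgc j).measurable.comp (hX j)
  have hY0 : ∀ ω, 0 ≤ Y ω := fun ω => Finset.sum_nonneg fun j _ => hg0 j _
  have hYK : ∀ ω, Y ω ≤ K * M := by
    intro ω
    calc Y ω ≤ ∑ j ∈ Finset.range K, M :=
          Finset.sum_le_sum fun j _ => (le_abs_self _).trans ((hg j).bd _)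
      _ = K * M := by simp
  have hexp : ∀ (i : ℕ) (ω : Ω), ∏ j ∈ Finset.range K, Real.exp (-((i : ℝ) * g j (X j ω))) =
      (Real.exp (-Y ω)) ^ i := by
    intro i ω
    rw [← Real.exp_sum, ← Real.exp_nat_mul]
    congr 1
    rw [hY, Finset.sum_neg_distrib, ← Finset.mul_sum]
    ring
  have hpow : ∀ (i : ℕ) (ω : Ω), |(Real.exp (-Y ω)) ^ i| ≤ 1 := by
    intro i ω
    rw [abs_of_nonneg (by positivity)]
    exact pow_le_one₀ (Real.exp_pos _).le (Real.exp_le_one_iff.mpr (by linarith [hY0 ω]))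
  have hint : ∀ i : ℕ, Integrable (fun ω => (Real.exp (-Y ω)) ^ i) Q := by
    intro i
    refine Integrable.of_bound (C := 1) ?_ ?_
    · exact ((Real.measurable_exp.comp hYm.neg).pow_const i).aestronglyMeasurable
    · exact Eventually.of_forall fun ω => by rw [Real.norm_eq_abs]; exact hpow i ω
  have hFint : Integrable (fun ω => F (Y ω)) Q := by
    obtain ⟨B, hB⟩ := (isCompact_Icc (a := (0 : ℝ)) (b := K * M)).exists_bound_of_continuousOn
      hF.continuousOn
    refine Integrable.of_bound (C := B) (hF.measurable.comp hYm).aestronglyMeasurable ?_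
    exact Eventually.of_forall fun ω => hB _ ⟨hY0 ω, hYK ω⟩
  have hsum : ∑ i ∈ Finset.range (P.natDegree + 1), P.coeff i *
        ∫ ω, ∏ j ∈ Finset.range K, Real.exp (-((i : ℝ) * g j (X j ω))) ∂Q =
      ∫ ω, P.eval (Real.exp (-Y ω)) ∂Q := by
    have h1 : ∀ ω, P.eval (Real.exp (-Y ω)) =
        ∑ i ∈ Finset.range (P.natDegree + 1), P.coeff i * (Real.exp (-Y ω)) ^ i := fun ω =>
      Polynomial.eval_eq_sum_range _
    simp_rw [h1, hexp]
    rw [integral_finsetSum _ fun i _ => (hint i).const_mul _]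
    exact Finset.sum_congr rfl fun i _ => (integral_const_mul _ _).symm
  rw [hsum, ← integral_sub hFint]
  · have hb : ∀ ω, ‖F (∑ j ∈ Finset.range K, g j (X j ω)) - P.eval (Real.exp (-Y ω))‖ ≤ e := by
      intro ω
      rw [Real.norm_eq_abs, abs_sub_comm]
      have h1 : Real.exp (-Y ω) ∈ Set.Icc (Real.exp (-(K * M))) 1 :=
        ⟨Real.exp_le_exp.mpr (by linarith [hYK ω]),
          Real.exp_le_one_iff.mpr (by linarith [hY0 ω])⟩
      have h2 := hP _ h1
      rwa [Real.log_exp, neg_neg] at h2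
    have h3 := norm_integral_le_of_norm_le_const (μ := Q) (Eventually.of_forall hb)
    simpa using h3
  · have h1 : (fun ω => P.eval (Real.exp (-Y ω))) = fun ω =>
        ∑ i ∈ Finset.range (P.natDegree + 1), P.coeff i * (Real.exp (-Y ω)) ^ i := by
      funext ω
      exact Polynomial.eval_eq_sum_range _
    rw [h1]
    exact integrable_finsetSum _ fun i _ => (hint i).const_mul _

theorem F11b_EN (n : ℕ) (F : (ℕ → ℝ × ℝ) → ℝ) :
    EN D μ ν n F = ∫ ω, F ω ∂(ProbabilityTheory.cond (PQ μ ν) (EvN D n)) := by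
  rw [EN, ProbabilityTheory.cond, integral_smul_measure, div_eq_inv_mul, ENNReal.toReal_inv]
  rfl

theorem F11b_vec (δ : ℝ) (K : ℕ) (M : ℝ) (hM : 0 < M)
    (g : ℕ → ℝ → ℝ) (hg : ∀ j, BL M (g j)) (hg0 : ∀ j x, 0 ≤ g j x) (F : ℝ → ℝ) (hF : Continuous F)
    (P : Polynomial ℝ) (e : ℝ)
    (hP : ∀ s ∈ Set.Icc (Real.exp (-(K * M))) 1, |P.eval s - F (-Real.log s)| ≤ e)
    (Ω : Type) (mΩ : MeasurableSpace Ω) (Q : Measure Ω) (X : ℕ → Ω → ℝ)
    (hQ : IsProbabilityMeasure Q) (hX : HasGridLaw Q X δ K) :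
    |∫ ω, F (∑ j ∈ Finset.range K, g j (X j ω)) ∂Q - F11b_C δ K g P| ≤ e := by
  have h1 := F11b_poly Q K M hM g hg hg0 F hF X hX.1 P e hP
  have h2 : ∀ i : ℕ, ∫ ω, ∏ j ∈ Finset.range K, Real.exp (-((i : ℝ) * g j (X j ω))) ∂Q =
      F11b_c δ K g i := by
    intro i
    have := hX.2 (1 + i * M) (by positivity) (fun j x => Real.exp (-((i : ℝ) * g j x)))
      (fun j => F11b_BL_exp (hg j) (hg0 j) i)
    exact this
  simp_rw [h2] at h1
  exact h1

theorem F11b_model (δ : ℝ) (hδ : 0 < δ) (hδ1 : δ ≤ 1 / 8) (K : ℕ) (hK : 1 ≤ K) (M : ℝ) (hM : 0 < M)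
    (g : ℕ → ℝ → ℝ) (hg : ∀ j, BL M (g j)) (hg0 : ∀ j x, 0 ≤ g j x) (F : ℝ → ℝ) (hF : Continuous F)
    (P : Polynomial ℝ) (e : ℝ) (he : 0 < e)
    (hP : ∀ s ∈ Set.Icc (Real.exp (-(K * M))) 1, |P.eval s - F (-Real.log s)| ≤ e)
    (D : Set ℝ) (μ ν : Measure ℝ) (σ : ℝ) (hD : Dom D) (hQ : QStd μ ν σ) :
    ∀ᶠ n in atTop ⊓ 𝓟 {n | PQ μ ν (EvN D n) ≠ 0},
      |EN D μ ν n (fun ω => F (∑ j ∈ Finset.range K, g j (nz σ (gi n δ K j) ω / √n))) -
        F11b_C δ K g P| ≤ 2 * e := by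
  have := hQ.probμ
  have := hQ.probν
  have hT : ∀ i : ℕ, Tendsto (fun n => EN D μ ν n
      (fun ω => ∏ j ∈ Finset.range K, Real.exp (-((i : ℝ) * g j (nz σ (gi n δ K j) ω / √n)))))
      (atTop ⊓ 𝓟 {n | PQ μ ν (EvN D n) ≠ 0}) (𝓝 (F11b_c δ K g i)) := by
    intro i
    rw [Metric.tendsto_nhds]
    intro η hη
    obtain ⟨n₀, h⟩ := grid_product δ hδ hδ1 K hK (1 + i * M) (by positivity)
      (fun j x => Real.exp (-((i : ℝ) * g j x))) (fun j => F11b_BL_exp (hg j) (hg0 j) i)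
      D μ ν σ hD hQ (η / 2) (by positivity)
    rw [eventually_inf_principal]
    filter_upwards [eventually_ge_atTop n₀] with n hn hne
    rw [Real.dist_eq]
    exact (h n hn hne).trans_lt (by linarith)
  have hS : Tendsto (fun n => ∑ i ∈ Finset.range (P.natDegree + 1), P.coeff i * EN D μ ν n
      (fun ω => ∏ j ∈ Finset.range K, Real.exp (-((i : ℝ) * g j (nz σ (gi n δ K j) ω / √n)))))
      (atTop ⊓ 𝓟 {n | PQ μ ν (EvN D n) ≠ 0}) (𝓝 (F11b_C δ K g P)) :=
    tendsto_finsetSum _ fun i _ => (hT i).const_mul _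
  have h3 := (Metric.tendsto_nhds.mp hS) e he
  have h4 : ∀ᶠ n in atTop ⊓ 𝓟 {n | PQ μ ν (EvN D n) ≠ 0}, PQ μ ν (EvN D n) ≠ 0 := by
    rw [eventually_inf_principal]
    exact Eventually.of_forall fun n hn => hn
  filter_upwards [h3, h4] with n hn hne
  rw [Real.dist_eq] at hn
  have hprob : IsProbabilityMeasure (ProbabilityTheory.cond (PQ μ ν) (EvN D n)) :=
    ProbabilityTheory.cond_isProbabilityMeasure hne
  have h5 := F11b_poly (ProbabilityTheory.cond (PQ μ ν) (EvN D n)) K M hM g hg hg0 F hF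
    (fun j ω => nz σ (gi n δ K j) ω / √n) (fun j => (measurable_nz _).div_const _) P e hP
  simp_rw [← F11b_EN] at h5
  have h6 := abs_sub_le (EN D μ ν n (fun ω => F (∑ j ∈ Finset.range K,
    g j (nz σ (gi n δ K j) ω / √n)))) (∑ i ∈ Finset.range (P.natDegree + 1), P.coeff i * EN D μ ν n
      (fun ω => ∏ j ∈ Finset.range K, Real.exp (-((i : ℝ) * g j (nz σ (gi n δ K j) ω / √n)))))
      (F11b_C δ K g P)
  linarith

/-- **[FV-F11b]** Sums over the grid of nonnegative bounded Lipschitz functions: convergence of the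
conditional laws to a universal law, which is also the one of any grid vector of a Brownian excursion.
PROOF. `X = ∑_j g_j(nz g_j/√n) ∈ [0, KM]`. For every integer `p ≥ 0`,
`exp(-pX) = ∏_j exp(-p g_j(·))` is a product of functions which are bounded by 1 and `pM`-Lipschitz
(`g_j ≥ 0`), so its conditional expectations converge to the constant
`c_p = val (gts δ K (exp ∘ (-p g))) / val1 …` (`grid_product`), and for a vector with `HasGridLaw` the
expectation is equal to `c_p`. The function `s ↦ F(-log s)` is continuous on the compact interval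
`[exp(-KM), 1]`, and can be approximated uniformly within `ε` by a polynomial `∑ a_p s^p` (Weierstrass:
`exists_polynomial_near_continuousOn`). So with `c(ε) = ∑ a_p c_p`, the conditional expectations of
`F(X)` are within `2ε` of `c(ε)` for `n` large, for all models, and within `ε` for vectors with
`HasGridLaw`. It remains to see that `c(ε)` converges as `ε → 0` (along `ε = 1/m`, say): compare two of
them through one fixed model for which `PQ (EvN D n) ≠ 0` for infinitely many `n`, or through one vector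
with `HasGridLaw`; if there is neither, there is nothing to prove (`by_cases`; if in a model
`PQ (EvN D n) ≠ 0` only for finitely many `n`, the statement for it is empty for large `n`). -/
theorem grid_sum (δ : ℝ) (hδ : 0 < δ) (hδ1 : δ ≤ 1 / 8) (K : ℕ) (hK : 1 ≤ K) (M : ℝ) (hM : 0 < M)
    (g : ℕ → ℝ → ℝ) (hg : ∀ j, BL M (g j)) (hg0 : ∀ j x, 0 ≤ g j x) (F : ℝ → ℝ) (hF : Continuous F) :
    ∃ c : ℝ, (∀ (D : Set ℝ) (μ ν : Measure ℝ) (σ : ℝ), Dom D →
    QStd μ ν σ → ∀ ε > (0 : ℝ), ∃ n₀ : ℕ, ∀ n ≥ n₀, PQ μ ν (EvN D n) ≠ 0 →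
      |EN D μ ν n (fun ω => F (∑ j ∈ Finset.range K, g j (nz σ (gi n δ K j) ω / √n))) - c| ≤ ε) ∧
    ∀ (Ω : Type) (mΩ : MeasurableSpace Ω) (P : Measure Ω) (X : ℕ → Ω → ℝ), IsProbabilityMeasure P →
      HasGridLaw P X δ K → ∫ ω, F (∑ j ∈ Finset.range K, g j (X j ω)) ∂P = c := by
  -- Weierstrass
  have hcont : ContinuousOn (fun s => F (-Real.log s)) (Set.Icc (Real.exp (-(K * M))) 1) := by
    apply hF.comp_continuousOn
    apply ContinuousOn.neg
    exact Real.continuousOn_log.mono fun s hs => by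
      have : 0 < s := (Real.exp_pos _).trans_le hs.1
      exact this.ne'
  have hW : ∀ m : ℕ, ∃ P : Polynomial ℝ, ∀ s ∈ Set.Icc (Real.exp (-(K * M))) 1,
      |P.eval s - F (-Real.log s)| ≤ 1 / ((m : ℝ) + 1) := by
    intro m
    obtain ⟨P, hP⟩ := exists_polynomial_near_of_continuousOn _ _ _ hcont (1 / ((m : ℝ) + 1))
      Nat.one_div_pos_of_nat
    exact ⟨P, fun s hs => (hP s hs).le⟩
  choose P hP using hW
  have hvec := fun (m : ℕ) => F11b_vec δ K M hM g hg hg0 F hF (P m) _ (hP m)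
  have hmod := fun (m : ℕ) => F11b_model δ hδ hδ1 K hK M hM g hg hg0 F hF (P m) _
    Nat.one_div_pos_of_nat (hP m)
  have hsmall : Tendsto (fun m : ℕ => 1 / ((m : ℝ) + 1)) atTop (𝓝 0) :=
    tendsto_one_div_add_atTop_nhds_zero_nat
  -- the sequence of constants converges, or there is nothing to prove
  have key : (∃ c, Tendsto (fun m => F11b_C δ K g (P m)) atTop (𝓝 c)) ∨
      ((∀ (D : Set ℝ) (μ ν : Measure ℝ) (σ : ℝ), Dom D → QStd μ ν σ →
        atTop ⊓ 𝓟 {n | PQ μ ν (EvN D n) ≠ 0} = ⊥) ∧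
      ∀ (Ω : Type) (mΩ : MeasurableSpace Ω) (P : Measure Ω) (X : ℕ → Ω → ℝ),
        IsProbabilityMeasure P → ¬ HasGridLaw P X δ K) := by
    by_cases h1 : ∀ (D : Set ℝ) (μ ν : Measure ℝ) (σ : ℝ), Dom D → QStd μ ν σ →
        atTop ⊓ 𝓟 {n | PQ μ ν (EvN D n) ≠ 0} = ⊥
    · by_cases h2 : ∀ (Ω : Type) (mΩ : MeasurableSpace Ω) (P : Measure Ω) (X : ℕ → Ω → ℝ),
        IsProbabilityMeasure P → ¬ HasGridLaw P X δ K
      · exact Or.inr ⟨h1, h2⟩
      · left
        push Not at h2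
        obtain ⟨Ω, mΩ, Q, X, hQ, hX⟩ := h2
        refine ⟨∫ ω, F (∑ j ∈ Finset.range K, g j (X j ω)) ∂Q, ?_⟩
        rw [tendsto_iff_dist_tendsto_zero]
        refine squeeze_zero (fun _ => dist_nonneg) (fun m => ?_) hsmall
        rw [dist_comm, Real.dist_eq]
        exact hvec m Ω mΩ Q X hQ hX
    · left
      push Not at h1
      obtain ⟨D, μ, ν, σ, hD, hQ, hne⟩ := h1
      have hC : CauchySeq (fun m => F11b_C δ K g (P m)) := by
        rw [Metric.cauchySeq_iff']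
        intro ε hε
        obtain ⟨m₀, hm₀⟩ := (hsmall.eventually (gt_mem_nhds (show (0 : ℝ) < ε / 4 by positivity))).exists_forall_of_atTop
        refine ⟨m₀, fun m hm => ?_⟩
        obtain ⟨n, hn1, hn2⟩ := ((hmod m D μ ν σ hD hQ).and (hmod m₀ D μ ν σ hD hQ)).exists
        have h3 := hm₀ m hm
        have h4 := hm₀ m₀ le_rfl
        rw [Real.dist_eq]
        rw [abs_sub_comm] at hn1
        have h5 := abs_sub_le (F11b_C δ K g (P m)) (EN D μ ν n (fun ω =>
          F (∑ j ∈ Finset.range K, g j (nz σ (gi n δ K j) ω / √n)))) (F11b_C δ K g (P m₀))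
        linarith
      exact cauchySeq_tendsto_of_complete hC
  rcases key with ⟨c, hc⟩ | ⟨h1, h2⟩
  · refine ⟨c, ?_, ?_⟩
    · intro D μ ν σ hD hQ ε hε
      have h1 := hsmall.eventually (gt_mem_nhds (show (0 : ℝ) < ε / 4 by positivity))
      have h2 := (Metric.tendsto_nhds.mp hc) (ε / 2) (by positivity)
      obtain ⟨m, hm1, hm2⟩ := (h1.and h2).exists
      have h3 := hmod m D μ ν σ hD hQ
      rw [eventually_inf_principal, eventually_atTop] at h3
      obtain ⟨n₀, h3⟩ := h3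
      refine ⟨n₀, fun n hn hne => ?_⟩
      have h4 := h3 n hn hne
      rw [Real.dist_eq] at hm2
      have h5 := abs_sub_le (EN D μ ν n (fun ω =>
          F (∑ j ∈ Finset.range K, g j (nz σ (gi n δ K j) ω / √n)))) (F11b_C δ K g (P m)) c
      linarith
    · intro Ω mΩ Q X hQ hX
      have h1 : Tendsto (fun m => F11b_C δ K g (P m)) atTop
          (𝓝 (∫ ω, F (∑ j ∈ Finset.range K, g j (X j ω)) ∂Q)) := by
        rw [tendsto_iff_dist_tendsto_zero]
        refine squeeze_zero (fun _ => dist_nonneg) (fun m => ?_) hsmall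
        rw [dist_comm, Real.dist_eq]
        exact hvec m Ω mΩ Q X hQ hX
      exact tendsto_nhds_unique h1 hc
  · refine ⟨0, ?_, ?_⟩
    · intro D μ ν σ hD hQ ε hε
      have h3 : ∀ᶠ n in atTop ⊓ 𝓟 {n | PQ μ ν (EvN D n) ≠ 0}, False := by
        rw [h1 D μ ν σ hD hQ]
        exact eventually_bot
      rw [eventually_inf_principal, eventually_atTop] at h3
      obtain ⟨n₀, h3⟩ := h3
      exact ⟨n₀, fun n hn hne => (h3 n hn hne).elim⟩
    · intro Ω mΩ Q X hQ hX
      exact (h2 Ω mΩ Q X hQ hX).elim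

end Pool.Agent.BPT
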