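import Pool.Agent.MP_99a865_pr.FV.F11b
import Pool.Agent.MP_99a865_pr.FV.F10a

open MeasureTheory ProbabilityTheory Filter Topology
open scoped ENNReal NNReal

namespace Pool.Agent.BPT

variable {D : Set ℝ} {μ ν : Measure ℝ} {σ : ℝ}

theorem F11c_BL {η a : ℝ} (hη : 0 < η) (ha : 0 ≤ a) (ha1 : a ≤ 1) :
    BL (1 / (2 * η) + 1 / (4 * η ^ 2)) (fun x => a / max x (2 * η)) ∧
      ∀ x : ℝ, 0 ≤ a / max x (2 * η) := by
  have hm : ∀ x : ℝ, 2 * η ≤ max x (2 * η) := fun x => le_max_right _ _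
  have hpos : ∀ x : ℝ, 0 < max x (2 * η) := fun x => lt_of_lt_of_le (by linarith) (hm x)
  have hnn : ∀ x : ℝ, 0 ≤ a / max x (2 * η) := fun x => div_nonneg ha (hpos x).le
  have h4 : 0 ≤ 1 / (4 * η ^ 2) := by positivity
  have h2 : 0 ≤ 1 / (2 * η) := by positivity
  refine ⟨⟨fun x => ?_, fun x y => ?_⟩, hnn⟩
  · rw [abs_of_nonneg (hnn x)]
    have h1 : a / max x (2 * η) ≤ 1 / (2 * η) :=
      div_le_div₀ zero_le_one ha1 (by linarith) (hm x)
    linarith
  · have h1 : |max y (2 * η) - max x (2 * η)| ≤ |x - y| := by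
      rw [abs_sub_comm x y]
      have := abs_max_sub_max_le_abs y x (2 * η)
      exact this
    have h3 : a / max x (2 * η) - a / max y (2 * η) =
        a * (max y (2 * η) - max x (2 * η)) / (max x (2 * η) * max y (2 * η)) := by
      field_simp [(hpos x).ne', (hpos y).ne']
    rw [h3, abs_div, abs_mul, abs_of_nonneg ha, abs_of_pos (mul_pos (hpos x) (hpos y))]
    have h5 : 4 * η ^ 2 ≤ max x (2 * η) * max y (2 * η) := by
      have := mul_le_mul (hm x) (hm y) (by linarith) (hpos x).le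
      nlinarith
    have h6 : a * |max y (2 * η) - max x (2 * η)| ≤ |x - y| := by
      have := abs_nonneg (max y (2 * η) - max x (2 * η))
      nlinarith
    have h7 : a * |max y (2 * η) - max x (2 * η)| / (max x (2 * η) * max y (2 * η)) ≤
        |x - y| / (4 * η ^ 2) :=
      div_le_div₀ (abs_nonneg _) h6 (by positivity) h5
    have h8 : (1 / (2 * η) + 1 / (4 * η ^ 2)) * |x - y| = |x - y| / (4 * η ^ 2) +
        1 / (2 * η) * |x - y| := by ring
    rw [h8]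
    have := mul_nonneg h2 (abs_nonneg (x - y))
    linarith

theorem F11c_cont {M : ℝ} {F : ℝ → ℝ} (hF : BL M F) (hM : 0 ≤ M) : Continuous F := by
  have h : LipschitzWith (Real.toNNReal M) F := by
    refine LipschitzWith.of_dist_le_mul fun x y => ?_
    rw [Real.dist_eq, Real.dist_eq, Real.coe_toNNReal _ hM]
    exact hF.lip x y
  exact h.continuous

theorem F11c_one (hD : Dom D) (hQ : QStd μ ν σ) {F : ℝ → ℝ} (hF : BL 1 F) : ∀ ε > (0 : ℝ),
    ∃ τ > (0 : ℝ), ∃ n₁ : ℕ, ∀ n ≥ n₁, PQ μ ν (EvN D n) ≠ 0 → ∀ X Y : (ℕ → ℝ × ℝ) → ℝ,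
      Measurable X → Measurable Y →
      ∫⁻ ω in EvN D n, ENNReal.ofReal (min 1 |X ω - Y ω|) ∂(PQ μ ν) ≤
        ENNReal.ofReal (τ / (n * √n)) →
      |EN D μ ν n (fun ω => F (X ω)) - EN D μ ν n (fun ω => F (Y ω))| ≤ ε := by
  intro ε hε
  obtain ⟨c, hc, n₀, hn₀⟩ := le_hit hD hQ.std
  refine ⟨ε * c / 2, by positivity, max n₀ 1, fun n hn hne X Y hX hY hint => ?_⟩
  have := hQ.probμ
  have := hQ.probν
  have hn1 : 1 ≤ n := le_trans (le_max_right _ _) hn
  have hnpos : (0 : ℝ) < n := by exact_mod_cast hn1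
  have hq : (0 : ℝ) < n * √n := mul_pos hnpos (Real.sqrt_pos.2 hnpos)
  set p : ℝ := (PQ μ ν).real (EvN D n) with hp
  have hppos : 0 < p := by
    rw [hp, Measure.real]
    exact ENNReal.toReal_pos hne (measure_ne_top _ _)
  have hpc : c / (n * √n) ≤ p := by
    rw [hp, PQ_EvN hD hQ]
    refine hn₀ n (le_trans (le_max_left _ _) hn) ?_
    rw [← PQ_EvN hD hQ]
    exact hppos
  have hFc : Continuous F := F11c_cont hF zero_le_one
  have hFX : Integrable (fun ω => F (X ω)) ((PQ μ ν).restrict (EvN D n)) := by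
    refine Integrable.of_bound (hFc.measurable.comp hX).aestronglyMeasurable 1 ?_
    exact Filter.Eventually.of_forall fun ω => hF.bd _
  have hFY : Integrable (fun ω => F (Y ω)) ((PQ μ ν).restrict (EvN D n)) := by
    refine Integrable.of_bound (hFc.measurable.comp hY).aestronglyMeasurable 1 ?_
    exact Filter.Eventually.of_forall fun ω => hF.bd _
  have hmm : Measurable fun ω => min 1 |X ω - Y ω| :=
    measurable_const.min (hX.sub hY).abs
  have hmin : Integrable (fun ω => min 1 |X ω - Y ω|) ((PQ μ ν).restrict (EvN D n)) := by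
    refine Integrable.of_bound hmm.aestronglyMeasurable 1 ?_
    refine Filter.Eventually.of_forall fun ω => ?_
    rw [Real.norm_eq_abs, abs_of_nonneg (le_min zero_le_one (abs_nonneg _))]
    exact min_le_left _ _
  have hpt : ∀ x y : ℝ, |F x - F y| ≤ 2 * min 1 |x - y| := by
    intro x y
    rcases le_total 1 |x - y| with h | h
    · rw [min_eq_left h]
      have h1 := hF.bd x
      have h2 := hF.bd y
      have h3 := abs_sub (F x) (F y)
      linarith
    · rw [min_eq_right h]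
      have h1 := hF.lip x y
      have h2 := abs_nonneg (x - y)
      linarith
  have hI : ∫ ω in EvN D n, min 1 |X ω - Y ω| ∂(PQ μ ν) ≤ ε * c / 2 / (n * √n) := by
    rw [integral_eq_lintegral_of_nonneg_ae (Filter.Eventually.of_forall fun ω =>
      le_min zero_le_one (abs_nonneg _)) hmm.aestronglyMeasurable]
    exact ENNReal.toReal_le_of_le_ofReal (by positivity) hint
  have hdiff : |∫ ω in EvN D n, F (X ω) ∂(PQ μ ν) - ∫ ω in EvN D n, F (Y ω) ∂(PQ μ ν)| ≤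
      ε * c / (n * √n) := by
    rw [← integral_sub hFX hFY]
    calc |∫ ω in EvN D n, (F (X ω) - F (Y ω)) ∂(PQ μ ν)|
        ≤ ∫ ω in EvN D n, |F (X ω) - F (Y ω)| ∂(PQ μ ν) := abs_integral_le_integral_abs
      _ ≤ ∫ ω in EvN D n, 2 * min 1 |X ω - Y ω| ∂(PQ μ ν) :=
          integral_mono (hFX.sub hFY).abs (hmin.const_mul 2) fun ω => hpt _ _
      _ = 2 * ∫ ω in EvN D n, min 1 |X ω - Y ω| ∂(PQ μ ν) := integral_const_mul _ _
      _ ≤ 2 * (ε * c / 2 / (n * √n)) := by linarith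
      _ = ε * c / (n * √n) := by ring
  unfold EN
  rw [← hp, ← sub_div, abs_div, abs_of_pos hppos, div_le_iff₀ hppos]
  calc _ ≤ ε * c / (n * √n) := hdiff
    _ = ε * (c / (n * √n)) := by ring
    _ ≤ ε * p := mul_le_mul_of_nonneg_left hpc hε.le

theorem F11c_two (δ : ℝ) (hδ : 0 < δ) (hδ1 : δ ≤ 1 / 8) (η : ℝ) (hη : 0 < η) (K : ℕ) (hK : 1 ≤ K)
    (cc : ℕ → ℝ) (hcc : ∀ j < K, 0 ≤ cc j ∧ cc j ≤ 1) (F : ℝ → ℝ) (hF : BL 1 F) :
    ∃ c : ℝ, ∀ (D : Set ℝ) (μ ν : Measure ℝ) (σ : ℝ), Dom D →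
    QStd μ ν σ → ∀ ε > (0 : ℝ), ∃ n₀ : ℕ, ∀ n ≥ n₀, PQ μ ν (EvN D n) ≠ 0 →
      |EN D μ ν n (fun ω => F (YG σ δ η K n cc ω)) - c| ≤ ε := by
  classical
  have hK0 : (0 : ℝ) < K := by exact_mod_cast hK
  have hK1 : (1 : ℝ) ≤ K := by exact_mod_cast hK
  set g : ℕ → ℝ → ℝ := fun j x => if j < K then (1 - 2 * δ) / K * cc j / max x (2 * η) else 0
    with hg
  have hM : (0 : ℝ) < 1 / (2 * η) + 1 / (4 * η ^ 2) := by positivity
  have hκ0 : 0 ≤ (1 - 2 * δ) / K := div_nonneg (by linarith) hK0.le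
  have hκ1 : (1 - 2 * δ) / K ≤ 1 := by
    rw [div_le_one hK0]
    linarith
  have hgg : ∀ j, BL (1 / (2 * η) + 1 / (4 * η ^ 2)) (g j) ∧ ∀ x, 0 ≤ g j x := by
    intro j
    by_cases hj : j < K
    · have h1 : g j = fun x => (1 - 2 * δ) / K * cc j / max x (2 * η) := by
        funext x
        simp [hg, hj]
      rw [h1]
      exact F11c_BL hη (mul_nonneg hκ0 (hcc j hj).1)
        (mul_le_one₀ hκ1 (hcc j hj).1 (hcc j hj).2)
    · have h1 : g j = fun _ => 0 := by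
        funext x
        simp [hg, hj]
      rw [h1]
      refine ⟨⟨fun x => ?_, fun x y => ?_⟩, fun x => le_rfl⟩
      · simpa using hM.le
      · simpa using mul_nonneg hM.le (abs_nonneg (x - y))
  obtain ⟨c, hc, -⟩ := grid_sum δ hδ hδ1 K hK _ hM g (fun j => (hgg j).1) (fun j => (hgg j).2) F
    (F11c_cont hF zero_le_one)
  refine ⟨c, fun D μ ν σ hD hQ ε hε => ?_⟩
  obtain ⟨n₀, hn₀⟩ := hc D μ ν σ hD hQ ε hε
  refine ⟨n₀, fun n hn hne => ?_⟩
  have h1 := hn₀ n hn hne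
  have h2 : (fun ω => F (YG σ δ η K n cc ω)) =
      fun ω => F (∑ j ∈ Finset.range K, g j (nz σ (gi n δ K j) ω / √n)) := by
    funext ω
    congr 1
    unfold YG
    refine Finset.sum_congr rfl fun j hj => ?_
    simp [hg, Finset.mem_range.1 hj]
  rw [h2]
  exact h1

theorem F11c_cT {δ : ℝ} (hδ : 0 < δ) (hδ1 : δ ≤ 1 / 8) {K : ℕ} (hK : 1 ≤ K) (j : ℕ) (hj : j < K) :
    0 ≤ cT δ K j ∧ cT δ K j ≤ 1 := by
  have hK0 : (0 : ℝ) < K := by exact_mod_cast hK
  have hj' : (j : ℝ) ≤ K := by exact_mod_cast hj.le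
  have hj0 : (0 : ℝ) ≤ j := Nat.cast_nonneg j
  have h1 : (j : ℝ) * ((1 - 2 * δ) / K) ≤ 1 - 2 * δ := by
    rw [mul_div_assoc', div_le_iff₀ hK0]
    nlinarith
  have h2 : 0 ≤ (j : ℝ) * ((1 - 2 * δ) / K) :=
    mul_nonneg hj0 (div_nonneg (by linarith) hK0.le)
  unfold cT
  constructor <;> linarith

/-- **[FV-F11c]** Universality of the height and of the total height: the limit law (if any) is the same
for all models. PROOF. `F` is `BL 1`. `|F(x) - F(y)| ≤ 2 min(1, |x-y|)`, so by `HT_approx` for both models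
with common `δ, η, K` (all thresholds are of the form `small enough / large enough`), `le_hit` and
`PQ_EvN` (`PQ (EvN D n) ≥ c/(n√n)`), the conditional expectations of `F(σHB/√n)` and of `F(YG)` differ by at
most `2τ/c`; and those of `F(YG)` for both models are close to the same constant by `grid_sum` with
`g_j(x) = κ c_j/max(x, 2η)` (`BL` with `M = 1 + 1/η²`). -/
theorem HT_universal (D : Set ℝ) (μ ν : Measure ℝ) (σ : ℝ) (hD : Dom D) (hQ : QStd μ ν σ)
    (D' : Set ℝ) (μ' ν' : Measure ℝ) (σ' : ℝ) (hD' : Dom D') (hQ' : QStd μ' ν' σ')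
    (F : ℝ → ℝ) (hF : BL 1 F) : ∀ ε > (0 : ℝ), ∃ n₀ : ℕ, ∀ n ≥ n₀, PQ μ ν (EvN D n) ≠ 0 →
    PQ μ' ν' (EvN D' n) ≠ 0 →
    |EN D μ ν n (fun ω => F (σ * HB D n ω / √n)) - EN D' μ' ν' n (fun ω => F (σ' * HB D' n ω / √n))| ≤ ε ∧
    |EN D μ ν n (fun ω => F (σ * TB D n ω / (n * √n))) -
      EN D' μ' ν' n (fun ω => F (σ' * TB D' n ω / (n * √n)))| ≤ ε := by
  intro ε hε
  have hε4 : 0 < ε / 4 := by positivity
  obtain ⟨τ, hτ, n₁, hn₁⟩ := F11c_one hD hQ hF (ε / 4) hε4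
  obtain ⟨τ', hτ', n₁', hn₁'⟩ := F11c_one hD' hQ' hF (ε / 4) hε4
  obtain ⟨δ₀, hδ₀, hA⟩ := HT_approx hD hQ τ hτ
  obtain ⟨δ₀', hδ₀', hA'⟩ := HT_approx hD' hQ' τ' hτ'
  set δ := min (min δ₀ δ₀') (1 / 8) with hδdef
  have hδ : 0 < δ := lt_min (lt_min hδ₀ hδ₀') (by norm_num)
  have hδ1 : δ ≤ 1 / 8 := min_le_right _ _
  obtain ⟨η₀, hη₀, hB⟩ := hA δ hδ ((min_le_left _ _).trans (min_le_left _ _))
  obtain ⟨η₀', hη₀', hB'⟩ := hA' δ hδ ((min_le_left _ _).trans (min_le_right _ _))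
  set η := min η₀ η₀' with hηdef
  have hη : 0 < η := lt_min hη₀ hη₀'
  obtain ⟨K₀, hC⟩ := hB η hη (min_le_left _ _)
  obtain ⟨K₀', hC'⟩ := hB' η hη (min_le_right _ _)
  set K := max (max K₀ K₀') 1 with hKdef
  have hK : 1 ≤ K := le_max_right _ _
  obtain ⟨n₂, hn₂⟩ := hC K ((le_max_left _ _).trans (le_max_left _ _))
  obtain ⟨n₂', hn₂'⟩ := hC' K ((le_max_right _ _).trans (le_max_left _ _))
  obtain ⟨c1, hc1⟩ := F11c_two δ hδ hδ1 η hη K hK (fun _ => 1)
    (fun j _ => ⟨zero_le_one, le_rfl⟩) F hF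
  obtain ⟨c2, hc2⟩ := F11c_two δ hδ hδ1 η hη K hK (cT δ K) (F11c_cT hδ hδ1 hK) F hF
  obtain ⟨m1, hm1⟩ := hc1 D μ ν σ hD hQ (ε / 4) hε4
  obtain ⟨m1', hm1'⟩ := hc1 D' μ' ν' σ' hD' hQ' (ε / 4) hε4
  obtain ⟨m2, hm2⟩ := hc2 D μ ν σ hD hQ (ε / 4) hε4
  obtain ⟨m2', hm2'⟩ := hc2 D' μ' ν' σ' hD' hQ' (ε / 4) hε4
  refine ⟨n₁ + n₁' + n₂ + n₂' + m1 + m1' + m2 + m2', fun n hn hne hne' => ?_⟩
  have mH : Measurable fun ω => σ * HB D n ω / √n :=
    (measurable_const.mul (measurable_from_nat.comp (measurable_HB hD n).1)).div_const _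
  have mH' : Measurable fun ω => σ' * HB D' n ω / √n :=
    (measurable_const.mul (measurable_from_nat.comp (measurable_HB hD' n).1)).div_const _
  have mT : Measurable fun ω => σ * TB D n ω / (n * √n) :=
    (measurable_const.mul (measurable_from_nat.comp (measurable_HB hD n).2)).div_const _
  have mT' : Measurable fun ω => σ' * TB D' n ω / (n * √n) :=
    (measurable_const.mul (measurable_from_nat.comp (measurable_HB hD' n).2)).div_const _
  have a1 := hn₁ n (by omega) hne _ _ mH (measurable_YG δ η K n fun _ => 1) (hn₂ n (by omega)).1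
  have a1' := hn₁' n (by omega) hne' _ _ mH' (measurable_YG δ η K n fun _ => 1)
    (hn₂' n (by omega)).1
  have a2 := hn₁ n (by omega) hne _ _ mT (measurable_YG δ η K n (cT δ K)) (hn₂ n (by omega)).2
  have a2' := hn₁' n (by omega) hne' _ _ mT' (measurable_YG δ η K n (cT δ K))
    (hn₂' n (by omega)).2
  have b1 := hm1 n (by omega) hne
  have b1' := hm1' n (by omega) hne'
  have b2 := hm2 n (by omega) hne
  have b2' := hm2' n (by omega) hne'
  constructor
  · rw [abs_le] at *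
    constructor <;> linarith [a1.1, a1.2, a1'.1, a1'.2, b1.1, b1.2, b1'.1, b1'.2]
  · rw [abs_le] at *
    constructor <;> linarith [a2.1, a2.2, a2'.1, a2'.2, b2.1, b2.2, b2'.1, b2'.2]

end Pool.Agent.BPT
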