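import Pool.Agent.MP_99a865_pr.FV.F5

open MeasureTheory ProbabilityTheory Filter Topology
open scoped ENNReal NNReal

namespace Pool.Agent.BPT

variable {D : Set ℝ} {μ ν : Measure ℝ} {σ : ℝ}

open Classical in
theorem F12_cB_nxt {ω : ℕ → ℝ × ℝ} {i b b' m : ℕ} (h : Nxt D ω b b') (hi : i ≤ b) (hm : b < m)
    (hm' : m ≤ b') : cB D i m ω = cB D i b ω + 1 := by
  unfold cB
  have e : (Finset.Ico i m).filter (fun b => Bd D ω b) =
      insert b ((Finset.Ico i b).filter (fun b => Bd D ω b)) := by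
    ext c
    simp only [Finset.mem_filter, Finset.mem_Ico, Finset.mem_insert]
    constructor
    · rintro ⟨⟨h1, h2⟩, h3⟩
      rcases lt_trichotomy c b with h4 | h4 | h4
      · exact Or.inr ⟨⟨h1, h4⟩, h3⟩
      · exact Or.inl h4
      · exact absurd h3 (h.2.2.2 c h4 (by omega))
    · rintro (h1 | ⟨⟨h1, h2⟩, h3⟩)
      · subst h1
        exact ⟨⟨hi, hm⟩, h.1⟩
      · exact ⟨⟨h1, by omega⟩, h3⟩
  rw [e, Finset.card_insert_of_notMem]
  simp

open Classical in
theorem F12_cB_zero {ω : ℕ → ℝ × ℝ} {i m : ℕ} (h : ∀ c, i ≤ c → c < m → ¬ Bd D ω c) :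
    cB D i m ω = 0 := by
  unfold cB
  rw [Finset.card_eq_zero, Finset.filter_eq_empty_iff]
  intro c hc
  rw [Finset.mem_Ico] at hc
  exact h c hc.1 hc.2

theorem F12_gap (hD : Dom D) {ω : ℕ → ℝ × ℝ} (hnn : NN ω)
    (i i' i'' : ℕ) (a : ℝ) (ha : 1 ≤ a) (hy : 8 * a ≤ Zw i ω)
    (hlong : i' + Zw i ω + 4 * a ≤ i'')
    (h1 : ∀ k, i ≤ k → k ≤ i' → |Zw k ω - Zw i ω| ≤ a)
    (h2 : ∀ k k', i ≤ k → k ≤ k' → k' ≤ i'' → |Ar k' ω - Ar k ω - (k' - k)| ≤ a)
    (b b' : ℕ) (hib : i ≤ b) (hbi : b < i') (hn : Nxt D ω b b') :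
    Zw i ω - 2 * a ≤ (b' : ℝ) - b ∧ (b' : ℝ) - b ≤ Zw b ω + 3 * a := by
  obtain ⟨g1, g2⟩ := Nxt_prop hD hnn hn
  have g1' := hD.nonneg g1
  have g2' := hD.not_mem g2
  have hlt := hn.2.2.1
  have hzb : Zw b ω = Dp b ω - Ar b ω := rfl
  have e1 := abs_le.1 (h1 b hib hbi.le)
  have hbi' : (b : ℝ) + 1 ≤ i' := by exact_mod_cast hbi
  have hup : (b' : ℝ) - b ≤ Zw b ω + 3 * a := by
    by_contra hc
    push Not at hc
    have hb1 : ((b' - 1 : ℕ) : ℝ) = (b' : ℝ) - 1 := by
      rw [Nat.cast_sub (by omega)]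
      simp
    rcases le_or_gt (b' - 1) i'' with h | h
    · have e2 := (abs_le.1 (h2 b (b' - 1) hib (by omega) h)).1
      rw [hb1] at e2
      linarith
    · have hbi2 : b ≤ i'' := by
        have : (b : ℝ) ≤ i'' := by linarith [e1.1, hD.nonneg g1]
        exact_mod_cast this
      have e2 := (abs_le.1 (h2 b i'' hib hbi2 le_rfl)).1
      have e3 := F5_Ar_mono hnn h.le
      linarith [e1.2]
  refine ⟨?_, hup⟩
  have hb'i : b' ≤ i'' := by
    have : (b' : ℝ) ≤ i'' := by linarith [e1.2]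
    exact_mod_cast this
  have e2 := (abs_le.1 (h2 b b' hib hlt.le hb'i)).2
  linarith [e1.1]

/-- position of the boundaries of the window -/
theorem F12_pos (hD : Dom D) {ω : ℕ → ℝ × ℝ} (hnn : NN ω)
    (i i' i'' : ℕ) (hi : 1 ≤ i) (a : ℝ) (ha : 1 ≤ a)
    (hy : 8 * a ≤ Zw i ω) (hlong : i' + Zw i ω + 4 * a ≤ i'')
    (h1 : ∀ k, i ≤ k → k ≤ i' → |Zw k ω - Zw i ω| ≤ a)
    (h2 : ∀ k k', i ≤ k → k ≤ k' → k' ≤ i'' → |Ar k' ω - Ar k ω - (k' - k)| ≤ a) :
    ∀ b : ℕ, i ≤ b → b < i' → Bd D ω b → (b : ℝ) - i ≤ (cB D i b ω + 1) * (Zw i ω + 4 * a) ∧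
      (cB D i b ω) * (Zw i ω - 2 * a) ≤ (b : ℝ) - i := by
  intro b
  induction b using Nat.strong_induction_on with
  | _ b ih =>
    intro hib hbi hb
    have hib' : (i : ℝ) ≤ b := by exact_mod_cast hib
    by_cases hb1 : b = 1
    · have hbi1 : i = b := by omega
      have h0 : cB D i b ω = 0 := F12_cB_zero (fun c h3 h4 => by omega)
      rw [h0, hbi1]
      constructor
      · simp only [sub_self, Nat.cast_zero, zero_add, one_mul]
        rw [hbi1] at hy
        linarith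
      · simp
    · obtain ⟨b0, hn⟩ := exists_prev hD hnn hb hb1
      rcases le_or_gt i b0 with h | h
      · have hlt := hn.2.2.1
        obtain ⟨i1, i2⟩ := ih b0 hlt h (by omega) hn.1
        obtain ⟨j1, j2⟩ := F12_gap hD hnn i i' i'' a ha hy hlong h1 h2 b0 b h (by omega) hn
        have e1 := abs_le.1 (h1 b0 h (by omega))
        rw [F12_cB_nxt hn h hlt le_rfl]
        push_cast
        constructor
        · nlinarith [e1.2]
        · nlinarith [e1.1]
      · have h0 : cB D i b ω = 0 := F12_cB_zero (fun c h3 h4 => hn.2.2.2 c (by omega) h4)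
        rw [h0]
        have g1 := hD.nonneg (Nxt_prop hD hnn hn).1
        have g2 := F5_Dp_mono hnn h.le
        have hzi : Zw i ω = Dp i ω - Ar i ω := rfl
        constructor
        · simp only [Nat.cast_zero, zero_add, one_mul]
          rcases Nat.eq_or_lt_of_le hib with h5 | h5
          · rw [← h5]
            linarith
          · have hbi2 : b - 1 ≤ i'' := by
              have : (b : ℝ) ≤ i'' := by
                have : (b : ℝ) ≤ i' := by exact_mod_cast hbi.le
                linarith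
              have : b ≤ i'' := by exact_mod_cast this
              omega
            have e2 := (abs_le.1 (h2 i (b - 1) le_rfl (by omega) hbi2)).1
            rw [Nat.cast_sub (by omega)] at e2
            push_cast at e2
            linarith
        · simpa using hib'

theorem F12_arith {r L y a : ℝ} (ha : 1 ≤ a) (hy : 8 * a ≤ y) (hL : 0 ≤ L)
    (h1 : (r - 1) * (y - 2 * a) ≤ L) (h2 : L ≤ (r + 1) * (y + 4 * a)) :
    |r - L / y| ≤ 1 + 4 * a * L / y ^ 2 := by
  have hy0 : 0 < y := by linarith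
  have hy2 : 0 < y - 2 * a := by linarith
  have hy4 : 0 < y + 4 * a := by linarith
  have e1 : r - 1 ≤ L / (y - 2 * a) := by
    rw [le_div_iff₀ hy2]
    exact h1
  have e2 : L / (y + 4 * a) ≤ r + 1 := by
    rw [div_le_iff₀ hy4]
    exact h2
  have e3 : L / (y - 2 * a) ≤ L / y + 4 * a * L / y ^ 2 := by
    have : L / y + 4 * a * L / y ^ 2 = L * (y + 4 * a) / y ^ 2 := by
      field_simp
    rw [this, div_le_div_iff₀ hy2 (by positivity)]
    have : 0 ≤ L * (a * (y - 4 * a)) := by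
      apply mul_nonneg hL
      apply mul_nonneg (by linarith) (by linarith)
    nlinarith
  have e4 : L / y - 4 * a * L / y ^ 2 ≤ L / (y + 4 * a) := by
    have : L / y - 4 * a * L / y ^ 2 = L * (y - 4 * a) / y ^ 2 := by
      field_simp
    rw [this, div_le_div_iff₀ (by positivity) hy4]
    have : 0 ≤ L * a ^ 2 := by positivity
    nlinarith
  rw [abs_le]
  constructor <;> linarith

/-- **[FV-F12]** Number of boundaries in a window where the walk is nearly constant.
PROOF. Let `y = Zw i ≥ 8a`, `a ≥ 1`. For a boundary `b ∈ [i, i')` with next boundary `b'`: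
`Ar (b'-1) - Ar b ≤ Zw b ≤ Ar b' - Ar b` (`Nxt_prop`, `Dom.nonneg`, `Dom.not_mem`). If
`b' - 1 - b > y + 2a + 1`, take `k' = b + ⌈y + 2a⌉ + 1 ≤ b' - 1`, `k' ≤ i''`: `Ar k' - Ar b > y + a ≥ Zw b`,
contradiction; so `b' - b ≤ y + 4a` (and `b' ≤ i''`). Also `b' - b + a ≥ Ar b' - Ar b ≥ Zw b ≥ y - a`. So all
gaps are in `[y - 2a, y + 4a]`. The first boundary `b₁ ≥ i` satisfies `b₁ - i ≤ y + 4a`: if `b₀ < i` is the
last boundary before `i` (or `b₁ = i`), `Ar (b₁-1) ≤ Dp b₀ ≤ Dp i`, so `Ar (b₁ - 1) - Ar i ≤ y` and the same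
argument applies. With `r` the number of boundaries in `[i,i')` and `L = i' - i`:
`(r-1)(y-2a) ≤ L` and `L ≤ (r+1)(y+4a)` (the last one, if `r ≥ 1`, has its successor `≥ i'`; if `r = 0`
then `L ≤ b₁ - i`). Hence `r ≤ 1 + L/(y-2a) ≤ 1 + L/y + 4aL/y²` (`y - 2a ≥ y/2`) and
`r ≥ L/(y+4a) - 1 ≥ L/y - 4aL/y² - 1`. -/
theorem count_window (hD : Dom D) {n : ℕ} {ω : ℕ → ℝ × ℝ} (hN : ω ∈ EvN D n) (hnn : NN ω)
    (i i' i'' : ℕ) (hi : 1 ≤ i) (hii : i ≤ i') (hi2 : i'' < n) (a : ℝ) (ha : 1 ≤ a)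
    (hy : 8 * a ≤ Zw i ω) (hlong : i' + Zw i ω + 4 * a ≤ i'')
    (h1 : ∀ k, i ≤ k → k ≤ i' → |Zw k ω - Zw i ω| ≤ a)
    (h2 : ∀ k k', i ≤ k → k ≤ k' → k' ≤ i'' → |Ar k' ω - Ar k ω - (k' - k)| ≤ a) :
    |(cB D i i' ω : ℝ) - (i' - i) / Zw i ω| ≤ 1 + 4 * a * (i' - i) / (Zw i ω) ^ 2 ∧
    (∀ b b', i ≤ b → b < i' → Nxt D ω b b' →
      Zw i ω - 2 * a ≤ (b' : ℝ) - b ∧ (b' : ℝ) - b ≤ Zw b ω + 3 * a) := by
  classical
  refine ⟨?_, fun b b' hb hb' hn => F12_gap hD hnn i i' i'' a ha hy hlong h1 h2 b b' hb hb' hn⟩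
  have hii' : (i : ℝ) ≤ i' := by exact_mod_cast hii
  apply F12_arith ha hy (by linarith)
  · -- upper bound for the number
    rcases Nat.eq_or_lt_of_le hii with h | h
    · have h0 : cB D i i' ω = 0 := F12_cB_zero (fun c h3 h4 => by omega)
      rw [h0, ← h]
      push_cast
      nlinarith
    · obtain ⟨b0, ⟨hb0, hb0'⟩, hmax⟩ : ∃ b0, (b0 < i' ∧ Bd D ω b0) ∧ ∀ c, c < i' → Bd D ω c → c ≤ b0 := by
        refine ⟨Nat.findGreatest (fun c => c < i' ∧ Bd D ω c) i', ?_, ?_⟩
        · exact Nat.findGreatest_spec (P := fun c => c < i' ∧ Bd D ω c) (m := 1) (by omega)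
            ⟨by omega, Bd.one⟩
        · intro c hc hc'
          exact Nat.le_findGreatest hc.le ⟨hc, hc'⟩
      rcases le_or_gt i b0 with h5 | h5
      · have hi'n : i' < n := by
          have : (i' : ℝ) ≤ i'' := by linarith
          have : i' ≤ i'' := by exact_mod_cast this
          omega
        obtain ⟨b', hb'n, hn, -, -⟩ := exists_next hD hN hnn hb0' (by omega)
        have hb'i : i' ≤ b' := by
          by_contra hc
          push Not at hc
          have := hmax b' hc hn.2.1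
          have := hn.2.2.1
          omega
        rw [F12_cB_nxt hn h5 hb0 hb'i]
        have := (F12_pos hD hnn i i' i'' hi a ha hy hlong h1 h2 b0 h5 hb0 hb0').2
        push_cast
        have hb0r : (b0 : ℝ) ≤ i' := by exact_mod_cast hb0.le
        linarith
      · have h0 : cB D i i' ω = 0 := F12_cB_zero (fun c h3 h4 h5 => by
          have := hmax c h4 h5
          omega)
        rw [h0]
        push_cast
        nlinarith
  · rcases Nat.eq_or_lt_of_le hii with h | h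
    · rw [← h]
      have : (0 : ℝ) ≤ (cB D i i ω : ℝ) + 1 := by positivity
      nlinarith
    · obtain ⟨b0, ⟨hb0, hb0'⟩, hmax⟩ : ∃ b0, (b0 < i' ∧ Bd D ω b0) ∧ ∀ c, c < i' → Bd D ω c → c ≤ b0 := by
        refine ⟨Nat.findGreatest (fun c => c < i' ∧ Bd D ω c) i', ?_, ?_⟩
        · exact Nat.findGreatest_spec (P := fun c => c < i' ∧ Bd D ω c) (m := 1) (by omega)
            ⟨by omega, Bd.one⟩
        · intro c hc hc'
          exact Nat.le_findGreatest hc.le ⟨hc, hc'⟩
      have hi'i : i' ≤ i'' := by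
        have : (i' : ℝ) ≤ i'' := by linarith
        exact_mod_cast this
      obtain ⟨b', hb'n, hn, g1, -⟩ := exists_next hD hN hnn hb0' (by omega)
      have hb'i : i' ≤ b' := by
        by_contra hc
        push Not at hc
        have := hmax b' hc hn.2.1
        have := hn.2.2.1
        omega
      rcases le_or_gt i b0 with h5 | h5
      · rw [F12_cB_nxt hn h5 hb0 hb'i]
        have e1 := (F12_pos hD hnn i i' i'' hi a ha hy hlong h1 h2 b0 h5 hb0 hb0').1
        have e2 := (F12_gap hD hnn i i' i'' a ha hy hlong h1 h2 b0 b' h5 hb0 hn).2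
        have e3 := (abs_le.1 (h1 b0 h5 hb0.le)).2
        have hb'r : (i' : ℝ) ≤ b' := by exact_mod_cast hb'i
        push_cast
        nlinarith
      · have h0 : cB D i i' ω = 0 := F12_cB_zero (fun c h3 h4 h5 => by
          have := hmax c h4 h5
          omega)
        rw [h0]
        have g2 := hD.nonneg g1
        have g3 := F5_Ar_mono hnn (by omega : i' - 1 ≤ b' - 1)
        have g4 := F5_Dp_mono hnn h5.le
        have e2 := (abs_le.1 (h2 i (i' - 1) le_rfl (by omega) (by omega))).1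
        rw [Nat.cast_sub (by omega)] at e2
        have hzi : Zw i ω = Dp i ω - Ar i ω := rfl
        push_cast at e2 ⊢
        linarith

end Pool.Agent.BPT
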