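import Pool.Agent.MP_99a865_pr.FV.F1

open MeasureTheory ProbabilityTheory Filter Topology
open scoped ENNReal NNReal

namespace Pool.Agent.BPT

variable {D : Set ℝ} {μ ν : Measure ℝ} {σ : ℝ}

/-- the event of leaving `D` at time `m`, jointly in the starting point -/
def F2_W (D : Set ℝ) (m : ℕ) : Set (ℝ × (ℕ → ℝ)) :=
  {p | 1 ≤ m ∧ Alive D p.1 (m - 1) p.2 ∧ p.1 + S m p.2 ∉ D}

theorem F2_W_meas (hD : Dom D) (m : ℕ) : MeasurableSet (F2_W D m) := by
  have h1 : MeasurableSet {p : ℝ × (ℕ → ℝ) | 1 ≤ m} := MeasurableSet.const _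
  have h2 := measurableSet_alive' hD (m - 1)
  have h3 : MeasurableSet {p : ℝ × (ℕ → ℝ) | p.1 + S m p.2 ∈ D} :=
    (measurable_fst.add ((measurable_S m).comp measurable_snd)) hD.meas
  exact h1.inter (h2.inter h3.compl)

theorem F2_hit (hD : Dom D) (hQ : QStd μ ν σ) (m : ℕ) (x : ℝ) :
    PQ μ ν {η | (x, steps σ η) ∈ F2_W D m} = ENNReal.ofReal (hit D (stepLaw μ ν σ) m x) := by
  haveI := hQ.std.prob
  have h1 : MeasurableSet {ω : ℕ → ℝ | (x, ω) ∈ F2_W D m} := measurable_prodMk_left (F2_W_meas hD m)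
  unfold hit
  rw [ofReal_measureReal]
  rw [← map_steps hQ]
  exact (Measure.map_apply measurable_steps h1).symm

theorem F2_ev (hD : Dom D) (hσ : 0 < σ) (i m : ℕ) (hm : 1 ≤ m) (ω : ℕ → ℝ × ℝ) :
    ω ∈ EvN D (i + m) ↔ AliveQ D i ω ∧ (nz σ i ω, steps σ (shift i ω)) ∈ F2_W D m := by
  have h1 : i + m - 1 = i + (m - 1) := by omega
  have h2 : steps σ (shift i ω) = shift i (steps σ ω) := rfl
  unfold EvN F2_W
  simp only [Set.mem_setOf_eq]
  rw [Zw_mem hD hσ, aliveQ_iff hD hσ, aliveQ_iff hD hσ, h1, alive_add, nz_eq, nz_eq, h2, S_shift,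
    zero_add]
  constructor
  · rintro ⟨_, ⟨h4, h5⟩, h6⟩
    exact ⟨h4, hm, h5, h6⟩
  · rintro ⟨h4, _, h5, h6⟩
    exact ⟨by omega, ⟨h4, h5⟩, h6⟩

theorem F2_Zw_congr (k : ℕ) {ω ω' : ℕ → ℝ × ℝ} (h : ∀ j < k, ω j = ω' j) : Zw k ω = Zw k ω' := by
  unfold Zw Dp Ar
  congr 1
  · exact Finset.sum_congr rfl fun j hj => by rw [h j (Finset.mem_range.1 hj)]
  · exact Finset.sum_congr rfl fun j hj => by rw [h j (Finset.mem_range.1 hj)]

theorem F2_nz_congr (k : ℕ) {ω ω' : ℕ → ℝ × ℝ} (h : ∀ j < k, ω j = ω' j) :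
    nz σ k ω = nz σ k ω' := by
  unfold nz
  rw [F2_Zw_congr k h]

theorem F2_alive_congr (k : ℕ) {ω ω' : ℕ → ℝ × ℝ} (h : ∀ j < k, ω j = ω' j) :
    AliveQ D k ω ↔ AliveQ D k ω' := by
  unfold AliveQ
  constructor
  · intro h1 j hj1 hj2
    rw [← F2_Zw_congr j (fun l hl => h l (by omega))]
    exact h1 j hj1 hj2
  · intro h1 j hj1 hj2
    rw [F2_Zw_congr j (fun l hl => h l (by omega))]
    exact h1 j hj1 hj2

/-- **[FV-F2a]** Markov property at time `i` on `{N = i + m}`; `F` depends on the first `i` pairs.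
PROOF. `ω ∈ EvN D (i+m)` iff `AliveQ D i ω` and the walk `nz i ω + nz · (shift i ω)` first leaves `D` at
time `m`; use `lintegral_split` (`E = ℝ × ℝ`). -/
theorem q_markov (hD : Dom D) (hQ : QStd μ ν σ) (i m : ℕ) (hm : 1 ≤ m) (F : (ℕ → ℝ × ℝ) → ℝ≥0∞)
    (hF : Measurable F) (hdep : ∀ ω ω', (∀ j < i, ω j = ω' j) → F ω = F ω') :
    ∫⁻ ω in EvN D (i + m), F ω ∂(PQ μ ν) = ∫⁻ ω in {ω | AliveQ D i ω},
      F ω * ENNReal.ofReal (hit D (stepLaw μ ν σ) m (nz σ i ω)) ∂(PQ μ ν) := by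
  classical
  haveI := hQ.std.prob
  haveI := hQ.probμ
  haveI := hQ.probν
  have hWm := F2_W_meas hD m
  have hAm := measurableSet_aliveQ hD i
  have hpair : Measurable (fun p : (ℕ → ℝ × ℝ) × (ℕ → ℝ × ℝ) => (nz σ i p.1, steps σ p.2)) :=
    ((measurable_nz i).comp measurable_fst).prodMk (measurable_steps.comp measurable_snd)
  let H : (ℕ → ℝ × ℝ) → (ℕ → ℝ × ℝ) → ℝ≥0∞ := fun ω η =>
    {ω | AliveQ D i ω}.indicator F ω * (F2_W D m).indicator 1 (nz σ i ω, steps σ η)
  have hH : Measurable (Function.uncurry H) :=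
    ((hF.indicator hAm).comp measurable_fst).mul ((measurable_one.indicator hWm).comp hpair)
  have hHdep : ∀ ω ω' η, (∀ j < i, ω j = ω' j) → H ω η = H ω' η := by
    intro ω ω' η h
    have h1 := hdep ω ω' h
    have h2 := F2_nz_congr (σ := σ) i h
    have h3 : {ω | AliveQ D i ω}.indicator F ω = {ω | AliveQ D i ω}.indicator F ω' := by
      by_cases h4 : AliveQ D i ω
      · have h5 : AliveQ D i ω' := (F2_alive_congr i h).1 h4
        rw [Set.indicator_of_mem (show ω ∈ {ω | AliveQ D i ω} from h4),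
          Set.indicator_of_mem (show ω' ∈ {ω | AliveQ D i ω} from h5), h1]
      · have h5 : ¬ AliveQ D i ω' := fun h6 => h4 ((F2_alive_congr i h).2 h6)
        rw [Set.indicator_of_notMem (show ω ∉ {ω | AliveQ D i ω} from h4),
          Set.indicator_of_notMem (show ω' ∉ {ω | AliveQ D i ω} from h5)]
    show {ω | AliveQ D i ω}.indicator F ω * (F2_W D m).indicator 1 (nz σ i ω, steps σ η) =
      {ω | AliveQ D i ω}.indicator F ω' * (F2_W D m).indicator 1 (nz σ i ω', steps σ η)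
    rw [h3, h2]
  have hsplit : ∫⁻ ω, H ω (shift i ω) ∂(PQ μ ν) = ∫⁻ ω, ∫⁻ η, H ω η ∂(PQ μ ν) ∂(PQ μ ν) :=
    lintegral_split (μ.prod ν) i H hH hHdep
  have hL : ∫⁻ ω in EvN D (i + m), F ω ∂(PQ μ ν) = ∫⁻ ω, H ω (shift i ω) ∂(PQ μ ν) := by
    rw [← lintegral_indicator (measurableSet_EvN hD (i + m))]
    refine lintegral_congr fun ω => ?_
    show (EvN D (i + m)).indicator F ω = {ω | AliveQ D i ω}.indicator F ω *
      (F2_W D m).indicator 1 (nz σ i ω, steps σ (shift i ω))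
    have hiff := F2_ev hD hQ.pos i m hm ω
    by_cases h1 : AliveQ D i ω
    · by_cases h2 : (nz σ i ω, steps σ (shift i ω)) ∈ F2_W D m
      · rw [Set.indicator_of_mem (hiff.2 ⟨h1, h2⟩),
          Set.indicator_of_mem (show ω ∈ {ω | AliveQ D i ω} from h1), Set.indicator_of_mem h2]
        simp
      · rw [Set.indicator_of_notMem (fun h => h2 (hiff.1 h).2), Set.indicator_of_notMem h2]
        simp
    · rw [Set.indicator_of_notMem (fun h => h1 (hiff.1 h).1),
        Set.indicator_of_notMem (show ω ∉ {ω | AliveQ D i ω} from h1)]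
      simp
  rw [hL, hsplit, ← lintegral_indicator hAm]
  refine lintegral_congr fun ω => ?_
  show ∫⁻ η, {ω | AliveQ D i ω}.indicator F ω * (F2_W D m).indicator 1 (nz σ i ω, steps σ η)
    ∂(PQ μ ν) = _
  have hm1 : Measurable fun η => (F2_W D m).indicator (1 : ℝ × (ℕ → ℝ) → ℝ≥0∞)
      (nz σ i ω, steps σ η) :=
    (measurable_one.indicator hWm).comp (measurable_const.prodMk measurable_steps)
  rw [lintegral_const_mul _ hm1]
  have h5 : ∫⁻ η, (F2_W D m).indicator (1 : ℝ × (ℕ → ℝ) → ℝ≥0∞) (nz σ i ω, steps σ η) ∂(PQ μ ν) =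
      ENNReal.ofReal (hit D (stepLaw μ ν σ) m (nz σ i ω)) := by
    rw [← F2_hit hD hQ m (nz σ i ω)]
    have hms : MeasurableSet {η : ℕ → ℝ × ℝ | (nz σ i ω, steps σ η) ∈ F2_W D m} :=
      (measurable_const.prodMk measurable_steps) hWm
    rw [← lintegral_indicator_one hms]
    rfl
  rw [h5]
  by_cases h1 : AliveQ D i ω
  · rw [Set.indicator_of_mem (show ω ∈ {ω | AliveQ D i ω} from h1),
      Set.indicator_of_mem (show ω ∈ {ω | AliveQ D i ω} from h1)]
  · rw [Set.indicator_of_notMem (show ω ∉ {ω | AliveQ D i ω} from h1),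
      Set.indicator_of_notMem (show ω ∉ {ω | AliveQ D i ω} from h1)]
    simp

/-- real version, `F` bounded -/
theorem q_markov_real (hD : Dom D) (hQ : QStd μ ν σ) (i m : ℕ) (hm : 1 ≤ m) (F : (ℕ → ℝ × ℝ) → ℝ)
    (hF : Measurable F) (hdep : ∀ ω ω', (∀ j < i, ω j = ω' j) → F ω = F ω') (C : ℝ)
    (hC : ∀ ω, |F ω| ≤ C) :
    ∫ ω in EvN D (i + m), F ω ∂(PQ μ ν) = ∫ ω in {ω | AliveQ D i ω},
      F ω * hit D (stepLaw μ ν σ) m (nz σ i ω) ∂(PQ μ ν) := by
  classical
  haveI := hQ.std.prob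
  haveI := hQ.probμ
  haveI := hQ.probν
  have hC0 : 0 ≤ C := (abs_nonneg _).trans (hC fun _ => (0, 0))
  have hWm := F2_W_meas hD m
  have hAm := measurableSet_aliveQ hD i
  have hpair : Measurable (fun p : (ℕ → ℝ × ℝ) × (ℕ → ℝ × ℝ) => (nz σ i p.1, steps σ p.2)) :=
    ((measurable_nz i).comp measurable_fst).prodMk (measurable_steps.comp measurable_snd)
  let H : (ℕ → ℝ × ℝ) → (ℕ → ℝ × ℝ) → ℝ := fun ω η =>
    {ω | AliveQ D i ω}.indicator F ω * (F2_W D m).indicator 1 (nz σ i ω, steps σ η)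
  have hH : Measurable (Function.uncurry H) :=
    ((hF.indicator hAm).comp measurable_fst).mul ((measurable_one.indicator hWm).comp hpair)
  have hHb : ∀ ω η, |H ω η| ≤ C := by
    intro ω η
    show |{ω | AliveQ D i ω}.indicator F ω * (F2_W D m).indicator 1 (nz σ i ω, steps σ η)| ≤ C
    rw [abs_mul]
    have h1 : |{ω | AliveQ D i ω}.indicator F ω| ≤ C := by
      by_cases h1 : AliveQ D i ω
      · rw [Set.indicator_of_mem (show ω ∈ {ω | AliveQ D i ω} from h1)]
        exact hC ω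
      · rw [Set.indicator_of_notMem (show ω ∉ {ω | AliveQ D i ω} from h1), abs_zero]
        exact hC0
    have h2 : |(F2_W D m).indicator (1 : ℝ × (ℕ → ℝ) → ℝ) (nz σ i ω, steps σ η)| ≤ 1 := by
      by_cases h2 : (nz σ i ω, steps σ η) ∈ F2_W D m
      · rw [Set.indicator_of_mem h2]
        simp
      · rw [Set.indicator_of_notMem h2]
        simp
    calc _ ≤ C * 1 := mul_le_mul h1 h2 (abs_nonneg _) hC0
      _ = C := mul_one C
  have hHdep : ∀ ω ω' η, (∀ j < i, ω j = ω' j) → H ω η = H ω' η := by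
    intro ω ω' η h
    have h1 := hdep ω ω' h
    have h2 := F2_nz_congr (σ := σ) i h
    have h3 : {ω | AliveQ D i ω}.indicator F ω = {ω | AliveQ D i ω}.indicator F ω' := by
      by_cases h4 : AliveQ D i ω
      · have h5 : AliveQ D i ω' := (F2_alive_congr i h).1 h4
        rw [Set.indicator_of_mem (show ω ∈ {ω | AliveQ D i ω} from h4),
          Set.indicator_of_mem (show ω' ∈ {ω | AliveQ D i ω} from h5), h1]
      · have h5 : ¬ AliveQ D i ω' := fun h6 => h4 ((F2_alive_congr i h).2 h6)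
        rw [Set.indicator_of_notMem (show ω ∉ {ω | AliveQ D i ω} from h4),
          Set.indicator_of_notMem (show ω' ∉ {ω | AliveQ D i ω} from h5)]
    show {ω | AliveQ D i ω}.indicator F ω * (F2_W D m).indicator 1 (nz σ i ω, steps σ η) =
      {ω | AliveQ D i ω}.indicator F ω' * (F2_W D m).indicator 1 (nz σ i ω', steps σ η)
    rw [h3, h2]
  have hsplit : ∫ ω, H ω (shift i ω) ∂(PQ μ ν) = ∫ ω, ∫ η, H ω η ∂(PQ μ ν) ∂(PQ μ ν) :=
    integral_split (μ.prod ν) i H hH C hHb hHdep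
  have hL : ∫ ω in EvN D (i + m), F ω ∂(PQ μ ν) = ∫ ω, H ω (shift i ω) ∂(PQ μ ν) := by
    rw [← integral_indicator (measurableSet_EvN hD (i + m))]
    refine integral_congr_ae (Filter.Eventually.of_forall fun ω => ?_)
    show (EvN D (i + m)).indicator F ω = {ω | AliveQ D i ω}.indicator F ω *
      (F2_W D m).indicator 1 (nz σ i ω, steps σ (shift i ω))
    have hiff := F2_ev hD hQ.pos i m hm ω
    by_cases h1 : AliveQ D i ω
    · by_cases h2 : (nz σ i ω, steps σ (shift i ω)) ∈ F2_W D m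
      · rw [Set.indicator_of_mem (hiff.2 ⟨h1, h2⟩),
          Set.indicator_of_mem (show ω ∈ {ω | AliveQ D i ω} from h1), Set.indicator_of_mem h2]
        simp
      · rw [Set.indicator_of_notMem (fun h => h2 (hiff.1 h).2), Set.indicator_of_notMem h2]
        simp
    · rw [Set.indicator_of_notMem (fun h => h1 (hiff.1 h).1),
        Set.indicator_of_notMem (show ω ∉ {ω | AliveQ D i ω} from h1)]
      simp
  rw [hL, hsplit, ← integral_indicator hAm]
  refine integral_congr_ae (Filter.Eventually.of_forall fun ω => ?_)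
  show ∫ η, {ω | AliveQ D i ω}.indicator F ω * (F2_W D m).indicator 1 (nz σ i ω, steps σ η)
    ∂(PQ μ ν) = _
  rw [integral_const_mul]
  have h5 : ∫ η, (F2_W D m).indicator (1 : ℝ × (ℕ → ℝ) → ℝ) (nz σ i ω, steps σ η) ∂(PQ μ ν) =
      hit D (stepLaw μ ν σ) m (nz σ i ω) := by
    have hms : MeasurableSet {η : ℕ → ℝ × ℝ | (nz σ i ω, steps σ η) ∈ F2_W D m} :=
      (measurable_const.prodMk measurable_steps) hWm
    have h6 : ∫ η, (F2_W D m).indicator (1 : ℝ × (ℕ → ℝ) → ℝ) (nz σ i ω, steps σ η) ∂(PQ μ ν) =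
        (PQ μ ν).real {η : ℕ → ℝ × ℝ | (nz σ i ω, steps σ η) ∈ F2_W D m} := by
      rw [← integral_indicator_one hms]
      rfl
    rw [h6]
    unfold Measure.real
    rw [F2_hit hD hQ m (nz σ i ω), ENNReal.toReal_ofReal (hit_nonneg m _)]
  rw [h5]
  by_cases h1 : AliveQ D i ω
  · rw [Set.indicator_of_mem (show ω ∈ {ω | AliveQ D i ω} from h1),
      Set.indicator_of_mem (show ω ∈ {ω | AliveQ D i ω} from h1)]
  · rw [Set.indicator_of_notMem (show ω ∉ {ω | AliveQ D i ω} from h1),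
      Set.indicator_of_notMem (show ω ∉ {ω | AliveQ D i ω} from h1)]
    simp

/-- **[FV-F2b]** Markov property with a window of `w ≥ 1` steps: `G` depends on the first `w` pairs,
`f` is a function of the position at the end of the window; the condition to stay in `D` inside the
window is dropped except at its end. -/
theorem q_window (hD : Dom D) (hQ : QStd μ ν σ) (i w m : ℕ) (hw : 1 ≤ w) (hm : 1 ≤ m)
    (G : (ℕ → ℝ × ℝ) → ℝ≥0∞) (hG : Measurable G) (f : ℝ → ℝ≥0∞) (hf : Measurable f)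
    (hdep : ∀ ω ω', (∀ j < w, ω j = ω' j) → G ω = G ω') :
    ∫⁻ ω in EvN D (i + w + m), G (shift i ω) * f (nz σ (i + w) ω) ∂(PQ μ ν) ≤
      ∫⁻ η, G η * ∫⁻ y in {y | y + nz σ w η ∈ D}, f (y + nz σ w η) *
        ENNReal.ofReal (hit D (stepLaw μ ν σ) m (y + nz σ w η)) ∂(kap D (stepLaw μ ν σ) i 0)
          ∂(PQ μ ν) := by
  classical
  haveI := hQ.std.prob
  haveI := hQ.probμ
  haveI := hQ.probν
  have hAm := measurableSet_aliveQ hD i
  have hhit : Measurable (hit D (stepLaw μ ν σ) m) := measurable_hit hD m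
  -- the function at the end of the window
  let g : ℝ → ℝ≥0∞ := D.indicator fun x => f x * ENNReal.ofReal (hit D (stepLaw μ ν σ) m x)
  have hg : Measurable g := (hf.mul hhit.ennreal_ofReal).indicator hD.meas
  rw [q_markov hD hQ (i + w) m hm (fun ω => G (shift i ω) * f (nz σ (i + w) ω))
    ((hG.comp (measurable_shift i)).mul (hf.comp (measurable_nz (i + w)))) (by
      intro ω ω' h
      have h1 : G (shift i ω) = G (shift i ω') := hdep _ _ (fun j hj => h (i + j) (by omega))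
      have h2 := F2_nz_congr (σ := σ) (i + w) h
      show G (shift i ω) * f (nz σ (i + w) ω) = G (shift i ω') * f (nz σ (i + w) ω')
      rw [h1, h2])]
  let H : (ℕ → ℝ × ℝ) → (ℕ → ℝ × ℝ) → ℝ≥0∞ := fun ω η =>
    {ω | AliveQ D i ω}.indicator (fun ω => g (nz σ i ω + nz σ w η)) ω * G η
  have hH : Measurable (Function.uncurry H) := by
    have h1 : Measurable (fun p : (ℕ → ℝ × ℝ) × (ℕ → ℝ × ℝ) => g (nz σ i p.1 + nz σ w p.2)) :=
      hg.comp (((measurable_nz i).comp measurable_fst).add ((measurable_nz w).comp measurable_snd))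
    have h2 : MeasurableSet {p : (ℕ → ℝ × ℝ) × (ℕ → ℝ × ℝ) | AliveQ D i p.1} :=
      measurable_fst hAm
    exact (h1.indicator h2).mul (hG.comp measurable_snd)
  have hHdep : ∀ ω ω' η, (∀ j < i, ω j = ω' j) → H ω η = H ω' η := by
    intro ω ω' η h
    have h2 := F2_nz_congr (σ := σ) i h
    show {ω | AliveQ D i ω}.indicator (fun ω => g (nz σ i ω + nz σ w η)) ω * G η =
      {ω | AliveQ D i ω}.indicator (fun ω => g (nz σ i ω + nz σ w η)) ω' * G η
    by_cases h4 : AliveQ D i ω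
    · have h5 : AliveQ D i ω' := (F2_alive_congr i h).1 h4
      rw [Set.indicator_of_mem (show ω ∈ {ω | AliveQ D i ω} from h4),
        Set.indicator_of_mem (show ω' ∈ {ω | AliveQ D i ω} from h5), h2]
    · have h5 : ¬ AliveQ D i ω' := fun h6 => h4 ((F2_alive_congr i h).2 h6)
      rw [Set.indicator_of_notMem (show ω ∉ {ω | AliveQ D i ω} from h4),
        Set.indicator_of_notMem (show ω' ∉ {ω | AliveQ D i ω} from h5)]
  have hsplit : ∫⁻ ω, H ω (shift i ω) ∂(PQ μ ν) = ∫⁻ ω, ∫⁻ η, H ω η ∂(PQ μ ν) ∂(PQ μ ν) :=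
    lintegral_split (μ.prod ν) i H hH hHdep
  have hle : ∫⁻ ω in {ω | AliveQ D (i + w) ω}, G (shift i ω) * f (nz σ (i + w) ω) *
      ENNReal.ofReal (hit D (stepLaw μ ν σ) m (nz σ (i + w) ω)) ∂(PQ μ ν) ≤
      ∫⁻ ω, H ω (shift i ω) ∂(PQ μ ν) := by
    rw [← lintegral_indicator (measurableSet_aliveQ hD (i + w))]
    refine lintegral_mono fun ω => ?_
    by_cases h1 : AliveQ D (i + w) ω
    · have h2 : AliveQ D i ω := fun j hj1 hj2 => h1 j hj1 (by omega)
      have h3 : nz σ (i + w) ω ∈ D := (Zw_mem hD hQ.pos _ _).1 (h1 (i + w) (by omega) le_rfl)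
      have h4 : nz σ (i + w) ω = nz σ i ω + nz σ w (shift i ω) := nz_add i w ω
      show {ω | AliveQ D (i + w) ω}.indicator (fun ω => G (shift i ω) * f (nz σ (i + w) ω) *
        ENNReal.ofReal (hit D (stepLaw μ ν σ) m (nz σ (i + w) ω))) ω ≤
        {ω | AliveQ D i ω}.indicator (fun ω' => g (nz σ i ω' + nz σ w (shift i ω))) ω *
          G (shift i ω)
      rw [Set.indicator_of_mem (show ω ∈ {ω | AliveQ D (i + w) ω} from h1),
        Set.indicator_of_mem (show ω ∈ {ω | AliveQ D i ω} from h2), ← h4]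
      show _ ≤ D.indicator (fun x => f x * ENNReal.ofReal (hit D (stepLaw μ ν σ) m x))
        (nz σ (i + w) ω) * G (shift i ω)
      rw [Set.indicator_of_mem h3]
      apply le_of_eq
      ring
    · rw [Set.indicator_of_notMem (show ω ∉ {ω | AliveQ D (i + w) ω} from h1)]
      exact zero_le
  refine hle.trans ?_
  rw [hsplit, lintegral_lintegral_swap hH.aemeasurable]
  apply le_of_eq
  refine lintegral_congr fun η => ?_
  have hgη : Measurable (fun x => g (x + nz σ w η)) := hg.comp (measurable_add_const _)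
  have h6 : ∫⁻ ω, H ω η ∂(PQ μ ν) = (∫⁻ ω in {ω | AliveQ D i ω}, g (nz σ i ω + nz σ w η)
      ∂(PQ μ ν)) * G η := by
    rw [← lintegral_indicator hAm]
    exact lintegral_mul_const _ ((hgη.comp (measurable_nz i)).indicator hAm)
  rw [h6, lintegral_alive hD hQ i (fun x => g (x + nz σ w η)) hgη, mul_comm]
  congr 1
  have hms : MeasurableSet {y : ℝ | y + nz σ w η ∈ D} := (measurable_add_const _) hD.meas
  rw [← lintegral_indicator hms]
  refine lintegral_congr fun y => ?_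
  by_cases hy : y + nz σ w η ∈ D
  · rw [Set.indicator_of_mem (show y ∈ {y : ℝ | y + nz σ w η ∈ D} from hy)]
    show D.indicator (fun x => f x * ENNReal.ofReal (hit D (stepLaw μ ν σ) m x))
      (y + nz σ w η) = _
    rw [Set.indicator_of_mem hy]
  · rw [Set.indicator_of_notMem (show y ∉ {y : ℝ | y + nz σ w η ∈ D} from hy)]
    show D.indicator (fun x => f x * ENNReal.ofReal (hit D (stepLaw μ ν σ) m x))
      (y + nz σ w η) = _
    rw [Set.indicator_of_notMem hy]

end Pool.Agent.BPT
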