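import Pool.Agent.MP_99a865_pr.FV.F1
import Pool.Agent.MP_99a865_pr.FV.A4

open MeasureTheory ProbabilityTheory Filter Topology
open scoped ENNReal NNReal

namespace Pool.Agent.BPT

variable {D : Set ℝ} {μ ν : Measure ℝ} {σ : ℝ}

theorem F6a_S (k : ℕ) : Measurable (S k) := by
  unfold S
  exact Finset.measurable_sum _ fun i _ => measurable_pi_apply i

theorem F6a_meas (w : ℕ) (a : ℝ) : MeasurableSet {ω : ℕ → ℝ | ∃ j ≤ w, a ≤ |S j ω|} := by
  have h : {ω : ℕ → ℝ | ∃ j ≤ w, a ≤ |S j ω|} = ⋃ j ∈ Finset.range (w + 1), {ω | a ≤ |S j ω|} := by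
    ext ω
    simp only [Set.mem_setOf_eq, Set.mem_iUnion, Finset.mem_range, exists_prop, Nat.lt_succ_iff]
  rw [h]
  exact Finset.measurableSet_biUnion _ fun j _ => measurableSet_le measurable_const (F6a_S j).abs

theorem F6a_kolm (hQ : QStd μ ν σ) (w : ℕ) (z : ℝ) (hz : 0 < z) :
    (PQ μ ν).real {η | ∃ j ≤ w, z / 4 ≤ |nz σ j η|} ≤ w / (z / 4) ^ 2 := by
  have h1 : {η : ℕ → ℝ × ℝ | ∃ j ≤ w, z / 4 ≤ |nz σ j η|} =
      steps σ ⁻¹' {ω : ℕ → ℝ | ∃ j ≤ w, z / 4 ≤ |S j ω|} := by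
    ext η
    simp only [Set.mem_setOf_eq, Set.mem_preimage, nz_eq]
  rw [h1, ← map_measureReal_apply measurable_steps (F6a_meas w _), map_steps hQ]
  exact kolm hQ.std w (z / 4) (by positivity)

theorem measurableSet_BW (w : ℕ) (z : ℝ) : MeasurableSet (BW σ w z) := by
  have h : BW σ w z = {η | 4 * (w : ℝ) ≤ Dp w η} ∪
      ⋃ j ∈ Finset.range (w + 1), {η | z / 4 ≤ |nz σ j η|} := by
    ext ω
    simp only [BW, Set.mem_setOf_eq, Set.mem_union, Set.mem_iUnion, Finset.mem_range, exists_prop,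
      Nat.lt_succ_iff]
  rw [h]
  exact (measurableSet_le measurable_const (measurable_Dp w)).union
    (Finset.measurableSet_biUnion _ fun j _ =>
      measurableSet_le measurable_const (measurable_nz j).abs)

theorem F6a_prob (hQ : QStd μ ν σ) (z : ℝ) (hz : 0 < z) (w : ℕ) (hw : w = ⌊σ * z / 4⌋₊)
    (hw1 : 1 ≤ w) : (PQ μ ν).real (BW σ w z) ≤ 5 * σ / z ∧ (w : ℝ) ≤ σ * z / 4 := by
  have := hQ.probμ
  have := hQ.probν
  have hσ := hQ.pos
  have h0 : 0 ≤ σ * z / 4 := by positivity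
  have h1 : (w : ℝ) ≤ σ * z / 4 := by
    rw [hw]
    exact Nat.floor_le h0
  have h2 : σ * z / 8 ≤ w := by
    have h3 : σ * z / 4 < (w : ℝ) + 1 := by
      rw [hw]
      exact Nat.lt_floor_add_one _
    have h4 : (1 : ℝ) ≤ w := by exact_mod_cast hw1
    linarith
  refine ⟨?_, h1⟩
  have hwpos : (0 : ℝ) < w := by exact_mod_cast hw1
  have h3 : (PQ μ ν).real (BW σ w z) ≤ (PQ μ ν).real {η | 4 * (w : ℝ) ≤ Dp w η} +
      (PQ μ ν).real {η | ∃ j ≤ w, z / 4 ≤ |nz σ j η|} := by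
    have h : BW σ w z = {η | 4 * (w : ℝ) ≤ Dp w η} ∪ {η | ∃ j ≤ w, z / 4 ≤ |nz σ j η|} := rfl
    rw [h]
    exact measureReal_union_le _ _
  have h4 := Dp_cheb hQ w hw1
  have h5 := F6a_kolm hQ w z hz
  have h6 : σ ^ 2 / (9 * w) ≤ σ / z := by
    rw [div_le_div_iff₀ (by positivity) hz]
    nlinarith [mul_pos hσ hz, mul_pos hσ hwpos]
  have h7 : (w : ℝ) / (z / 4) ^ 2 ≤ 4 * σ / z := by
    rw [div_le_div_iff₀ (by positivity) hz]
    nlinarith [mul_pos hz hz, mul_pos hσ hz]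
  calc (PQ μ ν).real (BW σ w z) ≤ σ / z + 4 * σ / z := by linarith
    _ = 5 * σ / z := by ring

/-- **[FV-F6a]** `P(BW) ≤ C/z` for `w = ⌊σz/4⌋ ≥ 1`; (`Dp_cheb`, `kolm` through `map_steps`:
`σ²/(9w) + 16w/z²`, `σz/8 ≤ w ≤ σz/4`). Also `∫_{BW} |nz w| ≤ √w √P(BW) ≤ C` (Cauchy–Schwarz). -/
theorem prob_BW (hQ : QStd μ ν σ) : ∃ C > (0 : ℝ), ∀ z : ℝ, 0 < z → ∀ w : ℕ, w = ⌊σ * z / 4⌋₊ → 1 ≤ w →
    (PQ μ ν).real (BW σ w z) ≤ C / z ∧
    ∫⁻ η in BW σ w z, ENNReal.ofReal |nz σ w η| ∂(PQ μ ν) ≤ ENNReal.ofReal C := by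
  have := hQ.probμ
  have := hQ.probν
  have hσ := hQ.pos
  refine ⟨6 * σ, by positivity, ?_⟩
  intro z hz w hw hw1
  obtain ⟨h1, h2⟩ := F6a_prob hQ z hz w hw hw1
  refine ⟨h1.trans (by gcongr; norm_num), ?_⟩
  have h3 : ∀ x : ℝ, ENNReal.ofReal |x| ≤ ENNReal.ofReal (1 / z) * ENNReal.ofReal (x ^ 2) +
      ENNReal.ofReal z := by
    intro x
    rw [← ENNReal.ofReal_mul (by positivity), ← ENNReal.ofReal_add (by positivity) hz.le]
    apply ENNReal.ofReal_le_ofReal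
    rcases le_total |x| z with h | h
    · have : 0 ≤ 1 / z * x ^ 2 := by positivity
      linarith
    · have h4 : |x| ≤ 1 / z * x ^ 2 := by
        rw [one_div, ← sq_abs, inv_mul_eq_div, le_div_iff₀ hz, pow_two]
        exact mul_le_mul_of_nonneg_left h (abs_nonneg x)
      linarith
  calc ∫⁻ η in BW σ w z, ENNReal.ofReal |nz σ w η| ∂(PQ μ ν)
      ≤ ∫⁻ η in BW σ w z, (ENNReal.ofReal (1 / z) * ENNReal.ofReal ((nz σ w η) ^ 2) +
        ENNReal.ofReal z) ∂(PQ μ ν) := lintegral_mono fun η => h3 _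
    _ = ENNReal.ofReal (1 / z) * ∫⁻ η in BW σ w z, ENNReal.ofReal ((nz σ w η) ^ 2) ∂(PQ μ ν) +
        ENNReal.ofReal z * (PQ μ ν) (BW σ w z) := by
        rw [lintegral_add_right _ measurable_const, lintegral_const_mul', setLIntegral_const]
        exact ENNReal.ofReal_ne_top
    _ ≤ ENNReal.ofReal (1 / z) * w + ENNReal.ofReal z * (PQ μ ν) (BW σ w z) := by
        gcongr
        exact (setLIntegral_le_lintegral _ _).trans (nz_sq hQ w).le
    _ ≤ ENNReal.ofReal (1 / z) * ENNReal.ofReal (σ * z / 4) +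
        ENNReal.ofReal z * ENNReal.ofReal (5 * σ / z) := by
        gcongr
        · rw [← ENNReal.ofReal_natCast]
          exact ENNReal.ofReal_le_ofReal h2
        · rw [← ofReal_measureReal]
          exact ENNReal.ofReal_le_ofReal h1
    _ ≤ ENNReal.ofReal (6 * σ) := by
        rw [← ENNReal.ofReal_mul (by positivity), ← ENNReal.ofReal_mul hz.le,
          ← ENNReal.ofReal_add (by positivity) (by positivity)]
        apply ENNReal.ofReal_le_ofReal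
        have e1 : 1 / z * (σ * z / 4) = σ / 4 := by field_simp
        have e2 : z * (5 * σ / z) = 5 * σ := by field_simp
        rw [e1, e2]
        linarith

end Pool.Agent.BPT
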