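import Pool.Agent.MP_99a865_pr.FV.F5

open MeasureTheory ProbabilityTheory Filter Topology
open scoped ENNReal NNReal

namespace Pool.Agent.BPT

variable {D : Set ℝ} {μ ν : Measure ℝ} {σ : ℝ}

/-- **[FV-F6b]** Good boundaries are rare: pointwise (on `EvN D n`, `NN`), for `w = ⌊σz/4⌋ ≥ 1`,
`w · #{b ∈ [w, n) : Bd b, z ≤ nz b < 2z, shift (b-w) ω ∉ BW} ≤ #{i < n : nz i < 3z}`.
PROOF. For such a `b` there is no boundary in `[b-w, b)`: otherwise `Zw_le_of_gap` gives
`4w ≤ σz ≤ Zw b ≤ Dp b - Dp (b-w) < 4w`. For `i ∈ [b-w, b)`,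
`|nz b - nz i| < z/4 + z/4` (both increments over the window starting at `b - w`), so `nz i < 3z`. The
intervals `[b-w, b)` of different such `b` are disjoint subsets of `[0, n)`. -/
theorem good_count (hD : Dom D) (hσ : 0 < σ) {n : ℕ} {ω : ℕ → ℝ × ℝ} (hN : ω ∈ EvN D n) (hnn : NN ω)
    {z : ℝ} (hz : 0 < z) {w : ℕ} (hw : w = ⌊σ * z / 4⌋₊) (hw1 : 1 ≤ w) (s : Finset ℕ)
    (hs : ∀ b ∈ s, w ≤ b ∧ b < n ∧ Bd D ω b ∧ z ≤ nz σ b ω ∧ nz σ b ω < 2 * z ∧
      shift (b - w) ω ∉ BW σ w z) :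
    w * s.card ≤ cOcc σ n (3 * z) ω := by
  classical
  have hwz : 4 * (w : ℝ) ≤ σ * z := by
    have h1 : (w : ℝ) ≤ σ * z / 4 := by
      rw [hw]
      exact Nat.floor_le (by positivity)
    linarith
  have key : ∀ b ∈ s, ∀ c, b - w ≤ c → c < b → ¬ Bd D ω c := by
    intro b hb c hc1 hc2 hc
    obtain ⟨h1, h2, h3, h4, h5, h6⟩ := hs b hb
    have hZ : Zw b ω ≤ Dp b ω - Dp (b - w) ω := by
      rcases Nat.eq_or_lt_of_le h1 with h | h
      · rw [h, Nat.sub_self]
        have e1 : Dp 0 ω = 0 := by simp [Dp]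
        have e2 : 0 ≤ Ar b ω := Finset.sum_nonneg (fun i _ => (hnn i).1)
        unfold Zw
        linarith
      · exact Zw_le_of_gap hD hnn h3 h ⟨c, hc1, hc2, hc⟩
    have e3 : Dp b ω = Dp (b - w) ω + Dp w (shift (b - w) ω) := by
      rw [← Dp_add, Nat.sub_add_cancel h1]
    have h7 : ¬ (4 * (w : ℝ) ≤ Dp w (shift (b - w) ω)) := fun h => h6 (Or.inl h)
    have h8 : σ * z ≤ Zw b ω := by
      have : z ≤ Zw b ω / σ := h4
      rw [le_div_iff₀ hσ] at this
      linarith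
    push Not at h7
    linarith
  have hdisj : Set.PairwiseDisjoint (s : Set ℕ) (fun b => Finset.Ico (b - w) b) := by
    have aux : ∀ b ∈ s, ∀ b' ∈ s, b < b' → Disjoint (Finset.Ico (b - w) b) (Finset.Ico (b' - w) b') := by
      intro b hb b' hb' hlt
      have h1 : b < b' - w := by
        by_contra h
        push Not at h
        exact key b' hb' b h hlt (hs b hb).2.2.1
      rw [Finset.disjoint_left]
      intro x hx hx'
      rw [Finset.mem_Ico] at hx hx'
      omega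
    intro b hb b' hb' hne
    rcases lt_or_gt_of_ne hne with h | h
    · exact aux b hb b' hb' h
    · exact (aux b' hb' b hb h).symm
  have hcard : (s.biUnion (fun b => Finset.Ico (b - w) b)).card = w * s.card := by
    rw [Finset.card_biUnion hdisj]
    rw [Finset.sum_congr rfl (g := fun _ => w)]
    · rw [Finset.sum_const, smul_eq_mul, mul_comm]
    · intro b hb
      have := (hs b hb).1
      rw [Nat.card_Ico]
      omega
  rw [← hcard]
  unfold cOcc
  apply Finset.card_le_card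
  intro i hi
  rw [Finset.mem_biUnion] at hi
  obtain ⟨b, hb, hi⟩ := hi
  rw [Finset.mem_Ico] at hi
  obtain ⟨h1, h2, h3, h4, h5, h6⟩ := hs b hb
  rw [Finset.mem_filter, Finset.mem_range]
  refine ⟨by omega, ?_⟩
  have e1 : nz σ i ω = nz σ (b - w) ω + nz σ (i - (b - w)) (shift (b - w) ω) := by
    rw [← nz_add, Nat.add_sub_cancel' hi.1]
  have e2 : nz σ b ω = nz σ (b - w) ω + nz σ w (shift (b - w) ω) := by
    rw [← nz_add, Nat.sub_add_cancel h1]
  have h7 : ∀ j ≤ w, |nz σ j (shift (b - w) ω)| < z / 4 := by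
    intro j hj
    by_contra h
    push Not at h
    exact h6 (Or.inr ⟨j, hj, h⟩)
  have e3 := abs_lt.1 (h7 (i - (b - w)) (by omega))
  have e4 := abs_lt.1 (h7 w le_rfl)
  linarith [e3.1, e3.2, e4.1, e4.2]

end Pool.Agent.BPT
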