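import Pool.Agent.MP_99a865_pr.FV.F6a
import Pool.Agent.MP_99a865_pr.FV.F6b
import Pool.Agent.MP_99a865_pr.FV.F4

open MeasureTheory ProbabilityTheory Filter Topology
open scoped ENNReal NNReal

namespace Pool.Agent.BPT

variable {D : Set ℝ} {μ ν : Measure ℝ} {σ : ℝ}

theorem F6c_nz_dep (j w : ℕ) (hj : j ≤ w) (ω ω' : ℕ → ℝ × ℝ) (h : ∀ i < w, ω i = ω' i) :
    nz σ j ω = nz σ j ω' ∧ Dp j ω = Dp j ω' := by
  have h1 : Dp j ω = Dp j ω' := by
    unfold Dp
    refine Finset.sum_congr rfl fun i hi => ?_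
    rw [h i (by have := Finset.mem_range.mp hi; omega)]
  have h2 : Ar j ω = Ar j ω' := by
    unfold Ar
    refine Finset.sum_congr rfl fun i hi => ?_
    rw [h i (by have := Finset.mem_range.mp hi; omega)]
  refine ⟨?_, h1⟩
  rw [nz, nz, Zw, Zw, h1, h2]

theorem F6c_BW_dep (w : ℕ) (z : ℝ) (ω ω' : ℕ → ℝ × ℝ) (h : ∀ i < w, ω i = ω' i) :
    ω ∈ BW σ w z ↔ ω' ∈ BW σ w z := by
  have h1 := fun j (hj : j ≤ w) => F6c_nz_dep (σ := σ) j w hj ω ω' h
  simp only [BW, Set.mem_ofPred_eq]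
  rw [(h1 w le_rfl).2]
  constructor
  · rintro (h2 | ⟨j, hj, h3⟩)
    · exact Or.inl h2
    · exact Or.inr ⟨j, hj, by rw [← (h1 j hj).1]; exact h3⟩
  · rintro (h2 | ⟨j, hj, h3⟩)
    · exact Or.inl h2
    · exact Or.inr ⟨j, hj, by rw [(h1 j hj).1]; exact h3⟩

theorem F6c_tele (m : ℕ) (hm : 1 ≤ m) :
    1 / (((m + 1 : ℕ) : ℝ) * √((m + 1 : ℕ) : ℝ)) ≤ 2 * (1 / √(m : ℝ) - 1 / √((m + 1 : ℕ) : ℝ)) := by
  have hm0 : (0 : ℝ) < m := by exact_mod_cast hm
  have hm1 : (0 : ℝ) < ((m + 1 : ℕ) : ℝ) := by positivity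
  set a := √(m : ℝ) with ha
  set b := √((m + 1 : ℕ) : ℝ) with hb
  have ha0 : 0 < a := Real.sqrt_pos.mpr hm0
  have hb0 : 0 < b := Real.sqrt_pos.mpr hm1
  have ha2 : a * a = m := Real.mul_self_sqrt hm0.le
  have hb2 : b * b = ((m + 1 : ℕ) : ℝ) := Real.mul_self_sqrt hm1.le
  have hab : a ≤ b := Real.sqrt_le_sqrt (by push_cast; linarith)
  have h1 : b * b - a * a = 1 := by rw [ha2, hb2]; push_cast; ring
  have h2 : 1 / a - 1 / b = 1 / (a * b * (a + b)) := by
    have : b - a = 1 / (a + b) := by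
      rw [eq_div_iff (by positivity)]; linarith
    calc 1 / a - 1 / b = (b - a) / (a * b) := by field_simp
      _ = _ := by rw [this]; field_simp
  rw [h2, ← hb2]
  have h3 : a * b * (a + b) ≤ 2 * (b * b * b) := by
    have h4 : a * b ≤ b * b := mul_le_mul_of_nonneg_right hab hb0.le
    have h5 : a + b ≤ 2 * b := by linarith
    calc a * b * (a + b) ≤ b * b * (2 * b) := mul_le_mul h4 h5 (by positivity) (by positivity)
      _ = _ := by ring
  calc 1 / (b * b * b) = 2 * (1 / (2 * (b * b * b))) := by field_simp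
    _ ≤ _ := mul_le_mul_of_nonneg_left (one_div_le_one_div_of_le (by positivity) h3) (by norm_num)

theorem F6c_tele_sum (M B : ℕ) (hM : 1 ≤ M) :
    ∑ m ∈ Finset.Ico (M + 1) (B + 1), 1 / ((m : ℝ) * √(m : ℝ)) ≤ 2 / √(M : ℝ) := by
  rcases le_or_gt M B with hMB | hMB
  · have h1 : ∑ m ∈ Finset.Ico (M + 1) (B + 1), 1 / ((m : ℝ) * √(m : ℝ)) =
        ∑ m ∈ Finset.Ico M B, 1 / (((m + 1 : ℕ) : ℝ) * √((m + 1 : ℕ) : ℝ)) :=
      (Finset.sum_Ico_add' (fun m : ℕ => 1 / ((m : ℝ) * √(m : ℝ))) M B 1).symm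
    rw [h1]
    have h2 : ∀ B, M ≤ B → ∑ m ∈ Finset.Ico M B, 1 / (((m + 1 : ℕ) : ℝ) * √((m + 1 : ℕ) : ℝ)) ≤
        2 * (1 / √(M : ℝ) - 1 / √(B : ℝ)) := by
      intro B hB
      induction B, hB using Nat.le_induction with
      | base => simp
      | succ B hB ih =>
        rw [Finset.sum_Ico_succ_top hB]
        have := F6c_tele B (hM.trans hB)
        linarith
    refine (h2 B hMB).trans ?_
    have : 0 ≤ 1 / √(B : ℝ) := by positivity
    have h3 : 2 * (1 / √(M : ℝ)) = 2 / √(M : ℝ) := by ring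
    linarith
  · rw [Finset.Ico_eq_empty (by omega), Finset.sum_empty]
    positivity

/-- the sum of the suprema -/
theorem F6c_hitsum (z : ℝ) (hz : 1 ≤ z) (s : Finset ℕ) (hs : ∀ m ∈ s, 1 ≤ m) :
    ∑ m ∈ s, min ((1 + 2 * z) / ((m : ℝ) * √(m : ℝ))) (1 / (1 + z) ^ 2) ≤ 9 := by
  set M : ℕ := ⌊(1 + z) ^ 2⌋₊ with hM
  have hq : (4 : ℝ) ≤ (1 + z) ^ 2 := by nlinarith
  have hM1 : (M : ℝ) ≤ (1 + z) ^ 2 := Nat.floor_le (by positivity)
  have hM2 : (1 + z) ^ 2 < (M : ℝ) + 1 := Nat.lt_floor_add_one _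
  have hM3 : 1 ≤ M := by
    have : (0 : ℝ) < M := by linarith
    exact_mod_cast this
  rw [← Finset.sum_filter_add_sum_filter_not s (fun m => m ≤ M)]
  have h1 : ∑ m ∈ s.filter (fun m => m ≤ M),
      min ((1 + 2 * z) / ((m : ℝ) * √(m : ℝ))) (1 / (1 + z) ^ 2) ≤ 1 := by
    calc _ ≤ ∑ m ∈ s.filter (fun m => m ≤ M), 1 / (1 + z) ^ 2 :=
          Finset.sum_le_sum fun m _ => min_le_right _ _
      _ = ((s.filter (fun m => m ≤ M)).card : ℝ) * (1 / (1 + z) ^ 2) := by
          rw [Finset.sum_const, nsmul_eq_mul]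
      _ ≤ (M : ℝ) * (1 / (1 + z) ^ 2) := by
          refine mul_le_mul_of_nonneg_right ?_ (by positivity)
          have h2 : s.filter (fun m => m ≤ M) ⊆ Finset.Icc 1 M := by
            intro m hm
            have := Finset.mem_filter.mp hm
            exact Finset.mem_Icc.mpr ⟨hs m this.1, this.2⟩
          have h3 := Finset.card_le_card h2
          rw [Nat.card_Icc] at h3
          exact_mod_cast (by omega : (s.filter (fun m => m ≤ M)).card ≤ M)
      _ ≤ 1 := by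
          rw [mul_one_div, div_le_one (by positivity)]
          exact hM1
  have h2 : ∑ m ∈ s.filter (fun m => ¬ m ≤ M),
      min ((1 + 2 * z) / ((m : ℝ) * √(m : ℝ))) (1 / (1 + z) ^ 2) ≤ 8 := by
    set B := s.sup id with hB
    have h3 : s.filter (fun m => ¬ m ≤ M) ⊆ Finset.Ico (M + 1) (B + 1) := by
      intro m hm
      have h4 := Finset.mem_filter.mp hm
      have h5 : m ≤ B := Finset.le_sup (f := id) h4.1
      exact Finset.mem_Ico.mpr ⟨by omega, by omega⟩
    calc _ ≤ ∑ m ∈ s.filter (fun m => ¬ m ≤ M), (1 + 2 * z) / ((m : ℝ) * √(m : ℝ)) :=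
          Finset.sum_le_sum fun m _ => min_le_left _ _
      _ ≤ ∑ m ∈ Finset.Ico (M + 1) (B + 1), (1 + 2 * z) / ((m : ℝ) * √(m : ℝ)) :=
          Finset.sum_le_sum_of_subset_of_nonneg h3 fun m _ _ => by positivity
      _ = (1 + 2 * z) * ∑ m ∈ Finset.Ico (M + 1) (B + 1), 1 / ((m : ℝ) * √(m : ℝ)) := by
          rw [Finset.mul_sum]
          exact Finset.sum_congr rfl fun m _ => by rw [mul_one_div]
      _ ≤ (1 + 2 * z) * (2 / √(M : ℝ)) :=
          mul_le_mul_of_nonneg_left (F6c_tele_sum M B hM3) (by positivity)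
      _ ≤ (1 + 2 * z) * (2 / ((1 + z) / 2)) := by
          refine mul_le_mul_of_nonneg_left ?_ (by positivity)
          refine div_le_div_of_nonneg_left (by norm_num) (by positivity) ?_
          refine Real.le_sqrt_of_sq_le ?_
          nlinarith
      _ ≤ 8 := by
          rw [show (1 + 2 * z) * (2 / ((1 + z) / 2)) = 4 * (1 + 2 * z) / (1 + z) by field_simp; ring,
            div_le_iff₀ (by positivity)]
          linarith
  linarith

/-- local bound for longer windows -/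
theorem F6c_winlong {ρ : Measure ℝ} (hD : Dom D) (hρ : Std ρ) : ∃ C > (0 : ℝ), ∀ i : ℕ, 1 ≤ i →
    ∀ u L : ℝ, 0 ≤ L → kap D ρ i 0 (Set.Ico u (u + L)) ≤
      ENNReal.ofReal (C * ((2 + L) * (1 + |u| + L) / (i * √i))) := by
  have := hρ.prob
  obtain ⟨C, hC, hwin⟩ := win hD hρ
  refine ⟨C, hC, fun i hi u L hL => ?_⟩
  have hi0 : (0 : ℝ) < i := by exact_mod_cast hi
  have hsi : 0 < √(i : ℝ) := Real.sqrt_pos.mpr hi0
  set A : ℕ := ⌊u⌋₊ with hA
  set B : ℕ := ⌊u + L⌋₊ with hB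
  have hsub : Set.Ico u (u + L) ⊆ Dᶜ ∪ ⋃ a ∈ Finset.Icc A B, Set.Ico (a : ℝ) (a + 1) := by
    intro y hy
    by_cases hyD : y ∈ D
    · right
      have hy0 := hD.nonneg hyD
      simp only [Set.mem_iUnion]
      refine ⟨⌊y⌋₊, Finset.mem_Icc.mpr ⟨Nat.floor_le_floor hy.1, Nat.floor_le_floor hy.2.le⟩, ?_⟩
      exact ⟨Nat.floor_le hy0, Nat.lt_floor_add_one y⟩
    · left; exact hyD
  have hBle : (B : ℝ) ≤ |u| + L := by
    rcases le_or_gt 0 (u + L) with h | h
    · exact (Nat.floor_le h).trans (by linarith [le_abs_self u])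
    · rw [hB, Nat.floor_of_nonpos h.le]
      have := abs_nonneg u
      push_cast
      linarith
  have hcard : ((Finset.Icc A B).card : ℝ) ≤ 2 + L := by
    rw [Nat.card_Icc]
    rcases le_or_gt A (B + 1) with hAB | hAB
    · rw [Nat.cast_sub hAB]
      push_cast
      rcases le_or_gt 0 u with h | h
      · have h1 : (B : ℝ) ≤ u + L := Nat.floor_le (by linarith)
        have h2 : u < A + 1 := Nat.lt_floor_add_one u
        linarith
      · have h1 : A = 0 := Nat.floor_of_nonpos h.le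
        have h2 : (B : ℝ) ≤ L := by
          rcases le_or_gt 0 (u + L) with h3 | h3
          · exact (Nat.floor_le h3).trans (by linarith)
          · rw [hB, Nat.floor_of_nonpos h3.le]; push_cast; linarith
        rw [h1]; push_cast; linarith
    · rw [Nat.sub_eq_zero_of_le hAB.le]; push_cast; linarith
  have hpt : ∀ a ∈ Finset.Icc A B, kap D ρ i 0 (Set.Ico (a : ℝ) (a + 1)) ≤
      ENNReal.ofReal (C * (1 + |u| + L) / (i * √i)) := by
    intro a ha
    have h1 := (hwin i hi 0 a le_rfl (Nat.cast_nonneg a)).2.2.2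
    have h2 : kap D ρ i 0 (Set.Ico (a : ℝ) (a + 1)) =
        ENNReal.ofReal ((kap D ρ i 0).real (Set.Ico (a : ℝ) (a + 1))) := by
      rw [Measure.real, ENNReal.ofReal_toReal (measure_ne_top _ _)]
    rw [h2]
    refine ENNReal.ofReal_le_ofReal (h1.trans ?_)
    refine div_le_div_of_nonneg_right ?_ (by positivity)
    have h3 : (a : ℝ) ≤ B := by exact_mod_cast (Finset.mem_Icc.mp ha).2
    rw [add_zero, mul_one]
    refine mul_le_mul_of_nonneg_left ?_ hC.le
    linarith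
  calc kap D ρ i 0 (Set.Ico u (u + L)) ≤
        kap D ρ i 0 (Dᶜ ∪ ⋃ a ∈ Finset.Icc A B, Set.Ico (a : ℝ) (a + 1)) := measure_mono hsub
    _ ≤ kap D ρ i 0 Dᶜ + kap D ρ i 0 (⋃ a ∈ Finset.Icc A B, Set.Ico (a : ℝ) (a + 1)) :=
        measure_union_le _ _
    _ ≤ 0 + ∑ a ∈ Finset.Icc A B, kap D ρ i 0 (Set.Ico (a : ℝ) (a + 1)) :=
        add_le_add (le_of_eq (kap_compl hD i 0 (Or.inl hi))) (measure_biUnion_finset_le _ _)
    _ ≤ ∑ a ∈ Finset.Icc A B, ENNReal.ofReal (C * (1 + |u| + L) / (i * √i)) := by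
        rw [zero_add]; exact Finset.sum_le_sum hpt
    _ = ENNReal.ofReal ((Finset.Icc A B).card * (C * (1 + |u| + L) / (i * √i))) := by
        rw [Finset.sum_const, nsmul_eq_mul, ENNReal.ofReal_mul (Nat.cast_nonneg _),
          ENNReal.ofReal_natCast]
    _ ≤ _ := by
        refine ENNReal.ofReal_le_ofReal ?_
        have h4 : 0 ≤ C * (1 + |u| + L) / (i * √i) := by
          have := abs_nonneg u
          positivity
        refine (mul_le_mul_of_nonneg_right hcard h4).trans (le_of_eq ?_)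
        ring

/-- `(m √m)` for `m ≥ n/2` -/
theorem F6c_half (n m : ℕ) (hm : n ≤ 2 * m) (hn : 1 ≤ n) :
    (n : ℝ) * √(n : ℝ) ≤ 4 * ((m : ℝ) * √(m : ℝ)) := by
  have hm' : (n : ℝ) ≤ 2 * m := by exact_mod_cast hm
  have hn0 : (0 : ℝ) < n := by exact_mod_cast hn
  have h1 : √(n : ℝ) ≤ 2 * √(m : ℝ) := by
    refine Real.sqrt_le_iff.mpr ⟨by positivity, ?_⟩
    rw [mul_pow, Real.sq_sqrt (Nat.cast_nonneg m)]
    linarith [Nat.cast_nonneg (α := ℝ) m]
  calc (n : ℝ) * √(n : ℝ) ≤ (2 * m) * (2 * √(m : ℝ)) :=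
        mul_le_mul hm' h1 (Real.sqrt_nonneg _) (by positivity)
    _ = _ := by ring

theorem F6c_quarter (n m : ℕ) (hm : n ≤ 4 * m) (hn : 1 ≤ n) :
    (n : ℝ) * √(n : ℝ) ≤ 8 * ((m : ℝ) * √(m : ℝ)) := by
  have hm' : (n : ℝ) ≤ 4 * m := by exact_mod_cast hm
  have hn0 : (0 : ℝ) < n := by exact_mod_cast hn
  have h1 : √(n : ℝ) ≤ 2 * √(m : ℝ) := by
    refine Real.sqrt_le_iff.mpr ⟨by positivity, ?_⟩
    rw [mul_pow, Real.sq_sqrt (Nat.cast_nonneg m)]
    linarith [Nat.cast_nonneg (α := ℝ) m]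
  calc (n : ℝ) * √(n : ℝ) ≤ (4 * m) * (2 * √(m : ℝ)) :=
        mul_le_mul hm' h1 (Real.sqrt_nonneg _) (by positivity)
    _ = _ := by ring

/-- Chebyshev for the normalised walk of the queue -/
theorem F6c_cheb (hQ : QStd μ ν σ) (k : ℕ) (a : ℝ) (ha : 0 < a) :
    PQ μ ν {ω | a ≤ |nz σ k ω|} ≤ ENNReal.ofReal (k / a ^ 2) := by
  have hρ := hQ.std
  have := hρ.prob
  have h1 := cheb hρ k a ha
  have h2 : {ω : ℕ → ℝ × ℝ | a ≤ |nz σ k ω|} = (steps σ) ⁻¹' {ω | a ≤ |S k ω|} := by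
    ext ω
    simp only [Set.mem_ofPred_eq, Set.mem_preimage, nz_eq]
  have hmeas : MeasurableSet {ω : ℕ → ℝ | a ≤ |S k ω|} :=
    measurableSet_le measurable_const (measurable_S k).abs
  rw [h2, ← Measure.map_apply measurable_steps hmeas, map_steps hQ]
  rw [Measure.real] at h1
  rwa [ENNReal.le_ofReal_iff_toReal_le (measure_ne_top _ _) (by positivity)]

/-- part (a): boundaries before `w` -/
theorem F6c_a (hD : Dom D) (hQ : QStd μ ν σ) : ∃ C > (0 : ℝ), ∀ (n w : ℕ) (z : ℝ), 1 ≤ n →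
    1 ≤ z → (w : ℝ) ≤ σ * z / 4 → 4 * w ≤ n →
    ∑ b ∈ Finset.range w, ∫⁻ ω in EvN D n, (Set.Ico z (2 * z)).indicator 1 (nz σ b ω) ∂(PQ μ ν) ≤
      ENNReal.ofReal (C * z / (n * √n)) := by
  have hρ := hQ.std
  have := hρ.prob
  have := hQ.probμ
  have := hQ.probν
  obtain ⟨C, hC, hhit⟩ := hit_bound hD hρ
  have hσ := hQ.pos
  refine ⟨12 * C * σ ^ 2 / 16, by positivity, fun n w z hn hz hw h4w => ?_⟩
  have hn0 : (0 : ℝ) < n := by exact_mod_cast hn
  have hsn : 0 < √(n : ℝ) := Real.sqrt_pos.mpr hn0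
  have hz0 : 0 < z := by linarith
  have hterm : ∀ b ∈ Finset.range w,
      ∫⁻ ω in EvN D n, (Set.Ico z (2 * z)).indicator 1 (nz σ b ω) ∂(PQ μ ν) ≤
      ENNReal.ofReal (4 * C * (1 + 2 * z) / (n * √n) * (w / z ^ 2)) := by
    intro b hb
    have hbw := Finset.mem_range.mp hb
    obtain ⟨m, hm⟩ : ∃ m, n = b + m := ⟨n - b, by omega⟩
    have hm1 : 1 ≤ m := by omega
    have hmeas : Measurable fun ω : ℕ → ℝ × ℝ =>
        (Set.Ico z (2 * z)).indicator (1 : ℝ → ℝ≥0∞) (nz σ b ω) :=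
      (measurable_one.indicator measurableSet_Ico).comp (measurable_nz b)
    have hmk := q_markov hD hQ b m hm1
      (fun ω => (Set.Ico z (2 * z)).indicator (1 : ℝ → ℝ≥0∞) (nz σ b ω)) hmeas (by
        intro ω ω' h
        rw [(F6c_nz_dep (σ := σ) b b le_rfl ω ω' h).1])
    rw [← hm] at hmk
    rw [hmk]
    have hhm : (n : ℝ) * √(n : ℝ) ≤ 4 * ((m : ℝ) * √(m : ℝ)) := F6c_half n m (by omega) hn
    have hm0 : (0 : ℝ) < m := by exact_mod_cast hm1
    have hsm : 0 < √(m : ℝ) := Real.sqrt_pos.mpr hm0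
    calc ∫⁻ ω in {ω | AliveQ D b ω}, (Set.Ico z (2 * z)).indicator 1 (nz σ b ω) *
          ENNReal.ofReal (hit D (stepLaw μ ν σ) m (nz σ b ω)) ∂(PQ μ ν)
        ≤ ∫⁻ ω, (Set.Ico z (2 * z)).indicator 1 (nz σ b ω) *
          ENNReal.ofReal (hit D (stepLaw μ ν σ) m (nz σ b ω)) ∂(PQ μ ν) :=
          setLIntegral_le_lintegral _ _
      _ ≤ ∫⁻ ω, ENNReal.ofReal (4 * C * (1 + 2 * z) / (n * √n)) *
            ({ω : ℕ → ℝ × ℝ | z ≤ |nz σ b ω|}).indicator 1 ω ∂(PQ μ ν) := by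
          refine lintegral_mono fun ω => ?_
          by_cases hmem : nz σ b ω ∈ Set.Ico z (2 * z)
          · rw [Set.indicator_of_mem hmem, Set.indicator_of_mem (by
              show z ≤ |nz σ b ω|
              exact hmem.1.trans (le_abs_self _))]
            simp only [Pi.one_apply, one_mul, mul_one]
            refine ENNReal.ofReal_le_ofReal ?_
            refine (hhit m hm1 (nz σ b ω) (hz0.le.trans hmem.1)).1.trans ?_
            rw [div_le_div_iff₀ (by positivity) (by positivity)]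
            have h1 : 1 + nz σ b ω ≤ 1 + 2 * z := by linarith [hmem.2.le]
            calc C * (1 + nz σ b ω) * (n * √n) ≤ C * (1 + 2 * z) * (4 * (m * √m)) := by
                  refine mul_le_mul (mul_le_mul_of_nonneg_left h1 hC.le) hhm (by positivity)
                    (by positivity)
              _ = _ := by ring
          · rw [Set.indicator_of_notMem hmem, zero_mul]
            exact zero_le
      _ = ENNReal.ofReal (4 * C * (1 + 2 * z) / (n * √n)) * PQ μ ν {ω | z ≤ |nz σ b ω|} := by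
          rw [lintegral_const_mul' _ _ ENNReal.ofReal_ne_top, lintegral_indicator_one]
          exact measurableSet_le measurable_const (measurable_nz b).abs
      _ ≤ ENNReal.ofReal (4 * C * (1 + 2 * z) / (n * √n)) * ENNReal.ofReal (b / z ^ 2) := by
          gcongr
          exact F6c_cheb hQ b z hz0
      _ = ENNReal.ofReal (4 * C * (1 + 2 * z) / (n * √n) * (b / z ^ 2)) :=
          (ENNReal.ofReal_mul (by positivity)).symm
      _ ≤ _ := by
          refine ENNReal.ofReal_le_ofReal ?_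
          have : (b : ℝ) ≤ w := by exact_mod_cast hbw.le
          gcongr
  refine (Finset.sum_le_sum hterm).trans ?_
  rw [Finset.sum_const, Finset.card_range, nsmul_eq_mul, ← ENNReal.ofReal_natCast,
    ← ENNReal.ofReal_mul (Nat.cast_nonneg _)]
  refine ENNReal.ofReal_le_ofReal ?_
  have h1 : 1 + 2 * z ≤ 3 * z := by linarith
  have hw0 : (0 : ℝ) ≤ w := Nat.cast_nonneg w
  have h2 : (w : ℝ) * w ≤ (σ * z / 4) * (σ * z / 4) := mul_le_mul hw hw hw0 (by positivity)
  calc (w : ℝ) * (4 * C * (1 + 2 * z) / (n * √n) * (w / z ^ 2)) =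
        4 * C * (1 + 2 * z) * (w * w) / (n * √n * z ^ 2) := by field_simp
    _ ≤ 4 * C * (3 * z) * ((σ * z / 4) * (σ * z / 4)) / (n * √n * z ^ 2) := by
        gcongr
    _ = _ := by field_simp; norm_num

open Classical in
/-- part (b): good boundaries -/
theorem F6c_b (hD : Dom D) (hQ : QStd μ ν σ) : ∃ C > (0 : ℝ), ∀ (n w : ℕ) (z : ℝ), 1 ≤ n →
    1 ≤ z → w = ⌊σ * z / 4⌋₊ → 1 ≤ w → σ * z / 8 ≤ w →
    ∫⁻ ω in EvN D n, (((Finset.range n).filter fun b => w ≤ b ∧ Bd D ω b ∧ z ≤ nz σ b ω ∧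
      nz σ b ω < 2 * z ∧ shift (b - w) ω ∉ BW σ w z).card : ℝ≥0∞) ∂(PQ μ ν) ≤
      ENNReal.ofReal (C * z / (n * √n)) := by
  obtain ⟨C, hC, hocc⟩ := occ hD hQ
  have hσ := hQ.pos
  refine ⟨128 * C / σ, by positivity, fun n w z hn hz hw hw1 hw8 => ?_⟩
  have hn0 : (0 : ℝ) < n := by exact_mod_cast hn
  have hsn : 0 < √(n : ℝ) := Real.sqrt_pos.mpr hn0
  have hz0 : 0 < z := by linarith
  have hw0 : (0 : ℝ) < w := by exact_mod_cast hw1
  have hae : ∀ᵐ ω ∂((PQ μ ν).restrict (EvN D n)),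
      (((Finset.range n).filter fun b => w ≤ b ∧ Bd D ω b ∧ z ≤ nz σ b ω ∧
      nz σ b ω < 2 * z ∧ shift (b - w) ω ∉ BW σ w z).card : ℝ≥0∞) ≤
      ENNReal.ofReal (1 / w) * (cOcc σ n (3 * z) ω : ℝ≥0∞) := by
    rw [ae_restrict_iff' (measurableSet_EvN hD n)]
    filter_upwards [ae_nonneg hQ] with ω hnn hN
    have h1 := good_count hD hσ hN hnn hz0 hw hw1 ((Finset.range n).filter fun b => w ≤ b ∧
      Bd D ω b ∧ z ≤ nz σ b ω ∧ nz σ b ω < 2 * z ∧ shift (b - w) ω ∉ BW σ w z) (by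
        intro b hb
        obtain ⟨h2, h3, h4⟩ := Finset.mem_filter.mp hb
        exact ⟨h3, Finset.mem_range.mp h2, h4⟩)
    have h2 : ENNReal.ofReal (1 / (w : ℝ)) * (w : ℝ≥0∞) = 1 := by
      rw [← ENNReal.ofReal_natCast, ← ENNReal.ofReal_mul (by positivity), one_div_mul_cancel hw0.ne',
        ENNReal.ofReal_one]
    calc _ = ENNReal.ofReal (1 / (w : ℝ)) * ((w : ℝ≥0∞) *
          (((Finset.range n).filter fun b => w ≤ b ∧ Bd D ω b ∧ z ≤ nz σ b ω ∧
      nz σ b ω < 2 * z ∧ shift (b - w) ω ∉ BW σ w z).card : ℝ≥0∞)) := by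
            rw [← mul_assoc, h2, one_mul]
      _ ≤ _ := by
            gcongr
            exact_mod_cast h1
  refine (lintegral_mono_ae hae).trans ?_
  rw [lintegral_const_mul' _ _ ENNReal.ofReal_ne_top]
  refine (mul_le_mul_right (hocc n hn (3 * z) (by positivity)) _).trans ?_
  rw [← ENNReal.ofReal_mul (by positivity)]
  refine ENNReal.ofReal_le_ofReal ?_
  have h3 : 1 / (w : ℝ) ≤ 8 / (σ * z) := by
    rw [div_le_div_iff₀ hw0 (by positivity)]
    linarith
  have h4 : (1 + 3 * z) ^ 2 ≤ (4 * z) ^ 2 := pow_le_pow_left₀ (by positivity) (by linarith) 2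
  calc 1 / (w : ℝ) * (C * (1 + 3 * z) ^ 2 / (n * √n)) ≤
        8 / (σ * z) * (C * (4 * z) ^ 2 / (n * √n)) := by gcongr
    _ = _ := by field_simp; ring

theorem F6c_sum_le {α ι : Type*} [MeasurableSpace α] (m : Measure α) (s : Finset ι)
    (f : ι → α → ℝ≥0∞) : ∑ i ∈ s, ∫⁻ x, f i x ∂m ≤ ∫⁻ x, ∑ i ∈ s, f i x ∂m := by
  classical
  induction s using Finset.induction_on with
  | empty => simp
  | insert a s ha ih =>
    rw [Finset.sum_insert ha]
    refine (add_le_add le_rfl ih).trans ((le_lintegral_add _ _).trans (le_of_eq ?_))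
    refine lintegral_congr fun x => ?_
    rw [Finset.sum_insert ha]

/-- part (c): bad boundaries -/
theorem F6c_c (hD : Dom D) (hQ : QStd μ ν σ) : ∃ C > (0 : ℝ), ∀ (n w : ℕ) (z : ℝ), 1 ≤ n →
    1 ≤ z → w = ⌊σ * z / 4⌋₊ → 1 ≤ w → 4 * w ≤ n →
    ∑ i ∈ Finset.range (n - w), ∫⁻ ω in EvN D n, (BW σ w z).indicator 1 (shift i ω) *
      (Set.Ico z (2 * z)).indicator 1 (nz σ (i + w) ω) ∂(PQ μ ν) ≤
      ENNReal.ofReal (C * z / (n * √n)) := by
  have hρ := hQ.std
  have := hρ.prob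
  have := hQ.probμ
  have := hQ.probν
  obtain ⟨C₁, hC₁, hhit⟩ := hit_bound hD hρ
  obtain ⟨C₂, hgreen⟩ := green_long hD hρ
  obtain ⟨C₃, hC₃, hwl⟩ := F6c_winlong hD hρ
  obtain ⟨C₄, hC₄, hBW⟩ := prob_BW hQ
  refine ⟨24 * C₁ * C₂ * C₄ + 864 * C₁ * C₃ * C₄, by positivity,
    fun n w z hn hz hw hw1 h4w => ?_⟩
  have hn0 : (0 : ℝ) < n := by exact_mod_cast hn
  have hsn : 0 < √(n : ℝ) := Real.sqrt_pos.mpr hn0
  have hz0 : 0 < z := by linarith
  set N : ℝ := n * √(n : ℝ) with hN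
  have hN0 : 0 < N := by positivity
  set T : ℕ → ℝ := fun m => min ((1 + 2 * z) / ((m : ℝ) * √(m : ℝ))) (1 / (1 + z) ^ 2) with hT
  have hT0 : ∀ m, 0 ≤ T m := fun m => le_min (by positivity) (by positivity)
  set c1 : ℝ≥0∞ := ENNReal.ofReal (12 * C₁ * z / N) with hc1
  set c2 : (ℕ → ℝ × ℝ) → ℝ≥0∞ := fun η => ENNReal.ofReal (24 * C₁ * C₃ * z / N) *
    ENNReal.ofReal (3 * z + |nz σ w η|) with hc2
  -- bound for one `i`
  have hterm : ∀ i ∈ Finset.range (n - w),
      ∫⁻ ω in EvN D n, (BW σ w z).indicator 1 (shift i ω) *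
        (Set.Ico z (2 * z)).indicator 1 (nz σ (i + w) ω) ∂(PQ μ ν) ≤
      ∫⁻ η in BW σ w z, (c1 * kap D (stepLaw μ ν σ) i 0
        (Set.Ico (z - nz σ w η) (z - nz σ w η + z)) + ENNReal.ofReal (T (n - w - i)) * c2 η)
          ∂(PQ μ ν) := by
    intro i hi
    have hi' := Finset.mem_range.mp hi
    obtain ⟨m, hm⟩ : ∃ m, n = i + w + m := ⟨n - w - i, by omega⟩
    have hm1 : 1 ≤ m := by omega
    have hmm : n - w - i = m := by omega
    have hm0 : (0 : ℝ) < m := by exact_mod_cast hm1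
    have hsm : 0 < √(m : ℝ) := Real.sqrt_pos.mpr hm0
    have hGm : Measurable ((BW σ w z).indicator (1 : (ℕ → ℝ × ℝ) → ℝ≥0∞)) :=
      measurable_one.indicator (measurableSet_BW w z)
    have hfm : Measurable ((Set.Ico z (2 * z)).indicator (1 : ℝ → ℝ≥0∞)) :=
      measurable_one.indicator measurableSet_Ico
    have hqw := q_window hD hQ i w m hw1 hm1 ((BW σ w z).indicator 1) hGm
      ((Set.Ico z (2 * z)).indicator 1) hfm (by
        intro ω ω' h
        by_cases h1 : ω ∈ BW σ w z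
        · rw [Set.indicator_of_mem h1, Set.indicator_of_mem ((F6c_BW_dep w z ω ω' h).mp h1)]
          rfl
        · rw [Set.indicator_of_notMem h1,
            Set.indicator_of_notMem (fun h2 => h1 ((F6c_BW_dep w z ω ω' h).mpr h2))])
    rw [← hm] at hqw
    refine hqw.trans ?_
    rw [← lintegral_indicator (measurableSet_BW w z)]
    refine lintegral_mono fun η => ?_
    by_cases hη : η ∈ BW σ w z
    swap
    · rw [Set.indicator_of_notMem hη, Set.indicator_of_notMem hη, zero_mul]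
    rw [Set.indicator_of_mem hη, Set.indicator_of_mem hη, Pi.one_apply, one_mul, hmm]
    set Δ := nz σ w η with hΔ
    -- the inner integral
    have hin : ∀ H : ℝ, (∀ y, z ≤ y → y < 2 * z → hit D (stepLaw μ ν σ) m y ≤ H) →
        ∫⁻ y in {y | y + Δ ∈ D}, (Set.Ico z (2 * z)).indicator 1 (y + Δ) *
          ENNReal.ofReal (hit D (stepLaw μ ν σ) m (y + Δ)) ∂(kap D (stepLaw μ ν σ) i 0) ≤
        ENNReal.ofReal H * kap D (stepLaw μ ν σ) i 0 (Set.Ico (z - Δ) (z - Δ + z)) := by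
      intro H hH
      calc _ ≤ ∫⁻ y, (Set.Ico z (2 * z)).indicator 1 (y + Δ) *
            ENNReal.ofReal (hit D (stepLaw μ ν σ) m (y + Δ)) ∂(kap D (stepLaw μ ν σ) i 0) :=
            setLIntegral_le_lintegral _ _
        _ ≤ ∫⁻ y, ENNReal.ofReal H * (Set.Ico (z - Δ) (z - Δ + z)).indicator 1 y
              ∂(kap D (stepLaw μ ν σ) i 0) := by
            refine lintegral_mono fun y => ?_
            by_cases hy : y + Δ ∈ Set.Ico z (2 * z)
            · rw [Set.indicator_of_mem hy, Set.indicator_of_mem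
                (show y ∈ Set.Ico (z - Δ) (z - Δ + z) from
                  ⟨by linarith [hy.1], by linarith [hy.2]⟩)]
              simp only [Pi.one_apply, one_mul, mul_one]
              exact ENNReal.ofReal_le_ofReal (hH _ hy.1 hy.2)
            · rw [Set.indicator_of_notMem hy, zero_mul]
              exact zero_le
        _ = _ := by
            rw [lintegral_const_mul' _ _ ENNReal.ofReal_ne_top,
              lintegral_indicator_one measurableSet_Ico]
    rcases le_or_gt n (2 * m) with hcase | hcase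
    · -- `b ≤ n/2`
      have hhm : N ≤ 4 * ((m : ℝ) * √(m : ℝ)) := F6c_half n m hcase hn
      refine (hin (12 * C₁ * z / N) ?_).trans (le_add_of_nonneg_right zero_le)
      intro y hy1 hy2
      refine (hhit m hm1 y (hz0.le.trans hy1)).1.trans ?_
      rw [div_le_div_iff₀ (by positivity) hN0]
      have h1 : 1 + y ≤ 3 * z := by linarith
      calc C₁ * (1 + y) * N ≤ C₁ * (3 * z) * (4 * (m * √m)) :=
            mul_le_mul (mul_le_mul_of_nonneg_left h1 hC₁.le) hhm hN0.le (by positivity)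
        _ = _ := by ring
    · -- `b > n/2`
      have hi4 : n ≤ 4 * i := by omega
      have hi1 : 1 ≤ i := by omega
      have hi0 : (0 : ℝ) < i := by exact_mod_cast hi1
      have hsi : 0 < √(i : ℝ) := Real.sqrt_pos.mpr hi0
      have hii : N ≤ 8 * ((i : ℝ) * √(i : ℝ)) := F6c_quarter n i hi4 hn
      refine (hin (C₁ * T m) ?_).trans ?_
      · intro y hy1 hy2
        have h1 := hhit m hm1 y (hz0.le.trans hy1)
        simp only [hT]
        rw [mul_min_of_nonneg _ _ hC₁.le]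
        refine le_min (h1.1.trans ?_) (h1.2.2.trans ?_)
        · rw [← mul_div_assoc]
          refine div_le_div_of_nonneg_right ?_ (by positivity)
          exact mul_le_mul_of_nonneg_left (by linarith) hC₁.le
        · rw [mul_one_div]
          refine div_le_div_of_nonneg_left hC₁.le (by positivity) ?_
          exact pow_le_pow_left₀ (by positivity) (by linarith) 2
      · refine le_trans ?_ (le_add_of_nonneg_left zero_le)
        refine (mul_le_mul_right (hwl i hi1 (z - Δ) z hz0.le) _).trans ?_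
        simp only [hc2]
        rw [← ENNReal.ofReal_mul (mul_nonneg hC₁.le (hT0 m)),
          ← ENNReal.ofReal_mul (by positivity), ← ENNReal.ofReal_mul (hT0 m)]
        refine ENNReal.ofReal_le_ofReal ?_
        have h1 : |z - Δ| ≤ z + |Δ| := by
          have := abs_sub z Δ
          rwa [abs_of_pos hz0] at this
        have h2 : (2 + z) * (1 + |z - Δ| + z) ≤ 3 * z * (3 * z + |Δ|) := by
          have := abs_nonneg Δ
          have := abs_nonneg (z - Δ)
          exact mul_le_mul (by linarith) (by linarith) (by positivity) (by positivity)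
        have h3 : (2 + z) * (1 + |z - Δ| + z) / (i * √i) ≤ 24 * z * (3 * z + |Δ|) / N := by
          rw [div_le_div_iff₀ (by positivity) hN0]
          calc (2 + z) * (1 + |z - Δ| + z) * N ≤ 3 * z * (3 * z + |Δ|) * (8 * (i * √i)) :=
                mul_le_mul h2 hii hN0.le (by positivity)
            _ = _ := by ring
        calc C₁ * T m * (C₃ * ((2 + z) * (1 + |z - Δ| + z) / (i * √i))) ≤
              C₁ * T m * (C₃ * (24 * z * (3 * z + |Δ|) / N)) := by
                have := hT0 m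
                gcongr
          _ = _ := by ring
  refine (Finset.sum_le_sum hterm).trans ((F6c_sum_le _ _ _).trans ?_)
  -- the sum over `i`
  have hsum : ∀ η : ℕ → ℝ × ℝ, ∑ i ∈ Finset.range (n - w),
      (c1 * kap D (stepLaw μ ν σ) i 0 (Set.Ico (z - nz σ w η) (z - nz σ w η + z)) +
        ENNReal.ofReal (T (n - w - i)) * c2 η) ≤
      c1 * (C₂ * ENNReal.ofReal (2 * z)) + ENNReal.ofReal 9 * c2 η := by
    intro η
    rw [Finset.sum_add_distrib, ← Finset.mul_sum, ← Finset.sum_mul]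
    refine add_le_add (mul_le_mul_right ?_ _) (mul_le_mul_left ?_ _)
    · refine (ENNReal.sum_le_tsum _).trans ((hgreen 0 le_rfl zero_le_one _ z hz0.le).trans ?_)
      refine mul_le_mul_right (ENNReal.ofReal_le_ofReal (by linarith)) _
    · rw [← ENNReal.ofReal_sum_of_nonneg fun i _ => hT0 _]
      refine ENNReal.ofReal_le_ofReal ?_
      have h1 : ∑ i ∈ Finset.range (n - w), T (n - w - i) =
          ∑ m ∈ (Finset.range (n - w)).image (fun i => n - w - i), T m := by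
        rw [Finset.sum_image]
        intro a ha b hb hab
        have := Finset.mem_range.mp ha
        have := Finset.mem_range.mp hb
        simp only at hab
        omega
      rw [h1]
      refine F6c_hitsum z hz _ ?_
      intro m hm
      obtain ⟨i, hi, rfl⟩ := Finset.mem_image.mp hm
      have := Finset.mem_range.mp hi
      omega
  refine (lintegral_mono hsum).trans ?_
  have hBW' := hBW z hz0 w hw hw1
  have hP : PQ μ ν (BW σ w z) ≤ ENNReal.ofReal (C₄ / z) := by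
    have h1 := hBW'.1
    rw [Measure.real] at h1
    rwa [ENNReal.le_ofReal_iff_toReal_le (measure_ne_top _ _) (by positivity)]
  have hmz : Measurable fun η : ℕ → ℝ × ℝ => ENNReal.ofReal |nz σ w η| :=
    (measurable_nz w).abs.ennreal_ofReal
  rw [lintegral_add_left measurable_const, lintegral_const, Measure.restrict_apply_univ,
    lintegral_const_mul' _ _ ENNReal.ofReal_ne_top]
  simp only [hc2]
  rw [lintegral_const_mul' _ _ ENNReal.ofReal_ne_top]
  have hI : ∫⁻ η in BW σ w z, ENNReal.ofReal (3 * z + |nz σ w η|) ∂(PQ μ ν) ≤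
      ENNReal.ofReal (4 * C₄) := by
    have h1 : ∀ η : ℕ → ℝ × ℝ, ENNReal.ofReal (3 * z + |nz σ w η|) =
        ENNReal.ofReal (3 * z) + ENNReal.ofReal |nz σ w η| := fun η =>
      ENNReal.ofReal_add (by positivity) (abs_nonneg _)
    simp_rw [h1]
    rw [lintegral_add_left measurable_const, lintegral_const, Measure.restrict_apply_univ]
    calc _ ≤ ENNReal.ofReal (3 * z) * ENNReal.ofReal (C₄ / z) + ENNReal.ofReal C₄ :=
          add_le_add (mul_le_mul_right hP _) hBW'.2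
      _ = _ := by
          rw [← ENNReal.ofReal_mul (by positivity), ← ENNReal.ofReal_add (by positivity) hC₄.le]
          congr 1
          field_simp
          ring
  calc _ ≤ c1 * (C₂ * ENNReal.ofReal (2 * z)) * ENNReal.ofReal (C₄ / z) +
        ENNReal.ofReal 9 * (ENNReal.ofReal (24 * C₁ * C₃ * z / N) * ENNReal.ofReal (4 * C₄)) :=
        add_le_add (mul_le_mul_right hP _) (mul_le_mul_right (mul_le_mul_right hI _) _)
    _ = _ := by
        rw [hc1, ← ENNReal.ofReal_coe_nnreal, ← ENNReal.ofReal_mul (NNReal.coe_nonneg _),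
          ← ENNReal.ofReal_mul (by positivity), ← ENNReal.ofReal_mul (by positivity),
          ← ENNReal.ofReal_mul (by positivity), ← ENNReal.ofReal_mul (by norm_num),
          ← ENNReal.ofReal_add (by positivity) (by positivity)]
        congr 1
        field_simp
        ring

open Classical in
/-- **[FV-F6c]** Expected number of boundaries in `[z, 2z)` given `N = n`: `≤ C z n^{-3/2}`.
PROOF. Let `w = ⌊σz/4⌋`.
* `σz < 8`: use `occ` with `y = 2z`: `C(1+2z)²/(n√n) ≤ C' z/(n√n)` (`1 ≤ z ≤ 8/σ`).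
* `4w > n`: since `z ≤ √n` this forces `√n < σ`; trivial bound `n ≤ σ²`, adjust the constant.
* `2 ≤ w`, `4w ≤ n`. Split the boundaries `b`:
 (a) `b < w`: `∑_{b<w} PQ(EvN n, z ≤ nz b < 2z) ≤ ∑_{b<w} C(1+2z)/(n√n) · P(|nz b| ≥ z)
 ≤ Cz/(n√n) ∑_{b<w} b/z² ≤ C z/(n√n) · w²/z²` (`q_markov`, `hit_bound` with `n - b ≥ n/2`, `cheb`).
 (b) `b ≥ w` with `shift (b-w) ω ∉ BW`: `good_count` and `occ`:
 `≤ (1/w) C(1+3z)²/(n√n) ≤ C z/(n√n)`, as `w ≥ σz/8`.
 (c) `b ≥ w` with `shift (b-w) ω ∈ BW`: `q_window` with `i = b - w`, `m = n - b`, `G = 1_{BW}`,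
 `f = 1_{[z,2z)}`. If `b ≤ n/2`: `hit m ≤ C(1+2z)/(n√n)` on `[z,2z)` and
 `∑_{i} kap i 0 (Ico (z-Δ) (2z-Δ)) ≤ C(1+z)` (`green_long`), total `≤ Cz/(n√n) · C(1+z) P(BW) ≤ Cz/(n√n)`
 (`prob_BW`). If `b > n/2`: `i ≥ n/4`, `(kap i 0).real ([z-Δ, 2z-Δ) ∩ [0,∞)) ≤ C(1+z)(1+z+|Δ|)/(n√n)`
 (`win`), `∑_m sup_{[z,2z)} hit m ≤ C ∑_m min((1+2z)/m^{3/2}, 1/(1+z)²) ≤ C`, and
 `∫_{BW} (1 + z + |Δ|) ≤ C`. Total `≤ C(1+z)/(n√n)`. -/
theorem bd_win (hD : Dom D) (hQ : QStd μ ν σ) : ∃ C > (0 : ℝ), ∀ n : ℕ, 1 ≤ n → ∀ z : ℝ, 1 ≤ z →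
    z ≤ √n → ∫⁻ ω in EvN D n, (cBw D σ n z (2 * z) ω : ℝ≥0∞) ∂(PQ μ ν) ≤
      ENNReal.ofReal (C * z / (n * √n)) := by
  have := hQ.probμ
  have := hQ.probν
  have hσ := hQ.pos
  obtain ⟨C₀, hC₀, hocc⟩ := occ hD hQ
  obtain ⟨C₁, hC₁, ha⟩ := F6c_a hD hQ
  obtain ⟨C₂, hC₂, hb⟩ := F6c_b hD hQ
  obtain ⟨C₃, hC₃, hc⟩ := F6c_c hD hQ
  refine ⟨72 * C₀ / σ + σ ^ 5 + (C₁ + C₂ + C₃), by positivity, fun n hn z hz hzn => ?_⟩
  have hn0 : (0 : ℝ) < n := by exact_mod_cast hn
  have hsn : 0 < √(n : ℝ) := Real.sqrt_pos.mpr hn0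
  have hz0 : 0 < z := by linarith
  have hN0 : (0 : ℝ) < n * √n := by positivity
  rcases lt_or_ge (σ * z) 8 with h8 | h8
  · -- `σ z < 8`
    have h1 : ∀ ω, (cBw D σ n z (2 * z) ω : ℝ≥0∞) ≤ (cOcc σ n (2 * z) ω : ℝ≥0∞) := by
      intro ω
      have : cBw D σ n z (2 * z) ω ≤ cOcc σ n (2 * z) ω := by
        unfold cBw cOcc
        refine Finset.card_le_card ?_
        intro b hb
        obtain ⟨h2, h3⟩ := Finset.mem_filter.mp hb
        exact Finset.mem_filter.mpr ⟨h2, h3.2.2⟩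
      exact_mod_cast this
    refine (lintegral_mono h1).trans ((hocc n hn (2 * z) (by positivity)).trans ?_)
    refine ENNReal.ofReal_le_ofReal ?_
    refine div_le_div_of_nonneg_right ?_ hN0.le
    have h2 : (1 + 2 * z) ^ 2 ≤ (3 * z) ^ 2 := pow_le_pow_left₀ (by positivity) (by linarith) 2
    have h3 : z ≤ 8 / σ := by
      rw [le_div_iff₀ hσ]; linarith
    calc C₀ * (1 + 2 * z) ^ 2 ≤ C₀ * (3 * z) ^ 2 := mul_le_mul_of_nonneg_left h2 hC₀.le
      _ = 9 * C₀ * z * z := by ring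
      _ ≤ 9 * C₀ * z * (8 / σ) := mul_le_mul_of_nonneg_left h3 (by positivity)
      _ = 72 * C₀ / σ * z := by ring
      _ ≤ _ := mul_le_mul_of_nonneg_right (by
          have : 0 < σ ^ 5 := by positivity
          linarith) hz0.le
  set w : ℕ := ⌊σ * z / 4⌋₊ with hw
  have hwle : (w : ℝ) ≤ σ * z / 4 := Nat.floor_le (by positivity)
  have hwlt : σ * z / 4 < (w : ℝ) + 1 := Nat.lt_floor_add_one _
  have hw8 : σ * z / 8 ≤ w := by linarith
  have hw1 : 1 ≤ w := by
    have : (0 : ℝ) < w := by linarith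
    exact_mod_cast this
  rcases lt_or_ge n (4 * w) with h4 | h4
  · -- `4 w > n`
    have h4' : (n : ℝ) < 4 * w := by exact_mod_cast h4
    have h1 : √(n : ℝ) < σ := by
      have h2 : (n : ℝ) < σ * √n := by
        calc (n : ℝ) < 4 * w := h4'
          _ ≤ σ * z := by linarith
          _ ≤ σ * √n := mul_le_mul_of_nonneg_left hzn hσ.le
      have h3 : √(n : ℝ) * √(n : ℝ) < σ * √(n : ℝ) := by
        rwa [Real.mul_self_sqrt hn0.le]
      exact lt_of_mul_lt_mul_right h3 hsn.le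
    have h2 : ∀ ω, (cBw D σ n z (2 * z) ω : ℝ≥0∞) ≤ (n : ℝ≥0∞) := by
      intro ω
      have : cBw D σ n z (2 * z) ω ≤ n := by
        unfold cBw
        exact (Finset.card_filter_le _ _).trans (le_of_eq (Finset.card_range n))
      exact_mod_cast this
    refine (lintegral_mono h2).trans ?_
    rw [lintegral_const, Measure.restrict_apply_univ]
    refine (mul_le_mul_right prob_le_one _).trans ?_
    rw [mul_one, ← ENNReal.ofReal_natCast]
    refine ENNReal.ofReal_le_ofReal ?_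
    rw [le_div_iff₀ hN0]
    have h3 : (n : ℝ) * (n * √n) = √(n : ℝ) ^ 5 := by
      have := Real.mul_self_sqrt hn0.le
      calc (n : ℝ) * (n * √n) = (√(n : ℝ) * √(n : ℝ)) * ((√(n : ℝ) * √(n : ℝ)) * √n) := by
            rw [this]
        _ = _ := by ring
    rw [h3]
    calc √(n : ℝ) ^ 5 ≤ σ ^ 5 := pow_le_pow_left₀ hsn.le h1.le 5
      _ ≤ σ ^ 5 * z := le_mul_of_one_le_right (by positivity) hz
      _ ≤ _ := mul_le_mul_of_nonneg_right (by
          have : 0 < 72 * C₀ / σ := by positivity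
          linarith) hz0.le
  -- main case
  have hwn : w ≤ n := by omega
  have hpt : ∀ ω, (cBw D σ n z (2 * z) ω : ℝ≥0∞) ≤
      (∑ b ∈ Finset.range w, (Set.Ico z (2 * z)).indicator 1 (nz σ b ω)) +
      ((∑ i ∈ Finset.range (n - w), (BW σ w z).indicator 1 (shift i ω) *
        (Set.Ico z (2 * z)).indicator 1 (nz σ (i + w) ω)) +
      (((Finset.range n).filter fun b => w ≤ b ∧ Bd D ω b ∧ z ≤ nz σ b ω ∧
        nz σ b ω < 2 * z ∧ shift (b - w) ω ∉ BW σ w z).card : ℝ≥0∞)) := by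
    intro ω
    have e1 : (cBw D σ n z (2 * z) ω : ℝ≥0∞) = ∑ b ∈ Finset.range n,
        (if Bd D ω b ∧ z ≤ nz σ b ω ∧ nz σ b ω < 2 * z then (1 : ℝ≥0∞) else 0) := by
      rw [Finset.sum_boole, cBw]
    have e2 : (((Finset.range n).filter fun b => w ≤ b ∧ Bd D ω b ∧ z ≤ nz σ b ω ∧
        nz σ b ω < 2 * z ∧ shift (b - w) ω ∉ BW σ w z).card : ℝ≥0∞) = ∑ b ∈ Finset.range n,
        (if w ≤ b ∧ Bd D ω b ∧ z ≤ nz σ b ω ∧
        nz σ b ω < 2 * z ∧ shift (b - w) ω ∉ BW σ w z then (1 : ℝ≥0∞) else 0) := by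
      rw [Finset.sum_boole]
    have e3 : ∀ f : ℕ → ℝ≥0∞, ∑ b ∈ Finset.range n, f b =
        ∑ b ∈ Finset.range w, f b + ∑ i ∈ Finset.range (n - w), f (i + w) := by
      intro f
      rw [← Finset.sum_range_add_sum_Ico f hwn, Finset.sum_Ico_eq_sum_range]
      congr 1
      exact Finset.sum_congr rfl fun i _ => by rw [add_comm]
    rw [e1, e3]
    refine add_le_add ?_ ?_
    · refine Finset.sum_le_sum fun b _ => ?_
      split_ifs with h
      · rw [Set.indicator_of_mem (show nz σ b ω ∈ Set.Ico z (2 * z) from ⟨h.2.1, h.2.2⟩)]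
        rfl
      · exact zero_le
    · rw [e2, e3]
      refine le_trans ?_ (add_le_add le_rfl (le_add_of_nonneg_left zero_le))
      rw [← Finset.sum_add_distrib]
      refine Finset.sum_le_sum fun i _ => ?_
      split_ifs with h h'
      · exact le_add_of_nonneg_left zero_le
      · have h5 : shift i ω ∈ BW σ w z := by
          by_contra h6
          refine h' ⟨by omega, h.1, h.2.1, h.2.2, ?_⟩
          rwa [Nat.add_sub_cancel]
        rw [Set.indicator_of_mem h5, Set.indicator_of_mem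
          (show nz σ (i + w) ω ∈ Set.Ico z (2 * z) from ⟨h.2.1, h.2.2⟩)]
        simp
      · exact zero_le
      · exact zero_le
  have m1 : Measurable fun ω : ℕ → ℝ × ℝ =>
      ∑ b ∈ Finset.range w, (Set.Ico z (2 * z)).indicator (1 : ℝ → ℝ≥0∞) (nz σ b ω) :=
    Finset.measurable_fun_sum _ fun b _ =>
      (measurable_one.indicator measurableSet_Ico).comp (measurable_nz b)
  have m2 : Measurable fun ω : ℕ → ℝ × ℝ =>
      ∑ i ∈ Finset.range (n - w), (BW σ w z).indicator (1 : (ℕ → ℝ × ℝ) → ℝ≥0∞) (shift i ω) *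
        (Set.Ico z (2 * z)).indicator (1 : ℝ → ℝ≥0∞) (nz σ (i + w) ω) :=
    Finset.measurable_fun_sum _ fun i _ =>
      ((measurable_one.indicator (measurableSet_BW w z)).comp (measurable_shift i)).mul
      ((measurable_one.indicator measurableSet_Ico).comp (measurable_nz (i + w)))
  refine (lintegral_mono hpt).trans ?_
  rw [lintegral_add_left m1, lintegral_add_left m2, lintegral_finsetSum, lintegral_finsetSum]
  · refine (add_le_add (ha n w z hn hz hwle h4) (add_le_add (hc n w z hn hz hw hw1 h4)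
      (hb n w z hn hz hw hw1 hw8))).trans ?_
    rw [← ENNReal.ofReal_add (by positivity) (by positivity),
      ← ENNReal.ofReal_add (by positivity) (by positivity)]
    refine ENNReal.ofReal_le_ofReal ?_
    rw [← add_div, ← add_div]
    refine div_le_div_of_nonneg_right ?_ hN0.le
    have h5 : 0 < 72 * C₀ / σ * z := by positivity
    have h6 : 0 < σ ^ 5 * z := by positivity
    calc C₁ * z + (C₃ * z + C₂ * z) ≤ 72 * C₀ / σ * z + σ ^ 5 * z + (C₁ * z + (C₃ * z + C₂ * z)) := by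
          linarith
      _ = _ := by ring
  · intro i _
    exact ((measurable_one.indicator (measurableSet_BW w z)).comp (measurable_shift i)).mul
      ((measurable_one.indicator measurableSet_Ico).comp (measurable_nz (i + w)))
  · intro b _
    exact (measurable_one.indicator measurableSet_Ico).comp (measurable_nz b)

end Pool.Agent.BPT
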