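import Pool.Agent.MP_99a865_pr.FV.F6c

open MeasureTheory ProbabilityTheory Filter Topology
open scoped ENNReal NNReal

namespace Pool.Agent.BPT

variable {D : Set ℝ} {μ ν : Measure ℝ} {σ : ℝ}

open Classical in
lemma F6d_meas (hD : Dom D) (n : ℕ) (z z' : ℝ) :
    Measurable fun ω : ℕ → ℝ × ℝ => (cBw D σ n z z' ω : ℝ≥0∞) := by
  have h : (fun ω : ℕ → ℝ × ℝ => (cBw D σ n z z' ω : ℝ≥0∞)) = fun ω =>
      ∑ b ∈ Finset.range n, if (Bd D ω b ∧ z ≤ nz σ b ω ∧ nz σ b ω < z') then (1 : ℝ≥0∞) else 0 := by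
    funext ω
    unfold cBw
    rw [Finset.natCast_card_filter]
  rw [h]
  refine Finset.measurable_sum _ fun b _ => ?_
  refine Measurable.ite ?_ measurable_const measurable_const
  refine (measurableSet_Bd hD b).inter ?_
  exact (measurableSet_le measurable_const (measurable_nz b)).inter
    (measurableSet_lt (measurable_nz b) measurable_const)

open Classical in
lemma F6d_point (n : ℕ) (y : ℝ) (ω : ℕ → ℝ × ℝ) :
    cBl D σ n y ω ≤ cOcc σ n 1 ω +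
      ∑ i ∈ Finset.range (Nat.log 2 ⌊y⌋₊ + 1), cBw D σ n (2 ^ i) (2 * 2 ^ i) ω := by
  unfold cBl cOcc cBw
  calc ((Finset.range n).filter fun b => Bd D ω b ∧ nz σ b ω < y).card
      ≤ (((Finset.range n).filter fun i => nz σ i ω < 1) ∪
          (Finset.range (Nat.log 2 ⌊y⌋₊ + 1)).biUnion fun i => (Finset.range n).filter fun b =>
            Bd D ω b ∧ (2 : ℝ) ^ i ≤ nz σ b ω ∧ nz σ b ω < 2 * 2 ^ i).card := by
        apply Finset.card_le_card
        intro b hb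
        rw [Finset.mem_filter] at hb
        obtain ⟨hb1, hb2, hb3⟩ := hb
        rw [Finset.mem_union]
        rcases lt_or_ge (nz σ b ω) 1 with h | h
        · left
          rw [Finset.mem_filter]
          exact ⟨hb1, h⟩
        · right
          rw [Finset.mem_biUnion]
          have hfl : 1 ≤ ⌊nz σ b ω⌋₊ := by
            rw [Nat.one_le_floor_iff]
            exact h
          have h0 : 0 ≤ nz σ b ω := by linarith
          refine ⟨Nat.log 2 ⌊nz σ b ω⌋₊, ?_, ?_⟩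
          · rw [Finset.mem_range, Nat.lt_succ_iff]
            exact Nat.log_mono_right (Nat.floor_le_floor hb3.le)
          · rw [Finset.mem_filter]
            refine ⟨hb1, hb2, ?_, ?_⟩
            · have h1 : 2 ^ Nat.log 2 ⌊nz σ b ω⌋₊ ≤ ⌊nz σ b ω⌋₊ := Nat.pow_log_le_self 2 (by omega)
              have h2 : ((2 ^ Nat.log 2 ⌊nz σ b ω⌋₊ : ℕ) : ℝ) ≤ (⌊nz σ b ω⌋₊ : ℝ) := by
                exact_mod_cast h1
              have h3 : (⌊nz σ b ω⌋₊ : ℝ) ≤ nz σ b ω := Nat.floor_le h0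
              push_cast at h2
              linarith
            · have h1 : ⌊nz σ b ω⌋₊ < 2 ^ (Nat.log 2 ⌊nz σ b ω⌋₊ + 1) :=
                Nat.lt_pow_succ_log_self (by norm_num) _
              have h2 : ((⌊nz σ b ω⌋₊ + 1 : ℕ) : ℝ) ≤ ((2 ^ (Nat.log 2 ⌊nz σ b ω⌋₊ + 1) : ℕ) : ℝ) := by
                exact_mod_cast h1
              have h3 : nz σ b ω < (⌊nz σ b ω⌋₊ : ℝ) + 1 := Nat.lt_floor_add_one _
              push_cast at h2
              rw [pow_succ] at h2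
              linarith
    _ ≤ _ := by
        refine (Finset.card_union_le _ _).trans ?_
        gcongr
        exact Finset.card_biUnion_le

/-- **[FV-F6d]** Dyadic summation: `#{nz b < y} ≤ cOcc σ n 1 + ∑_{2^i ≤ y} #{2^i ≤ nz b < 2^{i+1}}`
(`occ` with `y = 1`, `bd_win`). -/
theorem bd_low (hD : Dom D) (hQ : QStd μ ν σ) : ∃ C > (0 : ℝ), ∀ n : ℕ, 1 ≤ n → ∀ y : ℝ, 0 ≤ y →
    y ≤ √n → ∫⁻ ω in EvN D n, (cBl D σ n y ω : ℝ≥0∞) ∂(PQ μ ν) ≤
      ENNReal.ofReal (C * (1 + y) / (n * √n)) := by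
  obtain ⟨C1, hC1, h1⟩ := occ hD hQ
  obtain ⟨C2, hC2, h2⟩ := bd_win hD hQ
  refine ⟨4 * C1 + 2 * C2, by positivity, fun n hn y hy hyn => ?_⟩
  have hn1 : (1 : ℝ) ≤ n := by exact_mod_cast hn
  have hsn : 1 ≤ √(n : ℝ) := by rw [Real.one_le_sqrt]; exact hn1
  have hpow : ∀ i ≤ Nat.log 2 ⌊y⌋₊, (2 : ℝ) ^ i ≤ max 1 y := by
    intro i hi
    have ha : (2 : ℝ) ^ i ≤ 2 ^ (Nat.log 2 ⌊y⌋₊) := pow_le_pow_right₀ (by norm_num) hi
    refine ha.trans ?_
    rcases Nat.eq_zero_or_pos ⌊y⌋₊ with h | h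
    · rw [h]; simp
    · have hb : 2 ^ Nat.log 2 ⌊y⌋₊ ≤ ⌊y⌋₊ := Nat.pow_log_le_self 2 (by omega)
      have hc : ((2 ^ Nat.log 2 ⌊y⌋₊ : ℕ) : ℝ) ≤ (⌊y⌋₊ : ℝ) := by exact_mod_cast hb
      have hd : (⌊y⌋₊ : ℝ) ≤ y := Nat.floor_le hy
      push_cast at hc
      exact (hc.trans hd).trans (le_max_right _ _)
  have hmax : max 1 y ≤ √(n : ℝ) := max_le hsn hyn
  have hmax2 : max 1 y ≤ 1 + y := max_le (by linarith) (by linarith)
  have hsum : ∑ i ∈ Finset.range (Nat.log 2 ⌊y⌋₊ + 1), (2 : ℝ) ^ i ≤ 2 * (1 + y) := by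
    have hg := geom_sum_eq (x := (2 : ℝ)) (by norm_num) (Nat.log 2 ⌊y⌋₊ + 1)
    rw [hg]
    have := hpow _ le_rfl
    rw [pow_succ]
    norm_num
    linarith
  calc ∫⁻ ω in EvN D n, (cBl D σ n y ω : ℝ≥0∞) ∂(PQ μ ν)
      ≤ ∫⁻ ω in EvN D n, ((cOcc σ n 1 ω : ℝ≥0∞) +
        ∑ i ∈ Finset.range (Nat.log 2 ⌊y⌋₊ + 1), (cBw D σ n (2 ^ i) (2 * 2 ^ i) ω : ℝ≥0∞)) ∂(PQ μ ν) := by
        refine lintegral_mono fun ω => ?_
        have := F6d_point (D := D) (σ := σ) n y ω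
        calc (cBl D σ n y ω : ℝ≥0∞) ≤ ((cOcc σ n 1 ω +
              ∑ i ∈ Finset.range (Nat.log 2 ⌊y⌋₊ + 1), cBw D σ n (2 ^ i) (2 * 2 ^ i) ω : ℕ) : ℝ≥0∞) := by
              exact_mod_cast this
          _ = _ := by push_cast; rfl
    _ = ∫⁻ ω in EvN D n, (cOcc σ n 1 ω : ℝ≥0∞) ∂(PQ μ ν) +
        ∑ i ∈ Finset.range (Nat.log 2 ⌊y⌋₊ + 1),
          ∫⁻ ω in EvN D n, (cBw D σ n (2 ^ i) (2 * 2 ^ i) ω : ℝ≥0∞) ∂(PQ μ ν) := by
        rw [lintegral_add_right, lintegral_finsetSum]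
        · exact fun i _ => F6d_meas hD n _ _
        · exact Finset.measurable_sum _ fun i _ => F6d_meas hD n _ _
    _ ≤ ENNReal.ofReal (C1 * (1 + 1) ^ 2 / (n * √n)) +
        ∑ i ∈ Finset.range (Nat.log 2 ⌊y⌋₊ + 1), ENNReal.ofReal (C2 * 2 ^ i / (n * √n)) := by
        gcongr with i hi
        · exact h1 n hn 1 zero_le_one
        · rw [Finset.mem_range, Nat.lt_succ_iff] at hi
          exact h2 n hn (2 ^ i) (one_le_pow₀ (by norm_num)) ((hpow i hi).trans hmax)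
    _ = ENNReal.ofReal (C1 * (1 + 1) ^ 2 / (n * √n) +
        ∑ i ∈ Finset.range (Nat.log 2 ⌊y⌋₊ + 1), C2 * 2 ^ i / (n * √n)) := by
        rw [ENNReal.ofReal_add (by positivity) (Finset.sum_nonneg fun i _ => by positivity),
          ENNReal.ofReal_sum_of_nonneg fun i _ => by positivity]
    _ ≤ ENNReal.ofReal ((4 * C1 + 2 * C2) * (1 + y) / (n * √n)) := by
        apply ENNReal.ofReal_le_ofReal
        rw [← Finset.sum_div, ← add_div, ← Finset.mul_sum]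
        gcongr
        nlinarith

end Pool.Agent.BPT
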