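import Pool.Agent.MP_99a865_pr.FV.B1
import Pool.Agent.MP_99a865_pr.FV.A4

open MeasureTheory ProbabilityTheory Filter Topology
open scoped ENNReal NNReal

namespace Pool.Agent.BPT

variable {D : Set ℝ} {μ ν : Measure ℝ} {σ : ℝ}

/-- the first passage event -/
def F8a_A (a : ℝ) (j : ℕ) : Set (ℕ → ℝ) := {ω | a ≤ |S j ω| ∧ ∀ i < j, |S i ω| < a}

theorem F8a_A_meas (a : ℝ) (j : ℕ) : MeasurableSet (F8a_A a j) := by
  have h : F8a_A a j = {ω | a ≤ |S j ω|} ∩ ⋂ i : ℕ, ⋂ _ : i < j, {ω | |S i ω| < a} := by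
    ext ω
    simp [F8a_A]
  rw [h]
  refine (measurableSet_le measurable_const (measurable_S j).abs).inter ?_
  exact MeasurableSet.iInter fun i => MeasurableSet.iInter fun _ =>
    measurableSet_lt (measurable_S i).abs measurable_const

/-- Ottaviani's inequality -/
theorem F8a_ottaviani (τ : Measure ℝ) [IsProbabilityMeasure τ] (w : ℕ) (a : ℝ)
    (hj : ∀ j ≤ w, 1 / 2 ≤ seqLaw τ {η | |S j η| ≤ a / 2}) :
    seqLaw τ {ω | ∃ j ≤ w, a ≤ |S j ω|} ≤ 2 * seqLaw τ {ω | a / 2 ≤ |S w ω|} := by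
  classical
  have hcover : {ω : ℕ → ℝ | ∃ j ≤ w, a ≤ |S j ω|} ⊆ ⋃ j ∈ Finset.range (w + 1), F8a_A a j := by
    rintro ω ⟨j, hjw, hja⟩
    have hex : ∃ j, a ≤ |S j ω| := ⟨j, hja⟩
    simp only [Set.mem_iUnion]
    refine ⟨Nat.find hex, ?_, Nat.find_spec hex, fun i hi => not_le.mp (Nat.find_min hex hi)⟩
    exact Finset.mem_range.mpr (Nat.lt_succ_of_le ((Nat.find_min' hex hja).trans hjw))
  have hBm : MeasurableSet {ω : ℕ → ℝ | a / 2 ≤ |S w ω|} :=
    measurableSet_le measurable_const (measurable_S w).abs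
  have hone : ∀ j ∈ Finset.range (w + 1), seqLaw τ (F8a_A a j) ≤
      2 * seqLaw τ (F8a_A a j ∩ {ω | a / 2 ≤ |S w ω|}) := by
    intro j hj'
    have hjw : j ≤ w := Nat.lt_succ_iff.mp (Finset.mem_range.mp hj')
    have hCm : MeasurableSet {η : ℕ → ℝ | |S (w - j) η| ≤ a / 2} :=
      measurableSet_le (measurable_S _).abs measurable_const
    let H : (ℕ → ℝ) → (ℕ → ℝ) → ℝ≥0∞ := fun ω η =>
      (F8a_A a j).indicator 1 ω * ({η : ℕ → ℝ | |S (w - j) η| ≤ a / 2}).indicator 1 η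
    have hH : Measurable (Function.uncurry H) :=
      ((measurable_one.indicator (F8a_A_meas a j)).comp measurable_fst).mul
        ((measurable_one.indicator hCm).comp measurable_snd)
    have hdep : ∀ ω ω' η, (∀ i < j, ω i = ω' i) → H ω η = H ω' η := by
      intro ω ω' η h
      have hS : ∀ i ≤ j, S i ω = S i ω' := by
        intro i hi
        exact Finset.sum_congr rfl fun l hl =>
          h l (lt_of_lt_of_le (Finset.mem_range.mp hl) hi)
      have hiff : ω ∈ F8a_A a j ↔ ω' ∈ F8a_A a j := by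
        unfold F8a_A
        constructor
        · rintro ⟨h1, h2⟩
          exact ⟨by rw [← hS j le_rfl]; exact h1, fun i hi => by rw [← hS i hi.le]; exact h2 i hi⟩
        · rintro ⟨h1, h2⟩
          exact ⟨by rw [hS j le_rfl]; exact h1, fun i hi => by rw [hS i hi.le]; exact h2 i hi⟩
      have hind : (F8a_A a j).indicator (1 : (ℕ → ℝ) → ℝ≥0∞) ω =
          (F8a_A a j).indicator (1 : (ℕ → ℝ) → ℝ≥0∞) ω' := by
        by_cases h1 : ω ∈ F8a_A a j
        · rw [Set.indicator_of_mem h1, Set.indicator_of_mem (hiff.mp h1)]; rfl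
        · rw [Set.indicator_of_notMem h1, Set.indicator_of_notMem (fun h2 => h1 (hiff.mpr h2))]
      change (F8a_A a j).indicator 1 ω * _ = (F8a_A a j).indicator 1 ω' * _
      rw [hind]
    have hsplit := lintegral_split τ j H hH hdep
    have hright : ∫⁻ ω, ∫⁻ η, H ω η ∂(seqLaw τ) ∂(seqLaw τ) =
        seqLaw τ (F8a_A a j) * seqLaw τ {η | |S (w - j) η| ≤ a / 2} := by
      have h1 : ∀ ω, ∫⁻ η, H ω η ∂(seqLaw τ) =
          (F8a_A a j).indicator 1 ω * seqLaw τ {η | |S (w - j) η| ≤ a / 2} := by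
        intro ω
        change ∫⁻ η, (F8a_A a j).indicator 1 ω *
          ({η : ℕ → ℝ | |S (w - j) η| ≤ a / 2}).indicator 1 η ∂(seqLaw τ) = _
        rw [lintegral_const_mul _ (measurable_one.indicator hCm), lintegral_indicator_one hCm]
      simp_rw [h1]
      rw [lintegral_mul_const _ (measurable_one.indicator (F8a_A_meas a j)),
        lintegral_indicator_one (F8a_A_meas a j)]
    have hleft : ∫⁻ ω, H ω (shift j ω) ∂(seqLaw τ) ≤
        seqLaw τ (F8a_A a j ∩ {ω | a / 2 ≤ |S w ω|}) := by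
      rw [← lintegral_indicator_one ((F8a_A_meas a j).inter hBm)]
      apply lintegral_mono
      intro ω
      change (F8a_A a j).indicator 1 ω *
          ({η : ℕ → ℝ | |S (w - j) η| ≤ a / 2}).indicator 1 (shift j ω) ≤ _
      by_cases h1 : ω ∈ F8a_A a j
      · by_cases h2 : shift j ω ∈ {η : ℕ → ℝ | |S (w - j) η| ≤ a / 2}
        · have h3 : ω ∈ F8a_A a j ∩ {ω | a / 2 ≤ |S w ω|} := by
            refine ⟨h1, ?_⟩
            change a / 2 ≤ |S w ω|
            have h4 : S w ω = S j ω + S (w - j) (shift j ω) := by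
              rw [← S_shift, Nat.add_sub_cancel' hjw]
            have h5 : a ≤ |S j ω| := h1.1
            have h6 : |S (w - j) (shift j ω)| ≤ a / 2 := h2
            have h7 : |S j ω| - |S (w - j) (shift j ω)| ≤ |S j ω + S (w - j) (shift j ω)| := by
              have := abs_sub_abs_le_abs_sub (S j ω) (-S (w - j) (shift j ω))
              rwa [abs_neg, sub_neg_eq_add] at this
            rw [h4]; linarith
          rw [Set.indicator_of_mem h1, Set.indicator_of_mem h2, Set.indicator_of_mem h3]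
          simp
        · rw [Set.indicator_of_notMem h2, mul_zero]
          exact zero_le
      · rw [Set.indicator_of_notMem h1, zero_mul]
        exact zero_le
    have h8 : seqLaw τ (F8a_A a j) * (1 / 2) ≤ seqLaw τ (F8a_A a j ∩ {ω | a / 2 ≤ |S w ω|}) := by
      calc seqLaw τ (F8a_A a j) * (1 / 2)
          ≤ seqLaw τ (F8a_A a j) * seqLaw τ {η | |S (w - j) η| ≤ a / 2} := by
            gcongr
            exact hj (w - j) (Nat.sub_le _ _)
        _ = ∫⁻ ω, H ω (shift j ω) ∂(seqLaw τ) := by rw [hsplit, hright]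
        _ ≤ _ := hleft
    calc seqLaw τ (F8a_A a j) = 2 * (seqLaw τ (F8a_A a j) * (1 / 2)) := by
          rw [mul_comm, mul_assoc, one_div, ENNReal.inv_mul_cancel (by norm_num) (by norm_num),
            mul_one]
      _ ≤ _ := by gcongr
  calc seqLaw τ {ω | ∃ j ≤ w, a ≤ |S j ω|} ≤ seqLaw τ (⋃ j ∈ Finset.range (w + 1), F8a_A a j) :=
        measure_mono hcover
    _ ≤ ∑ j ∈ Finset.range (w + 1), seqLaw τ (F8a_A a j) := measure_biUnion_finset_le _ _
    _ ≤ ∑ j ∈ Finset.range (w + 1), 2 * seqLaw τ (F8a_A a j ∩ {ω | a / 2 ≤ |S w ω|}) :=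
        Finset.sum_le_sum hone
    _ = 2 * ∑ j ∈ Finset.range (w + 1), seqLaw τ (F8a_A a j ∩ {ω | a / 2 ≤ |S w ω|}) := by
        rw [Finset.mul_sum]
    _ = 2 * seqLaw τ (⋃ j ∈ Finset.range (w + 1), (F8a_A a j ∩ {ω | a / 2 ≤ |S w ω|})) := by
        congr 1
        rw [measure_biUnion_finset]
        · intro i _ j _ hij
          refine Set.disjoint_left.mpr ?_
          rintro ω ⟨h1, _⟩ ⟨h2, _⟩
          rcases lt_or_gt_of_ne hij with h | h
          · exact absurd h1.1 (not_le.mpr (h2.2 i h))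
          · exact absurd h2.1 (not_le.mpr (h1.2 j h))
        · intro j _
          exact (F8a_A_meas a j).inter hBm
    _ ≤ 2 * seqLaw τ {ω | a / 2 ≤ |S w ω|} := by
        gcongr
        exact Set.iUnion₂_subset fun j _ => Set.inter_subset_right

/-- gaussian tail -/
theorem F8a_gauss {y : ℝ} (hy : 0 ≤ y) :
    (gaussianReal 0 1).real (Set.Ici y) ≤ Real.exp (-(y ^ 2) / 2) := by
  have h := measure_ge_le_exp_mul_mgf (μ := gaussianReal 0 1) (X := fun x : ℝ => x) (t := y) y hy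
    (integrable_exp_mul_gaussianReal y)
  rw [mgf_fun_id_gaussianReal] at h
  calc (gaussianReal 0 1).real (Set.Ici y) ≤ Real.exp (-y * y) * Real.exp (0 * y + 1 * y ^ 2 / 2) := h
    _ = Real.exp (-(y ^ 2) / 2) := by
        rw [← Real.exp_add]
        congr 1; ring

theorem F8a_gauss' {y : ℝ} (hy : 0 ≤ y) :
    (gaussianReal 0 1).real (Set.Iic (-y)) ≤ Real.exp (-(y ^ 2) / 2) := by
  have h := measure_le_le_exp_mul_mgf (μ := gaussianReal 0 1) (X := fun x : ℝ => x) (t := -y) (-y)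
    (by linarith) (integrable_exp_mul_gaussianReal (-y))
  rw [mgf_fun_id_gaussianReal] at h
  calc (gaussianReal 0 1).real (Set.Iic (-y)) ≤
        Real.exp (- -y * -y) * Real.exp (0 * -y + 1 * (-y) ^ 2 / 2) := h
    _ = Real.exp (-(y ^ 2) / 2) := by
        rw [← Real.exp_add]
        congr 1; ring

/-- tail of the walk from the central limit theorem -/
theorem F8a_tail {ρ : Measure ℝ} (hρ : Std ρ) : ∀ ε > (0 : ℝ), ∃ K : ℕ, ∀ k ≥ K, ∀ y : ℝ, 0 ≤ y →
    (seqLaw ρ).real {ω | y * √k ≤ |S k ω|} ≤ 2 * Real.exp (-(y ^ 2) / 2) + 2 * ε := by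
  have hprob := hρ.prob
  intro ε hε
  obtain ⟨K, hK⟩ := polya hρ ε hε
  refine ⟨K, fun k hk y hy => ?_⟩
  have h1 := (hK k hk (-y)).1
  have h2 := (hK k hk y).2
  have hm2 : MeasurableSet {ω : ℕ → ℝ | S k ω < y * √k} :=
    measurableSet_lt (measurable_S k) measurable_const
  have h3 : (seqLaw ρ).real {ω | y * √k ≤ |S k ω|} ≤
      (seqLaw ρ).real {ω | S k ω ≤ -y * √k} + (seqLaw ρ).real {ω | S k ω < y * √k}ᶜ := by
    refine le_trans (measureReal_mono ?_) (measureReal_union_le _ _)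
    intro ω hω
    change y * √k ≤ |S k ω| at hω
    rcases le_abs.mp hω with h | h
    · right
      simp only [Set.mem_compl_iff, Set.mem_ofPred_eq, not_lt]
      exact h
    · left
      change S k ω ≤ -y * √k
      linarith
  have h4 : (seqLaw ρ).real {ω | S k ω < y * √k}ᶜ = 1 - (seqLaw ρ).real {ω | S k ω < y * √k} :=
    probReal_compl_eq_one_sub hm2
  have h5 : (gaussianReal 0 1).real (Set.Iic y) = 1 - (gaussianReal 0 1).real (Set.Ioi y) := by
    rw [← Set.compl_Ioi, probReal_compl_eq_one_sub measurableSet_Ioi]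
  have h6 : (gaussianReal 0 1).real (Set.Ioi y) ≤ Real.exp (-(y ^ 2) / 2) :=
    (measureReal_mono Set.Ioi_subset_Ici_self).trans (F8a_gauss hy)
  have h7 := F8a_gauss' hy
  rw [abs_le] at h1 h2
  linarith [h1.2, h2.1]

theorem F8a_std {ρ : Measure ℝ} (hρ : Std ρ) : ∀ ε > (0 : ℝ), ∀ θ > (0 : ℝ), ∃ κ₀ > (0 : ℝ),
    ∀ κ : ℝ, 0 < κ → κ ≤ κ₀ →
    ∃ n₀ : ℕ, ∀ n ≥ n₀, (seqLaw ρ).real {ω | ∃ j : ℕ, (j : ℝ) ≤ κ * n + 1 ∧ ε * √n ≤ |S j ω|} ≤
      θ * κ := by
  have hprob := hρ.prob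
  intro ε hε θ hθ
  refine ⟨min (ε ^ 2 / 16) (θ * ε ^ 4 / 4096), lt_min (by positivity) (by positivity), ?_⟩
  intro κ hκ hκle
  have hκ1 : κ ≤ ε ^ 2 / 16 := hκle.trans (min_le_left _ _)
  have hκ2 : κ ≤ θ * ε ^ 4 / 4096 := hκle.trans (min_le_right _ _)
  obtain ⟨K, hK⟩ := F8a_tail hρ (θ * κ / 8) (by positivity)
  obtain ⟨n₁, hn₁⟩ := exists_nat_ge (((K : ℝ) + 1) / κ)
  refine ⟨max n₁ 1, fun n hn => ?_⟩
  simp only [ge_iff_le, max_le_iff] at hn
  obtain ⟨h1, h2⟩ := hn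
  have hnpos : (0 : ℝ) < n := by exact_mod_cast h2
  have hsn : 0 < √(n : ℝ) := Real.sqrt_pos.mpr hnpos
  have hκn : (K : ℝ) + 1 ≤ κ * n := by
    have h4 : ((K : ℝ) + 1) / κ ≤ n := hn₁.trans (by exact_mod_cast h1)
    rw [div_le_iff₀ hκ] at h4
    linarith
  have hK0 : (0 : ℝ) ≤ K := Nat.cast_nonneg K
  set w := ⌊κ * n + 1⌋₊ with hw
  have hwle : (w : ℝ) ≤ κ * n + 1 := Nat.floor_le (by positivity)
  have hwgt : κ * n + 1 < w + 1 := Nat.lt_floor_add_one _
  have hw2 : (w : ℝ) ≤ 2 * (κ * n) := by linarith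
  have hw0 : (0 : ℝ) < w := by linarith
  have hKw : K ≤ w := by
    have : (K : ℝ) ≤ w := by linarith
    exact_mod_cast this
  have hset : {ω : ℕ → ℝ | ∃ j : ℕ, (j : ℝ) ≤ κ * n + 1 ∧ ε * √n ≤ |S j ω|} =
      {ω | ∃ j ≤ w, ε * √n ≤ |S j ω|} := by
    ext ω
    simp only [Set.mem_ofPred_eq]
    constructor
    · rintro ⟨j, hj, hja⟩
      exact ⟨j, Nat.le_floor hj, hja⟩
    · rintro ⟨j, hj, hja⟩
      refine ⟨j, le_trans ?_ hwle, hja⟩
      exact_mod_cast hj
  have ha : 0 < ε * √(n : ℝ) := by positivity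
  have hsq : √(n : ℝ) ^ 2 = n := Real.sq_sqrt hnpos.le
  have hott := F8a_ottaviani ρ w (ε * √n) (by
    intro j hj
    have hc := cheb hρ j (ε * √n / 2) (by positivity)
    have h5 : (j : ℝ) / (ε * √n / 2) ^ 2 ≤ 1 / 2 := by
      rw [div_le_div_iff₀ (by positivity) (by norm_num)]
      have h6 : (ε * √(n : ℝ) / 2) ^ 2 = ε ^ 2 * n / 4 := by
        rw [div_pow, mul_pow, hsq]; norm_num
      rw [h6]
      have h7 : (j : ℝ) ≤ 2 * (κ * n) := le_trans (by exact_mod_cast hj) hw2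
      nlinarith
    have hms : MeasurableSet {η : ℕ → ℝ | ε * √n / 2 ≤ |S j η|} :=
      measurableSet_le measurable_const (measurable_S j).abs
    have h8 : (seqLaw ρ).real {η : ℕ → ℝ | ε * √n / 2 ≤ |S j η|}ᶜ ≥ 1 / 2 := by
      rw [probReal_compl_eq_one_sub hms]
      linarith
    have h9 : (seqLaw ρ).real {η : ℕ → ℝ | ε * √n / 2 ≤ |S j η|}ᶜ ≤
        (seqLaw ρ).real {η : ℕ → ℝ | |S j η| ≤ ε * √n / 2} := by
      refine measureReal_mono ?_ (measure_ne_top _ _)
      intro η hη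
      simp only [Set.mem_compl_iff, Set.mem_ofPred_eq, not_le] at hη
      exact hη.le
    have h10 : (1 / 2 : ℝ) ≤ (seqLaw ρ).real {η : ℕ → ℝ | |S j η| ≤ ε * √n / 2} := h8.trans h9
    have h11 := ENNReal.ofReal_le_ofReal h10
    rw [ofReal_measureReal] at h11
    refine le_trans (le_of_eq ?_) h11
    rw [ENNReal.ofReal_div_of_pos (by norm_num)]
    simp)
  have hottR : (seqLaw ρ).real {ω | ∃ j ≤ w, ε * √n ≤ |S j ω|} ≤
      2 * (seqLaw ρ).real {ω | ε * √n / 2 ≤ |S w ω|} := by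
    rw [measureReal_def, measureReal_def]
    have := ENNReal.toReal_mono (ENNReal.mul_ne_top (by norm_num) (measure_ne_top _ _)) hott
    rwa [ENNReal.toReal_mul, ENNReal.toReal_ofNat] at this
  set y : ℝ := ε * √n / (2 * √w) with hy
  have hsw : 0 < √(w : ℝ) := Real.sqrt_pos.mpr hw0
  have hyw : y * √w = ε * √n / 2 := by rw [hy]; field_simp
  have hysq : ε ^ 2 / (8 * κ) ≤ y ^ 2 := by
    rw [hy, div_pow, mul_pow, mul_pow, hsq, Real.sq_sqrt hw0.le,
      div_le_div_iff₀ (by positivity) (by positivity)]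
    have := mul_le_mul_of_nonneg_left hw2 (by positivity : 0 ≤ ε ^ 2 * 4)
    nlinarith
  have htail := hK w hKw y (by positivity)
  rw [hyw] at htail
  have hexp : Real.exp (-(y ^ 2) / 2) ≤ 512 * κ ^ 2 / ε ^ 4 := by
    have h5 : Real.exp (-(y ^ 2) / 2) ≤ Real.exp (-(ε ^ 2 / (16 * κ))) := by
      apply Real.exp_le_exp.mpr
      have h6 : ε ^ 2 / (16 * κ) = ε ^ 2 / (8 * κ) / 2 := by field_simp; norm_num
      rw [h6]; linarith
    refine h5.trans ?_
    set x : ℝ := ε ^ 2 / (16 * κ) with hx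
    have hx0 : 0 < x := by positivity
    have h7 : x ^ 2 / 2 ≤ Real.exp x := by
      have := Real.quadratic_le_exp_of_nonneg hx0.le
      linarith
    rw [Real.exp_neg]
    have h8 : (Real.exp x)⁻¹ ≤ (x ^ 2 / 2)⁻¹ := inv_anti₀ (by positivity) h7
    refine h8.trans (le_of_eq ?_)
    rw [hx]
    field_simp
    norm_num
  have hfin : 4 * (512 * κ ^ 2 / ε ^ 4) ≤ θ * κ / 2 := by
    have h5 : 4 * (512 * κ ^ 2 / ε ^ 4) = κ * (2048 * κ / ε ^ 4) := by ring
    have h6 : 2048 * κ / ε ^ 4 ≤ θ / 2 := by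
      rw [div_le_iff₀ (by positivity)]
      linarith
    rw [h5]
    have := mul_le_mul_of_nonneg_left h6 hκ.le
    linarith
  rw [hset]
  linarith

/-- **[FV-F8a]** Modulus of continuity. -/
theorem modulus (τ : Measure ℝ) [IsProbabilityMeasure τ] (h2 : Integrable (fun x : ℝ => x ^ 2) τ)
    (hm : ∫ x, x ∂τ = 0) : ∀ ε > (0 : ℝ), ∀ θ > (0 : ℝ), ∃ κ₀ > (0 : ℝ), ∀ κ : ℝ, 0 < κ → κ ≤ κ₀ →
    ∃ n₀ : ℕ, ∀ n ≥ n₀, (seqLaw τ).real {ω | ∃ j : ℕ, (j : ℝ) ≤ κ * n + 1 ∧ ε * √n ≤ |S j ω|} ≤ θ * κ := by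
  intro ε hε θ hθ
  have hsqm : Measurable (fun x : ℝ => x ^ 2) := measurable_id.pow_const 2
  by_cases hv : ∫ x, x ^ 2 ∂τ = 0
  · -- degenerate case
    refine ⟨1, one_pos, fun κ hκ _ => ⟨1, fun n hn => ?_⟩⟩
    have hnpos : (0 : ℝ) < n := by exact_mod_cast hn
    have hsn : 0 < √(n : ℝ) := Real.sqrt_pos.mpr hnpos
    have h0 : (fun x : ℝ => x ^ 2) =ᵐ[τ] 0 :=
      (integral_eq_zero_iff_of_nonneg (fun x => sq_nonneg x) h2).mp hv
    have h1 : ∀ᵐ x ∂τ, x = 0 := by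
      filter_upwards [h0] with x hx
      have : x ^ 2 = 0 := hx
      exact pow_eq_zero_iff (two_ne_zero) |>.mp this
    have h3 : ∀ᵐ ω ∂(seqLaw τ), ∀ i, ω i = 0 := by
      rw [ae_all_iff]
      intro i
      exact (measurePreserving_eval_infinitePi (fun _ : ℕ => τ) i).quasiMeasurePreserving.ae h1
    have h4 : seqLaw τ {ω | ∃ j : ℕ, (j : ℝ) ≤ κ * n + 1 ∧ ε * √n ≤ |S j ω|} = 0 := by
      have h5 : ∀ᵐ ω ∂(seqLaw τ), ¬ ∃ j : ℕ, (j : ℝ) ≤ κ * n + 1 ∧ ε * √n ≤ |S j ω| := by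
        filter_upwards [h3] with ω hω
        rintro ⟨j, _, hj⟩
        have hS : S j ω = 0 := Finset.sum_eq_zero fun i _ => hω i
        rw [hS, abs_zero] at hj
        have : 0 < ε * √(n : ℝ) := by positivity
        linarith
      rw [ae_iff] at h5
      simpa using h5
    rw [measureReal_def, h4]
    simp only [ENNReal.toReal_zero]
    positivity
  · have hvpos : 0 < ∫ x, x ^ 2 ∂τ :=
      lt_of_le_of_ne (integral_nonneg fun x => sq_nonneg x) (Ne.symm hv)
    set s := √(∫ x, x ^ 2 ∂τ) with hs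
    have hs0 : 0 < s := Real.sqrt_pos.mpr hvpos
    have hs2 : s ^ 2 = ∫ x, x ^ 2 ∂τ := Real.sq_sqrt hvpos.le
    have hdm : Measurable (fun x : ℝ => x / s) := measurable_id.div_const s
    have hρ : Std (τ.map fun x => x / s) := by
      refine ⟨Measure.isProbabilityMeasure_map hdm.aemeasurable, ?_, ?_, ?_⟩
      · rw [integrable_map_measure hsqm.aestronglyMeasurable hdm.aemeasurable]
        have : ((fun x : ℝ => x ^ 2) ∘ fun x : ℝ => x / s) = fun x : ℝ => x ^ 2 / s ^ 2 := by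
          ext x; simp [div_pow]
        rw [this]
        exact h2.div_const _
      · rw [integral_map hdm.aemeasurable measurable_id'.aestronglyMeasurable, integral_div, hm,
          zero_div]
      · rw [integral_map hdm.aemeasurable hsqm.aestronglyMeasurable]
        have : (fun x : ℝ => (x / s) ^ 2) = fun x : ℝ => x ^ 2 / s ^ 2 := by
          ext x; rw [div_pow]
        rw [this, integral_div, ← hs2]
        exact div_self (by positivity)
    obtain ⟨κ₀, hκ₀, hmain⟩ := F8a_std hρ (ε / s) (by positivity) θ hθ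
    refine ⟨κ₀, hκ₀, fun κ hκ hκle => ?_⟩
    obtain ⟨n₀, hn₀⟩ := hmain κ hκ hκle
    refine ⟨n₀, fun n hn => ?_⟩
    have h := hn₀ n hn
    have hmap := map_seqLaw τ (fun x => x / s) hdm
    have hgm : Measurable (fun (ω : ℕ → ℝ) (i : ℕ) => ω i / s) :=
      measurable_pi_lambda _ fun i => hdm.comp (measurable_pi_apply i)
    have hms : MeasurableSet {ω : ℕ → ℝ | ∃ j : ℕ, (j : ℝ) ≤ κ * n + 1 ∧ ε / s * √n ≤ |S j ω|} := by
      have : {ω : ℕ → ℝ | ∃ j : ℕ, (j : ℝ) ≤ κ * n + 1 ∧ ε / s * √n ≤ |S j ω|} =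
          ⋃ j : ℕ, ⋃ _ : (j : ℝ) ≤ κ * n + 1, {ω | ε / s * √n ≤ |S j ω|} := by
        ext ω
        simp
      rw [this]
      exact MeasurableSet.iUnion fun j => MeasurableSet.iUnion fun _ =>
        measurableSet_le measurable_const (measurable_S j).abs
    rw [← hmap, measureReal_def, Measure.map_apply hgm hms] at h
    rw [measureReal_def]
    have hpre : (fun (ω : ℕ → ℝ) i => ω i / s) ⁻¹'
        {ω : ℕ → ℝ | ∃ j : ℕ, (j : ℝ) ≤ κ * n + 1 ∧ ε / s * √n ≤ |S j ω|} =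
        {ω | ∃ j : ℕ, (j : ℝ) ≤ κ * n + 1 ∧ ε * √n ≤ |S j ω|} := by
      ext ω
      simp only [Set.mem_preimage, Set.mem_ofPred_eq]
      have hSj : ∀ j, S j (fun i => ω i / s) = S j ω / s := by
        intro j
        unfold S
        rw [Finset.sum_div]
      have hiff : ∀ j, ε / s * √n ≤ |S j (fun i => ω i / s)| ↔ ε * √n ≤ |S j ω| := by
        intro j
        rw [hSj, abs_div, abs_of_pos hs0, le_div_iff₀ hs0]
        have : ε / s * √n * s = ε * √n := by field_simp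
        rw [this]
      simp only [hiff]
    rw [hpre] at h
    exact h

end Pool.Agent.BPT
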