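import Pool.Agent.MP_99a865_pr.FV.F12

open MeasureTheory ProbabilityTheory Filter Topology
open scoped ENNReal NNReal

namespace Pool.Agent.BPT

variable {D : Set ℝ} {μ ν : Measure ℝ} {σ : ℝ}

theorem F9a_gi_le {δ : ℝ} (hδ : 0 < δ) (hδ1 : δ ≤ 1 / 16) (n K j : ℕ) :
    (gi n δ K j : ℝ) ≤ (δ + j * ((1 - 2 * δ) / K)) * n := by
  have h1 : 0 ≤ (1 - 2 * δ) / K := div_nonneg (by linarith) (Nat.cast_nonneg K)
  exact Nat.floor_le (by positivity)

theorem F9a_lt_gi (δ : ℝ) (n K j : ℕ) :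
    (δ + j * ((1 - 2 * δ) / K)) * n < (gi n δ K j : ℝ) + 1 :=
  Nat.lt_floor_add_one _

theorem F9a_gi_mono {δ : ℝ} (hδ1 : δ ≤ 1 / 16) (n K j : ℕ) : gi n δ K j ≤ gi n δ K (j + 1) := by
  have h1 : 0 ≤ (1 - 2 * δ) / K := div_nonneg (by linarith) (Nat.cast_nonneg K)
  refine Nat.floor_le_floor ?_
  refine mul_le_mul_of_nonneg_right ?_ (Nat.cast_nonneg n)
  push_cast
  nlinarith

/-- one good window -/
theorem F9a_win (hD : Dom D) (hσ : 0 < σ) {δ η ε R : ℝ} (hδ : 0 < δ) (hδ1 : δ ≤ 1 / 16)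
    (hη : 0 < η) (hε : 0 < ε) (K : ℕ) (hK0 : 0 < K)
    (hκδ : (1 - 2 * δ) / K < δ) {n : ℕ} (hn : 0 < n) {ω : ℕ → ℝ × ℝ} (hN : ω ∈ EvN D n)
    (hnn : NN ω) (hG : Gd σ δ ε K n ω) (hR : ∀ j ≤ K, nz σ (gi n δ K j) ω < R * √n)
    (a : ℝ) (ha : a = 3 * (σ + 1) * ε * √n + 1) (hδn : 1 ≤ δ * n)
    (h8 : 8 * a ≤ 2 * η * σ * √n) (hlong : σ * R * √n + 4 * a + 1 ≤ (1 - 2 * δ) / K * n)
    (j : ℕ) (hj : j < K) (hy : 2 * η * √n ≤ nz σ (gi n δ K j) ω) :
    |σ * (cB D (gi n δ K j) (gi n δ K (j + 1)) ω : ℝ) / √n -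
      (1 - 2 * δ) / K / max (nz σ (gi n δ K j) ω / √n) (2 * η)| ≤
      σ / √n + a * ((1 - 2 * δ) / K * n + 1) / (σ * η ^ 2 * n * √n) + 1 / (2 * η * n) := by
  set κ : ℝ := (1 - 2 * δ) / K with hκ
  set s : ℝ := √n with hs
  have hn' : (0 : ℝ) < n := by exact_mod_cast hn
  have hs0 : 0 < s := Real.sqrt_pos.mpr hn'
  have hs2 : s * s = n := Real.mul_self_sqrt hn'.le
  have hκ0 : 0 < κ := div_pos (by linarith) (by exact_mod_cast hK0)
  have hse : 0 < ε * s := by positivity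
  have ha1 : 1 ≤ a := by
    rw [ha]; nlinarith [mul_pos (mul_pos (show (0 : ℝ) < 3 by norm_num) (show 0 < σ + 1 by linarith)) hse]
  -- grid facts
  have e0 := F9a_gi_le hδ hδ1 n K j
  have e1 := F9a_gi_le hδ hδ1 n K (j + 1)
  have e2 := F9a_gi_le hδ hδ1 n K (j + 2)
  have f0 := F9a_lt_gi δ n K j
  have f1 := F9a_lt_gi δ n K (j + 1)
  have f2 := F9a_lt_gi δ n K (j + 2)
  rw [← hκ] at e0 e1 e2 f0 f1 f2
  push_cast at e1 e2 f1 f2
  set g0 := gi n δ K j with hg0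
  set g1 := gi n δ K (j + 1) with hg1
  set g2 := gi n δ K (j + 2) with hg2
  have hgm : g0 ≤ g1 := F9a_gi_mono hδ1 n K j
  have hgm2 : g1 ≤ g2 := F9a_gi_mono hδ1 n K (j + 1)
  have hg0pos : 1 ≤ g0 := by
    by_contra h
    have h0 : g0 = 0 := by omega
    rw [h0] at f0
    have : 0 ≤ (j : ℝ) * κ * n := by positivity
    push_cast at f0
    nlinarith
  have hjK : (j : ℝ) + 1 ≤ K := by exact_mod_cast hj
  have hKκ : (K : ℝ) * κ = 1 - 2 * δ := by
    rw [hκ]; field_simp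
  have hg2n : g2 < n := by
    have h1 : ((g2 : ℕ) : ℝ) < n := by
      refine lt_of_le_of_lt e2 ?_
      have h2 : (j : ℝ) * κ + κ ≤ K * κ := by nlinarith
      nlinarith
    exact_mod_cast h1
  -- application of the window estimate
  have hZ : Zw g0 ω = σ * nz σ g0 ω := by
    rw [nz]; field_simp
  have hy0 : 0 < nz σ g0 ω := lt_of_lt_of_le (by positivity) hy
  have hZ0 : 0 < Zw g0 ω := by rw [hZ]; positivity
  have hZlow : 2 * η * σ * s ≤ Zw g0 ω := by rw [hZ]; nlinarith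
  have hZup : Zw g0 ω ≤ σ * R * s := by
    rw [hZ]
    have := hR j hj.le
    nlinarith
  have hGj := hG j hj.le
  have hGj1 := hG (j + 1) hj
  have hlong' : (g1 : ℝ) + Zw g0 ω + 4 * a ≤ g2 := by linarith
  have hsig : σ * (ε * s) ≤ a := by
    rw [ha]; nlinarith
  have h3 : 3 * (ε * s) ≤ a := by
    rw [ha]; nlinarith [mul_pos hσ hse]
  have hcw := count_window hD hN hnn g0 g1 g2 hg0pos hgm hg2n a ha1 (h8.trans hZlow) hlong'
    (by
      intro k hk1 hk2
      have h4 := (hGj k hk1 hk2).1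
      have h5 : Zw k ω - Zw g0 ω = σ * (nz σ k ω - nz σ g0 ω) := by
        rw [nz, nz]; field_simp
      rw [h5, abs_mul, abs_of_pos hσ]
      exact (mul_le_mul_of_nonneg_left h4 hσ.le).trans hsig)
    (by
      intro k k' hk hkk' hk'
      have hDk : ∀ l, g0 ≤ l → l ≤ g1 → |Ar l ω - l - (Ar g0 ω - g0)| ≤ ε * s := by
        intro l h1 h2
        have := (hGj l h1 h2).2
        rw [show Ar l ω - l - (Ar g0 ω - g0) = Ar l ω - Ar g0 ω - ((l : ℝ) - g0) by ring]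
        exact this
      have hDk1 : ∀ l, g1 ≤ l → l ≤ g2 → |Ar l ω - l - (Ar g1 ω - g1)| ≤ ε * s := by
        intro l h1 h2
        have := (hGj1 l h1 h2).2
        rw [show Ar l ω - l - (Ar g1 ω - g1) = Ar l ω - Ar g1 ω - ((l : ℝ) - g1) by ring]
        exact this
      have h11 := hDk g1 hgm le_rfl
      rw [show Ar k' ω - Ar k ω - ((k' : ℝ) - k) =
        (Ar k' ω - k') - (Ar k ω - k) by ring]
      rw [abs_le] at h11 ⊢
      rcases le_total k' g1 with h6 | h6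
      · have h7 := abs_le.mp (hDk k' (hk.trans hkk') h6)
        have h8 := abs_le.mp (hDk k hk (hkk'.trans h6))
        constructor <;> linarith
      · have h7 := abs_le.mp (hDk1 k' h6 hk')
        rcases le_total k g1 with h9 | h9
        · have h8 := abs_le.mp (hDk k hk h9)
          constructor <;> linarith
        · have h8 := abs_le.mp (hDk1 k h9 (hkk'.trans hk'))
          constructor <;> linarith)
  have hc := hcw.1
  set r : ℝ := (cB D g0 g1 ω : ℝ) with hr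
  set L : ℝ := (g1 : ℝ) - g0 with hL
  set Z : ℝ := Zw g0 ω with hZdef
  have hLlow : |L - κ * n| ≤ 1 := by
    rw [abs_le]
    constructor <;> linarith
  have hL0 : 0 ≤ L := by
    have : ((g0 : ℕ) : ℝ) ≤ g1 := by exact_mod_cast hgm
    linarith
  have hmax : max (nz σ g0 ω / s) (2 * η) = nz σ g0 ω / s := by
    refine max_eq_left ?_
    rw [le_div_iff₀ hs0]; linarith
  have hmax2 : κ / max (nz σ g0 ω / s) (2 * η) = σ / s * (κ * n / Z) := by
    rw [hmax, hZ, ← hs2]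
    field_simp
  rw [hmax2]
  have h10 : σ * r / s - σ / s * (κ * n / Z) = σ / s * ((r - L / Z) + (L - κ * n) / Z) := by
    field_simp
    ring
  rw [h10, abs_mul, abs_of_pos (div_pos hσ hs0)]
  have h11 : |r - L / Z + (L - κ * n) / Z| ≤ 1 + 4 * a * (κ * n + 1) / Z ^ 2 + 1 / Z := by
    refine (abs_add_le _ _).trans ?_
    have h12 : |(L - κ * n) / Z| ≤ 1 / Z := by
      rw [abs_div, abs_of_pos hZ0]
      exact div_le_div_of_nonneg_right hLlow hZ0.le
    have h13 : 4 * a * L / Z ^ 2 ≤ 4 * a * (κ * n + 1) / Z ^ 2 := by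
      refine div_le_div_of_nonneg_right ?_ (by positivity)
      refine mul_le_mul_of_nonneg_left ?_ (by linarith)
      linarith [(abs_le.mp hLlow).2]
    linarith
  refine (mul_le_mul_of_nonneg_left h11 (div_pos hσ hs0).le).trans ?_
  have hκn : 0 ≤ κ * n + 1 := by positivity
  have hden : 0 < 2 * η * σ * s := by positivity
  have h14 : 4 * a * (κ * n + 1) / Z ^ 2 ≤ 4 * a * (κ * n + 1) / (2 * η * σ * s) ^ 2 := by
    refine div_le_div_of_nonneg_left (by positivity) (by positivity) ?_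
    exact pow_le_pow_left₀ hden.le hZlow 2
  have h15 : 1 / Z ≤ 1 / (2 * η * σ * s) := one_div_le_one_div_of_le hden hZlow
  have h16 : σ / s * (1 + 4 * a * (κ * n + 1) / Z ^ 2 + 1 / Z) ≤
      σ / s * (1 + 4 * a * (κ * n + 1) / (2 * η * σ * s) ^ 2 + 1 / (2 * η * σ * s)) := by
    refine mul_le_mul_of_nonneg_left ?_ (div_pos hσ hs0).le
    linarith
  refine h16.trans (le_of_eq ?_)
  rw [← hs2]
  field_simp
  ring


theorem F9a_decomp (f : ℕ → ℝ) (g : ℕ → ℕ) (hg : ∀ j, g j ≤ g (j + 1)) (K : ℕ) :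
    ∑ b ∈ Finset.Ico (g 0) (g K), f b =
      ∑ j ∈ Finset.range K, ∑ b ∈ Finset.Ico (g j) (g (j + 1)), f b := by
  induction K with
  | zero => simp
  | succ K ih =>
    rw [Finset.sum_range_succ, ← ih,
      Finset.sum_Ico_consecutive f (monotone_nat_of_le_succ hg (Nat.zero_le K)) (hg K)]

theorem F9a_decomp' (f : ℕ → ℝ) (g : ℕ → ℕ) (hg : ∀ j, g j ≤ g (j + 1)) (K n : ℕ)
    (hn : g K ≤ n) :
    ∑ b ∈ Finset.range n, f b =
      ∑ j ∈ Finset.range K, ∑ b ∈ Finset.Ico (g j) (g (j + 1)), f b +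
      (∑ b ∈ Finset.Ico 0 (g 0), f b + ∑ b ∈ Finset.Ico (g K) n, f b) := by
  have h0 : g 0 ≤ g K := monotone_nat_of_le_succ hg (Nat.zero_le K)
  rw [← F9a_decomp f g hg K, Finset.range_eq_Ico,
    ← Finset.sum_Ico_consecutive f (Nat.zero_le (g 0)) (h0.trans hn),
    ← Finset.sum_Ico_consecutive f h0 hn]
  ring

theorem F9a_le (f : ℕ → ℝ) (hf : ∀ b, 0 ≤ f b) (g : ℕ → ℕ) (hg : ∀ j, g j ≤ g (j + 1)) (K n : ℕ)
    (hn : g K ≤ n) :
    ∑ j ∈ Finset.range K, ∑ b ∈ Finset.Ico (g j) (g (j + 1)), f b ≤ ∑ b ∈ Finset.range n, f b := by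
  rw [F9a_decomp' f g hg K n hn]
  have h1 : 0 ≤ ∑ b ∈ Finset.Ico 0 (g 0), f b := Finset.sum_nonneg fun b _ => hf b
  have h2 : 0 ≤ ∑ b ∈ Finset.Ico (g K) n, f b := Finset.sum_nonneg fun b _ => hf b
  linarith

theorem F9a_gK {δ : ℝ} (hδ : 0 < δ) (hδ1 : δ ≤ 1 / 16) (n K : ℕ) (hK0 : 0 < K) :
    gi n δ K K ≤ n := by
  have h := F9a_gi_le hδ hδ1 n K K
  have h1 : (K : ℝ) * ((1 - 2 * δ) / K) = 1 - 2 * δ := by
    have : (K : ℝ) ≠ 0 := by positivity
    field_simp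
  rw [h1] at h
  have h2 : (gi n δ K K : ℝ) ≤ n := by
    have : (0 : ℝ) ≤ n := Nat.cast_nonneg n
    nlinarith
  exact_mod_cast h2

open Classical in
/-- the bad windows -/
theorem F9a_bad (hσ : 0 < σ) {δ η ε : ℝ} (hδ : 0 < δ) (hδ1 : δ ≤ 1 / 16)
    (hη : 0 < η) (hε2 : ε ≤ η) (K : ℕ) (hK0 : 0 < K) {n : ℕ} (hn : 0 < n) {ω : ℕ → ℝ × ℝ}
    (hG : Gd σ δ ε K n ω) (hκn : 2 ≤ (1 - 2 * δ) / K * n) :
    (∑ j ∈ (Finset.range K).filter (fun j => nz σ (gi n δ K j) ω < 2 * η * √n),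
      (cB D (gi n δ K j) (gi n δ K (j + 1)) ω : ℝ)) ≤ cBl D σ n (3 * η * √n) ω ∧
    (((Finset.range K).filter (fun j => nz σ (gi n δ K j) ω < 2 * η * √n)).card : ℝ) *
      ((1 - 2 * δ) / K / (2 * η)) ≤ cOcc σ n (3 * η * √n) ω / (η * n) := by
  set κ : ℝ := (1 - 2 * δ) / K with hκ
  set s : ℝ := √n with hs
  have hn' : (0 : ℝ) < n := by exact_mod_cast hn
  have hs0 : 0 < s := Real.sqrt_pos.mpr hn'
  have hg := fun j => F9a_gi_mono hδ1 n K j
  have hgK := F9a_gK hδ hδ1 n K hK0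
  have hlow : ∀ j ∈ (Finset.range K).filter (fun j => nz σ (gi n δ K j) ω < 2 * η * s),
      ∀ b ∈ Finset.Ico (gi n δ K j) (gi n δ K (j + 1)), nz σ b ω < 3 * η * s := by
    intro j hj b hb
    obtain ⟨hjK, hj2⟩ := Finset.mem_filter.mp hj
    have hb' := Finset.mem_Ico.mp hb
    have h1 := (hG j (Finset.mem_range.mp hjK).le b hb'.1 hb'.2.le).1
    have h2 := (abs_le.mp h1).2
    have h3 : ε * s ≤ η * s := mul_le_mul_of_nonneg_right hε2 hs0.le
    rw [← hs] at h2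
    linarith
  constructor
  · have h1 := F9a_le (fun b => if Bd D ω b ∧ nz σ b ω < 3 * η * s then (1 : ℝ) else 0)
      (fun b => by split_ifs <;> norm_num) (gi n δ K) hg K n hgK
    have h2 : ((cBl D σ n (3 * η * s) ω : ℕ) : ℝ) = ∑ b ∈ Finset.range n,
        (if Bd D ω b ∧ nz σ b ω < 3 * η * s then (1 : ℝ) else 0) := by
      rw [Finset.sum_boole, cBl]
    rw [h2]
    refine le_trans ?_ h1
    calc _ ≤ ∑ j ∈ (Finset.range K).filter (fun j => nz σ (gi n δ K j) ω < 2 * η * s),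
          ∑ b ∈ Finset.Ico (gi n δ K j) (gi n δ K (j + 1)),
            (if Bd D ω b ∧ nz σ b ω < 3 * η * s then (1 : ℝ) else 0) := by
          refine Finset.sum_le_sum fun j hj => ?_
          rw [cB, ← Finset.sum_boole]
          refine Finset.sum_le_sum fun b hb => ?_
          have := hlow j hj b hb
          simp only [this, and_true, le_refl]
      _ ≤ _ := Finset.sum_le_sum_of_subset_of_nonneg (Finset.filter_subset _ _)
          fun j _ _ => Finset.sum_nonneg fun b _ => by split_ifs <;> norm_num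
  · have h1 := F9a_le (fun b => if nz σ b ω < 3 * η * s then (1 : ℝ) else 0)
      (fun b => by split_ifs <;> norm_num) (gi n δ K) hg K n hgK
    have h2 : ((cOcc σ n (3 * η * s) ω : ℕ) : ℝ) = ∑ b ∈ Finset.range n,
        (if nz σ b ω < 3 * η * s then (1 : ℝ) else 0) := by
      rw [Finset.sum_boole, cOcc]
    have h3 : (((Finset.range K).filter (fun j => nz σ (gi n δ K j) ω < 2 * η * s)).card : ℝ) *
        (κ * n / 2) ≤ (cOcc σ n (3 * η * s) ω : ℝ) := by
      rw [h2]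
      refine le_trans ?_ h1
      rw [← nsmul_eq_mul, ← Finset.sum_const]
      calc _ ≤ ∑ j ∈ (Finset.range K).filter (fun j => nz σ (gi n δ K j) ω < 2 * η * s),
            ∑ b ∈ Finset.Ico (gi n δ K j) (gi n δ K (j + 1)),
              (if nz σ b ω < 3 * η * s then (1 : ℝ) else 0) := by
            refine Finset.sum_le_sum fun j hj => ?_
            have h4 : ∑ b ∈ Finset.Ico (gi n δ K j) (gi n δ K (j + 1)),
              (if nz σ b ω < 3 * η * s then (1 : ℝ) else 0) =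
              ∑ b ∈ Finset.Ico (gi n δ K j) (gi n δ K (j + 1)), (1 : ℝ) := by
              refine Finset.sum_congr rfl fun b hb => ?_
              rw [if_pos (hlow j hj b hb)]
            rw [h4, Finset.sum_const, Nat.card_Ico, nsmul_eq_mul, mul_one, Nat.cast_sub (hg j)]
            have e0 := F9a_gi_le hδ hδ1 n K j
            have f1 := F9a_lt_gi δ n K (j + 1)
            rw [← hκ] at e0 f1
            push_cast at f1
            linarith
        _ ≤ _ := Finset.sum_le_sum_of_subset_of_nonneg (Finset.filter_subset _ _)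
            fun j _ _ => Finset.sum_nonneg fun b _ => by split_ifs <;> norm_num
    rw [div_eq_mul_inv, le_div_iff₀ (by positivity)]
    calc _ = (((Finset.range K).filter (fun j => nz σ (gi n δ K j) ω < 2 * η * s)).card : ℝ) *
        (κ * n / 2) := by field_simp
      _ ≤ _ := h3

open Classical in
/-- the main sum -/
theorem F9a_main (hD : Dom D) (hσ : 0 < σ) {δ η ε R : ℝ} (hδ : 0 < δ) (hδ1 : δ ≤ 1 / 16)
    (hη : 0 < η) (hε : 0 < ε) (hε2 : ε ≤ η) (K : ℕ) (hK0 : 0 < K)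
    (hκδ : (1 - 2 * δ) / K < δ) {n : ℕ} (hn : 0 < n) {ω : ℕ → ℝ × ℝ} (hN : ω ∈ EvN D n)
    (hnn : NN ω) (hG : Gd σ δ ε K n ω) (hR : ∀ j ≤ K, nz σ (gi n δ K j) ω < R * √n)
    (a : ℝ) (ha : a = 3 * (σ + 1) * ε * √n + 1) (hδn : 1 ≤ δ * n)
    (h8 : 8 * a ≤ 2 * η * σ * √n) (hlong : σ * R * √n + 4 * a + 1 ≤ (1 - 2 * δ) / K * n)
    (hκn : 2 ≤ (1 - 2 * δ) / K * n)
    (B : ℝ) (hB : K * (σ / √n + a * ((1 - 2 * δ) / K * n + 1) / (σ * η ^ 2 * n * √n) +
      1 / (2 * η * n)) ≤ B)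
    (c : ℕ → ℝ) (hc0 : ∀ j < K, 0 ≤ c j) (hc1 : ∀ j < K, c j ≤ 1) :
    |∑ j ∈ Finset.range K, c j * (σ * (cB D (gi n δ K j) (gi n δ K (j + 1)) ω : ℝ) / √n) -
      YG σ δ η K n c ω| ≤ B + σ * (cBl D σ n (3 * η * √n) ω) / √n +
        cOcc σ n (3 * η * √n) ω / (η * n) := by
  obtain ⟨hb1, hb2⟩ := F9a_bad (D := D) hσ hδ hδ1 hη hε2 K hK0 hn hG hκn
  have hwin := F9a_win hD hσ (η := η) hδ hδ1 hη hε K hK0 hκδ hn hN hnn hG hR a ha hδn h8 hlong
  set κ : ℝ := (1 - 2 * δ) / K with hκ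
  set s : ℝ := √n with hs
  have hn' : (0 : ℝ) < n := by exact_mod_cast hn
  have hs0 : 0 < s := Real.sqrt_pos.mpr hn'
  have hκ0 : 0 < κ := div_pos (by linarith) (by exact_mod_cast hK0)
  set E : ℝ := σ / s + a * (κ * n + 1) / (σ * η ^ 2 * n * s) + 1 / (2 * η * n) with hE
  have ha0 : 0 ≤ a := by rw [ha]; positivity
  have hE0 : 0 ≤ E := by rw [hE]; positivity
  have hterm : ∀ j ∈ Finset.range K,
      |c j * (σ * (cB D (gi n δ K j) (gi n δ K (j + 1)) ω : ℝ) / s) -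
        κ * c j / max (nz σ (gi n δ K j) ω / s) (2 * η)| ≤
      E + (if nz σ (gi n δ K j) ω < 2 * η * s then
        (σ / s * (cB D (gi n δ K j) (gi n δ K (j + 1)) ω : ℝ) + κ / (2 * η)) else 0) := by
    intro j hj
    have hjK := Finset.mem_range.mp hj
    have h1 : c j * (σ * (cB D (gi n δ K j) (gi n δ K (j + 1)) ω : ℝ) / s) -
        κ * c j / max (nz σ (gi n δ K j) ω / s) (2 * η) =
        c j * (σ * (cB D (gi n δ K j) (gi n δ K (j + 1)) ω : ℝ) / s -
          κ / max (nz σ (gi n δ K j) ω / s) (2 * η)) := by ring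
    rw [h1, abs_mul, abs_of_nonneg (hc0 j hjK)]
    refine (mul_le_of_le_one_left (abs_nonneg _) (hc1 j hjK)).trans ?_
    split_ifs with hlt
    · have h2 : 0 ≤ σ * (cB D (gi n δ K j) (gi n δ K (j + 1)) ω : ℝ) / s := by positivity
      have h3 : 0 ≤ κ / max (nz σ (gi n δ K j) ω / s) (2 * η) := by
        refine div_nonneg hκ0.le (le_trans ?_ (le_max_right _ _))
        positivity
      have h4 : κ / max (nz σ (gi n δ K j) ω / s) (2 * η) ≤ κ / (2 * η) :=
        div_le_div_of_nonneg_left hκ0.le (by positivity) (le_max_right _ _)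
      rw [abs_le]
      have h5 : σ / s * (cB D (gi n δ K j) (gi n δ K (j + 1)) ω : ℝ) =
        σ * (cB D (gi n δ K j) (gi n δ K (j + 1)) ω : ℝ) / s := by ring
      rw [h5]
      constructor <;> linarith
    · rw [add_zero]
      exact hwin j hjK (not_lt.mp hlt)
  rw [YG, ← Finset.sum_sub_distrib]
  refine (Finset.abs_sum_le_sum_abs _ _).trans ?_
  refine (Finset.sum_le_sum hterm).trans ?_
  rw [Finset.sum_add_distrib, Finset.sum_const, Finset.card_range, nsmul_eq_mul,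
    ← Finset.sum_filter, Finset.sum_add_distrib, ← Finset.mul_sum, Finset.sum_const, nsmul_eq_mul]
  have h6 : σ / s * ∑ j ∈ (Finset.range K).filter (fun j => nz σ (gi n δ K j) ω < 2 * η * s),
      (cB D (gi n δ K j) (gi n δ K (j + 1)) ω : ℝ) ≤ σ / s * (cBl D σ n (3 * η * s) ω) :=
    mul_le_mul_of_nonneg_left hb1 (div_pos hσ hs0).le
  have h7 : σ / s * (cBl D σ n (3 * η * s) ω) = σ * (cBl D σ n (3 * η * s) ω) / s := by ring
  linarith

open Classical in
/-- the boundaries outside of the windows -/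
theorem F9a_out {δ : ℝ} (hδ : 0 < δ) (hδ1 : δ ≤ 1 / 16) (K : ℕ) (hK0 : 0 < K) {n : ℕ}
    (ω : ℕ → ℝ × ℝ) (hδn : 1 ≤ δ * n) :
    ∑ b ∈ Finset.Ico 0 (gi n δ K 0), (if Bd D ω b then (1 : ℝ) else 0) +
      ∑ b ∈ Finset.Ico (gi n δ K K) n, (if Bd D ω b then (1 : ℝ) else 0) ≤
      (cBe D (2 * δ) n ω : ℝ) := by
  have hg := fun j => F9a_gi_mono hδ1 n K j
  have hgK := F9a_gK hδ hδ1 n K hK0
  have h1 : (cBe D (2 * δ) n ω : ℝ) = ∑ b ∈ Finset.range n,
      (if Bd D ω b ∧ ((b : ℝ) ≤ 2 * δ * n ∨ (1 - 2 * δ) * n ≤ b) then (1 : ℝ) else 0) := by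
    rw [Finset.sum_boole, cBe]
  rw [h1, F9a_decomp' _ (gi n δ K) hg K n hgK]
  have h2 : 0 ≤ ∑ j ∈ Finset.range K, ∑ b ∈ Finset.Ico (gi n δ K j) (gi n δ K (j + 1)),
      (if Bd D ω b ∧ ((b : ℝ) ≤ 2 * δ * n ∨ (1 - 2 * δ) * n ≤ b) then (1 : ℝ) else 0) :=
    Finset.sum_nonneg fun j _ => Finset.sum_nonneg fun b _ => by split_ifs <;> norm_num
  have h3 : ∑ b ∈ Finset.Ico 0 (gi n δ K 0), (if Bd D ω b then (1 : ℝ) else 0) =
      ∑ b ∈ Finset.Ico 0 (gi n δ K 0),
      (if Bd D ω b ∧ ((b : ℝ) ≤ 2 * δ * n ∨ (1 - 2 * δ) * n ≤ b) then (1 : ℝ) else 0) := by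
    refine Finset.sum_congr rfl fun b hb => ?_
    have hb' := (Finset.mem_Ico.mp hb).2
    have hb2 : (b : ℝ) ≤ gi n δ K 0 := by exact_mod_cast hb'.le
    have e0 := F9a_gi_le hδ hδ1 n K 0
    have h4 : (b : ℝ) ≤ 2 * δ * n := by
      push_cast at e0
      linarith [mul_nonneg hδ.le (Nat.cast_nonneg (α := ℝ) n)]
    simp only [h4, true_or, and_true]
  have h5 : ∑ b ∈ Finset.Ico (gi n δ K K) n, (if Bd D ω b then (1 : ℝ) else 0) =
      ∑ b ∈ Finset.Ico (gi n δ K K) n,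
      (if Bd D ω b ∧ ((b : ℝ) ≤ 2 * δ * n ∨ (1 - 2 * δ) * n ≤ b) then (1 : ℝ) else 0) := by
    refine Finset.sum_congr rfl fun b hb => ?_
    have hb' := (Finset.mem_Ico.mp hb).1
    have hb2 : (gi n δ K K : ℝ) ≤ b := by exact_mod_cast hb'
    have f0 := F9a_lt_gi δ n K K
    have h6 : (K : ℝ) * ((1 - 2 * δ) / K) = 1 - 2 * δ := by
      have : (K : ℝ) ≠ 0 := by positivity
      field_simp
    rw [h6] at f0
    have h4 : (1 - 2 * δ) * n ≤ (b : ℝ) := by linarith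
    simp only [h4, or_true, and_true]
  rw [h3, h5]
  linarith

open Classical in
/-- **[FV-F9a]** Deterministic approximation of the height and of the total height.
PROOF. `κ = (1-2δ)/K`, `g_j = gi n δ K j`, `L_j = g_{j+1} - g_j ∈ [κn - 1, κn + 1]`, `a = 3(σ + 1)ε√n + 1`.
Window `j < K` with `nz g_j ≥ 2η√n`: apply `count_window` with `i = g_j`, `i' = g_{j+1}`, `i'' = g_{j+2}`
(for `n ≥ n₀`: `8a ≤ 2ησ√n ≤ Zw g_j` because `ε ≤ ησ/(50(σ+1))`; `g_{j+1} + σR√n + 4a ≤ g_{j+2}`;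
`g_{j+2} ≤ g_{K+1} < n`; `h1`: `|Zw k - Zw g_j| ≤ σε√n`; `h2`: three deviations, `≤ 3ε√n`). With
`r_j = cB D g_j g_{j+1}`: `|r_j - L_j/Zw g_j| ≤ 1 + 4aL_j/(Zw g_j)²`, so
`|σ r_j/√n - κ/(nz g_j/√n)| ≤ σ/√n + σ·4a(κn+1)/(√n·4σ²η²n) + 1/(2ηn)`; the sum over `j` is at most
`σK/√n + 2a/(ση²√n) + K/(2ηn) ≤ C_σ ε/η²` for `n ≥ n₀` (`C_σ = 12(σ+1)/σ`).
Windows with `nz g_j < 2η√n`: their boundaries satisfy `nz b < 3η√n` (`ε ≤ η`), in total at most
`cBl D σ n (3η√n)`; their contribution to `YG` is `κ/(2η)` each (times `c_j ≤ 1`), and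
`κn · #{such j} ≤ 2 cOcc σ n (3η√n)` because all `nz i`, `i ∈ [g_j, g_{j+1})`, are `< 3η√n`.
The boundaries outside `[g_0, g_K)` are counted by `cBe D (2δ)` (`g_0 ≤ 2δn`, `g_K ≥ (1-2δ)n`).
For the total height: in window `j`, `∑ (n - b) = r_j (n - g_j) - ∑ (b - g_j)` and
`|n - g_j - n cT j| ≤ 1`, so `|σ n^{-3/2} ∑_{window j} (n-b) - cT j · σ r_j/√n| ≤ (κ + 2/n) σ r_j/√n`, and the
sum over `j` of the right sides is at most `(κ + 2/n) σ HB/√n`; `κ ≤ 1/K`. -/
theorem HT_det (hD : Dom D) (hσ : 0 < σ) {δ η ε R : ℝ} (hδ : 0 < δ) (hδ1 : δ ≤ 1 / 16) (hη : 0 < η)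
    (hη1 : η ≤ 1) (hε : 0 < ε) (hε1 : ε ≤ η * σ / (50 * (σ + 1))) (hε2 : ε ≤ η) (hR : 1 ≤ R) (K : ℕ)
    (hK : 4 / δ ≤ K) : ∃ n₀ : ℕ, ∀ n ≥ n₀, ∀ ω, ω ∈ EvN D n → NN ω → Gd σ δ ε K n ω →
    (∀ j ≤ K, nz σ (gi n δ K j) ω < R * √n) →
    |σ * HB D n ω / √n - YG σ δ η K n (fun _ => 1) ω| ≤ 12 * (σ + 1) / σ * ε / η ^ 2 + ε +
      σ * ((cBe D (2 * δ) n ω : ℝ) + cBl D σ n (3 * η * √n) ω) / √n +
      cOcc σ n (3 * η * √n) ω / (η * n) ∧
    |σ * TB D n ω / (n * √n) - YG σ δ η K n (cT δ K) ω| ≤ 12 * (σ + 1) / σ * ε / η ^ 2 + ε +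
      σ * ((cBe D (2 * δ) n ω : ℝ) + cBl D σ n (3 * η * √n) ω) / √n +
      cOcc σ n (3 * η * √n) ω / (η * n) + 2 / K * (σ * HB D n ω / √n) := by
  have hKr : (0 : ℝ) < K := lt_of_lt_of_le (by positivity) hK
  have hK0 : 0 < K := by exact_mod_cast hKr
  set κ : ℝ := (1 - 2 * δ) / K with hκ
  have hκ0 : 0 < κ := div_pos (by linarith) hKr
  have hKκ : (K : ℝ) * κ = 1 - 2 * δ := by rw [hκ]; field_simp
  have hκδ : κ < δ := by
    have h1 : 4 ≤ K * δ := by
      rw [div_le_iff₀ hδ] at hK; exact hK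
    have h2 : (K : ℝ) * κ < K * δ := by rw [hKκ]; linarith
    exact lt_of_mul_lt_mul_left h2 hKr.le
  set T : ℝ := 6 * (σ + 1) / σ * ε / η ^ 2 with hT
  have hT0 : 0 < T := by rw [hT]; positivity
  set Q : ℝ := σ * K + 2 / (σ * η ^ 2) + K / (2 * η) with hQ
  have hQ0 : 0 < Q := by rw [hQ]; positivity
  set P : ℝ := (σ * R + 12 * (σ + 1) * ε + 5) / κ with hP
  have hP0 : 0 < P := by rw [hP]; positivity
  have hev : ∀ᶠ n : ℕ in atTop, 1 / δ + 8 / (η * σ) + P + 1 + K + 2 / κ + Q / T ≤ √(n : ℝ) :=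
    (Real.tendsto_sqrt_atTop.comp tendsto_natCast_atTop_atTop).eventually_ge_atTop _
  obtain ⟨n₀, hn₀⟩ := eventually_atTop.mp hev
  refine ⟨n₀, fun n hn ω hN hnn hG hRn => ?_⟩
  have hM := hn₀ n hn
  set s : ℝ := √(n : ℝ) with hs
  have p1 : 0 < 1 / δ := by positivity
  have p2 : 0 < 8 / (η * σ) := by positivity
  have p3 : 0 < 2 / κ := by positivity
  have p4 : 0 < Q / T := by positivity
  have hs1 : 1 ≤ s := by linarith
  have hs0 : 0 < s := by linarith
  have hn' : (0 : ℝ) < n := Real.sqrt_pos.mp hs0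
  have hn0 : 0 < n := by exact_mod_cast hn'
  have hs2 : s * s = n := Real.mul_self_sqrt hn'.le
  have hsn : s ≤ n := by nlinarith
  -- the conditions
  have hδn : 1 ≤ δ * n := by
    have h1 : 1 / δ ≤ n := by linarith
    rw [div_le_iff₀ hδ] at h1
    linarith
  have hεσ : 50 * (σ + 1) * ε ≤ η * σ := by
    rw [le_div_iff₀ (by positivity)] at hε1
    linarith
  have h8s : 8 ≤ η * σ * s := by
    have h1 : 8 / (η * σ) ≤ s := by linarith
    rw [div_le_iff₀ (by positivity)] at h1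
    linarith
  have h8 : 8 * (3 * (σ + 1) * ε * s + 1) ≤ 2 * η * σ * s := by linarith [mul_le_mul_of_nonneg_right hεσ hs0.le, h8s]
  have hPs : σ * R + 12 * (σ + 1) * ε + 5 ≤ s * κ := by
    have h1 : P ≤ s := by linarith
    rw [hP, div_le_iff₀ hκ0] at h1
    exact h1
  have hlong : σ * R * s + 4 * (3 * (σ + 1) * ε * s + 1) + 1 ≤ κ * n := by
    rw [← hs2]; linarith [mul_le_mul_of_nonneg_right hPs hs0.le]
  have hκn : 2 ≤ κ * n := by
    have h1 : 2 / κ ≤ n := by linarith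
    rw [div_le_iff₀ hκ0] at h1
    linarith
  have hKn : (K : ℝ) ≤ n := by linarith
  have hQT : Q / s ≤ T := by
    have h1 : Q / T ≤ s := by linarith
    rw [div_le_iff₀ hT0] at h1
    rw [div_le_iff₀ hs0]
    linarith
  have hB : K * (σ / s + (3 * (σ + 1) * ε * s + 1) * (κ * n + 1) / (σ * η ^ 2 * n * s) +
      1 / (2 * η * n)) ≤ 12 * (σ + 1) / σ * ε / η ^ 2 := by
    have h1 : K * ((3 * (σ + 1) * ε * s + 1) * (κ * n + 1) / (σ * η ^ 2 * n * s)) ≤
        2 * (3 * (σ + 1) * ε * s + 1) / (σ * η ^ 2 * s) := by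
      have h2 : (K : ℝ) * (κ * n + 1) ≤ 2 * n := by
        have : (K : ℝ) * (κ * n + 1) = (1 - 2 * δ) * n + K := by rw [← hKκ]; ring
        rw [this]; linarith [mul_nonneg hδ.le hn'.le]
      calc K * ((3 * (σ + 1) * ε * s + 1) * (κ * n + 1) / (σ * η ^ 2 * n * s)) =
          (3 * (σ + 1) * ε * s + 1) * (K * (κ * n + 1)) / (σ * η ^ 2 * n * s) := by ring
        _ ≤ (3 * (σ + 1) * ε * s + 1) * (2 * n) / (σ * η ^ 2 * n * s) := by
          refine div_le_div_of_nonneg_right ?_ (by positivity)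
          exact mul_le_mul_of_nonneg_left h2 (by positivity)
        _ = _ := by field_simp
    have h3 : K * (1 / (2 * η * n)) ≤ K / (2 * η) / s := by
      calc (K : ℝ) * (1 / (2 * η * n)) = K / (2 * η) / n := by field_simp
        _ ≤ _ := div_le_div_of_nonneg_left (by positivity) hs0 hsn
    have h4 : 2 * (3 * (σ + 1) * ε * s + 1) / (σ * η ^ 2 * s) = T + 2 / (σ * η ^ 2) / s := by
      rw [hT]; field_simp; ring
    have h5 : Q / s = K * (σ / s) + 2 / (σ * η ^ 2) / s + K / (2 * η) / s := by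
      rw [hQ]; field_simp
    have h6 : 12 * (σ + 1) / σ * ε / η ^ 2 = T + T := by rw [hT]; ring
    rw [h6, mul_add, mul_add]
    linarith
  have hmain := fun c hc0 hc1 => F9a_main hD hσ hδ hδ1 hη hε hε2 K hK0 hκδ hn0 hN hnn hG hRn
    (3 * (σ + 1) * ε * s + 1) rfl hδn h8 hlong hκn _ hB c hc0 hc1
  have hout := F9a_out (D := D) hδ hδ1 K hK0 ω hδn
  have hg := fun j => F9a_gi_mono hδ1 n K j
  have hgK := F9a_gK hδ hδ1 n K hK0
  set out : ℝ := ∑ b ∈ Finset.Ico 0 (gi n δ K 0), (if Bd D ω b then (1 : ℝ) else 0) +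
      ∑ b ∈ Finset.Ico (gi n δ K K) n, (if Bd D ω b then (1 : ℝ) else 0) with hout'
  have hout0 : 0 ≤ out := by
    rw [hout']
    refine add_nonneg (Finset.sum_nonneg fun b _ => ?_) (Finset.sum_nonneg fun b _ => ?_) <;>
    · split_ifs <;> norm_num
  have hr : ∀ j, ((cB D (gi n δ K j) (gi n δ K (j + 1)) ω : ℕ) : ℝ) =
      ∑ b ∈ Finset.Ico (gi n δ K j) (gi n δ K (j + 1)), (if Bd D ω b then (1 : ℝ) else 0) := by
    intro j
    rw [Finset.sum_boole, cB]
  have hHB : (HB D n ω : ℝ) =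
      ∑ j ∈ Finset.range K, (cB D (gi n δ K j) (gi n δ K (j + 1)) ω : ℝ) + out := by
    have h1 : (HB D n ω : ℝ) = ∑ b ∈ Finset.range n, (if Bd D ω b then (1 : ℝ) else 0) := by
      rw [Finset.sum_boole, HB]
    rw [h1, F9a_decomp' _ (gi n δ K) hg K n hgK]
    simp_rw [hr]
    rw [hout']
  have hσout : σ * out / s ≤ σ * (cBe D (2 * δ) n ω : ℝ) / s :=
    div_le_div_of_nonneg_right (mul_le_mul_of_nonneg_left hout hσ.le) hs0.le
  have hσout0 : 0 ≤ σ * out / s := by positivity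
  have hsplit : σ * ((cBe D (2 * δ) n ω : ℝ) + cBl D σ n (3 * η * s) ω) / s =
      σ * (cBe D (2 * δ) n ω : ℝ) / s + σ * cBl D σ n (3 * η * s) ω / s := by ring
  rw [hsplit]
  constructor
  · have h1 := hmain (fun _ => 1) (fun _ _ => zero_le_one) (fun _ _ => le_rfl)
    have h2 : σ * (HB D n ω : ℝ) / s - YG σ δ η K n (fun _ => 1) ω =
        (∑ j ∈ Finset.range K, (fun _ => (1 : ℝ)) j *
          (σ * (cB D (gi n δ K j) (gi n δ K (j + 1)) ω : ℝ) / s) -
          YG σ δ η K n (fun _ => 1) ω) + σ * out / s := by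
      rw [hHB]
      have h3 : ∑ j ∈ Finset.range K, (fun _ => (1 : ℝ)) j *
          (σ * (cB D (gi n δ K j) (gi n δ K (j + 1)) ω : ℝ) / s) =
          σ * (∑ j ∈ Finset.range K, (cB D (gi n δ K j) (gi n δ K (j + 1)) ω : ℝ)) / s := by
        rw [Finset.mul_sum, Finset.sum_div]
        exact Finset.sum_congr rfl fun j _ => one_mul _
      rw [h3]
      ring
    rw [h2]
    refine (abs_add_le _ _).trans ?_
    rw [abs_of_nonneg hσout0]
    linarith
  · have hc0 : ∀ j < K, 0 ≤ cT δ K j := by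
      intro j hj
      have h1 : (j : ℝ) * κ ≤ K * κ :=
        mul_le_mul_of_nonneg_right (by exact_mod_cast hj.le) hκ0.le
      rw [cT, ← hκ]
      linarith
    have hc1 : ∀ j < K, cT δ K j ≤ 1 := by
      intro j hj
      have h1 : 0 ≤ (j : ℝ) * κ := by positivity
      rw [cT, ← hκ]
      linarith
    have h1 := hmain (cT δ K) hc0 hc1
    -- the total height as a sum
    set f : ℕ → ℝ := fun b => if Bd D ω b then (n : ℝ) - b else 0 with hf
    have hTB : (TB D n ω : ℝ) = ∑ b ∈ Finset.range n, f b := by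
      rw [TB, Nat.cast_sum, hf, ← Finset.sum_filter]
      refine Finset.sum_congr rfl fun b hb => ?_
      rw [Nat.cast_sub (Finset.mem_range.mp (Finset.mem_filter.mp hb).1).le]
    rw [F9a_decomp' _ (gi n δ K) hg K n hgK] at hTB
    set outT : ℝ := ∑ b ∈ Finset.Ico 0 (gi n δ K 0), f b + ∑ b ∈ Finset.Ico (gi n δ K K) n, f b
      with houtT
    have hfle : ∀ b ≤ n, 0 ≤ f b ∧ f b ≤ n * (if Bd D ω b then (1 : ℝ) else 0) := by
      intro b hb
      have hb' : (b : ℝ) ≤ n := by exact_mod_cast hb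
      have hb0 : (0 : ℝ) ≤ b := Nat.cast_nonneg b
      simp only [hf]
      split_ifs
      · constructor <;> linarith
      · simp
    have houtT0 : 0 ≤ outT := by
      rw [houtT]
      refine add_nonneg (Finset.sum_nonneg fun b hb => ?_) (Finset.sum_nonneg fun b hb => ?_)
      · have := (Finset.mem_Ico.mp hb).2
        have h3 : gi n δ K 0 ≤ gi n δ K K := monotone_nat_of_le_succ hg (Nat.zero_le K)
        exact (hfle b (by omega)).1
      · have := (Finset.mem_Ico.mp hb).2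
        exact (hfle b this.le).1
    have houtT1 : outT ≤ n * out := by
      rw [houtT, hout', mul_add, Finset.mul_sum, Finset.mul_sum]
      refine add_le_add (Finset.sum_le_sum fun b hb => ?_) (Finset.sum_le_sum fun b hb => ?_)
      · have := (Finset.mem_Ico.mp hb).2
        have h3 : gi n δ K 0 ≤ gi n δ K K := monotone_nat_of_le_succ hg (Nat.zero_le K)
        exact (hfle b (by omega)).2
      · have := (Finset.mem_Ico.mp hb).2
        exact (hfle b this.le).2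
    have hwinT : ∀ j ∈ Finset.range K,
        |∑ b ∈ Finset.Ico (gi n δ K j) (gi n δ K (j + 1)), f b -
          n * cT δ K j * (cB D (gi n δ K j) (gi n δ K (j + 1)) ω : ℝ)| ≤
        (κ * n + 1) * (cB D (gi n δ K j) (gi n δ K (j + 1)) ω : ℝ) := by
      intro j hj
      rw [hr, Finset.mul_sum, ← Finset.sum_sub_distrib, Finset.mul_sum]
      refine (Finset.abs_sum_le_sum_abs _ _).trans (Finset.sum_le_sum fun b hb => ?_)
      have e0 := F9a_gi_le hδ hδ1 n K j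
      have f0 := F9a_lt_gi δ n K j
      have e1 := F9a_gi_le hδ hδ1 n K (j + 1)
      rw [← hκ] at e0 f0 e1
      push_cast at e1
      have hb' := Finset.mem_Ico.mp hb
      have hb1 : (gi n δ K j : ℝ) ≤ b := by exact_mod_cast hb'.1
      have hb2 : (b : ℝ) ≤ gi n δ K (j + 1) := by exact_mod_cast hb'.2.le
      simp only [hf]
      split_ifs
      · rw [mul_one, mul_one, cT, ← hκ, abs_le]
        constructor <;> linarith
      · simp
    have hns : (0 : ℝ) < n * s := by positivity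
    have h2 : σ * (TB D n ω : ℝ) / (n * s) - YG σ δ η K n (cT δ K) ω =
        (∑ j ∈ Finset.range K, σ / (n * s) *
          (∑ b ∈ Finset.Ico (gi n δ K j) (gi n δ K (j + 1)), f b -
          n * cT δ K j * (cB D (gi n δ K j) (gi n δ K (j + 1)) ω : ℝ))) +
        (∑ j ∈ Finset.range K, cT δ K j *
          (σ * (cB D (gi n δ K j) (gi n δ K (j + 1)) ω : ℝ) / s) -
          YG σ δ η K n (cT δ K) ω) + σ * outT / (n * s) := by
      rw [hTB]
      have h3 : ∑ j ∈ Finset.range K, σ / (n * s) *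
          (∑ b ∈ Finset.Ico (gi n δ K j) (gi n δ K (j + 1)), f b -
          n * cT δ K j * (cB D (gi n δ K j) (gi n δ K (j + 1)) ω : ℝ)) +
          ∑ j ∈ Finset.range K, cT δ K j *
          (σ * (cB D (gi n δ K j) (gi n δ K (j + 1)) ω : ℝ) / s) =
          σ * (∑ j ∈ Finset.range K,
            ∑ b ∈ Finset.Ico (gi n δ K j) (gi n δ K (j + 1)), f b) / (n * s) := by
        rw [← Finset.sum_add_distrib, Finset.mul_sum, Finset.sum_div]
        refine Finset.sum_congr rfl fun j _ => ?_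
        field_simp
        ring
      rw [mul_add, add_div, ← h3]
      ring
    rw [h2]
    have h4 : |∑ j ∈ Finset.range K, σ / (n * s) *
          (∑ b ∈ Finset.Ico (gi n δ K j) (gi n δ K (j + 1)), f b -
          n * cT δ K j * (cB D (gi n δ K j) (gi n δ K (j + 1)) ω : ℝ))| ≤
        2 / K * (σ * (HB D n ω : ℝ) / s) := by
      refine (Finset.abs_sum_le_sum_abs _ _).trans ?_
      have h5 : ∀ j ∈ Finset.range K, |σ / (n * s) *
          (∑ b ∈ Finset.Ico (gi n δ K j) (gi n δ K (j + 1)), f b -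
          n * cT δ K j * (cB D (gi n δ K j) (gi n δ K (j + 1)) ω : ℝ))| ≤
          σ / (n * s) * (κ * n + 1) * (cB D (gi n δ K j) (gi n δ K (j + 1)) ω : ℝ) := by
        intro j hj
        rw [abs_mul, abs_of_pos (div_pos hσ hns)]
        exact (mul_le_mul_of_nonneg_left (hwinT j hj) (div_pos hσ hns).le).trans
          (le_of_eq (by ring))
      refine (Finset.sum_le_sum h5).trans ?_
      rw [← Finset.mul_sum]
      have h6 : ∑ j ∈ Finset.range K, (cB D (gi n δ K j) (gi n δ K (j + 1)) ω : ℝ) ≤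
          (HB D n ω : ℝ) := by rw [hHB]; linarith
      have h7 : σ / (n * s) * (κ * n + 1) ≤ 2 / K * (σ / s) := by
        have h8 : κ * n + 1 ≤ 2 / K * n := by
          have h9 : 2 / (K : ℝ) * n = (2 * n) / K := by ring
          rw [h9, le_div_iff₀ hKr]
          have h10 : (κ * n + 1) * (K : ℝ) = (K * κ) * n + K := by ring
          rw [h10, hKκ]
          linarith [mul_nonneg hδ.le hn'.le]
        calc σ / (n * s) * (κ * n + 1) ≤ σ / (n * s) * (2 / K * n) :=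
              mul_le_mul_of_nonneg_left h8 (div_pos hσ hns).le
          _ = 2 / K * (σ / s) := by field_simp
      calc _ ≤ 2 / K * (σ / s) * (HB D n ω : ℝ) :=
            mul_le_mul h7 h6 (Finset.sum_nonneg fun j _ => Nat.cast_nonneg _) (by positivity)
        _ = _ := by ring
    have h5 : σ * outT / (n * s) ≤ σ * out / s := by
      calc σ * outT / (n * s) ≤ σ * (n * out) / (n * s) :=
            div_le_div_of_nonneg_right (mul_le_mul_of_nonneg_left houtT1 hσ.le) hns.le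
        _ = _ := by field_simp
    have h6 : 0 ≤ σ * outT / (n * s) := by positivity
    refine (abs_add_le _ _).trans ?_
    rw [abs_of_nonneg h6]
    have h7 := abs_add_le (∑ j ∈ Finset.range K, σ / (n * s) *
          (∑ b ∈ Finset.Ico (gi n δ K j) (gi n δ K (j + 1)), f b -
          n * cT δ K j * (cB D (gi n δ K j) (gi n δ K (j + 1)) ω : ℝ)))
        (∑ j ∈ Finset.range K, cT δ K j *
          (σ * (cB D (gi n δ K j) (gi n δ K (j + 1)) ω : ℝ) / s) -
          YG σ δ η K n (cT δ K) ω)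
    linarith

end Pool.Agent.BPT
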