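import Pool.Agent.MP_99a865_pr.FV.F12

open MeasureTheory ProbabilityTheory Filter Topology
open scoped ENNReal NNReal

namespace Pool.Agent.BPT

variable {D : Set ℝ} {μ ν : Measure ℝ} {σ : ℝ}

/-- windows cover `[g 0, g K]` -/
lemma F9b_window (g : ℕ → ℕ) (i : ℕ) : ∀ K : ℕ, 0 < K → g 0 ≤ i → i ≤ g K →
    ∃ j < K, g j ≤ i ∧ i ≤ g (j + 1) := by
  intro K
  induction K with
  | zero => intro h; omega
  | succ K ih =>
    intro _ h0 hK
    rcases Nat.eq_zero_or_pos K with rfl | hpos
    · exact ⟨0, by omega, h0, hK⟩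
    · rcases Nat.le_total i (g K) with h | h
      · obtain ⟨j, hj, h1, h2⟩ := ih hpos h0 h
        exact ⟨j, by omega, h1, h2⟩
      · exact ⟨K, by omega, h, hK⟩

lemma F9b_Ar_mono {ω : ℕ → ℝ × ℝ} (hnn : NN ω) {k k' : ℕ} (h : k ≤ k') : Ar k ω ≤ Ar k' ω := by
  unfold Ar
  exact Finset.sum_le_sum_of_subset_of_nonneg (Finset.range_mono h) fun i _ _ => (hnn i).1

/-- iteration of the lower bound for the arrivals -/
lemma F9b_iter {ω : ℕ → ℝ × ℝ} (n q : ℕ) (x : ℝ) (hlow : ∀ b ≤ n, x < Ar (b + q) ω - Ar b ω) (b : ℕ) :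
    ∀ t : ℕ, 0 < t → b + (t - 1) * q ≤ n → (t : ℝ) * x < Ar (b + t * q) ω - Ar b ω := by
  intro t
  induction t with
  | zero => intro h; omega
  | succ t ih =>
    intro _ hb
    rcases Nat.eq_zero_or_pos t with rfl | hpos
    · have := hlow b (by simpa using hb)
      simpa using this
    · have h1 : b + (t - 1) * q ≤ n := by
        have : (t - 1) * q ≤ (t + 1 - 1) * q := Nat.mul_le_mul_right q (by omega)
        omega
      have h2 := ih hpos h1
      have h3 := hlow (b + t * q) (by simpa using hb)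
      have h4 : b + (t + 1) * q = b + t * q + q := by ring
      rw [h4]
      push_cast
      linarith

/-- **[FV-F9b]** Deterministic approximation of the maximum and of the width.
PROOF. (Maximum) `MG ≤ Mx`. For `i` in window `j < K`: `nz i ≤ nz g_j + ε√n`; for the other `i < n` (then
`i ≤ 2δn` or `i ≥ (1-2δ)n`): `nz i < ε√n`; and `MG ≥ 0`. So `Mx ≤ MG + ε√n`.
(Width, upper bound) Let `b < b' ≤ n` be consecutive boundaries. `Ar (b'-1) - Ar b ≤ Zw b` (`Nxt_prop`).
First, iterating `hlow` `t` times, `Ar (b + tq) - Ar b > tε√n/2`, `q = ⌈ε√n⌉`, as long as `b + (t-1)q ≤ n`;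
with `t = ⌊2 Zw b/(ε√n)⌋ + 1` this exceeds `Zw b`, so `b' - 1 < b + tq`, i.e.
`b' - b ≤ tq ≤ (2 Zw b/(ε√n) + 1)(ε√n + 1)`. If `b ≤ 2δn` or `b ≥ (1-2δ)n`: `Zw b ≤ σε√n`, so
`b' - b ≤ (2σ+1)(ε√n+1) ≤ 3(σ+1)ε√n` for `n ≥ n₀`. Otherwise `b` is in a window `j < K`; if
`b' - 1 - b > Zw b + 3ε√n` take `k' = min(b'-1, g_{j+2})` (for `n ≥ n₀`,
`g_{j+2} - g_{j+1} > σ(R+ε)√n + 3ε√n`): `Ar k' - Ar b ≥ (k' - b) - 3ε√n > Zw b`, contradiction; so
`b' - b ≤ σ Mx + 3ε√n + 1`.
(Width, lower bound) let `i` be an index with `nz i = Mx`. If it is in the end zones, `Mx ≤ ε√n`. Otherwise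
`nz g_j ≥ Mx - ε√n` for its window `j`. If `nz g_j < 2η√n` then `σ Mx ≤ σ(2η + ε)√n`. Otherwise
`count_window` (as in `HT_det`, `a = 3(σ+1)ε√n + 1`) shows `cB D g_j g_{j+1} ≥ 1` for `n ≥ n₀` (`L_j/Zw` is large:
`Zw g_j ≤ σR√n`, and `1 + 4aL/Zw² ≤ L/(2 Zw)`), and the gap after such a boundary is at least
`Zw g_j - 2a ≥ σMx - σε√n - 2a` (and its successor is `≤ g_{j+2} ≤ n`). -/
theorem W_det (hD : Dom D) (hσ : 0 < σ) {δ η ε R : ℝ} (hδ : 0 < δ) (hδ1 : δ ≤ 1 / 16) (hη : 0 < η)
    (hη1 : η ≤ 1) (hε : 0 < ε) (hε1 : ε ≤ η * σ / (50 * (σ + 1))) (hε2 : ε ≤ η) (hR : 1 ≤ R) (K : ℕ)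
    (hK : 4 / δ ≤ K) : ∃ n₀ : ℕ, ∀ n ≥ n₀, ∀ ω, ω ∈ EvN D n → NN ω → Gd σ δ ε K n ω →
    (∀ j ≤ K, nz σ (gi n δ K j) ω < R * √n) →
    (∀ i < n, ((i : ℝ) ≤ 2 * δ * n ∨ (1 - 2 * δ) * n ≤ i) → nz σ i ω < ε * √n) →
    (∀ b ≤ n, ε * √n / 2 < Ar (b + ⌈ε * √n⌉₊) ω - Ar b ω) →
    (MG σ δ K n ω ≤ Mx σ n ω ∧ Mx σ n ω ≤ MG σ δ K n ω + ε * √n) ∧
    ∀ W, IsW D n ω W → |(W : ℝ) - σ * Mx σ n ω| ≤ (10 * (σ + 1) * ε + 2 * σ * η) * √n := by
  have hδ4 : 0 < 4 / δ := by positivity
  have hKpos' : (0 : ℝ) < K := lt_of_lt_of_le hδ4 hK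
  have hKpos : 0 < K := by exact_mod_cast hKpos'
  set κ : ℝ := (1 - 2 * δ) / K with hκ
  have hκpos : 0 < κ := div_pos (by linarith) hKpos'
  have hκle : κ ≤ δ / 4 := by
    rw [hκ, div_le_iff₀ hKpos']
    rw [div_le_iff₀ hδ] at hK
    linarith
  have hκK : (K : ℝ) * κ = 1 - 2 * δ := by rw [hκ]; field_simp
  set A : ℝ := 2 * σ * (R + 1) + 15 * (σ + 1) * ε + 5 with hA
  have hApos : 0 < A := by positivity
  set S₀ : ℝ := 1 + (A + 1) / κ + 8 / (η * σ) + 2 / ε + 1 / δ with hS₀
  obtain ⟨n₀, hn₀⟩ := exists_nat_ge (S₀ ^ 2)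
  refine ⟨n₀, ?_⟩
  classical
  intro n hn ω hN hnn hGd hRb hend hlow
  set s : ℝ := √(n : ℝ) with hs
  have hS₀pos : 0 < S₀ := by positivity
  have hsS : S₀ ≤ s := Real.le_sqrt_of_sq_le (le_trans hn₀ (by exact_mod_cast hn))
  have hp1 : 0 < (A + 1) / κ := by positivity
  have hp2 : 0 < 8 / (η * σ) := by positivity
  have hp3 : 0 < 2 / ε := by positivity
  have hp4 : 0 < 1 / δ := by positivity
  have hs1 : 1 ≤ s := by linarith
  have hspos : 0 < s := by linarith
  have hss : s * s = n := Real.mul_self_sqrt (by positivity)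
  have hsA : A * s + 1 ≤ κ * n := by
    have h1 : (A + 1) / κ ≤ s := by linarith
    rw [div_le_iff₀ hκpos] at h1
    rw [← hss]
    have h2 := mul_le_mul_of_nonneg_right h1 hspos.le
    linarith
  have hs8 : 8 ≤ η * σ * s := by
    have h1 : 8 / (η * σ) ≤ s := by linarith
    rw [div_le_iff₀ (by positivity)] at h1
    linarith
  have hsε : 2 ≤ ε * s := by
    have h1 : 2 / ε ≤ s := by linarith
    rw [div_le_iff₀ hε] at h1
    linarith
  have hsδ : 1 ≤ δ * n := by
    have h1 : 1 / δ ≤ s := by linarith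
    rw [div_le_iff₀ hδ] at h1
    rw [← hss]
    have h2 := mul_le_mul_of_nonneg_right h1 hspos.le
    linarith
  have hnpos : (0 : ℝ) < n := by rw [← hss]; positivity
  -- the grid
  set g : ℕ → ℕ := gi n δ K with hg
  have hgle : ∀ j, (g j : ℝ) ≤ (δ + j * κ) * n := fun j => Nat.floor_le (by positivity)
  have hglt : ∀ j, (δ + j * κ) * n < (g j : ℝ) + 1 := fun j => Nat.lt_floor_add_one _
  have hgstep : ∀ j, κ * n - 1 ≤ (g (j + 1) : ℝ) - g j := by
    intro j
    have h1 := hglt (j + 1)
    have h2 := hgle j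
    push_cast at h1
    linarith
  have hgmono : ∀ j, g j ≤ g (j + 1) := by
    intro j
    apply Nat.floor_mono
    push_cast
    have h2 := mul_pos hκpos hnpos
    linarith
  have hgmono' : Monotone g := monotone_nat_of_le_succ hgmono
  have hgK1 : g (K + 1) < n := by
    have h1 := hgle (K + 1)
    push_cast at h1
    have h2 : (δ + ((K : ℝ) + 1) * κ) * n < n := by
      have : δ + ((K : ℝ) + 1) * κ < 1 := by linarith
      have h3 := mul_lt_mul_of_pos_right this hnpos
      linarith
    exact_mod_cast lt_of_le_of_lt h1 h2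
  have hglt' : ∀ j ≤ K + 1, g j < n := fun j hj => lt_of_le_of_lt (hgmono' hj) hgK1
  have hg0 : 1 ≤ g 0 := by
    apply Nat.le_floor
    simpa using hsδ
  have hgpos : ∀ j, 1 ≤ g j := fun j => le_trans hg0 (hgmono' (Nat.zero_le j))
  have hZpos : ∀ i, 1 ≤ i → i < n → 0 ≤ Zw i ω := fun i h1 h2 => hD.nonneg (hN.2.1 i h1 (by omega))
  have hnz : ∀ i, Zw i ω = σ * nz σ i ω := fun i => by rw [nz]; field_simp
  have hnzpos : ∀ i < n, 0 ≤ nz σ i ω := by
    intro i hi
    rcases Nat.eq_zero_or_pos i with rfl | hi0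
    · simp [nz, Zw, Ar, Dp]
    · exact div_nonneg (hZpos i hi0 hi) hσ.le
  have hn1 : 0 < n := by exact_mod_cast hnpos
  have : Nonempty (Fin n) := ⟨⟨0, hn1⟩⟩
  have : Nonempty (Fin K) := ⟨⟨0, hKpos⟩⟩
  have hMxle : ∀ i < n, nz σ i ω ≤ Mx σ n ω := fun i hi =>
    le_ciSup (f := fun i : Fin n => nz σ i ω) (Set.finite_range _).bddAbove ⟨i, hi⟩
  have hMGle : ∀ j < K, nz σ (g j) ω ≤ MG σ δ K n ω := fun j hj =>
    le_ciSup (f := fun j : Fin K => nz σ (gi n δ K j) ω) (Set.finite_range _).bddAbove ⟨j, hj⟩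
  have hMx0 : 0 ≤ Mx σ n ω := le_trans (hnzpos 0 hn1) (hMxle 0 hn1)
  have hMG0 : 0 ≤ MG σ δ K n ω := le_trans (hnzpos _ (hglt' 0 (by omega))) (hMGle 0 hKpos)
  -- location of an index
  have hloc : ∀ i < n, (∃ j < K, g j ≤ i ∧ i ≤ g (j + 1)) ∨ nz σ i ω < ε * s := by
    intro i hi
    rcases Nat.lt_or_ge i (g 0) with h0 | h0
    · right
      apply hend i hi
      left
      have h1 := hgle 0
      have h2 : (i : ℝ) ≤ g 0 := by exact_mod_cast h0.le
      simp only [Nat.cast_zero, zero_mul, add_zero] at h1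
      linarith
    · rcases Nat.lt_or_ge (g K) i with h1 | h1
      · right
        apply hend i hi
        right
        have h2 := hglt K
        have h3 : (g K : ℝ) + 1 ≤ i := by exact_mod_cast h1
        rw [hκK] at h2
        linarith
      · left
        exact F9b_window g i K hKpos h0 h1
  refine ⟨⟨?_, ?_⟩, ?_⟩
  · refine ciSup_le fun j => ?_
    exact hMxle _ (hglt' j (by have := j.2; omega))
  · refine ciSup_le fun i => ?_
    rcases hloc i i.2 with ⟨j, hj, h1, h2⟩ | h
    · have h3 := (hGd j hj.le i h1 h2).1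
      have h4 := hMGle j hj
      rw [abs_le] at h3
      have h5 := h3.2
      change nz σ (i : ℕ) ω ≤ MG σ δ K n ω + ε * s
      change nz σ (i : ℕ) ω - nz σ (g j) ω ≤ ε * s at h5
      linarith
    · change nz σ (i : ℕ) ω ≤ MG σ δ K n ω + ε * s
      linarith
  · intro W hW
    obtain ⟨hW1, hW2, hW3⟩ := hW
    have hεs : 0 < ε * s := by positivity
    -- deviations of the arrivals
    have hdev : ∀ j < K, ∀ k k' : ℕ, g j ≤ k → k ≤ k' → k' ≤ g (j + 2) →
        |Ar k' ω - Ar k ω - ((k' : ℝ) - k)| ≤ 3 * (ε * s) := by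
      intro j hj k k' h1 h2 h3
      have e1 := hGd j hj.le
      have e2 := hGd (j + 1) (by omega)
      rcases Nat.le_total k' (g (j + 1)) with h4 | h4
      · have a1 := (e1 k h1 (le_trans h2 h4)).2
        have a2 := (e1 k' (le_trans h1 h2) h4).2
        rw [abs_le] at a1 a2 ⊢
        change -(ε * s) ≤ _ ∧ _ ≤ ε * s at a1
        change -(ε * s) ≤ _ ∧ _ ≤ ε * s at a2
        constructor <;> linarith [a1.1, a1.2, a2.1, a2.2]
      · have a2 := (e2 k' h4 h3).2
        rcases Nat.le_total k (g (j + 1)) with h5 | h5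
        · have a1 := (e1 k h1 h5).2
          have a3 := (e1 (g (j + 1)) (hgmono j) le_rfl).2
          rw [abs_le] at a1 a2 a3 ⊢
          change -(ε * s) ≤ _ ∧ _ ≤ ε * s at a1
          change -(ε * s) ≤ _ ∧ _ ≤ ε * s at a2
          change -(ε * s) ≤ _ ∧ _ ≤ ε * s at a3
          change -(ε * s) ≤ Ar k' ω - Ar (g (j + 1)) ω - ((k' : ℝ) - g (j + 1)) ∧
            Ar k' ω - Ar (g (j + 1)) ω - ((k' : ℝ) - g (j + 1)) ≤ ε * s at a2
          change -(ε * s) ≤ Ar k ω - Ar (g j) ω - ((k : ℝ) - g j) ∧
            Ar k ω - Ar (g j) ω - ((k : ℝ) - g j) ≤ ε * s at a1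
          change -(ε * s) ≤ Ar (g (j + 1)) ω - Ar (g j) ω - ((g (j + 1) : ℝ) - g j) ∧
            Ar (g (j + 1)) ω - Ar (g j) ω - ((g (j + 1) : ℝ) - g j) ≤ ε * s at a3
          constructor <;> linarith [a1.1, a1.2, a2.1, a2.2, a3.1, a3.2]
        · have a1 := (e2 k h5 (le_trans h2 h3)).2
          rw [abs_le] at a1 a2 ⊢
          change -(ε * s) ≤ Ar k' ω - Ar (g (j + 1)) ω - ((k' : ℝ) - g (j + 1)) ∧
            Ar k' ω - Ar (g (j + 1)) ω - ((k' : ℝ) - g (j + 1)) ≤ ε * s at a2
          change -(ε * s) ≤ Ar k ω - Ar (g (j + 1)) ω - ((k : ℝ) - g (j + 1)) ∧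
            Ar k ω - Ar (g (j + 1)) ω - ((k : ℝ) - g (j + 1)) ≤ ε * s at a1
          constructor <;> linarith [a1.1, a1.2, a2.1, a2.2]
    have hR' : ∀ j ≤ K, nz σ (g j) ω < R * s := hRb
    have hnear : ∀ j < K, ∀ i, g j ≤ i → i ≤ g (j + 1) → |nz σ i ω - nz σ (g j) ω| ≤ ε * s :=
      fun j hj i h1 h2 => (hGd j hj.le i h1 h2).1
    have hbig : σ * (R + 1) * s + 3 * (ε * s) ≤ κ * n - 1 := by
      have : σ * (R + 1) * s + 3 * (ε * s) ≤ A * s := by
        rw [hA]
        have h1 : 0 ≤ σ * (R + 1) * s := by positivity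
        have h2 : 0 ≤ σ * ε * s := by positivity
        linarith
      linarith
    rw [abs_le]
    constructor
    · -- lower bound
      obtain ⟨i, hi⟩ := exists_eq_ciSup_of_finite (f := fun i : Fin n => nz σ i ω)
      have hi' : nz σ (i : ℕ) ω = Mx σ n ω := hi
      have hWpos : (0 : ℝ) ≤ W := Nat.cast_nonneg W
      rcases hloc i i.2 with ⟨j, hj, h1, h2⟩ | h
      · have h3 := hnear j hj i h1 h2
        rw [abs_le] at h3
        have hMj : Mx σ n ω - ε * s ≤ nz σ (g j) ω := by rw [← hi']; linarith [h3.2]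
        rcases lt_or_ge (nz σ (g j) ω) (2 * η * s) with h4 | h4
        · have h5 : Mx σ n ω ≤ (2 * η + ε) * s := by linarith
          have h6 : σ * Mx σ n ω ≤ σ * ((2 * η + ε) * s) := mul_le_mul_of_nonneg_left h5 hσ.le
          have h7 : 0 ≤ σ * (ε * s) := by positivity
          linarith
        · -- count_window
          set a : ℝ := 3 * (σ + 1) * ε * s + 1 with ha
          have ha1 : 1 ≤ a := by
            have : 0 ≤ 3 * (σ + 1) * ε * s := by positivity
            linarith
          have hZj : Zw (g j) ω = σ * nz σ (g j) ω := hnz _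
          have hZlow : 2 * η * σ * s ≤ Zw (g j) ω := by
            rw [hZj]
            have h5 := mul_le_mul_of_nonneg_left h4 hσ.le
            linarith
          have hZup : Zw (g j) ω < σ * R * s := by
            rw [hZj]
            have := mul_lt_mul_of_pos_left (hR' j hj.le) hσ
            linarith
          have hεη : (σ + 1) * ε ≤ η * σ / 50 := by
            have h5 : ε * (50 * (σ + 1)) ≤ η * σ := by
              rwa [le_div_iff₀ (by positivity)] at hε1
            linarith
          have h8a : 8 * a ≤ Zw (g j) ω := by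
            refine le_trans ?_ hZlow
            rw [ha]
            have h5 : (σ + 1) * ε * s ≤ η * σ / 50 * s := mul_le_mul_of_nonneg_right hεη hspos.le
            linarith
          have hZjpos : 0 < Zw (g j) ω := by linarith
          have hL1 : A * s ≤ (g (j + 1) : ℝ) - g j := by
            have := hgstep j
            linarith
          have hL2 : A * s ≤ (g (j + 2) : ℝ) - g (j + 1) := by
            have := hgstep (j + 1)
            linarith
          have hlong : (g (j + 1) : ℝ) + Zw (g j) ω + 4 * a ≤ g (j + 2) := by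
            have : Zw (g j) ω + 4 * a ≤ A * s := by
              rw [ha, hA]
              have h5 : 0 ≤ σ * R * s := by positivity
              have h6 : 0 ≤ σ * s := by positivity
              have h7 : 0 ≤ (σ + 1) * ε * s := by positivity
              linarith
            linarith
          have hcw := count_window hD hN hnn (g j) (g (j + 1)) (g (j + 2)) (hgpos j) (hgmono j)
            (hglt' (j + 2) (by omega)) a ha1 h8a hlong
            (by
              intro k hk1 hk2
              have h5 := hnear j hj k hk1 hk2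
              rw [hnz k, hnz (g j), ← mul_sub, abs_mul, abs_of_pos hσ]
              have h6 : σ * |nz σ k ω - nz σ (g j) ω| ≤ σ * (ε * s) := mul_le_mul_of_nonneg_left h5 hσ.le
              refine le_trans h6 ?_
              rw [ha]
              have h7 : 0 ≤ σ * (ε * s) := by positivity
              linarith)
            (by
              intro k k' hk1 hk2 hk3
              refine le_trans (hdev j hj k k' hk1 hk2 hk3) ?_
              rw [ha]
              have h7 : 0 ≤ σ * (ε * s) := by positivity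
              linarith)
          obtain ⟨hc1, hc2⟩ := hcw
          set L : ℝ := (g (j + 1) : ℝ) - g j with hL
          have hLpos : 0 < L := by
            have : 0 < A * s := by positivity
            linarith
          have hL2Z : 2 * Zw (g j) ω < L := by
            have : 2 * (σ * R * s) < A * s := by
              rw [hA]
              have h5 : 0 < σ * s := by positivity
              have h6 : 0 < (σ + 1) * ε * s := by positivity
              linarith
            linarith
          have hcB : 0 < cB D (g j) (g (j + 1)) ω := by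
            by_contra hcon
            have hz0 : cB D (g j) (g (j + 1)) ω = 0 := by omega
            rw [hz0, Nat.cast_zero, zero_sub, abs_neg, abs_of_pos (div_pos hLpos hZjpos)] at hc1
            have h5 : 4 * a * L / Zw (g j) ω ^ 2 ≤ L / Zw (g j) ω / 2 := by
              rw [div_div, div_le_div_iff₀ (by positivity) (by positivity)]
              have h6 : 8 * a * (L * Zw (g j) ω) ≤ Zw (g j) ω * (L * Zw (g j) ω) :=
                mul_le_mul_of_nonneg_right h8a (by positivity)
              linarith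
            have h6 : 2 < L / Zw (g j) ω := by
              rw [lt_div_iff₀ hZjpos]
              linarith
            linarith
          obtain ⟨b, hb⟩ := Finset.card_pos.1 hcB
          rw [Finset.mem_filter, Finset.mem_Ico] at hb
          obtain ⟨⟨hb1, hb2⟩, hb3⟩ := hb
          obtain ⟨b', hb'n, hNxt, -, -⟩ := exists_next hD hN hnn hb3
            (lt_of_lt_of_le hb2 (hglt' (j + 1) (by omega)).le)
          have h5 := (hc2 b b' hb1 hb2 hNxt).1
          have h6 := hW2 b b' hNxt hb'n
          have h7 : (b' : ℝ) - b ≤ W := by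
            have : b' ≤ W + b := by omega
            have : (b' : ℝ) ≤ W + b := by exact_mod_cast this
            linarith
          have h8 : σ * (Mx σ n ω - ε * s) ≤ Zw (g j) ω := by
            rw [hZj]
            exact mul_le_mul_of_nonneg_left hMj hσ.le
          rw [ha] at h5
          have h9 : 0 ≤ σ * (ε * s) := by positivity
          have h10 : 0 ≤ σ * η * s := by positivity
          linarith
      · have h5 : σ * Mx σ n ω ≤ σ * (ε * s) := by
          rw [← hi']
          exact mul_le_mul_of_nonneg_left h.le hσ.le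
        have h7 : 0 ≤ σ * (ε * s) := by positivity
        have h8 : 0 ≤ σ * η * s := by positivity
        linarith
    · -- upper bound
      have hσM : 0 ≤ σ * Mx σ n ω := by positivity
      have hσε : 0 ≤ σ * (ε * s) := by positivity
      have hση : 0 ≤ σ * η * s := by positivity
      rcases hW3 with rfl | ⟨b, b', hNxt, hb'n, hbW⟩
      · push_cast
        linarith
      · have hbb' : b < b' := hNxt.2.2.1
        have hWc : (W : ℝ) = (b' : ℝ) - b := by
          rw [← hbW, Nat.cast_sub hbb'.le]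
        have hb1 : 1 ≤ b := Bd_pos hNxt.1
        have hbn : b < n := by omega
        have hAr : Ar (b' - 1) ω - Ar b ω ≤ Zw b ω := by
          have h1 := hD.nonneg (Nxt_prop hD hnn hNxt).1
          rw [Zw]
          linarith
        have hb'c : ((b' - 1 : ℕ) : ℝ) = (b' : ℝ) - 1 := by
          rw [Nat.cast_sub (by omega)]; simp
        rcases hloc b hbn with ⟨j, hj, h1, h2⟩ | h
        · -- in a window
          have h3 := hnear j hj b h1 h2
          rw [abs_le] at h3
          have hZb : Zw b ω < σ * (R + 1) * s := by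
            rw [hnz b]
            have h4 : nz σ b ω < (R + 1) * s := by
              have h5 := hR' j hj.le
              have h6 : ε * s ≤ 1 * s := mul_le_mul_of_nonneg_right (by linarith) hspos.le
              linarith [h3.2]
            have := mul_lt_mul_of_pos_left h4 hσ
            linarith
          have hclaim : (b' : ℝ) - 1 - b ≤ Zw b ω + 3 * (ε * s) := by
            by_contra hcon
            push Not at hcon
            have hk' : ∃ k', b ≤ k' ∧ k' ≤ b' - 1 ∧ k' ≤ g (j + 2) ∧
                Zw b ω + 3 * (ε * s) < (k' : ℝ) - b := by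
              rcases Nat.le_total (b' - 1) (g (j + 2)) with h4 | h4
              · refine ⟨b' - 1, by omega, le_rfl, h4, ?_⟩
                rw [hb'c]
                exact hcon
              · refine ⟨g (j + 2), le_trans h2 (hgmono (j + 1)), h4, le_rfl, ?_⟩
                have h5 := hgstep (j + 1)
                have h6 : (b : ℝ) ≤ g (j + 1) := by exact_mod_cast h2
                have h7 : (g (j + 1 + 1) : ℝ) = g (j + 2) := rfl
                rw [h7] at h5
                linarith
            obtain ⟨k', hk1, hk2, hk3, hk4⟩ := hk'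
            have h5 := hdev j hj b k' h1 hk1 hk3
            rw [abs_le] at h5
            have h6 := F9b_Ar_mono hnn hk2
            linarith [h5.1]
          have hZM : Zw b ω ≤ σ * Mx σ n ω := by
            rw [hnz b]
            exact mul_le_mul_of_nonneg_left (hMxle b hbn) hσ.le
          rw [hWc]
          linarith
        · -- near the ends
          set q : ℕ := ⌈ε * s⌉₊ with hq
          have hq1 : (q : ℝ) < ε * s + 1 := Nat.ceil_lt_add_one hεs.le
          have hq0 : 0 < q := Nat.ceil_pos.2 hεs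
          have hZb0 : 0 ≤ Zw b ω := hZpos b hb1 hbn
          have hZb : Zw b ω < σ * (ε * s) := by
            rw [hnz b]
            exact mul_lt_mul_of_pos_left h hσ
          set t : ℕ := ⌊2 * Zw b ω / (ε * s)⌋₊ + 1 with ht
          have ht1 : 2 * Zw b ω / (ε * s) < t := by
            rw [ht]; push_cast
            exact Nat.lt_floor_add_one _
          have ht2 : (t : ℝ) ≤ 2 * σ + 1 := by
            rw [ht]; push_cast
            have h3 : ((⌊2 * Zw b ω / (ε * s)⌋₊ : ℕ) : ℝ) ≤ 2 * Zw b ω / (ε * s) :=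
              Nat.floor_le (by positivity)
            have h4 : 2 * Zw b ω / (ε * s) ≤ 2 * σ := by
              rw [div_le_iff₀ hεs]
              linarith
            linarith
          have hlt : b' - 1 < b + t * q := by
            by_contra hcon
            push Not at hcon
            have h3 : b + (t - 1) * q ≤ n := by
              have : (t - 1) * q ≤ t * q := Nat.mul_le_mul_right q (by omega)
              omega
            have h4 := F9b_iter (ω := ω) n q (ε * s / 2) hlow b t (by omega) h3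
            have h5 := F9b_Ar_mono hnn hcon
            have h6 : Zw b ω < t * (ε * s / 2) := by
              rw [div_lt_iff₀ hεs] at ht1
              linarith
            linarith
          have hle : (b' : ℝ) - b ≤ t * q := by
            have : b' ≤ b + t * q := by omega
            have : (b' : ℝ) ≤ b + t * q := by exact_mod_cast this
            linarith
          have hle2 : (t : ℝ) * q ≤ (2 * σ + 1) * (ε * s + 1) :=
            mul_le_mul ht2 hq1.le (Nat.cast_nonneg q) (by positivity)
          rw [hWc]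
          have h3 := mul_le_mul_of_nonneg_left hsε hσ.le
          linarith

end Pool.Agent.BPT
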