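import Pool.Agent.MP_99a865_pr.FV.G0

open MeasureTheory ProbabilityTheory Filter Topology
open scoped ENNReal NNReal

namespace Pool.Agent.BPT

lemma G1a_pi (B : Set (ℝ × ℝ)) (hB : MeasurableSet B) :
    (muS.prod nuS) B = 1 / 2 * B.indicator 1 ((1 / 2 : ℝ), (1 : ℝ)) +
      1 / 2 * B.indicator 1 ((3 / 2 : ℝ), (1 : ℝ)) := by
  have := qstd_S.probμ
  have hm : Measurable (fun x : ℝ => (x, (1 : ℝ))) := by fun_prop
  rw [nuS, Measure.prod_dirac, Measure.map_apply hm hB, muS, Measure.add_apply,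
    Measure.smul_apply, Measure.smul_apply, Measure.dirac_apply' _ (hm hB),
    Measure.dirac_apply' _ (hm hB), smul_eq_mul, smul_eq_mul]
  rfl

lemma G1a_first (B : Set (ℝ × ℝ)) (hB : MeasurableSet B) :
    ∫⁻ ω, B.indicator (1 : ℝ × ℝ → ℝ≥0∞) (ω 0) ∂(PQ muS nuS) = (muS.prod nuS) B := by
  have := qstd_S.probμ
  have := qstd_S.probν
  have h1 : (PQ muS nuS).map (fun ω : ℕ → ℝ × ℝ => ω 0) = muS.prod nuS := by
    rw [PQ, seqLaw]
    exact (measurePreserving_eval_infinitePi (fun _ : ℕ => muS.prod nuS) 0).map_eq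
  rw [← lintegral_indicator_one hB]
  conv_rhs => rw [← h1]
  rw [lintegral_map (measurable_one.indicator hB) (measurable_pi_apply 0)]

lemma G1a_split (B : Set (ℝ × ℝ)) (hB : MeasurableSet B) (E : Set (ℕ → ℝ × ℝ))
    (hE : MeasurableSet E) :
    PQ muS nuS {ω | ω 0 ∈ B ∧ shift 1 ω ∈ E} = (muS.prod nuS) B * PQ muS nuS E := by
  have := qstd_S.probμ
  have := qstd_S.probν
  have hset : MeasurableSet {ω : ℕ → ℝ × ℝ | ω 0 ∈ B ∧ shift 1 ω ∈ E} :=
    ((measurable_pi_apply 0) hB).inter ((measurable_shift 1) hE)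
  have hI : Measurable (E.indicator (1 : (ℕ → ℝ × ℝ) → ℝ≥0∞)) := measurable_one.indicator hE
  have hJ : Measurable (B.indicator (1 : ℝ × ℝ → ℝ≥0∞)) := measurable_one.indicator hB
  have h1 := lintegral_split (muS.prod nuS) 1
    (fun ω η => B.indicator 1 (ω 0) * E.indicator 1 η)
    (by
      apply Measurable.mul
      · exact hJ.comp ((measurable_pi_apply 0).comp measurable_fst)
      · exact hI.comp measurable_snd)
    (by intro ω ω' η h; simp only [h 0 one_pos])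
  have h2 : ∫⁻ ω, B.indicator (1 : ℝ × ℝ → ℝ≥0∞) (ω 0) * E.indicator 1 (shift 1 ω)
      ∂(seqLaw (muS.prod nuS)) = PQ muS nuS {ω | ω 0 ∈ B ∧ shift 1 ω ∈ E} := by
    rw [← lintegral_indicator_one hset]
    apply lintegral_congr
    intro ω
    by_cases ha : ω 0 ∈ B <;> by_cases hb : shift 1 ω ∈ E <;> simp [Set.indicator, ha, hb]
  rw [← h2, h1]
  have h3 : ∀ ω : ℕ → ℝ × ℝ, ∫⁻ η, B.indicator (1 : ℝ × ℝ → ℝ≥0∞) (ω 0) *
      E.indicator 1 η ∂(seqLaw (muS.prod nuS)) =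
      B.indicator (1 : ℝ × ℝ → ℝ≥0∞) (ω 0) * PQ muS nuS E := by
    intro ω
    rw [lintegral_const_mul _ hI, lintegral_indicator_one hE]; rfl
  have hJ' : Measurable (fun ω : ℕ → ℝ × ℝ => B.indicator (1 : ℝ × ℝ → ℝ≥0∞) (ω 0)) :=
    hJ.comp (measurable_pi_apply 0)
  rw [lintegral_congr h3, lintegral_mul_const _ hJ']
  congr 1
  exact G1a_first B hB

/-- stay in `[0, h]` from `x` at the times `≤ m`, at `0` at time `m`, then step to `-1` -/
def G1a_E (h m : ℕ) (x : ℝ) : Set (ℕ → ℝ × ℝ) :=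
  {ω | (∀ i ≤ m, 0 ≤ x + nz (1 / 2) i ω ∧ x + nz (1 / 2) i ω ≤ h) ∧ x + nz (1 / 2) m ω = 0 ∧
    x + nz (1 / 2) (m + 1) ω = -1}

lemma G1a_E_meas (h m : ℕ) (x : ℝ) : MeasurableSet (G1a_E h m x) := by
  have hz : ∀ i, Measurable (fun ω => x + nz (1 / 2) i ω) :=
    fun i => (measurable_nz i).const_add x
  have h1 : G1a_E h m x = (⋂ i ∈ Finset.range (m + 1), {ω | 0 ≤ x + nz (1 / 2) i ω ∧
      x + nz (1 / 2) i ω ≤ h}) ∩ ({ω | x + nz (1 / 2) m ω = 0} ∩
      {ω | x + nz (1 / 2) (m + 1) ω = -1}) := by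
    ext ω
    simp only [G1a_E, Set.mem_inter_iff, Set.mem_iInter, Finset.mem_range, Nat.lt_succ_iff]
    exact Iff.rfl
  rw [h1]
  refine MeasurableSet.inter ?_ (MeasurableSet.inter ?_ ?_)
  · refine Finset.measurableSet_biInter _ fun i _ => ?_
    exact (measurableSet_le measurable_const (hz i)).inter
      (measurableSet_le (hz i) measurable_const)
  · exact hz m (measurableSet_singleton 0)
  · exact hz (m + 1) (measurableSet_singleton (-1))

/-- the set of pairs with normalised step `s` -/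
def G1a_B (s : ℝ) : Set (ℝ × ℝ) := {p | (p.2 - p.1) / (1 / 2) = s}

lemma G1a_B_meas (s : ℝ) : MeasurableSet (G1a_B s) := by
  have hm : Measurable (fun p : ℝ × ℝ => (p.2 - p.1) / (1 / 2)) := by fun_prop
  exact hm (measurableSet_singleton s)

lemma G1a_B_one : (muS.prod nuS) (G1a_B 1) = 1 / 2 := by
  rw [G1a_pi _ (G1a_B_meas 1)]
  have h1 : ((1 / 2 : ℝ), (1 : ℝ)) ∈ G1a_B 1 := by
    show ((1 : ℝ) - 1 / 2) / (1 / 2) = 1
    norm_num
  have h2 : ((3 / 2 : ℝ), (1 : ℝ)) ∉ G1a_B 1 := by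
    show ¬ ((1 : ℝ) - 3 / 2) / (1 / 2) = 1
    norm_num
  rw [Set.indicator_of_mem h1, Set.indicator_of_notMem h2]
  simp

lemma G1a_B_neg : (muS.prod nuS) (G1a_B (-1)) = 1 / 2 := by
  rw [G1a_pi _ (G1a_B_meas (-1))]
  have h1 : ((1 / 2 : ℝ), (1 : ℝ)) ∉ G1a_B (-1) := by
    show ¬ ((1 : ℝ) - 1 / 2) / (1 / 2) = -1
    norm_num
  have h2 : ((3 / 2 : ℝ), (1 : ℝ)) ∈ G1a_B (-1) := by
    show ((1 : ℝ) - 3 / 2) / (1 / 2) = -1
    norm_num
  rw [Set.indicator_of_mem h2, Set.indicator_of_notMem h1]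
  simp

lemma G1a_nz_one (ω : ℕ → ℝ × ℝ) : nz (1 / 2) 1 ω = ((ω 0).2 - (ω 0).1) / (1 / 2) := by
  simp [nz, Zw, Dp, Ar]

lemma G1a_nz_zero (ω : ℕ → ℝ × ℝ) : nz (1 / 2) 0 ω = 0 := by
  simp [nz, Zw, Dp, Ar]

lemma G1a_nz_succ (l : ℕ) (ω : ℕ → ℝ × ℝ) :
    nz (1 / 2) (l + 1) ω = ((ω 0).2 - (ω 0).1) / (1 / 2) + nz (1 / 2) l (shift 1 ω) := by
  rw [add_comm l 1, nz_add, G1a_nz_one]

lemma G1a_E_succ (h m : ℕ) (x : ℝ) (hx0 : 0 ≤ x) (hxh : x ≤ h) (ω : ℕ → ℝ × ℝ) :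
    ω ∈ G1a_E h (m + 1) x ↔ shift 1 ω ∈ G1a_E h m (x + ((ω 0).2 - (ω 0).1) / (1 / 2)) := by
  simp only [G1a_E]
  constructor
  · rintro ⟨h1, h2, h3⟩
    refine ⟨fun i hi => ?_, ?_, ?_⟩
    · have h4 := h1 (i + 1) (by omega)
      rw [G1a_nz_succ, ← add_assoc] at h4
      exact h4
    · rw [G1a_nz_succ, ← add_assoc] at h2; exact h2
    · rw [G1a_nz_succ, ← add_assoc] at h3; exact h3
  · rintro ⟨h1, h2, h3⟩
    refine ⟨fun i hi => ?_, ?_, ?_⟩
    · rcases Nat.eq_zero_or_pos i with h0 | h0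
      · rw [h0, G1a_nz_zero, add_zero]; exact ⟨hx0, hxh⟩
      · obtain ⟨l, rfl⟩ : ∃ l, i = l + 1 := ⟨i - 1, by omega⟩
        rw [G1a_nz_succ, ← add_assoc]
        exact h1 l (by omega)
    · rw [G1a_nz_succ, ← add_assoc]; exact h2
    · rw [G1a_nz_succ, ← add_assoc]; exact h3

lemma G1a_rec (h m : ℕ) (x : ℝ) (hx0 : 0 ≤ x) (hxh : x ≤ h) :
    PQ muS nuS (G1a_E h (m + 1) x) =
      1 / 2 * PQ muS nuS (G1a_E h m (x + 1)) + 1 / 2 * PQ muS nuS (G1a_E h m (x - 1)) := by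
  have hae : (G1a_E h (m + 1) x : Set (ℕ → ℝ × ℝ)) =ᵐ[PQ muS nuS]
      ({ω | ω 0 ∈ G1a_B 1 ∧ shift 1 ω ∈ G1a_E h m (x + 1)} ∪
        {ω | ω 0 ∈ G1a_B (-1) ∧ shift 1 ω ∈ G1a_E h m (x - 1)} : Set (ℕ → ℝ × ℝ)) := by
    filter_upwards [ae_S] with ω hω
    apply propext
    change ω ∈ G1a_E h (m + 1) x ↔ (ω 0 ∈ G1a_B 1 ∧ shift 1 ω ∈ G1a_E h m (x + 1)) ∨
      (ω 0 ∈ G1a_B (-1) ∧ shift 1 ω ∈ G1a_E h m (x - 1))
    rw [G1a_E_succ h m x hx0 hxh]
    obtain ⟨h2, h1⟩ := hω 0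
    have hB : ∀ s, ω 0 ∈ G1a_B s ↔ ((ω 0).2 - (ω 0).1) / (1 / 2) = s := fun s => Iff.rfl
    rw [hB, hB, h2]
    rcases h1 with h1 | h1
    · rw [h1]
      have e : ((1 : ℝ) - 1 / 2) / (1 / 2) = 1 := by norm_num
      rw [e]
      constructor
      · intro h; exact Or.inl ⟨rfl, h⟩
      · rintro (h | h)
        · exact h.2
        · exact absurd h.1 (by norm_num)
    · rw [h1]
      have e : ((1 : ℝ) - 3 / 2) / (1 / 2) = -1 := by norm_num
      rw [e, ← sub_eq_add_neg]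
      constructor
      · intro h; exact Or.inr ⟨rfl, h⟩
      · rintro (h | h)
        · exact absurd h.1 (by norm_num)
        · exact h.2
  rw [measure_congr hae, measure_union, G1a_split _ (G1a_B_meas 1) _ (G1a_E_meas h m _),
    G1a_split _ (G1a_B_meas (-1)) _ (G1a_E_meas h m _), G1a_B_one, G1a_B_neg]
  · rw [Set.disjoint_left]
    rintro ω ⟨h1, -⟩ ⟨h2, -⟩
    have h3 : ((ω 0).2 - (ω 0).1) / (1 / 2) = 1 := h1
    have h4 : ((ω 0).2 - (ω 0).1) / (1 / 2) = -1 := h2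
    rw [h3] at h4
    norm_num at h4
  · exact ((measurable_pi_apply 0) (G1a_B_meas (-1))).inter
      ((measurable_shift 1) (G1a_E_meas h m _))

lemma G1a_E_empty (h m : ℕ) (x : ℝ) (hx : x < 0 ∨ (h : ℝ) < x) : G1a_E h m x = ∅ := by
  rw [Set.eq_empty_iff_forall_notMem]
  rintro ω ⟨h1, -, -⟩
  have h2 := h1 0 (Nat.zero_le m)
  rw [G1a_nz_zero, add_zero] at h2
  rcases hx with hx | hx
  · exact absurd h2.1 (not_le.mpr hx)
  · exact absurd h2.2 (not_le.mpr hx)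

lemma G1a_base (h j : ℕ) (hj : j ≤ h) :
    PQ muS nuS (G1a_E h 0 j) = (cw h 0 j : ℝ≥0∞) * (1 / 2) ^ 1 := by
  have := qstd_S.probμ
  have := qstd_S.probν
  rw [cw]
  by_cases h0 : j = 0
  · subst h0
    have h1 : G1a_E h 0 ((0 : ℕ) : ℝ) = {ω : ℕ → ℝ × ℝ | ω 0 ∈ G1a_B (-1) ∧
        shift 1 ω ∈ (Set.univ : Set (ℕ → ℝ × ℝ))} := by
      ext ω
      simp only [G1a_E, G1a_B]
      constructor
      · rintro ⟨-, -, h3⟩
        refine ⟨?_, trivial⟩
        rw [G1a_nz_succ, G1a_nz_zero, add_zero, Nat.cast_zero, zero_add] at h3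
        exact h3
      · rintro ⟨h3, -⟩
        have h3' : ((ω 0).2 - (ω 0).1) / (1 / 2) = -1 := h3
        refine ⟨fun i hi => ?_, ?_, ?_⟩
        · rw [Nat.le_zero.mp hi, G1a_nz_zero]; simp
        · rw [G1a_nz_zero]; simp
        · rw [G1a_nz_succ, G1a_nz_zero, h3']; simp
    rw [h1, G1a_split _ (G1a_B_meas (-1)) _ MeasurableSet.univ, G1a_B_neg, measure_univ]
    simp
  · have h1 : G1a_E h 0 (j : ℝ) = ∅ := by
      rw [Set.eq_empty_iff_forall_notMem]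
      rintro ω ⟨-, h2, -⟩
      rw [G1a_nz_zero, add_zero] at h2
      exact h0 (by exact_mod_cast h2)
    rw [h1, measure_empty, if_neg h0]
    simp

lemma G1a_main (h m j : ℕ) (hj : j ≤ h) :
    PQ muS nuS (G1a_E h m j) = (cw h m j : ℝ≥0∞) * (1 / 2) ^ (m + 1) := by
  induction m generalizing j with
  | zero => exact G1a_base h j hj
  | succ m ih =>
    rw [G1a_rec h m j (Nat.cast_nonneg j) (by exact_mod_cast hj), cw]
    have h1 : PQ muS nuS (G1a_E h m ((j : ℝ) + 1)) =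
        (((if j + 1 ≤ h then cw h m (j + 1) else 0 : ℕ)) : ℝ≥0∞) * (1 / 2) ^ (m + 1) := by
      by_cases h0 : j + 1 ≤ h
      · rw [if_pos h0, ← ih (j + 1) h0]; push_cast; rfl
      · rw [if_neg h0, G1a_E_empty, measure_empty, Nat.cast_zero, zero_mul]
        right
        have : h < j + 1 := by omega
        exact_mod_cast this
    have h2 : PQ muS nuS (G1a_E h m ((j : ℝ) - 1)) =
        (((if 1 ≤ j then cw h m (j - 1) else 0 : ℕ)) : ℝ≥0∞) * (1 / 2) ^ (m + 1) := by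
      by_cases h0 : 1 ≤ j
      · rw [if_pos h0, ← ih (j - 1) (by omega)]
        rw [Nat.cast_sub h0, Nat.cast_one]
      · rw [if_neg h0, G1a_E_empty, measure_empty, Nat.cast_zero, zero_mul]
        left
        have : j = 0 := by omega
        rw [this]; norm_num
    rw [h1, h2, Nat.cast_add, pow_succ (1 / 2 : ℝ≥0∞) (m + 1)]
    ring

/-- parity -/
lemma G1a_parity : ∀ᵐ ω ∂(PQ muS nuS), ∀ k, ∃ d : ℕ, nz (1 / 2) k ω = (k : ℝ) - 2 * d ∧
    (nz (1 / 2) (k + 1) ω = nz (1 / 2) k ω + 1 ∨ nz (1 / 2) (k + 1) ω = nz (1 / 2) k ω - 1) := by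
  filter_upwards [ae_S] with ω hω
  have hstep : ∀ k, nz (1 / 2) (k + 1) ω = nz (1 / 2) k ω + 1 ∨
      nz (1 / 2) (k + 1) ω = nz (1 / 2) k ω - 1 := by
    intro k
    obtain ⟨h2, h1⟩ := hω k
    have h3 : nz (1 / 2) (k + 1) ω = nz (1 / 2) k ω + ((ω k).2 - (ω k).1) / (1 / 2) := by
      simp only [nz, Zw, Dp, Ar, Finset.sum_range_succ]
      ring
    rw [h3, h2]
    rcases h1 with h1 | h1
    · left; rw [h1]; norm_num
    · right; rw [h1]; norm_num; ring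
  intro k
  refine ⟨?_, ?_⟩
  rotate_left
  · refine ⟨?_, hstep k⟩
    exact Classical.choose_spec (p := fun d : ℕ => nz (1 / 2) k ω = (k : ℝ) - 2 * d) (by
      induction k with
      | zero => exact ⟨0, by rw [G1a_nz_zero]; simp⟩
      | succ k ih =>
        obtain ⟨d, hd⟩ := ih
        rcases hstep k with h | h
        · exact ⟨d, by rw [h, hd]; push_cast; ring⟩
        · exact ⟨d + 1, by rw [h, hd]; push_cast; ring⟩)

/-- **[FV-G1a]** Law of the maximum for the simple random walk.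
PROOF. More generally, for `j ≤ h`, the probability that the walk started at `j` stays in `[0,h]` at the
times `1, …, m`, is at `0` at time `m` and then steps to `-1` is `cw h m j/2^{m+1}` (induction on `m`, first
step, `lintegral_split`/independence of the first pair). For `m = 2m'`, `j = 0` this event is, up to a
null set, `EvN (2m'+1) ∩ {Mx ≤ h}` (`Mx` is the maximum over the times `0, …, 2m'`); parity: at time `2m'`
the walk is even, and it can be `< 0` at time `2m'+1` only if it is `0` at time `2m'`. -/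
theorem srw_max (m h : ℕ) :
    (PQ muS nuS).real (EvN (Set.Ici 0) (2 * m + 1) ∩ {ω | Mx (1 / 2) (2 * m + 1) ω ≤ h}) =
      cw h (2 * m) 0 / 2 ^ (2 * m + 1) := by
  have hae : (EvN (Set.Ici 0) (2 * m + 1) ∩ {ω | Mx (1 / 2) (2 * m + 1) ω ≤ h} :
      Set (ℕ → ℝ × ℝ)) =ᵐ[PQ muS nuS] (G1a_E h (2 * m) ((0 : ℕ) : ℝ) : Set (ℕ → ℝ × ℝ)) := by
    filter_upwards [G1a_parity] with ω hω
    apply propext
    change (ω ∈ EvN (Set.Ici 0) (2 * m + 1) ∧ Mx (1 / 2) (2 * m + 1) ω ≤ h) ↔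
      ω ∈ G1a_E h (2 * m) ((0 : ℕ) : ℝ)
    have hZ : ∀ k, Zw k ω = nz (1 / 2) k ω / 2 := by intro k; simp only [nz]; ring
    constructor
    · rintro ⟨⟨-, h1, h2⟩, h3⟩
      have hpos : ∀ i ≤ 2 * m, 0 ≤ nz (1 / 2) i ω := by
        intro i hi
        rcases Nat.eq_zero_or_pos i with h0 | h0
        · rw [h0, G1a_nz_zero]
        · have h4 := h1 i h0 (by omega)
          rw [hZ, Set.mem_Ici] at h4
          linarith
      have hneg : nz (1 / 2) (2 * m + 1) ω < 0 := by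
        rw [hZ, Set.mem_Ici, not_le] at h2
        linarith
      obtain ⟨d, hd, hs⟩ := hω (2 * m)
      have hp := hpos (2 * m) le_rfl
      have hlt : nz (1 / 2) (2 * m) ω < 1 := by
        rcases hs with hs | hs <;> linarith
      have hz : nz (1 / 2) (2 * m) ω = 0 := by
        rw [hd] at hp hlt ⊢
        have h5 : (2 * d : ℕ) ≤ 2 * m := by
          have : (2 * (d : ℝ)) ≤ ((2 * m : ℕ) : ℝ) := by linarith
          exact_mod_cast this
        have h6 : (2 * m : ℕ) < 2 * d + 1 := by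
          have : ((2 * m : ℕ) : ℝ) < 2 * (d : ℝ) + 1 := by linarith
          exact_mod_cast this
        have h7 : d = m := by omega
        rw [h7]; push_cast; ring
      refine ⟨fun i hi => ?_, ?_, ?_⟩
      · rw [Nat.cast_zero, zero_add]
        refine ⟨hpos i hi, le_trans ?_ h3⟩
        have hbdd : BddAbove (Set.range fun i : Fin (2 * m + 1) => nz (1 / 2) (i : ℕ) ω) :=
          (Set.finite_range _).bddAbove
        exact le_ciSup hbdd (⟨i, by omega⟩ : Fin (2 * m + 1))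
      · rw [Nat.cast_zero, zero_add, hz]
      · rw [Nat.cast_zero, zero_add]
        rcases hs with hs | hs <;> linarith
    · rintro ⟨h1, h2, h3⟩
      refine ⟨⟨by omega, fun j hj1 hj2 => ?_, ?_⟩, ?_⟩
      · rw [hZ, Set.mem_Ici]
        have h4 := (h1 j (by omega)).1
        rw [Nat.cast_zero, zero_add] at h4
        linarith
      · rw [hZ, Set.mem_Ici, not_le]
        rw [Nat.cast_zero, zero_add] at h3
        rw [h3]; norm_num
      · refine ciSup_le fun i => ?_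
        have h4 := (h1 i (by omega)).2
        rw [Nat.cast_zero, zero_add] at h4
        exact h4
  rw [measureReal_def, measure_congr hae, G1a_main h (2 * m) 0 (Nat.zero_le h)]
  rw [ENNReal.toReal_mul, ENNReal.toReal_natCast, ENNReal.toReal_pow]
  rw [ENNReal.toReal_div, ENNReal.toReal_one, ENNReal.toReal_ofNat]
  rw [div_pow, one_pow]
  ring

/-- no exit at even times (parity) -/
theorem srw_even (m : ℕ) : PQ muS nuS (EvN (Set.Ici 0) (2 * m)) = 0 := by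
  rw [measure_eq_zero_iff_ae_notMem]
  filter_upwards [G1a_parity] with ω hω hmem
  obtain ⟨h0, h1, h2⟩ := hmem
  have hZ : ∀ k, Zw k ω = nz (1 / 2) k ω / 2 := by intro k; simp only [nz]; ring
  obtain ⟨l, hl⟩ : ∃ l, 2 * m = 2 * l + 1 + 1 := ⟨m - 1, by omega⟩
  rw [hl] at h1 h2
  have h3 := h1 (2 * l + 1) (by omega) (by omega)
  rw [hZ, Set.mem_Ici] at h3 h2
  obtain ⟨d, hd, hs⟩ := hω (2 * l + 1)
  have h4 : (1 : ℝ) ≤ nz (1 / 2) (2 * l + 1) ω := by
    rw [hd] at h3 ⊢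
    have h5 : 2 * d ≤ 2 * l + 1 := by
      have : (2 * (d : ℝ)) ≤ ((2 * l + 1 : ℕ) : ℝ) := by linarith
      exact_mod_cast this
    have h6 : 2 * d + 1 ≤ 2 * l + 1 := by omega
    have h7 : (2 * (d : ℝ)) + 1 ≤ ((2 * l + 1 : ℕ) : ℝ) := by exact_mod_cast h6
    linarith
  apply h2
  rcases hs with hs | hs <;> linarith

end Pool.Agent.BPT
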