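import Pool.Agent.MP_99a865_pr.FV.Defs

open MeasureTheory ProbabilityTheory Filter Topology
open scoped ENNReal NNReal

namespace Pool.Agent.BPT

lemma G1b_cosum (H r : ℕ) (hr : 0 < r) (hrH : r < 2 * H) :
    ∑ k ∈ Finset.range H, Real.cos (Real.pi * k * r / H) = (1 - (-1 : ℝ) ^ r) / 2 := by
  have hH0 : 0 < H := by omega
  have hH : (0 : ℝ) < H := by exact_mod_cast hH0
  have hr0 : (0 : ℝ) < r := by exact_mod_cast hr
  have hrH' : (r : ℝ) < 2 * H := by exact_mod_cast hrH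
  obtain ⟨x, hx⟩ : ∃ x : ℝ, x = Real.pi * r / (2 * H) := ⟨_, rfl⟩
  have hx0 : 0 < x := by rw [hx]; positivity
  have hxpi : x < Real.pi := by
    rw [hx, div_lt_iff₀ (by positivity)]
    exact mul_lt_mul_of_pos_left hrH' Real.pi_pos
  have hs : 0 < Real.sin x := Real.sin_pos_of_pos_of_lt_pi hx0 hxpi
  have h1 : ∀ n : ℕ, 2 * Real.sin x * ∑ k ∈ Finset.range n, Real.cos (Real.pi * k * r / H) =
      Real.sin (x * (2 * n - 1)) + Real.sin x := by
    intro n
    induction n with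
    | zero =>
      have e : x * (2 * ((0 : ℕ) : ℝ) - 1) = -x := by push_cast; ring
      rw [e, Real.sin_neg]; simp
    | succ n ih =>
      rw [Finset.sum_range_succ, mul_add, ih]
      have e0 : Real.pi * n * r / H = 2 * n * x := by rw [hx]; field_simp
      have e1 : x * (2 * ((n + 1 : ℕ) : ℝ) - 1) = 2 * n * x + x := by push_cast; ring
      have e2 : x * (2 * (n : ℝ) - 1) = 2 * n * x - x := by ring
      rw [e0, e1, e2, Real.sin_add, Real.sin_sub]; ring
  have h2 := h1 H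
  have e3 : x * (2 * (H : ℝ) - 1) = r * Real.pi - x := by
    rw [hx]; field_simp
  rw [e3, Real.sin_sub, Real.sin_nat_mul_pi, Real.cos_nat_mul_pi] at h2
  have h3 : Real.sin x * (2 * ∑ k ∈ Finset.range H, Real.cos (Real.pi * k * r / H) -
      (1 - (-1 : ℝ) ^ r)) = 0 := by linarith
  rcases mul_eq_zero.mp h3 with h | h
  · exact absurd h hs.ne'
  · linarith

/-- the trigonometric sum as a function of a real variable -/
noncomputable def G1b_G (h m : ℕ) (t : ℝ) : ℝ := 2 / (h + 2) * ∑ k ∈ Finset.Icc 1 (h + 1),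
      Real.sin (Real.pi * k / (h + 2)) * Real.sin (Real.pi * k * t / (h + 2)) *
        (2 * Real.cos (Real.pi * k / (h + 2))) ^ m

lemma G1b_rec (h m : ℕ) (t : ℝ) :
    G1b_G h (m + 1) t = G1b_G h m (t - 1) + G1b_G h m (t + 1) := by
  unfold G1b_G
  rw [← mul_add, ← Finset.sum_add_distrib]
  congr 1
  apply Finset.sum_congr rfl
  intro k _
  have e1 : Real.pi * k * (t - 1) / ((h : ℝ) + 2) =
      Real.pi * k * t / (h + 2) - Real.pi * k / (h + 2) := by ring
  have e2 : Real.pi * k * (t + 1) / ((h : ℝ) + 2) =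
      Real.pi * k * t / (h + 2) + Real.pi * k / (h + 2) := by ring
  rw [e1, e2, Real.sin_sub, Real.sin_add, pow_succ]
  ring

lemma G1b_zero (h m : ℕ) : G1b_G h m 0 = 0 := by
  unfold G1b_G
  rw [Finset.sum_eq_zero, mul_zero]
  intro k _
  rw [mul_zero, zero_div, Real.sin_zero, mul_zero, zero_mul]

lemma G1b_top (h m : ℕ) : G1b_G h m (h + 2) = 0 := by
  unfold G1b_G
  rw [Finset.sum_eq_zero, mul_zero]
  intro k _
  have hh : (h : ℝ) + 2 ≠ 0 := by positivity
  have e : Real.pi * k * (h + 2) / ((h : ℝ) + 2) = k * Real.pi := by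
    field_simp
  rw [e, Real.sin_nat_mul_pi, mul_zero, zero_mul]

lemma G1b_base (h j : ℕ) (hj : j ≤ h) :
    G1b_G h 0 (j + 1) = if j = 0 then 1 else 0 := by
  have hh : (0 : ℝ) < (h : ℝ) + 2 := by positivity
  have key : G1b_G h 0 (j + 1) = 1 / (h + 2) *
      (∑ k ∈ Finset.range (h + 2), Real.cos (Real.pi * k * j / ((h + 2 : ℕ) : ℝ)) -
        ∑ k ∈ Finset.range (h + 2), Real.cos (Real.pi * k * ((j + 2 : ℕ) : ℝ) / ((h + 2 : ℕ) : ℝ))) := by
    unfold G1b_G
    rw [← Finset.sum_sub_distrib, Finset.range_eq_Ico,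
      Finset.sum_eq_sum_Ico_succ_bot (by omega : 0 < h + 2)]
    have e0 : Real.cos (Real.pi * ((0 : ℕ) : ℝ) * j / ((h + 2 : ℕ) : ℝ)) -
        Real.cos (Real.pi * ((0 : ℕ) : ℝ) * ((j + 2 : ℕ) : ℝ) / ((h + 2 : ℕ) : ℝ)) = 0 := by
      simp
    rw [e0, zero_add]
    have e1 : Finset.Icc 1 (h + 1) = Finset.Ico (0 + 1) (h + 2) := by
      ext x; simp only [Finset.mem_Icc, Finset.mem_Ico]; omega
    rw [e1, Finset.mul_sum, Finset.mul_sum]
    apply Finset.sum_congr rfl
    intro k _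
    have e2 : Real.pi * k * j / ((h + 2 : ℕ) : ℝ) =
        Real.pi * k * (j + 1) / (h + 2) - Real.pi * k / (h + 2) := by push_cast; ring
    have e3 : Real.pi * k * ((j + 2 : ℕ) : ℝ) / ((h + 2 : ℕ) : ℝ) =
        Real.pi * k * (j + 1) / (h + 2) + Real.pi * k / (h + 2) := by push_cast; ring
    rw [e2, e3, Real.cos_sub, Real.cos_add, pow_zero]
    ring
  rw [key, G1b_cosum (h + 2) (j + 2) (by omega) (by omega)]
  by_cases h0 : j = 0
  · subst h0
    rw [if_pos rfl]
    have e4 : ∑ k ∈ Finset.range (h + 2), Real.cos (Real.pi * k * ((0 : ℕ) : ℝ) /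
        ((h + 2 : ℕ) : ℝ)) = h + 2 := by
      simp
    rw [e4]
    norm_num
    field_simp
  · rw [if_neg h0, G1b_cosum (h + 2) j (by omega) (by omega)]
    rw [pow_add]
    norm_num

/-- **[FV-G1b]** Trigonometric formula. PROOF. Induction on `m` for all `j ≤ h`. With `θ_k = πk/(h+2)`, the
function `s_k(j) = sin(θ_k (j+1))` satisfies `s_k(j-1) + s_k(j+1) = 2 cos θ_k s_k(j)` and vanishes for
`j = -1` and `j = h+1`. `m = 0`: orthogonality `(2/(h+2)) ∑_{k=1}^{h+1} sin θ_k sin(θ_k (j+1)) = 1_{j=0}`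
(`2 sin a sin b = cos(a-b) - cos(a+b)` and `∑_{k=0}^{H-1} cos(πkr/H)` for integers `r`, `H = h+2`). -/
theorem cw_formula (h m j : ℕ) (hj : j ≤ h) :
    (cw h m j : ℝ) = 2 / (h + 2) * ∑ k ∈ Finset.Icc 1 (h + 1),
      Real.sin (Real.pi * k / (h + 2)) * Real.sin (Real.pi * k * (j + 1) / (h + 2)) *
        (2 * Real.cos (Real.pi * k / (h + 2))) ^ m := by
  show (cw h m j : ℝ) = G1b_G h m (j + 1)
  induction m generalizing j with
  | zero =>
    rw [G1b_base h j hj, cw]
    split_ifs <;> simp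
  | succ m ih =>
    rw [G1b_rec, cw]
    have h1 : (((if 1 ≤ j then cw h m (j - 1) else 0) : ℕ) : ℝ) = G1b_G h m (j + 1 - 1) := by
      rcases Nat.eq_zero_or_pos j with h0 | h0
      · subst h0
        rw [if_neg (by omega)]
        have e : ((0 : ℕ) : ℝ) + 1 - 1 = 0 := by simp
        rw [e, G1b_zero]; simp
      · rw [if_pos (by omega), ih (j - 1) (by omega)]
        congr 1
        rw [Nat.cast_sub h0]; push_cast; ring
    have h2 : (((if j + 1 ≤ h then cw h m (j + 1) else 0) : ℕ) : ℝ) =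
        G1b_G h m (j + 1 + 1) := by
      by_cases h0 : j + 1 ≤ h
      · rw [if_pos h0, ih (j + 1) h0]
        push_cast
        rfl
      · rw [if_neg h0]
        have e : (j : ℝ) + 1 + 1 = (h : ℝ) + 2 := by
          have : j = h := by omega
          rw [this]; ring
        rw [e, G1b_top]; simp
    rw [Nat.cast_add, h1, h2]

end Pool.Agent.BPT
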