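import Pool.Agent.MP_99a865_pr.FV.G1a

open MeasureTheory ProbabilityTheory Filter Topology
open scoped ENNReal NNReal

namespace Pool.Agent.BPT

/-- number of unrestricted `±1` paths of length `m` from `j` to `0` -/
def G1c_a : ℕ → ℤ → ℤ
  | 0, j => if j = 0 then 1 else 0
  | m + 1, j => G1c_a m (j - 1) + G1c_a m (j + 1)

lemma G1c_a_gt (m : ℕ) (j : ℤ) (hj : (m : ℤ) < |j|) : G1c_a m j = 0 := by
  induction m generalizing j with
  | zero =>
    rw [G1c_a, if_neg]
    rintro rfl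
    simp at hj
  | succ m ih =>
    rw [G1c_a]
    push_cast at hj
    rw [lt_abs] at hj
    rw [ih (j - 1) (by rw [lt_abs]; omega), ih (j + 1) (by rw [lt_abs]; omega), add_zero]

lemma G1c_a_neg (m : ℕ) (j : ℤ) : G1c_a m (-j) = G1c_a m j := by
  induction m generalizing j with
  | zero => rw [G1c_a, G1c_a]; simp
  | succ m ih =>
    rw [G1c_a, G1c_a, show -j - 1 = -(j + 1) by ring, show -j + 1 = -(j - 1) by ring, ih, ih,
      add_comm]

lemma G1c_a_choose (m i : ℕ) : G1c_a m ((m : ℤ) - 2 * i) = (m.choose i : ℤ) := by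
  induction m generalizing i with
  | zero =>
    rw [G1c_a]
    rcases Nat.eq_zero_or_pos i with h | h
    · subst h; simp
    · rw [if_neg (by push_cast; omega), Nat.choose_eq_zero_of_lt h]; simp
  | succ m ih =>
    rw [G1c_a]
    rcases Nat.eq_zero_or_pos i with h | h
    · subst h
      rw [G1c_a_gt m (((m + 1 : ℕ) : ℤ) - 2 * ((0 : ℕ) : ℤ) + 1)
        (by rw [lt_abs]; push_cast; omega), add_zero]
      have h1 := ih 0
      rw [show ((m + 1 : ℕ) : ℤ) - 2 * ((0 : ℕ) : ℤ) - 1 = (m : ℤ) - 2 * ((0 : ℕ) : ℤ) by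
        push_cast; ring, h1]
      simp
    · obtain ⟨l, rfl⟩ : ∃ l, i = l + 1 := ⟨i - 1, by omega⟩
      have h1 := ih (l + 1)
      have h2 := ih l
      rw [show ((m + 1 : ℕ) : ℤ) - 2 * ((l + 1 : ℕ) : ℤ) - 1 = (m : ℤ) - 2 * ((l + 1 : ℕ) : ℤ) by
        push_cast; ring, h1,
        show ((m + 1 : ℕ) : ℤ) - 2 * ((l + 1 : ℕ) : ℤ) + 1 = (m : ℤ) - 2 * (l : ℤ) by
        push_cast; ring, h2, Nat.choose_succ_succ]
      push_cast; ring

lemma G1c_cw (h m j : ℕ) (hj : j ≤ h) (hm : m + j ≤ 2 * h + 1) :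
    (cw h m j : ℤ) = G1c_a m j - G1c_a m (j + 2) := by
  induction m generalizing j with
  | zero =>
    rw [cw, G1c_a, G1c_a]
    have h1 : ¬ ((j : ℤ) + 2 = 0) := by omega
    rw [if_neg h1]
    by_cases h0 : j = 0
    · subst h0; simp
    · have h2 : ¬ ((j : ℤ) = 0) := by omega
      rw [if_neg h0, if_neg h2]; simp
  | succ m ih =>
    rw [cw, G1c_a, G1c_a]
    have h1 : (((if 1 ≤ j then cw h m (j - 1) else 0 : ℕ)) : ℤ) =
        G1c_a m ((j : ℤ) - 1) - G1c_a m ((j : ℤ) + 1) := by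
      rcases Nat.eq_zero_or_pos j with h0 | h0
      · subst h0
        rw [if_neg (by omega)]
        have := G1c_a_neg m 1
        simp only [Nat.cast_zero, zero_sub, zero_add]
        rw [this]; ring
      · rw [if_pos (by omega), ih (j - 1) (by omega) (by omega), Nat.cast_sub h0, Nat.cast_one,
          show (j : ℤ) - 1 + 2 = (j : ℤ) + 1 by ring]
    have h2 : (((if j + 1 ≤ h then cw h m (j + 1) else 0 : ℕ)) : ℤ) =
        G1c_a m ((j : ℤ) + 1) - G1c_a m ((j : ℤ) + 2 + 1) := by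
      by_cases h0 : j + 1 ≤ h
      · rw [if_pos h0, ih (j + 1) h0 (by omega), Nat.cast_add, Nat.cast_one,
          show (j : ℤ) + 1 + 2 = (j : ℤ) + 2 + 1 by ring]
      · rw [if_neg h0, G1c_a_gt m ((j : ℤ) + 1) (by rw [lt_abs]; omega),
          G1c_a_gt m ((j : ℤ) + 2 + 1) (by rw [lt_abs]; omega)]
        simp
    rw [Nat.cast_add, h1, h2, show (j : ℤ) + 2 - 1 = (j : ℤ) + 1 by ring]
    ring

/-- **[FV-G1c]** Without restriction one gets the Catalan numbers. PROOF. Let `c∞(m, j)` be the number of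
nonnegative paths from `j` to `0` of length `m`: the ballot number
`c∞(m,j) = C(m, (m-j)/2) - C(m, (m-j)/2 - 1)` for `j ≤ m`, `m - j` even, `0` if `m - j` is odd or `j > m`
(same recursion, by Pascal's rule). `cw h m j` does not depend on `h` as long as `h ≥ (m + j)/2`, in
particular for `h ≥ m`. `c∞(2m,0) = C(2m,m) - C(2m,m-1) = catalan m`. -/
theorem cw_catalan (h m : ℕ) (hm : m ≤ h) : cw h (2 * m) 0 = catalan m := by
  have h1 := G1c_cw h (2 * m) 0 (Nat.zero_le h) (by omega)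
  have h2 : G1c_a (2 * m) ((0 : ℕ) : ℤ) = ((2 * m).choose m : ℤ) := by
    have := G1c_a_choose (2 * m) m
    rw [← this]; congr 1; push_cast; ring
  have h3 : G1c_a (2 * m) (((0 : ℕ) : ℤ) + 2) = ((2 * m).choose (m + 1) : ℤ) := by
    have := G1c_a_choose (2 * m) (m + 1)
    rw [← this, ← G1c_a_neg]; congr 1; push_cast; ring
  rw [h2, h3] at h1
  have h4 := succ_mul_catalan_eq_centralBinom m
  rw [Nat.centralBinom_eq_two_mul_choose] at h4
  have h5 := Nat.choose_succ_right_eq (2 * m) m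
  rw [show 2 * m - m = m by omega] at h5
  have h6 : ((m : ℤ) + 1) * (cw h (2 * m) 0 : ℤ) = ((m : ℤ) + 1) * (catalan m : ℤ) := by
    have h4' : ((m : ℤ) + 1) * (catalan m : ℤ) = ((2 * m).choose m : ℤ) := by exact_mod_cast h4
    have h5' : ((2 * m).choose (m + 1) : ℤ) * ((m : ℤ) + 1) = ((2 * m).choose m : ℤ) * m := by
      exact_mod_cast h5
    rw [h1, h4', mul_sub]
    linarith
  have h7 : ((m : ℤ) + 1) ≠ 0 := by positivity
  exact_mod_cast mul_left_cancel₀ h7 h6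

theorem srw_total (m : ℕ) :
    (PQ muS nuS).real (EvN (Set.Ici 0) (2 * m + 1)) = catalan m / 2 ^ (2 * m + 1) := by
  have h1 := srw_max m (2 * m + 1)
  rw [cw_catalan (2 * m + 1) m (by omega)] at h1
  rw [← h1]
  apply measureReal_congr
  filter_upwards [G1a_parity] with ω hω
  apply propext
  change ω ∈ EvN (Set.Ici 0) (2 * m + 1) ↔
    (ω ∈ EvN (Set.Ici 0) (2 * m + 1) ∧ Mx (1 / 2) (2 * m + 1) ω ≤ ((2 * m + 1 : ℕ) : ℝ))
  refine ⟨fun h => ⟨h, ?_⟩, fun h => h.1⟩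
  refine ciSup_le fun i => ?_
  obtain ⟨d, hd, -⟩ := hω (i : ℕ)
  rw [hd]
  have h2 : ((i : ℕ) : ℝ) ≤ ((2 * m + 1 : ℕ) : ℝ) := by
    exact_mod_cast i.2.le
  have h3 : (0 : ℝ) ≤ d := Nat.cast_nonneg d
  linarith

end Pool.Agent.BPT
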