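import Pool.Agent.MP_99a865_pr.FV.G0
import Pool.Agent.MP_99a865_pr.FV.F5

open MeasureTheory ProbabilityTheory Filter Topology
open scoped ENNReal NNReal

namespace Pool.Agent.BPT

/-! ### deterministic part -/

/-- partial sums -/
def G2a_V (k : ℕ) (ξ : ℕ → ℕ) : ℕ := ∑ i ∈ Finset.range k, ξ i

lemma G2a_V_zero (ξ : ℕ → ℕ) : G2a_V 0 ξ = 0 := by simp [G2a_V]

lemma G2a_V_add (k l : ℕ) (ξ : ℕ → ℕ) : G2a_V (k + l) ξ = G2a_V k ξ + G2a_V l (shift k ξ) := by
  simp only [G2a_V, Finset.sum_range_add, shift]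

/-- `N_z = n` -/
def G2a_N (z n : ℕ) (ξ : ℕ → ℕ) : Prop := (∀ k < n, k < z + G2a_V k ξ) ∧ z + G2a_V n ξ = n

/-- boundaries -/
inductive G2a_B (z : ℕ) (ξ : ℕ → ℕ) : ℕ → Prop
  | base : G2a_B z ξ z
  | step (b : ℕ) (hb : G2a_B z ξ b) (hlt : b < z + G2a_V b ξ) : G2a_B z ξ (z + G2a_V b ξ)

lemma G2a_B_ge {z : ℕ} {ξ : ℕ → ℕ} {b : ℕ} (h : G2a_B z ξ b) : z ≤ b := by
  cases h with
  | base => exact le_rfl
  | step b hb hlt => omega

lemma G2a_B_shift {z : ℕ} {ξ : ℕ → ℕ} {c : ℕ} (h : G2a_B (G2a_V z ξ) (shift z ξ) c) :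
    G2a_B z ξ (z + c) := by
  induction h with
  | base =>
    rcases Nat.eq_zero_or_pos (G2a_V z ξ) with h0 | h0
    · rw [h0]; exact G2a_B.base
    · exact G2a_B.step z G2a_B.base (by omega)
  | step b hb hlt ih =>
    have h1 : G2a_V (z + b) ξ = G2a_V z ξ + G2a_V b (shift z ξ) := G2a_V_add _ _ _
    have h2 := G2a_B.step (z + b) ih (by omega)
    rwa [h1] at h2

lemma G2a_B_iff (z : ℕ) (ξ : ℕ → ℕ) (b : ℕ) :
    G2a_B z ξ b ↔ b = z ∨ ∃ c, b = z + c ∧ G2a_B (G2a_V z ξ) (shift z ξ) c := by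
  constructor
  · intro h
    induction h with
    | base => exact Or.inl rfl
    | step b hb hlt ih =>
      right
      rcases ih with rfl | ⟨c, rfl, hc⟩
      · exact ⟨_, rfl, G2a_B.base⟩
      · have h1 : G2a_V (z + c) ξ = G2a_V z ξ + G2a_V c (shift z ξ) := G2a_V_add _ _ _
        refine ⟨G2a_V z ξ + G2a_V c (shift z ξ), by omega, G2a_B.step c hc (by omega)⟩
  · rintro (rfl | ⟨c, rfl, hc⟩)
    · exact G2a_B.base
    · exact G2a_B_shift hc

lemma G2a_N_rec {z n : ℕ} (hz : 1 ≤ z) (ξ : ℕ → ℕ) :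
    G2a_N z n ξ ↔ z ≤ n ∧ G2a_N (G2a_V z ξ) (n - z) (shift z ξ) := by
  constructor
  · rintro ⟨h1, h2⟩
    have hzn : z ≤ n := by omega
    obtain ⟨m, rfl⟩ := Nat.exists_eq_add_of_le hzn
    have h3 : G2a_V (z + m) ξ = G2a_V z ξ + G2a_V m (shift z ξ) := G2a_V_add _ _ _
    rw [Nat.add_sub_cancel_left]
    refine ⟨hzn, fun k hk => ?_, by omega⟩
    have h4 := h1 (z + k) (by omega)
    have h5 : G2a_V (z + k) ξ = G2a_V z ξ + G2a_V k (shift z ξ) := G2a_V_add _ _ _
    omega
  · rintro ⟨hzn, h1, h2⟩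
    obtain ⟨m, rfl⟩ := Nat.exists_eq_add_of_le hzn
    rw [Nat.add_sub_cancel_left] at h1 h2
    have h3 : G2a_V (z + m) ξ = G2a_V z ξ + G2a_V m (shift z ξ) := G2a_V_add _ _ _
    refine ⟨fun k hk => ?_, by omega⟩
    rcases Nat.lt_or_ge k z with hk' | hk'
    · omega
    · obtain ⟨l, rfl⟩ := Nat.exists_eq_add_of_le hk'
      have h4 := h1 l (by omega)
      have h5 : G2a_V (z + l) ξ = G2a_V z ξ + G2a_V l (shift z ξ) := G2a_V_add _ _ _
      omega

open Classical in
/-- boundaries below `n` -/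
noncomputable def G2a_S (z n : ℕ) (ξ : ℕ → ℕ) : Finset ℕ := (Finset.range n).filter (G2a_B z ξ)

lemma G2a_S_rec {z n : ℕ} (hzn : z < n) {ξ : ℕ → ℕ} (hpos : 0 < G2a_V z ξ) :
    G2a_S z n ξ = insert z ((G2a_S (G2a_V z ξ) (n - z) (shift z ξ)).image (z + ·)) ∧
      z ∉ (G2a_S (G2a_V z ξ) (n - z) (shift z ξ)).image (z + ·) := by
  classical
  constructor
  · ext b
    simp only [G2a_S, Finset.mem_filter, Finset.mem_range, Finset.mem_insert, Finset.mem_image]
    rw [G2a_B_iff]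
    constructor
    · rintro ⟨hb, rfl | ⟨c, rfl, hc⟩⟩
      · exact Or.inl rfl
      · exact Or.inr ⟨c, ⟨by omega, hc⟩, rfl⟩
    · rintro (rfl | ⟨c, ⟨h1, hc⟩, rfl⟩)
      · exact ⟨hzn, Or.inl rfl⟩
      · exact ⟨by omega, Or.inr ⟨c, rfl, hc⟩⟩
  · simp only [G2a_S, Finset.mem_filter, Finset.mem_range, Finset.mem_image, not_exists, not_and]
    rintro c ⟨h1, hc⟩ h2
    have := G2a_B_ge hc
    omega

open Classical in
/-- the weight of a forest -/
noncomputable def G2a_X (h : ℕ) (q : ℝ) (n z ℓ : ℕ) (ξ : ℕ → ℕ) : ℝ :=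
  if G2a_N z n ξ then (if n = 0 then 1 else
    if ℓ + (G2a_S z n ξ).card ≤ h then q ^ (ℓ * n + ∑ b ∈ G2a_S z n ξ, (n - b)) else 0) else 0

lemma G2a_X_zero (h : ℕ) (q : ℝ) (z ℓ : ℕ) (ξ : ℕ → ℕ) :
    G2a_X h q 0 z ℓ ξ = if z = 0 then 1 else 0 := by
  have : G2a_N z 0 ξ ↔ z = 0 := by
    simp [G2a_N, G2a_V_zero]
  simp only [G2a_X, this, if_true]

lemma G2a_X_succ (h : ℕ) (q : ℝ) (n z ℓ : ℕ) (ξ : ℕ → ℕ) :
    G2a_X h q (n + 1) z ℓ ξ = if 1 ≤ z ∧ z ≤ n + 1 then
      (wt q h ℓ 0) ^ z * G2a_X h q (n + 1 - z) (G2a_V z ξ) (ℓ + 1) (shift z ξ) else 0 := by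
  classical
  by_cases hz : 1 ≤ z ∧ z ≤ n + 1
  swap
  · rw [if_neg hz]
    have hN : ¬ G2a_N z (n + 1) ξ := by
      rintro ⟨h1, h2⟩
      apply hz
      have := h1 0 (by omega)
      rw [G2a_V_zero] at this
      omega
    rw [G2a_X, if_neg hN]
  rw [if_pos hz]
  obtain ⟨hz1, hz2⟩ := hz
  by_cases hN : G2a_N z (n + 1) ξ
  swap
  · have hN' : ¬ G2a_N (G2a_V z ξ) (n + 1 - z) (shift z ξ) := by
      intro hc
      exact hN ((G2a_N_rec hz1 ξ).2 ⟨hz2, hc⟩)
    rw [G2a_X, if_neg hN, G2a_X, if_neg hN', mul_zero]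
  have hN' := ((G2a_N_rec hz1 ξ).1 hN).2
  rw [G2a_X, if_pos hN, if_neg (Nat.succ_ne_zero n)]
  rcases Nat.lt_or_ge z (n + 1) with hlt | hge
  · have hpos : 0 < G2a_V z ξ := by
      have := hN'.1 0 (by omega)
      rw [G2a_V_zero] at this
      omega
    obtain ⟨hS1, hS2⟩ := G2a_S_rec hlt hpos
    have hinj : Function.Injective (fun c : ℕ => z + c) := fun a b hab => by simpa using hab
    have hcard : (G2a_S z (n + 1) ξ).card = (G2a_S (G2a_V z ξ) (n + 1 - z) (shift z ξ)).card + 1 := by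
      rw [hS1, Finset.card_insert_of_notMem hS2, Finset.card_image_of_injective _ hinj]
    have hsum : ∑ b ∈ G2a_S z (n + 1) ξ, (n + 1 - b) = (n + 1 - z) +
        ∑ b ∈ G2a_S (G2a_V z ξ) (n + 1 - z) (shift z ξ), (n + 1 - z - b) := by
      rw [hS1, Finset.sum_insert hS2, Finset.sum_image (fun a _ b _ hab => hinj hab)]
      congr 1
      exact Finset.sum_congr rfl fun b _ => by omega
    rw [G2a_X, if_pos hN', if_neg (by omega : ¬ n + 1 - z = 0), hcard, hsum]
    set c := (G2a_S (G2a_V z ξ) (n + 1 - z) (shift z ξ)).card with hc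
    set t := ∑ b ∈ G2a_S (G2a_V z ξ) (n + 1 - z) (shift z ξ), (n + 1 - z - b) with ht
    by_cases hle : ℓ + (c + 1) ≤ h
    · rw [if_pos hle, if_pos (by omega : ℓ + 1 + c ≤ h), wt, if_pos (by omega : ℓ + 0 ≤ h), ← pow_mul,
        ← pow_add]
      congr 1
      obtain ⟨m, hm⟩ := Nat.exists_eq_add_of_le hz2
      rw [hm]
      have : z + m - z = m := by omega
      rw [this]
      ring
    · rw [if_neg hle, if_neg (by omega : ¬ ℓ + 1 + c ≤ h), mul_zero]
  · have hzn : z = n + 1 := by omega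
    subst hzn
    have hS : G2a_S (n + 1) (n + 1) ξ = ∅ := by
      ext b
      simp only [G2a_S, Finset.mem_filter, Finset.mem_range, Finset.notMem_empty, iff_false, not_and]
      intro hb hB
      have := G2a_B_ge hB
      omega
    have hV : G2a_V (n + 1) ξ = 0 := by
      have := hN.2
      omega
    rw [Nat.sub_self, G2a_X_zero, if_pos hV, hS, wt]
    by_cases hle : ℓ ≤ h
    · rw [if_pos (by simpa using hle), if_pos (by omega), ← pow_mul]
      simp
    · rw [if_neg (by simpa using hle), if_neg (by omega)]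
      simp

/-! ### the geometric law -/

/-- the geometric law on `ℕ` -/
noncomputable def G2a_γ : Measure ℕ :=
  Measure.sum fun k : ℕ => (ENNReal.ofReal ((1 / 2 : ℝ) ^ (k + 1))) • Measure.dirac k

lemma G2a_γ_singleton (k : ℕ) : G2a_γ {k} = ENNReal.ofReal ((1 / 2 : ℝ) ^ (k + 1)) := by
  rw [G2a_γ, Measure.sum_apply _ (measurableSet_singleton k), tsum_eq_single k]
  · simp
  · intro j hj
    simp [hj]

instance G2a_γ_prob : IsProbabilityMeasure G2a_γ := by
  constructor
  rw [G2a_γ, Measure.sum_apply _ MeasurableSet.univ]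
  simp only [Measure.smul_apply, measure_univ, smul_eq_mul, mul_one]
  rw [← ENNReal.ofReal_tsum_of_nonneg (fun n => by positivity)]
  · have : ∑' n : ℕ, (1 / 2 : ℝ) ^ (n + 1) = 1 := by
      simp only [pow_succ, tsum_mul_right, tsum_geometric_two]
      norm_num
    rw [this, ENNReal.ofReal_one]
  · simp only [pow_succ]
    exact summable_geometric_two.mul_right _

/-- the map to pairs -/
def G2a_g (k : ℕ) : ℝ × ℝ := (1, (k : ℝ))

lemma G2a_prod : muG.prod nuG = G2a_γ.map G2a_g := by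
  have h1 : muG.prod nuG = nuG.map (Prod.mk (1 : ℝ)) := by
    rw [muG]
    have : IsProbabilityMeasure nuG := qstd_G.probν
    rw [Measure.dirac_prod]
  have hm : Measurable (fun k : ℕ => (k : ℝ)) := measurable_from_top
  have h2 : nuG = G2a_γ.map (fun k : ℕ => (k : ℝ)) := by
    rw [nuG, G2a_γ, Measure.map_sum hm.aemeasurable]
    congr 1
    funext k
    rw [Measure.map_smul, Measure.map_dirac' hm]
  rw [h1, h2, Measure.map_map measurable_prodMk_left hm]
  rfl

lemma G2a_PQ : PQ muG nuG = (seqLaw G2a_γ).map (fun ξ i => G2a_g (ξ i)) := by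
  rw [PQ, G2a_prod, map_seqLaw G2a_γ G2a_g measurable_from_top]

lemma G2a_hockey (z m : ℕ) : ∑ j ∈ Finset.range (m + 1), (z + j - 1).choose j = (z + m).choose m := by
  induction m with
  | zero => simp
  | succ m ih =>
    rw [Finset.sum_range_succ, ih]
    have h1 : z + (m + 1) - 1 = z + m := by omega
    rw [h1, ← add_assoc, Nat.choose_succ_succ]

lemma G2a_integral_zero (f : ℕ → ℝ) (m : ℕ) (hf : ∀ k, m < k → f k = 0) :
    ∫ ξ, f (ξ 0) ∂(seqLaw G2a_γ) = ∑ k ∈ Finset.range (m + 1), (1 / 2 : ℝ) ^ (k + 1) * f k := by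
  have h1 : ∫ ξ, f (ξ 0) ∂(seqLaw G2a_γ) = ∫ k, f k ∂G2a_γ := by
    have h2 : (seqLaw G2a_γ).map (fun ξ => ξ 0) = G2a_γ := by
      rw [seqLaw]
      exact Measure.infinitePi_map_eval _ 0
    conv_rhs => rw [← h2]
    rw [integral_map (measurable_pi_apply 0).aemeasurable (Measurable.aestronglyMeasurable measurable_from_top)]
  rw [h1]
  have h3 : f = fun j => ∑ k ∈ Finset.range (m + 1), Set.indicator {k} (fun _ => f k) j := by
    funext j
    by_cases hj : j < m + 1
    · rw [Finset.sum_eq_single j]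
      · simp
      · intro b _ hb
        simp [Ne.symm hb]
      · intro hj'
        exact absurd (Finset.mem_range.2 hj) hj'
    · rw [hf j (by omega), Finset.sum_eq_zero]
      intro k hk
      have : j ≠ k := by
        have := Finset.mem_range.1 hk
        omega
      simp [this]
  conv_lhs => rw [h3]
  rw [integral_finsetSum]
  · refine Finset.sum_congr rfl fun k _ => ?_
    rw [integral_indicator (measurableSet_singleton k), setIntegral_const, Measure.real, G2a_γ_singleton,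
      ENNReal.toReal_ofReal (by positivity), smul_eq_mul]
  · intro k _
    exact (integrable_const _).indicator (measurableSet_singleton k)

lemma G2a_measurable_V (z : ℕ) : Measurable (G2a_V z) := by
  unfold G2a_V
  exact Finset.measurable_sum _ fun i _ => measurable_pi_apply i

/-- negative binomial law -/
lemma G2a_negbin (z m : ℕ) : (seqLaw G2a_γ).real {ξ | G2a_V z ξ = m} =
    ((z + m - 1).choose m : ℝ) / 2 ^ (z + m) := by
  induction z generalizing m with
  | zero =>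
    rcases Nat.eq_zero_or_pos m with rfl | hm
    · simp [G2a_V_zero]
    · have : {ξ : ℕ → ℕ | G2a_V 0 ξ = m} = ∅ := by
        ext ξ
        simp [G2a_V_zero]
        omega
      rw [this, Nat.choose_eq_zero_of_lt (by omega)]
      simp
  | succ z ih =>
    have hV : ∀ ξ : ℕ → ℕ, G2a_V (z + 1) ξ = ξ 0 + G2a_V z (shift 1 ξ) := by
      intro ξ
      rw [add_comm z 1, G2a_V_add]
      simp [G2a_V]
    have h1 : (seqLaw G2a_γ).real {ξ | G2a_V (z + 1) ξ = m} =
        ∫ ξ, (if ξ 0 + G2a_V z (shift 1 ξ) = m then (1 : ℝ) else 0) ∂(seqLaw G2a_γ) := by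
      have hms : MeasurableSet {ξ : ℕ → ℕ | G2a_V (z + 1) ξ = m} :=
        G2a_measurable_V (z + 1) (measurableSet_singleton m)
      rw [← integral_indicator_one hms]
      refine integral_congr_ae (ae_of_all _ fun ξ => ?_)
      simp only [Set.indicator_apply, Set.mem_ofPred_eq, hV, Pi.one_apply]
    have hmeas : Measurable (Function.uncurry fun (ω η : ℕ → ℕ) =>
        (if ω 0 + G2a_V z η = m then (1 : ℝ) else 0)) := by
      refine Measurable.ite ?_ measurable_const measurable_const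
      have : Measurable fun p : (ℕ → ℕ) × (ℕ → ℕ) => p.1 0 + G2a_V z p.2 :=
        ((measurable_pi_apply 0).comp measurable_fst).add ((G2a_measurable_V z).comp measurable_snd)
      exact this (measurableSet_singleton m)
    have h2 := integral_split G2a_γ 1 (fun (ω η : ℕ → ℕ) =>
      (if ω 0 + G2a_V z η = m then (1 : ℝ) else 0)) hmeas 1 (fun ω η => by split_ifs <;> simp)
      (fun ω ω' η h => by rw [h 0 (by norm_num)])
    rw [h1, h2]
    have h3 : ∀ ω : ℕ → ℕ, ∫ η, (if ω 0 + G2a_V z η = m then (1 : ℝ) else 0) ∂(seqLaw G2a_γ) =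
        (fun k => if k ≤ m then ((z + (m - k) - 1).choose (m - k) : ℝ) / 2 ^ (z + (m - k)) else 0) (ω 0) := by
      intro ω
      by_cases hk : ω 0 ≤ m
      · simp only [hk, if_true]
        rw [← ih (m - ω 0)]
        have hms : MeasurableSet {ξ : ℕ → ℕ | G2a_V z ξ = m - ω 0} :=
          G2a_measurable_V z (measurableSet_singleton _)
        rw [← integral_indicator_one hms]
        refine integral_congr_ae (ae_of_all _ fun ξ => ?_)
        simp only [Set.indicator_apply, Set.mem_ofPred_eq, Pi.one_apply]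
        congr 1
        exact propext ⟨fun h => by omega, fun h => by omega⟩
      · simp only [hk, if_false]
        have : ∀ η : ℕ → ℕ, (if ω 0 + G2a_V z η = m then (1 : ℝ) else 0) = 0 := by
          intro η
          rw [if_neg (by omega)]
        simp [this]
    rw [integral_congr_ae (ae_of_all _ h3), G2a_integral_zero
      (fun k => if k ≤ m then ((z + (m - k) - 1).choose (m - k) : ℝ) / 2 ^ (z + (m - k)) else 0) m
      (fun k hk => if_neg (show ¬ k ≤ m by omega))]
    have h4 : ∀ k ∈ Finset.range (m + 1), (1 / 2 : ℝ) ^ (k + 1) *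
        (if k ≤ m then ((z + (m - k) - 1).choose (m - k) : ℝ) / 2 ^ (z + (m - k)) else 0) =
        ((z + (m - k) - 1).choose (m - k) : ℝ) / 2 ^ (z + 1 + m) := by
      intro k hk
      have hk' : k ≤ m := Nat.lt_succ_iff.1 (Finset.mem_range.1 hk)
      rw [if_pos hk']
      obtain ⟨l, rfl⟩ := Nat.exists_eq_add_of_le hk'
      rw [Nat.add_sub_cancel_left]
      have : (2 : ℝ) ^ (z + 1 + (k + l)) = 2 ^ (k + 1) * 2 ^ (z + l) := by
        rw [← pow_add]; congr 1; omega
      rw [this, one_div, inv_pow]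
      field_simp
    rw [Finset.sum_congr rfl h4, ← Finset.sum_div]
    congr 1
    have h5 : ∀ k ∈ Finset.range (m + 1), ((z + (m - k) - 1).choose (m - k) : ℝ) =
        (fun j => ((z + j - 1).choose j : ℝ)) (m + 1 - 1 - k) := fun k _ => by
      simp only [Nat.add_sub_cancel]
    rw [Finset.sum_congr rfl h5,
      Finset.sum_range_reflect (fun j => ((z + j - 1).choose j : ℝ)) (m + 1)]
    have h6 := G2a_hockey z m
    have h7 : z + 1 + m - 1 = z + m := by omega
    rw [h7, ← h6]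
    push_cast
    rfl

/-! ### expectation of the weight -/

lemma G2a_X_measurable (h : ℕ) (q : ℝ) (n z : ℕ) : ∀ ℓ, Measurable (G2a_X h q n z ℓ) := by
  induction n using Nat.strong_induction_on generalizing z with
  | _ n ih =>
    intro ℓ
    cases n with
    | zero =>
      have : G2a_X h q 0 z ℓ = fun _ => if z = 0 then 1 else 0 := by
        funext ξ
        exact G2a_X_zero h q z ℓ ξ
      rw [this]
      exact measurable_const
    | succ n =>
      have : G2a_X h q (n + 1) z ℓ = fun ξ => if 1 ≤ z ∧ z ≤ n + 1 then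
          (wt q h ℓ 0) ^ z * G2a_X h q (n + 1 - z) (G2a_V z ξ) (ℓ + 1) (shift z ξ) else 0 := by
        funext ξ
        exact G2a_X_succ h q n z ℓ ξ
      rw [this]
      by_cases hz : 1 ≤ z ∧ z ≤ n + 1
      · simp only [hz, and_self, if_true]
        refine Measurable.const_mul ?_ _
        have h1 : Measurable (fun p : ℕ × (ℕ → ℕ) => G2a_X h q (n + 1 - z) p.1 (ℓ + 1) p.2) :=
          measurable_from_prod_countable_right fun z' => ih (n + 1 - z) (by omega) z' (ℓ + 1)
        exact h1.comp ((G2a_measurable_V z).prodMk (measurable_shift z))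
      · simp only [hz, if_false]
        exact measurable_const

lemma G2a_X_bound (h : ℕ) (q : ℝ) (hq : 0 ≤ q) (hq1 : q ≤ 1) (n z ℓ : ℕ) (ξ : ℕ → ℕ) :
    |G2a_X h q n z ℓ ξ| ≤ 1 := by
  rw [G2a_X]
  split_ifs
  · simp
  · rw [abs_of_nonneg (by positivity)]
    exact pow_le_one₀ hq hq1
  · simp
  · simp

lemma G2a_gw_zero (n z : ℕ) (w : ℕ → ℝ) (h : n < z) : gw n z w = 0 := by
  cases n with
  | zero => rw [gw, if_neg (by omega)]
  | succ n => rw [gw, if_neg (by omega)]

lemma G2a_wt (q : ℝ) (h ℓ : ℕ) : (fun j => wt q h ℓ (j + 1)) = wt q h (ℓ + 1) := by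
  funext j
  simp only [wt]
  have : ℓ + (j + 1) = ℓ + 1 + j := by omega
  rw [this]

theorem G2a_expect (h : ℕ) (q : ℝ) (hq : 0 ≤ q) (hq1 : q ≤ 1) (n z : ℕ) : ∀ ℓ,
    ∫ ξ, G2a_X h q n z ℓ ξ ∂(seqLaw G2a_γ) = 2 ^ z / 4 ^ n * gw n z (wt q h ℓ) := by
  induction n using Nat.strong_induction_on generalizing z with
  | _ n ih =>
    intro ℓ
    cases n with
    | zero =>
      simp only [G2a_X_zero, gw]
      by_cases hz : z = 0
      · subst hz; simp
      · simp [hz]
    | succ n =>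
      simp only [G2a_X_succ]
      by_cases hz : 1 ≤ z ∧ z ≤ n + 1
      swap
      · rw [gw, if_neg hz]
        simp [hz]
      rw [gw, if_pos hz]
      simp only [hz, and_self, if_true]
      obtain ⟨hz1, hz2⟩ := hz
      rw [integral_const_mul]
      have hmeas : Measurable (Function.uncurry fun (ω η : ℕ → ℕ) =>
          G2a_X h q (n + 1 - z) (G2a_V z ω) (ℓ + 1) η) := by
        have h1 : Measurable (fun p : ℕ × (ℕ → ℕ) => G2a_X h q (n + 1 - z) p.1 (ℓ + 1) p.2) :=
          measurable_from_prod_countable_right fun z' => G2a_X_measurable h q _ z' (ℓ + 1)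
        exact h1.comp (((G2a_measurable_V z).comp measurable_fst).prodMk measurable_snd)
      have hdep : ∀ ω ω' η : ℕ → ℕ, (∀ i < z, ω i = ω' i) →
          G2a_X h q (n + 1 - z) (G2a_V z ω) (ℓ + 1) η = G2a_X h q (n + 1 - z) (G2a_V z ω') (ℓ + 1) η := by
        intro ω ω' η hω
        have : G2a_V z ω = G2a_V z ω' :=
          Finset.sum_congr rfl fun i hi => hω i (Finset.mem_range.1 hi)
        rw [this]
      have h2 := integral_split G2a_γ z (fun (ω η : ℕ → ℕ) =>
        G2a_X h q (n + 1 - z) (G2a_V z ω) (ℓ + 1) η) hmeas 1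
        (fun ω η => G2a_X_bound h q hq hq1 _ _ _ _) hdep
      rw [h2]
      simp only [ih (n + 1 - z) (by omega)]
      set F : ℕ → ℝ := fun z' => 2 ^ z' / 4 ^ (n + 1 - z) * gw (n + 1 - z) z' (wt q h (ℓ + 1)) with hF
      have hF0 : ∀ z', n + 1 < z' → F z' = 0 := by
        intro z' hz'
        simp only [hF]
        rw [G2a_gw_zero _ _ _ (by omega), mul_zero]
      have h3 : ∀ ω : ℕ → ℕ, F (G2a_V z ω) = ∑ k ∈ Finset.range (n + 2),
          Set.indicator {ξ : ℕ → ℕ | G2a_V z ξ = k} (fun _ => F k) ω := by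
        intro ω
        by_cases hj : G2a_V z ω < n + 2
        · rw [Finset.sum_eq_single (G2a_V z ω)]
          · simp
          · intro b _ hb
            simp [Ne.symm hb]
          · intro hj'
            exact absurd (Finset.mem_range.2 hj) hj'
        · rw [hF0 _ (by omega), Finset.sum_eq_zero]
          intro k hk
          have : G2a_V z ω ≠ k := by
            have := Finset.mem_range.1 hk
            omega
          simp [this]
      change _ * ∫ ω, F (G2a_V z ω) ∂(seqLaw G2a_γ) = _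
      have hms : ∀ k, MeasurableSet {ξ : ℕ → ℕ | G2a_V z ξ = k} := fun k =>
        G2a_measurable_V z (measurableSet_singleton k)
      simp only [h3]
      rw [integral_finsetSum _ (fun k _ => (integrable_const _).indicator (hms k))]
      simp only [integral_indicator (hms _), setIntegral_const, smul_eq_mul, G2a_negbin]
      rw [G2a_wt, Finset.mul_sum, ← mul_assoc, Finset.mul_sum]
      refine Finset.sum_congr rfl fun k _ => ?_
      simp only [hF]
      have h4 : (4 : ℝ) ^ (n + 1) = 4 ^ (n + 1 - z) * 4 ^ z := by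
        rw [← pow_add]; congr 1; omega
      have h5 : (4 : ℝ) ^ z = 2 ^ z * 2 ^ z := by
        rw [← mul_pow]; norm_num
      rw [h4, h5, pow_add]
      field_simp

/-! ### comparison -/

lemma G2a_Ar (ξ : ℕ → ℕ) (k : ℕ) : Ar k (fun i => G2a_g (ξ i)) = k := by
  simp [Ar, G2a_g]

lemma G2a_Dp (ξ : ℕ → ℕ) (k : ℕ) : Dp k (fun i => G2a_g (ξ i)) = G2a_V k ξ := by
  simp [Dp, G2a_g, G2a_V]

lemma G2a_Zw (ξ : ℕ → ℕ) (k : ℕ) : Zw k (fun i => G2a_g (ξ i)) = (G2a_V k ξ : ℝ) - k := by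
  rw [Zw, G2a_Ar, G2a_Dp]

lemma G2a_V_mono (ξ : ℕ → ℕ) (k : ℕ) : G2a_V k ξ ≤ G2a_V (k + 1) ξ := by
  simp only [G2a_V, Finset.sum_range_succ]
  omega

lemma G2a_EvN (n : ℕ) (ξ : ℕ → ℕ) :
    (fun i => G2a_g (ξ i)) ∈ EvN (Set.Ici 0) (n + 1) ↔ G2a_N 1 (n + 1) ξ := by
  have hZ : ∀ k, Zw k (fun i => G2a_g (ξ i)) ∈ Set.Ici (0 : ℝ) ↔ k ≤ G2a_V k ξ := by
    intro k
    rw [G2a_Zw, Set.mem_Ici, sub_nonneg, Nat.cast_le]
  simp only [EvN, Set.mem_ofPred_eq, AliveQ, hZ, G2a_N]
  constructor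
  · rintro ⟨-, h1, h2⟩
    refine ⟨fun k hk => ?_, ?_⟩
    · rcases Nat.eq_zero_or_pos k with rfl | hk0
      · omega
      · have := h1 k hk0 (by omega)
        omega
    · have h3 := G2a_V_mono ξ n
      rcases Nat.eq_zero_or_pos n with rfl | hn
      · omega
      · have := h1 n hn (by omega)
        omega
  · rintro ⟨h1, h2⟩
    refine ⟨by omega, fun j hj hj' => ?_, by omega⟩
    have := h1 j (by omega)
    omega

lemma G2a_Bd (ξ : ℕ → ℕ) (b : ℕ) : Bd (Set.Ici 0) (fun i => G2a_g (ξ i)) b ↔ G2a_B 1 ξ b := by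
  constructor
  · intro h
    induction h with
    | one => exact G2a_B.base
    | step b' b hb' hlt h1 h2 ih =>
      rw [G2a_Dp, G2a_Ar, Set.mem_Ici] at h1 h2
      have h3 : ((b - 1 : ℕ) : ℝ) ≤ G2a_V b' ξ := by linarith
      have h4 : ((G2a_V b' ξ : ℕ) : ℝ) < b := by push Not at h2; linarith
      have h3' : b - 1 ≤ G2a_V b' ξ := by exact_mod_cast h3
      have h4' : G2a_V b' ξ < b := by exact_mod_cast h4
      have hb : b = 1 + G2a_V b' ξ := by omega
      rw [hb]
      exact G2a_B.step b' ih (by omega)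
  · intro h
    induction h with
    | base => exact Bd.one
    | step b hb hlt ih =>
      refine Bd.step b _ ih hlt ?_ ?_
      · rw [G2a_Dp, G2a_Ar, Set.mem_Ici]
        simp
      · rw [G2a_Dp, G2a_Ar, Set.mem_Ici]
        push_cast
        linarith

lemma G2a_HB (n : ℕ) (ξ : ℕ → ℕ) : HB (Set.Ici 0) n (fun i => G2a_g (ξ i)) = (G2a_S 1 n ξ).card := by
  classical
  rw [HB, G2a_S]
  congr 1
  ext b
  simp only [Finset.mem_filter, G2a_Bd]

lemma G2a_TB (n : ℕ) (ξ : ℕ → ℕ) :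
    TB (Set.Ici 0) n (fun i => G2a_g (ξ i)) = ∑ b ∈ G2a_S 1 n ξ, (n - b) := by
  classical
  rw [TB, G2a_S]
  refine Finset.sum_congr ?_ fun _ _ => rfl
  ext b
  simp only [Finset.mem_filter, G2a_Bd]

lemma G2a_measurable_F (n h : ℕ) (q : ℝ) : Measurable fun ω : ℕ → ℝ × ℝ =>
    (if HB (Set.Ici 0) (n + 1) ω ≤ h then q ^ TB (Set.Ici 0) (n + 1) ω else 0 : ℝ) := by
  classical
  have hD : Dom (Set.Ici (0 : ℝ)) := Or.inl rfl
  have hH : Measurable fun ω : ℕ → ℝ × ℝ => HB (Set.Ici 0) (n + 1) ω := by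
    have : (fun ω : ℕ → ℝ × ℝ => HB (Set.Ici 0) (n + 1) ω) = fun ω =>
        ∑ b ∈ Finset.range (n + 1), if Bd (Set.Ici 0) ω b then 1 else 0 := by
      funext ω
      rw [HB, Finset.card_filter]
    rw [this]
    exact Finset.measurable_sum _ fun b _ => Measurable.ite (measurableSet_Bd hD b) measurable_const
      measurable_const
  have hT : Measurable fun ω : ℕ → ℝ × ℝ => TB (Set.Ici 0) (n + 1) ω := by
    have : (fun ω : ℕ → ℝ × ℝ => TB (Set.Ici 0) (n + 1) ω) = fun ω =>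
        ∑ b ∈ Finset.range (n + 1), if Bd (Set.Ici 0) ω b then (n + 1 - b) else 0 := by
      funext ω
      rw [TB, Finset.sum_filter]
    rw [this]
    exact Finset.measurable_sum _ fun b _ => Measurable.ite (measurableSet_Bd hD b) measurable_const
      measurable_const
  refine Measurable.ite (hH measurableSet_Iic) ?_ measurable_const
  exact (measurable_from_top (f := fun t : ℕ => q ^ t)).comp hT

lemma G2a_measurableSet_EvN (n : ℕ) : MeasurableSet (EvN (Set.Ici 0) n) := by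
  have hm1 : ∀ k, Measurable (Dp k) := fun k =>
    Finset.measurable_sum _ fun i _ => measurable_snd.comp (measurable_pi_apply i)
  have hm2 : ∀ k, Measurable (Ar k) := fun k =>
    Finset.measurable_sum _ fun i _ => measurable_fst.comp (measurable_pi_apply i)
  have hm : ∀ k, Measurable (Zw k) := fun k => (hm1 k).sub (hm2 k)
  have h1 : MeasurableSet {ω | AliveQ (Set.Ici 0) (n - 1) ω} := by
    have : {ω | AliveQ (Set.Ici 0) (n - 1) ω} =
        ⋂ j : ℕ, {ω | 1 ≤ j → j ≤ n - 1 → Zw j ω ∈ Set.Ici (0 : ℝ)} := by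
      ext ω
      simp [AliveQ]
    rw [this]
    refine MeasurableSet.iInter fun j => ?_
    by_cases hj : 1 ≤ j ∧ j ≤ n - 1
    · have : {ω : ℕ → ℝ × ℝ | 1 ≤ j → j ≤ n - 1 → Zw j ω ∈ Set.Ici (0 : ℝ)} =
          {ω | Zw j ω ∈ Set.Ici (0 : ℝ)} := by
        ext ω
        simp [hj.1, hj.2]
      rw [this]
      exact hm j measurableSet_Ici
    · have : {ω : ℕ → ℝ × ℝ | 1 ≤ j → j ≤ n - 1 → Zw j ω ∈ Set.Ici (0 : ℝ)} = Set.univ := by
        ext ω
        simp only [Set.mem_ofPred_eq, Set.mem_univ, iff_true]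
        intro h1 h2
        exact absurd ⟨h1, h2⟩ hj
      rw [this]
      exact MeasurableSet.univ
  have h2 : MeasurableSet {ω : ℕ → ℝ × ℝ | Zw n ω ∉ Set.Ici (0 : ℝ)} := (hm n measurableSet_Ici).compl
  have h3 : EvN (Set.Ici 0) n = {ω : ℕ → ℝ × ℝ | 1 ≤ n} ∩ ({ω | AliveQ (Set.Ici 0) (n - 1) ω} ∩
      {ω : ℕ → ℝ × ℝ | Zw n ω ∉ Set.Ici (0 : ℝ)}) := rfl
  rw [h3]
  exact (MeasurableSet.const _).inter (h1.inter h2)

/-- **[FV-G2a]** The geometric model. -/
theorem geo_weight (n h : ℕ) (q : ℝ) (hq : 0 ≤ q) (hq1 : q ≤ 1) :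
    ∫ ω in EvN (Set.Ici 0) (n + 1),
      (if HB (Set.Ici 0) (n + 1) ω ≤ h then q ^ TB (Set.Ici 0) (n + 1) ω else 0) ∂(PQ muG nuG) =
      gw (n + 1) 1 (wt q h 0) / 2 ^ (2 * n + 1) := by
  classical
  have hg : Measurable (fun (ξ : ℕ → ℕ) i => G2a_g (ξ i)) := by
    refine measurable_pi_lambda _ fun i => ?_
    exact (measurable_from_top (f := G2a_g)).comp (measurable_pi_apply i)
  rw [← integral_indicator (G2a_measurableSet_EvN (n + 1)), G2a_PQ, integral_map hg.aemeasurable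
    ((G2a_measurable_F n h q).indicator (G2a_measurableSet_EvN (n + 1))).aestronglyMeasurable]
  have h1 : ∀ ξ : ℕ → ℕ, (EvN (Set.Ici 0) (n + 1)).indicator (fun ω : ℕ → ℝ × ℝ =>
      (if HB (Set.Ici 0) (n + 1) ω ≤ h then q ^ TB (Set.Ici 0) (n + 1) ω else 0 : ℝ))
      (fun i => G2a_g (ξ i)) = G2a_X h q (n + 1) 1 0 ξ := by
    intro ξ
    rw [Set.indicator_apply, G2a_X, G2a_EvN, G2a_HB, G2a_TB]
    simp
  rw [integral_congr_ae (ae_of_all _ h1), G2a_expect h q hq hq1]
  have h4 : (4 : ℝ) ^ (n + 1) = 2 * 2 ^ (2 * n + 1) := by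
    rw [← pow_succ', show (4 : ℝ) = 2 ^ 2 by norm_num, ← pow_mul]
    congr 1
  rw [h4]
  field_simp

end Pool.Agent.BPT
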