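import Mathlib

/-!
# The limit laws: maximum and area of the normalised Brownian excursion; Dyck paths
-/

open MeasureTheory ProbabilityTheory Filter Topology

namespace Pool.Agent.BPT

/-- `F`: the distribution function of the maximum of the standard Brownian excursion,
`F(x) = √2 π^{5/2} x^{-3} ∑_{k ≥ 1} k² exp(-π² k²/(2x²))`. -/
noncomputable def excMax (x : ℝ) : ℝ :=
  √2 * Real.pi ^ (5 / 2 : ℝ) / x ^ 3 *
    ∑' k : ℕ, ((k : ℝ) + 1) ^ 2 * Real.exp (-Real.pi ^ 2 * ((k : ℝ) + 1) ^ 2 / (2 * x ^ 2))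

/-- `l_t(x) = x (2π t³)^{-1/2} exp(-x²/(2t))` -/
noncomputable def excL (t x : ℝ) : ℝ := x / √(2 * Real.pi * t ^ 3) * Real.exp (-x ^ 2 / (2 * t))

/-- transition density of Brownian motion killed at zero -/
noncomputable def excQ (s x y : ℝ) : ℝ :=
  (Real.exp (-(y - x) ^ 2 / (2 * s)) - Real.exp (-(y + x) ^ 2 / (2 * s))) / √(2 * Real.pi * s)

/-- Joint density of the standard Brownian excursion at the times `t 0 < ⋯ < t k` of `(0,1)`, at
`x` with all `x i > 0`. -/
noncomputable def excDensity {k : ℕ} (t x : Fin (k + 1) → ℝ) : ℝ :=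
  2 * √(2 * Real.pi) * excL (t 0) (x 0) *
    (∏ i : Fin k, excQ (t i.succ - t i.castSucc) (x i.castSucc) (x i.succ)) *
      excL (1 - t (Fin.last k)) (x (Fin.last k))

/-- `e` is a standard (normalised) Brownian excursion under `P`: continuous on `[0,1]`, zero at both
ends, with the above finite-dimensional distributions. -/
structure IsBrownianExcursion {Ω : Type} [MeasurableSpace Ω] (P : Measure Ω) (e : ℝ → Ω → ℝ) :
    Prop where
  prob : IsProbabilityMeasure P
  meas : ∀ t, Measurable (e t)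
  cont : ∀ ω, ContinuousOn (fun t => e t ω) (Set.Icc 0 1)
  zero : ∀ ω, e 0 ω = 0 ∧ e 1 ω = 0
  fdd : ∀ (k : ℕ) (t : Fin (k + 1) → ℝ), StrictMono t → (∀ i, 0 < t i ∧ t i < 1) →
    P.map (fun ω i => e (t i) ω) =
      ((volume : Measure (Fin (k + 1) → ℝ)).restrict {x | ∀ i, 0 < x i}).withDensity
        (fun x => ENNReal.ofReal (excDensity t x))

/-- Height after `k` steps of the `±1` path of length `2m` with up-steps at the `i` with
`s i = true`. -/
def pathHeight {m : ℕ} (s : Fin (2 * m) → Bool) (k : ℕ) : ℤ :=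
  ∑ i : Fin (2 * m), if (i : ℕ) < k then (if s i then 1 else -1) else 0

open Classical in
/-- Dyck paths of length `2m`: nonnegative, ending at zero. -/
noncomputable def dyckPaths (m : ℕ) : Finset (Fin (2 * m) → Bool) :=
  Finset.univ.filter fun s => (∀ k ≤ 2 * m, 0 ≤ pathHeight s k) ∧ pathHeight s (2 * m) = 0

/-- The area under a path: the sum of its heights. -/
def pathArea {m : ℕ} (s : Fin (2 * m) → Bool) : ℤ := ∑ k ∈ Finset.range (2 * m + 1), pathHeight s k

end Pool.Agent.BPT
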