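import Mathlib

/-!
# Single-server busy periods: the objects of `MP_99a865_pr`

`c : Bool` fixes what happens when an arrival coincides with a service completion
(`c = true`: the arrival counts as being before the completion, i.e. the service interval is
`(start, end]`; `c = false`: it counts as being after it, i.e. the service interval is `[start, end)`).
-/

open MeasureTheory ProbabilityTheory Filter Topology

namespace Pool.Agent.BPT

/-- An arrival at time `s` counts as having happened by the completion time `t`. -/
def By (c : Bool) (s t : ℝ) : Prop := s < t ∨ (c = true ∧ s = t)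

/-- Arrival time of the customer with label `k` (customer number `k + 1` of the problem file; the
customer with label `0` is waiting at time `0`), for interarrival times `u 0, u 1, ...`. -/
noncomputable def arrival (u : ℕ → ℝ) (k : ℕ) : ℝ := ∑ i ∈ Finset.range k, u i

/-- The time at which the service of the customer with label `k` ends: single server, service in
order of arrival, service times `v 0, v 1, ...`. -/
noncomputable def depart (u v : ℕ → ℝ) : ℕ → ℝ
  | 0 => v 0
  | k + 1 => max (depart u v k) (arrival u (k + 1)) + v (k + 1)

/-- The initial busy period consists of exactly `n` services: at the `n`-th service completion no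
customer is waiting, and at every earlier one somebody is waiting. -/
def BusyLength (c : Bool) (u v : ℕ → ℝ) (n : ℕ) : Prop :=
  1 ≤ n ∧ ¬ By c (arrival u n) (depart u v (n - 1)) ∧
    ∀ k, 1 ≤ k → k < n → By c (arrival u k) (depart u v (k - 1))

/-- The graph on the first `n` customers: `r < s` are joined when customer `s` arrives during the
service time of customer `r` (not by its start `depart u v r - v r`, but by its end). -/
def tree (c : Bool) (u v : ℕ → ℝ) (n : ℕ) : SimpleGraph (Fin n) :=
  SimpleGraph.fromRel (fun r s : Fin n =>
    r < s ∧ ¬ By c (arrival u s) (depart u v r - v r) ∧ By c (arrival u s) (depart u v r))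

/-- Depth: graph distance from the first customer. -/
noncomputable def depth (c : Bool) (u v : ℕ → ℝ) (n : ℕ) (s : Fin n) : ℕ :=
  (tree c u v n).dist ⟨0, s.pos⟩ s

/-- Height: the maximal depth. -/
noncomputable def height (c : Bool) (u v : ℕ → ℝ) (n : ℕ) : ℕ := Finset.univ.sup (depth c u v n)

/-- Width: the maximal number of vertices of the same depth. -/
noncomputable def width (c : Bool) (u v : ℕ → ℝ) (n : ℕ) : ℕ :=
  ⨆ k : ℕ, (Finset.univ.filter fun s : Fin n => depth c u v n s = k).card

/-- Total height: the sum of the depths. -/
noncomputable def totalHeight (c : Bool) (u v : ℕ → ℝ) (n : ℕ) : ℕ := ∑ s : Fin n, depth c u v n s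

/-- The joint law of the interarrival times (i.i.d. with law `μ`) and the service times
(i.i.d. with law `ν`), the two sequences being independent. -/
noncomputable def queueLaw (μ ν : Measure ℝ) : Measure ((ℕ → ℝ) × (ℕ → ℝ)) :=
  (Measure.infinitePi fun _ : ℕ => μ).prod (Measure.infinitePi fun _ : ℕ => ν)

/-- The event `N = n`. -/
def busyEvent (c : Bool) (n : ℕ) : Set ((ℕ → ℝ) × (ℕ → ℝ)) := {ω | BusyLength c ω.1 ω.2 n}

end Pool.Agent.BPT
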