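import Pool.Agent.MP_99a865_pr.FV.T0
import Pool.Agent.MP_99a865_pr.FV.F1

open MeasureTheory ProbabilityTheory Filter Topology
open scoped ENNReal NNReal

namespace Pool.Agent.BPT

/-- the half-line corresponding to the convention `c` -/
def DD' (c : Bool) : Set ℝ := if c then Set.Ici 0 else Set.Ioi 0

theorem dom_DD' (c : Bool) : Dom (DD' c) := by
  cases c <;> simp [DD', Dom]

theorem by_iff (c : Bool) (s t : ℝ) : By c s t ↔ t - s ∈ DD' c := by
  cases c
  · simp [By, DD', sub_pos]
  · simp only [By, DD', if_true, Set.mem_Ici, sub_nonneg, true_and]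
    exact le_iff_lt_or_eq.symm

/-- the sequence of pairs -/
def zip (u v : ℕ → ℝ) : ℕ → ℝ × ℝ := fun i => (u i, v i)

end Pool.Agent.BPT
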