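import Pool.Agent.MP_99a865_pr.FV.T0b

open MeasureTheory ProbabilityTheory Filter Topology
open scoped ENNReal NNReal

namespace Pool.Agent.BPT

theorem T1b_Ar (u v : ℕ → ℝ) (k : ℕ) : Ar k (zip u v) = arrival u k := rfl

theorem T1b_nonneg (c : Bool) {x : ℝ} (h : x ∈ DD' c) : 0 ≤ x := (dom_DD' c).nonneg h

theorem T1b_depart (c : Bool) (u v : ℕ → ℝ) (k : ℕ)
    (h : ∀ j, 1 ≤ j → j ≤ k → By c (arrival u j) (depart u v (j - 1)) ∨ Zw j (zip u v) ∈ DD' c) :
    depart u v k = Dp (k + 1) (zip u v) := by
  induction k with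
  | zero => simp [depart, Dp, zip]
  | succ k ih =>
    have ih' := ih (fun j hj hj' => h j hj (by omega))
    have h1 : arrival u (k + 1) ≤ depart u v k := by
      rcases h (k + 1) (by omega) le_rfl with h2 | h2
      · rw [Nat.add_sub_cancel, by_iff] at h2
        have := T1b_nonneg c h2
        linarith
      · have := T1b_nonneg c h2
        rw [ih']
        unfold Zw at this
        rw [T1b_Ar] at this
        linarith
    show max (depart u v k) (arrival u (k + 1)) + v (k + 1) = _
    rw [max_eq_left h1, ih']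
    unfold Dp
    rw [Finset.sum_range_succ _ (k + 1)]
    rfl

/-- **[FV-T1b]** During the busy period the server is never idle.
PROOF. By induction on `k`, `depart u v k = ∑_{i ≤ k} v i` for `k < n` as long as
`By (arrival k) (depart (k-1))`, which gives `arrival k ≤ depart (k-1)`. -/
theorem busy_iff (c : Bool) (u v : ℕ → ℝ) (n : ℕ) : BusyLength c u v n ↔ zip u v ∈ EvN (DD' c) n := by
  constructor
  · rintro ⟨h1, h2, h3⟩
    have hd : ∀ k < n, depart u v k = Dp (k + 1) (zip u v) := fun k hk =>
      T1b_depart c u v k (fun j hj hj' => Or.inl (h3 j hj (by omega)))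
    refine ⟨h1, ?_, ?_⟩
    · intro j hj hj'
      have h4 := h3 j hj (by omega)
      rw [by_iff, hd (j - 1) (by omega), Nat.sub_add_cancel hj] at h4
      exact h4
    · rw [by_iff, hd (n - 1) (by omega), Nat.sub_add_cancel h1] at h2
      exact h2
  · rintro ⟨h1, h2, h3⟩
    have hd : ∀ k < n, depart u v k = Dp (k + 1) (zip u v) := fun k hk =>
      T1b_depart c u v k (fun j hj hj' => Or.inr (h2 j hj (by omega)))
    refine ⟨h1, ?_, ?_⟩
    · rw [by_iff, hd (n - 1) (by omega), Nat.sub_add_cancel h1]
      exact h3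
    · intro k hk hk'
      rw [by_iff, hd (k - 1) (by omega), Nat.sub_add_cancel hk]
      exact h2 k hk (by omega)

theorem depart_eq (c : Bool) (u v : ℕ → ℝ) (n : ℕ) (h : BusyLength c u v n) (k : ℕ) (hk : k < n) :
    depart u v k = Dp (k + 1) (zip u v) :=
  T1b_depart c u v k (fun j hj hj' => Or.inl (h.2.2 j hj (by omega)))

end Pool.Agent.BPT
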