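import Pool.Agent.MP_99a865_pr.FV.T1b
import Pool.Agent.MP_99a865_pr.FV.F5
import Pool.Agent.H97.QTree

open MeasureTheory ProbabilityTheory Filter Topology
open scoped ENNReal NNReal

namespace Pool.Agent.BPT

/-- an arrival at time `Ar s` during the service of `r` -/
def T1c_P (D : Set ℝ) (ω : ℕ → ℝ × ℝ) (r s : ℕ) : Prop :=
  r < s ∧ Dp r ω - Ar s ω ∉ D ∧ Dp (r + 1) ω - Ar s ω ∈ D

theorem T1c_step {D : Set ℝ} (hD : Dom D) {n : ℕ} {ω : ℕ → ℝ × ℝ} (hN : ω ∈ EvN D n) (hnn : NN ω)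
    {r s : ℕ} (hs : s < n) (h : T1c_P D ω r s) :
    ∃ b', Bd D ω b' ∧ r < b' ∧ b' ≤ s ∧ (∀ c, r < c → c < b' → ¬ Bd D ω c) ∧
      (∀ c, b' < c → c ≤ s → ¬ Bd D ω c) := by
  classical
  obtain ⟨h1, h2, h3⟩ := h
  have hb' : ∃ b', Bd D ω b' ∧ r < b' ∧ b' ≤ s ∧ (∀ c, r < c → c < b' → ¬ Bd D ω c) := by
    rcases Nat.eq_zero_or_pos r with h | h
    · refine ⟨1, Bd.one, by omega, by omega, fun c h4 h5 => by omega⟩
    · obtain ⟨b0, ⟨hb0, hb0'⟩, hmax⟩ : ∃ b0, (b0 ≤ r ∧ Bd D ω b0) ∧ ∀ c, c ≤ r → Bd D ω c → c ≤ b0 := by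
        refine ⟨Nat.findGreatest (fun c => c ≤ r ∧ Bd D ω c) r, ?_, ?_⟩
        · exact Nat.findGreatest_spec (P := fun c => c ≤ r ∧ Bd D ω c) (m := 1) (by omega)
            ⟨by omega, Bd.one⟩
        · intro c hc hc'
          exact Nat.le_findGreatest hc ⟨hc, hc'⟩
      obtain ⟨b', hb'n, hn, g1, g2⟩ := exists_next hD hN hnn hb0' (by omega)
      refine ⟨b', hn.2.1, ?_, ?_, ?_⟩
      · by_contra hc
        push Not at hc
        have := hmax b' hc hn.2.1
        have := hn.2.2.1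
        omega
      · by_contra hc
        push Not at hc
        have e1 := F5_Ar_mono hnn (by omega : s ≤ b' - 1)
        have e2 := F5_Dp_mono hnn hb0
        exact h2 (hD.up g1 (by linarith))
      · intro c hc1 hc2
        exact hn.2.2.2 c (by omega) hc2
  obtain ⟨b', hb1, hb2, hb3, hb4⟩ := hb'
  refine ⟨b', hb1, hb2, hb3, hb4, ?_⟩
  obtain ⟨b'', hb'n, hn, g1, g2⟩ := exists_next hD hN hnn hb1 (by omega)
  have hlt : s < b'' := by
    by_contra hc
    push Not at hc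
    have e1 := F5_Ar_mono hnn hc
    have e2 := F5_Dp_mono hnn (by omega : r + 1 ≤ b')
    exact g2 (hD.up h3 (by linarith))
  intro c hc1 hc2
  exact hn.2.2.2 c hc1 (by omega)

open Classical in
theorem T1c_cB {D : Set ℝ} (hD : Dom D) {n : ℕ} {ω : ℕ → ℝ × ℝ} (hN : ω ∈ EvN D n) (hnn : NN ω)
    {r s : ℕ} (hs : s < n) (h : T1c_P D ω r s) : cB D 0 (s + 1) ω = cB D 0 (r + 1) ω + 1 := by
  obtain ⟨b', h1, h2, h3, h4, h5⟩ := T1c_step hD hN hnn hs h
  unfold cB
  have e : (Finset.Ico 0 (s + 1)).filter (fun b => Bd D ω b) =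
      insert b' ((Finset.Ico 0 (r + 1)).filter (fun b => Bd D ω b)) := by
    ext c
    simp only [Finset.mem_filter, Finset.mem_Ico, Finset.mem_insert]
    constructor
    · rintro ⟨⟨-, h6⟩, h7⟩
      rcases lt_trichotomy c b' with h8 | h8 | h8
      · right
        refine ⟨⟨Nat.zero_le _, ?_⟩, h7⟩
        by_contra hc
        exact h4 c (by omega) h8 h7
      · exact Or.inl h8
      · exact absurd h7 (h5 c h8 (by omega))
    · rintro (h6 | ⟨⟨-, h6⟩, h7⟩)
      · subst h6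
        exact ⟨⟨Nat.zero_le _, by omega⟩, h1⟩
      · exact ⟨⟨Nat.zero_le _, by omega⟩, h7⟩
  rw [e, Finset.card_insert_of_notMem]
  intro hc
  rw [Finset.mem_filter, Finset.mem_Ico] at hc
  omega

open Classical in
theorem T1c_mono {D : Set ℝ} {ω : ℕ → ℝ × ℝ} {r s : ℕ} (h : r ≤ s) :
    cB D 0 (r + 1) ω ≤ cB D 0 (s + 1) ω := by
  unfold cB
  apply Finset.card_le_card
  intro c hc
  rw [Finset.mem_filter, Finset.mem_Ico] at hc ⊢
  exact ⟨⟨hc.1.1, by omega⟩, hc.2⟩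

open Classical in
theorem T1c_zero {D : Set ℝ} {ω : ℕ → ℝ × ℝ} : cB D 0 (0 + 1) ω = 0 := by
  unfold cB
  rw [Finset.card_eq_zero, Finset.filter_eq_empty_iff]
  intro c hc h
  rw [Finset.mem_Ico] at hc
  have := Bd_pos h
  omega

theorem T1c_exists {D : Set ℝ} (hD : Dom D) {n : ℕ} {ω : ℕ → ℝ × ℝ} (hN : ω ∈ EvN D n)
    (hpos : ∀ k, 0 < (ω k).1) {s : ℕ} (hs0 : 1 ≤ s) (hs : s < n) : ∃ r, T1c_P D ω r s := by
  classical
  have hex : ∃ r, Dp (r + 1) ω - Ar s ω ∈ D := by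
    refine ⟨s - 1, ?_⟩
    rw [Nat.sub_add_cancel hs0]
    exact hN.2.1 s hs0 (by omega)
  have h1 := Nat.find_spec hex
  have hmin : ∀ m, m < Nat.find hex → ¬ (Dp (m + 1) ω - Ar s ω ∈ D) := fun m hm => Nat.find_min hex hm
  have hle : Nat.find hex ≤ s - 1 := Nat.find_min' hex (by
    rw [Nat.sub_add_cancel hs0]
    exact hN.2.1 s hs0 (by omega))
  generalize Nat.find hex = r at h1 hmin hle
  refine ⟨r, by omega, ?_, h1⟩
  rcases Nat.eq_zero_or_pos r with h | h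
  · subst h
    intro hc
    have e1 := hD.nonneg hc
    have e2 : Dp 0 ω = 0 := by simp [Dp]
    have e3 : 0 < Ar s ω := by
      unfold Ar
      apply Finset.sum_pos (fun i _ => hpos i)
      exact Finset.nonempty_range_iff.2 (by omega)
    linarith
  · have := hmin (r - 1) (by omega)
    rwa [Nat.sub_add_cancel h] at this

/-- **[FV-T1c]** The depth of a customer is the number of boundaries up to its label.
PROOF. Let `D = DD' c`, `ω = zip u v`, `gen s = cB D 0 (s+1) ω`. By `Pool.Agent.H97.Queue.dist_eq_of_potential`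
(file `Pool/Agent/H97/QTree.lean`) with the potential `gen` it is enough to prove (for labels `< n`):
`gen 0 = 0` (boundaries are `≥ 1`); if `r < s` are joined, then `gen s = gen r + 1`; every `s ≥ 1` is joined
to some `r < s`. Existence: let `r` be the least label with `Dp (r+1) - Ar s ∈ D`; it exists and `r < s`
because `Dp s - Ar s ∈ D`; then `Dp r - Ar s ∉ D` (for `r = 0`: `Dp 0 = 0` and `Ar s > 0`), and
`depart r - v r = Dp r`. If `r < s` are joined: `Dp r - Ar s ∉ D`, `Dp (r+1) - Ar s ∈ D`. Let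
`b_0 = 1 < b_1 < …` be the boundaries and `b_{i-1} ≤ r < b_i` (with `b_{-1} = 0`; `gen r = i`), where
`b_i ≤ n`. Then `b_i ≤ s`: for `i ≥ 1`, `Dp b_{i-1} - Ar s ∉ D` (as `Dp b_{i-1} ≤ Dp r`), while
`Dp b_{i-1} - Ar (b_i - 1) ∈ D`, so `s > b_i - 1`; for `i = 0`, `s > r = 0`. And `s < b_{i+1}` if
`b_{i+1}` exists: `Dp b_i ≥ Dp (r+1)`, so `Dp b_i - Ar s ∈ D`, and `Dp b_i - Ar b_{i+1} ∉ D`, so
`s < b_{i+1}`. Hence `gen s = i + 1`. -/
theorem depth_eq (c : Bool) (u v : ℕ → ℝ) (hu : ∀ k, 0 < u k) (hv : ∀ k, 0 < v k) (n : ℕ)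
    (h : BusyLength c u v n) (s : Fin n) : depth c u v n s = cB (DD' c) 0 (s + 1) (zip u v) := by
  have hD := dom_DD' c
  have hN := (busy_iff c u v n).1 h
  have hnn : NN (zip u v) := fun k => ⟨(hu k).le, (hv k).le⟩
  have hpos : ∀ k, 0 < (zip u v k).1 := fun k => hu k
  have hP : ∀ r s : Fin n, (r < s ∧ ¬ By c (arrival u s) (depart u v r - v r) ∧
      By c (arrival u s) (depart u v r)) ↔ T1c_P (DD' c) (zip u v) r s := by
    intro r s
    have e1 := depart_eq c u v n h r r.2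
    have e2 : Dp ((r : ℕ) + 1) (zip u v) = Dp r (zip u v) + v r := by
      unfold Dp
      rw [Finset.sum_range_succ]
      rfl
    rw [by_iff, by_iff, e1]
    unfold T1c_P
    rw [show Dp ((r : ℕ) + 1) (zip u v) - v r = Dp r (zip u v) by rw [e2]; ring]
    rfl
  have hadj : ∀ r s : Fin n, (tree c u v n).Adj r s ↔
      T1c_P (DD' c) (zip u v) r s ∨ T1c_P (DD' c) (zip u v) s r := by
    intro r s
    unfold tree
    rw [SimpleGraph.fromRel_adj, hP r s, hP s r]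
    constructor
    · rintro ⟨-, h1⟩
      exact h1
    · intro h1
      refine ⟨?_, h1⟩
      rintro rfl
      rcases h1 with h1 | h1 <;> exact absurd h1.1 (lt_irrefl _)
  unfold depth
  refine Pool.Agent.H97.Queue.dist_eq_of_potential
    (D := fun s : Fin n => cB (DD' c) 0 (s + 1) (zip u v)) ?_ ?_ ?_ s
  · exact T1c_zero
  · intro a b hab
    rcases (hadj a b).1 hab with h1 | h1
    · exact (T1c_cB hD hN hnn b.2 h1).le
    · exact (T1c_mono h1.1.le).trans (Nat.le_succ _)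
  · intro s hs
    have hs0 : (s : ℕ) ≠ 0 := by
      intro h0
      apply hs
      exact Fin.ext h0
    obtain ⟨r, hr⟩ := T1c_exists hD hN hpos (by omega) s.2
    have hr1 := hr.1
    exact ⟨⟨r, by omega⟩, (hadj _ _).2 (Or.inl hr), T1c_cB hD hN hnn s.2 hr⟩

end Pool.Agent.BPT
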