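import Pool.Agent.MP_99a865_pr.FV.S0
import Pool.Agent.MP_99a865_pr.FV.F11b

open MeasureTheory ProbabilityTheory Filter Topology
open scoped ENNReal NNReal

namespace Pool.Agent.BPT

/-- the chain -/
noncomputable def X2_G (κ : ℝ) : (k : ℕ) → (ℕ → ℝ → ℝ) → (ℝ → ℝ) → ℝ → (Fin k → ℝ) → ℝ
  | 0, _, h, x0, _ => h x0
  | k + 1, f, h, x0, x =>
      qq κ x0 (x 0) * (f 0 (x 0) * X2_G κ k (fun j => f (j + 1)) h (x 0) fun i => x i.succ)

lemma X2_meas_gau (t : ℝ) : Measurable (gau t) := (continuous_gau t).measurable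

lemma X2_meas_qq (t : ℝ) : Measurable (fun p : ℝ × ℝ => qq t p.1 p.2) := by
  unfold qq
  exact ((X2_meas_gau t).comp (measurable_snd.sub measurable_fst)).sub
    ((X2_meas_gau t).comp (measurable_snd.add measurable_fst))

lemma X2_meas_psi (t : ℝ) : Measurable (psi t) := by
  unfold psi
  exact ((measurable_const.mul measurable_id).div_const _).mul (X2_meas_gau t)

lemma X2_meas_G (κ : ℝ) (k : ℕ) : ∀ (f : ℕ → ℝ → ℝ) (h : ℝ → ℝ), (∀ j, Measurable (f j)) →
    Measurable h → Measurable (fun p : ℝ × (Fin k → ℝ) => X2_G κ k f h p.1 p.2) := by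
  induction k with
  | zero =>
    intro f h _ hh
    exact hh.comp measurable_fst
  | succ k ih =>
    intro f h hf hh
    have h0 : Measurable (fun p : ℝ × (Fin (k + 1) → ℝ) => p.2 0) :=
      (measurable_pi_apply 0).comp measurable_snd
    have h1 : Measurable (fun p : ℝ × (Fin (k + 1) → ℝ) =>
        ((p.2 0, fun i => p.2 i.succ) : ℝ × (Fin k → ℝ))) := by
      refine h0.prodMk ?_
      refine measurable_pi_lambda _ fun i => ?_
      exact (measurable_pi_apply i.succ).comp measurable_snd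
    have h2 : Measurable (fun p : ℝ × (Fin (k + 1) → ℝ) =>
        X2_G κ k (fun j => f (j + 1)) h (p.2 0) fun i => p.2 i.succ) :=
      (ih (fun j => f (j + 1)) h (fun j => hf _) hh).comp h1
    have h30 : Measurable (fun p : ℝ × (Fin (k + 1) → ℝ) => ((p.1, p.2 0) : ℝ × ℝ)) :=
      measurable_fst.prodMk h0
    have h3 : Measurable (fun p : ℝ × (Fin (k + 1) → ℝ) => qq κ p.1 (p.2 0)) := by
      have h31 := (X2_meas_qq κ).comp h30
      simpa only [Function.comp_def] using h31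
    have h4 : Measurable (fun p : ℝ × (Fin (k + 1) → ℝ) => f 0 (p.2 0)) := (hf 0).comp h0
    simp only [X2_G]
    exact h3.mul (h4.mul h2)

/-- the measure on the half-line -/
noncomputable def X2_nu : Measure ℝ := volume.restrict (Set.Ioi 0)

instance : SigmaFinite X2_nu := by unfold X2_nu; infer_instance

noncomputable def X2_mu (k : ℕ) : Measure (Fin k → ℝ) := Measure.pi fun _ => X2_nu

instance (k : ℕ) : SigmaFinite (X2_mu k) := by unfold X2_mu; infer_instance

lemma X2_mu_eq (k : ℕ) : (volume : Measure (Fin k → ℝ)).restrict {x | ∀ i, 0 < x i} = X2_mu k := by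
  unfold X2_mu X2_nu
  rw [← Measure.restrict_pi_pi]
  have : {x : Fin k → ℝ | ∀ i, 0 < x i} = Set.univ.pi fun _ => Set.Ioi 0 := by
    ext x; simp [Set.mem_pi]
  rw [this]
  rfl

lemma X2_e (k : ℕ) (p : ℝ × (Fin k → ℝ)) :
    (MeasurableEquiv.piFinSuccAbove (fun _ : Fin (k + 1) => ℝ) 0).symm p =
      (Fin.cons p.1 p.2 : Fin (k + 1) → ℝ) := by
  simp_rw [MeasurableEquiv.piFinSuccAbove_symm_apply, Fin.insertNthEquiv]
  funext i
  refine Fin.cases ?_ (fun j => ?_) i
  · simp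
  · simp

lemma X2_succ (k : ℕ) : MeasurePreserving
    (fun p : ℝ × (Fin k → ℝ) => (Fin.cons p.1 p.2 : Fin (k + 1) → ℝ))
    (X2_nu.prod (X2_mu k)) (X2_mu (k + 1)) := by
  have h := (measurePreserving_piFinSuccAbove (fun _ : Fin (k + 1) => X2_nu) 0).symm
  have e : (⇑(MeasurableEquiv.piFinSuccAbove (fun _ : Fin (k + 1) => ℝ) 0).symm) =
      fun p : ℝ × (Fin k → ℝ) => (Fin.cons p.1 p.2 : Fin (k + 1) → ℝ) := by
    funext p
    exact X2_e k p
  rw [← e]
  exact h

lemma X2_integral_succ (k : ℕ) (F : (Fin (k + 1) → ℝ) → ℝ) :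
    ∫ x, F x ∂(X2_mu (k + 1)) =
      ∫ p : ℝ × (Fin k → ℝ), F (Fin.cons p.1 p.2) ∂(X2_nu.prod (X2_mu k)) := by
  have h := (measurePreserving_piFinSuccAbove (fun _ : Fin (k + 1) => X2_nu) 0).symm
  have h1 := h.integral_comp' F
  simp_rw [X2_e] at h1
  exact h1.symm

lemma X2_lintegral_succ (k : ℕ) (F : (Fin (k + 1) → ℝ) → ℝ≥0∞) (hF : Measurable F) :
    ∫⁻ x, F x ∂(X2_mu (k + 1)) =
      ∫⁻ p : ℝ × (Fin k → ℝ), F (Fin.cons p.1 p.2) ∂(X2_nu.prod (X2_mu k)) :=
  ((X2_succ k).lintegral_comp hF).symm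

lemma X2_qq_lint {κ : ℝ} (hκ : 0 < κ) (x : ℝ) : ∫⁻ y, ‖qq κ x y‖ₑ ∂X2_nu ≤ 2 := by
  have hg : ∀ c : ℝ, ∫⁻ y, ‖gau κ (y + c)‖ₑ = 1 := by
    intro c
    rw [lintegral_add_right_eq_self (fun y => ‖gau κ y‖ₑ) c]
    have h1 : ∀ y, ‖gau κ y‖ₑ = ENNReal.ofReal (gau κ y) := fun y =>
      Real.enorm_of_nonneg (gau_pos hκ y).le
    simp_rw [h1]
    rw [← ofReal_integral_eq_lintegral_ofReal (integrable_gau hκ)
      (Eventually.of_forall fun y => (gau_pos hκ y).le), integral_gau hκ]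
    simp
  calc ∫⁻ y, ‖qq κ x y‖ₑ ∂X2_nu ≤ ∫⁻ y, ‖qq κ x y‖ₑ := setLIntegral_le_lintegral _ _
    _ ≤ ∫⁻ y, (‖gau κ (y + (-x))‖ₑ + ‖gau κ (y + x)‖ₑ) := by
        refine lintegral_mono fun y => ?_
        have : qq κ x y = gau κ (y + (-x)) - gau κ (y + x) := by unfold qq; ring_nf
        rw [this]
        exact enorm_sub_le
    _ = 1 + 1 := by
        have hm : Measurable fun y => ‖gau κ (y + (-x))‖ₑ :=
          ((X2_meas_gau κ).comp (measurable_id.add_const (-x))).enorm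
        rw [lintegral_add_left hm, hg, hg]
    _ = 2 := by norm_num

lemma X2_bound {κ : ℝ} (hκ : 0 < κ) (M : ℝ≥0) (k : ℕ) : ∀ (f : ℕ → ℝ → ℝ) (h : ℝ → ℝ),
    (∀ j, Measurable (f j)) → Measurable h → (∀ j x, ‖f j x‖ₑ ≤ M) → (∀ x, ‖h x‖ₑ ≤ M) → ∀ x0,
    ∫⁻ x, ‖X2_G κ k f h x0 x‖ₑ ∂(X2_mu k) ≤ (2 * M) ^ k * M := by
  induction k with
  | zero =>
    intro f h hf hh hfM hhM x0
    have : IsProbabilityMeasure (X2_mu 0) := by
      unfold X2_mu
      rw [Measure.pi_of_empty]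
      infer_instance
    simp only [X2_G, lintegral_const, measure_univ, mul_one, pow_zero, one_mul]
    exact hhM x0
  | succ k ih =>
    intro f h hf hh hfM hhM x0
    have hm : Measurable fun x : Fin (k + 1) → ℝ => ‖X2_G κ (k + 1) f h x0 x‖ₑ :=
      ((X2_meas_G κ (k + 1) f h hf hh).comp (measurable_const.prodMk measurable_id)).enorm
    rw [X2_lintegral_succ k _ hm]
    have hm2 : Measurable fun p : ℝ × (Fin k → ℝ) =>
        ‖X2_G κ (k + 1) f h x0 (Fin.cons p.1 p.2)‖ₑ := hm.comp (X2_succ k).measurable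
    rw [lintegral_prod _ hm2.aemeasurable]
    have e : ∀ (y : ℝ) (x' : Fin k → ℝ), ‖X2_G κ (k + 1) f h x0 (Fin.cons y x')‖ₑ =
        ‖qq κ x0 y‖ₑ * (‖f 0 y‖ₑ * ‖X2_G κ k (fun j => f (j + 1)) h y x'‖ₑ) := by
      intro y x'
      simp only [X2_G, Fin.cons_zero, Fin.cons_succ]
      rw [enorm_mul, enorm_mul]
    simp_rw [e]
    calc ∫⁻ y, ∫⁻ x', ‖qq κ x0 y‖ₑ * (‖f 0 y‖ₑ * ‖X2_G κ k (fun j => f (j + 1)) h y x'‖ₑ) ∂(X2_mu k)
          ∂X2_nu
        ≤ ∫⁻ y, ‖qq κ x0 y‖ₑ * (M * ((2 * M) ^ k * M)) ∂X2_nu := by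
          refine lintegral_mono fun y => ?_
          have hmk : Measurable fun x' : Fin k → ℝ => ‖X2_G κ k (fun j => f (j + 1)) h y x'‖ₑ :=
            ((X2_meas_G κ k _ h (fun j => hf _) hh).comp (measurable_const.prodMk measurable_id)).enorm
          rw [lintegral_const_mul _ (hmk.const_mul _), lintegral_const_mul _ hmk]
          gcongr
          · exact hfM 0 y
          · exact ih _ h (fun j => hf _) hh (fun j x => hfM _ x) hhM y
      _ = (∫⁻ y, ‖qq κ x0 y‖ₑ ∂X2_nu) * (M * ((2 * M) ^ k * M)) := by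
          rw [lintegral_mul_const]
          exact ((X2_meas_qq κ).comp (measurable_const.prodMk measurable_id)).enorm
      _ ≤ 2 * (M * ((2 * M) ^ k * M)) := by gcongr; exact X2_qq_lint hκ x0
      _ = (2 * M) ^ (k + 1) * M := by ring

lemma X2_integrable {κ : ℝ} (hκ : 0 < κ) (M : ℝ≥0) (k : ℕ) (f : ℕ → ℝ → ℝ) (h : ℝ → ℝ)
    (hf : ∀ j, Measurable (f j)) (hh : Measurable h) (hfM : ∀ j x, ‖f j x‖ₑ ≤ M)
    (hhM : ∀ x, ‖h x‖ₑ ≤ M) (x0 : ℝ) : Integrable (X2_G κ k f h x0) (X2_mu k) := by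
  refine ⟨((X2_meas_G κ k f h hf hh).comp (measurable_const.prodMk measurable_id)).aestronglyMeasurable,
    ?_⟩
  refine lt_of_le_of_lt (X2_bound hκ M k f h hf hh hfM hhM x0) ?_
  exact ENNReal.mul_lt_top (ENNReal.pow_lt_top (ENNReal.mul_lt_top (by norm_num) ENNReal.coe_lt_top))
    ENNReal.coe_lt_top

/-- the list -/
noncomputable def X2_l (κ : ℝ) (k : ℕ) (f : ℕ → ℝ → ℝ) : List (ℝ × (ℝ → ℝ)) :=
  (List.range k).map fun j => (κ, f j)

lemma X2_l_succ (κ : ℝ) (k : ℕ) (f : ℕ → ℝ → ℝ) :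
    X2_l κ (k + 1) f = (κ, f 0) :: X2_l κ k (fun j => f (j + 1)) := by
  unfold X2_l
  rw [List.range_succ_eq_map]
  simp [Function.comp_def]

lemma X2_main {κ : ℝ} (hκ : 0 < κ) (M : ℝ≥0) (k : ℕ) : ∀ (f : ℕ → ℝ → ℝ) (h : ℝ → ℝ),
    (∀ j, Measurable (f j)) → Measurable h → (∀ j x, ‖f j x‖ₑ ≤ M) → (∀ x, ‖h x‖ₑ ≤ M) → ∀ x0,
    ∫ x, X2_G κ k f h x0 x ∂(X2_mu k) = IA (X2_l κ k f) h x0 := by
  induction k with
  | zero =>
    intro f h hf hh hfM hhM x0
    have : IsProbabilityMeasure (X2_mu 0) := by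
      unfold X2_mu
      rw [Measure.pi_of_empty]
      infer_instance
    simp [X2_G, X2_l, IA]
  | succ k ih =>
    intro f h hf hh hfM hhM x0
    have hint := X2_integrable hκ M (k + 1) f h hf hh hfM hhM x0
    have hint2 : Integrable (fun p : ℝ × (Fin k → ℝ) => X2_G κ (k + 1) f h x0 (Fin.cons p.1 p.2))
        (X2_nu.prod (X2_mu k)) :=
      (X2_succ k).integrable_comp_of_integrable hint
    rw [X2_integral_succ, integral_prod _ hint2, X2_l_succ]
    simp only [X2_G, Fin.cons_zero, Fin.cons_succ, IA]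
    unfold AA X2_nu
    refine integral_congr_ae (Eventually.of_forall fun y => ?_)
    simp only
    rw [integral_const_mul, integral_const_mul, ih _ h (fun j => hf _) hh (fun j x => hfM _ x) hhM y]

/-- closed form -/
lemma X2_closed (κ : ℝ) (k : ℕ) : ∀ (f : ℕ → ℝ → ℝ) (h : ℝ → ℝ) (x : Fin (k + 1) → ℝ),
    X2_G κ k f h (x 0) (fun i => x i.succ) =
      (∏ i : Fin k, qq κ (x i.castSucc) (x i.succ)) * (∏ i : Fin k, f i (x i.succ)) *
        h (x (Fin.last k)) := by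
  induction k with
  | zero =>
    intro f h x
    simp [X2_G]
  | succ k ih =>
    intro f h x
    simp only [X2_G]
    have h1 := ih (fun j => f (j + 1)) h (fun i => x i.succ)
    rw [h1, Fin.prod_univ_succ (n := k) (f := fun i => qq κ (x i.castSucc) (x i.succ)),
      Fin.prod_univ_succ (n := k) (f := fun i : Fin (k + 1) => f i (x i.succ))]
    simp only [Fin.castSucc_zero, Fin.val_zero, Fin.val_succ, Fin.succ_castSucc, Fin.succ_last]
    ring

lemma X2_excQ (s x y : ℝ) : excQ s x y = qq s x y := by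
  unfold excQ qq gau
  rw [sub_div]

lemma X2_excL {t : ℝ} (ht : 0 < t) (x : ℝ) : excL t x = psi t x / 2 := by
  unfold excL psi gau
  have h1 : √(2 * Real.pi * t ^ 3) = t * √(2 * Real.pi * t) := by
    rw [show 2 * Real.pi * t ^ 3 = t ^ 2 * (2 * Real.pi * t) by ring, Real.sqrt_mul (sq_nonneg t),
      Real.sqrt_sq ht.le]
  rw [h1]
  have h2 : 0 < √(2 * Real.pi * t) := Real.sqrt_pos.2 (by positivity)
  field_simp

lemma X2_meas_density {k : ℕ} (t : Fin (k + 1) → ℝ) : Measurable (excDensity t) := by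
  have h1 : ∀ s, Measurable (excL s) := fun s => by
    unfold excL
    have : Continuous fun x : ℝ => x / √(2 * Real.pi * s ^ 3) * Real.exp (-x ^ 2 / (2 * s)) := by
      fun_prop
    exact this.measurable
  have h2 : ∀ s, Measurable fun p : ℝ × ℝ => excQ s p.1 p.2 := fun s => by
    simp_rw [X2_excQ]
    exact X2_meas_qq s
  have h3 : ∀ i : Fin k, Measurable fun x : Fin (k + 1) → ℝ =>
      excQ (t i.succ - t i.castSucc) (x i.castSucc) (x i.succ) := by
    intro i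
    have h30 : Measurable (fun x : Fin (k + 1) → ℝ => ((x i.castSucc, x i.succ) : ℝ × ℝ)) :=
      (measurable_pi_apply i.castSucc).prodMk (measurable_pi_apply i.succ)
    have h31 := (h2 (t i.succ - t i.castSucc)).comp h30
    simpa only [Function.comp_def] using h31
  have h4 : Measurable fun x : Fin (k + 1) → ℝ => ∏ i : Fin k,
      excQ (t i.succ - t i.castSucc) (x i.castSucc) (x i.succ) :=
    Finset.measurable_prod _ fun i _ => h3 i
  have h5 : Measurable fun x : Fin (k + 1) → ℝ => excL (t 0) (x 0) :=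
    (h1 _).comp (measurable_pi_apply 0)
  have h6 : Measurable fun x : Fin (k + 1) → ℝ => excL (1 - t (Fin.last k)) (x (Fin.last k)) :=
    (h1 _).comp (measurable_pi_apply (Fin.last k))
  exact ((h5.const_mul (2 * √(2 * Real.pi))).mul h4).mul h6

lemma X2_density_nonneg {k : ℕ} (t : Fin (k + 1) → ℝ) (hmono : StrictMono t)
    (ht : ∀ i, 0 < t i ∧ t i < 1) (x : Fin (k + 1) → ℝ) (hx : ∀ i, 0 < x i) :
    0 ≤ excDensity t x := by
  have h1 : ∀ s, 0 < s → ∀ y, 0 < y → 0 ≤ excL s y := fun s hs y hy => by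
    rw [X2_excL hs]
    have := psi_nonneg hs hy.le
    linarith
  unfold excDensity
  refine mul_nonneg (mul_nonneg (mul_nonneg (by positivity) (h1 _ (ht 0).1 _ (hx 0)))
    (Finset.prod_nonneg fun i _ => ?_)) (h1 _ (by linarith [(ht (Fin.last k)).2]) _ (hx _))
  rw [X2_excQ]
  refine qq_nonneg ?_ (hx _).le (hx _).le
  have := hmono (Fin.castSucc_lt_succ (i := i))
  linarith

/-- the grid times -/
noncomputable def X2_t (δ κ : ℝ) (k : ℕ) : Fin (k + 1) → ℝ := fun j => δ + (j : ℕ) * κ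

lemma X2_integral {Ω : Type} [MeasurableSpace Ω] (P : Measure Ω) (e : ℝ → Ω → ℝ)
    (he : IsBrownianExcursion P e) {δ κ : ℝ} (hδ : 0 < δ) (hκ : 0 < κ) (k : ℕ)
    (h1 : δ + k * κ < 1) (f : ℕ → ℝ → ℝ) (hf : ∀ j, Measurable (f j)) (M : ℝ≥0)
    (hfM : ∀ j x, ‖f j x‖ₑ ≤ M) :
    ∫ ω, ∏ j ∈ Finset.range (k + 1), f j (e (δ + j * κ) ω) ∂P =
      2 * √(2 * Real.pi) / 4 *
        DD δ fun y => f 0 y * IA (X2_l κ k fun j => f (j + 1)) (psi (1 - (δ + k * κ))) y := by
  have hprob := he.prob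
  set t : Fin (k + 1) → ℝ := X2_t δ κ k with htdef
  have hmono : StrictMono t := by
    intro i j hij
    have : ((i : ℕ) : ℝ) < ((j : ℕ) : ℝ) := by exact_mod_cast hij
    simp only [htdef, X2_t]
    nlinarith
  have ht : ∀ i, 0 < t i ∧ t i < 1 := by
    intro i
    have hi : ((i : ℕ) : ℝ) ≤ k := by exact_mod_cast Nat.lt_succ_iff.1 i.2
    have hi0 : (0 : ℝ) ≤ ((i : ℕ) : ℝ) := Nat.cast_nonneg _
    simp only [htdef, X2_t]
    constructor
    · positivity
    · nlinarith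
  have hfdd := he.fdd k t hmono ht
  rw [X2_mu_eq] at hfdd
  set T : Ω → (Fin (k + 1) → ℝ) := fun ω i => e (t i) ω with hT
  have hTm : Measurable T := measurable_pi_lambda _ fun i => he.meas _
  set g : (Fin (k + 1) → ℝ) → ℝ := fun x => ∏ i : Fin (k + 1), f i (x i) with hg
  have hgm : Measurable g := Finset.measurable_prod _ fun i _ => (hf _).comp (measurable_pi_apply i)
  have e1 : ∀ ω, ∏ j ∈ Finset.range (k + 1), f j (e (δ + j * κ) ω) = g (T ω) := by
    intro ω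
    simp only [hg, hT, htdef, X2_t]
    rw [Finset.prod_range]
  simp_rw [e1]
  have e2 : ∫ ω, g (T ω) ∂P = ∫ x, g x ∂(P.map T) :=
    (integral_map hTm.aemeasurable hgm.aestronglyMeasurable).symm
  have hmd : Measurable fun x => ENNReal.ofReal (excDensity t x) :=
    ENNReal.measurable_ofReal.comp (X2_meas_density t)
  rw [e2, hfdd, integral_withDensity_eq_integral_toReal_smul hmd
    (Eventually.of_forall fun _ => ENNReal.ofReal_lt_top)]
  set s : ℝ := 1 - (δ + k * κ) with hs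
  have hspos : 0 < s := by rw [hs]; linarith
  have hae : ∀ᵐ x ∂(X2_mu (k + 1)), (ENNReal.ofReal (excDensity t x)).toReal • g x =
      2 * √(2 * Real.pi) / 4 * (psi δ (x 0) * (f 0 (x 0) *
        X2_G κ k (fun j => f (j + 1)) (psi s) (x 0) fun i => x i.succ)) := by
    rw [← X2_mu_eq]
    have hms : MeasurableSet {x : Fin (k + 1) → ℝ | ∀ i, 0 < x i} := by
      have : {x : Fin (k + 1) → ℝ | ∀ i, 0 < x i} = ⋂ i, {x | 0 < x i} := by ext; simp
      rw [this]
      exact MeasurableSet.iInter fun i => measurableSet_lt measurable_const (measurable_pi_apply i)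
    filter_upwards [ae_restrict_mem hms] with x hx
    rw [ENNReal.toReal_ofReal (X2_density_nonneg t hmono ht x hx), smul_eq_mul, X2_closed]
    simp only [hg]
    rw [Fin.prod_univ_succ]
    unfold excDensity
    simp_rw [X2_excQ]
    have t0 : t 0 = δ := by simp [htdef, X2_t]
    have tl : 1 - t (Fin.last k) = s := by simp [htdef, X2_t, hs]
    have td : ∀ i : Fin k, t i.succ - t i.castSucc = κ := by
      intro i
      simp only [htdef, X2_t, Fin.val_succ, Fin.val_castSucc]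
      push_cast
      ring
    simp_rw [td]
    rw [t0, tl, X2_excL hδ, X2_excL hspos]
    simp only [Fin.val_zero, Fin.val_succ]
    ring
  rw [integral_congr_ae hae, integral_const_mul]
  congr 1
  set M' : ℝ≥0 := max M (Real.toNNReal (2 / s)) with hM'
  have hpsi : ∀ x, ‖psi s x‖ₑ ≤ (M' : ℝ≥0∞) := by
    intro x
    rw [← ofReal_norm]
    calc ENNReal.ofReal ‖psi s x‖ ≤ ENNReal.ofReal (2 / s) :=
          ENNReal.ofReal_le_ofReal (abs_psi_le hspos x)
      _ ≤ (M' : ℝ≥0∞) := by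
          rw [ENNReal.ofReal]
          exact_mod_cast le_max_right _ _
  have hfM' : ∀ j x, ‖f j x‖ₑ ≤ (M' : ℝ≥0∞) := fun j x =>
    (hfM j x).trans (by exact_mod_cast le_max_left _ _)
  have hG := fun y => X2_integrable hκ M' k (fun j => f (j + 1)) (psi s) (fun j => hf _)
    (X2_meas_psi s) (fun j x => hfM' _ x) hpsi y
  have hmG := X2_meas_G κ k (fun j => f (j + 1)) (psi s) (fun j => hf _) (X2_meas_psi s)
  rw [X2_integral_succ]
  simp only [Fin.cons_zero, Fin.cons_succ]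
  have hpsiδ : ∫⁻ y, ‖psi δ y‖ₑ ∂X2_nu < ⊤ := by
    have h5 := abs_DD_le hδ (fun _ => 1) measurable_const 1 (fun _ => by simp)
    by_contra hcon
    have hcon' : ∫⁻ y, ‖psi δ y‖ₑ ∂X2_nu = ⊤ := not_lt_top_iff.1 hcon
    have h6 : ¬ Integrable (psi δ) X2_nu := by
      intro h7
      exact absurd hcon' (ne_of_lt h7.2)
    have h8 : 0 < DD δ (fun _ => 1) := DD_pos hδ _ measurable_const 1 (fun _ => by simp)
      (fun _ _ => one_pos)
    have h9 : DD δ (fun _ => 1) = 0 := by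
      unfold DD
      simp only [mul_one]
      exact integral_undef h6
    linarith
  have hint : Integrable (fun p : ℝ × (Fin k → ℝ) => psi δ p.1 * (f 0 p.1 *
      X2_G κ k (fun j => f (j + 1)) (psi s) p.1 p.2)) (X2_nu.prod (X2_mu k)) := by
    have hm : Measurable (fun p : ℝ × (Fin k → ℝ) => psi δ p.1 * (f 0 p.1 *
      X2_G κ k (fun j => f (j + 1)) (psi s) p.1 p.2)) :=
      ((X2_meas_psi δ).comp measurable_fst).mul (((hf 0).comp measurable_fst).mul hmG)
    refine ⟨hm.aestronglyMeasurable, ?_⟩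
    unfold HasFiniteIntegral
    rw [lintegral_prod _ hm.enorm.aemeasurable]
    simp_rw [enorm_mul]
    calc ∫⁻ y, ∫⁻ x', ‖psi δ y‖ₑ * (‖f 0 y‖ₑ * ‖X2_G κ k (fun j => f (j + 1)) (psi s) y x'‖ₑ)
            ∂(X2_mu k) ∂X2_nu
        ≤ ∫⁻ y, ‖psi δ y‖ₑ * (M' * ((2 * M') ^ k * M')) ∂X2_nu := by
          refine lintegral_mono fun y => ?_
          have hmk : Measurable fun x' : Fin k → ℝ => ‖X2_G κ k (fun j => f (j + 1)) (psi s) y x'‖ₑ :=
            (hmG.comp (measurable_const.prodMk measurable_id)).enorm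
          rw [lintegral_const_mul _ (hmk.const_mul _), lintegral_const_mul _ hmk]
          gcongr
          · exact hfM' 0 y
          · exact X2_bound hκ M' k _ _ (fun j => hf _) (X2_meas_psi s) (fun j x => hfM' _ x) hpsi y
      _ = (∫⁻ y, ‖psi δ y‖ₑ ∂X2_nu) * (M' * ((2 * M') ^ k * M')) := by
          rw [lintegral_mul_const _ (X2_meas_psi δ).enorm]
      _ < ⊤ := ENNReal.mul_lt_top hpsiδ (ENNReal.mul_lt_top ENNReal.coe_lt_top
          (ENNReal.mul_lt_top (ENNReal.pow_lt_top (ENNReal.mul_lt_top (by norm_num)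
            ENNReal.coe_lt_top)) ENNReal.coe_lt_top))
  rw [integral_prod _ hint]
  unfold DD X2_nu
  refine integral_congr_ae (Eventually.of_forall fun y => ?_)
  simp only
  rw [integral_const_mul, integral_const_mul, X2_main hκ M' k _ (psi s) (fun j => hf _)
    (X2_meas_psi s) (fun j x => hfM' _ x) hpsi y]

lemma X2_val (δ : ℝ) (k : ℕ) (f : ℕ → ℝ → ℝ) :
    val (gts δ (k + 1) f) = DD δ fun y => f 0 y *
      IA (X2_l ((1 - 2 * δ) / ((k + 1 : ℕ) : ℝ)) k fun j => f (j + 1))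
        (psi (1 - (δ + k * ((1 - 2 * δ) / ((k + 1 : ℕ) : ℝ))))) y := by
  unfold gts val
  simp only [Nat.add_sub_cancel]
  have : ((List.map (fun j => ((1 - 2 * δ) / ((k + 1 : ℕ) : ℝ), f (j + 1))) (List.range k)).map
      Prod.fst).sum = k * ((1 - 2 * δ) / ((k + 1 : ℕ) : ℝ)) := by
    rw [List.map_map]
    simp [Function.comp_def]
  rw [this]
  rfl

/-- **[FV-X2]** The grid vector of a Brownian excursion. -/
theorem exc_grid {Ω : Type} [MeasurableSpace Ω] (P : Measure Ω) (e : ℝ → Ω → ℝ)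
    (he : IsBrownianExcursion P e) (δ : ℝ) (hδ : 0 < δ) (hδ1 : δ ≤ 1 / 8) (K : ℕ) (hK : 1 ≤ K) :
    HasGridLaw P (fun j ω => e (δ + j * ((1 - 2 * δ) / K)) ω) δ K := by
  refine ⟨fun j => he.meas _, fun M hM f hf => ?_⟩
  have hprob := he.prob
  obtain ⟨k, rfl⟩ : ∃ k, K = k + 1 := ⟨K - 1, by omega⟩
  set κ : ℝ := (1 - 2 * δ) / ((k + 1 : ℕ) : ℝ) with hκ
  have hk1 : (0 : ℝ) < ((k + 1 : ℕ) : ℝ) := by exact_mod_cast Nat.succ_pos k
  have hκpos : 0 < κ := div_pos (by linarith) hk1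
  have h1 : δ + k * κ < 1 := by
    have : κ * ((k + 1 : ℕ) : ℝ) = 1 - 2 * δ := by rw [hκ]; field_simp
    push_cast at this
    nlinarith
  have hfm : ∀ j, Measurable (f j) := by
    intro j
    have : LipschitzWith (Real.toNNReal M) (f j) := by
      refine LipschitzWith.of_dist_le_mul fun x y => ?_
      rw [Real.dist_eq, Real.dist_eq, Real.coe_toNNReal _ hM.le]
      exact (hf j).lip x y
    exact this.continuous.measurable
  have hfM : ∀ j x, ‖f j x‖ₑ ≤ ((Real.toNNReal M : ℝ≥0) : ℝ≥0∞) := by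
    intro j x
    rw [← ofReal_norm]
    exact ENNReal.ofReal_le_ofReal ((hf j).bd x)
  have r1 := X2_integral P e he hδ hκpos k h1 f hfm _ hfM
  have r2 := X2_integral P e he hδ hκpos k h1 (fun _ _ => 1) (fun _ => measurable_const) 1
    (fun _ _ => by simp)
  have v1 := X2_val δ k f
  have v2 := X2_val δ k (fun _ _ => 1)
  have v3 : val1 (gts δ (k + 1) f) = val (gts δ (k + 1) fun _ _ => 1) := by
    unfold val1 gts
    simp [Function.comp_def]
  simp only [Finset.prod_const_one, integral_const, probReal_univ, smul_eq_mul, mul_one] at r2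
  rw [← hκ] at v1 v2
  rw [← v1] at r1
  rw [← v2] at r2
  rw [r1, v3]
  have hne : val (gts δ (k + 1) fun _ _ => 1) ≠ 0 := by
    intro h0
    rw [h0] at r2
    simp at r2
  rw [eq_div_iff hne]
  calc 2 * √(2 * Real.pi) / 4 * val (gts δ (k + 1) f) * val (gts δ (k + 1) fun _ _ => 1)
      = val (gts δ (k + 1) f) * (2 * √(2 * Real.pi) / 4 * val (gts δ (k + 1) fun _ _ => 1)) := by ring
    _ = val (gts δ (k + 1) f) := by rw [← r2, mul_one]

/-- positivity: almost surely `e t > 0` at a given time of `(0,1)` -/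
theorem exc_pos {Ω : Type} [MeasurableSpace Ω] (P : Measure Ω) (e : ℝ → Ω → ℝ)
    (he : IsBrownianExcursion P e) (t : ℝ) (h0 : 0 < t) (h1 : t < 1) : ∀ᵐ ω ∂P, 0 < e t ω := by
  have h := he.fdd 0 (fun _ => t) (by
    intro i j hij
    exfalso
    have hi := i.2
    have hj := j.2
    have h3 : (i : ℕ) < j := hij
    omega) (fun _ => ⟨h0, h1⟩)
  set T : Ω → (Fin 1 → ℝ) := fun ω _ => e t ω with hT
  have hTm : Measurable T := measurable_pi_lambda _ fun i => he.meas _
  have hA : MeasurableSet {x : Fin 1 → ℝ | ∀ i, 0 < x i} := by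
    have : {x : Fin 1 → ℝ | ∀ i, 0 < x i} = ⋂ i, {x | 0 < x i} := by ext; simp
    rw [this]
    exact MeasurableSet.iInter fun i => measurableSet_lt measurable_const (measurable_pi_apply i)
  have h2 : (P.map T) {x : Fin 1 → ℝ | ∀ i, 0 < x i}ᶜ = 0 := by
    have h3 : P.map T = _ := h
    rw [h3]
    refine withDensity_absolutelyContinuous _ _ ?_
    rw [Measure.restrict_apply hA.compl]
    simp
  rw [Measure.map_apply hTm hA.compl] at h2
  rw [ae_iff]
  convert h2 using 2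
  ext ω
  simp [hT]

/-- hence almost surely `e ≥ 0` on `[0,1]` (rational times and continuity) -/
theorem exc_nonneg {Ω : Type} [MeasurableSpace Ω] (P : Measure Ω) (e : ℝ → Ω → ℝ)
    (he : IsBrownianExcursion P e) : ∀ᵐ ω ∂P, ∀ t ∈ Set.Icc (0 : ℝ) 1, 0 ≤ e t ω := by
  have h1 : ∀ᵐ ω ∂P, ∀ q : ℚ, 0 < (q : ℝ) → (q : ℝ) < 1 → 0 < e q ω := by
    rw [ae_all_iff]
    intro q
    by_cases h0 : 0 < (q : ℝ)
    · by_cases h1 : (q : ℝ) < 1
      · filter_upwards [exc_pos P e he q h0 h1] with ω hω _ _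
        exact hω
      · exact Eventually.of_forall fun ω _ h => absurd h h1
    · exact Eventually.of_forall fun ω h => absurd h h0
  filter_upwards [h1] with ω hω t ht
  rcases eq_or_lt_of_le ht.1 with h0 | h0
  · rw [← h0, (he.zero ω).1]
  rcases eq_or_lt_of_le ht.2 with h1 | h1
  · rw [h1, (he.zero ω).2]
  by_contra hneg
  push Not at hneg
  have hc : ContinuousAt (fun t => e t ω) t := (he.cont ω).continuousAt (Icc_mem_nhds h0 h1)
  have h2 : ∀ᶠ s in 𝓝 t, e s ω < 0 := hc.eventually (gt_mem_nhds hneg)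
  have h3 : ∀ᶠ s in 𝓝 t, s ∈ Set.Ioo (0 : ℝ) 1 := Ioo_mem_nhds h0 h1
  obtain ⟨a, b, hab, hsub⟩ := (mem_nhds_iff_exists_Ioo_subset).1 (h2.and h3)
  obtain ⟨q, hq1, hq2⟩ := exists_rat_btwn (hab.1.trans hab.2)
  have h4 := hsub ⟨hq1, hq2⟩
  exact absurd (hω q h4.2.1 h4.2.2) (not_lt.2 h4.1.le)

end Pool.Agent.BPT
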