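import Pool.Agent.MP_99a865_pr.FV.T1a
import Pool.Agent.MP_99a865_pr.FV.T1d
import Pool.Agent.MP_99a865_pr.FV.T1e
import Pool.Agent.MP_99a865_pr.FV.F10m

open MeasureTheory ProbabilityTheory Filter Topology
open scoped ENNReal NNReal

namespace Pool.Agent.BPT

/-- standing assumptions on the laws -/
structure Hyp (μ ν : Measure ℝ) (σ : ℝ) : Prop where
  probμ : IsProbabilityMeasure μ
  probν : IsProbabilityMeasure ν
  posμ : μ (Set.Iic 0) = 0
  posν : ν (Set.Iic 0) = 0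
  int2μ : Integrable (fun x : ℝ => x ^ 2) μ
  int2ν : Integrable (fun x : ℝ => x ^ 2) ν
  meanμ : ∫ x, x ∂μ = 1
  meanν : ∫ x, x ∂ν = 1
  pos : 0 < σ
  var : σ ^ 2 = ∫ x, (x - 1) ^ 2 ∂μ + ∫ x, (x - 1) ^ 2 ∂ν

lemma Hyp.qstd {μ ν : Measure ℝ} {σ : ℝ} (h : Hyp μ ν σ) : QStd μ ν σ :=
  { probμ := h.probμ
    probν := h.probν
    nonnegμ := measure_mono_null Set.Iio_subset_Iic_self h.posμ
    nonnegν := measure_mono_null Set.Iio_subset_Iic_self h.posν
    int2μ := h.int2μ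
    int2ν := h.int2ν
    meanμ := h.meanμ
    meanν := h.meanν
    pos := h.pos
    var := h.var }

lemma ae_pos_infinitePi (μ : Measure ℝ) [IsProbabilityMeasure μ] (h : μ (Set.Iic 0) = 0) :
    ∀ᵐ u ∂(Measure.infinitePi fun _ : ℕ => μ), ∀ k, 0 < u k := by
  rw [ae_all_iff]
  intro k
  have h1 := measurePreserving_eval_infinitePi (fun _ : ℕ => μ) k
  have h2 : ∀ᵐ x ∂μ, 0 < x := by
    rw [ae_iff]
    simpa [not_lt, Set.Iic] using h
  have h3 := h1.quasiMeasurePreserving.ae h2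
  exact h3

lemma ae_pos_queue {μ ν : Measure ℝ} {σ : ℝ} (h : Hyp μ ν σ) :
    ∀ᵐ p ∂(queueLaw μ ν), (∀ k, 0 < p.1 k) ∧ ∀ k, 0 < p.2 k := by
  have := h.probμ
  have := h.probν
  unfold queueLaw
  have h1 := ae_pos_infinitePi μ h.posμ
  have h2 := ae_pos_infinitePi ν h.posν
  have h3 : ∀ᵐ p ∂((Measure.infinitePi fun _ : ℕ => μ).prod (Measure.infinitePi fun _ : ℕ => ν)),
      ∀ k, 0 < p.1 k := Measure.quasiMeasurePreserving_fst.ae h1
  have h4 : ∀ᵐ p ∂((Measure.infinitePi fun _ : ℕ => μ).prod (Measure.infinitePi fun _ : ℕ => ν)),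
      ∀ k, 0 < p.2 k := Measure.quasiMeasurePreserving_snd.ae h2
  filter_upwards [h3, h4] with p h5 h6 using ⟨h5, h6⟩

lemma busyEvent_eq (c : Bool) (n : ℕ) :
    busyEvent c n = (fun p : (ℕ → ℝ) × (ℕ → ℝ) => zip p.1 p.2) ⁻¹' EvN (DD' c) n := by
  ext p
  exact busy_iff c p.1 p.2 n

lemma queue_busy {μ ν : Measure ℝ} {σ : ℝ} (h : Hyp μ ν σ) (c : Bool) (n : ℕ) :
    queueLaw μ ν (busyEvent c n) = PQ μ ν (EvN (DD' c) n) := by
  have := h.probμ
  have := h.probν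
  rw [busyEvent_eq, ← Measure.map_apply measurable_zip (measurableSet_EvN (dom_DD' c) n), map_zip]

lemma measurableSet_busy (c : Bool) (n : ℕ) : MeasurableSet (busyEvent c n) := by
  rw [busyEvent_eq]
  exact measurable_zip (measurableSet_EvN (dom_DD' c) n)

/-- transfer of integrals over the busy event -/
lemma transfer {μ ν : Measure ℝ} {σ : ℝ} (h : Hyp μ ν σ) (c : Bool) (n : ℕ)
    (Z : (ℕ → ℝ) × (ℕ → ℝ) → ℝ) (G : (ℕ → ℝ × ℝ) → ℝ) (hG : Measurable G)
    (hZG : ∀ p, p ∈ busyEvent c n → (∀ k, 0 < p.1 k) → (∀ k, 0 < p.2 k) → Z p = G (zip p.1 p.2)) :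
    ∫ p, Z p ∂(cond (queueLaw μ ν) (busyEvent c n)) = EN (DD' c) μ ν n G := by
  have := h.probμ
  have := h.probν
  unfold ProbabilityTheory.cond EN
  rw [integral_smul_measure, ENNReal.toReal_inv, smul_eq_mul, div_eq_inv_mul]
  congr 1
  · rw [queue_busy h]; rfl
  · have h1 : ∫ p in busyEvent c n, Z p ∂(queueLaw μ ν) =
        ∫ p in busyEvent c n, G (zip p.1 p.2) ∂(queueLaw μ ν) := by
      apply setIntegral_congr_ae (measurableSet_busy c n)
      filter_upwards [ae_pos_queue h] with p hp hpb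
      exact hZG p hpb hp.1 hp.2
    rw [h1, ← map_zip μ ν, busyEvent_eq,
      setIntegral_map (measurableSet_EvN (dom_DD' c) n) hG.aestronglyMeasurable
        measurable_zip.aemeasurable]

end Pool.Agent.BPT
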