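import Pool.Agent.MP_99a865_pr.FV.G1f
import Pool.Agent.MP_99a865_pr.FV.G2d
import Pool.Agent.MP_99a865_pr.FV.F11c
import Pool.Agent.MP_99a865_pr.FV.X1

open MeasureTheory ProbabilityTheory Filter Topology
open scoped ENNReal NNReal

namespace Pool.Agent.BPT

set_option linter.unusedSectionVars false
set_option linter.unusedVariables false

/-- conditional probability as `EN` of an indicator -/
noncomputable def PN (D : Set ℝ) (μ ν : Measure ℝ) (n : ℕ) (A : Set (ℕ → ℝ × ℝ)) : ℝ :=
  (PQ μ ν).real (EvN D n ∩ A) / (PQ μ ν).real (EvN D n)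

section general

variable {D : Set ℝ} {μ ν : Measure ℝ} [IsProbabilityMeasure μ] [IsProbabilityMeasure ν]

lemma EN_indicator (hD : Dom D) (n : ℕ) (A : Set (ℕ → ℝ × ℝ)) (hA : MeasurableSet A) :
    EN D μ ν n (A.indicator fun _ => 1) = PN D μ ν n A := by
  unfold EN PN
  congr 1
  rw [integral_indicator hA, Measure.restrict_restrict hA, setIntegral_const, Set.inter_comm]
  simp

lemma EN_le (hD : Dom D) {n : ℕ} {F G : (ℕ → ℝ × ℝ) → ℝ} (hF : Integrable F (PQ μ ν))
    (hG : Integrable G (PQ μ ν)) (h : ∀ ω, ω ∈ EvN D n → F ω ≤ G ω) : EN D μ ν n F ≤ EN D μ ν n G := by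
  unfold EN
  apply div_le_div_of_nonneg_right _ measureReal_nonneg
  exact setIntegral_mono_on hF.integrableOn hG.integrableOn (measurableSet_EvN hD n) h

lemma PN_mono {n : ℕ} {A B : Set (ℕ → ℝ × ℝ)} (h : EvN D n ∩ A ⊆ EvN D n ∩ B) :
    PN D μ ν n A ≤ PN D μ ν n B := by
  unfold PN
  apply div_le_div_of_nonneg_right _ measureReal_nonneg
  exact measureReal_mono h

lemma PN_nonneg {n : ℕ} (A : Set (ℕ → ℝ × ℝ)) : 0 ≤ PN D μ ν n A :=
  div_nonneg measureReal_nonneg measureReal_nonneg

end general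

/-- clamp function: `1` on `(-∞, a]`, `0` on `[b, ∞)`, multiplied by `min 1 (b-a)` -/
noncomputable def clampF (a b : ℝ) (x : ℝ) : ℝ := max 0 (min 1 ((b - x) / (b - a)))

lemma clampF_nonneg (a b x : ℝ) : 0 ≤ clampF a b x := le_max_left _ _

lemma clampF_le_one (a b x : ℝ) : clampF a b x ≤ 1 := max_le zero_le_one (min_le_left _ _)

lemma clampF_eq_one {a b x : ℝ} (hab : a < b) (hx : x ≤ a) : clampF a b x = 1 := by
  unfold clampF
  have : 1 ≤ (b - x) / (b - a) := by
    rw [le_div_iff₀ (by linarith)]; linarith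
  rw [min_eq_left this, max_eq_right zero_le_one]

lemma clampF_eq_zero {a b x : ℝ} (hab : a < b) (hx : b ≤ x) : clampF a b x = 0 := by
  unfold clampF
  have : (b - x) / (b - a) ≤ 0 := div_nonpos_of_nonpos_of_nonneg (by linarith) (by linarith)
  exact max_eq_left ((min_le_right _ _).trans this)

lemma clampF_lip {a b : ℝ} (hab : a < b) (x y : ℝ) :
    |clampF a b x - clampF a b y| ≤ |x - y| / (b - a) := by
  unfold clampF
  have h1 : |max 0 (min 1 ((b - x) / (b - a))) - max 0 (min 1 ((b - y) / (b - a)))| ≤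
      |min 1 ((b - x) / (b - a)) - min 1 ((b - y) / (b - a))| := by
    have := abs_max_sub_max_le_abs (min 1 ((b - x) / (b - a))) (min 1 ((b - y) / (b - a))) 0
    simpa [max_comm] using this
  have h2 : |min 1 ((b - x) / (b - a)) - min 1 ((b - y) / (b - a))| ≤
      |(b - x) / (b - a) - (b - y) / (b - a)| := by
    have := abs_min_sub_min_le_max 1 ((b - x) / (b - a)) 1 ((b - y) / (b - a))
    simpa using this
  refine h1.trans (h2.trans (le_of_eq ?_))
  rw [← sub_div, abs_div, abs_of_pos (show 0 < b - a by linarith)]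
  congr 1
  rw [← abs_neg]
  congr 1
  ring

lemma clampF_BL {a b : ℝ} (hab : a < b) (hb1 : b - a ≤ 1) : BL 1 (fun x => (b - a) * clampF a b x) := by
  have h0 : 0 < b - a := by linarith
  constructor
  · intro x
    rw [abs_of_nonneg (mul_nonneg h0.le (clampF_nonneg _ _ _))]
    calc (b - a) * clampF a b x ≤ 1 * 1 := mul_le_mul hb1 (clampF_le_one _ _ _) (clampF_nonneg _ _ _)
          zero_le_one
      _ = 1 := one_mul 1
  · intro x y
    rw [← mul_sub, abs_mul, abs_of_pos h0, one_mul]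
    calc (b - a) * |clampF a b x - clampF a b y| ≤ (b - a) * (|x - y| / (b - a)) :=
          mul_le_mul_of_nonneg_left (clampF_lip hab x y) h0.le
      _ = |x - y| := by field_simp

lemma continuous_clampF (a b : ℝ) : Continuous (clampF a b) := by
  unfold clampF
  exact continuous_const.max (continuous_const.min (by fun_prop))

lemma EN_const_mul {D : Set ℝ} {μ ν : Measure ℝ} (n : ℕ) (F : (ℕ → ℝ × ℝ) → ℝ) (r : ℝ) :
    EN D μ ν n (fun ω => r * F ω) = r * EN D μ ν n F := by
  unfold EN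
  rw [integral_const_mul, mul_div_assoc]

/-- comparison of distribution functions through the clamp functions -/
lemma cdf_compare {D D' : Set ℝ} {μ ν μ' ν' : Measure ℝ} (hD : Dom D) (hD' : Dom D')
    [IsProbabilityMeasure μ] [IsProbabilityMeasure ν] [IsProbabilityMeasure μ']
    [IsProbabilityMeasure ν'] {n n' : ℕ} (X X' : (ℕ → ℝ × ℝ) → ℝ) (hX : Measurable X)
    (hX' : Measurable X') {a b δ : ℝ} (hab : a < b) (hb1 : b - a ≤ 1)
    (h : |EN D μ ν n (fun ω => (b - a) * clampF a b (X ω)) -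
      EN D' μ' ν' n' (fun ω => (b - a) * clampF a b (X' ω))| ≤ (b - a) * δ) :
    PN D μ ν n {ω | X ω ≤ a} ≤ PN D' μ' ν' n' {ω | X' ω ≤ b} + δ ∧
    PN D' μ' ν' n' {ω | X' ω ≤ a} ≤ PN D μ ν n {ω | X ω ≤ b} + δ := by
  have h0 : 0 < b - a := by linarith
  rw [EN_const_mul, EN_const_mul, ← mul_sub, abs_mul, abs_of_pos h0] at h
  have h1 := le_of_mul_le_mul_left h h0
  have key : ∀ {D : Set ℝ} {μ ν : Measure ℝ} (hD : Dom D) [IsProbabilityMeasure μ]
      [IsProbabilityMeasure ν] (n : ℕ) (X : (ℕ → ℝ × ℝ) → ℝ) (hX : Measurable X),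
      PN D μ ν n {ω | X ω ≤ a} ≤ EN D μ ν n (fun ω => clampF a b (X ω)) ∧
      EN D μ ν n (fun ω => clampF a b (X ω)) ≤ PN D μ ν n {ω | X ω ≤ b} := by
    intro D μ ν hD _ _ n X hX
    have hi : Integrable (fun ω => clampF a b (X ω)) (PQ μ ν) := by
      refine Integrable.of_bound ((continuous_clampF a b).measurable.comp hX).aestronglyMeasurable 1
        (Eventually.of_forall fun ω => ?_)
      rw [Real.norm_eq_abs, abs_of_nonneg (clampF_nonneg _ _ _)]
      exact clampF_le_one _ _ _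
    have hm : ∀ t : ℝ, MeasurableSet {ω | X ω ≤ t} := fun t => measurableSet_le hX measurable_const
    have hi2 : ∀ t : ℝ, Integrable ({ω | X ω ≤ t}.indicator fun _ => (1 : ℝ)) (PQ μ ν) :=
      fun t => (integrable_const _).indicator (hm t)
    rw [← EN_indicator hD n _ (hm a), ← EN_indicator hD n _ (hm b)]
    constructor
    · refine EN_le hD (hi2 a) hi (fun ω _ => ?_)
      by_cases h2 : X ω ≤ a
      · rw [Set.indicator_of_mem (show ω ∈ {ω | X ω ≤ a} from h2), clampF_eq_one hab h2]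
      · rw [Set.indicator_of_notMem (show ω ∉ {ω | X ω ≤ a} from h2)]
        exact clampF_nonneg _ _ _
    · refine EN_le hD hi (hi2 b) (fun ω _ => ?_)
      by_cases h2 : X ω ≤ b
      · rw [Set.indicator_of_mem (show ω ∈ {ω | X ω ≤ b} from h2)]
        exact clampF_le_one _ _ _
      · rw [Set.indicator_of_notMem (show ω ∉ {ω | X ω ≤ b} from h2)]
        push Not at h2
        exact (clampF_eq_zero hab h2.le).le
  have k1 := key (D := D) (μ := μ) (ν := ν) hD n X hX
  have k2 := key (D := D') (μ := μ') (ν := ν') hD' n' X' hX'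
  rw [abs_le] at h1
  constructor
  · linarith [k1.1, k2.2, h1.2]
  · linarith [k2.1, k1.2, h1.1]

end Pool.Agent.BPT
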