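import Pool.Agent.MP_99a865_pr.FV.Y2

open MeasureTheory ProbabilityTheory Filter Topology
open scoped ENNReal NNReal

namespace Pool.Agent.BPT

set_option linter.unusedSectionVars false
set_option linter.unusedVariables false

lemma HB_le (D : Set ℝ) (n : ℕ) (ω : ℕ → ℝ × ℝ) : HB D n ω ≤ n := by
  classical
  unfold HB
  exact (Finset.card_filter_le _ _).trans (by simp)

lemma TB_le (D : Set ℝ) (n : ℕ) (ω : ℕ → ℝ × ℝ) : TB D n ω ≤ n * n := by
  classical
  unfold TB
  calc ∑ b ∈ (Finset.range n).filter (fun b => Bd D ω b), (n - b)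
      ≤ ∑ b ∈ Finset.range n, (n - b) := Finset.sum_le_sum_of_subset (Finset.filter_subset _ _)
    _ ≤ ∑ b ∈ Finset.range n, n := Finset.sum_le_sum fun b _ => Nat.sub_le _ _
    _ = n * n := by simp

lemma srw_nz_le : ∀ᵐ ω ∂(PQ muS nuS), ∀ i, nz (1 / 2) i ω ≤ i := by
  filter_upwards [ae_S] with ω hω i
  unfold nz Zw Dp Ar
  rw [← Finset.sum_sub_distrib, Finset.sum_div]
  calc ∑ k ∈ Finset.range i, ((ω k).2 - (ω k).1) / (1 / 2) ≤ ∑ k ∈ Finset.range i, (1 : ℝ) := by
        apply Finset.sum_le_sum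
        intro k _
        obtain ⟨h1, h2⟩ := hω k
        rw [h1]
        rcases h2 with h2 | h2 <;> rw [h2] <;> norm_num
    _ = i := by simp

lemma srw_Mx_le (n : ℕ) : ∀ᵐ ω ∂(PQ muS nuS), Mx (1 / 2) n ω ≤ n := by
  filter_upwards [srw_nz_le] with ω hω
  unfold Mx
  rcases Nat.eq_zero_or_pos n with h | h
  · subst h
    simp
  · have : Nonempty (Fin n) := ⟨⟨0, h⟩⟩
    apply ciSup_le
    intro i
    exact (hω i).trans (by exact_mod_cast i.2.le)

lemma probS : IsProbabilityMeasure (PQ muS nuS) := by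
  have h := qstd_S
  have := h.probμ
  have := h.probν
  infer_instance

lemma probG : IsProbabilityMeasure (PQ muG nuG) := by
  have h := qstd_G
  have := h.probμ
  have := h.probν
  infer_instance

lemma domI : Dom (Set.Ici (0 : ℝ)) := Or.inl rfl

/-- integral of a function of a natural-number valued variable with bounded range -/
lemma integral_nat_fun {Ω : Type*} [MeasurableSpace Ω] (P : Measure Ω) [IsFiniteMeasure P]
    (T : Ω → ℕ) (hT : Measurable T) (B : ℕ) (hB : ∀ᵐ ω ∂P, T ω ≤ B) (φ : ℕ → ℝ) :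
    ∫ ω, φ (T ω) ∂P = ∑ t ∈ Finset.range (B + 1), φ t * P.real {ω | T ω = t} := by
  have h1 : ∀ᵐ ω ∂P, φ (T ω) = ∑ t ∈ Finset.range (B + 1),
      ({ω | T ω = t}.indicator (fun _ => φ t)) ω := by
    filter_upwards [hB] with ω hω
    rw [Finset.sum_eq_single (T ω)]
    · rw [Set.indicator_of_mem (by simp)]
    · intro b _ hb
      rw [Set.indicator_of_notMem]
      exact fun h => hb (by simpa using h.symm)
    · intro h
      exact absurd (Finset.mem_range.2 (Nat.lt_succ_of_le hω)) h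
  have hm : ∀ t : ℕ, MeasurableSet {ω | T ω = t} := fun t => hT (measurableSet_singleton t)
  rw [integral_congr_ae h1, integral_finsetSum]
  · apply Finset.sum_congr rfl
    intro t _
    rw [integral_indicator (hm t), setIntegral_const, smul_eq_mul, mul_comm]
  · intro t _
    exact (integrable_const _).indicator (hm t)

/-- the natural number `(Area + m)/2` -/
noncomputable def arN (m : ℕ) (ω : ℕ → ℝ × ℝ) : ℕ := ⌊(Area (1 / 2) (2 * m + 1) ω + m) / 2⌋₊

lemma measurable_Area' (σ : ℝ) (n : ℕ) : Measurable (Area σ n) := by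
  unfold Area
  exact Finset.measurable_sum _ fun i _ => measurable_nz i

lemma measurable_arN (m : ℕ) : Measurable (arN m) := by
  unfold arN
  exact Nat.measurable_floor.comp (((measurable_Area' _ _).add_const _).div_const _)

lemma arN_eq {m t : ℕ} {ω : ℕ → ℝ × ℝ} (h : Area (1 / 2) (2 * m + 1) ω = 2 * t - m) : arN m ω = t := by
  unfold arN
  rw [h]
  have : ((2 * (t : ℝ) - m + m) / 2) = t := by ring
  rw [this, Nat.floor_natCast]

lemma srw_arN (m : ℕ) : ∀ᵐ ω ∂(PQ muS nuS), ω ∈ EvN (Set.Ici 0) (2 * m + 1) →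
    Area (1 / 2) (2 * m + 1) ω = 2 * (arN m ω : ℝ) - m := by
  filter_upwards [srw_area_int m] with ω hω hE
  obtain ⟨t, ht⟩ := hω hE
  rw [arN_eq ht, ht]

/-- bound for `arN` on the event -/
lemma srw_arN_le (m : ℕ) : ∀ᵐ ω ∂(PQ muS nuS), ω ∈ EvN (Set.Ici 0) (2 * m + 1) →
    arN m ω ≤ (2 * m + 1) * (2 * m + 1) := by
  filter_upwards [srw_arN m, srw_nz_le] with ω hω h2 hE
  have h3 : Area (1 / 2) (2 * m + 1) ω ≤ (2 * m + 1) * (2 * m + 1) - (2 * m + 1) := by
    unfold Area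
    calc ∑ i ∈ Finset.range (2 * m + 1), nz (1 / 2) i ω
        ≤ ∑ i ∈ Finset.range (2 * m + 1), (2 * (m : ℝ)) := by
          apply Finset.sum_le_sum
          intro i hi
          rw [Finset.mem_range] at hi
          have h4 : (i : ℝ) ≤ 2 * m := by exact_mod_cast Nat.lt_succ_iff.1 hi
          exact (h2 i).trans h4
      _ = (2 * m + 1) * (2 * m + 1) - (2 * m + 1) := by
          rw [Finset.sum_const, Finset.card_range, nsmul_eq_mul]
          push_cast
          ring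
  have h4 := hω hE
  have h5 : (arN m ω : ℝ) ≤ (2 * m + 1) * (2 * m + 1) := by
    have : (0 : ℝ) ≤ m := Nat.cast_nonneg m
    nlinarith
  exact_mod_cast h5

/-- equality of the joint laws -/
lemma geo_srw' (n t : ℕ) (h : ℕ) :
    (PQ muG nuG).real (EvN (Set.Ici 0) (n + 1) ∩
      {ω | HB (Set.Ici 0) (n + 1) ω ≤ h ∧ TB (Set.Ici 0) (n + 1) ω = t}) =
    (PQ muS nuS).real (EvN (Set.Ici 0) (2 * n + 1) ∩
      {ω | Mx (1 / 2) (2 * n + 1) ω ≤ h ∧ arN n ω = t}) := by
  rw [geo_srw]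
  apply measureReal_congr
  filter_upwards [srw_arN n] with ω hω
  apply propext
  constructor
  · rintro ⟨h1, h2, h3⟩
    exact ⟨h1, h2, arN_eq h3⟩
  · rintro ⟨h1, h2, h3⟩
    refine ⟨h1, h2, ?_⟩
    rw [hω h1, h3]

lemma sum_over_T {Ω : Type*} [MeasurableSpace Ω] (P : Measure Ω) [IsFiniteMeasure P]
    (A : Set Ω) (T : Ω → ℕ) (hT : Measurable T) (B : ℕ) (hB : ∀ᵐ ω ∂P, ω ∈ A → T ω ≤ B)
    (hA : MeasurableSet A) :
    P.real A = ∑ t ∈ Finset.range (B + 1), P.real (A ∩ {ω | T ω = t}) := by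
  have h1 := integral_nat_fun (P.restrict A) T hT B
    ((ae_restrict_iff' hA).2 hB) (fun _ => 1)
  simp only [integral_const, smul_eq_mul, mul_one, one_mul, measureReal_restrict_apply_univ] at h1
  rw [h1]
  apply Finset.sum_congr rfl
  intro t _
  have hmT : MeasurableSet {ω | T ω = t} := hT (measurableSet_singleton t)
  rw [measureReal_restrict_apply hmT, Set.inter_comm]

lemma meas_HB (n : ℕ) : Measurable (HB (Set.Ici 0) n) := (measurable_HB domI n).1

lemma meas_TB (n : ℕ) : Measurable (TB (Set.Ici 0) n) := (measurable_HB domI n).2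

lemma meas_Mx (σ : ℝ) (n : ℕ) : Measurable (Mx σ n) := (measurable_Mx n).1

/-- height of the geometric model, maximum of the simple random walk -/
lemma geo_height (n : ℕ) (h : ℕ) :
    (PQ muG nuG).real (EvN (Set.Ici 0) (n + 1) ∩ {ω | HB (Set.Ici 0) (n + 1) ω ≤ h}) =
    (PQ muS nuS).real (EvN (Set.Ici 0) (2 * n + 1) ∩ {ω | Mx (1 / 2) (2 * n + 1) ω ≤ h}) := by
  have := probS
  have := probG
  have hG1 : MeasurableSet (EvN (Set.Ici 0) (n + 1) ∩ {ω | HB (Set.Ici 0) (n + 1) ω ≤ h}) :=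
    (measurableSet_EvN domI _).inter (measurableSet_le (meas_HB _) measurable_const)
  have hS1 : MeasurableSet (EvN (Set.Ici 0) (2 * n + 1) ∩ {ω | Mx (1 / 2) (2 * n + 1) ω ≤ h}) :=
    (measurableSet_EvN domI _).inter (measurableSet_le (meas_Mx _ _) measurable_const)
  set B := (n + 1) * (n + 1) + (2 * n + 1) * (2 * n + 1) with hB
  rw [sum_over_T _ _ (TB (Set.Ici 0) (n + 1)) (meas_TB _) B
    (Eventually.of_forall fun ω _ => (TB_le _ _ _).trans (by omega)) hG1,
    sum_over_T _ _ (arN n) (measurable_arN n) B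
    (by filter_upwards [srw_arN_le n] with ω hω h1 using (hω h1.1).trans (by omega)) hS1]
  apply Finset.sum_congr rfl
  intro t _
  have := geo_srw' n t h
  convert this using 2
  · ext ω; simp only [Set.mem_inter_iff, Set.mem_ofPred_eq]; tauto
  · ext ω; simp only [Set.mem_inter_iff, Set.mem_ofPred_eq]; tauto

lemma geo_total_real (n : ℕ) : (PQ muG nuG).real (EvN (Set.Ici 0) (n + 1)) =
    (PQ muS nuS).real (EvN (Set.Ici 0) (2 * n + 1)) := by
  have := probS
  have := probG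
  have h1 := geo_height n (2 * n + 1)
  have e1 : (PQ muG nuG).real (EvN (Set.Ici 0) (n + 1) ∩
      {ω | HB (Set.Ici 0) (n + 1) ω ≤ 2 * n + 1}) = (PQ muG nuG).real (EvN (Set.Ici 0) (n + 1)) := by
    congr 1
    ext ω
    simp only [Set.mem_inter_iff, Set.mem_ofPred_eq, and_iff_left_iff_imp]
    intro _
    exact (HB_le _ _ _).trans (by omega)
  have e2 : (PQ muS nuS).real (EvN (Set.Ici 0) (2 * n + 1) ∩
      {ω | Mx (1 / 2) (2 * n + 1) ω ≤ ((2 * n + 1 : ℕ) : ℝ)}) =
      (PQ muS nuS).real (EvN (Set.Ici 0) (2 * n + 1)) := by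
    apply measureReal_congr
    filter_upwards [srw_Mx_le (2 * n + 1)] with ω hω
    apply propext
    constructor
    · exact fun h => h.1
    · exact fun h => ⟨h, hω⟩
  rw [e1, e2] at h1
  exact h1

lemma geo_ne_zero (n : ℕ) : PQ muG nuG (EvN (Set.Ici 0) (n + 1)) ≠ 0 := by
  have := probS
  have := probG
  have h1 := (srw_EvN n).2
  have h2 := geo_total_real n
  intro h3
  rw [measureReal_def, h3, measureReal_def] at h2
  simp only [ENNReal.toReal_zero] at h2
  have h4 := (ENNReal.toReal_eq_zero_iff _).1 h2.symm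
  rcases h4 with h4 | h4
  · exact h1 h4
  · exact measure_ne_top _ _ h4

/-- total height of the geometric model -/
lemma geo_TB (n : ℕ) (φ : ℕ → ℝ) :
    EN (Set.Ici 0) muG nuG (n + 1) (fun ω => φ (TB (Set.Ici 0) (n + 1) ω)) =
    EN (Set.Ici 0) muS nuS (2 * n + 1) (fun ω => φ (arN n ω)) := by
  have := probS
  have := probG
  set B := (n + 1) * (n + 1) + (2 * n + 1) * (2 * n + 1) with hB
  unfold EN
  rw [geo_total_real]
  congr 1
  rw [integral_nat_fun ((PQ muG nuG).restrict (EvN (Set.Ici 0) (n + 1))) _ (meas_TB _) B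
      (Eventually.of_forall fun ω => (TB_le _ _ _).trans (by omega)),
    integral_nat_fun ((PQ muS nuS).restrict (EvN (Set.Ici 0) (2 * n + 1))) _ (measurable_arN n) B
      ((ae_restrict_iff' (measurableSet_EvN domI _)).2 (by
        filter_upwards [srw_arN_le n] with ω hω h1 using (hω h1).trans (by omega)))]
  apply Finset.sum_congr rfl
  intro t _
  congr 1
  have hm1 : MeasurableSet {ω | TB (Set.Ici 0) (n + 1) ω = t} :=
    (meas_TB (n + 1)) (measurableSet_singleton t)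
  have hm2 : MeasurableSet {ω | arN n ω = t} := (measurable_arN n) (measurableSet_singleton t)
  rw [measureReal_restrict_apply hm1, measureReal_restrict_apply hm2]
  have h1 := geo_srw' n t (2 * n + 1)
  have e1 : (TB (Set.Ici 0) (n + 1)) ⁻¹' {t} ∩ EvN (Set.Ici 0) (n + 1) =
      EvN (Set.Ici 0) (n + 1) ∩
      {ω | HB (Set.Ici 0) (n + 1) ω ≤ 2 * n + 1 ∧ TB (Set.Ici 0) (n + 1) ω = t} := by
    ext ω
    have := HB_le (Set.Ici 0) (n + 1) ω
    simp only [Set.mem_inter_iff, Set.mem_preimage, Set.mem_singleton_iff, Set.mem_ofPred_eq]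
    constructor
    · rintro ⟨h2, h3⟩; exact ⟨h3, by omega, h2⟩
    · rintro ⟨h2, _, h3⟩; exact ⟨h3, h2⟩
  have e2 : (PQ muS nuS).real ((arN n) ⁻¹' {t} ∩ EvN (Set.Ici 0) (2 * n + 1)) =
      (PQ muS nuS).real (EvN (Set.Ici 0) (2 * n + 1) ∩
      {ω | Mx (1 / 2) (2 * n + 1) ω ≤ ((2 * n + 1 : ℕ) : ℝ) ∧ arN n ω = t}) := by
    apply measureReal_congr
    filter_upwards [srw_Mx_le (2 * n + 1)] with ω hω
    apply propext
    constructor
    · rintro ⟨h2, h3⟩; exact ⟨h3, hω, h2⟩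
    · rintro ⟨h2, _, h3⟩; exact ⟨h3, h2⟩
  have e3 : {ω | TB (Set.Ici 0) (n + 1) ω = t} ∩ EvN (Set.Ici 0) (n + 1) =
    (TB (Set.Ici 0) (n + 1)) ⁻¹' {t} ∩ EvN (Set.Ici 0) (n + 1) := rfl
  have e4 : {ω | arN n ω = t} ∩ EvN (Set.Ici 0) (2 * n + 1) =
    (arN n) ⁻¹' {t} ∩ EvN (Set.Ici 0) (2 * n + 1) := rfl
  rw [e3, e4, e1, e2]
  exact h1

end Pool.Agent.BPT
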