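import Pool.Agent.MP_99a865_pr.FV.Y1
import Pool.Agent.MP_99a865_pr.FV.Y3
import Pool.Agent.MP_99a865_pr.FV.F11d
import Pool.Agent.MP_99a865_pr.FV.F11e

open MeasureTheory ProbabilityTheory Filter Topology
open scoped ENNReal NNReal

namespace Pool.Agent.BPT

set_option linter.unusedSectionVars false
set_option linter.unusedVariables false

/-- passing from comparison to convergence -/
lemma cdf_limit {l : Filter ℕ} (p p' : ℕ → ℝ → ℝ) (Φ : ℝ → ℝ) {x : ℝ} (hx : 0 < x)
    (hc : ContinuousAt Φ x)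
    (h1 : ∀ a b δ : ℝ, 0 < a → a < b → b - a ≤ 1 → 0 < δ →
      ∀ᶠ n in l, p n a ≤ p' n b + δ ∧ p' n a ≤ p n b + δ)
    (h2 : ∀ a > 0, Tendsto (fun n => p' n a) l (𝓝 (Φ a))) :
    Tendsto (fun n => p n x) l (𝓝 (Φ x)) := by
  rw [Metric.tendsto_nhds]
  intro ε hε
  rw [Metric.continuousAt_iff] at hc
  obtain ⟨η, hη, hc⟩ := hc (ε / 3) (by positivity)
  set s := min (min (η / 2) (x / 2)) 1 with hs
  have hs0 : 0 < s := by positivity
  have hs1 : s ≤ η / 2 := (min_le_left _ _).trans (min_le_left _ _)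
  have hs2 : s ≤ x / 2 := (min_le_left _ _).trans (min_le_right _ _)
  have hs3 : s ≤ 1 := min_le_right _ _
  have e1 := h1 x (x + s) (ε / 3) hx (by linarith) (by linarith) (by positivity)
  have e2 := h1 (x - s) x (ε / 3) (by linarith) (by linarith) (by linarith) (by positivity)
  have t1 := (Metric.tendsto_nhds.1 (h2 (x + s) (by linarith))) (ε / 3) (by positivity)
  have t2 := (Metric.tendsto_nhds.1 (h2 (x - s) (by linarith))) (ε / 3) (by positivity)
  filter_upwards [e1, e2, t1, t2] with n a1 a2 b1 b2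
  have c1 := hc (x := x + s) (by rw [Real.dist_eq]; rw [abs_of_pos (by linarith)]; linarith)
  have c2 := hc (x := x - s) (by rw [Real.dist_eq]; rw [abs_of_neg (by linarith)]; linarith)
  rw [Real.dist_eq, abs_lt] at *
  constructor
  · linarith [a2.2, b2.1, c2.1]
  · linarith [a1.1, b1.2, c1.2]

/-- the filter of the problem -/
noncomputable def ff (D : Set ℝ) (μ ν : Measure ℝ) : Filter ℕ :=
  atTop ⊓ 𝓟 {n | PQ μ ν (EvN D n) ≠ 0}

lemma eventually_ff {D : Set ℝ} {μ ν : Measure ℝ} {p : ℕ → Prop} {n₀ : ℕ}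
    (h : ∀ n ≥ n₀, PQ μ ν (EvN D n) ≠ 0 → p n) : ∀ᶠ n in ff D μ ν, p n := by
  unfold ff
  rw [eventually_inf_principal]
  filter_upwards [eventually_ge_atTop n₀] with n hn h1 using h n hn h1

lemma ff_le (D : Set ℝ) (μ ν : Measure ℝ) : ff D μ ν ≤ atTop := inf_le_left

/-- height in the geometric model -/
lemma geo_height_limit {x : ℝ} (hx : 0 < x) :
    Tendsto (fun n : ℕ => PN (Set.Ici 0) muG nuG n {ω | √2 * HB (Set.Ici 0) n ω / √n ≤ x}) atTop
      (𝓝 (FF (x / 2))) := by
  rw [← tendsto_add_atTop_iff_nat 1]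
  have h1 := srw_limit (x := x / 2) (by positivity)
    (fun m => (⌊x * √(m + 1) / √2⌋₊ : ℝ)) (by
      have h3 : Tendsto (fun m : ℕ => x / 2 * √((m + 1 : ℝ) / m) - 1 / √(2 * m)) atTop
          (𝓝 (x / 2 * √1 - 0)) := by
        apply Tendsto.sub
        · apply Tendsto.const_mul
          apply (Real.continuous_sqrt.tendsto 1).comp
          have h4 : Tendsto (fun m : ℕ => 1 + 1 / (m : ℝ)) atTop (𝓝 (1 + 0)) :=
            tendsto_const_nhds.add tendsto_one_div_atTop_nhds_zero_nat
          rw [add_zero] at h4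
          refine h4.congr' ?_
          filter_upwards [eventually_gt_atTop 0] with m hm
          have : (m : ℝ) ≠ 0 := by exact_mod_cast hm.ne'
          field_simp
        · have h5 : Tendsto (fun m : ℕ => √(2 * (m : ℝ))) atTop atTop :=
            Real.tendsto_sqrt_atTop.comp
              (Tendsto.const_mul_atTop (by norm_num) tendsto_natCast_atTop_atTop)
          exact h5.inv_tendsto_atTop.congr (fun m => by rw [Pi.inv_apply, one_div])
      have h6 : Tendsto (fun m : ℕ => x / 2 * √((m + 1 : ℝ) / m)) atTop (𝓝 (x / 2)) := by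
        have h4 : Tendsto (fun m : ℕ => 1 + 1 / (m : ℝ)) atTop (𝓝 (1 + 0)) :=
            tendsto_const_nhds.add tendsto_one_div_atTop_nhds_zero_nat
        rw [add_zero] at h4
        have h7 : Tendsto (fun m : ℕ => x / 2 * √(1 + 1 / (m : ℝ))) atTop (𝓝 (x / 2 * √1)) :=
          ((Real.continuous_sqrt.tendsto 1).comp h4).const_mul _
        rw [Real.sqrt_one, mul_one] at h7
        refine h7.congr' ?_
        filter_upwards [eventually_gt_atTop 0] with m hm
        have : (m : ℝ) ≠ 0 := by exact_mod_cast hm.ne'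
        congr 2
        field_simp
      rw [Real.sqrt_one, mul_one, sub_zero] at h3
      refine tendsto_of_tendsto_of_tendsto_of_le_of_le' h3 h6 ?_ ?_
      · filter_upwards [eventually_gt_atTop 0] with m hm
        have hm' : (0 : ℝ) < m := by exact_mod_cast hm
        have hs : 0 < √(2 * (m : ℝ)) := by positivity
        have e : x / 2 * √((m + 1 : ℝ) / m) = x * √(m + 1) / √2 / √(2 * m) := by
          rw [Real.sqrt_div (by positivity), Real.sqrt_mul (by norm_num)]
          have h2 : √2 * √2 = (2 : ℝ) := Real.mul_self_sqrt (by norm_num)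
          have h8 : √(m : ℝ) ≠ 0 := by positivity
          have h9 : √(2 : ℝ) ≠ 0 := by positivity
          field_simp
          nlinarith [h2]
        rw [e, ← sub_div]
        apply div_le_div_of_nonneg_right _ hs.le
        have := Nat.lt_floor_add_one (x * √(m + 1) / √2)
        linarith
      · filter_upwards [eventually_gt_atTop 0] with m hm
        have hm' : (0 : ℝ) < m := by exact_mod_cast hm
        have hs : 0 < √(2 * (m : ℝ)) := by positivity
        have e : x / 2 * √((m + 1 : ℝ) / m) = x * √(m + 1) / √2 / √(2 * m) := by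
          rw [Real.sqrt_div (by positivity), Real.sqrt_mul (by norm_num)]
          have h2 : √2 * √2 = (2 : ℝ) := Real.mul_self_sqrt (by norm_num)
          have h8 : √(m : ℝ) ≠ 0 := by positivity
          have h9 : √(2 : ℝ) ≠ 0 := by positivity
          field_simp
          nlinarith [h2]
        rw [e]
        apply div_le_div_of_nonneg_right _ hs.le
        exact Nat.floor_le (by positivity))
  refine h1.congr ?_
  intro n
  unfold PN
  rw [geo_total_real]
  congr 1
  rw [← geo_height]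
  congr 1
  ext ω
  simp only [Set.mem_inter_iff, Set.mem_ofPred_eq, and_congr_right_iff]
  intro _
  have h2 : (0 : ℝ) < √((n + 1 : ℕ) : ℝ) := by positivity
  rw [div_le_iff₀ h2, Nat.le_floor_iff (by positivity), le_div_iff₀ (by positivity)]
  push_cast
  rw [mul_comm (√2)]

/-- height in the general model -/
lemma height_limit (D : Set ℝ) (μ ν : Measure ℝ) (σ : ℝ) (hD : Dom D) (hQ : QStd μ ν σ) {x : ℝ}
    (hx : 0 < x) :
    Tendsto (fun n : ℕ => PN D μ ν n {ω | σ * HB D n ω / √n ≤ x}) (ff D μ ν) (𝓝 (FF (x / 2))) := by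
  have := hQ.probμ
  have := hQ.probν
  have := qstd_G.probμ
  have := qstd_G.probν
  refine cdf_limit (l := ff D μ ν) (fun n a => PN D μ ν n {ω | σ * HB D n ω / √n ≤ a})
    (fun n a => PN (Set.Ici 0) muG nuG n {ω | √2 * HB (Set.Ici 0) n ω / √n ≤ a})
    (fun a => FF (a / 2)) hx ?_ ?_ ?_
  · have h1 : ContinuousAt (fun a : ℝ => a / 2) x := by fun_prop
    exact ContinuousAt.comp (f := fun a : ℝ => a / 2) (g := FF)
      (continuousAt_FF (by positivity)) h1
  · intro a b δ ha hab hb1 hδ
    have h0 : 0 < b - a := by linarith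
    obtain ⟨n₀, hn₀⟩ := HT_universal D μ ν σ hD hQ (Set.Ici 0) muG nuG √2 domI qstd_G
      (fun x => (b - a) * clampF a b x) (clampF_BL hab hb1) ((b - a) * δ) (by positivity)
    refine eventually_ff (n₀ := n₀ + 1) (fun n hn hne => ?_)
    obtain ⟨k, rfl⟩ : ∃ k, n = k + 1 := ⟨n - 1, by omega⟩
    have h1 := (hn₀ (k + 1) (by omega) hne (geo_ne_zero k)).1
    exact cdf_compare hD domI (fun ω => σ * HB D (k + 1) ω / √((k + 1 : ℕ) : ℝ))
      (fun ω => √2 * HB (Set.Ici 0) (k + 1) ω / √((k + 1 : ℕ) : ℝ))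
      ((((measurable_of_countable (fun k : ℕ => (k : ℝ))).comp
        (measurable_HB hD (k + 1)).1).const_mul _).div_const _)
      ((((measurable_of_countable (fun k : ℕ => (k : ℝ))).comp
        (meas_HB (k + 1))).const_mul _).div_const _) hab hb1 h1
  · intro a ha
    exact (geo_height_limit ha).mono_left (ff_le _ _ _)

/-- maximum in the general model -/
lemma Mx_limit (D : Set ℝ) (μ ν : Measure ℝ) (σ : ℝ) (hD : Dom D) (hQ : QStd μ ν σ) {x : ℝ}
    (hx : 0 < x) :
    Tendsto (fun n : ℕ => PN D μ ν n {ω | Mx σ n ω ≤ x * √n}) (ff D μ ν) (𝓝 (FF x)) := by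
  have hlim : ∀ y : ℝ, 0 < y → Tendsto (fun m : ℕ => PN (Set.Ici 0) muS nuS (2 * m + 1)
      {ω | Mx (1 / 2) (2 * m + 1) ω ≤ y * √((2 * m + 1 : ℕ) : ℝ)}) atTop (𝓝 (FF y)) := by
    intro y hy
    refine srw_limit hy (fun m => y * √((2 * m + 1 : ℕ) : ℝ)) ?_
    have h4 : Tendsto (fun m : ℕ => 1 + 1 / (m : ℝ) / 2) atTop (𝓝 (1 + 0 / 2)) :=
      tendsto_const_nhds.add (tendsto_one_div_atTop_nhds_zero_nat.div_const _)
    rw [zero_div, add_zero] at h4
    have h7 : Tendsto (fun m : ℕ => y * √(1 + 1 / (m : ℝ) / 2)) atTop (𝓝 (y * √1)) :=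
      ((Real.continuous_sqrt.tendsto 1).comp h4).const_mul _
    rw [Real.sqrt_one, mul_one] at h7
    refine h7.congr' ?_
    filter_upwards [eventually_gt_atTop 0] with m hm
    have hm' : (0 : ℝ) < m := by exact_mod_cast hm
    rw [mul_div_assoc, ← Real.sqrt_div (by positivity)]
    congr 2
    push_cast
    field_simp
  rw [Metric.tendsto_nhds]
  intro ε hε
  have hc := continuousAt_FF hx
  rw [Metric.continuousAt_iff] at hc
  obtain ⟨η, hη, hc⟩ := hc (ε / 4) (by positivity)
  set s := min (min (η / 2) (x / 2)) (ε / 4) with hs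
  have hs0 : 0 < s := by positivity
  have hs1 : s ≤ η / 2 := (min_le_left _ _).trans (min_le_left _ _)
  have hs2 : s ≤ x / 2 := (min_le_left _ _).trans (min_le_right _ _)
  have hs3 : s ≤ ε / 4 := min_le_right _ _
  have c1 := hc (x := x + s) (by rw [Real.dist_eq]; rw [abs_of_pos (by linarith)]; linarith)
  have c2 := hc (x := x - s) (by rw [Real.dist_eq]; rw [abs_of_neg (by linarith)]; linarith)
  obtain ⟨n₁, hn₁⟩ := Mx_universal D μ ν σ hD hQ (Set.Ici 0) muS nuS (1 / 2) domI qstd_S x s hs0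
  obtain ⟨n₂, hn₂⟩ := Mx_universal (Set.Ici 0) muS nuS (1 / 2) domI qstd_S D μ ν σ hD hQ (x - s)
    s hs0
  have t1 := (Metric.tendsto_nhds.1 (hlim (x + s) (by linarith))) (ε / 4) (by positivity)
  have t2 := (Metric.tendsto_nhds.1 (hlim (x - s) (by linarith))) (ε / 4) (by positivity)
  obtain ⟨m, hm1, hm2, hm3⟩ := (t1.and (t2.and (eventually_ge_atTop (n₁ + n₂)))).exists
  refine eventually_ff (n₀ := n₁ + n₂) (fun n hn hne => ?_)
  have a1 := hn₁ n (by omega) (2 * m + 1) (by omega) hne (srw_EvN m).2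
  have a2 := hn₂ (2 * m + 1) (by omega) n (by omega) (srw_EvN m).2 hne
  rw [sub_add_cancel] at a2
  rw [Real.dist_eq, abs_lt] at *
  unfold PN at *
  constructor
  · linarith [a2, hm2.1, c2.1]
  · linarith [a1, hm1.2, c1.2]

end Pool.Agent.BPT
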