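import Pool.Agent.MP_99a865_pr.FV.Y4
import Pool.Agent.MP_99a865_pr.FV.X4

open MeasureTheory ProbabilityTheory Filter Topology
open scoped ENNReal NNReal

namespace Pool.Agent.BPT

set_option linter.unusedSectionVars false
set_option linter.unusedVariables false

lemma BL.continuous {M : ℝ} {f : ℝ → ℝ} (h : BL M f) : Continuous f := by
  rw [Metric.continuous_iff]
  intro b ε hε
  have hM : 0 ≤ M := (abs_nonneg _).trans (h.bd 0)
  refine ⟨ε / (M + 1), by positivity, fun a ha => ?_⟩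
  rw [Real.dist_eq] at *
  calc |f a - f b| ≤ M * |a - b| := h.lip a b
    _ ≤ (M + 1) * |a - b| := by nlinarith [abs_nonneg (a - b)]
    _ < (M + 1) * (ε / (M + 1)) := by
        apply mul_lt_mul_of_pos_left ha (by positivity)
    _ = ε := by field_simp

/-- bounded Lipschitz test functions suffice -/
lemma bcf_of_BL {Ω : Type*} [MeasurableSpace Ω] {l : Filter ℕ} [l.IsCountablyGenerated]
    (P : ℕ → Measure Ω)
    (hP : ∀ᶠ n in l, IsProbabilityMeasure (P n)) (X : ℕ → Ω → ℝ) (hX : ∀ n, Measurable (X n))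
    (W : Measure ℝ) [IsProbabilityMeasure W]
    (h : ∀ F : ℝ → ℝ, BL 1 F → Tendsto (fun n => ∫ ω, F (X n ω) ∂(P n)) l (𝓝 (∫ x, F x ∂W)))
    (f : BoundedContinuousFunction ℝ ℝ) :
    Tendsto (fun n => ∫ ω, f (X n ω) ∂(P n)) l (𝓝 (∫ x, f x ∂W)) := by
  classical
  have hmap : ∀ n, IsProbabilityMeasure (P n) → IsProbabilityMeasure ((P n).map (X n)) := by
    intro n hn
    exact Measure.isProbabilityMeasure_map (hX n).aemeasurable
  have hex : ∀ n, ∃ q : ProbabilityMeasure ℝ, IsProbabilityMeasure (P n) →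
      (q : Measure ℝ) = (P n).map (X n) := by
    intro n
    by_cases hn : IsProbabilityMeasure (P n)
    · exact ⟨⟨(P n).map (X n), hmap n hn⟩, fun _ => rfl⟩
    · exact ⟨⟨Measure.dirac 0, inferInstance⟩, fun h => absurd h hn⟩
  choose L hL0 using hex
  let Wp : ProbabilityMeasure ℝ := ⟨W, inferInstance⟩
  have hWp : (Wp : Measure ℝ) = W := rfl
  have hL : ∀ g : ℝ → ℝ, Continuous g → ∀ᶠ n in l, ∫ x, g x ∂(L n : Measure ℝ) = ∫ ω, g (X n ω) ∂(P n) := by
    intro g hg
    filter_upwards [hP] with n hn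
    rw [hL0 n hn, integral_map (hX n).aemeasurable hg.aestronglyMeasurable]
  have key : Tendsto L l (𝓝 Wp) := by
    rw [tendsto_iff_forall_lipschitz_integral_tendsto]
    intro g ⟨C, hC⟩ ⟨K, hK⟩
    set M : ℝ := |g 0| + |C| + K + 1 with hM
    have hM0 : 0 < M := by positivity
    have hBL : BL 1 (fun x => g x / M) := by
      constructor
      · intro x
        rw [abs_div, abs_of_pos hM0, div_le_one hM0]
        have h1 := hC x 0
        rw [Real.dist_eq] at h1
        calc |g x| = |g 0 + (g x - g 0)| := by congr 1; ring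
          _ ≤ |g 0| + |g x - g 0| := abs_add_le _ _
          _ ≤ |g 0| + C := by linarith
          _ ≤ M := by
            have := le_abs_self C
            have := K.2
            simp only [hM]
            linarith [K.coe_nonneg]
      · intro x y
        rw [← sub_div, abs_div, abs_of_pos hM0, div_le_iff₀ hM0, one_mul]
        have h1 := hK.dist_le_mul x y
        rw [Real.dist_eq, Real.dist_eq] at h1
        have h2 : (K : ℝ) ≤ M := by
          simp only [hM]
          have := abs_nonneg C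
          have := abs_nonneg (g 0)
          linarith
        calc |g x - g y| ≤ K * |x - y| := h1
          _ ≤ M * |x - y| := mul_le_mul_of_nonneg_right h2 (abs_nonneg _)
          _ = |x - y| * M := mul_comm _ _
    have h1 := (h _ hBL).const_mul M
    simp only [integral_div] at h1
    have e1 : ∀ a : ℝ, M * (a / M) = a := fun a => by field_simp
    simp only [e1] at h1
    refine h1.congr' ?_
    filter_upwards [hL g hK.continuous] with n hn using hn.symm
  rw [ProbabilityMeasure.tendsto_iff_forall_integral_tendsto] at key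
  have h2 := (key f).congr' (hL f f.continuous)
  rwa [hWp] at h2

lemma EN_abs_sub_le {D : Set ℝ} {μ ν : Measure ℝ} (hD : Dom D) {n : ℕ} (F G H : (ℕ → ℝ × ℝ) → ℝ)
    (hF : Integrable F (PQ μ ν)) (hG : Integrable G (PQ μ ν))
    (hH : IntegrableOn H (EvN D n) (PQ μ ν))
    (h : ∀ᵐ ω ∂(PQ μ ν), ω ∈ EvN D n → |F ω - G ω| ≤ H ω) :
    |EN D μ ν n F - EN D μ ν n G| ≤ EN D μ ν n H := by
  unfold EN
  rw [← sub_div, abs_div, abs_of_nonneg (measureReal_nonneg (μ := PQ μ ν) (s := EvN D n))]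
  apply div_le_div_of_nonneg_right _ measureReal_nonneg
  rw [← integral_sub hF.integrableOn hG.integrableOn]
  refine (abs_integral_le_integral_abs).trans ?_
  refine integral_mono_ae (hF.integrableOn.sub hG.integrableOn).abs hH ?_
  exact (ae_restrict_iff' (measurableSet_EvN hD n)).2 h

lemma nz_nonneg_of_EvN {D : Set ℝ} (hD : Dom D) {σ : ℝ} (hσ : 0 < σ) {n : ℕ} {ω : ℕ → ℝ × ℝ}
    (h : ω ∈ EvN D n) {i : ℕ} (hi : i < n) : 0 ≤ nz σ i ω := by
  rcases Nat.eq_zero_or_pos i with h0 | h0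
  · subst h0
    unfold nz Zw Dp Ar
    simp
  · have := h.2.1 i h0 (by omega)
    exact div_nonneg (hD.nonneg this) hσ.le

lemma Area_nonneg {D : Set ℝ} (hD : Dom D) {σ : ℝ} (hσ : 0 < σ) {n : ℕ} {ω : ℕ → ℝ × ℝ}
    (h : ω ∈ EvN D n) : 0 ≤ Area σ n ω := by
  unfold Area
  exact Finset.sum_nonneg fun i hi => nz_nonneg_of_EvN hD hσ h (Finset.mem_range.1 hi)

/-- uniform bound for the conditional expectation of the area of the simple random walk -/
lemma srw_area_mean : ∃ C > (0 : ℝ), ∃ n₀ : ℕ, ∀ m ≥ n₀,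
    IntegrableOn (Area (1 / 2) (2 * m + 1)) (EvN (Set.Ici 0) (2 * m + 1)) (PQ muS nuS) ∧
    EN (Set.Ici 0) muS nuS (2 * m + 1) (Area (1 / 2) (2 * m + 1)) ≤
      C * ((2 * m + 1 : ℕ) * √((2 * m + 1 : ℕ) : ℝ)) := by
  obtain ⟨C, hC, h1⟩ := area_tight (D := Set.Ici 0) domI qstd_S
  obtain ⟨c, hc, n₀, h2⟩ := le_hit (D := Set.Ici 0) domI qstd_S.std
  refine ⟨C / c, by positivity, n₀, fun m hm => ?_⟩
  have h3 := h1 (2 * m + 1) (by omega)
  have hnn : 0 ≤ᵐ[(PQ muS nuS).restrict (EvN (Set.Ici 0) (2 * m + 1))] Area (1 / 2) (2 * m + 1) :=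
    (ae_restrict_iff' (measurableSet_EvN domI _)).2
      (Eventually.of_forall fun ω hω => Area_nonneg domI (by norm_num) hω)
  have hint : IntegrableOn (Area (1 / 2) (2 * m + 1)) (EvN (Set.Ici 0) (2 * m + 1)) (PQ muS nuS) := by
    refine ⟨(measurable_Area' _ _).aestronglyMeasurable, ?_⟩
    rw [hasFiniteIntegral_iff_ofReal hnn]
    exact lt_of_le_of_lt h3 ENNReal.ofReal_lt_top
  refine ⟨hint, ?_⟩
  have h4 : ∫ ω in EvN (Set.Ici 0) (2 * m + 1), Area (1 / 2) (2 * m + 1) ω ∂(PQ muS nuS) ≤ C := by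
    rw [integral_eq_lintegral_of_nonneg_ae hnn (measurable_Area' _ _).aestronglyMeasurable]
    exact ENNReal.toReal_le_of_le_ofReal hC.le h3
  have hp : 0 < hit (Set.Ici 0) (stepLaw muS nuS (1 / 2)) (2 * m + 1) 0 := by
    rw [← PQ_EvN domI qstd_S]
    have := probS
    exact ENNReal.toReal_pos (srw_EvN m).2 (measure_ne_top _ _)
  have h5 := h2 (2 * m + 1) (by omega) hp
  unfold EN
  rw [PQ_EvN domI qstd_S, div_le_iff₀ hp]
  have hN : (0 : ℝ) < ((2 * m + 1 : ℕ) : ℝ) * √((2 * m + 1 : ℕ) : ℝ) := by positivity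
  rw [div_le_iff₀ hN] at h5
  calc _ ≤ C := h4
    _ = C / c * c := by field_simp
    _ ≤ C / c * (hit (Set.Ici 0) (stepLaw muS nuS (1 / 2)) (2 * m + 1) 0 *
        (((2 * m + 1 : ℕ) : ℝ) * √((2 * m + 1 : ℕ) : ℝ))) :=
        mul_le_mul_of_nonneg_left h5 (by positivity)
    _ = _ := by ring

end Pool.Agent.BPT
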