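import Pool.Agent.MP_99a865_pr.FV.Y5

open MeasureTheory ProbabilityTheory Filter Topology
open scoped ENNReal NNReal

namespace Pool.Agent.BPT

set_option linter.unusedSectionVars false
set_option linter.unusedVariables false

/-- the convergence property of `area_law` -/
def AreaLim (W : Measure ℝ) : Prop :=
  ∀ (D : Set ℝ) (μ ν : Measure ℝ) (σ : ℝ), Dom D → QStd μ ν σ → ∀ F : ℝ → ℝ, BL 1 F →
    ∀ ε > (0 : ℝ), ∃ n₀ : ℕ, ∀ n ≥ n₀, PQ μ ν (EvN D n) ≠ 0 →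
      |EN D μ ν n (fun ω => F (Area σ n ω / (n * √n))) - ∫ x, F x ∂W| ≤ ε

lemma EN_lin {D : Set ℝ} {μ ν : Measure ℝ} [IsProbabilityMeasure μ] [IsProbabilityMeasure ν]
    {n : ℕ} {A : (ℕ → ℝ × ℝ) → ℝ} (hA : IntegrableOn A (EvN D n) (PQ μ ν))
    (hp : (PQ μ ν).real (EvN D n) ≠ 0) (c d : ℝ) :
    EN D μ ν n (fun ω => c * A ω + d) = c * EN D μ ν n A + d := by
  unfold EN
  rw [integral_add (hA.const_mul c) (integrable_const d), integral_const_mul, setIntegral_const,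
    smul_eq_mul]
  field_simp

lemma scale_diff {A N n : ℝ} (hA : 0 ≤ A) (hN : 1 ≤ N) (hn : 0 ≤ n) (hn' : n ≤ N + 1) :
    |(A + n) / ((N + 1) * √(N + 1)) - A / (N * √N)| ≤ 2 / N * (A / (N * √N)) + 1 / √N := by
  obtain ⟨s, hs, hsN⟩ : ∃ s : ℝ, 0 < s ∧ s ^ 2 = N :=
    ⟨√N, by positivity, Real.sq_sqrt (by linarith)⟩
  obtain ⟨t, ht, htN⟩ : ∃ t : ℝ, 0 < t ∧ t ^ 2 = N + 1 :=
    ⟨√(N + 1), by positivity, Real.sq_sqrt (by linarith)⟩
  have es : √N = s := by rw [← hsN, Real.sqrt_sq hs.le]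
  have et : √(N + 1) = t := by rw [← htN, Real.sqrt_sq ht.le]
  have hst : s ≤ t := by nlinarith
  rw [es, et, ← htN, ← hsN]
  have h1 : 0 ≤ A / (s ^ 2 * s) := by positivity
  have h2 : A / (t ^ 2 * t) ≤ A / (s ^ 2 * s) := by
    apply div_le_div_of_nonneg_left hA (by positivity)
    gcongr
  have h3 : n / (t ^ 2 * t) ≤ 1 / s := by
    rw [div_le_div_iff₀ (by positivity) hs, one_mul]
    calc n * s ≤ t ^ 2 * s := by
          apply mul_le_mul_of_nonneg_right _ hs.le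
          rw [htN]; exact hn'
      _ ≤ t ^ 2 * t := by gcongr
  have h4 : 0 ≤ n / (t ^ 2 * t) := by positivity
  have h5 : A / (s ^ 2 * s) - A / (t ^ 2 * t) ≤ 2 / s ^ 2 * (A / (s ^ 2 * s)) := by
    have h6 : A / (s ^ 2 * s) - A / (t ^ 2 * t) = A / (s ^ 2 * s) * (1 - s ^ 3 / t ^ 3) := by
      field_simp
    have h7 : 1 - s ^ 3 / t ^ 3 ≤ 2 / s ^ 2 := by
      have h8 : s ^ 4 / t ^ 4 ≤ s ^ 3 / t ^ 3 := by
        rw [div_le_div_iff₀ (by positivity) (by positivity)]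
        have : s ^ 3 * t ^ 4 - s ^ 4 * t ^ 3 = s ^ 3 * t ^ 3 * (t - s) := by ring
        have h9 : 0 ≤ s ^ 3 * t ^ 3 * (t - s) := mul_nonneg (by positivity) (by linarith)
        linarith
      have h9 : 1 - s ^ 4 / t ^ 4 ≤ 2 / s ^ 2 := by
        have h10 : 1 - s ^ 4 / t ^ 4 = (t ^ 2 + s ^ 2) * (t ^ 2 - s ^ 2) / t ^ 4 := by
          field_simp
          ring
        have h11 : t ^ 2 - s ^ 2 = 1 := by rw [htN, hsN]; ring
        rw [h10, h11, mul_one, div_le_div_iff₀ (by positivity) (by positivity)]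
        have h12 : s ^ 2 ≤ t ^ 2 := by gcongr
        nlinarith [sq_nonneg (t ^ 2), sq_nonneg (s ^ 2), mul_nonneg (sq_nonneg t) (sq_nonneg s)]
      linarith
    rw [h6, mul_comm (2 / s ^ 2)]
    exact mul_le_mul_of_nonneg_left h7 h1
  have h6 : (A + n) / (t ^ 2 * t) = A / (t ^ 2 * t) + n / (t ^ 2 * t) := by rw [add_div]
  have h7 : 0 ≤ 2 / s ^ 2 * (A / (s ^ 2 * s)) := by positivity
  rw [h6, abs_sub_le_iff]
  constructor <;> linarith [show (0 : ℝ) ≤ 1 / s by positivity]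

lemma srw_area_limit {W : Measure ℝ} (hW : AreaLim W) {F : ℝ → ℝ} (hF : BL 1 F) :
    Tendsto (fun m : ℕ => EN (Set.Ici 0) muS nuS (2 * m + 1)
      (fun ω => F (Area (1 / 2) (2 * m + 1) ω / ((2 * m + 1 : ℕ) * √((2 * m + 1 : ℕ) : ℝ))))) atTop
      (𝓝 (∫ x, F x ∂W)) := by
  rw [Metric.tendsto_atTop]
  intro ε hε
  obtain ⟨n₀, h⟩ := hW (Set.Ici 0) muS nuS (1 / 2) domI qstd_S F hF (ε / 2) (by positivity)
  refine ⟨n₀, fun m hm => ?_⟩
  rw [Real.dist_eq]
  have := h (2 * m + 1) (by omega) (srw_EvN m).2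
  linarith

lemma BL.measurable {M : ℝ} {F : ℝ → ℝ} (hF : BL M F) : Measurable F := hF.continuous.measurable

lemma integrable_BL {Ω : Type*} [MeasurableSpace Ω] (P : Measure Ω) [IsFiniteMeasure P] {F : ℝ → ℝ}
    (hF : BL 1 F) {X : Ω → ℝ} (hX : Measurable X) : Integrable (fun ω => F (X ω)) P :=
  Integrable.of_bound (hF.measurable.comp hX).aestronglyMeasurable 1
    (Eventually.of_forall fun ω => by rw [Real.norm_eq_abs]; exact hF.bd _)

lemma EN_congr_ae {D : Set ℝ} {μ ν : Measure ℝ} (hD : Dom D) {n : ℕ} {F G : (ℕ → ℝ × ℝ) → ℝ}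
    (h : ∀ᵐ ω ∂(PQ μ ν), ω ∈ EvN D n → F ω = G ω) : EN D μ ν n F = EN D μ ν n G := by
  unfold EN
  rw [setIntegral_congr_ae (measurableSet_EvN hD n) h]

lemma geo_total_limit {W : Measure ℝ} (hW : AreaLim W) {F : ℝ → ℝ} (hF : BL 1 F) :
    Tendsto (fun n : ℕ => EN (Set.Ici 0) muG nuG n
      (fun ω => F (√2 * TB (Set.Ici 0) n ω / (n * √n) / 2))) atTop (𝓝 (∫ x, F x ∂W)) := by
  have := probS
  have := probG
  have := qstd_S.probμ
  have := qstd_S.probν
  rw [← tendsto_add_atTop_iff_nat 1]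
  obtain ⟨C, hC, n₀, hm⟩ := srw_area_mean
  have h1 := srw_area_limit hW hF
  have e1 : ∀ m : ℕ, EN (Set.Ici 0) muG nuG (m + 1)
      (fun ω => F (√2 * TB (Set.Ici 0) (m + 1) ω / ((m + 1 : ℕ) * √((m + 1 : ℕ) : ℝ)) / 2)) =
      EN (Set.Ici 0) muS nuS (2 * m + 1) (fun ω => F ((Area (1 / 2) (2 * m + 1) ω + m) /
        (((2 * m + 1 : ℕ) + 1) * √((2 * m + 1 : ℕ) + 1 : ℝ)))) := by
    intro m
    rw [geo_TB m (fun t => F (√2 * t / ((m + 1 : ℕ) * √((m + 1 : ℕ) : ℝ)) / 2))]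
    apply EN_congr_ae domI
    filter_upwards [srw_arN m] with ω hω hE
    rw [hω hE]
    congr 1
    have e2 : ((2 * m + 1 : ℕ) + 1 : ℝ) = 2 * ((m + 1 : ℕ) : ℝ) := by push_cast; ring
    rw [e2, Real.sqrt_mul (by norm_num)]
    have h2 : √2 * √2 = (2 : ℝ) := Real.mul_self_sqrt (by norm_num)
    have h3 : (0 : ℝ) < √((m + 1 : ℕ) : ℝ) := by positivity
    have h4 : (0 : ℝ) < √2 := by positivity
    have h5 : (0 : ℝ) < ((m + 1 : ℕ) : ℝ) := by positivity
    rw [sub_add_cancel, div_div, div_eq_div_iff (by positivity) (by positivity)]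
    linear_combination (2 * (arN m ω : ℝ) * ((m + 1 : ℕ) : ℝ) * √((m + 1 : ℕ) : ℝ)) * h2
  have h2 : Tendsto (fun m : ℕ => 2 / ((2 * m + 1 : ℕ) : ℝ) * C + 1 / √((2 * m + 1 : ℕ) : ℝ)) atTop
      (𝓝 (0 * C + 0)) := by
    have h3 : Tendsto (fun m : ℕ => ((2 * m + 1 : ℕ) : ℝ)) atTop atTop := by
      apply tendsto_natCast_atTop_atTop.comp
      exact tendsto_atTop_mono (fun m => by simp only [id]; omega) tendsto_id
    apply Tendsto.add
    · apply Tendsto.mul_const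
      exact (tendsto_const_nhds (x := (2 : ℝ))).div_atTop h3
    · exact (tendsto_const_nhds (x := (1 : ℝ))).div_atTop (Real.tendsto_sqrt_atTop.comp h3)
  rw [zero_mul, add_zero] at h2
  have h3 : Tendsto (fun m : ℕ => EN (Set.Ici 0) muS nuS (2 * m + 1)
      (fun ω => F ((Area (1 / 2) (2 * m + 1) ω + m) /
        (((2 * m + 1 : ℕ) + 1) * √((2 * m + 1 : ℕ) + 1 : ℝ)))) -
      EN (Set.Ici 0) muS nuS (2 * m + 1)
      (fun ω => F (Area (1 / 2) (2 * m + 1) ω / ((2 * m + 1 : ℕ) * √((2 * m + 1 : ℕ) : ℝ))))) atTop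
      (𝓝 0) := by
    apply squeeze_zero_norm' _ h2
    filter_upwards [eventually_ge_atTop n₀] with m hmn
    obtain ⟨hi, hb⟩ := hm m hmn
    have hp : (PQ muS nuS).real (EvN (Set.Ici 0) (2 * m + 1)) ≠ 0 := by
      have h5 := (srw_EvN m).2
      rw [measureReal_def]
      exact (ENNReal.toReal_pos h5 (measure_ne_top _ _)).ne'
    set N : ℝ := ((2 * m + 1 : ℕ) : ℝ) with hN
    have hN1 : 1 ≤ N := by rw [hN]; push_cast; linarith [(Nat.cast_nonneg m : (0 : ℝ) ≤ m)]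
    have hN0 : 0 < N * √N := by positivity
    rw [Real.norm_eq_abs]
    refine (EN_abs_sub_le domI _ _
      (fun ω => 2 / N / (N * √N) * Area (1 / 2) (2 * m + 1) ω + 1 / √N)
      (integrable_BL _ hF (((measurable_Area' _ _).add_const _).div_const _))
      (integrable_BL _ hF ((measurable_Area' _ _).div_const _)) ?_ ?_).trans ?_
    · exact (hi.const_mul _).add (integrable_const _)
    · refine Eventually.of_forall fun ω hω => ?_
      refine (hF.lip _ _).trans ?_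
      rw [one_mul]
      have h6 := scale_diff (A := Area (1 / 2) (2 * m + 1) ω) (N := N) (n := m)
        (Area_nonneg domI (by norm_num) hω) hN1 (Nat.cast_nonneg m) (by
          rw [hN]; push_cast; linarith [(Nat.cast_nonneg m : (0 : ℝ) ≤ m)])
      refine h6.trans (le_of_eq ?_)
      congr 1
      field_simp
    · rw [EN_lin hi hp]
      have h7 : 2 / N / (N * √N) * EN (Set.Ici 0) muS nuS (2 * m + 1) (Area (1 / 2) (2 * m + 1)) ≤
          2 / N * C := by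
        calc _ ≤ 2 / N / (N * √N) * (C * (N * √N)) :=
              mul_le_mul_of_nonneg_left hb (by positivity)
          _ = 2 / N * C := by field_simp
      linarith
  have h4 := h3.add h1
  rw [zero_add] at h4
  refine h4.congr fun m => ?_
  rw [e1 m]
  ring

/-- total height, general model -/
lemma total_limit {W : Measure ℝ} (hW : AreaLim W) (D : Set ℝ) (μ ν : Measure ℝ) (σ : ℝ)
    (hD : Dom D) (hQ : QStd μ ν σ) {F : ℝ → ℝ} (hF : BL 1 F) :
    Tendsto (fun n : ℕ => EN D μ ν n (fun ω => F (σ * TB D n ω / (n * √n) / 2))) (ff D μ ν)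
      (𝓝 (∫ x, F x ∂W)) := by
  have hF2 : BL 1 (fun x => F (x / 2)) := by
    refine ⟨fun x => hF.bd _, fun x y => (hF.lip _ _).trans ?_⟩
    rw [one_mul, one_mul, ← sub_div, abs_div, abs_of_pos (show (0 : ℝ) < 2 by norm_num)]
    linarith [abs_nonneg (x - y)]
  have h1 := (geo_total_limit hW hF).mono_left (ff_le D μ ν)
  rw [Metric.tendsto_nhds] at h1 ⊢
  intro ε hε
  obtain ⟨n₀, hn₀⟩ := HT_universal D μ ν σ hD hQ (Set.Ici 0) muG nuG √2 domI qstd_G
    (fun x => F (x / 2)) hF2 (ε / 3) (by positivity)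
  have h2 : ∀ᶠ n in ff D μ ν, |EN D μ ν n (fun ω => F (σ * TB D n ω / (n * √n) / 2)) -
      EN (Set.Ici 0) muG nuG n (fun ω => F (√2 * TB (Set.Ici 0) n ω / (n * √n) / 2))| ≤ ε / 3 := by
    refine eventually_ff (n₀ := n₀ + 1) (fun n hn hne => ?_)
    obtain ⟨k, rfl⟩ : ∃ k, n = k + 1 := ⟨n - 1, by omega⟩
    exact (hn₀ (k + 1) (by omega) hne (geo_ne_zero k)).2
  filter_upwards [h1 (ε / 3) (by positivity), h2] with n a1 a2
  rw [Real.dist_eq] at *
  calc _ ≤ |EN D μ ν n (fun ω => F (σ * TB D n ω / (n * √n) / 2)) -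
      EN (Set.Ici 0) muG nuG n (fun ω => F (√2 * TB (Set.Ici 0) n ω / (n * √n) / 2))| +
      |EN (Set.Ici 0) muG nuG n (fun ω => F (√2 * TB (Set.Ici 0) n ω / (n * √n) / 2)) -
        ∫ x, F x ∂W| := abs_sub_le _ _ _
    _ < ε := by linarith

end Pool.Agent.BPT
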