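import Pool.Agent.MP_99a865_pr.FV.Y6

open MeasureTheory ProbabilityTheory Filter Topology
open scoped ENNReal NNReal

namespace Pool.Agent.BPT

set_option linter.unusedSectionVars false
set_option linter.unusedVariables false

lemma EN_eq_cond {D : Set ℝ} (μ ν : Measure ℝ) (n : ℕ) (F : (ℕ → ℝ × ℝ) → ℝ) :
    ∫ ω, F ω ∂(ProbabilityTheory.cond (PQ μ ν) (EvN D n)) = EN D μ ν n F := by
  unfold ProbabilityTheory.cond EN
  rw [integral_smul_measure, ENNReal.toReal_inv, smul_eq_mul, div_eq_inv_mul]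
  rfl

lemma isProb_cond {D : Set ℝ} {μ ν : Measure ℝ} [IsProbabilityMeasure μ] [IsProbabilityMeasure ν]
    {n : ℕ} (h : PQ μ ν (EvN D n) ≠ 0) :
    IsProbabilityMeasure (ProbabilityTheory.cond (PQ μ ν) (EvN D n)) := cond_isProbabilityMeasure h

/-! ## the total height, bounded continuous functions -/

lemma total_limit_bcf {W : Measure ℝ} [IsProbabilityMeasure W] (hW : AreaLim W) (D : Set ℝ)
    (μ ν : Measure ℝ) (σ : ℝ) (hD : Dom D) (hQ : QStd μ ν σ) (f : BoundedContinuousFunction ℝ ℝ) :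
    Tendsto (fun n : ℕ => EN D μ ν n (fun ω => f (σ * TB D n ω / (n * √n) / 2))) (ff D μ ν)
      (𝓝 (∫ x, f x ∂W)) := by
  have := hQ.probμ
  have := hQ.probν
  have hcg : (ff D μ ν).IsCountablyGenerated := by unfold ff; infer_instance
  have h1 := bcf_of_BL (l := ff D μ ν) (fun n => ProbabilityTheory.cond (PQ μ ν) (EvN D n))
    (eventually_ff (n₀ := 0) fun n _ hn => isProb_cond hn)
    (fun n ω => σ * TB D n ω / (n * √n) / 2)
    (fun n => ((((measurable_of_countable (fun k : ℕ => (k : ℝ))).comp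
        (measurable_HB hD n).2).const_mul _).div_const _).div_const _) W
    (fun F hF => by
      simp only [EN_eq_cond]
      exact total_limit hW D μ ν σ hD hQ hF) f
  simpa only [EN_eq_cond] using h1

/-! ## Dyck paths -/

lemma EN_dyck (m : ℕ) (F : ℝ → ℝ) (hF : Measurable F) :
    EN (Set.Ici 0) muS nuS (2 * m + 1) (fun ω => F (Area (1 / 2) (2 * m + 1) ω)) =
      (∑ s ∈ dyckPaths m, F (pathArea s)) / (dyckPaths m).card := by
  unfold EN
  rw [dyck_srw m F hF, (srw_EvN m).1]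
  have h1 : ((dyckPaths m).card : ℝ) ≠ 0 := by
    exact_mod_cast (Finset.card_pos.2 (dyckPaths_nonempty m)).ne'
  field_simp

lemma srw_area_limit' {W : Measure ℝ} (hW : AreaLim W) {F : ℝ → ℝ} (hF : BL 1 F) :
    Tendsto (fun m : ℕ => EN (Set.Ici 0) muS nuS (2 * m + 1)
      (fun ω => F (Area (1 / 2) (2 * m + 1) ω / ((2 * m) * √(2 * m))))) atTop
      (𝓝 (∫ x, F x ∂W)) := by
  have := probS
  have := qstd_S.probμ
  have := qstd_S.probν
  obtain ⟨C, hC, n₀, hm⟩ := srw_area_mean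
  have h1 := srw_area_limit hW hF
  have h2 : Tendsto (fun m : ℕ => 2 / (2 * (m : ℝ)) * (8 * C) + 1 / √(2 * (m : ℝ))) atTop
      (𝓝 (0 * (8 * C) + 0)) := by
    have h3 : Tendsto (fun m : ℕ => 2 * (m : ℝ)) atTop atTop :=
      Tendsto.const_mul_atTop (by norm_num) tendsto_natCast_atTop_atTop
    apply Tendsto.add
    · apply Tendsto.mul_const
      exact (tendsto_const_nhds (x := (2 : ℝ))).div_atTop h3
    · exact (tendsto_const_nhds (x := (1 : ℝ))).div_atTop (Real.tendsto_sqrt_atTop.comp h3)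
  rw [zero_mul, add_zero] at h2
  have h3 : Tendsto (fun m : ℕ => EN (Set.Ici 0) muS nuS (2 * m + 1)
      (fun ω => F (Area (1 / 2) (2 * m + 1) ω / ((2 * m) * √(2 * m)))) -
      EN (Set.Ici 0) muS nuS (2 * m + 1)
      (fun ω => F (Area (1 / 2) (2 * m + 1) ω / ((2 * m + 1 : ℕ) * √((2 * m + 1 : ℕ) : ℝ))))) atTop
      (𝓝 0) := by
    apply squeeze_zero_norm' _ h2
    filter_upwards [eventually_ge_atTop n₀, eventually_ge_atTop 1] with m hmn hm1
    obtain ⟨hi, hb⟩ := hm m hmn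
    have hp : (PQ muS nuS).real (EvN (Set.Ici 0) (2 * m + 1)) ≠ 0 := by
      have h5 := (srw_EvN m).2
      rw [measureReal_def]
      exact (ENNReal.toReal_pos h5 (measure_ne_top _ _)).ne'
    have hm1' : (1 : ℝ) ≤ m := by exact_mod_cast hm1
    set N : ℝ := 2 * (m : ℝ) with hN
    have e : ((2 * m + 1 : ℕ) : ℝ) = N + 1 := by rw [hN]; push_cast; ring
    have hN1 : 1 ≤ N := by linarith
    have hN0 : 0 < N * √N := by positivity
    rw [e] at hb ⊢
    rw [Real.norm_eq_abs, abs_sub_comm]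
    refine (EN_abs_sub_le domI _ _
      (fun ω => 2 / N / (N * √N) * Area (1 / 2) (2 * m + 1) ω + 1 / √N)
      (integrable_BL _ hF ((measurable_Area' _ _).div_const _))
      (integrable_BL _ hF ((measurable_Area' _ _).div_const _)) ?_ ?_).trans ?_
    · exact (hi.const_mul _).add (integrable_const _)
    · refine Eventually.of_forall fun ω hω => ?_
      refine (hF.lip _ _).trans ?_
      rw [one_mul]
      have h6 := scale_diff (A := Area (1 / 2) (2 * m + 1) ω) (N := N) (n := 0)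
        (Area_nonneg domI (by norm_num) hω) hN1 le_rfl (by linarith)
      rw [add_zero] at h6
      refine h6.trans (le_of_eq ?_)
      congr 1
      field_simp
    · rw [EN_lin hi hp]
      have h8 : (N + 1) * √(N + 1) ≤ 8 * (N * √N) := by
        have h9 : √(N + 1) ≤ 2 * √N := by
          rw [Real.sqrt_le_left (by positivity), mul_pow, Real.sq_sqrt (by linarith)]
          linarith
        calc (N + 1) * √(N + 1) ≤ (2 * N) * (2 * √N) := by
              apply mul_le_mul (by linarith) h9 (by positivity) (by positivity)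
          _ ≤ 8 * (N * √N) := by nlinarith
      have h7 : 2 / N / (N * √N) * EN (Set.Ici 0) muS nuS (2 * m + 1) (Area (1 / 2) (2 * m + 1)) ≤
          2 / N * (8 * C) := by
        calc _ ≤ 2 / N / (N * √N) * (C * ((N + 1) * √(N + 1))) :=
              mul_le_mul_of_nonneg_left hb (by positivity)
          _ ≤ 2 / N / (N * √N) * (C * (8 * (N * √N))) := by gcongr
          _ = 2 / N * (8 * C) := by field_simp
      linarith
  have h4 := h3.add h1
  rw [zero_add] at h4
  refine h4.congr fun m => ?_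
  ring

/-- areas of uniform Dyck paths -/
lemma dyck_limit {W : Measure ℝ} [IsProbabilityMeasure W] (hW : AreaLim W)
    (f : BoundedContinuousFunction ℝ ℝ) :
    Tendsto (fun m : ℕ => (∑ s ∈ dyckPaths m, f ((pathArea s : ℝ) / ((2 * m) * √(2 * m)))) /
      (dyckPaths m).card) atTop (𝓝 (∫ x, f x ∂W)) := by
  have := probS
  have := qstd_S.probμ
  have := qstd_S.probν
  have h1 := bcf_of_BL (l := atTop)
    (fun m => ProbabilityTheory.cond (PQ muS nuS) (EvN (Set.Ici 0) (2 * m + 1)))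
    (Eventually.of_forall fun m => isProb_cond (srw_EvN m).2)
    (fun m ω => Area (1 / 2) (2 * m + 1) ω / ((2 * m) * √(2 * m)))
    (fun m => (measurable_Area' _ _).div_const _) W
    (fun F hF => by
      simp only [EN_eq_cond]
      exact srw_area_limit' hW hF) f
  simp only [EN_eq_cond] at h1
  refine h1.congr fun m => ?_
  exact EN_dyck m (fun x => f (x / ((2 * m) * √(2 * m))))
    (f.continuous.measurable.comp (measurable_id.div_const _))

/-! ## the width -/

/-- the width as a function of the sequence of pairs -/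
noncomputable def Wd (c : Bool) (n : ℕ) (ω : ℕ → ℝ × ℝ) : ℕ :=
  width c (fun i => (ω i).1) (fun i => (ω i).2) n

lemma measurable_Wd (c : Bool) (n : ℕ) : Measurable (Wd c n) := by
  have h2 : Measurable (fun ω : ℕ → ℝ × ℝ =>
      ((fun i => (ω i).1, fun i => (ω i).2) : (ℕ → ℝ) × (ℕ → ℝ))) := by
    apply Measurable.prodMk
    · exact measurable_pi_lambda _ fun i => measurable_fst.comp (measurable_pi_apply i)
    · exact measurable_pi_lambda _ fun i => measurable_snd.comp (measurable_pi_apply i)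
  have h3 : Wd c n = (fun p : (ℕ → ℝ) × (ℕ → ℝ) => width c p.1 p.2 n) ∘
      (fun ω : ℕ → ℝ × ℝ => ((fun i => (ω i).1, fun i => (ω i).2) : (ℕ → ℝ) × (ℕ → ℝ))) := by
    funext ω
    unfold Wd
    rfl
  rw [h3]
  exact (measurable_height c n).2.1.comp h2

lemma ae_pos_PQ {μ ν : Measure ℝ} {σ : ℝ} (h : Hyp μ ν σ) :
    ∀ᵐ ω ∂(PQ μ ν), (∀ k, 0 < (ω k).1) ∧ ∀ k, 0 < (ω k).2 := by
  have := h.probμ
  have := h.probν
  rw [← map_zip μ ν]
  have hm : MeasurableSet {ω : ℕ → ℝ × ℝ | (∀ k, 0 < (ω k).1) ∧ ∀ k, 0 < (ω k).2} := by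
    have e : {ω : ℕ → ℝ × ℝ | (∀ k, 0 < (ω k).1) ∧ ∀ k, 0 < (ω k).2} =
        (⋂ k, {ω | 0 < (ω k).1}) ∩ ⋂ k, {ω | 0 < (ω k).2} := by
      ext ω; simp
    rw [e]
    apply MeasurableSet.inter
    · exact MeasurableSet.iInter fun k =>
        measurableSet_lt measurable_const (measurable_fst.comp (measurable_pi_apply k))
    · exact MeasurableSet.iInter fun k =>
        measurableSet_lt measurable_const (measurable_snd.comp (measurable_pi_apply k))
  rw [ae_map_iff measurable_zip.aemeasurable hm]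
  exact ae_pos_queue h

lemma ae_IsW {μ ν : Measure ℝ} {σ : ℝ} (h : Hyp μ ν σ) (c : Bool) (n : ℕ) :
    ∀ᵐ ω ∂(PQ μ ν), ω ∈ EvN (DD' c) n → IsW (DD' c) n ω (Wd c n ω) := by
  filter_upwards [ae_pos_PQ h] with ω hω hE
  have e : zip (fun i => (ω i).1) (fun i => (ω i).2) = ω := rfl
  have hB : BusyLength c (fun i => (ω i).1) (fun i => (ω i).2) n :=
    (busy_iff c _ _ n).2 (by rw [e]; exact hE)
  have h1 := (height_eq c _ _ hω.1 hω.2 n hB).2.2
  rw [e] at h1
  exact h1

lemma width_limit {μ ν : Measure ℝ} {σ : ℝ} (h : Hyp μ ν σ) (c : Bool) {x : ℝ} (hx : 0 < x) :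
    Tendsto (fun n : ℕ => PN (DD' c) μ ν n {ω | (Wd c n ω : ℝ) / (σ * √n) ≤ x})
      (ff (DD' c) μ ν) (𝓝 (FF x)) := by
  have := h.probμ
  have := h.probν
  have hσ := h.pos
  have hD := dom_DD' c
  refine cdf_limit (l := ff (DD' c) μ ν)
    (fun n a => PN (DD' c) μ ν n {ω | (Wd c n ω : ℝ) / (σ * √n) ≤ a})
    (fun n a => PN (DD' c) μ ν n {ω | Mx σ n ω ≤ a * √n}) FF hx (continuousAt_FF hx) ?_
    (fun a ha => Mx_limit (DD' c) μ ν σ hD h.qstd ha)
  intro a b δ ha hab _ hδ
  set τ := min (σ * (b - a)) δ with hτ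
  have hτ0 : 0 < τ := lt_min (mul_pos hσ (by linarith)) hδ
  obtain ⟨n₀, hn₀⟩ := W_close hD h.qstd τ hτ0
  refine eventually_ff (n₀ := n₀ + 1) (fun n hn hne => ?_)
  have hn1 : (0 : ℝ) < √n := by
    have : (0 : ℝ) < n := by exact_mod_cast (show 0 < n by omega)
    positivity
  have hp : 0 < (PQ μ ν).real (EvN (DD' c) n) := ENNReal.toReal_pos hne (measure_ne_top _ _)
  have h1 := hn₀ n (by omega) hne
  set Bad : Set (ℕ → ℝ × ℝ) := {ω | ∃ W, IsW (DD' c) n ω W ∧ τ * √n < |(W : ℝ) - σ * Mx σ n ω|}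
    with hBad
  have hbase : ∀ A B : Set (ℕ → ℝ × ℝ),
      (∀ ω, ω ∈ EvN (DD' c) n → IsW (DD' c) n ω (Wd c n ω) → ω ∈ A →
        |(Wd c n ω : ℝ) - σ * Mx σ n ω| ≤ τ * √n → ω ∈ B) →
      PN (DD' c) μ ν n A ≤ PN (DD' c) μ ν n B + δ := by
    intro A B hAB
    unfold PN
    rw [div_add' _ _ _ hp.ne']
    apply div_le_div_of_nonneg_right _ hp.le
    have h3 : (PQ μ ν).real (EvN (DD' c) n ∩ A) ≤
        (PQ μ ν).real ((EvN (DD' c) n ∩ B) ∪ (EvN (DD' c) n ∩ Bad)) := by
      unfold Measure.real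
      apply ENNReal.toReal_mono (measure_ne_top _ _)
      apply measure_mono_ae
      filter_upwards [ae_IsW h c n] with ω hω hωA
      have hE : ω ∈ EvN (DD' c) n := hωA.1
      have hA : ω ∈ A := hωA.2
      by_cases h4 : |(Wd c n ω : ℝ) - σ * Mx σ n ω| ≤ τ * √n
      · exact Or.inl ⟨hE, hAB ω hE (hω hE) hA h4⟩
      · push Not at h4
        exact Or.inr ⟨hE, ⟨_, hω hE, h4⟩⟩
    calc (PQ μ ν).real (EvN (DD' c) n ∩ A)
        ≤ (PQ μ ν).real ((EvN (DD' c) n ∩ B) ∪ (EvN (DD' c) n ∩ Bad)) := h3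
      _ ≤ (PQ μ ν).real (EvN (DD' c) n ∩ B) + (PQ μ ν).real (EvN (DD' c) n ∩ Bad) :=
          measureReal_union_le _ _
      _ ≤ (PQ μ ν).real (EvN (DD' c) n ∩ B) + δ * (PQ μ ν).real (EvN (DD' c) n) := by
          have : τ * (PQ μ ν).real (EvN (DD' c) n) ≤ δ * (PQ μ ν).real (EvN (DD' c) n) :=
            mul_le_mul_of_nonneg_right (min_le_right _ _) hp.le
          linarith
  have hτ1 : τ ≤ σ * (b - a) := min_le_left _ _
  constructor
  · apply hbase
    intro ω _ _ h5 h6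
    simp only [Set.mem_ofPred_eq] at h5 ⊢
    rw [div_le_iff₀ (by positivity)] at h5
    rw [abs_le] at h6
    have h7 : σ * Mx σ n ω ≤ σ * (b * √n) := by
      have h8 : τ * √n ≤ σ * (b - a) * √n := mul_le_mul_of_nonneg_right hτ1 hn1.le
      nlinarith [h6.1]
    exact le_of_mul_le_mul_left h7 hσ
  · apply hbase
    intro ω _ _ h5 h6
    simp only [Set.mem_ofPred_eq] at h5 ⊢
    rw [div_le_iff₀ (by positivity)]
    rw [abs_le] at h6
    have h7 : σ * Mx σ n ω ≤ σ * (a * √n) := mul_le_mul_of_nonneg_left h5 hσ.le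
    have h8 : τ * √n ≤ σ * (b - a) * √n := mul_le_mul_of_nonneg_right hτ1 hn1.le
    nlinarith [h6.2]

end Pool.Agent.BPT
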