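import Pool.Agent.MP_99a865_pr.FV.Y7

open MeasureTheory ProbabilityTheory Filter Topology
open scoped ENNReal NNReal

namespace Pool.Agent.BPT

set_option linter.unusedSectionVars false
set_option linter.unusedVariables false

/-- transfer of conditional probabilities -/
lemma transferP {μ ν : Measure ℝ} {σ : ℝ} (h : Hyp μ ν σ) (c : Bool) (n : ℕ)
    (A : Set ((ℕ → ℝ) × (ℕ → ℝ))) (B : Set (ℕ → ℝ × ℝ)) (hA : MeasurableSet A)
    (hB : MeasurableSet B)
    (hAB : ∀ p : (ℕ → ℝ) × (ℕ → ℝ), p ∈ busyEvent c n → (∀ k, 0 < p.1 k) → (∀ k, 0 < p.2 k) →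
      (p ∈ A ↔ zip p.1 p.2 ∈ B)) :
    (ProbabilityTheory.cond (queueLaw μ ν) (busyEvent c n)).real A = PN (DD' c) μ ν n B := by
  have := h.probμ
  have := h.probν
  rw [← EN_indicator (dom_DD' c) n B hB, ← transfer h c n (A.indicator fun _ => (1 : ℝ))
    (B.indicator fun _ => (1 : ℝ)) (measurable_const.indicator hB) ?_]
  · rw [integral_indicator_const _ hA, smul_eq_mul, mul_one]
  · intro p hp h1 h2
    by_cases h3 : p ∈ A
    · rw [Set.indicator_of_mem h3, Set.indicator_of_mem ((hAB p hp h1 h2).1 h3)]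
    · rw [Set.indicator_of_notMem h3,
        Set.indicator_of_notMem (fun h4 => h3 ((hAB p hp h1 h2).2 h4))]

lemma ff_eq {μ ν : Measure ℝ} {σ : ℝ} (h : Hyp μ ν σ) (c : Bool) :
    atTop ⊓ 𝓟 {n | queueLaw μ ν (busyEvent c n) ≠ 0} = ff (DD' c) μ ν := by
  unfold ff
  simp only [queue_busy h]

lemma meas_cast_nat : Measurable (fun k : ℕ => (k : ℝ)) := measurable_of_countable _

lemma final_height {μ ν : Measure ℝ} {σ : ℝ} (h : Hyp μ ν σ) (c : Bool) {x : ℝ} (hx : 0 < x) :
    Tendsto (fun n : ℕ => (ProbabilityTheory.cond (queueLaw μ ν) (busyEvent c n)).real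
      {p | σ * height c p.1 p.2 n / (2 * √n) ≤ x})
      (atTop ⊓ 𝓟 {n | queueLaw μ ν (busyEvent c n) ≠ 0}) (𝓝 (FF x)) := by
  rw [ff_eq h c]
  have h1 := height_limit (DD' c) μ ν σ (dom_DD' c) h.qstd (x := 2 * x) (by positivity)
  rw [mul_div_cancel_left₀ x (by norm_num : (2 : ℝ) ≠ 0)] at h1
  refine h1.congr fun n => ?_
  symm
  apply transferP h
  · exact measurableSet_le (((meas_cast_nat.comp (measurable_height c n).1).const_mul _).div_const _)
      measurable_const
  · exact measurableSet_le (((meas_cast_nat.comp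
      (measurable_HB (dom_DD' c) n).1).const_mul _).div_const _) measurable_const
  · intro p hp h2 h3
    have h4 := (height_eq c p.1 p.2 h2 h3 n hp).1
    simp only [Set.mem_ofPred_eq, h4]
    rcases Nat.eq_zero_or_pos n with h5 | h5
    · subst h5
      simp
    · have h6 : (0 : ℝ) < √n := by
        have : (0 : ℝ) < n := by exact_mod_cast h5
        positivity
      rw [div_le_iff₀ (by positivity), div_le_iff₀ h6]
      constructor <;> intro h7 <;> linarith

lemma final_width {μ ν : Measure ℝ} {σ : ℝ} (h : Hyp μ ν σ) (c : Bool) {x : ℝ} (hx : 0 < x) :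
    Tendsto (fun n : ℕ => (ProbabilityTheory.cond (queueLaw μ ν) (busyEvent c n)).real
      {p | width c p.1 p.2 n / (σ * √n) ≤ x})
      (atTop ⊓ 𝓟 {n | queueLaw μ ν (busyEvent c n) ≠ 0}) (𝓝 (FF x)) := by
  rw [ff_eq h c]
  refine (width_limit h c hx).congr fun n => ?_
  symm
  apply transferP h
  · exact measurableSet_le ((meas_cast_nat.comp (measurable_height c n).2.1).div_const _)
      measurable_const
  · exact measurableSet_le ((meas_cast_nat.comp (measurable_Wd c n)).div_const _)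
      measurable_const
  · intro p hp h2 h3
    exact Iff.rfl

lemma final_total {W : Measure ℝ} [IsProbabilityMeasure W] (hW : AreaLim W) {μ ν : Measure ℝ}
    {σ : ℝ} (h : Hyp μ ν σ) (c : Bool) (f : BoundedContinuousFunction ℝ ℝ) :
    Tendsto (fun n : ℕ => ∫ p, f (σ * totalHeight c p.1 p.2 n / (2 * (n * √n)))
      ∂(ProbabilityTheory.cond (queueLaw μ ν) (busyEvent c n)))
      (atTop ⊓ 𝓟 {n | queueLaw μ ν (busyEvent c n) ≠ 0}) (𝓝 (∫ x, f x ∂W)) := by
  rw [ff_eq h c]
  refine (total_limit_bcf hW (DD' c) μ ν σ (dom_DD' c) h.qstd f).congr fun n => ?_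
  symm
  apply transfer h
  · exact f.continuous.measurable.comp ((((meas_cast_nat.comp
      (measurable_HB (dom_DD' c) n).2).const_mul _).div_const _).div_const _)
  · intro p hp h2 h3
    have h4 := (height_eq c p.1 p.2 h2 h3 n hp).2.1
    rw [h4, div_div, mul_comm (2 : ℝ)]

end Pool.Agent.BPT
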